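import Mathlib

set_option autoImplicit false

namespace Pool.Agent.Helper579.Cg

open Polynomial

/-- characters -/
noncomputable def bee (x : ℝ) : ℂ := Complex.exp (Complex.I * (x : ℂ))

lemma bee_add (x y : ℝ) : bee (x + y) = bee x * bee y := by
  unfold bee
  rw [← Complex.exp_add]
  congr 1
  push_cast
  ring

lemma bee_norm (x : ℝ) : ‖bee x‖ = 1 := by
  unfold bee
  rw [mul_comm]
  exact Complex.norm_exp_ofReal_mul_I x

lemma bee_conj (x : ℝ) : (starRingEnd ℂ) (bee x) = bee (-x) := by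
  unfold bee
  rw [← Complex.exp_conj, map_mul, Complex.conj_I, Complex.conj_ofReal]
  congr 1
  push_cast
  ring

/-- sample points -/
noncomputable def bus (P s : ℕ) : ℝ := 2 * Real.pi * s / P

lemma omega (P : ℕ) (hP : 0 < P) (k : ℤ) (hk : |k| < P) :
    ∑ s ∈ Finset.range P, bee (k * bus P s) = if k = 0 then (P : ℂ) else 0 := by
  by_cases h0 : k = 0
  · subst h0
    simp [bee]
  · rw [if_neg h0]
    have hP' : (P : ℝ) ≠ 0 := by exact_mod_cast hP.ne'
    have hPc : (P : ℂ) ≠ 0 := by exact_mod_cast hP.ne'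
    have e1 : ∀ s : ℕ, bee (k * bus P s) = (bee (k * (2 * Real.pi) / P)) ^ s := by
      intro s
      unfold bee bus
      rw [← Complex.exp_nat_mul]
      congr 1
      push_cast
      ring
    simp_rw [e1]
    have hne : bee (k * (2 * Real.pi) / P) ≠ 1 := by
      intro h
      unfold bee at h
      rw [Complex.exp_eq_one_iff] at h
      obtain ⟨n, hn⟩ := h
      have h2 : (k : ℂ) = n * P := by
        have hpi : (2 * Real.pi * Complex.I : ℂ) ≠ 0 := by
          simp [Real.pi_ne_zero, Complex.I_ne_zero]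
        have h3 : Complex.I * (((k * (2 * Real.pi) / P : ℝ)) : ℂ) * P = (k : ℂ) * (2 * Real.pi * Complex.I) := by
          push_cast
          field_simp
        rw [hn] at h3
        have h4 : ((n : ℂ) * P) * (2 * Real.pi * Complex.I) = (k : ℂ) * (2 * Real.pi * Complex.I) := by
          rw [← h3]; ring
        exact (mul_right_cancel₀ hpi h4).symm
      have h3 : k = n * P := by exact_mod_cast h2
      have hn0 : n ≠ 0 := by
        rintro rfl
        exact h0 (by rw [h3]; ring)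
      rw [h3, abs_mul] at hk
      have h4 : 1 ≤ |n| := Int.one_le_abs hn0
      have h5 : |(P : ℤ)| = P := abs_of_nonneg (by positivity)
      rw [h5] at hk
      nlinarith
    rw [geom_sum_eq hne]
    have h1 : (bee (k * (2 * Real.pi) / P)) ^ P = 1 := by
      unfold bee
      rw [← Complex.exp_nat_mul, Complex.exp_eq_one_iff]
      refine ⟨k, ?_⟩
      push_cast
      field_simp
    rw [h1, sub_self, zero_div]

lemma bcnt_pos (N μ : ℕ) :
    ∑ a ∈ Finset.range N, ∑ b ∈ Finset.range N, (if ((μ : ℤ) + a - b = 0) then (1 : ℂ) else 0) =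
      ((N - μ : ℕ) : ℂ) := by
  have h1 : ∀ a ∈ Finset.range N, ∑ b ∈ Finset.range N, (if ((μ : ℤ) + a - b = 0) then (1 : ℂ) else 0) =
      if a < N - μ then 1 else 0 := by
    intro a _
    by_cases h : a < N - μ
    · rw [if_pos h, Finset.sum_eq_single (μ + a)]
      · rw [if_pos]; push_cast; ring
      · intro b _ hb
        rw [if_neg]
        intro h0
        apply hb
        omega
      · intro h0
        exfalso
        apply h0
        rw [Finset.mem_range]
        omega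
    · rw [if_neg h]
      apply Finset.sum_eq_zero
      intro b hb
      rw [Finset.mem_range] at hb
      rw [if_neg]
      omega
  rw [Finset.sum_congr rfl h1, ← Finset.sum_filter]
  have h2 : (Finset.range N).filter (fun a => a < N - μ) = Finset.range (N - μ) := by
    ext a
    simp only [Finset.mem_filter, Finset.mem_range]
    omega
  rw [h2]
  simp

lemma bcnt_neg (N μ : ℕ) :
    ∑ a ∈ Finset.range N, ∑ b ∈ Finset.range N, (if (-(μ : ℤ) + a - b = 0) then (1 : ℂ) else 0) =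
      ((N - μ : ℕ) : ℂ) := by
  rw [← bcnt_pos N μ, Finset.sum_comm]
  refine Finset.sum_congr rfl (fun a _ => Finset.sum_congr rfl (fun b _ => ?_))
  have : (-(μ : ℤ) + b - a = 0) ↔ ((μ : ℤ) + a - b = 0) := by omega
  simp only [this]

lemma bcnt_diff (N : ℕ) (j : ℤ) (hj : |j| ≤ N) :
    ∑ a ∈ Finset.range N, ∑ b ∈ Finset.range N, (if ((j + N) + a - b = 0) then (1 : ℂ) else 0) -
    ∑ a ∈ Finset.range N, ∑ b ∈ Finset.range N, (if ((j - N) + a - b = 0) then (1 : ℂ) else 0) =
      -(j : ℂ) := by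
  rw [abs_le] at hj
  rcases le_total 0 j with h | h
  · obtain ⟨ν, rfl⟩ := Int.eq_ofNat_of_zero_le h
    have hν : ν ≤ N := by omega
    have e1 : ((ν : ℤ) + N) = ((ν + N : ℕ) : ℤ) := by push_cast; ring
    have e2 : ((ν : ℤ) - N) = -((N - ν : ℕ) : ℤ) := by omega
    rw [e1, e2, bcnt_pos, bcnt_neg]
    have e3 : N - (ν + N) = 0 := by omega
    have e4 : N - (N - ν) = ν := by omega
    rw [e3, e4]
    push_cast
    ring
  · obtain ⟨ν, hν0⟩ := Int.eq_ofNat_of_zero_le (neg_nonneg.2 h)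
    have hj' : j = -(ν : ℤ) := by omega
    subst hj'
    have hν : ν ≤ N := by omega
    have e1 : (-(ν : ℤ) + N) = ((N - ν : ℕ) : ℤ) := by omega
    have e2 : (-(ν : ℤ) - N) = -((ν + N : ℕ) : ℤ) := by push_cast; ring
    rw [e1, e2, bcnt_pos, bcnt_neg]
    have e3 : N - (ν + N) = 0 := by omega
    have e4 : N - (N - ν) = ν := by omega
    rw [e3, e4]
    push_cast
    ring

/-- the kernel -/
noncomputable def bDD (N : ℕ) (u : ℝ) : ℂ := ∑ a ∈ Finset.range N, bee (a * u)

noncomputable def bKK (N : ℕ) (u : ℝ) : ℂ :=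
  (-Complex.I) * (bee (N * u) - bee (-(N * u))) * (bDD N u * (starRingEnd ℂ) (bDD N u))

lemma bDD_sq (N : ℕ) (u : ℝ) : bDD N u * (starRingEnd ℂ) (bDD N u) =
    ∑ a ∈ Finset.range N, ∑ b ∈ Finset.range N, bee ((((a : ℤ) - b : ℤ) : ℝ) * u) := by
  unfold bDD
  rw [map_sum, Finset.sum_mul_sum]
  refine Finset.sum_congr rfl (fun a _ => Finset.sum_congr rfl (fun b _ => ?_))
  rw [bee_conj, ← bee_add]
  congr 1
  push_cast
  ring

lemma bKK_norm (N : ℕ) (u : ℝ) : ‖bKK N u‖ ≤ 2 * ‖bDD N u‖ ^ 2 := by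
  unfold bKK
  rw [norm_mul, norm_mul, norm_mul, RCLike.norm_conj, norm_neg, Complex.norm_I, one_mul, ← sq]
  apply mul_le_mul_of_nonneg_right _ (by positivity)
  refine (norm_sub_le _ _).trans ?_
  rw [bee_norm, bee_norm]
  norm_num

lemma bDD_sum (N : ℕ) (hN : 0 < N) : ∑ s ∈ Finset.range (3 * N), ‖bDD N (bus (3 * N) s)‖ ^ 2 =
    3 * N * N := by
  have h1 : ∀ u, ((‖bDD N u‖ ^ 2 : ℝ) : ℂ) = bDD N u * (starRingEnd ℂ) (bDD N u) := by
    intro u
    rw [Complex.mul_conj, Complex.normSq_eq_norm_sq]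
  have h2 : (((∑ s ∈ Finset.range (3 * N), ‖bDD N (bus (3 * N) s)‖ ^ 2 : ℝ)) : ℂ) =
      ((3 * N * N : ℝ) : ℂ) := by
    rw [Complex.ofReal_sum]
    simp_rw [h1, bDD_sq]
    rw [Finset.sum_comm]
    have h3 : ∀ a ∈ Finset.range N, ∑ s ∈ Finset.range (3 * N), ∑ b ∈ Finset.range N,
        bee ((((a : ℤ) - b : ℤ) : ℝ) * bus (3 * N) s) = ((3 * N : ℕ) : ℂ) := by
      intro a ha
      rw [Finset.sum_comm]
      rw [Finset.mem_range] at ha
      have h4 : ∀ b ∈ Finset.range N, ∑ s ∈ Finset.range (3 * N),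
          bee ((((a : ℤ) - b : ℤ) : ℝ) * bus (3 * N) s) = if a = b then ((3 * N : ℕ) : ℂ) else 0 := by
        intro b hb
        rw [Finset.mem_range] at hb
        rw [omega (3 * N) (by omega) ((a : ℤ) - b) (by rw [abs_lt]; push_cast; constructor <;> omega)]
        by_cases hab : a = b
        · subst hab; simp
        · rw [if_neg hab, if_neg]; omega
      rw [Finset.sum_congr rfl h4, Finset.sum_ite_eq, if_pos (Finset.mem_range.2 ha)]
    rw [Finset.sum_congr rfl h3, Finset.sum_const, Finset.card_range, nsmul_eq_mul]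
    push_cast
    ring
  exact Complex.ofReal_injective h2

/-- the sampling operator -/
noncomputable def bAop (N : ℕ) (f : ℝ → ℂ) (φ : ℝ) : ℂ :=
  ((3 * N : ℕ) : ℂ)⁻¹ * ∑ s ∈ Finset.range (3 * N), f (φ + bus (3 * N) s) * bKK N (bus (3 * N) s)

lemma bAop_char (N : ℕ) (hN : 0 < N) (j : ℤ) (hj : |j| ≤ N) (φ : ℝ) :
    bAop N (fun θ => bee (j * θ)) φ = Complex.I * j * bee (j * φ) := by
  have hP : ((3 * N : ℕ) : ℂ) ≠ 0 := by
    have : 3 * N ≠ 0 := by omega
    exact_mod_cast this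
  have h1 : ∀ s : ℕ, bee (j * (φ + bus (3 * N) s)) * bKK N (bus (3 * N) s) =
      (-Complex.I * bee (j * φ)) * ∑ a ∈ Finset.range N, ∑ b ∈ Finset.range N,
        (bee (((j + N + a - b : ℤ) : ℝ) * bus (3 * N) s) - bee (((j - N + a - b : ℤ) : ℝ) * bus (3 * N) s)) := by
    intro s
    unfold bKK
    rw [bDD_sq, mul_add, bee_add]
    generalize bus (3 * N) s = u
    have e1 : ∀ a b : ℕ, bee (((j + N + a - b : ℤ) : ℝ) * u) - bee (((j - N + a - b : ℤ) : ℝ) * u) =
        bee (j * u) * (bee (N * u) - bee (-(N * u))) * bee ((((a : ℤ) - b : ℤ) : ℝ) * u) := by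
      intro a b
      have e2 : (((j + N + a - b : ℤ) : ℝ) * u) = j * u + N * u + (((a : ℤ) - b : ℤ) : ℝ) * u := by
        push_cast; ring
      have e3 : (((j - N + a - b : ℤ) : ℝ) * u) = j * u + -(N * u) + (((a : ℤ) - b : ℤ) : ℝ) * u := by
        push_cast; ring
      rw [e2, e3, bee_add, bee_add, bee_add, bee_add]
      ring
    simp_rw [e1, ← Finset.mul_sum]
    ring
  unfold bAop
  simp_rw [h1]
  rw [← Finset.mul_sum, Finset.sum_comm]
  have h2 : ∀ a ∈ Finset.range N, ∑ s ∈ Finset.range (3 * N), ∑ b ∈ Finset.range N,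
        (bee (((j + N + a - b : ℤ) : ℝ) * bus (3 * N) s) - bee (((j - N + a - b : ℤ) : ℝ) * bus (3 * N) s)) =
      ((3 * N : ℕ) : ℂ) * (∑ b ∈ Finset.range N, (if ((j + N) + a - b = 0) then (1 : ℂ) else 0) -
        ∑ b ∈ Finset.range N, (if ((j - N) + a - b = 0) then (1 : ℂ) else 0)) := by
    intro a ha
    rw [Finset.sum_comm, ← Finset.sum_sub_distrib, Finset.mul_sum]
    refine Finset.sum_congr rfl (fun b hb => ?_)
    rw [Finset.mem_range] at ha hb
    rw [abs_le] at hj
    rw [Finset.sum_sub_distrib, omega (3 * N) (by omega) (j + N + a - b)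
      (by rw [abs_lt]; push_cast; constructor <;> omega), omega (3 * N) (by omega) (j - N + a - b)
      (by rw [abs_lt]; push_cast; constructor <;> omega)]
    split_ifs <;> ring
  rw [Finset.sum_congr rfl h2, ← Finset.mul_sum, Finset.sum_sub_distrib, bcnt_diff N j hj]
  field_simp

lemma bAop_bound (N : ℕ) (hN : 0 < N) (f : ℝ → ℂ) {B : ℝ} (hB : ∀ θ, ‖f θ‖ ≤ B) (φ : ℝ) :
    ‖bAop N f φ‖ ≤ 2 * N * B := by
  have hB0 : 0 ≤ B := (norm_nonneg _).trans (hB 0)
  have hN' : (0 : ℝ) < N := by exact_mod_cast hN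
  unfold bAop
  rw [norm_mul, norm_inv, Complex.norm_natCast, inv_mul_le_iff₀ (by push_cast; positivity)]
  calc ‖∑ s ∈ Finset.range (3 * N), f (φ + bus (3 * N) s) * bKK N (bus (3 * N) s)‖
      ≤ ∑ s ∈ Finset.range (3 * N), ‖f (φ + bus (3 * N) s) * bKK N (bus (3 * N) s)‖ := norm_sum_le _ _
    _ ≤ ∑ s ∈ Finset.range (3 * N), B * (2 * ‖bDD N (bus (3 * N) s)‖ ^ 2) := by
        apply Finset.sum_le_sum
        intro s _
        rw [norm_mul]
        exact mul_le_mul (hB _) (bKK_norm _ _) (norm_nonneg _) hB0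
    _ = B * 2 * (3 * N * N) := by
        rw [← bDD_sum N hN, Finset.mul_sum]
        refine Finset.sum_congr rfl (fun s _ => ?_)
        ring
    _ = _ := by push_cast; ring

/-- trigonometric polynomials -/
noncomputable def bTT (N : ℕ) : Submodule ℂ (ℝ → ℂ) :=
  Submodule.span ℂ {f | ∃ j : ℤ, |j| ≤ N ∧ f = fun θ => bee (j * θ)}

lemma bTT_mono {N M : ℕ} (h : N ≤ M) : bTT N ≤ bTT M := by
  apply Submodule.span_mono
  rintro f ⟨j, hj, rfl⟩
  exact ⟨j, hj.trans (by exact_mod_cast h), rfl⟩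

lemma bTT_char {N : ℕ} {j : ℤ} (hj : |j| ≤ N) : (fun θ : ℝ => bee (j * θ)) ∈ bTT N :=
  Submodule.subset_span ⟨j, hj, rfl⟩

lemma bTT_mul {N : ℕ} {f : ℝ → ℂ} (hf : f ∈ bTT N) :
    (fun θ : ℝ => (((1 - Real.cos θ) / 2 : ℝ) : ℂ) * f θ) ∈ bTT (N + 1) := by
  unfold bTT at hf
  induction hf using Submodule.span_induction with
  | mem f hf =>
    obtain ⟨j, hj, rfl⟩ := hf
    have hj0 : |j| ≤ ((N + 1 : ℕ) : ℤ) := by push_cast; omega
    have hj1 : |j + 1| ≤ ((N + 1 : ℕ) : ℤ) := by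
      rw [abs_le] at hj ⊢; push_cast; constructor <;> omega
    have hj2 : |j - 1| ≤ ((N + 1 : ℕ) : ℤ) := by
      rw [abs_le] at hj ⊢; push_cast; constructor <;> omega
    have h1 := (bTT (N + 1)).add_mem ((bTT (N + 1)).smul_mem (1 / 2 : ℂ) (bTT_char hj0))
      ((bTT (N + 1)).smul_mem (-1 / 4 : ℂ) ((bTT (N + 1)).add_mem (bTT_char hj1) (bTT_char hj2)))
    convert h1 using 1
    funext θ
    have e1 : bee (((j + 1 : ℤ) : ℝ) * θ) = bee (j * θ) * bee θ := by
      rw [← bee_add]; congr 1; push_cast; ring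
    have e2 : bee (((j - 1 : ℤ) : ℝ) * θ) = bee (j * θ) * bee (-θ) := by
      rw [← bee_add]; congr 1; push_cast; ring
    have e3 : ((Real.cos θ : ℝ) : ℂ) = (bee θ + bee (-θ)) / 2 := by
      unfold bee
      rw [Complex.ofReal_cos, Complex.cos]
      push_cast
      congr 3 <;> ring
    simp only [Pi.add_apply, Pi.smul_apply, smul_eq_mul, e1, e2]
    push_cast
    rw [← Complex.ofReal_cos, e3]
    ring
  | zero =>
    have := (bTT (N + 1)).zero_mem
    convert this using 1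
    funext θ
    simp
  | add f g _ _ hf hg =>
    have := (bTT (N + 1)).add_mem hf hg
    convert this using 1
    funext θ
    simp only [Pi.add_apply]
    ring
  | smul c f _ hf =>
    have := (bTT (N + 1)).smul_mem c hf
    convert this using 1
    funext θ
    simp only [Pi.smul_apply, smul_eq_mul]
    ring

lemma bTT_pow (k : ℕ) : (fun θ : ℝ => ((((1 - Real.cos θ) / 2) ^ k : ℝ) : ℂ)) ∈ bTT k := by
  induction k with
  | zero =>
    have := bTT_char (N := 0) (j := 0) (by simp)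
    convert this using 1
    funext θ
    simp [bee]
  | succ k ih =>
    have := bTT_mul ih
    convert this using 1
    funext θ
    push_cast
    ring

lemma bTT_poly {N : ℕ} {Q : ℝ[X]} (hQ : Q.natDegree ≤ N) :
    (fun θ : ℝ => ((Q.eval ((1 - Real.cos θ) / 2) : ℝ) : ℂ)) ∈ bTT N := by
  have h1 : (fun θ : ℝ => ((Q.eval ((1 - Real.cos θ) / 2) : ℝ) : ℂ)) =
      ∑ k ∈ Finset.range (N + 1), (Q.coeff k : ℂ) • (fun θ : ℝ => ((((1 - Real.cos θ) / 2) ^ k : ℝ) : ℂ)) := by
    funext θ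
    rw [Polynomial.eval_eq_sum_range' (Nat.lt_succ_of_le hQ), Finset.sum_apply]
    push_cast
    refine Finset.sum_congr rfl (fun k _ => ?_)
    simp
  rw [h1]
  apply Submodule.sum_mem
  intro k hk
  rw [Finset.mem_range] at hk
  exact (bTT N).smul_mem _ (bTT_mono (by omega) (bTT_pow k))

lemma bTT_deriv (N : ℕ) (hN : 0 < N) {f : ℝ → ℂ} (hf : f ∈ bTT N) (φ : ℝ) :
    HasDerivAt f (bAop N f φ) φ := by
  unfold bTT at hf
  induction hf using Submodule.span_induction with
  | mem f hf =>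
    obtain ⟨j, hj, rfl⟩ := hf
    rw [bAop_char N hN j hj]
    unfold bee
    have h1 : HasDerivAt (fun θ : ℝ => Complex.I * (((j * θ : ℝ)) : ℂ)) (Complex.I * j) φ := by
      have h2 : HasDerivAt (fun θ : ℝ => (((j * θ : ℝ)) : ℂ)) ((j : ℝ) : ℂ) φ := by
        have h3 : HasDerivAt (fun θ : ℝ => (j : ℝ) * θ) (j : ℝ) φ := by
          simpa using (hasDerivAt_id φ).const_mul (j : ℝ)
        exact h3.ofReal_comp
      have h4 := h2.const_mul Complex.I
      simpa using h4
    have h5 := h1.cexp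
    convert h5 using 1
    ring
  | zero =>
    have : bAop N (0 : ℝ → ℂ) φ = 0 := by simp [bAop]
    rw [this]
    exact hasDerivAt_const φ 0
  | add f g _ _ hf hg =>
    have : bAop N (f + g) φ = bAop N f φ + bAop N g φ := by
      unfold bAop
      rw [← mul_add, ← Finset.sum_add_distrib]
      congr 1
      refine Finset.sum_congr rfl (fun s _ => ?_)
      simp only [Pi.add_apply]
      ring
    rw [this]
    exact hf.add hg
  | smul c f _ hf =>
    have : bAop N (c • f) φ = c • bAop N f φ := by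
      unfold bAop
      simp only [smul_eq_mul, Pi.smul_apply, Finset.mul_sum]
      refine Finset.sum_congr rfl (fun s _ => ?_)
      ring
    rw [this]
    exact hf.const_smul c

/-- Bernstein's inequality with the constant 2 (Lipschitz form): `φ ↦ Q(sin² φ)` is a
trigonometric polynomial of degree `≤ 2 N`. -/
lemma bern {N : ℕ} {Q : ℝ[X]} (hQ : Q.natDegree ≤ N) {B : ℝ}
    (hB : ∀ y ∈ Set.Icc (0 : ℝ) 1, |Q.eval y| ≤ B) (φ ψ : ℝ) :
    |Q.eval (Real.sin φ ^ 2) - Q.eval (Real.sin ψ ^ 2)| ≤ 4 * N * B * |φ - ψ| := by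
  rcases Nat.eq_zero_or_pos N with hN | hN
  · subst hN
    obtain ⟨c, hc⟩ := Polynomial.natDegree_eq_zero.1 (Nat.le_zero.1 hQ)
    rw [← hc]
    simp
  · obtain ⟨g, hg⟩ : ∃ g : ℝ → ℂ, g = fun θ : ℝ => ((Q.eval ((1 - Real.cos θ) / 2) : ℝ) : ℂ) := ⟨_, rfl⟩
    have hgT : g ∈ bTT N := by rw [hg]; exact bTT_poly hQ
    have hgB : ∀ θ, ‖g θ‖ ≤ B := by
      intro θ
      rw [hg]
      simp only
      rw [Complex.norm_real, Real.norm_eq_abs]
      apply hB
      have h1 := Real.neg_one_le_cos θ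
      have h2 := Real.cos_le_one θ
      constructor <;> linarith
    have hmv : ‖g (2 * φ) - g (2 * ψ)‖ ≤ 2 * N * B * ‖2 * φ - 2 * ψ‖ := by
      have := Convex.norm_image_sub_le_of_norm_hasDerivWithin_le (𝕜 := ℝ) (f := g) (f' := bAop N g)
        (s := Set.univ) (x := 2 * ψ) (y := 2 * φ) (C := 2 * N * B)
        (fun θ _ => (bTT_deriv N hN hgT θ).hasDerivWithinAt) (fun θ _ => bAop_bound N hN g hgB θ)
        convex_univ (Set.mem_univ _) (Set.mem_univ _)
      exact this
    have hs : ∀ x : ℝ, (1 - Real.cos (2 * x)) / 2 = Real.sin x ^ 2 := by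
      intro x
      rw [Real.sin_sq_eq_half_sub]
      ring
    rw [hg] at hmv
    simp only [hs] at hmv
    rw [← Complex.ofReal_sub, Complex.norm_real, Real.norm_eq_abs, Real.norm_eq_abs] at hmv
    have h3 : |2 * φ - 2 * ψ| = 2 * |φ - ψ| := by
      rw [← mul_sub, abs_mul]
      norm_num
    rw [h3] at hmv
    linarith

end Pool.Agent.Helper579.Cg
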