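import Mathlib

set_option autoImplicit false

namespace Pool.Agent.Helper579.Cg

open MeasureTheory

/-- the extremal value -/
noncomputable def mprod (p : ℝ) (t : ℕ) : ℝ :=
  ∏ j ∈ Finset.Icc 1 t, ((j : ℝ) * p / (1 - ((j : ℝ) + 1) * p)) ^ 2

lemma cg10_expand {p : ℝ} (hp : 0 < p) (N : ℕ) (c : ℕ → ℝ) {x : ℝ} (hx : 0 ≤ x) :
    x ^ (-p) * (∑ j ∈ Finset.range N, c j * (x ^ (-p)) ^ j) ^ 2 =
      ∑ i ∈ Finset.range N, ∑ j ∈ Finset.range N,
        c i * c j * x ^ (-(p * ((i : ℝ) + j + 1))) := by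
  rw [sq, Finset.sum_mul_sum, Finset.mul_sum]
  refine Finset.sum_congr rfl fun i _ => ?_
  rw [Finset.mul_sum]
  refine Finset.sum_congr rfl fun j _ => ?_
  have key : x ^ (-(p * ((i : ℝ) + j + 1))) = x ^ (-p) * ((x ^ (-p)) ^ i * (x ^ (-p)) ^ j) := by
    rcases hx.eq_or_lt with rfl | hx
    · have h1 : (-(p * ((i : ℝ) + j + 1))) ≠ 0 := by
        have : 0 < p * ((i : ℝ) + j + 1) := by positivity
        linarith
      have h2 : -p ≠ 0 := by linarith
      rw [Real.zero_rpow h1, Real.zero_rpow h2]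
      simp
    · rw [← pow_add, ← Real.rpow_natCast, ← Real.rpow_mul hx.le, ← Real.rpow_add hx]
      congr 1
      push_cast
      ring
  rw [key]
  ring

lemma cg10_int_expand {p : ℝ} (hp : 0 < p) (N : ℕ) (c : ℕ → ℝ) {κ : ℝ} (hκ : 0 ≤ κ) (hκ1 : κ ≤ 1)
    (hI : ∀ i ∈ Finset.range N, ∀ j ∈ Finset.range N, IntervalIntegrable
      (fun x : ℝ => x ^ (-(p * ((i : ℝ) + j + 1)))) volume κ 1) :
    ∫ x in κ..1, x ^ (-p) * (∑ j ∈ Finset.range N, c j * (x ^ (-p)) ^ j) ^ 2 =
      ∑ i ∈ Finset.range N, ∑ j ∈ Finset.range N,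
        c i * c j * ∫ x in κ..1, x ^ (-(p * ((i : ℝ) + j + 1))) := by
  have h1 : ∫ x in κ..1, x ^ (-p) * (∑ j ∈ Finset.range N, c j * (x ^ (-p)) ^ j) ^ 2 =
      ∫ x in κ..1, ∑ i ∈ Finset.range N, ∑ j ∈ Finset.range N,
        c i * c j * x ^ (-(p * ((i : ℝ) + j + 1))) := by
    refine intervalIntegral.integral_congr fun x hx => ?_
    rw [Set.uIcc_of_le hκ1] at hx
    exact cg10_expand hp N c (hκ.trans hx.1)
  rw [h1, intervalIntegral.integral_finsetSum]
  · refine Finset.sum_congr rfl fun i hi => ?_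
    rw [intervalIntegral.integral_finsetSum]
    · refine Finset.sum_congr rfl fun j _ => ?_
      rw [intervalIntegral.integral_const_mul]
    · intro j hj
      exact (hI i hi j hj).const_mul _
  · intro i hi
    have h2 := IntervalIntegrable.sum (Finset.range N)
      (f := fun (j : ℕ) (x : ℝ) => c i * c j * x ^ (-(p * ((i : ℝ) + j + 1))))
      (fun j hj => (hI i hi j hj).const_mul _)
    have e : (fun x : ℝ => ∑ j ∈ Finset.range N, c i * c j * x ^ (-(p * ((i : ℝ) + j + 1)))) =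
        ∑ j ∈ Finset.range N, fun x : ℝ => c i * c j * x ^ (-(p * ((i : ℝ) + j + 1))) := by
      funext x
      rw [Finset.sum_apply]
    rw [e]
    exact h2

lemma cg10_pos {p : ℝ} (hp : 0 < p) {t : ℕ} (ht : (2 * t + 1) * p < 1) {i j : ℕ}
    (hi : i ∈ Finset.range (t + 1)) (hj : j ∈ Finset.range (t + 1)) :
    0 < 1 - p * ((i : ℝ) + j + 1) := by
  have hi' : (i : ℝ) ≤ t := by exact_mod_cast Nat.lt_succ_iff.1 (Finset.mem_range.1 hi)
  have hj' : (j : ℝ) ≤ t := by exact_mod_cast Nat.lt_succ_iff.1 (Finset.mem_range.1 hj)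
  nlinarith

lemma cg10_int01 {p : ℝ} (hp : 0 < p) {t : ℕ} (ht : (2 * t + 1) * p < 1) {i j : ℕ}
    (hi : i ∈ Finset.range (t + 1)) (hj : j ∈ Finset.range (t + 1)) :
    ∫ x in (0 : ℝ)..1, x ^ (-(p * ((i : ℝ) + j + 1))) = 1 / (1 - p * ((i : ℝ) + j + 1)) := by
  have h := cg10_pos hp ht hi hj
  rw [integral_rpow (Or.inl (by linarith))]
  rw [Real.one_rpow, Real.zero_rpow (by linarith)]
  congr 1
  · ring
  · ring

/-- the Cauchy matrix is positive semidefinite -/
lemma cg10_psd {p : ℝ} (hp : 0 < p) (t : ℕ) (ht : (2 * t + 1) * p < 1) (d : ℕ → ℝ) :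
    0 ≤ ∑ i ∈ Finset.range (t + 1), ∑ j ∈ Finset.range (t + 1),
      d i * d j / (1 - p * (i + j + 1)) := by
  have h := cg10_int_expand hp (t + 1) d (κ := 0) le_rfl zero_le_one (by
    intro i hi j hj
    have h := cg10_pos hp ht hi hj
    exact intervalIntegral.intervalIntegrable_rpow' (by linarith))
  have h2 : ∑ i ∈ Finset.range (t + 1), ∑ j ∈ Finset.range (t + 1),
      d i * d j / (1 - p * (i + j + 1)) = ∑ i ∈ Finset.range (t + 1), ∑ j ∈ Finset.range (t + 1),
      d i * d j * ∫ x in (0 : ℝ)..1, x ^ (-(p * ((i : ℝ) + j + 1))) := by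
    refine Finset.sum_congr rfl fun i hi => Finset.sum_congr rfl fun j hj => ?_
    rw [cg10_int01 hp ht hi hj]
    ring
  rw [h2, ← h]
  refine intervalIntegral.integral_nonneg zero_le_one fun x hx => ?_
  have : 0 ≤ x ^ (-p) := Real.rpow_nonneg hx.1 _
  positivity

/-- the extremal vector -/
lemma cg10_star {p : ℝ} (hp : 0 < p) (t : ℕ) (ht : (2 * t + 1) * p < 1) :
    ∃ c : ℕ → ℝ, c 0 = 1 ∧
      (∀ i ∈ Finset.Icc 1 t, ∑ j ∈ Finset.range (t + 1), c j / (1 - p * (i + j + 1)) = 0) ∧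
      ∑ j ∈ Finset.range (t + 1), c j / (1 - p * ((0 : ℕ) + j + 1)) = mprod p t / (1 - p) := by
  set a : ℕ → ℝ := fun j => 1 / 2 - p * (j + 1 / 2) with ha
  set v : ℕ → ℝ := fun j => - a j with hv
  set s := Finset.range (t + 1) with hs
  have hss : ∀ i j : ℕ, a i + a j = 1 - p * (i + j + 1) := by
    intro i j; simp only [ha]; ring
  have hapos : ∀ i ∈ s, 0 < a i := by
    intro i hi
    have := cg10_pos hp ht hi hi
    simp only [ha]
    linarith
  have hainj : Function.Injective a := by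
    intro i j h
    simp only [ha] at h
    have : p * ((i : ℝ) - j) = 0 := by linarith
    rcases mul_eq_zero.1 this with h | h
    · exact absurd h hp.ne'
    · exact_mod_cast sub_eq_zero.1 h
  have hvinj : Set.InjOn v s := by
    intro i _ j _ h
    simp only [hv, neg_inj] at h
    exact hainj h
  set P : Polynomial ℝ := ∏ i ∈ Finset.Icc 1 t, (Polynomial.X - Polynomial.C (a i)) with hP
  have hPe : ∀ x, P.eval x = ∏ i ∈ Finset.Icc 1 t, (x - a i) := by
    intro x
    rw [hP, Polynomial.eval_prod]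
    simp
  have hPd : P.degree < (s.card : WithBot ℕ) := by
    rw [hP, Polynomial.degree_prod]
    simp only [Polynomial.degree_X_sub_C]
    rw [Finset.sum_const, Nat.card_Icc, hs, Finset.card_range]
    simp only [Nat.add_sub_cancel, nsmul_eq_mul, mul_one]
    exact_mod_cast Nat.lt_succ_self t
  have h0s : 0 ∈ s := by simp [hs]
  have herase : s.erase 0 = Finset.Icc 1 t := by
    ext j
    simp only [hs, Finset.mem_erase, Finset.mem_range, Finset.mem_Icc]
    omega
  have hinterp : ∀ i ∈ s, ∑ j ∈ s, (Lagrange.nodalWeight s v j * P.eval (v j)) / (a i + a j)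
      = P.eval (a i) / ∏ j ∈ s, (a i + a j) := by
    intro i hi
    have hne : ∀ j ∈ s, a i ≠ v j := by
      intro j hj
      have := hapos i hi
      have := hapos j hj
      simp only [hv]
      linarith
    have h1 := Lagrange.eval_interpolate_not_at_node (s := s) (v := v) (fun j => P.eval (v j)) hne
    rw [← Lagrange.eq_interpolate_of_eval_eq (fun j => P.eval (v j)) hvinj hPd (fun j _ => rfl)] at h1
    have h2 : Polynomial.eval (a i) (Lagrange.nodal s v) = ∏ j ∈ s, (a i + a j) := by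
      rw [Lagrange.eval_nodal]
      refine Finset.prod_congr rfl fun j _ => ?_
      simp only [hv]; ring
    have h3 : ∏ j ∈ s, (a i + a j) ≠ 0 := by
      refine Finset.prod_ne_zero_iff.2 fun j hj => ?_
      have := hapos i hi
      have := hapos j hj
      linarith
    rw [h1, h2, mul_div_cancel_left₀ _ h3]
    refine Finset.sum_congr rfl fun j _ => ?_
    simp only [hv, sub_neg_eq_add, div_eq_mul_inv]
    ring
  set w : ℕ → ℝ := fun j => Lagrange.nodalWeight s v j * P.eval (v j) with hw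
  have hw0 : w 0 = ∏ j ∈ Finset.Icc 1 t, ((a 0 + a j) / (a 0 - a j)) := by
    simp only [hw, Lagrange.nodalWeight, herase, hPe]
    rw [← Finset.prod_mul_distrib]
    refine Finset.prod_congr rfl fun j hj => ?_
    have hj' : j ≠ 0 := by
      have := (Finset.mem_Icc.1 hj).1
      omega
    have hne : a 0 - a j ≠ 0 := by
      intro h
      exact hj' (hainj (sub_eq_zero.1 h)).symm
    have hne2 : v 0 - v j ≠ 0 := by
      simp only [hv]
      intro h
      apply hne
      linarith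
    field_simp
    simp only [hv]
    ring
  have hmem : ∀ j ∈ Finset.Icc 1 t, j ∈ s := by
    intro j hj
    rw [← herase] at hj
    exact Finset.mem_of_mem_erase hj
  have hw0ne : w 0 ≠ 0 := by
    rw [hw0]
    refine Finset.prod_ne_zero_iff.2 fun j hj => ?_
    have h1 := hapos 0 h0s
    have h2 := hapos j (hmem j hj)
    have hj' : j ≠ 0 := by
      have := (Finset.mem_Icc.1 hj).1
      omega
    have hne : a 0 - a j ≠ 0 := by
      intro h
      exact hj' (hainj (sub_eq_zero.1 h)).symm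
    exact div_ne_zero (by linarith) hne
  have hsum : ∀ i ∈ s, ∑ j ∈ s, (w j / w 0) / (1 - p * (i + j + 1))
      = (P.eval (a i) / ∏ j ∈ s, (a i + a j)) / w 0 := by
    intro i hi
    rw [← hinterp i hi, Finset.sum_div]
    refine Finset.sum_congr rfl fun j _ => ?_
    rw [hss]
    simp only [hw]
    rw [div_right_comm]
  refine ⟨fun j => w j / w 0, div_self hw0ne, ?_, ?_⟩
  · intro i hi
    rw [hsum i (hmem i hi), hPe, Finset.prod_eq_zero hi (sub_self _)]
    simp
  · rw [hsum 0 h0s, hPe, hw0]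
    have h1 : ∏ j ∈ s, (a 0 + a j) = (a 0 + a 0) * ∏ j ∈ Finset.Icc 1 t, (a 0 + a j) := by
      rw [← herase, Finset.mul_prod_erase s (fun j => a 0 + a j) h0s]
    rw [h1, mprod]
    have h2 : a 0 + a 0 = 1 - p := by
      rw [hss]; push_cast; ring
    rw [h2]
    have h3 : ∏ j ∈ Finset.Icc 1 t, ((j : ℝ) * p / (1 - ((j : ℝ) + 1) * p)) ^ 2
        = (∏ j ∈ Finset.Icc 1 t, (a 0 - a j)) / (∏ j ∈ Finset.Icc 1 t, (a 0 + a j)) /
          ∏ j ∈ Finset.Icc 1 t, ((a 0 + a j) / (a 0 - a j)) := by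
      rw [← Finset.prod_div_distrib, ← Finset.prod_div_distrib]
      refine Finset.prod_congr rfl fun j hj => ?_
      have e1 : a 0 - a j = j * p := by simp only [ha]; push_cast; ring
      have e2 : a 0 + a j = 1 - ((j : ℝ) + 1) * p := by rw [hss]; push_cast; ring
      rw [e1, e2, div_div_eq_mul_div, sq]
      ring
    rw [h3]
    generalize ∏ j ∈ Finset.Icc 1 t, (a 0 - a j) = A
    generalize ∏ j ∈ Finset.Icc 1 t, (a 0 + a j) = B
    generalize ∏ j ∈ Finset.Icc 1 t, ((a 0 + a j) / (a 0 - a j)) = W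
    generalize 1 - p = q
    ring

lemma cg10_quad {p : ℝ} (hp : 0 < p) (t : ℕ) (ht : (2 * t + 1) * p < 1) (c cs : ℕ → ℝ)
    (hc : c 0 = 1) (hcs : cs 0 = 1)
    (h1 : ∀ i ∈ Finset.Icc 1 t, ∑ j ∈ Finset.range (t + 1), cs j / (1 - p * (i + j + 1)) = 0)
    (h0 : ∑ j ∈ Finset.range (t + 1), cs j / (1 - p * ((0 : ℕ) + j + 1)) = mprod p t / (1 - p)) :
    ∑ i ∈ Finset.range (t + 1), ∑ j ∈ Finset.range (t + 1), c i * c j / (1 - p * (i + j + 1)) =
      mprod p t / (1 - p) + ∑ i ∈ Finset.range (t + 1), ∑ j ∈ Finset.range (t + 1),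
        (c i - cs i) * (c j - cs j) / (1 - p * (i + j + 1)) := by
  -- the bilinear form with the extremal vector
  have hB : ∀ d : ℕ → ℝ, ∑ i ∈ Finset.range (t + 1), ∑ j ∈ Finset.range (t + 1),
      d i * cs j / (1 - p * (i + j + 1)) = d 0 * (mprod p t / (1 - p)) := by
    intro d
    have : ∀ i ∈ Finset.range (t + 1), ∑ j ∈ Finset.range (t + 1),
        d i * cs j / (1 - p * ((i : ℝ) + j + 1)) =
        d i * ∑ j ∈ Finset.range (t + 1), cs j / (1 - p * ((i : ℝ) + j + 1)) := by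
      intro i _
      rw [Finset.mul_sum]
      exact Finset.sum_congr rfl fun j _ => by ring
    rw [Finset.sum_congr rfl this, Finset.sum_eq_single 0]
    · rw [h0]
    · intro i hi hi0
      rw [h1 i (Finset.mem_Icc.2 ⟨by omega, by have := Finset.mem_range.1 hi; omega⟩), mul_zero]
    · intro h
      exact absurd (Finset.mem_range.2 (Nat.succ_pos t)) h
  have hB' : ∀ d : ℕ → ℝ, ∑ i ∈ Finset.range (t + 1), ∑ j ∈ Finset.range (t + 1),
      cs i * d j / (1 - p * (i + j + 1)) = d 0 * (mprod p t / (1 - p)) := by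
    intro d
    rw [Finset.sum_comm, ← hB d]
    refine Finset.sum_congr rfl fun i _ => Finset.sum_congr rfl fun j _ => ?_
    rw [mul_comm (cs j) (d i), add_comm (j : ℝ) (i : ℝ)]
  have e1 := hB c
  have e2 := hB' c
  have e3 := hB cs
  rw [hc] at e1 e2
  rw [hcs] at e3
  have e4 : ∑ i ∈ Finset.range (t + 1), ∑ j ∈ Finset.range (t + 1),
        (c i - cs i) * (c j - cs j) / (1 - p * ((i : ℝ) + j + 1)) =
      ∑ i ∈ Finset.range (t + 1), ∑ j ∈ Finset.range (t + 1), c i * c j / (1 - p * ((i : ℝ) + j + 1))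
      - ∑ i ∈ Finset.range (t + 1), ∑ j ∈ Finset.range (t + 1), c i * cs j / (1 - p * ((i : ℝ) + j + 1))
      - ∑ i ∈ Finset.range (t + 1), ∑ j ∈ Finset.range (t + 1), cs i * c j / (1 - p * ((i : ℝ) + j + 1))
      + ∑ i ∈ Finset.range (t + 1), ∑ j ∈ Finset.range (t + 1),
        cs i * cs j / (1 - p * ((i : ℝ) + j + 1)) := by
    rw [← Finset.sum_sub_distrib, ← Finset.sum_sub_distrib, ← Finset.sum_add_distrib]
    refine Finset.sum_congr rfl fun i _ => ?_
    rw [← Finset.sum_sub_distrib, ← Finset.sum_sub_distrib, ← Finset.sum_add_distrib]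
    refine Finset.sum_congr rfl fun j _ => ?_
    ring
  rw [e4, e1, e2, e3]
  ring

lemma cg10_p1 {p : ℝ} (hp : 0 < p) (t : ℕ) (ht : (2 * t + 1) * p < 1) : 0 < 1 - p := by
  have : (0 : ℝ) ≤ t := Nat.cast_nonneg t
  nlinarith

/-- the minimum of the quadratic form with the Cauchy matrix `1 / (1 - p (i + j + 1))` -/
lemma cauchy_min {p : ℝ} (hp : 0 < p) (t : ℕ) (ht : (2 * t + 1) * p < 1) (c : ℕ → ℝ)
    (hc : c 0 = 1) :
    mprod p t ≤ (1 - p) * ∑ i ∈ Finset.range (t + 1), ∑ j ∈ Finset.range (t + 1),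
      c i * c j / (1 - p * (i + j + 1)) := by
  obtain ⟨cs, hcs, h1, h0⟩ := cg10_star hp t ht
  rw [cg10_quad hp t ht c cs hc hcs h1 h0]
  have h := cg10_psd hp t ht (fun i => c i - cs i)
  have hp1 := cg10_p1 hp t ht
  rw [mul_add, mul_div_cancel₀ _ hp1.ne']
  have := mul_nonneg hp1.le h
  linarith

lemma cauchy_attained {p : ℝ} (hp : 0 < p) (t : ℕ) (ht : (2 * t + 1) * p < 1) :
    ∃ c : ℕ → ℝ, c 0 = 1 ∧
    mprod p t = (1 - p) * ∑ i ∈ Finset.range (t + 1), ∑ j ∈ Finset.range (t + 1),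
      c i * c j / (1 - p * (i + j + 1)) := by
  obtain ⟨cs, hcs, h1, h0⟩ := cg10_star hp t ht
  refine ⟨cs, hcs, ?_⟩
  rw [cg10_quad hp t ht cs cs hcs hcs h1 h0]
  have hp1 := cg10_p1 hp t ht
  simp only [sub_self, zero_mul, zero_div, Finset.sum_const_zero, add_zero]
  rw [mul_div_cancel₀ _ hp1.ne']

/-- extension by zero -/
noncomputable def cg10ext {J : ℕ} (c : Fin (J + 1) → ℝ) (j : ℕ) : ℝ :=
  if h : j < J + 1 then c ⟨j, h⟩ else 0

/-- the quadratic form on `[κ, 1]` -/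
noncomputable def cg10q (p : ℝ) (J : ℕ) (κ : ℝ) (c : ℕ → ℝ) : ℝ :=
  ∫ x in κ..1, x ^ (-p) * (∑ j ∈ Finset.range (J + 1), c j * (x ^ (-p)) ^ j) ^ 2

lemma cg10_contOn (p : ℝ) (J : ℕ) {κ b : ℝ} (hκ : 0 < κ) (c : ℕ → ℝ) :
    ContinuousOn (fun x : ℝ => x ^ (-p) * (∑ j ∈ Finset.range (J + 1), c j * (x ^ (-p)) ^ j) ^ 2)
      (Set.Icc κ b) := by
  have h1 : ContinuousOn (fun x : ℝ => x ^ (-p)) (Set.Icc κ b) :=
    continuousOn_id.rpow_const fun x hx => Or.inl (lt_of_lt_of_le hκ hx.1).ne'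
  refine h1.mul (ContinuousOn.pow ?_ 2)
  exact continuousOn_finsetSum _ fun j _ => continuousOn_const.mul (h1.pow j)

lemma cg10_nonneg (p : ℝ) (J : ℕ) (c : ℕ → ℝ) {x : ℝ} (hx : 0 ≤ x) :
    0 ≤ x ^ (-p) * (∑ j ∈ Finset.range (J + 1), c j * (x ^ (-p)) ^ j) ^ 2 := by
  have : 0 ≤ x ^ (-p) := Real.rpow_nonneg hx _
  positivity

lemma cg10_mono (p : ℝ) (J : ℕ) (c : ℕ → ℝ) {κ a b : ℝ} (hκ : 0 < κ) (h1 : κ ≤ a) (h2 : a ≤ b)
    (h3 : b ≤ 1) :
    ∫ x in a..b, x ^ (-p) * (∑ j ∈ Finset.range (J + 1), c j * (x ^ (-p)) ^ j) ^ 2 ≤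
      cg10q p J κ c := by
  unfold cg10q
  refine intervalIntegral.integral_mono_interval h1 h2 h3 ?_ ?_
  · refine (ae_restrict_iff' measurableSet_Ioc).2 (ae_of_all _ fun x hx => ?_)
    exact cg10_nonneg p J c (hκ.trans hx.1).le
  · exact ContinuousOn.intervalIntegrable_of_Icc (h1.trans (h2.trans h3)) (cg10_contOn p J hκ c)

lemma cg10_ext_cont {J : ℕ} (j : ℕ) : Continuous fun c : Fin (J + 1) → ℝ => cg10ext c j := by
  unfold cg10ext
  by_cases h : j < J + 1
  · simp only [h, dif_pos]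
    exact continuous_apply _
  · simp only [h]
    exact continuous_const

lemma cg10_q_cont {p : ℝ} (hp : 0 < p) (J : ℕ) {κ : ℝ} (hκ : 0 < κ) (hκ1 : κ ≤ 1) :
    Continuous fun c : Fin (J + 1) → ℝ => cg10q p J κ (cg10ext c) := by
  have : (fun c : Fin (J + 1) → ℝ => cg10q p J κ (cg10ext c)) = fun c =>
      ∑ i ∈ Finset.range (J + 1), ∑ j ∈ Finset.range (J + 1),
        cg10ext c i * cg10ext c j * ∫ x in κ..1, x ^ (-(p * ((i : ℝ) + j + 1))) := by
    funext c
    unfold cg10q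
    refine cg10_int_expand hp (J + 1) (cg10ext c) hκ.le hκ1 fun i _ j _ => ?_
    refine intervalIntegral.intervalIntegrable_rpow (Or.inr ?_)
    rw [Set.uIcc_of_le hκ1]
    exact fun h => absurd h.1 (not_le.2 hκ)
  rw [this]
  exact continuous_finsetSum _ fun i _ => continuous_finsetSum _ fun j _ =>
    ((cg10_ext_cont i).mul (cg10_ext_cont j)).mul continuous_const

lemma cg10_q_smul (p : ℝ) (J : ℕ) (κ r : ℝ) (c : Fin (J + 1) → ℝ) :
    cg10q p J κ (cg10ext (r • c)) = r ^ 2 * cg10q p J κ (cg10ext c) := by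
  unfold cg10q
  rw [← intervalIntegral.integral_const_mul]
  congr 1
  funext x
  have h : ∀ j, cg10ext (r • c) j = r * cg10ext c j := by
    intro j
    unfold cg10ext
    by_cases h : j < J + 1 <;> simp [h]
  simp only [h, mul_assoc, ← Finset.mul_sum]
  ring

/-- the polynomial with the given coefficients -/
noncomputable def cg10P (J : ℕ) (a : ℕ → ℝ) : Polynomial ℝ :=
  ∑ j ∈ Finset.range (J + 1), Polynomial.C (a j) * Polynomial.X ^ j

lemma cg10P_eval (J : ℕ) (a : ℕ → ℝ) (y : ℝ) :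
    (cg10P J a).eval y = ∑ j ∈ Finset.range (J + 1), a j * y ^ j := by
  unfold cg10P
  rw [Polynomial.eval_finsetSum]
  simp

lemma cg10P_coeff (J : ℕ) (a : ℕ → ℝ) {j : ℕ} (hj : j < J + 1) : (cg10P J a).coeff j = a j := by
  unfold cg10P
  rw [Polynomial.finsetSum_coeff]
  simp [Polynomial.coeff_C_mul, Polynomial.coeff_X_pow, hj]

lemma cg10_q_pos {p : ℝ} (hp : 0 < p) (J : ℕ) (c : Fin (J + 1) → ℝ) (hc : c ≠ 0) :
    0 < cg10q p J (1 / 2) (cg10ext c) := by
  unfold cg10q
  refine intervalIntegral.integral_pos (by norm_num) (cg10_contOn p J (by norm_num) _) ?_ ?_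
  · intro x hx
    exact cg10_nonneg p J _ (by linarith [hx.1])
  · by_contra hcon
    push Not at hcon
    have hroot : ∀ x ∈ Set.Icc (1 / 2 : ℝ) 1, (cg10P J (cg10ext c)).IsRoot (x ^ (-p)) := by
      intro x hx
      have hx0 : 0 < x := by linarith [hx.1]
      have h1 := hcon x hx
      have hy : 0 < x ^ (-p) := Real.rpow_pos_of_pos hx0 _
      rw [Polynomial.IsRoot, cg10P_eval]
      by_contra hne
      have : 0 < (∑ j ∈ Finset.range (J + 1), cg10ext c j * (x ^ (-p)) ^ j) ^ 2 := by positivity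
      have := mul_pos hy this
      linarith
    have hinf : Set.Infinite ((fun x : ℝ => x ^ (-p)) '' Set.Icc (1 / 2 : ℝ) 1) := by
      refine Set.Infinite.image ?_ (Set.Icc_infinite (by norm_num))
      intro x hx y hy hxy
      have hx0 : 0 < x := by linarith [hx.1]
      have hy0 : 0 < y := by linarith [hy.1]
      exact (Real.rpow_left_inj hx0.le hy0.le (by linarith)).1 hxy
    have hP : cg10P J (cg10ext c) = 0 := by
      refine Polynomial.eq_zero_of_infinite_isRoot _ (hinf.mono ?_)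
      rintro _ ⟨x, hx, rfl⟩
      exact hroot x hx
    apply hc
    funext i
    have h := cg10P_coeff J (cg10ext c) i.2
    rw [hP, Polynomial.coeff_zero] at h
    have h2 : cg10ext c i = c i := by
      unfold cg10ext
      rw [dif_pos i.2]
    rw [Pi.zero_apply, ← h2, ← h]

/-- divergence at the origin -/
lemma cg10_div {p : ℝ} (hp : 0 < p) (t : ℕ) (ht' : 1 ≤ (2 * (t + 1) + 1) * p) (J : ℕ) (a : ℕ → ℝ)
    (haJ : ∀ j, J < j → a j = 0) (j : ℕ) (hj : t < j) (haj : a j ≠ 0) (M : ℝ) :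
    ∃ K : ℕ, ∀ k : ℕ, K ≤ k → M < cg10q p J (1 / ((k : ℝ) + 2)) a := by
  have hjJ : j ≤ J := by
    by_contra h
    exact haj (haJ j (not_le.1 h))
  have hdeg : (Polynomial.X ^ (t + 1) : Polynomial ℝ).degree ≤ (cg10P J a).degree := by
    have h1 : ((j : ℕ) : WithBot ℕ) ≤ (cg10P J a).degree :=
      Polynomial.le_degree_of_ne_zero (by rw [cg10P_coeff J a (by omega)]; exact haj)
    rw [Polynomial.degree_X_pow]
    refine le_trans ?_ h1
    exact_mod_cast hj
  obtain ⟨C, hC, hbig⟩ := (Polynomial.isBigO_atTop_of_degree_le _ _ hdeg).exists_pos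
  rw [Asymptotics.isBigOWith_iff] at hbig
  have hev := (tendsto_rpow_neg_nhdsGT_zero (y := -p) (by linarith)).eventually hbig
  obtain ⟨u, hu, hsub⟩ := mem_nhdsGT_iff_exists_Ioo_subset.1 hev
  have hu0 : 0 < u := hu
  set x0 := min u 1 / 2 with hx0
  have hm : 0 < min u 1 := lt_min hu0 one_pos
  have hx0pos : 0 < x0 := by positivity
  have hx0u : x0 < u := lt_of_lt_of_le (by rw [hx0]; linarith) (min_le_left u 1)
  have hx01 : x0 < 1 := lt_of_lt_of_le (by rw [hx0]; linarith) (min_le_right u 1)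
  -- the pointwise bound
  have hpt : ∀ x, 0 < x → x ≤ x0 → (C ^ 2)⁻¹ * x⁻¹ ≤
      x ^ (-p) * (∑ j ∈ Finset.range (J + 1), a j * (x ^ (-p)) ^ j) ^ 2 := by
    intro x hx hxx
    have h1 := hsub ⟨hx, lt_of_le_of_lt hxx hx0u⟩
    simp only [Set.mem_ofPred_eq, Polynomial.eval_pow, Polynomial.eval_X, cg10P_eval,
      Real.norm_eq_abs] at h1
    have hy : 0 < x ^ (-p) := Real.rpow_pos_of_pos hx _
    rw [abs_of_pos (by positivity : 0 < (x ^ (-p)) ^ (t + 1))] at h1
    set Sm := ∑ j ∈ Finset.range (J + 1), a j * (x ^ (-p)) ^ j with hSm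
    have h2 : ((x ^ (-p)) ^ (t + 1)) ^ 2 ≤ C ^ 2 * Sm ^ 2 := by
      have := pow_le_pow_left₀ (by positivity) h1 2
      rw [mul_pow, sq_abs] at this
      exact this
    have h3 : (C ^ 2)⁻¹ * ((x ^ (-p)) ^ (t + 1)) ^ 2 ≤ Sm ^ 2 := by
      rw [inv_mul_le_iff₀ (by positivity)]
      exact h2
    have h4 : x⁻¹ ≤ x ^ (-p) * ((x ^ (-p)) ^ (t + 1)) ^ 2 := by
      have e : x ^ (-p) * ((x ^ (-p)) ^ (t + 1)) ^ 2 = x ^ (-p * (2 * (t + 1) + 1)) := by
        rw [← pow_mul, ← pow_succ', ← Real.rpow_natCast, ← Real.rpow_mul hx.le]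
        congr 1
        push_cast
        ring
      rw [e, ← Real.rpow_neg_one]
      exact Real.rpow_le_rpow_of_exponent_ge hx (by linarith) (by linarith)
    calc (C ^ 2)⁻¹ * x⁻¹ ≤ (C ^ 2)⁻¹ * (x ^ (-p) * ((x ^ (-p)) ^ (t + 1)) ^ 2) := by gcongr
      _ = x ^ (-p) * ((C ^ 2)⁻¹ * ((x ^ (-p)) ^ (t + 1)) ^ 2) := by ring
      _ ≤ x ^ (-p) * Sm ^ 2 := by gcongr
  -- choose K
  set B := max M 0 * C ^ 2 + 1 with hB
  have hB0 : 0 < B := by positivity
  obtain ⟨K, hK⟩ := exists_nat_gt (Real.exp B / x0)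
  refine ⟨K, fun k hk => ?_⟩
  have hkpos : (0 : ℝ) < (k : ℝ) + 2 := by positivity
  have hkK : (K : ℝ) ≤ k := by exact_mod_cast hk
  have h1 : Real.exp B < x0 * ((k : ℝ) + 2) := by
    have : Real.exp B < K * x0 := by rwa [div_lt_iff₀ hx0pos] at hK
    nlinarith
  have h1' : 1 < x0 * ((k : ℝ) + 2) := lt_trans (Real.one_lt_exp_iff.2 hB0) h1
  have hκ : 0 < 1 / ((k : ℝ) + 2) := by positivity
  have hκx : 1 / ((k : ℝ) + 2) ≤ x0 := by
    rw [div_le_iff₀ hkpos]
    exact h1'.le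
  have h2 := cg10_mono p J a hκ le_rfl hκx hx01.le
  have h3 : ∫ x in (1 / ((k : ℝ) + 2))..x0, (C ^ 2)⁻¹ * x⁻¹ ≤
      ∫ x in (1 / ((k : ℝ) + 2))..x0,
        x ^ (-p) * (∑ j ∈ Finset.range (J + 1), a j * (x ^ (-p)) ^ j) ^ 2 := by
    refine intervalIntegral.integral_mono_on hκx ?_ ?_ ?_
    · refine ContinuousOn.intervalIntegrable_of_Icc hκx ?_
      refine continuousOn_const.mul (continuousOn_id.inv₀ fun x hx => ?_)
      exact (lt_of_lt_of_le hκ hx.1).ne'
    · exact ContinuousOn.intervalIntegrable_of_Icc hκx (cg10_contOn p J hκ a)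
    · intro x hx
      exact hpt x (lt_of_lt_of_le hκ hx.1) hx.2
  rw [intervalIntegral.integral_const_mul, integral_inv_of_pos hκ hx0pos] at h3
  have h4 : B < Real.log (x0 / (1 / ((k : ℝ) + 2))) := by
    rw [div_div_eq_mul_div, div_one]
    rw [Real.lt_log_iff_exp_lt (by linarith)]
    exact h1
  have h5 : M < (C ^ 2)⁻¹ * B := by
    rw [hB, mul_add, mul_comm (max M 0), ← mul_assoc, inv_mul_cancel₀ (by positivity), one_mul,
      mul_one]
    have : 0 < (C ^ 2)⁻¹ := by positivity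
    linarith [le_max_left M 0]
  have h6 : (C ^ 2)⁻¹ * B < (C ^ 2)⁻¹ * Real.log (x0 / (1 / ((k : ℝ) + 2))) := by
    have : 0 < (C ^ 2)⁻¹ := by positivity
    exact mul_lt_mul_of_pos_left h4 this
  linarith

/-- compactness: the infimum over polynomials of degree `≤ J` on `[κ, 1]` converges -/
lemma cauchy_cut {p : ℝ} (hp : 0 < p) (t : ℕ) (ht : (2 * t + 1) * p < 1)
    (ht' : 1 ≤ (2 * (t + 1) + 1) * p) (J : ℕ) {m : ℝ} (hm : m < mprod p t) :
    ∃ κ : ℝ, 0 < κ ∧ κ < 1 ∧ ∀ c : ℕ → ℝ, c 0 = 1 →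
      m ≤ (1 - p) * ∫ x in κ..1, x ^ (-p) *
        (∑ j ∈ Finset.range (J + 1), c j * (x ^ (-p)) ^ j) ^ 2 := by
  by_contra hcon
  push Not at hcon
  have hp1 := cg10_p1 hp t ht
  have hk0 : ∀ k : ℕ, 0 < 1 / ((k : ℝ) + 2) := fun k => by positivity
  have hk1 : ∀ k : ℕ, 1 / ((k : ℝ) + 2) < 1 := fun k => by
    rw [div_lt_one (by positivity)]
    have : (0 : ℝ) ≤ k := Nat.cast_nonneg k
    linarith
  set T : ℕ → Set (Fin (J + 1) → ℝ) := fun k =>
    {c | c 0 = 1 ∧ (1 - p) * cg10q p J (1 / ((k : ℝ) + 2)) (cg10ext c) ≤ m} with hT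
  have hTcl : ∀ k, IsClosed (T k) := by
    intro k
    refine IsClosed.inter (isClosed_eq (continuous_apply _) continuous_const) ?_
    exact isClosed_le (continuous_const.mul (cg10_q_cont hp J (hk0 k) (hk1 k).le)) continuous_const
  have hTd : ∀ k, T (k + 1) ⊆ T k := by
    rintro k c ⟨h1, h2⟩
    refine ⟨h1, le_trans (mul_le_mul_of_nonneg_left ?_ hp1.le) h2⟩
    refine cg10_mono p J _ (hk0 (k + 1)) ?_ (hk1 k).le le_rfl
    push_cast
    exact one_div_le_one_div_of_le (by positivity) (by linarith)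
  have hTn : ∀ k, (T k).Nonempty := by
    intro k
    obtain ⟨c, hc0, hc⟩ := hcon _ (hk0 k) (hk1 k)
    refine ⟨fun i => c i, ?_, ?_⟩
    · exact hc0
    · refine le_trans (le_of_eq ?_) hc.le
      unfold cg10q
      congr 2
      funext x
      congr 2
      refine Finset.sum_congr rfl fun j hj => ?_
      have : cg10ext (fun i : Fin (J + 1) => c i) j = c j := by
        unfold cg10ext
        simp [Finset.mem_range.1 hj]
      rw [this]
  have hT0 : IsCompact (T 0) := by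
    refine Metric.isCompact_of_isClosed_isBounded (hTcl 0) ?_
    have hne : (Metric.sphere (0 : Fin (J + 1) → ℝ) 1).Nonempty :=
      NormedSpace.sphere_nonempty.2 zero_le_one
    obtain ⟨c0, hc0, hmin⟩ := (isCompact_sphere (0 : Fin (J + 1) → ℝ) 1).exists_isMinOn hne
      (cg10_q_cont hp J (κ := 1 / 2) (by norm_num) (by norm_num)).continuousOn
    have hc0n : ‖c0‖ = 1 := by simpa using hc0
    have hc0ne : c0 ≠ 0 := by
      intro h
      rw [h, norm_zero] at hc0n
      exact zero_ne_one hc0n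
    have hδ := cg10_q_pos hp J c0 hc0ne
    set δ := cg10q p J (1 / 2) (cg10ext c0) with hδdef
    rw [Metric.isBounded_iff_subset_closedBall 0]
    refine ⟨|m| / ((1 - p) * δ) + 1, ?_⟩
    rintro c ⟨-, hc⟩
    rw [mem_closedBall_zero_iff]
    have hκ : (1 / (((0 : ℕ) : ℝ) + 2)) = 1 / 2 := by norm_num
    rw [hκ] at hc
    by_cases hcz : c = 0
    · rw [hcz, norm_zero]
      positivity
    · have hcn : 0 < ‖c‖ := norm_pos_iff.2 hcz
      have hu : ‖c‖⁻¹ • c ∈ Metric.sphere (0 : Fin (J + 1) → ℝ) 1 := by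
        rw [mem_sphere_zero_iff_norm, norm_smul, norm_inv, norm_norm, inv_mul_cancel₀ hcn.ne']
      have h1 : δ ≤ cg10q p J (1 / 2) (cg10ext (‖c‖⁻¹ • c)) := hmin hu
      rw [cg10_q_smul] at h1
      have h2 : ‖c‖ ^ 2 * δ ≤ cg10q p J (1 / 2) (cg10ext c) := by
        have := mul_le_mul_of_nonneg_left h1 (by positivity : 0 ≤ ‖c‖ ^ 2)
        rw [← mul_assoc, inv_pow, mul_inv_cancel₀ (by positivity), one_mul] at this
        exact this
      have h3 : ‖c‖ ^ 2 * ((1 - p) * δ) ≤ |m| := by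
        have := mul_le_mul_of_nonneg_left h2 hp1.le
        have hmm := le_abs_self m
        nlinarith
      have h4 : ‖c‖ ^ 2 ≤ |m| / ((1 - p) * δ) := by
        rw [le_div_iff₀ (by positivity)]
        exact h3
      by_contra hlt
      push Not at hlt
      have : 0 ≤ |m| / ((1 - p) * δ) := by positivity
      nlinarith
  obtain ⟨c, hc⟩ := IsCompact.nonempty_iInter_of_sequence_nonempty_isCompact_isClosed T hTd hTn hT0
    hTcl
  rw [Set.mem_iInter] at hc
  set a := cg10ext c with ha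
  have ha0 : a 0 = 1 := by
    have := (hc 0).1
    simp only [ha, cg10ext]
    simpa using this
  have hle : ∀ k : ℕ, (1 - p) * cg10q p J (1 / ((k : ℝ) + 2)) a ≤ m := fun k => (hc k).2
  have haJ : ∀ j, J < j → a j = 0 := by
    intro j hj
    simp only [ha, cg10ext]
    rw [dif_neg (by omega)]
  have hat : ∀ j, t < j → a j = 0 := by
    intro j hj
    by_contra hne
    obtain ⟨K, hK⟩ := cg10_div hp t ht' J a haJ j hj hne (m / (1 - p))
    have h1 := hK K le_rfl
    rw [div_lt_iff₀ hp1] at h1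
    have h2 := hle K
    linarith
  -- the limit
  have hval : ∀ k : ℕ, cg10q p J (1 / ((k : ℝ) + 2)) a =
      ∑ i ∈ Finset.range (t + 1), ∑ j ∈ Finset.range (t + 1),
        a i * a j * ((1 - (1 / ((k : ℝ) + 2)) ^ (1 - p * ((i : ℝ) + j + 1))) /
          (1 - p * ((i : ℝ) + j + 1))) := by
    intro k
    have hsum : ∀ y : ℝ, ∑ j ∈ Finset.range (J + 1), a j * y ^ j =
        ∑ j ∈ Finset.range (t + 1), a j * y ^ j := by
      intro y
      have e1 : ∑ j ∈ Finset.range (J + 1), a j * y ^ j =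
          ∑ j ∈ Finset.range (J + t + 2), a j * y ^ j := by
        refine Finset.sum_subset (Finset.range_subset_range.2 (by omega)) fun j _ hj => ?_
        rw [haJ j (by simpa using hj), zero_mul]
      have e2 : ∑ j ∈ Finset.range (t + 1), a j * y ^ j =
          ∑ j ∈ Finset.range (J + t + 2), a j * y ^ j := by
        refine Finset.sum_subset (Finset.range_subset_range.2 (by omega)) fun j _ hj => ?_
        rw [hat j (by simpa using hj), zero_mul]
      rw [e1, e2]
    unfold cg10q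
    simp only [hsum]
    rw [cg10_int_expand hp (t + 1) a (hk0 k).le (hk1 k).le]
    · refine Finset.sum_congr rfl fun i hi => Finset.sum_congr rfl fun j hj => ?_
      have h := cg10_pos hp ht hi hj
      rw [integral_rpow (Or.inl (by linarith)), Real.one_rpow]
      congr 2
      · congr 2
        ring
      · ring
    · intro i hi j hj
      have h := cg10_pos hp ht hi hj
      exact intervalIntegral.intervalIntegrable_rpow' (by linarith)
  have hlim : Filter.Tendsto (fun k : ℕ => (1 - p) * cg10q p J (1 / ((k : ℝ) + 2)) a) Filter.atTop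
      (nhds ((1 - p) * ∑ i ∈ Finset.range (t + 1), ∑ j ∈ Finset.range (t + 1),
        a i * a j / (1 - p * ((i : ℝ) + j + 1)))) := by
    simp only [hval]
    refine Filter.Tendsto.const_mul _ ?_
    refine tendsto_finsetSum _ fun i hi => tendsto_finsetSum _ fun j hj => ?_
    have h := cg10_pos hp ht hi hj
    have hz : Filter.Tendsto (fun k : ℕ => 1 / ((k : ℝ) + 2)) Filter.atTop (nhds 0) := by
      have h1 : Filter.Tendsto (fun k : ℕ => (k : ℝ) + 2) Filter.atTop Filter.atTop :=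
        Filter.tendsto_atTop_add_const_right _ _ tendsto_natCast_atTop_atTop
      have h2 := h1.inv_tendsto_atTop
      simp only [one_div]
      exact h2
    have hr : Filter.Tendsto (fun k : ℕ => (1 / ((k : ℝ) + 2)) ^ (1 - p * ((i : ℝ) + j + 1)))
        Filter.atTop (nhds 0) := by
      have h2 := (Real.continuousAt_rpow_const 0 (1 - p * ((i : ℝ) + j + 1))
        (Or.inr h.le)).tendsto.comp hz
      rw [Real.zero_rpow h.ne'] at h2
      exact h2
    have h3 := ((hr.const_sub 1).div_const (1 - p * ((i : ℝ) + j + 1))).const_mul (a i * a j)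
    rw [sub_zero, mul_one_div] at h3
    exact h3
  have h1 := le_of_tendsto' hlim hle
  have h2 := cauchy_min hp t ht a ha0
  linarith

end Pool.Agent.Helper579.Cg
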