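import Mathlib

/-!
Definitions for the comparison of the conjugate gradient method with randomized coordinate
descent for positive definite matrices with Haar distributed eigenvectors and the eigenvalues
`1, 2^(-p), ..., n^(-p)`.
-/

set_option autoImplicit false

namespace Pool.Agent.Helper579.Cg

open MeasureTheory Filter Matrix
open scoped ENNReal Topology

/-- The unitary group of `n × n` matrices. -/
abbrev Un (n : ℕ) := Matrix.unitaryGroup (Fin n) ℂ

/-- The Borel sigma-algebra of the unitary group. -/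
noncomputable instance instMeasUn (n : ℕ) : MeasurableSpace (Un n) := borel _

instance instBorelUn (n : ℕ) : BorelSpace (Un n) := ⟨rfl⟩

instance instCompactUn (n : ℕ) : CompactSpace (Un n) := by
  have h2 : IsCompact {A : Matrix (Fin n) (Fin n) ℂ | ∀ i j, A i j ∈ Metric.closedBall 0 1} := by
    have h3 : {A : Matrix (Fin n) (Fin n) ℂ | ∀ i j, A i j ∈ Metric.closedBall 0 1}
        = Set.univ.pi fun _ : Fin n => Set.univ.pi fun _ : Fin n =>
          Metric.closedBall (0 : ℂ) 1 := by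
      ext A
      exact ⟨fun h i _ j _ => h i j, fun h i j => h i trivial j trivial⟩
    rw [h3]
    exact isCompact_univ_pi fun i => isCompact_univ_pi fun j => isCompact_closedBall 0 1
  have h1 : IsCompact ((Matrix.unitaryGroup (Fin n) ℂ : Set (Matrix (Fin n) (Fin n) ℂ))) := by
    apply h2.of_isClosed_subset
    · have : (Matrix.unitaryGroup (Fin n) ℂ : Set (Matrix (Fin n) (Fin n) ℂ))
          = {A | star A * A = 1} := by
        ext A
        exact Matrix.mem_unitaryGroup_iff'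
      rw [this]
      exact isClosed_eq (by fun_prop) continuous_const
    · intro A hA i j
      rw [mem_closedBall_zero_iff]
      exact entry_norm_bound_of_unitary hA i j
  exact isCompact_iff_compactSpace.1 h1

/-- The Haar probability measure of the unitary group. -/
noncomputable def haarU (n : ℕ) : Measure (Un n) := Measure.haarMeasure ⊤

/-- The uniform distribution on the unit sphere of `ℂ^n`: the normalized surface measure. -/
noncomputable def sph (n : ℕ) : Measure (Metric.sphere (0 : EuclideanSpace ℂ (Fin n)) 1) :=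
  ((Measure.addHaar : Measure (EuclideanSpace ℂ (Fin n))).toSphere Set.univ)⁻¹ •
    (Measure.addHaar : Measure (EuclideanSpace ℂ (Fin n))).toSphere

/-- The eigenvalues `1, 2^(-p), ..., n^(-p)`. -/
noncomputable def lam (p : ℝ) {n : ℕ} (k : Fin n) : ℝ := ((k : ℝ) + 1) ^ (-p)

/-- The matrix `A = U Λ U*`. -/
noncomputable def matA (p : ℝ) {n : ℕ} (U : Un n) : Matrix (Fin n) (Fin n) ℂ :=
  (U : Matrix (Fin n) (Fin n) ℂ) * Matrix.diagonal (fun k => (lam p k : ℂ)) *
    star (U : Matrix (Fin n) (Fin n) ℂ)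

/-- The energy `‖v‖_A^2 = ⟨A v, v⟩`. -/
noncomputable def energy {n : ℕ} (A : Matrix (Fin n) (Fin n) ℂ) (v : Fin n → ℂ) : ℝ :=
  (star v ⬝ᵥ A *ᵥ v).re

/-- The Krylov space `span {b, A b, ..., A^(t-1) b}`. -/
def krylov {n : ℕ} (A : Matrix (Fin n) (Fin n) ℂ) (b : Fin n → ℂ) (t : ℕ) :
    Submodule ℂ (Fin n → ℂ) :=
  Submodule.span ℂ {v | ∃ j < t, v = (A ^ j) *ᵥ b}

/-- `x` is the `t`-th iterate of the conjugate gradient method for `A x = b` with the solution
`xs`: it minimises `‖x - xs‖_A` over the Krylov space. -/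
def IsCGIterate {n : ℕ} (A : Matrix (Fin n) (Fin n) ℂ) (xs : Fin n → ℂ) (t : ℕ)
    (x : Fin n → ℂ) : Prop :=
  x ∈ krylov A (A *ᵥ xs) t ∧ ∀ y ∈ krylov A (A *ᵥ xs) t, energy A (x - xs) ≤ energy A (y - xs)

/-- The stopping time of the conjugate gradient method (with the start `0`). -/
noncomputable def TCG {n : ℕ} (A : Matrix (Fin n) (Fin n) ℂ) (xs : Fin n → ℂ) (ε : ℝ) : ℕ∞ :=
  sInf {T | ∃ t : ℕ, T = t ∧ ∃ x, IsCGIterate A xs t x ∧
    energy A (x - xs) ≤ ε * energy A (0 - xs)}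

/-- One step of the coordinate descent with the coordinate `i`. -/
noncomputable def step {n : ℕ} (A : Matrix (Fin n) (Fin n) ℂ) (b x : Fin n → ℂ) (i : Fin n) :
    Fin n → ℂ := x + ((b - A *ᵥ x) i / A i i) • Pi.single i 1

/-- The iterates of the coordinate descent with the start `0` and the coordinates
`ω 0, ω 1, ...`. -/
noncomputable def iter {n : ℕ} (A : Matrix (Fin n) (Fin n) ℂ) (b : Fin n → ℂ) (ω : ℕ → Fin n) :
    ℕ → Fin n → ℂ
  | 0 => 0
  | t + 1 => step A b (iter A b ω t) (ω t)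

/-- The stopping time of the coordinate descent. -/
noncomputable def TRCD {n : ℕ} (A : Matrix (Fin n) (Fin n) ℂ) (xs : Fin n → ℂ) (ε : ℝ)
    (ω : ℕ → Fin n) : ℕ∞ :=
  sInf {T | ∃ t : ℕ, T = t ∧
    energy A (iter A (A *ᵥ xs) ω t - xs) ≤ ε * energy A (0 - xs)}

/-- The distribution `Pr(i) = A(i,i) / tr A` of the random coordinate. -/
noncomputable def idx {n : ℕ} (A : Matrix (Fin n) (Fin n) ℂ) : Measure (Fin n) :=
  Measure.sum fun i => ENNReal.ofReal ((A i i).re / A.trace.re) • Measure.dirac i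

/-- The joint distribution of the independent random coordinates `ω 0, ω 1, ...` (the weights
`A(i,i) / tr A` are a probability distribution for every matrix considered here). -/
noncomputable def seqLaw {n : ℕ} (A : Matrix (Fin n) (Fin n) ℂ) : Measure (ℕ → Fin n) :=
  open scoped Classical in
  if _h : IsProbabilityMeasure (idx A) then Measure.infinitePi (fun _ => idx A) else 0

/-- The joint distribution of the stopping times `(T_CG, T_RCD)`. -/
noncomputable def Pr (p ε : ℝ) (n : ℕ) (S : Set (ℕ∞ × ℕ∞)) : ℝ≥0∞ :=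
  ∫⁻ U : Un n, ∫⁻ z : Metric.sphere (0 : EuclideanSpace ℂ (Fin n)) 1,
    seqLaw (matA p U) {ω | (TCG (matA p U) (WithLp.ofLp z.1) ε,
      TRCD (matA p U) (WithLp.ofLp z.1) ε ω) ∈ S} ∂sph n ∂haarU n

/-- The probability of an event for `T_CG`. -/
noncomputable def PrCG (p ε : ℝ) (n : ℕ) (S : Set ℕ∞) : ℝ≥0∞ := Pr p ε n {x | x.1 ∈ S}

/-- The probability of an event for `T_RCD`. -/
noncomputable def PrRCD (p ε : ℝ) (n : ℕ) (S : Set ℕ∞) : ℝ≥0∞ := Pr p ε n {x | x.2 ∈ S}

/-- `T_n` is of the exact order `a_n` in probability. -/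
def ThetaP (P : ℕ → Set ℕ∞ → ℝ≥0∞) (a : ℕ → ℝ) : Prop :=
  ∀ δ : ℝ, 0 < δ → ∃ c C : ℝ, 0 < c ∧ 0 < C ∧ ∀ᶠ n in atTop,
    ENNReal.ofReal (1 - δ) ≤ P n {T | ∃ m : ℕ, T = m ∧ c * a n ≤ m ∧ m ≤ C * a n}

/-- `T_n = n^(θ + o(1))` in probability. -/
def ExponentP (P : ℕ → Set ℕ∞ → ℝ≥0∞) (θ : ℝ) : Prop :=
  ∀ δ : ℝ, 0 < δ → Tendsto (fun n : ℕ => P n {T | ∃ m : ℕ, T = m ∧
    (n : ℝ) ^ (θ - δ) ≤ m ∧ m ≤ (n : ℝ) ^ (θ + δ)}) atTop (𝓝 1)

/-- The threshold for the conjugate gradient method with `p < 1`. -/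
noncomputable def mstar (p : ℝ) : ℝ :=
  open scoped Classical in
  ∏ j ∈ (Finset.Icc 1 ⌈1 / p⌉₊).filter (fun j : ℕ => (2 * j + 1) * p < 1),
    (j * p / (1 - (j + 1) * p)) ^ 2

end Pool.Agent.Helper579.Cg
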