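import Mathlib

set_option autoImplicit false

namespace Pool.Agent.Helper579.Cg

open MeasureTheory
open scoped ENNReal

variable {ι S : Type} [Fintype ι] [MeasurableSpace ι] [MeasurableSingletonClass ι]

/-- the state after `t` steps -/
def path (st : S → ι → S) (σ : S) (ω : ℕ → ι) : ℕ → S
  | 0 => σ
  | t + 1 => st (path st σ ω t) (ω t)

/-- the expectation of `F` after `t` steps -/
noncomputable def Ex (μ : Measure ι) (st : S → ι → S) : ℕ → (S → ℝ≥0∞) → S → ℝ≥0∞
  | 0, F, σ => F σ
  | t + 1, F, σ => Ex μ st t (fun σ' => ∑ i, μ {i} * F (st σ' i)) σ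

omit [Fintype ι] in
lemma meas_coord (t : ℕ) (i : ι) : MeasurableSet {ω : ℕ → ι | ω t = i} := by
  have h : Measurable (fun ω : ℕ → ι => ω t) := measurable_pi_apply t
  exact h (measurableSet_singleton i)

lemma path_meas (st : S → ι → S) (σ : S) (t : ℕ) (A : Set S) :
    MeasurableSet {ω : ℕ → ι | path st σ ω t ∈ A} := by
  induction t generalizing A with
  | zero =>
    by_cases h : σ ∈ A
    · simp [path, h]
    · simp [path, h]
  | succ t ih =>
    have : {ω : ℕ → ι | path st σ ω (t + 1) ∈ A} =
        ⋃ i : ι, ({ω : ℕ → ι | ω t = i} ∩ {ω : ℕ → ι | path st σ ω t ∈ {s | st s i ∈ A}}) := by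
      ext ω
      simp [path]
    rw [this]
    refine MeasurableSet.iUnion fun i => MeasurableSet.inter ?_ (ih _)
    exact meas_coord t i

lemma path_meas_fun (st : S → ι → S) (σ : S) (t : ℕ) (G : S → ℝ≥0∞) :
    Measurable (fun ω : ℕ → ι => G (path st σ ω t)) := by
  intro B _
  exact path_meas st σ t (G ⁻¹' B)

omit [Fintype ι] [MeasurableSpace ι] [MeasurableSingletonClass ι] in
lemma path_congr (st : S → ι → S) (σ : S) (t : ℕ) (ω ω' : ℕ → ι) (h : ∀ n < t, ω n = ω' n) :
    path st σ ω t = path st σ ω' t := by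
  induction t with
  | zero => rfl
  | succ t ih =>
    simp only [path]
    rw [ih (fun n hn => h n (by omega)), h t (by omega)]

lemma indep_path (μ : Measure ι) [IsProbabilityMeasure μ] (st : S → ι → S) (σ : S) (t : ℕ)
    (i : ι) (G : S → ℝ≥0∞) :
    ∫⁻ ω, ({ω : ℕ → ι | ω t = i}.indicator (fun _ => (1 : ℝ≥0∞)) ω) * G (path st σ ω t)
      ∂Measure.infinitePi (fun _ : ℕ => μ) =
    μ {i} * ∫⁻ ω, G (path st σ ω t) ∂Measure.infinitePi (fun _ : ℕ => μ) := by
  classical
  have hind : ProbabilityTheory.iIndepFun (fun (n : ℕ) (ω : ℕ → ι) => ω n)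
      (Measure.infinitePi (fun _ : ℕ => μ)) :=
    ProbabilityTheory.iIndepFun_infinitePi (X := fun _ x => x) (fun _ => measurable_id)
  have h2 := hind.indepFun_finset ({t} : Finset ℕ) (Finset.range t) (by simp)
    (fun n => measurable_pi_apply n)
  set g1 : (({t} : Finset ℕ) → ι) → ℝ≥0∞ :=
    fun w => if w ⟨t, by simp⟩ = i then 1 else 0 with hg1
  set g2 : (((Finset.range t) : Finset ℕ) → ι) → ℝ≥0∞ :=
    fun w => G (path st σ (fun n => if h : n ∈ Finset.range t then w ⟨n, h⟩ else i) t) with hg2
  have h3 := h2.comp (φ := g1) (ψ := g2) (measurable_of_finite _) (measurable_of_finite _)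
  have e1 : (g1 ∘ fun (a : ℕ → ι) (i : ({t} : Finset ℕ)) => a i) =
      fun ω => ({ω : ℕ → ι | ω t = i}.indicator (fun _ => (1 : ℝ≥0∞)) ω) := by
    funext ω
    simp [hg1, Set.indicator_apply]
  have e2 : (g2 ∘ fun (a : ℕ → ι) (i : ((Finset.range t) : Finset ℕ)) => a i) =
      fun ω => G (path st σ ω t) := by
    funext ω
    simp only [hg2, Function.comp]
    congr 1
    apply path_congr
    intro n hn
    simp [hn]
  rw [e1, e2] at h3
  have hm : MeasurableSet {ω : ℕ → ι | ω t = i} := meas_coord t i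
  have := ProbabilityTheory.lintegral_mul_eq_lintegral_mul_lintegral_of_indepFun
    (measurable_const.indicator hm) (path_meas_fun st σ t G) h3
  simp only [Pi.mul_apply] at this
  rw [this]
  congr 1
  rw [lintegral_indicator hm, setLIntegral_one]
  have h4 := Measure.infinitePi_map_eval (fun _ : ℕ => μ) t
  have h5 : (Measure.map (fun x : ℕ → ι => x t) (Measure.infinitePi (fun _ : ℕ => μ))) {i} =
      μ {i} := by rw [h4]
  rw [Measure.map_apply (measurable_pi_apply t) (measurableSet_singleton i)] at h5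
  exact h5

lemma lintegral_path (μ : Measure ι) [IsProbabilityMeasure μ] (st : S → ι → S)
    (F : S → ℝ≥0∞) (t : ℕ) (σ : S) :
    ∫⁻ ω, F (path st σ ω t) ∂Measure.infinitePi (fun _ : ℕ => μ) = Ex μ st t F σ := by
  classical
  induction t generalizing F with
  | zero => simp [path, Ex]
  | succ t ih =>
    simp only [Ex]
    rw [← ih]
    have h1 : ∀ ω : ℕ → ι, F (path st σ ω (t + 1)) =
        ∑ i, ({ω : ℕ → ι | ω t = i}.indicator (fun _ => (1 : ℝ≥0∞)) ω) *
          F (st (path st σ ω t) i) := by
      intro ω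
      simp [path, Set.indicator_apply]
    simp_rw [h1]
    rw [lintegral_finsetSum, lintegral_finsetSum]
    · refine Finset.sum_congr rfl fun i _ => ?_
      rw [indep_path μ st σ t i (fun s => F (st s i)), lintegral_const_mul]
      exact path_meas_fun st σ t (fun s => F (st s i))
    · intro i _
      exact (path_meas_fun st σ t (fun s => F (st s i))).const_mul _
    · intro i _
      refine Measurable.mul ?_ (path_meas_fun st σ t (fun s => F (st s i)))
      exact measurable_const.indicator (meas_coord t i)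

end Pool.Agent.Helper579.Cg
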