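import Mathlib
import Pool.Agent.Helper579.CgPath

set_option autoImplicit false

namespace Pool.Agent.Helper579.Cg

open MeasureTheory
open scoped ENNReal

variable {ι S : Type} [Fintype ι]

/-- real expectations after `t` steps -/
noncomputable def EX (p : ι → ℝ) (st : S → ι → S) : ℕ → (S → ℝ) → S → ℝ
  | 0, f, σ => f σ
  | t + 1, f, σ => EX p st t (fun σ' => ∑ i, p i * f (st σ' i)) σ

variable {p : ι → ℝ} {st : S → ι → S} {Inv : S → Prop}

lemma EX_mono (hp : ∀ i, 0 ≤ p i) (hI : ∀ s i, Inv s → Inv (st s i)) :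
    ∀ (t : ℕ) {f g : S → ℝ}, (∀ s, Inv s → f s ≤ g s) → ∀ σ, Inv σ →
      EX p st t f σ ≤ EX p st t g σ
  | 0, f, g, h, σ, hσ => h σ hσ
  | t + 1, f, g, h, σ, hσ => by
    apply EX_mono hp hI t _ σ hσ
    intro s hs
    apply Finset.sum_le_sum
    intro i _
    exact mul_le_mul_of_nonneg_left (h _ (hI s i hs)) (hp i)

lemma EX_congr (hI : ∀ s i, Inv s → Inv (st s i)) :
    ∀ (t : ℕ) {f g : S → ℝ}, (∀ s, Inv s → f s = g s) → ∀ σ, Inv σ →
      EX p st t f σ = EX p st t g σ
  | 0, f, g, h, σ, hσ => h σ hσ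
  | t + 1, f, g, h, σ, hσ => by
    apply EX_congr hI t _ σ hσ
    intro s hs
    apply Finset.sum_congr rfl
    intro i _
    rw [h _ (hI s i hs)]

lemma EX_add : ∀ (t : ℕ) (f g : S → ℝ) (σ : S),
    EX p st t (fun s => f s + g s) σ = EX p st t f σ + EX p st t g σ
  | 0, f, g, σ => rfl
  | t + 1, f, g, σ => by
    simp only [EX]
    rw [← EX_add t]
    congr 1
    ext s
    simp only [mul_add, Finset.sum_add_distrib]

lemma EX_mul (c : ℝ) : ∀ (t : ℕ) (f : S → ℝ) (σ : S),
    EX p st t (fun s => c * f s) σ = c * EX p st t f σ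
  | 0, f, σ => rfl
  | t + 1, f, σ => by
    simp only [EX]
    rw [← EX_mul c t]
    congr 1
    ext s
    rw [Finset.mul_sum]
    exact Finset.sum_congr rfl fun i _ => by ring

lemma EX_const (hp1 : ∑ i, p i = 1) (c : ℝ) : ∀ (t : ℕ) (σ : S),
    EX p st t (fun _ => c) σ = c
  | 0, σ => rfl
  | t + 1, σ => by
    simp only [EX]
    have : ∑ i, p i * c = c := by rw [← Finset.sum_mul, hp1, one_mul]
    simp only [this]
    exact EX_const hp1 c t σ

lemma EX_nonneg (hp : ∀ i, 0 ≤ p i) (hI : ∀ s i, Inv s → Inv (st s i)) (t : ℕ)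
    {f : S → ℝ} (h : ∀ s, Inv s → 0 ≤ f s) (σ : S) (hσ : Inv σ) : 0 ≤ EX p st t f σ := by
  have h1 := EX_mono hp hI t (f := fun _ => (0 : ℝ)) (g := f) h σ hσ
  have h2 : EX p st t (fun _ : S => (0 : ℝ)) σ = 0 := by
    have := EX_mul (p := p) (st := st) 0 t (fun _ => (0 : ℝ)) σ
    simp only [zero_mul] at this
    exact this
  linarith

lemma EX_succ (t : ℕ) (f : S → ℝ) (σ : S) :
    EX p st (t + 1) f σ = EX p st t (fun σ' => ∑ i, p i * f (st σ' i)) σ := rfl

/-- first step decomposition -/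
lemma EX_map {S' : Type} (st' : S' → ι → S') (π : S' → S)
    (hπ : ∀ s i, π (st' s i) = st (π s) i) : ∀ (t : ℕ) (f : S → ℝ) (σ : S'),
    EX p st' t (fun s => f (π s)) σ = EX p st t f (π σ)
  | 0, f, σ => rfl
  | t + 1, f, σ => by
    simp only [EX]
    rw [← EX_map st' π hπ t]
    congr 1
    ext s
    simp only [hπ]

/-- the martingale -/
noncomputable def Mt (st : S → ι → S) (f G : S → ℝ) (σ : S) (ω : ℕ → ι) (t : ℕ) : ℝ :=
  f (path st σ ω t) - f σ + ∑ s ∈ Finset.range t, G (path st σ ω s)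

/-- augmented steps -/
noncomputable def stA (st : S → ι → S) (f G : S → ℝ) : S × ℝ → ι → S × ℝ :=
  fun s i => (st s.1 i, s.2 + (f (st s.1 i) - f s.1 + G s.1))

lemma path_aug (st : S → ι → S) (f G : S → ℝ) (σ : S) (ω : ℕ → ι) : ∀ t : ℕ,
    path (stA st f G) (σ, 0) ω t = (path st σ ω t, Mt st f G σ ω t)
  | 0 => by simp [path, Mt]
  | t + 1 => by
    simp only [path]
    rw [path_aug st f G σ ω t]
    unfold stA Mt
    simp only [path, Finset.sum_range_succ]
    congr 1
    ring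

lemma EX_aug (hp1 : ∑ i, p i = 1) (hI : ∀ s i, Inv s → Inv (st s i)) (f G : S → ℝ)
    (hG : ∀ s, Inv s → ∑ i, p i * f (st s i) = f s - G s) (σ : S) (hσ : Inv σ) : ∀ t : ℕ,
    EX p (stA st f G) t (fun s => s.2 ^ 2) (σ, 0)
      = ∑ s ∈ Finset.range t, EX p st s
        (fun s => ∑ i, p i * (f (st s i) - f s + G s) ^ 2) σ
  | 0 => by simp [EX]
  | t + 1 => by
    rw [Finset.sum_range_succ, ← EX_aug hp1 hI f G hG σ hσ t, EX_succ]
    have h1 : EX p (stA st f G) t (fun σ' => ∑ i, p i * ((stA st f G σ' i).2) ^ 2) (σ, 0)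
        = EX p (stA st f G) t (fun σ' => σ'.2 ^ 2
          + (∑ i, p i * (f (st σ'.1 i) - f σ'.1 + G σ'.1) ^ 2)) (σ, 0) := by
      apply EX_congr (Inv := fun s : S × ℝ => Inv s.1) (fun s i hs => hI s.1 i hs) t _ _ hσ
      intro s hs
      have h2 : ∑ i, p i * (f (st s.1 i) - f s.1 + G s.1) = 0 := by
        have h3 : ∑ i, p i * (f (st s.1 i) - f s.1 + G s.1)
            = ∑ i, p i * f (st s.1 i) + (∑ i, p i) * (G s.1 - f s.1) := by
          rw [Finset.sum_mul, ← Finset.sum_add_distrib]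
          exact Finset.sum_congr rfl fun i _ => by ring
        rw [h3, hG _ hs, hp1]
        ring
      have h4 : ∀ i, p i * ((stA st f G s i).2) ^ 2 = p i * s.2 ^ 2
          + 2 * s.2 * (p i * (f (st s.1 i) - f s.1 + G s.1))
          + p i * (f (st s.1 i) - f s.1 + G s.1) ^ 2 := by
        intro i
        unfold stA
        ring
      simp only [h4, Finset.sum_add_distrib, ← Finset.mul_sum, ← Finset.sum_mul, hp1, h2]
      ring
    rw [h1, EX_add]
    congr 1
    exact EX_map (p := p) (st := st) (stA st f G) Prod.fst (fun s i => rfl) t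
      (fun s => ∑ i, p i * (f (st s i) - f s + G s) ^ 2) (σ, 0)

variable [MeasurableSpace ι] [MeasurableSingletonClass ι]

lemma Ex_eq (μ : Measure ι) [IsProbabilityMeasure μ] (hI : ∀ s i, Inv s → Inv (st s i)) :
    ∀ (t : ℕ) (F : S → ℝ≥0∞) (f : S → ℝ), (∀ s, Inv s → 0 ≤ f s) →
      (∀ s, Inv s → F s = ENNReal.ofReal (f s)) → ∀ σ, Inv σ →
      Ex μ st t F σ = ENNReal.ofReal (EX (fun i => (μ {i}).toReal) st t f σ)
  | 0, F, f, h0, h, σ, hσ => h σ hσ
  | t + 1, F, f, h0, h, σ, hσ => by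
    simp only [Ex, EX]
    apply Ex_eq μ hI t
    · intro s hs
      exact Finset.sum_nonneg fun i _ => mul_nonneg ENNReal.toReal_nonneg (h0 _ (hI s i hs))
    · intro s hs
      rw [ENNReal.ofReal_sum_of_nonneg]
      · apply Finset.sum_congr rfl
        intro i _
        rw [h _ (hI s i hs), ENNReal.ofReal_mul ENNReal.toReal_nonneg,
          ENNReal.ofReal_toReal (measure_ne_top _ _)]
      · intro i _
        exact mul_nonneg ENNReal.toReal_nonneg (h0 _ (hI s i hs))
    · exact hσ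

lemma sum_toReal (μ : Measure ι) [IsProbabilityMeasure μ] :
    ∑ i, (μ {i}).toReal = 1 := by
  rw [← ENNReal.toReal_sum (fun i _ => measure_ne_top _ _)]
  have h : ∑ i, μ {i} = μ Set.univ := by
    rw [← measure_biUnion_finset]
    · congr 1
      ext x
      simp
    · intro i _ j _ hij
      simpa using hij
    · intro i _
      exact measurableSet_singleton i
  rw [h, measure_univ, ENNReal.toReal_one]

/-- Markov's inequality along the path -/
lemma path_markov (μ : Measure ι) [IsProbabilityMeasure μ]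
    (hI : ∀ s i, Inv s → Inv (st s i)) (t : ℕ) (f : S → ℝ) (h0 : ∀ s, Inv s → 0 ≤ f s)
    (σ : S) (hσ : Inv σ) {c : ℝ} (hc : 0 < c) :
    Measure.infinitePi (fun _ : ℕ => μ) {ω | c ≤ f (path st σ ω t)}
      ≤ ENNReal.ofReal (EX (fun i => (μ {i}).toReal) st t f σ / c) := by
  classical
  have hp : ∀ i, 0 ≤ (μ {i}).toReal := fun i => ENNReal.toReal_nonneg
  have h1 : Measure.infinitePi (fun _ : ℕ => μ) {ω | c ≤ f (path st σ ω t)}
      = ∫⁻ ω, (if c ≤ f (path st σ ω t) then 1 else 0) ∂Measure.infinitePi (fun _ : ℕ => μ) := by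
    have hm := path_meas st σ t {s | c ≤ f s}
    have : ∀ ω : ℕ → ι, (if c ≤ f (path st σ ω t) then (1 : ℝ≥0∞) else 0)
        = Set.indicator {ω | path st σ ω t ∈ {s | c ≤ f s}} 1 ω := by
      intro ω
      simp only [Set.indicator, Set.mem_ofPred_eq, Pi.one_apply]
    simp only [this]
    rw [lintegral_indicator_one hm]
    rfl
  rw [h1, lintegral_path μ st (fun s => if c ≤ f s then (1 : ℝ≥0∞) else 0) t σ]
  rw [Ex_eq μ hI t _ (fun s => if c ≤ f s then (1 : ℝ) else 0) (fun s _ => by positivity)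
    (fun s _ => by split_ifs <;> simp) σ hσ]
  apply ENNReal.ofReal_le_ofReal
  rw [div_eq_inv_mul, ← EX_mul]
  apply EX_mono hp hI t _ σ hσ
  intro s hs
  have := h0 s hs
  split_ifs with h
  · rw [← div_eq_inv_mul, le_div_iff₀ hc]
    linarith
  · positivity

/-- Chebyshev's inequality for the martingale -/
lemma mart_cheb (μ : Measure ι) [IsProbabilityMeasure μ]
    (hI : ∀ s i, Inv s → Inv (st s i)) (t : ℕ) (f G : S → ℝ)
    (hG : ∀ s, Inv s → ∑ i, (μ {i}).toReal * f (st s i) = f s - G s)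
    (σ : S) (hσ : Inv σ) {c : ℝ} (hc : 0 < c) :
    Measure.infinitePi (fun _ : ℕ => μ) {ω | c ≤ |Mt st f G σ ω t|}
      ≤ ENNReal.ofReal ((∑ s ∈ Finset.range t, EX (fun i => (μ {i}).toReal) st s
        (fun s => ∑ i, (μ {i}).toReal * (f (st s i) - f s + G s) ^ 2) σ) / c ^ 2) := by
  have h1 := path_markov (Inv := fun s : S × ℝ => Inv s.1) μ
    (st := stA st f G) (fun s i hs => hI s.1 i hs) t (fun s => s.2 ^ 2)
    (fun s _ => sq_nonneg _) (σ, 0) hσ (c := c ^ 2) (by positivity)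
  rw [EX_aug (sum_toReal μ) hI f G hG σ hσ t] at h1
  refine le_trans (measure_mono ?_) h1
  intro ω hω
  simp only [Set.mem_ofPred_eq] at hω ⊢
  rw [path_aug, ← sq_abs (Mt st f G σ ω t)]
  exact pow_le_pow_left₀ hc.le hω 2

end Pool.Agent.Helper579.Cg
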