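import Mathlib
import Pool.Agent.Helper579.CgPath2

set_option autoImplicit false

namespace Pool.Agent.Helper579.Cg

open scoped ComplexConjugate

variable {n : ℕ}

/-- coordinate `i` of `U diag(b) w` -/
noncomputable def rr (U : Fin n → Fin n → ℂ) (b : Fin n → ℝ) (w : Fin n → ℂ) (i : Fin n) : ℂ :=
  ∑ k, U i k * (b k * w k)

/-- diagonal entry of `U diag(b) U*` -/
noncomputable def aa (U : Fin n → Fin n → ℂ) (b : Fin n → ℝ) (i : Fin n) : ℝ :=
  ∑ k, b k * ‖U i k‖ ^ 2

/-- one step of the coordinate descent in the eigenbasis -/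
noncomputable def stp (U : Fin n → Fin n → ℂ) (l : Fin n → ℝ) (w : Fin n → ℂ) (i : Fin n) :
    Fin n → ℂ := fun k => w k - rr U l w i / aa U l i * conj (U i k)

/-- quadratic functionals -/
noncomputable def qf (b : Fin n → ℝ) (w : Fin n → ℂ) : ℝ := ∑ k, b k * ‖w k‖ ^ 2

/-- columns are orthonormal -/
def ColOrth (U : Fin n → Fin n → ℂ) : Prop :=
  ∀ k l, ∑ i, conj (U i k) * U i l = if k = l then 1 else 0

variable {U : Fin n → Fin n → ℂ} {l b : Fin n → ℝ}

lemma norm_sq_sub (z u : ℂ) : ‖z - u‖ ^ 2 = ‖z‖ ^ 2 - 2 * (u * conj z).re + ‖u‖ ^ 2 := by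
  rw [← Complex.normSq_eq_norm_sq, ← Complex.normSq_eq_norm_sq, ← Complex.normSq_eq_norm_sq,
    Complex.normSq_sub]
  have : (z * conj u).re = (u * conj z).re := by
    simp [Complex.mul_re]
    ring
  rw [this]
  ring

lemma qf_nonneg (hb : ∀ k, 0 ≤ b k) (w : Fin n → ℂ) : 0 ≤ qf b w :=
  Finset.sum_nonneg fun k _ => mul_nonneg (hb k) (sq_nonneg _)

lemma aa_nonneg (hb : ∀ k, 0 ≤ b k) (i : Fin n) : 0 ≤ aa U b i :=
  Finset.sum_nonneg fun k _ => mul_nonneg (hb k) (sq_nonneg _)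

lemma qf_stp (w : Fin n → ℂ) (i : Fin n) : qf b (stp U l w i)
    = qf b w - 2 * (rr U l w i * conj (rr U b w i)).re / aa U l i
      + ‖rr U l w i‖ ^ 2 * aa U b i / aa U l i ^ 2 := by
  unfold qf stp
  have h1 : ∀ k, b k * ‖w k - rr U l w i / aa U l i * conj (U i k)‖ ^ 2
      = b k * ‖w k‖ ^ 2
        - 2 * (rr U l w i * (conj (U i k * (b k * w k)))).re / aa U l i
        + ‖rr U l w i‖ ^ 2 / aa U l i ^ 2 * (b k * ‖U i k‖ ^ 2) := by
    intro k
    rw [norm_sq_sub]
    have e1 : ‖rr U l w i / aa U l i * conj (U i k)‖ ^ 2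
        = ‖rr U l w i‖ ^ 2 / aa U l i ^ 2 * ‖U i k‖ ^ 2 := by
      rw [norm_mul, norm_div, RCLike.norm_conj, mul_pow, div_pow, Complex.norm_real,
        Real.norm_eq_abs, sq_abs]
    have e2 : (rr U l w i / aa U l i * conj (U i k) * conj (w k)).re * b k
        = (rr U l w i * (conj (U i k * (b k * w k)))).re / aa U l i := by
      rw [← Complex.re_mul_ofReal, ← Complex.div_ofReal_re]
      congr 1
      simp only [map_mul, Complex.conj_ofReal]
      ring
    rw [e1, mul_add, mul_sub]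
    have e3 : b k * (2 * (rr U l w i / aa U l i * conj (U i k) * conj (w k)).re)
        = 2 * ((rr U l w i * (conj (U i k * (b k * w k)))).re / aa U l i) := by
      rw [← e2]
      ring
    rw [e3]
    ring
  simp only [h1]
  rw [Finset.sum_add_distrib, Finset.sum_sub_distrib, ← Finset.mul_sum]
  congr 1
  · congr 1
    rw [← Finset.sum_div, ← Finset.mul_sum, ← Complex.re_sum, ← Finset.mul_sum]
    unfold rr
    rw [map_sum]
  · unfold aa
    ring

lemma rr_self_mul_conj (w : Fin n → ℂ) (i : Fin n) :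
    (rr U l w i * conj (rr U l w i)).re = ‖rr U l w i‖ ^ 2 := by
  rw [Complex.mul_conj, Complex.ofReal_re, Complex.normSq_eq_norm_sq]

/-- energy decrement -/
lemma qf_stp_self (w : Fin n → ℂ) {i : Fin n} (ha : 0 < aa U l i) :
    qf l (stp U l w i) = qf l w - ‖rr U l w i‖ ^ 2 / aa U l i := by
  rw [qf_stp, rr_self_mul_conj]
  field_simp
  ring

/-- orthogonality of the columns -/
lemma sum_rr (hU : ColOrth U) (b c : Fin n → ℝ) (w : Fin n → ℂ) :
    ∑ i, rr U b w i * conj (rr U c w i) = ((qf (fun k => b k * c k) w : ℝ) : ℂ) := by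
  have h1 : ∀ i, rr U b w i * conj (rr U c w i)
      = ∑ k, ∑ m, (b k * w k) * (c m * conj (w m)) * (conj (U i m) * U i k) := by
    intro i
    unfold rr
    rw [map_sum, Finset.sum_mul_sum]
    apply Finset.sum_congr rfl
    intro k _
    apply Finset.sum_congr rfl
    intro m _
    simp only [map_mul, Complex.conj_ofReal]
    ring
  simp only [h1]
  rw [Finset.sum_comm]
  unfold qf
  rw [Complex.ofReal_sum]
  apply Finset.sum_congr rfl
  intro k _
  rw [Finset.sum_comm]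
  have h2 : ∀ m, ∑ i, (b k * w k) * (c m * conj (w m)) * (conj (U i m) * U i k)
      = (b k * w k) * (c m * conj (w m)) * (if m = k then 1 else 0) := by
    intro m
    rw [← Finset.mul_sum, hU m k]
  simp only [h2]
  rw [Finset.sum_eq_single k]
  · rw [if_pos rfl, mul_one]
    push_cast
    rw [← Complex.conj_mul' (w k)]
    ring
  · intro m _ hm
    rw [if_neg hm, mul_zero]
  · intro h
    exact absurd (Finset.mem_univ k) h

lemma sum_rr_sq (hU : ColOrth U) (b : Fin n → ℝ) (w : Fin n → ℂ) :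
    ∑ i, ‖rr U b w i‖ ^ 2 = qf (fun k => b k ^ 2) w := by
  have h := congrArg Complex.re (sum_rr hU b b w)
  rw [Complex.re_sum, Complex.ofReal_re] at h
  simp only [rr_self_mul_conj] at h
  rw [h]
  unfold qf
  exact Finset.sum_congr rfl fun k _ => by ring

lemma sum_rr_re (hU : ColOrth U) (b c : Fin n → ℝ) (w : Fin n → ℂ) :
    ∑ i, (rr U b w i * conj (rr U c w i)).re = qf (fun k => b k * c k) w := by
  have h := congrArg Complex.re (sum_rr hU b c w)
  rw [Complex.re_sum, Complex.ofReal_re] at h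
  exact h

lemma sum_aa (hU : ColOrth U) (b : Fin n → ℝ) : ∑ i, aa U b i = ∑ k, b k := by
  unfold aa
  rw [Finset.sum_comm]
  apply Finset.sum_congr rfl
  intro k _
  have h := congrArg Complex.re (hU k k)
  rw [if_pos rfl, Complex.one_re, Complex.re_sum] at h
  have h2 : ∀ i, (conj (U i k) * U i k).re = ‖U i k‖ ^ 2 := by
    intro i
    rw [Complex.conj_mul']
    norm_cast
  simp only [h2] at h
  rw [← Finset.mul_sum, h, mul_one]

/-- Cauchy's inequality -/
lemma rr_cs (hb : ∀ k, 0 ≤ b k) (w : Fin n → ℂ) (i : Fin n) :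
    ‖rr U b w i‖ ^ 2 ≤ aa U b i * qf b w := by
  have h1 : ‖rr U b w i‖ ≤ ∑ k, (√(b k) * ‖U i k‖) * (√(b k) * ‖w k‖) := by
    unfold rr
    refine (norm_sum_le _ _).trans (le_of_eq (Finset.sum_congr rfl fun k _ => ?_))
    rw [norm_mul, norm_mul, Complex.norm_real, Real.norm_eq_abs, abs_of_nonneg (hb k)]
    nth_rw 1 [← Real.mul_self_sqrt (hb k)]
    ring
  have h2 := Finset.sum_mul_sq_le_sq_mul_sq Finset.univ (fun k => √(b k) * ‖U i k‖)
    (fun k => √(b k) * ‖w k‖)
  calc ‖rr U b w i‖ ^ 2 ≤ (∑ k, (√(b k) * ‖U i k‖) * (√(b k) * ‖w k‖)) ^ 2 := by gcongr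
    _ ≤ (∑ k, (√(b k) * ‖U i k‖) ^ 2) * ∑ k, (√(b k) * ‖w k‖) ^ 2 := h2
    _ = _ := by
        unfold aa qf
        congr 1 <;> exact Finset.sum_congr rfl fun k _ => by
          rw [mul_pow, Real.sq_sqrt (hb k)]

/-- injected energy -/
noncomputable def inj (U : Fin n → Fin n → ℂ) (l b : Fin n → ℝ) (w : Fin n → ℂ) : ℝ :=
  ∑ i, ‖rr U l w i‖ ^ 2 * (aa U b i / aa U l i)

/-- one step expectation -/
lemma step_mean (hU : ColOrth U) (ha : ∀ i, 0 < aa U l i) {L : ℝ} (hL : 0 < L)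
    (b : Fin n → ℝ) (w : Fin n → ℂ) (hs : ∑ k, l k = L) :
    ∑ i, aa U l i / L * qf b (stp U l w i)
      = qf b w - (2 * qf (fun k => l k * b k) w - inj U l b w) / L := by
  have h1 : ∀ i, aa U l i / L * qf b (stp U l w i)
      = qf b w / L * aa U l i - 2 / L * (rr U l w i * conj (rr U b w i)).re
        + 1 / L * (‖rr U l w i‖ ^ 2 * (aa U b i / aa U l i)) := by
    intro i
    have := (ha i).ne'
    rw [qf_stp]
    field_simp
  simp only [h1]
  rw [Finset.sum_add_distrib, Finset.sum_sub_distrib, ← Finset.mul_sum, ← Finset.mul_sum,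
    ← Finset.mul_sum, sum_rr_re hU, sum_aa hU, hs]
  unfold inj
  field_simp
  ring

lemma inj_self (hU : ColOrth U) (ha : ∀ i, 0 < aa U l i) (w : Fin n → ℂ) :
    inj U l l w = qf (fun k => l k ^ 2) w := by
  unfold inj
  rw [← sum_rr_sq hU]
  apply Finset.sum_congr rfl
  intro i _
  rw [div_self (ha i).ne', mul_one]

lemma step_mean_self (hU : ColOrth U) (ha : ∀ i, 0 < aa U l i) {L : ℝ} (hL : 0 < L)
    (w : Fin n → ℂ) (hs : ∑ k, l k = L) :
    ∑ i, aa U l i / L * qf l (stp U l w i)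
      = qf l w - qf (fun k => l k ^ 2) w / L := by
  rw [step_mean hU ha hL l w hs, inj_self hU ha]
  have : qf (fun k => l k * l k) w = qf (fun k => l k ^ 2) w := by
    unfold qf
    exact Finset.sum_congr rfl fun k _ => by ring
  rw [this]
  ring

lemma qf_stp_le (w : Fin n → ℂ) {i : Fin n} (ha : 0 < aa U l i) :
    qf l (stp U l w i) ≤ qf l w := by
  rw [qf_stp_self w ha]
  have : 0 ≤ ‖rr U l w i‖ ^ 2 / aa U l i := by positivity
  linarith

lemma inj_nonneg (hl : ∀ k, 0 ≤ l k) (hb : ∀ k, 0 ≤ b k) (w : Fin n → ℂ) :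
    0 ≤ inj U l b w :=
  Finset.sum_nonneg fun i _ => mul_nonneg (sq_nonneg _)
    (div_nonneg (aa_nonneg hb i) (aa_nonneg hl i))

lemma qf_mono {c : Fin n → ℝ} (h : ∀ k, b k ≤ c k) (w : Fin n → ℂ) : qf b w ≤ qf c w := by
  unfold qf
  gcongr with k _
  exact h k

lemma qf_smul (c : ℝ) (w : Fin n → ℂ) : qf (fun k => c * b k) w = c * qf b w := by
  unfold qf
  rw [Finset.mul_sum]
  exact Finset.sum_congr rfl fun k _ => by ring

lemma qf_add (b c : Fin n → ℝ) (w : Fin n → ℂ) :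
    qf (fun k => b k + c k) w = qf b w + qf c w := by
  unfold qf
  rw [← Finset.sum_add_distrib]
  exact Finset.sum_congr rfl fun k _ => by ring

end Pool.Agent.Helper579.Cg
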