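import Mathlib
import Pool.Agent.Helper579.CgRcd1

set_option autoImplicit false

namespace Pool.Agent.Helper579.Cg

open scoped ComplexConjugate

variable {n : ℕ} {U : Fin n → Fin n → ℂ} {l : Fin n → ℝ}

/-- the weights of the random coordinates -/
noncomputable def pp (U : Fin n → Fin n → ℂ) (l : Fin n → ℝ) (i : Fin n) : ℝ :=
  aa U l i / ∑ k, l k

lemma pp_nonneg (hl : ∀ k, 0 ≤ l k) (i : Fin n) : 0 ≤ pp U l i :=
  div_nonneg (aa_nonneg hl i) (Finset.sum_nonneg fun k _ => hl k)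

lemma sum_pp (hU : ColOrth U) (hL : 0 < ∑ k, l k) : ∑ i, pp U l i = 1 := by
  unfold pp
  rw [← Finset.sum_div, sum_aa hU, div_self hL.ne']

/-- upper bound for the mean energy -/
lemma mean_upper (hU : ColOrth U) (ha : ∀ i, 0 < aa U l i) (hl : ∀ k, 0 ≤ l k)
    (hL : 0 < ∑ k, l k) {m : ℝ} (hm : ∀ k, m ≤ l k) (hm1 : m ≤ ∑ k, l k) :
    ∀ (t : ℕ) (w : Fin n → ℂ),
    EX (pp U l) (stp U l) t (qf l) w ≤ (1 - m / ∑ k, l k) ^ t * qf l w
  | 0, w => by simp [EX]
  | t + 1, w => by
    rw [EX_succ]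
    have hI : ∀ (s : Fin n → ℂ) (i : Fin n), True → True := fun _ _ _ => trivial
    calc EX (pp U l) (stp U l) t (fun σ' => ∑ i, pp U l i * qf l (stp U l σ' i)) w
        ≤ EX (pp U l) (stp U l) t (fun σ' => (1 - m / ∑ k, l k) * qf l σ') w := by
          apply EX_mono (Inv := fun _ => True) (pp_nonneg hl) hI t _ w trivial
          intro s _
          have h1 := step_mean_self hU ha hL s rfl
          unfold pp
          rw [h1]
          have h2 : m * qf l s ≤ qf (fun k => l k ^ 2) s := by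
            rw [← qf_smul]
            apply qf_mono
            intro k
            have := hm k
            have := hl k
            nlinarith
          have h3 : m * qf l s / (∑ k, l k) ≤ qf (fun k => l k ^ 2) s / (∑ k, l k) := by
            gcongr
          have h4 : (1 - m / ∑ k, l k) * qf l s = qf l s - m * qf l s / (∑ k, l k) := by ring
          rw [h4]
          linarith
      _ = (1 - m / ∑ k, l k) * EX (pp U l) (stp U l) t (qf l) w := EX_mul _ _ _ _
      _ ≤ (1 - m / ∑ k, l k) * ((1 - m / ∑ k, l k) ^ t * qf l w) := by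
          apply mul_le_mul_of_nonneg_left (mean_upper hU ha hl hL hm hm1 t w)
          rw [sub_nonneg, div_le_one hL]
          exact hm1
      _ = _ := by ring

lemma jensen_sq {ι : Type} [Fintype ι] (q : ι → ℝ) (hq : ∀ i, 0 ≤ q i) (hq1 : ∑ i, q i = 1)
    (z : ι → ℂ) : ‖∑ i, (q i : ℂ) * z i‖ ^ 2 ≤ ∑ i, q i * ‖z i‖ ^ 2 := by
  have h1 : ‖∑ i, (q i : ℂ) * z i‖ ≤ ∑ i, √(q i) * (√(q i) * ‖z i‖) := by
    refine (norm_sum_le _ _).trans (le_of_eq (Finset.sum_congr rfl fun i _ => ?_))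
    rw [norm_mul, Complex.norm_real, Real.norm_eq_abs, abs_of_nonneg (hq i)]
    nth_rw 1 [← Real.mul_self_sqrt (hq i)]
    ring
  have h2 := Finset.sum_mul_sq_le_sq_mul_sq Finset.univ (fun i => √(q i))
    (fun i => √(q i) * ‖z i‖)
  calc ‖∑ i, (q i : ℂ) * z i‖ ^ 2 ≤ (∑ i, √(q i) * (√(q i) * ‖z i‖)) ^ 2 := by gcongr
    _ ≤ (∑ i, √(q i) ^ 2) * ∑ i, (√(q i) * ‖z i‖) ^ 2 := h2
    _ = _ := by
        have h3 : ∑ i, √(q i) ^ 2 = 1 := by
          rw [← hq1]
          exact Finset.sum_congr rfl fun i _ => Real.sq_sqrt (hq i)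
        rw [h3, one_mul]
        exact Finset.sum_congr rfl fun i _ => by rw [mul_pow, Real.sq_sqrt (hq i)]

lemma mean_stp (hU : ColOrth U) (ha : ∀ i, 0 < aa U l i) (hL : 0 < ∑ k, l k)
    (w : Fin n → ℂ) (k : Fin n) :
    ∑ i, (pp U l i : ℂ) * stp U l w i k = ((1 - l k / ∑ m, l m : ℝ) : ℂ) * w k := by
  have h1 : ∀ i, (pp U l i : ℂ) * stp U l w i k
      = (pp U l i : ℂ) * w k - (1 / (∑ m, l m : ℝ) : ℂ) * (rr U l w i * conj (U i k)) := by
    intro i
    unfold pp stp
    have := (ha i).ne'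
    have h2 : ((aa U l i : ℝ) : ℂ) ≠ 0 := by exact_mod_cast this
    have h3 : ((∑ m, l m : ℝ) : ℂ) ≠ 0 := by exact_mod_cast hL.ne'
    push_cast
    push_cast at h3
    field_simp
  have h4 : ∑ i, rr U l w i * conj (U i k) = l k * w k := by
    unfold rr
    have h5 : ∀ i, (∑ m, U i m * (l m * w m)) * conj (U i k)
        = ∑ m, (l m * w m) * (conj (U i k) * U i m) := by
      intro i
      rw [Finset.sum_mul]
      exact Finset.sum_congr rfl fun m _ => by ring
    simp only [h5]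
    rw [Finset.sum_comm]
    simp only [← Finset.mul_sum]
    have h6 : ∀ m, (l m * w m : ℂ) * ∑ i, conj (U i k) * U i m
        = (l m * w m : ℂ) * (if k = m then 1 else 0) := by
      intro m
      rw [hU k m]
    simp only [h6, mul_ite, mul_one, mul_zero, Finset.sum_ite_eq, Finset.mem_univ, if_true]
  simp only [h1]
  rw [Finset.sum_sub_distrib, ← Finset.mul_sum, h4, ← Finset.sum_mul, ← Complex.ofReal_sum,
    sum_pp hU hL]
  push_cast
  ring

/-- lower bound for the mean energy -/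
lemma mean_lower (hU : ColOrth U) (ha : ∀ i, 0 < aa U l i) (hl : ∀ k, 0 ≤ l k)
    (hL : 0 < ∑ k, l k) : ∀ (t : ℕ) (b : Fin n → ℝ), (∀ k, 0 ≤ b k) → ∀ (w : Fin n → ℂ),
    qf (fun k => b k * (1 - l k / ∑ m, l m) ^ (2 * t)) w
      ≤ EX (pp U l) (stp U l) t (qf b) w
  | 0, b, hb, w => by simp [EX]
  | t + 1, b, hb, w => by
    rw [EX_succ]
    have hI : ∀ (s : Fin n → ℂ) (i : Fin n), True → True := fun _ _ _ => trivial
    have h1 := mean_lower hU ha hl hL t (fun k => b k * (1 - l k / ∑ m, l m) ^ 2)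
      (fun k => mul_nonneg (hb k) (sq_nonneg _)) w
    have h2 : qf (fun k => b k * (1 - l k / ∑ m, l m) ^ (2 * (t + 1))) w
        = qf (fun k => b k * (1 - l k / ∑ m, l m) ^ 2 * (1 - l k / ∑ m, l m) ^ (2 * t)) w := by
      unfold qf
      exact Finset.sum_congr rfl fun k _ => by ring
    rw [h2]
    refine h1.trans ?_
    apply EX_mono (Inv := fun _ => True) (pp_nonneg hl) hI t _ w trivial
    intro s _
    have h3 : ∑ i, pp U l i * qf b (stp U l s i)
        = ∑ k, b k * ∑ i, pp U l i * ‖stp U l s i k‖ ^ 2 := by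
      unfold qf
      simp only [Finset.mul_sum]
      rw [Finset.sum_comm]
      exact Finset.sum_congr rfl fun k _ => Finset.sum_congr rfl fun i _ => by ring
    rw [h3]
    unfold qf
    apply Finset.sum_le_sum
    intro k _
    have h4 := jensen_sq (pp U l) (pp_nonneg hl) (sum_pp hU hL) (fun i => stp U l s i k)
    rw [mean_stp hU ha hL, norm_mul, Complex.norm_real, Real.norm_eq_abs, mul_pow, sq_abs] at h4
    calc b k * (1 - l k / ∑ m, l m) ^ 2 * ‖s k‖ ^ 2
        = b k * ((1 - l k / ∑ m, l m) ^ 2 * ‖s k‖ ^ 2) := by ring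
      _ ≤ b k * ∑ i, pp U l i * ‖stp U l s i k‖ ^ 2 := mul_le_mul_of_nonneg_left h4 (hb k)

/-- the energy does not increase along the path -/
lemma path_le (ha : ∀ i, 0 < aa U l i) (w : Fin n → ℂ) (ω : ℕ → Fin n) :
    ∀ {s t : ℕ}, s ≤ t → qf l (path (stp U l) w ω t) ≤ qf l (path (stp U l) w ω s) := by
  intro s t hst
  induction t, hst using Nat.le_induction with
  | base => exact le_rfl
  | succ t _ ih => exact (qf_stp_le _ (ha _)).trans ih

end Pool.Agent.Helper579.Cg
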