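import Mathlib
import Pool.Agent.Helper579.CgRcd2

set_option autoImplicit false

namespace Pool.Agent.Helper579.Cg

open scoped ComplexConjugate

section drift

variable {S ι : Type} [Fintype ι] {p : ι → ℝ} {st : S → ι → S} {Inv : S → Prop}

/-- mean drift -/
lemma EX_drift (hI : ∀ s i, Inv s → Inv (st s i)) (f G : S → ℝ)
    (hG : ∀ s, Inv s → ∑ i, p i * f (st s i) = f s - G s) (σ : S) (hσ : Inv σ) : ∀ t : ℕ,
    EX p st t f σ = f σ - ∑ s ∈ Finset.range t, EX p st s G σ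
  | 0 => by simp [EX]
  | t + 1 => by
    have h1 : EX p st (t + 1) f σ = EX p st t (fun s => f s + (-1) * G s) σ := by
      rw [EX_succ]
      apply EX_congr hI t _ σ hσ
      intro s hs
      rw [hG s hs]
      ring
    rw [h1, EX_add, EX_mul, EX_drift hI f G hG σ hσ t, Finset.sum_range_succ]
    ring

end drift

variable {n : ℕ}

/-- the tail of the weights -/
noncomputable def tl (l : Fin n → ℝ) (K : ℕ) : Fin n → ℝ :=
  fun k => if K ≤ (k : ℕ) then l k else 0

/-- the head of the weights -/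
noncomputable def hd (l : Fin n → ℝ) (K : ℕ) : Fin n → ℝ :=
  fun k => if (k : ℕ) < K then l k else 0

/-- the contribution of the heavy rows -/
noncomputable def Hv (U : Fin n → Fin n → ℂ) (l : Fin n → ℝ) (h : ℝ) (w : Fin n → ℂ) : ℝ :=
  ∑ i, if h * aa U l i < ‖rr U l w i‖ ^ 2 then ‖rr U l w i‖ ^ 2 else 0

variable {U : Fin n → Fin n → ℂ} {l : Fin n → ℝ}

lemma hd_add_tl (l : Fin n → ℝ) (K : ℕ) (k : Fin n) : hd l K k + tl l K k = l k := by
  unfold hd tl
  by_cases h : K ≤ (k : ℕ)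
  · rw [if_neg (by omega), if_pos h, zero_add]
  · rw [if_pos (by omega), if_neg h, add_zero]

lemma qf_hd_add_tl (l : Fin n → ℝ) (K : ℕ) (w : Fin n → ℂ) :
    qf (hd l K) w + qf (tl l K) w = qf l w := by
  rw [← qf_add]
  congr 1
  ext k
  exact hd_add_tl l K k

lemma tl_nonneg (hl : ∀ k, 0 ≤ l k) (K : ℕ) (k : Fin n) : 0 ≤ tl l K k := by
  unfold tl
  split_ifs
  · exact hl k
  · exact le_rfl

lemma hd_nonneg (hl : ∀ k, 0 ≤ l k) (K : ℕ) (k : Fin n) : 0 ≤ hd l K k := by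
  unfold hd
  split_ifs
  · exact hl k
  · exact le_rfl

lemma tl_le (hl : ∀ k, 0 ≤ l k) (K : ℕ) (k : Fin n) : tl l K k ≤ l k := by
  unfold tl
  split_ifs
  · exact le_rfl
  · exact hl k

lemma hd_le (hl : ∀ k, 0 ≤ l k) (K : ℕ) (k : Fin n) : hd l K k ≤ l k := by
  unfold hd
  split_ifs
  · exact le_rfl
  · exact hl k

/-- pathwise lower bound -/
lemma path_lower (hU : ColOrth U) (ha : ∀ i, 0 < aa U l i) (hl : ∀ k, 0 ≤ l k)
    (hL : 0 < ∑ k, l k) {K : ℕ} {τ x lam' : ℝ} (hx : 0 ≤ x) (hτ : 0 ≤ τ) (hτx : 0 ≤ τ - x)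
    (hτ1 : τ ≤ 1)
    (h0 : 0 ≤ lam')
    (hK : ∀ k : Fin n, K ≤ (k : ℕ) → l k ≤ lam') (Bad : Finset (Fin n))
    (hgood : ∀ i ∉ Bad, (τ - x) * aa U l i ≤ aa U (tl l K) i)
    (w : Fin n → ℂ) (T : ℕ) (ω : ℕ → Fin n)
    (hT : 2 * T * lam' / (∑ k, l k) ≤ x)
    (hw : (τ - x) * qf l w ≤ qf (tl l K) w)
    (hX : |Mt (stp U l) (qf l) (fun v => qf (fun k => l k ^ 2) v / ∑ k, l k) w ω T|
      ≤ x * qf l w)
    (hY : |Mt (stp U l) (qf (tl l K)) (fun v => (2 * qf (fun k => l k * tl l K k) v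
      - inj U l (tl l K) v) / ∑ k, l k) w ω T| ≤ x * qf l w)
    (hB : ∑ s ∈ Finset.range T, (∑ i ∈ Bad, ‖rr U l (path (stp U l) w ω s) i‖ ^ 2)
      / (∑ k, l k) ≤ x * qf l w) :
    (2 * τ - 6 * x) * qf l w ≤ (1 + τ) * qf l (path (stp U l) w ω T) := by
  set L := ∑ k, l k with hLdef
  set E0 := qf l w with hE0
  have hE00 : 0 ≤ E0 := qf_nonneg hl w
  set ET := qf l (path (stp U l) w ω T) with hET
  have hET0 : 0 ≤ ET := qf_nonneg hl _
  set Dc := ∑ s ∈ Finset.range T, qf (fun k => l k ^ 2) (path (stp U l) w ω s) / L with hDc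
  have hX' : |ET - E0 + Dc| ≤ x * E0 := hX
  obtain ⟨hX1, hX2⟩ := abs_le.1 hX'
  have hY' := (abs_le.1 hY).1
  unfold Mt at hY'
  -- the tail energy
  have hF : qf (tl l K) (path (stp U l) w ω T) ≤ ET := qf_mono (tl_le hl K) _
  -- pointwise bound for the compensator
  have h1 : ∀ s ∈ Finset.range T,
      (2 * qf (fun k => l k * tl l K k) (path (stp U l) w ω s)
        - inj U l (tl l K) (path (stp U l) w ω s)) / L
      ≤ 2 * lam' / L * E0 - (τ - x) * (qf (fun k => l k ^ 2) (path (stp U l) w ω s) / L)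
        + (τ - x) * ((∑ i ∈ Bad, ‖rr U l (path (stp U l) w ω s) i‖ ^ 2) / L) := by
    intro s _
    set v := path (stp U l) w ω s with hv
    have e1 : qf (fun k => l k * tl l K k) v ≤ lam' * E0 := by
      have e2 : qf (fun k => l k * tl l K k) v ≤ qf (fun k => lam' * l k) v := by
        apply qf_mono
        intro k
        unfold tl
        split_ifs with h
        · exact mul_le_mul_of_nonneg_right (hK k h) (hl k)
        · rw [mul_zero]
          exact mul_nonneg h0 (hl k)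
      rw [qf_smul] at e2
      refine e2.trans (mul_le_mul_of_nonneg_left ?_ h0)
      have := path_le (U := U) (l := l) ha w ω (Nat.zero_le s)
      exact this
    have e3 : (τ - x) * (qf (fun k => l k ^ 2) v - ∑ i ∈ Bad, ‖rr U l v i‖ ^ 2)
        ≤ inj U l (tl l K) v := by
      rw [← sum_rr_sq hU]
      unfold inj
      have e4 : ∑ i, ‖rr U l v i‖ ^ 2 - ∑ i ∈ Bad, ‖rr U l v i‖ ^ 2
          = ∑ i ∈ Badᶜ, ‖rr U l v i‖ ^ 2 := by
        rw [← Finset.sum_add_sum_compl Bad]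
        ring
      rw [e4, Finset.mul_sum]
      calc ∑ i ∈ Badᶜ, (τ - x) * ‖rr U l v i‖ ^ 2
          ≤ ∑ i ∈ Badᶜ, ‖rr U l v i‖ ^ 2 * (aa U (tl l K) i / aa U l i) := by
            apply Finset.sum_le_sum
            intro i hi
            have hg := hgood i (Finset.mem_compl.1 hi)
            have e5 : τ - x ≤ aa U (tl l K) i / aa U l i := by
              rw [le_div_iff₀ (ha i)]
              exact hg
            have := mul_le_mul_of_nonneg_left e5 (sq_nonneg ‖rr U l v i‖)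
            linarith
        _ ≤ _ := by
            apply Finset.sum_le_sum_of_subset_of_nonneg (Finset.subset_univ _)
            intro i _ _
            exact mul_nonneg (sq_nonneg _) (div_nonneg (aa_nonneg (tl_nonneg hl K) i) (ha i).le)
    have e6 : (2 * qf (fun k => l k * tl l K k) v - inj U l (tl l K) v) / L
        ≤ (2 * (lam' * E0) - (τ - x) * (qf (fun k => l k ^ 2) v
          - ∑ i ∈ Bad, ‖rr U l v i‖ ^ 2)) / L := by
      gcongr
    refine e6.trans (le_of_eq ?_)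
    ring
  have h2 := Finset.sum_le_sum h1
  rw [Finset.sum_add_distrib, Finset.sum_sub_distrib, Finset.sum_const, Finset.card_range,
    ← Finset.mul_sum, ← Finset.mul_sum, nsmul_eq_mul] at h2
  have h3 : (T : ℝ) * (2 * lam' / L * E0) ≤ x * E0 := by
    have : (T : ℝ) * (2 * lam' / L * E0) = 2 * T * lam' / L * E0 := by ring
    rw [this]
    exact mul_le_mul_of_nonneg_right hT hE00
  have h4 : (τ - x) * (∑ s ∈ Finset.range T,
      (∑ i ∈ Bad, ‖rr U l (path (stp U l) w ω s) i‖ ^ 2) / L) ≤ (τ - x) * (x * E0) :=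
    mul_le_mul_of_nonneg_left hB hτx
  rw [← hDc] at h2
  have h5 : (τ - x) * (E0 - ET - x * E0) ≤ (τ - x) * Dc :=
    mul_le_mul_of_nonneg_left (by linarith) hτx
  have h6 : 0 ≤ x * E0 := mul_nonneg hx hE00
  have h7 : (τ - x) * (x * E0) ≤ x * E0 := by
    have : τ - x ≤ 1 := by linarith
    nlinarith
  have h8 : 0 ≤ x * ET := mul_nonneg hx hET0
  nlinarith

/-- pathwise upper bound -/
lemma path_upper (hU : ColOrth U) (ha : ∀ i, 0 < aa U l i) (hl : ∀ k, 0 ≤ l k)
    (hL : 0 < ∑ k, l k) {K : ℕ} {τ x : ℝ} (hx : 0 ≤ x) (hx1 : x ≤ 1) (hτ : 0 ≤ τ) (hτ1 : τ ≤ 1)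
    (hgood : ∀ i, aa U (tl l K) i ≤ (τ + x) * aa U l i)
    (w : Fin n → ℂ) (T : ℕ) (ω : ℕ → Fin n)
    (hw : qf (tl l K) w ≤ (τ + x) * qf l w)
    (hX : |Mt (stp U l) (qf l) (fun v => qf (fun k => l k ^ 2) v / ∑ k, l k) w ω T|
      ≤ x * qf l w)
    (hY : |Mt (stp U l) (qf (tl l K)) (fun v => (2 * qf (fun k => l k * tl l K k) v
      - inj U l (tl l K) v) / ∑ k, l k) w ω T| ≤ x * qf l w)
    (hS : qf (hd l K) (path (stp U l) w ω T) ≤ x * qf l w) :
    (1 + τ) * qf l (path (stp U l) w ω T) ≤ (2 * τ + 6 * x) * qf l w := by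
  set L := ∑ k, l k with hLdef
  set E0 := qf l w with hE0
  have hE00 : 0 ≤ E0 := qf_nonneg hl w
  set ET := qf l (path (stp U l) w ω T) with hET
  have hET0 : 0 ≤ ET := qf_nonneg hl _
  set Dc := ∑ s ∈ Finset.range T, qf (fun k => l k ^ 2) (path (stp U l) w ω s) / L with hDc
  have hX' : |ET - E0 + Dc| ≤ x * E0 := hX
  obtain ⟨hX1, hX2⟩ := abs_le.1 hX'
  have hY' := (abs_le.1 hY).2
  unfold Mt at hY'
  have hsplit := qf_hd_add_tl l K (path (stp U l) w ω T)
  rw [← hET] at hsplit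
  have h1 : ∀ s ∈ Finset.range T,
      - ((τ + x) * (qf (fun k => l k ^ 2) (path (stp U l) w ω s) / L)) ≤
      (2 * qf (fun k => l k * tl l K k) (path (stp U l) w ω s)
        - inj U l (tl l K) (path (stp U l) w ω s)) / L := by
    intro s _
    set v := path (stp U l) w ω s with hv
    have e1 : 0 ≤ qf (fun k => l k * tl l K k) v :=
      qf_nonneg (fun k => mul_nonneg (hl k) (tl_nonneg hl K k)) v
    have e3 : inj U l (tl l K) v ≤ (τ + x) * qf (fun k => l k ^ 2) v := by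
      rw [← sum_rr_sq hU]
      unfold inj
      rw [Finset.mul_sum]
      apply Finset.sum_le_sum
      intro i _
      have e5 : aa U (tl l K) i / aa U l i ≤ τ + x := by
        rw [div_le_iff₀ (ha i)]
        exact hgood i
      have := mul_le_mul_of_nonneg_left e5 (sq_nonneg ‖rr U l v i‖)
      linarith
    have e6 : (- ((τ + x) * qf (fun k => l k ^ 2) v)) / L
        ≤ (2 * qf (fun k => l k * tl l K k) v - inj U l (tl l K) v) / L := by
      gcongr
      linarith
    refine le_trans (le_of_eq ?_) e6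
    ring
  have h2 := Finset.sum_le_sum h1
  rw [Finset.sum_neg_distrib, ← Finset.mul_sum, ← hDc] at h2
  have hτx : 0 ≤ τ + x := by linarith
  have h5 : (τ + x) * Dc ≤ (τ + x) * (E0 - ET + x * E0) :=
    mul_le_mul_of_nonneg_left (by linarith) hτx
  have h6 : 0 ≤ x * E0 := mul_nonneg hx hE00
  have h8 : 0 ≤ x * ET := mul_nonneg hx hET0
  have h9 : x * (x * E0) ≤ x * E0 := by nlinarith
  have h10 : τ * (x * E0) ≤ x * E0 := by nlinarith
  nlinarith

end Pool.Agent.Helper579.Cg
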