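import Mathlib
import Pool.Agent.Helper579.CgRcd3

set_option autoImplicit false

namespace Pool.Agent.Helper579.Cg

open scoped ComplexConjugate




variable {n : ℕ}


variable {U : Fin n → Fin n → ℂ} {l : Fin n → ℝ}

/-- TARGET: total dissipation -/
lemma diss_le (hU : ColOrth U) (ha : ∀ i, 0 < aa U l i) (hl : ∀ k, 0 ≤ l k)
    (hL : 0 < ∑ k, l k) (w : Fin n → ℂ) (T : ℕ) :
    ∑ t ∈ Finset.range T, EX (pp U l) (stp U l) t
      (fun s => qf (fun k => l k ^ 2) s / ∑ k, l k) w ≤ qf l w := by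
  have hdr := EX_drift (p := pp U l) (st := stp U l) (Inv := fun _ => True)
    (fun _ _ _ => trivial) (qf l) (fun s => qf (fun k => l k ^ 2) s / ∑ k, l k)
    (fun s _ => step_mean_self hU ha hL s rfl) w trivial T
  have hnn : 0 ≤ EX (pp U l) (stp U l) T (qf l) w :=
    EX_nonneg (Inv := fun _ => True) (pp_nonneg hl) (fun _ _ _ => trivial) T
      (fun s _ => qf_nonneg hl s) w trivial
  linarith

/-- TARGET: tail dissipation -/
lemma tail_diss_le (ha : ∀ i, 0 < aa U l i) (hU : ColOrth U) (hl : ∀ k, 0 ≤ l k)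
    (hL : 0 < ∑ k, l k) {K' : ℕ} {lam' : ℝ} (h0 : 0 ≤ lam')
    (hK' : ∀ k : Fin n, K' ≤ (k : ℕ) → l k ≤ lam')
    (w : Fin n → ℂ) (T : ℕ) :
    ∑ t ∈ Finset.range T, EX (pp U l) (stp U l) t
      (fun s => qf (fun k => l k * tl l K' k) s / ∑ k, l k) w
      ≤ T * lam' * qf l w / ∑ k, l k := by
  have hmono : ∀ k, l k * tl l K' k ≤ lam' * l k := by
    intro k
    unfold tl
    split_ifs with h
    · exact mul_le_mul_of_nonneg_right (hK' k h) (hl k)
    · rw [mul_zero]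
      exact mul_nonneg h0 (hl k)
  have hone : ∀ t ∈ Finset.range T, EX (pp U l) (stp U l) t
      (fun s => qf (fun k => l k * tl l K' k) s / ∑ k, l k) w ≤ lam' * qf l w / ∑ k, l k := by
    intro t _
    have h1 : EX (pp U l) (stp U l) t
        (fun s => qf (fun k => l k * tl l K' k) s / ∑ k, l k) w ≤
        EX (pp U l) (stp U l) t (fun _ => lam' * qf l w / ∑ k, l k) w := by
      apply EX_mono (Inv := fun s => qf l s ≤ qf l w) (pp_nonneg hl)
        (fun s i h => (qf_stp_le s (ha i)).trans h) t _ w le_rfl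
      intro s hs
      apply div_le_div_of_nonneg_right _ hL.le
      calc qf (fun k => l k * tl l K' k) s ≤ qf (fun k => lam' * l k) s := qf_mono hmono s
        _ = lam' * qf l s := qf_smul lam' s
        _ ≤ lam' * qf l w := mul_le_mul_of_nonneg_left hs h0
    rw [EX_const (sum_pp hU hL)] at h1
    exact h1
  refine (Finset.sum_le_sum hone).trans (le_of_eq ?_)
  rw [Finset.sum_const, Finset.card_range, nsmul_eq_mul]
  ring

/-- TARGET: dissipation of bad rows -/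
lemma bad_diss_le (hU : ColOrth U) (ha : ∀ i, 0 < aa U l i) (hl : ∀ k, 0 ≤ l k)
    (hL : 0 < ∑ k, l k) {K' : ℕ} {lam' s : ℝ} (h0 : 0 ≤ lam') (hs : 0 ≤ s)
    (hK' : ∀ k : Fin n, K' ≤ (k : ℕ) → l k ≤ lam') (Bad : Finset (Fin n))
    (hfew : ∀ v : Fin n → ℂ, ∑ i ∈ Bad, ‖rr U l v i‖ ^ 2
      ≤ 4 * s * qf (fun k => l k ^ 2) v + 2 * qf (fun k => l k * tl l K' k) v)
    (w : Fin n → ℂ) (T : ℕ) :
    ∑ t ∈ Finset.range T, EX (pp U l) (stp U l) t
      (fun v => (∑ i ∈ Bad, ‖rr U l v i‖ ^ 2) / ∑ k, l k) w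
      ≤ (4 * s + 2 * T * lam' / ∑ k, l k) * qf l w := by
  have hone : ∀ t ∈ Finset.range T, EX (pp U l) (stp U l) t
      (fun v => (∑ i ∈ Bad, ‖rr U l v i‖ ^ 2) / ∑ k, l k) w ≤
      4 * s * EX (pp U l) (stp U l) t (fun v => qf (fun k => l k ^ 2) v / ∑ k, l k) w +
      2 * EX (pp U l) (stp U l) t (fun v => qf (fun k => l k * tl l K' k) v / ∑ k, l k) w := by
    intro t _
    rw [← EX_mul, ← EX_mul, ← EX_add]
    apply EX_mono (Inv := fun _ => True) (pp_nonneg hl) (fun _ _ _ => trivial) t _ w trivial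
    intro v _
    rw [← mul_div_assoc, ← mul_div_assoc, ← add_div]
    exact div_le_div_of_nonneg_right (hfew v) hL.le
  refine (Finset.sum_le_sum hone).trans ?_
  rw [Finset.sum_add_distrib, ← Finset.mul_sum, ← Finset.mul_sum]
  have h1 := mul_le_mul_of_nonneg_left (diss_le hU ha hl hL w T) (show 0 ≤ 4 * s by positivity)
  have h2 := tail_diss_le ha hU hl hL h0 hK' w T
  calc _ ≤ 4 * s * qf l w + 2 * (T * lam' * qf l w / ∑ k, l k) := by linarith
    _ = _ := by ring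

lemma CG22_aa_split (K : ℕ) (i : Fin n) : aa U (hd l K) i + aa U (tl l K) i = aa U l i := by
  unfold aa hd tl
  rw [← Finset.sum_add_distrib]
  apply Finset.sum_congr rfl
  intro k _
  by_cases h : (k : ℕ) < K
  · rw [if_pos h, if_neg (by omega)]; ring
  · rw [if_neg h, if_pos (by omega)]; ring

lemma CG22_tl_nonneg (hl : ∀ k, 0 ≤ l k) (K : ℕ) (k : Fin n) : 0 ≤ tl l K k := by
  unfold tl
  split_ifs
  · exact hl k
  · exact le_rfl

lemma CG22_hd_nonneg (hl : ∀ k, 0 ≤ l k) (K : ℕ) (k : Fin n) : 0 ≤ hd l K k := by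
  unfold hd
  split_ifs
  · exact hl k
  · exact le_rfl

lemma CG22_inj (hU : ColOrth U) (ha : ∀ i, 0 < aa U l i) (hl : ∀ k, 0 ≤ l k)
    {K'' : ℕ} {g : ℝ} (hg : 0 ≤ g) (Bad : Finset (Fin n))
    (hgood : ∀ i ∉ Bad, (1 - g) * aa U l i ≤ aa U (tl l K'') i) (v : Fin n → ℂ) :
    inj U l (hd l K'') v ≤ g * qf (fun k => l k ^ 2) v + ∑ i ∈ Bad, ‖rr U l v i‖ ^ 2 := by
  classical
  rw [← sum_rr_sq hU l v, Finset.mul_sum, ← Finset.sum_filter_add_sum_filter_not Finset.univ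
    (fun i => i ∈ Bad) (fun i => g * ‖rr U l v i‖ ^ 2)]
  unfold inj
  rw [← Finset.sum_filter_add_sum_filter_not Finset.univ (fun i => i ∈ Bad)]
  have hBad : Finset.univ.filter (fun i => i ∈ Bad) = Bad := by
    ext i; simp
  rw [hBad]
  have h1 : ∑ i ∈ Bad, ‖rr U l v i‖ ^ 2 * (aa U (hd l K'') i / aa U l i) ≤
      ∑ i ∈ Bad, ‖rr U l v i‖ ^ 2 := by
    apply Finset.sum_le_sum
    intro i _
    have h2 : aa U (hd l K'') i / aa U l i ≤ 1 := by
      rw [div_le_one (ha i)]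
      have h5 := CG22_aa_split (U := U) (l := l) K'' i
      have := aa_nonneg (U := U) (CG22_tl_nonneg hl K'') i
      linarith
    calc ‖rr U l v i‖ ^ 2 * (aa U (hd l K'') i / aa U l i) ≤ ‖rr U l v i‖ ^ 2 * 1 :=
          mul_le_mul_of_nonneg_left h2 (sq_nonneg _)
      _ = _ := mul_one _
  have h3 : ∑ i ∈ Finset.univ.filter (fun i => ¬ i ∈ Bad),
      ‖rr U l v i‖ ^ 2 * (aa U (hd l K'') i / aa U l i) ≤
      ∑ i ∈ Finset.univ.filter (fun i => ¬ i ∈ Bad), g * ‖rr U l v i‖ ^ 2 := by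
    apply Finset.sum_le_sum
    intro i hi
    have hi' : i ∉ Bad := (Finset.mem_filter.mp hi).2
    have h2 : aa U (hd l K'') i / aa U l i ≤ g := by
      rw [div_le_iff₀ (ha i)]
      have h4 := hgood i hi'
      have h5 := CG22_aa_split (U := U) (l := l) K'' i
      nlinarith
    calc ‖rr U l v i‖ ^ 2 * (aa U (hd l K'') i / aa U l i) ≤ ‖rr U l v i‖ ^ 2 * g :=
          mul_le_mul_of_nonneg_left h2 (sq_nonneg _)
      _ = _ := mul_comm _ _
  have h4 : 0 ≤ ∑ i ∈ Bad, g * ‖rr U l v i‖ ^ 2 :=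
    Finset.sum_nonneg fun i _ => mul_nonneg hg (sq_nonneg _)
  linarith

/-- TARGET: dissipation in the head -/
lemma head_diss_le (hU : ColOrth U) (ha : ∀ i, 0 < aa U l i) (hl : ∀ k, 0 ≤ l k)
    (hL : 0 < ∑ k, l k) {K' K'' : ℕ} {lam' s g x : ℝ} (h0 : 0 ≤ lam') (hs : 0 ≤ s)
    (hg : 0 ≤ g)
    (hK' : ∀ k : Fin n, K' ≤ (k : ℕ) → l k ≤ lam') (Bad : Finset (Fin n))
    (hfew : ∀ v : Fin n → ℂ, ∑ i ∈ Bad, ‖rr U l v i‖ ^ 2
      ≤ 4 * s * qf (fun k => l k ^ 2) v + 2 * qf (fun k => l k * tl l K' k) v)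
    (hgood : ∀ i ∉ Bad, (1 - g) * aa U l i ≤ aa U (tl l K'') i)
    (w : Fin n → ℂ) (hw : qf (hd l K'') w ≤ x * qf l w) (T : ℕ) :
    ∑ t ∈ Finset.range T, EX (pp U l) (stp U l) t
      (fun v => qf (fun k => l k * hd l K'' k) v / ∑ k, l k) w
      ≤ (x + g + 4 * s + 2 * T * lam' / ∑ k, l k) / 2 * qf l w := by
  have hdr := EX_drift (p := pp U l) (st := stp U l) (Inv := fun _ => True)
    (fun _ _ _ => trivial) (qf (hd l K''))
    (fun s => (2 * qf (fun k => l k * hd l K'' k) s - inj U l (hd l K'') s) / ∑ k, l k)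
    (fun s _ => step_mean hU ha hL (hd l K'') s rfl) w trivial T
  have hnn : 0 ≤ EX (pp U l) (stp U l) T (qf (hd l K'')) w :=
    EX_nonneg (Inv := fun _ => True) (pp_nonneg hl) (fun _ _ _ => trivial) T
      (fun s _ => qf_nonneg (CG22_hd_nonneg hl K'') s) w trivial
  have hsplit : ∀ t ∈ Finset.range T, EX (pp U l) (stp U l) t
      (fun s => (2 * qf (fun k => l k * hd l K'' k) s - inj U l (hd l K'') s) / ∑ k, l k) w =
      2 * EX (pp U l) (stp U l) t (fun v => qf (fun k => l k * hd l K'' k) v / ∑ k, l k) w +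
      (-1) * EX (pp U l) (stp U l) t (fun v => inj U l (hd l K'') v / ∑ k, l k) w := by
    intro t _
    rw [← EX_mul, ← EX_mul, ← EX_add]
    congr 1
    funext v
    ring
  rw [Finset.sum_congr rfl hsplit, Finset.sum_add_distrib, ← Finset.mul_sum,
    ← Finset.mul_sum] at hdr
  have hinj : ∑ t ∈ Finset.range T, EX (pp U l) (stp U l) t
      (fun v => inj U l (hd l K'') v / ∑ k, l k) w ≤
      g * qf l w + (4 * s + 2 * T * lam' / ∑ k, l k) * qf l w := by
    have hone : ∀ t ∈ Finset.range T, EX (pp U l) (stp U l) t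
        (fun v => inj U l (hd l K'') v / ∑ k, l k) w ≤
        g * EX (pp U l) (stp U l) t (fun v => qf (fun k => l k ^ 2) v / ∑ k, l k) w +
        EX (pp U l) (stp U l) t (fun v => (∑ i ∈ Bad, ‖rr U l v i‖ ^ 2) / ∑ k, l k) w := by
      intro t _
      rw [← EX_mul, ← EX_add]
      apply EX_mono (Inv := fun _ => True) (pp_nonneg hl) (fun _ _ _ => trivial) t _ w trivial
      intro v _
      rw [← mul_div_assoc, ← add_div]
      exact div_le_div_of_nonneg_right (CG22_inj hU ha hl hg Bad hgood v) hL.le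
    refine (Finset.sum_le_sum hone).trans ?_
    rw [Finset.sum_add_distrib, ← Finset.mul_sum]
    have h1 := mul_le_mul_of_nonneg_left (diss_le hU ha hl hL w T) hg
    have h2 := bad_diss_le hU ha hl hL h0 hs hK' Bad hfew w T
    linarith
  have hfin : 2 * ∑ t ∈ Finset.range T, EX (pp U l) (stp U l) t
      (fun v => qf (fun k => l k * hd l K'' k) v / ∑ k, l k) w ≤
      x * qf l w + (g * qf l w + (4 * s + 2 * T * lam' / ∑ k, l k) * qf l w) := by
    linarith
  have e : (x + g + 4 * s + 2 * T * lam' / ∑ k, l k) / 2 * qf l w =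
      (x * qf l w + (g * qf l w + (4 * s + 2 * T * lam' / ∑ k, l k) * qf l w)) / 2 := by ring
  rw [e]
  linarith

/-- TARGET: dissipation of heavy rows -/
lemma heavy_diss_le (hU : ColOrth U) (ha : ∀ i, 0 < aa U l i) (hl : ∀ k, 0 ≤ l k)
    (hL : 0 < ∑ k, l k) {K' K'' : ℕ} {lam' s g x h : ℝ} (h0 : 0 ≤ lam') (hs : 0 ≤ s)
    (hg : 0 ≤ g)
    (hK' : ∀ k : Fin n, K' ≤ (k : ℕ) → l k ≤ lam') (Bad : Finset (Fin n))
    (hfew : ∀ v : Fin n → ℂ, ∑ i ∈ Bad, ‖rr U l v i‖ ^ 2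
      ≤ 4 * s * qf (fun k => l k ^ 2) v + 2 * qf (fun k => l k * tl l K' k) v)
    (hgood : ∀ i ∉ Bad, (1 - g) * aa U l i ≤ aa U (tl l K'') i)
    (w : Fin n → ℂ) (hw : qf (hd l K'') w ≤ x * qf l w)
    (hheavy : ∀ v : Fin n → ℂ, qf l v ≤ qf l w → Hv U l h v ≤ 4 * s * qf (fun k => l k ^ 2) v
      + 2 * qf (fun k => l k * tl l K' k) v + 2 * qf (fun k => l k * hd l K'' k) v) (T : ℕ) :
    ∑ t ∈ Finset.range T, EX (pp U l) (stp U l) t (fun v => Hv U l h v / ∑ k, l k) w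
      ≤ (x + g + 8 * s + 4 * T * lam' / ∑ k, l k) * qf l w := by
  have hone : ∀ t ∈ Finset.range T, EX (pp U l) (stp U l) t (fun v => Hv U l h v / ∑ k, l k) w ≤
      4 * s * EX (pp U l) (stp U l) t (fun v => qf (fun k => l k ^ 2) v / ∑ k, l k) w +
      2 * EX (pp U l) (stp U l) t (fun v => qf (fun k => l k * tl l K' k) v / ∑ k, l k) w +
      2 * EX (pp U l) (stp U l) t (fun v => qf (fun k => l k * hd l K'' k) v / ∑ k, l k) w := by
    intro t _
    rw [← EX_mul, ← EX_mul, ← EX_mul, ← EX_add, ← EX_add]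
    apply EX_mono (Inv := fun v => qf l v ≤ qf l w) (pp_nonneg hl)
      (fun s i h => (qf_stp_le s (ha i)).trans h) t _ w le_rfl
    intro v hv
    rw [← mul_div_assoc, ← mul_div_assoc, ← mul_div_assoc, ← add_div, ← add_div]
    exact div_le_div_of_nonneg_right (hheavy v hv) hL.le
  refine (Finset.sum_le_sum hone).trans ?_
  rw [Finset.sum_add_distrib, Finset.sum_add_distrib, ← Finset.mul_sum, ← Finset.mul_sum,
    ← Finset.mul_sum]
  have h1 := mul_le_mul_of_nonneg_left (diss_le hU ha hl hL w T) (show 0 ≤ 4 * s by positivity)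
  have h2 := tail_diss_le ha hU hl hL h0 hK' w T
  have h3 := head_diss_le hU ha hl hL h0 hs hg hK' Bad hfew hgood w hw T
  calc _ ≤ 4 * s * qf l w + 2 * (T * lam' * qf l w / ∑ k, l k) +
        2 * ((x + g + 4 * s + 2 * T * lam' / ∑ k, l k) / 2 * qf l w) := by linarith
    _ = _ := by ring

end Pool.Agent.Helper579.Cg
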