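import Mathlib

set_option autoImplicit false

namespace Pool.Agent.Helper579.Cg

open MeasureTheory
open scoped ENNReal

/-- the exponential distribution -/
noncomputable def expo : Measure ℝ :=
  (volume.restrict (Set.Ioi 0)).withDensity fun x => ENNReal.ofReal (Real.exp (-x))

lemma expo_lint {g : ℝ → ℝ≥0∞} (hg : Measurable g) :
    ∫⁻ x, g x ∂expo = ∫⁻ x in Set.Ioi (0 : ℝ), ENNReal.ofReal (Real.exp (-x)) * g x := by
  rw [expo, lintegral_withDensity_eq_lintegral_mul _ (by fun_prop) hg]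
  rfl

lemma expo_mgf {b : ℝ} (hb : b < 1) :
    ∫⁻ x, ENNReal.ofReal (Real.exp (b * x)) ∂expo = ENNReal.ofReal (1 - b)⁻¹ := by
  rw [expo_lint (by fun_prop)]
  have h1 : ∀ x : ℝ, ENNReal.ofReal (Real.exp (-x)) * ENNReal.ofReal (Real.exp (b * x)) =
      ENNReal.ofReal (Real.exp ((b - 1) * x)) := by
    intro x
    rw [← ENNReal.ofReal_mul (Real.exp_nonneg _), ← Real.exp_add]
    congr 2
    ring
  simp_rw [h1]
  rw [← ofReal_integral_eq_lintegral_ofReal (integrableOn_exp_mul_Ioi (by linarith) 0)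
    (ae_of_all _ fun _ => (Real.exp_nonneg _)), integral_exp_mul_Ioi (by linarith)]
  congr 1
  rw [mul_zero, Real.exp_zero]
  have : (1 : ℝ) - b ≠ 0 := by linarith
  have h2 : b - 1 ≠ 0 := by intro h; apply this; linarith
  field_simp
  ring

instance probExpo : IsProbabilityMeasure expo := by
  constructor
  have := expo_mgf (b := 0) (by norm_num)
  simpa using this

lemma expo_meas_lt (x : ℝ) : expo (Set.Iio x) ≤ ENNReal.ofReal x := by
  rw [expo, withDensity_apply _ measurableSet_Iio, Measure.restrict_restrict measurableSet_Iio]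
  calc ∫⁻ y in Set.Iio x ∩ Set.Ioi 0, ENNReal.ofReal (Real.exp (-y))
      ≤ ∫⁻ _ in Set.Iio x ∩ Set.Ioi 0, 1 := by
        refine setLIntegral_mono measurable_const fun y hy => ?_
        rw [← ENNReal.ofReal_one]
        refine ENNReal.ofReal_le_ofReal (Real.exp_le_one_iff.2 ?_)
        have := hy.2
        simp only [Set.mem_Ioi] at this
        linarith
    _ ≤ ENNReal.ofReal x := by
        rw [setLIntegral_one]
        calc volume (Set.Iio x ∩ Set.Ioi 0) ≤ volume (Set.Ioo 0 x) :=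
              measure_mono fun y hy => ⟨hy.2, hy.1⟩
          _ = ENNReal.ofReal x := by rw [Real.volume_Ioo, sub_zero]

lemma expo_meas_nonpos : expo (Set.Iic 0) = 0 := by
  rw [expo, withDensity_apply _ measurableSet_Iic, Measure.restrict_restrict measurableSet_Iic]
  have : Set.Iic (0:ℝ) ∩ Set.Ioi 0 = ∅ := by
    ext y
    simp
  rw [this]
  simp

lemma expo_prod {n : ℕ} (f : Fin n → ℝ → ℝ≥0∞) (hf : ∀ k, Measurable (f k)) :
    ∫⁻ ξ, ∏ k, f k (ξ k) ∂(Measure.pi (fun _ : Fin n => expo)) = ∏ k, ∫⁻ x, f k x ∂expo := by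
  have hi : ProbabilityTheory.iIndepFun (fun (i : Fin n) (ω : Fin n → ℝ) => f i (ω i))
      (Measure.pi (fun _ : Fin n => expo)) :=
    ProbabilityTheory.iIndepFun_pi (μ := fun _ : Fin n => expo) (X := fun i => f i)
      (fun i => (hf i).aemeasurable)
  have := ProbabilityTheory.lintegral_prod_eq_prod_lintegral_of_indepFun Finset.univ
    (fun (i : Fin n) (ω : Fin n → ℝ) => f i (ω i)) hi
    (fun i => (hf i).comp (measurable_pi_apply i))
  rw [this]
  refine Finset.prod_congr rfl fun k _ => ?_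
  exact (measurePreserving_eval (fun _ : Fin n => expo) k).lintegral_comp (hf k)

lemma expo_chernoff {n : ℕ} (b : Fin n → ℝ) (hb : ∀ k, b k < 1) (c : ℝ) :
    Measure.pi (fun _ : Fin n => expo) {ξ | c ≤ ∑ k, b k * ξ k}
      ≤ ENNReal.ofReal (Real.exp (-c) * ∏ k, (1 - b k)⁻¹) := by
  have hmeas : Measurable fun ξ : Fin n → ℝ => ∑ k, b k * ξ k := by fun_prop
  have h1 : Measure.pi (fun _ : Fin n => expo) {ξ | c ≤ ∑ k, b k * ξ k} ≤
      ∫⁻ ξ, ENNReal.ofReal (Real.exp (∑ k, b k * ξ k - c))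
        ∂(Measure.pi (fun _ : Fin n => expo)) := by
    rw [← lintegral_indicator_one (measurableSet_le measurable_const hmeas)]
    refine lintegral_mono fun ξ => ?_
    by_cases h : c ≤ ∑ k, b k * ξ k
    · rw [Set.indicator_of_mem (by exact h)]
      exact ENNReal.one_le_ofReal.2 (Real.one_le_exp (by linarith))
    · rw [Set.indicator_of_notMem (by exact h)]
      exact zero_le
  refine h1.trans (le_of_eq ?_)
  have h2 : ∀ ξ : Fin n → ℝ, ENNReal.ofReal (Real.exp (∑ k, b k * ξ k - c)) =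
      ENNReal.ofReal (Real.exp (-c)) * ∏ k, ENNReal.ofReal (Real.exp (b k * ξ k)) := by
    intro ξ
    rw [← ENNReal.ofReal_prod_of_nonneg (fun _ _ => Real.exp_nonneg _), ← Real.exp_sum,
      ← ENNReal.ofReal_mul (Real.exp_nonneg _), ← Real.exp_add]
    congr 2
    ring
  simp_rw [h2]
  rw [lintegral_const_mul _ (by fun_prop),
    expo_prod (fun k x => ENNReal.ofReal (Real.exp (b k * x))) (fun k => by fun_prop)]
  rw [ENNReal.ofReal_mul (Real.exp_nonneg _), ENNReal.ofReal_prod_of_nonneg]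
  · congr 1
    exact Finset.prod_congr rfl fun k _ => expo_mgf (hb k)
  · intro k _
    have := hb k
    exact inv_nonneg.2 (by linarith)

lemma expo_integrable_pow (m : ℕ) : Integrable (fun x : ℝ => x ^ m) expo := by
  rw [expo, integrable_withDensity_iff_integrable_smul' (by fun_prop)
    (ae_of_all _ fun _ => ENNReal.ofReal_lt_top)]
  have h := Real.GammaIntegral_convergent (s := (m : ℝ) + 1) (by positivity)
  refine h.congr_fun (fun x hx => ?_) measurableSet_Ioi
  rw [ENNReal.toReal_ofReal (Real.exp_nonneg _), smul_eq_mul, add_sub_cancel_right]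
  show Real.exp (-x) * x ^ (m : ℝ) = Real.exp (-x) * x ^ m
  rw [Real.rpow_natCast]

lemma expo_integral_pow (m : ℕ) : ∫ x : ℝ, x ^ m ∂expo = (m.factorial : ℝ) := by
  rw [expo, integral_withDensity_eq_integral_toReal_smul (by fun_prop)
    (ae_of_all _ fun _ => ENNReal.ofReal_lt_top)]
  rw [← Real.Gamma_nat_eq_factorial, Real.Gamma_eq_integral (by positivity)]
  refine setIntegral_congr_fun measurableSet_Ioi (fun x hx => ?_)
  rw [ENNReal.toReal_ofReal (Real.exp_nonneg _), smul_eq_mul, add_sub_cancel_right,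
    Real.rpow_natCast]

lemma expo_memLp : MemLp (fun x : ℝ => x) 2 expo :=
  (memLp_two_iff_integrable_sq (by fun_prop)).2 (expo_integrable_pow 2)

lemma expo_mean : ∫ x : ℝ, x ∂expo = 1 := by
  have := expo_integral_pow 1
  simpa using this

lemma expo_var : ProbabilityTheory.variance (fun x : ℝ => x) expo = 1 := by
  rw [ProbabilityTheory.variance_eq_sub expo_memLp]
  have h1 : ∫ x : ℝ, ((fun x : ℝ => x) ^ 2) x ∂expo = 2 := by
    have := expo_integral_pow 2
    simpa using this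
  rw [h1, expo_mean]
  norm_num

/-- Chebyshev's inequality -/
lemma expo_cheb {n : ℕ} (a : Fin n → ℝ) {x : ℝ} (hx : 0 < x) :
    Measure.pi (fun _ : Fin n => expo) {ξ | x ≤ |∑ k, a k * ξ k - ∑ k, a k|}
      ≤ ENNReal.ofReal ((∑ k, a k ^ 2) / x ^ 2) := by
  set μ := Measure.pi (fun _ : Fin n => expo) with hμ
  have hmp : ∀ k : Fin n, MeasurePreserving (Function.eval k) μ expo := fun k =>
    measurePreserving_eval (fun _ : Fin n => expo) k
  let X : Fin n → (Fin n → ℝ) → ℝ := fun k ξ => a k * ξ k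
  have hL0 : ∀ k : Fin n, MemLp (fun ξ : Fin n → ℝ => ξ k) 2 μ := fun k =>
    expo_memLp.comp_measurePreserving (hmp k)
  have hL : ∀ k : Fin n, MemLp (X k) 2 μ := fun k => (hL0 k).const_mul (a k)
  have hsumL : MemLp (∑ k, X k) 2 μ := memLp_finsetSum' _ fun k _ => hL k
  have hI : ∀ k : Fin n, Integrable (X k) μ := fun k => (hL k).integrable (by norm_num)
  have hmean : ∀ k : Fin n, ∫ ξ, X k ξ ∂μ = a k := by
    intro k
    have h1 : ∫ ξ : Fin n → ℝ, ξ k ∂μ = 1 := by
      rw [← expo_mean]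
      exact integral_comp_eval (μ := fun _ : Fin n => expo) (i := k) (f := fun x : ℝ => x)
        (by fun_prop)
    show ∫ ξ : Fin n → ℝ, a k * ξ k ∂μ = a k
    rw [integral_const_mul, h1, mul_one]
  have hind : ProbabilityTheory.iIndepFun X μ :=
    ProbabilityTheory.iIndepFun_pi (μ := fun _ : Fin n => expo) (X := fun (k : Fin n) x => a k * x)
      (fun k => by fun_prop)
  have hvark : ∀ k : Fin n, ProbabilityTheory.variance (X k) μ = a k ^ 2 := by
    intro k
    have h1 : ProbabilityTheory.variance (fun ξ : Fin n → ℝ => ξ k) μ = 1 := by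
      rw [← expo_var, ← (hmp k).map_eq, ProbabilityTheory.variance_map (by fun_prop)
        (hmp k).measurable.aemeasurable]
      rfl
    show ProbabilityTheory.variance (fun ξ : Fin n → ℝ => a k * ξ k) μ = a k ^ 2
    rw [ProbabilityTheory.variance_const_mul, h1, mul_one]
  have hvar : ProbabilityTheory.variance (∑ k, X k) μ = ∑ k, a k ^ 2 := by
    rw [ProbabilityTheory.IndepFun.variance_sum (fun k _ => hL k)
      (fun i _ j _ hij => hind.indepFun hij)]
    exact Finset.sum_congr rfl fun k _ => hvark k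
  have hE : ∫ ξ, (∑ k, X k) ξ ∂μ = ∑ k, a k := by
    simp only [Finset.sum_apply]
    rw [integral_finsetSum _ fun k _ => hI k]
    exact Finset.sum_congr rfl fun k _ => hmean k
  have h := ProbabilityTheory.meas_ge_le_variance_div_sq hsumL hx
  rw [hvar, hE] at h
  simpa [X] using h

lemma aux_upper {x : ℝ} (h0 : 0 ≤ x) (h1 : x ≤ 1 / 2) : (1 - x)⁻¹ ≤ Real.exp (x + x ^ 2) := by
  have hpos : 0 < 1 - x := by linarith
  rw [inv_le_iff_one_le_mul₀ hpos]
  have h2 := Real.quadratic_le_exp_of_nonneg (x := x + x ^ 2) (by positivity)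
  have h3 : 1 ≤ (1 + (x + x ^ 2) + (x + x ^ 2) ^ 2 / 2) * (1 - x) := by
    have : (1 + (x + x ^ 2) + (x + x ^ 2) ^ 2 / 2) * (1 - x) - 1 =
        x ^ 2 * (1 - x - x ^ 2 - x ^ 3) / 2 := by ring
    have h4 : 0 ≤ 1 - x - x ^ 2 - x ^ 3 := by nlinarith [mul_nonneg h0 h0, mul_nonneg h0 (mul_nonneg h0 h0), mul_nonneg h0 (sub_nonneg.2 h1), mul_nonneg (mul_nonneg h0 h0) (sub_nonneg.2 h1)]
    have h5 : 0 ≤ x ^ 2 * (1 - x - x ^ 2 - x ^ 3) / 2 := by positivity
    linarith
  exact h3.trans (mul_le_mul_of_nonneg_right h2 hpos.le)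

lemma aux_lower {x : ℝ} (h0 : 0 ≤ x) : (1 + x)⁻¹ ≤ Real.exp (-x + x ^ 2) := by
  have hpos : 0 < 1 + x := by linarith
  rw [inv_le_iff_one_le_mul₀ hpos]
  have h2 := Real.add_one_le_exp (-x + x ^ 2)
  have h3 : 1 ≤ (-x + x ^ 2 + 1) * (1 + x) := by
    have : (-x + x ^ 2 + 1) * (1 + x) = 1 + x ^ 3 := by ring
    rw [this]
    have : 0 ≤ x ^ 3 := by positivity
    linarith
  exact h3.trans (mul_le_mul_of_nonneg_right h2 hpos.le)

/-- Chernoff bound, both sides -/
lemma expo_chern {n : ℕ} (a : Fin n → ℝ) {M S δ : ℝ} (hM : 0 < M) (ha : ∀ k, 0 ≤ a k)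
    (haM : ∀ k, a k ≤ M) (hS : ∑ k, a k ≤ S) (hδ : 0 < δ) (hδ1 : δ ≤ 1) :
    Measure.pi (fun _ : Fin n => expo) {ξ | δ * S ≤ |∑ k, a k * ξ k - ∑ k, a k|}
      ≤ ENNReal.ofReal (2 * Real.exp (-(δ ^ 2 * S / (4 * M)))) := by
  set s : ℝ := δ / (2 * M) with hs
  have hs0 : 0 < s := by positivity
  have hsa : ∀ k, s * a k ≤ 1 / 2 := by
    intro k
    rw [hs, div_mul_eq_mul_div, div_le_iff₀ (by positivity)]
    have := haM k
    have := ha k
    nlinarith
  have hsa0 : ∀ k, 0 ≤ s * a k := fun k => mul_nonneg hs0.le (ha k)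
  have hsq : ∑ k, (s * a k) ^ 2 ≤ s ^ 2 * (M * S) := by
    have h1 : ∑ k, (s * a k) ^ 2 ≤ ∑ k, s ^ 2 * (M * a k) := by
      refine Finset.sum_le_sum fun k _ => ?_
      have := mul_le_mul_of_nonneg_right (haM k) (ha k)
      nlinarith [sq_nonneg s]
    refine h1.trans ?_
    rw [← Finset.mul_sum, ← Finset.mul_sum]
    gcongr
  have hexp : s ^ 2 * (M * S) - s * (δ * S) = -(δ ^ 2 * S / (4 * M)) := by
    rw [hs]; field_simp; ring
  have hup : Measure.pi (fun _ : Fin n => expo) {ξ | δ * S ≤ ∑ k, a k * ξ k - ∑ k, a k}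
      ≤ ENNReal.ofReal (Real.exp (-(δ ^ 2 * S / (4 * M)))) := by
    have h1 : {ξ : Fin n → ℝ | δ * S ≤ ∑ k, a k * ξ k - ∑ k, a k} ⊆
        {ξ | s * (δ * S + ∑ k, a k) ≤ ∑ k, (s * a k) * ξ k} := by
      intro ξ hξ
      simp only [Set.mem_ofPred_eq] at hξ ⊢
      have : ∑ k, (s * a k) * ξ k = s * ∑ k, a k * ξ k := by
        rw [Finset.mul_sum]; exact Finset.sum_congr rfl fun k _ => by ring
      rw [this]
      exact mul_le_mul_of_nonneg_left (by linarith) hs0.le
    refine (measure_mono h1).trans ((expo_chernoff (fun k => s * a k)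
      (fun k => by have := hsa k; linarith) _).trans ?_)
    refine ENNReal.ofReal_le_ofReal ?_
    calc Real.exp (-(s * (δ * S + ∑ k, a k))) * ∏ k, (1 - s * a k)⁻¹
        ≤ Real.exp (-(s * (δ * S + ∑ k, a k))) * ∏ k, Real.exp (s * a k + (s * a k) ^ 2) := by
          refine mul_le_mul_of_nonneg_left ?_ (Real.exp_nonneg _)
          refine Finset.prod_le_prod (fun k _ => ?_) fun k _ => aux_upper (hsa0 k) (hsa k)
          have := hsa k
          exact inv_nonneg.2 (by linarith)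
      _ = Real.exp (∑ k, (s * a k) ^ 2 - s * (δ * S)) := by
          rw [← Real.exp_sum, ← Real.exp_add, Finset.sum_add_distrib, ← Finset.mul_sum]
          congr 1
          ring
      _ ≤ Real.exp (-(δ ^ 2 * S / (4 * M))) := by
          rw [← hexp]
          exact Real.exp_le_exp.2 (by linarith)
  have hlo : Measure.pi (fun _ : Fin n => expo) {ξ | δ * S ≤ ∑ k, a k - ∑ k, a k * ξ k}
      ≤ ENNReal.ofReal (Real.exp (-(δ ^ 2 * S / (4 * M)))) := by
    have h1 : {ξ : Fin n → ℝ | δ * S ≤ ∑ k, a k - ∑ k, a k * ξ k} ⊆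
        {ξ | s * (δ * S - ∑ k, a k) ≤ ∑ k, (-(s * a k)) * ξ k} := by
      intro ξ hξ
      simp only [Set.mem_ofPred_eq] at hξ ⊢
      have : ∑ k, (-(s * a k)) * ξ k = s * (- ∑ k, a k * ξ k) := by
        rw [mul_neg, Finset.mul_sum, ← Finset.sum_neg_distrib]
        exact Finset.sum_congr rfl fun k _ => by ring
      rw [this]
      exact mul_le_mul_of_nonneg_left (by linarith) hs0.le
    refine (measure_mono h1).trans ((expo_chernoff (fun k => -(s * a k))
      (fun k => by have := hsa0 k; linarith) _).trans ?_)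
    refine ENNReal.ofReal_le_ofReal ?_
    calc Real.exp (-(s * (δ * S - ∑ k, a k))) * ∏ k, (1 - -(s * a k))⁻¹
        ≤ Real.exp (-(s * (δ * S - ∑ k, a k))) * ∏ k, Real.exp (-(s * a k) + (s * a k) ^ 2) := by
          refine mul_le_mul_of_nonneg_left ?_ (Real.exp_nonneg _)
          refine Finset.prod_le_prod (fun k _ => ?_) fun k _ => ?_
          · have := hsa0 k
            exact inv_nonneg.2 (by linarith)
          · have := aux_lower (hsa0 k)
            rwa [sub_neg_eq_add]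
      _ = Real.exp (∑ k, (s * a k) ^ 2 - s * (δ * S)) := by
          rw [← Real.exp_sum, ← Real.exp_add, Finset.sum_add_distrib, Finset.sum_neg_distrib,
            ← Finset.mul_sum]
          congr 1
          ring
      _ ≤ Real.exp (-(δ ^ 2 * S / (4 * M))) := by
          rw [← hexp]
          exact Real.exp_le_exp.2 (by linarith)
  have hsub : {ξ : Fin n → ℝ | δ * S ≤ |∑ k, a k * ξ k - ∑ k, a k|} ⊆
      {ξ | δ * S ≤ ∑ k, a k * ξ k - ∑ k, a k} ∪ {ξ | δ * S ≤ ∑ k, a k - ∑ k, a k * ξ k} := by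
    intro ξ hξ
    simp only [Set.mem_ofPred_eq, Set.mem_union] at hξ ⊢
    rcases le_abs.1 hξ with h | h
    · exact Or.inl h
    · exact Or.inr (by linarith)
  refine (measure_mono hsub).trans ((measure_union_le _ _).trans ((add_le_add hup hlo).trans ?_))
  rw [← ENNReal.ofReal_add (Real.exp_nonneg _) (Real.exp_nonneg _), two_mul]

/-- small ball for several coordinates -/
lemma expo_small {n : ℕ} (s : Finset (Fin n)) (x : Fin n → ℝ) (hx : ∀ k, 0 ≤ x k) :
    Measure.pi (fun _ : Fin n => expo) {ξ | ∀ k ∈ s, ξ k < x k}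
      ≤ ENNReal.ofReal (∏ k ∈ s, x k) := by
  have h1 : {ξ : Fin n → ℝ | ∀ k ∈ s, ξ k < x k} =
      Set.pi Set.univ (fun k => if k ∈ s then Set.Iio (x k) else Set.univ) := by
    ext ξ
    simp only [Set.mem_ofPred_eq, Set.mem_pi, Set.mem_univ, forall_true_left]
    refine forall_congr' fun k => ?_
    by_cases hk : k ∈ s <;> simp [hk]
  rw [h1, Measure.pi_pi]
  rw [ENNReal.ofReal_prod_of_nonneg (fun k _ => hx k)]
  rw [← Finset.prod_subset (Finset.subset_univ s)]
  · refine Finset.prod_le_prod' fun k hk => ?_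
    rw [if_pos hk]
    exact expo_meas_lt (x k)
  · intro k _ hk
    rw [if_neg hk, measure_univ]

/-- many small variables: lower tail of an unweighted sum -/
lemma expo_lower {n : ℕ} (s : Finset (Fin n)) :
    Measure.pi (fun _ : Fin n => expo) {ξ | ∑ k ∈ s, ξ k ≤ s.card / 4}
      ≤ ENNReal.ofReal (Real.exp (-(s.card / 2 : ℝ))) := by
  have h1 : {ξ : Fin n → ℝ | ∑ k ∈ s, ξ k ≤ s.card / 4} ⊆
      {ξ | -(3 * (s.card : ℝ) / 4) ≤ ∑ k, (if k ∈ s then (-3 : ℝ) else 0) * ξ k} := by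
    intro ξ hξ
    simp only [Set.mem_ofPred_eq] at hξ ⊢
    have : ∑ k, (if k ∈ s then (-3 : ℝ) else 0) * ξ k = -3 * ∑ k ∈ s, ξ k := by
      simp only [ite_mul, zero_mul]
      rw [Finset.sum_ite_mem, Finset.univ_inter, Finset.mul_sum]
    rw [this]
    linarith
  refine (measure_mono h1).trans ((expo_chernoff (fun k => if k ∈ s then (-3 : ℝ) else 0)
    (fun k => by split_ifs <;> norm_num) _).trans ?_)
  refine ENNReal.ofReal_le_ofReal ?_
  have h2 : ∏ k, (1 - (if k ∈ s then (-3 : ℝ) else 0))⁻¹ = (4 : ℝ)⁻¹ ^ s.card := by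
    rw [← Finset.prod_subset (Finset.subset_univ s)]
    · rw [Finset.prod_congr rfl (g := fun _ => (4 : ℝ)⁻¹) (fun k hk => by rw [if_pos hk]; norm_num),
        Finset.prod_const]
    · intro k _ hk
      rw [if_neg hk]; norm_num
  rw [h2]
  have h3 : (4 : ℝ)⁻¹ ≤ Real.exp (-(5 / 4 : ℝ)) := by
    rw [Real.exp_neg]
    refine inv_anti₀ (Real.exp_pos _) ?_
    have h5 : Real.exp (5 / 4) ^ 4 = Real.exp 1 ^ 5 := by
      rw [← Real.exp_nat_mul, ← Real.exp_nat_mul]
      norm_num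
    have h6 : Real.exp 1 ^ 5 ≤ (2.7182818286 : ℝ) ^ 5 :=
      pow_le_pow_left₀ (Real.exp_pos _).le Real.exp_one_lt_d9.le _
    have h7 : Real.exp (5 / 4) ^ 4 ≤ 4 ^ 4 := by
      rw [h5]; refine h6.trans ?_; norm_num
    exact le_of_pow_le_pow_left₀ (by norm_num) (by norm_num) h7
  calc Real.exp (- -(3 * (s.card : ℝ) / 4)) * (4 : ℝ)⁻¹ ^ s.card
      ≤ Real.exp (- -(3 * (s.card : ℝ) / 4)) * Real.exp (-(5 / 4 : ℝ)) ^ s.card := by
        gcongr
    _ = Real.exp (-(s.card / 2 : ℝ)) := by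
        rw [← Real.exp_nat_mul, ← Real.exp_add]
        congr 1
        ring

/-- upper tail with a fixed exponent -/
lemma expo_upper {n : ℕ} (a : Fin n → ℝ) {M S : ℝ} (hM : 0 < M) (ha : ∀ k, 0 ≤ a k)
    (haM : ∀ k, a k ≤ M) (hS : ∑ k, a k ≤ S) (y : ℝ) :
    Measure.pi (fun _ : Fin n => expo) {ξ | y ≤ ∑ k, a k * ξ k}
      ≤ ENNReal.ofReal (Real.exp ((2 * S - y) / (2 * M))) := by
  set s : ℝ := 1 / (2 * M) with hs
  have hs0 : 0 < s := by positivity
  have hsa : ∀ k, s * a k ≤ 1 / 2 := by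
    intro k
    rw [hs, div_mul_eq_mul_div, div_le_iff₀ (by positivity)]
    have := haM k
    have := ha k
    nlinarith
  have hsa0 : ∀ k, 0 ≤ s * a k := fun k => mul_nonneg hs0.le (ha k)
  have h1 : {ξ : Fin n → ℝ | y ≤ ∑ k, a k * ξ k} ⊆ {ξ | s * y ≤ ∑ k, (s * a k) * ξ k} := by
    intro ξ hξ
    simp only [Set.mem_ofPred_eq] at hξ ⊢
    have : ∑ k, (s * a k) * ξ k = s * ∑ k, a k * ξ k := by
      rw [Finset.mul_sum]; exact Finset.sum_congr rfl fun k _ => by ring
    rw [this]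
    exact mul_le_mul_of_nonneg_left hξ hs0.le
  refine (measure_mono h1).trans ((expo_chernoff (fun k => s * a k)
    (fun k => by have := hsa k; linarith) _).trans ?_)
  refine ENNReal.ofReal_le_ofReal ?_
  have haux : ∀ t : ℝ, 0 ≤ t → t ≤ 1 / 2 → (1 - t)⁻¹ ≤ Real.exp (2 * t) := by
    intro t ht0 ht1
    have hpos : 0 < 1 - t := by linarith
    rw [inv_le_iff_one_le_mul₀ hpos]
    have h2 := Real.add_one_le_exp (2 * t)
    have h3 : 1 ≤ (2 * t + 1) * (1 - t) := by nlinarith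
    exact h3.trans (mul_le_mul_of_nonneg_right h2 hpos.le)
  calc Real.exp (-(s * y)) * ∏ k, (1 - s * a k)⁻¹
      ≤ Real.exp (-(s * y)) * ∏ k, Real.exp (2 * (s * a k)) := by
        refine mul_le_mul_of_nonneg_left ?_ (Real.exp_nonneg _)
        refine Finset.prod_le_prod (fun k _ => ?_) fun k _ => haux _ (hsa0 k) (hsa k)
        have := hsa k
        exact inv_nonneg.2 (by linarith)
    _ = Real.exp (-(s * y) + 2 * (s * ∑ k, a k)) := by
        rw [← Real.exp_sum, ← Real.exp_add, ← Finset.mul_sum, ← Finset.mul_sum]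
    _ ≤ Real.exp ((2 * S - y) / (2 * M)) := by
        refine Real.exp_le_exp.2 ?_
        have h2 : s * ∑ k, a k ≤ s * S := mul_le_mul_of_nonneg_left hS hs0.le
        have h3 : (2 * S - y) / (2 * M) = -(s * y) + 2 * (s * S) := by
          rw [hs]; field_simp; ring
        rw [h3]
        linarith

/-- all coordinates are positive almost surely -/
lemma expo_pos {n : ℕ} :
    Measure.pi (fun _ : Fin n => expo) {ξ | ¬ ∀ k, 0 < ξ k} = 0 := by
  have h1 : {ξ : Fin n → ℝ | ¬ ∀ k, 0 < ξ k} ⊆ ⋃ k, Function.eval k ⁻¹' (Set.Iic (0:ℝ)) := by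
    intro ξ hξ
    simp only [Set.mem_ofPred_eq, not_forall, not_lt] at hξ
    obtain ⟨k, hk⟩ := hξ
    exact Set.mem_iUnion.2 ⟨k, hk⟩
  refine measure_mono_null h1 ?_
  rw [measure_iUnion_null_iff]
  intro k
  exact Measure.pi_eval_preimage_null _ expo_meas_nonpos

end Pool.Agent.Helper579.Cg
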