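import Mathlib
import Pool.Agent.Helper579.CgExpo

set_option autoImplicit false

namespace Pool.Agent.Helper579.Cg

open MeasureTheory Filter
open scoped ENNReal Topology

lemma aux_sum_sq (n : ℕ) : ∑ k ∈ Finset.range (n + 1), (1 : ℝ) / ((k : ℝ) + 1) ^ 2 ≤
    2 - 1 / ((n : ℝ) + 1) := by
  induction n with
  | zero => norm_num
  | succ n ih =>
    rw [Finset.sum_range_succ]
    have h1 : (0 : ℝ) < (n : ℝ) + 1 := by positivity
    have h2 : (0 : ℝ) < (n : ℝ) + 2 := by positivity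
    have h3 : (1 : ℝ) / ((n : ℝ) + 2) ^ 2 ≤ 1 / ((n : ℝ) + 1) - 1 / ((n : ℝ) + 2) := by
      rw [div_sub_div _ _ h1.ne' h2.ne', div_le_div_iff₀ (by positivity) (by positivity)]
      nlinarith
    push_cast
    have h4 : ((n : ℝ) + 1 + 1) = (n : ℝ) + 2 := by ring
    rw [h4]
    linarith

lemma aux_sum_sq' (n : ℕ) : ∑ k : Fin n, (1 : ℝ) / ((k : ℝ) + 1) ^ 2 ≤ 2 := by
  rw [Fin.sum_univ_eq_sum_range (fun k => (1 : ℝ) / ((k : ℝ) + 1) ^ 2) n]
  cases n with
  | zero => norm_num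
  | succ n =>
    have h := aux_sum_sq n
    have h1 : (0 : ℝ) < 1 / ((n : ℝ) + 1) := by positivity
    linarith

/-- TARGET: no coordinate is very small -/
lemma ev_small {δ : ℝ} (hδ : 0 < δ) (n : ℕ) :
    Measure.pi (fun _ : Fin n => expo) {ξ | ¬ ∀ k : Fin n, δ / ((k : ℝ) + 1) ^ 2 ≤ ξ k}
      ≤ ENNReal.ofReal (2 * δ) := by
  have h1 : {ξ : Fin n → ℝ | ¬ ∀ k : Fin n, δ / ((k : ℝ) + 1) ^ 2 ≤ ξ k} ⊆
      ⋃ k : Fin n, {ξ : Fin n → ℝ | ∀ j ∈ ({k} : Finset (Fin n)), ξ j < δ / ((j : ℝ) + 1) ^ 2} := by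
    intro ξ hξ
    simp only [Set.mem_setOf_eq, not_forall, not_le] at hξ
    obtain ⟨k, hk⟩ := hξ
    rw [Set.mem_iUnion]
    refine ⟨k, ?_⟩
    intro j hj
    rw [Finset.mem_singleton] at hj
    rw [hj]
    exact hk
  refine (measure_mono h1).trans ((measure_iUnion_fintype_le _ _).trans ?_)
  have h2 : ∀ k : Fin n, Measure.pi (fun _ : Fin n => expo)
      {ξ : Fin n → ℝ | ∀ j ∈ ({k} : Finset (Fin n)), ξ j < δ / ((j : ℝ) + 1) ^ 2} ≤
      ENNReal.ofReal (δ / ((k : ℝ) + 1) ^ 2) := by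
    intro k
    have := expo_small ({k} : Finset (Fin n)) (fun j => δ / ((j : ℝ) + 1) ^ 2)
      (fun j => by positivity)
    simpa using this
  refine (Finset.sum_le_sum (fun k _ => h2 k)).trans ?_
  rw [← ENNReal.ofReal_sum_of_nonneg (fun k _ => by positivity)]
  apply ENNReal.ofReal_le_ofReal
  have h3 : ∑ k : Fin n, δ / ((k : ℝ) + 1) ^ 2 = δ * ∑ k : Fin n, (1 : ℝ) / ((k : ℝ) + 1) ^ 2 := by
    rw [Finset.mul_sum]
    apply Finset.sum_congr rfl
    intro k _
    ring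
  rw [h3]
  have := aux_sum_sq' n
  nlinarith

/-- TARGET: all long blocks have a mass -/
lemma ev_block {c : ℝ} (hc : 0 < c) (n : ℕ) :
    Measure.pi (fun _ : Fin n => expo) {ξ | ¬ ∀ a ℓ : ℕ, 1 ≤ a → a + ℓ ≤ n + 1 → c ≤ ℓ →
      (ℓ : ℝ) / 4 ≤ ∑ k : Fin n, if a ≤ (k : ℕ) + 1 ∧ (k : ℕ) + 1 < a + ℓ then ξ k else 0}
      ≤ ENNReal.ofReal ((n + 1) ^ 2 * Real.exp (-(c / 2))) := by
  classical
  let s : ℕ × ℕ → Finset (Fin n) := fun p =>
    Finset.univ.filter (fun k : Fin n => p.1 ≤ (k : ℕ) + 1 ∧ (k : ℕ) + 1 < p.1 + p.2)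
  let P : ℕ × ℕ → Prop := fun p => 1 ≤ p.1 ∧ p.1 + p.2 ≤ n + 1 ∧ c ≤ (p.2 : ℝ)
  let E : ℕ × ℕ → Set (Fin n → ℝ) := fun p =>
    {ξ | P p ∧ ∑ k ∈ s p, ξ k ≤ (s p).card / 4}
  have hcard : ∀ p, P p → (s p).card = p.2 := by
    intro p hp
    have h1 : ((s p).image (fun k : Fin n => (k : ℕ) + 1)) = Finset.Ico p.1 (p.1 + p.2) := by
      ext m
      simp only [s, Finset.mem_image, Finset.mem_filter, Finset.mem_univ, true_and,
        Finset.mem_Ico]
      constructor
      · rintro ⟨k, hk, rfl⟩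
        exact hk
      · intro hm
        have h2 := hp.1
        have h3 := hp.2.1
        refine ⟨⟨m - 1, by omega⟩, ?_, ?_⟩
        · simp only
          omega
        · simp only
          omega
    have h2 : ((s p).image (fun k : Fin n => (k : ℕ) + 1)).card = (s p).card := by
      apply Finset.card_image_of_injective
      intro k j hkj
      apply Fin.ext
      simpa using hkj
    rw [← h2, h1, Nat.card_Ico]
    omega
  have hE : ∀ p, Measure.pi (fun _ : Fin n => expo) (E p) ≤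
      ENNReal.ofReal (Real.exp (-(c / 2))) := by
    intro p
    by_cases hp : P p
    · have h1 : E p ⊆ {ξ | ∑ k ∈ s p, ξ k ≤ (s p).card / 4} := fun ξ hξ => hξ.2
      refine (measure_mono h1).trans ((expo_lower (s p)).trans ?_)
      apply ENNReal.ofReal_le_ofReal
      apply Real.exp_le_exp.2
      rw [hcard p hp]
      have := hp.2.2
      linarith
    · have h1 : E p = ∅ := by
        ext ξ
        simp only [E, Set.mem_setOf_eq, Set.mem_empty_iff_false, iff_false]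
        intro h
        exact hp h.1
      rw [h1]
      simp
  have hsub : {ξ : Fin n → ℝ | ¬ ∀ a ℓ : ℕ, 1 ≤ a → a + ℓ ≤ n + 1 → c ≤ ℓ →
      (ℓ : ℝ) / 4 ≤ ∑ k : Fin n, if a ≤ (k : ℕ) + 1 ∧ (k : ℕ) + 1 < a + ℓ then ξ k else 0} ⊆
      ⋃ p ∈ (Finset.range (n + 1) ×ˢ Finset.range (n + 1)), E p := by
    intro ξ hξ
    simp only [Set.mem_setOf_eq, not_forall, not_le] at hξ
    obtain ⟨a, ℓ, h1, h2, h3, h4⟩ := hξ
    have h5 : 0 < ℓ := by
      by_contra hcon
      have : ℓ = 0 := by omega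
      rw [this] at h3
      simp at h3
      linarith
    rw [Set.mem_iUnion₂]
    refine ⟨(a, ℓ), ?_, ?_⟩
    · rw [Finset.mem_product, Finset.mem_range, Finset.mem_range]
      constructor <;> simp only <;> omega
    · have hP : P (a, ℓ) := ⟨h1, h2, h3⟩
      refine ⟨hP, ?_⟩
      rw [hcard _ hP]
      rw [← Finset.sum_filter] at h4
      exact h4.le
  refine (measure_mono hsub).trans ((measure_biUnion_finset_le _ _).trans ?_)
  refine (Finset.sum_le_sum (fun p _ => hE p)).trans ?_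
  rw [Finset.sum_const, Finset.card_product, Finset.card_range, nsmul_eq_mul,
    ENNReal.ofReal_mul (by positivity)]
  apply le_of_eq
  congr 1
  have h6 : ((n : ℝ) + 1) ^ 2 = (((n + 1) * (n + 1) : ℕ) : ℝ) := by
    push_cast
    ring
  rw [h6, ENNReal.ofReal_natCast]

lemma aux_fin_sum_pos {n : ℕ} {b : Fin n → ℝ} {ξ : Fin n → ℝ} (hb : ∀ k, 0 ≤ b k)
    (hξ : ∀ k, 0 < ξ k) (j : Fin n) : b j * ξ j ≤ ∑ k, b k * ξ k :=
  Finset.single_le_sum (f := fun k => b k * ξ k)
    (fun k _ => mul_nonneg (hb k) (hξ k).le) (Finset.mem_univ j)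

/-- TARGET: small tails for `p > 1` -/
lemma ev_tail {p : ℝ} (hp : 1 < p) {η δ : ℝ} (hη : 0 < η) (hδ : 0 < δ) :
    ∃ K : ℕ, ∀ n : ℕ, Measure.pi (fun _ : Fin n => expo)
      {ξ | ¬ ∑ k : Fin n, (if K ≤ (k : ℕ) then ((k : ℝ) + 1) ^ (-p) else 0) * ξ k
        ≤ η * ∑ k : Fin n, ((k : ℝ) + 1) ^ (-p) * ξ k} ≤ ENNReal.ofReal δ := by
  classical
  let F : ℕ → ℝ := fun k => ((k : ℝ) + 1) ^ (-p)
  have hF0 : ∀ k, 0 ≤ F k := fun k => by positivity
  have hFsum : Summable F := by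
    have h1 : Summable (fun k : ℕ => (k : ℝ) ^ (-p)) := Real.summable_nat_rpow.2 (by linarith)
    have h2 := (summable_nat_add_iff 1).2 h1
    refine h2.congr (fun k => ?_)
    simp [F]
  let x : ℝ := δ / 2
  have hx : 0 < x := by positivity
  have hA : 0 < η * x := by positivity
  have t1 : Tendsto (fun i => ∑' k, F (k + i)) atTop (𝓝 0) := tendsto_sum_nat_add F
  have e1 : ∀ᶠ K : ℕ in atTop, ∑' k, F (k + K) < η * x / 4 :=
    (tendsto_order.1 t1).2 _ (by positivity)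
  have t2 : Tendsto (fun K : ℕ => Real.exp (-(η * x / 4 * ((K : ℝ) + 1) ^ p))) atTop (𝓝 0) := by
    apply Real.tendsto_exp_neg_atTop_nhds_zero.comp
    apply Tendsto.const_mul_atTop (by positivity)
    apply (tendsto_rpow_atTop (by linarith : 0 < p)).comp
    exact tendsto_atTop_add_const_right _ _ tendsto_natCast_atTop_atTop
  have e2 : ∀ᶠ K : ℕ in atTop, Real.exp (-(η * x / 4 * ((K : ℝ) + 1) ^ p)) < δ / 2 :=
    (tendsto_order.1 t2).2 _ (by positivity)
  obtain ⟨K, hK1, hK2⟩ := (e1.and e2).exists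
  refine ⟨K, fun n => ?_⟩
  -- the bad event
  let a : Fin n → ℝ := fun k => if K ≤ (k : ℕ) then ((k : ℝ) + 1) ^ (-p) else 0
  have hM : (0 : ℝ) < ((K : ℝ) + 1) ^ (-p) := by positivity
  have ha0 : ∀ k, 0 ≤ a k := by
    intro k
    simp only [a]
    split_ifs
    · positivity
    · exact le_rfl
  have haM : ∀ k, a k ≤ ((K : ℝ) + 1) ^ (-p) := by
    intro k
    simp only [a]
    split_ifs with h
    · apply Real.rpow_le_rpow_of_nonpos (by positivity)
      · have : (K : ℝ) ≤ (k : ℕ) := by exact_mod_cast h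
        linarith
      · linarith
    · exact hM.le
  have haS : ∑ k, a k ≤ ∑' k, F (k + K) := by
    have h1 : ∑ k, a k = ∑ k ∈ Finset.range n, if K ≤ k then F k else 0 :=
      Fin.sum_univ_eq_sum_range (fun k => if K ≤ k then F k else 0) n
    rw [h1]
    have hs2 : Summable (fun k => F (k + K)) := (summable_nat_add_iff K).2 hFsum
    rcases le_total n K with h | h
    · rw [Finset.sum_eq_zero]
      · exact tsum_nonneg (fun k => hF0 _)
      · intro k hk
        rw [Finset.mem_range] at hk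
        rw [if_neg (by omega)]
    · obtain ⟨m, rfl⟩ := Nat.exists_eq_add_of_le h
      rw [Finset.sum_range_add, Finset.sum_eq_zero, zero_add]
      · have h3 : ∑ k ∈ Finset.range m, (if K ≤ K + k then F (K + k) else 0) =
            ∑ k ∈ Finset.range m, F (k + K) := by
          apply Finset.sum_congr rfl
          intro k _
          rw [if_pos (by omega), Nat.add_comm]
        rw [h3]
        exact hs2.sum_le_tsum _ (fun k _ => hF0 _)
      · intro k hk
        rw [Finset.mem_range] at hk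
        rw [if_neg (by omega)]
  have hup := expo_upper a hM ha0 haM haS (η * x)
  rcases Nat.eq_zero_or_pos n with hn | hn
  · subst hn
    have : {ξ : Fin 0 → ℝ | ¬ ∑ k : Fin 0, (if K ≤ (k : ℕ) then ((k : ℝ) + 1) ^ (-p) else 0) * ξ k
        ≤ η * ∑ k : Fin 0, ((k : ℝ) + 1) ^ (-p) * ξ k} = ∅ := by
      ext ξ
      simp
    rw [this]
    simp
  · let z : Fin n := ⟨0, hn⟩
    have hsub : {ξ : Fin n → ℝ | ¬ ∑ k : Fin n,
        (if K ≤ (k : ℕ) then ((k : ℝ) + 1) ^ (-p) else 0) * ξ k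
        ≤ η * ∑ k : Fin n, ((k : ℝ) + 1) ^ (-p) * ξ k} ⊆
        ({ξ : Fin n → ℝ | ∀ j ∈ ({z} : Finset (Fin n)), ξ j < x} ∪
          {ξ | ¬ ∀ k, 0 < ξ k}) ∪ {ξ | η * x ≤ ∑ k, a k * ξ k} := by
      intro ξ hξ
      by_contra hcon
      simp only [Set.mem_union, Set.mem_setOf_eq, not_or, not_not, Finset.mem_singleton,
        forall_eq, not_lt, not_le] at hcon
      obtain ⟨⟨h1, h2⟩, h3⟩ := hcon
      apply hξ
      refine h3.le.trans ?_
      apply mul_le_mul_of_nonneg_left _ hη.le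
      have h4 := aux_fin_sum_pos (b := fun k : Fin n => ((k : ℝ) + 1) ^ (-p))
        (fun k => by positivity) h2 z
      refine h1.trans (le_trans ?_ h4)
      simp [z]
    refine (measure_mono hsub).trans ((measure_union_le _ _).trans ?_)
    have m1 : Measure.pi (fun _ : Fin n => expo)
        ({ξ : Fin n → ℝ | ∀ j ∈ ({z} : Finset (Fin n)), ξ j < x} ∪ {ξ | ¬ ∀ k, 0 < ξ k}) ≤
        ENNReal.ofReal (δ / 2) := by
      refine (measure_union_le _ _).trans ?_
      rw [expo_pos, add_zero]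
      have := expo_small ({z} : Finset (Fin n)) (fun _ => x) (fun _ => hx.le)
      simpa [x] using this
    have m2 : Measure.pi (fun _ : Fin n => expo) {ξ | η * x ≤ ∑ k, a k * ξ k} ≤
        ENNReal.ofReal (δ / 2) := by
      refine hup.trans (ENNReal.ofReal_le_ofReal ?_)
      refine le_trans (Real.exp_le_exp.2 ?_) hK2.le
      rw [Real.rpow_neg (by positivity), div_le_iff₀ (by positivity)]
      have hq : (0 : ℝ) < ((K : ℝ) + 1) ^ p := by positivity
      have h5 : -(η * x / 4 * ((K : ℝ) + 1) ^ p) * (2 * (((K : ℝ) + 1) ^ p)⁻¹) =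
          -(η * x / 2) := by
        field_simp
        ring
      rw [h5]
      linarith
    calc _ ≤ ENNReal.ofReal (δ / 2) + ENNReal.ofReal (δ / 2) := add_le_add m1 m2
      _ = ENNReal.ofReal δ := by
        rw [← ENNReal.ofReal_add (by positivity) (by positivity)]
        congr 1
        ring

lemma aux_head_sum {p : ℝ} (hp0 : 0 < p) (hp : p < 1) (m : ℕ) :
    ∑ k ∈ Finset.range m, ((k : ℝ) + 1) ^ (-p) ≤ (m : ℝ) ^ (1 - p) / (1 - p) := by
  have h1p : 0 < 1 - p := by linarith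
  induction m with
  | zero =>
    simp only [Finset.range_zero, Finset.sum_empty, Nat.cast_zero]
    positivity
  | succ m ih =>
    rw [Finset.sum_range_succ]
    have hm1 : (0 : ℝ) < (m : ℝ) + 1 := by positivity
    have h1 : (1 + -(1 / ((m : ℝ) + 1))) ^ (1 - p) ≤ 1 + (1 - p) * -(1 / ((m : ℝ) + 1)) := by
      apply rpow_one_add_le_one_add_mul_self _ h1p.le (by linarith)
      have : 1 / ((m : ℝ) + 1) ≤ 1 := by
        rw [div_le_one hm1]
        linarith [show (0 : ℝ) ≤ (m : ℝ) by positivity]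
      linarith
    have h2 : (m : ℝ) = (1 + -(1 / ((m : ℝ) + 1))) * ((m : ℝ) + 1) := by
      field_simp
      ring
    have h3 : (0 : ℝ) ≤ 1 + -(1 / ((m : ℝ) + 1)) := by
      have : 1 / ((m : ℝ) + 1) ≤ 1 := by
        rw [div_le_one hm1]
        linarith [show (0 : ℝ) ≤ (m : ℝ) by positivity]
      linarith
    have h4 : (m : ℝ) ^ (1 - p) ≤ ((m : ℝ) + 1) ^ (1 - p) - (1 - p) * ((m : ℝ) + 1) ^ (-p) := by
      have h5 : (m : ℝ) ^ (1 - p) =
          (1 + -(1 / ((m : ℝ) + 1))) ^ (1 - p) * ((m : ℝ) + 1) ^ (1 - p) := by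
        rw [← Real.mul_rpow h3 hm1.le, ← h2]
      rw [h5]
      have h6 : ((m : ℝ) + 1) ^ (1 - p) = ((m : ℝ) + 1) * ((m : ℝ) + 1) ^ (-p) := by
        rw [sub_eq_add_neg, Real.rpow_add hm1, Real.rpow_one]
      have h7 : (0 : ℝ) < ((m : ℝ) + 1) ^ (1 - p) := by positivity
      calc _ ≤ (1 + (1 - p) * -(1 / ((m : ℝ) + 1))) * ((m : ℝ) + 1) ^ (1 - p) :=
            mul_le_mul_of_nonneg_right h1 h7.le
        _ = ((m : ℝ) + 1) ^ (1 - p) - (1 - p) * ((m : ℝ) + 1) ^ (-p) := by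
            rw [h6]
            field_simp
            ring
    push_cast
    have h8 : (m : ℝ) ^ (1 - p) / (1 - p) ≤
        (((m : ℝ) + 1) ^ (1 - p) - (1 - p) * ((m : ℝ) + 1) ^ (-p)) / (1 - p) :=
      div_le_div_of_nonneg_right h4 h1p.le
    have h9 : (((m : ℝ) + 1) ^ (1 - p) - (1 - p) * ((m : ℝ) + 1) ^ (-p)) / (1 - p) =
        ((m : ℝ) + 1) ^ (1 - p) / (1 - p) - ((m : ℝ) + 1) ^ (-p) := by
      field_simp
    linarith

/-- TARGET: small heads for `p < 1` -/
lemma ev_head {p : ℝ} (hp0 : 0 < p) (hp : p < 1) {η δ : ℝ} (hη : 0 < η) (hδ : 0 < δ) :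
    ∃ κ : ℝ, 0 < κ ∧ κ < 1 ∧ ∀ᶠ n : ℕ in atTop, Measure.pi (fun _ : Fin n => expo)
      {ξ | ¬ ∑ k : Fin n, (if (k : ℝ) + 1 ≤ κ * n then ((k : ℝ) + 1) ^ (-p) else 0) * ξ k
        ≤ η * ∑ k : Fin n, ((k : ℝ) + 1) ^ (-p) * ξ k} ≤ ENNReal.ofReal δ := by
  classical
  have h1p : 0 < 1 - p := by linarith
  let u : ℝ := min (1 / 2) (η * (1 - p) / 16)
  have hu0 : 0 < u := by
    apply lt_min (by norm_num)
    positivity
  have hu1 : u < 1 := lt_of_le_of_lt (min_le_left _ _) (by norm_num)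
  have hu2 : u ≤ η * (1 - p) / 16 := min_le_right _ _
  refine ⟨u ^ (1 / (1 - p)), by positivity, Real.rpow_lt_one hu0.le hu1 (by positivity), ?_⟩
  set κ : ℝ := u ^ (1 / (1 - p)) with hκ
  have hκ0 : 0 < κ := by positivity
  have hκp : κ ^ (1 - p) = u := by
    rw [hκ, ← Real.rpow_mul hu0.le, one_div, inv_mul_cancel₀ h1p.ne', Real.rpow_one]
  have t1 : Tendsto (fun n : ℕ => Real.exp (-(η / 16 * (n : ℝ) ^ (1 - p)))) atTop (𝓝 0) := by
    apply Real.tendsto_exp_neg_atTop_nhds_zero.comp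
    apply Tendsto.const_mul_atTop (by positivity)
    exact (tendsto_rpow_atTop h1p).comp tendsto_natCast_atTop_atTop
  have t2 : Tendsto (fun n : ℕ => Real.exp (-((n : ℝ) / 2))) atTop (𝓝 0) := by
    apply Real.tendsto_exp_neg_atTop_nhds_zero.comp
    exact Tendsto.atTop_div_const (by norm_num) tendsto_natCast_atTop_atTop
  have e1 := (tendsto_order.1 t1).2 (δ / 2) (by positivity)
  have e2 := (tendsto_order.1 t2).2 (δ / 2) (by positivity)
  filter_upwards [e1, e2, eventually_ge_atTop 1] with n hn1 hn2 hn3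
  have hnpos : (0 : ℝ) < n := by exact_mod_cast hn3
  let a : Fin n → ℝ := fun k => if (k : ℝ) + 1 ≤ κ * n then ((k : ℝ) + 1) ^ (-p) else 0
  have ha0 : ∀ k, 0 ≤ a k := by
    intro k
    simp only [a]
    split_ifs
    · positivity
    · exact le_rfl
  have haM : ∀ k, a k ≤ 1 := by
    intro k
    simp only [a]
    split_ifs with h
    · apply Real.rpow_le_one_of_one_le_of_nonpos
      · linarith [show (0 : ℝ) ≤ ((k : ℕ) : ℝ) by positivity]
      · linarith
    · exact zero_le_one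
  have haS : ∑ k, a k ≤ u * (n : ℝ) ^ (1 - p) / (1 - p) := by
    have h1 : ∑ k, a k = ∑ k ∈ Finset.range n,
        if (k : ℝ) + 1 ≤ κ * n then ((k : ℝ) + 1) ^ (-p) else 0 :=
      Fin.sum_univ_eq_sum_range
        (fun k : ℕ => if (k : ℝ) + 1 ≤ κ * n then ((k : ℝ) + 1) ^ (-p) else 0) n
    rw [h1, ← Finset.sum_filter]
    have hfl : (Finset.range n).filter (fun k : ℕ => (k : ℝ) + 1 ≤ κ * n) ⊆
        Finset.range ⌊κ * n⌋₊ := by
      intro k hk
      rw [Finset.mem_filter] at hk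
      rw [Finset.mem_range]
      have : k + 1 ≤ ⌊κ * n⌋₊ := by
        apply Nat.le_floor
        push_cast
        exact hk.2
      omega
    refine (Finset.sum_le_sum_of_subset_of_nonneg hfl (fun k _ _ => by positivity)).trans ?_
    refine (aux_head_sum hp0 hp _).trans ?_
    apply div_le_div_of_nonneg_right _ h1p.le
    rw [← hκp, ← Real.mul_rpow hκ0.le hnpos.le]
    apply Real.rpow_le_rpow (by positivity) _ h1p.le
    exact Nat.floor_le (by positivity)
  have hup := expo_upper a one_pos ha0 haM haS (η * ((n : ℝ) ^ (1 - p) / 4))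
  have hlow := expo_lower (Finset.univ : Finset (Fin n))
  have hsub : {ξ : Fin n → ℝ | ¬ ∑ k : Fin n,
      (if (k : ℝ) + 1 ≤ κ * n then ((k : ℝ) + 1) ^ (-p) else 0) * ξ k
      ≤ η * ∑ k : Fin n, ((k : ℝ) + 1) ^ (-p) * ξ k} ⊆
      ({ξ : Fin n → ℝ | ∑ k ∈ (Finset.univ : Finset (Fin n)), ξ k ≤
        ((Finset.univ : Finset (Fin n)).card : ℝ) / 4} ∪ {ξ | ¬ ∀ k, 0 < ξ k}) ∪
        {ξ | η * ((n : ℝ) ^ (1 - p) / 4) ≤ ∑ k, a k * ξ k} := by
    intro ξ hξ
    by_contra hcon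
    simp only [Set.mem_union, Set.mem_setOf_eq, not_or, not_not, not_le, Finset.card_univ,
      Fintype.card_fin] at hcon
    obtain ⟨⟨h1, h2⟩, h3⟩ := hcon
    apply hξ
    refine h3.le.trans ?_
    apply mul_le_mul_of_nonneg_left _ hη.le
    have h4 : ∑ k : Fin n, (n : ℝ) ^ (-p) * ξ k ≤ ∑ k : Fin n, ((k : ℝ) + 1) ^ (-p) * ξ k := by
      apply Finset.sum_le_sum
      intro k _
      apply mul_le_mul_of_nonneg_right _ (h2 k).le
      apply Real.rpow_le_rpow_of_nonpos (by positivity)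
      · have : (k : ℕ) + 1 ≤ n := k.2
        exact_mod_cast this
      · linarith
    refine le_trans ?_ h4
    rw [← Finset.mul_sum]
    have h5 : (n : ℝ) ^ (1 - p) / 4 = (n : ℝ) ^ (-p) * ((n : ℝ) / 4) := by
      rw [sub_eq_add_neg, Real.rpow_add hnpos, Real.rpow_one]
      ring
    rw [h5]
    apply mul_le_mul_of_nonneg_left h1.le (by positivity)
  refine (measure_mono hsub).trans ((measure_union_le _ _).trans ?_)
  have m1 : Measure.pi (fun _ : Fin n => expo)
      ({ξ : Fin n → ℝ | ∑ k ∈ (Finset.univ : Finset (Fin n)), ξ k ≤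
        ((Finset.univ : Finset (Fin n)).card : ℝ) / 4} ∪ {ξ | ¬ ∀ k, 0 < ξ k}) ≤
      ENNReal.ofReal (δ / 2) := by
    refine (measure_union_le _ _).trans ?_
    rw [expo_pos, add_zero]
    refine hlow.trans (ENNReal.ofReal_le_ofReal ?_)
    rw [Finset.card_univ, Fintype.card_fin]
    exact hn2.le
  have m2 : Measure.pi (fun _ : Fin n => expo)
      {ξ | η * ((n : ℝ) ^ (1 - p) / 4) ≤ ∑ k, a k * ξ k} ≤ ENNReal.ofReal (δ / 2) := by
    refine hup.trans (ENNReal.ofReal_le_ofReal ?_)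
    refine le_trans (Real.exp_le_exp.2 ?_) hn1.le
    have hq : (0 : ℝ) < (n : ℝ) ^ (1 - p) := by positivity
    have h6 : u * (n : ℝ) ^ (1 - p) / (1 - p) ≤ η / 16 * (n : ℝ) ^ (1 - p) := by
      rw [div_le_iff₀ h1p]
      have := mul_le_mul_of_nonneg_right hu2 hq.le
      nlinarith
    rw [div_le_iff₀ (by norm_num)]
    linarith
  calc _ ≤ ENNReal.ofReal (δ / 2) + ENNReal.ofReal (δ / 2) := add_le_add m1 m2
    _ = ENNReal.ofReal δ := by
      rw [← ENNReal.ofReal_add (by positivity) (by positivity)]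
      congr 1
      ring

end Pool.Agent.Helper579.Cg
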