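import Mathlib

set_option autoImplicit false

namespace Pool.Agent.Helper579.Cg

/-- moments -/
noncomputable def form_mo (p κ : ℝ) (i : ℕ) : ℝ := ∫ x in κ..1, x ^ (-(p * ((i : ℝ) + 1)))

lemma cont_rpow {κ : ℝ} (hκ : 0 < κ) (hκ1 : κ < 1) (a : ℝ) :
    ContinuousOn (fun x : ℝ => x ^ a) (Set.uIcc κ 1) := by
  intro x hx
  rw [Set.uIcc_of_le hκ1.le] at hx
  exact (Real.continuousAt_rpow_const x a (Or.inl (lt_of_lt_of_le hκ hx.1).ne')).continuousWithinAt

lemma form_expand (p : ℝ) {κ : ℝ} (hκ : 0 < κ) (hκ1 : κ < 1) (J : ℕ) (c : ℕ → ℝ) :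
    (∫ x in κ..1, x ^ (-p) * (∑ j ∈ Finset.range (J + 1), c j * (x ^ (-p)) ^ j) ^ 2) =
      ∑ i ∈ Finset.range (J + 1), ∑ j ∈ Finset.range (J + 1), c i * c j * form_mo p κ (i + j) := by
  have h1 : ∀ x ∈ Set.uIcc κ 1, x ^ (-p) * (∑ j ∈ Finset.range (J + 1), c j * (x ^ (-p)) ^ j) ^ 2 =
      ∑ i ∈ Finset.range (J + 1), ∑ j ∈ Finset.range (J + 1),
        c i * c j * x ^ (-(p * (((i + j : ℕ) : ℝ) + 1))) := by
    intro x hx
    rw [Set.uIcc_of_le hκ1.le] at hx
    have hx0 : 0 < x := lt_of_lt_of_le hκ hx.1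
    rw [sq, Finset.sum_mul_sum, Finset.mul_sum]
    apply Finset.sum_congr rfl
    intro i _
    rw [Finset.mul_sum]
    apply Finset.sum_congr rfl
    intro j _
    have e : x ^ (-(p * (((i + j : ℕ) : ℝ) + 1))) = x ^ (-p) * ((x ^ (-p)) ^ i * (x ^ (-p)) ^ j) := by
      rw [← pow_add, ← pow_succ', ← Real.rpow_mul_natCast hx0.le]
      congr 1
      push_cast
      ring
    rw [e]
    ring
  rw [intervalIntegral.integral_congr h1, intervalIntegral.integral_finsetSum]
  · apply Finset.sum_congr rfl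
    intro i _
    rw [intervalIntegral.integral_finsetSum]
    · apply Finset.sum_congr rfl
      intro j _
      rw [intervalIntegral.integral_const_mul]
      rfl
    · intro j _
      exact ((cont_rpow hκ hκ1 _).const_mul _).intervalIntegrable
  · intro i _
    apply ContinuousOn.intervalIntegrable
    apply continuousOn_finsetSum
    intro j _
    exact (cont_rpow hκ hκ1 _).const_mul _

lemma pos_form (p : ℝ) (hp : 0 < p) {κ : ℝ} (hκ : 0 < κ) (hκ1 : κ < 1) (J : ℕ) (c : ℕ → ℝ)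
    (hc : ∃ j < J + 1, c j ≠ 0) :
    0 < ∫ x in κ..1, x ^ (-p) * (∑ j ∈ Finset.range (J + 1), c j * (x ^ (-p)) ^ j) ^ 2 := by
  have hcont : ContinuousOn (fun x : ℝ => x ^ (-p) *
      (∑ j ∈ Finset.range (J + 1), c j * (x ^ (-p)) ^ j) ^ 2) (Set.Icc κ 1) := by
    have h0 := cont_rpow hκ hκ1 (-p)
    rw [Set.uIcc_of_le hκ1.le] at h0
    refine h0.mul ((continuousOn_finsetSum _ fun j _ => (h0.pow j).const_mul (c j)).pow 2)
  apply intervalIntegral.integral_pos hκ1 hcont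
  · intro x hx
    have hx0 : 0 < x := lt_trans hκ hx.1
    positivity
  · by_contra hcon
    push Not at hcon
    obtain ⟨j0, hj0, hcj0⟩ := hc
    set P : Polynomial ℝ := ∑ j ∈ Finset.range (J + 1), Polynomial.C (c j) * Polynomial.X ^ j with hP
    have hroot : ∀ x ∈ Set.Icc κ 1, P.eval (x ^ (-p)) = 0 := by
      intro x hx
      have hx0 : 0 < x := lt_of_lt_of_le hκ hx.1
      have h1 := hcon x hx
      have h2 : P.eval (x ^ (-p)) = ∑ j ∈ Finset.range (J + 1), c j * (x ^ (-p)) ^ j := by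
        rw [hP, Polynomial.eval_finsetSum]
        simp
      rw [h2]
      have h3 : 0 < x ^ (-p) := by positivity
      by_contra h4
      have h5 : 0 < x ^ (-p) * (∑ j ∈ Finset.range (J + 1), c j * (x ^ (-p)) ^ j) ^ 2 := by
        positivity
      linarith
    have hinj : Set.InjOn (fun x : ℝ => x ^ (-p)) (Set.Icc κ 1) := by
      intro x hx y hy hxy
      have hx0 : 0 < x := lt_of_lt_of_le hκ hx.1
      have hy0 : 0 < y := lt_of_lt_of_le hκ hy.1
      simp only at hxy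
      rw [Real.rpow_neg hx0.le, Real.rpow_neg hy0.le, inv_inj] at hxy
      exact (Real.rpow_left_inj hx0.le hy0.le hp.ne').1 hxy
    have hinf : (Set.Icc κ 1).Infinite := Set.Icc_infinite hκ1
    have hP0 : P = 0 := by
      apply Polynomial.eq_zero_of_infinite_isRoot
      apply (hinf.image hinj).mono
      rintro y ⟨x, hx, rfl⟩
      exact hroot x hx
    have h6 : P.coeff j0 = c j0 := by
      rw [hP, Polynomial.finsetSum_coeff]
      simp only [Polynomial.coeff_C_mul_X_pow]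
      rw [Finset.sum_eq_single j0]
      · simp
      · intro b _ hb
        rw [if_neg (Ne.symm hb)]
      · intro h
        exact absurd (Finset.mem_range.2 hj0) h
    rw [hP0, Polynomial.coeff_zero] at h6
    exact hcj0 h6.symm

lemma exists_mu (p : ℝ) (hp : 0 < p) {κ : ℝ} (hκ : 0 < κ) (hκ1 : κ < 1) (J : ℕ) :
    ∃ μ : ℝ, 0 < μ ∧ ∀ v : Fin (J + 1) → ℝ,
      μ * ‖v‖ ^ 2 ≤ ∑ i : Fin (J + 1), ∑ j : Fin (J + 1), v i * v j * form_mo p κ (i + j) := by
  set Q : (Fin (J + 1) → ℝ) → ℝ := fun v =>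
    ∑ i : Fin (J + 1), ∑ j : Fin (J + 1), v i * v j * form_mo p κ (i + j) with hQ
  have hQc : Continuous Q := by
    rw [hQ]; fun_prop
  have hpos : ∀ v : Fin (J + 1) → ℝ, v ≠ 0 → 0 < Q v := by
    intro v hv
    obtain ⟨j0, hj0⟩ := Function.ne_iff.1 hv
    set c : ℕ → ℝ := fun j => if h : j < J + 1 then v ⟨j, h⟩ else 0 with hc
    have hcv : ∀ i : Fin (J + 1), c i = v i := by
      intro i
      rw [hc]
      simp only
      rw [dif_pos i.2]
    have h1 := pos_form p hp hκ hκ1 J c ⟨j0, j0.2, by rw [hcv]; exact hj0⟩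
    rw [form_expand p hκ hκ1, Finset.sum_range] at h1
    simp only [Finset.sum_range, hcv] at h1
    exact h1
  have hcomp : IsCompact (Metric.sphere (0 : Fin (J + 1) → ℝ) 1) := isCompact_sphere 0 1
  have hne : (Metric.sphere (0 : Fin (J + 1) → ℝ) 1).Nonempty := NormedSpace.sphere_nonempty.2
    zero_le_one
  obtain ⟨v0, hv0, hmin⟩ := hcomp.exists_isMinOn hne hQc.continuousOn
  have hv00 : v0 ≠ 0 := by
    rintro rfl
    rw [mem_sphere_zero_iff_norm, norm_zero] at hv0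
    exact zero_ne_one hv0
  refine ⟨Q v0, hpos v0 hv00, fun v => ?_⟩
  by_cases hv : v = 0
  · subst hv
    simp
  · have hn : 0 < ‖v‖ := norm_pos_iff.2 hv
    have h1 : ‖v‖⁻¹ • v ∈ Metric.sphere (0 : Fin (J + 1) → ℝ) 1 := by
      rw [mem_sphere_zero_iff_norm, norm_smul, norm_inv, norm_norm, inv_mul_cancel₀ hn.ne']
    have h2 := hmin h1
    have h3 : Q (‖v‖⁻¹ • v) = (‖v‖⁻¹) ^ 2 * Q v := by
      simp only [hQ, Pi.smul_apply, smul_eq_mul]
      rw [Finset.mul_sum]
      apply Finset.sum_congr rfl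
      intro i _
      rw [Finset.mul_sum]
      apply Finset.sum_congr rfl
      intro j _
      ring
    have h2' : Q v0 ≤ Q (‖v‖⁻¹ • v) := h2
    rw [h3, inv_pow, ← div_eq_inv_mul, le_div_iff₀ (by positivity)] at h2'
    exact h2'

/-- TARGET: positive definite forms are stable under small perturbations -/
lemma form_lower (p : ℝ) (hp : 0 < p) {κ : ℝ} (hκ : 0 < κ) (hκ1 : κ < 1) (J : ℕ) {η : ℝ}
    (hη : 0 < η) :
    ∃ η0 : ℝ, 0 < η0 ∧ ∀ M : ℕ → ℝ,
      (∀ i ≤ 2 * J, |M i - ∫ x in κ..1, x ^ (-(p * (i + 1)))| ≤ η0) →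
      ∀ c : ℕ → ℝ,
      (1 - η) * (∫ x in κ..1, x ^ (-p) *
        (∑ j ∈ Finset.range (J + 1), c j * (x ^ (-p)) ^ j) ^ 2) ≤
      ∑ i ∈ Finset.range (J + 1), ∑ j ∈ Finset.range (J + 1), c i * c j * M (i + j) := by
  obtain ⟨μ, hμ, hμQ⟩ := exists_mu p hp hκ hκ1 J
  refine ⟨η * μ / ((J : ℝ) + 1) ^ 2, by positivity, ?_⟩
  intro M hM c
  rw [form_expand p hκ hκ1 J c]
  set v : Fin (J + 1) → ℝ := fun i => c i with hv
  have hQ := hμQ v
  have e1 : ∑ i ∈ Finset.range (J + 1), ∑ j ∈ Finset.range (J + 1), c i * c j * form_mo p κ (i + j) =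
      ∑ i : Fin (J + 1), ∑ j : Fin (J + 1), v i * v j * form_mo p κ (i + j) := by
    simp only [Finset.sum_range, hv]
  have e2 : ∑ i ∈ Finset.range (J + 1), ∑ j ∈ Finset.range (J + 1), c i * c j * M (i + j) =
      ∑ i : Fin (J + 1), ∑ j : Fin (J + 1), v i * v j * M (i + j) := by
    simp only [Finset.sum_range, hv]
  rw [e1, e2]
  have hdiff : |∑ i : Fin (J + 1), ∑ j : Fin (J + 1), v i * v j * form_mo p κ (i + j) -
      ∑ i : Fin (J + 1), ∑ j : Fin (J + 1), v i * v j * M (i + j)| ≤ η * (μ * ‖v‖ ^ 2) := by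
    rw [← Finset.sum_sub_distrib]
    have h1 : ∀ i : Fin (J + 1), |∑ j : Fin (J + 1), v i * v j * form_mo p κ (i + j) -
        ∑ j : Fin (J + 1), v i * v j * M (i + j)| ≤
        ((J : ℝ) + 1) * (‖v‖ ^ 2 * (η * μ / ((J : ℝ) + 1) ^ 2)) := by
      intro i
      rw [← Finset.sum_sub_distrib]
      refine (Finset.abs_sum_le_sum_abs _ _).trans ?_
      have h2 : ∀ j ∈ (Finset.univ : Finset (Fin (J + 1))),
          |v i * v j * form_mo p κ (i + j) - v i * v j * M (i + j)| ≤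
          ‖v‖ ^ 2 * (η * μ / ((J : ℝ) + 1) ^ 2) := by
        intro j _
        rw [← mul_sub, abs_mul, abs_mul]
        have h3 := hM (i + j) (by have := i.2; have := j.2; omega)
        rw [abs_sub_comm] at h3
        have h4 : |v i| ≤ ‖v‖ := by
          rw [← Real.norm_eq_abs]; exact norm_le_pi_norm v i
        have h5 : |v j| ≤ ‖v‖ := by
          rw [← Real.norm_eq_abs]; exact norm_le_pi_norm v j
        have h6 : |form_mo p κ (i + j) - M (i + j)| ≤ η * μ / ((J : ℝ) + 1) ^ 2 := h3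
        rw [sq]
        gcongr
      refine (Finset.sum_le_sum h2).trans (le_of_eq ?_)
      rw [Finset.sum_const, Finset.card_univ, Fintype.card_fin, nsmul_eq_mul]
      push_cast
      ring
    refine (Finset.abs_sum_le_sum_abs _ _).trans ?_
    refine (Finset.sum_le_sum fun i _ => h1 i).trans (le_of_eq ?_)
    rw [Finset.sum_const, Finset.card_univ, Fintype.card_fin, nsmul_eq_mul]
    push_cast
    field_simp
  have h7 := (abs_le.1 hdiff).2
  nlinarith

end Pool.Agent.Helper579.Cg
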