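import Mathlib
import Pool.Agent.Helper579.CgExpo

set_option autoImplicit false

namespace Pool.Agent.Helper579.Cg

open MeasureTheory Matrix
open scoped ENNReal

/-- the complex Gaussian distribution with density `exp (-|z|^2) / π` -/
noncomputable def gam : Measure ℂ :=
  volume.withDensity fun z => ENNReal.ofReal (Real.exp (-‖z‖ ^ 2) / Real.pi)

lemma gam_integral : ∫ z : ℂ, Real.exp (-‖z‖ ^ 2) / Real.pi = 1 := by
  have h := Complex.integral_exp_neg_rpow (p := 2) (by norm_num)
  rw [integral_div]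
  have h2 : ∀ x : ℂ, Real.exp (-‖x‖ ^ (2 : ℝ)) = Real.exp (-‖x‖ ^ 2) := by
    intro x
    rw [Real.rpow_two]
  simp_rw [h2] at h
  rw [h]
  have h3 : Real.Gamma (2 / 2 + 1) = 1 := by
    norm_num
  rw [h3, mul_one, div_self Real.pi_ne_zero]

lemma gam_integrable : Integrable (fun z : ℂ => Real.exp (-‖z‖ ^ 2) / Real.pi) := by
  by_contra h
  have := gam_integral
  rw [integral_undef h] at this
  exact zero_ne_one this

instance probGam : IsProbabilityMeasure gam := by
  constructor
  unfold gam
  rw [withDensity_apply _ MeasurableSet.univ, Measure.restrict_univ,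
    ← ofReal_integral_eq_lintegral_ofReal gam_integrable
      (Filter.Eventually.of_forall fun z => by positivity), gam_integral, ENNReal.ofReal_one]

/-- the squared modulus has the exponential distribution -/
lemma gam_sq : gam.map (fun z => ‖z‖ ^ 2) = expo := by
  have hm : Measurable (fun z : ℂ => ‖z‖ ^ 2) := by fun_prop
  ext s hs
  have hms : MeasurableSet ((fun z : ℂ => ‖z‖ ^ 2) ⁻¹' s) := hm hs
  rw [Measure.map_apply hm hs]
  unfold gam expo
  rw [withDensity_apply _ hms, withDensity_apply _ hs, ← lintegral_indicator hms,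
    ← lintegral_indicator hs, ← Complex.lintegral_comp_polarCoord_symm, polarCoord_target]
  set F : ℝ → ℝ≥0∞ := fun r => ENNReal.ofReal (2 * r) *
    (s.indicator (fun x => ENNReal.ofReal (Real.exp (-x))) (r ^ 2)) with hF
  have hind : Measurable (s.indicator (fun x : ℝ => ENNReal.ofReal (Real.exp (-x)))) :=
    Measurable.indicator (by fun_prop) hs
  have hFm : Measurable F := by
    rw [hF]
    exact Measurable.mul (by fun_prop) (hind.comp (by fun_prop))
  have h1 : ∫⁻ p in Set.Ioi (0 : ℝ) ×ˢ Set.Ioo (-Real.pi) Real.pi,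
      ENNReal.ofReal p.1 • ((fun z : ℂ => ‖z‖ ^ 2) ⁻¹' s).indicator
        (fun z => ENNReal.ofReal (Real.exp (-‖z‖ ^ 2) / Real.pi)) (Complex.polarCoord.symm p)
      = ∫⁻ p in Set.Ioi (0 : ℝ) ×ˢ Set.Ioo (-Real.pi) Real.pi,
        F p.1 * ENNReal.ofReal (1 / (2 * Real.pi)) := by
    refine setLIntegral_congr_fun (measurableSet_Ioi.prod measurableSet_Ioo) (fun p hp => ?_)
    have hp1 : 0 < p.1 := hp.1
    have hn : ‖Complex.polarCoord.symm p‖ ^ 2 = p.1 ^ 2 := by
      rw [Complex.norm_polarCoord_symm, sq_abs]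
    simp only [hF, smul_eq_mul]
    by_cases hmem : p.1 ^ 2 ∈ s
    · rw [Set.indicator_of_mem (by simpa [hn] using hmem), Set.indicator_of_mem hmem, hn,
        ← ENNReal.ofReal_mul hp1.le, ← ENNReal.ofReal_mul (by positivity),
        ← ENNReal.ofReal_mul (by positivity)]
      congr 1
      have := Real.pi_ne_zero
      field_simp
    · rw [Set.indicator_of_notMem (by simpa [hn] using hmem), Set.indicator_of_notMem hmem]
      simp
  rw [h1, Measure.volume_eq_prod, ← Measure.prod_restrict,
    lintegral_prod_mul (f := F) (g := fun _ => ENNReal.ofReal (1 / (2 * Real.pi)))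
      hFm.aemeasurable aemeasurable_const]
  have h2 : ∫⁻ (_ : ℝ) in Set.Ioo (-Real.pi) Real.pi, ENNReal.ofReal (1 / (2 * Real.pi)) = 1 := by
    rw [setLIntegral_const, Real.volume_Ioo, ← ENNReal.ofReal_mul (by positivity)]
    rw [show 1 / (2 * Real.pi) * (Real.pi - -Real.pi) = 1 by
      have := Real.pi_ne_zero
      field_simp
      ring]
    exact ENNReal.ofReal_one
  rw [h2, mul_one]
  -- substitution
  have himg : (fun r : ℝ => r ^ 2) '' Set.Ioi 0 = Set.Ioi 0 := by
    ext x
    simp only [Set.mem_image, Set.mem_Ioi]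
    constructor
    · rintro ⟨r, hr, rfl⟩
      positivity
    · intro hx
      exact ⟨Real.sqrt x, Real.sqrt_pos.mpr hx, Real.sq_sqrt hx.le⟩
  have hinj : Set.InjOn (fun r : ℝ => r ^ 2) (Set.Ioi 0) := by
    intro x hx y hy hxy
    exact (pow_left_inj₀ (le_of_lt hx) (le_of_lt hy) (by norm_num)).mp hxy
  have hsub := lintegral_image_eq_lintegral_abs_deriv_mul (f := fun r : ℝ => r ^ 2)
    (f' := fun r => 2 * r) measurableSet_Ioi
    (fun x _ => by simpa using (hasDerivAt_pow 2 x).hasDerivWithinAt) hinj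
    (s.indicator (fun x => ENNReal.ofReal (Real.exp (-x))))
  rw [himg] at hsub
  rw [hsub]
  refine setLIntegral_congr_fun measurableSet_Ioi (fun r hr => ?_)
  have hr0 : (0 : ℝ) < r := hr
  simp only [hF]
  rw [abs_of_pos (by positivity)]

/-- the vector of the squared moduli -/
lemma gam_sq_pi (n : ℕ) : (Measure.pi fun _ : Fin n => gam).map (fun g k => ‖g k‖ ^ 2)
    = Measure.pi fun _ : Fin n => expo := by
  have : ∀ i : Fin n, SigmaFinite (gam.map (fun z : ℂ => ‖z‖ ^ 2)) := by
    intro i
    rw [gam_sq]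
    infer_instance
  have := Measure.pi_map_pi (μ := fun _ : Fin n => gam)
    (f := fun _ : Fin n => fun z : ℂ => ‖z‖ ^ 2) (fun i => by fun_prop)
  rw [this]
  simp_rw [gam_sq]

/-- product density -/
noncomputable def rho (n : ℕ) (x : Fin n → ℂ) : ℝ≥0∞ :=
  ENNReal.ofReal (∏ k, (Real.exp (-‖x k‖ ^ 2) / Real.pi))

lemma measurable_rho (n : ℕ) : Measurable (rho n) := by
  unfold rho
  fun_prop

lemma pi_gam (n : ℕ) : (Measure.pi fun _ : Fin n => gam) = volume.withDensity (rho n) := by
  refine Measure.pi_eq fun s hs => ?_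
  have hS : MeasurableSet (Set.pi Set.univ s) := MeasurableSet.univ_pi hs
  rw [withDensity_apply _ hS, ← lintegral_indicator hS]
  set g : (i : Fin n) → ℂ → ℝ := fun i => (s i).indicator
    (fun z : ℂ => Real.exp (-‖z‖ ^ 2) / Real.pi) with hg
  have hgi : ∀ i, Integrable (g i) := fun i => gam_integrable.indicator (hs i)
  have hg0 : ∀ i z, 0 ≤ g i z := by
    intro i z
    simp only [hg]
    exact Set.indicator_nonneg (fun z _ => by positivity) z
  have h1 : ∀ x : Fin n → ℂ, (Set.pi Set.univ s).indicator (rho n) x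
      = ENNReal.ofReal (∏ i, g i (x i)) := by
    intro x
    by_cases hx : x ∈ Set.pi Set.univ s
    · rw [Set.indicator_of_mem hx, rho]
      congr 1
      refine Finset.prod_congr rfl fun i _ => ?_
      simp only [hg]
      rw [Set.indicator_of_mem (hx i (Set.mem_univ i))]
    · rw [Set.indicator_of_notMem hx]
      have : ∃ i, x i ∉ s i := by
        by_contra hc
        push Not at hc
        exact hx fun i _ => hc i
      obtain ⟨i, hi⟩ := this
      rw [Finset.prod_eq_zero (Finset.mem_univ i) (by simp only [hg]; rw [Set.indicator_of_notMem hi]),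
        ENNReal.ofReal_zero]
  simp_rw [h1]
  have hint : Integrable (fun x : Fin n → ℂ => ∏ i, g i (x i)) := by
    have h2 := Integrable.fintype_prod_dep (f := g) (μ := fun _ => volume) hgi
    rw [volume_pi]
    exact h2
  rw [← ofReal_integral_eq_lintegral_ofReal hint
    (Filter.Eventually.of_forall fun x => Finset.prod_nonneg fun i _ => hg0 i (x i)),
    integral_fintype_prod_volume_eq_prod, ENNReal.ofReal_prod_of_nonneg
      (fun i _ => integral_nonneg (hg0 i))]
  refine Finset.prod_congr rfl fun i _ => ?_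
  rw [ofReal_integral_eq_lintegral_ofReal (hgi i) (Filter.Eventually.of_forall (hg0 i)), gam,
    withDensity_apply _ (hs i), ← lintegral_indicator (hs i)]
  refine lintegral_congr fun z => ?_
  simp only [hg]
  by_cases hz : z ∈ s i
  · rw [Set.indicator_of_mem hz, Set.indicator_of_mem hz]
  · rw [Set.indicator_of_notMem hz, Set.indicator_of_notMem hz, ENNReal.ofReal_zero]

/-- unitary invariance -/
lemma gam_unitary (n : ℕ) (U : Matrix.unitaryGroup (Fin n) ℂ) :
    (Measure.pi fun _ : Fin n => gam).map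
      (fun x => (U : Matrix (Fin n) (Fin n) ℂ) *ᵥ x) = Measure.pi fun _ : Fin n => gam := by
  set A : Matrix (Fin n) (Fin n) ℂ := (U : Matrix (Fin n) (Fin n) ℂ) with hA
  have hU : star A * A = 1 := Unitary.coe_star_mul_self U
  -- linear map
  let L : (Fin n → ℂ) →ₗ[ℝ] (Fin n → ℂ) := (Matrix.mulVecLin A).restrictScalars ℝ
  have hLA : ∀ x, L x = A *ᵥ x := fun x => rfl
  have hdet : LinearMap.det L = 1 := by
    have h1 : LinearMap.det L = Algebra.norm ℝ (LinearMap.det (Matrix.mulVecLin A)) :=
      LinearMap.det_restrictScalars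
    rw [h1, Algebra.norm_complex_apply]
    have h2 : LinearMap.det (Matrix.mulVecLin A) = A.det := by
      rw [← Matrix.toLin'_apply', LinearMap.det_toLin']
    rw [h2]
    have h3 : star A.det * A.det = 1 := by
      have h4 := congrArg Matrix.det hU
      rw [Matrix.det_mul, Matrix.det_one, Matrix.star_eq_conjTranspose,
        Matrix.det_conjTranspose] at h4
      exact h4
    have h5 : (Complex.normSq A.det : ℂ) = 1 := by
      rw [Complex.normSq_eq_conj_mul_self]
      exact h3
    exact_mod_cast h5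
  have hvol : Measure.map L (volume : Measure (Fin n → ℂ)) = volume := by
    rw [Measure.map_linearMap_addHaar_eq_smul_addHaar (μ := volume) (f := L)
      (by rw [hdet]; norm_num), hdet]
    simp
  have hcont : Measurable (fun x : Fin n → ℂ => A *ᵥ x) := by
    have : Continuous (fun x : Fin n → ℂ => A *ᵥ x) := by fun_prop
    exact this.measurable
  have hmp : MeasurePreserving (fun x : Fin n → ℂ => A *ᵥ x) volume volume := ⟨hcont, hvol⟩
  have hnorm : ∀ x : Fin n → ℂ, ∑ k, ‖(A *ᵥ x) k‖ ^ 2 = ∑ k, ‖x k‖ ^ 2 := by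
    intro x
    have h1 : ∀ y : Fin n → ℂ, ((∑ k, ‖y k‖ ^ 2 : ℝ) : ℂ) = star y ⬝ᵥ y := by
      intro y
      rw [dotProduct]
      push_cast
      refine Finset.sum_congr rfl fun k _ => ?_
      rw [Pi.star_apply, RCLike.star_def, Complex.conj_mul']
    have h2 : star (A *ᵥ x) ⬝ᵥ (A *ᵥ x) = star x ⬝ᵥ x := by
      rw [Matrix.star_mulVec, ← Matrix.dotProduct_mulVec, Matrix.mulVec_mulVec,
        ← Matrix.star_eq_conjTranspose, hU, Matrix.one_mulVec]
    have h3 : ((∑ k, ‖(A *ᵥ x) k‖ ^ 2 : ℝ) : ℂ) = ((∑ k, ‖x k‖ ^ 2 : ℝ) : ℂ) := by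
      rw [h1, h1, h2]
    exact_mod_cast h3
  have hrho : ∀ x : Fin n → ℂ, rho n (A *ᵥ x) = rho n x := by
    intro x
    unfold rho
    congr 1
    rw [Finset.prod_div_distrib, Finset.prod_div_distrib, ← Real.exp_sum, ← Real.exp_sum,
      Finset.sum_neg_distrib, Finset.sum_neg_distrib, hnorm]
  rw [pi_gam]
  ext s hs
  rw [Measure.map_apply hcont hs, withDensity_apply _ (hcont hs), withDensity_apply _ hs]
  calc ∫⁻ x in (fun x => A *ᵥ x) ⁻¹' s, rho n x
      = ∫⁻ x in (fun x => A *ᵥ x) ⁻¹' s, rho n (A *ᵥ x) := by simp_rw [hrho]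
    _ = ∫⁻ x in s, rho n x := hmp.setLIntegral_comp_preimage hs (measurable_rho n)

lemma gam_zero (n : ℕ) (hn : 1 ≤ n) : (Measure.pi fun _ : Fin n => gam) {0} = 0 := by
  have h0 : gam {(0 : ℂ)} = 0 := by
    have hac : gam ≪ volume := withDensity_absolutelyContinuous _ _
    exact hac (by simp)
  have h1 : ({0} : Set (Fin n → ℂ)) = Set.pi Set.univ (fun _ => {(0 : ℂ)}) := by
    ext x
    simp [funext_iff]
  rw [h1, Measure.pi_pi]
  exact Finset.prod_eq_zero (Finset.mem_univ ⟨0, hn⟩) h0

end Pool.Agent.Helper579.Cg
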