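import Mathlib

set_option autoImplicit false

namespace Pool.Agent.Helper579.Cg

open Polynomial

lemma cheb_bound {N k : ℕ} {Q : ℝ[X]} (hQ : Q.natDegree ≤ N) {B : ℝ}
    (hB : ∀ x ∈ Set.Icc (-1 : ℝ) 1, |Q.eval x| ≤ B) {x : ℝ} (hx : 1 ≤ x) :
    |(derivative^[k] Q).eval x| ≤ B * (derivative^[k] (Chebyshev.T ℝ N)).eval x := by
  have hB0 : 0 ≤ B := (abs_nonneg _).trans (hB 1 (by constructor <;> norm_num))
  set t : ℝ := (derivative^[k] (Chebyshev.T ℝ N)).eval x with ht
  have key : ∀ B' : ℝ, 0 < B' → B ≤ B' → |(derivative^[k] Q).eval x| ≤ B' * t := by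
    intro B' hB' hBB
    have hd : ∀ c : ℝ, |c| = 1 → (c * (derivative^[k] Q).eval x) / B' ≤ t := by
      intro c hc
      have h1 : (C (c / B') * Q).degree ≤ N :=
        degree_le_of_natDegree_le ((natDegree_C_mul_le _ _).trans hQ)
      have h2 : ∀ x ∈ Set.Icc (-1 : ℝ) 1, |(C (c / B') * Q).eval x| ≤ 1 := by
        intro x hx
        rw [eval_mul, eval_C, abs_mul, abs_div, hc, abs_of_pos hB', one_div, inv_mul_le_iff₀ hB',
          mul_one]
        exact (hB x hx).trans hBB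
      have h3 := Chebyshev.eval_iterate_derivative_le_of_forall_abs_le_one (k := k) hx h1 h2
      rw [iterate_derivative_C_mul, eval_mul, eval_C] at h3
      calc (c * (derivative^[k] Q).eval x) / B' = c / B' * (derivative^[k] Q).eval x := by ring
        _ ≤ t := h3
    have h4 := hd 1 (by norm_num)
    have h5 := hd (-1) (by norm_num)
    rw [div_le_iff₀ hB'] at h4 h5
    rw [abs_le]
    constructor <;> linarith
  have ht0 : 0 ≤ t := by
    have := (abs_nonneg _).trans (key (B + 1) (by linarith) (by linarith))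
    by_contra hcon
    push Not at hcon
    nlinarith
  apply le_of_forall_pos_le_add
  intro ε hε
  have h6 := key (B + ε / (t + 1)) (by positivity) (by
    have : 0 < ε / (t + 1) := by positivity
    linarith)
  have h7 : ε / (t + 1) * t ≤ ε := by
    rw [div_mul_eq_mul_div, div_le_iff₀ (by linarith)]
    nlinarith
  linarith

lemma iter_comp_lin (P : ℝ[X]) (a b : ℝ) (k : ℕ) :
    derivative^[k] (P.comp (C a + C b * X)) = C (b ^ k) * (derivative^[k] P).comp (C a + C b * X) := by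
  induction k with
  | zero => simp
  | succ k ih =>
    rw [Function.iterate_succ_apply', ih, derivative_C_mul, derivative_comp,
      Function.iterate_succ_apply']
    simp only [derivative_add, derivative_C, derivative_mul, derivative_X, zero_mul, zero_add,
      mul_one, pow_succ, map_mul]
    ring

lemma natDegree_comp_lin {P : ℝ[X]} {N : ℕ} (hP : P.natDegree ≤ N) (a b : ℝ) :
    (P.comp (C a + C b * X)).natDegree ≤ N := by
  refine (natDegree_comp_le).trans ?_
  have h1 : (C a + C b * X : ℝ[X]).natDegree ≤ 1 := by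
    rw [add_comm]; exact natDegree_linear_le
  calc P.natDegree * (C a + C b * X : ℝ[X]).natDegree ≤ P.natDegree * 1 :=
        Nat.mul_le_mul_left _ h1
    _ ≤ N := by simpa using hP

/-- growth of polynomials outside of an interval -/
lemma growth {N : ℕ} {P : ℝ[X]} (hP : P.natDegree ≤ N) {θ M : ℝ} (hθ : 0 < θ) (hθ1 : θ ≤ 1 / 2)
    (hM : ∀ y ∈ Set.Icc 0 (1 - θ), |P.eval y| ≤ M) :
    ∀ y ∈ Set.Icc (1 - θ) 1, |P.eval y| ≤ M * Real.exp (4 * N * √θ) := by
  intro y hy
  have hM0 : 0 ≤ M := (abs_nonneg _).trans (hM 0 ⟨le_rfl, by linarith⟩)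
  set L : ℝ := 1 - θ with hL
  have hL1 : 1 / 2 ≤ L := by rw [hL]; linarith
  set Q : ℝ[X] := P.comp (C (L / 2) + C (L / 2) * X) with hQ
  have hQe : ∀ x, Q.eval x = P.eval (L / 2 + L / 2 * x) := by
    intro x; rw [hQ, eval_comp]; simp
  set x : ℝ := 2 * y / L - 1 with hx
  have hL0 : 0 < L := by linarith
  have hx1 : 1 ≤ x := by
    rw [hx]
    have : 2 ≤ 2 * y / L := by rw [le_div_iff₀ hL0]; linarith [hy.1]
    linarith
  have hx2 : x ≤ 1 + 4 * θ := by
    rw [hx]
    have : 2 * y / L ≤ 2 + 4 * θ := by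
      rw [div_le_iff₀ hL0]
      have : L = 1 - θ := hL
      rw [this]
      nlinarith [hy.2]
    linarith
  have hyx : L / 2 + L / 2 * x = y := by
    rw [hx]; field_simp; ring
  have hb : |Q.eval x| ≤ M * (Chebyshev.T ℝ N).eval x := by
    have h := cheb_bound (k := 0) (natDegree_comp_lin hP (L / 2) (L / 2)) (B := M) (by
      intro x hx
      rw [← hQ, hQe]
      apply hM
      constructor
      · nlinarith [hx.1, hx.2]
      · nlinarith [hx.1, hx.2]) hx1
    exact h
  rw [hQe, hyx] at hb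
  refine hb.trans (mul_le_mul_of_nonneg_left ?_ hM0)
  set s : ℝ := Real.arcosh x with hs
  have hcs : Real.cosh s = x := Real.cosh_arcosh hx1
  have hs0 : 0 ≤ s := Real.arcosh_nonneg hx1
  have hTe : (Chebyshev.T ℝ N).eval x = Real.cosh (N * s) := by
    rw [← hcs]
    exact_mod_cast Chebyshev.T_real_cosh s N
  rw [hTe]
  have hs2 : s ≤ 4 * √θ := by
    have h1 : s / 2 ≤ Real.sinh (s / 2) := Real.self_le_sinh_iff.2 (by linarith)
    have h2 : Real.cosh s = 1 + 2 * Real.sinh (s / 2) ^ 2 := by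
      have h3 := Real.cosh_two_mul (s / 2)
      have h4 := Real.cosh_sq (s / 2)
      rw [show 2 * (s / 2) = s by ring] at h3
      linarith
    have h5 : (s / 2) ^ 2 ≤ Real.sinh (s / 2) ^ 2 := by
      apply pow_le_pow_left₀ (by linarith) h1
    have h6 : s ^ 2 ≤ (4 * √θ) ^ 2 := by
      rw [mul_pow, Real.sq_sqrt hθ.le]
      nlinarith
    exact le_of_sq_le_sq' h6 (by positivity)
  calc Real.cosh (N * s) ≤ Real.exp (N * s) := by
        rw [← Real.cosh_add_sinh]
        have : 0 ≤ Real.sinh (N * s) := Real.sinh_nonneg_iff.2 (by positivity)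
        linarith
    _ ≤ Real.exp (4 * N * √θ) := by
        apply Real.exp_le_exp.2
        have : (0 : ℝ) ≤ N := Nat.cast_nonneg N
        nlinarith
where
  le_of_sq_le_sq' {a b : ℝ} (h : a ^ 2 ≤ b ^ 2) (hb : 0 ≤ b) : a ≤ b :=
    (abs_le_of_sq_le_sq' h hb).2

/-- bound for the coefficients (Markov's inequality at an endpoint) -/
lemma coeff_bound {N : ℕ} {P : ℝ[X]} (hP : P.natDegree ≤ N) {B : ℝ}
    (hB : ∀ y ∈ Set.Icc (0 : ℝ) 1, |P.eval y| ≤ B) (j : ℕ) :
    |P.coeff j| ≤ B * (2 * (N : ℝ) ^ 2) ^ j := by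
  have hB0 : 0 ≤ B := (abs_nonneg _).trans (hB 0 ⟨le_rfl, zero_le_one⟩)
  set Q : ℝ[X] := P.comp (C (1 / 2) + C (-(1 / 2)) * X) with hQ
  have hQe : ∀ x, Q.eval x = P.eval (1 / 2 + -(1 / 2) * x) := by
    intro x; rw [hQ, eval_comp]; simp
  have h1 := cheb_bound (k := j) (natDegree_comp_lin hP (1 / 2) (-(1 / 2))) (B := B) (by
      intro x hx
      rw [← hQ, hQe]
      apply hB
      constructor
      · linarith [hx.1, hx.2]
      · linarith [hx.1, hx.2]) (le_refl (1 : ℝ))
  rw [iter_comp_lin, eval_mul, eval_C, eval_comp] at h1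
  simp only [eval_add, eval_C, eval_mul, eval_X, mul_one, add_neg_cancel] at h1
  have h2 : (derivative^[j] P).eval 0 = (j.factorial : ℝ) * P.coeff j := by
    rw [← coeff_zero_eq_eval_zero, coeff_iterate_derivative, zero_add, Nat.descFactorial_self,
      nsmul_eq_mul]
  have h3 : (derivative^[j] (Chebyshev.T ℝ N)).eval 1 ≤ ((N : ℝ) ^ 2) ^ j := by
    rw [Chebyshev.iterate_derivative_T_eval_one_eq_div]
    push_cast
    rcases Nat.lt_or_ge N j with h | h
    · have h0 : ∏ l ∈ Finset.range j, ((N : ℝ) ^ 2 - (l : ℝ) ^ 2) = 0 :=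
        Finset.prod_eq_zero (Finset.mem_range.2 h) (by simp)
      rw [h0, zero_div]
      positivity
    · have hden : ∀ i : ℕ, (1 : ℝ) ≤ ∏ l ∈ Finset.range i, (2 * (l : ℝ) + 1) := by
        intro i
        induction i with
        | zero => simp
        | succ i ih =>
          rw [Finset.prod_range_succ]
          have : (0 : ℝ) ≤ i := Nat.cast_nonneg i
          nlinarith
      have hden := hden j
      have hnum : ∏ l ∈ Finset.range j, ((N : ℝ) ^ 2 - (l : ℝ) ^ 2) ≤ ((N : ℝ) ^ 2) ^ j := by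
        calc ∏ l ∈ Finset.range j, ((N : ℝ) ^ 2 - (l : ℝ) ^ 2)
            ≤ ∏ _l ∈ Finset.range j, (N : ℝ) ^ 2 := by
              apply Finset.prod_le_prod
              · intro l hl
                have h5 : (l : ℝ) ≤ N := by
                  exact_mod_cast (Finset.mem_range.1 hl).le.trans h
                have h6 : (0 : ℝ) ≤ l := Nat.cast_nonneg l
                nlinarith
              · intro l hl
                nlinarith [sq_nonneg (l : ℝ)]
          _ = ((N : ℝ) ^ 2) ^ j := by simp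
      rw [div_le_iff₀ (by linarith)]
      have h7 : 0 ≤ ((N : ℝ) ^ 2) ^ j := by positivity
      nlinarith
  have h4 : |(-(1 / 2 : ℝ)) ^ j| = (1 / 2) ^ j := by
    rw [abs_pow, abs_neg, abs_of_pos (by norm_num : (0:ℝ) < 1 / 2)]
  rw [abs_mul, h4, h2, abs_mul, Nat.abs_cast] at h1
  have hf : (1 : ℝ) ≤ j.factorial := by exact_mod_cast Nat.one_le_iff_ne_zero.2 (Nat.factorial_ne_zero j)
  have h8 : (1 / 2 : ℝ) ^ j * |P.coeff j| ≤ B * ((N : ℝ) ^ 2) ^ j := by
    calc (1 / 2 : ℝ) ^ j * |P.coeff j| ≤ (1 / 2 : ℝ) ^ j * ((j.factorial : ℝ) * |P.coeff j|) := by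
          apply mul_le_mul_of_nonneg_left _ (by positivity)
          nlinarith [abs_nonneg (P.coeff j)]
      _ ≤ B * (derivative^[j] (Chebyshev.T ℝ N)).eval 1 := h1
      _ ≤ B * ((N : ℝ) ^ 2) ^ j := mul_le_mul_of_nonneg_left h3 hB0
  calc |P.coeff j| = 2 ^ j * ((1 / 2 : ℝ) ^ j * |P.coeff j|) := by
        rw [← mul_assoc, ← mul_pow]; norm_num
    _ ≤ 2 ^ j * (B * ((N : ℝ) ^ 2) ^ j) := mul_le_mul_of_nonneg_left h8 (by positivity)
    _ = B * (2 * (N : ℝ) ^ 2) ^ j := by rw [mul_pow]; ring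

/-- Taylor remainder -/
lemma taylor_bound {N : ℕ} {P : ℝ[X]} (hP : P.natDegree ≤ N) {B : ℝ}
    (hB : ∀ y ∈ Set.Icc (0 : ℝ) 1, |P.eval y| ≤ B) (J : ℕ) {y : ℝ} (hy : 0 ≤ y)
    (hy1 : 2 * (N : ℝ) ^ 2 * y ≤ 1 / 2) :
    |P.eval y - ∑ j ∈ Finset.range (J + 1), P.coeff j * y ^ j|
      ≤ 2 * B * (2 * (N : ℝ) ^ 2 * y) ^ (J + 1) := by
  have hB0 : 0 ≤ B := (abs_nonneg _).trans (hB 0 ⟨le_rfl, zero_le_one⟩)
  set q : ℝ := 2 * (N : ℝ) ^ 2 * y with hq
  have hq0 : 0 ≤ q := by positivity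
  rw [eval_eq_sum_range' (n := (J + 1) + (N + 1)) (by omega), Finset.sum_range_add,
    add_sub_cancel_left]
  calc |∑ i ∈ Finset.range (N + 1), P.coeff (J + 1 + i) * y ^ (J + 1 + i)|
      ≤ ∑ i ∈ Finset.range (N + 1), |P.coeff (J + 1 + i) * y ^ (J + 1 + i)| :=
        Finset.abs_sum_le_sum_abs _ _
    _ ≤ ∑ i ∈ Finset.range (N + 1), B * q ^ (J + 1) * (1 / 2) ^ i := by
        apply Finset.sum_le_sum
        intro i _
        rw [abs_mul, abs_pow, abs_of_nonneg hy]
        calc |P.coeff (J + 1 + i)| * y ^ (J + 1 + i)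
            ≤ (B * (2 * (N : ℝ) ^ 2) ^ (J + 1 + i)) * y ^ (J + 1 + i) :=
              mul_le_mul_of_nonneg_right (coeff_bound hP hB _) (by positivity)
          _ = B * q ^ (J + 1) * q ^ i := by rw [hq, mul_assoc, ← mul_pow, pow_add]; ring
          _ ≤ B * q ^ (J + 1) * (1 / 2) ^ i := by
              apply mul_le_mul_of_nonneg_left _ (by positivity)
              exact pow_le_pow_left₀ hq0 hy1 i
    _ = B * q ^ (J + 1) * ∑ i ∈ Finset.range (N + 1), (1 / 2 : ℝ) ^ i := by
        rw [Finset.mul_sum]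
    _ ≤ B * q ^ (J + 1) * 2 := by
        apply mul_le_mul_of_nonneg_left (sum_geometric_two_le _) (by positivity)
    _ = 2 * B * q ^ (J + 1) := by ring

end Pool.Agent.Helper579.Cg
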