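import Mathlib
import Pool.Agent.Helper579.CgDefs
import Pool.Agent.Helper579.CgGam

set_option autoImplicit false

namespace Pool.Agent.Helper579.Cg

open MeasureTheory Matrix
open scoped ENNReal

instance haarU_prob (n : ℕ) : IsProbabilityMeasure (haarU n) := by
  constructor
  have h := Measure.haarMeasure_self (K₀ := (⊤ : TopologicalSpace.PositiveCompacts (Un n)))
  simpa [haarU] using h

/-- the Euclidean norm -/
noncomputable def enorm2 {n : ℕ} (x : Fin n → ℂ) : ℝ := ‖WithLp.toLp 2 x‖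

lemma enorm2_pos {n : ℕ} {x : Fin n → ℂ} (hx : x ≠ 0) : 0 < enorm2 x := by
  unfold enorm2
  rw [norm_pos_iff]
  intro h
  apply hx
  have := congrArg WithLp.ofLp h
  simpa using this

lemma measurable_enorm2 {n : ℕ} : Measurable (enorm2 : (Fin n → ℂ) → ℝ) := by
  unfold enorm2
  have : Continuous fun x : Fin n → ℂ => ‖WithLp.toLp 2 x‖ :=
    (PiLp.continuous_toLp 2 _).norm
  exact this.measurable

/-- every vector is a nonnegative multiple of the first column of a unitary matrix -/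
lemma exists_unitary_col (n : ℕ) (hn : 1 ≤ n) (x : Fin n → ℂ) (hx : x ≠ 0) :
    ∃ A : Un n, x = enorm2 x • ((A : Matrix (Fin n) (Fin n) ℂ) *ᵥ Pi.single ⟨0, hn⟩ 1) := by
  classical
  have hpos := enorm2_pos hx
  let a : EuclideanSpace ℂ (Fin n) := ((enorm2 x)⁻¹ : ℂ) • WithLp.toLp 2 x
  have ha : ‖a‖ = 1 := by
    simp only [a, norm_smul, norm_inv, Complex.norm_real, Real.norm_eq_abs, abs_of_pos hpos]
    exact inv_mul_cancel₀ hpos.ne'
  let v : Fin n → EuclideanSpace ℂ (Fin n) := fun _ => a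
  have hv : Orthonormal ℂ (({⟨0, hn⟩} : Set (Fin n)).domRestrict v) := by
    constructor
    · intro i
      exact ha
    · intro i j hij
      exact absurd (Subtype.ext (i.2.trans j.2.symm)) hij
  obtain ⟨b, hb⟩ := hv.exists_orthonormalBasis_extension_of_card_eq (by simp)
  have hb0 : b ⟨0, hn⟩ = a := hb _ rfl
  refine ⟨⟨(EuclideanSpace.basisFun (Fin n) ℂ).toBasis.toMatrix b,
    (EuclideanSpace.basisFun (Fin n) ℂ).toMatrix_orthonormalBasis_mem_unitary b⟩, ?_⟩
  ext i
  have : ((EuclideanSpace.basisFun (Fin n) ℂ).toBasis.toMatrix b *ᵥ Pi.single ⟨0, hn⟩ 1) i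
      = a i := by
    rw [mulVec_single_one]
    simp [Module.Basis.toMatrix_apply, hb0]
  simp only [Pi.smul_apply]
  rw [this]
  simp only [a, PiLp.smul_apply, smul_eq_mul, Complex.real_smul]
  rw [← mul_assoc, mul_inv_cancel₀, one_mul]
  exact_mod_cast hpos.ne'

/-- the unitary group acts transitively on the rays -/
lemma exists_unitary_ray (n : ℕ) (hn : 1 ≤ n) (x y : Fin n → ℂ) (hx : x ≠ 0) (hy : y ≠ 0) :
    ∃ V : Un n, y = (enorm2 y / enorm2 x) • ((V : Matrix (Fin n) (Fin n) ℂ) *ᵥ x) := by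
  obtain ⟨A, hA⟩ := exists_unitary_col n hn x hx
  obtain ⟨B, hB⟩ := exists_unitary_col n hn y hy
  have hxp := enorm2_pos hx
  refine ⟨B * star A, ?_⟩
  set e : Fin n → ℂ := Pi.single ⟨0, hn⟩ 1 with he
  have h1 : ((B * star A : Un n) : Matrix (Fin n) (Fin n) ℂ) *ᵥ x
      = enorm2 x • ((B : Matrix (Fin n) (Fin n) ℂ) *ᵥ e) := by
    conv_lhs => rw [hA]
    rw [mulVec_smul]
    congr 1
    have : ((B * star A : Un n) : Matrix (Fin n) (Fin n) ℂ)
      = (B : Matrix (Fin n) (Fin n) ℂ) * star (A : Matrix (Fin n) (Fin n) ℂ) := rfl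
    rw [this, mulVec_mulVec, Matrix.mul_assoc]
    have h2 : star (A : Matrix (Fin n) (Fin n) ℂ) * (A : Matrix (Fin n) (Fin n) ℂ) = 1 :=
      Matrix.mem_unitaryGroup_iff'.1 A.2
    rw [h2, Matrix.mul_one]
  rw [h1, smul_smul, div_mul_cancel₀ _ hxp.ne']
  exact hB

lemma measurable_entry {n : ℕ} (i j : Fin n) :
    Measurable fun U : Un n => (U : Matrix (Fin n) (Fin n) ℂ) i j := by
  have : Continuous fun U : Un n => (U : Matrix (Fin n) (Fin n) ℂ) i j :=
    (continuous_subtype_val.matrix_elem i j)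
  exact this.measurable

/-- the sets on the left need not be measurable; `gam_prob`, `gam_unitary`, `gam_zero` are proved
elsewhere (they are hypotheses here) -/
lemma haar_vec (n : ℕ) (hn : 1 ≤ n) (gam_prob : IsProbabilityMeasure gam)
    (gam_unitary : ∀ U : Un n, (Measure.pi fun _ : Fin n => gam).map
      (fun x => (U : Matrix (Fin n) (Fin n) ℂ) *ᵥ x) = Measure.pi fun _ : Fin n => gam)
    (gam_zero : (Measure.pi fun _ : Fin n => gam) {0} = 0)
    (x : Fin n → ℂ) (hx : x ≠ 0) (G : Set (Fin n → ℂ)) (hG : MeasurableSet G) :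
    haarU n {U | ∀ r : ℝ, 0 < r →
      (r • (star (U : Matrix (Fin n) (Fin n) ℂ) *ᵥ x) : Fin n → ℂ) ∉ G}
      ≤ (Measure.pi fun _ : Fin n => gam) Gᶜ := by
  classical
  set gn : Measure (Fin n → ℂ) := Measure.pi fun _ : Fin n => gam with hgn
  haveI : IsProbabilityMeasure gn := by rw [hgn]; infer_instance
  -- the two maps
  let F : Un n × (Fin n → ℂ) → (Fin n → ℂ) :=
    fun p => star (p.1 : Matrix (Fin n) (Fin n) ℂ) *ᵥ p.2
  let H : Un n × (Fin n → ℂ) → (Fin n → ℂ) :=
    fun p => (enorm2 p.2 / enorm2 x) • (star (p.1 : Matrix (Fin n) (Fin n) ℂ) *ᵥ x)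
  have hF : Measurable F := by
    refine measurable_pi_iff.2 fun i => ?_
    simp only [F, mulVec, dotProduct, star_apply]
    refine Finset.measurable_sum _ fun j _ => ?_
    refine Measurable.mul ?_ ((measurable_pi_apply j).comp measurable_snd)
    exact Complex.continuous_conj.measurable.comp ((measurable_entry j i).comp measurable_fst)
  have hH : Measurable H := by
    refine measurable_pi_iff.2 fun i => ?_
    simp only [H, Pi.smul_apply, mulVec, dotProduct, star_apply]
    refine Measurable.smul ((measurable_enorm2.comp measurable_snd).div_const _) ?_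
    refine Finset.measurable_sum _ fun j _ => ?_
    refine Measurable.mul ?_ measurable_const
    exact Complex.continuous_conj.measurable.comp ((measurable_entry j i).comp measurable_fst)
  have hAF : MeasurableSet (F ⁻¹' Gᶜ) := hF hG.compl
  have hAH : MeasurableSet (H ⁻¹' Gᶜ) := hH hG.compl
  have h1 : (haarU n).prod gn (F ⁻¹' Gᶜ) = gn Gᶜ := by
    rw [Measure.prod_apply hAF]
    have : ∀ U : Un n, gn (Prod.mk U ⁻¹' (F ⁻¹' Gᶜ)) = gn Gᶜ := by
      intro U
      have h2 := gam_unitary (star U)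
      have h3 : Measurable fun y : Fin n → ℂ =>
          ((star U : Un n) : Matrix (Fin n) (Fin n) ℂ) *ᵥ y :=
        (Continuous.matrix_mulVec continuous_const continuous_id).measurable
      conv_rhs => rw [← h2, Measure.map_apply h3 hG.compl]
      rfl
    simp only [this, lintegral_const, measure_univ, mul_one]
  have h2 : (haarU n).prod gn (F ⁻¹' Gᶜ) = (haarU n).prod gn (H ⁻¹' Gᶜ) := by
    rw [Measure.prod_apply_symm hAF, Measure.prod_apply_symm hAH]
    apply lintegral_congr_ae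
    have h0 : ∀ᵐ y ∂gn, y ≠ 0 := by
      rw [ae_iff]
      simpa using gam_zero
    filter_upwards [h0] with y hy
    obtain ⟨V, hV⟩ := exists_unitary_ray n hn x y hx hy
    have hset : ((fun U => (U, y)) ⁻¹' (F ⁻¹' Gᶜ))
        = (fun U : Un n => V⁻¹ * U) ⁻¹' ((fun U => (U, y)) ⁻¹' (H ⁻¹' Gᶜ)) := by
      ext U
      simp only [Set.mem_preimage, F, H]
      have : star (U : Matrix (Fin n) (Fin n) ℂ) *ᵥ y
          = (enorm2 y / enorm2 x) • (star ((V⁻¹ * U : Un n) : Matrix (Fin n) (Fin n) ℂ) *ᵥ x) := by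
        have e1 : star ((V⁻¹ * U : Un n) : Matrix (Fin n) (Fin n) ℂ)
            = star (U : Matrix (Fin n) (Fin n) ℂ) * (V : Matrix (Fin n) (Fin n) ℂ) := by
          have : ((V⁻¹ * U : Un n) : Matrix (Fin n) (Fin n) ℂ)
            = star (V : Matrix (Fin n) (Fin n) ℂ) * (U : Matrix (Fin n) (Fin n) ℂ) := rfl
          rw [this, star_mul, star_star]
        rw [e1, ← mulVec_mulVec, ← mulVec_smul, ← hV]
      rw [this]
    rw [hset]
    have : (haarU n).IsMulLeftInvariant := by unfold haarU; infer_instance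
    exact measure_preimage_mul (haarU n) V⁻¹ _
  have h3 : ∫⁻ U, gn (Prod.mk U ⁻¹' (H ⁻¹' Gᶜ)) ∂(haarU n) = gn Gᶜ := by
    rw [← Measure.prod_apply hAH, ← h2, h1]
  have hmeas : Measurable fun U => gn (Prod.mk U ⁻¹' (H ⁻¹' Gᶜ)) :=
    measurable_measure_prodMk_left hAH
  calc haarU n {U | ∀ r : ℝ, 0 < r →
      (r • (star (U : Matrix (Fin n) (Fin n) ℂ) *ᵥ x) : Fin n → ℂ) ∉ G}
      ≤ haarU n {U | 1 ≤ gn (Prod.mk U ⁻¹' (H ⁻¹' Gᶜ))} := by
        apply measure_mono
        intro U hU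
        simp only [Set.mem_ofPred_eq] at hU ⊢
        have h4 : gn ({0}ᶜ : Set (Fin n → ℂ)) = 1 := by
          rw [prob_compl_eq_one_iff (MeasurableSet.singleton _)]
          exact gam_zero
        rw [← h4]
        apply measure_mono
        intro y hy
        simp only [Set.mem_preimage, H, Set.mem_compl_iff]
        apply hU
        exact div_pos (enorm2_pos hy) (enorm2_pos hx)
    _ = 1 * haarU n {U | 1 ≤ gn (Prod.mk U ⁻¹' (H ⁻¹' Gᶜ))} := (one_mul _).symm
    _ ≤ ∫⁻ U, gn (Prod.mk U ⁻¹' (H ⁻¹' Gᶜ)) ∂(haarU n) :=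
        mul_meas_ge_le_lintegral hmeas 1
    _ = gn Gᶜ := h3

end Pool.Agent.Helper579.Cg
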