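import Mathlib
import Pool.Agent.Helper579.CgRcd3

set_option autoImplicit false

namespace Pool.Agent.Helper579.Cg

open scoped ComplexConjugate




variable {n : ℕ}


variable {U : Fin n → Fin n → ℂ} {l : Fin n → ℝ}

/-- TARGET: few rows carry little of the residual -/
lemma few_rows (hU : ColOrth U) (hl : ∀ k, 0 ≤ l k) {K' R : ℕ} {s : ℝ} (hs : 0 ≤ s)
    (hG : ∀ I : Finset (Fin n), I.card ≤ R → ∀ x : Fin n → ℂ,
      (∀ k : Fin n, K' ≤ (k : ℕ) → x k = 0) →
      ∑ i ∈ I, ‖∑ k, U i k * x k‖ ^ 2 ≤ 2 * s * ∑ k, ‖x k‖ ^ 2)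
    (I : Finset (Fin n)) (hI : I.card ≤ R) (w : Fin n → ℂ) :
    ∑ i ∈ I, ‖rr U l w i‖ ^ 2
      ≤ 4 * s * qf (fun k => l k ^ 2) w + 2 * qf (fun k => l k * tl l K' k) w := by
  have hsplit : ∀ i, rr U l w i = rr U (hd l K') w i + rr U (tl l K') w i := by
    intro i
    unfold rr
    rw [← Finset.sum_add_distrib]
    refine Finset.sum_congr rfl fun k _ => ?_
    unfold hd tl
    by_cases hk : (k : ℕ) < K'
    · rw [if_pos hk, if_neg (not_le.mpr hk)]; push_cast; ring
    · rw [if_neg hk, if_pos (not_lt.mp hk)]; push_cast; ring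
  have h2 : ∀ i, ‖rr U l w i‖ ^ 2
      ≤ 2 * ‖rr U (hd l K') w i‖ ^ 2 + 2 * ‖rr U (tl l K') w i‖ ^ 2 := by
    intro i
    rw [hsplit i]
    have h := norm_add_le (rr U (hd l K') w i) (rr U (tl l K') w i)
    have h0 := norm_nonneg (rr U (hd l K') w i + rr U (tl l K') w i)
    nlinarith [sq_nonneg (‖rr U (hd l K') w i‖ - ‖rr U (tl l K') w i‖),
      norm_nonneg (rr U (hd l K') w i), norm_nonneg (rr U (tl l K') w i)]
  have hhd := hG I hI (fun k => (hd l K' k : ℂ) * w k) (by
    intro k hk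
    have : hd l K' k = 0 := by unfold hd; rw [if_neg (not_lt.mpr hk)]
    simp [this])
  have hhd' : ∑ i ∈ I, ‖rr U (hd l K') w i‖ ^ 2 ≤ 2 * s * qf (fun k => l k ^ 2) w := by
    refine le_trans hhd ?_
    refine mul_le_mul_of_nonneg_left ?_ (by positivity)
    unfold qf
    refine Finset.sum_le_sum fun k _ => ?_
    simp only [norm_mul, mul_pow, Complex.norm_real, Real.norm_eq_abs, sq_abs]
    refine mul_le_mul_of_nonneg_right ?_ (by positivity)
    unfold hd
    split_ifs
    · exact le_rfl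
    · simpa using sq_nonneg (l k)
  have htl : ∑ i ∈ I, ‖rr U (tl l K') w i‖ ^ 2 ≤ qf (fun k => l k * tl l K' k) w := by
    calc ∑ i ∈ I, ‖rr U (tl l K') w i‖ ^ 2 ≤ ∑ i, ‖rr U (tl l K') w i‖ ^ 2 :=
          Finset.sum_le_sum_of_subset_of_nonneg (Finset.subset_univ _)
            (fun i _ _ => by positivity)
      _ = qf (fun k => (tl l K' k) ^ 2) w := sum_rr_sq hU (tl l K') w
      _ = qf (fun k => l k * tl l K' k) w := by
          unfold qf
          refine Finset.sum_congr rfl fun k _ => ?_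
          have : (tl l K' k) ^ 2 = l k * tl l K' k := by
            unfold tl
            split_ifs
            · ring
            · ring
          simp only [this]
  calc ∑ i ∈ I, ‖rr U l w i‖ ^ 2
      ≤ ∑ i ∈ I, (2 * ‖rr U (hd l K') w i‖ ^ 2 + 2 * ‖rr U (tl l K') w i‖ ^ 2) :=
        Finset.sum_le_sum fun i _ => h2 i
    _ = 2 * ∑ i ∈ I, ‖rr U (hd l K') w i‖ ^ 2 + 2 * ∑ i ∈ I, ‖rr U (tl l K') w i‖ ^ 2 := by
        rw [Finset.sum_add_distrib, Finset.mul_sum, Finset.mul_sum]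
    _ ≤ 4 * s * qf (fun k => l k ^ 2) w + 2 * qf (fun k => l k * tl l K' k) w := by
        nlinarith [hhd', htl]

/-- TARGET: bound for the heavy rows -/
lemma heavy_le (hU : ColOrth U) (hl : ∀ k, 0 ≤ l k) {K' K'' R : ℕ} {s η α E0 : ℝ}
    (hs : 0 ≤ s) (hη : 0 < η) (hα : 0 < α) (hE0 : 0 < E0)
    (hG : ∀ I : Finset (Fin n), I.card ≤ R → ∀ x : Fin n → ℂ,
      (∀ k : Fin n, K' ≤ (k : ℕ) → x k = 0) →
      ∑ i ∈ I, ‖∑ k, U i k * x k‖ ^ 2 ≤ 2 * s * ∑ k, ‖x k‖ ^ 2)
    (hα' : ∀ i, α ≤ aa U l i)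
    (hK'' : ∀ k : Fin n, K'' ≤ (k : ℕ) → l k ≤ R * η * α / 2)
    (w : Fin n → ℂ) (hw : qf l w ≤ E0) :
    Hv U l (η * E0) w ≤ 4 * s * qf (fun k => l k ^ 2) w
      + 2 * qf (fun k => l k * tl l K' k) w + 2 * qf (fun k => l k * hd l K'' k) w := by
  classical
  set I : Finset (Fin n) :=
    Finset.univ.filter (fun i => η * E0 * aa U l i < ‖rr U l w i‖ ^ 2) with hIdef
  have hHv : Hv U l (η * E0) w = ∑ i ∈ I, ‖rr U l w i‖ ^ 2 := by
    unfold Hv
    rw [hIdef, Finset.sum_filter]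
  set D : ℝ := qf (fun k => l k ^ 2) w with hD
  have hDsum : ∑ i, ‖rr U l w i‖ ^ 2 = D := sum_rr_sq hU l w
  have hIle : ∑ i ∈ I, ‖rr U l w i‖ ^ 2 ≤ D := by
    rw [← hDsum]
    exact Finset.sum_le_sum_of_subset_of_nonneg (Finset.subset_univ _)
      (fun i _ _ => by positivity)
  have hhdnn : 0 ≤ qf (fun k => l k * hd l K'' k) w := by
    apply qf_nonneg
    intro k
    unfold hd
    split_ifs
    · exact mul_nonneg (hl k) (hl k)
    · simp
  have htlnn : 0 ≤ qf (fun k => l k * tl l K' k) w := by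
    apply qf_nonneg
    intro k
    unfold tl
    split_ifs
    · exact mul_nonneg (hl k) (hl k)
    · simp
  have hDnn : 0 ≤ D := by
    rw [hD]
    apply qf_nonneg
    intro k
    positivity
  rw [hHv]
  rcases le_or_gt D (R * (η * α * E0)) with hc | hc
  · have hcard : (I.card : ℝ) * (η * α * E0) ≤ ∑ i ∈ I, ‖rr U l w i‖ ^ 2 := by
      rw [← nsmul_eq_mul]
      refine Finset.card_nsmul_le_sum I _ _ ?_
      intro i hi
      rw [hIdef, Finset.mem_filter] at hi
      have h1 := hi.2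
      have h2 : η * α * E0 ≤ η * E0 * aa U l i := by
        have := mul_le_mul_of_nonneg_left (hα' i) (by positivity : 0 ≤ η * E0)
        nlinarith
      linarith
    have hpos : 0 < η * α * E0 := by positivity
    have hR : (I.card : ℝ) ≤ R := by
      by_contra hcon
      push Not at hcon
      have := mul_lt_mul_of_pos_right hcon hpos
      linarith
    have hR' : I.card ≤ R := by exact_mod_cast hR
    have := few_rows hU hl hs hG I hR' w
    linarith
  · have htl2 : qf (fun k => l k * tl l K'' k) w ≤ (R * η * α / 2) * qf l w := by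
      unfold qf
      rw [Finset.mul_sum]
      refine Finset.sum_le_sum fun k _ => ?_
      show l k * tl l K'' k * ‖w k‖ ^ 2 ≤ (R * η * α / 2) * (l k * ‖w k‖ ^ 2)
      unfold tl
      split_ifs with hk
      · have h1 := hK'' k hk
        have h2 : 0 ≤ l k * ‖w k‖ ^ 2 := mul_nonneg (hl k) (by positivity)
        nlinarith
      · have h2 : 0 ≤ l k * ‖w k‖ ^ 2 := mul_nonneg (hl k) (by positivity)
        have h3 : 0 ≤ (R : ℝ) * η * α / 2 := by positivity
        have := mul_nonneg h3 h2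
        simpa using this
    have htl3 : (R * η * α / 2) * qf l w ≤ (R * η * α / 2) * E0 :=
      mul_le_mul_of_nonneg_left hw (by positivity)
    have hsum : D = qf (fun k => l k * hd l K'' k) w + qf (fun k => l k * tl l K'' k) w := by
      rw [hD]
      unfold qf
      rw [← Finset.sum_add_distrib]
      refine Finset.sum_congr rfl fun k _ => ?_
      show l k ^ 2 * ‖w k‖ ^ 2 = l k * hd l K'' k * ‖w k‖ ^ 2 + l k * tl l K'' k * ‖w k‖ ^ 2
      unfold hd tl
      by_cases hk : (k : ℕ) < K''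
      · rw [if_pos hk, if_neg (not_le.mpr hk)]; ring
      · rw [if_neg hk, if_pos (not_lt.mp hk)]; ring
    have h4 : 0 ≤ 4 * s * D := by positivity
    nlinarith

end Pool.Agent.Helper579.Cg
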