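import Mathlib
import Pool.Agent.Helper579.CgDefs

set_option autoImplicit false

namespace Pool.Agent.Helper579.Cg

open Matrix

lemma dot_unitary {n : ℕ} (U : Matrix.unitaryGroup (Fin n) ℂ) (v z : Fin n → ℂ) :
    star ((U : Matrix (Fin n) (Fin n) ℂ) *ᵥ v) ⬝ᵥ ((U : Matrix (Fin n) (Fin n) ℂ) *ᵥ z)
      = star v ⬝ᵥ z := by
  have h : (star (U : Matrix (Fin n) (Fin n) ℂ)) * (U : Matrix (Fin n) (Fin n) ℂ) = 1 :=
    Matrix.mem_unitaryGroup_iff'.1 U.2
  rw [star_mulVec, ← dotProduct_mulVec, mulVec_mulVec, ← star_eq_conjTranspose, h, one_mulVec]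

lemma star_U_mulVec {n : ℕ} (U : Matrix.unitaryGroup (Fin n) ℂ) (v : Fin n → ℂ) :
    star (U : Matrix (Fin n) (Fin n) ℂ) *ᵥ ((U : Matrix (Fin n) (Fin n) ℂ) *ᵥ v) = v := by
  have h : (star (U : Matrix (Fin n) (Fin n) ℂ)) * (U : Matrix (Fin n) (Fin n) ℂ) = 1 :=
    Matrix.mem_unitaryGroup_iff'.1 U.2
  rw [mulVec_mulVec, h, one_mulVec]

lemma U_star_mulVec {n : ℕ} (U : Matrix.unitaryGroup (Fin n) ℂ) (v : Fin n → ℂ) :
    (U : Matrix (Fin n) (Fin n) ℂ) *ᵥ (star (U : Matrix (Fin n) (Fin n) ℂ) *ᵥ v) = v := by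
  have h : (U : Matrix (Fin n) (Fin n) ℂ) * (star (U : Matrix (Fin n) (Fin n) ℂ)) = 1 :=
    Matrix.mem_unitaryGroup_iff.1 U.2
  rw [mulVec_mulVec, h, one_mulVec]

lemma A_mulVec {n : ℕ} (lam : Fin n → ℝ) (U : Matrix.unitaryGroup (Fin n) ℂ)
    (w : Fin n → ℂ) :
    ((U : Matrix (Fin n) (Fin n) ℂ) * Matrix.diagonal (fun k => (lam k : ℂ)) *
      star (U : Matrix (Fin n) (Fin n) ℂ)) *ᵥ ((U : Matrix (Fin n) (Fin n) ℂ) *ᵥ w)
      = (U : Matrix (Fin n) (Fin n) ℂ) *ᵥ (fun k => (lam k : ℂ) * w k) := by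
  rw [← mulVec_mulVec, star_U_mulVec, ← mulVec_mulVec]
  congr 1
  ext k
  rw [mulVec_diagonal]

lemma A_pow_mulVec {n : ℕ} (lam : Fin n → ℝ) (U : Matrix.unitaryGroup (Fin n) ℂ)
    (w : Fin n → ℂ) (j : ℕ) :
    (((U : Matrix (Fin n) (Fin n) ℂ) * Matrix.diagonal (fun k => (lam k : ℂ)) *
      star (U : Matrix (Fin n) (Fin n) ℂ)) ^ j) *ᵥ ((U : Matrix (Fin n) (Fin n) ℂ) *ᵥ w)
      = (U : Matrix (Fin n) (Fin n) ℂ) *ᵥ (fun k => (lam k : ℂ) ^ j * w k) := by
  induction j generalizing w with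
  | zero => simp
  | succ j ih =>
    rw [pow_succ, ← mulVec_mulVec, A_mulVec, ih]
    congr 1
    ext k
    ring

lemma energy_diag {n : ℕ} (lam : Fin n → ℝ) (U : Matrix.unitaryGroup (Fin n) ℂ)
    (w : Fin n → ℂ) :
    energy ((U : Matrix (Fin n) (Fin n) ℂ) * Matrix.diagonal (fun k => (lam k : ℂ)) *
      star (U : Matrix (Fin n) (Fin n) ℂ)) ((U : Matrix (Fin n) (Fin n) ℂ) *ᵥ w)
      = ∑ k, lam k * ‖w k‖ ^ 2 := by
  unfold energy
  rw [A_mulVec, dot_unitary]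
  simp only [dotProduct, Pi.star_apply, Complex.re_sum]
  apply Finset.sum_congr rfl
  intro k _
  rw [← Complex.normSq_eq_norm_sq, Complex.normSq_apply]
  have : star (w k) = (starRingEnd ℂ) (w k) := rfl
  rw [this]
  simp
  ring

lemma mem_krylov {n : ℕ} (lam : Fin n → ℝ) (U : Matrix.unitaryGroup (Fin n) ℂ)
    (w : Fin n → ℂ) (t : ℕ) (x : Fin n → ℂ) :
    x ∈ krylov ((U : Matrix (Fin n) (Fin n) ℂ) * Matrix.diagonal (fun k => (lam k : ℂ)) *
      star (U : Matrix (Fin n) (Fin n) ℂ)) (((U : Matrix (Fin n) (Fin n) ℂ) *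
      Matrix.diagonal (fun k => (lam k : ℂ)) *
      star (U : Matrix (Fin n) (Fin n) ℂ)) *ᵥ ((U : Matrix (Fin n) (Fin n) ℂ) *ᵥ w)) t ↔
    ∃ c : Fin t → ℂ, x = (U : Matrix (Fin n) (Fin n) ℂ) *ᵥ
      (fun k => (∑ j : Fin t, c j * (lam k : ℂ) ^ ((j : ℕ) + 1)) * w k) := by
  unfold krylov
  rw [A_mulVec]
  have hset : {v | ∃ j < t, v = (((U : Matrix (Fin n) (Fin n) ℂ) *
      Matrix.diagonal (fun k => (lam k : ℂ)) * star (U : Matrix (Fin n) (Fin n) ℂ)) ^ j) *ᵥ
      ((U : Matrix (Fin n) (Fin n) ℂ) *ᵥ (fun k => (lam k : ℂ) * w k))} =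
      Set.range (fun j : Fin t => (U : Matrix (Fin n) (Fin n) ℂ) *ᵥ
        (fun k => (lam k : ℂ) ^ ((j : ℕ) + 1) * w k)) := by
    ext v
    simp only [Set.mem_range, A_pow_mulVec]
    constructor
    · rintro ⟨j, hj, rfl⟩
      refine ⟨⟨j, hj⟩, ?_⟩
      simp only
      congr 1
      ext k
      ring
    · rintro ⟨j, rfl⟩
      refine ⟨j, j.2, ?_⟩
      congr 1
      ext k
      ring
  rw [hset, Submodule.mem_span_range_iff_exists_fun]
  have hsum : ∀ c : Fin t → ℂ, ∑ j, c j • ((U : Matrix (Fin n) (Fin n) ℂ) *ᵥ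
        (fun k => (lam k : ℂ) ^ ((j : ℕ) + 1) * w k)) = (U : Matrix (Fin n) (Fin n) ℂ) *ᵥ
      (fun k => (∑ j : Fin t, c j * (lam k : ℂ) ^ ((j : ℕ) + 1)) * w k) := by
    intro c
    have : (fun k => (∑ j : Fin t, c j * (lam k : ℂ) ^ ((j : ℕ) + 1)) * w k) =
        ∑ j : Fin t, c j • (fun k => (lam k : ℂ) ^ ((j : ℕ) + 1) * w k) := by
      ext k
      simp only [Finset.sum_apply, Pi.smul_apply, smul_eq_mul, Finset.sum_mul]
      apply Finset.sum_congr rfl
      intro j _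
      ring
    rw [this]
    have h2 := map_sum (Matrix.mulVecLin (U : Matrix (Fin n) (Fin n) ℂ))
      (fun j : Fin t => c j • (fun k => (lam k : ℂ) ^ ((j : ℕ) + 1) * w k)) Finset.univ
    simp only [mulVecLin_apply, mulVec_smul] at h2
    exact h2.symm
  constructor
  · rintro ⟨c, hc⟩
    exact ⟨c, by rw [← hsum, hc]⟩
  · rintro ⟨c, hc⟩
    exact ⟨c, by rw [hsum, hc]⟩

lemma energy_sub {n : ℕ} (lam : Fin n → ℝ) (U : Matrix.unitaryGroup (Fin n) ℂ)
    (w : Fin n → ℂ) (s : Fin n → ℂ) :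
    energy ((U : Matrix (Fin n) (Fin n) ℂ) * Matrix.diagonal (fun k => (lam k : ℂ)) *
      star (U : Matrix (Fin n) (Fin n) ℂ)) ((U : Matrix (Fin n) (Fin n) ℂ) *ᵥ
      (fun k => s k * w k) - (U : Matrix (Fin n) (Fin n) ℂ) *ᵥ w)
      = ∑ k, lam k * ‖1 - s k‖ ^ 2 * ‖w k‖ ^ 2 := by
  rw [← mulVec_sub, energy_diag]
  apply Finset.sum_congr rfl
  intro k _
  have : ((fun k => s k * w k) - w) k = -((1 - s k) * w k) := by
    simp only [Pi.sub_apply]; ring
  rw [this, norm_neg, norm_mul]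
  ring

lemma cg_iff {n : ℕ} (lam : Fin n → ℝ) (hl : ∀ k, 0 < lam k)
    (U : Matrix.unitaryGroup (Fin n) ℂ) (w : Fin n → ℂ) (ε : ℝ) (t : ℕ)
    (A : Matrix (Fin n) (Fin n) ℂ)
    (hA : A = (U : Matrix (Fin n) (Fin n) ℂ) * Matrix.diagonal (fun k => (lam k : ℂ)) *
      star (U : Matrix (Fin n) (Fin n) ℂ)) :
    (∃ x, IsCGIterate A ((U : Matrix (Fin n) (Fin n) ℂ) *ᵥ w) t x ∧
      energy A (x - (U : Matrix (Fin n) (Fin n) ℂ) *ᵥ w)
        ≤ ε * energy A (0 - (U : Matrix (Fin n) (Fin n) ℂ) *ᵥ w)) ↔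
    ∃ q : Polynomial ℝ, q.natDegree ≤ t ∧ q.eval 0 = 1 ∧
      ∑ k, lam k * (q.eval (lam k)) ^ 2 * ‖w k‖ ^ 2 ≤ ε * ∑ k, lam k * ‖w k‖ ^ 2 := by
  subst hA
  have hE0 : energy ((U : Matrix (Fin n) (Fin n) ℂ) * Matrix.diagonal (fun k => (lam k : ℂ)) *
      star (U : Matrix (Fin n) (Fin n) ℂ)) (0 - (U : Matrix (Fin n) (Fin n) ℂ) *ᵥ w) =
      ∑ k, lam k * ‖w k‖ ^ 2 := by
    have h := energy_sub lam U w (fun _ => 0)
    have h0 : (fun k : Fin n => (0 : ℂ) * w k) = 0 := by ext k; simp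
    simp only [h0, mulVec_zero] at h
    rw [h]
    simp
  rw [hE0]
  constructor
  · rintro ⟨x, ⟨hx, -⟩, hxe⟩
    obtain ⟨c, rfl⟩ := (mem_krylov lam U w t x).1 hx
    rw [energy_sub] at hxe
    refine ⟨1 - Polynomial.X * ∑ j : Fin t, Polynomial.C (c j).re * Polynomial.X ^ (j : ℕ), ?_, ?_, ?_⟩
    · refine (Polynomial.natDegree_sub_le _ _).trans ?_
      rw [Polynomial.natDegree_one, max_eq_right (Nat.zero_le _)]
      rcases Nat.eq_zero_or_pos t with rfl | ht
      · simp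
      · refine (Polynomial.natDegree_mul_le).trans ?_
        rw [Polynomial.natDegree_X]
        have : (∑ j : Fin t, Polynomial.C (c j).re * Polynomial.X ^ (j : ℕ)).natDegree ≤ t - 1 := by
          apply Polynomial.natDegree_sum_le_of_forall_le
          intro j _
          refine (Polynomial.natDegree_C_mul_X_pow_le _ _).trans ?_
          have := j.2
          omega
        omega
    · simp
    · refine le_trans (Finset.sum_le_sum fun k _ => ?_) hxe
      have hk := (hl k).le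
      have h1 : (Polynomial.eval (lam k) (1 - Polynomial.X * ∑ j : Fin t,
          Polynomial.C (c j).re * Polynomial.X ^ (j : ℕ))) =
          (1 - ∑ j : Fin t, c j * (lam k : ℂ) ^ ((j : ℕ) + 1)).re := by
        simp only [Polynomial.eval_sub, Polynomial.eval_one, Polynomial.eval_mul, Polynomial.eval_X,
          Polynomial.eval_finset_sum, Polynomial.eval_C, Polynomial.eval_pow, Complex.sub_re,
          Complex.one_re, Complex.re_sum, Finset.mul_sum]
        congr 1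
        apply Finset.sum_congr rfl
        intro j _
        rw [← Complex.ofReal_pow, Complex.re_mul_ofReal]
        ring
      rw [h1]
      have h2 : ((1 - ∑ j : Fin t, c j * (lam k : ℂ) ^ ((j : ℕ) + 1)).re) ^ 2 ≤
          ‖1 - ∑ j : Fin t, c j * (lam k : ℂ) ^ ((j : ℕ) + 1)‖ ^ 2 := by
        rw [← sq_abs]
        exact pow_le_pow_left₀ (abs_nonneg _) (Complex.abs_re_le_norm _) 2
      gcongr
  · rintro ⟨q, hq1, hq2, hq3⟩
    -- the minimiser
    set A : Matrix (Fin n) (Fin n) ℂ := (U : Matrix (Fin n) (Fin n) ℂ) *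
      Matrix.diagonal (fun k => (lam k : ℂ)) * star (U : Matrix (Fin n) (Fin n) ℂ) with hA
    set xs : Fin n → ℂ := (U : Matrix (Fin n) (Fin n) ℂ) *ᵥ w with hxs
    let T : (Fin n → ℂ) →ₗ[ℂ] EuclideanSpace ℂ (Fin n) :=
      { toFun := fun v => WithLp.toLp 2
          (fun k => ((Real.sqrt (lam k) : ℝ) : ℂ) * (star (U : Matrix (Fin n) (Fin n) ℂ) *ᵥ v) k)
        map_add' := by
          intro v v'
          ext k
          simp [mulVec_add, mul_add]
        map_smul' := by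
          intro c v
          ext k
          simp [mulVec_smul]
          ring }
    have hT : ∀ v, energy A v = ‖T v‖ ^ 2 := by
      intro v
      have h1 : energy A v = ∑ k, lam k * ‖(star (U : Matrix (Fin n) (Fin n) ℂ) *ᵥ v) k‖ ^ 2 := by
        have := energy_diag lam U (star (U : Matrix (Fin n) (Fin n) ℂ) *ᵥ v)
        rw [U_star_mulVec] at this
        exact this
      rw [h1, EuclideanSpace.norm_sq_eq]
      apply Finset.sum_congr rfl
      intro k _
      change _ = ‖((Real.sqrt (lam k) : ℝ) : ℂ) *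
        (star (U : Matrix (Fin n) (Fin n) ℂ) *ᵥ v) k‖ ^ 2
      rw [norm_mul, mul_pow, Complex.norm_real, Real.norm_eq_abs, sq_abs, Real.sq_sqrt (hl k).le]
    set Kt := krylov A (A *ᵥ xs) t with hKt
    have hcomp : IsComplete ((Submodule.map T Kt : Submodule ℂ (EuclideanSpace ℂ (Fin n))) :
        Set (EuclideanSpace ℂ (Fin n))) := Submodule.complete_of_finiteDimensional _
    obtain ⟨v, hv, hvmin⟩ := Submodule.exists_norm_eq_iInf_of_complete_subspace
      (Submodule.map T Kt) hcomp (T xs)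
    obtain ⟨x, hx, rfl⟩ := hv
    have hmin : ∀ y ∈ Kt, energy A (x - xs) ≤ energy A (y - xs) := by
      intro y hy
      rw [hT, hT]
      apply pow_le_pow_left₀ (norm_nonneg _)
      have h1 : ‖T xs - T x‖ ≤ ‖T xs - T y‖ := by
        rw [hvmin]
        have hbdd : BddBelow (Set.range fun w : (Submodule.map T Kt) =>
            ‖T xs - (w : EuclideanSpace ℂ (Fin n))‖) := ⟨0, by rintro _ ⟨w, rfl⟩; exact norm_nonneg _⟩
        exact ciInf_le hbdd ⟨T y, Submodule.mem_map_of_mem hy⟩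
      rw [map_sub, map_sub, norm_sub_rev, norm_sub_rev (T y)]
      exact h1
    refine ⟨x, ⟨hx, hmin⟩, ?_⟩
    -- the competitor
    set s : Fin n → ℂ := fun k => 1 - ((q.eval (lam k) : ℝ) : ℂ) with hs
    have hy : (U : Matrix (Fin n) (Fin n) ℂ) *ᵥ (fun k => s k * w k) ∈ Kt := by
      rw [hKt]
      refine (mem_krylov lam U w t _).2 ⟨fun j => -((q.coeff ((j : ℕ) + 1) : ℝ) : ℂ), ?_⟩
      congr 1
      ext k
      congr 1
      have h1 : q.eval (lam k) = ∑ j ∈ Finset.range (t + 1), q.coeff j * lam k ^ j :=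
        Polynomial.eval_eq_sum_range' (by omega) _
      rw [Finset.sum_range_succ'] at h1
      have h2 : q.coeff 0 = 1 := by rw [Polynomial.coeff_zero_eq_eval_zero, hq2]
      rw [h2, pow_zero, mul_one] at h1
      simp only [hs]
      rw [h1, Finset.sum_range]
      push_cast
      simp only [neg_mul, Finset.sum_neg_distrib]
      ring
    have h2 := hmin _ hy
    have h3 : energy A ((U : Matrix (Fin n) (Fin n) ℂ) *ᵥ (fun k => s k * w k) - xs) =
        ∑ k, lam k * (q.eval (lam k)) ^ 2 * ‖w k‖ ^ 2 := by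
      rw [hA, hxs, energy_sub]
      apply Finset.sum_congr rfl
      intro k _
      simp only [hs, sub_sub_cancel]
      rw [Complex.norm_real, Real.norm_eq_abs, sq_abs]
    rw [h3] at h2
    exact h2.trans hq3

end Pool.Agent.Helper579.Cg
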