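import Mathlib
import Pool.Agent.Helper579.CgDefs
import Pool.Agent.Helper579.CgIff
import Pool.Agent.Helper579.CgRcd3

set_option autoImplicit false

namespace Pool.Agent.Helper579.Cg

open MeasureTheory Filter Matrix
open scoped ENNReal Topology ComplexConjugate

variable {n : ℕ}

/-- the matrix of a unitary -/
def um (U : Un n) : Fin n → Fin n → ℂ := fun i k => (U : Matrix (Fin n) (Fin n) ℂ) i k

lemma um_colOrth (U : Un n) : ColOrth (um U) := by
  intro k l
  have h : (star (U : Matrix (Fin n) (Fin n) ℂ)) * (U : Matrix (Fin n) (Fin n) ℂ) = 1 :=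
    Matrix.mem_unitaryGroup_iff'.1 U.2
  have h2 := congrFun (congrFun h k) l
  rw [Matrix.mul_apply, Matrix.one_apply] at h2
  rw [← h2]
  rfl

/-- rows have norm one -/
lemma row_norm (U : Un n) (i : Fin n) : ∑ k, ‖um U i k‖ ^ 2 = 1 := by
  have h : (U : Matrix (Fin n) (Fin n) ℂ) * (star (U : Matrix (Fin n) (Fin n) ℂ)) = 1 :=
    Matrix.mem_unitaryGroup_iff.1 U.2
  have h2 := congrFun (congrFun h i) i
  rw [Matrix.mul_apply, Matrix.one_apply, if_pos rfl] at h2
  have h3 := congrArg Complex.re h2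
  rw [Complex.re_sum, Complex.one_re] at h3
  rw [← h3]
  apply Finset.sum_congr rfl
  intro k _
  have : (star (U : Matrix (Fin n) (Fin n) ℂ)) k i = conj (um U i k) := rfl
  rw [this]
  change ‖um U i k‖ ^ 2 = (um U i k * conj (um U i k)).re
  rw [Complex.mul_conj, Complex.ofReal_re, Complex.normSq_eq_norm_sq]

lemma lam_pos (p : ℝ) (k : Fin n) : 0 < lam p k := by
  unfold lam
  positivity

lemma aa_pos {l : Fin n → ℝ} (hl : ∀ k, 0 < l k) (U : Un n) (i : Fin n) : 0 < aa (um U) l i := by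
  unfold aa
  apply Finset.sum_pos' (fun k _ => mul_nonneg (hl k).le (sq_nonneg _))
  by_contra h
  push Not at h
  have h2 : ∀ k, ‖um U i k‖ ^ 2 = 0 := by
    intro k
    have h3 := h k (Finset.mem_univ k)
    have h4 : 0 ≤ ‖um U i k‖ ^ 2 := sq_nonneg _
    have h5 := hl k
    nlinarith
  have h3 := row_norm U i
  simp only [h2, Finset.sum_const_zero] at h3
  exact zero_ne_one h3

lemma matA_diag (p : ℝ) (U : Un n) (i : Fin n) : matA p U i i = ((aa (um U) (lam p) i : ℝ) : ℂ) := by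
  unfold matA aa
  rw [Matrix.mul_apply]
  push_cast
  apply Finset.sum_congr rfl
  intro k _
  rw [Matrix.mul_diagonal]
  have h1 : (star (U : Matrix (Fin n) (Fin n) ℂ)) k i = conj (um U i k) := rfl
  rw [h1]
  change um U i k * _ * conj (um U i k) = _
  have h2 : um U i k * (lam p k : ℂ) * conj (um U i k)
      = (lam p k : ℂ) * (um U i k * conj (um U i k)) := by ring
  rw [h2, Complex.mul_conj, Complex.normSq_eq_norm_sq]
  push_cast
  ring

lemma matA_trace (p : ℝ) (U : Un n) : (matA p U).trace.re = ∑ k : Fin n, lam p k := by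
  unfold Matrix.trace
  rw [Complex.re_sum, ← sum_aa (um_colOrth U) (lam p)]
  apply Finset.sum_congr rfl
  intro i _
  rw [Matrix.diag_apply, matA_diag, Complex.ofReal_re]

/-- the link between the iterates and the states in the eigenbasis -/
lemma iter_link (p : ℝ) (U : Un n) (z : Fin n → ℂ) (ω : ℕ → Fin n) : ∀ t : ℕ,
    z - iter (matA p U) (matA p U *ᵥ z) ω t
      = (U : Matrix (Fin n) (Fin n) ℂ) *ᵥ
        path (stp (um U) (lam p)) (star (U : Matrix (Fin n) (Fin n) ℂ) *ᵥ z) ω t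
  | 0 => by
    simp only [iter, path, sub_zero]
    rw [U_star_mulVec]
  | t + 1 => by
    have ih := iter_link p U z ω t
    simp only [iter, path]
    set x := iter (matA p U) (matA p U *ᵥ z) ω t with hx
    set w := path (stp (um U) (lam p)) (star (U : Matrix (Fin n) (Fin n) ℂ) *ᵥ z) ω t with hw
    unfold step
    have h1 : matA p U *ᵥ z - matA p U *ᵥ x = (U : Matrix (Fin n) (Fin n) ℂ) *ᵥ
        (fun k => (lam p k : ℂ) * w k) := by
      rw [← Matrix.mulVec_sub, ih]
      unfold matA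
      exact A_mulVec (lam p) U w
    have h2 : (matA p U *ᵥ z - matA p U *ᵥ x) (ω t) = rr (um U) (lam p) w (ω t) := by
      rw [h1]
      rfl
    rw [h2, matA_diag]
    have h3 : (U : Matrix (Fin n) (Fin n) ℂ) *ᵥ stp (um U) (lam p) w (ω t)
        = (U : Matrix (Fin n) (Fin n) ℂ) *ᵥ w
          - (rr (um U) (lam p) w (ω t) / (aa (um U) (lam p) (ω t) : ℂ)) •
            (Pi.single (ω t) 1 : Fin n → ℂ) := by
      have h4 : stp (um U) (lam p) w (ω t) = w
          - (rr (um U) (lam p) w (ω t) / (aa (um U) (lam p) (ω t) : ℂ)) •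
            (star (U : Matrix (Fin n) (Fin n) ℂ) *ᵥ (Pi.single (ω t) 1 : Fin n → ℂ)) := by
        ext k
        unfold stp
        rw [Pi.sub_apply, Pi.smul_apply, Matrix.mulVec_single_one]
        rfl
      rw [h4, Matrix.mulVec_sub, Matrix.mulVec_smul, U_star_mulVec]
    rw [h3, ← ih]
    abel

lemma energy_neg (A : Matrix (Fin n) (Fin n) ℂ) (v : Fin n → ℂ) : energy A (-v) = energy A v := by
  unfold energy
  rw [Matrix.mulVec_neg, star_neg, neg_dotProduct_neg]

lemma energy_iter (p : ℝ) (U : Un n) (z : Fin n → ℂ) (ω : ℕ → Fin n) (t : ℕ) :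
    energy (matA p U) (iter (matA p U) (matA p U *ᵥ z) ω t - z)
      = qf (lam p) (path (stp (um U) (lam p)) (star (U : Matrix (Fin n) (Fin n) ℂ) *ᵥ z) ω t) := by
  rw [← energy_neg, neg_sub, iter_link]
  exact energy_diag (lam p) U _

/-- the stopping time of the coordinate descent in the eigenbasis -/
noncomputable def trcd (U : Fin n → Fin n → ℂ) (l : Fin n → ℝ) (ε : ℝ) (w : Fin n → ℂ)
    (ω : ℕ → Fin n) : ℕ∞ :=
  sInf {T | ∃ t : ℕ, T = t ∧ qf l (path (stp U l) w ω t) ≤ ε * qf l w}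

/-- the stopping time of conjugate gradients in the eigenbasis -/
noncomputable def tcg (l : Fin n → ℝ) (ε : ℝ) (ξ : Fin n → ℝ) : ℕ∞ :=
  sInf {T | ∃ t : ℕ, T = t ∧ ∃ q : Polynomial ℝ, q.natDegree ≤ t ∧ q.eval 0 = 1 ∧
    ∑ k, l k * (q.eval (l k)) ^ 2 * ξ k ≤ ε * ∑ k, l k * ξ k}

lemma TRCD_eq (p : ℝ) (U : Un n) (z : Fin n → ℂ) (ε : ℝ) (ω : ℕ → Fin n) :
    TRCD (matA p U) z ε ω
      = trcd (um U) (lam p) ε (star (U : Matrix (Fin n) (Fin n) ℂ) *ᵥ z) ω := by
  unfold TRCD trcd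
  congr 1
  ext T
  simp only [Set.mem_ofPred_eq]
  apply exists_congr
  intro t
  rw [energy_iter]
  have h := energy_iter p U z ω 0
  simp only [iter, path] at h
  rw [h]

lemma TCG_eq (p : ℝ) (U : Un n) (z : Fin n → ℂ) (ε : ℝ) :
    TCG (matA p U) z ε = tcg (lam p) ε
      (fun k => ‖(star (U : Matrix (Fin n) (Fin n) ℂ) *ᵥ z) k‖ ^ 2) := by
  unfold TCG tcg
  congr 1
  ext T
  simp only [Set.mem_ofPred_eq]
  apply exists_congr
  intro t
  have h := cg_iff (lam p) (lam_pos p) U (star (U : Matrix (Fin n) (Fin n) ℂ) *ᵥ z) ε t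
    (matA p U) rfl
  rw [U_star_mulVec] at h
  rw [h]

section times

variable {U : Fin n → Fin n → ℂ} {l : Fin n → ℝ}

lemma trcd_le {ε : ℝ} {w : Fin n → ℂ} {ω : ℕ → Fin n} {t : ℕ}
    (h : qf l (path (stp U l) w ω t) ≤ ε * qf l w) : trcd U l ε w ω ≤ t :=
  sInf_le ⟨t, rfl, h⟩

lemma lt_trcd (ha : ∀ i, 0 < aa U l i) {ε : ℝ} {w : Fin n → ℂ} {ω : ℕ → Fin n} {t : ℕ}
    (h : ε * qf l w < qf l (path (stp U l) w ω t)) : ((t + 1 : ℕ) : ℕ∞) ≤ trcd U l ε w ω := by
  apply le_sInf
  rintro T ⟨m, rfl, hm⟩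
  have : t < m := by
    by_contra h2
    push Not at h2
    have := path_le (U := U) (l := l) ha w ω h2
    linarith
  exact_mod_cast this

lemma tcg_le {ε : ℝ} {ξ : Fin n → ℝ} {t : ℕ} {q : Polynomial ℝ} (hq : q.natDegree ≤ t)
    (h0 : q.eval 0 = 1)
    (h : ∑ k, l k * (q.eval (l k)) ^ 2 * ξ k ≤ ε * ∑ k, l k * ξ k) : tcg l ε ξ ≤ t :=
  sInf_le ⟨t, rfl, q, hq, h0, h⟩

lemma lt_tcg {ε : ℝ} {ξ : Fin n → ℝ} {t : ℕ}
    (h : ∀ q : Polynomial ℝ, q.natDegree ≤ t → q.eval 0 = 1 →
      ε * ∑ k, l k * ξ k < ∑ k, l k * (q.eval (l k)) ^ 2 * ξ k) :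
    ((t + 1 : ℕ) : ℕ∞) ≤ tcg l ε ξ := by
  apply le_sInf
  rintro T ⟨m, rfl, q, hq, h0, hm⟩
  have : t < m := by
    by_contra h2
    push Not at h2
    have := h q (hq.trans h2) h0
    linarith
  exact_mod_cast this

lemma tcg_smul {ε r : ℝ} (hr : 0 < r) (ξ : Fin n → ℝ) :
    tcg l ε (fun k => r * ξ k) = tcg l ε ξ := by
  unfold tcg
  congr 1
  ext T
  simp only [Set.mem_ofPred_eq]
  apply exists_congr
  intro t
  apply and_congr_right
  intro _
  apply exists_congr
  intro q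
  apply and_congr_right
  intro _
  apply and_congr_right
  intro _
  have h1 : ∑ k, l k * (q.eval (l k)) ^ 2 * (r * ξ k)
      = r * ∑ k, l k * (q.eval (l k)) ^ 2 * ξ k := by
    rw [Finset.mul_sum]
    exact Finset.sum_congr rfl fun k _ => by ring
  have h2 : ε * ∑ k, l k * (r * ξ k) = r * (ε * ∑ k, l k * ξ k) := by
    rw [Finset.mul_sum, Finset.mul_sum, Finset.mul_sum]
    exact Finset.sum_congr rfl fun k _ => by ring
  rw [h1, h2]
  exact mul_le_mul_iff_right₀ hr

end times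

/-- the law of the coordinates -/
lemma idx_apply (p : ℝ) (U : Un n) (i : Fin n) :
    idx (matA p U) {i} = ENNReal.ofReal (pp (um U) (lam p) i) := by
  unfold idx
  rw [Measure.sum_apply _ (measurableSet_singleton i), tsum_fintype]
  rw [Finset.sum_eq_single i]
  · rw [Measure.smul_apply, Measure.dirac_apply' _ (measurableSet_singleton i)]
    rw [Set.indicator_of_mem (Set.mem_singleton i), Pi.one_apply, smul_eq_mul, mul_one,
      matA_diag, Complex.ofReal_re, matA_trace]
    rfl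
  · intro j _ hj
    rw [Measure.smul_apply, Measure.dirac_apply' _ (measurableSet_singleton i),
      Set.indicator_of_notMem (by simpa using hj), smul_zero]
  · intro h
    exact absurd (Finset.mem_univ i) h

lemma sum_lam_pos (p : ℝ) (hn : 1 ≤ n) : 0 < ∑ k : Fin n, lam p k := by
  have : Nonempty (Fin n) := ⟨⟨0, hn⟩⟩
  exact Finset.sum_pos (fun k _ => lam_pos p k) Finset.univ_nonempty

lemma idx_prob (p : ℝ) (hn : 1 ≤ n) (U : Un n) : IsProbabilityMeasure (idx (matA p U)) := by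
  constructor
  have h : idx (matA p U) Set.univ = ∑ i, idx (matA p U) {i} := by
    rw [← measure_biUnion_finset]
    · congr 1
      ext x
      simp
    · intro i _ j _ hij
      simpa using hij
    · intro i _
      exact measurableSet_singleton i
  rw [h]
  simp only [idx_apply]
  rw [← ENNReal.ofReal_sum_of_nonneg
    (fun i _ => pp_nonneg (fun k => (lam_pos p k).le) i),
    sum_pp (um_colOrth U) (sum_lam_pos p hn), ENNReal.ofReal_one]

lemma idx_toReal (p : ℝ) (U : Un n) :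
    (fun i => (idx (matA p U) {i}).toReal) = pp (um U) (lam p) := by
  ext i
  rw [idx_apply, ENNReal.toReal_ofReal (pp_nonneg (fun k => (lam_pos p k).le) i)]

end Pool.Agent.Helper579.Cg
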