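import Mathlib
import Pool.Agent.Helper579.CgDefs
import Pool.Agent.Helper579.CgGam

set_option autoImplicit false

namespace Pool.Agent.Helper579.Cg

open MeasureTheory Matrix
open scoped ENNReal

lemma sph_prob (n : ℕ) (hn : 1 ≤ n) : IsProbabilityMeasure (sph n) := by
  have : Nonempty (Fin n) := ⟨⟨0, hn⟩⟩
  constructor
  unfold sph
  rw [Measure.smul_apply, smul_eq_mul]
  refine ENNReal.inv_mul_cancel ?_ (measure_ne_top _ _)
  intro h
  rw [Measure.measure_univ_eq_zero] at h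
  exact Measure.toSphere_ne_zero _ h

noncomputable def dd (z : ℂ) : ℝ≥0∞ := ENNReal.ofReal (Real.exp (-‖z‖ ^ 2) / Real.pi)

lemma dd_meas : Measurable dd := by
  unfold dd
  fun_prop

lemma lint_prod_c (n : ℕ) (f : Fin n → ℂ → ℝ≥0∞) (hf : ∀ i, Measurable (f i)) :
    ∫⁻ x : Fin n → ℂ, ∏ i, f i (x i) = ∏ i, ∫⁻ z, f i z := by
  induction n with
  | zero =>
    simp only [Finset.univ_eq_empty, Finset.prod_empty, lintegral_const, one_mul]
    rw [volume_pi, Measure.pi_empty_univ]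
  | succ n ih =>
    have hm : Measurable (fun x : Fin (n + 1) → ℂ => ∏ i, f i (x i)) :=
      Finset.measurable_fun_prod _ fun i _ => (hf i).comp (measurable_pi_apply i)
    rw [← ((volume_preserving_piFinSuccAbove (fun _ : Fin (n + 1) => ℂ) 0).symm).lintegral_comp hm]
    simp only [MeasurableEquiv.piFinSuccAbove_symm_apply, Fin.insertNthEquiv,
            Fin.prod_univ_succ, Fin.insertNth_zero, Equiv.coe_fn_mk, Fin.cons_succ,
            Fin.zero_succAbove, cast_eq, Fin.cons_zero]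
    have hm2 : Measurable (fun x : Fin n → ℂ => ∏ i, f (Fin.succ i) (x i)) :=
      Finset.measurable_fun_prod _ fun i _ => (hf (Fin.succ i)).comp (measurable_pi_apply i)
    have h3 := lintegral_prod_mul (μ := (volume : Measure ℂ)) (ν := (volume : Measure (Fin n → ℂ)))
      (hf 0).aemeasurable hm2.aemeasurable
    rw [ih (fun i => f (Fin.succ i)) (fun i => hf (Fin.succ i))] at h3
    exact h3

lemma pi_gam_dd (n : ℕ) : (Measure.pi fun _ : Fin n => gam) =
    (volume : Measure (Fin n → ℂ)).withDensity (fun x => ∏ i, dd (x i)) := by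
  have : SigmaFinite gam := SigmaFinite.withDensity_of_ne_top (by simp)
  refine Measure.pi_eq fun s hs => ?_
  rw [withDensity_apply _ (MeasurableSet.univ_pi hs), ← lintegral_indicator (MeasurableSet.univ_pi hs)]
  have h1 : (Set.univ.pi s).indicator (fun x : Fin n → ℂ => ∏ i, dd (x i)) =
      fun x => ∏ i, (s i).indicator dd (x i) := by
    funext x
    by_cases h : x ∈ Set.univ.pi s
    · rw [Set.indicator_of_mem h]
      refine Finset.prod_congr rfl fun i _ => ?_
      rw [Set.indicator_of_mem (h i (Set.mem_univ i))]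
    · rw [Set.indicator_of_notMem h]
      rw [Set.mem_univ_pi] at h
      push Not at h
      obtain ⟨i, hi⟩ := h
      symm
      exact Finset.prod_eq_zero (Finset.mem_univ i) (Set.indicator_of_notMem hi _)
  rw [h1, lint_prod_c n (fun i => (s i).indicator dd) (fun i => dd_meas.indicator (hs i))]
  refine Finset.prod_congr rfl fun i _ => ?_
  rw [lintegral_indicator (hs i), gam, withDensity_apply _ (hs i)]
  rfl


lemma prod_dd (n : ℕ) (x : EuclideanSpace ℂ (Fin n)) :
    ∏ i, dd (x i) = ENNReal.ofReal (Real.exp (-‖x‖ ^ 2) / Real.pi ^ n) := by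
  unfold dd
  rw [← ENNReal.ofReal_prod_of_nonneg (fun i _ => by positivity)]
  congr 1
  rw [Finset.prod_div_distrib, Finset.prod_const, Finset.card_univ, Fintype.card_fin,
    ← Real.exp_sum, EuclideanSpace.norm_sq_eq, Finset.sum_neg_distrib]

/-- polar coordinates -/
lemma polar (n : ℕ) (hn : 1 ≤ n) (H : EuclideanSpace ℂ (Fin n) → ℝ≥0∞) (hH : Measurable H) :
    ∫⁻ x, H x ∂(Measure.addHaar : Measure (EuclideanSpace ℂ (Fin n))) =
      ∫⁻ z, ∫⁻ r, H ((r : ℝ) • (z : EuclideanSpace ℂ (Fin n)))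
        ∂(Measure.volumeIoiPow (Module.finrank ℝ (EuclideanSpace ℂ (Fin n)) - 1))
        ∂(Measure.addHaar : Measure (EuclideanSpace ℂ (Fin n))).toSphere := by
  have : Nonempty (Fin n) := ⟨⟨0, hn⟩⟩
  set μ := (Measure.addHaar : Measure (EuclideanSpace ℂ (Fin n))) with hμ
  have h1 : ∫⁻ x, H x ∂μ = ∫⁻ x : ({(0)}ᶜ : Set (EuclideanSpace ℂ (Fin n))), H x
      ∂(μ.comap (↑)) := by
    rw [lintegral_subtype_comap (measurableSet_singleton _).compl (fun x => H x),
      restrict_compl_singleton]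
  have hm : Measurable (fun p : Metric.sphere (0 : EuclideanSpace ℂ (Fin n)) 1 × Set.Ioi (0 : ℝ) =>
      H ((p.2 : ℝ) • (p.1 : EuclideanSpace ℂ (Fin n)))) := by
    refine hH.comp ?_
    fun_prop
  have h2 := μ.measurePreserving_homeomorphUnitSphereProd.lintegral_comp hm
  rw [h1, ← lintegral_prod _ hm.aemeasurable, ← h2]
  refine lintegral_congr fun x => ?_
  congr 1
  have h3 := congrArg Subtype.val
    ((homeomorphUnitSphereProd (EuclideanSpace ℂ (Fin n))).symm_apply_apply x)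
  rw [homeomorphUnitSphereProd_symm_apply_coe] at h3
  exact h3.symm

/-- comparison of the Haar measures -/
lemma haar_cmp (n : ℕ) : ∃ c : ℝ≥0∞, ∀ F : (Fin n → ℂ) → ℝ≥0∞, Measurable F →
    ∫⁻ x, F x = c * ∫⁻ x, F (WithLp.ofLp x)
      ∂(Measure.addHaar : Measure (EuclideanSpace ℂ (Fin n))) := by
  let e : EuclideanSpace ℂ (Fin n) ≃L[ℝ] (Fin n → ℂ) :=
    (PiLp.continuousLinearEquiv 2 ℝ (fun _ : Fin n => ℂ))
  set μ := (Measure.addHaar : Measure (EuclideanSpace ℂ (Fin n))) with hμ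
  have : (μ.map e).IsAddHaarMeasure := e.isAddHaarMeasure_map μ
  refine ⟨(Measure.addHaarScalarFactor (volume : Measure (Fin n → ℂ)) (μ.map e) : ℝ≥0∞), ?_⟩
  intro F hF
  have h1 : (volume : Measure (Fin n → ℂ)) =
      Measure.addHaarScalarFactor (volume : Measure (Fin n → ℂ)) (μ.map e) • (μ.map e) :=
    Measure.isAddLeftInvariant_eq_smul _ _
  have h2 : ∫⁻ x, F x ∂(μ.map e) = ∫⁻ x, F (WithLp.ofLp x) ∂μ :=
    lintegral_map hF e.continuous.measurable
  rw [← h2]
  conv_lhs => rw [h1]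
  rw [lintegral_smul_measure]
  rfl

/-- the set on the left need not be measurable -/
lemma sph_le (n : ℕ) (hn : 1 ≤ n) (G : Set (Fin n → ℂ)) (hG : MeasurableSet G) :
    sph n {z | ∀ r : ℝ, 0 < r → (r • WithLp.ofLp z.1 : Fin n → ℂ) ∉ G}
      ≤ (Measure.pi fun _ : Fin n => gam) Gᶜ := by
  have : Nonempty (Fin n) := ⟨⟨0, hn⟩⟩
  obtain ⟨c, hc⟩ := haar_cmp n
  set μ := (Measure.addHaar : Measure (EuclideanSpace ℂ (Fin n))) with hμ
  have hP : Measurable (fun x : Fin n → ℂ => ∏ i, dd (x i)) :=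
    Finset.measurable_fun_prod _ fun i _ => dd_meas.comp (measurable_pi_apply i)
  let H : Set (Fin n → ℂ) → EuclideanSpace ℂ (Fin n) → ℝ≥0∞ := fun B x =>
    B.indicator (fun x : Fin n → ℂ => ∏ i, dd (x i)) (WithLp.ofLp x)
  let Φ : Set (Fin n → ℂ) → Metric.sphere (0 : EuclideanSpace ℂ (Fin n)) 1 → ℝ≥0∞ := fun B z =>
    ∫⁻ r, H B ((r : ℝ) • (z : EuclideanSpace ℂ (Fin n)))
        ∂(Measure.volumeIoiPow (Module.finrank ℝ (EuclideanSpace ℂ (Fin n)) - 1))
  let W : ℝ≥0∞ := ∫⁻ r : Set.Ioi (0 : ℝ), ENNReal.ofReal (Real.exp (-(r : ℝ) ^ 2) / Real.pi ^ n)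
        ∂(Measure.volumeIoiPow (Module.finrank ℝ (EuclideanSpace ℂ (Fin n)) - 1))
  have hHm : ∀ B, MeasurableSet B → Measurable (H B) := by
    intro B hB
    refine (hP.indicator hB).comp ?_
    exact (PiLp.continuousLinearEquiv 2 ℝ (fun _ : Fin n => ℂ)).continuous.measurable
  have hν : ∀ B, MeasurableSet B → (Measure.pi fun _ : Fin n => gam) B =
      c * ∫⁻ z, Φ B z ∂μ.toSphere := by
    intro B hB
    rw [pi_gam_dd, withDensity_apply _ hB, ← lintegral_indicator hB, hc _ (hP.indicator hB)]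
    congr 1
    exact polar n hn (H B) (hHm B hB)
  have hHz : ∀ (B : Set (Fin n → ℂ)) (z : Metric.sphere (0 : EuclideanSpace ℂ (Fin n)) 1)
      (r : Set.Ioi (0 : ℝ)), ((r : ℝ) • WithLp.ofLp z.1 : Fin n → ℂ) ∈ B →
      H B ((r : ℝ) • (z : EuclideanSpace ℂ (Fin n))) =
        ENNReal.ofReal (Real.exp (-(r : ℝ) ^ 2) / Real.pi ^ n) := by
    intro B z r hr
    show B.indicator (fun x : Fin n → ℂ => ∏ i, dd (x i)) _ = _
    rw [Set.indicator_of_mem (by exact hr)]
    have h1 := prod_dd n ((r : ℝ) • (z : EuclideanSpace ℂ (Fin n)))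
    have h2 : ‖(r : ℝ) • (z : EuclideanSpace ℂ (Fin n))‖ = r := by
      rw [norm_smul, norm_eq_of_mem_sphere z, mul_one, Real.norm_of_nonneg (le_of_lt r.2)]
    rw [h2] at h1
    exact h1
  have hΦz : ∀ (B : Set (Fin n → ℂ)) (z : Metric.sphere (0 : EuclideanSpace ℂ (Fin n)) 1),
      (∀ r : ℝ, 0 < r → (r • WithLp.ofLp z.1 : Fin n → ℂ) ∈ B) → Φ B z = W := by
    intro B z hz
    exact lintegral_congr fun r => hHz B z r (hz r r.2)
  have hone : c * W * μ.toSphere Set.univ = 1 := by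
    have hp : ∀ i : Fin n, IsProbabilityMeasure ((fun _ : Fin n => gam) i) := fun _ => probGam
    have h1 : (Measure.pi fun _ : Fin n => gam) Set.univ = 1 := by
      have := probGam
      exact measure_univ
    rw [hν _ MeasurableSet.univ] at h1
    have h2 : ∫⁻ z, Φ Set.univ z ∂μ.toSphere = W * μ.toSphere Set.univ := by
      rw [← lintegral_const]
      exact lintegral_congr fun z => hΦz _ z (fun _ _ => Set.mem_univ _)
    rw [h2, ← mul_assoc] at h1
    exact h1
  have hinv : (μ.toSphere Set.univ)⁻¹ = c * W :=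
    (ENNReal.eq_inv_of_mul_eq_one_left hone).symm
  have hΦm : Measurable (Φ Gᶜ) := by
    have hm : Measurable (fun p : Metric.sphere (0 : EuclideanSpace ℂ (Fin n)) 1 × Set.Ioi (0 : ℝ) =>
        H Gᶜ ((p.2 : ℝ) • (p.1 : EuclideanSpace ℂ (Fin n)))) := by
      refine (hHm _ hG.compl).comp ?_
      fun_prop
    exact hm.lintegral_prod_right'
  unfold sph
  rw [Measure.smul_apply, smul_eq_mul, ← hμ, hinv, hν _ hG.compl, mul_assoc]
  gcongr
  refine le_trans ?_ (mul_meas_ge_le_lintegral hΦm W)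
  gcongr
  intro hz
  exact (hΦz Gᶜ _ hz).ge

end Pool.Agent.Helper579.Cg
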