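import Mathlib
import Pool.Agent.Helper579.CgLink
import Pool.Agent.Helper579.CgSph
import Pool.Agent.Helper579.CgHaar

set_option autoImplicit false

namespace Pool.Agent.Helper579.Cg

open MeasureTheory Filter Matrix
open scoped ENNReal Topology ComplexConjugate

variable {n : ℕ}

/-- the exponential distribution of the squared moduli -/
noncomputable abbrev ex (n : ℕ) : Measure (Fin n → ℝ) := Measure.pi fun _ : Fin n => expo

/-- the squared moduli of a row are proportional to independent exponential variables (the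
sets need not be measurable) -/
lemma row_event (hn : 1 ≤ n) (i : Fin n) (G : Set (Fin n → ℝ)) :
    haarU n {U | ∀ r : ℝ, 0 < r → (fun k => r * ‖um U i k‖ ^ 2) ∉ G}
      ≤ (Measure.pi fun _ : Fin n => expo) Gᶜ := by
  have hsq : Measurable fun (g : Fin n → ℂ) (k : Fin n) => ‖g k‖ ^ 2 := by fun_prop
  set B := toMeasurable (Measure.pi fun _ : Fin n => expo) Gᶜ with hB
  have hBm : MeasurableSet B := measurableSet_toMeasurable _ _
  have h := haar_vec n hn probGam (gam_unitary n) (gam_zero n hn) (Pi.single i 1)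
    (by
      intro h
      have := congrFun h i
      simp at this)
    ((fun (g : Fin n → ℂ) (k : Fin n) => ‖g k‖ ^ 2) ⁻¹' Bᶜ) (hsq hBm.compl)
  have h2 : (Measure.pi fun _ : Fin n => gam)
      ((fun (g : Fin n → ℂ) (k : Fin n) => ‖g k‖ ^ 2) ⁻¹' Bᶜ)ᶜ
      = (Measure.pi fun _ : Fin n => expo) Gᶜ := by
    rw [← Set.preimage_compl, compl_compl, ← Measure.map_apply hsq hBm, gam_sq_pi,
      measure_toMeasurable]
  rw [h2] at h
  refine le_trans (measure_mono ?_) h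
  intro U hU r hr hmem
  have h3 := hU (r ^ 2) (by positivity)
  apply h3
  have h4 : (fun (g : Fin n → ℂ) (k : Fin n) => ‖g k‖ ^ 2)
      (r • (star (U : Matrix (Fin n) (Fin n) ℂ) *ᵥ (Pi.single i 1 : Fin n → ℂ)))
      = fun k => r ^ 2 * ‖um U i k‖ ^ 2 := by
    ext k
    change ‖(r • (star (U : Matrix (Fin n) (Fin n) ℂ) *ᵥ (Pi.single i 1 : Fin n → ℂ))) k‖ ^ 2 = _
    rw [Pi.smul_apply, Matrix.mulVec_single_one, norm_smul, mul_pow, Real.norm_eq_abs, sq_abs]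
    have : (star (U : Matrix (Fin n) (Fin n) ℂ)).col i k = conj (um U i k) := rfl
    rw [this, RCLike.norm_conj]
  have h5 : (fun k => r ^ 2 * ‖um U i k‖ ^ 2) ∈ Bᶜ := by
    rw [← h4]
    exact hmem
  by_contra h6
  exact h5 (subset_toMeasurable _ _ h6)

/-- the squared moduli of the solution in the eigenbasis -/
lemma sph_event (hn : 1 ≤ n) (U : Un n) (G : Set (Fin n → ℝ)) :
    sph n {z | ∀ r : ℝ, 0 < r → (fun k => r *
      ‖(star (U : Matrix (Fin n) (Fin n) ℂ) *ᵥ WithLp.ofLp z.1) k‖ ^ 2) ∉ G}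
      ≤ (Measure.pi fun _ : Fin n => expo) Gᶜ := by
  have hsq : Measurable fun (g : Fin n → ℂ) (k : Fin n) => ‖g k‖ ^ 2 := by fun_prop
  have hmul : Measurable fun (g : Fin n → ℂ) => star (U : Matrix (Fin n) (Fin n) ℂ) *ᵥ g := by
    apply Continuous.measurable
    fun_prop
  set B := toMeasurable (Measure.pi fun _ : Fin n => expo) Gᶜ with hB
  have hBm : MeasurableSet B := measurableSet_toMeasurable _ _
  have h := sph_le n hn ((fun (g : Fin n → ℂ) => star (U : Matrix (Fin n) (Fin n) ℂ) *ᵥ g) ⁻¹'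
    ((fun (g : Fin n → ℂ) (k : Fin n) => ‖g k‖ ^ 2) ⁻¹' Bᶜ)) (hmul (hsq hBm.compl))
  have h2 : (Measure.pi fun _ : Fin n => gam)
      ((fun (g : Fin n → ℂ) => star (U : Matrix (Fin n) (Fin n) ℂ) *ᵥ g) ⁻¹'
        ((fun (g : Fin n → ℂ) (k : Fin n) => ‖g k‖ ^ 2) ⁻¹' Bᶜ))ᶜ
      = (Measure.pi fun _ : Fin n => expo) Gᶜ := by
    rw [← Set.preimage_compl, ← Set.preimage_compl, compl_compl,
      ← Measure.map_apply hmul (hsq hBm)]
    have h3 := gam_unitary n (star U)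
    have h4 : ((star U : Un n) : Matrix (Fin n) (Fin n) ℂ)
        = star (U : Matrix (Fin n) (Fin n) ℂ) := rfl
    rw [h4] at h3
    rw [h3, ← Measure.map_apply hsq hBm, gam_sq_pi, measure_toMeasurable]
  rw [h2] at h
  refine le_trans (measure_mono ?_) h
  intro z hz r hr hmem
  have h3 := hz (r ^ 2) (by positivity)
  apply h3
  have h4 : (fun (g : Fin n → ℂ) (k : Fin n) => ‖g k‖ ^ 2)
      (star (U : Matrix (Fin n) (Fin n) ℂ) *ᵥ (r • WithLp.ofLp z.1 : Fin n → ℂ))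
      = fun k => r ^ 2 * ‖(star (U : Matrix (Fin n) (Fin n) ℂ) *ᵥ WithLp.ofLp z.1) k‖ ^ 2 := by
    ext k
    change ‖(star (U : Matrix (Fin n) (Fin n) ℂ) *ᵥ (r • WithLp.ofLp z.1 : Fin n → ℂ)) k‖ ^ 2 = _
    rw [Matrix.mulVec_smul, Pi.smul_apply, norm_smul, mul_pow, Real.norm_eq_abs, sq_abs]
  have h5 : (fun k => r ^ 2 *
      ‖(star (U : Matrix (Fin n) (Fin n) ℂ) *ᵥ WithLp.ofLp z.1) k‖ ^ 2) ∈ Bᶜ := by
    rw [← h4]
    exact hmem
  by_contra h6
  exact h5 (subset_toMeasurable _ _ h6)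

/-- lower integrals and good sets -/
lemma lint_good {α : Type*} [MeasurableSpace α] (μ : Measure α) [IsProbabilityMeasure μ]
    (F : α → ℝ≥0∞) (G : Set α) (c δ : ℝ≥0∞) (hF : ∀ x ∈ G, c ≤ F x) (hG : μ Gᶜ ≤ δ) :
    c * (1 - δ) ≤ ∫⁻ x, F x ∂μ := by
  set B := toMeasurable μ Gᶜ with hB
  have hBm : MeasurableSet B := measurableSet_toMeasurable _ _
  calc c * (1 - δ) ≤ c * μ Bᶜ := by
        rw [prob_compl_eq_one_sub hBm, measure_toMeasurable]
        gcongr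
    _ = ∫⁻ x in Bᶜ, c ∂μ := by rw [setLIntegral_const]
    _ ≤ ∫⁻ x in Bᶜ, F x ∂μ := by
        apply setLIntegral_mono' hBm.compl
        intro x hx
        apply hF
        by_contra h
        exact hx (subset_toMeasurable _ _ h)
    _ ≤ ∫⁻ x, F x ∂μ := setLIntegral_le_lintegral _ _

lemma sph_ne_zero (z : Metric.sphere (0 : EuclideanSpace ℂ (Fin n)) 1) (U : Un n) :
    star (U : Matrix (Fin n) (Fin n) ℂ) *ᵥ WithLp.ofLp z.1 ≠ 0 := by
  intro h
  have h1 := U_star_mulVec U (WithLp.ofLp z.1)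
  rw [h, Matrix.mulVec_zero] at h1
  have h2 : ‖(z : EuclideanSpace ℂ (Fin n))‖ = 1 := norm_eq_of_mem_sphere z
  have h3 : (z : EuclideanSpace ℂ (Fin n)) = 0 := by
    ext k
    have := congrFun h1 k
    simpa using this.symm
  rw [h3, norm_zero] at h2
  exact zero_ne_one h2

/-- general lower bound for the probability of an event -/
lemma Pr_ge (p ε : ℝ) (hn : 1 ≤ n) (S : Set (ℕ∞ × ℕ∞)) (GU : Set (Un n))
    (G : Set (Fin n → ℝ)) (δ₁ δ₂ δ₃ : ℝ≥0∞) (hU : haarU n GUᶜ ≤ δ₁) (hG : ex n Gᶜ ≤ δ₂)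
    (h : ∀ U ∈ GU, ∀ w : Fin n → ℂ, w ≠ 0 → (∃ r : ℝ, 0 < r ∧ (fun k => r * ‖w k‖ ^ 2) ∈ G) →
      ∀ μ : Measure (Fin n), IsProbabilityMeasure μ →
      (fun i => (μ {i}).toReal) = pp (um U) (lam p) →
      Measure.infinitePi (fun _ : ℕ => μ)
        {ω | (tcg (lam p) ε (fun k => ‖w k‖ ^ 2), trcd (um U) (lam p) ε w ω) ∉ S} ≤ δ₃) :
    1 - (δ₁ + δ₂ + δ₃) ≤ Pr p ε n S := by
  have hprob := sph_prob n hn
  unfold Pr
  have h1 : ∀ U ∈ GU, (1 - δ₃) * (1 - δ₂) ≤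
      ∫⁻ z : Metric.sphere (0 : EuclideanSpace ℂ (Fin n)) 1,
      seqLaw (matA p U) {ω | (TCG (matA p U) (WithLp.ofLp z.1) ε,
        TRCD (matA p U) (WithLp.ofLp z.1) ε ω) ∈ S} ∂sph n := by
    intro U hUG
    apply lint_good (sph n) _ {z | ∃ r : ℝ, 0 < r ∧ (fun k => r *
      ‖(star (U : Matrix (Fin n) (Fin n) ℂ) *ᵥ WithLp.ofLp z.1) k‖ ^ 2) ∈ G}
    · intro z hz
      have hi := idx_prob p hn U
      have h2 := h U hUG _ (sph_ne_zero z U) hz (idx (matA p U)) hi (idx_toReal p U)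
      have h3 : seqLaw (matA p U) = Measure.infinitePi (fun _ => idx (matA p U)) := by
        unfold seqLaw
        rw [dif_pos hi]
      rw [h3]
      have h4 : {ω | (TCG (matA p U) (WithLp.ofLp z.1) ε,
          TRCD (matA p U) (WithLp.ofLp z.1) ε ω) ∈ S}
          = {ω | (tcg (lam p) ε (fun k => ‖(star (U : Matrix (Fin n) (Fin n) ℂ) *ᵥ
            WithLp.ofLp z.1) k‖ ^ 2), trcd (um U) (lam p) ε
            (star (U : Matrix (Fin n) (Fin n) ℂ) *ᵥ WithLp.ofLp z.1) ω) ∉ S}ᶜ := by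
        ext ω
        simp only [Set.mem_ofPred_eq, Set.mem_compl_iff, not_not, TCG_eq, TRCD_eq]
      rw [h4]
      set E := {ω | (tcg (lam p) ε (fun k => ‖(star (U : Matrix (Fin n) (Fin n) ℂ) *ᵥ
            WithLp.ofLp z.1) k‖ ^ 2), trcd (um U) (lam p) ε
            (star (U : Matrix (Fin n) (Fin n) ℂ) *ᵥ WithLp.ofLp z.1) ω) ∉ S} with hE
      have h5 : (1 : ℝ≥0∞) ≤ Measure.infinitePi (fun _ => idx (matA p U)) E
          + Measure.infinitePi (fun _ => idx (matA p U)) Eᶜ := by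
        rw [← measure_univ (μ := Measure.infinitePi (fun _ : ℕ => idx (matA p U)))]
        rw [← Set.union_compl_self E]
        exact measure_union_le _ _
      rw [tsub_le_iff_left]
      exact h5.trans (add_le_add_left h2 _)
    · refine le_trans (measure_mono ?_) ((sph_event hn U G).trans hG)
      intro z hz r hr hmem
      exact hz ⟨r, hr, hmem⟩
  have h2 := lint_good (haarU n) _ GU _ δ₁ h1 hU
  refine le_trans ?_ h2
  by_cases hbig : 1 ≤ δ₁ + δ₂ + δ₃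
  · rw [tsub_eq_zero_of_le hbig]
    exact zero_le
  · push Not at hbig
    have hδ₁ : δ₁ ≤ 1 := le_trans (by rw [add_assoc]; exact le_self_add) hbig.le
    have hδ₂ : δ₂ ≤ 1 := le_trans (by
      rw [add_assoc]
      exact le_trans le_self_add le_add_self) hbig.le
    have hδ₃ : δ₃ ≤ 1 := le_trans le_add_self hbig.le
    lift δ₁ to NNReal using (lt_of_le_of_lt hδ₁ ENNReal.one_lt_top).ne
    lift δ₂ to NNReal using (lt_of_le_of_lt hδ₂ ENNReal.one_lt_top).ne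
    lift δ₃ to NNReal using (lt_of_le_of_lt hδ₃ ENNReal.one_lt_top).ne
    norm_cast at hδ₁ hδ₂ hδ₃ hbig ⊢
    rw [← NNReal.coe_le_coe, NNReal.coe_sub (by exact_mod_cast hbig.le)]
    push_cast
    rw [NNReal.coe_sub hδ₁, NNReal.coe_sub hδ₂, NNReal.coe_sub hδ₃]
    have e1 : (δ₁ : ℝ) ≤ 1 := by exact_mod_cast hδ₁
    have e2 : (δ₂ : ℝ) ≤ 1 := by exact_mod_cast hδ₂
    have e3 : (δ₃ : ℝ) ≤ 1 := by exact_mod_cast hδ₃
    have p1 : (0 : ℝ) ≤ δ₁ := δ₁.2
    have p2 : (0 : ℝ) ≤ δ₂ := δ₂.2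
    have p3 : (0 : ℝ) ≤ δ₃ := δ₃.2
    push_cast
    nlinarith [mul_nonneg p2 p3, mul_nonneg (mul_nonneg p1 p2) (sub_nonneg.2 e3),
      mul_nonneg p1 p3, mul_nonneg p1 (sub_nonneg.2 e3), mul_nonneg p1 p2,
      mul_nonneg (mul_nonneg p2 p3) (sub_nonneg.2 e1)]

end Pool.Agent.Helper579.Cg
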