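import Mathlib
import Pool.Agent.Helper579.CgDefs
import Pool.Agent.Helper579.CgGam

set_option autoImplicit false

namespace Pool.Agent.Helper579.Cg

open MeasureTheory Matrix
open scoped ENNReal

lemma normsq_unitary {n : ℕ} (U : Un n) (v : Fin n → ℂ) :
    ∑ k, ‖((U : Matrix (Fin n) (Fin n) ℂ) *ᵥ v) k‖ ^ 2 = ∑ k, ‖v k‖ ^ 2 := by
  have key : ∀ w : Fin n → ℂ, ((∑ k, ‖w k‖ ^ 2 : ℝ) : ℂ) = star w ⬝ᵥ w := by
    intro w
    rw [dotProduct]
    push_cast
    refine Finset.sum_congr rfl (fun k _ => ?_)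
    rw [Pi.star_apply, ← Complex.conj_mul']
    rfl
  have h : ((∑ k, ‖((U : Matrix (Fin n) (Fin n) ℂ) *ᵥ v) k‖ ^ 2 : ℝ) : ℂ) =
      ((∑ k, ‖v k‖ ^ 2 : ℝ) : ℂ) := by
    rw [key, key, Matrix.star_mulVec, Matrix.dotProduct_mulVec, Matrix.vecMul_vecMul,
      ← Matrix.star_eq_conjTranspose, Matrix.mem_unitaryGroup_iff'.1 U.2, Matrix.vecMul_one]
  exact_mod_cast h

lemma normsq_star_unitary {n : ℕ} (U : Un n) (v : Fin n → ℂ) :
    ∑ k, ‖(star (U : Matrix (Fin n) (Fin n) ℂ) *ᵥ v) k‖ ^ 2 = ∑ k, ‖v k‖ ^ 2 :=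
  normsq_unitary (star U) v

/-- for fixed `y`: the hypotheses are lemmas proved elsewhere -/
lemma proj_bound (n : ℕ) (hn : 1 ≤ n) (gam_prob : IsProbabilityMeasure gam)
    (gam_sq_pi : (Measure.pi fun _ : Fin n => gam).map (fun g k => ‖g k‖ ^ 2)
      = Measure.pi fun _ : Fin n => expo)
    (haar_vec : ∀ (x : Fin n → ℂ), x ≠ 0 → ∀ G : Set (Fin n → ℂ), MeasurableSet G →
      haarU n {U | ∀ r : ℝ, 0 < r →
        (r • (star (U : Matrix (Fin n) (Fin n) ℂ) *ᵥ x) : Fin n → ℂ) ∉ G}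
        ≤ (Measure.pi fun _ : Fin n => gam) Gᶜ)
    (expo_upper : ∀ (a : Fin n → ℝ) (M S : ℝ), 0 < M → (∀ k, 0 ≤ a k) → (∀ k, a k ≤ M) →
      (∑ k, a k ≤ S) → ∀ y : ℝ, Measure.pi (fun _ : Fin n => expo) {ξ | y ≤ ∑ k, a k * ξ k}
        ≤ ENNReal.ofReal (Real.exp ((2 * S - y) / (2 * M))))
    (expo_lower : ∀ s : Finset (Fin n), Measure.pi (fun _ : Fin n => expo)
      {ξ | ∑ k ∈ s, ξ k ≤ s.card / 4} ≤ ENNReal.ofReal (Real.exp (-(s.card / 2 : ℝ))))
    (K : ℕ) (s : ℝ) (hs : 0 < s) (y : Fin n → ℂ) (hy : y ≠ 0) :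
    haarU n {U | s * ∑ k, ‖y k‖ ^ 2 ≤ ∑ k : Fin n,
      if (k : ℕ) < K then ‖(star (U : Matrix (Fin n) (Fin n) ℂ) *ᵥ y) k‖ ^ 2 else 0}
      ≤ ENNReal.ofReal (Real.exp (K - s * n / 8) + Real.exp (-(n / 2 : ℝ))) := by
  set a : Fin n → ℝ := fun k => if (k : ℕ) < K then 1 else 0 with ha
  set G : Set (Fin n → ℂ) := {g | ∑ k, a k * ‖g k‖ ^ 2 < s * ∑ k, ‖g k‖ ^ 2} with hG
  have hGm : MeasurableSet G := by
    refine measurableSet_lt ?_ ?_
    · fun_prop
    · fun_prop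
  have hif : ∀ v : Fin n → ℂ, (∑ k : Fin n, if (k : ℕ) < K then ‖v k‖ ^ 2 else 0) =
      ∑ k, a k * ‖v k‖ ^ 2 := by
    intro v
    refine Finset.sum_congr rfl (fun k _ => ?_)
    simp only [ha]
    split_ifs <;> simp
  have h1 : {U : Un n | s * ∑ k, ‖y k‖ ^ 2 ≤ ∑ k : Fin n,
      if (k : ℕ) < K then ‖(star (U : Matrix (Fin n) (Fin n) ℂ) *ᵥ y) k‖ ^ 2 else 0} ⊆
      {U | ∀ r : ℝ, 0 < r →
        (r • (star (U : Matrix (Fin n) (Fin n) ℂ) *ᵥ y) : Fin n → ℂ) ∉ G} := by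
    intro U hU r hr hmem
    simp only [Set.mem_ofPred_eq] at hU
    rw [hif, ← normsq_star_unitary U y] at hU
    simp only [hG, Set.mem_ofPred_eq, Pi.smul_apply, norm_smul, mul_pow] at hmem
    have e1 : ∑ k, a k * (‖r‖ ^ 2 * ‖(star (U : Matrix (Fin n) (Fin n) ℂ) *ᵥ y) k‖ ^ 2) =
        ‖r‖ ^ 2 * ∑ k, a k * ‖(star (U : Matrix (Fin n) (Fin n) ℂ) *ᵥ y) k‖ ^ 2 := by
      rw [Finset.mul_sum]
      exact Finset.sum_congr rfl (fun k _ => by ring)
    have e2 : ∑ k, (‖r‖ ^ 2 * ‖(star (U : Matrix (Fin n) (Fin n) ℂ) *ᵥ y) k‖ ^ 2) =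
        ‖r‖ ^ 2 * ∑ k, ‖(star (U : Matrix (Fin n) (Fin n) ℂ) *ᵥ y) k‖ ^ 2 := by
      rw [Finset.mul_sum]
    rw [e1, e2] at hmem
    have hr2 : 0 < ‖r‖ ^ 2 := by
      have : 0 < ‖r‖ := norm_pos_iff.2 hr.ne'
      positivity
    have := mul_le_mul_of_nonneg_left hU hr2.le
    linarith
  have h2 : (Measure.pi fun _ : Fin n => gam) Gᶜ ≤
      Measure.pi (fun _ : Fin n => expo) {ξ | s * ∑ k, ξ k ≤ ∑ k, a k * ξ k} := by
    rw [← gam_sq_pi, Measure.map_apply (by fun_prop) (measurableSet_le (by fun_prop) (by fun_prop))]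
    refine measure_mono ?_
    intro g hg
    simp only [hG, Set.mem_compl_iff, Set.mem_ofPred_eq, not_lt] at hg
    simpa using hg
  have h3 : {ξ : Fin n → ℝ | s * ∑ k, ξ k ≤ ∑ k, a k * ξ k} ⊆
      {ξ | s * n / 4 ≤ ∑ k, a k * ξ k} ∪
        {ξ | ∑ k ∈ Finset.univ, ξ k ≤ (Finset.univ : Finset (Fin n)).card / 4} := by
    intro ξ hξ
    simp only [Set.mem_ofPred_eq] at hξ
    by_cases h : ∑ k, ξ k ≤ (n : ℝ) / 4
    · right
      simp only [Set.mem_ofPred_eq, Finset.card_univ, Fintype.card_fin]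
      exact h
    · left
      simp only [Set.mem_ofPred_eq]
      have := mul_le_mul_of_nonneg_left (not_le.1 h).le hs.le
      linarith
  have h4 := expo_upper a 1 K one_pos (fun k => by simp only [ha]; split_ifs <;> norm_num)
    (fun k => by simp only [ha]; split_ifs <;> norm_num) (by
      simp only [ha]
      rw [Finset.sum_ite, Finset.sum_const_zero, add_zero, Finset.sum_const, nsmul_eq_mul, mul_one]
      have hc : (Finset.univ.filter (fun k : Fin n => (k : ℕ) < K)).card ≤ K := by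
        have : (Finset.univ.filter (fun k : Fin n => (k : ℕ) < K)).card ≤ (Finset.range K).card := by
          refine Finset.card_le_card_of_injOn (fun k => (k : ℕ)) ?_ ?_
          · intro k hk
            simp only [Finset.coe_filter, Finset.mem_univ, true_and, Set.mem_ofPred_eq] at hk
            simpa using hk
          · intro k _ l _ h
            exact Fin.ext h
        simpa using this
      exact_mod_cast hc) (s * n / 4)
  have h5 := expo_lower Finset.univ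
  calc haarU n _ ≤ (Measure.pi fun _ : Fin n => gam) Gᶜ :=
        (measure_mono h1).trans (haar_vec y hy G hGm)
    _ ≤ _ := h2
    _ ≤ _ := measure_mono h3
    _ ≤ _ := measure_union_le _ _
    _ ≤ ENNReal.ofReal (Real.exp (K - s * n / 8)) + ENNReal.ofReal (Real.exp (-(n / 2 : ℝ))) := by
        refine add_le_add (h4.trans (le_of_eq ?_)) (h5.trans (le_of_eq ?_))
        · congr 2
          ring
        · rw [Finset.card_univ, Fintype.card_fin]
    _ = _ := (ENNReal.ofReal_add (Real.exp_nonneg _) (Real.exp_nonneg _)).symm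


lemma householder {n : ℕ} (a : Fin n → ℂ) (ha : ∑ k, ‖a k‖ ^ 2 = 1) (i0 : Fin n) :
    ∃ V : Un n, (∀ h : Fin n → ℂ, star a ⬝ᵥ ((V : Matrix (Fin n) (Fin n) ℂ) *ᵥ h) = h i0) ∧
      ∀ I : Finset (Fin n), (∀ i, i ∉ I → a i = 0) → i0 ∈ I → ∀ h : Fin n → ℂ,
        ∑ i ∈ I, ‖((V : Matrix (Fin n) (Fin n) ℂ) *ᵥ h) i‖ ^ 2 = ∑ i ∈ I, ‖h i‖ ^ 2 := by
  obtain ⟨θ, hθ1, hθ2⟩ : ∃ θ : ℂ, starRingEnd ℂ θ * θ = 1 ∧
      starRingEnd ℂ (a i0) * θ = -((‖a i0‖ : ℝ) : ℂ) := by
    by_cases h : a i0 = 0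
    · exact ⟨1, by simp, by simp [h]⟩
    · have hn : ((‖a i0‖ : ℝ) : ℂ) ≠ 0 := by
        simpa using h
      refine ⟨-(a i0) / ((‖a i0‖ : ℝ) : ℂ), ?_, ?_⟩
      · rw [map_div₀, map_neg, Complex.conj_ofReal, div_mul_div_comm, neg_mul_neg,
          Complex.conj_mul', ← sq, div_self (pow_ne_zero 2 hn)]
      · rw [mul_div_assoc', mul_neg, Complex.conj_mul', neg_div, sq, mul_div_assoc, div_self hn,
          mul_one]
  set t : ℝ := ‖a i0‖ with ht
  have ht0 : 0 ≤ t := norm_nonneg _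
  have hθ2' : starRingEnd ℂ θ * a i0 = -(t : ℂ) := by
    have := congrArg (starRingEnd ℂ) hθ2
    rw [map_mul, Complex.conj_conj, map_neg, Complex.conj_ofReal] at this
    rw [mul_comm]
    exact this
  have haa : star a ⬝ᵥ a = 1 := by
    have : ((∑ k, ‖a k‖ ^ 2 : ℝ) : ℂ) = star a ⬝ᵥ a := by
      rw [dotProduct]
      push_cast
      refine Finset.sum_congr rfl (fun k _ => ?_)
      rw [Pi.star_apply, ← Complex.conj_mul']
      rfl
    rw [← this, ha]
    simp
  set e : Fin n → ℂ := Pi.single i0 θ with he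
  have hae : star a ⬝ᵥ e = -(t : ℂ) := by
    rw [he, dotProduct_single, Pi.star_apply]
    exact hθ2
  have hse : star e = Pi.single i0 (starRingEnd ℂ θ) := by
    rw [he]
    ext k
    rw [Pi.star_apply]
    by_cases hk : k = i0
    · subst hk
      simp
    · simp [hk]
  have hea : star e ⬝ᵥ a = -(t : ℂ) := by
    rw [hse, single_dotProduct]
    exact hθ2'
  have hee : star e ⬝ᵥ e = 1 := by
    rw [hse, single_dotProduct, he, Pi.single_eq_same]
    exact hθ1
  set w : Fin n → ℂ := a - e with hw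
  have hww : star w ⬝ᵥ w = 2 * (1 + (t : ℂ)) := by
    rw [hw, star_sub, sub_dotProduct, dotProduct_sub, dotProduct_sub, haa, hae, hea, hee]
    ring
  have haw : star a ⬝ᵥ w = 1 + (t : ℂ) := by
    rw [hw, dotProduct_sub, haa, hae]
    ring
  have ht1 : (1 + (t : ℂ)) ≠ 0 := by
    have : (1 + t : ℝ) ≠ 0 := by positivity
    exact_mod_cast this
  set c : ℂ := (1 + (t : ℂ))⁻¹ with hc
  have hcc : starRingEnd ℂ c = c := by
    rw [hc, map_inv₀, map_add, map_one, Complex.conj_ofReal]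
  set W : Matrix (Fin n) (Fin n) ℂ := vecMulVec w (star w) with hW
  have hWs : star W = W := by
    rw [hW, Matrix.star_eq_conjTranspose]
    ext i k
    simp [vecMulVec_apply, Matrix.conjTranspose_apply, mul_comm]
  have hWW : W * W = (2 * (1 + (t : ℂ))) • W := by
    rw [hW, vecMulVec_mul_vecMulVec, hww]
    ext i k
    simp only [vecMulVec_apply, Pi.smul_apply, Matrix.smul_apply, smul_eq_mul]
    ring
  set V : Matrix (Fin n) (Fin n) ℂ := θ • (1 - c • W) with hV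
  have hVmem : V ∈ Matrix.unitaryGroup (Fin n) ℂ := by
    rw [Matrix.mem_unitaryGroup_iff', hV, star_smul, star_sub, star_one, star_smul, hWs]
    rw [show star c = c from hcc, show star θ = starRingEnd ℂ θ from rfl]
    rw [smul_mul_smul_comm, hθ1, one_smul, mul_sub, sub_mul, sub_mul, one_mul, one_mul, mul_one,
      smul_mul_smul_comm, hWW, smul_smul]
    have e1 : c * c * (2 * (1 + (t : ℂ))) = 2 * c := by
      rw [hc]
      field_simp
    rw [e1, two_mul, add_smul]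
    abel
  have hVh : ∀ h : Fin n → ℂ, V *ᵥ h = θ • (h - (c * (star w ⬝ᵥ h)) • w) := by
    intro h
    rw [hV, smul_mulVec, sub_mulVec, one_mulVec, smul_mulVec, hW, vecMulVec_mulVec]
    congr 2
    ext k
    simp only [Pi.smul_apply, smul_eq_mul, MulOpposite.smul_eq_mul_unop, MulOpposite.unop_op]
    ring
  refine ⟨⟨V, hVmem⟩, ?_, ?_⟩
  · intro h
    show star a ⬝ᵥ (V *ᵥ h) = h i0
    rw [hVh, dotProduct_smul, dotProduct_sub, dotProduct_smul, haw, smul_eq_mul, smul_eq_mul]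
    have e1 : c * (star w ⬝ᵥ h) * (1 + (t : ℂ)) = star w ⬝ᵥ h := by
      rw [hc]
      field_simp
    rw [e1, ← sub_dotProduct, ← star_sub, hw, sub_sub_cancel, hse, single_dotProduct, ← mul_assoc,
      mul_comm θ, hθ1, one_mul]
  · intro I hI hi0 h
    show ∑ i ∈ I, ‖(V *ᵥ h) i‖ ^ 2 = _
    have hwI : ∀ i, i ∉ I → w i = 0 := by
      intro i hi
      have : i ≠ i0 := fun h => hi (h ▸ hi0)
      simp [hw, he, hI i hi, this]
    set hI' : Fin n → ℂ := fun i => if i ∈ I then h i else 0 with hI'def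
    have hdot : star w ⬝ᵥ hI' = star w ⬝ᵥ h := by
      rw [dotProduct, dotProduct]
      refine Finset.sum_congr rfl (fun i _ => ?_)
      by_cases hi : i ∈ I
      · simp [hI'def, hi]
      · simp [hI'def, hi, hwI i hi]
    have h1 : ∀ i, i ∈ I → (V *ᵥ hI') i = (V *ᵥ h) i := by
      intro i hi
      rw [hVh, hVh, hdot]
      simp [hI'def, hi]
    have h2 : ∀ i, i ∉ I → (V *ᵥ hI') i = 0 := by
      intro i hi
      rw [hVh]
      simp [hI'def, hi, hwI i hi]
    have h3 := normsq_unitary ⟨V, hVmem⟩ hI'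
    have h4 : ∑ i ∈ I, ‖(V *ᵥ h) i‖ ^ 2 = ∑ i, ‖(V *ᵥ hI') i‖ ^ 2 := by
      rw [← Finset.sum_subset (Finset.subset_univ I) (fun i _ hi => by rw [h2 i hi]; simp)]
      exact Finset.sum_congr rfl (fun i hi => by rw [h1 i hi])
    have h5 : ∑ i ∈ I, ‖h i‖ ^ 2 = ∑ i, ‖hI' i‖ ^ 2 := by
      rw [← Finset.sum_subset (Finset.subset_univ I) (fun i _ hi => by simp [hI'def, hi])]
      exact Finset.sum_congr rfl (fun i hi => by simp [hI'def, hi])
    rw [h4, h5]
    exact h3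

lemma expo_Ici_ge (c : ℝ) : ENNReal.ofReal (Real.exp (-(max c 0))) ≤ expo (Set.Ici c) := by
  have h1 : ENNReal.ofReal (Real.exp (-(max c 0))) =
      ∫⁻ x in Set.Ioi (max c 0), ENNReal.ofReal (Real.exp (-x)) := by
    rw [← ofReal_integral_eq_lintegral_ofReal (integrableOn_exp_neg_Ioi (max c 0))
      (Filter.Eventually.of_forall fun x => Real.exp_nonneg _), integral_exp_neg_Ioi]
  rw [h1]
  unfold expo
  rw [withDensity_apply _ measurableSet_Ici, Measure.restrict_restrict measurableSet_Ici]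
  refine lintegral_mono_set ?_
  intro x hx
  simp only [Set.mem_Ioi, max_lt_iff] at hx
  exact ⟨hx.1.le, hx.2⟩

instance expo_isProb : IsProbabilityMeasure expo := by
  constructor
  unfold expo
  rw [withDensity_apply _ MeasurableSet.univ, Measure.restrict_univ,
    ← ofReal_integral_eq_lintegral_ofReal (integrableOn_exp_neg_Ioi 0)
      (Filter.Eventually.of_forall fun x => Real.exp_nonneg _), integral_exp_neg_Ioi_zero]
  simp

lemma expo_laplace : ∫ x, Real.exp (-(max x 0)) ∂expo = 1 / 2 := by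
  rw [integral_eq_lintegral_of_nonneg_ae (Filter.Eventually.of_forall fun x => Real.exp_nonneg _)
    (by fun_prop)]
  unfold expo
  rw [lintegral_withDensity_eq_lintegral_mul _ (by fun_prop) (by fun_prop)]
  have h1 : ∫⁻ x in Set.Ioi (0 : ℝ), ((fun x => ENNReal.ofReal (Real.exp (-x))) *
      fun x => ENNReal.ofReal (Real.exp (-(max x 0)))) x =
      ∫⁻ x in Set.Ioi (0 : ℝ), ENNReal.ofReal (Real.exp ((-2) * x)) := by
    refine setLIntegral_congr_fun measurableSet_Ioi (fun x hx => ?_)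
    simp only [Pi.mul_apply]
    rw [← ENNReal.ofReal_mul (Real.exp_nonneg _), ← Real.exp_add,
      max_eq_left (le_of_lt (Set.mem_Ioi.1 hx))]
    congr 2
    ring
  rw [h1, ← ofReal_integral_eq_lintegral_ofReal (integrableOn_exp_mul_Ioi (by norm_num) 0)
      (Filter.Eventually.of_forall fun x => Real.exp_nonneg _), integral_exp_mul_Ioi (by norm_num)]
  rw [ENNReal.toReal_ofReal] <;> norm_num

lemma cone_expo (m : ℕ) (i0 : Fin (m + 1)) (I : Finset (Fin (m + 1))) (hi0 : i0 ∈ I) (R : ℕ)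
    (hR : I.card ≤ R) :
    ENNReal.ofReal ((1 / 2) ^ R) ≤
      (Measure.pi fun _ : Fin (m + 1) => expo) {ξ | ∑ i ∈ I, ξ i ≤ 2 * ξ i0} := by
  set J : Finset (Fin m) := Finset.univ.filter (fun j => i0.succAbove j ∈ I) with hJ
  have hsum : ∀ ξ : Fin (m + 1) → ℝ, ∑ i ∈ I, ξ i = ξ i0 + ∑ j ∈ J, ξ (i0.succAbove j) := by
    intro ξ
    have h1 : ∑ i ∈ I, ξ i = ∑ i, if i ∈ I then ξ i else 0 := by
      rw [Finset.sum_ite_mem, Finset.univ_inter]
    rw [h1, Fin.sum_univ_succAbove _ i0, if_pos hi0, hJ, Finset.sum_filter]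
  have hJcard : J.card ≤ R := by
    have h1 : J.card ≤ I.card := by
      refine Finset.card_le_card_of_injOn (fun j => i0.succAbove j) ?_ ?_
      · intro j hj
        simp only [hJ, Finset.coe_filter, Finset.mem_univ, true_and, Set.mem_ofPred_eq] at hj
        exact hj
      · intro j _ k _ h
        exact Fin.succAbove_right_injective h
    exact h1.trans hR
  have hmp := measurePreserving_piFinSuccAbove (fun _ : Fin (m + 1) => expo) i0
  set T : Set (ℝ × (Fin m → ℝ)) := {p | ∑ j ∈ J, p.2 j ≤ p.1} with hT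
  have hTm : MeasurableSet T := measurableSet_le (by fun_prop) (by fun_prop)
  have hpre : (MeasurableEquiv.piFinSuccAbove (fun _ : Fin (m + 1) => ℝ) i0) ⁻¹' T =
      {ξ | ∑ i ∈ I, ξ i ≤ 2 * ξ i0} := by
    ext ξ
    simp only [Set.mem_preimage, hT, Set.mem_ofPred_eq]
    rw [hsum]
    have e1 : (MeasurableEquiv.piFinSuccAbove (fun _ : Fin (m + 1) => ℝ) i0 ξ).1 = ξ i0 := rfl
    have e2 : ∀ j, (MeasurableEquiv.piFinSuccAbove (fun _ : Fin (m + 1) => ℝ) i0 ξ).2 j =
      ξ (i0.succAbove j) := fun j => rfl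
    rw [e1]
    simp_rw [e2]
    constructor <;> intro h <;> linarith
  have h1 : (Measure.pi fun _ : Fin (m + 1) => expo) {ξ | ∑ i ∈ I, ξ i ≤ 2 * ξ i0} =
      (expo.prod (Measure.pi fun _ : Fin m => expo)) T := by
    rw [← hpre]
    exact hmp.measure_preimage_equiv T
  rw [h1, Measure.prod_apply_symm hTm]
  set f : Fin m → ℝ → ℝ := fun j x => if j ∈ J then Real.exp (-(max x 0)) else 1 with hf
  have hfint : ∀ j, Integrable (f j) expo := by
    intro j
    by_cases hj : j ∈ J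
    · simp only [hf, hj, if_true]
      refine Integrable.of_bound (by fun_prop) 1 (Filter.Eventually.of_forall fun x => ?_)
      rw [Real.norm_eq_abs, abs_of_nonneg (Real.exp_nonneg _), Real.exp_le_one_iff]
      simp
    · simp only [hf, hj, if_false]
      exact integrable_const 1
  have hfI : ∀ j, ∫ x, f j x ∂expo = if j ∈ J then 1 / 2 else 1 := by
    intro j
    by_cases hj : j ∈ J
    · simp only [hf, hj, if_true]
      exact expo_laplace
    · simp only [hf, hj, if_false]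
      simp
  have hlow : ∀ η : Fin m → ℝ, ENNReal.ofReal (∏ j, f j (η j)) ≤
      expo ((fun x => (x, η)) ⁻¹' T) := by
    intro η
    have e1 : (fun x => (x, η)) ⁻¹' T = Set.Ici (∑ j ∈ J, η j) := by
      ext x
      simp [hT]
    rw [e1]
    refine le_trans (ENNReal.ofReal_le_ofReal ?_) (expo_Ici_ge _)
    have e2 : ∏ j, f j (η j) = ∏ j ∈ J, Real.exp (-(max (η j) 0)) := by
      rw [← Finset.prod_subset (Finset.subset_univ J) (fun j _ hj => by simp [hf, hj])]
      exact Finset.prod_congr rfl (fun j hj => by simp [hf, hj])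
    rw [e2, ← Real.exp_sum]
    apply Real.exp_le_exp.2
    rw [Finset.sum_neg_distrib]
    apply neg_le_neg
    apply max_le
    · exact Finset.sum_le_sum (fun j _ => le_max_left _ _)
    · exact Finset.sum_nonneg (fun j _ => le_max_right _ _)
  have hprod : ∫ η : Fin m → ℝ, ∏ j, f j (η j) ∂(Measure.pi fun _ : Fin m => expo) =
      (1 / 2) ^ J.card := by
    rw [integral_fintype_prod_eq_prod f]
    simp_rw [hfI]
    rw [Finset.prod_ite_mem, Finset.univ_inter, Finset.prod_const]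
  calc ENNReal.ofReal ((1 / 2) ^ R) ≤ ENNReal.ofReal ((1 / 2) ^ J.card) := by
        apply ENNReal.ofReal_le_ofReal
        exact pow_le_pow_of_le_one (by norm_num) (by norm_num) hJcard
    _ = ENNReal.ofReal (∫ η : Fin m → ℝ, ∏ j, f j (η j) ∂(Measure.pi fun _ : Fin m => expo)) := by
        rw [hprod]
    _ = ∫⁻ η : Fin m → ℝ, ENNReal.ofReal (∏ j, f j (η j)) ∂(Measure.pi fun _ : Fin m => expo) := by
        refine ofReal_integral_eq_lintegral_ofReal (Integrable.fintype_prod hfint) ?_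
        refine Filter.Eventually.of_forall fun η => Finset.prod_nonneg fun j _ => ?_
        simp only [hf]
        split_ifs
        · exact Real.exp_nonneg _
        · exact zero_le_one
    _ ≤ _ := lintegral_mono hlow

lemma cone_gam (n : ℕ)
    (gam_sq_pi : (Measure.pi fun _ : Fin n => gam).map (fun g k => ‖g k‖ ^ 2)
      = Measure.pi fun _ : Fin n => expo)
    (gam_unitary : ∀ U : Un n, (Measure.pi fun _ : Fin n => gam).map
      (fun x => (U : Matrix (Fin n) (Fin n) ℂ) *ᵥ x) = Measure.pi fun _ : Fin n => gam)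
    (w : Fin n → ℂ) (hw0 : w ≠ 0) (I : Finset (Fin n)) (hw : ∀ i, i ∉ I → w i = 0) (R : ℕ)
    (hR : I.card ≤ R) :
    ENNReal.ofReal ((1 / 2) ^ R) ≤ (Measure.pi fun _ : Fin n => gam)
      {g | (∑ i ∈ I, ‖g i‖ ^ 2) * (∑ k, ‖w k‖ ^ 2) ≤ 2 * ‖star w ⬝ᵥ g‖ ^ 2} := by
  obtain ⟨i0, hi0⟩ : ∃ i, w i ≠ 0 := by
    by_contra h
    push Not at h
    exact hw0 (funext h)
  have hi0I : i0 ∈ I := by
    by_contra h
    exact hi0 (hw i0 h)
  set N2 : ℝ := ∑ k, ‖w k‖ ^ 2 with hN2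
  have hN2pos : 0 < N2 := by
    refine Finset.sum_pos' (fun k _ => by positivity) ⟨i0, Finset.mem_univ _, ?_⟩
    have : 0 < ‖w i0‖ := norm_pos_iff.2 hi0
    positivity
  set c : ℝ := (Real.sqrt N2)⁻¹ with hc
  have hcpos : 0 < c := inv_pos.2 (Real.sqrt_pos.2 hN2pos)
  have hc2 : c ^ 2 * N2 = 1 := by
    rw [hc, inv_pow, Real.sq_sqrt hN2pos.le]
    exact inv_mul_cancel₀ hN2pos.ne'
  set a : Fin n → ℂ := fun k => (c : ℂ) * w k with ha
  have ha1 : ∑ k, ‖a k‖ ^ 2 = 1 := by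
    have : ∀ k, ‖a k‖ ^ 2 = c ^ 2 * ‖w k‖ ^ 2 := by
      intro k
      rw [ha, norm_mul, mul_pow, Complex.norm_real, Real.norm_eq_abs, sq_abs]
    simp_rw [this]
    rw [← Finset.mul_sum, ← hN2, hc2]
  have hadot : ∀ g : Fin n → ℂ, ‖star a ⬝ᵥ g‖ ^ 2 = c ^ 2 * ‖star w ⬝ᵥ g‖ ^ 2 := by
    intro g
    have e1 : star a ⬝ᵥ g = (c : ℂ) * (star w ⬝ᵥ g) := by
      rw [dotProduct, dotProduct, Finset.mul_sum]
      refine Finset.sum_congr rfl (fun k _ => ?_)
      simp only [Pi.star_apply, ha, star_mul']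
      rw [show star (c : ℂ) = (c : ℂ) from Complex.conj_ofReal c]
      ring
    rw [e1, norm_mul, mul_pow, Complex.norm_real, Real.norm_eq_abs, sq_abs]
  obtain ⟨V, hV1, hV2⟩ := householder a ha1 i0
  set A : Set (Fin n → ℂ) := {g | ∑ i ∈ I, ‖g i‖ ^ 2 ≤ 2 * ‖star a ⬝ᵥ g‖ ^ 2} with hA
  have hcont : Continuous fun g : Fin n → ℂ => star a ⬝ᵥ g := by
    unfold dotProduct
    fun_prop
  have hAm : MeasurableSet A := by
    apply IsClosed.measurableSet
    exact isClosed_le (by fun_prop) (by fun_prop)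
  have hAeq : {g : Fin n → ℂ | (∑ i ∈ I, ‖g i‖ ^ 2) * N2 ≤ 2 * ‖star w ⬝ᵥ g‖ ^ 2} = A := by
    ext g
    simp only [hA, Set.mem_ofPred_eq]
    rw [hadot]
    have h2 : 0 < c ^ 2 := by positivity
    constructor
    · intro h
      have := mul_le_mul_of_nonneg_left h h2.le
      have e : c ^ 2 * ((∑ i ∈ I, ‖g i‖ ^ 2) * N2) = ∑ i ∈ I, ‖g i‖ ^ 2 := by
        rw [mul_left_comm, hc2, mul_one]
      rw [e] at this
      linarith
    · intro h
      have := mul_le_mul_of_nonneg_right h hN2pos.le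
      have e : 2 * (c ^ 2 * ‖star w ⬝ᵥ g‖ ^ 2) * N2 = 2 * ‖star w ⬝ᵥ g‖ ^ 2 := by
        rw [show 2 * (c ^ 2 * ‖star w ⬝ᵥ g‖ ^ 2) * N2 = 2 * ‖star w ⬝ᵥ g‖ ^ 2 * (c ^ 2 * N2) by ring,
          hc2, mul_one]
      rw [e] at this
      exact this
  rw [hAeq]
  have hVc : Continuous fun x : Fin n → ℂ => (V : Matrix (Fin n) (Fin n) ℂ) *ᵥ x := by
    unfold Matrix.mulVec dotProduct
    fun_prop
  have h1 : (Measure.pi fun _ : Fin n => gam) A = (Measure.pi fun _ : Fin n => gam)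
      {h | ∑ i ∈ I, ‖h i‖ ^ 2 ≤ 2 * ‖h i0‖ ^ 2} := by
    conv_lhs => rw [← gam_unitary V]
    rw [Measure.map_apply hVc.measurable hAm]
    congr 1
    ext h
    simp only [hA, Set.mem_preimage, Set.mem_ofPred_eq]
    rw [hV1 h, hV2 I (fun i hi => by simp [ha, hw i hi]) hi0I h]
  have h2 : (Measure.pi fun _ : Fin n => gam) {h | ∑ i ∈ I, ‖h i‖ ^ 2 ≤ 2 * ‖h i0‖ ^ 2} =
      (Measure.pi fun _ : Fin n => expo) {ξ | ∑ i ∈ I, ξ i ≤ 2 * ξ i0} := by
    rw [← gam_sq_pi, Measure.map_apply (by fun_prop) (measurableSet_le (by fun_prop) (by fun_prop))]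
    rfl
  rw [h1, h2]
  cases n with
  | zero => exact i0.elim0
  | succ m => exact cone_expo m i0 I hi0I R hR

lemma fixed_I (n : ℕ) (gam_prob : IsProbabilityMeasure gam)
    (gam_sq_pi : (Measure.pi fun _ : Fin n => gam).map (fun g k => ‖g k‖ ^ 2)
      = Measure.pi fun _ : Fin n => expo)
    (gam_unitary : ∀ U : Un n, (Measure.pi fun _ : Fin n => gam).map
      (fun x => (U : Matrix (Fin n) (Fin n) ℂ) *ᵥ x) = Measure.pi fun _ : Fin n => gam)
    (haar_prob : IsProbabilityMeasure (haarU n))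
    (K R : ℕ) (s b : ℝ) (hs : 0 < s) (hb : 0 ≤ b)
    (hproj : ∀ y : Fin n → ℂ, y ≠ 0 →
      haarU n {U | s * ∑ k, ‖y k‖ ^ 2 ≤ ∑ k : Fin n,
        if (k : ℕ) < K then ‖(star (U : Matrix (Fin n) (Fin n) ℂ) *ᵥ y) k‖ ^ 2 else 0}
        ≤ ENNReal.ofReal b) (I : Finset (Fin n)) (hR : I.card ≤ R) :
    haarU n {U | ∃ x : Fin n → ℂ,
      (∀ k : Fin n, K ≤ (k : ℕ) → x k = 0) ∧
      2 * s * ∑ k, ‖x k‖ ^ 2 < ∑ i ∈ I, ‖∑ k, (U : Matrix (Fin n) (Fin n) ℂ) i k * x k‖ ^ 2}
      ≤ ENNReal.ofReal (2 ^ R * b) := by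
  rcases I.eq_empty_or_nonempty with hI | hI
  · have : {U : Un n | ∃ x : Fin n → ℂ,
      (∀ k : Fin n, K ≤ (k : ℕ) → x k = 0) ∧
      2 * s * ∑ k, ‖x k‖ ^ 2 < ∑ i ∈ I, ‖∑ k, (U : Matrix (Fin n) (Fin n) ℂ) i k * x k‖ ^ 2}
      = ∅ := by
      ext U
      simp only [Set.mem_ofPred_eq, Set.mem_empty_iff_false, iff_false, not_exists, not_and, hI,
        Finset.sum_empty, not_lt]
      intro x _
      positivity
    rw [this, measure_empty]
    exact zero_le
  set yI : (Fin n → ℂ) → (Fin n → ℂ) := fun g i => if i ∈ I then g i else 0 with hyI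
  have hyIc : Continuous yI := by
    refine continuous_pi fun i => ?_
    by_cases hi : i ∈ I
    · simp only [hyI, hi, if_true]
      fun_prop
    · simp only [hyI, hi, if_false]
      fun_prop
  set μ : Measure (Fin n → ℂ) := Measure.pi fun _ : Fin n => gam with hμ
  haveI : IsProbabilityMeasure μ := by
    rw [hμ]
    infer_instance
  set S : Set (Un n × (Fin n → ℂ)) := {p | s * ∑ k, ‖yI p.2 k‖ ^ 2 ≤ ∑ k : Fin n,
        if (k : ℕ) < K then ‖(star (p.1 : Matrix (Fin n) (Fin n) ℂ) *ᵥ yI p.2) k‖ ^ 2 else 0}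
    with hS
  have hSm : MeasurableSet S := by
    apply IsClosed.measurableSet
    refine isClosed_le ?_ ?_
    · refine continuous_const.mul (continuous_finsetSum _ fun k _ => ?_)
      have : Continuous fun p : Un n × (Fin n → ℂ) => yI p.2 k :=
        (continuous_apply k).comp (hyIc.comp continuous_snd)
      fun_prop
    · refine continuous_finsetSum _ fun k _ => ?_
      by_cases hk : (k : ℕ) < K
      · simp only [hk, if_true]
        have h1 : Continuous fun p : Un n × (Fin n → ℂ) =>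
            (star (p.1 : Matrix (Fin n) (Fin n) ℂ) *ᵥ yI p.2) k := by
          simp only [Matrix.mulVec, dotProduct, Matrix.star_apply]
          refine continuous_finsetSum _ fun j _ => ?_
          refine Continuous.mul ?_ ?_
          · have h2 : Continuous fun p : Un n × (Fin n → ℂ) =>
              (p.1 : Matrix (Fin n) (Fin n) ℂ) := continuous_subtype_val.comp continuous_fst
            have h3 : Continuous fun p : Un n × (Fin n → ℂ) =>
              (p.1 : Matrix (Fin n) (Fin n) ℂ) j k := h2.matrix_elem j k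
            exact h3.star
          · exact (continuous_apply j).comp (hyIc.comp continuous_snd)
        exact h1.norm.pow 2
      · simp only [hk, if_false]
        exact continuous_const
  set F : Un n → ℝ≥0∞ := fun U => μ (Prod.mk U ⁻¹' S) with hF
  have hFm : Measurable F := measurable_measure_prodMk_left hSm
  have hFint : ∫⁻ U, F U ∂(haarU n) ≤ ENNReal.ofReal b := by
    have e1 : ∫⁻ U, F U ∂(haarU n) = ((haarU n).prod μ) S := (Measure.prod_apply hSm).symm
    rw [e1, Measure.prod_apply_symm hSm]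
    obtain ⟨i, hi⟩ := hI
    have hgam0 : gam {0} = 0 := by
      have : gam ≪ volume := withDensity_absolutelyContinuous _ _
      exact this (measure_singleton 0)
    have hnull : μ ((Function.eval i) ⁻¹' {0}) = 0 :=
      Measure.pi_eval_preimage_null (fun _ : Fin n => gam) hgam0
    have hae : ∀ᵐ g ∂μ, haarU n ((fun U => (U, g)) ⁻¹' S) ≤ ENNReal.ofReal b := by
      have h0 : ∀ᵐ g ∂μ, g ∉ (Function.eval i) ⁻¹' {0} := measure_eq_zero_iff_ae_notMem.1 hnull
      filter_upwards [h0] with g hg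
      refine hproj (yI g) ?_
      intro h
      apply hg
      have := congrFun h i
      simp only [hyI, hi, if_true, Pi.zero_apply] at this
      simpa using this
    calc ∫⁻ g, haarU n ((fun U => (U, g)) ⁻¹' S) ∂μ ≤ ∫⁻ _, ENNReal.ofReal b ∂μ :=
          lintegral_mono_ae hae
      _ = ENNReal.ofReal b := by simp
  have hsub : {U : Un n | ∃ x : Fin n → ℂ,
      (∀ k : Fin n, K ≤ (k : ℕ) → x k = 0) ∧
      2 * s * ∑ k, ‖x k‖ ^ 2 < ∑ i ∈ I, ‖∑ k, (U : Matrix (Fin n) (Fin n) ℂ) i k * x k‖ ^ 2} ⊆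
      {U | ENNReal.ofReal ((1 / 2) ^ R) ≤ F U} := by
    rintro U ⟨x, hxK, hx⟩
    simp only [Set.mem_ofPred_eq]
    set w : Fin n → ℂ := fun i => if i ∈ I then ((U : Matrix (Fin n) (Fin n) ℂ) *ᵥ x) i else 0
      with hw
    have hW : ∑ k, ‖w k‖ ^ 2 =
        ∑ i ∈ I, ‖∑ k, (U : Matrix (Fin n) (Fin n) ℂ) i k * x k‖ ^ 2 := by
      rw [← Finset.sum_subset (Finset.subset_univ I) (fun i _ hi => by simp [hw, hi])]
      exact Finset.sum_congr rfl (fun i hi => by simp [hw, hi, Matrix.mulVec, dotProduct])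
    rw [← hW] at hx
    have hX0 : 0 ≤ ∑ k, ‖x k‖ ^ 2 := Finset.sum_nonneg fun k _ => by positivity
    have hWpos : 0 < ∑ k, ‖w k‖ ^ 2 := lt_of_le_of_lt (by positivity) hx
    have hw0 : w ≠ 0 := by
      intro h
      rw [h] at hWpos
      simp at hWpos
    refine (cone_gam n gam_sq_pi gam_unitary w hw0 I (fun i hi => by simp [hw, hi]) R hR).trans ?_
    refine measure_mono ?_
    intro g hg
    simp only [Set.mem_ofPred_eq] at hg
    show s * ∑ k, ‖yI g k‖ ^ 2 ≤ ∑ k : Fin n,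
        if (k : ℕ) < K then ‖(star (U : Matrix (Fin n) (Fin n) ℂ) *ᵥ yI g) k‖ ^ 2 else 0
    have hY : ∑ i ∈ I, ‖g i‖ ^ 2 = ∑ k, ‖yI g k‖ ^ 2 := by
      rw [← Finset.sum_subset (Finset.subset_univ I) (fun i _ hi => by simp [hyI, hi])]
      exact Finset.sum_congr rfl (fun i hi => by simp [hyI, hi])
    rw [hY] at hg
    set z : Fin n → ℂ := star (U : Matrix (Fin n) (Fin n) ℂ) *ᵥ yI g with hz
    have hdot : star w ⬝ᵥ g = ∑ k : Fin n, if (k : ℕ) < K then star (x k) * z k else 0 := by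
      have e1 : star w ⬝ᵥ g = star ((U : Matrix (Fin n) (Fin n) ℂ) *ᵥ x) ⬝ᵥ yI g := by
        rw [dotProduct, dotProduct]
        refine Finset.sum_congr rfl (fun i _ => ?_)
        by_cases hi : i ∈ I
        · simp [hw, hyI, hi]
        · simp [hw, hyI, hi]
      have e2 : star ((U : Matrix (Fin n) (Fin n) ℂ) *ᵥ x) ⬝ᵥ yI g = star x ⬝ᵥ z := by
        rw [Matrix.star_mulVec, ← Matrix.dotProduct_mulVec, hz, Matrix.star_eq_conjTranspose]
      rw [e1, e2, dotProduct]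
      refine Finset.sum_congr rfl (fun k _ => ?_)
      by_cases hk : (k : ℕ) < K
      · simp [hk]
      · simp [hk, hxK k (not_lt.1 hk)]
    have hCS : ‖star w ⬝ᵥ g‖ ^ 2 ≤ (∑ k, ‖x k‖ ^ 2) *
        ∑ k : Fin n, if (k : ℕ) < K then ‖z k‖ ^ 2 else 0 := by
      have e1 : ‖star w ⬝ᵥ g‖ ≤ ∑ k : Fin n, ‖x k‖ * (if (k : ℕ) < K then ‖z k‖ else 0) := by
        rw [hdot]
        refine (norm_sum_le _ _).trans (Finset.sum_le_sum fun k _ => ?_)
        split_ifs
        · rw [norm_mul, norm_star]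
        · simp
      have e2 : (∑ k : Fin n, ‖x k‖ * (if (k : ℕ) < K then ‖z k‖ else 0)) ^ 2 ≤
          (∑ k, ‖x k‖ ^ 2) * ∑ k : Fin n, (if (k : ℕ) < K then ‖z k‖ else 0) ^ 2 :=
        Finset.sum_mul_sq_le_sq_mul_sq _ _ _
      have e3 : ∑ k : Fin n, (if (k : ℕ) < K then ‖z k‖ else 0) ^ 2 =
          ∑ k : Fin n, if (k : ℕ) < K then ‖z k‖ ^ 2 else 0 := by
        refine Finset.sum_congr rfl (fun k _ => ?_)
        split_ifs <;> simp
      rw [e3] at e2
      exact (pow_le_pow_left₀ (norm_nonneg _) e1 2).trans e2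
    set P : ℝ := ∑ k : Fin n, if (k : ℕ) < K then ‖z k‖ ^ 2 else 0 with hP
    have hP0 : 0 ≤ P := Finset.sum_nonneg fun k _ => by split_ifs <;> positivity
    set W : ℝ := ∑ k, ‖w k‖ ^ 2
    set Y : ℝ := ∑ k, ‖yI g k‖ ^ 2
    set X : ℝ := ∑ k, ‖x k‖ ^ 2
    have h1 : s * (Y * W) ≤ s * (2 * (X * P)) := by
      apply mul_le_mul_of_nonneg_left _ hs.le
      linarith
    have h2 : 2 * s * X * P ≤ W * P := mul_le_mul_of_nonneg_right hx.le hP0
    have h3 : (s * Y) * W ≤ P * W := by nlinarith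
    exact le_of_mul_le_mul_right h3 hWpos
  have hε : ENNReal.ofReal ((1 / 2 : ℝ) ^ R) ≠ 0 := by
    rw [Ne, ENNReal.ofReal_eq_zero, not_le]
    positivity
  calc haarU n _ ≤ haarU n {U | ENNReal.ofReal ((1 / 2) ^ R) ≤ F U} := measure_mono hsub
    _ ≤ (∫⁻ U, F U ∂(haarU n)) / ENNReal.ofReal ((1 / 2) ^ R) :=
        meas_ge_le_lintegral_div hFm.aemeasurable hε ENNReal.ofReal_ne_top
    _ ≤ ENNReal.ofReal b / ENNReal.ofReal ((1 / 2) ^ R) := ENNReal.div_le_div_right hFint _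
    _ = ENNReal.ofReal (2 ^ R * b) := by
        rw [← ENNReal.ofReal_div_of_pos (by positivity)]
        congr 1
        rw [one_div, inv_pow, div_inv_eq_mul, mul_comm]

lemma card_le_pow (n R : ℕ) :
    (Finset.univ.filter (fun I : Finset (Fin n) => I.card ≤ R)).card ≤ (n + 1) ^ R := by
  have h1 : (Finset.univ.filter (fun I : Finset (Fin n) => I.card ≤ R)).card ≤
      (Finset.univ : Finset (Fin R → Option (Fin n))).card := by
    refine Finset.card_le_card_of_injOn (fun I r => I.toList[(r : ℕ)]?)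
      (fun I _ => Finset.mem_coe.2 (Finset.mem_univ _)) ?_
    have key : ∀ I : Finset (Fin n), I.card ≤ R → ∀ i, i ∈ I ↔
        ∃ r : Fin R, I.toList[(r : ℕ)]? = some i := by
      intro I hI i
      rw [← Finset.mem_toList, List.mem_iff_getElem?]
      constructor
      · rintro ⟨r, hr⟩
        have hlt : r < I.toList.length := by
          by_contra h
          rw [List.getElem?_eq_none (not_lt.1 h)] at hr
          exact absurd hr (by simp)
        rw [Finset.length_toList] at hlt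
        exact ⟨⟨r, hlt.trans_le hI⟩, hr⟩
      · rintro ⟨r, hr⟩
        exact ⟨r, hr⟩
    intro I hI I' hI' h
    simp only [Finset.coe_filter, Finset.mem_univ, true_and, Set.mem_ofPred_eq] at hI hI'
    ext i
    rw [key I hI i, key I' hI' i]
    exact exists_congr fun r => by
      have e : I.toList[(r : ℕ)]? = I'.toList[(r : ℕ)]? := congrFun h r
      rw [e]
  simpa using h1

/-- uniform bound for all submatrices with at most `R` rows and the first `K` columns -/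
lemma sub_bound (n : ℕ) (hn : 1 ≤ n) (gam_prob : IsProbabilityMeasure gam)
    (gam_sq_pi : (Measure.pi fun _ : Fin n => gam).map (fun g k => ‖g k‖ ^ 2)
      = Measure.pi fun _ : Fin n => expo)
    (gam_unitary : ∀ U : Un n, (Measure.pi fun _ : Fin n => gam).map
      (fun x => (U : Matrix (Fin n) (Fin n) ℂ) *ᵥ x) = Measure.pi fun _ : Fin n => gam)
    (gam_zero : (Measure.pi fun _ : Fin n => gam) {0} = 0)
    (haar_prob : IsProbabilityMeasure (haarU n))
    (K R : ℕ) (s b : ℝ) (hs : 0 < s) (hb : 0 ≤ b)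
    (hproj : ∀ y : Fin n → ℂ, y ≠ 0 →
      haarU n {U | s * ∑ k, ‖y k‖ ^ 2 ≤ ∑ k : Fin n,
        if (k : ℕ) < K then ‖(star (U : Matrix (Fin n) (Fin n) ℂ) *ᵥ y) k‖ ^ 2 else 0}
        ≤ ENNReal.ofReal b) :
    haarU n {U | ∃ I : Finset (Fin n), I.card ≤ R ∧ ∃ x : Fin n → ℂ,
      (∀ k : Fin n, K ≤ (k : ℕ) → x k = 0) ∧
      2 * s * ∑ k, ‖x k‖ ^ 2 < ∑ i ∈ I, ‖∑ k, (U : Matrix (Fin n) (Fin n) ℂ) i k * x k‖ ^ 2}
      ≤ ENNReal.ofReal (((n : ℝ) + 1) ^ R * 2 ^ R * b) := by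
  set f : Finset (Fin n) → Set (Un n) := fun I => {U | ∃ x : Fin n → ℂ,
      (∀ k : Fin n, K ≤ (k : ℕ) → x k = 0) ∧
      2 * s * ∑ k, ‖x k‖ ^ 2 < ∑ i ∈ I, ‖∑ k, (U : Matrix (Fin n) (Fin n) ℂ) i k * x k‖ ^ 2}
    with hf
  have hsub : {U : Un n | ∃ I : Finset (Fin n), I.card ≤ R ∧ ∃ x : Fin n → ℂ,
      (∀ k : Fin n, K ≤ (k : ℕ) → x k = 0) ∧
      2 * s * ∑ k, ‖x k‖ ^ 2 < ∑ i ∈ I, ‖∑ k, (U : Matrix (Fin n) (Fin n) ℂ) i k * x k‖ ^ 2} ⊆
      ⋃ I ∈ Finset.univ.filter (fun I : Finset (Fin n) => I.card ≤ R), f I := by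
    rintro U ⟨I, hI, hU⟩
    refine Set.mem_biUnion (Finset.mem_coe.2 (Finset.mem_filter.2 ⟨Finset.mem_univ I, hI⟩)) hU
  calc haarU n _ ≤ haarU n (⋃ I ∈ Finset.univ.filter
        (fun I : Finset (Fin n) => I.card ≤ R), f I) := measure_mono hsub
    _ ≤ ∑ I ∈ Finset.univ.filter (fun I : Finset (Fin n) => I.card ≤ R), haarU n (f I) :=
        measure_biUnion_finset_le _ _
    _ ≤ ∑ I ∈ Finset.univ.filter (fun I : Finset (Fin n) => I.card ≤ R),
        ENNReal.ofReal (2 ^ R * b) := Finset.sum_le_sum fun I hI =>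
          fixed_I n gam_prob gam_sq_pi gam_unitary haar_prob K R s b hs hb hproj I
            (Finset.mem_filter.1 hI).2
    _ = ((Finset.univ.filter (fun I : Finset (Fin n) => I.card ≤ R)).card : ℝ≥0∞) *
        ENNReal.ofReal (2 ^ R * b) := by rw [Finset.sum_const, nsmul_eq_mul]
    _ ≤ (((n + 1) ^ R : ℕ) : ℝ≥0∞) * ENNReal.ofReal (2 ^ R * b) := by
        gcongr
        exact card_le_pow n R
    _ = ENNReal.ofReal (((n : ℝ) + 1) ^ R * 2 ^ R * b) := by
        rw [← ENNReal.ofReal_natCast, ← ENNReal.ofReal_mul (by positivity)]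
        congr 1
        push_cast
        ring

end Pool.Agent.Helper579.Cg
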