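import Mathlib
import Pool.Agent.Helper579.CgProb
import Pool.Agent.Helper579.CgSub

set_option autoImplicit false

namespace Pool.Agent.Helper579.Cg

open MeasureTheory Filter Matrix
open scoped ENNReal Topology ComplexConjugate

/-- cut at `n^s`: `KK n s ≤ k ↔ n^s ≤ k + 1` -/
noncomputable def KK (n : ℕ) (s : ℝ) : ℕ := ⌈(n : ℝ) ^ s⌉₊ - 1

lemma KK_le_iff (n : ℕ) (s : ℝ) (k : ℕ) : KK n s ≤ k ↔ (n : ℝ) ^ s ≤ (k : ℝ) + 1 := by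
  unfold KK
  rw [Nat.sub_le_iff_le_add, Nat.ceil_le]
  push_cast
  rfl

lemma proj_bound' (n : ℕ) (hn : 1 ≤ n) (K : ℕ) (s : ℝ) (hs : 0 < s) (y : Fin n → ℂ)
    (hy : y ≠ 0) :
    haarU n {U | s * ∑ k, ‖y k‖ ^ 2 ≤ ∑ k : Fin n,
      if (k : ℕ) < K then ‖(star (U : Matrix (Fin n) (Fin n) ℂ) *ᵥ y) k‖ ^ 2 else 0}
      ≤ ENNReal.ofReal (Real.exp (K - s * n / 8) + Real.exp (-(n / 2 : ℝ))) :=
  proj_bound n hn probGam (gam_sq_pi n)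
    (haar_vec n hn probGam (gam_unitary n) (gam_zero n hn))
    (fun a M S h1 h2 h3 h4 y => expo_upper a h1 h2 h3 h4 y) expo_lower K s hs y hy

lemma sub_bound' (n : ℕ) (hn : 1 ≤ n) (K R : ℕ) (s b : ℝ) (hs : 0 < s) (hb : 0 ≤ b)
    (hproj : ∀ y : Fin n → ℂ, y ≠ 0 →
      haarU n {U | s * ∑ k, ‖y k‖ ^ 2 ≤ ∑ k : Fin n,
        if (k : ℕ) < K then ‖(star (U : Matrix (Fin n) (Fin n) ℂ) *ᵥ y) k‖ ^ 2 else 0}
        ≤ ENNReal.ofReal b) :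
    haarU n {U | ∃ I : Finset (Fin n), I.card ≤ R ∧ ∃ x : Fin n → ℂ,
      (∀ k : Fin n, K ≤ (k : ℕ) → x k = 0) ∧
      2 * s * ∑ k, ‖x k‖ ^ 2 < ∑ i ∈ I, ‖∑ k, (U : Matrix (Fin n) (Fin n) ℂ) i k * x k‖ ^ 2}
      ≤ ENNReal.ofReal (((n : ℝ) + 1) ^ R * 2 ^ R * b) :=
  sub_bound n hn probGam (gam_sq_pi n) (gam_unitary n) (gam_zero n hn) (haarU_prob n)
    K R s b hs hb hproj

end Pool.Agent.Helper579.Cg
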