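import Mathlib

set_option autoImplicit false

namespace Pool.Agent.Helper579.Cg

open Polynomial

lemma dirichlet (φ : ℝ) (M : ℕ) :
    Real.sin φ * (1 + 2 * ∑ j ∈ Finset.range M, Real.cos ((j + 1 : ℕ) * (2 * φ)))
      = Real.sin ((2 * M + 1) * φ) := by
  induction M with
  | zero => simp
  | succ M ih =>
    rw [Finset.sum_range_succ]
    have h1 : Real.sin φ * (1 + 2 * (∑ j ∈ Finset.range M, Real.cos ((j + 1 : ℕ) * (2 * φ))
        + Real.cos ((M + 1 : ℕ) * (2 * φ))))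
        = Real.sin φ * (1 + 2 * ∑ j ∈ Finset.range M, Real.cos ((j + 1 : ℕ) * (2 * φ)))
          + 2 * (Real.sin φ * Real.cos ((M + 1 : ℕ) * (2 * φ))) := by ring
    rw [h1, ih]
    have e1 : (2 * ((M + 1 : ℕ) : ℝ) + 1) * φ = ((M + 1 : ℕ) : ℝ) * (2 * φ) + φ := by push_cast; ring
    have e2 : (2 * (M : ℝ) + 1) * φ = ((M + 1 : ℕ) : ℝ) * (2 * φ) - φ := by push_cast; ring
    rw [e1, e2, Real.sin_add, Real.sin_sub]
    ring

/-- normalized Dirichlet kernel as a polynomial in `y = sin² φ` -/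
lemma kern (M : ℕ) : ∃ D : ℝ[X], D.natDegree ≤ M ∧ D.eval 0 = 1 ∧
    ∀ y ∈ Set.Icc (0 : ℝ) 1, |D.eval y| ≤ 1 ∧ D.eval y ^ 2 * ((2 * M + 1) ^ 2 * y) ≤ 1 := by
  have hM : (0 : ℝ) < 2 * M + 1 := by positivity
  set Q : ℝ[X] := 1 + C 2 * ∑ j ∈ Finset.range M, (Chebyshev.T ℝ ((j + 1 : ℕ) : ℤ)).comp (C 1 - C 2 * X)
    with hQ
  have hlin : (C 1 - C 2 * X : ℝ[X]).natDegree ≤ 1 := by
    refine (natDegree_sub_le _ _).trans ?_
    rw [natDegree_C]
    refine max_le (by norm_num) (natDegree_C_mul_le _ _ |>.trans natDegree_X_le)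
  have hev : ∀ y : ℝ, Q.eval y = 1 + 2 * ∑ j ∈ Finset.range M,
      (Chebyshev.T ℝ ((j + 1 : ℕ) : ℤ)).eval (1 - 2 * y) := by
    intro y
    rw [hQ, eval_add, eval_one, eval_mul, eval_C, eval_finsetSum]
    congr 2
    apply Finset.sum_congr rfl
    intro j _
    rw [eval_comp]
    simp
  have hdeg : Q.natDegree ≤ M := by
    rw [hQ]
    refine (natDegree_add_le _ _).trans (max_le (by simp) ?_)
    refine (natDegree_C_mul_le _ _).trans ?_
    refine natDegree_sum_le_of_forall_le _ _ fun j hj => ?_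
    rw [Finset.mem_range] at hj
    refine natDegree_comp_le.trans ?_
    rw [Chebyshev.natDegree_T]
    calc ((j + 1 : ℕ) : ℤ).natAbs * (C 1 - C 2 * X : ℝ[X]).natDegree
        ≤ ((j + 1 : ℕ) : ℤ).natAbs * 1 := Nat.mul_le_mul_left _ hlin
      _ ≤ M := by rw [mul_one, Int.natAbs_natCast]; omega
  refine ⟨C (1 / (2 * (M : ℝ) + 1)) * Q, (natDegree_C_mul_le _ _).trans hdeg, ?_, ?_⟩
  · rw [eval_mul, eval_C, hev]
    simp only [mul_zero, sub_zero, Chebyshev.T_eval_one, Finset.sum_const, Finset.card_range,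
      nsmul_eq_mul, mul_one]
    field_simp
    ring
  · intro y hy
    obtain ⟨φ, hφ⟩ : ∃ φ, Real.sin φ ^ 2 = y := by
      refine ⟨Real.arcsin (Real.sqrt y), ?_⟩
      rw [Real.sin_arcsin (by linarith [Real.sqrt_nonneg y]) (Real.sqrt_le_one.2 hy.2),
        Real.sq_sqrt hy.1]
    have hcos : 1 - 2 * y = Real.cos (2 * φ) := by
      rw [Real.cos_two_mul, ← hφ]
      have := Real.sin_sq_add_cos_sq φ
      linarith
    have hQy : Q.eval y = 1 + 2 * ∑ j ∈ Finset.range M, Real.cos ((j + 1 : ℕ) * (2 * φ)) := by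
      rw [hev, hcos]
      congr 2
      apply Finset.sum_congr rfl
      intro j _
      rw [Chebyshev.T_real_cos]
      push_cast
      rfl
    rw [eval_mul, eval_C]
    constructor
    · rw [abs_mul, abs_of_pos (by positivity : (0 : ℝ) < 1 / (2 * M + 1)), one_div,
        inv_mul_le_iff₀ hM, mul_one, hQy]
      have h1 : |∑ j ∈ Finset.range M, Real.cos ((j + 1 : ℕ) * (2 * φ))| ≤ M := by
        refine (Finset.abs_sum_le_sum_abs _ _).trans ?_
        refine (Finset.sum_le_sum fun j _ => Real.abs_cos_le_one _).trans ?_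
        simp
      rw [abs_le] at h1 ⊢
      constructor <;> linarith [h1.1, h1.2]
    · have h2 := dirichlet φ M
      rw [← hQy] at h2
      have h3 : (1 / (2 * (M : ℝ) + 1) * Q.eval y) ^ 2 * ((2 * M + 1) ^ 2 * y)
          = (Real.sin φ * Q.eval y) ^ 2 := by
        conv_lhs => rw [← hφ]
        rw [hφ]
        have : (Real.sin φ * Q.eval y) ^ 2 = y * Q.eval y ^ 2 := by rw [mul_pow, hφ]
        rw [this]
        field_simp
      rw [h3, h2]
      exact Real.sin_sq_le_one _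

lemma T_mono (t : ℕ) {u v : ℝ} (hu : 1 ≤ u) (huv : u ≤ v) :
    (Chebyshev.T ℝ (t : ℤ)).eval u ≤ (Chebyshev.T ℝ (t : ℤ)).eval v := by
  have hv : 1 ≤ v := hu.trans huv
  rw [← Real.cosh_arcosh hu, ← Real.cosh_arcosh hv, Chebyshev.T_real_cosh, Chebyshev.T_real_cosh,
    Real.cosh_le_cosh, abs_mul, abs_mul]
  apply mul_le_mul_of_nonneg_left _ (abs_nonneg _)
  rw [abs_of_nonneg (Real.arcosh_nonneg hu), abs_of_nonneg (Real.arcosh_nonneg hv)]
  exact (Real.arcosh_le_arcosh (by linarith) (by linarith)).2 huv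

lemma cosh_small {s : ℝ} (hs0 : 0 ≤ s) (hs : s ≤ 1) : Real.cosh s ≤ 1 + 2 * s ^ 2 := by
  have h1 := Real.cosh_le_exp_half_sq s
  have h2 : s ^ 2 ≤ 1 := by nlinarith
  have h3 : 0 ≤ s ^ 2 := sq_nonneg s
  have h4 : Real.exp (s ^ 2 / 2) ≤ 1 + s ^ 2 := by
    have h5 := Real.add_one_le_exp (-(s ^ 2 / 2))
    have h6 : Real.exp (s ^ 2 / 2) * Real.exp (-(s ^ 2 / 2)) = 1 := by
      rw [← Real.exp_add]; simp
    have h7 := Real.exp_pos (s ^ 2 / 2)
    have h8 : Real.exp (s ^ 2 / 2) * (1 - s ^ 2 / 2) ≤ 1 := by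
      calc Real.exp (s ^ 2 / 2) * (1 - s ^ 2 / 2)
          ≤ Real.exp (s ^ 2 / 2) * Real.exp (-(s ^ 2 / 2)) :=
            mul_le_mul_of_nonneg_left (by linarith) h7.le
        _ = 1 := h6
    have h9 : 1 ≤ (1 + s ^ 2) * (1 - s ^ 2 / 2) := by nlinarith
    have h10 : Real.exp (s ^ 2 / 2) * (1 - s ^ 2 / 2) ≤ (1 + s ^ 2) * (1 - s ^ 2 / 2) :=
      h8.trans h9
    exact le_of_mul_le_mul_right h10 (by linarith)
  linarith

/-- Chebyshev polynomials: small on `[a, b]` -/
lemma cheb_small {a b : ℝ} (ha : 0 < a) (hab : a < b) (t : ℕ) :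
    ∃ P : ℝ[X], P.natDegree ≤ t ∧ P.eval 0 = 1 ∧ (∀ y ∈ Set.Icc 0 b, |P.eval y| ≤ 1) ∧
      ∀ y ∈ Set.Icc a b, |P.eval y| ≤ 2 * Real.exp (-(t * √(a / b))) := by
  have hb : 0 < b := ha.trans hab
  have hba : 0 < b - a := by linarith
  set l0 : ℝ := (b + a) / (b - a) with hl0
  have hl0' : l0 = 1 + 2 * a / (b - a) := by
    rw [hl0]; field_simp; ring
  have hl0_1 : 1 ≤ l0 := by
    rw [hl0']
    have : 0 ≤ 2 * a / (b - a) := by positivity
    linarith
  set T0 : ℝ := (Chebyshev.T ℝ (t : ℤ)).eval l0 with hT0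
  have hT0_1 : 1 ≤ T0 := Chebyshev.one_le_eval_T_real _ hl0_1
  have hT0pos : 0 < T0 := by linarith
  set P : ℝ[X] := C (1 / T0) * (Chebyshev.T ℝ (t : ℤ)).comp (C l0 - C (2 / (b - a)) * X) with hP
  have hev : ∀ y : ℝ, P.eval y = (Chebyshev.T ℝ (t : ℤ)).eval (l0 - 2 / (b - a) * y) / T0 := by
    intro y
    rw [hP, eval_mul, eval_C, eval_comp]
    simp only [eval_sub, eval_C, eval_mul, eval_X]
    ring
  have hmid : ∀ y ∈ Set.Icc a b, |P.eval y| ≤ 1 / T0 := by
    intro y hy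
    rw [hev, abs_div, abs_of_pos hT0pos]
    apply div_le_div_of_nonneg_right _ hT0pos.le
    apply Chebyshev.abs_eval_T_real_le_one
    have e : l0 - 2 / (b - a) * y = (b + a - 2 * y) / (b - a) := by
      rw [hl0]; field_simp
    rw [e, abs_div, abs_of_pos hba, div_le_one hba, abs_le]
    constructor <;> linarith [hy.1, hy.2]
  refine ⟨P, ?_, ?_, ?_, ?_⟩
  · rw [hP]
    refine (natDegree_C_mul_le _ _).trans (natDegree_comp_le.trans ?_)
    rw [Chebyshev.natDegree_T, Int.natAbs_natCast]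
    have hlin : (C l0 - C (2 / (b - a)) * X : ℝ[X]).natDegree ≤ 1 := by
      refine (natDegree_sub_le _ _).trans ?_
      rw [natDegree_C]
      refine max_le (by norm_num) (natDegree_C_mul_le _ _ |>.trans natDegree_X_le)
    calc t * (C l0 - C (2 / (b - a)) * X : ℝ[X]).natDegree ≤ t * 1 := Nat.mul_le_mul_left _ hlin
      _ = t := mul_one t
  · rw [hev, mul_zero, sub_zero]
    exact div_self hT0pos.ne'
  · intro y hy
    by_cases hya : a ≤ y
    · refine (hmid y ⟨hya, hy.2⟩).trans ?_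
      rw [div_le_one hT0pos]; exact hT0_1
    · push Not at hya
      have h1 : 1 ≤ l0 - 2 / (b - a) * y := by
        rw [hl0']
        have : 2 / (b - a) * y ≤ 2 * a / (b - a) := by
          rw [div_mul_eq_mul_div]
          apply div_le_div_of_nonneg_right _ hba.le
          linarith
        linarith
      have h2 : l0 - 2 / (b - a) * y ≤ l0 := by
        have : 0 ≤ 2 / (b - a) * y := mul_nonneg (by positivity) hy.1
        linarith
      have h3 := Chebyshev.one_le_eval_T_real (t : ℤ) h1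
      have h4 := T_mono t h1 h2
      rw [hev, abs_div, abs_of_pos hT0pos, div_le_one hT0pos, abs_of_nonneg (by linarith)]
      exact h4
  · intro y hy
    refine (hmid y hy).trans ?_
    set s : ℝ := √(a / b) with hs
    have hs0 : 0 ≤ s := Real.sqrt_nonneg _
    have hs2 : s ^ 2 = a / b := Real.sq_sqrt (by positivity)
    have hs1 : s ≤ 1 := Real.sqrt_le_one.2 ((div_le_one hb).2 hab.le)
    have h1 : Real.cosh s ≤ l0 := by
      refine (cosh_small hs0 hs1).trans ?_
      rw [hl0', hs2]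
      have : 2 * (a / b) ≤ 2 * a / (b - a) := by
        rw [← mul_div_assoc]
        exact div_le_div_of_nonneg_left (by positivity) hba (by linarith)
      linarith
    have h2 := T_mono t (Real.one_le_cosh s) h1
    rw [Chebyshev.T_real_cosh] at h2
    have h3 : Real.exp (t * s) / 2 ≤ T0 := by
      refine le_trans ?_ h2
      rw [Real.cosh_eq]
      have := Real.exp_pos (-(((t : ℤ) : ℝ) * s))
      have e : ((t : ℤ) : ℝ) = (t : ℝ) := by push_cast; rfl
      rw [e] at this ⊢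
      linarith
    rw [div_le_iff₀ hT0pos]
    have h4 : Real.exp (-(t * s)) * Real.exp (t * s) = 1 := by
      rw [← Real.exp_add]; simp
    have h5 := Real.exp_pos (-((t : ℝ) * s))
    have h6 : Real.exp (-(t * s)) * (Real.exp (t * s) / 2) ≤ Real.exp (-(t * s)) * T0 :=
      mul_le_mul_of_nonneg_left h3 h5.le
    have h7 : Real.exp (-(t * s)) * (Real.exp (t * s) / 2) = 1 / 2 := by
      rw [← mul_div_assoc, h4]
    rw [h7] at h6
    linarith

end Pool.Agent.Helper579.Cg
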