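import Mathlib
import Pool.Agent.Helper579.CgBern
import Pool.Agent.Helper579.CgKern
import Pool.Agent.Helper579.CgGrow

set_option autoImplicit false

namespace Pool.Agent.Helper579.Cg

open Polynomial

/-- TARGET -/
lemma key_poly (A t : ℕ) (ht : 1 ≤ t) (Q : ℝ[X]) (hQ : Q.natDegree ≤ t) :
    ∃ r : ℝ[X], r.natDegree ≤ (A + 2) * t ∧ r.eval 0 = Q.eval 0 ∧
      (∀ u ∈ Set.Icc (0 : ℝ) 1, |r.eval u| ≤ |Q.eval u| ∧
        (r.eval u) ^ 2 * (((2 * t + 1) ^ 2 * u) ^ A) ≤ (Q.eval u) ^ 2) ∧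
      ∃ B : ℝ, 0 ≤ B ∧ (∀ u ∈ Set.Icc (0 : ℝ) 1, |r.eval u| ≤ B) ∧
        ∃ φ : ℝ, 1 / (8 * ((A : ℝ) + 2) * t) ≤ φ ∧ φ ≤ Real.pi / 2 ∧
          1 / (7 * ((A : ℝ) + 2)) ≤ Real.cos φ ∧
          ∀ ψ ∈ Set.Icc (φ - 1 / (8 * ((A : ℝ) + 2) * t)) φ,
            B / 2 ≤ |r.eval (Real.sin ψ ^ 2)| := by
  obtain ⟨D, hDdeg, hD0, hD⟩ := kern t
  have ht' : (1 : ℝ) ≤ t := by exact_mod_cast ht
  set K : ℝ := (A : ℝ) + 2 with hK
  have hK2 : 2 ≤ K := by rw [hK]; have : (0 : ℝ) ≤ A := Nat.cast_nonneg A; linarith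
  have hKpos : 0 < K := by linarith
  have hDA : (D ^ A).natDegree ≤ A * t :=
    natDegree_pow_le.trans (Nat.mul_le_mul_left _ hDdeg)
  obtain ⟨P0, hP0⟩ : ∃ P0 : ℝ[X], P0 = Q * D ^ A := ⟨_, rfl⟩
  obtain ⟨r, hr⟩ : ∃ r : ℝ[X], r = P0 * (1 - X) ^ t := ⟨_, rfl⟩
  have hP0deg : P0.natDegree ≤ (A + 1) * t := by
    rw [hP0]
    refine natDegree_mul_le.trans ?_
    calc Q.natDegree + (D ^ A).natDegree ≤ t + A * t := add_le_add hQ hDA
      _ = (A + 1) * t := by ring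
  have hX : ((1 - X : ℝ[X]) ^ t).natDegree ≤ t := by
    refine natDegree_pow_le.trans ?_
    have : (1 - X : ℝ[X]).natDegree ≤ 1 := by
      refine (natDegree_sub_le _ _).trans ?_
      simp
    calc t * (1 - X : ℝ[X]).natDegree ≤ t * 1 := Nat.mul_le_mul_left _ this
      _ = t := mul_one t
  have hrdeg : r.natDegree ≤ (A + 2) * t := by
    rw [hr]
    refine natDegree_mul_le.trans ?_
    calc P0.natDegree + ((1 - X : ℝ[X]) ^ t).natDegree ≤ (A + 1) * t + t := add_le_add hP0deg hX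
      _ = (A + 2) * t := by ring
  have hevP : ∀ u, P0.eval u = Q.eval u * (D.eval u) ^ A := by
    intro u; rw [hP0]; simp
  have hev : ∀ u, r.eval u = P0.eval u * (1 - u) ^ t := by
    intro u; rw [hr]; simp
  have habs : ∀ u ∈ Set.Icc (0 : ℝ) 1, |r.eval u| = |P0.eval u| * (1 - u) ^ t := by
    intro u hu
    rw [hev, abs_mul, abs_of_nonneg (pow_nonneg (show (0 : ℝ) ≤ 1 - u by linarith [hu.2]) t)]
  have h1u : ∀ u ∈ Set.Icc (0 : ℝ) 1, (1 - u) ^ t ≤ 1 := fun u hu =>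
    pow_le_one₀ (by linarith [hu.2]) (by linarith [hu.1])
  have h0u : ∀ u ∈ Set.Icc (0 : ℝ) 1, 0 ≤ (1 - u) ^ t := fun u hu =>
    pow_nonneg (by linarith [hu.2]) t
  -- the maximum
  set θ : ℝ := 1 / (48 * K ^ 2) with hθ
  set θ1 : ℝ := 1 / (16 * K ^ 2) with hθ1
  have hK2' : 4 ≤ K ^ 2 := by nlinarith
  have hθpos : 0 < θ := by rw [hθ]; positivity
  have hθ1pos : 0 < θ1 := by rw [hθ1]; positivity
  have hθ13 : θ = θ1 / 3 := by rw [hθ, hθ1]; field_simp; norm_num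
  have hθ1le : θ1 ≤ 1 / 2 := by
    rw [hθ1]
    apply one_div_le_one_div_of_le (by norm_num)
    linarith
  have hθle : θ ≤ θ1 := by linarith
  have hcont : ∀ P : ℝ[X], Continuous fun u => |P.eval u| := fun P => P.continuous.abs
  obtain ⟨v, hv, hvmax⟩ := (isCompact_Icc (a := (0 : ℝ)) (b := 1 - θ1)).exists_isMaxOn
    ⟨0, by constructor <;> linarith⟩ (hcont P0).continuousOn
  obtain ⟨us, hus, husmax⟩ := (isCompact_Icc (a := (0 : ℝ)) (b := 1 - θ)).exists_isMaxOn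
    ⟨0, by constructor <;> linarith⟩ (hcont r).continuousOn
  have hsq : √θ1 = 1 / (4 * K) := by
    rw [hθ1]
    have : (1 : ℝ) / (16 * K ^ 2) = (1 / (4 * K)) ^ 2 := by field_simp; norm_num
    rw [this, Real.sqrt_sq (by positivity)]
  have hgrow := growth (N := (A + 2) * t) (hP0deg.trans (by nlinarith)) hθ1pos hθ1le
    (M := |P0.eval v|) (fun y hy => hvmax hy)
  have hexp : (4 : ℝ) * ((A + 2) * t : ℕ) * √θ1 = t := by
    rw [hsq]; push_cast; rw [← hK]; field_simp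
  rw [hexp] at hgrow
  have hv1 : v ∈ Set.Icc (0 : ℝ) 1 := ⟨hv.1, by linarith [hv.2]⟩
  have hvr : |P0.eval v| * θ1 ^ t ≤ |r.eval v| := by
    rw [habs v hv1]
    refine mul_le_mul_of_nonneg_left ?_ (abs_nonneg _)
    exact pow_le_pow_left₀ hθ1pos.le (by linarith [hv.2]) t
  have hvus : |r.eval v| ≤ |r.eval us| := husmax ⟨hv.1, by linarith [hv.2]⟩
  have hmax : ∀ u ∈ Set.Icc (0 : ℝ) 1, |r.eval u| ≤ |r.eval us| := by
    intro u hu
    rcases le_total u (1 - θ) with h | h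
    · exact husmax ⟨hu.1, h⟩
    · refine le_trans ?_ (hvr.trans hvus)
      rw [habs u hu]
      have h1 : |P0.eval u| ≤ |P0.eval v| * Real.exp t := hgrow u ⟨by linarith, hu.2⟩
      have h2 : (1 - u) ^ t ≤ θ ^ t :=
        pow_le_pow_left₀ (by linarith [hu.2]) (by linarith) t
      have h3 : Real.exp t * θ ^ t ≤ θ1 ^ t := by
        have h4 : Real.exp (t : ℝ) = Real.exp 1 ^ t := by
          rw [← Real.exp_nat_mul, mul_one]
        rw [h4, ← mul_pow]
        refine pow_le_pow_left₀ (by positivity) ?_ t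
        rw [hθ13]
        have := Real.exp_one_lt_d9
        nlinarith
      calc |P0.eval u| * (1 - u) ^ t ≤ (|P0.eval v| * Real.exp t) * θ ^ t :=
            mul_le_mul h1 h2 (h0u u hu) (by positivity)
        _ = |P0.eval v| * (Real.exp t * θ ^ t) := by ring
        _ ≤ |P0.eval v| * θ1 ^ t := mul_le_mul_of_nonneg_left h3 (abs_nonneg _)
  have hus1 : us ∈ Set.Icc (0 : ℝ) 1 := ⟨hus.1, by linarith [hus.2]⟩
  refine ⟨r, hrdeg, ?_, ?_, |r.eval us|, abs_nonneg _, hmax, ?_⟩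
  · rw [hev, hevP, hD0]; simp
  · intro u hu
    obtain ⟨hd1, hd2⟩ := hD u hu
    have hle1 : |r.eval u| ≤ |P0.eval u| := by
      rw [habs u hu]
      exact mul_le_of_le_one_right (abs_nonneg _) (h1u u hu)
    have hP0u : |P0.eval u| ≤ |Q.eval u| := by
      rw [hevP, abs_mul, abs_pow]
      exact mul_le_of_le_one_right (abs_nonneg _) (pow_le_one₀ (abs_nonneg _) hd1)
    refine ⟨hle1.trans hP0u, ?_⟩
    have h5 : (r.eval u) ^ 2 ≤ (P0.eval u) ^ 2 := by
      rw [← sq_abs (r.eval u), ← sq_abs (P0.eval u)]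
      exact pow_le_pow_left₀ (abs_nonneg _) hle1 2
    have h6 : (0 : ℝ) ≤ ((2 * (t : ℝ) + 1) ^ 2 * u) ^ A := pow_nonneg (mul_nonneg (sq_nonneg _) hu.1) _
    calc (r.eval u) ^ 2 * (((2 * (t : ℝ) + 1) ^ 2 * u) ^ A)
        ≤ (P0.eval u) ^ 2 * (((2 * (t : ℝ) + 1) ^ 2 * u) ^ A) := mul_le_mul_of_nonneg_right h5 h6
      _ = (Q.eval u) ^ 2 * ((D.eval u) ^ 2 * ((2 * (t : ℝ) + 1) ^ 2 * u)) ^ A := by
          rw [hevP, mul_pow ((D.eval u) ^ 2), mul_pow (Q.eval u), ← pow_mul, ← pow_mul, mul_comm A 2,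
            mul_assoc]
      _ ≤ (Q.eval u) ^ 2 * 1 := by
          refine mul_le_mul_of_nonneg_left ?_ (sq_nonneg _)
          exact pow_le_one₀ (mul_nonneg (sq_nonneg _) (mul_nonneg (sq_nonneg _) hu.1)) hd2
      _ = (Q.eval u) ^ 2 := mul_one _
  · -- the angle
    set h : ℝ := 1 / (8 * K * t) with hh
    have hhpos : 0 < h := by rw [hh]; positivity
    have hh16 : h ≤ 1 / 16 := by
      rw [hh]
      apply one_div_le_one_div_of_le (by norm_num)
      nlinarith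
    set φs : ℝ := Real.arcsin √us with hφs
    have hsq0 : 0 ≤ √us := Real.sqrt_nonneg _
    have hsq1 : √us ≤ 1 := Real.sqrt_le_one.mpr hus1.2
    have hsin : Real.sin φs ^ 2 = us := by
      rw [hφs, Real.sin_arcsin (by linarith) hsq1, Real.sq_sqrt hus1.1]
    have hφs0 : 0 ≤ φs := Real.arcsin_nonneg.mpr hsq0
    have hφspi : φs ≤ Real.pi / 2 := Real.arcsin_le_pi_div_two _
    have hcoss : 1 / (7 * K) ≤ Real.cos φs := by
      rw [hφs, Real.cos_arcsin, Real.sq_sqrt hus1.1]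
      apply Real.le_sqrt_of_sq_le
      have h7 : (1 / (7 * K)) ^ 2 ≤ θ := by
        rw [hθ, div_pow, one_pow, mul_pow]
        apply one_div_le_one_div_of_le (by positivity)
        nlinarith
      linarith [hus.2]
    have hbern : ∀ ψ : ℝ, |ψ - φs| ≤ h → |r.eval us| / 2 ≤ |r.eval (Real.sin ψ ^ 2)| := by
      intro ψ hψ
      have h8 := bern (N := (A + 2) * t) hrdeg (B := |r.eval us|) hmax ψ φs
      rw [hsin] at h8
      have h9 : (4 : ℝ) * ((A + 2) * t : ℕ) * |r.eval us| * |ψ - φs| ≤ |r.eval us| / 2 := by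
        calc (4 : ℝ) * ((A + 2) * t : ℕ) * |r.eval us| * |ψ - φs|
            ≤ (4 : ℝ) * ((A + 2) * t : ℕ) * |r.eval us| * h :=
              mul_le_mul_of_nonneg_left hψ (by positivity)
          _ = |r.eval us| / 2 := by
              rw [hh]; push_cast; rw [← hK]; field_simp; ring
      have h10 := abs_sub_abs_le_abs_sub (r.eval us) (r.eval (Real.sin ψ ^ 2))
      rw [abs_sub_comm] at h8
      linarith
    refine ⟨max φs h, le_max_right _ _, max_le hφspi (by linarith [Real.pi_gt_three]), ?_, ?_⟩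
    · rcases le_total φs h with h11 | h11
      · rw [max_eq_right h11]
        have h12 := Real.one_sub_sq_div_two_le_cos (x := h)
        have h13 : 1 / (7 * K) ≤ 1 / 14 := by
          apply one_div_le_one_div_of_le (by norm_num)
          linarith
        nlinarith
      · rw [max_eq_left h11]; exact hcoss
    · intro ψ hψ
      apply hbern
      rw [abs_le]
      rcases le_total φs h with h11 | h11
      · rw [max_eq_right h11] at hψ
        constructor <;> linarith [hψ.1, hψ.2]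
      · rw [max_eq_left h11] at hψ
        constructor <;> linarith [hψ.1, hψ.2]

end Pool.Agent.Helper579.Cg
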