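import Mathlib
import Pool.Agent.Helper579.CgKeyPoly

set_option autoImplicit false

namespace Pool.Agent.Helper579.Cg

open Polynomial

/-- TARGET: `k0 A C' p t = m (4 π N)^(2/p)`, with `m = C' t`, `N = (A + 2) t` -/
noncomputable def k0 (A C' : ℕ) (p : ℝ) (t : ℕ) : ℝ :=
  (C' * t : ℕ) * (4 * Real.pi * ((A + 2) * t : ℕ)) ^ (2 / p)

lemma pow_aux {x p : ℝ} (hx : 0 < x) (A : ℕ) : (x ^ (-p)) ^ A = x ^ (-(p * A)) := by
  rw [← Real.rpow_natCast, ← Real.rpow_mul hx.le]; congr 1; ring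

lemma case1_alg {p K ρ c0 c2 : ℝ} {A : ℕ} (hp : 0 < p) (hK : 1 ≤ K) (hρ : 0 < ρ) (hρ1 : ρ ≤ 1)
    (hpA : 6 ≤ p * A) (hc0 : 0 < c0) (hc2 : 0 < c2) :
    c0 * c2 ^ A * 2 ^ (-p) * 2 ^ (-(p * A)) * K ^ (1 - p) ≤
      (2 * (ρ * K)) ^ (-p) * (c2 * (K / (2 * (ρ * K))) ^ p) ^ A * ((ρ * K) * (c0 * ρ ^ (p / 2))) := by
  have hK0 : 0 < K := by linarith
  have e1 : (2 * (ρ * K)) ^ (-p) = 2 ^ (-p) * (ρ ^ (-p) * K ^ (-p)) := by
    rw [Real.mul_rpow (by norm_num) (by positivity), Real.mul_rpow hρ.le hK0.le]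
  have e2 : (K / (2 * (ρ * K))) ^ p = 2 ^ (-p) * ρ ^ (-p) := by
    have : K / (2 * (ρ * K)) = (2 * ρ)⁻¹ := by field_simp
    rw [this, Real.inv_rpow (by positivity), ← Real.rpow_neg (by positivity), Real.mul_rpow (by norm_num) hρ.le]
  have e3 : (c2 * (K / (2 * (ρ * K))) ^ p) ^ A = c2 ^ A * (2 ^ (-(p * A)) * ρ ^ (-(p * A))) := by
    rw [e2, mul_pow, mul_pow, pow_aux (by norm_num), pow_aux hρ]
  have e4 : K ^ (-p) * K = K ^ (1 - p) := by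
    rw [← Real.rpow_add_one hK0.ne']; congr 1; ring
  have e5 : ρ ^ (-p) * ρ ^ (-(p * A)) * ρ * ρ ^ (p / 2) = ρ ^ (-p + -(p * A) + 1 + p / 2) := by
    rw [Real.rpow_add hρ, Real.rpow_add_one hρ.ne', Real.rpow_add hρ]
  have e6 : 1 ≤ ρ ^ (-p + -(p * A) + 1 + p / 2) := by
    apply Real.one_le_rpow_of_pos_of_le_one_of_nonpos hρ hρ1
    nlinarith
  have e7 : (2 * (ρ * K)) ^ (-p) * (c2 * (K / (2 * (ρ * K))) ^ p) ^ A * ((ρ * K) * (c0 * ρ ^ (p / 2))) =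
      (c0 * c2 ^ A * 2 ^ (-p) * 2 ^ (-(p * A)) * K ^ (1 - p)) * (ρ ^ (-p + -(p * A) + 1 + p / 2)) := by
    rw [e1, e3, ← e4, ← e5]; ring
  rw [e7]
  exact le_mul_of_one_le_right (by positivity) e6

lemma case2_alg {p R c2 δ a : ℝ} {A : ℕ} (hp : 0 < p) (hp1 : p ≤ 1) (hR : 1 ≤ R) (ha : 0 < a) (haR : a ≤ 2 * R)
    (hpA : 6 ≤ p * A) (hδ : 0 < δ) (hc2 : 0 < c2) :
    (δ / 4 * 2 ^ (-p) * c2 ^ A * 2 ^ (-(p * A))) * (R ^ 2) ^ (1 - p) ≤
      a ^ (-p) * (δ / a ^ 2) * (c2 * (R ^ 2 / a) ^ p) ^ A := by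
  have hR0 : 0 < R := by linarith
  have e1 : 2 ^ (-p) * R ^ (-p) ≤ a ^ (-p) := by
    rw [← Real.mul_rpow (by norm_num) hR0.le]
    exact Real.rpow_le_rpow_of_nonpos ha haR (by linarith)
  have e2 : δ / (4 * R ^ 2) ≤ δ / a ^ 2 := by
    apply div_le_div_of_nonneg_left hδ.le (by positivity)
    nlinarith
  have e3 : (2:ℝ) ^ (-p) * R ^ p ≤ (R ^ 2 / a) ^ p := by
    have h1 : (2:ℝ) ^ (-p) * R ^ p = (R / 2) ^ p := by
      rw [Real.div_rpow hR0.le (by norm_num), Real.rpow_neg (by norm_num)]; field_simp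
    rw [h1]
    apply Real.rpow_le_rpow (by positivity) _ hp.le
    rw [div_le_div_iff₀ (by norm_num) ha]
    nlinarith
  have e4 : c2 ^ A * (2 ^ (-(p * A)) * R ^ (p * A)) ≤ (c2 * (R ^ 2 / a) ^ p) ^ A := by
    have h1 : (R ^ p) ^ A = R ^ (p * A) := by
      rw [← Real.rpow_natCast, ← Real.rpow_mul hR0.le]
    rw [← pow_aux (by norm_num : (0:ℝ) < 2), ← h1, ← mul_pow, ← mul_pow]
    apply pow_le_pow_left₀ (by positivity)
    exact mul_le_mul_of_nonneg_left e3 hc2.le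
  have e5 : (R ^ 2) ^ (1 - p) = R ^ (2 - 2 * p) := by
    rw [← Real.rpow_natCast, ← Real.rpow_mul hR0.le]; congr 1; push_cast; ring
  have e6 : R ^ (2 - 2 * p) ≤ R ^ (-p) * (R ^ 2)⁻¹ * R ^ (p * A) := by
    have h1 : (R ^ 2)⁻¹ = R ^ (-2 : ℝ) := by
      rw [Real.rpow_neg hR0.le]; norm_num
    rw [h1, ← Real.rpow_add hR0, ← Real.rpow_add hR0]
    apply Real.rpow_le_rpow_of_exponent_le hR
    nlinarith
  have e7 : (δ / 4 * 2 ^ (-p) * c2 ^ A * 2 ^ (-(p * A))) * (R ^ 2) ^ (1 - p) ≤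
      (2 ^ (-p) * R ^ (-p)) * (δ / (4 * R ^ 2)) * (c2 ^ A * (2 ^ (-(p * A)) * R ^ (p * A))) := by
    rw [e5]
    calc (δ / 4 * 2 ^ (-p) * c2 ^ A * 2 ^ (-(p * A))) * R ^ (2 - 2 * p) ≤
        (δ / 4 * 2 ^ (-p) * c2 ^ A * 2 ^ (-(p * A))) * (R ^ (-p) * (R ^ 2)⁻¹ * R ^ (p * A)) := mul_le_mul_of_nonneg_left e6 (by positivity)
      _ = _ := by field_simp
  refine e7.trans ?_
  apply mul_le_mul (mul_le_mul e1 e2 (by positivity) (by positivity)) e4 (by positivity) (by positivity)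

lemma sin_tangent {φ h : ℝ} (h0 : 0 < h) (h1 : 0 ≤ φ - h) (h2 : φ ≤ Real.pi) :
    Real.sin (φ - h) ≤ Real.sin φ - h * Real.cos φ := by
  obtain ⟨ξ, hξ, hξ2⟩ := exists_hasDerivAt_eq_slope Real.sin Real.cos (show φ - h < φ by linarith)
    Real.continuous_sin.continuousOn (fun x _ => Real.hasDerivAt_sin x)
  have h3 : Real.cos φ ≤ Real.cos ξ :=
    Real.cos_le_cos_of_nonneg_of_le_pi (by linarith [hξ.1]) h2 hξ.2.le
  have h4 : φ - (φ - h) = h := by ring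
  rw [h4, eq_div_iff h0.ne'] at hξ2
  nlinarith

lemma arcsin_mem {φ h c0 y σ : ℝ} (h0 : 0 < h) (h1 : 0 ≤ φ - h) (h2 : φ ≤ Real.pi / 2) (hc : c0 ≤ Real.cos φ)
    (hy : y * Real.sin φ ≤ c0 * h) (hσ1 : Real.sin φ * (1 - y) ≤ σ) (hσ2 : σ ≤ Real.sin φ) (hσ0 : 0 ≤ σ) :
    Real.arcsin σ ∈ Set.Icc (φ - h) φ ∧ Real.sin (Real.arcsin σ) = σ := by
  have hpi := Real.pi_pos
  have hs1 := Real.sin_le_one φ
  refine ⟨⟨?_, ?_⟩, Real.sin_arcsin (by linarith) (by linarith)⟩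
  · have h3 := sin_tangent h0 h1 (by linarith)
    have h4 : Real.sin (φ - h) ≤ σ := by nlinarith
    calc φ - h = Real.arcsin (Real.sin (φ - h)) := (Real.arcsin_sin (by linarith) (by linarith)).symm
      _ ≤ Real.arcsin σ := Real.monotone_arcsin h4
  · calc Real.arcsin σ ≤ Real.arcsin (Real.sin φ) := Real.monotone_arcsin hσ2
      _ = φ := Real.arcsin_sin (by linarith) (by linarith)

lemma bern_kn {y p : ℝ} (hy : 0 ≤ y) (hp : 0 < p) (hp1 : p ≤ 1) : 1 - y ≤ (1 + y) ^ (-(p / 2)) := by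
  have h1 : (1 + y) ^ (-1 : ℝ) ≤ (1 + y) ^ (-(p / 2)) :=
    Real.rpow_le_rpow_of_exponent_le (by linarith) (by linarith)
  refine le_trans ?_ h1
  rw [Real.rpow_neg_one, ← one_div, le_div_iff₀ (by linarith)]
  nlinarith

lemma sigma_facts {p M s y k c0 W : ℝ} (hp : 0 < p) (hp1 : p ≤ 1) (hM : 0 < M) (hs : 0 < s)
    (hy : 0 ≤ y) (hk1 : M * s ^ (-(2 / p)) ≤ k) (hk2 : k ≤ M * s ^ (-(2 / p)) * (1 + y)) :
    (k / M) ^ (-(p / 2)) ≤ s ∧ s * (1 - y) ≤ (k / M) ^ (-(p / 2)) ∧ 0 < (k / M) ^ (-(p / 2)) ∧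
    ((k / M) ^ (-(p / 2))) ^ 2 = (k / M) ^ (-p) ∧ M ^ (-p) * (k / M) ^ (-p) = k ^ (-p) := by
  have hz : 0 < s ^ (-(2 / p)) := Real.rpow_pos_of_pos hs _
  have hk : 0 < k := lt_of_lt_of_le (by positivity) hk1
  have hkM : 0 < k / M := by positivity
  have e1 : (s ^ (-(2 / p))) ^ (-(p / 2)) = s := by
    rw [← Real.rpow_mul hs.le]
    have : -(2 / p) * -(p / 2) = 1 := by field_simp
    rw [this, Real.rpow_one]
  refine ⟨?_, ?_, by positivity, ?_, ?_⟩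
  · rw [← e1]
    have h1 : s ^ (-(2 / p)) ≤ k / M := by rw [le_div_iff₀ hM]; linarith
    have := Real.rpow_le_rpow_of_nonpos hz h1 (by linarith : -(p / 2) ≤ 0)
    rw [e1] at this ⊢
    exact this
  · have h1 : k / M ≤ s ^ (-(2 / p)) * (1 + y) := by rw [div_le_iff₀ hM]; linarith
    have h2 := Real.rpow_le_rpow_of_nonpos hkM h1 (by linarith : -(p / 2) ≤ 0)
    rw [Real.mul_rpow hz.le (by linarith), e1] at h2
    exact le_trans (mul_le_mul_of_nonneg_left (bern_kn hy hp hp1) hs.le) h2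
  · rw [← Real.rpow_natCast, ← Real.rpow_mul hkM.le]; congr 1; push_cast; ring
  · rw [← Real.mul_rpow hM.le hkM.le]; congr 1; field_simp

lemma weight_est {p M k : ℝ} {A t : ℕ} (hp : 0 < p) (hM : 0 < M) (hk : 0 < k) (ht : 1 ≤ t) :
    (1 / (2 * Real.pi * ((A : ℝ) + 2)) ^ 2) * ((M * (4 * Real.pi * (((A : ℝ) + 2) * t)) ^ (2 / p)) / k) ^ p ≤
      (2 * (t : ℝ) + 1) ^ 2 * (k / M) ^ (-p) := by
  have hpi := Real.pi_pos
  have htr : (1 : ℝ) ≤ t := by exact_mod_cast ht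
  set W := 4 * Real.pi * (((A : ℝ) + 2) * t) with hW
  have hW0 : 0 < W := by positivity
  have e1 : ((M * W ^ (2 / p)) / k) ^ p = (k / M) ^ (-p) * W ^ 2 := by
    have h1 : (M * W ^ (2 / p)) / k = (k / M)⁻¹ * W ^ (2 / p) := by field_simp
    rw [h1, Real.mul_rpow (by positivity) (by positivity), Real.inv_rpow (by positivity), ← Real.rpow_neg (by positivity),
      ← Real.rpow_mul hW0.le]
    congr 1
    have : 2 / p * p = 2 := by field_simp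
    rw [this]; norm_num
  rw [e1]
  have e2 : (1 / (2 * Real.pi * ((A : ℝ) + 2)) ^ 2) * ((k / M) ^ (-p) * W ^ 2) = (2 * (t : ℝ)) ^ 2 * (k / M) ^ (-p) := by
    rw [hW]; field_simp; ring
  rw [e2]
  apply mul_le_mul_of_nonneg_right _ (by positivity)
  nlinarith

set_option maxHeartbeats 4000000 in
/-- the estimate, core version; the nodes are `k^(-p)`, `1 ≤ k ≤ n`. -/
lemma key_nodes_core {p : ℝ} (hp : 0 < p) (hp1 : p ≤ 1) {δ : ℝ} (hδ : 0 < δ) :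
    ∃ (A C' : ℕ) (c C : ℝ), 1 ≤ C' ∧ 0 < c ∧ 0 < C ∧ ∀ (t n : ℕ) (ξ : ℕ → ℝ), 1 ≤ t →
      2 * k0 A C' p t ≤ n →
      (∀ k, 1 ≤ k → k ≤ n → δ / (k : ℝ) ^ 2 ≤ ξ k) →
      (∀ a ℓ : ℕ, 1 ≤ a → a + ℓ ≤ n + 1 → c * (k0 A C' p t) ^ (1 / 4 : ℝ) ≤ ℓ →
        (ℓ : ℝ) / 4 ≤ ∑ j ∈ Finset.Ico a (a + ℓ), ξ j) →
      ∀ q : ℝ[X], q.natDegree ≤ t →
      ∃ r : ℝ[X], r.natDegree ≤ (A + 2) * t ∧ r.eval 0 = q.eval 0 ∧
        (∀ u ∈ Set.Icc (0 : ℝ) 1, |r.eval u| ≤ |q.eval (((C' * t : ℕ) : ℝ) ^ (-p) * u)|) ∧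
        ∃ B : ℝ, 0 ≤ B ∧ (∀ u ∈ Set.Icc (0 : ℝ) 1, |r.eval u| ≤ B) ∧
          B ^ 2 ≤ C * (∑ k ∈ Finset.Icc 1 n, (k : ℝ) ^ (-p) * (q.eval ((k : ℝ) ^ (-p))) ^ 2 * ξ k)
            / (k0 A C' p t) ^ (1 - p) := by
  have hpi := Real.pi_pos
  obtain ⟨A, hpA⟩ : ∃ A : ℕ, 6 ≤ p * A := by
    refine ⟨⌈6 / p⌉₊, ?_⟩
    have := Nat.le_ceil (6 / p)
    rw [div_le_iff₀ hp] at this
    linarith
  have hA2 : (0:ℝ) < (A:ℝ) + 2 := by positivity
  obtain ⟨c0, hc0⟩ : ∃ c0 : ℝ, c0 = 1 / (7 * ((A:ℝ) + 2)) := ⟨_, rfl⟩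
  have hc00 : 0 < c0 := by rw [hc0]; positivity
  have hc01 : c0 ≤ 1 := by
    rw [hc0, div_le_one (by positivity)]
    have : (0:ℝ) ≤ A := Nat.cast_nonneg A
    linarith
  obtain ⟨C', hC1, hC2⟩ : ∃ C' : ℕ, 1 ≤ C' ∧ 4 * Real.pi * ((A:ℝ) + 2) / c0 ≤ C' := by
    refine ⟨max 1 ⌈4 * Real.pi * ((A:ℝ) + 2) / c0⌉₊, le_max_left _ _, ?_⟩
    refine (Nat.le_ceil _).trans ?_
    exact_mod_cast le_max_right _ _
  obtain ⟨c2, hc2⟩ : ∃ c2 : ℝ, c2 = 1 / (2 * Real.pi * ((A : ℝ) + 2)) ^ 2 := ⟨_, rfl⟩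
  have hc20 : 0 < c2 := by rw [hc2]; positivity
  obtain ⟨c3, hc3⟩ : ∃ c3 : ℝ, c3 = c0 * c2 ^ A * 2 ^ (-p) * 2 ^ (-(p * A)) / 32 := ⟨_, rfl⟩
  have hc30 : 0 < c3 := by rw [hc3]; positivity
  obtain ⟨c4, hc4⟩ : ∃ c4 : ℝ, c4 = (δ / 4 * 2 ^ (-p) * c2 ^ A * 2 ^ (-(p * A))) / 4 := ⟨_, rfl⟩
  have hc40 : 0 < c4 := by rw [hc4]; positivity
  refine ⟨A, C', c0 / 2, 1 / c3 + 1 / c4, hC1, by positivity, by positivity, ?_⟩
  intro t n ξ ht hn hξ1 hξ2 q hq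
  have htr : (1 : ℝ) ≤ t := by exact_mod_cast ht
  obtain ⟨M, hM⟩ : ∃ M : ℝ, M = ((C' * t : ℕ) : ℝ) := ⟨_, rfl⟩
  have hMC : M = (C' : ℝ) * t := by rw [hM]; push_cast; ring
  have hM1 : 1 ≤ M := by
    rw [hM]; exact_mod_cast Nat.one_le_iff_ne_zero.mpr (by positivity)
  have hM0 : 0 < M := by linarith
  obtain ⟨W, hW⟩ : ∃ W : ℝ, W = 4 * Real.pi * (((A : ℝ) + 2) * t) := ⟨_, rfl⟩
  have hW0 : 0 < W := by rw [hW]; positivity
  obtain ⟨K, hK⟩ : ∃ K : ℝ, K = k0 A C' p t := ⟨_, rfl⟩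
  have hKW : K = M * W ^ (2 / p) := by
    rw [hK, k0, hM, hW]; push_cast; ring
  rw [← hK] at hn hξ2 ⊢
  have hQdeg : (q.comp (C (M ^ (-p)) * X)).natDegree ≤ t := by
    refine natDegree_comp_le.trans ?_
    have h1 : (C (M ^ (-p)) * X : ℝ[X]).natDegree ≤ 1 := (natDegree_C_mul_le _ _).trans natDegree_X_le
    calc q.natDegree * (C (M ^ (-p)) * X : ℝ[X]).natDegree ≤ t * 1 := Nat.mul_le_mul hq h1
      _ = t := mul_one t
  have hQe : ∀ u, (q.comp (C (M ^ (-p)) * X)).eval u = q.eval (M ^ (-p) * u) := by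
    intro u; simp
  obtain ⟨r, hr1, hr2, hr3, B, hB0, hrB, φ, hφ1, hφ2, hφ3, hφ4⟩ := key_poly A t ht _ hQdeg
  refine ⟨r, hr1, ?_, ?_, B, hB0, hrB, ?_⟩
  · rw [hr2, hQe, mul_zero]
  · intro u hu
    rw [← hM, ← hQe]
    exact (hr3 u hu).1
  -- geometry
  obtain ⟨h, hh⟩ : ∃ h : ℝ, h = 1 / (8 * ((A : ℝ) + 2) * t) := ⟨_, rfl⟩
  rw [← hh] at hφ1 hφ4
  rw [← hc0] at hφ3
  have hh0 : 0 < h := by rw [hh]; positivity
  have hWh : W * h = Real.pi / 2 := by rw [hW, hh]; field_simp; norm_num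
  have hW1 : 1 ≤ W := by
    have h3 : (2:ℝ) * 1 ≤ ((A:ℝ) + 2) * t := by
      have : (0:ℝ) ≤ A := Nat.cast_nonneg A
      nlinarith
    have := Real.pi_gt_three
    rw [hW]
    exact one_le_mul_of_one_le_of_one_le (by linarith) (by linarith)
  obtain ⟨s, hs⟩ : ∃ s : ℝ, s = Real.sin φ := ⟨_, rfl⟩
  have hs1 : s ≤ 1 := by rw [hs]; exact Real.sin_le_one φ
  have hsW : 1 ≤ s * W := by
    have h1 : 2 / Real.pi * φ ≤ s := by rw [hs]; exact Real.mul_le_sin (by linarith) hφ2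
    have h2 : 2 / Real.pi * h ≤ s := le_trans (mul_le_mul_of_nonneg_left hφ1 (by positivity)) h1
    calc (1:ℝ) = (2 / Real.pi * h) * W := by
          have : (2 / Real.pi * h) * W = 2 / Real.pi * (W * h) := by ring
          rw [this, hWh]; field_simp
      _ ≤ s * W := mul_le_mul_of_nonneg_right h2 hW0.le
  have hs0 : 0 < s := by
    by_contra hcon
    have : s * W ≤ 0 := mul_nonpos_of_nonpos_of_nonneg (not_lt.mp hcon) hW0.le
    linarith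
  have hsW0 : 0 < s * W := by positivity
  obtain ⟨ρ, hρ⟩ : ∃ ρ : ℝ, ρ = (s * W) ^ (-(2 / p)) := ⟨_, rfl⟩
  have hρ0 : 0 < ρ := by rw [hρ]; positivity
  have hρ1 : ρ ≤ 1 := by
    rw [hρ]; exact Real.rpow_le_one_of_one_le_of_nonpos hsW (by have : 0 < 2 / p := by positivity
                                                                linarith)
  obtain ⟨k2, hk2⟩ : ∃ k2 : ℝ, k2 = M * s ^ (-(2 / p)) := ⟨_, rfl⟩
  have hk2ρ : k2 = ρ * K := by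
    rw [hk2, hρ, hKW, Real.mul_rpow hs0.le hW0.le]
    have : W ^ (-(2 / p)) * W ^ (2 / p) = 1 := by rw [← Real.rpow_add hW0]; simp
    linear_combination (-(M * s ^ (-(2 / p)))) * this
  have hsp1 : 1 ≤ s ^ (-(2 / p)) := Real.one_le_rpow_of_pos_of_le_one_of_nonpos hs0 hs1 (by
    have : 0 < 2 / p := by positivity
    linarith)
  have hk2M : M ≤ k2 := by rw [hk2]; exact le_mul_of_one_le_right hM0.le hsp1
  have hk20 : 0 < k2 := by linarith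
  have hK1 : 1 ≤ K := by
    have : k2 ≤ K := by rw [hk2ρ]; exact mul_le_of_le_one_left (by rw [hKW]; positivity) hρ1
    linarith
  have hK0 : 0 < K := by linarith
  have hk2K : k2 ≤ K := by rw [hk2ρ]; exact mul_le_of_le_one_left hK0.le hρ1
  obtain ⟨y, hy⟩ : ∃ y : ℝ, y = c0 * (s * W)⁻¹ := ⟨_, rfl⟩
  have hy0 : 0 < y := by rw [hy]; positivity
  have hy1 : y ≤ 1 := by
    rw [hy]
    have : (s * W)⁻¹ ≤ 1 := inv_le_one_of_one_le₀ hsW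
    exact mul_le_one₀ hc01 (inv_nonneg.mpr hsW0.le) this
  have hyρ : y = c0 * ρ ^ (p / 2) := by
    rw [hy, hρ, ← Real.rpow_mul hsW0.le]
    have : -(2 / p) * (p / 2) = -1 := by field_simp
    rw [this, Real.rpow_neg_one]
  have hys : y * s ≤ c0 * h := by
    have h1 : y * s = c0 / W := by rw [hy]; field_simp
    have h2 : h = Real.pi / 2 / W := by rw [← hWh]; field_simp
    rw [h1, h2, mul_div_assoc']
    apply div_le_div_of_nonneg_right _ hW0.le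
    have := Real.pi_gt_three
    exact le_mul_of_one_le_right hc00.le (by linarith)
  have hlen1 : 1 ≤ k2 * y := by
    have h1 : M * c0 / W ≤ k2 * y := by
      have h2 : k2 * y = (M * c0 / W) * (s ^ (-(2 / p)) * s⁻¹) := by
        rw [hk2, hy]; field_simp
      rw [h2]
      apply le_mul_of_one_le_right (by positivity)
      have h3 : 1 ≤ s⁻¹ := (one_le_inv₀ hs0).mpr hs1
      exact one_le_mul_of_one_le_of_one_le hsp1 h3
    refine le_trans ?_ h1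
    rw [one_le_div hW0, hW, hMC]
    rw [div_le_iff₀ hc00] at hC2
    calc 4 * Real.pi * (((A:ℝ) + 2) * t) = (4 * Real.pi * ((A:ℝ) + 2)) * t := by ring
      _ ≤ (C' * c0) * t := mul_le_mul_of_nonneg_right hC2 (by linarith)
      _ = C' * t * c0 := by ring
  -- values at a point of the block
  have hpt : ∀ k : ℝ, k2 ≤ k → k ≤ k2 * (1 + y) →
      (B / 2) ^ 2 * (c2 * (K / k) ^ p) ^ A ≤ (q.eval (k ^ (-p))) ^ 2 := by
    intro k hk hk'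
    have hkpos : 0 < k := by linarith
    obtain ⟨f1, f2, f3, f4, f5⟩ := sigma_facts (k := k) (c0 := c0) (W := W) hp hp1 hM0 hs0 hy0.le (by rw [← hk2]; exact hk) (by rw [← hk2]; exact hk')
    obtain ⟨g1, g2⟩ := arcsin_mem (φ := φ) (h := h) (c0 := c0) (y := y) hh0 (by linarith) hφ2 hφ3 (by rw [← hs]; exact hys)
      (by rw [← hs]; exact f2) (by rw [← hs]; exact f1) f3.le
    have hB := hφ4 _ g1
    rw [g2, f4] at hB
    have hu : (k / M) ^ (-p) ∈ Set.Icc (0:ℝ) 1 := by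
      rw [← f4]
      exact ⟨sq_nonneg _, pow_le_one₀ f3.le (f1.trans hs1)⟩
    have h1 := (hr3 _ hu).2
    rw [hQe, f5] at h1
    refine le_trans ?_ h1
    have h2 : (B / 2) ^ 2 ≤ (r.eval ((k / M) ^ (-p))) ^ 2 := by
      rw [← sq_abs (r.eval _)]
      exact pow_le_pow_left₀ (by positivity) hB 2
    have h3 := weight_est (A := A) (t := t) hp hM0 hkpos ht
    rw [← hW, ← hKW, ← hc2] at h3
    apply mul_le_mul h2 (pow_le_pow_left₀ (by positivity) h3 A) (by positivity) (sq_nonneg _)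
  -- the block
  have hS0 : ∀ k ∈ Finset.Icc 1 n, 0 ≤ (k : ℝ) ^ (-p) * (q.eval ((k : ℝ) ^ (-p))) ^ 2 * ξ k := by
    intro k hk
    have h1 := Finset.mem_Icc.mp hk
    have h2 := hξ1 k h1.1 h1.2
    have h3 : 0 ≤ ξ k := le_trans (by positivity) h2
    positivity
  obtain ⟨S, hS⟩ : ∃ S : ℝ, S = ∑ k ∈ Finset.Icc 1 n, (k : ℝ) ^ (-p) * (q.eval ((k : ℝ) ^ (-p))) ^ 2 * ξ k := ⟨_, rfl⟩
  have hSnn : 0 ≤ S := by rw [hS]; exact Finset.sum_nonneg hS0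
  rw [← hS]
  set a : ℕ := ⌈k2⌉₊ with ha
  set l : ℕ := ⌊k2 * y⌋₊ with hl
  have ha1 : k2 ≤ a := Nat.le_ceil k2
  have ha2 : (a : ℝ) < k2 + 1 := Nat.ceil_lt_add_one hk20.le
  have hl1 : (l : ℝ) ≤ k2 * y := Nat.floor_le (by positivity)
  have hl2 : 1 ≤ l := Nat.le_floor (by push_cast; exact hlen1)
  have hl3 : k2 * y < l + 1 := Nat.lt_floor_add_one _
  have hl2r : (1:ℝ) ≤ l := by exact_mod_cast hl2
  have hl4 : k2 * y / 2 ≤ l := by linarith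
  have hlenk : k2 * y ≤ k2 := mul_le_of_le_one_right hk20.le hy1
  have ha3 : 1 ≤ a := by
    have : (1:ℝ) ≤ a := by linarith
    exact_mod_cast this
  have hal : a + l ≤ n + 1 := by
    have h1 : ((a + l : ℕ) : ℝ) < n + 1 + 1 := by push_cast; linarith
    have h2 : a + l < n + 1 + 1 := by exact_mod_cast h1
    omega
  have hblk : ∀ j ∈ Finset.Ico a (a + l), k2 ≤ (j : ℝ) ∧ (j : ℝ) ≤ k2 * (1 + y) ∧ (j : ℝ) ≤ 2 * k2 := by
    intro j hj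
    obtain ⟨h1, h2⟩ := Finset.mem_Ico.mp hj
    have h3 : (a : ℝ) ≤ j := by exact_mod_cast h1
    have h4 : (j : ℝ) + 1 ≤ a + l := by exact_mod_cast h2
    refine ⟨by linarith, by linarith, by linarith⟩
  have hsubset : Finset.Ico a (a + l) ⊆ Finset.Icc 1 n := by
    intro j hj
    obtain ⟨h1, h2⟩ := Finset.mem_Ico.mp hj
    rw [Finset.mem_Icc]; omega
  have hfin : ∀ c : ℝ, (c = c3 ∨ c = c4) → B ^ 2 * c * K ^ (1 - p) ≤ S →
      B ^ 2 ≤ (1 / c3 + 1 / c4) * S / K ^ (1 - p) := by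
    intro c hc hcS
    have hKp : 0 < K ^ (1 - p) := by positivity
    rw [le_div_iff₀ hKp]
    have hc0' : 0 < c := by rcases hc with rfl | rfl <;> assumption
    have h1 : B ^ 2 * K ^ (1 - p) ≤ (1 / c) * S := by
      rw [div_mul_eq_mul_div, one_mul, le_div_iff₀ hc0']
      linarith
    have h2 : 1 / c ≤ 1 / c3 + 1 / c4 := by
      have h3 : 0 < 1 / c3 := by positivity
      have h4 : 0 < 1 / c4 := by positivity
      rcases hc with rfl | rfl <;> linarith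
    exact h1.trans (mul_le_mul_of_nonneg_right h2 hSnn)
  rcases le_or_gt (Real.sqrt K) k2 with hcase | hcase
  · -- case 1
    apply hfin c3 (Or.inl rfl)
    have hlK : c0 / 2 * K ^ (1 / 4 : ℝ) ≤ l := by
      have h1 : K ^ (1 / 4 : ℝ) ≤ k2 * ρ ^ (p / 2) := by
        have h2 : K ^ (-(1 / 2) : ℝ) ≤ ρ := by
          have h3 : K ^ (-(1 / 2) : ℝ) * K = Real.sqrt K := by
            rw [Real.sqrt_eq_rpow, ← Real.rpow_add_one hK0.ne']; norm_num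
          have h4 : K ^ (-(1 / 2) : ℝ) * K ≤ ρ * K := by rw [h3, ← hk2ρ]; exact hcase
          exact le_of_mul_le_mul_right h4 hK0
        have h5 : k2 * ρ ^ (p / 2) = K * ρ ^ (1 + p / 2) := by
          rw [hk2ρ, Real.rpow_add hρ0, Real.rpow_one]; ring
        rw [h5]
        have h6 : (K ^ (-(1 / 2) : ℝ)) ^ (1 + p / 2) ≤ ρ ^ (1 + p / 2) :=
          Real.rpow_le_rpow (by positivity) h2 (by positivity)
        calc K ^ (1 / 4 : ℝ) ≤ K ^ (1 + -(1 / 2) * (1 + p / 2)) := by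
              apply Real.rpow_le_rpow_of_exponent_le hK1; linarith
          _ = K * (K ^ (-(1 / 2) : ℝ)) ^ (1 + p / 2) := by
              rw [Real.rpow_add hK0, Real.rpow_one, Real.rpow_mul hK0.le]
          _ ≤ _ := mul_le_mul_of_nonneg_left h6 hK0.le
      have h7 : k2 * y = c0 * (k2 * ρ ^ (p / 2)) := by rw [hyρ]; ring
      calc c0 / 2 * K ^ (1 / 4 : ℝ) ≤ c0 / 2 * (k2 * ρ ^ (p / 2)) := mul_le_mul_of_nonneg_left h1 (by positivity)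
        _ = k2 * y / 2 := by rw [h7]; ring
        _ ≤ l := hl4
    have hξs := hξ2 a l ha3 hal hlK
    have hblock : ((2 * k2) ^ (-p) * ((B / 2) ^ 2 * (c2 * (K / (2 * k2)) ^ p) ^ A)) * ∑ j ∈ Finset.Ico a (a + l), ξ j ≤ S := by
      rw [hS]
      refine le_trans ?_ (Finset.sum_le_sum_of_subset_of_nonneg hsubset (fun k hk _ => hS0 k hk))
      rw [Finset.mul_sum]
      apply Finset.sum_le_sum
      intro j hj
      obtain ⟨b1, b2, b3⟩ := hblk j hj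
      have hj0 : (0:ℝ) < j := by linarith
      have hjI := Finset.mem_Icc.mp (hsubset hj)
      have hξj : 0 ≤ ξ j := le_trans (by positivity) (hξ1 j hjI.1 hjI.2)
      apply mul_le_mul_of_nonneg_right _ hξj
      apply mul_le_mul
      · exact Real.rpow_le_rpow_of_nonpos hj0 b3 (by linarith)
      · refine le_trans ?_ (hpt j b1 b2)
        apply mul_le_mul_of_nonneg_left _ (sq_nonneg _)
        apply pow_le_pow_left₀ (by positivity)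
        apply mul_le_mul_of_nonneg_left _ hc20.le
        apply Real.rpow_le_rpow (by positivity) _ hp.le
        exact div_le_div_of_nonneg_left hK0.le hj0 b3
      · positivity
      · positivity
    refine le_trans ?_ hblock
    have h8 := case1_alg (A := A) (c0 := c0) (c2 := c2) hp hK1 hρ0 hρ1 hpA hc00 hc20
    rw [← hk2ρ, ← hyρ] at h8
    have h9 : k2 * y / 8 ≤ ∑ j ∈ Finset.Ico a (a + l), ξ j := by linarith
    calc B ^ 2 * c3 * K ^ (1 - p) = (B ^ 2 / 32) * (c0 * c2 ^ A * 2 ^ (-p) * 2 ^ (-(p * A)) * K ^ (1 - p)) := by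
          rw [hc3]; ring
      _ ≤ (B ^ 2 / 32) * ((2 * k2) ^ (-p) * (c2 * (K / (2 * k2)) ^ p) ^ A * (k2 * y)) :=
          mul_le_mul_of_nonneg_left h8 (by positivity)
      _ = ((2 * k2) ^ (-p) * ((B / 2) ^ 2 * (c2 * (K / (2 * k2)) ^ p) ^ A)) * (k2 * y / 8) := by ring
      _ ≤ _ := mul_le_mul_of_nonneg_left h9 (by positivity)
  · -- case 2
    apply hfin c4 (Or.inr rfl)
    have haI : a ∈ Finset.Ico a (a + l) := Finset.mem_Ico.mpr ⟨le_rfl, by omega⟩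
    obtain ⟨b1, b2, b3⟩ := hblk a haI
    have ha0 : (0:ℝ) < a := by linarith
    have hR1 : 1 ≤ Real.sqrt K := Real.one_le_sqrt.mpr hK1
    have h1 := case2_alg (A := A) (c2 := c2) (δ := δ) hp hp1 hR1 ha0 (by linarith) hpA hδ hc20
    rw [Real.sq_sqrt hK0.le] at h1
    have haIcc := hsubset haI
    have h2 : (a : ℝ) ^ (-p) * (q.eval ((a : ℝ) ^ (-p))) ^ 2 * ξ a ≤ S := by
      rw [hS]
      exact Finset.single_le_sum (f := fun k : ℕ => (k : ℝ) ^ (-p) * (q.eval ((k : ℝ) ^ (-p))) ^ 2 * ξ k) hS0 haIcc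
    refine le_trans ?_ h2
    have h3 := hpt a b1 b2
    have h4 := hξ1 a (Finset.mem_Icc.mp haIcc).1 (Finset.mem_Icc.mp haIcc).2
    calc B ^ 2 * c4 * K ^ (1 - p) = (B ^ 2 / 4) * ((δ / 4 * 2 ^ (-p) * c2 ^ A * 2 ^ (-(p * A))) * K ^ (1 - p)) := by
          rw [hc4]; ring
      _ ≤ (B ^ 2 / 4) * ((a : ℝ) ^ (-p) * (δ / (a : ℝ) ^ 2) * (c2 * (K / a) ^ p) ^ A) :=
          mul_le_mul_of_nonneg_left h1 (by positivity)
      _ = (a : ℝ) ^ (-p) * ((B / 2) ^ 2 * (c2 * (K / a) ^ p) ^ A) * (δ / (a : ℝ) ^ 2) := by ring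
      _ ≤ (a : ℝ) ^ (-p) * (q.eval ((a : ℝ) ^ (-p))) ^ 2 * ξ a := by
          apply mul_le_mul _ h4 (by positivity) (by positivity)
          exact mul_le_mul_of_nonneg_left h3 (by positivity)

/-- TARGET. The nodes are `k^(-p)`, `1 ≤ k ≤ n`. -/
lemma key_nodes {p : ℝ} (hp : 0 < p) (hp1 : p ≤ 1) {δ : ℝ} (hδ : 0 < δ) :
    ∃ (A C' : ℕ) (c C : ℝ), 1 ≤ C' ∧ 0 < c ∧ 0 < C ∧ ∀ (t n : ℕ) (ξ : ℕ → ℝ), 1 ≤ t →
      2 * k0 A C' p t ≤ n →
      (∀ k, 1 ≤ k → k ≤ n → δ / (k : ℝ) ^ 2 ≤ ξ k) →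
      (∀ a ℓ : ℕ, 1 ≤ a → a + ℓ ≤ n + 1 → c * (k0 A C' p t) ^ (1 / 4 : ℝ) ≤ ℓ →
        (ℓ : ℝ) / 4 ≤ ∑ j ∈ Finset.Ico a (a + ℓ), ξ j) →
      ∀ q : ℝ[X], q.natDegree ≤ t →
      ∃ r : ℝ[X], r.natDegree ≤ (A + 2) * t ∧ r.eval 0 = q.eval 0 ∧
        (∀ u ∈ Set.Icc (0 : ℝ) 1, |r.eval u| ≤ |q.eval (((C' * t : ℕ) : ℝ) ^ (-p) * u)|) ∧
        ∃ B : ℝ, 0 ≤ B ∧ (∀ u ∈ Set.Icc (0 : ℝ) 1, |r.eval u| ≤ B) ∧
          B ^ 2 ≤ C * (∑ k ∈ Finset.Icc 1 n, (k : ℝ) ^ (-p) * (q.eval ((k : ℝ) ^ (-p))) ^ 2 * ξ k)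
            / (k0 A C' p t) ^ (1 - p) := by
  exact key_nodes_core hp hp1 hδ

end Pool.Agent.Helper579.Cg
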