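import Mathlib
import Pool.Agent.Helper579.CgDefs
import Pool.Agent.Helper579.CgGrow
import Pool.Agent.Helper579.CgKeyNodes
import Pool.Agent.Helper579.CgCauchy
import Pool.Agent.Helper579.CgForm

set_option autoImplicit false

namespace Pool.Agent.Helper579.Cg

open Polynomial Filter
open scoped Topology

lemma sum_fin_Icc (n : ℕ) (G : ℕ → ℝ) :
    ∑ k : Fin n, G ((k : ℕ) + 1) = ∑ j ∈ Finset.Icc 1 n, G j := by
  rw [Fin.sum_univ_eq_sum_range (fun i => G (i + 1)) n, Finset.range_eq_Ico,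
    Finset.sum_Ico_add' G 0 n 1]
  refine Finset.sum_congr ?_ (fun _ _ => rfl)
  ext x
  simp only [Finset.mem_Ico, Finset.mem_Icc]
  omega

lemma pt_ineq {η1 r P e2 : ℝ} (h0 : 0 < η1) (h : (r - P) ^ 2 ≤ e2) :
    (1 - η1) * P ^ 2 - e2 / η1 ≤ r ^ 2 := by
  have h2 : η1 * ((1 - η1) * P ^ 2 - e2 / η1) ≤ η1 * r ^ 2 := by
    have h3 : η1 * ((1 - η1) * P ^ 2 - e2 / η1) = η1 * (1 - η1) * P ^ 2 - e2 := by field_simp
    rw [h3]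
    nlinarith [sq_nonneg (r - P), sq_nonneg (η1 * P + (r - P)),
      mul_nonneg h0.le (sq_nonneg (r - P))]
  exact le_of_mul_le_mul_left h2 h0

lemma lt_expand {p m : ℝ} (hm : 0 < m) {n k : ℕ} (hn : 1 ≤ n) (hk : 1 ≤ k) (J : ℕ) (a : ℕ → ℝ) :
    (k : ℝ) ^ (-p) * (∑ j ∈ Finset.range (J + 1), a j * ((m / k) ^ p) ^ j) ^ 2 =
    ∑ i ∈ Finset.range (J + 1), ∑ j ∈ Finset.range (J + 1),
      (a i * ((m / n) ^ p) ^ i) * (a j * ((m / n) ^ p) ^ j) *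
        ((n : ℝ) ^ (p * ((i + j : ℕ) : ℝ)) * (k : ℝ) ^ (-(p * (((i + j : ℕ) : ℝ) + 1)))) := by
  have hk0 : (0 : ℝ) < k := by exact_mod_cast hk
  have hn0 : (0 : ℝ) < n := by exact_mod_cast hn
  have e1 : (m / k) ^ p = (m / n) ^ p * ((n : ℝ) / k) ^ p := by
    rw [← Real.mul_rpow (by positivity) (by positivity)]
    congr 1
    field_simp
  have e2 : ∀ l : ℕ, (k : ℝ) ^ (-p) * (((n : ℝ) / k) ^ p) ^ l =
      (n : ℝ) ^ (p * (l : ℝ)) * (k : ℝ) ^ (-(p * ((l : ℝ) + 1))) := by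
    intro l
    rw [← Real.rpow_natCast (((n : ℝ) / k) ^ p) l, ← Real.rpow_mul (by positivity),
      Real.div_rpow hn0.le hk0.le, div_eq_mul_inv, ← Real.rpow_neg hk0.le]
    calc (k : ℝ) ^ (-p) * ((n : ℝ) ^ (p * (l : ℝ)) * (k : ℝ) ^ (-(p * (l : ℝ)))) =
        (n : ℝ) ^ (p * (l : ℝ)) * ((k : ℝ) ^ (-p) * (k : ℝ) ^ (-(p * (l : ℝ)))) := by ring
      _ = _ := by
        rw [← Real.rpow_add hk0]
        congr 2
        ring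
  rw [pow_two, Finset.sum_mul_sum, Finset.mul_sum]
  refine Finset.sum_congr rfl fun i _ => ?_
  rw [Finset.mul_sum]
  refine Finset.sum_congr rfl fun j _ => ?_
  rw [← e2 (i + j), e1, mul_pow, mul_pow, pow_add]
  ring

lemma lt_core {p : ℝ} (hp1 : p < 1) {J : ℕ} {κ η0 η1 m' : ℝ} (hη1 : 0 < η1) (hη1' : η1 < 1)
    (hcut : ∀ c : ℕ → ℝ, c 0 = 1 →
      m' ≤ (1 - p) * ∫ x in κ..1, x ^ (-p) *
        (∑ j ∈ Finset.range (J + 1), c j * (x ^ (-p)) ^ j) ^ 2)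
    (hform : ∀ M : ℕ → ℝ,
      (∀ i ≤ 2 * J, |M i - ∫ x in κ..1, x ^ (-(p * (i + 1)))| ≤ η0) →
      ∀ c : ℕ → ℝ,
      (1 - η1) * (∫ x in κ..1, x ^ (-p) *
        (∑ j ∈ Finset.range (J + 1), c j * (x ^ (-p)) ^ j) ^ 2) ≤
      ∑ i ∈ Finset.range (J + 1), ∑ j ∈ Finset.range (J + 1), c i * c j * M (i + j))
    {n : ℕ} (hn : 1 ≤ n) {ξ : ℕ → ℝ} (hξ : ∀ k ∈ Finset.Icc 1 n, 0 ≤ ξ k)
    (hM : ∀ i ≤ 2 * J, |(n : ℝ) ^ (p * (i + 1) - 1) * ∑ k ∈ Finset.Icc 1 n,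
        (if κ * n ≤ (k : ℝ) then (k : ℝ) ^ (-(p * (i + 1))) else 0) * ξ k
          - ∫ y in κ..1, y ^ (-(p * (i + 1)))| ≤ η0)
    {r : ℝ[X]} (hr : r.eval 0 = 1) {m e2 : ℝ} (hm : 0 < m) (he0 : 0 ≤ e2)
    (he : ∀ k ∈ Finset.Icc 1 n, κ * n ≤ (k : ℝ) →
      (r.eval ((m / k) ^ p) - ∑ j ∈ Finset.range (J + 1), r.coeff j * ((m / k) ^ p) ^ j) ^ 2
        ≤ e2) :
    (n : ℝ) ^ (1 - p) * ((1 - η1) ^ 2 * m' / (1 - p)) -
      e2 / η1 * ∑ k ∈ Finset.Icc 1 n, (k : ℝ) ^ (-p) * ξ k ≤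
    ∑ k ∈ Finset.Icc 1 n,
      if κ * n ≤ (k : ℝ) then (k : ℝ) ^ (-p) * (r.eval ((m / k) ^ p)) ^ 2 * ξ k else 0 := by
  have hn0 : (0 : ℝ) < n := by exact_mod_cast hn
  obtain ⟨c, hc⟩ : ∃ c : ℕ → ℝ, ∀ j, c j = r.coeff j * ((m / n) ^ p) ^ j := ⟨_, fun _ => rfl⟩
  obtain ⟨M, hMd⟩ : ∃ M : ℕ → ℝ, ∀ i : ℕ, M i = (n : ℝ) ^ (p * (i + 1) - 1) *
      ∑ k ∈ Finset.Icc 1 n,
        (if κ * n ≤ (k : ℝ) then (k : ℝ) ^ (-(p * (i + 1))) else 0) * ξ k := ⟨_, fun _ => rfl⟩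
  have hc0 : c 0 = 1 := by
    rw [hc, pow_zero, mul_one, Polynomial.coeff_zero_eq_eval_zero, hr]
  have h1 := hform M (fun i hi => by rw [hMd]; exact hM i hi) c
  have h2 := hcut c hc0
  obtain ⟨Q, hQ⟩ : ∃ Q : ℝ, Q = ∑ i ∈ Finset.range (J + 1), ∑ j ∈ Finset.range (J + 1),
      c i * c j * M (i + j) := ⟨_, rfl⟩
  have hid : ∑ k ∈ Finset.Icc 1 n, (if κ * n ≤ (k : ℝ) then (k : ℝ) ^ (-p) *
      (∑ j ∈ Finset.range (J + 1), r.coeff j * ((m / k) ^ p) ^ j) ^ 2 * ξ k else 0) =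
      (n : ℝ) ^ (1 - p) * Q := by
    have e1 : ∀ k ∈ Finset.Icc 1 n, (if κ * n ≤ (k : ℝ) then (k : ℝ) ^ (-p) *
        (∑ j ∈ Finset.range (J + 1), r.coeff j * ((m / k) ^ p) ^ j) ^ 2 * ξ k else 0) =
        ∑ i ∈ Finset.range (J + 1), ∑ j ∈ Finset.range (J + 1), c i * c j *
          ((n : ℝ) ^ (p * ((i + j : ℕ) : ℝ)) *
            ((if κ * n ≤ (k : ℝ) then (k : ℝ) ^ (-(p * (((i + j : ℕ) : ℝ) + 1))) else 0) *
              ξ k)) := by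
      intro k hk
      rw [Finset.mem_Icc] at hk
      split_ifs with h
      · rw [lt_expand hm hn hk.1, Finset.sum_mul]
        refine Finset.sum_congr rfl fun i _ => ?_
        rw [Finset.sum_mul]
        refine Finset.sum_congr rfl fun j _ => ?_
        rw [hc, hc]
        ring
      · simp
    rw [Finset.sum_congr rfl e1, Finset.sum_comm, hQ, Finset.mul_sum]
    refine Finset.sum_congr rfl fun i _ => ?_
    rw [Finset.sum_comm, Finset.mul_sum]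
    refine Finset.sum_congr rfl fun j _ => ?_
    rw [← Finset.mul_sum, ← Finset.mul_sum, hMd]
    have e2 : (n : ℝ) ^ (1 - p) * (n : ℝ) ^ (p * (((i + j : ℕ) : ℝ) + 1) - 1) =
        (n : ℝ) ^ (p * ((i + j : ℕ) : ℝ)) := by
      rw [← Real.rpow_add hn0]
      congr 1
      ring
    rw [← e2]
    ring
  have hterm : ∀ k ∈ Finset.Icc 1 n, (1 - η1) * (if κ * n ≤ (k : ℝ) then (k : ℝ) ^ (-p) *
      (∑ j ∈ Finset.range (J + 1), r.coeff j * ((m / k) ^ p) ^ j) ^ 2 * ξ k else 0) -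
      e2 / η1 * ((k : ℝ) ^ (-p) * ξ k) ≤
      if κ * n ≤ (k : ℝ) then (k : ℝ) ^ (-p) * (r.eval ((m / k) ^ p)) ^ 2 * ξ k else 0 := by
    intro k hk
    have hw : 0 ≤ (k : ℝ) ^ (-p) * ξ k := mul_nonneg (by positivity) (hξ k hk)
    split_ifs with h
    · have h3 := mul_le_mul_of_nonneg_left (pt_ineq hη1 (he k hk h)) hw
      linarith
    · have : 0 ≤ e2 / η1 * ((k : ℝ) ^ (-p) * ξ k) := mul_nonneg (by positivity) hw
      linarith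
  have hsum := Finset.sum_le_sum hterm
  rw [Finset.sum_sub_distrib, ← Finset.mul_sum, ← Finset.mul_sum, hid] at hsum
  refine le_trans ?_ hsum
  have h1p : 0 < 1 - p := by linarith
  have hnp : 0 < (n : ℝ) ^ (1 - p) := Real.rpow_pos_of_pos hn0 _
  have h4 : (1 - η1) * m' / (1 - p) ≤ Q := by
    rw [hQ]
    refine le_trans ?_ h1
    rw [mul_div_assoc]
    refine mul_le_mul_of_nonneg_left ?_ (by linarith)
    rw [div_le_iff₀ h1p]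
    linarith
  have h5 : (n : ℝ) ^ (1 - p) * ((1 - η1) ^ 2 * m' / (1 - p)) ≤
      (1 - η1) * ((n : ℝ) ^ (1 - p) * Q) := by
    calc (n : ℝ) ^ (1 - p) * ((1 - η1) ^ 2 * m' / (1 - p)) =
        ((1 - η1) * (n : ℝ) ^ (1 - p)) * ((1 - η1) * m' / (1 - p)) := by ring
      _ ≤ ((1 - η1) * (n : ℝ) ^ (1 - p)) * Q :=
        mul_le_mul_of_nonneg_left h4 (mul_nonneg (by linarith) hnp.le)
      _ = _ := by ring
  linarith

/-! ### the quantity `k0` -/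

/-- the constant -/
noncomputable def Cpp (A C' : ℕ) (p : ℝ) : ℝ := C' * (4 * Real.pi * ((A : ℝ) + 2)) ^ (2 / p)

lemma Cpp_pos {A C' : ℕ} (hC' : 1 ≤ C') (p : ℝ) : 0 < Cpp A C' p := by
  have : (0 : ℝ) < C' := by exact_mod_cast hC'
  have hpi := Real.pi_pos
  unfold Cpp
  positivity

lemma k0_eq {p : ℝ} (hp : 0 < p) (A C' t : ℕ) (ht : 1 ≤ t) :
    k0 A C' p t = Cpp A C' p * (t : ℝ) ^ ((p + 2) / p) := by
  have ht0 : (0 : ℝ) < t := by exact_mod_cast ht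
  have hpi := Real.pi_pos
  unfold k0 Cpp
  push_cast
  rw [show 4 * Real.pi * (((A : ℝ) + 2) * t) = (4 * Real.pi * ((A : ℝ) + 2)) * t by ring,
    Real.mul_rpow (by positivity) ht0.le]
  have : (t : ℝ) ^ ((p + 2) / p) = t * (t : ℝ) ^ (2 / p) := by
    rw [show (p + 2) / p = 1 + 2 / p by field_simp, Real.rpow_add ht0, Real.rpow_one]
  rw [this]
  ring

lemma k0_props {p : ℝ} (hp : 0 < p) {A C' t : ℕ} (hC' : 1 ≤ C') (ht : 1 ≤ t) :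
    ((C' * t : ℕ) : ℝ) ≤ k0 A C' p t ∧
    (k0 A C' p t) ^ p = ((C' * t : ℕ) : ℝ) ^ p * (4 * Real.pi * ((A + 2) * t : ℕ)) ^ 2 := by
  have ht0 : (1 : ℝ) ≤ t := by exact_mod_cast ht
  have hC0 : (1 : ℝ) ≤ C' := by exact_mod_cast hC'
  have hpi := Real.pi_gt_three
  have hA : (0 : ℝ) ≤ A := Nat.cast_nonneg _
  have hx : (1 : ℝ) ≤ 4 * Real.pi * ((A + 2) * t : ℕ) := by
    push_cast
    have : (1 : ℝ) ≤ ((A : ℝ) + 2) * t := by nlinarith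
    nlinarith
  have hm : (0 : ℝ) ≤ ((C' * t : ℕ) : ℝ) := Nat.cast_nonneg _
  refine ⟨?_, ?_⟩
  · unfold k0
    have h1 : (1 : ℝ) ≤ (4 * Real.pi * ((A + 2) * t : ℕ)) ^ (2 / p) :=
      Real.one_le_rpow hx (by positivity)
    nlinarith
  · unfold k0
    rw [Real.mul_rpow hm (by positivity), ← Real.rpow_mul (by linarith)]
    congr 1
    rw [div_mul_cancel₀ _ hp.ne']
    norm_num

/-- eventual facts -/
lemma ev_facts {p : ℝ} (hp : 0 < p) {A C' : ℕ} (hC' : 1 ≤ C') {ck c : ℝ} (hck : 0 < ck)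
    (hc : 0 < c) : ∀ᶠ n : ℕ in atTop, 1 ≤ n ∧ 1 ≤ ⌊c * (n : ℝ) ^ (p / (p + 2))⌋₊ ∧
      (n : ℝ) ^ (1 / 8 : ℝ) ≤
        ck * (k0 A C' p ⌊c * (n : ℝ) ^ (p / (p + 2))⌋₊) ^ (1 / 4 : ℝ) := by
  have hpe : 0 < p / (p + 2) := by positivity
  have h1 : Tendsto (fun n : ℕ => c * (n : ℝ) ^ (p / (p + 2))) atTop atTop :=
    ((tendsto_rpow_atTop hpe).comp tendsto_natCast_atTop_atTop).const_mul_atTop hc
  obtain ⟨θ, hθ⟩ : ∃ θ : ℝ, θ = Cpp A C' p * (c / 2) ^ ((p + 2) / p) := ⟨_, rfl⟩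
  have hCpp := Cpp_pos (A := A) hC' p
  have hθ0 : 0 < θ := by rw [hθ]; positivity
  have h2 : Tendsto (fun n : ℕ => (ck * θ ^ (1 / 4 : ℝ)) * (n : ℝ) ^ (1 / 8 : ℝ)) atTop atTop :=
    ((tendsto_rpow_atTop (by norm_num)).comp tendsto_natCast_atTop_atTop).const_mul_atTop
      (by positivity)
  filter_upwards [h1.eventually_ge_atTop 2, h2.eventually_ge_atTop 1, eventually_ge_atTop 1]
    with n h3 h4 h5
  have hn0 : (0 : ℝ) < n := by exact_mod_cast h5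
  obtain ⟨x, hx⟩ : ∃ x : ℝ, x = c * (n : ℝ) ^ (p / (p + 2)) := ⟨_, rfl⟩
  rw [← hx] at h3 ⊢
  have hfl : 1 ≤ ⌊x⌋₊ := Nat.le_floor (by push_cast; linarith)
  refine ⟨h5, hfl, ?_⟩
  have hfl2 : x / 2 ≤ (⌊x⌋₊ : ℝ) := by
    have := Nat.lt_floor_add_one x
    linarith
  have hk : θ * n ≤ k0 A C' p ⌊x⌋₊ := by
    rw [k0_eq hp A C' _ hfl, hθ, mul_assoc]
    refine mul_le_mul_of_nonneg_left ?_ hCpp.le
    calc (c / 2) ^ ((p + 2) / p) * n = (x / 2) ^ ((p + 2) / p) := by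
          rw [hx, show c * (n : ℝ) ^ (p / (p + 2)) / 2 = (c / 2) * (n : ℝ) ^ (p / (p + 2)) by ring,
            Real.mul_rpow (by positivity) (by positivity), ← Real.rpow_mul hn0.le]
          rw [show p / (p + 2) * ((p + 2) / p) = 1 by field_simp, Real.rpow_one]
      _ ≤ (⌊x⌋₊ : ℝ) ^ ((p + 2) / p) :=
          Real.rpow_le_rpow (by linarith) hfl2 (by positivity)
  calc (n : ℝ) ^ (1 / 8 : ℝ) = 1 * (n : ℝ) ^ (1 / 8 : ℝ) := (one_mul _).symm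
    _ ≤ ((ck * θ ^ (1 / 4 : ℝ)) * (n : ℝ) ^ (1 / 8 : ℝ)) * (n : ℝ) ^ (1 / 8 : ℝ) :=
        mul_le_mul_of_nonneg_right h4 (by positivity)
    _ = ck * (θ * n) ^ (1 / 4 : ℝ) := by
        rw [Real.mul_rpow hθ0.le hn0.le, mul_assoc, ← Real.rpow_add hn0]
        norm_num
        ring
    _ ≤ ck * (k0 A C' p ⌊x⌋₊) ^ (1 / 4 : ℝ) := by
        refine mul_le_mul_of_nonneg_left ?_ hck.le
        exact Real.rpow_le_rpow (by positivity) hk (by norm_num)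

lemma k0_le {p : ℝ} (hp : 0 < p) {A C' : ℕ} (hC' : 1 ≤ C') {c : ℝ} (hc : 0 < c) {n : ℕ}
    (ht : 1 ≤ ⌊c * (n : ℝ) ^ (p / (p + 2))⌋₊) :
    k0 A C' p ⌊c * (n : ℝ) ^ (p / (p + 2))⌋₊ ≤ (Cpp A C' p * c ^ ((p + 2) / p)) * n := by
  have hCpp := Cpp_pos (A := A) hC' p
  have hn0 : (0 : ℝ) ≤ n := Nat.cast_nonneg n
  rw [k0_eq hp A C' _ ht, mul_assoc]
  refine mul_le_mul_of_nonneg_left ?_ hCpp.le
  calc ((⌊c * (n : ℝ) ^ (p / (p + 2))⌋₊ : ℕ) : ℝ) ^ ((p + 2) / p) ≤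
      (c * (n : ℝ) ^ (p / (p + 2))) ^ ((p + 2) / p) :=
        Real.rpow_le_rpow (Nat.cast_nonneg _) (Nat.floor_le (by positivity)) (by positivity)
    _ = c ^ ((p + 2) / p) * n := by
        rw [Real.mul_rpow hc.le (by positivity), ← Real.rpow_mul hn0,
          show p / (p + 2) * ((p + 2) / p) = 1 by field_simp, Real.rpow_one]

/-- error of the Taylor polynomial -/
lemma lt_err {p : ℝ} (hp : 0 < p) (hp1 : p < 1) {A C' t J : ℕ} (hC' : 1 ≤ C') (ht : 1 ≤ t)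
    {κ ρ C1 B : ℝ} (hκ : 0 < κ) (hρκ : ρ ≤ κ) (hρ0 : 0 < ρ) (hC1 : 0 ≤ C1)
    (hs : κ ^ (-p) * ρ ^ p ≤ 1 / 2) (hJ : 0 < 2 * p * (J + 1) - (1 - p))
    {n : ℕ} (hn : 1 ≤ n) (hk0 : k0 A C' p t ≤ ρ * n)
    {r : ℝ[X]} (hdeg : r.natDegree ≤ (A + 2) * t) (hB0 : 0 ≤ B)
    (hB : ∀ u ∈ Set.Icc (0 : ℝ) 1, |r.eval u| ≤ B)
    (hB2 : B ^ 2 ≤ C1 * (k0 A C' p t / n) ^ (-(1 - p))) {k : ℕ} (hk : κ * n ≤ k) :
    ((((C' * t : ℕ) : ℝ) / k) ^ p ∈ Set.Icc (0 : ℝ) 1) ∧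
    (r.eval ((((C' * t : ℕ) : ℝ) / k) ^ p) -
      ∑ j ∈ Finset.range (J + 1), r.coeff j * ((((C' * t : ℕ) : ℝ) / k) ^ p) ^ j) ^ 2 ≤
      4 * C1 * (κ ^ (-p)) ^ (2 * (J + 1)) * ρ ^ (2 * p * (J + 1) - (1 - p)) := by
  have hn0 : (0 : ℝ) < n := by exact_mod_cast hn
  have hpi := Real.pi_gt_three
  obtain ⟨hm1, hm2⟩ := k0_props hp (A := A) hC' ht
  obtain ⟨m, hm⟩ : ∃ m : ℝ, m = ((C' * t : ℕ) : ℝ) := ⟨_, rfl⟩
  obtain ⟨K, hK⟩ : ∃ K : ℝ, K = k0 A C' p t := ⟨_, rfl⟩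
  obtain ⟨N, hN⟩ : ∃ N : ℝ, N = (((A + 2) * t : ℕ) : ℝ) := ⟨_, rfl⟩
  rw [← hK, ← hm] at hm1
  rw [← hK, ← hm, ← hN] at hm2
  rw [← hK] at hk0 hB2
  rw [← hm]
  have hmpos : 0 < m := by
    rw [hm]
    have : 0 < C' * t := Nat.mul_pos hC' ht
    exact_mod_cast this
  have hKpos : 0 < K := hmpos.trans_le hm1
  have hkpos : (0 : ℝ) < k := lt_of_lt_of_le (by positivity) hk
  have hmk : m ≤ k := by
    calc m ≤ K := hm1
      _ ≤ ρ * n := hk0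
      _ ≤ κ * n := mul_le_mul_of_nonneg_right hρκ hn0.le
      _ ≤ k := hk
  have hu : (m / k) ^ p ∈ Set.Icc (0 : ℝ) 1 := by
    refine ⟨by positivity, ?_⟩
    exact Real.rpow_le_one (by positivity) ((div_le_one hkpos).2 hmk) hp.le
  refine ⟨hu, ?_⟩
  obtain ⟨z, hz⟩ : ∃ z : ℝ, z = K / n := ⟨_, rfl⟩
  rw [← hz] at hB2
  have hz0 : 0 < z := by rw [hz]; positivity
  have hzρ : z ≤ ρ := by rw [hz, div_le_iff₀ hn0]; exact hk0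
  have hsz : 2 * N ^ 2 * (m / k) ^ p ≤ κ ^ (-p) * z ^ p := by
    have h1 : (K / k) ^ p = (4 * Real.pi) ^ 2 * (N ^ 2 * (m / k) ^ p) := by
      rw [Real.div_rpow hKpos.le hkpos.le, hm2, Real.div_rpow hmpos.le hkpos.le]
      ring
    have h2 : (K / k) ^ p ≤ κ ^ (-p) * z ^ p := by
      have h3 : K / k ≤ z / κ := by
        rw [hz, div_div, div_le_div_iff_of_pos_left hKpos hkpos (by positivity)]
        linarith
      calc (K / k) ^ p ≤ (z / κ) ^ p := Real.rpow_le_rpow (by positivity) h3 hp.le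
        _ = κ ^ (-p) * z ^ p := by
            rw [Real.div_rpow hz0.le hκ.le, Real.rpow_neg hκ.le]
            ring
    have h4 : 0 ≤ N ^ 2 * (m / k) ^ p := mul_nonneg (sq_nonneg _) hu.1
    have h5 : 2 * (N ^ 2 * (m / k) ^ p) ≤ (4 * Real.pi) ^ 2 * (N ^ 2 * (m / k) ^ p) :=
      mul_le_mul_of_nonneg_right (by nlinarith) h4
    linarith
  have hzp : κ ^ (-p) * z ^ p ≤ κ ^ (-p) * ρ ^ p :=
    mul_le_mul_of_nonneg_left (Real.rpow_le_rpow hz0.le hzρ hp.le) (by positivity)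
  have htay := taylor_bound (N := (A + 2) * t) hdeg hB J hu.1 (by
    rw [← hN]; exact (hsz.trans hzp).trans hs)
  rw [← hN] at htay
  have hsnn : 0 ≤ 2 * N ^ 2 * (m / k) ^ p := mul_nonneg (by positivity) hu.1
  have h6 : |r.eval ((m / k) ^ p) - ∑ j ∈ Finset.range (J + 1), r.coeff j * ((m / k) ^ p) ^ j| ≤
      2 * B * (κ ^ (-p) * z ^ p) ^ (J + 1) :=
    htay.trans (mul_le_mul_of_nonneg_left (pow_le_pow_left₀ hsnn hsz _) (by positivity))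
  have h7 : (r.eval ((m / k) ^ p) -
      ∑ j ∈ Finset.range (J + 1), r.coeff j * ((m / k) ^ p) ^ j) ^ 2 ≤
      (2 * B * (κ ^ (-p) * z ^ p) ^ (J + 1)) ^ 2 := by
    rw [← sq_abs]
    exact pow_le_pow_left₀ (abs_nonneg _) h6 2
  refine h7.trans ?_
  calc (2 * B * (κ ^ (-p) * z ^ p) ^ (J + 1)) ^ 2 =
      B ^ 2 * (4 * (κ ^ (-p)) ^ (2 * (J + 1)) * (z ^ p) ^ (2 * (J + 1))) := by
        rw [mul_pow, mul_pow, ← pow_mul, mul_pow, mul_comm (J + 1) 2]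
        ring
    _ ≤ (C1 * z ^ (-(1 - p))) * (4 * (κ ^ (-p)) ^ (2 * (J + 1)) * (z ^ p) ^ (2 * (J + 1))) :=
        mul_le_mul_of_nonneg_right hB2 (by positivity)
    _ = 4 * C1 * (κ ^ (-p)) ^ (2 * (J + 1)) * (z ^ (-(1 - p)) * (z ^ p) ^ (2 * (J + 1))) := by
        ring
    _ = 4 * C1 * (κ ^ (-p)) ^ (2 * (J + 1)) * z ^ (2 * p * (J + 1) - (1 - p)) := by
        congr 1
        rw [← Real.rpow_natCast (z ^ p), ← Real.rpow_mul hz0.le, ← Real.rpow_add hz0]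
        congr 1
        push_cast
        ring
    _ ≤ 4 * C1 * (κ ^ (-p)) ^ (2 * (J + 1)) * ρ ^ (2 * p * (J + 1) - (1 - p)) := by
        refine mul_le_mul_of_nonneg_left ?_ (by positivity)
        exact Real.rpow_le_rpow hz0.le hzρ hJ.le

set_option maxHeartbeats 4000000 in
/-- TARGET -/
lemma cg_lower_lt {p ε : ℝ} (hp : 0 < p) (hp1 : p < 1) (Jc : ℕ)
    (hJ : (2 * Jc + 1) * p < 1) (hJ' : 1 ≤ (2 * (Jc + 1) + 1) * p) (hε0 : 0 < ε)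
    (hε1 : ε < 1) (hε : ε < mprod p Jc) {δ : ℝ} (hδ : 0 < δ) :
    ∃ (κ : ℝ) (Jm : ℕ) (η c : ℝ), 0 < κ ∧ κ < 1 ∧ 0 < η ∧ 0 < c ∧
      ∀ᶠ n : ℕ in atTop, ∀ ξ : Fin n → ℝ,
      (∀ k : Fin n, δ / ((k : ℝ) + 1) ^ 2 ≤ ξ k) →
      (∀ a ℓ : ℕ, 1 ≤ a → a + ℓ ≤ n + 1 → (n : ℝ) ^ (1 / 8 : ℝ) ≤ ℓ →
        (ℓ : ℝ) / 4 ≤ ∑ k : Fin n, if a ≤ (k : ℕ) + 1 ∧ (k : ℕ) + 1 < a + ℓ then ξ k else 0) →
      (∀ i ≤ Jm, |(n : ℝ) ^ (p * (i + 1) - 1) * ∑ k : Fin n,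
        (if κ * n ≤ (k : ℝ) + 1 then ((k : ℝ) + 1) ^ (-(p * (i + 1))) else 0) * ξ k
          - ∫ y in κ..1, y ^ (-(p * (i + 1)))| < η) →
      |(n : ℝ) ^ (p - 1) * ∑ k : Fin n, ((k : ℝ) + 1) ^ (-p) * ξ k - 1 / (1 - p)| < η →
      ∀ q : ℝ[X], (q.natDegree : ℝ) ≤ c * (n : ℝ) ^ (p / (p + 2)) → q.eval 0 = 1 →
        ε * ∑ k : Fin n, lam p k * ξ k
          < ∑ k : Fin n, lam p k * (q.eval (lam p k)) ^ 2 * ξ k := by
  have h1p : 0 < 1 - p := by linarith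
  obtain ⟨m', hm'1, hm'2⟩ := exists_between hε
  have hm'0 : 0 < m' := hε0.trans hm'1
  obtain ⟨J, hJ1⟩ : ∃ J : ℕ, 0 < 2 * p * ((J : ℝ) + 1) - (1 - p) := by
    obtain ⟨J, hJ⟩ := exists_nat_gt ((1 - p) / (2 * p))
    refine ⟨J, ?_⟩
    rw [div_lt_iff₀ (by positivity)] at hJ
    nlinarith
  obtain ⟨κ, hκ0, hκ1, hcut⟩ := cauchy_cut hp Jc hJ hJ' J hm'2
  obtain ⟨η1, hη1, hη1', g, hg, hgap⟩ : ∃ η1 : ℝ, 0 < η1 ∧ η1 < 1 ∧ ∃ g : ℝ, 0 < g ∧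
      ε + 3 * g < (1 - η1) ^ 2 * m' := by
    refine ⟨min (1 / 2) ((m' - ε) / (4 * m')), ?_, ?_, (m' - ε) / 8, by linarith, ?_⟩
    · exact lt_min (by norm_num) (div_pos (by linarith) (by positivity))
    · exact (min_le_left _ _).trans_lt (by norm_num)
    · have h1 : min (1 / 2) ((m' - ε) / (4 * m')) ≤ (m' - ε) / (4 * m') := min_le_right _ _
      rw [le_div_iff₀ (by positivity)] at h1
      nlinarith [mul_nonneg hm'0.le (sq_nonneg (min (1 / 2) ((m' - ε) / (4 * m'))))]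
  obtain ⟨η0, hη0, hform⟩ := form_lower p hp hκ0 hκ1 J hη1
  obtain ⟨A, C', ck, Ck, hC', hck, hCk, hkey⟩ := key_nodes hp hp1.le hδ
  obtain ⟨C1, hC1⟩ : ∃ C1 : ℝ, C1 = 2 * Ck / (1 - p) := ⟨_, rfl⟩
  have hC1pos : 0 < C1 := by rw [hC1]; positivity
  obtain ⟨ρ, hρ0, hρ1, hρκ, hρs, hρe⟩ : ∃ ρ : ℝ, 0 < ρ ∧ ρ ≤ 1 / 2 ∧ ρ ≤ κ ∧
      κ ^ (-p) * ρ ^ p ≤ 1 / 2 ∧
      4 * C1 * (κ ^ (-p)) ^ (2 * (J + 1)) * ρ ^ (2 * p * ((J : ℝ) + 1) - (1 - p)) ≤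
        g * η1 / 2 := by
    have t1 : Tendsto (fun ρ : ℝ => κ ^ (-p) * ρ ^ p) (𝓝[>] 0) (𝓝 0) := by
      have h := (Real.continuousAt_rpow_const 0 p (Or.inr hp.le)).tendsto
      rw [Real.zero_rpow hp.ne'] at h
      have h2 := (h.mono_left nhdsWithin_le_nhds).const_mul (κ ^ (-p)) (f := fun x : ℝ => x ^ p)
        (x := 𝓝[>] (0 : ℝ))
      rwa [mul_zero] at h2
    have t2 : Tendsto (fun ρ : ℝ => 4 * C1 * (κ ^ (-p)) ^ (2 * (J + 1)) *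
        ρ ^ (2 * p * ((J : ℝ) + 1) - (1 - p))) (𝓝[>] 0) (𝓝 0) := by
      have h := (Real.continuousAt_rpow_const 0 (2 * p * ((J : ℝ) + 1) - (1 - p))
        (Or.inr hJ1.le)).tendsto
      rw [Real.zero_rpow hJ1.ne'] at h
      have h2 := (h.mono_left nhdsWithin_le_nhds).const_mul
        (4 * C1 * (κ ^ (-p)) ^ (2 * (J + 1)))
        (f := fun x : ℝ => x ^ (2 * p * ((J : ℝ) + 1) - (1 - p))) (x := 𝓝[>] (0 : ℝ))
      rwa [mul_zero] at h2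
    have e1 : ∀ᶠ ρ : ℝ in 𝓝[>] 0, κ ^ (-p) * ρ ^ p ≤ 1 / 2 :=
      t1.eventually_le_const (by norm_num)
    have e2 : ∀ᶠ ρ : ℝ in 𝓝[>] 0, 4 * C1 * (κ ^ (-p)) ^ (2 * (J + 1)) *
        ρ ^ (2 * p * ((J : ℝ) + 1) - (1 - p)) ≤ g * η1 / 2 :=
      t2.eventually_le_const (by positivity)
    have e3 : ∀ᶠ ρ : ℝ in 𝓝[>] 0, ρ ≤ 1 / 2 :=
      nhdsWithin_le_nhds (eventually_le_nhds (by norm_num))
    have e4 : ∀ᶠ ρ : ℝ in 𝓝[>] 0, ρ ≤ κ :=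
      nhdsWithin_le_nhds (eventually_le_nhds hκ0)
    have e5 : ∀ᶠ ρ : ℝ in 𝓝[>] 0, 0 < ρ := self_mem_nhdsWithin
    obtain ⟨ρ, h5, h3, h4, h1, h2⟩ := (e5.and (e3.and (e4.and (e1.and e2)))).exists
    exact ⟨ρ, h5, h3, h4, h1, h2⟩
  have hCpp := Cpp_pos (A := A) hC' p
  obtain ⟨c, hc⟩ : ∃ c : ℝ, c = (ρ / Cpp A C' p) ^ (p / (p + 2)) := ⟨_, rfl⟩
  have hc0 : 0 < c := by rw [hc]; positivity
  have hcρ : Cpp A C' p * c ^ ((p + 2) / p) = ρ := by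
    rw [hc, ← Real.rpow_mul (by positivity), show p / (p + 2) * ((p + 2) / p) = 1 by field_simp,
      Real.rpow_one]
    field_simp
  obtain ⟨η, hη⟩ : ∃ η : ℝ, η = min η0 (min (g * (1 / (1 - p))) (1 / (1 - p))) := ⟨_, rfl⟩
  have hη0' : 0 < η := by rw [hη]; positivity
  have hηa : η ≤ η0 := by rw [hη]; exact min_le_left _ _
  have hηb : η ≤ g * (1 / (1 - p)) := by
    rw [hη]; exact (min_le_right _ _).trans (min_le_left _ _)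
  have hηc : η ≤ 1 / (1 - p) := by
    rw [hη]; exact (min_le_right _ _).trans (min_le_right _ _)
  refine ⟨κ, 2 * J, η, c, hκ0, hκ1, hη0', hc0, ?_⟩
  filter_upwards [ev_facts hp (A := A) hC' hck hc0] with n hn3
  obtain ⟨hn, ht, hbig⟩ := hn3
  intro ξ hξδ hblock hM hE q hq hq0
  by_contra hcon
  rw [not_lt] at hcon
  have hk0le := k0_le hp (A := A) hC' hc0 ht
  rw [hcρ] at hk0le
  obtain ⟨t, htd⟩ : ∃ t : ℕ, t = ⌊c * (n : ℝ) ^ (p / (p + 2))⌋₊ := ⟨_, rfl⟩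
  rw [← htd] at ht hbig hk0le
  have hqt : q.natDegree ≤ t := by rw [htd]; exact Nat.le_floor hq
  have hn0 : (0 : ℝ) < n := by exact_mod_cast hn
  obtain ⟨ξ', hξ'⟩ : ∃ ξ' : ℕ → ℝ, ∀ k : Fin n, ξ' ((k : ℕ) + 1) = ξ k := by
    refine ⟨fun j => if h : j - 1 < n then ξ ⟨j - 1, h⟩ else 0, fun k => ?_⟩
    simp
  have hconv : ∀ F : ℕ → ℝ, ∑ k : Fin n, F ((k : ℕ) + 1) * ξ k =
      ∑ j ∈ Finset.Icc 1 n, F j * ξ' j := by
    intro F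
    rw [← sum_fin_Icc n (fun j => F j * ξ' j)]
    exact Finset.sum_congr rfl fun k _ => by rw [hξ']
  have hξδ' : ∀ k : ℕ, 1 ≤ k → k ≤ n → δ / (k : ℝ) ^ 2 ≤ ξ' k := by
    intro k hk1 hk2
    have h := hξδ ⟨k - 1, by omega⟩
    have h2 := hξ' ⟨k - 1, by omega⟩
    simp only [Nat.sub_add_cancel hk1] at h2
    rw [h2]
    refine le_trans (le_of_eq ?_) h
    congr 2
    push_cast [Nat.cast_sub hk1]
    ring
  have hξ0 : ∀ k ∈ Finset.Icc 1 n, 0 ≤ ξ' k := by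
    intro k hk
    rw [Finset.mem_Icc] at hk
    have := hξδ' k hk.1 hk.2
    exact le_trans (by positivity) this
  have hblock' : ∀ a ℓ : ℕ, 1 ≤ a → a + ℓ ≤ n + 1 →
      ck * (k0 A C' p t) ^ (1 / 4 : ℝ) ≤ ℓ → (ℓ : ℝ) / 4 ≤ ∑ j ∈ Finset.Ico a (a + ℓ), ξ' j := by
    intro a ℓ ha hal hl
    refine (hblock a ℓ ha hal (hbig.trans hl)).trans (le_of_eq ?_)
    have h1 : (∑ k : Fin n, if a ≤ (k : ℕ) + 1 ∧ (k : ℕ) + 1 < a + ℓ then ξ k else 0) =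
        ∑ j ∈ Finset.Icc 1 n, if a ≤ j ∧ j < a + ℓ then ξ' j else 0 := by
      rw [← sum_fin_Icc n (fun j => if a ≤ j ∧ j < a + ℓ then ξ' j else 0)]
      exact Finset.sum_congr rfl fun k _ => by rw [hξ']
    rw [h1, ← Finset.sum_filter]
    refine Finset.sum_congr ?_ (fun _ _ => rfl)
    ext x
    simp only [Finset.mem_filter, Finset.mem_Icc, Finset.mem_Ico]
    omega
  obtain ⟨E0, hE0⟩ : ∃ E0 : ℝ, E0 = ∑ j ∈ Finset.Icc 1 n, (j : ℝ) ^ (-p) * ξ' j := ⟨_, rfl⟩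
  obtain ⟨S, hS⟩ : ∃ S : ℝ, S = ∑ k ∈ Finset.Icc 1 n,
    (k : ℝ) ^ (-p) * (q.eval ((k : ℝ) ^ (-p))) ^ 2 * ξ' k := ⟨_, rfl⟩
  have eE : ∑ k : Fin n, ((k : ℝ) + 1) ^ (-p) * ξ k = E0 := by
    rw [hE0, ← hconv (fun j => (j : ℝ) ^ (-p))]
    exact Finset.sum_congr rfl fun k _ => by push_cast; rfl
  have eS : ∑ k : Fin n, lam p k * (q.eval (lam p k)) ^ 2 * ξ k = S := by
    rw [hS, ← hconv (fun j => (j : ℝ) ^ (-p) * (q.eval ((j : ℝ) ^ (-p))) ^ 2)]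
    refine Finset.sum_congr rfl fun k _ => ?_
    unfold lam
    push_cast
    rfl
  have eE' : ∑ k : Fin n, lam p k * ξ k = E0 := eE
  rw [eS, eE'] at hcon
  rw [eE] at hE
  have hE0nn : 0 ≤ E0 := by
    rw [hE0]
    exact Finset.sum_nonneg fun k hk => mul_nonneg (by positivity) (hξ0 k hk)
  obtain ⟨P, hP⟩ : ∃ P : ℝ, P = (n : ℝ) ^ (1 - p) := ⟨_, rfl⟩
  have hP0 : 0 < P := by rw [hP]; positivity
  obtain ⟨D, hD⟩ : ∃ D : ℝ, D = 1 / (1 - p) := ⟨_, rfl⟩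
  have hD0 : 0 < D := by rw [hD]; positivity
  rw [← hD] at hηb hηc hE
  have hE1 : E0 ≤ P * (D + η) := by
    have h1 : (n : ℝ) ^ (p - 1) * E0 ≤ D + η := by linarith [(abs_lt.1 hE).2]
    have h2 : P * ((n : ℝ) ^ (p - 1) * E0) = E0 := by
      rw [hP, ← mul_assoc, ← Real.rpow_add hn0, show 1 - p + (p - 1) = 0 by ring, Real.rpow_zero,
        one_mul]
    rw [← h2]
    exact mul_le_mul_of_nonneg_left h1 hP0.le
  have hE2 : E0 ≤ 2 * P * D := by nlinarith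
  obtain ⟨r, hrdeg, hr0, hrle, B, hB0, hB, hB2⟩ := hkey t n ξ' ht
    (by nlinarith) hξδ' hblock' q hqt
  rw [hq0] at hr0
  rw [← hS] at hB2
  have hmpos : (0 : ℝ) < ((C' * t : ℕ) : ℝ) := by
    have : 0 < C' * t := Nat.mul_pos hC' ht
    exact_mod_cast this
  have hKpos : 0 < k0 A C' p t := hmpos.trans_le (k0_props hp (A := A) hC' ht).1
  have hB2' : B ^ 2 ≤ C1 * (k0 A C' p t / n) ^ (-(1 - p)) := by
    refine hB2.trans ?_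
    rw [Real.div_rpow hKpos.le hn0.le, Real.rpow_neg hKpos.le, Real.rpow_neg hn0.le, ← hP, hC1,
      div_le_iff₀ (by positivity)]
    have h1 : Ck * S ≤ Ck * (2 * P * D) := by
      refine mul_le_mul_of_nonneg_left ?_ hCk.le
      nlinarith
    refine h1.trans (le_of_eq ?_)
    rw [hD]
    have := (Real.rpow_pos_of_pos hKpos (1 - p)).ne'
    field_simp
  obtain ⟨e2, he2⟩ : ∃ e2 : ℝ, e2 = 4 * C1 * (κ ^ (-p)) ^ (2 * (J + 1)) *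
    ρ ^ (2 * p * ((J : ℝ) + 1) - (1 - p)) := ⟨_, rfl⟩
  have he20 : 0 ≤ e2 := by rw [he2]; positivity
  rw [← he2] at hρe
  have herr : ∀ k : ℕ, κ * n ≤ (k : ℝ) →
      ((((C' * t : ℕ) : ℝ) / k) ^ p ∈ Set.Icc (0 : ℝ) 1) ∧
      (r.eval ((((C' * t : ℕ) : ℝ) / k) ^ p) -
        ∑ j ∈ Finset.range (J + 1), r.coeff j * ((((C' * t : ℕ) : ℝ) / k) ^ p) ^ j) ^ 2 ≤ e2 := by
    intro k hk
    have := lt_err hp hp1 hC' ht hκ0 hρκ hρ0 hC1pos.le hρs hJ1 hn hk0le hrdeg hB0 hB hB2' hk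
    rw [he2]
    exact this
  have hcore := lt_core hp1 hη1 hη1' hcut hform hn hξ0 (fun i hi => by
    have h1 := hM i hi
    have h2 : ∑ k : Fin n, (if κ * n ≤ (k : ℝ) + 1 then ((k : ℝ) + 1) ^ (-(p * (i + 1))) else 0) *
        ξ k = ∑ k ∈ Finset.Icc 1 n,
          (if κ * n ≤ (k : ℝ) then (k : ℝ) ^ (-(p * (i + 1))) else 0) * ξ' k := by
      rw [← hconv (fun j => if κ * n ≤ (j : ℝ) then (j : ℝ) ^ (-(p * (i + 1))) else 0)]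
      exact Finset.sum_congr rfl fun k _ => by push_cast; rfl
    rw [h2] at h1
    exact h1.le.trans hηa) hr0 hmpos he20 (fun k _ hk => (herr k hk).2)
  rw [← hP, ← hE0] at hcore
  have hlast : (∑ k ∈ Finset.Icc 1 n,
      if κ * n ≤ (k : ℝ) then (k : ℝ) ^ (-p) * (r.eval ((((C' * t : ℕ) : ℝ) / k) ^ p)) ^ 2 * ξ' k
        else 0) ≤ S := by
    rw [hS]
    refine Finset.sum_le_sum fun k hk => ?_
    have hk' := Finset.mem_Icc.1 hk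
    have hkpos : (0 : ℝ) < k := by exact_mod_cast hk'.1
    split_ifs with h
    · refine mul_le_mul_of_nonneg_right (mul_le_mul_of_nonneg_left ?_ (by positivity)) (hξ0 k hk)
      have h1 := hrle _ (herr k h).1
      have h2 : ((C' * t : ℕ) : ℝ) ^ (-p) * (((C' * t : ℕ) : ℝ) / k) ^ p = (k : ℝ) ^ (-p) := by
        rw [Real.div_rpow hmpos.le hkpos.le, Real.rpow_neg hmpos.le, Real.rpow_neg hkpos.le]
        have := (Real.rpow_pos_of_pos hmpos p).ne'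
        field_simp
      rw [h2] at h1
      exact sq_le_sq.2 h1
    · exact mul_nonneg (mul_nonneg (by positivity) (sq_nonneg _)) (hξ0 k hk)
  have hfin := hcore.trans hlast
  have e3 : P * ((1 - η1) ^ 2 * m' / (1 - p)) = P * D * ((1 - η1) ^ 2 * m') := by
    rw [hD]; ring
  rw [e3] at hfin
  have e4 : e2 / η1 * E0 ≤ g * (P * D) := by
    have h1 : e2 / η1 ≤ g / 2 := by
      rw [div_le_iff₀ hη1]; linarith
    calc e2 / η1 * E0 ≤ g / 2 * (2 * P * D) := mul_le_mul h1 hE2 hE0nn (by positivity)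
      _ = g * (P * D) := by ring
  have e5 : ε * E0 ≤ P * D * ε + P * D * g := by
    have h1 : ε * E0 ≤ ε * (P * (D + η)) := mul_le_mul_of_nonneg_left hE1 hε0.le
    have h2 : ε * η ≤ g * D := by nlinarith
    have h3 := mul_le_mul_of_nonneg_left h2 hP0.le
    linarith
  have hPD : 0 < P * D := mul_pos hP0 hD0
  have h6 := mul_lt_mul_of_pos_left hgap hPD
  have h7 : 0 < P * D * g := mul_pos hPD hg
  linarith

end Pool.Agent.Helper579.Cg
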