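import Mathlib
import Pool.Agent.Helper579.CgDefs
import Pool.Agent.Helper579.CgGrow
import Pool.Agent.Helper579.CgKeyNodes

set_option autoImplicit false

namespace Pool.Agent.Helper579.Cg

open Polynomial Filter
open scoped Topology

lemma k0_one (A C' t : ℕ) :
    k0 A C' 1 t = ((C' : ℝ) * (4 * Real.pi * (A + 2)) ^ 2) * (t : ℝ) ^ 3 := by
  unfold k0
  rw [show (2 / 1 : ℝ) = ((2 : ℕ) : ℝ) by norm_num, Real.rpow_natCast]
  push_cast
  ring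

lemma E_pow {a : ℝ} (ha : 0 < a) (C : ℝ) : ∀ᶠ n : ℕ in atTop, C ≤ (n : ℝ) ^ a :=
  ((tendsto_rpow_atTop ha).comp tendsto_natCast_atTop_atTop).eventually_ge_atTop C

lemma E_log {a : ℝ} (ha : 0 < a) {c : ℝ} (hc : 0 < c) :
    ∀ᶠ n : ℕ in atTop, Real.log n ≤ c * (n : ℝ) ^ a := by
  have h1 := (isLittleO_log_rpow_atTop ha).bound hc
  have h2 := tendsto_natCast_atTop_atTop (R := ℝ) |>.eventually h1
  filter_upwards [h2] with n hn
  have h3 := (le_abs_self _).trans hn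
  rwa [Real.norm_of_nonneg (Real.rpow_nonneg (Nat.cast_nonneg n) a)] at h3

/-- transfer of the weights -/
noncomputable def xi' {n : ℕ} (ξ : Fin n → ℝ) (j : ℕ) : ℝ :=
  if h : j - 1 < n then ξ ⟨j - 1, h⟩ else 0

lemma sum_tr {n : ℕ} (ξ : Fin n → ℝ) (F : ℕ → ℝ → ℝ) :
    ∑ j ∈ Finset.Icc 1 n, F j (xi' ξ j) = ∑ k : Fin n, F (k + 1) (ξ k) := by
  have h1 : Finset.Icc 1 n = Finset.Ico 1 (n + 1) := by
    ext x
    simp only [Finset.mem_Icc, Finset.mem_Ico]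
    omega
  rw [h1, Finset.sum_Ico_eq_sum_range, Nat.add_sub_cancel, Finset.sum_range]
  apply Finset.sum_congr rfl
  intro i _
  have h2 : xi' ξ (1 + i) = ξ i := by
    unfold xi'
    have h3 : 1 + (i : ℕ) - 1 = i := by omega
    rw [dif_pos (by rw [h3]; exact i.2)]
    congr 1
    exact Fin.ext h3
  rw [h2, add_comm 1 (i : ℕ)]

lemma window_tr {n : ℕ} (ξ : Fin n → ℝ) (a ℓ : ℕ) (ha : 1 ≤ a) (hl : a + ℓ ≤ n + 1) :
    ∑ j ∈ Finset.Ico a (a + ℓ), xi' ξ j =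
      ∑ k : Fin n, if a ≤ (k : ℕ) + 1 ∧ (k : ℕ) + 1 < a + ℓ then ξ k else 0 := by
  rw [← sum_tr ξ (fun j x => if a ≤ j ∧ j < a + ℓ then x else 0), ← Finset.sum_filter]
  congr 1
  ext x
  simp only [Finset.mem_filter, Finset.mem_Icc, Finset.mem_Ico]
  omega

set_option maxHeartbeats 4000000 in
/-- TARGET -/
lemma cg_lower_one {ε δ₀ : ℝ} (hε : 0 < ε) (hδ₀ : 0 < δ₀) (hδ₁ : δ₀ < (1 - ε) / 3)
    {δ : ℝ} (hδ : 0 < δ) :
    ∃ (s c η : ℝ), 0 < s ∧ s < 1 ∧ 0 < c ∧ 0 < η ∧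
      ∀ᶠ n : ℕ in atTop, ∀ ξ : Fin n → ℝ,
      (∀ k : Fin n, δ / ((k : ℝ) + 1) ^ 2 ≤ ξ k) →
      (∀ a ℓ : ℕ, 1 ≤ a → a + ℓ ≤ n + 1 → (n : ℝ) ^ c ≤ ℓ →
        (ℓ : ℝ) / 4 ≤ ∑ k : Fin n, if a ≤ (k : ℕ) + 1 ∧ (k : ℕ) + 1 < a + ℓ then ξ k else 0) →
      |(Real.log n)⁻¹ * ∑ k : Fin n,
        (if (n : ℝ) ^ s ≤ (k : ℝ) + 1 then ((k : ℝ) + 1)⁻¹ else 0) * ξ k - (1 - s)| < η →
      |(Real.log n)⁻¹ * ∑ k : Fin n, ((k : ℝ) + 1)⁻¹ * ξ k - 1| < η →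
      ∀ q : ℝ[X], (q.natDegree : ℝ) ≤ (n : ℝ) ^ ((1 - ε) / 3 - δ₀) → q.eval 0 = 1 →
        ε * ∑ k : Fin n, lam 1 k * ξ k
          < ∑ k : Fin n, lam 1 k * (q.eval (lam 1 k)) ^ 2 * ξ k := by
  have hε1 : ε < 1 := by linarith
  set θ : ℝ := (1 - ε) / 3 - δ₀ with hθdef
  have hθ : 0 < θ := by linarith
  set s : ℝ := 1 - ε - δ₀ with hsdef
  have hs0 : 0 < s := by linarith
  have hs1 : s < 1 := by linarith
  have hθs : θ < s := by linarith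
  have h3θ : 3 * θ + 2 * δ₀ = s := by rw [hθdef, hsdef]; ring
  obtain ⟨A, C', ck, Ck, hC', hck, hCk, hkey⟩ := key_nodes (p := 1) one_pos le_rfl hδ
  set D : ℝ := (C' : ℝ) * (4 * Real.pi * (A + 2)) ^ 2 with hD
  have hC'1 : (1 : ℝ) ≤ C' := by exact_mod_cast hC'
  have hpi := Real.pi_gt_three
  have hA0 : (0 : ℝ) ≤ A := Nat.cast_nonneg A
  have hD1 : 1 ≤ D := by
    rw [hD]
    have h1 : (1 : ℝ) ≤ (4 * Real.pi * (A + 2)) := by
      have h0 : (0 : ℝ) ≤ (4 * Real.pi - 12) * (A + 2) := mul_nonneg (by linarith) (by linarith)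
      linarith
    have h2 : (1 : ℝ) ≤ (4 * Real.pi * (A + 2)) ^ 2 := one_le_pow₀ h1
    exact one_le_mul_of_one_le_of_one_le hC'1 h2
  set η : ℝ := δ₀ / 5 with hηdef
  have hη : 0 < η := by positivity
  have hη1 : η < 1 := by rw [hηdef]; linarith
  have hηkey : ε * (1 + η) < (1 - η) ^ 2 * (ε + δ₀ - η) := by
    have h1 : (1 - η) ^ 2 ≥ 1 - 2 * η := by
      have h0 : (1 - η) ^ 2 = 1 - 2 * η + η ^ 2 := by ring
      rw [h0]
      linarith [sq_nonneg η]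
    have h2 : 0 < ε + δ₀ - η := by rw [hηdef]; linarith
    have h3 : (1 - 2 * η) * (ε + δ₀ - η) ≤ (1 - η) ^ 2 * (ε + δ₀ - η) :=
      mul_le_mul_of_nonneg_right h1 h2.le
    have h4 : ε * (1 + η) < (1 - 2 * η) * (ε + δ₀ - η) := by
      have h5 : δ₀ = 5 * η := by rw [hηdef]; ring
      rw [h5]
      have h6 : 0 < η * (4 - 3 * ε - 8 * η) := mul_pos hη (by rw [hηdef]; linarith)
      have h7 : (1 - 2 * η) * (ε + 5 * η - η) = ε * (1 + η) + η * (4 - 3 * ε - 8 * η) := by ring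
      rw [h7]
      linarith
    linarith
  refine ⟨s, θ / 2, η, hs0, hs1, by positivity, hη, ?_⟩
  filter_upwards [E_pow hθ 1, E_pow (show 0 < 1 - 3 * θ by linarith) (2 * D),
    E_pow (show 0 < θ / 4 by linarith) (2 / ck), E_pow (show 0 < s - θ by linarith) (C' : ℝ),
    E_pow (show 0 < 2 * δ₀ by linarith) (2 * D),
    E_log (show 0 < 2 * (2 * δ₀) by linarith) (show 0 < η ^ 2 / (8 * Ck * D ^ 2) by positivity),
    eventually_ge_atTop 2] with n e1 e2 e3 e4 e5 e6 e7 ξ hξ1 hξ2 hξ3 hξ4 q hq hq0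
  have hn0 : (0 : ℝ) < n := by
    have : 0 < n := by omega
    exact_mod_cast this
  have hlog : 0 < Real.log n := Real.log_pos (by exact_mod_cast (by omega : 1 < n))
  set X := (n : ℝ) ^ θ with hX
  set t := ⌊X⌋₊ with ht
  have ht1 : 1 ≤ t := Nat.le_floor (by exact_mod_cast e1)
  have ht1' : (1 : ℝ) ≤ t := by exact_mod_cast ht1
  have htX : (t : ℝ) ≤ X := Nat.floor_le (by linarith)
  have htX2 : X / 2 ≤ t := by
    have := Nat.lt_floor_add_one X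
    linarith
  have hk0 : k0 A C' 1 t = D * (t : ℝ) ^ 3 := k0_one A C' t
  have hX3 : X ^ 3 = (n : ℝ) ^ (3 * θ) := by
    rw [hX, ← Real.rpow_natCast, ← Real.rpow_mul hn0.le]
    congr 1
    push_cast
    ring
  have ht3 : (t : ℝ) ^ 3 ≤ (n : ℝ) ^ (3 * θ) := by
    rw [← hX3]
    exact pow_le_pow_left₀ (by linarith) htX 3
  have hk0n : 2 * k0 A C' 1 t ≤ n := by
    rw [hk0]
    have h1 : (n : ℝ) = (n : ℝ) ^ (1 - 3 * θ) * (n : ℝ) ^ (3 * θ) := by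
      rw [← Real.rpow_add hn0]
      norm_num
    have h2 : 0 ≤ (n : ℝ) ^ (3 * θ) := Real.rpow_nonneg hn0.le _
    calc 2 * (D * (t : ℝ) ^ 3) ≤ 2 * (D * (n : ℝ) ^ (3 * θ)) := by gcongr
      _ = (2 * D) * (n : ℝ) ^ (3 * θ) := by ring
      _ ≤ (n : ℝ) ^ (1 - 3 * θ) * (n : ℝ) ^ (3 * θ) := mul_le_mul_of_nonneg_right e2 h2
      _ = n := h1.symm
  have hk0pos : 0 < k0 A C' 1 t := by
    rw [hk0]
    positivity
  have hwin : ∀ ℓ : ℕ, ck * (k0 A C' 1 t) ^ (1 / 4 : ℝ) ≤ ℓ → (n : ℝ) ^ (θ / 2) ≤ ℓ := by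
    intro ℓ hℓ
    refine le_trans ?_ hℓ
    have h1 : (X / 2) ^ 3 ≤ k0 A C' 1 t := by
      rw [hk0]
      have h2 : (X / 2) ^ 3 ≤ (t : ℝ) ^ 3 := pow_le_pow_left₀ (by linarith) htX2 3
      have h3 : 0 ≤ (t : ℝ) ^ 3 := by positivity
      exact h2.trans (le_mul_of_one_le_left h3 hD1)
    have h2 : ((X / 2) ^ 3) ^ (1 / 4 : ℝ) ≤ (k0 A C' 1 t) ^ (1 / 4 : ℝ) :=
      Real.rpow_le_rpow (by positivity) h1 (by norm_num)
    have h3 : (n : ℝ) ^ (3 * θ / 4) / 2 ≤ ((X / 2) ^ 3) ^ (1 / 4 : ℝ) := by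
      have h4 : ((X / 2) ^ 3) ^ (1 / 4 : ℝ) = (n : ℝ) ^ (3 * θ / 4) / 2 ^ (3 / 4 : ℝ) := by
        rw [← Real.rpow_natCast, ← Real.rpow_mul (by positivity), Real.div_rpow (by positivity)
          (by norm_num), hX, ← Real.rpow_mul hn0.le]
        congr 2
        · push_cast
          ring
        · norm_num
      rw [h4]
      apply div_le_div_of_nonneg_left (Real.rpow_nonneg hn0.le _) (by positivity)
      calc (2 : ℝ) ^ (3 / 4 : ℝ) ≤ 2 ^ (1 : ℝ) :=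
            Real.rpow_le_rpow_of_exponent_le (by norm_num) (by norm_num)
        _ = 2 := Real.rpow_one 2
    have h5 : (n : ℝ) ^ (3 * θ / 4) = (n : ℝ) ^ (θ / 4) * (n : ℝ) ^ (θ / 2) := by
      rw [← Real.rpow_add hn0]
      congr 1
      ring
    have h6 : 0 ≤ (n : ℝ) ^ (θ / 2) := Real.rpow_nonneg hn0.le _
    have h7 : 1 ≤ ck * ((n : ℝ) ^ (θ / 4) / 2) := by
      rw [div_le_iff₀ hck] at e3
      linarith
    calc (n : ℝ) ^ (θ / 2) ≤ (ck * ((n : ℝ) ^ (θ / 4) / 2)) * (n : ℝ) ^ (θ / 2) :=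
          le_mul_of_one_le_left h6 h7
      _ = ck * ((n : ℝ) ^ (3 * θ / 4) / 2) := by rw [h5]; ring
      _ ≤ ck * (k0 A C' 1 t) ^ (1 / 4 : ℝ) :=
          mul_le_mul_of_nonneg_left (h3.trans h2) hck.le
  have hξ0 : ∀ k : Fin n, 0 < ξ k := fun k => lt_of_lt_of_le (by positivity) (hξ1 k)
  have hlam : ∀ k : Fin n, lam 1 k = ((k : ℝ) + 1)⁻¹ := fun k => by
    unfold lam
    rw [Real.rpow_neg_one]
  by_contra hcon
  push Not at hcon
  set S := ∑ k : Fin n, lam 1 k * (q.eval (lam 1 k)) ^ 2 * ξ k with hS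
  set E0 := ∑ k : Fin n, lam 1 k * ξ k with hE0
  have hE0' : E0 = ∑ k : Fin n, ((k : ℝ) + 1)⁻¹ * ξ k :=
    Finset.sum_congr rfl fun k _ => by rw [hlam]
  have hE1 : E0 ≤ (1 + η) * Real.log n := by
    rw [← hE0', abs_lt] at hξ4
    have h1 : (Real.log n)⁻¹ * E0 ≤ 1 + η := by linarith [hξ4.2]
    rw [inv_mul_le_iff₀ hlog] at h1
    linarith
  have hqt : q.natDegree ≤ t := Nat.le_floor hq
  obtain ⟨r, hr1, hr2, hr3, B, hB0, hB1, hB2⟩ := hkey t n (xi' ξ) ht1 hk0n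
    (by
      intro k hk1 hk2
      have h1 : k - 1 < n := by omega
      have h2 : xi' ξ k = ξ ⟨k - 1, h1⟩ := dif_pos h1
      rw [h2]
      have h3 := hξ1 ⟨k - 1, h1⟩
      have h4 : (((⟨k - 1, h1⟩ : Fin n) : ℕ) : ℝ) + 1 = k := by
        simp only
        rw [Nat.cast_sub hk1]
        simp
      rw [h4] at h3
      exact h3)
    (by
      intro a ℓ ha hl hℓ
      rw [window_tr ξ a ℓ ha hl]
      exact hξ2 a ℓ ha hl (hwin ℓ hℓ))
    q hqt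
  have hSS : ∑ k ∈ Finset.Icc 1 n, (k : ℝ) ^ (-1 : ℝ) * (q.eval ((k : ℝ) ^ (-1 : ℝ))) ^ 2 *
      xi' ξ k = S := by
    rw [sum_tr ξ (fun j x => (j : ℝ) ^ (-1 : ℝ) * (q.eval ((j : ℝ) ^ (-1 : ℝ))) ^ 2 * x), hS]
    apply Finset.sum_congr rfl
    intro k _
    unfold lam
    push_cast
    rfl
  rw [hSS, sub_self, Real.rpow_zero, div_one] at hB2
  have hS2 : S ≤ 2 * Real.log n := by
    have h1 : ε * E0 ≤ 1 * E0 := by
      apply mul_le_mul_of_nonneg_right hε1.le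
      rw [hE0']
      exact Finset.sum_nonneg fun k _ => by
        have := (hξ0 k).le
        positivity
    have h2 : (1 + η) * Real.log n ≤ 2 * Real.log n :=
      mul_le_mul_of_nonneg_right (by linarith) hlog.le
    linarith
  set Y2 := (n : ℝ) ^ (2 * δ₀) with hY2
  have hY2pos : 0 < Y2 := Real.rpow_pos_of_pos hn0 _
  have hB : B ≤ η * Y2 / (2 * D) := by
    apply le_of_sq_le_sq _ (by positivity)
    have h1 : (n : ℝ) ^ (2 * (2 * δ₀)) = Y2 ^ 2 := by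
      rw [hY2, ← Real.rpow_natCast, ← Real.rpow_mul hn0.le]
      congr 1
      push_cast
      ring
    rw [h1] at e6
    have h2 : B ^ 2 ≤ Ck * (2 * Real.log n) := hB2.trans (mul_le_mul_of_nonneg_left hS2 hCk.le)
    have h3 : Ck * (2 * Real.log n) ≤ Ck * (2 * (η ^ 2 / (8 * Ck * D ^ 2) * Y2 ^ 2)) := by
      gcongr
    have h4 : Ck * (2 * (η ^ 2 / (8 * Ck * D ^ 2) * Y2 ^ 2)) = (η * Y2 / (2 * D)) ^ 2 := by
      field_simp
      ring
    linarith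
  have hev : ∀ k : Fin n, (n : ℝ) ^ s ≤ (k : ℝ) + 1 →
      (1 - η) ^ 2 ≤ (q.eval (lam 1 k)) ^ 2 := by
    intro k hk
    have hkp : 0 < (k : ℝ) + 1 := by positivity
    have hns : (n : ℝ) ^ s = (n : ℝ) ^ (3 * θ) * Y2 := by
      rw [hY2, ← Real.rpow_add hn0, h3θ]
    have hns2 : (n : ℝ) ^ s = (n : ℝ) ^ (s - θ) * X := by
      rw [hX, ← Real.rpow_add hn0]
      congr 1
      ring
    set m : ℝ := ((C' * t : ℕ) : ℝ) with hm
    have hm' : m = C' * t := by rw [hm]; push_cast; ring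
    have hmpos : 0 < m := by rw [hm']; positivity
    have hmk : m ≤ (k : ℝ) + 1 := by
      refine le_trans ?_ hk
      rw [hns2, hm']
      exact mul_le_mul e4 htX (by positivity) (by linarith)
    set u : ℝ := m / ((k : ℝ) + 1) with hu
    have hu0 : 0 ≤ u := by positivity
    have hu1 : u ≤ 1 := by rw [hu, div_le_one hkp]; exact hmk
    have hNu : 2 * (((A + 2) * t : ℕ) : ℝ) ^ 2 * u ≤ D / Y2 := by
      have h1 : 2 * (((A + 2) * t : ℕ) : ℝ) ^ 2 * m ≤ D * (t : ℝ) ^ 3 := by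
        rw [hm', hD]
        push_cast
        have h2 : (1 : ℝ) ≤ Real.pi ^ 2 := one_le_pow₀ (by linarith)
        have h3 : 0 ≤ (C' : ℝ) * ((A : ℝ) + 2) ^ 2 * (t : ℝ) ^ 3 := by positivity
        have h4 : 0 ≤ (16 * Real.pi ^ 2 - 2) * ((C' : ℝ) * ((A : ℝ) + 2) ^ 2 * (t : ℝ) ^ 3) :=
          mul_nonneg (by linarith) h3
        have h5 : (C' : ℝ) * (4 * Real.pi * ((A : ℝ) + 2)) ^ 2 * (t : ℝ) ^ 3 =
            2 * (((A : ℝ) + 2) * t) ^ 2 * ((C' : ℝ) * t) +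
              (16 * Real.pi ^ 2 - 2) * ((C' : ℝ) * ((A : ℝ) + 2) ^ 2 * (t : ℝ) ^ 3) := by ring
        rw [h5]
        linarith
      rw [hu, mul_div_assoc', div_le_div_iff₀ hkp hY2pos]
      calc 2 * (((A + 2) * t : ℕ) : ℝ) ^ 2 * m * Y2 ≤ D * (t : ℝ) ^ 3 * Y2 :=
            mul_le_mul_of_nonneg_right h1 hY2pos.le
        _ ≤ D * (n : ℝ) ^ (3 * θ) * Y2 := by gcongr
        _ = D * (n : ℝ) ^ s := by rw [hns]; ring
        _ ≤ D * ((k : ℝ) + 1) := by gcongr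
    have hDY : D / Y2 ≤ 1 / 2 := by
      rw [div_le_div_iff₀ hY2pos (by norm_num)]
      linarith
    have htay := taylor_bound hr1 hB1 0 hu0 (hNu.trans hDY)
    rw [zero_add, Finset.sum_range_one, pow_zero, mul_one, pow_one, coeff_zero_eq_eval_zero, hr2,
      hq0] at htay
    have h5 : 2 * B * (2 * (((A + 2) * t : ℕ) : ℝ) ^ 2 * u) ≤ η := by
      calc 2 * B * (2 * (((A + 2) * t : ℕ) : ℝ) ^ 2 * u) ≤ 2 * (η * Y2 / (2 * D)) * (D / Y2) := by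
            gcongr
        _ = η := by field_simp
    have h6 : 1 - η ≤ |r.eval u| := by
      have h7 := htay.trans h5
      rw [abs_le] at h7
      have h8 := le_abs_self (r.eval u)
      linarith [h7.1]
    have h7 := hr3 u ⟨hu0, hu1⟩
    have h8 : m ^ (-1 : ℝ) * u = lam 1 k := by
      rw [hlam, Real.rpow_neg_one, hu]
      field_simp
    rw [h8] at h7
    rw [← sq_abs (q.eval (lam 1 k))]
    exact pow_le_pow_left₀ (by linarith) (h6.trans h7) 2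
  have hfin : (1 - η) ^ 2 * ∑ k : Fin n,
      (if (n : ℝ) ^ s ≤ (k : ℝ) + 1 then ((k : ℝ) + 1)⁻¹ else 0) * ξ k ≤ S := by
    rw [Finset.mul_sum, hS]
    apply Finset.sum_le_sum
    intro k _
    have hξk := (hξ0 k).le
    have hkp : 0 < ((k : ℝ) + 1)⁻¹ := by positivity
    rw [hlam]
    by_cases hk : (n : ℝ) ^ s ≤ (k : ℝ) + 1
    · rw [if_pos hk]
      have h1 := hev k hk
      rw [hlam] at h1
      have h2 : 0 ≤ ((k : ℝ) + 1)⁻¹ * ξ k := mul_nonneg hkp.le hξk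
      have h3 := mul_le_mul_of_nonneg_right h1 h2
      linarith
    · rw [if_neg hk, zero_mul, mul_zero]
      positivity
  rw [abs_lt] at hξ3
  set T := ∑ k : Fin n, (if (n : ℝ) ^ s ≤ (k : ℝ) + 1 then ((k : ℝ) + 1)⁻¹ else 0) * ξ k with hT
  have hT1 : (ε + δ₀ - η) * Real.log n ≤ T := by
    have h1 : ε + δ₀ - η ≤ (Real.log n)⁻¹ * T := by
      have h2 : 1 - s = ε + δ₀ := by rw [hsdef]; ring
      linarith [hξ3.1]
    rw [le_inv_mul_iff₀ hlog] at h1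
    linarith
  have h1 : ε * E0 ≤ ε * (1 + η) * Real.log n := by
    rw [mul_assoc]
    exact mul_le_mul_of_nonneg_left hE1 hε.le
  have h2 : ε * (1 + η) * Real.log n < (1 - η) ^ 2 * (ε + δ₀ - η) * Real.log n :=
    mul_lt_mul_of_pos_right hηkey hlog
  have h3 : (1 - η) ^ 2 * (ε + δ₀ - η) * Real.log n ≤ (1 - η) ^ 2 * T := by
    rw [mul_assoc]
    exact mul_le_mul_of_nonneg_left hT1 (sq_nonneg _)
  linarith

end Pool.Agent.Helper579.Cg
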