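import Mathlib
import Pool.Agent.Helper579.CgKK

set_option autoImplicit false

namespace Pool.Agent.Helper579.Cg

open MeasureTheory Filter Matrix
open scoped ENNReal Topology ComplexConjugate

variable {n : ℕ}

lemma sInf_eq_nat (P : ℕ → Prop) (m : ℕ) :
    sInf {T : ℕ∞ | ∃ t : ℕ, T = t ∧ P t} = m ↔ P m ∧ ∀ t < m, ¬ P t := by
  constructor
  · intro h
    have hne : {T : ℕ∞ | ∃ t : ℕ, T = t ∧ P t}.Nonempty := by
      by_contra h2
      rw [Set.not_nonempty_iff_eq_empty] at h2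
      rw [h2, sInf_empty] at h
      exact absurd h (by simp)
    have h3 := csInf_mem hne
    rw [h] at h3
    obtain ⟨t, ht, hPt⟩ := h3
    have ht' : m = t := by exact_mod_cast ht
    subst ht'
    refine ⟨hPt, fun t ht hP => ?_⟩
    have h4 : sInf {T : ℕ∞ | ∃ t : ℕ, T = t ∧ P t} ≤ t := sInf_le ⟨t, rfl, hP⟩
    rw [h] at h4
    have : m ≤ t := by exact_mod_cast h4
    omega
  · rintro ⟨h1, h2⟩
    apply le_antisymm
    · exact sInf_le ⟨m, rfl, h1⟩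
    · apply le_sInf
      rintro T ⟨t, rfl, ht⟩
      have : m ≤ t := by
        by_contra h
        push Not at h
        exact h2 t h ht
      exact_mod_cast this

lemma sInf_eq_top (P : ℕ → Prop) :
    sInf {T : ℕ∞ | ∃ t : ℕ, T = t ∧ P t} = ⊤ ↔ ∀ t, ¬ P t := by
  constructor
  · intro h t ht
    have h4 : sInf {T : ℕ∞ | ∃ t : ℕ, T = t ∧ P t} ≤ t := sInf_le ⟨t, rfl, ht⟩
    rw [h] at h4
    exact absurd h4 (by simp)
  · intro h
    have : {T : ℕ∞ | ∃ t : ℕ, T = t ∧ P t} = ∅ := by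
      ext T
      simp only [Set.mem_ofPred_eq, Set.mem_empty_iff_false, iff_false]
      rintro ⟨t, _, ht⟩
      exact h t ht
    rw [this, sInf_empty]

lemma trcd_meas (U : Fin n → Fin n → ℂ) (l : Fin n → ℝ) (ε : ℝ) (w : Fin n → ℂ)
    (S : Set ℕ∞) : MeasurableSet {ω : ℕ → Fin n | trcd U l ε w ω ∈ S} := by
  have hA : ∀ t : ℕ, MeasurableSet {ω : ℕ → Fin n |
      qf l (path (stp U l) w ω t) ≤ ε * qf l w} := by
    intro t
    exact path_meas (stp U l) w t {s | qf l s ≤ ε * qf l w}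
  have h1 : {ω : ℕ → Fin n | trcd U l ε w ω ∈ S}
      = ⋃ T ∈ S, {ω : ℕ → Fin n | trcd U l ε w ω = T} := by
    ext ω
    simp
  rw [h1]
  apply MeasurableSet.biUnion (Set.to_countable S)
  intro T _
  induction T using ENat.recTopCoe with
  | top =>
    have : {ω : ℕ → Fin n | trcd U l ε w ω = ⊤} = ⋂ t : ℕ, {ω : ℕ → Fin n |
        qf l (path (stp U l) w ω t) ≤ ε * qf l w}ᶜ := by
      ext ω
      simp only [Set.mem_ofPred_eq, Set.mem_iInter, Set.mem_compl_iff]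
      exact sInf_eq_top _
    rw [this]
    exact MeasurableSet.iInter fun t => (hA t).compl
  | coe m =>
    have : {ω : ℕ → Fin n | trcd U l ε w ω = (m : ℕ∞)} = {ω : ℕ → Fin n |
        qf l (path (stp U l) w ω m) ≤ ε * qf l w} ∩ ⋂ t : ℕ, ⋂ _ : t < m, {ω : ℕ → Fin n |
        qf l (path (stp U l) w ω t) ≤ ε * qf l w}ᶜ := by
      ext ω
      simp only [Set.mem_ofPred_eq, Set.mem_iInter, Set.mem_compl_iff, Set.mem_inter_iff]
      exact sInf_eq_nat _ m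
    rw [this]
    exact (hA m).inter (MeasurableSet.iInter fun t => MeasurableSet.iInter fun _ => (hA t).compl)

lemma one_add_lint {α : Type*} [MeasurableSpace α] (μ : Measure α) [IsProbabilityMeasure μ]
    (f : α → ℝ≥0∞) : 1 + ∫⁻ x, f x ∂μ = ∫⁻ x, (1 + f x) ∂μ := by
  rw [lintegral_add_left measurable_const, lintegral_one, measure_univ]

/-- events for the two stopping times can be combined -/
lemma Pr_inter (p ε : ℝ) (hn : 1 ≤ n) (S₁ S₂ : Set (ℕ∞ × ℕ∞)) :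
    Pr p ε n S₁ + Pr p ε n S₂ ≤ 1 + Pr p ε n (S₁ ∩ S₂) := by
  have hprob := sph_prob n hn
  unfold Pr
  refine (le_lintegral_add _ _).trans ?_
  have h1 : ∀ U : Un n, (∫⁻ z : Metric.sphere (0 : EuclideanSpace ℂ (Fin n)) 1,
      seqLaw (matA p U) {ω | (TCG (matA p U) (WithLp.ofLp z.1) ε,
        TRCD (matA p U) (WithLp.ofLp z.1) ε ω) ∈ S₁} ∂sph n) +
      (∫⁻ z : Metric.sphere (0 : EuclideanSpace ℂ (Fin n)) 1,
      seqLaw (matA p U) {ω | (TCG (matA p U) (WithLp.ofLp z.1) ε,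
        TRCD (matA p U) (WithLp.ofLp z.1) ε ω) ∈ S₂} ∂sph n) ≤
      1 + (∫⁻ z : Metric.sphere (0 : EuclideanSpace ℂ (Fin n)) 1,
      seqLaw (matA p U) {ω | (TCG (matA p U) (WithLp.ofLp z.1) ε,
        TRCD (matA p U) (WithLp.ofLp z.1) ε ω) ∈ S₁ ∩ S₂} ∂sph n) := by
    intro U
    refine (le_lintegral_add _ _).trans ?_
    rw [one_add_lint]
    apply lintegral_mono
    intro z
    have hi := idx_prob p hn U
    have h3 : seqLaw (matA p U) = Measure.infinitePi (fun _ => idx (matA p U)) := by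
      unfold seqLaw
      rw [dif_pos hi]
    simp only [h3]
    set μ := Measure.infinitePi (fun _ : ℕ => idx (matA p U)) with hμ
    have hm : MeasurableSet {ω | (TCG (matA p U) (WithLp.ofLp z.1) ε,
        TRCD (matA p U) (WithLp.ofLp z.1) ε ω) ∈ S₂} := by
      have : {ω | (TCG (matA p U) (WithLp.ofLp z.1) ε,
          TRCD (matA p U) (WithLp.ofLp z.1) ε ω) ∈ S₂} = {ω | trcd (um U) (lam p) ε
          (star (U : Matrix (Fin n) (Fin n) ℂ) *ᵥ WithLp.ofLp z.1) ω ∈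
            {T | (TCG (matA p U) (WithLp.ofLp z.1) ε, T) ∈ S₂}} := by
        ext ω
        simp only [Set.mem_ofPred_eq, TRCD_eq]
      rw [this]
      exact trcd_meas _ _ _ _ _
    have h4 := measure_union_add_inter (μ := μ) {ω | (TCG (matA p U) (WithLp.ofLp z.1) ε,
        TRCD (matA p U) (WithLp.ofLp z.1) ε ω) ∈ S₁} hm
    rw [← h4]
    refine add_le_add ?_ ?_
    · exact prob_le_one
    · apply le_of_eq
      congr 1
  rw [one_add_lint]
  exact lintegral_mono h1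

lemma Pr_mono (p ε : ℝ) {S₁ S₂ : Set (ℕ∞ × ℕ∞)} (h : S₁ ⊆ S₂) : Pr p ε n S₁ ≤ Pr p ε n S₂ := by
  unfold Pr
  apply lintegral_mono
  intro U
  apply lintegral_mono
  intro z
  apply measure_mono
  intro ω hω
  exact h hω

lemma Pr_le_one (p ε : ℝ) (hn : 1 ≤ n) (S : Set (ℕ∞ × ℕ∞)) : Pr p ε n S ≤ 1 := by
  have hprob := sph_prob n hn
  unfold Pr
  have h2 : (1 : ℝ≥0∞) = ∫⁻ _ : Un n, (∫⁻ _ : Metric.sphere (0 : EuclideanSpace ℂ (Fin n)) 1, 1
      ∂sph n) ∂haarU n := by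
    simp only [lintegral_one, measure_univ]
  rw [h2]
  apply lintegral_mono
  intro U
  apply lintegral_mono
  intro z
  have hi := idx_prob p hn U
  have h3 : seqLaw (matA p U) = Measure.infinitePi (fun _ => idx (matA p U)) := by
    unfold seqLaw
    rw [dif_pos hi]
  simp only [h3]
  exact prob_le_one

lemma inter_ge (p ε : ℝ) (hn : 1 ≤ n) {S₁ S₂ : Set (ℕ∞ × ℕ∞)} {a b : ℝ≥0∞}
    (h1 : 1 - a ≤ Pr p ε n S₁) (h2 : 1 - b ≤ Pr p ε n S₂) :
    1 - (a + b) ≤ Pr p ε n (S₁ ∩ S₂) := by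
  have h3 := Pr_inter p ε hn S₁ S₂
  rw [tsub_le_iff_left] at h1 h2 ⊢
  have h4 : (1 : ℝ≥0∞) + 1 ≤ 1 + (a + b + Pr p ε n (S₁ ∩ S₂)) := by
    calc (1 : ℝ≥0∞) + 1 ≤ (a + Pr p ε n S₁) + (b + Pr p ε n S₂) := add_le_add h1 h2
      _ = a + b + (Pr p ε n S₁ + Pr p ε n S₂) := by ring
      _ ≤ a + b + (1 + Pr p ε n (S₁ ∩ S₂)) := by gcongr
      _ = _ := by ring
  exact (ENNReal.add_le_add_iff_left ENNReal.one_ne_top).1 h4

/-- conjugate gradients -/
lemma cg_pr (p ε : ℝ) (hn : 1 ≤ n) (S : Set ℕ∞) {δ : ℝ≥0∞}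
    (h : ex n {ξ | tcg (lam p) ε ξ ∉ S} ≤ δ) : 1 - δ ≤ PrCG p ε n S := by
  have h1 := Pr_ge p ε hn {x | x.1 ∈ S} Set.univ {ξ | tcg (lam p) ε ξ ∈ S} 0 δ 0
    (by simp) (by
      refine le_trans (measure_mono ?_) h
      intro ξ hξ
      exact hξ) (by
      rintro U - w hw ⟨r, hr, hG⟩ μ hμ hpp
      have h2 : {ω : ℕ → Fin n | (tcg (lam p) ε (fun k => ‖w k‖ ^ 2),
          trcd (um U) (lam p) ε w ω) ∉ {x : ℕ∞ × ℕ∞ | x.1 ∈ S}} = ∅ := by
        ext ω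
        simp only [Set.mem_ofPred_eq, Set.mem_empty_iff_false, iff_false, not_not]
        have h3 : tcg (lam p) ε (fun k => r * ‖w k‖ ^ 2) ∈ S := hG
        rwa [tcg_smul hr] at h3
      rw [h2, measure_empty])
  rw [zero_add, add_zero] at h1
  exact h1

/-- coordinate descent -/
lemma rcd_pr (p ε : ℝ) (hn : 1 ≤ n) (S : Set ℕ∞) (GU : Set (Un n)) (G : Set (Fin n → ℝ))
    {δ₁ δ₂ δ₃ : ℝ≥0∞} (hU : haarU n GUᶜ ≤ δ₁) (hG : ex n Gᶜ ≤ δ₂)
    (h : ∀ U ∈ GU, ∀ w : Fin n → ℂ, w ≠ 0 → (∃ r : ℝ, 0 < r ∧ (fun k => r * ‖w k‖ ^ 2) ∈ G) →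
      ∀ μ : Measure (Fin n), IsProbabilityMeasure μ →
      (fun i => (μ {i}).toReal) = pp (um U) (lam p) →
      Measure.infinitePi (fun _ : ℕ => μ) {ω | trcd (um U) (lam p) ε w ω ∉ S} ≤ δ₃) :
    1 - (δ₁ + δ₂ + δ₃) ≤ PrRCD p ε n S :=
  Pr_ge p ε hn {x | x.2 ∈ S} GU G δ₁ δ₂ δ₃ hU hG h

end Pool.Agent.Helper579.Cg
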