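import Mathlib
import Pool.Agent.Helper579.CgDefs
import Pool.Agent.Helper579.CgKern

set_option autoImplicit false

namespace Pool.Agent.Helper579.Cg

open Polynomial Filter
open scoped Topology

/-- TARGET -/
lemma cg_upper {p : ℝ} (hp : 0 < p) (n m t K : ℕ) (hm : 1 ≤ m) (hK : m < K)
    (ξ : Fin n → ℝ) (hξ : ∀ k, 0 ≤ ξ k) :
    ∃ q : ℝ[X], q.natDegree ≤ m + t ∧ q.eval 0 = 1 ∧
      ∑ k : Fin n, lam p k * (q.eval (lam p k)) ^ 2 * ξ k
        ≤ 4 * Real.exp (-(2 * t * ((m : ℝ) / K) ^ (p / 2))) * (∑ k : Fin n, lam p k * ξ k)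
          + ∑ k : Fin n, (if K ≤ (k : ℕ) then lam p k else 0) * ξ k := by
  have hm0 : (0 : ℝ) < m := by exact_mod_cast hm
  have hK0 : (0 : ℝ) < K := by exact_mod_cast (lt_of_le_of_lt (Nat.zero_le _) hK)
  have hmK : (m : ℝ) < K := by exact_mod_cast hK
  have ha : (0 : ℝ) < (K : ℝ) ^ (-p) := Real.rpow_pos_of_pos hK0 _
  have hab : (K : ℝ) ^ (-p) < (m : ℝ) ^ (-p) := by
    rw [Real.rpow_neg hK0.le, Real.rpow_neg hm0.le]
    exact inv_strictAnti₀ (Real.rpow_pos_of_pos hm0 _) (Real.rpow_lt_rpow hm0.le hmK hp)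
  obtain ⟨P, hPd, hP0, hP1, hP2⟩ := cheb_small ha hab t
  have hsq : √((K : ℝ) ^ (-p) / (m : ℝ) ^ (-p)) = ((m : ℝ) / K) ^ (p / 2) := by
    rw [Real.sqrt_eq_rpow, Real.rpow_neg hK0.le, Real.rpow_neg hm0.le, inv_div_inv,
      ← Real.div_rpow hm0.le hK0.le, ← Real.rpow_mul (div_nonneg hm0.le hK0.le)]
    congr 1; ring
  set R : ℝ[X] := ∏ j ∈ Finset.range m, (1 - C (((j : ℝ) + 1) ^ p) * X) with hR
  refine ⟨R * P, ?_, ?_, ?_⟩
  · refine le_trans natDegree_mul_le (add_le_add ?_ hPd)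
    refine le_trans (natDegree_prod_le _ _) ?_
    refine le_trans (Finset.sum_le_sum (g := fun _ => 1) ?_) (by simp)
    intro j _
    refine le_trans (natDegree_sub_le _ _) ?_
    simp only [natDegree_one, zero_le, max_eq_right]
    refine le_trans (natDegree_C_mul_le _ _) ?_
    exact natDegree_X_le
  · rw [eval_mul, hP0, mul_one, hR, eval_prod]
    simp
  · rw [Finset.mul_sum, ← Finset.sum_add_distrib]
    refine Finset.sum_le_sum ?_
    intro k _
    have hk1 : (0 : ℝ) < (k : ℝ) + 1 := by positivity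
    have hlam0 : 0 < lam p k := Real.rpow_pos_of_pos hk1 _
    have hRe : R.eval (lam p k) = ∏ j ∈ Finset.range m, (1 - ((j : ℝ) + 1) ^ p * lam p k) := by
      rw [hR, eval_prod]
      simp
    have key : (eval (lam p k) (R * P)) ^ 2
        ≤ 4 * Real.exp (-(2 * t * ((m : ℝ) / K) ^ (p / 2))) + (if K ≤ (k : ℕ) then 1 else 0) := by
      have hE : 0 < Real.exp (-(2 * t * ((m : ℝ) / K) ^ (p / 2))) := Real.exp_pos _
      by_cases hkm : (k : ℕ) < m
      · have : R.eval (lam p k) = 0 := by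
          rw [hRe]
          refine Finset.prod_eq_zero (Finset.mem_range.2 hkm) ?_
          unfold lam
          rw [← Real.rpow_add hk1]
          simp
        rw [eval_mul, this]
        have h0 : (0:ℝ) ≤ (if K ≤ (k : ℕ) then 1 else 0) := by split_ifs <;> norm_num
        have : ((0:ℝ) * eval (lam p k) P) ^ 2 = 0 := by ring
        rw [this]
        positivity
      · push Not at hkm
        have hkm' : (m : ℝ) ≤ (k : ℝ) := by exact_mod_cast hkm
        have hlamb : lam p k ≤ (m : ℝ) ^ (-p) := by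
          unfold lam
          rw [Real.rpow_neg hk1.le, Real.rpow_neg hm0.le]
          exact inv_anti₀ (Real.rpow_pos_of_pos hm0 _)
            (Real.rpow_le_rpow hm0.le (by linarith) hp.le)
        have hR1 : |R.eval (lam p k)| ≤ 1 := by
          rw [hRe, Finset.abs_prod]
          refine Finset.prod_le_one (fun _ _ => abs_nonneg _) ?_
          intro j hj
          have hj' : ((j : ℝ) + 1) ≤ (k : ℝ) + 1 := by
            have : (j : ℕ) < m := Finset.mem_range.1 hj
            have : (j : ℝ) < m := by exact_mod_cast this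
            linarith
          have hj0 : (0 : ℝ) < (j : ℝ) + 1 := by positivity
          have h1 : ((j : ℝ) + 1) ^ p * lam p k ≤ 1 := by
            unfold lam
            calc ((j : ℝ) + 1) ^ p * ((k : ℝ) + 1) ^ (-p)
                ≤ ((k : ℝ) + 1) ^ p * ((k : ℝ) + 1) ^ (-p) := by
                  refine mul_le_mul_of_nonneg_right (Real.rpow_le_rpow hj0.le hj' hp.le) ?_
                  exact (Real.rpow_pos_of_pos hk1 _).le
              _ = 1 := by rw [← Real.rpow_add hk1]; simp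
          have h2 : 0 ≤ ((j : ℝ) + 1) ^ p * lam p k :=
            mul_nonneg (Real.rpow_pos_of_pos hj0 _).le hlam0.le
          rw [abs_le]; constructor <;> linarith
        have hq : (eval (lam p k) (R * P)) ^ 2 ≤ (P.eval (lam p k)) ^ 2 := by
          rw [eval_mul, mul_pow]
          have : (R.eval (lam p k)) ^ 2 ≤ 1 := by
            rw [← sq_abs]; exact pow_le_one₀ (abs_nonneg _) hR1
          have h3 : 0 ≤ (P.eval (lam p k)) ^ 2 := sq_nonneg _
          nlinarith
        refine le_trans hq ?_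
        by_cases hkK : K ≤ (k : ℕ)
        · rw [if_pos hkK]
          have := hP1 (lam p k) ⟨hlam0.le, hlamb⟩
          have h4 : (P.eval (lam p k)) ^ 2 ≤ 1 := by
            rw [← sq_abs]; exact pow_le_one₀ (abs_nonneg _) this
          linarith
        · rw [if_neg hkK, add_zero]
          push Not at hkK
          have hkK' : (k : ℝ) + 1 ≤ K := by exact_mod_cast hkK
          have hlama : (K : ℝ) ^ (-p) ≤ lam p k := by
            unfold lam
            rw [Real.rpow_neg hk1.le, Real.rpow_neg hK0.le]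
            exact inv_anti₀ (Real.rpow_pos_of_pos hk1 _)
              (Real.rpow_le_rpow hk1.le hkK' hp.le)
          have := hP2 (lam p k) ⟨hlama, hlamb⟩
          rw [hsq] at this
          rw [← sq_abs]
          calc |P.eval (lam p k)| ^ 2
              ≤ (2 * Real.exp (-(t * ((m : ℝ) / K) ^ (p / 2)))) ^ 2 :=
                pow_le_pow_left₀ (abs_nonneg _) this 2
            _ = 4 * Real.exp (-(2 * t * ((m : ℝ) / K) ^ (p / 2))) := by
                rw [mul_pow, ← Real.exp_nat_mul]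
                norm_num
                ring_nf
    have hw : 0 ≤ lam p k * ξ k := mul_nonneg hlam0.le (hξ k)
    calc lam p k * (eval (lam p k) (R * P)) ^ 2 * ξ k
        = (eval (lam p k) (R * P)) ^ 2 * (lam p k * ξ k) := by ring
      _ ≤ (4 * Real.exp (-(2 * t * ((m : ℝ) / K) ^ (p / 2))) + (if K ≤ (k : ℕ) then 1 else 0))
            * (lam p k * ξ k) := mul_le_mul_of_nonneg_right key hw
      _ = _ := by split_ifs <;> ring

/-- TARGET -/
lemma cg_upper_lt {p ε : ℝ} (hp : 0 < p) (hp1 : p < 1) (hε : 0 < ε) :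
    ∃ C : ℝ, 0 < C ∧ ∀ᶠ n : ℕ in atTop, ∀ ξ : Fin n → ℝ, (∀ k, 0 ≤ ξ k) →
      ∃ q : ℝ[X], (q.natDegree : ℝ) ≤ C * (n : ℝ) ^ (p / (p + 2)) ∧ q.eval 0 = 1 ∧
      ∑ k : Fin n, lam p k * (q.eval (lam p k)) ^ 2 * ξ k ≤ ε * ∑ k : Fin n, lam p k * ξ k := by
  set c : ℝ := max 1 (Real.log (4 / ε) / 2) with hc
  have hc1 : 1 ≤ c := le_max_left _ _
  have hc2 : Real.log (4 / ε) / 2 ≤ c := le_max_right _ _
  have hc0 : 0 < c := by linarith
  refine ⟨2 * c + 2, by linarith, ?_⟩
  set r : ℝ := p / (p + 2) with hr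
  have hr0 : 0 < r := by positivity
  have hr1 : r < 1 := by rw [hr, div_lt_one (by linarith)]; linarith
  -- eventually c * n^r + 1 < n
  have hev : ∀ᶠ n : ℕ in atTop, c * (n : ℝ) ^ r + 1 < n := by
    have h1 : Tendsto (fun n : ℕ => (n : ℝ) ^ (1 - r)) atTop atTop :=
      (tendsto_rpow_atTop (by linarith)).comp tendsto_natCast_atTop_atTop
    filter_upwards [h1.eventually_gt_atTop (c + 1), eventually_ge_atTop 1] with n hn hn1
    have hn1' : (1 : ℝ) ≤ n := by exact_mod_cast hn1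
    have hn0 : (0 : ℝ) < n := by linarith
    have hX1 : 1 ≤ (n : ℝ) ^ r := Real.one_le_rpow hn1' hr0.le
    have : (n : ℝ) = (n : ℝ) ^ r * (n : ℝ) ^ (1 - r) := by
      rw [← Real.rpow_add hn0]; simp
    nlinarith
  filter_upwards [hev, eventually_ge_atTop 1] with n hn hn1
  intro ξ hξ
  have hn1' : (1 : ℝ) ≤ n := by exact_mod_cast hn1
  have hn0 : (0 : ℝ) < n := by linarith
  set Y : ℝ := (n : ℝ) ^ r with hY
  have hY1 : 1 ≤ Y := Real.one_le_rpow hn1' hr0.le
  have hY0 : 0 < Y := by linarith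
  set m : ℕ := ⌈c * Y⌉₊ with hmdef
  have hmge : c * Y ≤ m := Nat.le_ceil _
  have hmle : (m : ℝ) < c * Y + 1 := Nat.ceil_lt_add_one (by positivity)
  have hm1 : 1 ≤ m := by
    have : (0:ℝ) < m := lt_of_lt_of_le (by positivity) hmge
    exact_mod_cast this
  have hmn : m < n := by
    have : (m : ℝ) < n := by linarith
    exact_mod_cast this
  obtain ⟨q, hq1, hq2, hq3⟩ := cg_upper hp n m m n hm1 hmn ξ hξ
  refine ⟨q, ?_, hq2, ?_⟩
  · have : (q.natDegree : ℝ) ≤ m + m := by exact_mod_cast hq1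
    nlinarith
  · have hlast : ∑ k : Fin n, (if n ≤ (k : ℕ) then lam p k else 0) * ξ k = 0 := by
      refine Finset.sum_eq_zero ?_
      intro k _
      rw [if_neg (by have := k.2; omega)]; ring
    rw [hlast, add_zero] at hq3
    refine le_trans hq3 ?_
    refine mul_le_mul_of_nonneg_right ?_ ?_
    · have hmain : c ≤ (m : ℝ) * ((m : ℝ) / n) ^ (p / 2) := by
        have h1 : c * Y / n ≤ (m : ℝ) / n := by gcongr
        have h2 : (c * Y / n) ^ (p / 2) ≤ ((m : ℝ) / n) ^ (p / 2) :=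
          Real.rpow_le_rpow (by positivity) h1 (by positivity)
        have h3 : c * Y * (c * Y / n) ^ (p / 2) ≤ (m : ℝ) * ((m : ℝ) / n) ^ (p / 2) :=
          mul_le_mul hmge h2 (by positivity) (by positivity)
        refine le_trans ?_ h3
        have h4 : (c * Y / n) ^ (p / 2) = c ^ (p / 2) * (Y / n) ^ (p / 2) := by
          rw [mul_div_assoc, Real.mul_rpow hc0.le (by positivity)]
        have h5 : Y * (Y / n) ^ (p / 2) = 1 := by
          rw [hY, Real.div_rpow (by positivity) hn0.le, ← Real.rpow_mul hn0.le,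
            ← Real.rpow_sub hn0, ← Real.rpow_add hn0]
          have : r + (r * (p / 2) - p / 2) = 0 := by
            rw [hr]; field_simp; ring
          rw [this, Real.rpow_zero]
        have h6 : 1 ≤ c ^ (p / 2) := Real.one_le_rpow hc1 (by positivity)
        calc c ≤ c * c ^ (p / 2) := by nlinarith
          _ = c * c ^ (p / 2) * (Y * (Y / n) ^ (p / 2)) := by rw [h5, mul_one]
          _ = c * Y * (c * Y / n) ^ (p / 2) := by rw [h4]; ring
      have : 4 * Real.exp (-(2 * m * ((m : ℝ) / n) ^ (p / 2))) ≤ 4 * Real.exp (-Real.log (4 / ε)) := by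
        have : -(2 * m * ((m : ℝ) / n) ^ (p / 2)) ≤ -Real.log (4 / ε) := by nlinarith
        have := Real.exp_le_exp.2 this
        linarith
      refine le_trans this ?_
      rw [Real.exp_neg, Real.exp_log (by positivity)]
      apply le_of_eq
      field_simp
    · refine Finset.sum_nonneg ?_
      intro k _
      exact mul_nonneg (Real.rpow_pos_of_pos (by positivity) _).le (hξ k)

/-- TARGET -/
lemma cg_upper_one {ε δ : ℝ} (hε : 0 < ε) (hε1 : ε < 1) (hδ : 0 < δ) :
    ∃ s : ℝ, 1 - ε < s ∧ s < 1 ∧ ∀ η : ℝ, 0 < η → ∀ᶠ n : ℕ in atTop, ∀ ξ : Fin n → ℝ,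
      (∀ k, 0 ≤ ξ k) →
      ∃ q : ℝ[X], (q.natDegree : ℝ) ≤ (n : ℝ) ^ ((1 - ε) / 3 + δ) ∧ q.eval 0 = 1 ∧
      ∑ k : Fin n, lam 1 k * (q.eval (lam 1 k)) ^ 2 * ξ k
        ≤ η * (∑ k : Fin n, lam 1 k * ξ k)
          + ∑ k : Fin n, (if (n : ℝ) ^ s ≤ (k : ℝ) + 1 then ((k : ℝ) + 1)⁻¹ else 0) * ξ k := by
  obtain ⟨d, hd0, hdε, hdδ⟩ : ∃ d : ℝ, 0 < d ∧ d < ε ∧ d < δ := by
    refine ⟨min ε δ / 2, by positivity, ?_, ?_⟩
    · have := min_le_left ε δ; linarith
    · have := min_le_right ε δ; linarith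
  set s : ℝ := 1 - ε + d with hs
  have hs0 : d < s := by linarith
  refine ⟨s, by linarith, by linarith, ?_⟩
  intro η hη
  set α : ℝ := s / 3 + d / 2 with hα
  have hα0 : 0 < α := by positivity
  have hαs : α < s := by rw [hα]; linarith
  have hαβ : α < (1 - ε) / 3 + δ := by rw [hα, hs]; linarith
  set β : ℝ := (1 - ε) / 3 + δ with hβ
  have tend : ∀ x : ℝ, 0 < x → Tendsto (fun n : ℕ => (n : ℝ) ^ x) atTop atTop := fun x hx =>
    (tendsto_rpow_atTop hx).comp tendsto_natCast_atTop_atTop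
  have hexp : ∀ᶠ n : ℕ in atTop, 4 * Real.exp (-((n : ℝ) ^ (3 * d / 4))) ≤ η := by
    have h1 : Tendsto (fun n : ℕ => 4 * Real.exp (-((n : ℝ) ^ (3 * d / 4)))) atTop (𝓝 (4 * 0)) := by
      refine Tendsto.const_mul _ ?_
      exact Real.tendsto_exp_neg_atTop_nhds_zero.comp (tend _ (by positivity))
    rw [mul_zero] at h1
    exact (h1.eventually_lt_const hη).mono fun n hn => hn.le
  filter_upwards [hexp, eventually_ge_atTop 1, (tend (s - α) (by linarith)).eventually_gt_atTop 2,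
    (tend (β - α) (by linarith)).eventually_ge_atTop 4] with n hn hn1 hnA hnB
  intro ξ hξ
  have hn1' : (1 : ℝ) ≤ n := by exact_mod_cast hn1
  have hn0 : (0 : ℝ) < n := by linarith
  set Y : ℝ := (n : ℝ) ^ α with hY
  have hY1 : 1 ≤ Y := Real.one_le_rpow hn1' hα0.le
  have hY0 : 0 < Y := by linarith
  set S : ℝ := (n : ℝ) ^ s with hS
  have hS1 : 1 ≤ S := Real.one_le_rpow hn1' (by linarith)
  have hS0 : 0 < S := by linarith
  have hSY : S = Y * (n : ℝ) ^ (s - α) := by
    rw [hS, hY, ← Real.rpow_add hn0]; congr 1; ring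
  set m : ℕ := ⌈Y⌉₊ with hmdef
  set K : ℕ := ⌈S⌉₊ with hKdef
  have hmge : Y ≤ m := Nat.le_ceil _
  have hmle : (m : ℝ) < Y + 1 := Nat.ceil_lt_add_one hY0.le
  have hKge : S ≤ K := Nat.le_ceil _
  have hKle : (K : ℝ) < S + 1 := Nat.ceil_lt_add_one hS0.le
  have hm1 : 1 ≤ m := by
    have : (0:ℝ) < m := lt_of_lt_of_le hY0 hmge
    exact_mod_cast this
  have hmK : m < K := by
    have : (m : ℝ) < K := by nlinarith
    exact_mod_cast this
  have hK0 : (0:ℝ) < K := by linarith
  obtain ⟨q, hq1, hq2, hq3⟩ := cg_upper (p := 1) one_pos n m m K hm1 hmK ξ hξ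
  refine ⟨q, ?_, hq2, ?_⟩
  · have h1 : (q.natDegree : ℝ) ≤ m + m := by exact_mod_cast hq1
    have h2 : (n : ℝ) ^ β = Y * (n : ℝ) ^ (β - α) := by
      rw [hY, ← Real.rpow_add hn0]; congr 1; ring
    rw [h2]
    nlinarith
  · refine le_trans hq3 (add_le_add ?_ ?_)
    · refine mul_le_mul_of_nonneg_right ?_ ?_
      · refine le_trans ?_ hn
        have hmain : (n : ℝ) ^ (3 * d / 4) ≤ 2 * m * ((m : ℝ) / K) ^ ((1 : ℝ) / 2) := by
          have h1 : Y / (2 * S) ≤ (m : ℝ) / K := by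
            refine div_le_div₀ (by positivity) hmge hK0 (by linarith)
          have h2 : (Y / (2 * S)) ^ ((1 : ℝ) / 2) ≤ ((m : ℝ) / K) ^ ((1 : ℝ) / 2) :=
            Real.rpow_le_rpow (by positivity) h1 (by norm_num)
          have h3 : Y * (Y / (2 * S)) ^ ((1 : ℝ) / 2) ≤ (m : ℝ) * ((m : ℝ) / K) ^ ((1 : ℝ) / 2) :=
            mul_le_mul hmge h2 (by positivity) (by positivity)
          have h4 : (n : ℝ) ^ (3 * d / 4) ≤ 2 * (Y * (Y / (2 * S)) ^ ((1 : ℝ) / 2)) := by
            have h5 : Y / (2 * S) = (1 / 2) * (Y / S) := by field_simp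
            have h6 : Y * (Y / S) ^ ((1 : ℝ) / 2) = (n : ℝ) ^ (3 * d / 4) := by
              rw [hY, hS, ← Real.rpow_sub hn0, ← Real.rpow_mul hn0.le, ← Real.rpow_add hn0]
              congr 1
              rw [hα]; ring
            rw [h5, Real.mul_rpow (by norm_num) (by positivity)]
            have h7 : (1 : ℝ) / 2 ≤ ((1 : ℝ) / 2) ^ ((1 : ℝ) / 2) := by
              calc (1 : ℝ) / 2 = ((1 : ℝ) / 2) ^ (1 : ℝ) := by rw [Real.rpow_one]
                _ ≤ ((1 : ℝ) / 2) ^ ((1 : ℝ) / 2) :=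
                  Real.rpow_le_rpow_of_exponent_ge (by norm_num) (by norm_num) (by norm_num)
            have h8 : 0 < (n : ℝ) ^ (3 * d / 4) := Real.rpow_pos_of_pos hn0 _
            calc (n : ℝ) ^ (3 * d / 4) = 2 * (1 / 2 * (n : ℝ) ^ (3 * d / 4)) := by ring
              _ ≤ 2 * (((1 : ℝ) / 2) ^ ((1 : ℝ) / 2) * (n : ℝ) ^ (3 * d / 4)) := by gcongr
              _ = 2 * (Y * (((1 : ℝ) / 2) ^ ((1 : ℝ) / 2) * (Y / S) ^ ((1 : ℝ) / 2))) := by
                  rw [← h6]; ring
          nlinarith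
        have := Real.exp_le_exp.2 (neg_le_neg hmain)
        linarith
      · refine Finset.sum_nonneg ?_
        intro k _
        exact mul_nonneg (Real.rpow_pos_of_pos (by positivity) _).le (hξ k)
    · refine Finset.sum_le_sum ?_
      intro k _
      refine mul_le_mul_of_nonneg_right ?_ (hξ k)
      have hk1 : (0 : ℝ) < (k : ℝ) + 1 := by positivity
      by_cases hk : K ≤ (k : ℕ)
      · have hk' : (K : ℝ) ≤ (k : ℝ) := by exact_mod_cast hk
        rw [if_pos hk, if_pos (by linarith)]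
        unfold lam
        rw [Real.rpow_neg_one]
      · rw [if_neg hk]
        split_ifs
        · positivity
        · exact le_rfl

end Pool.Agent.Helper579.Cg
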