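import Mathlib
import Pool.Agent.Helper579.CgExpo

set_option autoImplicit false

namespace Pool.Agent.Helper579.Cg

open MeasureTheory Filter
open scoped ENNReal Topology

/-- general weak law -/
lemma wl_gen (a : (n : ℕ) → Fin n → ℝ) (m : ℝ)
    (h1 : Tendsto (fun n : ℕ => ∑ k, a n k) atTop (𝓝 m))
    (h2 : Tendsto (fun n : ℕ => ∑ k, a n k ^ 2) atTop (𝓝 0)) {x : ℝ} (hx : 0 < x) :
    Tendsto (fun n : ℕ => (Measure.pi fun _ : Fin n => expo)
      {ξ | x ≤ |∑ k, a n k * ξ k - m|}) atTop (𝓝 0) := by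
  have hx2 : 0 < x / 2 := by positivity
  have hev : ∀ᶠ n in atTop, |∑ k, a n k - m| ≤ x / 2 := by
    have := Metric.tendsto_nhds.1 h1 (x / 2) hx2
    filter_upwards [this] with n hn
    rw [Real.dist_eq] at hn
    exact hn.le
  have hup : Tendsto (fun n : ℕ => ENNReal.ofReal ((∑ k, a n k ^ 2) / (x / 2) ^ 2)) atTop (𝓝 0) := by
    have h3 := (h2.div_const ((x / 2) ^ 2))
    rw [zero_div] at h3
    have h4 := ENNReal.tendsto_ofReal h3
    rwa [ENNReal.ofReal_zero] at h4
  refine tendsto_of_tendsto_of_tendsto_of_le_of_le' tendsto_const_nhds hup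
    (Eventually.of_forall fun n => zero_le) ?_
  filter_upwards [hev] with n hn
  refine (measure_mono ?_).trans (expo_cheb (a n) hx2)
  intro ξ hξ
  have hξ' : x ≤ |∑ k, a n k * ξ k - m| := hξ
  show x / 2 ≤ |∑ k, a n k * ξ k - ∑ k, a n k|
  have := abs_sub_le (∑ k, a n k * ξ k) (∑ k, a n k) m
  linarith

lemma wl_gen' (a : (n : ℕ) → Fin n → ℝ) (b : ℕ → ℝ) (m : ℝ)
    (h0 : ∀ᶠ n in atTop, ∀ k, 0 ≤ a n k) (hb : ∀ᶠ n in atTop, ∀ k, a n k ≤ b n)
    (hb0 : Tendsto b atTop (𝓝 0))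
    (h1 : Tendsto (fun n : ℕ => ∑ k, a n k) atTop (𝓝 m)) {x : ℝ} (hx : 0 < x) :
    Tendsto (fun n : ℕ => (Measure.pi fun _ : Fin n => expo)
      {ξ | x ≤ |∑ k, a n k * ξ k - m|}) atTop (𝓝 0) := by
  apply wl_gen a m h1 _ hx
  have h3 := hb0.mul h1
  rw [zero_mul] at h3
  refine tendsto_of_tendsto_of_tendsto_of_le_of_le' tendsto_const_nhds h3
    (Eventually.of_forall fun n => Finset.sum_nonneg fun k _ => sq_nonneg _) ?_
  filter_upwards [h0, hb] with n hn0 hnb
  rw [Finset.mul_sum]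
  refine Finset.sum_le_sum fun k _ => ?_
  rw [sq]
  exact mul_le_mul_of_nonneg_right (hnb k) (hn0 k)

/-- Riemann sums by dominated convergence -/
lemma riemann (g bound : ℝ → ℝ) (hg : Measurable g) (hbi : IntervalIntegrable bound volume 0 1)
    (hb : ∀ n : ℕ, 0 < n → ∀ y ∈ Set.Ioc (0:ℝ) 1, |g ((⌈y * n⌉₊ : ℝ) / n)| ≤ bound y)
    (hc : ∀ᵐ y : ℝ, y ∈ Set.Ioc (0:ℝ) 1 → ContinuousAt g y) :
    Tendsto (fun n : ℕ => (1 / (n:ℝ)) * ∑ k ∈ Finset.range n, g (((k:ℝ) + 1) / n)) atTop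
      (𝓝 (∫ y in (0:ℝ)..1, g y)) := by
  have key : ∀ n : ℕ, 0 < n → (∫ y in (0:ℝ)..1, g ((⌈y * n⌉₊ : ℝ) / n)) =
      (1 / (n:ℝ)) * ∑ k ∈ Finset.range n, g (((k:ℝ) + 1) / n) := by
    intro n hn
    have hn' : (0:ℝ) < n := by exact_mod_cast hn
    have hceil : ∀ k : ℕ, ∀ y ∈ Set.Ioc ((k:ℝ) / n) (((k + 1 : ℕ) : ℝ) / n),
        g ((⌈y * n⌉₊ : ℝ) / n) = g (((k:ℝ) + 1) / n) := by
      intro k y hy
      have h1 : (k : ℝ) < y * n := by rw [← div_lt_iff₀ hn']; exact hy.1
      have h2 : y * n ≤ ((k + 1 : ℕ) : ℝ) := by rw [← le_div_iff₀ hn']; exact hy.2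
      have h3 : ⌈y * n⌉₊ = k + 1 := by
        apply le_antisymm (Nat.ceil_le.2 h2)
        exact Nat.lt_ceil.2 h1
      rw [h3]; push_cast; rfl
    have hle : ∀ k : ℕ, (k:ℝ) / n ≤ ((k + 1 : ℕ) : ℝ) / n := by
      intro k
      gcongr
      push_cast; linarith
    have hint : ∀ k < n, IntervalIntegrable (fun y : ℝ => g ((⌈y * n⌉₊ : ℝ) / n)) volume
        ((k:ℝ) / n) (((k + 1 : ℕ) : ℝ) / n) := by
      intro k _
      have h1 : IntervalIntegrable (fun _ : ℝ => g (((k:ℝ) + 1) / n)) volume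
        ((k:ℝ) / n) (((k + 1 : ℕ) : ℝ) / n) := intervalIntegrable_const
      rw [intervalIntegrable_iff_integrableOn_Ioc_of_le (hle k)] at h1 ⊢
      exact h1.congr_fun (fun y hy => (hceil k y hy).symm) measurableSet_Ioc
    have hsum := intervalIntegral.sum_integral_adjacent_intervals (μ := volume)
      (a := fun k : ℕ => (k:ℝ) / n) hint
    simp only [Nat.cast_zero, zero_div] at hsum
    rw [div_self hn'.ne'] at hsum
    rw [← hsum, Finset.mul_sum]
    refine Finset.sum_congr rfl fun k _ => ?_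
    rw [intervalIntegral.integral_of_le (hle k), setIntegral_congr_fun measurableSet_Ioc (hceil k),
      ← intervalIntegral.integral_of_le (hle k), intervalIntegral.integral_const, smul_eq_mul]
    push_cast
    ring
  have hlim : Tendsto (fun n : ℕ => ∫ y in (0:ℝ)..1, g ((⌈y * n⌉₊ : ℝ) / n)) atTop
      (𝓝 (∫ y in (0:ℝ)..1, g y)) := by
    apply intervalIntegral.tendsto_integral_filter_of_dominated_convergence bound
    · refine Eventually.of_forall fun n => ?_
      apply Measurable.aestronglyMeasurable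
      apply hg.comp
      have : Measurable fun y : ℝ => ⌈y * n⌉₊ := Nat.measurable_ceil.comp (measurable_id.mul_const _)
      exact ((measurable_from_top (f := fun k : ℕ => (k : ℝ))).comp this).div_const _
    · filter_upwards [eventually_gt_atTop 0] with n hn
      refine Eventually.of_forall fun y hy => ?_
      rw [Set.uIoc_of_le zero_le_one] at hy
      rw [Real.norm_eq_abs]
      exact hb n hn y hy
    · exact hbi
    · filter_upwards [hc] with y hy hy1
      rw [Set.uIoc_of_le zero_le_one] at hy1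
      have h1 := (tendsto_nat_ceil_mul_div_atTop (R := ℝ) hy1.1.le).comp
        tendsto_natCast_atTop_atTop
      exact (hy hy1).tendsto.comp h1
  refine hlim.congr' ?_
  filter_upwards [eventually_gt_atTop 0] with n hn
  exact key n hn

lemma rpow_conv {n : ℕ} (hn : 0 < n) (s : ℝ) (k : ℝ) (hk : 0 < k) :
    (n : ℝ) ^ (s - 1) * k ^ (-s) = 1 / n * (k / n) ^ (-s) := by
  have hn' : (0:ℝ) < n := by exact_mod_cast hn
  rw [Real.div_rpow hk.le hn'.le, Real.rpow_sub hn', Real.rpow_one, Real.rpow_neg hn'.le]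
  field_simp

/-- TARGET -/
lemma wlln_cut (s : ℝ) {κ : ℝ} (hκ : 0 < κ) (hκ1 : κ < 1) {x : ℝ} (hx : 0 < x) :
    Tendsto (fun n : ℕ => (Measure.pi fun _ : Fin n => expo)
      {ξ | x ≤ |(n : ℝ) ^ (s - 1) * ∑ k : Fin n,
        (if κ * n ≤ (k : ℝ) + 1 then ((k : ℝ) + 1) ^ (-s) else 0) * ξ k
          - ∫ y in κ..1, y ^ (-s)|}) atTop (𝓝 0) := by
  set g : ℝ → ℝ := fun y => if κ ≤ y then y ^ (-s) else 0 with hg
  set C : ℝ := κ ^ (-|s|) with hC
  have hC0 : 0 < C := Real.rpow_pos_of_pos hκ _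
  have hgm : Measurable g := by
    apply Measurable.ite measurableSet_Ici (by fun_prop) measurable_const
  have hgb : ∀ y, 0 < y → y ≤ 1 → 0 ≤ g y ∧ g y ≤ C := by
    intro y hy hy1
    simp only [hg]
    split_ifs with h
    · refine ⟨Real.rpow_nonneg hy.le _, ?_⟩
      calc y ^ (-s) ≤ y ^ (-|s|) :=
            Real.rpow_le_rpow_of_exponent_ge hy hy1 (by have := le_abs_self s; linarith)
        _ ≤ κ ^ (-|s|) := Real.rpow_le_rpow_of_nonpos hκ h (by have := abs_nonneg s; linarith)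
    · exact ⟨le_rfl, hC0.le⟩
  have hpos : ∀ n : ℕ, 0 < n → ∀ y ∈ Set.Ioc (0:ℝ) 1,
      0 < (⌈y * n⌉₊ : ℝ) / n ∧ (⌈y * n⌉₊ : ℝ) / n ≤ 1 := by
    intro n hn y hy
    have hn' : (0:ℝ) < n := by exact_mod_cast hn
    have h1 : 0 < y * n := mul_pos hy.1 hn'
    refine ⟨div_pos (by exact_mod_cast Nat.ceil_pos.2 h1) hn', ?_⟩
    rw [div_le_one hn']
    have : ⌈y * n⌉₊ ≤ n := Nat.ceil_le.2 (by nlinarith [hy.2])
    exact_mod_cast this
  have hr := riemann g (fun _ => C) hgm intervalIntegrable_const (by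
    intro n hn y hy
    obtain ⟨h1, h2⟩ := hpos n hn y hy
    rw [abs_of_nonneg (hgb _ h1 h2).1]
    exact (hgb _ h1 h2).2) (by
    have hne : ∀ᵐ y : ℝ, y ≠ κ := by
      rw [ae_iff]; simp
    filter_upwards [hne] with y hy hy1
    rcases lt_or_gt_of_ne hy with h | h
    · have : g =ᶠ[𝓝 y] fun _ => 0 := by
        filter_upwards [Iio_mem_nhds h] with z hz
        simp only [hg]
        rw [if_neg (not_le.2 hz)]
      exact continuousAt_const.congr this.symm
    · have : g =ᶠ[𝓝 y] fun z => z ^ (-s) := by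
        filter_upwards [Ioi_mem_nhds h] with z hz
        simp only [hg]
        rw [if_pos (le_of_lt hz)]
      exact (Real.continuousAt_rpow_const y (-s) (Or.inl (by linarith [hy1.1]))).congr this.symm)
  have hint : (∫ y in (0:ℝ)..1, g y) = ∫ y in κ..1, y ^ (-s) := by
    have hgi : ∀ a b, 0 ≤ a → a ≤ b → b ≤ 1 → IntervalIntegrable g volume a b := by
      intro a b ha hab hb
      rw [intervalIntegrable_iff_integrableOn_Ioc_of_le hab]
      refine Measure.integrableOn_of_bounded (M := C) (by simp) hgm.aestronglyMeasurable ?_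
      refine (ae_restrict_iff' measurableSet_Ioc).2 (Eventually.of_forall fun y hy => ?_)
      have := hgb y (lt_of_le_of_lt ha hy.1) (hy.2.trans hb)
      rw [Real.norm_eq_abs, abs_of_nonneg this.1]; exact this.2
    rw [← intervalIntegral.integral_add_adjacent_intervals (hgi 0 κ le_rfl hκ.le hκ1.le)
      (hgi κ 1 hκ.le hκ1.le le_rfl)]
    have e1 : (∫ y in (0:ℝ)..κ, g y) = 0 := by
      rw [intervalIntegral.integral_congr_ae (g := fun _ => 0)]
      · simp
      · have hne : ∀ᵐ y : ℝ, y ≠ κ := by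
          rw [ae_iff]; simp
        filter_upwards [hne] with y hy hy1
        rw [Set.uIoc_of_le hκ.le] at hy1
        simp only [hg]
        rw [if_neg (not_le.2 (lt_of_le_of_ne hy1.2 hy))]
    have e2 : (∫ y in κ..1, g y) = ∫ y in κ..1, y ^ (-s) := by
      apply intervalIntegral.integral_congr
      intro y hy
      rw [Set.uIcc_of_le hκ1.le] at hy
      simp only [hg]
      rw [if_pos hy.1]
    rw [e1, e2, zero_add]
  rw [hint] at hr
  have hconv : ∀ n : ℕ, 0 < n → ∀ k : ℕ, (n : ℝ) ^ (s - 1) *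
      (if κ * n ≤ (k : ℝ) + 1 then ((k : ℝ) + 1) ^ (-s) else 0) = 1 / n * g (((k:ℝ) + 1) / n) := by
    intro n hn k
    have hn' : (0:ℝ) < n := by exact_mod_cast hn
    simp only [hg]
    by_cases h : κ * n ≤ (k : ℝ) + 1
    · rw [if_pos h, if_pos (by rw [le_div_iff₀ hn']; exact h)]
      exact rpow_conv hn s _ (by positivity)
    · rw [if_neg h, if_neg (by rw [le_div_iff₀ hn']; exact h), mul_zero, mul_zero]
  have main := wl_gen' (fun n k => (n : ℝ) ^ (s - 1) *
      (if κ * n ≤ (k : ℝ) + 1 then ((k : ℝ) + 1) ^ (-s) else 0)) (fun n => 1 / n * C)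
      (∫ y in κ..1, y ^ (-s)) (by
        refine Eventually.of_forall fun n k => ?_
        apply mul_nonneg (Real.rpow_nonneg (Nat.cast_nonneg n) _)
        split_ifs
        · positivity
        · exact le_rfl) (by
        filter_upwards [eventually_gt_atTop 0] with n hn k
        rw [hconv n hn k]
        have hn' : (0:ℝ) < n := by exact_mod_cast hn
        have hk : (k : ℝ) + 1 ≤ n := by exact_mod_cast k.2
        gcongr
        exact (hgb _ (by positivity) (by rw [div_le_one hn']; exact hk)).2) (by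
        have := (tendsto_one_div_atTop_nhds_zero_nat (𝕜 := ℝ)).mul_const C
        rwa [zero_mul] at this) (by
        refine hr.congr' ?_
        filter_upwards [eventually_gt_atTop 0] with n hn
        rw [Finset.mul_sum, Finset.sum_range]
        exact Finset.sum_congr rfl fun k _ => (hconv n hn k).symm) hx
  refine main.congr fun n => ?_
  congr 1
  ext ξ
  simp only [Set.mem_ofPred_eq, Finset.mul_sum, mul_assoc]

/-- TARGET -/
lemma wlln_full {s : ℝ} (hs0 : 0 < s) (hs : s < 1) {x : ℝ} (hx : 0 < x) :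
    Tendsto (fun n : ℕ => (Measure.pi fun _ : Fin n => expo)
      {ξ | x ≤ |(n : ℝ) ^ (s - 1) * ∑ k : Fin n, ((k : ℝ) + 1) ^ (-s) * ξ k
          - 1 / (1 - s)|}) atTop (𝓝 0) := by
  set g : ℝ → ℝ := fun y => y ^ (-s) with hg
  have hgi : IntervalIntegrable g volume 0 1 := intervalIntegral.intervalIntegrable_rpow' (by linarith)
  have hr := riemann g g (by fun_prop) hgi (by
    intro n hn y hy
    have hn' : (0:ℝ) < n := by exact_mod_cast hn
    have h1 : y ≤ (⌈y * n⌉₊ : ℝ) / n := by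
      rw [le_div_iff₀ hn']; exact Nat.le_ceil _
    simp only [hg]
    rw [abs_of_nonneg (Real.rpow_nonneg (hy.1.le.trans h1) _)]
    exact Real.rpow_le_rpow_of_nonpos hy.1 h1 (by linarith)) (by
    refine Eventually.of_forall fun y hy => ?_
    exact Real.continuousAt_rpow_const y (-s) (Or.inl hy.1.ne'))
  have hint : (∫ y in (0:ℝ)..1, g y) = 1 / (1 - s) := by
    simp only [hg]
    rw [integral_rpow (Or.inl (by linarith))]
    rw [Real.one_rpow, Real.zero_rpow (by linarith)]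
    congr 1
    · ring
    · ring
  rw [hint] at hr
  have hconv : ∀ n : ℕ, 0 < n → ∀ k : ℕ, (n : ℝ) ^ (s - 1) *
      ((k : ℝ) + 1) ^ (-s) = 1 / n * g (((k:ℝ) + 1) / n) := by
    intro n hn k
    exact rpow_conv hn s _ (by positivity)
  have main := wl_gen' (fun n k => (n : ℝ) ^ (s - 1) * ((k : ℝ) + 1) ^ (-s))
      (fun n => (n : ℝ) ^ (s - 1)) (1 / (1 - s)) (by
        refine Eventually.of_forall fun n k => ?_
        positivity) (by
        refine Eventually.of_forall fun n k => ?_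
        have h1 : ((k : ℝ) + 1) ^ (-s) ≤ 1 :=
          Real.rpow_le_one_of_one_le_of_nonpos (by
            have : (0:ℝ) ≤ (k : ℝ) := Nat.cast_nonneg _
            linarith) (by linarith)
        exact mul_le_of_le_one_right (Real.rpow_nonneg (Nat.cast_nonneg n) _) h1) (by
        have h1 := (tendsto_rpow_neg_atTop (y := 1 - s) (by linarith)).comp
          (tendsto_natCast_atTop_atTop (R := ℝ))
        refine h1.congr fun n => ?_
        simp only [Function.comp_apply]
        congr 1; ring) (by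
        refine hr.congr' ?_
        filter_upwards [eventually_gt_atTop 0] with n hn
        rw [Finset.mul_sum, Finset.sum_range]
        exact Finset.sum_congr rfl fun k _ => (hconv n hn k).symm) hx
  refine main.congr fun n => ?_
  congr 1
  ext ξ
  simp only [Set.mem_ofPred_eq, Finset.mul_sum, mul_assoc]

lemma harm_range (n : ℕ) : ∑ k ∈ Finset.range n, ((k:ℝ) + 1)⁻¹ = (harmonic n : ℝ) := by
  unfold harmonic
  push_cast
  rfl

/-- TARGET -/
lemma wlln_log {s : ℝ} (hs0 : 0 ≤ s) (hs : s < 1) {x : ℝ} (hx : 0 < x) :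
    Tendsto (fun n : ℕ => (Measure.pi fun _ : Fin n => expo)
      {ξ | x ≤ |(Real.log n)⁻¹ * ∑ k : Fin n,
        (if (n : ℝ) ^ s ≤ (k : ℝ) + 1 then ((k : ℝ) + 1)⁻¹ else 0) * ξ k
          - (1 - s)|}) atTop (𝓝 0) := by
  have hlogt : Tendsto (fun n : ℕ => Real.log n) atTop atTop :=
    Real.tendsto_log_atTop.comp tendsto_natCast_atTop_atTop
  have hinv : Tendsto (fun n : ℕ => (Real.log n)⁻¹) atTop (𝓝 0) := tendsto_inv_atTop_zero.comp hlogt
  have hbound : ∀ n : ℕ, 2 ≤ n →
      |∑ k ∈ Finset.range n, (if (n : ℝ) ^ s ≤ (k : ℝ) + 1 then ((k : ℝ) + 1)⁻¹ else 0) -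
        (1 - s) * Real.log n| ≤ 1 := by
    intro n hn
    have hn' : (1:ℝ) < n := by exact_mod_cast hn
    have hlog : 0 < Real.log n := Real.log_pos hn'
    have hns : 0 < (n:ℝ) ^ s := by positivity
    have hns1 : 1 ≤ (n:ℝ) ^ s := Real.one_le_rpow hn'.le hs0
    set c : ℕ := ⌈(n:ℝ) ^ s⌉₊ - 1 with hc
    have hc1 : ⌈(n:ℝ) ^ s⌉₊ = c + 1 := by
      have := Nat.ceil_pos.2 hns; omega
    have hcn : c ≤ n := by
      have h1 : ⌈(n:ℝ) ^ s⌉₊ ≤ n := by
        apply Nat.ceil_le.2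
        calc (n:ℝ) ^ s ≤ (n:ℝ) ^ (1:ℝ) := Real.rpow_le_rpow_of_exponent_le hn'.le hs.le
          _ = n := Real.rpow_one _
      omega
    have hiff : ∀ k : ℕ, (n : ℝ) ^ s ≤ (k : ℝ) + 1 ↔ ¬ k < c := by
      intro k
      have h1 : (n : ℝ) ^ s ≤ (k : ℝ) + 1 ↔ ⌈(n:ℝ) ^ s⌉₊ ≤ k + 1 := by
        rw [Nat.ceil_le]; push_cast; rfl
      rw [h1, hc1]; omega
    have hsum : ∑ k ∈ Finset.range n, (if (n : ℝ) ^ s ≤ (k : ℝ) + 1 then ((k : ℝ) + 1)⁻¹ else 0) =
        (harmonic n : ℝ) - (harmonic c : ℝ) := by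
      have e0 : ∑ k ∈ Finset.range n, ((k : ℝ) + 1)⁻¹ =
          ∑ k ∈ Finset.range c, ((k : ℝ) + 1)⁻¹ + ∑ k ∈ Finset.Ico c n, ((k : ℝ) + 1)⁻¹ :=
        (Finset.sum_range_add_sum_Ico _ hcn).symm
      have e1 : ∑ k ∈ Finset.range c, (if (n : ℝ) ^ s ≤ (k : ℝ) + 1 then ((k : ℝ) + 1)⁻¹ else 0) = 0 := by
        apply Finset.sum_eq_zero
        intro k hk
        rw [if_neg]
        rw [hiff]; simpa using Finset.mem_range.1 hk
      have e2 : ∑ k ∈ Finset.Ico c n, (if (n : ℝ) ^ s ≤ (k : ℝ) + 1 then ((k : ℝ) + 1)⁻¹ else 0) =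
          ∑ k ∈ Finset.Ico c n, ((k : ℝ) + 1)⁻¹ := by
        apply Finset.sum_congr rfl
        intro k hk
        rw [if_pos]
        rw [hiff]; have := (Finset.mem_Ico.1 hk).1; omega
      have e3 := Finset.sum_range_add_sum_Ico
        (fun k : ℕ => (if (n : ℝ) ^ s ≤ (k : ℝ) + 1 then ((k : ℝ) + 1)⁻¹ else 0)) hcn
      rw [← harm_range n, ← harm_range c, e0, ← e3, e1, e2]
      ring
    have a1 := log_add_one_le_harmonic n
    have a2 := harmonic_le_one_add_log n
    have a3 := log_add_one_le_harmonic c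
    have a4 := harmonic_le_one_add_log c
    have b1 : Real.log n ≤ Real.log ((n + 1 : ℕ) : ℝ) := by
      apply Real.log_le_log (by linarith); push_cast; linarith
    have b2 : s * Real.log n ≤ Real.log ((c + 1 : ℕ) : ℝ) := by
      rw [← Real.log_rpow (by linarith)]
      apply Real.log_le_log hns
      rw [← hc1]; exact Nat.le_ceil _
    have b3 : Real.log c ≤ s * Real.log n := by
      rcases Nat.eq_zero_or_pos c with h0 | h0
      · rw [h0]; simp; positivity
      · rw [← Real.log_rpow (by linarith)]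
        apply Real.log_le_log (by exact_mod_cast h0)
        have : c < ⌈(n:ℝ) ^ s⌉₊ := by omega
        exact (Nat.lt_ceil.1 this).le
    rw [hsum, abs_le]
    constructor <;> nlinarith
  have h1 : Tendsto (fun n : ℕ => (Real.log n)⁻¹ * ∑ k ∈ Finset.range n,
      (if (n : ℝ) ^ s ≤ (k : ℝ) + 1 then ((k : ℝ) + 1)⁻¹ else 0)) atTop (𝓝 (1 - s)) := by
    rw [tendsto_iff_norm_sub_tendsto_zero]
    refine squeeze_zero' (Eventually.of_forall fun n => norm_nonneg _) ?_ hinv
    filter_upwards [eventually_ge_atTop 2] with n hn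
    have hn' : (1:ℝ) < n := by exact_mod_cast hn
    have hlog : 0 < Real.log n := Real.log_pos hn'
    have h2 := hbound n hn
    have h3 : (Real.log n)⁻¹ * ∑ k ∈ Finset.range n,
      (if (n : ℝ) ^ s ≤ (k : ℝ) + 1 then ((k : ℝ) + 1)⁻¹ else 0) - (1 - s) =
      (Real.log n)⁻¹ * (∑ k ∈ Finset.range n,
      (if (n : ℝ) ^ s ≤ (k : ℝ) + 1 then ((k : ℝ) + 1)⁻¹ else 0) - (1 - s) * Real.log n) := by
      field_simp
    rw [h3, norm_mul, Real.norm_eq_abs, Real.norm_eq_abs, abs_of_pos (inv_pos.2 hlog)]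
    calc (Real.log n)⁻¹ * _ ≤ (Real.log n)⁻¹ * 1 := by gcongr
      _ = (Real.log n)⁻¹ := mul_one _
  have main := wl_gen' (fun n k => (Real.log n)⁻¹ *
      (if (n : ℝ) ^ s ≤ (k : ℝ) + 1 then ((k : ℝ) + 1)⁻¹ else 0)) (fun n => (Real.log n)⁻¹)
      (1 - s) (by
        refine Eventually.of_forall fun n k => ?_
        apply mul_nonneg (inv_nonneg.2 (Real.log_natCast_nonneg n))
        split_ifs
        · positivity
        · exact le_rfl) (by
        refine Eventually.of_forall fun n k => ?_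
        apply mul_le_of_le_one_right (inv_nonneg.2 (Real.log_natCast_nonneg n))
        split_ifs
        · apply inv_le_one_of_one_le₀
          have : (0:ℝ) ≤ (k : ℝ) := Nat.cast_nonneg _
          linarith
        · exact zero_le_one) hinv (by
        refine h1.congr fun n => ?_
        rw [Finset.mul_sum, Finset.sum_range]) hx
  refine main.congr fun n => ?_
  congr 1
  ext ξ
  simp only [Set.mem_ofPred_eq, Finset.mul_sum, mul_assoc]

end Pool.Agent.Helper579.Cg
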