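import Mathlib
import Pool.Agent.Helper579.CgProb2
import Pool.Agent.Helper579.CgWeak
import Pool.Agent.Helper579.CgEvents
import Pool.Agent.Helper579.CgUpper
import Pool.Agent.Helper579.CgLowLt
import Pool.Agent.Helper579.CgLowOne

set_option autoImplicit false

namespace Pool.Agent.Helper579.Cg

open MeasureTheory Filter Matrix
open scoped ENNReal Topology ComplexConjugate

section Ev

variable {α : ℕ → Type} [∀ n, MeasurableSpace (α n)] {μ : ∀ n, Measure (α n)}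

/-- the event `E n` has probability at least `1 - δ` for large `n` -/
def Ev (μ : ∀ n, Measure (α n)) (E : ∀ n, α n → Prop) (δ : ℝ) : Prop :=
  ∀ᶠ n in atTop, μ n {x | ¬ E n x} ≤ ENNReal.ofReal δ

lemma Ev.and {E₁ E₂ : ∀ n, α n → Prop} {δ₁ δ₂ : ℝ} (h0 : 0 ≤ δ₁) (h0' : 0 ≤ δ₂)
    (h1 : Ev μ E₁ δ₁) (h2 : Ev μ E₂ δ₂) :
    Ev μ (fun n x => E₁ n x ∧ E₂ n x) (δ₁ + δ₂) := by
  unfold Ev at *
  filter_upwards [h1, h2] with n h3 h4
  rw [ENNReal.ofReal_add h0 h0']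
  refine le_trans ?_ (add_le_add h3 h4)
  refine le_trans (measure_mono ?_) (measure_union_le _ _)
  intro x hx
  simp only [Set.mem_ofPred_eq, not_and_or] at hx
  exact hx

lemma Ev.mono {E₁ E₂ : ∀ n, α n → Prop} {δ : ℝ} (h1 : Ev μ E₁ δ)
    (h : ∀ᶠ n in atTop, ∀ x, E₁ n x → E₂ n x) : Ev μ E₂ δ := by
  unfold Ev at *
  filter_upwards [h1, h] with n h3 h4
  refine le_trans (measure_mono ?_) h3
  intro x hx hE
  exact hx (h4 x hE)

lemma Ev.of_tendsto {E : ∀ n, α n → Prop} (h : Tendsto (fun n => μ n {x | ¬ E n x}) atTop (𝓝 0))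
    {δ : ℝ} (hδ : 0 < δ) : Ev μ E δ :=
  (ENNReal.tendsto_nhds_zero.1 h) _ (ENNReal.ofReal_pos.2 hδ)

lemma Ev.of_zero {E : ∀ n, α n → Prop} (h : ∀ᶠ n in atTop, μ n {x | ¬ E n x} = 0)
    (δ : ℝ) : Ev μ E δ := by
  unfold Ev
  filter_upwards [h] with n h1
  rw [h1]
  exact zero_le

lemma Ev.and' {E₁ E₂ : ∀ n, α n → Prop} (h1 : ∀ δ : ℝ, 0 < δ → Ev μ E₁ δ)
    (h2 : ∀ δ : ℝ, 0 < δ → Ev μ E₂ δ) (δ : ℝ) (hδ : 0 < δ) :
    Ev μ (fun n x => E₁ n x ∧ E₂ n x) δ := by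
  have := Ev.and (half_pos hδ).le (half_pos hδ).le (h1 (δ / 2) (half_pos hδ))
    (h2 (δ / 2) (half_pos hδ))
  rwa [add_halves] at this

lemma Ev.ball {E : ∀ n, ℕ → α n → Prop} (J : ℕ)
    (h : ∀ i, i ≤ J → ∀ δ : ℝ, 0 < δ → Ev μ (fun n x => E n i x) δ) (δ : ℝ) (hδ : 0 < δ) :
    Ev μ (fun n x => ∀ i, i ≤ J → E n i x) δ := by
  induction J generalizing δ with
  | zero =>
    apply (h 0 le_rfl δ hδ).mono
    filter_upwards with n x hx i hi
    rw [Nat.le_zero.1 hi]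
    exact hx
  | succ J ih =>
    apply (Ev.and' (fun δ hδ => ih (fun i hi => h i (by omega)) δ hδ)
      (fun δ hδ => h (J + 1) le_rfl δ hδ) δ hδ).mono
    filter_upwards with n x hx i hi
    rcases Nat.lt_or_ge i (J + 1) with h1 | h1
    · exact hx.1 i (by omega)
    · have : i = J + 1 := by omega
      rw [this]
      exact hx.2

end Ev

/-- abbreviation for the family of the exponential laws -/
noncomputable abbrev exs : ∀ n : ℕ, Measure (Fin n → ℝ) := fun n => ex n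

/-- the stopping time is at least `x` -/
def cgLow {n : ℕ} (l : Fin n → ℝ) (ε : ℝ) (ξ : Fin n → ℝ) (x : ℝ) : Prop :=
  ∃ t : ℕ, x ≤ t + 1 ∧ ∀ q : Polynomial ℝ, q.natDegree ≤ t → q.eval 0 = 1 →
    ε * ∑ k, l k * ξ k < ∑ k, l k * (q.eval (l k)) ^ 2 * ξ k

/-- the stopping time is at most `x` -/
def cgUp {n : ℕ} (l : Fin n → ℝ) (ε : ℝ) (ξ : Fin n → ℝ) (x : ℝ) : Prop :=
  ∃ t : ℕ, (t : ℝ) ≤ x ∧ ∃ q : Polynomial ℝ, q.natDegree ≤ t ∧ q.eval 0 = 1 ∧
    ∑ k, l k * (q.eval (l k)) ^ 2 * ξ k ≤ ε * ∑ k, l k * ξ k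

lemma cg_between {n : ℕ} {l : Fin n → ℝ} {ε : ℝ} {ξ : Fin n → ℝ} {x y : ℝ}
    (h1 : cgLow l ε ξ x) (h2 : cgUp l ε ξ y) :
    ∃ m : ℕ, tcg l ε ξ = m ∧ x ≤ m ∧ (m : ℝ) ≤ y := by
  obtain ⟨t, ht, hlow⟩ := h1
  obtain ⟨s, hs, q, hq, h0, hup⟩ := h2
  have h3 : ((t + 1 : ℕ) : ℕ∞) ≤ tcg l ε ξ := lt_tcg hlow
  have h4 : tcg l ε ξ ≤ s := tcg_le hq h0 hup
  obtain ⟨m, hm⟩ : ∃ m : ℕ, tcg l ε ξ = m := by
    have : tcg l ε ξ ≠ ⊤ := ne_top_of_le_ne_top (ENat.natCast_ne_top s) h4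
    exact ⟨(tcg l ε ξ).toNat, (ENat.natCast_toNat this).symm⟩
  rw [hm] at h3 h4
  have h5 : t + 1 ≤ m := by exact_mod_cast h3
  have h6 : m ≤ s := by exact_mod_cast h4
  refine ⟨m, hm, ?_, ?_⟩
  · have : ((t + 1 : ℕ) : ℝ) ≤ m := by exact_mod_cast h5
    push_cast at this
    linarith
  · have : (m : ℝ) ≤ s := by exact_mod_cast h6
    linarith

lemma one_sub_ofReal {δ : ℝ} (hδ : 0 ≤ δ) : ENNReal.ofReal (1 - δ) ≤ 1 - ENNReal.ofReal δ := by
  rw [ENNReal.ofReal_sub _ hδ, ENNReal.ofReal_one]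

lemma cg_theta {p ε : ℝ} {a : ℕ → ℝ}
    (hlow : ∀ δ : ℝ, 0 < δ → ∃ c : ℝ, 0 < c ∧ Ev exs (fun n ξ => cgLow (lam p) ε ξ (c * a n)) δ)
    (hup : ∀ δ : ℝ, 0 < δ → ∃ C : ℝ, 0 < C ∧ Ev exs (fun n ξ => cgUp (lam p) ε ξ (C * a n)) δ) :
    ThetaP (PrCG p ε) a := by
  intro δ hδ
  obtain ⟨c, hc, h1⟩ := hlow (δ / 2) (half_pos hδ)
  obtain ⟨C, hC, h2⟩ := hup (δ / 2) (half_pos hδ)
  refine ⟨c, C, hc, hC, ?_⟩
  have h3 := Ev.and (half_pos hδ).le (half_pos hδ).le h1 h2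
  rw [add_halves] at h3
  unfold Ev at h3
  filter_upwards [h3, eventually_ge_atTop 1] with n hn hn1
  refine (one_sub_ofReal hδ.le).trans ?_
  apply cg_pr p ε hn1
  refine le_trans (measure_mono ?_) hn
  intro ξ hξ h
  exact hξ (cg_between h.1 h.2)

lemma cg_exponent {p ε θ : ℝ}
    (hlow : ∀ δ' : ℝ, 0 < δ' → ∀ δ : ℝ, 0 < δ →
      Ev exs (fun n ξ => cgLow (lam p) ε ξ ((n : ℝ) ^ (θ - δ'))) δ)
    (hup : ∀ δ' : ℝ, 0 < δ' → ∀ δ : ℝ, 0 < δ →
      Ev exs (fun n ξ => cgUp (lam p) ε ξ ((n : ℝ) ^ (θ + δ'))) δ) :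
    ExponentP (PrCG p ε) θ := by
  intro δ' hδ'
  rw [tendsto_order]
  constructor
  · intro b hb
    have hb' : b ≠ ⊤ := (hb.trans ENNReal.one_lt_top).ne
    set δ := (1 - b.toReal) / 2 with hδdef
    have hb1 : b.toReal < 1 := by
      rw [← ENNReal.toReal_one]
      exact (ENNReal.toReal_lt_toReal hb' ENNReal.one_ne_top).2 hb
    have hδ : 0 < δ := by
      rw [hδdef]
      linarith
    have h3 := Ev.and' (hlow δ' hδ') (hup δ' hδ') δ hδ
    unfold Ev at h3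
    filter_upwards [h3, eventually_ge_atTop 1] with n hn hn1
    have h4 : ENNReal.ofReal (1 - δ) ≤ PrCG p ε n {T | ∃ m : ℕ, T = m ∧
        (n : ℝ) ^ (θ - δ') ≤ m ∧ m ≤ (n : ℝ) ^ (θ + δ')} := by
      refine (one_sub_ofReal hδ.le).trans ?_
      apply cg_pr p ε hn1
      refine le_trans (measure_mono ?_) hn
      intro ξ hξ h
      exact hξ (cg_between h.1 h.2)
    refine lt_of_lt_of_le ?_ h4
    rw [ENNReal.lt_ofReal_iff_toReal_lt hb']
    rw [hδdef]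
    linarith
  · intro b hb
    filter_upwards [eventually_ge_atTop 1] with n hn1
    exact (Pr_le_one p ε hn1 _).trans_lt hb

/-- all exponential variables are positive -/
lemma ev_pos (δ : ℝ) : Ev exs (fun _ ξ => ∀ k, 0 < ξ k) δ :=
  Ev.of_zero (Filter.Eventually.of_forall fun _ => expo_pos) δ

lemma energy_pos {p : ℝ} {n : ℕ} (hn : 1 ≤ n) {ξ : Fin n → ℝ} (hξ : ∀ k, 0 < ξ k) :
    0 < ∑ k, lam p k * ξ k := by
  have : Nonempty (Fin n) := ⟨⟨0, hn⟩⟩
  exact Finset.sum_pos (fun k _ => mul_pos (lam_pos p k) (hξ k)) Finset.univ_nonempty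

/-- one step is necessary -/
lemma cgLow_one {p ε : ℝ} (hε : ε < 1) {n : ℕ} (hn : 1 ≤ n) {ξ : Fin n → ℝ}
    (hξ : ∀ k, 0 < ξ k) : cgLow (lam p) ε ξ 1 := by
  refine ⟨0, by simp, ?_⟩
  intro q hq h0
  have h1 : q = Polynomial.C (q.coeff 0) := Polynomial.eq_C_of_natDegree_le_zero hq
  have h2 : ∀ x : ℝ, q.eval x = 1 := by
    intro x
    rw [h1, Polynomial.eval_C] at h0
    rw [h1, Polynomial.eval_C, h0]
  have h3 : ∑ k, lam p k * (q.eval (lam p k)) ^ 2 * ξ k = ∑ k : Fin n, lam p k * ξ k := by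
    apply Finset.sum_congr rfl
    intro k _
    rw [h2]
    ring
  rw [h3]
  have := energy_pos (p := p) hn hξ
  nlinarith

/-- CG, `p > 1` -/
lemma cg_gt {p ε : ℝ} (hp : 1 < p) (hε : 0 < ε) (hε1 : ε < 1) :
    ThetaP (PrCG p ε) (fun _ => 1) := by
  apply cg_theta
  · intro δ hδ
    refine ⟨1, one_pos, ?_⟩
    apply (ev_pos δ).mono
    filter_upwards [eventually_ge_atTop 1] with n hn ξ hξ
    rw [mul_one]
    exact cgLow_one hε1 hn hξ
  · intro δ hδ
    obtain ⟨K, hK⟩ := ev_tail hp hε hδ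
    refine ⟨K + 1, by positivity, ?_⟩
    have h1 : Ev exs (fun n ξ => ∑ k : Fin n, (if K ≤ (k : ℕ) then ((k : ℝ) + 1) ^ (-p) else 0)
        * ξ k ≤ ε * ∑ k : Fin n, ((k : ℝ) + 1) ^ (-p) * ξ k) δ :=
      Filter.Eventually.of_forall hK
    have h2 := Ev.and hδ.le (le_refl 0) h1 (ev_pos 0)
    rw [add_zero] at h2
    apply h2.mono
    filter_upwards with n ξ hξ
    rw [mul_one]
    refine ⟨K, by linarith, ∏ j ∈ Finset.range K,
      (1 - Polynomial.C (((j : ℝ) + 1) ^ p) * Polynomial.X), ?_, ?_, ?_⟩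
    · refine (Polynomial.natDegree_prod_le _ _).trans ?_
      refine (Finset.sum_le_card_nsmul _ _ 1 ?_).trans (by simp)
      intro j _
      refine (Polynomial.natDegree_sub_le _ _).trans ?_
      rw [Polynomial.natDegree_one, max_le_iff]
      exact ⟨by simp, (Polynomial.natDegree_C_mul_le _ _).trans Polynomial.natDegree_X_le⟩
    · rw [Polynomial.eval_prod]
      simp
    · refine le_trans ?_ hξ.1
      apply Finset.sum_le_sum
      intro k _
      rw [Polynomial.eval_prod]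
      simp only [Polynomial.eval_sub, Polynomial.eval_one, Polynomial.eval_mul,
        Polynomial.eval_C, Polynomial.eval_X]
      have hk0 : (0 : ℝ) < (k : ℝ) + 1 := by positivity
      by_cases h : K ≤ (k : ℕ)
      · rw [if_pos h]
        apply mul_le_mul_of_nonneg_right _ (hξ.2 k).le
        have h3 : |∏ j ∈ Finset.range K, (1 - ((j : ℝ) + 1) ^ p * lam p k)| ≤ 1 := by
          rw [Finset.abs_prod]
          apply Finset.prod_le_one (fun _ _ => abs_nonneg _)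
          intro j hj
          have hj' : (j : ℝ) + 1 ≤ (k : ℝ) + 1 := by
            have : j < (k : ℕ) := lt_of_lt_of_le (Finset.mem_range.1 hj) h
            have : (j : ℝ) < ((k : ℕ) : ℝ) := by exact_mod_cast this
            linarith
          have h4 : ((j : ℝ) + 1) ^ p * lam p k ≤ 1 := by
            unfold lam
            rw [Real.rpow_neg hk0.le, ← div_eq_mul_inv,
              div_le_one (Real.rpow_pos_of_pos hk0 p)]
            exact Real.rpow_le_rpow (by positivity) hj' (by linarith)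
          have h5 : 0 ≤ ((j : ℝ) + 1) ^ p * lam p k :=
            mul_nonneg (by positivity) (lam_pos p k).le
          rw [abs_le]
          constructor <;> linarith
        have h6 : (∏ j ∈ Finset.range K, (1 - ((j : ℝ) + 1) ^ p * lam p k)) ^ 2 ≤ 1 := by
          rw [← sq_abs]
          exact pow_le_one₀ (abs_nonneg _) h3
        have := (lam_pos p k).le
        unfold lam at *
        nlinarith
      · rw [if_neg h]
        have h3 : ∏ j ∈ Finset.range K, (1 - ((j : ℝ) + 1) ^ p * lam p k) = 0 := by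
          apply Finset.prod_eq_zero (Finset.mem_range.2 (Nat.lt_of_not_le h))
          unfold lam
          rw [← Real.rpow_add hk0, add_neg_cancel, Real.rpow_zero, sub_self]
        rw [h3]
        simp

end Pool.Agent.Helper579.Cg
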