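import Mathlib
import Pool.Agent.Helper579.CgMain1

set_option autoImplicit false

namespace Pool.Agent.Helper579.Cg

open MeasureTheory Filter Matrix
open scoped ENNReal Topology ComplexConjugate

/-- the critical degree -/
lemma exists_Jc {p : ℝ} (hp : 0 < p) (hp1 : p < 1) :
    ∃ Jc : ℕ, (2 * (Jc : ℝ) + 1) * p < 1 ∧ 1 ≤ (2 * ((Jc : ℝ) + 1) + 1) * p := by
  classical
  have hex : ∃ j : ℕ, 1 ≤ (2 * (j : ℝ) + 1) * p := by
    obtain ⟨j, hj⟩ := exists_nat_gt (1 / p)
    refine ⟨j, ?_⟩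
    rw [div_lt_iff₀ hp] at hj
    nlinarith
  set j := Nat.find hex with hj
  have h1 : 1 ≤ (2 * (j : ℝ) + 1) * p := Nat.find_spec hex
  have hj0 : j ≠ 0 := by
    intro h0
    rw [h0] at h1
    push_cast at h1
    linarith
  obtain ⟨i, hi⟩ := Nat.exists_eq_succ_of_ne_zero hj0
  refine ⟨i, ?_, ?_⟩
  · have h2 := Nat.find_min hex (m := i) (by omega)
    push Not at h2
    exact h2
  · rw [hi] at h1
    push_cast at h1
    exact h1

lemma mstar_eq {p : ℝ} (hp : 0 < p) {Jc : ℕ} (h1 : (2 * (Jc : ℝ) + 1) * p < 1)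
    (h2 : 1 ≤ (2 * ((Jc : ℝ) + 1) + 1) * p) : mstar p = mprod p Jc := by
  classical
  unfold mstar mprod
  apply Finset.prod_congr _ fun _ _ => rfl
  ext j
  simp only [Finset.mem_filter, Finset.mem_Icc]
  constructor
  · rintro ⟨⟨hj1, _⟩, hj3⟩
    refine ⟨hj1, ?_⟩
    by_contra h
    push Not at h
    have : (Jc : ℝ) + 1 ≤ j := by exact_mod_cast h
    nlinarith
  · rintro ⟨hj1, hj2⟩
    have hj2' : (j : ℝ) ≤ Jc := by exact_mod_cast hj2
    have h3 : (2 * (j : ℝ) + 1) * p < 1 := by nlinarith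
    refine ⟨⟨hj1, ?_⟩, h3⟩
    have h4 : (j : ℝ) ≤ 1 / p := by
      rw [le_div_iff₀ hp]
      have : (0 : ℝ) ≤ j := Nat.cast_nonneg j
      nlinarith
    exact_mod_cast h4.trans (Nat.le_ceil _)

lemma ev_small' {δ : ℝ} (hδ : 0 < δ) :
    Ev exs (fun n ξ => ∀ k : Fin n, (δ / 2) / ((k : ℝ) + 1) ^ 2 ≤ ξ k) δ := by
  unfold Ev
  filter_upwards with n
  have := ev_small (half_pos hδ) n
  rwa [mul_div_cancel₀ _ (two_ne_zero)] at this

lemma ev_block' {c : ℝ} (hc : 0 < c) {δ : ℝ} (hδ : 0 < δ) :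
    Ev exs (fun n ξ => ∀ a ℓ : ℕ, 1 ≤ a → a + ℓ ≤ n + 1 → (n : ℝ) ^ c ≤ ℓ →
      (ℓ : ℝ) / 4 ≤ ∑ k : Fin n, if a ≤ (k : ℕ) + 1 ∧ (k : ℕ) + 1 < a + ℓ then ξ k else 0) δ := by
  unfold Ev
  have hlim : Tendsto (fun n : ℕ => ((n : ℝ) + 1) ^ 2 * Real.exp (-((n : ℝ) ^ c / 2)))
      atTop (𝓝 0) := by
    have h1 : Tendsto (fun n : ℕ => (n : ℝ) ^ c) atTop atTop :=
      (tendsto_rpow_atTop hc).comp tendsto_natCast_atTop_atTop
    obtain ⟨m, hm⟩ := exists_nat_gt (2 / c)
    have h2 : Tendsto (fun x : ℝ => x ^ m * Real.exp (-(1 / 2 * x))) atTop (𝓝 0) := by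
      have := Real.tendsto_pow_mul_exp_neg_atTop_nhds_zero m
      have h3 : Tendsto (fun x : ℝ => (1 / 2) * x) atTop atTop :=
        tendsto_id.const_mul_atTop (by norm_num)
      have h4 := (this.comp h3).const_mul ((2 : ℝ) ^ m)
      rw [mul_zero] at h4
      refine h4.congr fun x => ?_
      simp only [Function.comp]
      rw [mul_pow, ← mul_assoc, ← mul_assoc, ← mul_pow]
      norm_num
    have h5 := (h2.comp h1).const_mul 4
    rw [mul_zero] at h5
    refine squeeze_zero' (Filter.Eventually.of_forall fun n => by positivity) ?_ h5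
    filter_upwards [eventually_ge_atTop 1] with n hn
    have hn1 : (1 : ℝ) ≤ n := by exact_mod_cast hn
    simp only [Function.comp]
    have h6 : ((n : ℝ) + 1) ^ 2 ≤ 4 * ((n : ℝ) ^ c) ^ m := by
      have h7 : ((n : ℝ) + 1) ^ 2 ≤ 4 * (n : ℝ) ^ 2 := by nlinarith
      have h8 : (n : ℝ) ^ 2 ≤ ((n : ℝ) ^ c) ^ m := by
        rw [← Real.rpow_natCast (n : ℝ) 2, ← Real.rpow_natCast ((n : ℝ) ^ c) m,
          ← Real.rpow_mul (by linarith)]
        apply Real.rpow_le_rpow_of_exponent_le hn1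
        rw [div_lt_iff₀ hc] at hm
        push_cast
        linarith
      linarith
    have h9 : Real.exp (-((n : ℝ) ^ c / 2)) = Real.exp (-(1 / 2 * (n : ℝ) ^ c)) := by
      congr 1
      ring
    rw [h9, ← mul_assoc]
    exact mul_le_mul_of_nonneg_right h6 (Real.exp_nonneg _)
  filter_upwards [hlim.eventually (gt_mem_nhds hδ), eventually_ge_atTop 1] with n hn hn1
  have hpos : 0 < (n : ℝ) ^ c := Real.rpow_pos_of_pos (by exact_mod_cast hn1) c
  exact (ev_block hpos n).trans (ENNReal.ofReal_le_ofReal hn.le)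

lemma ev_cut (s : ℝ) {κ : ℝ} (hκ : 0 < κ) (hκ1 : κ < 1) {x : ℝ} (hx : 0 < x) {δ : ℝ}
    (hδ : 0 < δ) :
    Ev exs (fun n ξ => |(n : ℝ) ^ (s - 1) * ∑ k : Fin n,
        (if κ * n ≤ (k : ℝ) + 1 then ((k : ℝ) + 1) ^ (-s) else 0) * ξ k
          - ∫ y in κ..1, y ^ (-s)| < x) δ := by
  apply Ev.of_tendsto _ hδ
  have := wlln_cut s hκ hκ1 hx
  refine this.congr fun n => ?_
  congr 1
  ext ξ
  simp only [Set.mem_ofPred_eq, not_lt]

lemma ev_full {s : ℝ} (hs0 : 0 < s) (hs : s < 1) {x : ℝ} (hx : 0 < x) {δ : ℝ}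
    (hδ : 0 < δ) :
    Ev exs (fun n ξ => |(n : ℝ) ^ (s - 1) * ∑ k : Fin n, ((k : ℝ) + 1) ^ (-s) * ξ k
          - 1 / (1 - s)| < x) δ := by
  apply Ev.of_tendsto _ hδ
  have := wlln_full hs0 hs hx
  refine this.congr fun n => ?_
  congr 1
  ext ξ
  simp only [Set.mem_ofPred_eq, not_lt]

lemma ev_log {s : ℝ} (hs0 : 0 ≤ s) (hs : s < 1) {x : ℝ} (hx : 0 < x) {δ : ℝ}
    (hδ : 0 < δ) :
    Ev exs (fun n ξ => |(Real.log n)⁻¹ * ∑ k : Fin n,
        (if (n : ℝ) ^ s ≤ (k : ℝ) + 1 then ((k : ℝ) + 1)⁻¹ else 0) * ξ k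
          - (1 - s)| < x) δ := by
  apply Ev.of_tendsto _ hδ
  have := wlln_log hs0 hs hx
  refine this.congr fun n => ?_
  congr 1
  ext ξ
  simp only [Set.mem_ofPred_eq, not_lt]

lemma ev_log0 {x : ℝ} (hx : 0 < x) {δ : ℝ} (hδ : 0 < δ) :
    Ev exs (fun n ξ => |(Real.log n)⁻¹ * ∑ k : Fin n, ((k : ℝ) + 1)⁻¹ * ξ k - 1| < x) δ := by
  apply (ev_log le_rfl zero_lt_one hx hδ).mono
  filter_upwards with n ξ hξ
  rw [sub_zero] at hξ
  convert hξ using 5 with k
  rw [Real.rpow_zero, if_pos (by linarith [(Nat.cast_nonneg k : (0 : ℝ) ≤ ((k : ℕ) : ℝ))])]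

/-- CG, `p < 1`, `ε < m*` -/
lemma cg_lt {p ε : ℝ} (hp : 0 < p) (hp1 : p < 1) (hε : 0 < ε) (hε1 : ε < 1)
    (hεm : ε < mstar p) : ThetaP (PrCG p ε) (fun n => (n : ℝ) ^ (p / (p + 2))) := by
  obtain ⟨Jc, hJ1, hJ2⟩ := exists_Jc hp hp1
  rw [mstar_eq hp hJ1 hJ2] at hεm
  apply cg_theta
  · intro δ hδ
    have hδ4 : 0 < δ / 4 := by positivity
    obtain ⟨κ, Jm, η, c, hκ, hκ1, hη, hc, hev⟩ := cg_lower_lt hp hp1 Jc hJ1 hJ2 hε hε1 hεm
      (half_pos hδ4)
    refine ⟨c, hc, ?_⟩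
    have h1 := ev_small' hδ4
    have h2 := ev_block' (c := 1 / 8) (by norm_num) hδ4
    have h3 := Ev.ball (μ := exs) (E := fun n i ξ => |(n : ℝ) ^ (p * (i + 1) - 1) * ∑ k : Fin n,
        (if κ * n ≤ (k : ℝ) + 1 then ((k : ℝ) + 1) ^ (-(p * (i + 1))) else 0) * ξ k
          - ∫ y in κ..1, y ^ (-(p * (i + 1)))| < η) Jm
          (fun i _ δ hδ => ev_cut (p * (i + 1)) hκ hκ1 hη hδ) (δ / 4) hδ4
    have h4 := ev_full hp hp1 hη hδ4
    have h5 := Ev.and (by positivity) (by positivity) (Ev.and hδ4.le hδ4.le h1 h2)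
      (Ev.and hδ4.le hδ4.le h3 h4)
    have e1 : δ / 4 + δ / 4 + (δ / 4 + δ / 4) = δ := by ring
    rw [e1] at h5
    apply h5.mono
    filter_upwards [hev] with n hn ξ hξ
    obtain ⟨⟨a1, a2⟩, a3, a4⟩ := hξ
    refine ⟨⌊c * (n : ℝ) ^ (p / (p + 2))⌋₊, (Nat.lt_floor_add_one _).le, ?_⟩
    intro q hq h0
    apply hn ξ a1 a2 a3 a4 q _ h0
    have hpos : 0 ≤ c * (n : ℝ) ^ (p / (p + 2)) := by positivity
    exact (Nat.cast_le.2 hq).trans (Nat.floor_le hpos)
  · intro δ hδ
    obtain ⟨C, hC, hev⟩ := cg_upper_lt hp hp1 hε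
    refine ⟨C, hC, ?_⟩
    apply (ev_pos δ).mono
    filter_upwards [hev] with n hn ξ hξ
    obtain ⟨q, hq, h0, h1⟩ := hn ξ (fun k => (hξ k).le)
    exact ⟨q.natDegree, hq, q, le_rfl, h0, h1⟩

/-- CG, `p < 1`, general upper bound -/
lemma cg_lt_up {p ε : ℝ} (hp : 0 < p) (hp1 : p < 1) (hε : 0 < ε) :
    ∃ C : ℝ, 0 < C ∧ ∀ δ : ℝ,
      Ev exs (fun n ξ => cgUp (lam p) ε ξ (C * (n : ℝ) ^ (p / (p + 2)))) δ := by
  obtain ⟨C, hC, hev⟩ := cg_upper_lt hp hp1 hε
  refine ⟨C, hC, fun δ => ?_⟩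
  apply (ev_pos δ).mono
  filter_upwards [hev] with n hn ξ hξ
  obtain ⟨q, hq, h0, h1⟩ := hn ξ (fun k => (hξ k).le)
  exact ⟨q.natDegree, hq, q, le_rfl, h0, h1⟩

/-- CG, `p < 1`, `ε > m*` -/
lemma cg_lt' {p ε : ℝ} (hp : 0 < p) (hp1 : p < 1) (hε1 : ε < 1)
    (hεm : mstar p < ε) : ThetaP (PrCG p ε) (fun _ => 1) := by
  obtain ⟨Jc, hJ1, hJ2⟩ := exists_Jc hp hp1
  rw [mstar_eq hp hJ1 hJ2] at hεm
  have hp1' : 0 < 1 - p := by linarith
  apply cg_theta
  · intro δ hδ
    refine ⟨1, one_pos, ?_⟩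
    apply (ev_pos δ).mono
    filter_upwards [eventually_ge_atTop 1] with n hn ξ hξ
    rw [mul_one]
    exact cgLow_one hε1 hn hξ
  · intro δ hδ
    refine ⟨Jc + 1, by positivity, ?_⟩
    obtain ⟨c, hc0, hc⟩ := cauchy_attained hp Jc hJ1
    -- the size of the coefficients
    set Cc := ∑ j ∈ Finset.range (Jc + 1), |c j| with hCc
    have hCc0 : 0 ≤ Cc := Finset.sum_nonneg fun _ _ => abs_nonneg _
    have hmp : 0 ≤ mprod p Jc := by
      unfold mprod
      exact Finset.prod_nonneg fun _ _ => sq_nonneg _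
    have hε0 : 0 < ε := lt_of_le_of_lt hmp hεm
    set g := (ε - mprod p Jc) / (1 - p) with hg
    have hg0 : 0 < g := div_pos (by linarith) hp1'
    set η := g / (Cc ^ 2 + ε + 1) with hη
    have hden : 0 < Cc ^ 2 + ε + 1 := by positivity
    have hη0 : 0 < η := div_pos hg0 hden
    have h3 := Ev.ball (μ := exs) (E := fun n i ξ => |(n : ℝ) ^ (p * (i + 1) - 1) * ∑ k : Fin n,
        ((k : ℝ) + 1) ^ (-(p * (i + 1))) * ξ k
          - 1 / (1 - p * (i + 1))| < η) (2 * Jc)
          (fun i hi δ hδ => by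
            have hi' : (i : ℝ) ≤ 2 * Jc := by exact_mod_cast hi
            have h1 : p * ((i : ℝ) + 1) < 1 := by nlinarith
            exact ev_full (by positivity) h1 hη0 hδ) δ hδ
    have h4 := Ev.and hδ.le (le_refl 0) h3 (ev_pos 0)
    rw [add_zero] at h4
    apply h4.mono
    filter_upwards [eventually_ge_atTop 1] with n hn ξ hξ
    obtain ⟨hM, hpos⟩ := hξ
    have hn0 : (0 : ℝ) < n := by exact_mod_cast hn
    rw [mul_one]
    set M : ℕ → ℝ := fun i => (n : ℝ) ^ (p * (i + 1) - 1) * ∑ k : Fin n,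
        ((k : ℝ) + 1) ^ (-(p * (i + 1))) * ξ k with hMdef
    refine ⟨Jc, by linarith, ∑ j ∈ Finset.range (Jc + 1),
      Polynomial.C (c j * (n : ℝ) ^ (p * j)) * Polynomial.X ^ j, ?_, ?_, ?_⟩
    · apply Polynomial.natDegree_sum_le_of_forall_le
      intro j hj
      refine (Polynomial.natDegree_C_mul_X_pow_le _ _).trans ?_
      have := Finset.mem_range.1 hj
      omega
    · rw [Polynomial.eval_finsetSum, Finset.sum_eq_single 0]
      · simp [hc0]
      · intro j _ hj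
        simp [hj]
      · intro h
        exact absurd (Finset.mem_range.2 (Nat.succ_pos _)) h
    · have hE0 : ∑ k : Fin n, lam p k * ξ k = (n : ℝ) ^ (1 - p) * M 0 := by
        rw [hMdef]
        simp only [Nat.cast_zero, zero_add, mul_one]
        rw [← mul_assoc, ← Real.rpow_add hn0]
        have : 1 - p + (p - 1) = 0 := by ring
        rw [this, Real.rpow_zero, one_mul]
        rfl
      have hEq : ∑ k : Fin n, lam p k * ((∑ j ∈ Finset.range (Jc + 1),
          Polynomial.C (c j * (n : ℝ) ^ (p * j)) * Polynomial.X ^ j).eval (lam p k)) ^ 2 * ξ k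
          = (n : ℝ) ^ (1 - p) * ∑ i ∈ Finset.range (Jc + 1), ∑ j ∈ Finset.range (Jc + 1),
            c i * c j * M (i + j) := by
        have e1 : ∀ k : Fin n, lam p k * ((∑ j ∈ Finset.range (Jc + 1),
            Polynomial.C (c j * (n : ℝ) ^ (p * j)) * Polynomial.X ^ j).eval (lam p k)) ^ 2 * ξ k
            = ∑ i ∈ Finset.range (Jc + 1), ∑ j ∈ Finset.range (Jc + 1),
              c i * c j * ((n : ℝ) ^ (1 - p) * ((n : ℝ) ^ (p * (((i + j : ℕ) : ℝ) + 1) - 1)
                * (((k : ℝ) + 1) ^ (-(p * (((i + j : ℕ) : ℝ) + 1))) * ξ k))) := by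
          intro k
          have hk0 : (0 : ℝ) < (k : ℝ) + 1 := by positivity
          rw [Polynomial.eval_finsetSum, sq, Finset.sum_mul_sum, Finset.mul_sum, Finset.sum_mul]
          apply Finset.sum_congr rfl
          intro i _
          rw [Finset.mul_sum, Finset.sum_mul]
          apply Finset.sum_congr rfl
          intro j _
          simp only [Polynomial.eval_mul, Polynomial.eval_C, Polynomial.eval_pow,
            Polynomial.eval_X]
          unfold lam
          have e2 : (n : ℝ) ^ (1 - p) * (n : ℝ) ^ (p * (((i + j : ℕ) : ℝ) + 1) - 1)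
              = (n : ℝ) ^ (p * i) * (n : ℝ) ^ (p * j) := by
            rw [← Real.rpow_add hn0, ← Real.rpow_add hn0]
            congr 1
            push_cast
            ring
          have e3 : ((k : ℝ) + 1) ^ (-(p * (((i + j : ℕ) : ℝ) + 1)))
              = ((k : ℝ) + 1) ^ (-p) * ((((k : ℝ) + 1) ^ (-p)) ^ i * (((k : ℝ) + 1) ^ (-p)) ^ j) := by
            rw [← pow_add, ← Real.rpow_natCast, ← Real.rpow_mul hk0.le, ← Real.rpow_add hk0]
            congr 1
            push_cast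
            ring
          calc ((k : ℝ) + 1) ^ (-p) * (c i * (n : ℝ) ^ (p * i) * (((k : ℝ) + 1) ^ (-p)) ^ i *
                (c j * (n : ℝ) ^ (p * j) * (((k : ℝ) + 1) ^ (-p)) ^ j)) * ξ k
              = c i * c j * (((n : ℝ) ^ (p * i) * (n : ℝ) ^ (p * j)) *
                ((((k : ℝ) + 1) ^ (-p) * ((((k : ℝ) + 1) ^ (-p)) ^ i
                  * (((k : ℝ) + 1) ^ (-p)) ^ j)) * ξ k)) := by ring
            _ = _ := by rw [← e2, ← e3]; ring
        simp only [e1]
        rw [Finset.sum_comm, Finset.mul_sum]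
        apply Finset.sum_congr rfl
        intro i _
        rw [Finset.sum_comm, Finset.mul_sum]
        apply Finset.sum_congr rfl
        intro j _
        rw [hMdef]
        simp only [Finset.mul_sum]
        apply Finset.sum_congr rfl
        intro k _
        ring
      rw [hE0, hEq]
      have hnp : 0 < (n : ℝ) ^ (1 - p) := Real.rpow_pos_of_pos hn0 _
      have hkey : ∑ i ∈ Finset.range (Jc + 1), ∑ j ∈ Finset.range (Jc + 1),
            c i * c j * M (i + j) ≤ ε * M 0 := by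
        have b1 : ∀ i ∈ Finset.range (Jc + 1), ∀ j ∈ Finset.range (Jc + 1),
            c i * c j * M (i + j) ≤ c i * c j / (1 - p * (i + j + 1)) + |c i| * |c j| * η := by
          intro i hi j hj
          have hij : i + j ≤ 2 * Jc := by
            have := Finset.mem_range.1 hi
            have := Finset.mem_range.1 hj
            omega
          have hm := hM (i + j) hij
          have b2 : c i * c j * (M (i + j) - 1 / (1 - p * (((i + j : ℕ) : ℝ) + 1)))
              ≤ |c i| * |c j| * η := by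
            refine (le_abs_self _).trans ?_
            rw [abs_mul, abs_mul]
            exact mul_le_mul_of_nonneg_left hm.le (by positivity)
          have b3 : c i * c j / (1 - p * (i + j + 1))
              = c i * c j * (1 / (1 - p * (((i + j : ℕ) : ℝ) + 1))) := by
            push_cast
            ring
          rw [b3]
          linarith
        have b4 : ∑ i ∈ Finset.range (Jc + 1), ∑ j ∈ Finset.range (Jc + 1),
            c i * c j * M (i + j) ≤ mprod p Jc / (1 - p) + Cc ^ 2 * η := by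
          calc _ ≤ ∑ i ∈ Finset.range (Jc + 1), ∑ j ∈ Finset.range (Jc + 1),
                (c i * c j / (1 - p * (i + j + 1)) + |c i| * |c j| * η) :=
                Finset.sum_le_sum fun i hi => Finset.sum_le_sum fun j hj => b1 i hi j hj
            _ = _ := by
                simp only [Finset.sum_add_distrib]
                congr 1
                · rw [hc, mul_div_cancel_left₀ _ hp1'.ne']
                · rw [hCc, sq, Finset.sum_mul_sum]
                  simp only [Finset.sum_mul]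
        have b5 := hM 0 (Nat.zero_le _)
        have b6 : M 0 > 1 / (1 - p) - η := by
          have := (abs_lt.1 b5).1
          simp only [Nat.cast_zero, zero_add, mul_one] at this
          rw [hMdef]
          simp only [Nat.cast_zero, zero_add, mul_one]
          linarith
        have b7 : ε * (1 / (1 - p) - η) ≤ ε * M 0 := by nlinarith
        have b8 : η * (Cc ^ 2 + ε + 1) = g := by
          rw [hη]
          field_simp
        have b9 : g = ε * (1 / (1 - p)) - mprod p Jc / (1 - p) := by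
          rw [hg]
          ring
        nlinarith
      calc _ ≤ (n : ℝ) ^ (1 - p) * (ε * M 0) := mul_le_mul_of_nonneg_left hkey hnp.le
        _ = _ := by ring

/-- CG, `p = 1` -/
lemma cg_one {ε : ℝ} (hε : 0 < ε) (hε1 : ε < 1) : ExponentP (PrCG 1 ε) ((1 - ε) / 3) := by
  apply cg_exponent
  · intro δ' hδ' δ hδ
    have hδ4 : 0 < δ / 4 := by positivity
    set δ₀ := min δ' ((1 - ε) / 6) with hδ₀
    have h0 : 0 < δ₀ := lt_min hδ' (by linarith)
    have h0' : δ₀ < (1 - ε) / 3 := (min_le_right _ _).trans_lt (by linarith)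
    obtain ⟨s, c, η, hs, hs1, hc, hη, hev⟩ := cg_lower_one hε h0 h0' (half_pos hδ4)
    have h1 := ev_small' hδ4
    have h2 := ev_block' hc hδ4
    have h3 := ev_log hs.le hs1 hη hδ4
    have h4 := ev_log0 hη hδ4
    have h5 := Ev.and (by positivity) (by positivity) (Ev.and hδ4.le hδ4.le h1 h2)
      (Ev.and hδ4.le hδ4.le h3 h4)
    have e1 : δ / 4 + δ / 4 + (δ / 4 + δ / 4) = δ := by ring
    rw [e1] at h5
    apply h5.mono
    filter_upwards [hev, eventually_ge_atTop 1] with n hn hn1 ξ hξ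
    obtain ⟨⟨a1, a2⟩, a3, a4⟩ := hξ
    refine ⟨⌊(n : ℝ) ^ ((1 - ε) / 3 - δ₀)⌋₊, ?_, ?_⟩
    · refine le_trans ?_ (Nat.lt_floor_add_one _).le
      apply Real.rpow_le_rpow_of_exponent_le (by exact_mod_cast hn1)
      have := min_le_left δ' ((1 - ε) / 6)
      linarith
    · intro q hq hq0
      apply hn ξ a1 a2 a3 a4 q _ hq0
      exact (Nat.cast_le.2 hq).trans (Nat.floor_le (by positivity))
  · intro δ' hδ' δ hδ
    have hδ3 : 0 < δ / 3 := by positivity
    obtain ⟨s, hs, hs1, hev⟩ := cg_upper_one hε hε1 hδ'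
    -- constants
    set g := (ε - (1 - s)) / 8 with hg
    have hg0 : 0 < g := by
      rw [hg]
      linarith
    have hg1 : g < 1 / 8 := by
      rw [hg]
      linarith
    have h3 := ev_log (s := s) (by linarith) hs1 hg0 hδ3
    have h4 := ev_log0 hg0 hδ3
    have h5 := Ev.and (by positivity) hδ3.le (Ev.and hδ3.le hδ3.le h3 h4) (ev_pos (δ / 3))
    have e1 : δ / 3 + δ / 3 + δ / 3 = δ := by ring
    rw [e1] at h5
    apply h5.mono
    filter_upwards [hev g hg0, eventually_ge_atTop 2] with n hn hn1 ξ hξ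
    obtain ⟨⟨a3, a4⟩, hpos⟩ := hξ
    obtain ⟨q, hq, h0, hq2⟩ := hn ξ (fun k => (hpos k).le)
    refine ⟨q.natDegree, hq, q, le_rfl, h0, hq2.trans ?_⟩
    have hn2 : (2 : ℝ) ≤ n := by exact_mod_cast hn1
    have hlog : 0 < Real.log n := Real.log_pos (by linarith)
    set T := ∑ k : Fin n, (if (n : ℝ) ^ s ≤ (k : ℝ) + 1 then ((k : ℝ) + 1)⁻¹ else 0) * ξ k
      with hT
    have hlam : ∑ k : Fin n, lam 1 k * ξ k = ∑ k : Fin n, ((k : ℝ) + 1)⁻¹ * ξ k := by
      apply Finset.sum_congr rfl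
      intro k _
      unfold lam
      rw [Real.rpow_neg_one]
    rw [hlam]
    set E0 := ∑ k : Fin n, ((k : ℝ) + 1)⁻¹ * ξ k with hE0
    have b1 := (abs_lt.1 a3).2
    have b2 := (abs_lt.1 a4).1
    have b3 : T < (1 - s + g) * Real.log n := by
      have : (Real.log n)⁻¹ * T < 1 - s + g := by linarith
      rw [inv_mul_lt_iff₀ hlog] at this
      linarith
    have b4 : (1 - g) * Real.log n < E0 := by
      have : 1 - g < (Real.log n)⁻¹ * E0 := by linarith
      rw [lt_inv_mul_iff₀ hlog] at this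
      linarith
    have b5 : 1 - s = ε - 8 * g := by
      rw [hg]
      ring
    rw [b5] at b3
    have hE0pos : 0 < E0 := lt_trans (mul_pos (by linarith) hlog) b4
    have b6 : (ε - 7 * g) * Real.log n ≤ (ε - g) * E0 := by
      have c1 : (ε - 7 * g) ≤ (ε - g) * (1 - g) := by nlinarith
      have c2 : 0 < ε - g := by
        have : 8 * g ≤ ε := by
          rw [hg]
          linarith
        linarith
      calc (ε - 7 * g) * Real.log n ≤ ((ε - g) * (1 - g)) * Real.log n :=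
            mul_le_mul_of_nonneg_right c1 hlog.le
        _ = (ε - g) * ((1 - g) * Real.log n) := by ring
        _ ≤ (ε - g) * E0 := mul_le_mul_of_nonneg_left b4.le c2.le
    linarith

end Pool.Agent.Helper579.Cg
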