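import Mathlib
import Pool.Agent.Helper579.CgRcd3

set_option autoImplicit false

namespace Pool.Agent.Helper579.Cg

open scoped ComplexConjugate




variable {n : ℕ}


variable {U : Fin n → Fin n → ℂ} {l : Fin n → ℝ}

lemma mgt_tl_nonneg (hl : ∀ k, 0 ≤ l k) (K : ℕ) (k : Fin n) : 0 ≤ tl l K k := by
  unfold tl
  split_ifs
  · exact hl k
  · exact le_rfl

lemma mgt_tl_le (hl : ∀ k, 0 ≤ l k) (K : ℕ) (k : Fin n) : tl l K k ≤ l k := by
  unfold tl
  split_ifs
  · exact le_rfl
  · exact hl k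

lemma mgt_inj (hU : ColOrth U) (ha : ∀ i, 0 < aa U l i) (hl : ∀ k, 0 ≤ l k)
    (hL : 0 < ∑ k, l k) {K : ℕ} {ρ τ : ℝ} (hρ : 0 ≤ ρ) (Bad : Finset (Fin n))
    (hgood : ∀ i ∉ Bad, aa U (tl l K) i ≤ ρ * aa U l i)
    (hbad : (∑ i ∈ Bad, aa U l i) / (∑ k, l k) ≤ τ) (s : Fin n → ℂ) (E0 : ℝ) (hs : qf l s ≤ E0) :
    inj U l (tl l K) s ≤ ρ * qf (fun k => l k ^ 2) s + (∑ k, l k) * τ * E0 := by
  classical
  have hE0 : 0 ≤ E0 := (qf_nonneg hl s).trans hs
  have h1 : ∀ i, ‖rr U l s i‖ ^ 2 * (aa U (tl l K) i / aa U l i) ≤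
      ρ * ‖rr U l s i‖ ^ 2 + (if i ∈ Bad then aa U l i * E0 else 0) := by
    intro i
    have hr : 0 ≤ ‖rr U l s i‖ ^ 2 := sq_nonneg _
    by_cases hi : i ∈ Bad
    · rw [if_pos hi]
      have h2 : aa U (tl l K) i / aa U l i ≤ 1 := by
        rw [div_le_one (ha i)]
        unfold aa
        exact Finset.sum_le_sum fun k _ => mul_le_mul_of_nonneg_right (mgt_tl_le hl K k) (sq_nonneg _)
      have h3 : ‖rr U l s i‖ ^ 2 * (aa U (tl l K) i / aa U l i) ≤ ‖rr U l s i‖ ^ 2 :=
        mul_le_of_le_one_right hr h2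
      have h4 := rr_cs (U := U) hl s i
      have h5 : aa U l i * qf l s ≤ aa U l i * E0 := mul_le_mul_of_nonneg_left hs (ha i).le
      have h6 : 0 ≤ ρ * ‖rr U l s i‖ ^ 2 := mul_nonneg hρ hr
      linarith
    · rw [if_neg hi, add_zero, mul_comm ρ]
      apply mul_le_mul_of_nonneg_left _ hr
      rw [div_le_iff₀ (ha i)]
      exact hgood i hi
  have h2 : inj U l (tl l K) s ≤ ∑ i, (ρ * ‖rr U l s i‖ ^ 2 + (if i ∈ Bad then aa U l i * E0 else 0)) :=
    Finset.sum_le_sum fun i _ => h1 i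
  rw [Finset.sum_add_distrib, ← Finset.mul_sum, sum_rr_sq hU, Finset.sum_ite_mem, Finset.univ_inter,
    ← Finset.sum_mul] at h2
  have h3 : ∑ i ∈ Bad, aa U l i ≤ τ * ∑ k, l k := by
    rwa [div_le_iff₀ hL] at hbad
  have h4 : (∑ i ∈ Bad, aa U l i) * E0 ≤ (τ * ∑ k, l k) * E0 := mul_le_mul_of_nonneg_right h3 hE0
  calc _ ≤ _ := h2
    _ ≤ ρ * qf (fun k => l k ^ 2) s + (τ * ∑ k, l k) * E0 := by linarith
    _ = _ := by ring

lemma mgt_low (hl : ∀ k, 0 ≤ l k) {K : ℕ} {κ : ℝ} (hκ : 0 < κ)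
    (hK : ∀ k : Fin n, (k : ℕ) < K → κ ≤ l k) (s : Fin n → ℂ) :
    κ * qf l s ≤ qf (fun k => l k ^ 2) s + κ * qf (tl l K) s := by
  rw [← qf_smul, ← qf_smul, ← qf_add (fun k => l k ^ 2) (fun k => κ * tl l K k)]
  apply qf_mono
  intro k
  unfold tl
  split_ifs with h
  · have := sq_nonneg (l k)
    linarith
  · have := hK k (by omega)
    have := hl k
    nlinarith

/-- TARGET: mean energy when the spectrum has a light tail -/
lemma mean_gt (hU : ColOrth U) (ha : ∀ i, 0 < aa U l i) (hl : ∀ k, 0 ≤ l k)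
    (hL : 0 < ∑ k, l k) {K : ℕ} {κ ρ τ : ℝ} (hκ : 0 < κ) (hρ : 0 ≤ ρ)
    (hK : ∀ k : Fin n, (k : ℕ) < K → κ ≤ l k) (Bad : Finset (Fin n))
    (hgood : ∀ i ∉ Bad, aa U (tl l K) i ≤ ρ * aa U l i)
    (hbad : (∑ i ∈ Bad, aa U l i) / (∑ k, l k) ≤ τ) (w : Fin n → ℂ) (T : ℕ) (hT : 1 ≤ T) :
    EX (pp U l) (stp U l) T (qf l) w
      ≤ ((∑ k, l k) / (κ * T) + ρ + T * τ) * qf l w + qf (tl l K) w := by
  obtain ⟨L, hLd⟩ : ∃ L, ∑ k, l k = L := ⟨_, rfl⟩
  obtain ⟨E0, hE0⟩ : ∃ E0, qf l w = E0 := ⟨_, rfl⟩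
  have hL0 : 0 < L := hLd ▸ hL
  have hE0n : 0 ≤ E0 := hE0 ▸ qf_nonneg hl w
  have hτ : 0 ≤ τ := le_trans (div_nonneg (Finset.sum_nonneg fun i _ => (ha i).le) hL.le) hbad
  have hpn : ∀ i, 0 ≤ pp U l i := pp_nonneg hl
  have hp1 : ∑ i, pp U l i = 1 := sum_pp hU hL
  have hpp : ∀ i, pp U l i = aa U l i / L := fun i => by unfold pp; rw [hLd]
  let Inv : (Fin n → ℂ) → Prop := fun s => qf l s ≤ E0
  have hI : ∀ s i, Inv s → Inv (stp U l s i) := fun s i h => (qf_stp_le s (ha i)).trans h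
  have hIw : Inv w := hE0.le
  -- (1)
  have d1 : ∀ t, EX (pp U l) (stp U l) t (qf l) w =
      E0 - ∑ s ∈ Finset.range t, EX (pp U l) (stp U l) s (fun s => qf (fun k => l k ^ 2) s / L) w := by
    intro t
    have := EX_drift (p := pp U l) (st := stp U l) hI (qf l) (fun s => qf (fun k => l k ^ 2) s / L)
      (fun s _ => by
        have h := step_mean_self hU ha hL0 s hLd
        simp only [hpp]
        exact h) w hIw t
    rw [hE0] at this
    exact this
  have hDn : ∀ t, 0 ≤ EX (pp U l) (stp U l) t (fun s => qf (fun k => l k ^ 2) s / L) w := fun t =>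
    EX_nonneg hpn hI t (fun s _ => div_nonneg (qf_nonneg (fun k => sq_nonneg _) s) hL0.le) w hIw
  have hsum : ∀ t, ∑ s ∈ Finset.range t,
      EX (pp U l) (stp U l) s (fun s => qf (fun k => l k ^ 2) s / L) w ≤ E0 := by
    intro t
    have h1 := d1 t
    have h2 : 0 ≤ EX (pp U l) (stp U l) t (qf l) w := EX_nonneg hpn hI t (fun s _ => qf_nonneg hl s) w hIw
    linarith
  -- (2)
  have d2 : ∀ t ≤ T, EX (pp U l) (stp U l) t (qf (tl l K)) w ≤
      qf (tl l K) w + ρ * E0 + T * (τ * E0) := by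
    intro t ht
    have h := EX_drift (p := pp U l) (st := stp U l) hI (qf (tl l K))
      (fun s => (2 * qf (fun k => l k * tl l K k) s - inj U l (tl l K) s) / L)
      (fun s _ => by
        have h := step_mean hU ha hL0 (tl l K) s hLd
        simp only [hpp]
        exact h) w hIw t
    rw [h]
    have h3 : ∀ s, -(EX (pp U l) (stp U l) s
        (fun s => (2 * qf (fun k => l k * tl l K k) s - inj U l (tl l K) s) / L) w) ≤
        ρ * EX (pp U l) (stp U l) s (fun s => qf (fun k => l k ^ 2) s / L) w + τ * E0 := by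
      intro s
      have e1 : -(EX (pp U l) (stp U l) s
        (fun s => (2 * qf (fun k => l k * tl l K k) s - inj U l (tl l K) s) / L) w) =
        EX (pp U l) (stp U l) s
        (fun s => (-1) * ((2 * qf (fun k => l k * tl l K k) s - inj U l (tl l K) s) / L)) w := by
        rw [EX_mul]; ring
      have e2 : ρ * EX (pp U l) (stp U l) s (fun s => qf (fun k => l k ^ 2) s / L) w + τ * E0 =
        EX (pp U l) (stp U l) s (fun s => ρ * (qf (fun k => l k ^ 2) s / L) + τ * E0) w := by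
        rw [EX_add, EX_mul, EX_const hp1]
      rw [e1, e2]
      refine EX_mono hpn hI s ?_ w hIw
      intro s' hs'
      have h4 := mgt_inj hU ha hl hL hρ Bad hgood hbad s' E0 hs'
      have h5 : 0 ≤ qf (fun k => l k * tl l K k) s' :=
        qf_nonneg (fun k => mul_nonneg (hl k) (mgt_tl_nonneg hl K k)) s'
      rw [hLd] at h4
      have h6 : (-1) * ((2 * qf (fun k => l k * tl l K k) s' - inj U l (tl l K) s') / L) =
        (inj U l (tl l K) s' - 2 * qf (fun k => l k * tl l K k) s') / L := by ring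
      have h7 : ρ * (qf (fun k => l k ^ 2) s' / L) + τ * E0 =
        (ρ * qf (fun k => l k ^ 2) s' + L * τ * E0) / L := by
        field_simp
      rw [h6, h7]
      apply div_le_div_of_nonneg_right _ hL0.le
      linarith
    have h8 : -(∑ s ∈ Finset.range t, EX (pp U l) (stp U l) s
        (fun s => (2 * qf (fun k => l k * tl l K k) s - inj U l (tl l K) s) / L) w) ≤
        ρ * E0 + T * (τ * E0) := by
      rw [← Finset.sum_neg_distrib]
      refine (Finset.sum_le_sum fun s _ => h3 s).trans ?_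
      rw [Finset.sum_add_distrib, ← Finset.mul_sum, Finset.sum_const, Finset.card_range, nsmul_eq_mul]
      have h9 : (t : ℝ) * (τ * E0) ≤ T * (τ * E0) :=
        mul_le_mul_of_nonneg_right (by exact_mod_cast ht) (mul_nonneg hτ hE0n)
      have h10 := mul_le_mul_of_nonneg_left (hsum t) hρ
      linarith
    linarith
  -- (3)
  have d3 : ∀ s < T, κ / L * EX (pp U l) (stp U l) T (qf l) w ≤
      EX (pp U l) (stp U l) s (fun s => qf (fun k => l k ^ 2) s / L) w +
        κ / L * (qf (tl l K) w + ρ * E0 + T * (τ * E0)) := by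
    intro s hs
    have hmono : EX (pp U l) (stp U l) T (qf l) w ≤ EX (pp U l) (stp U l) s (qf l) w := by
      rw [d1 T, d1 s]
      have := Finset.sum_le_sum_of_subset_of_nonneg
        (f := fun s => EX (pp U l) (stp U l) s (fun s => qf (fun k => l k ^ 2) s / L) w)
        (Finset.range_mono hs.le) (fun i _ _ => hDn i)
      linarith
    have hκL : 0 ≤ κ / L := div_nonneg hκ.le hL0.le
    have h1 : κ / L * EX (pp U l) (stp U l) s (qf l) w ≤
        EX (pp U l) (stp U l) s (fun s => qf (fun k => l k ^ 2) s / L) w +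
        κ / L * EX (pp U l) (stp U l) s (qf (tl l K)) w := by
      rw [← EX_mul, ← EX_mul, ← EX_add]
      refine EX_mono hpn hI s ?_ w hIw
      intro s' _
      have h2 := mgt_low (l := l) hl hκ hK s'
      have h3 : κ / L * qf l s' = (κ * qf l s') / L := by ring
      have h4 : qf (fun k => l k ^ 2) s' / L + κ / L * qf (tl l K) s' =
        (qf (fun k => l k ^ 2) s' + κ * qf (tl l K) s') / L := by ring
      rw [h3, h4]
      exact div_le_div_of_nonneg_right h2 hL0.le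
    have h5 := mul_le_mul_of_nonneg_left hmono hκL
    have h6 := mul_le_mul_of_nonneg_left (d2 s hs.le) hκL
    linarith
  have h7 : (T : ℝ) * (κ / L * EX (pp U l) (stp U l) T (qf l) w) ≤
      E0 + T * (κ / L * (qf (tl l K) w + ρ * E0 + T * (τ * E0))) := by
    have h8 : ∑ s ∈ Finset.range T, κ / L * EX (pp U l) (stp U l) T (qf l) w ≤
        ∑ s ∈ Finset.range T, (EX (pp U l) (stp U l) s (fun s => qf (fun k => l k ^ 2) s / L) w +
        κ / L * (qf (tl l K) w + ρ * E0 + T * (τ * E0))) :=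
      Finset.sum_le_sum fun s hs => d3 s (Finset.mem_range.1 hs)
    rw [Finset.sum_const, Finset.card_range, nsmul_eq_mul, Finset.sum_add_distrib, Finset.sum_const,
      Finset.card_range, nsmul_eq_mul] at h8
    have := hsum T
    linarith
  have hT0 : (0 : ℝ) < T := by exact_mod_cast hT
  rw [hLd, hE0]
  have h9 : (T : ℝ) * (κ / L) * EX (pp U l) (stp U l) T (qf l) w ≤
      (T : ℝ) * (κ / L) * ((L / (κ * T) + ρ + T * τ) * E0 + qf (tl l K) w) := by
    have e : (T : ℝ) * (κ / L) * ((L / (κ * T) + ρ + T * τ) * E0 + qf (tl l K) w) =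
      E0 + T * (κ / L * (qf (tl l K) w + ρ * E0 + T * (τ * E0))) := by
      field_simp
      ring
    rw [e]
    linarith
  exact le_of_mul_le_mul_left h9 (by positivity)

end Pool.Agent.Helper579.Cg
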