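import Mathlib
import Pool.Agent.Helper579.CgKK

set_option autoImplicit false

namespace Pool.Agent.Helper579.Cg

open MeasureTheory Filter Matrix
open scoped ENNReal Topology



/-- TARGET: expectations of scale invariant functions of a row -/
lemma row_mean {n : ℕ} (hn : 1 ≤ n) (i : Fin n) (H : (Fin n → ℝ) → ℝ) (hH : Measurable H)
    (h0 : ∀ ξ, 0 ≤ H ξ) (hs : ∀ (r : ℝ) (ξ : Fin n → ℝ), 0 < r → H (fun k => r * ξ k) = H ξ) :
    ∫⁻ U : Un n, ENNReal.ofReal (H (fun k => ‖um U i k‖ ^ 2)) ∂haarU n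
      ≤ ∫⁻ ξ, ENNReal.ofReal (H ξ) ∂(Measure.pi fun _ : Fin n => expo) := by
  have hm : Measurable (fun U : Un n => H (fun k => ‖um U i k‖ ^ 2)) := by
    apply hH.comp
    apply Continuous.measurable
    refine continuous_pi fun k => ?_
    have h1 : Continuous (fun U : Un n => um U i k) := by
      have : Continuous (fun U : Un n => (U : Matrix (Fin n) (Fin n) ℂ)) := continuous_subtype_val
      exact (this.matrix_elem i k)
    exact (h1.norm).pow 2
  rw [lintegral_eq_lintegral_meas_lt _ (Eventually.of_forall fun U => h0 _) hm.aemeasurable,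
    lintegral_eq_lintegral_meas_lt _ (Eventually.of_forall fun ξ => h0 _) hH.aemeasurable]
  refine lintegral_mono fun t => ?_
  refine (measure_mono ?_).trans ((row_event hn i {ξ | H ξ ≤ t}).trans (le_of_eq ?_))
  · intro U hU r hr
    simp only [Set.mem_ofPred_eq] at hU ⊢
    rw [hs r _ hr]
    exact not_le.2 hU
  · congr 1
    ext ξ
    simp

lemma tele {p : ℝ} (hp : 1 < p) {x : ℝ} (hx : 0 < x) :
    (x + 1) ^ (-p) ≤ (x ^ (1 - p) - (x + 1) ^ (1 - p)) / (p - 1) := by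
  have hx1 : 0 < x + 1 := by linarith
  rw [le_div_iff₀ (by linarith)]
  have hb := one_add_mul_self_le_rpow_one_add (s := 1 / x) (p := p)
    (by have : 0 < 1 / x := by positivity
        linarith) hp.le
  have e1 : (1 + 1 / x) = (x + 1) / x := by field_simp
  rw [e1, Real.div_rpow hx1.le hx.le] at hb
  have hxp : 0 < x ^ p := Real.rpow_pos_of_pos hx p
  have hx1p : 0 < (x + 1) ^ p := Real.rpow_pos_of_pos hx1 p
  rw [le_div_iff₀ hxp] at hb
  have e2 : x ^ (1 - p) = x / x ^ p := by rw [Real.rpow_sub hx, Real.rpow_one]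
  have e3 : (x + 1) ^ (1 - p) = (x + 1) / (x + 1) ^ p := by rw [Real.rpow_sub hx1, Real.rpow_one]
  have e4 : (x + 1) ^ (-p) = 1 / (x + 1) ^ p := by rw [Real.rpow_neg hx1.le, one_div]
  rw [e2, e3, e4]
  have h5 : (x + p) / (x + 1) ^ p ≤ x / x ^ p := by
    rw [div_le_div_iff₀ hx1p hxp]
    have : (1 + p * (1 / x)) * x ^ p * x = (x + p) * x ^ p := by field_simp
    nlinarith [mul_le_mul_of_nonneg_right hb hx.le]
  have h6 : 1 / (x + 1) ^ p * (p - 1) = (x + p) / (x + 1) ^ p - (x + 1) / (x + 1) ^ p := by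
    rw [← sub_div]; ring
  rw [h6]
  linarith

lemma rg_lam_pos (p : ℝ) {n : ℕ} (k : Fin n) : 0 < lam p k := by
  unfold lam
  positivity

lemma rg_lam_le_one {p : ℝ} (hp : 1 < p) {n : ℕ} (k : Fin n) : lam p k ≤ 1 := by
  unfold lam
  apply Real.rpow_le_one_of_one_le_of_nonpos
  · have : (0:ℝ) ≤ (k : ℕ) := Nat.cast_nonneg _
    linarith
  · linarith

lemma tail_range {p : ℝ} (hp : 1 < p) {K : ℕ} (hK : 1 ≤ K) (n : ℕ) (hn : K ≤ n) :
    ∑ k ∈ Finset.range n, (if K ≤ k then ((k : ℝ) + 1) ^ (-p) else 0)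
      ≤ ((K : ℝ) ^ (1 - p) - (n : ℝ) ^ (1 - p)) / (p - 1) := by
  induction n, hn using Nat.le_induction with
  | base =>
    rw [Finset.sum_eq_zero]
    · simp
    · intro k hk
      rw [if_neg (not_le.2 (Finset.mem_range.1 hk))]
  | succ n hn ih =>
    rw [Finset.sum_range_succ, if_pos hn]
    have hn0 : (0:ℝ) < n := by exact_mod_cast (by omega : 0 < n)
    have h := tele hp hn0
    have e : ((n + 1 : ℕ) : ℝ) = (n : ℝ) + 1 := by push_cast; ring
    rw [e]
    calc _ ≤ ((K : ℝ) ^ (1 - p) - (n : ℝ) ^ (1 - p)) / (p - 1) +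
          ((n : ℝ) ^ (1 - p) - ((n : ℝ) + 1) ^ (1 - p)) / (p - 1) := add_le_add ih h
      _ = _ := by rw [← add_div]; congr 1; ring

lemma tail_sum {p : ℝ} (hp : 1 < p) {K : ℕ} (hK : 1 ≤ K) (n : ℕ) :
    ∑ k : Fin n, tl (lam p) K k ≤ (K : ℝ) ^ (1 - p) / (p - 1) := by
  have e : ∑ k : Fin n, tl (lam p) K k =
      ∑ k ∈ Finset.range n, (if K ≤ k then ((k : ℝ) + 1) ^ (-p) else 0) := by
    rw [← Fin.sum_univ_eq_sum_range (fun k => if K ≤ k then ((k : ℝ) + 1) ^ (-p) else 0) n]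
    rfl
  rw [e]
  have hp1 : 0 < p - 1 := by linarith
  rcases le_total K n with h | h
  · refine (tail_range hp hK n h).trans ?_
    apply div_le_div_of_nonneg_right _ hp1.le
    have : 0 ≤ (n : ℝ) ^ (1 - p) := by positivity
    linarith
  · rw [Finset.sum_eq_zero]
    · positivity
    · intro k hk
      rw [if_neg]
      have := Finset.mem_range.1 hk
      omega

lemma tot_sum {p : ℝ} (hp : 1 < p) (n : ℕ) :
    ∑ k : Fin n, lam p k ≤ p / (p - 1) := by
  have hp1 : 0 < p - 1 := by linarith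
  cases n with
  | zero => simp; positivity
  | succ n =>
    have h := tail_sum hp (le_refl 1) (n + 1)
    have e : ∑ k : Fin (n + 1), lam p k = 1 + ∑ k : Fin (n + 1), tl (lam p) 1 k := by
      rw [Fin.sum_univ_succ, Fin.sum_univ_succ]
      have e0 : lam p (0 : Fin (n + 1)) = 1 := by simp [lam]
      have e1 : tl (lam p) 1 (0 : Fin (n + 1)) = 0 := by simp [tl]
      rw [e0, e1, zero_add]
      refine congrArg (fun t => 1 + t) (Finset.sum_congr rfl fun k _ => ?_)
      simp [tl]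
    rw [e]
    have e2 : p / (p - 1) = 1 + 1 / (p - 1) := by field_simp; ring
    rw [e2]
    simpa using h

lemma one_le_tot {p : ℝ} {n : ℕ} (hn : 1 ≤ n) : 1 ≤ ∑ k : Fin n, lam p k := by
  obtain ⟨m, rfl⟩ : ∃ m, n = m + 1 := ⟨n - 1, by omega⟩
  have e0 : lam p (0 : Fin (m + 1)) = 1 := by simp [lam]
  calc (1:ℝ) = lam p (0 : Fin (m + 1)) := e0.symm
    _ ≤ _ := Finset.single_le_sum (f := fun k : Fin (m + 1) => lam p k)
      (fun k _ => (rg_lam_pos p k).le) (Finset.mem_univ _)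

lemma sq_expo : ∫⁻ x, ENNReal.ofReal (x ^ 2) ∂expo ≤ ENNReal.ofReal 2 := by
  unfold expo
  rw [lintegral_withDensity_eq_lintegral_mul _ (by fun_prop) (by fun_prop)]
  have h1 : ∀ x : ℝ, ((fun x => ENNReal.ofReal (Real.exp (-x))) * fun x => ENNReal.ofReal (x ^ 2)) x
      = ENNReal.ofReal (Real.exp (-x) * x ^ 2) := by
    intro x
    simp only [Pi.mul_apply]
    rw [ENNReal.ofReal_mul (Real.exp_pos _).le]
  simp_rw [h1]
  have h2 := Real.GammaIntegral_convergent (s := 3) (by norm_num)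
  have h3 : ∀ x : ℝ, Real.exp (-x) * x ^ ((3:ℝ) - 1) = Real.exp (-x) * x ^ 2 := by
    intro x
    rw [show (3:ℝ) - 1 = ((2:ℕ):ℝ) by norm_num, Real.rpow_natCast]
  simp_rw [h3] at h2
  rw [← ofReal_integral_eq_lintegral_ofReal h2
    (Eventually.of_forall fun x => by positivity)]
  have h4 := Real.Gamma_eq_integral (s := 3) (by norm_num)
  simp_rw [h3] at h4
  rw [← h4]
  have h5 : Real.Gamma 3 = 2 := by simp
  rw [h5]

lemma sq_coord {n : ℕ} (k : Fin n) :
    ∫⁻ ξ, ENNReal.ofReal (ξ k ^ 2) ∂(Measure.pi fun _ : Fin n => expo) ≤ ENNReal.ofReal 2 := by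
  have h := measurePreserving_eval (fun _ : Fin n => expo) k
  have h2 := h.lintegral_comp (f := fun x => ENNReal.ofReal (x ^ 2)) (by fun_prop)
  calc _ = ∫⁻ x, ENNReal.ofReal (x ^ 2) ∂expo := h2
    _ ≤ _ := sq_expo

lemma sq_sum {n : ℕ} (a : Fin n → ℝ) (ha : ∀ k, 0 ≤ a k) :
    ∫⁻ ξ, ENNReal.ofReal ((∑ k, a k * ξ k) ^ 2) ∂(Measure.pi fun _ : Fin n => expo)
      ≤ ENNReal.ofReal (2 * (∑ k, a k) ^ 2) := by
  have hA : 0 ≤ ∑ k, a k := Finset.sum_nonneg fun k _ => ha k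
  calc _ ≤ ∫⁻ ξ, ∑ k, ENNReal.ofReal ((∑ j, a j) * a k) * ENNReal.ofReal (ξ k ^ 2)
        ∂(Measure.pi fun _ : Fin n => expo) := by
        refine lintegral_mono fun ξ => ?_
        have h1 : (∑ k, a k * ξ k) ^ 2 ≤ (∑ k, a k) * ∑ k, a k * ξ k ^ 2 :=
          Finset.sum_sq_le_sum_mul_sum_of_sq_le_mul _ (fun k _ => ha k)
            (fun k _ => mul_nonneg (ha k) (sq_nonneg _)) (fun k _ => le_of_eq (by ring))
        refine (ENNReal.ofReal_le_ofReal h1).trans (le_of_eq ?_)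
        rw [Finset.mul_sum, ENNReal.ofReal_sum_of_nonneg
          (fun k _ => mul_nonneg hA (mul_nonneg (ha k) (sq_nonneg _)))]
        refine Finset.sum_congr rfl fun k _ => ?_
        rw [← mul_assoc, ENNReal.ofReal_mul (mul_nonneg hA (ha k))]
    _ = ∑ k, ENNReal.ofReal ((∑ j, a j) * a k) *
        ∫⁻ ξ, ENNReal.ofReal (ξ k ^ 2) ∂(Measure.pi fun _ : Fin n => expo) := by
        rw [lintegral_finsetSum _ (fun k _ => by fun_prop)]
        refine Finset.sum_congr rfl fun k _ => ?_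
        rw [lintegral_const_mul _ (by fun_prop)]
    _ ≤ ∑ k, ENNReal.ofReal ((∑ j, a j) * a k) * ENNReal.ofReal 2 := by
        refine Finset.sum_le_sum fun k _ => ?_
        gcongr
        exact sq_coord k
    _ = _ := by
        rw [← Finset.sum_mul, ← ENNReal.ofReal_sum_of_nonneg (fun k _ => mul_nonneg hA (ha k)),
          ← Finset.mul_sum, ← ENNReal.ofReal_mul (mul_nonneg hA hA)]
        congr 1
        ring

lemma rg_tl_nonneg {p : ℝ} {n : ℕ} (K : ℕ) (k : Fin n) : 0 ≤ tl (lam p) K k := by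
  unfold tl
  split_ifs
  · exact (rg_lam_pos p k).le
  · exact le_rfl

lemma rg_tl_le {p : ℝ} (hp : 1 < p) {n : ℕ} {K : ℕ} (hK : 1 ≤ K) (k : Fin n) :
    tl (lam p) K k ≤ (K : ℝ) ^ (-p) := by
  have hK0 : (0:ℝ) < K := by exact_mod_cast hK
  unfold tl
  split_ifs with h
  · unfold lam
    apply Real.rpow_le_rpow_of_nonpos hK0
    · have : (K:ℝ) ≤ (k : ℕ) := by exact_mod_cast h
      linarith
    · linarith
  · positivity

/-- small head -/
lemma beta_bound {p ρ : ℝ} (hp : 1 < p) (hρ : 0 < ρ) :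
    ∃ C1 : ℝ, 0 < C1 ∧ ∃ n0 : ℕ, ∀ n : ℕ, n0 ≤ n → ∀ K : ℕ, 1 ≤ K →
      (Measure.pi fun _ : Fin n => expo)
        {ξ | ρ * ∑ k, lam p k * ξ k < ∑ k, tl (lam p) K k * ξ k}
        ≤ ENNReal.ofReal (C1 * (K : ℝ) ^ (-(2 * (p + 2)))) := by
  have hp1 : 0 < p - 1 := by linarith
  set q : ℝ := 2 * (p + 2) with hq
  have hq0 : 0 < q := by rw [hq]; linarith
  obtain ⟨m, hm⟩ := exists_nat_ge q
  obtain ⟨j0, hj0⟩ := exists_nat_ge (q / (p - 1))
  -- constants
  set A : ℝ := (m.factorial : ℝ) * (p - 1) ^ m with hA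
  set B : ℝ := ∏ k ∈ Finset.range j0, (4 / (p - 1) * ((k : ℝ) + 1) ^ p / ρ) with hB
  have hA0 : 0 < A := by positivity
  have hB0 : 0 < B := by
    rw [hB]
    apply Finset.prod_pos
    intro k _
    positivity
  refine ⟨A + B, by positivity, j0, fun n hn K hK => ?_⟩
  have hK0 : (0:ℝ) < K := by exact_mod_cast hK
  have hK1 : (1:ℝ) ≤ K := by exact_mod_cast hK
  set S : ℝ := (K : ℝ) ^ (1 - p) / (p - 1) with hS
  set M : ℝ := (K : ℝ) ^ (-p) with hM
  have hM0 : 0 < M := Real.rpow_pos_of_pos hK0 _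
  have hS0 : 0 < S := by positivity
  have hsub : {ξ : Fin n → ℝ | ρ * ∑ k, lam p k * ξ k < ∑ k, tl (lam p) K k * ξ k} ⊆
      ({ξ | 4 * S ≤ ∑ k, tl (lam p) K k * ξ k} ∪
        {ξ | ∀ k ∈ Finset.univ.filter (fun k : Fin n => (k : ℕ) < j0),
          ξ k < 4 * S * ((k : ℝ) + 1) ^ p / ρ}) ∪ {ξ | ¬ ∀ k, 0 < ξ k} := by
    intro ξ hξ
    simp only [Set.mem_ofPred_eq] at hξ
    by_cases h1 : ∀ k, 0 < ξ k
    · left
      by_cases h2 : 4 * S ≤ ∑ k, tl (lam p) K k * ξ k
      · left; exact h2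
      · right
        push Not at h2
        intro k _
        have h3 : lam p k * ξ k ≤ ∑ k, lam p k * ξ k :=
          Finset.single_le_sum (f := fun k => lam p k * ξ k)
            (fun k _ => (mul_pos (rg_lam_pos p k) (h1 k)).le) (Finset.mem_univ k)
        have h4 : ρ * (lam p k * ξ k) < 4 * S :=
          (mul_le_mul_of_nonneg_left h3 hρ.le).trans_lt (hξ.trans h2)
        rw [lt_div_iff₀ hρ]
        have h5 : (0:ℝ) < (k : ℝ) + 1 := by positivity
        have h6 : lam p k * ((k : ℝ) + 1) ^ p = 1 := by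
          unfold lam
          rw [← Real.rpow_add h5]
          simp
        have h7 : (0:ℝ) < ((k : ℝ) + 1) ^ p := Real.rpow_pos_of_pos h5 p
        have h8 := mul_lt_mul_of_pos_right h4 h7
        calc ξ k * ρ = ρ * (lam p k * ξ k) * ((k : ℝ) + 1) ^ p := by
              have : ρ * (lam p k * ξ k) * ((k : ℝ) + 1) ^ p =
                ρ * ξ k * (lam p k * ((k : ℝ) + 1) ^ p) := by ring
              rw [this, h6]; ring
          _ < _ := h8
    · right; exact h1
  have b1 : (Measure.pi fun _ : Fin n => expo) {ξ | 4 * S ≤ ∑ k, tl (lam p) K k * ξ k} ≤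
      ENNReal.ofReal (A * (K : ℝ) ^ (-q)) := by
    refine (expo_upper (tl (lam p) K) hM0 (fun k => rg_tl_nonneg K k) (fun k => rg_tl_le hp hK k)
      (tail_sum hp hK n) (4 * S)).trans (ENNReal.ofReal_le_ofReal ?_)
    have e1 : (2 * S - 4 * S) / (2 * M) = -(K / (p - 1)) := by
      have : S = K * M / (p - 1) := by
        rw [hS, hM, ← Real.rpow_one_add' hK0.le (by linarith)]
        congr 2
      rw [this]
      field_simp
      ring
    rw [show (2 * ((K : ℝ) ^ (1 - p) / (p - 1)) - 4 * S) / (2 * M) = (2 * S - 4 * S) / (2 * M) from rfl, e1]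
    have h1 : ((K : ℝ) / (p - 1)) ^ m / (m.factorial : ℝ) ≤ Real.exp (K / (p - 1)) :=
      Real.pow_div_factorial_le_exp _ (by positivity) m
    have h2 : Real.exp (-(K / (p - 1))) ≤ A * (K : ℝ) ^ (-(m : ℝ)) := by
      rw [Real.exp_neg, Real.rpow_neg hK0.le, Real.rpow_natCast, hA]
      rw [inv_le_comm₀ (Real.exp_pos _) (by positivity)]
      refine le_trans (le_of_eq ?_) h1
      rw [div_pow]
      field_simp
    refine h2.trans ?_
    gcongr
  have b2 : (Measure.pi fun _ : Fin n => expo)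
      {ξ | ∀ k ∈ Finset.univ.filter (fun k : Fin n => (k : ℕ) < j0),
          ξ k < 4 * S * ((k : ℝ) + 1) ^ p / ρ} ≤ ENNReal.ofReal (B * (K : ℝ) ^ (-q)) := by
    refine (expo_small _ (fun k : Fin n => 4 * S * ((k : ℝ) + 1) ^ p / ρ)
      (fun k => by positivity)).trans (ENNReal.ofReal_le_ofReal ?_)
    have e1 : ∏ k ∈ Finset.univ.filter (fun k : Fin n => (k : ℕ) < j0),
        (4 * S * ((k : ℝ) + 1) ^ p / ρ) =
        ∏ k ∈ Finset.range j0, (4 * S * ((k : ℝ) + 1) ^ p / ρ) := by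
      refine Finset.prod_bij (fun k _ => (k : ℕ)) ?_ ?_ ?_ ?_
      · intro k hk
        exact Finset.mem_range.2 (Finset.mem_filter.1 hk).2
      · intro a _ b _ h
        exact Fin.ext h
      · intro b hb
        have hb' := Finset.mem_range.1 hb
        exact ⟨⟨b, by omega⟩, Finset.mem_filter.2 ⟨Finset.mem_univ _, hb'⟩, rfl⟩
      · intro a _
        rfl
    rw [e1]
    have e2 : ∀ k ∈ Finset.range j0, (4 * S * ((k : ℝ) + 1) ^ p / ρ) =
        (K : ℝ) ^ (1 - p) * (4 / (p - 1) * ((k : ℝ) + 1) ^ p / ρ) := by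
      intro k _
      rw [hS]
      ring
    rw [Finset.prod_congr rfl e2, Finset.prod_mul_distrib, Finset.prod_const, Finset.card_range,
      ← hB, mul_comm]
    gcongr
    rw [← Real.rpow_natCast, ← Real.rpow_mul hK0.le]
    apply Real.rpow_le_rpow_of_exponent_le hK1
    rw [div_le_iff₀ hp1] at hj0
    linarith
  have b3 := expo_pos (n := n)
  calc _ ≤ _ := measure_mono hsub
    _ ≤ _ := measure_union_le _ _
    _ ≤ (ENNReal.ofReal (A * (K : ℝ) ^ (-q)) + ENNReal.ofReal (B * (K : ℝ) ^ (-q))) + 0 := by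
        refine add_le_add ((measure_union_le _ _).trans (add_le_add b1 b2)) (le_of_eq b3)
    _ = _ := by
        rw [add_zero, ← ENNReal.ofReal_add (by positivity) (by positivity), add_mul]

/-- the weight of a bad row -/
noncomputable def Hf (p ρ : ℝ) (n K : ℕ) (ξ : Fin n → ℝ) : ℝ :=
  if ρ * ∑ k, lam p k * ξ k < ∑ k, tl (lam p) K k * ξ k then |∑ k, lam p k * ξ k| / |∑ k, ξ k|
  else 0

lemma Hf_meas (p ρ : ℝ) (n K : ℕ) : Measurable (Hf p ρ n K) := by
  unfold Hf
  refine Measurable.ite (measurableSet_lt (by fun_prop) (by fun_prop)) ?_ measurable_const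
  refine Measurable.div ?_ ?_
  · exact (continuous_abs.comp (by fun_prop)).measurable
  · exact (continuous_abs.comp (by fun_prop)).measurable

lemma Hf_nonneg (p ρ : ℝ) (n K : ℕ) (ξ : Fin n → ℝ) : 0 ≤ Hf p ρ n K ξ := by
  unfold Hf
  split_ifs <;> positivity

lemma Hf_scale (p ρ : ℝ) (n K : ℕ) (r : ℝ) (ξ : Fin n → ℝ) (hr : 0 < r) :
    Hf p ρ n K (fun k => r * ξ k) = Hf p ρ n K ξ := by
  have e1 : ∑ k, lam p k * (r * ξ k) = r * ∑ k, lam p k * ξ k := by
    rw [Finset.mul_sum]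
    exact Finset.sum_congr rfl fun k _ => by ring
  have e2 : ∑ k, tl (lam p) K k * (r * ξ k) = r * ∑ k, tl (lam p) K k * ξ k := by
    rw [Finset.mul_sum]
    exact Finset.sum_congr rfl fun k _ => by ring
  have e3 : ∑ k, r * ξ k = r * ∑ k, ξ k := by
    rw [Finset.mul_sum]
  have e4 : (ρ * (r * ∑ k, lam p k * ξ k) < r * ∑ k, tl (lam p) K k * ξ k) ↔
      (ρ * ∑ k, lam p k * ξ k < ∑ k, tl (lam p) K k * ξ k) := by
    rw [show ρ * (r * ∑ k, lam p k * ξ k) = r * (ρ * ∑ k, lam p k * ξ k) by ring]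
    exact mul_lt_mul_iff_right₀ hr
  unfold Hf
  simp only [e1, e2, e3, e4, abs_mul]
  rw [mul_div_mul_left _ _ (abs_pos.2 hr.ne').ne']

lemma Hf_int {p ρ : ℝ} (hp : 1 < p) {C1 : ℝ} (hC1 : 0 < C1) {n K : ℕ} (hn : 1 ≤ n) (hK : 1 ≤ K)
    (hβ : (Measure.pi fun _ : Fin n => expo)
        {ξ | ρ * ∑ k, lam p k * ξ k < ∑ k, tl (lam p) K k * ξ k}
        ≤ ENNReal.ofReal (C1 * (K : ℝ) ^ (-(2 * (p + 2))))) :
    ∫⁻ ξ, ENNReal.ofReal (Hf p ρ n K ξ) ∂(Measure.pi fun _ : Fin n => expo) ≤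
      ENNReal.ofReal (4 / n * (((p / (p - 1)) ^ 2 + C1 / 2) * (K : ℝ) ^ (-(p + 2))) +
        Real.exp (-(n / 2 : ℝ))) := by
  have hp1 : 0 < p - 1 := by linarith
  have hn0 : (0:ℝ) < n := by exact_mod_cast hn
  have hK0 : (0:ℝ) < K := by exact_mod_cast hK
  set c : ℝ := (K : ℝ) ^ (-(p + 2)) with hc
  have hc0 : 0 < c := Real.rpow_pos_of_pos hK0 _
  have hc2 : (K : ℝ) ^ (-(2 * (p + 2))) = c * c := by
    rw [hc, ← Real.rpow_add hK0]
    congr 1
    ring
  rw [hc2] at hβ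
  set B : Set (Fin n → ℝ) := {ξ | ρ * ∑ k, lam p k * ξ k < ∑ k, tl (lam p) K k * ξ k} with hB
  set E : Set (Fin n → ℝ) := {ξ | ∑ k ∈ Finset.univ, ξ k ≤ ((Finset.univ : Finset (Fin n)).card : ℝ) / 4}
    with hE
  have hcard : ((Finset.univ : Finset (Fin n)).card : ℝ) = n := by simp
  have hBm : MeasurableSet B := measurableSet_lt (by fun_prop) (by fun_prop)
  have hEm : MeasurableSet E := measurableSet_le (by fun_prop) (by fun_prop)
  have hae : ∀ᵐ ξ ∂(Measure.pi fun _ : Fin n => expo), ∀ k, 0 < ξ k := ae_iff.2 expo_pos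
  have hpt : ∀ᵐ ξ ∂(Measure.pi fun _ : Fin n => expo), ENNReal.ofReal (Hf p ρ n K ξ) ≤
      (ENNReal.ofReal (4 / n * (c / 2)) * ENNReal.ofReal ((∑ k, lam p k * ξ k) ^ 2) +
        B.indicator (fun _ => ENNReal.ofReal (4 / n * (1 / (2 * c)))) ξ) +
        E.indicator (fun _ => 1) ξ := by
    filter_upwards [hae] with ξ hξ
    have hX : 0 ≤ ∑ k, lam p k * ξ k :=
      Finset.sum_nonneg fun k _ => (mul_pos (rg_lam_pos p k) (hξ k)).le
    have hS : 0 ≤ ∑ k, ξ k := Finset.sum_nonneg fun k _ => (hξ k).le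
    have hXS : ∑ k, lam p k * ξ k ≤ ∑ k, ξ k := by
      refine Finset.sum_le_sum fun k _ => ?_
      have := mul_le_mul_of_nonneg_right (rg_lam_le_one hp k) (hξ k).le
      linarith
    by_cases hξE : ξ ∈ E
    · rw [Set.indicator_of_mem hξE]
      refine le_trans ?_ le_add_self
      rw [← ENNReal.ofReal_one]
      apply ENNReal.ofReal_le_ofReal
      unfold Hf
      split_ifs
      · rw [abs_of_nonneg hX, abs_of_nonneg hS]
        exact div_le_one_of_le₀ hXS hS
      · exact zero_le_one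
    · rw [Set.indicator_of_notMem hξE, add_zero]
      have hlt : (n : ℝ) / 4 < ∑ k, ξ k := by
        have h1 : ¬ (∑ k ∈ Finset.univ, ξ k ≤ ((Finset.univ : Finset (Fin n)).card : ℝ) / 4) := hξE
        rw [hcard] at h1
        exact not_le.1 h1
      by_cases hξB : ξ ∈ B
      · rw [Set.indicator_of_mem hξB, ← ENNReal.ofReal_mul (by positivity),
          ← ENNReal.ofReal_add (by positivity) (by positivity)]
        apply ENNReal.ofReal_le_ofReal
        have hcond : ρ * ∑ k, lam p k * ξ k < ∑ k, tl (lam p) K k * ξ k := hξB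
        unfold Hf
        rw [if_pos hcond, abs_of_nonneg hX, abs_of_nonneg hS]
        set X := ∑ k, lam p k * ξ k
        have h1 : X / ∑ k, ξ k ≤ X / (n / 4) := by
          apply div_le_div_of_nonneg_left hX (by positivity) hlt.le
        have h2 : X / (n / 4) = 4 / n * X := by field_simp
        have h3 : X ≤ c / 2 * X ^ 2 + 1 / (2 * c) := by
          have h4 : c / 2 * X ^ 2 + 1 / (2 * c) - X = (c * X - 1) ^ 2 / (2 * c) := by
            field_simp
            ring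
          have h5 : 0 ≤ (c * X - 1) ^ 2 / (2 * c) := by positivity
          linarith
        have h6 : 4 / (n : ℝ) * X ≤ 4 / n * (c / 2 * X ^ 2 + 1 / (2 * c)) :=
          mul_le_mul_of_nonneg_left h3 (by positivity)
        calc X / ∑ k, ξ k ≤ 4 / n * X := h1.trans (le_of_eq h2)
          _ ≤ _ := h6
          _ = _ := by ring
      · have hcond : ¬ (ρ * ∑ k, lam p k * ξ k < ∑ k, tl (lam p) K k * ξ k) := hξB
        unfold Hf
        rw [if_neg hcond, ENNReal.ofReal_zero]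
        exact zero_le
  have i1 : ∫⁻ ξ, ENNReal.ofReal (4 / n * (c / 2)) * ENNReal.ofReal ((∑ k, lam p k * ξ k) ^ 2)
      ∂(Measure.pi fun _ : Fin n => expo) ≤ ENNReal.ofReal (4 / n * (c * (p / (p - 1)) ^ 2)) := by
    rw [lintegral_const_mul _ (by fun_prop)]
    refine (mul_le_mul_right (sq_sum (lam p) (fun k => (rg_lam_pos p k).le)) _).trans ?_
    rw [← ENNReal.ofReal_mul (by positivity)]
    apply ENNReal.ofReal_le_ofReal
    have h1 : (∑ k : Fin n, lam p k) ^ 2 ≤ (p / (p - 1)) ^ 2 := by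
      have h0 : 0 ≤ ∑ k : Fin n, lam p k := Finset.sum_nonneg fun k _ => (rg_lam_pos p k).le
      exact pow_le_pow_left₀ h0 (tot_sum hp n) 2
    have h2 : 4 / (n : ℝ) * (c / 2) * (2 * (∑ k : Fin n, lam p k) ^ 2) =
        4 / n * (c * (∑ k : Fin n, lam p k) ^ 2) := by ring
    rw [h2]
    gcongr
  have i2 : ∫⁻ ξ, B.indicator (fun _ => ENNReal.ofReal (4 / n * (1 / (2 * c)))) ξ
      ∂(Measure.pi fun _ : Fin n => expo) ≤ ENNReal.ofReal (4 / n * (C1 / 2 * c)) := by
    rw [lintegral_indicator hBm, setLIntegral_const]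
    refine (mul_le_mul_right hβ _).trans ?_
    rw [← ENNReal.ofReal_mul (by positivity)]
    apply ENNReal.ofReal_le_ofReal
    apply le_of_eq
    field_simp
  have i3 : ∫⁻ ξ, E.indicator (fun _ => 1) ξ ∂(Measure.pi fun _ : Fin n => expo) ≤
      ENNReal.ofReal (Real.exp (-(n / 2 : ℝ))) := by
    rw [lintegral_indicator hEm, setLIntegral_const, one_mul]
    have h := expo_lower (n := n) Finset.univ
    rw [hcard] at h
    rw [hE, hcard]
    exact h
  refine (lintegral_mono_ae hpt).trans ?_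
  rw [lintegral_add_right _ (measurable_const.indicator hEm),
    lintegral_add_right _ (measurable_const.indicator hBm)]
  refine (add_le_add (add_le_add i1 i2) i3).trans (le_of_eq ?_)
  rw [← ENNReal.ofReal_add (by positivity) (by positivity),
    ← ENNReal.ofReal_add (by positivity) (by positivity)]
  congr 1
  ring

/-- TARGET: few rows have a small head -/
lemma rows_gt {p ρ : ℝ} (hp : 1 < p) (hρ : 0 < ρ) :
    ∃ C : ℝ, 0 < C ∧ ∀ K : ℕ, 1 ≤ K → ∀ᶠ n : ℕ in atTop,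
      haarU n {U | ¬ ∃ Bad : Finset (Fin n),
        (∀ i, i ∉ Bad → aa (um U) (tl (lam p) K) i ≤ ρ * aa (um U) (lam p) i) ∧
        (∑ i ∈ Bad, aa (um U) (lam p) i) / (∑ k : Fin n, lam p k) ≤ (K : ℝ) ^ (-(p + 1))}
      ≤ ENNReal.ofReal (C / K) := by
  obtain ⟨C1, hC1, n0, hβ⟩ := beta_bound hp hρ
  have hp1 : 0 < p - 1 := by linarith
  refine ⟨4 * ((p / (p - 1)) ^ 2 + C1 / 2) + 1, by positivity, fun K hK => ?_⟩
  have hK0 : (0:ℝ) < K := by exact_mod_cast hK
  have hlim : Tendsto (fun n : ℕ => (n : ℝ) * Real.exp (-(n / 2 : ℝ))) atTop (𝓝 0) := by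
    have h1 := Real.tendsto_pow_mul_exp_neg_atTop_nhds_zero 1
    have h2 : Tendsto (fun n : ℕ => (n : ℝ) / 2) atTop atTop :=
      tendsto_natCast_atTop_atTop.atTop_div_const (by norm_num)
    have h3 := (h1.comp h2).const_mul 2
    rw [mul_zero] at h3
    refine h3.congr fun n => ?_
    simp only [Function.comp]
    ring
  have hev := hlim.eventually (gt_mem_nhds (Real.rpow_pos_of_pos hK0 (-(p + 2))))
  filter_upwards [hev, eventually_ge_atTop n0, eventually_ge_atTop 1] with n hn1 hn2 hn3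
  have hn0 : (0:ℝ) < n := by exact_mod_cast hn3
  have hint := Hf_int (ρ := ρ) hp hC1 hn3 hK (hβ n hn2 K hK)
  set c : ℝ := (K : ℝ) ^ (-(p + 2)) with hc
  set κ : ℝ := (K : ℝ) ^ (-(p + 1)) with hκ
  have hκ0 : 0 < κ := Real.rpow_pos_of_pos hK0 _
  have hcκ : c = κ / K := by
    rw [hc, hκ, show -(p + 2) = -(p + 1) - 1 by ring, Real.rpow_sub hK0, Real.rpow_one]
  -- the row functional
  have hrow : ∀ (U : Un n) (i : Fin n), Hf p ρ n K (fun k => ‖um U i k‖ ^ 2) =
      if ρ * aa (um U) (lam p) i < aa (um U) (tl (lam p) K) i then aa (um U) (lam p) i else 0 := by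
    intro U i
    have h0 : 0 ≤ aa (um U) (lam p) i :=
      Finset.sum_nonneg fun k _ => mul_nonneg (rg_lam_pos p k).le (by positivity)
    unfold Hf
    rw [row_norm, abs_one, div_one]
    have e : |∑ k, lam p k * ‖um U i k‖ ^ 2| = aa (um U) (lam p) i := abs_of_nonneg h0
    rw [e]
    rfl
  have hmeas : ∀ i : Fin n, Measurable
      (fun U : Un n => ENNReal.ofReal (Hf p ρ n K (fun k => ‖um U i k‖ ^ 2))) := by
    intro i
    apply ENNReal.measurable_ofReal.comp
    apply (Hf_meas p ρ n K).comp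
    apply Continuous.measurable
    refine continuous_pi fun k => ?_
    have h1 : Continuous (fun U : Un n => um U i k) := by
      have : Continuous (fun U : Un n => (U : Matrix (Fin n) (Fin n) ℂ)) := continuous_subtype_val
      exact (this.matrix_elem i k)
    exact (h1.norm).pow 2
  have hmark := mul_meas_ge_le_lintegral (μ := haarU n)
    (f := fun U : Un n => ∑ i, ENNReal.ofReal (Hf p ρ n K (fun k => ‖um U i k‖ ^ 2)))
    (Finset.measurable_fun_sum _ fun i _ => hmeas i) (ENNReal.ofReal κ)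
  have hI : ∫⁻ U : Un n, ∑ i, ENNReal.ofReal (Hf p ρ n K (fun k => ‖um U i k‖ ^ 2)) ∂haarU n ≤
      ENNReal.ofReal (κ * ((4 * ((p / (p - 1)) ^ 2 + C1 / 2) + 1) / K)) := by
    rw [lintegral_finsetSum _ (fun i _ => hmeas i)]
    refine (Finset.sum_le_sum fun i _ => (row_mean hn3 i (Hf p ρ n K) (Hf_meas p ρ n K)
      (Hf_nonneg p ρ n K) (Hf_scale p ρ n K)).trans hint).trans ?_
    rw [Finset.sum_const, Finset.card_univ, Fintype.card_fin, nsmul_eq_mul,
      ← ENNReal.ofReal_natCast, ← ENNReal.ofReal_mul hn0.le]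
    apply ENNReal.ofReal_le_ofReal
    have e1 : (n : ℝ) * (4 / n * (((p / (p - 1)) ^ 2 + C1 / 2) * c) + Real.exp (-(n / 2 : ℝ))) =
        4 * ((p / (p - 1)) ^ 2 + C1 / 2) * c + n * Real.exp (-(n / 2 : ℝ)) := by
      field_simp
    rw [e1]
    have e2 : κ * ((4 * ((p / (p - 1)) ^ 2 + C1 / 2) + 1) / K) =
        4 * ((p / (p - 1)) ^ 2 + C1 / 2) * c + c := by
      rw [hcκ]
      ring
    rw [e2]
    linarith [hn1.le]
  have hsub : {U : Un n | ¬ ∃ Bad : Finset (Fin n),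
        (∀ i, i ∉ Bad → aa (um U) (tl (lam p) K) i ≤ ρ * aa (um U) (lam p) i) ∧
        (∑ i ∈ Bad, aa (um U) (lam p) i) / (∑ k : Fin n, lam p k) ≤ κ} ⊆
      {U | ENNReal.ofReal κ ≤ ∑ i, ENNReal.ofReal (Hf p ρ n K (fun k => ‖um U i k‖ ^ 2))} := by
    intro U hU
    simp only [Set.mem_ofPred_eq] at hU ⊢
    have h0 : ∀ i, 0 ≤ aa (um U) (lam p) i := fun i =>
      Finset.sum_nonneg fun k _ => mul_nonneg (rg_lam_pos p k).le (by positivity)
    have h1 : ¬ ((∑ i ∈ Finset.univ.filter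
        (fun i => ρ * aa (um U) (lam p) i < aa (um U) (tl (lam p) K) i), aa (um U) (lam p) i) /
        (∑ k : Fin n, lam p k) ≤ κ) := by
      intro h
      refine hU ⟨_, ?_, h⟩
      intro i hi
      by_contra h2
      exact hi (Finset.mem_filter.2 ⟨Finset.mem_univ i, not_le.1 h2⟩)
    push Not at h1
    have h2 : (∑ i ∈ Finset.univ.filter
        (fun i => ρ * aa (um U) (lam p) i < aa (um U) (tl (lam p) K) i), aa (um U) (lam p) i) /
        (∑ k : Fin n, lam p k) ≤ ∑ i ∈ Finset.univ.filter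
        (fun i => ρ * aa (um U) (lam p) i < aa (um U) (tl (lam p) K) i), aa (um U) (lam p) i :=
      div_le_self (Finset.sum_nonneg fun i _ => h0 i) (one_le_tot hn3)
    rw [← ENNReal.ofReal_sum_of_nonneg (fun i _ => Hf_nonneg _ _ _ _ _)]
    apply ENNReal.ofReal_le_ofReal
    refine (h1.le.trans h2).trans (le_of_eq ?_)
    rw [Finset.sum_filter]
    exact Finset.sum_congr rfl fun i _ => (hrow U i).symm
  refine (measure_mono hsub).trans ?_
  have h3 := hmark.trans hI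
  rw [ENNReal.ofReal_mul hκ0.le] at h3
  exact (ENNReal.mul_le_mul_iff_right (ENNReal.ofReal_pos.2 hκ0).ne' ENNReal.ofReal_ne_top).1 h3

end Pool.Agent.Helper579.Cg
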