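import Mathlib
import Pool.Agent.Helper579.CgMain2
import Pool.Agent.Helper579.CgMeanGt
import Pool.Agent.Helper579.CgRowsGt

set_option autoImplicit false

namespace Pool.Agent.Helper579.Cg

open MeasureTheory Filter Matrix
open scoped ENNReal Topology ComplexConjugate

/-- the event `E` for the coordinate descent has probability at least `1 - O(δ)` -/
def REv (p : ℝ)
    (E : ∀ n : ℕ, (Fin n → Fin n → ℂ) → (Fin n → ℂ) → (ℕ → Fin n) → Prop) (δ : ℝ) : Prop :=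
  ∀ᶠ n : ℕ in atTop, ∃ (GU : Set (Un n)) (G : Set (Fin n → ℝ)),
    haarU n GUᶜ ≤ ENNReal.ofReal δ ∧ ex n Gᶜ ≤ ENNReal.ofReal δ ∧
    ∀ U ∈ GU, ∀ w : Fin n → ℂ, w ≠ 0 → (∃ r : ℝ, 0 < r ∧ (fun k => r * ‖w k‖ ^ 2) ∈ G) →
      ∀ μ : Measure (Fin n), IsProbabilityMeasure μ →
      (fun i => (μ {i}).toReal) = pp (um U) (lam p) →
      Measure.infinitePi (fun _ : ℕ => μ) {ω | ¬ E n (um U) w ω} ≤ ENNReal.ofReal δ

lemma REv.and {p : ℝ}
    {E₁ E₂ : ∀ n : ℕ, (Fin n → Fin n → ℂ) → (Fin n → ℂ) → (ℕ → Fin n) → Prop} {δ₁ δ₂ : ℝ}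
    (h0 : 0 ≤ δ₁) (h0' : 0 ≤ δ₂) (h1 : REv p E₁ δ₁) (h2 : REv p E₂ δ₂) :
    REv p (fun n U w ω => E₁ n U w ω ∧ E₂ n U w ω) (δ₁ + δ₂) := by
  unfold REv at *
  filter_upwards [h1, h2] with n h3 h4
  obtain ⟨GU₁, G₁, a1, a2, a3⟩ := h3
  obtain ⟨GU₂, G₂, b1, b2, b3⟩ := h4
  refine ⟨GU₁ ∩ GU₂, G₁ ∩ G₂, ?_, ?_, ?_⟩
  · rw [ENNReal.ofReal_add h0 h0', Set.compl_inter]
    exact (measure_union_le _ _).trans (add_le_add a1 b1)
  · rw [ENNReal.ofReal_add h0 h0', Set.compl_inter]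
    exact (measure_union_le _ _).trans (add_le_add a2 b2)
  · rintro U ⟨hU1, hU2⟩ w hw ⟨r, hr, hG1, hG2⟩ μ hμ hpp
    rw [ENNReal.ofReal_add h0 h0']
    refine le_trans (measure_mono ?_) ((measure_union_le _ _).trans
      (add_le_add (a3 U hU1 w hw ⟨r, hr, hG1⟩ μ hμ hpp) (b3 U hU2 w hw ⟨r, hr, hG2⟩ μ hμ hpp)))
    intro ω hω
    simp only [Set.mem_ofPred_eq, not_and_or] at hω
    exact hω

lemma REv.mono {p : ℝ}
    {E₁ E₂ : ∀ n : ℕ, (Fin n → Fin n → ℂ) → (Fin n → ℂ) → (ℕ → Fin n) → Prop} {δ : ℝ}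
    (h1 : REv p E₁ δ) (h : ∀ᶠ n : ℕ in atTop, ∀ U w ω, E₁ n U w ω → E₂ n U w ω) :
    REv p E₂ δ := by
  unfold REv at *
  filter_upwards [h1, h] with n h3 h4
  obtain ⟨GU, G, a1, a2, a3⟩ := h3
  refine ⟨GU, G, a1, a2, fun U hU w hw hr μ hμ hpp => ?_⟩
  refine le_trans (measure_mono ?_) (a3 U hU w hw hr μ hμ hpp)
  intro ω hω hE
  exact hω (h4 _ w ω hE)

/-- the stopping time is at least `x` -/
def rcdLow {n : ℕ} (U : Fin n → Fin n → ℂ) (l : Fin n → ℝ) (ε : ℝ) (w : Fin n → ℂ)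
    (ω : ℕ → Fin n) (x : ℝ) : Prop :=
  ∃ t : ℕ, x ≤ t + 1 ∧ ε * qf l w < qf l (path (stp U l) w ω t)

/-- the stopping time is at most `x` -/
def rcdUp {n : ℕ} (U : Fin n → Fin n → ℂ) (l : Fin n → ℝ) (ε : ℝ) (w : Fin n → ℂ)
    (ω : ℕ → Fin n) (x : ℝ) : Prop :=
  ∃ t : ℕ, (t : ℝ) ≤ x ∧ qf l (path (stp U l) w ω t) ≤ ε * qf l w

lemma rcd_between {n : ℕ} {U : Fin n → Fin n → ℂ} {l : Fin n → ℝ} (ha : ∀ i, 0 < aa U l i)
    {ε : ℝ} {w : Fin n → ℂ} {ω : ℕ → Fin n} {x y : ℝ}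
    (h1 : rcdLow U l ε w ω x) (h2 : rcdUp U l ε w ω y) :
    ∃ m : ℕ, trcd U l ε w ω = m ∧ x ≤ m ∧ (m : ℝ) ≤ y := by
  obtain ⟨t, ht, hlow⟩ := h1
  obtain ⟨s, hs, hup⟩ := h2
  have h3 : ((t + 1 : ℕ) : ℕ∞) ≤ trcd U l ε w ω := lt_trcd ha hlow
  have h4 : trcd U l ε w ω ≤ s := trcd_le hup
  obtain ⟨m, hm⟩ : ∃ m : ℕ, trcd U l ε w ω = m := by
    have : trcd U l ε w ω ≠ ⊤ := ne_top_of_le_ne_top (ENat.natCast_ne_top s) h4
    exact ⟨(trcd U l ε w ω).toNat, (ENat.natCast_toNat this).symm⟩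
  rw [hm] at h3 h4
  have h5 : t + 1 ≤ m := by exact_mod_cast h3
  have h6 : m ≤ s := by exact_mod_cast h4
  refine ⟨m, hm, ?_, ?_⟩
  · have : ((t + 1 : ℕ) : ℝ) ≤ m := by exact_mod_cast h5
    push_cast at this
    linarith
  · have : (m : ℝ) ≤ s := by exact_mod_cast h6
    linarith

lemma REv.pr {p ε : ℝ} {x y : ℕ → ℝ} {δ : ℝ} (hδ : 0 ≤ δ)
    (h : REv p (fun n U w ω => rcdLow U (lam p) ε w ω (x n) ∧ rcdUp U (lam p) ε w ω (y n)) δ) :
    ∀ᶠ n : ℕ in atTop, ENNReal.ofReal (1 - 3 * δ) ≤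
      PrRCD p ε n {T | ∃ m : ℕ, T = m ∧ x n ≤ m ∧ (m : ℝ) ≤ y n} := by
  unfold REv at h
  filter_upwards [h, eventually_ge_atTop 1] with n hn hn1
  obtain ⟨GU, G, a1, a2, a3⟩ := hn
  refine (one_sub_ofReal (by positivity)).trans ?_
  have h1 := rcd_pr p ε hn1 {T | ∃ m : ℕ, T = m ∧ x n ≤ m ∧ (m : ℝ) ≤ y n} GU G a1 a2
    (δ₃ := ENNReal.ofReal δ) (by
      intro U hU w hw hr μ hμ hpp
      refine le_trans (measure_mono ?_) (a3 U hU w hw hr μ hμ hpp)
      intro ω hω hE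
      exact hω (rcd_between (fun i => aa_pos (fun k => lam_pos p k) U i) hE.1 hE.2))
  refine le_trans (le_of_eq ?_) h1
  rw [← ENNReal.ofReal_add hδ hδ, ← ENNReal.ofReal_add (by positivity) hδ]
  congr 2
  ring

lemma rcd_theta {p ε : ℝ} {a : ℕ → ℝ}
    (hlow : ∀ δ : ℝ, 0 < δ → ∃ c : ℝ, 0 < c ∧
      REv p (fun n U w ω => rcdLow U (lam p) ε w ω (c * a n)) δ)
    (hup : ∀ δ : ℝ, 0 < δ → ∃ C : ℝ, 0 < C ∧
      REv p (fun n U w ω => rcdUp U (lam p) ε w ω (C * a n)) δ) :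
    ThetaP (PrRCD p ε) a := by
  intro δ hδ
  obtain ⟨c, hc, h1⟩ := hlow (δ / 6) (by positivity)
  obtain ⟨C, hC, h2⟩ := hup (δ / 6) (by positivity)
  refine ⟨c, C, hc, hC, ?_⟩
  have h3 := REv.pr (by positivity) (REv.and (by positivity) (by positivity) h1 h2)
  have e : 1 - 3 * (δ / 6 + δ / 6) = 1 - δ := by ring
  rw [e] at h3
  exact h3

lemma rcd_exponent {p ε θ : ℝ}
    (hlow : ∀ δ' : ℝ, 0 < δ' → ∀ δ : ℝ, 0 < δ →
      REv p (fun n U w ω => rcdLow U (lam p) ε w ω ((n : ℝ) ^ (θ - δ'))) δ)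
    (hup : ∀ δ' : ℝ, 0 < δ' → ∀ δ : ℝ, 0 < δ →
      REv p (fun n U w ω => rcdUp U (lam p) ε w ω ((n : ℝ) ^ (θ + δ'))) δ) :
    ExponentP (PrRCD p ε) θ := by
  intro δ' hδ'
  rw [tendsto_order]
  constructor
  · intro b hb
    have hb' : b ≠ ⊤ := (hb.trans ENNReal.one_lt_top).ne
    have hb1 : b.toReal < 1 := by
      rw [← ENNReal.toReal_one]
      exact (ENNReal.toReal_lt_toReal hb' ENNReal.one_ne_top).2 hb
    set δ := (1 - b.toReal) / 12 with hδdef
    have hδ : 0 < δ := by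
      rw [hδdef]
      linarith
    have h3 := REv.pr (by positivity) (REv.and hδ.le hδ.le (hlow δ' hδ' δ hδ) (hup δ' hδ' δ hδ))
    filter_upwards [h3] with n h4
    refine lt_of_lt_of_le ?_ h4
    rw [ENNReal.lt_ofReal_iff_toReal_lt hb']
    rw [hδdef]
    linarith
  · intro b hb
    filter_upwards [eventually_ge_atTop 1] with n hn1
    exact (Pr_le_one p ε hn1 _).trans_lt hb

lemma qf_pos {n : ℕ} {l : Fin n → ℝ} (hl : ∀ k, 0 < l k) {w : Fin n → ℂ} (hw : w ≠ 0) :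
    0 < qf l w := by
  obtain ⟨k, hk⟩ := Function.ne_iff.1 hw
  refine lt_of_lt_of_le (mul_pos (hl k) (pow_pos (norm_pos_iff.2 hk) 2)) ?_
  exact Finset.single_le_sum (f := fun k => l k * ‖w k‖ ^ 2)
    (fun k _ => mul_nonneg (hl k).le (sq_nonneg _)) (Finset.mem_univ k)

/-- one step is necessary -/
lemma rcd_low_one {p ε : ℝ} (hε : ε < 1) (δ : ℝ) :
    REv p (fun _ U w ω => rcdLow U (lam p) ε w ω 1) δ := by
  unfold REv
  filter_upwards with n
  refine ⟨Set.univ, Set.univ, by simp, by simp, ?_⟩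
  intro U _ w hw _ μ _ _
  have : {ω : ℕ → Fin n | ¬ rcdLow (um U) (lam p) ε w ω 1} = ∅ := by
    ext ω
    simp only [Set.mem_ofPred_eq, Set.mem_empty_iff_false, iff_false, not_not]
    refine ⟨0, by simp, ?_⟩
    simp only [path]
    have := qf_pos (fun k => lam_pos p k) hw
    nlinarith
  rw [this, measure_empty]
  exact zero_le

lemma lam_ge {p : ℝ} (hp : 0 ≤ p) {n : ℕ} (k : Fin n) : (n : ℝ) ^ (-p) ≤ lam p k := by
  unfold lam
  have h1 : ((k : ℕ) : ℝ) + 1 ≤ n := by exact_mod_cast k.2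
  exact Real.rpow_le_rpow_of_nonpos (by positivity) h1 (by linarith)

lemma sum_lam_le {p : ℝ} (hp0 : 0 < p) (hp : p < 1) (n : ℕ) :
    ∑ k : Fin n, lam p k ≤ (n : ℝ) ^ (1 - p) / (1 - p) := by
  have := aux_head_sum hp0 hp n
  rw [← Fin.sum_univ_eq_sum_range (fun i => ((i : ℝ) + 1) ^ (-p)) n] at this
  exact this

/-- RCD, `p < 1`, upper bound -/
lemma rcd_lt_up {p ε : ℝ} (hp : 0 < p) (hp1 : p < 1) (hε : 0 < ε) {δ : ℝ} (hδ : 0 < δ) :
    ∃ C : ℝ, 0 < C ∧ REv p (fun n U w ω => rcdUp U (lam p) ε w ω (C * n)) δ := by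
  have hp1' : 0 < 1 - p := by linarith
  set C := 1 + |Real.log (ε * δ)| / (1 - p) with hC
  have hC0 : 0 < C := by positivity
  refine ⟨C, hC0, ?_⟩
  unfold REv
  filter_upwards [eventually_ge_atTop 1] with n hn
  refine ⟨Set.univ, Set.univ, by simp, by simp, ?_⟩
  intro U _ w hw _ μ hμ hpp
  have hn0 : (0 : ℝ) < n := by exact_mod_cast hn
  set t := ⌊C * n⌋₊ with ht
  have hE0 := qf_pos (fun k => lam_pos p k) hw
  have hL := sum_lam_pos p hn
  have h1 := path_markov (Inv := fun _ => True) μ (st := stp (um U) (lam p))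
    (fun _ _ _ => trivial) t (qf (lam p)) (fun s _ => qf_nonneg (fun k => (lam_pos p k).le) s)
    w trivial (c := ε * qf (lam p) w) (by positivity)
  rw [hpp] at h1
  have hmle : ∀ k : Fin n, (n : ℝ) ^ (-p) ≤ lam p k := fun k => lam_ge hp.le k
  have hmL : (n : ℝ) ^ (-p) ≤ ∑ k : Fin n, lam p k := by
    have k0 : Fin n := ⟨0, hn⟩
    exact (hmle k0).trans (Finset.single_le_sum (fun k _ => (lam_pos p k).le)
      (Finset.mem_univ k0))
  have h2 := mean_upper (um_colOrth U) (fun i => aa_pos (fun k => lam_pos p k) U i)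
    (fun k => (lam_pos p k).le) hL hmle hmL t w
  refine le_trans (measure_mono ?_) (h1.trans (ENNReal.ofReal_le_ofReal ?_))
  · intro ω hω
    simp only [Set.mem_ofPred_eq] at hω ⊢
    by_contra h
    push Not at h
    exact hω ⟨t, Nat.floor_le (by positivity), h.le⟩
  · set x := (n : ℝ) ^ (-p) / ∑ k : Fin n, lam p k with hx
    have hx1 : x ≤ 1 := (div_le_one hL).2 hmL
    have hx2 : (1 - p) / n ≤ x := by
      rw [hx, div_le_div_iff₀ hn0 hL]
      have h3 := sum_lam_le hp hp1 n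
      calc (1 - p) * ∑ k : Fin n, lam p k ≤ (1 - p) * ((n : ℝ) ^ (1 - p) / (1 - p)) :=
            mul_le_mul_of_nonneg_left h3 hp1'.le
        _ = (n : ℝ) ^ (1 - p) := by field_simp
        _ = (n : ℝ) ^ (-p) * n := by
            rw [← Real.rpow_add_one hn0.ne']
            congr 1
            ring
    have h4 : (1 - x) ^ t ≤ ε * δ := by
      have h5 : 1 - x ≤ Real.exp (-x) := Real.one_sub_le_exp_neg x
      calc (1 - x) ^ t ≤ (Real.exp (-x)) ^ t := pow_le_pow_left₀ (by linarith) h5 t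
        _ = Real.exp (-(t * x)) := by
            rw [← Real.exp_nat_mul]
            congr 1
            ring
        _ ≤ Real.exp (Real.log (ε * δ)) := by
            apply Real.exp_le_exp.2
            have h6 : (C * n - 1) * ((1 - p) / n) ≤ t * x := by
              have h7 : C * n - 1 ≤ t := by
                have := Nat.lt_floor_add_one (C * n)
                rw [← ht] at this
                linarith
              have h8 : 0 ≤ (1 - p) / n := by positivity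
              calc (C * n - 1) * ((1 - p) / n) ≤ t * ((1 - p) / n) :=
                    mul_le_mul_of_nonneg_right h7 h8
                _ ≤ t * x := mul_le_mul_of_nonneg_left hx2 (Nat.cast_nonneg t)
            have h9 : (C * n - 1) * ((1 - p) / n) = C * (1 - p) - (1 - p) / n := by
              field_simp
            have h10 : (1 - p) / n ≤ 1 - p := div_le_self hp1'.le (by exact_mod_cast hn)
            have h11 : C * (1 - p) = (1 - p) + |Real.log (ε * δ)| := by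
              rw [hC]
              field_simp
            have h12 := neg_abs_le (Real.log (ε * δ))
            linarith
        _ = ε * δ := Real.exp_log (by positivity)
    have h5 : EX (pp (um U) (lam p)) (stp (um U) (lam p)) t (qf (lam p)) w
        ≤ ε * δ * qf (lam p) w := h2.trans (mul_le_mul_of_nonneg_right h4 hE0.le)
    rw [div_le_iff₀ (by positivity)]
    linarith

/-- RCD, `p < 1`, lower bound -/
lemma rcd_lt_low {p ε : ℝ} (hp : 0 < p) (hp1 : p < 1) (hε1 : ε < 1) {δ : ℝ} (hδ : 0 < δ) :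
    ∃ c : ℝ, 0 < c ∧ REv p (fun n U w ω => rcdLow U (lam p) ε w ω (c * n)) δ := by
  have h1ε : 0 < 1 - ε := by linarith
  set η := δ * (1 - ε) / 2 with hη
  have hη0 : 0 < η := by positivity
  obtain ⟨κ, hκ0, hκ1, hev⟩ := ev_head hp hp1 hη0 hδ
  set c := δ * (1 - ε) * κ ^ p / 4 with hc
  have hκp : 0 < κ ^ p := Real.rpow_pos_of_pos hκ0 p
  have hc0 : 0 < c := by positivity
  refine ⟨c, hc0, ?_⟩
  unfold REv
  filter_upwards [eventually_ge_atTop 1, hev] with n hn hev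
  refine ⟨Set.univ, {ξ | ∑ k : Fin n, (if (k : ℝ) + 1 ≤ κ * n then ((k : ℝ) + 1) ^ (-p) else 0)
    * ξ k ≤ η * ∑ k : Fin n, ((k : ℝ) + 1) ^ (-p) * ξ k}, by simp, hev, ?_⟩
  rintro U - w hw ⟨r, hr, hG⟩ μ hμ hpp
  have hn0 : (0 : ℝ) < n := by exact_mod_cast hn
  set t := ⌊c * n⌋₊ with ht
  have hE0 := qf_pos (fun k => lam_pos p k) hw
  have hL := sum_lam_pos p hn
  set L := ∑ k : Fin n, lam p k with hLdef
  have ha : ∀ i, 0 < aa (um U) (lam p) i := fun i => aa_pos (fun k => lam_pos p k) U i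
  have hl0 : ∀ k : Fin n, 0 ≤ lam p k := fun k => (lam_pos p k).le
  have h1 := path_markov (Inv := fun s => qf (lam p) s ≤ qf (lam p) w) μ
    (st := stp (um U) (lam p))
    (fun s i hs => (qf_stp_le s (ha i)).trans hs) t
    (fun s => qf (lam p) w + (-1) * qf (lam p) s) (fun s hs => by linarith)
    w le_rfl (c := (1 - ε) * qf (lam p) w) (by positivity)
  rw [hpp, EX_add, EX_mul, EX_const (sum_pp (um_colOrth U) hL)] at h1
  have h2 := mean_lower (um_colOrth U) ha hl0 hL t (lam p) hl0 w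
  -- the loss of energy
  have h3 : qf (lam p) w - EX (pp (um U) (lam p)) (stp (um U) (lam p)) t (qf (lam p)) w
      ≤ (η + 2 * t * ((κ * n) ^ (-p) / L)) * qf (lam p) w := by
    have h4 : qf (lam p) w - qf (fun k => lam p k * (1 - lam p k / L) ^ (2 * t)) w
        ≤ ∑ k : Fin n, ((if (k : ℝ) + 1 ≤ κ * n then ((k : ℝ) + 1) ^ (-p) else 0) * ‖w k‖ ^ 2
          + 2 * t * ((κ * n) ^ (-p) / L) * (lam p k * ‖w k‖ ^ 2)) := by
      unfold qf
      rw [← Finset.sum_sub_distrib]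
      apply Finset.sum_le_sum
      intro k _
      have hk0 : (0 : ℝ) < (k : ℝ) + 1 := by positivity
      have hxk1 : lam p k / L ≤ 1 := by
        rw [div_le_one hL]
        exact Finset.single_le_sum (fun k _ => hl0 k) (Finset.mem_univ k)
      have hxk0 : 0 ≤ lam p k / L := div_nonneg (hl0 k) hL.le
      have hw2 : 0 ≤ ‖w k‖ ^ 2 := sq_nonneg _
      by_cases h : (k : ℝ) + 1 ≤ κ * n
      · rw [if_pos h]
        have h5 : 0 ≤ lam p k * (1 - lam p k / L) ^ (2 * t) * ‖w k‖ ^ 2 := by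
          have : 0 ≤ 1 - lam p k / L := by linarith
          have := hl0 k
          positivity
        have h6 : 0 ≤ 2 * t * ((κ * n) ^ (-p) / L) * (lam p k * ‖w k‖ ^ 2) := by
          have := hl0 k
          positivity
        unfold lam at *
        linarith
      · rw [if_neg h]
        push Not at h
        have h7 : lam p k ≤ (κ * n) ^ (-p) := by
          unfold lam
          exact Real.rpow_le_rpow_of_nonpos (by positivity) h.le (by linarith)
        have h8 : 1 - (2 * t : ℕ) * (lam p k / L) ≤ (1 - lam p k / L) ^ (2 * t) := by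
          have := one_add_mul_le_pow (a := -(lam p k / L)) (by linarith) (2 * t)
          rw [← sub_eq_add_neg] at this
          linarith
        push_cast at h8
        have h9 : 1 - 2 * t * ((κ * n) ^ (-p) / L) ≤ (1 - lam p k / L) ^ (2 * t) := by
          have h10 : lam p k / L ≤ (κ * n) ^ (-p) / L := by gcongr
          have h11 : (2 : ℝ) * t * (lam p k / L) ≤ 2 * t * ((κ * n) ^ (-p) / L) :=
            mul_le_mul_of_nonneg_left h10 (by positivity)
          linarith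
        have h12 := mul_le_mul_of_nonneg_left h9 (mul_nonneg (hl0 k) hw2)
        linarith
    rw [Finset.sum_add_distrib, ← Finset.mul_sum] at h4
    have h5 : ∑ k : Fin n, (if (k : ℝ) + 1 ≤ κ * n then ((k : ℝ) + 1) ^ (-p) else 0) * ‖w k‖ ^ 2
        ≤ η * qf (lam p) w := by
      have h6 : ∑ k : Fin n, (if (k : ℝ) + 1 ≤ κ * n then ((k : ℝ) + 1) ^ (-p) else 0)
          * (r * ‖w k‖ ^ 2) ≤ η * ∑ k : Fin n, ((k : ℝ) + 1) ^ (-p) * (r * ‖w k‖ ^ 2) := hG
      have e1 : ∑ k : Fin n, (if (k : ℝ) + 1 ≤ κ * n then ((k : ℝ) + 1) ^ (-p) else 0)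
          * (r * ‖w k‖ ^ 2) = r * ∑ k : Fin n,
            (if (k : ℝ) + 1 ≤ κ * n then ((k : ℝ) + 1) ^ (-p) else 0) * ‖w k‖ ^ 2 := by
        rw [Finset.mul_sum]
        exact Finset.sum_congr rfl fun k _ => by ring
      have e2 : ∑ k : Fin n, ((k : ℝ) + 1) ^ (-p) * (r * ‖w k‖ ^ 2) = r * qf (lam p) w := by
        unfold qf lam
        rw [Finset.mul_sum]
        exact Finset.sum_congr rfl fun k _ => by ring
      rw [e1, e2] at h6
      have h7 : r * ∑ k : Fin n, (if (k : ℝ) + 1 ≤ κ * n then ((k : ℝ) + 1) ^ (-p) else 0)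
          * ‖w k‖ ^ 2 ≤ r * (η * qf (lam p) w) := by linarith
      exact le_of_mul_le_mul_left h7 hr
    have h6 : ∑ k : Fin n, lam p k * ‖w k‖ ^ 2 = qf (lam p) w := rfl
    rw [h6] at h4
    linarith
  have h4 : 2 * t * ((κ * n) ^ (-p) / L) ≤ δ * (1 - ε) / 2 := by
    have h5 : (t : ℝ) ≤ c * n := Nat.floor_le (by positivity)
    have h6 : (n : ℝ) ^ (1 - p) ≤ L := by
      have h7 : ∑ _k : Fin n, (n : ℝ) ^ (-p) ≤ L := Finset.sum_le_sum fun k _ => lam_ge hp.le k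
      rw [Finset.sum_const, Finset.card_univ, Fintype.card_fin, nsmul_eq_mul] at h7
      have h8 : (n : ℝ) * (n : ℝ) ^ (-p) = (n : ℝ) ^ (1 - p) := by
        rw [mul_comm, ← Real.rpow_add_one hn0.ne']
        congr 1
        ring
      rwa [h8] at h7
    have hnp : 0 < (n : ℝ) ^ (1 - p) := Real.rpow_pos_of_pos hn0 _
    have h7 : (κ * n) ^ (-p) / L ≤ (κ ^ p)⁻¹ / n := by
      rw [Real.mul_rpow hκ0.le hn0.le, Real.rpow_neg hκ0.le]
      calc (κ ^ p)⁻¹ * (n : ℝ) ^ (-p) / L ≤ (κ ^ p)⁻¹ * (n : ℝ) ^ (-p) / (n : ℝ) ^ (1 - p) := by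
            gcongr
        _ = (κ ^ p)⁻¹ * ((n : ℝ) ^ (-p) / (n : ℝ) ^ (1 - p)) := by ring
        _ = (κ ^ p)⁻¹ / n := by
            rw [← Real.rpow_sub hn0]
            have : -p - (1 - p) = -1 := by ring
            rw [this, Real.rpow_neg_one, div_eq_mul_inv]
    calc 2 * t * ((κ * n) ^ (-p) / L) ≤ 2 * (c * n) * ((κ ^ p)⁻¹ / n) := by
          have : 0 ≤ (κ * n) ^ (-p) / L := by positivity
          gcongr
      _ = δ * (1 - ε) / 2 := by
          rw [hc]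
          field_simp
          ring
  refine le_trans (measure_mono ?_) (h1.trans (ENNReal.ofReal_le_ofReal ?_))
  · intro ω hω
    simp only [Set.mem_ofPred_eq] at hω ⊢
    by_contra h
    push Not at h
    apply hω
    refine ⟨t, (Nat.lt_floor_add_one _).le, by linarith⟩
  · rw [div_le_iff₀ (by positivity)]
    have h5 : (η + 2 * t * ((κ * n) ^ (-p) / L)) * qf (lam p) w
        ≤ (δ * (1 - ε)) * qf (lam p) w := by
      apply mul_le_mul_of_nonneg_right _ hE0.le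
      rw [hη]
      linarith
    linarith

/-- RCD, `p < 1` -/
lemma rcd_lt {p ε : ℝ} (hp : 0 < p) (hp1 : p < 1) (hε : 0 < ε) (hε1 : ε < 1) :
    ThetaP (PrRCD p ε) (fun n => (n : ℝ)) :=
  rcd_theta (fun _ hδ => rcd_lt_low hp hp1 hε1 hδ) (fun _ hδ => rcd_lt_up hp hp1 hε hδ)

/-- RCD, `p > 1`, upper bound -/
lemma rcd_gt_up {p ε : ℝ} (hp : 1 < p) (hε : 0 < ε) {δ : ℝ} (hδ : 0 < δ) :
    ∃ C : ℝ, 0 < C ∧ REv p (fun _ U w ω => rcdUp U (lam p) ε w ω (C * 1)) δ := by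
  set η := ε * δ / 4 with hη
  have hη0 : 0 < η := by positivity
  obtain ⟨C₁, hC₁, hrows⟩ := rows_gt hp hη0
  obtain ⟨K₁, hK₁⟩ := ev_tail hp hη0 hδ
  set Z := p / (p - 1) with hZ
  have hp1 : 0 < p - 1 := by linarith
  have hZ0 : 0 < Z := by positivity
  -- the choice of K
  obtain ⟨K₂, hK₂⟩ := exists_nat_gt (C₁ / δ)
  obtain ⟨K₃, hK₃⟩ := exists_nat_gt ((Z / η + 1) / η)
  set K := max (max K₁ 1) (max K₂ K₃) with hK
  have hKK₁ : K₁ ≤ K := (le_max_left _ _).trans (le_max_left _ _)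
  have hK1 : 1 ≤ K := (le_max_right _ _).trans (le_max_left _ _)
  have hKK₂ : K₂ ≤ K := (le_max_left _ _).trans (le_max_right _ _)
  have hKK₃ : K₃ ≤ K := (le_max_right _ _).trans (le_max_right _ _)
  have hKpos : (0 : ℝ) < K := by exact_mod_cast hK1
  have hK1' : (1 : ℝ) ≤ K := by exact_mod_cast hK1
  set T := ⌈Z * (K : ℝ) ^ p / η⌉₊ with hT
  have hKp : 0 < (K : ℝ) ^ p := Real.rpow_pos_of_pos hKpos p
  have hKp1 : 1 ≤ (K : ℝ) ^ p := Real.one_le_rpow hK1' (by linarith)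
  have hT1 : 1 ≤ T := Nat.ceil_pos.2 (by positivity)
  have hTlow : Z * (K : ℝ) ^ p / η ≤ T := Nat.le_ceil _
  have hTup : (T : ℝ) ≤ (Z / η + 1) * (K : ℝ) ^ p := by
    have := (Nat.ceil_lt_add_one (show 0 ≤ Z * (K : ℝ) ^ p / η by positivity)).le
    rw [← hT] at this
    have e : (Z / η + 1) * (K : ℝ) ^ p = Z * (K : ℝ) ^ p / η + (K : ℝ) ^ p := by ring
    rw [e]
    linarith
  refine ⟨T, by exact_mod_cast hT1, ?_⟩
  unfold REv
  filter_upwards [eventually_ge_atTop 1, hrows K hK1] with n hn hrow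
  refine ⟨{U | ∃ Bad : Finset (Fin n),
        (∀ i, i ∉ Bad → aa (um U) (tl (lam p) K) i ≤ η * aa (um U) (lam p) i) ∧
        (∑ i ∈ Bad, aa (um U) (lam p) i) / (∑ k : Fin n, lam p k) ≤ (K : ℝ) ^ (-(p + 1))},
    {ξ | ∑ k : Fin n, (if K₁ ≤ (k : ℕ) then ((k : ℝ) + 1) ^ (-p) else 0) * ξ k
        ≤ η * ∑ k : Fin n, ((k : ℝ) + 1) ^ (-p) * ξ k}, ?_, hK₁ n, ?_⟩
  · refine le_trans hrow (ENNReal.ofReal_le_ofReal ?_)
    rw [div_le_iff₀ hKpos]
    rw [div_lt_iff₀ hδ] at hK₂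
    have : (K₂ : ℝ) ≤ K := by exact_mod_cast hKK₂
    nlinarith
  · rintro U ⟨Bad, hgood, hbad⟩ w hw ⟨r, hr, hG⟩ μ hμ hpp
    have hE0 := qf_pos (fun k => lam_pos p k) hw
    have hL := sum_lam_pos p hn
    have ha : ∀ i, 0 < aa (um U) (lam p) i := fun i => aa_pos (fun k => lam_pos p k) U i
    have hl0 : ∀ k : Fin n, 0 ≤ lam p k := fun k => (lam_pos p k).le
    have h1 := path_markov (Inv := fun _ => True) μ (st := stp (um U) (lam p))
      (fun _ _ _ => trivial) T (qf (lam p)) (fun s _ => qf_nonneg hl0 s)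
      w trivial (c := ε * qf (lam p) w) (by positivity)
    rw [hpp] at h1
    have hκ : ∀ k : Fin n, (k : ℕ) < K → (K : ℝ) ^ (-p) ≤ lam p k := by
      intro k hk
      unfold lam
      have : ((k : ℕ) : ℝ) + 1 ≤ K := by exact_mod_cast hk
      exact Real.rpow_le_rpow_of_nonpos (by positivity) this (by linarith)
    have h2 := mean_gt (um_colOrth U) ha hl0 hL (K := K) (κ := (K : ℝ) ^ (-p)) (ρ := η)
      (τ := (K : ℝ) ^ (-(p + 1))) (Real.rpow_pos_of_pos hKpos _) hη0.le hκ Bad hgood hbad w T hT1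
    have h3 : qf (tl (lam p) K) w ≤ η * qf (lam p) w := by
      have e0 : qf (tl (lam p) K) w ≤ qf (tl (lam p) K₁) w := by
        apply qf_mono
        intro k
        unfold tl
        by_cases h : K ≤ (k : ℕ)
        · rw [if_pos h, if_pos (hKK₁.trans h)]
        · rw [if_neg h]
          split_ifs
          · exact hl0 k
          · exact le_rfl
      refine e0.trans ?_
      have h6 : ∑ k : Fin n, (if K₁ ≤ (k : ℕ) then ((k : ℝ) + 1) ^ (-p) else 0)
          * (r * ‖w k‖ ^ 2) ≤ η * ∑ k : Fin n, ((k : ℝ) + 1) ^ (-p) * (r * ‖w k‖ ^ 2) := hG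
      have e1 : ∑ k : Fin n, (if K₁ ≤ (k : ℕ) then ((k : ℝ) + 1) ^ (-p) else 0)
          * (r * ‖w k‖ ^ 2) = r * qf (tl (lam p) K₁) w := by
        unfold qf tl lam
        rw [Finset.mul_sum]
        exact Finset.sum_congr rfl fun k _ => by ring
      have e2 : ∑ k : Fin n, ((k : ℝ) + 1) ^ (-p) * (r * ‖w k‖ ^ 2) = r * qf (lam p) w := by
        unfold qf lam
        rw [Finset.mul_sum]
        exact Finset.sum_congr rfl fun k _ => by ring
      rw [e1, e2] at h6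
      have h7 : r * qf (tl (lam p) K₁) w ≤ r * (η * qf (lam p) w) := by linarith
      exact le_of_mul_le_mul_left h7 hr
    have hLZ := tot_sum hp n
    have h4 : (∑ k : Fin n, lam p k) / ((K : ℝ) ^ (-p) * T) ≤ η := by
      have hTpos : (0 : ℝ) < T := by exact_mod_cast hT1
      rw [Real.rpow_neg hKpos.le, div_le_iff₀ (by positivity)]
      rw [div_le_iff₀ hη0] at hTlow
      have h5 : Z ≤ T * η / (K : ℝ) ^ p := by
        rw [le_div_iff₀ hKp]
        exact hTlow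
      calc ∑ k : Fin n, lam p k ≤ Z := hLZ
        _ ≤ T * η / (K : ℝ) ^ p := h5
        _ = η * (((K : ℝ) ^ p)⁻¹ * T) := by
            rw [div_eq_mul_inv]
            ring
    have h5 : (T : ℝ) * (K : ℝ) ^ (-(p + 1)) ≤ η := by
      have e3 : (K : ℝ) ^ (-(p + 1)) = ((K : ℝ) ^ p)⁻¹ * (K : ℝ)⁻¹ := by
        rw [neg_add, Real.rpow_add hKpos, Real.rpow_neg hKpos.le, Real.rpow_neg_one]
      rw [e3]
      calc (T : ℝ) * (((K : ℝ) ^ p)⁻¹ * (K : ℝ)⁻¹)
          ≤ ((Z / η + 1) * (K : ℝ) ^ p) * (((K : ℝ) ^ p)⁻¹ * (K : ℝ)⁻¹) := by gcongr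
        _ = (Z / η + 1) / K := by
            field_simp
        _ ≤ η := by
            rw [div_le_iff₀ hKpos]
            rw [div_lt_iff₀ hη0] at hK₃
            have : (K₃ : ℝ) ≤ K := by exact_mod_cast hKK₃
            nlinarith
    refine le_trans (measure_mono ?_) (h1.trans (ENNReal.ofReal_le_ofReal ?_))
    · intro ω hω
      simp only [Set.mem_ofPred_eq] at hω ⊢
      by_contra h
      push Not at h
      exact hω ⟨T, by rw [mul_one], h.le⟩
    · rw [div_le_iff₀ (by positivity)]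
      have h6 : ((∑ k : Fin n, lam p k) / ((K : ℝ) ^ (-p) * T) + η
          + T * (K : ℝ) ^ (-(p + 1))) * qf (lam p) w ≤ (3 * η) * qf (lam p) w := by
        apply mul_le_mul_of_nonneg_right _ hE0.le
        linarith
      calc _ ≤ (3 * η) * qf (lam p) w + η * qf (lam p) w := h2.trans (add_le_add h6 h3)
        _ = δ * (ε * qf (lam p) w) := by
            rw [hη]
            ring

/-- RCD, `p > 1` -/
lemma rcd_gt {p ε : ℝ} (hp : 1 < p) (hε : 0 < ε) (hε1 : ε < 1) :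
    ThetaP (PrRCD p ε) (fun _ => 1) :=
  rcd_theta (fun δ _ => ⟨1, one_pos, by
    simp only [mul_one]
    exact rcd_low_one hε1 δ⟩) (fun _ hδ => rcd_gt_up hp hε hδ)

end Pool.Agent.Helper579.Cg
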