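import Mathlib
import Pool.Agent.Helper579.CgRcd3

set_option autoImplicit false

namespace Pool.Agent.Helper579.Cg

open scoped ComplexConjugate




variable {n : ℕ}


variable {U : Fin n → Fin n → ℂ} {l : Fin n → ℝ}

lemma var_le (p X : Fin n → ℝ) (G : ℝ) (h1 : ∑ i, p i = 1) (h2 : ∑ i, p i * X i = -G) :
    ∑ i, p i * (X i + G) ^ 2 ≤ ∑ i, p i * X i ^ 2 := by
  have : ∑ i, p i * (X i + G) ^ 2 = ∑ i, p i * X i ^ 2 + 2 * G * ∑ i, p i * X i
      + G ^ 2 * ∑ i, p i := by
    rw [Finset.mul_sum, Finset.mul_sum, ← Finset.sum_add_distrib, ← Finset.sum_add_distrib]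
    exact Finset.sum_congr rfl fun i _ => by ring
  rw [this, h1, h2]
  nlinarith [sq_nonneg G]

/-- TARGET: conditional variance of the energy -/
lemma qv_self (hU : ColOrth U) (ha : ∀ i, 0 < aa U l i) (hl : ∀ k, 0 ≤ l k)
    (hL : 0 < ∑ k, l k) {η E0 : ℝ} (hη : 0 ≤ η) (v : Fin n → ℂ) (hv : qf l v ≤ E0) :
    ∑ i, pp U l i * (qf l (stp U l v i) - qf l v + qf (fun k => l k ^ 2) v / ∑ k, l k) ^ 2
      ≤ 10 * E0 * (η * qf (fun k => l k ^ 2) v + Hv U l (η * E0) v) / ∑ k, l k := by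
  set L := ∑ k, l k with hLdef
  have hE0 : 0 ≤ E0 := (qf_nonneg hl v).trans hv
  have hp1 : ∑ i, pp U l i = 1 := sum_pp hU hL
  have hmean : ∑ i, pp U l i * (qf l (stp U l v i) - qf l v) = -(qf (fun k => l k ^ 2) v / L) := by
    have h1 := step_mean_self hU ha hL v hLdef.symm
    have h2 : ∑ i, pp U l i * (qf l (stp U l v i) - qf l v) =
        ∑ i, aa U l i / L * qf l (stp U l v i) - (∑ i, pp U l i) * qf l v := by
      rw [Finset.sum_mul, ← Finset.sum_sub_distrib]
      exact Finset.sum_congr rfl fun i _ => by rw [pp, ← hLdef]; ring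
    rw [h2, h1, hp1]; ring
  refine (var_le _ _ _ hp1 hmean).trans ?_
  have hterm : ∀ i, pp U l i * (qf l (stp U l v i) - qf l v) ^ 2 ≤
      E0 * (η * ‖rr U l v i‖ ^ 2 +
        (if η * E0 * aa U l i < ‖rr U l v i‖ ^ 2 then ‖rr U l v i‖ ^ 2 else 0)) / L := by
    intro i
    have hai := ha i
    rw [qf_stp_self v hai, pp, ← hLdef]
    have hR0 : 0 ≤ ‖rr U l v i‖ ^ 2 := by positivity
    set Ri := ‖rr U l v i‖ ^ 2 with hRi
    have h1 : aa U l i / L * (qf l v - Ri / aa U l i - qf l v) ^ 2 = (Ri ^ 2 / aa U l i) / L := by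
      field_simp
      ring
    rw [h1]
    apply div_le_div_of_nonneg_right _ hL.le
    rw [div_le_iff₀ hai]
    split_ifs with hh
    · have hcs := rr_cs hl v i (U := U)
      rw [← hRi] at hcs
      have h2 : Ri ≤ aa U l i * E0 := hcs.trans (mul_le_mul_of_nonneg_left hv hai.le)
      have h3 : Ri * Ri ≤ Ri * (aa U l i * E0) := mul_le_mul_of_nonneg_left h2 hR0
      have h4 : 0 ≤ E0 * (η * Ri) * aa U l i := by positivity
      linarith
    · push Not at hh
      have h3 : Ri * Ri ≤ Ri * (η * E0 * aa U l i) := mul_le_mul_of_nonneg_left hh hR0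
      linarith
  refine (Finset.sum_le_sum fun i _ => hterm i).trans ?_
  rw [← Finset.sum_div]
  apply div_le_div_of_nonneg_right _ hL.le
  rw [← Finset.mul_sum, Finset.sum_add_distrib, ← Finset.mul_sum, sum_rr_sq hU]
  have hHv : (∑ i, if η * E0 * aa U l i < ‖rr U l v i‖ ^ 2 then ‖rr U l v i‖ ^ 2 else 0)
      = Hv U l (η * E0) v := rfl
  rw [hHv]
  have hHv0 : 0 ≤ Hv U l (η * E0) v := by
    unfold Hv
    refine Finset.sum_nonneg fun i _ => ?_
    split_ifs <;> positivity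
  have hq0 : 0 ≤ qf (fun k => l k ^ 2) v := qf_nonneg (fun k => by positivity) v
  have : 0 ≤ E0 * (η * qf (fun k => l k ^ 2) v + Hv U l (η * E0) v) := by positivity
  linarith

lemma qv_tl_nonneg (hl : ∀ k, 0 ≤ l k) (K : ℕ) (k : Fin n) : 0 ≤ tl l K k := by
  unfold tl; split_ifs <;> [exact hl k; exact le_rfl]

lemma qv_tl_le (hl : ∀ k, 0 ≤ l k) (K : ℕ) (k : Fin n) : tl l K k ≤ l k := by
  unfold tl; split_ifs <;> [exact le_rfl; exact hl k]

/-- TARGET: conditional variance of a tail energy -/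
lemma qv_tail (hU : ColOrth U) (ha : ∀ i, 0 < aa U l i) (hl : ∀ k, 0 ≤ l k)
    (hL : 0 < ∑ k, l k) (K : ℕ) {η E0 : ℝ} (hη : 0 ≤ η) (v : Fin n → ℂ) (hv : qf l v ≤ E0) :
    ∑ i, pp U l i * (qf (tl l K) (stp U l v i) - qf (tl l K) v
      + (2 * qf (fun k => l k * tl l K k) v - inj U l (tl l K) v) / ∑ k, l k) ^ 2
      ≤ 10 * E0 * (η * qf (fun k => l k ^ 2) v + Hv U l (η * E0) v) / ∑ k, l k := by
  set L := ∑ k, l k with hLdef
  set b := tl l K with hb
  have hb0 : ∀ k, 0 ≤ b k := qv_tl_nonneg hl K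
  have hbl : ∀ k, b k ≤ l k := qv_tl_le hl K
  have hE0 : 0 ≤ E0 := (qf_nonneg hl v).trans hv
  have hp1 : ∑ i, pp U l i = 1 := sum_pp hU hL
  have hmean : ∑ i, pp U l i * (qf b (stp U l v i) - qf b v) =
      -((2 * qf (fun k => l k * b k) v - inj U l b v) / L) := by
    have h1 := step_mean hU ha hL b v hLdef.symm
    have h2 : ∑ i, pp U l i * (qf b (stp U l v i) - qf b v) =
        ∑ i, aa U l i / L * qf b (stp U l v i) - (∑ i, pp U l i) * qf b v := by
      rw [Finset.sum_mul, ← Finset.sum_sub_distrib]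
      exact Finset.sum_congr rfl fun i _ => by rw [pp, ← hLdef]; ring
    rw [h2, h1, hp1]; ring
  refine (var_le _ _ _ hp1 hmean).trans ?_
  have hterm : ∀ i, pp U l i * (qf b (stp U l v i) - qf b v) ^ 2 ≤
      (8 * η * E0 * ‖rr U b v i‖ ^ 2 + 2 * η * E0 * ‖rr U l v i‖ ^ 2 + 10 * E0 *
        (if η * E0 * aa U l i < ‖rr U l v i‖ ^ 2 then ‖rr U l v i‖ ^ 2 else 0)) / L := by
    intro i
    have hai := ha i
    rw [qf_stp v i, pp, ← hLdef]
    have hR0 : 0 ≤ ‖rr U l v i‖ ^ 2 := by positivity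
    have hB0 : 0 ≤ ‖rr U b v i‖ ^ 2 := by positivity
    have hab0 : 0 ≤ aa U b i := aa_nonneg hb0 i
    have habl : aa U b i ≤ aa U l i := by
      unfold aa
      exact Finset.sum_le_sum fun k _ => mul_le_mul_of_nonneg_right (hbl k) (by positivity)
    have hre : (rr U l v i * conj (rr U b v i)).re ^ 2 ≤ ‖rr U l v i‖ ^ 2 * ‖rr U b v i‖ ^ 2 := by
      have h1 := Complex.abs_re_le_norm (rr U l v i * conj (rr U b v i))
      rw [norm_mul, Complex.norm_conj] at h1
      calc (rr U l v i * conj (rr U b v i)).re ^ 2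
          = |(rr U l v i * conj (rr U b v i)).re| ^ 2 := (sq_abs _).symm
        _ ≤ (‖rr U l v i‖ * ‖rr U b v i‖) ^ 2 := by gcongr
        _ = _ := by ring
    set Ri := ‖rr U l v i‖ ^ 2 with hRi
    set Bi := ‖rr U b v i‖ ^ 2 with hBi
    set q := (rr U l v i * conj (rr U b v i)).re with hq
    set a := aa U l i with hadef
    set c := aa U b i with hcdef
    have hX : a / L * (qf b v - 2 * q / a + Ri * c / a ^ 2 - qf b v) ^ 2 ≤
        ((8 * Ri * Bi + 2 * Ri ^ 2) / a) / L := by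
      have h1 : a / L * (qf b v - 2 * q / a + Ri * c / a ^ 2 - qf b v) ^ 2 =
          ((-(2 * q) + Ri * (c / a)) ^ 2 / a) / L := by
        field_simp
        ring
      rw [h1]
      apply div_le_div_of_nonneg_right _ hL.le
      apply div_le_div_of_nonneg_right _ hai.le
      have hca : c / a ≤ 1 := (div_le_one hai).mpr habl
      have hca0 : 0 ≤ c / a := div_nonneg hab0 hai.le
      have h2 : (Ri * (c / a)) ^ 2 ≤ Ri ^ 2 := by
        have : Ri * (c / a) ≤ Ri := mul_le_of_le_one_right hR0 hca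
        have h0 : 0 ≤ Ri * (c / a) := by positivity
        exact pow_le_pow_left₀ h0 this 2
      have h8 : (-(2 * q) + Ri * (c / a)) ^ 2 ≤ 2 * (2 * q) ^ 2 + 2 * (Ri * (c / a)) ^ 2 := by
        linarith [sq_nonneg (2 * q + Ri * (c / a))]
      linarith
    refine hX.trans ?_
    apply div_le_div_of_nonneg_right _ hL.le
    rw [div_le_iff₀ hai]
    split_ifs with hh
    · have hcs := rr_cs hl v i (U := U)
      rw [← hRi, ← hadef] at hcs
      have h2 : Ri ≤ a * E0 := hcs.trans (mul_le_mul_of_nonneg_left hv hai.le)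
      have hcsb := rr_cs hb0 v i (U := U)
      rw [← hBi, ← hcdef] at hcsb
      have hqb : qf b v ≤ E0 := (qf_mono hbl v).trans hv
      have hqb0 : 0 ≤ qf b v := qf_nonneg hb0 v
      have h3 : Bi ≤ a * E0 := hcsb.trans (mul_le_mul habl hqb hqb0 hai.le)
      have h4 : Ri * Bi ≤ Ri * (a * E0) := mul_le_mul_of_nonneg_left h3 hR0
      have h5 : Ri * Ri ≤ Ri * (a * E0) := mul_le_mul_of_nonneg_left h2 hR0
      have h6 : 0 ≤ (8 * η * E0 * Bi + 2 * η * E0 * Ri) * a := by positivity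
      linarith
    · push Not at hh
      have h4 : Ri * Bi ≤ (η * E0 * a) * Bi := mul_le_mul_of_nonneg_right hh hB0
      have h5 : Ri * Ri ≤ (η * E0 * a) * Ri := mul_le_mul_of_nonneg_right hh hR0
      linarith
  refine (Finset.sum_le_sum fun i _ => hterm i).trans ?_
  rw [← Finset.sum_div]
  apply div_le_div_of_nonneg_right _ hL.le
  rw [Finset.sum_add_distrib, Finset.sum_add_distrib, ← Finset.mul_sum, ← Finset.mul_sum,
    ← Finset.mul_sum, sum_rr_sq hU, sum_rr_sq hU]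
  have hHv : (∑ i, if η * E0 * aa U l i < ‖rr U l v i‖ ^ 2 then ‖rr U l v i‖ ^ 2 else 0)
      = Hv U l (η * E0) v := rfl
  rw [hHv]
  have hq1 : qf (fun k => b k ^ 2) v ≤ qf (fun k => l k ^ 2) v :=
    qf_mono (fun k => pow_le_pow_left₀ (hb0 k) (hbl k) 2) v
  have h7 : 8 * η * E0 * qf (fun k => b k ^ 2) v ≤ 8 * η * E0 * qf (fun k => l k ^ 2) v :=
    mul_le_mul_of_nonneg_left hq1 (by positivity)
  linarith

end Pool.Agent.Helper579.Cg
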