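import Mathlib
import Pool.Agent.Helper579.CgRcd3
import Pool.Agent.Helper579.CgDiss
import Pool.Agent.Helper579.CgQv
import Pool.Agent.Helper579.CgHeavy

set_option autoImplicit false

namespace Pool.Agent.Helper579.Cg

open MeasureTheory
open scoped ENNReal ComplexConjugate

section pathsum

variable {ι S : Type} [Fintype ι] [MeasurableSpace ι] [MeasurableSingletonClass ι]
  {st : S → ι → S} {Inv : S → Prop}

/-- Markov's inequality for sums along the path -/
lemma path_sum_markov (μ : Measure ι) [IsProbabilityMeasure μ]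
    (hI : ∀ s i, Inv s → Inv (st s i)) (T : ℕ) (f : S → ℝ) (h0 : ∀ s, Inv s → 0 ≤ f s)
    (σ : S) (hσ : Inv σ) {c : ℝ} (hc : 0 < c) :
    Measure.infinitePi (fun _ : ℕ => μ) {ω | c ≤ ∑ t ∈ Finset.range T, f (path st σ ω t)}
      ≤ ENNReal.ofReal ((∑ t ∈ Finset.range T,
        EX (fun i => (μ {i}).toReal) st t f σ) / c) := by
  have hinv : ∀ (ω : ℕ → ι) (t : ℕ), Inv (path st σ ω t) := by
    intro ω t
    induction t with
    | zero => exact hσ
    | succ t ih => exact hI _ _ ih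
  have hint : ∀ t : ℕ, ∫⁻ ω, ENNReal.ofReal (f (path st σ ω t))
      ∂Measure.infinitePi (fun _ : ℕ => μ)
      = ENNReal.ofReal (EX (fun i => (μ {i}).toReal) st t f σ) := by
    intro t
    rw [lintegral_path μ st (fun s => ENNReal.ofReal (f s)) t σ]
    exact Ex_eq μ hI t _ f h0 (fun _ _ => rfl) σ hσ
  have hm : ∀ t : ℕ, Measurable fun ω : ℕ → ι => ENNReal.ofReal (f (path st σ ω t)) :=
    fun t => path_meas_fun st σ t (fun s => ENNReal.ofReal (f s))
  have hEX0 : ∀ t ∈ Finset.range T, 0 ≤ EX (fun i => (μ {i}).toReal) st t f σ :=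
    fun t _ => EX_nonneg (fun _ => ENNReal.toReal_nonneg) hI t h0 σ hσ
  have h1 : ∫⁻ ω, ∑ t ∈ Finset.range T, ENNReal.ofReal (f (path st σ ω t))
      ∂Measure.infinitePi (fun _ : ℕ => μ)
      = ENNReal.ofReal (∑ t ∈ Finset.range T, EX (fun i => (μ {i}).toReal) st t f σ) := by
    rw [lintegral_finsetSum _ (fun t _ => hm t), ENNReal.ofReal_sum_of_nonneg hEX0]
    exact Finset.sum_congr rfl fun t _ => hint t
  rw [ENNReal.ofReal_div_of_pos hc, ← h1]
  refine le_trans (measure_mono ?_) (meas_ge_le_lintegral_div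
    (f := fun ω => ∑ t ∈ Finset.range T, ENNReal.ofReal (f (path st σ ω t))) ?_
    (ENNReal.ofReal_pos.2 hc).ne' ENNReal.ofReal_ne_top)
  · intro ω hω
    simp only [Set.mem_ofPred_eq] at hω ⊢
    rw [← ENNReal.ofReal_sum_of_nonneg (fun t _ => h0 _ (hinv ω t))]
    exact ENNReal.ofReal_le_ofReal hω
  · exact (Finset.measurable_fun_sum _ fun t _ => hm t).aemeasurable

end pathsum

variable {n : ℕ} {U : Fin n → Fin n → ℂ} {l : Fin n → ℝ}

lemma qv_sum (hU : ColOrth U) (ha : ∀ i, 0 < aa U l i) (hl : ∀ k, 0 ≤ l k)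
    (hL : 0 < ∑ k, l k) {η hv : ℝ} (hη : 0 ≤ η) (w : Fin n → ℂ) (T : ℕ)
    (hHv : ∑ t ∈ Finset.range T, EX (pp U l) (stp U l) t
      (fun v => Hv U l (η * qf l w) v / ∑ k, l k) w ≤ hv * qf l w)
    (F : (Fin n → ℂ) → ℝ)
    (hF : ∀ v, qf l v ≤ qf l w → F v ≤ 10 * qf l w * (η * qf (fun k => l k ^ 2) v
      + Hv U l (η * qf l w) v) / ∑ k, l k) :
    ∑ t ∈ Finset.range T, EX (pp U l) (stp U l) t F w ≤ 10 * (η + hv) * qf l w ^ 2 := by
  have hE0 : 0 ≤ qf l w := qf_nonneg hl w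
  have h1 : ∀ t ∈ Finset.range T, EX (pp U l) (stp U l) t F w
      ≤ 10 * qf l w * η * EX (pp U l) (stp U l) t
          (fun s => qf (fun k => l k ^ 2) s / ∑ k, l k) w
        + 10 * qf l w * EX (pp U l) (stp U l) t
          (fun v => Hv U l (η * qf l w) v / ∑ k, l k) w := by
    intro t _
    rw [← EX_mul, ← EX_mul, ← EX_add]
    apply EX_mono (Inv := fun s => qf l s ≤ qf l w) (pp_nonneg hl)
      (fun s i hs => (qf_stp_le s (ha i)).trans hs) t _ w le_rfl
    intro v hv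
    refine (hF v hv).trans (le_of_eq ?_)
    ring
  refine (Finset.sum_le_sum h1).trans ?_
  rw [Finset.sum_add_distrib, ← Finset.mul_sum, ← Finset.mul_sum]
  have h2 := mul_le_mul_of_nonneg_left (diss_le hU ha hl hL w T)
    (show 0 ≤ 10 * qf l w * η by positivity)
  have h3 := mul_le_mul_of_nonneg_left hHv (show 0 ≤ 10 * qf l w by positivity)
  calc _ ≤ 10 * qf l w * η * qf l w + 10 * qf l w * (hv * qf l w) := add_le_add h2 h3
    _ = _ := by ring

lemma core_X (hU : ColOrth U) (ha : ∀ i, 0 < aa U l i) (hl : ∀ k, 0 ≤ l k)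
    (hL : 0 < ∑ k, l k) {η hv x : ℝ} (hη : 0 ≤ η) (w : Fin n → ℂ) (hE0 : 0 < qf l w)
    (hx : 0 < x) (T : ℕ)
    (hHv : ∑ t ∈ Finset.range T, EX (pp U l) (stp U l) t
      (fun v => Hv U l (η * qf l w) v / ∑ k, l k) w ≤ hv * qf l w)
    (μ : Measure (Fin n)) [IsProbabilityMeasure μ] (hpp : (fun i => (μ {i}).toReal) = pp U l) :
    Measure.infinitePi (fun _ : ℕ => μ) {ω | x * qf l w ≤ |Mt (stp U l) (qf l)
      (fun v => qf (fun k => l k ^ 2) v / ∑ k, l k) w ω T|}
      ≤ ENNReal.ofReal (10 * (η + hv) / x ^ 2) := by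
  have hpp' : ∀ i, (μ {i}).toReal = pp U l i := fun i => congrFun hpp i
  have h1 := mart_cheb (Inv := fun _ : Fin n → ℂ => True) μ (st := stp U l)
    (fun _ _ _ => trivial) T (qf l) (fun v => qf (fun k => l k ^ 2) v / ∑ k, l k)
    (fun s _ => by
      simp only [hpp']
      exact step_mean_self hU ha hL s rfl) w trivial (c := x * qf l w) (by positivity)
  rw [hpp] at h1
  refine h1.trans (ENNReal.ofReal_le_ofReal ?_)
  have h2 := qv_sum hU ha hl hL hη w T hHv
    (fun s => ∑ i, (μ {i}).toReal * (qf l (stp U l s i) - qf l s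
      + qf (fun k => l k ^ 2) s / ∑ k, l k) ^ 2)
    (fun v hv => by
      simp only [hpp']
      exact qv_self hU ha hl hL hη v hv)
  rw [div_le_div_iff₀ (by positivity) (by positivity)]
  calc _ ≤ (10 * (η + hv) * qf l w ^ 2) * x ^ 2 := mul_le_mul_of_nonneg_right h2 (sq_nonneg _)
    _ = _ := by ring

lemma core_Y (hU : ColOrth U) (ha : ∀ i, 0 < aa U l i) (hl : ∀ k, 0 ≤ l k)
    (hL : 0 < ∑ k, l k) (K : ℕ) {η hv x : ℝ} (hη : 0 ≤ η) (w : Fin n → ℂ) (hE0 : 0 < qf l w)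
    (hx : 0 < x) (T : ℕ)
    (hHv : ∑ t ∈ Finset.range T, EX (pp U l) (stp U l) t
      (fun v => Hv U l (η * qf l w) v / ∑ k, l k) w ≤ hv * qf l w)
    (μ : Measure (Fin n)) [IsProbabilityMeasure μ] (hpp : (fun i => (μ {i}).toReal) = pp U l) :
    Measure.infinitePi (fun _ : ℕ => μ) {ω | x * qf l w ≤ |Mt (stp U l) (qf (tl l K))
      (fun v => (2 * qf (fun k => l k * tl l K k) v - inj U l (tl l K) v) / ∑ k, l k) w ω T|}
      ≤ ENNReal.ofReal (10 * (η + hv) / x ^ 2) := by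
  have hpp' : ∀ i, (μ {i}).toReal = pp U l i := fun i => congrFun hpp i
  have h1 := mart_cheb (Inv := fun _ : Fin n → ℂ => True) μ (st := stp U l)
    (fun _ _ _ => trivial) T (qf (tl l K))
    (fun v => (2 * qf (fun k => l k * tl l K k) v - inj U l (tl l K) v) / ∑ k, l k)
    (fun s _ => by
      simp only [hpp']
      exact step_mean hU ha hL (tl l K) s rfl) w trivial (c := x * qf l w) (by positivity)
  rw [hpp] at h1
  refine h1.trans (ENNReal.ofReal_le_ofReal ?_)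
  have h2 := qv_sum hU ha hl hL hη w T hHv
    (fun s => ∑ i, (μ {i}).toReal * (qf (tl l K) (stp U l s i) - qf (tl l K) s
      + (2 * qf (fun k => l k * tl l K k) s - inj U l (tl l K) s) / ∑ k, l k) ^ 2)
    (fun v hv => by
      simp only [hpp']
      exact qv_tail hU ha hl hL K hη v hv)
  rw [div_le_div_iff₀ (by positivity) (by positivity)]
  calc _ ≤ (10 * (η + hv) * qf l w ^ 2) * x ^ 2 := mul_le_mul_of_nonneg_right h2 (sq_nonneg _)
    _ = _ := by ring

/-- bad rows along the path -/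
lemma core_B (hU : ColOrth U) (ha : ∀ i, 0 < aa U l i) (hl : ∀ k, 0 ≤ l k)
    (hL : 0 < ∑ k, l k) {K' : ℕ} {lam' s x : ℝ} (h0 : 0 ≤ lam') (hs : 0 ≤ s)
    (hK' : ∀ k : Fin n, K' ≤ (k : ℕ) → l k ≤ lam') (Bad : Finset (Fin n))
    (hfew : ∀ v : Fin n → ℂ, ∑ i ∈ Bad, ‖rr U l v i‖ ^ 2
      ≤ 4 * s * qf (fun k => l k ^ 2) v + 2 * qf (fun k => l k * tl l K' k) v)
    (w : Fin n → ℂ) (hE0 : 0 < qf l w) (hx : 0 < x) (T : ℕ)
    (μ : Measure (Fin n)) [IsProbabilityMeasure μ] (hpp : (fun i => (μ {i}).toReal) = pp U l) :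
    Measure.infinitePi (fun _ : ℕ => μ) {ω | x * qf l w ≤ ∑ t ∈ Finset.range T,
      (∑ i ∈ Bad, ‖rr U l (path (stp U l) w ω t) i‖ ^ 2) / ∑ k, l k}
      ≤ ENNReal.ofReal ((4 * s + 2 * T * lam' / ∑ k, l k) / x) := by
  have h1 := path_sum_markov (Inv := fun _ : Fin n → ℂ => True) μ (st := stp U l)
    (fun _ _ _ => trivial) T (fun v => (∑ i ∈ Bad, ‖rr U l v i‖ ^ 2) / ∑ k, l k)
    (fun v _ => div_nonneg (Finset.sum_nonneg fun i _ => sq_nonneg _) hL.le) w trivial
    (c := x * qf l w) (by positivity)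
  rw [hpp] at h1
  refine h1.trans (ENNReal.ofReal_le_ofReal ?_)
  have h2 := bad_diss_le hU ha hl hL h0 hs hK' Bad hfew w T
  rw [div_le_div_iff₀ (by positivity) (by positivity)]
  calc _ ≤ ((4 * s + 2 * T * lam' / ∑ k, l k) * qf l w) * x :=
        mul_le_mul_of_nonneg_right h2 hx.le
    _ = _ := by ring

/-- a time at which the head has little energy -/
lemma exists_time (hU : ColOrth U) (ha : ∀ i, 0 < aa U l i) (hl : ∀ k, 0 ≤ l k)
    (hL : 0 < ∑ k, l k) (K : ℕ) {κ : ℝ} (hκ : 0 < κ) (hK : ∀ k : Fin n, (k : ℕ) < K → κ ≤ l k)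
    (w : Fin n → ℂ) {T : ℕ} (hT : 1 ≤ T) :
    ∃ t < T, EX (pp U l) (stp U l) t (qf (hd l K)) w
      ≤ (∑ k, l k) / (κ * T) * qf l w := by
  have h1 := diss_le hU ha hl hL w T
  have h2 : ∀ t ∈ Finset.range T, κ / (∑ k, l k) * EX (pp U l) (stp U l) t (qf (hd l K)) w
      ≤ EX (pp U l) (stp U l) t (fun s => qf (fun k => l k ^ 2) s / ∑ k, l k) w := by
    intro t _
    rw [← EX_mul]
    apply EX_mono (Inv := fun _ => True) (pp_nonneg hl) (fun _ _ _ => trivial) t _ w trivial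
    intro v _
    have h3 : κ * qf (hd l K) v ≤ qf (fun k => l k ^ 2) v := by
      rw [← qf_smul]
      apply qf_mono
      intro k
      unfold hd
      split_ifs with h
      · rw [sq]
        exact mul_le_mul_of_nonneg_right (hK k h) (hl k)
      · rw [mul_zero]
        exact sq_nonneg _
    have h4 : κ * qf (hd l K) v / (∑ k, l k) ≤ qf (fun k => l k ^ 2) v / (∑ k, l k) := by
      gcongr
    calc κ / (∑ k, l k) * qf (hd l K) v = κ * qf (hd l K) v / (∑ k, l k) := by ring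
      _ ≤ _ := h4
  have h3 := (Finset.sum_le_sum h2).trans h1
  by_contra hcon
  push Not at hcon
  have hTpos : (0 : ℝ) < T := by exact_mod_cast hT
  have h4 : ∑ _t ∈ Finset.range T, κ / (∑ k, l k) * ((∑ k, l k) / (κ * T) * qf l w)
      < ∑ t ∈ Finset.range T, κ / (∑ k, l k) * EX (pp U l) (stp U l) t (qf (hd l K)) w := by
    apply Finset.sum_lt_sum_of_nonempty
    · exact Finset.nonempty_range_iff.2 (by omega)
    · intro t ht
      exact mul_lt_mul_of_pos_left (hcon t (Finset.mem_range.1 ht)) (by positivity)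
  rw [Finset.sum_const, Finset.card_range, nsmul_eq_mul] at h4
  have h5 : (T : ℝ) * (κ / (∑ k, l k) * ((∑ k, l k) / (κ * T) * qf l w)) = qf l w := by
    field_simp
  rw [h5] at h4
  linarith

end Pool.Agent.Helper579.Cg
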