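import Mathlib
import Pool.Agent.Helper579.CgKK

set_option autoImplicit false

namespace Pool.Agent.Helper579.Cg

open MeasureTheory Filter Matrix
open scoped ENNReal Topology



/-! auxiliary lemmas for the target -/

lemma r1_lam_eq {n : ℕ} (k : Fin n) : lam 1 k = ((k : ℝ) + 1)⁻¹ := by
  unfold lam
  rw [Real.rpow_neg_one]

lemma r1_lam_nonneg {n : ℕ} (k : Fin n) : 0 ≤ lam 1 k := by
  rw [r1_lam_eq]; positivity

lemma r1_lam_le_one {n : ℕ} (k : Fin n) : lam 1 k ≤ 1 := by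
  rw [r1_lam_eq]
  apply inv_le_one_of_one_le₀
  have : (0 : ℝ) ≤ (k : ℕ) := Nat.cast_nonneg _
  linarith

lemma r1_sum_lam (n : ℕ) : ∑ k : Fin n, lam 1 k = (harmonic n : ℝ) := by
  unfold harmonic
  push_cast
  rw [← Fin.sum_univ_eq_sum_range (fun i => ((i : ℝ) + 1)⁻¹) n]
  exact Finset.sum_congr rfl fun k _ => r1_lam_eq k

lemma r1_tl_nonneg {n : ℕ} (K : ℕ) (k : Fin n) : 0 ≤ tl (lam 1) K k := by
  unfold tl
  split_ifs
  · exact r1_lam_nonneg k
  · exact le_rfl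

lemma r1_tl_le {n : ℕ} (K : ℕ) (k : Fin n) : tl (lam 1) K k ≤ lam 1 k := by
  unfold tl
  split_ifs
  · exact le_rfl
  · exact r1_lam_nonneg k

lemma r1_sum_tl (n K : ℕ) (h : K ≤ n) :
    ∑ k : Fin n, tl (lam 1) K k = (harmonic n : ℝ) - harmonic K := by
  have h1 : ∑ k : Fin n, tl (lam 1) K k
      = ∑ i ∈ Finset.range n, (if K ≤ i then ((i : ℝ) + 1)⁻¹ else 0) := by
    rw [← Fin.sum_univ_eq_sum_range (fun i => if K ≤ i then ((i : ℝ) + 1)⁻¹ else 0) n]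
    refine Finset.sum_congr rfl fun k _ => ?_
    unfold tl
    rw [r1_lam_eq]
  rw [h1]
  induction n, h using Nat.le_induction with
  | base =>
    rw [sub_self]
    apply Finset.sum_eq_zero
    intro i hi
    rw [Finset.mem_range] at hi
    rw [if_neg (by omega)]
  | succ m hm ih =>
    rw [Finset.sum_range_succ, ih (by
      rw [← Fin.sum_univ_eq_sum_range (fun i => if K ≤ i then ((i : ℝ) + 1)⁻¹ else 0) m]
      refine Finset.sum_congr rfl fun k _ => ?_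
      unfold tl
      rw [r1_lam_eq]), if_pos hm, harmonic_succ]
    push_cast
    ring

lemma r1_KK_lt {n : ℕ} (hn : 1 ≤ n) {s : ℝ} (hs : 0 ≤ s) : ((KK n s : ℕ) : ℝ) < (n : ℝ) ^ s := by
  have h1 : (1 : ℝ) ≤ n := by exact_mod_cast hn
  have h0 : 0 < (n : ℝ) ^ s := by positivity
  have h2 : 0 < ⌈(n : ℝ) ^ s⌉₊ := Nat.ceil_pos.2 h0
  have h3 : KK n s < ⌈(n : ℝ) ^ s⌉₊ := by unfold KK; omega
  exact Nat.lt_ceil.1 h3

lemma r1_le_KK {n : ℕ} (hn : 1 ≤ n) {s : ℝ} (hs : 0 ≤ s) :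
    (n : ℝ) ^ s ≤ ((KK n s + 1 : ℕ) : ℝ) := by
  have h1 : (1 : ℝ) ≤ n := by exact_mod_cast hn
  have h0 : 0 < (n : ℝ) ^ s := by positivity
  have h2 : 0 < ⌈(n : ℝ) ^ s⌉₊ := Nat.ceil_pos.2 h0
  have h3 : KK n s + 1 = ⌈(n : ℝ) ^ s⌉₊ := by unfold KK; omega
  rw [h3]
  exact Nat.le_ceil _

lemma r1_KK_le {n : ℕ} (hn : 1 ≤ n) {s : ℝ} (hs : 0 ≤ s) (hs1 : s ≤ 1) : KK n s ≤ n := by
  have h1 : (1 : ℝ) ≤ n := by exact_mod_cast hn
  have h2 : (n : ℝ) ^ s ≤ n := by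
    calc (n : ℝ) ^ s ≤ (n : ℝ) ^ (1 : ℝ) := Real.rpow_le_rpow_of_exponent_le h1 hs1
      _ = n := Real.rpow_one _
  have h3 := (r1_KK_lt hn hs).trans_le h2
  exact_mod_cast h3.le

lemma r1_Lt_bounds {n : ℕ} (hn : 1 ≤ n) {s : ℝ} (hs : 0 ≤ s) (hs1 : s ≤ 1) :
    (1 - s) * Real.log n - 1 ≤ ∑ k : Fin n, tl (lam 1) (KK n s) k ∧
      ∑ k : Fin n, tl (lam 1) (KK n s) k ≤ (1 - s) * Real.log n + 1 := by
  rw [r1_sum_tl n _ (r1_KK_le hn hs hs1)]
  have h1 : (1 : ℝ) ≤ n := by exact_mod_cast hn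
  have hlog : 0 ≤ Real.log n := Real.log_nonneg h1
  have a1 := log_add_one_le_harmonic n
  have a2 := harmonic_le_one_add_log n
  have a3 := log_add_one_le_harmonic (KK n s)
  have a4 := harmonic_le_one_add_log (KK n s)
  have a5 : Real.log n ≤ Real.log ((n + 1 : ℕ) : ℝ) := by
    apply Real.log_le_log (by linarith)
    push_cast
    linarith
  have a6 : s * Real.log n ≤ Real.log ((KK n s + 1 : ℕ) : ℝ) := by
    rw [← Real.log_rpow (by linarith)]
    exact Real.log_le_log (by positivity) (r1_le_KK hn hs)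
  have a7 : Real.log (KK n s) ≤ s * Real.log n := by
    rcases Nat.eq_zero_or_pos (KK n s) with h | h
    · rw [h]
      simp only [Nat.cast_zero, Real.log_zero]
      positivity
    · rw [← Real.log_rpow (by linarith)]
      exact Real.log_le_log (by exact_mod_cast h) (r1_KK_lt hn hs).le
  constructor <;> linarith

lemma r1_L_bounds {n : ℕ} (hn : 1 ≤ n) :
    Real.log n ≤ ∑ k : Fin n, lam 1 k ∧ ∑ k : Fin n, lam 1 k ≤ Real.log n + 1 := by
  rw [r1_sum_lam]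
  have h1 : (1 : ℝ) ≤ n := by exact_mod_cast hn
  have a1 := log_add_one_le_harmonic n
  have a2 := harmonic_le_one_add_log n
  have a5 : Real.log n ≤ Real.log ((n + 1 : ℕ) : ℝ) := by
    apply Real.log_le_log (by linarith)
    push_cast
    linarith
  constructor <;> linarith

lemma r1_lim_of_bounds (f : ℕ → ℝ) (c : ℝ)
    (h : ∀ n : ℕ, 1 ≤ n → c * Real.log n - 1 ≤ f n ∧ f n ≤ c * Real.log n + 1) :
    Tendsto (fun n : ℕ => f n / Real.log n) atTop (𝓝 c) := by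
  have hlog : Tendsto (fun n : ℕ => Real.log (n : ℝ)) atTop atTop :=
    Real.tendsto_log_atTop.comp tendsto_natCast_atTop_atTop
  have hinv : Tendsto (fun n : ℕ => (Real.log (n : ℝ))⁻¹) atTop (𝓝 0) :=
    hlog.inv_tendsto_atTop
  have h1 : Tendsto (fun n : ℕ => c - (Real.log (n : ℝ))⁻¹) atTop (𝓝 c) := by
    simpa using hinv.const_sub c
  have h2 : Tendsto (fun n : ℕ => c + (Real.log (n : ℝ))⁻¹) atTop (𝓝 c) := by
    simpa using hinv.const_add c
  have hev : ∀ᶠ n : ℕ in atTop, 1 ≤ n ∧ 0 < Real.log (n : ℝ) :=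
    (eventually_ge_atTop 1).and (hlog.eventually_gt_atTop 0)
  refine tendsto_of_tendsto_of_tendsto_of_le_of_le' h1 h2 ?_ ?_
  · filter_upwards [hev] with n hn
    rw [le_div_iff₀ hn.2, sub_mul, inv_mul_cancel₀ hn.2.ne']
    exact (h n hn.1).1
  · filter_upwards [hev] with n hn
    rw [div_le_iff₀ hn.2, add_mul, inv_mul_cancel₀ hn.2.ne']
    exact (h n hn.1).2

/-- event -/
def r1_Ev {n : ℕ} (y : ℝ) (a : Fin n → ℝ) : Set (Fin n → ℝ) :=
  {ξ | |∑ k, a k * ξ k - ∑ k, a k| < y * ∑ k, a k}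

lemma r1_ev_bound {n : ℕ} {y : ℝ} (hy : 0 < y) (hy1 : y ≤ 1) (a : Fin n → ℝ) {M : ℝ}
    (hM : 0 < M) (ha : ∀ k, 0 ≤ a k) (haM : ∀ k, a k ≤ M) :
    Measure.pi (fun _ : Fin n => expo) (r1_Ev y a)ᶜ
      ≤ ENNReal.ofReal (2 * Real.exp (-(y ^ 2 * (∑ k, a k) / (4 * M)))) := by
  have h := expo_chern a hM ha haM le_rfl hy hy1
  have h2 : (r1_Ev y a)ᶜ = {ξ | y * ∑ k, a k ≤ |∑ k, a k * ξ k - ∑ k, a k|} := by
    ext ξ; simp [r1_Ev]
  rw [h2]; exact h

lemma r1_row_sum {n : ℕ} (U : Un n) (i : Fin n) (b : Fin n → ℝ) (r : ℝ) :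
    ∑ k, b k * (r * ‖um U i k‖ ^ 2) = r * aa (um U) b i := by
  unfold aa
  rw [Finset.mul_sum]
  exact Finset.sum_congr rfl fun k _ => by ring

lemma r1_aa_nonneg {n : ℕ} (U : Un n) (i : Fin n) {b : Fin n → ℝ} (hb : ∀ k, 0 ≤ b k) :
    0 ≤ aa (um U) b i :=
  Finset.sum_nonneg fun k _ => mul_nonneg (hb k) (by positivity)

lemma r1_aa_mono {n : ℕ} (U : Un n) (i : Fin n) {a b : Fin n → ℝ} (hab : ∀ k, a k ≤ b k) :
    aa (um U) a i ≤ aa (um U) b i :=
  Finset.sum_le_sum fun k _ => mul_le_mul_of_nonneg_right (hab k) (by positivity)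

lemma r1_row_two {n : ℕ} (U : Un n) (i : Fin n) (b : Fin n → ℝ) (hb : ∀ k, 0 ≤ b k) {y : ℝ}
    (h : ∃ r : ℝ, 0 < r ∧ (fun k => r * ‖um U i k‖ ^ 2) ∈ r1_Ev y (fun _ => 1) ∧
      (fun k => r * ‖um U i k‖ ^ 2) ∈ r1_Ev y b) :
    (1 - y) * (∑ k, b k) ≤ (1 + y) * (n * aa (um U) b i) ∧
      (1 - y) * (n * aa (um U) b i) ≤ (1 + y) * ∑ k, b k := by
  obtain ⟨r, hr, h1, h2⟩ := h
  simp only [r1_Ev, Set.mem_ofPred_eq] at h1 h2
  rw [r1_row_sum] at h1 h2
  have h3 : aa (um U) (fun _ => 1) i = 1 := by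
    unfold aa
    simpa using row_norm U i
  have h4 : ∑ k : Fin n, (1 : ℝ) = n := by simp
  rw [h3, h4, mul_one] at h1
  rw [abs_lt] at h1 h2
  have hX : 0 ≤ aa (um U) b i := r1_aa_nonneg U i hb
  set X := aa (um U) b i with hXd
  constructor
  · have h5 : r * X ≤ ((1 + y) * n) * X := mul_le_mul_of_nonneg_right (by linarith) hX
    linarith
  · have h5 : ((1 - y) * n) * X ≤ r * X := mul_le_mul_of_nonneg_right (by linarith) hX
    linarith

/-- the deterministic part -/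
lemma r1_det {n : ℕ} (hn : 1 ≤ n) (U : Un n) {s x y s1 : ℝ} (hy : 0 < y) (hy1 : y < 1)
    (hs1 : s < 1) (hx : 0 < x)
    (c1 : (1 + y) * ((∑ k : Fin n, lam 1 k) / 2) ≤ (1 - y) * ∑ k : Fin n, tl (lam 1) (KK n s1) k)
    (c2 : (1 + y) ^ 2 * (∑ k : Fin n, tl (lam 1) (KK n s) k)
      ≤ (1 - s + x) * (1 - y) ^ 2 * ∑ k : Fin n, tl (lam 1) (KK n s1) k)
    (c3 : (1 - s - x) * (1 + y) ^ 2 * (∑ k : Fin n, lam 1 k)
      ≤ (1 - y) ^ 2 * ∑ k : Fin n, tl (lam 1) (KK n s) k)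
    (hG : ∀ i, ∃ r : ℝ, 0 < r ∧ (fun k => r * ‖um U i k‖ ^ 2) ∈
      r1_Ev y (fun _ => 1) ∩ r1_Ev y (tl (lam 1) (KK n s)) ∩ r1_Ev y (tl (lam 1) (KK n s1))) :
    (∀ i, (∃ r : ℝ, 0 < r ∧ (fun k => r * ‖um U i k‖ ^ 2) ∈ r1_Ev y (fun _ => 1) ∩ r1_Ev y (lam 1)) →
        (1 - s - x) * aa (um U) (lam 1) i ≤ aa (um U) (tl (lam 1) (KK n s)) i) ∧
      (∀ i, aa (um U) (tl (lam 1) (KK n s)) i ≤ (1 - s + x) * aa (um U) (lam 1) i) ∧
      (∀ i, (∑ k : Fin n, lam 1 k) / (2 * n) ≤ aa (um U) (lam 1) i) := by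
  have hn0 : (0 : ℝ) < n := by exact_mod_cast hn
  have key : ∀ i, ((1 - y) * (∑ k : Fin n, tl (lam 1) (KK n s) k)
        ≤ (1 + y) * (n * aa (um U) (tl (lam 1) (KK n s)) i) ∧
      (1 - y) * (n * aa (um U) (tl (lam 1) (KK n s)) i)
        ≤ (1 + y) * ∑ k : Fin n, tl (lam 1) (KK n s) k) ∧
      (1 - y) * (∑ k : Fin n, tl (lam 1) (KK n s1) k) ≤ (1 + y) * (n * aa (um U) (lam 1) i) := by
    intro i
    obtain ⟨r, hr, ⟨h1, h2⟩, h3⟩ := hG i
    refine ⟨r1_row_two U i _ (r1_tl_nonneg _) ⟨r, hr, h1, h2⟩, ?_⟩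
    have h4 := (r1_row_two U i _ (r1_tl_nonneg (KK n s1)) ⟨r, hr, h1, h3⟩).1
    have h5 : aa (um U) (tl (lam 1) (KK n s1)) i ≤ aa (um U) (lam 1) i :=
      r1_aa_mono U i (r1_tl_le _)
    have h6 : (n : ℝ) * aa (um U) (tl (lam 1) (KK n s1)) i ≤ n * aa (um U) (lam 1) i :=
      mul_le_mul_of_nonneg_left h5 hn0.le
    have h7 := mul_le_mul_of_nonneg_left h6 (show (0 : ℝ) ≤ 1 + y by linarith)
    linarith
  have hypos : 0 < (1 + y) * (1 - y) := mul_pos (by linarith) (by linarith)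
  refine ⟨?_, ?_, ?_⟩
  · rintro i ⟨r, hr, h1, h2⟩
    have hb := (r1_row_two U i _ r1_lam_nonneg ⟨r, hr, h1, h2⟩).2
    have hk := (key i).1.1
    have hXs : 0 ≤ aa (um U) (tl (lam 1) (KK n s)) i := r1_aa_nonneg U i (r1_tl_nonneg _)
    have hXl : 0 ≤ aa (um U) (lam 1) i := r1_aa_nonneg U i r1_lam_nonneg
    rcases le_or_gt (1 - s - x) 0 with hneg | hposi
    · exact (mul_nonpos_of_nonpos_of_nonneg hneg hXl).trans hXs
    · set X := aa (um U) (lam 1) i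
      set Y := aa (um U) (tl (lam 1) (KK n s)) i
      set L := ∑ k : Fin n, lam 1 k
      set Ls := ∑ k : Fin n, tl (lam 1) (KK n s) k
      have e1 := mul_le_mul_of_nonneg_left hb
        (show (0 : ℝ) ≤ (1 - s - x) * (1 + y) by
          exact mul_nonneg hposi.le (by linarith))
      have e2 := mul_le_mul_of_nonneg_left hk (show (0 : ℝ) ≤ 1 - y by linarith)
      have e3 : ((1 + y) * (1 - y) * n) * ((1 - s - x) * X) ≤ ((1 + y) * (1 - y) * n) * Y := by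
        calc ((1 + y) * (1 - y) * n) * ((1 - s - x) * X)
            = (1 - s - x) * (1 + y) * ((1 - y) * (n * X)) := by ring
          _ ≤ (1 - s - x) * (1 + y) * ((1 + y) * L) := e1
          _ = (1 - s - x) * (1 + y) ^ 2 * L := by ring
          _ ≤ (1 - y) ^ 2 * Ls := c3
          _ = (1 - y) * ((1 - y) * Ls) := by ring
          _ ≤ (1 - y) * ((1 + y) * (n * Y)) := e2
          _ = ((1 + y) * (1 - y) * n) * Y := by ring
      exact le_of_mul_le_mul_left e3 (mul_pos hypos hn0)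
  · intro i
    obtain ⟨⟨hk1, hk2⟩, hk3⟩ := key i
    set X := aa (um U) (lam 1) i
    set Y := aa (um U) (tl (lam 1) (KK n s)) i
    set L1 := ∑ k : Fin n, tl (lam 1) (KK n s1) k
    set Ls := ∑ k : Fin n, tl (lam 1) (KK n s) k
    have e1 := mul_le_mul_of_nonneg_left hk2 (show (0 : ℝ) ≤ 1 + y by linarith)
    have e2 := mul_le_mul_of_nonneg_left hk3 (show (0 : ℝ) ≤ (1 - s + x) * (1 - y) by
      exact mul_nonneg (by linarith) (by linarith))
    have e3 : ((1 + y) * (1 - y) * n) * Y ≤ ((1 + y) * (1 - y) * n) * ((1 - s + x) * X) := by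
      calc ((1 + y) * (1 - y) * n) * Y = (1 + y) * ((1 - y) * (n * Y)) := by ring
        _ ≤ (1 + y) * ((1 + y) * Ls) := e1
        _ = (1 + y) ^ 2 * Ls := by ring
        _ ≤ (1 - s + x) * (1 - y) ^ 2 * L1 := c2
        _ = (1 - s + x) * (1 - y) * ((1 - y) * L1) := by ring
        _ ≤ (1 - s + x) * (1 - y) * ((1 + y) * (n * X)) := e2
        _ = ((1 + y) * (1 - y) * n) * ((1 - s + x) * X) := by ring
    exact le_of_mul_le_mul_left e3 (mul_pos hypos hn0)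
  · intro i
    have hk3 := (key i).2
    rw [div_le_iff₀ (by positivity)]
    set X := aa (um U) (lam 1) i
    have e1 : (1 + y) * ((∑ k : Fin n, lam 1 k) / 2) ≤ (1 + y) * (n * X) := c1.trans hk3
    have e2 := le_of_mul_le_mul_left e1 (by linarith)
    linarith

/-- Markov's inequality for the number of bad events (which need not be measurable) -/
lemma r1_markov {Ω : Type} [MeasurableSpace Ω] (μ : Measure Ω) {n : ℕ} (B : Fin n → Set Ω)
    (t : ℝ) (ht : 0 < t) :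
    μ {ω | ∃ S : Finset (Fin n), (∀ i ∈ S, ω ∈ B i) ∧ t < S.card}
      ≤ (∑ i, μ (B i)) / ENNReal.ofReal t := by
  classical
  let f : Ω → ℝ≥0∞ := fun ω => ∑ i, (toMeasurable μ (B i)).indicator 1 ω
  have hf : Measurable f := by
    apply Finset.measurable_sum
    intro i _
    exact measurable_one.indicator (measurableSet_toMeasurable _ _)
  have h1 : ∫⁻ ω, f ω ∂μ = ∑ i, μ (B i) := by
    show ∫⁻ ω, ∑ i, (toMeasurable μ (B i)).indicator 1 ω ∂μ = ∑ i, μ (B i)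
    rw [lintegral_finsetSum _ (fun i _ =>
      measurable_one.indicator (measurableSet_toMeasurable _ _))]
    refine Finset.sum_congr rfl fun i _ => ?_
    rw [lintegral_indicator_one (measurableSet_toMeasurable _ _), measure_toMeasurable]
  have h2 := meas_ge_le_lintegral_div (μ := μ) hf.aemeasurable
    (ε := ENNReal.ofReal t) (by simpa using ht) ENNReal.ofReal_ne_top
  rw [h1] at h2
  refine (measure_mono ?_).trans h2
  rintro ω ⟨S, hS, hc⟩
  show ENNReal.ofReal t ≤ f ω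
  calc ENNReal.ofReal t ≤ ENNReal.ofReal S.card := ENNReal.ofReal_le_ofReal hc.le
    _ = (S.card : ℝ≥0∞) := by rw [ENNReal.ofReal_natCast]
    _ = ∑ i ∈ S, (1 : ℝ≥0∞) := by simp
    _ ≤ ∑ i ∈ S, (toMeasurable μ (B i)).indicator 1 ω := by
        refine Finset.sum_le_sum fun i hi => ?_
        rw [Set.indicator_of_mem (subset_toMeasurable μ _ (hS i hi))]
        rfl
    _ ≤ f ω := Finset.sum_le_univ_sum_of_nonneg fun i => zero_le

/-- super-polynomial decay -/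
lemma r1_decay {a c b : ℝ} (ha : 0 < a) (hc : 0 < c) :
    Tendsto (fun n : ℕ => (n : ℝ) ^ b * Real.exp (-(c * (n : ℝ) ^ a))) atTop (𝓝 0) := by
  have h1 := tendsto_rpow_mul_exp_neg_mul_atTop_nhds_zero (b / a) c hc
  have h2 : Tendsto (fun n : ℕ => ((n : ℝ)) ^ a) atTop atTop :=
    (tendsto_rpow_atTop ha).comp tendsto_natCast_atTop_atTop
  refine (h1.comp h2).congr fun n => ?_
  simp only [Function.comp]
  rw [← Real.rpow_mul (Nat.cast_nonneg n), mul_div_cancel₀ b ha.ne', neg_mul]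

/-- choice of the small parameter -/
lemma r1_param {s x : ℝ} (hs1 : s < 1) (hx : 0 < x) : ∃ t : ℝ, 0 < t ∧ t < 1 ∧
    (1 + t) * (1 / 2) < (1 - t) * (1 - t) ∧
    (1 + t) ^ 2 * (1 - s) < (1 - s + x) * (1 - t) ^ 2 * (1 - t) ∧
    (1 - s - x) * (1 + t) ^ 2 < (1 - t) ^ 2 * (1 - s) := by
  have h1 : ∀ᶠ t : ℝ in 𝓝 0, (1 + t) * (1 / 2) < (1 - t) * (1 - t) := by
    have hc : ContinuousAt (fun t : ℝ => (1 + t) * (1 / 2)) 0 := by fun_prop
    have hd : ContinuousAt (fun t : ℝ => (1 - t) * (1 - t)) 0 := by fun_prop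
    exact hc.eventually_lt hd (by norm_num)
  have h2 : ∀ᶠ t : ℝ in 𝓝 0, (1 + t) ^ 2 * (1 - s) < (1 - s + x) * (1 - t) ^ 2 * (1 - t) := by
    have hc : ContinuousAt (fun t : ℝ => (1 + t) ^ 2 * (1 - s)) 0 := by fun_prop
    have hd : ContinuousAt (fun t : ℝ => (1 - s + x) * (1 - t) ^ 2 * (1 - t)) 0 := by fun_prop
    exact hc.eventually_lt hd (by norm_num; exact hx)
  have h3 : ∀ᶠ t : ℝ in 𝓝 0, (1 - s - x) * (1 + t) ^ 2 < (1 - t) ^ 2 * (1 - s) := by
    have hc : ContinuousAt (fun t : ℝ => (1 - s - x) * (1 + t) ^ 2) 0 := by fun_prop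
    have hd : ContinuousAt (fun t : ℝ => (1 - t) ^ 2 * (1 - s)) 0 := by fun_prop
    exact hc.eventually_lt hd (by norm_num; exact hx)
  have h4 : ∀ᶠ t : ℝ in 𝓝 0, t < 1 := gt_mem_nhds one_pos
  have h5 : ∀ᶠ t : ℝ in 𝓝[>] 0, t < 1 ∧ (1 + t) * (1 / 2) < (1 - t) * (1 - t) ∧
      (1 + t) ^ 2 * (1 - s) < (1 - s + x) * (1 - t) ^ 2 * (1 - t) ∧
      (1 - s - x) * (1 + t) ^ 2 < (1 - t) ^ 2 * (1 - s) :=
    (h4.and (h1.and (h2.and h3))).filter_mono nhdsWithin_le_nhds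
  have h6 : ∀ᶠ t : ℝ in 𝓝[>] 0, 0 < t := self_mem_nhdsWithin
  obtain ⟨t, ht0, ht⟩ := (h6.and h5).exists
  exact ⟨t, ht0, ht⟩

/-- TARGET -/
lemma rows_one {s x : ℝ} (hs : 0 < s) (hs1 : s < 1) (hx : 0 < x) :
    ∃ e : ℝ, 0 < e ∧ e < 1 ∧ Tendsto (fun n : ℕ => haarU n {U | ¬ ∃ Bad : Finset (Fin n),
      (Bad.card : ℝ) ≤ (n : ℝ) ^ (1 - e) ∧
      (∀ i, i ∉ Bad →
        (1 - s - x) * aa (um U) (lam 1) i ≤ aa (um U) (tl (lam 1) (KK n s)) i) ∧
      (∀ i, aa (um U) (tl (lam 1) (KK n s)) i ≤ (1 - s + x) * aa (um U) (lam 1) i) ∧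
      (∀ i, (∑ k : Fin n, lam 1 k) / (2 * n) ≤ aa (um U) (lam 1) i)}) atTop (𝓝 0) := by
  classical
  obtain ⟨t, ht0, ht1, p1, p2, p3⟩ := r1_param hs1 hx
  refine ⟨t ^ 2 / 8, by positivity, by nlinarith, ?_⟩
  set e : ℝ := t ^ 2 / 8 with he
  have he0 : 0 < e := by positivity
  have he1 : e < 1 := by rw [he]; nlinarith
  have hlog : Tendsto (fun n : ℕ => Real.log (n : ℝ)) atTop atTop :=
    Real.tendsto_log_atTop.comp tendsto_natCast_atTop_atTop
  have lL : Tendsto (fun n : ℕ => (∑ k : Fin n, lam 1 k) / Real.log n) atTop (𝓝 1) := by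
    apply r1_lim_of_bounds
    intro n hn
    obtain ⟨h1, h2⟩ := r1_L_bounds hn
    constructor <;> linarith
  have lS : ∀ s' : ℝ, 0 ≤ s' → s' ≤ 1 → Tendsto (fun n : ℕ =>
      (∑ k : Fin n, tl (lam 1) (KK n s') k) / Real.log n) atTop (𝓝 (1 - s')) := by
    intro s' h1 h2
    apply r1_lim_of_bounds
    intro n hn
    exact r1_Lt_bounds hn h1 h2
  have ls := lS s hs.le hs1.le
  have lt := lS t ht0.le ht1.le
  have hlogpos : ∀ᶠ n : ℕ in atTop, 0 < Real.log (n : ℝ) := hlog.eventually_gt_atTop 0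
  have c1 : ∀ᶠ n : ℕ in atTop, (1 + t) * ((∑ k : Fin n, lam 1 k) / 2)
      ≤ (1 - t) * ∑ k : Fin n, tl (lam 1) (KK n t) k := by
    have h1 := (lL.const_mul ((1 + t) * (1 / 2))).eventually_lt (lt.const_mul (1 - t))
      (by rw [mul_one]; exact p1)
    filter_upwards [h1, hlogpos] with n hn hp
    rw [← mul_div_assoc ((1 + t) * (1 / 2)), ← mul_div_assoc (1 - t),
      div_lt_div_iff_of_pos_right hp] at hn
    linarith
  have c2 : ∀ᶠ n : ℕ in atTop, (1 + t) ^ 2 * (∑ k : Fin n, tl (lam 1) (KK n s) k)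
      ≤ (1 - s + x) * (1 - t) ^ 2 * ∑ k : Fin n, tl (lam 1) (KK n t) k := by
    have h1 := (ls.const_mul ((1 + t) ^ 2)).eventually_lt
      (lt.const_mul ((1 - s + x) * (1 - t) ^ 2)) p2
    filter_upwards [h1, hlogpos] with n hn hp
    rw [← mul_div_assoc, ← mul_div_assoc, div_lt_div_iff_of_pos_right hp] at hn
    exact hn.le
  have c3 : ∀ᶠ n : ℕ in atTop, (1 - s - x) * (1 + t) ^ 2 * (∑ k : Fin n, lam 1 k)
      ≤ (1 - t) ^ 2 * ∑ k : Fin n, tl (lam 1) (KK n s) k := by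
    have h1 := (lL.const_mul ((1 - s - x) * (1 + t) ^ 2)).eventually_lt
      (ls.const_mul ((1 - t) ^ 2)) (by rw [mul_one]; exact p3)
    filter_upwards [h1, hlogpos] with n hn hp
    rw [← mul_div_assoc, ← mul_div_assoc, div_lt_div_iff_of_pos_right hp] at hn
    exact hn.le
  have hone : ∀ s' : ℝ, 0 ≤ s' → s' < 1 → ∀ᶠ n : ℕ in atTop,
      1 ≤ ∑ k : Fin n, tl (lam 1) (KK n s') k := by
    intro s' h0 h1
    have h2 : ∀ᶠ n : ℕ in atTop, 2 / (1 - s') ≤ Real.log (n : ℝ) :=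
      hlog.eventually_ge_atTop _
    filter_upwards [h2, eventually_ge_atTop 1] with n hn hn1
    have h3 := (r1_Lt_bounds hn1 h0 h1.le).1
    rw [div_le_iff₀ (by linarith)] at hn
    linarith
  -- the bounds
  set a : ℝ := min s t with ha
  have ha0 : 0 < a := lt_min hs ht0
  set u : ℕ → ℝ := fun n => 2 * Real.exp (-(t ^ 2 / 4 * (n : ℝ) ^ a)) with hu
  have hu0 : ∀ n, 0 ≤ u n := fun n => by positivity
  have hlimR : Tendsto (fun n : ℕ => (n : ℝ) * (3 * u n) +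
      (n : ℝ) ^ e * (u n + 2 * (n : ℝ) ^ (-(2 * e)))) atTop (𝓝 0) := by
    have h1 : Tendsto (fun n : ℕ => (n : ℝ) * (3 * u n)) atTop (𝓝 0) := by
      have := (r1_decay (b := 1) ha0 (show 0 < t ^ 2 / 4 by positivity)).const_mul 6
      rw [mul_zero] at this
      refine this.congr fun n => ?_
      rw [Real.rpow_one, hu]
      ring
    have h2 : Tendsto (fun n : ℕ => (n : ℝ) ^ e * u n) atTop (𝓝 0) := by
      have := (r1_decay (b := e) ha0 (show 0 < t ^ 2 / 4 by positivity)).const_mul 2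
      rw [mul_zero] at this
      refine this.congr fun n => ?_
      rw [hu]
      ring
    have h3 : Tendsto (fun n : ℕ => 2 * (n : ℝ) ^ (-e)) atTop (𝓝 0) := by
      have := ((tendsto_rpow_neg_atTop he0).comp (tendsto_natCast_atTop_atTop (R := ℝ))).const_mul 2
      rw [mul_zero] at this
      exact this
    have h4 := h1.add (h2.add h3)
    rw [add_zero, add_zero] at h4
    refine h4.congr' ?_
    filter_upwards [eventually_ge_atTop 1] with n hn
    have hn0 : (0 : ℝ) < n := by exact_mod_cast hn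
    have h5 : (n : ℝ) ^ (-e) = (n : ℝ) ^ e * (n : ℝ) ^ (-(2 * e)) := by
      rw [← Real.rpow_add hn0]
      congr 1
      ring
    rw [h5]
    ring
  have hlimE : Tendsto (fun n : ℕ => ENNReal.ofReal ((n : ℝ) * (3 * u n) +
      (n : ℝ) ^ e * (u n + 2 * (n : ℝ) ^ (-(2 * e))))) atTop (𝓝 0) := by
    have := ENNReal.tendsto_ofReal hlimR
    rwa [ENNReal.ofReal_zero] at this
  refine tendsto_of_tendsto_of_tendsto_of_le_of_le' tendsto_const_nhds hlimE
    (Eventually.of_forall fun _ => zero_le) ?_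
  filter_upwards [c1, c2, c3, hone s hs.le hs1, hone t ht0.le ht1, eventually_ge_atTop 1]
    with n c1 c2 c3 o1 o2 hn
  have hn1 : (1 : ℝ) ≤ n := by exact_mod_cast hn
  have hn0 : (0 : ℝ) < n := by linarith
  -- probabilities
  have q1 : Measure.pi (fun _ : Fin n => expo) (r1_Ev t (fun _ => 1))ᶜ ≤ ENNReal.ofReal (u n) := by
    refine (r1_ev_bound ht0 ht1.le (fun _ : Fin n => (1 : ℝ)) one_pos (fun _ => zero_le_one)
      (fun _ => le_rfl)).trans (ENNReal.ofReal_le_ofReal ?_)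
    rw [hu]
    have h4 : ∑ k : Fin n, (1 : ℝ) = n := by simp
    rw [h4]
    have h5 : (n : ℝ) ^ a ≤ n := by
      calc (n : ℝ) ^ a ≤ (n : ℝ) ^ (1 : ℝ) :=
            Real.rpow_le_rpow_of_exponent_le hn1 ((min_le_left _ _).trans hs1.le)
        _ = n := Real.rpow_one _
    have h6 : t ^ 2 / 4 * (n : ℝ) ^ a ≤ t ^ 2 / 4 * n :=
      mul_le_mul_of_nonneg_left h5 (by positivity)
    apply mul_le_mul_of_nonneg_left _ zero_le_two
    apply Real.exp_le_exp.2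
    linarith
  have q2 : ∀ s' : ℝ, 0 ≤ s' → a ≤ s' → 1 ≤ ∑ k : Fin n, tl (lam 1) (KK n s') k →
      Measure.pi (fun _ : Fin n => expo) (r1_Ev t (tl (lam 1) (KK n s')))ᶜ
        ≤ ENNReal.ofReal (u n) := by
    intro s' h0 has h1
    have hM : 0 < (n : ℝ) ^ (-s') := by positivity
    refine (r1_ev_bound ht0 ht1.le (tl (lam 1) (KK n s')) hM (r1_tl_nonneg _) ?_).trans
      (ENNReal.ofReal_le_ofReal ?_)
    · intro k
      unfold tl
      split_ifs with hk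
      · rw [r1_lam_eq, Real.rpow_neg hn0.le]
        apply inv_anti₀ (by positivity)
        refine (r1_le_KK hn h0).trans ?_
        push_cast
        have : ((KK n s' : ℕ) : ℝ) ≤ ((k : ℕ) : ℝ) := by exact_mod_cast hk
        linarith
      · exact hM.le
    · rw [hu]
      apply mul_le_mul_of_nonneg_left _ zero_le_two
      apply Real.exp_le_exp.2
      apply neg_le_neg
      have h2 : (n : ℝ) ^ a ≤ (n : ℝ) ^ s' := Real.rpow_le_rpow_of_exponent_le hn1 has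
      have h3 : t ^ 2 * (∑ k : Fin n, tl (lam 1) (KK n s') k) / (4 * (n : ℝ) ^ (-s'))
          = t ^ 2 / 4 * ((∑ k : Fin n, tl (lam 1) (KK n s') k) * (n : ℝ) ^ s') := by
        rw [Real.rpow_neg hn0.le]
        field_simp
      rw [h3]
      apply mul_le_mul_of_nonneg_left _ (by positivity)
      calc (n : ℝ) ^ a ≤ (n : ℝ) ^ s' := h2
        _ = 1 * (n : ℝ) ^ s' := by ring
        _ ≤ _ := mul_le_mul_of_nonneg_right h1 (by positivity)
  have q4 : Measure.pi (fun _ : Fin n => expo) (r1_Ev t (lam 1))ᶜ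
      ≤ ENNReal.ofReal (2 * (n : ℝ) ^ (-(2 * e))) := by
    refine (r1_ev_bound ht0 ht1.le (lam 1) one_pos r1_lam_nonneg r1_lam_le_one).trans
      (ENNReal.ofReal_le_ofReal ?_)
    apply mul_le_mul_of_nonneg_left _ zero_le_two
    rw [Real.rpow_def_of_pos hn0]
    apply Real.exp_le_exp.2
    have h1 := (r1_L_bounds hn).1
    have h2 := mul_le_mul_of_nonneg_left h1 (show 0 ≤ t ^ 2 / 4 by positivity)
    rw [he]
    linarith
  -- the two bad events
  let G : Set (Fin n → ℝ) := r1_Ev t (fun _ => 1) ∩ r1_Ev t (tl (lam 1) (KK n s)) ∩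
    r1_Ev t (tl (lam 1) (KK n t))
  let G' : Set (Fin n → ℝ) := r1_Ev t (fun _ => 1) ∩ r1_Ev t (lam 1)
  have hG : Measure.pi (fun _ : Fin n => expo) Gᶜ ≤ ENNReal.ofReal (3 * u n) := by
    have h1 : Gᶜ = ((r1_Ev t (fun _ => 1))ᶜ ∪ (r1_Ev t (tl (lam 1) (KK n s)))ᶜ) ∪
        (r1_Ev t (tl (lam 1) (KK n t)))ᶜ := by
      simp only [G, Set.compl_inter]
    rw [h1]
    refine (measure_union_le _ _).trans ((add_le_add ((measure_union_le _ _).trans
      (add_le_add q1 (q2 s hs.le (min_le_left _ _) o1))) (q2 t ht0.le (min_le_right _ _) o2)).trans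
      ?_)
    rw [← ENNReal.ofReal_add (hu0 n) (hu0 n), ← ENNReal.ofReal_add (by linarith [hu0 n]) (hu0 n)]
    apply ENNReal.ofReal_le_ofReal
    linarith
  have hG' : Measure.pi (fun _ : Fin n => expo) G'ᶜ
      ≤ ENNReal.ofReal (u n + 2 * (n : ℝ) ^ (-(2 * e))) := by
    have h1 : G'ᶜ = (r1_Ev t (fun _ => 1))ᶜ ∪ (r1_Ev t (lam 1))ᶜ := by
      simp only [G', Set.compl_inter]
    rw [h1, ENNReal.ofReal_add (hu0 n) (by positivity)]
    exact (measure_union_le _ _).trans (add_le_add q1 q4)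
  let B : Fin n → Set (Un n) := fun i => {U | ∀ r : ℝ, 0 < r → (fun k => r * ‖um U i k‖ ^ 2) ∉ G}
  let B' : Fin n → Set (Un n) := fun i =>
    {U | ∀ r : ℝ, 0 < r → (fun k => r * ‖um U i k‖ ^ 2) ∉ G'}
  have hsub : {U : Un n | ¬ ∃ Bad : Finset (Fin n),
      (Bad.card : ℝ) ≤ (n : ℝ) ^ (1 - e) ∧
      (∀ i, i ∉ Bad →
        (1 - s - x) * aa (um U) (lam 1) i ≤ aa (um U) (tl (lam 1) (KK n s)) i) ∧
      (∀ i, aa (um U) (tl (lam 1) (KK n s)) i ≤ (1 - s + x) * aa (um U) (lam 1) i) ∧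
      (∀ i, (∑ k : Fin n, lam 1 k) / (2 * n) ≤ aa (um U) (lam 1) i)}
      ⊆ (⋃ i, B i) ∪ {U | ∃ S : Finset (Fin n), (∀ i ∈ S, U ∈ B' i) ∧
        (n : ℝ) ^ (1 - e) < S.card} := by
    intro U hU
    by_contra hcon
    rw [Set.mem_union, not_or] at hcon
    obtain ⟨k1, k2⟩ := hcon
    apply hU
    have hGall : ∀ i, ∃ r : ℝ, 0 < r ∧ (fun k => r * ‖um U i k‖ ^ 2) ∈ G := by
      intro i
      by_contra hc
      apply k1
      rw [Set.mem_iUnion]
      refine ⟨i, fun r hr hm => hc ⟨r, hr, hm⟩⟩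
    obtain ⟨d1, d2, d3⟩ := r1_det hn U ht0 ht1 hs1 hx c1 c2 c3 hGall
    refine ⟨Finset.univ.filter (fun i => U ∈ B' i), ?_, ?_, d2, d3⟩
    · by_contra hc
      apply k2
      refine ⟨Finset.univ.filter (fun i => U ∈ B' i), fun i hi => (Finset.mem_filter.1 hi).2, ?_⟩
      exact not_le.1 hc
    · intro i hi
      apply d1 i
      by_contra hc
      apply hi
      rw [Finset.mem_filter]
      exact ⟨Finset.mem_univ _, fun r hr hm => hc ⟨r, hr, hm⟩⟩
  refine (measure_mono hsub).trans ((measure_union_le _ _).trans ?_)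
  rw [ENNReal.ofReal_add (by have := hu0 n; positivity) (by have := hu0 n; positivity)]
  refine add_le_add ?_ ?_
  · calc haarU n (⋃ i, B i) ≤ ∑ i, haarU n (B i) := measure_iUnion_fintype_le _ _
      _ ≤ ∑ i : Fin n, ENNReal.ofReal (3 * u n) :=
          Finset.sum_le_sum fun i _ => (row_event hn i G).trans hG
      _ = ENNReal.ofReal ((n : ℝ) * (3 * u n)) := by
          rw [Finset.sum_const, Finset.card_univ, Fintype.card_fin, nsmul_eq_mul,
            ENNReal.ofReal_mul hn0.le, ENNReal.ofReal_natCast]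
  · have hpos : 0 < (n : ℝ) ^ (1 - e) := by positivity
    refine (r1_markov (haarU n) B' _ hpos).trans ?_
    calc (∑ i, haarU n (B' i)) / ENNReal.ofReal ((n : ℝ) ^ (1 - e))
        ≤ (∑ i : Fin n, ENNReal.ofReal (u n + 2 * (n : ℝ) ^ (-(2 * e)))) /
          ENNReal.ofReal ((n : ℝ) ^ (1 - e)) := by
          apply ENNReal.div_le_div_right
          exact Finset.sum_le_sum fun i _ => (row_event hn i G').trans hG'
      _ = ENNReal.ofReal ((n : ℝ) * (u n + 2 * (n : ℝ) ^ (-(2 * e))) / (n : ℝ) ^ (1 - e)) := by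
          rw [Finset.sum_const, Finset.card_univ, Fintype.card_fin, nsmul_eq_mul,
            ENNReal.ofReal_div_of_pos hpos, ENNReal.ofReal_mul hn0.le, ENNReal.ofReal_natCast]
      _ ≤ ENNReal.ofReal ((n : ℝ) ^ e * (u n + 2 * (n : ℝ) ^ (-(2 * e)))) := by
          apply ENNReal.ofReal_le_ofReal
          rw [div_le_iff₀ hpos]
          have h5 : (n : ℝ) ^ e * (n : ℝ) ^ (1 - e) = n := by
            rw [← Real.rpow_add hn0]
            have : e + (1 - e) = 1 := by ring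
            rw [this, Real.rpow_one]
          have h6 : (n : ℝ) ^ e * (u n + 2 * (n : ℝ) ^ (-(2 * e))) * (n : ℝ) ^ (1 - e)
              = ((n : ℝ) ^ e * (n : ℝ) ^ (1 - e)) * (u n + 2 * (n : ℝ) ^ (-(2 * e))) := by ring
          rw [h6, h5]

end Pool.Agent.Helper579.Cg
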