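import Mathlib
import Pool.Agent.Helper579.CgKK

set_option autoImplicit false

namespace Pool.Agent.Helper579.Cg

open MeasureTheory Filter Matrix
open scoped ENNReal Topology



/-- TARGET -/
lemma sub_one {a e s : ℝ} (ha : 0 < a) (ha1 : a < 1) (he : 0 < e) (he1 : e < 1) (hs : 0 < s) :
    Tendsto (fun n : ℕ => haarU n {U | ¬ ∀ I : Finset (Fin n),
      I.card ≤ ⌊(n : ℝ) ^ (1 - e)⌋₊ → ∀ x : Fin n → ℂ,
      (∀ k : Fin n, KK n a ≤ (k : ℕ) → x k = 0) →
      ∑ i ∈ I, ‖∑ k, um U i k * x k‖ ^ 2 ≤ 2 * s * ∑ k, ‖x k‖ ^ 2}) atTop (𝓝 0) := by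
  have hnat : Tendsto (fun n : ℕ => (n : ℝ)) atTop atTop := tendsto_natCast_atTop_atTop
  -- h1
  have h1 : Tendsto (fun n : ℕ => Real.log (2 * n + 2) * (n : ℝ) ^ (-e)) atTop (𝓝 0) := by
    have hl : Tendsto (fun x : ℝ => Real.log x / x ^ e) atTop (𝓝 0) :=
      (isLittleO_log_rpow_atTop he).tendsto_div_nhds_zero
    have ht : Tendsto (fun n : ℕ => 2 * (n : ℝ) + 2) atTop atTop :=
      tendsto_atTop_add_const_right _ _ (hnat.const_mul_atTop (by norm_num))
    have hl2 := (hl.comp ht).mul_const ((4 : ℝ) ^ e)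
    rw [zero_mul] at hl2
    refine squeeze_zero' ?_ ?_ hl2
    · filter_upwards with n
      have : (1 : ℝ) ≤ 2 * n + 2 := by
        have : (0 : ℝ) ≤ n := Nat.cast_nonneg n
        linarith
      exact mul_nonneg (Real.log_nonneg this) (Real.rpow_nonneg (Nat.cast_nonneg n) _)
    · filter_upwards [eventually_ge_atTop 1] with n hn
      have hn1 : (1 : ℝ) ≤ n := by exact_mod_cast hn
      have hn0 : (0 : ℝ) < n := by linarith
      have hL : 0 ≤ Real.log (2 * n + 2) := Real.log_nonneg (by linarith)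
      simp only [Function.comp_apply]
      rw [div_mul_eq_mul_div, div_eq_mul_inv, mul_assoc]
      refine mul_le_mul_of_nonneg_left ?_ hL
      rw [← div_eq_mul_inv, le_div_iff₀ (by positivity), Real.rpow_neg hn0.le,
        inv_mul_le_iff₀ (by positivity), ← Real.mul_rpow (by positivity) (by norm_num)]
      exact Real.rpow_le_rpow (by positivity) (by linarith) he.le
  have h2 : Tendsto (fun n : ℕ => (n : ℝ) ^ (a - 1)) atTop (𝓝 0) := by
    have := (tendsto_rpow_neg_atTop (y := 1 - a) (by linarith)).comp hnat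
    simpa [Function.comp_def, neg_sub] using this
  have h3 : Tendsto (fun n : ℕ => (n : ℝ) *
      (Real.log (2 * n + 2) * (n : ℝ) ^ (-e) + (n : ℝ) ^ (a - 1) - s / 8)) atTop atBot := by
    have : Tendsto (fun n : ℕ => Real.log (2 * n + 2) * (n : ℝ) ^ (-e) + (n : ℝ) ^ (a - 1)
        - s / 8) atTop (𝓝 (0 + 0 - s / 8)) := (h1.add h2).sub_const _
    exact hnat.atTop_mul_neg (by linarith) this
  have h4 : Tendsto (fun n : ℕ => (n : ℝ) *
      (Real.log (2 * n + 2) * (n : ℝ) ^ (-e) - 1 / 2)) atTop atBot := by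
    have : Tendsto (fun n : ℕ => Real.log (2 * n + 2) * (n : ℝ) ^ (-e) 
        - 1 / 2) atTop (𝓝 (0 - 1 / 2)) := h1.sub_const _
    exact hnat.atTop_mul_neg (by norm_num) this
  have h5 := (Real.tendsto_exp_atBot.comp h3).add (Real.tendsto_exp_atBot.comp h4)
  have h6 := ENNReal.tendsto_ofReal h5
  rw [add_zero, ENNReal.ofReal_zero] at h6
  refine tendsto_of_tendsto_of_tendsto_of_le_of_le' tendsto_const_nhds h6
    (Eventually.of_forall fun n => zero_le) ?_
  filter_upwards [eventually_ge_atTop 1] with n hn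
  have hn1 : (1 : ℝ) ≤ n := by exact_mod_cast hn
  have hn0 : (0 : ℝ) < n := by linarith
  set K := KK n a with hK
  set R := ⌊(n : ℝ) ^ (1 - e)⌋₊ with hR
  have hKle : (K : ℝ) ≤ (n : ℝ) ^ a := by
    have hc := Nat.ceil_lt_add_one (a := (n : ℝ) ^ a) (by positivity)
    have hpos : 1 ≤ ⌈(n : ℝ) ^ a⌉₊ := Nat.one_le_ceil_iff.2 (by positivity)
    have : (K : ℝ) = (⌈(n : ℝ) ^ a⌉₊ : ℝ) - 1 := by
      rw [hK, KK, Nat.cast_sub hpos]
      simp
    linarith
  have hRle : (R : ℝ) ≤ (n : ℝ) ^ (1 - e) := Nat.floor_le (by positivity)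
  have hb : 0 ≤ Real.exp (K - s * n / 8) + Real.exp (-(n / 2 : ℝ)) := by positivity
  have hsub := sub_bound' n hn K R s _ hs hb (fun y hy => proj_bound' n hn K s hs y hy)
  refine le_trans (measure_mono ?_) (hsub.trans (ENNReal.ofReal_le_ofReal ?_))
  · intro U hU
    simp only [Set.mem_setOf_eq] at hU ⊢
    push Not at hU
    obtain ⟨I, hI, x, hx, hlt⟩ := hU
    exact ⟨I, hI, x, hx, hlt⟩
  · have hpow : ((n : ℝ) + 1) ^ R * 2 ^ R ≤ Real.exp ((n : ℝ) ^ (1 - e) * Real.log (2 * n + 2)) := by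
      have hpos : (0 : ℝ) < 2 * n + 2 := by positivity
      have hL : 0 ≤ Real.log (2 * n + 2) := Real.log_nonneg (by linarith)
      have : ((n : ℝ) + 1) ^ R * 2 ^ R = Real.exp (R * Real.log (2 * n + 2)) := by
        rw [← mul_pow, mul_comm (R : ℝ), Real.exp_mul, Real.exp_log hpos, Real.rpow_natCast]
        congr 1
        ring
      rw [this]
      exact Real.exp_le_exp.2 (mul_le_mul_of_nonneg_right hRle hL)
    have he1' : (n : ℝ) ^ (1 - e) = n * (n : ℝ) ^ (-e) := by
      rw [sub_eq_add_neg, Real.rpow_add hn0, Real.rpow_one]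
    have ha1' : (n : ℝ) ^ a = n * (n : ℝ) ^ (a - 1) := by
      rw [Real.rpow_sub hn0, Real.rpow_one]
      field_simp
    calc ((n : ℝ) + 1) ^ R * 2 ^ R * (Real.exp (K - s * n / 8) + Real.exp (-(n / 2 : ℝ)))
        ≤ Real.exp ((n : ℝ) ^ (1 - e) * Real.log (2 * n + 2)) *
          (Real.exp ((n : ℝ) ^ a - s * n / 8) + Real.exp (-(n / 2 : ℝ))) := by
          refine mul_le_mul hpow ?_ hb (Real.exp_pos _).le
          gcongr
      _ = _ := by
          simp only [Function.comp_apply]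
          rw [mul_add, ← Real.exp_add, ← Real.exp_add, he1', ha1']
          congr 2 <;> ring

end Pool.Agent.Helper579.Cg
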