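import Mathlib
import Pool.Agent.Helper579.CgMain3
import Pool.Agent.Helper579.CgRcd4
import Pool.Agent.Helper579.CgRowsOne
import Pool.Agent.Helper579.CgSubOne

set_option autoImplicit false
set_option maxHeartbeats 4000000

namespace Pool.Agent.Helper579.Cg

open MeasureTheory Filter Matrix
open scoped ENNReal Topology ComplexConjugate

/-- the properties of the rows for `p = 1` -/
def GoodOne (n : ℕ) (U : Fin n → Fin n → ℂ) (s x s'' e a sG : ℝ) : Prop :=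
  (∃ Bad : Finset (Fin n), Bad.card ≤ ⌊(n : ℝ) ^ (1 - e)⌋₊ ∧ ∀ i, i ∉ Bad →
    (1 - s - x) * aa U (lam 1) i ≤ aa U (tl (lam 1) (KK n s)) i) ∧
  (∀ i, aa U (tl (lam 1) (KK n s)) i ≤ (1 - s + x) * aa U (lam 1) i) ∧
  (∃ Bad : Finset (Fin n), Bad.card ≤ ⌊(n : ℝ) ^ (1 - e)⌋₊ ∧ ∀ i, i ∉ Bad →
    (1 - 2 * s'') * aa U (lam 1) i ≤ aa U (tl (lam 1) (KK n s'')) i) ∧
  (∀ i, (∑ k : Fin n, lam 1 k) / (2 * n) ≤ aa U (lam 1) i) ∧
  (∀ I : Finset (Fin n), I.card ≤ ⌊(n : ℝ) ^ (1 - e)⌋₊ → ∀ x : Fin n → ℂ,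
    (∀ k : Fin n, KK n a ≤ (k : ℕ) → x k = 0) →
    ∑ i ∈ I, ‖∑ k, U i k * x k‖ ^ 2 ≤ 2 * sG * ∑ k, ‖x k‖ ^ 2)

lemma card_floor {n : ℕ} (hn : 1 ≤ n) {c : ℕ} {e e' : ℝ} (h : (c : ℝ) ≤ (n : ℝ) ^ (1 - e'))
    (he : e ≤ e') : c ≤ ⌊(n : ℝ) ^ (1 - e)⌋₊ := by
  apply Nat.le_floor
  refine h.trans (Real.rpow_le_rpow_of_exponent_le (by exact_mod_cast hn) (by linarith))

lemma goodOne_ev {s x s'' a sG : ℝ} (hs : 0 < s) (hs1 : s < 1) (hx : 0 < x)
    (hs'' : 0 < s'') (hs1'' : s'' < 1) (ha : 0 < a) (ha1 : a < 1) (hG : 0 < sG) :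
    ∃ e : ℝ, 0 < e ∧ e < s'' ∧ e < 1 ∧ ∀ δ : ℝ, 0 < δ →
      Ev (fun n => haarU n) (fun n U => GoodOne n (um U) s x s'' e a sG) δ := by
  obtain ⟨e₁, he₁, he₁', h₁⟩ := rows_one hs hs1 hx
  obtain ⟨e₂, he₂, he₂', h₂⟩ := rows_one hs'' hs1'' hs''
  set e := min (min e₁ e₂) (s'' / 2) with he
  have e0 : 0 < e := lt_min (lt_min he₁ he₂) (half_pos hs'')
  have e1 : e ≤ e₁ := (min_le_left _ _).trans (min_le_left _ _)
  have e2 : e ≤ e₂ := (min_le_left _ _).trans (min_le_right _ _)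
  have e3 : e ≤ s'' / 2 := min_le_right _ _
  refine ⟨e, e0, by linarith, by linarith, fun δ hδ => ?_⟩
  have h₃ := sub_one (s := sG) ha ha1 e0 (by linarith) hG
  have k1 : ∀ δ : ℝ, 0 < δ → _ := fun δ hδ => Ev.of_tendsto (μ := fun n => haarU n) h₁ hδ
  have k2 : ∀ δ : ℝ, 0 < δ → _ := fun δ hδ => Ev.of_tendsto (μ := fun n => haarU n) h₂ hδ
  have k3 : ∀ δ : ℝ, 0 < δ → _ := fun δ hδ => Ev.of_tendsto (μ := fun n => haarU n) h₃ hδ
  apply (Ev.and' (Ev.and' k1 k2) k3 δ hδ).mono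
  filter_upwards [eventually_ge_atTop 1] with n hn U hU
  obtain ⟨⟨⟨B₁, b1, b2, b3, b4⟩, ⟨B₂, c1, c2, c3, c4⟩⟩, d⟩ := hU
  refine ⟨⟨B₁, card_floor hn b1 e1, b2⟩, b3, ⟨B₂, card_floor hn c1 e2, ?_⟩, b4, d⟩
  intro i hi
  have := c2 i hi
  have e : (1 : ℝ) - 2 * s'' = 1 - s'' - s'' := by ring
  rw [e]
  exact this

/-- the fraction of the energy in the tail -/
lemma tail_frac {s x : ℝ} (hs : 0 < s) (hs1 : s < 1) (hx : 0 < x) (hx1 : x < 1 - s)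
    (δ : ℝ) (hδ : 0 < δ) :
    Ev exs (fun n ξ => ∀ (w : Fin n → ℂ) (r : ℝ), 0 < r → (∀ k, r * ‖w k‖ ^ 2 = ξ k) →
      (1 - s - x) * qf (lam 1) w ≤ qf (tl (lam 1) (KK n s)) w ∧
      qf (tl (lam 1) (KK n s)) w ≤ (1 - s + x) * qf (lam 1) w) δ := by
  have hy : 0 < x / 4 := by positivity
  apply (Ev.and' (fun δ hδ => ev_log hs.le hs1 hy hδ) (fun δ hδ => ev_log0 hy hδ) δ hδ).mono
  filter_upwards [eventually_ge_atTop 2] with n hn ξ hξ w r hr hw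
  obtain ⟨h1, h2⟩ := hξ
  have hn2 : (2 : ℝ) ≤ n := by exact_mod_cast hn
  have hlog : 0 < Real.log n := Real.log_pos (by linarith)
  have e1 : ∑ k : Fin n, (if (n : ℝ) ^ s ≤ (k : ℝ) + 1 then ((k : ℝ) + 1)⁻¹ else 0) * ξ k
      = r * qf (tl (lam 1) (KK n s)) w := by
    unfold qf
    rw [Finset.mul_sum]
    apply Finset.sum_congr rfl
    intro k _
    rw [← hw k]
    unfold tl lam
    simp only [KK_le_iff, Real.rpow_neg_one]
    ring
  have e2 : ∑ k : Fin n, ((k : ℝ) + 1)⁻¹ * ξ k = r * qf (lam 1) w := by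
    unfold qf
    rw [Finset.mul_sum]
    apply Finset.sum_congr rfl
    intro k _
    rw [← hw k]
    unfold lam
    rw [Real.rpow_neg_one]
    ring
  rw [e1] at h1
  rw [e2] at h2
  set T := qf (tl (lam 1) (KK n s)) w with hT
  set E := qf (lam 1) w with hE
  obtain ⟨h1a, h1b⟩ := abs_lt.1 h1
  obtain ⟨h2a, h2b⟩ := abs_lt.1 h2
  have f1 : r * T < (1 - s + x / 4) * Real.log n := by
    have : (Real.log n)⁻¹ * (r * T) < 1 - s + x / 4 := by linarith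
    rw [inv_mul_lt_iff₀ hlog] at this
    linarith
  have f2 : (1 - s - x / 4) * Real.log n < r * T := by
    have : 1 - s - x / 4 < (Real.log n)⁻¹ * (r * T) := by linarith
    rw [lt_inv_mul_iff₀ hlog] at this
    linarith
  have f3 : r * E < (1 + x / 4) * Real.log n := by
    have : (Real.log n)⁻¹ * (r * E) < 1 + x / 4 := by linarith
    rw [inv_mul_lt_iff₀ hlog] at this
    linarith
  have f4 : (1 - x / 4) * Real.log n < r * E := by
    have : 1 - x / 4 < (Real.log n)⁻¹ * (r * E) := by linarith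
    rw [lt_inv_mul_iff₀ hlog] at this
    linarith
  constructor
  · have g1 : r * ((1 - s - x) * E) ≤ r * T := by
      have g2 : (1 - s - x) * (1 + x / 4) ≤ 1 - s - x / 4 := by nlinarith
      calc r * ((1 - s - x) * E) = (1 - s - x) * (r * E) := by ring
        _ ≤ (1 - s - x) * ((1 + x / 4) * Real.log n) :=
            mul_le_mul_of_nonneg_left f3.le (by linarith)
        _ = ((1 - s - x) * (1 + x / 4)) * Real.log n := by ring
        _ ≤ (1 - s - x / 4) * Real.log n := mul_le_mul_of_nonneg_right g2 hlog.le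
        _ ≤ r * T := f2.le
    exact le_of_mul_le_mul_left g1 hr
  · have g1 : r * T ≤ r * ((1 - s + x) * E) := by
      have g2 : 1 - s + x / 4 ≤ (1 - s + x) * (1 - x / 4) := by nlinarith
      calc r * T ≤ (1 - s + x / 4) * Real.log n := f1.le
        _ ≤ ((1 - s + x) * (1 - x / 4)) * Real.log n := mul_le_mul_of_nonneg_right g2 hlog.le
        _ = (1 - s + x) * ((1 - x / 4) * Real.log n) := by ring
        _ ≤ (1 - s + x) * (r * E) := mul_le_mul_of_nonneg_left f4.le (by linarith)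
        _ = r * ((1 - s + x) * E) := by ring
    exact le_of_mul_le_mul_left g1 hr

lemma lam_one_le_of_KK {n : ℕ} (hn : 1 ≤ n) {s : ℝ} (k : Fin n) (hk : KK n s ≤ (k : ℕ)) :
    lam 1 k ≤ (n : ℝ) ^ (-s) := by
  rw [KK_le_iff] at hk
  unfold lam
  have hn0 : (0 : ℝ) < n := by exact_mod_cast hn
  rw [Real.rpow_neg_one, Real.rpow_neg hn0.le]
  exact inv_anti₀ (Real.rpow_pos_of_pos hn0 s) hk

lemma lam_one_ge_of_KK {n : ℕ} (hn : 1 ≤ n) {s : ℝ} (k : Fin n) (hk : (k : ℕ) < KK n s) :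
    (n : ℝ) ^ (-s) ≤ lam 1 k := by
  have h1 : ¬ KK n s ≤ (k : ℕ) := by omega
  rw [KK_le_iff] at h1
  push Not at h1
  unfold lam
  have hn0 : (0 : ℝ) < n := by exact_mod_cast hn
  rw [Real.rpow_neg_one, Real.rpow_neg hn0.le]
  exact inv_anti₀ (by positivity) h1.le

lemma tendsto_L : Tendsto (fun n : ℕ => ∑ k : Fin n, lam 1 k) atTop atTop := by
  have h1 : Tendsto (fun n : ℕ => Real.log n) atTop atTop :=
    Real.tendsto_log_atTop.comp tendsto_natCast_atTop_atTop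
  refine tendsto_atTop_mono' _ ?_ h1
  filter_upwards [eventually_ge_atTop 1] with n hn
  exact (r1_L_bounds hn).1

/-- the main estimate for `p = 1` -/
lemma one_main {s x δ a : ℝ} (hs : 0 < s) (hs1 : s < 1) (hx : 0 < x) (hx1 : x < 1 - s)
    (hδ : 0 < δ) (hδ1 : δ ≤ 1) (ha : 0 < a) (ha1 : a < 1) :
    ∀ᶠ n : ℕ in atTop, ∃ (GU : Set (Un n)) (G : Set (Fin n → ℝ)),
    haarU n GUᶜ ≤ ENNReal.ofReal δ ∧ ex n Gᶜ ≤ ENNReal.ofReal δ ∧
    ∀ U ∈ GU, ∀ w : Fin n → ℂ, w ≠ 0 → (∃ r : ℝ, 0 < r ∧ (fun k => r * ‖w k‖ ^ 2) ∈ G) →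
      ∀ μ : Measure (Fin n), IsProbabilityMeasure μ →
      (fun i => (μ {i}).toReal) = pp (um U) (lam 1) →
      (1 - s - x) * qf (lam 1) w ≤ qf (tl (lam 1) (KK n s)) w ∧
      qf (tl (lam 1) (KK n s)) w ≤ (1 - s + x) * qf (lam 1) w ∧
      (∀ i, aa (um U) (tl (lam 1) (KK n s)) i ≤ (1 - s + x) * aa (um U) (lam 1) i) ∧
      ∃ Bad : Finset (Fin n), (∀ i, i ∉ Bad →
        (1 - s - x) * aa (um U) (lam 1) i ≤ aa (um U) (tl (lam 1) (KK n s)) i) ∧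
      ∀ t : ℕ, (t : ℝ) ≤ (n : ℝ) ^ a →
        Measure.infinitePi (fun _ : ℕ => μ) {ω | x * qf (lam 1) w ≤
          |Mt (stp (um U) (lam 1)) (qf (lam 1))
          (fun v => qf (fun k => lam 1 k ^ 2) v / ∑ k : Fin n, lam 1 k) w ω t|}
          ≤ ENNReal.ofReal δ ∧
        Measure.infinitePi (fun _ : ℕ => μ) {ω | x * qf (lam 1) w ≤
          |Mt (stp (um U) (lam 1)) (qf (tl (lam 1) (KK n s)))
          (fun v => (2 * qf (fun k => lam 1 k * tl (lam 1) (KK n s) k) v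
            - inj (um U) (lam 1) (tl (lam 1) (KK n s)) v) / ∑ k : Fin n, lam 1 k) w ω t|}
          ≤ ENNReal.ofReal δ ∧
        Measure.infinitePi (fun _ : ℕ => μ) {ω | x * qf (lam 1) w ≤ ∑ t ∈ Finset.range t,
          (∑ i ∈ Bad, ‖rr (um U) (lam 1) (path (stp (um U) (lam 1)) w ω t) i‖ ^ 2)
            / ∑ k : Fin n, lam 1 k} ≤ ENNReal.ofReal δ := by
  have hx1' : x < 1 := by linarith
  set β := δ * x ^ 2 / 10 with hβ
  have hβ0 : 0 < β := by positivity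
  have hβ1 : β < 1 := by
    rw [hβ]
    have : δ * x ^ 2 ≤ 1 := by
      have : x ^ 2 ≤ 1 := by nlinarith
      nlinarith
    linarith
  set s'' := β / 16 with hs''
  have hs''0 : 0 < s'' := by positivity
  have hs''1 : s'' < 1 / 16 := by rw [hs'']; linarith
  set sG := β / 32 with hsG
  have hsG0 : 0 < sG := by positivity
  set η := β / 4 with hη
  have hη0 : 0 < η := by positivity
  obtain ⟨e, he0, hes, he1, hgood⟩ := goodOne_ev hs hs1 hx hs''0 (by linarith) ha ha1 hsG0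
  have hw1 := tail_frac hs hs1 hx hx1
  have hw2 := tail_frac hs''0 (by linarith) hs''0 (x := s'') (by linarith)
  have hW := Ev.and' hw1 hw2 δ hδ
  -- eventual numerical facts
  have hLbig : ∀ᶠ n : ℕ in atTop, 16 / β ≤ ∑ k : Fin n, lam 1 k :=
    tendsto_L.eventually_ge_atTop _
  have hLbig' : ∀ᶠ n : ℕ in atTop, 1 ≤ ∑ k : Fin n, lam 1 k :=
    tendsto_L.eventually_ge_atTop _
  have hpow : ∀ᶠ n : ℕ in atTop, 8 / η ≤ (n : ℝ) ^ (s'' - e) :=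
    ((tendsto_rpow_atTop (by linarith)).comp tendsto_natCast_atTop_atTop).eventually_ge_atTop _
  have hG' := hgood δ hδ
  unfold Ev at hG' hW
  filter_upwards [hG', hW, hLbig, hLbig', hpow, eventually_ge_atTop 1] with n hU hWn hL16 hL1
    hpown hn
  refine ⟨{U | GoodOne n (um U) s x s'' e a sG}, {ξ | (∀ (w : Fin n → ℂ) (r : ℝ), 0 < r →
      (∀ k, r * ‖w k‖ ^ 2 = ξ k) →
      (1 - s - x) * qf (lam 1) w ≤ qf (tl (lam 1) (KK n s)) w ∧
      qf (tl (lam 1) (KK n s)) w ≤ (1 - s + x) * qf (lam 1) w) ∧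
      (∀ (w : Fin n → ℂ) (r : ℝ), 0 < r → (∀ k, r * ‖w k‖ ^ 2 = ξ k) →
      (1 - s'' - s'') * qf (lam 1) w ≤ qf (tl (lam 1) (KK n s'')) w ∧
      qf (tl (lam 1) (KK n s'')) w ≤ (1 - s'' + s'') * qf (lam 1) w)}, hU, hWn, ?_⟩
  rintro U hUg w hw ⟨r, hr, hG1, hG2⟩ μ hμ hpp
  obtain ⟨⟨B₁, hB₁c, hB₁⟩, hup, ⟨B₂, hB₂c, hB₂⟩, hlow, hsub⟩ := hUg
  obtain ⟨w1, w2⟩ := hG1 w r hr (fun _ => rfl)
  obtain ⟨w3, -⟩ := hG2 w r hr (fun _ => rfl)
  refine ⟨w1, w2, hup, B₁, hB₁, ?_⟩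
  intro t ht
  have hn0 : (0 : ℝ) < n := by exact_mod_cast hn
  have hE0 := qf_pos (fun k => lam_pos 1 k) hw
  have hL := sum_lam_pos 1 hn
  set L := ∑ k : Fin n, lam 1 k with hLdef
  have haa : ∀ i, 0 < aa (um U) (lam 1) i := fun i => aa_pos (fun k => lam_pos 1 k) U i
  have hl0 : ∀ k : Fin n, 0 ≤ lam 1 k := fun k => (lam_pos 1 k).le
  have hO := um_colOrth U
  -- tail weights beyond KK n a
  have hlam' : ∀ k : Fin n, KK n a ≤ (k : ℕ) → lam 1 k ≤ (n : ℝ) ^ (-a) :=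
    fun k hk => lam_one_le_of_KK hn k hk
  have hna0 : 0 < (n : ℝ) ^ (-a) := Real.rpow_pos_of_pos hn0 _
  have hta : (t : ℝ) * (n : ℝ) ^ (-a) ≤ 1 := by
    calc (t : ℝ) * (n : ℝ) ^ (-a) ≤ (n : ℝ) ^ a * (n : ℝ) ^ (-a) :=
          mul_le_mul_of_nonneg_right ht hna0.le
      _ = 1 := by rw [← Real.rpow_add hn0, add_neg_cancel, Real.rpow_zero]
  have hfew₁ := few_rows hO hl0 hsG0.le hsub B₁ hB₁c
  have hfew₂ := few_rows hO hl0 hsG0.le hsub B₂ hB₂c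
  -- heavy rows
  have hnum : ∀ k : Fin n, KK n s'' ≤ (k : ℕ) →
      lam 1 k ≤ (⌊(n : ℝ) ^ (1 - e)⌋₊ : ℕ) * η * (L / (2 * n)) / 2 := by
    intro k hk
    refine (lam_one_le_of_KK hn k hk).trans ?_
    have h1 : 1 ≤ (n : ℝ) ^ (1 - e) := Real.one_le_rpow (by exact_mod_cast hn) (by linarith)
    have h2 : (n : ℝ) ^ (1 - e) / 2 ≤ (⌊(n : ℝ) ^ (1 - e)⌋₊ : ℕ) := by
      have h3 := Nat.lt_floor_add_one ((n : ℝ) ^ (1 - e))
      have h4 : 1 ≤ ⌊(n : ℝ) ^ (1 - e)⌋₊ := Nat.le_floor (by simpa using h1)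
      have h5 : (1 : ℝ) ≤ (⌊(n : ℝ) ^ (1 - e)⌋₊ : ℕ) := by exact_mod_cast h4
      linarith
    have h3 : (n : ℝ) ^ (-s'') ≤ (n : ℝ) ^ (1 - e) / 2 * η * (1 / (2 * n)) / 2 := by
      have h4 : (n : ℝ) ^ (1 - e) = (n : ℝ) ^ (-s'') * (n : ℝ) ^ (s'' - e) * n := by
        rw [← Real.rpow_add hn0, ← Real.rpow_add_one hn0.ne']
        congr 1
        ring
      rw [h4]
      have h5 : (n : ℝ) ^ (-s'') * (n : ℝ) ^ (s'' - e) * n / 2 * η * (1 / (2 * n)) / 2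
          = (n : ℝ) ^ (-s'') * ((n : ℝ) ^ (s'' - e) * η / 8) := by
        field_simp
        ring
      rw [h5]
      have h6 : 1 ≤ (n : ℝ) ^ (s'' - e) * η / 8 := by
        rw [div_le_iff₀ hη0] at hpown
        linarith
      have h7 : 0 < (n : ℝ) ^ (-s'') := Real.rpow_pos_of_pos hn0 _
      nlinarith
    refine h3.trans ?_
    gcongr
  have hheavy : ∀ v : Fin n → ℂ, qf (lam 1) v ≤ qf (lam 1) w →
      Hv (um U) (lam 1) (η * qf (lam 1) w) v ≤ 4 * sG * qf (fun k => lam 1 k ^ 2) v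
      + 2 * qf (fun k => lam 1 k * tl (lam 1) (KK n a) k) v
      + 2 * qf (fun k => lam 1 k * hd (lam 1) (KK n s'') k) v := by
    intro v hv
    exact heavy_le hO hl0 hsG0.le hη0 (α := L / (2 * n)) (by positivity) hE0 hsub hlow hnum v hv
  have hhd : qf (hd (lam 1) (KK n s'')) w ≤ 2 * s'' * qf (lam 1) w := by
    have h1 := qf_hd_add_tl (lam 1) (KK n s'') w
    have h2 : (1 - s'' - s'') * qf (lam 1) w = qf (lam 1) w - 2 * s'' * qf (lam 1) w := by ring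
    rw [h2] at w3
    linarith
  have hHv := heavy_diss_le hO haa hl0 hL hna0.le hsG0.le (g := 2 * s'') (by positivity)
    hlam' B₂ hfew₂ hB₂ w hhd hheavy t
  -- numerical bounds
  have hLt : (t : ℝ) * (n : ℝ) ^ (-a) / L ≤ β / 16 := by
    rw [div_le_iff₀ hL]
    rw [div_le_iff₀ hβ0] at hL16
    linarith
  have hsum : 2 * s'' + 2 * s'' + 8 * sG + 4 * t * (n : ℝ) ^ (-a) / L ≤ 3 * β / 4 := by
    have e1 : 4 * t * (n : ℝ) ^ (-a) / L = 4 * ((t : ℝ) * (n : ℝ) ^ (-a) / L) := by ring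
    rw [e1, hs'', hsG]
    linarith
  have hfin : 10 * (η + (2 * s'' + 2 * s'' + 8 * sG + 4 * t * (n : ℝ) ^ (-a) / L)) / x ^ 2
      ≤ δ := by
    rw [div_le_iff₀ (by positivity)]
    have e2 : δ * x ^ 2 = 10 * β := by
      rw [hβ]
      ring
    rw [e2, hη]
    linarith
  refine ⟨?_, ?_, ?_⟩
  · exact (core_X hO haa hl0 hL hη0.le w hE0 hx t hHv μ hpp).trans
      (ENNReal.ofReal_le_ofReal hfin)
  · exact (core_Y hO haa hl0 hL (KK n s) hη0.le w hE0 hx t hHv μ hpp).trans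
      (ENNReal.ofReal_le_ofReal hfin)
  · refine (core_B hO haa hl0 hL hna0.le hsG0.le hlam' B₁ hfew₁ w hE0 hx t μ hpp).trans
      (ENNReal.ofReal_le_ofReal ?_)
    rw [div_le_iff₀ hx]
    have e1 : 2 * t * (n : ℝ) ^ (-a) / L = 2 * ((t : ℝ) * (n : ℝ) ^ (-a) / L) := by ring
    rw [e1, hsG]
    have e2 : β ≤ δ * x := by
      rw [hβ]
      have : x ^ 2 ≤ x := by nlinarith
      nlinarith
    linarith

end Pool.Agent.Helper579.Cg
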