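import Mathlib
import Pool.Agent.Helper579.CgMain4

set_option autoImplicit false
set_option maxHeartbeats 4000000

namespace Pool.Agent.Helper579.Cg

open MeasureTheory Filter Matrix
open scoped ENNReal Topology ComplexConjugate

lemma three_le {α : Type*} [MeasurableSpace α] (ν : Measure α) (A B C D : Set α) {δ : ℝ}
    (hδ : 0 ≤ δ) (hA : ν A ≤ ENNReal.ofReal (δ / 3)) (hB : ν B ≤ ENNReal.ofReal (δ / 3))
    (hC : ν C ≤ ENNReal.ofReal (δ / 3)) (h : D ⊆ A ∪ B ∪ C) : ν D ≤ ENNReal.ofReal δ := by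
  have e : ENNReal.ofReal δ = ENNReal.ofReal (δ / 3) + ENNReal.ofReal (δ / 3)
      + ENNReal.ofReal (δ / 3) := by
    rw [← ENNReal.ofReal_add (by positivity) (by positivity),
      ← ENNReal.ofReal_add (by positivity) (by positivity)]
    congr 1
    ring
  rw [e]
  refine (measure_mono h).trans ((measure_union_le _ _).trans ?_)
  exact add_le_add ((measure_union_le _ _).trans (add_le_add hA hB)) hC

/-- RCD, `p = 1`, lower bound -/
lemma rcd_one_low {ε : ℝ} (hε : 0 < ε) (hε1 : ε < 1) {δ' : ℝ} (hδ' : 0 < δ') {δ : ℝ}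
    (hδ : 0 < δ) :
    REv 1 (fun n U w ω => rcdLow U (lam 1) ε w ω
      ((n : ℝ) ^ (2 * (1 - ε) / (2 - ε) - δ'))) δ := by
  have h2ε : 0 < 2 - ε := by linarith
  set θ := 2 * (1 - ε) / (2 - ε) with hθ
  have hθ0 : 0 < θ := div_pos (by linarith) h2ε
  have hθ1 : θ < 1 := by
    rw [hθ, div_lt_one h2ε]
    linarith
  set s := max (θ - δ') (θ / 2) with hs
  have hs0 : 0 < s := lt_of_lt_of_le (half_pos hθ0) (le_max_right _ _)
  have hsθ : s < θ := max_lt (by linarith) (by linarith)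
  have hs1 : s < 1 := hsθ.trans hθ1
  -- the gap
  have hgap : 0 < (θ - s) * (2 - ε) := mul_pos (by linarith) h2ε
  set x := min ((θ - s) * (2 - ε) / 12) ((1 - s) / 2) with hx
  have hx0 : 0 < x := lt_min (by positivity) (by linarith)
  have hx1 : x < 1 - s := (min_le_right _ _).trans_lt (by linarith)
  have hx2 : x ≤ (θ - s) * (2 - ε) / 12 := min_le_left _ _
  set a := (s + 1) / 2 with ha
  have ha0 : 0 < a := by rw [ha]; linarith
  have ha1 : a < 1 := by rw [ha]; linarith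
  have hsa : s ≤ a := by rw [ha]; linarith
  set δ₁ := min δ 1 with hδ₁
  have hδ₁0 : 0 < δ₁ := lt_min hδ one_pos
  have hδ₁δ : δ₁ ≤ δ := min_le_left _ _
  have hδ₁1 : δ₁ ≤ 1 := min_le_right _ _
  have hmain := one_main hs0 hs1 hx0 hx1 (δ := δ₁ / 3) (by positivity) (by linarith) ha0 ha1
  have hLbig : ∀ᶠ n : ℕ in atTop, 2 / x ≤ ∑ k : Fin n, lam 1 k :=
    tendsto_L.eventually_ge_atTop _
  unfold REv
  filter_upwards [hmain, hLbig, eventually_ge_atTop 1] with n hn hLx hn1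
  obtain ⟨GU, G, h1, h2, h3⟩ := hn
  refine ⟨GU, G, h1.trans (ENNReal.ofReal_le_ofReal (by linarith)),
    h2.trans (ENNReal.ofReal_le_ofReal (by linarith)), ?_⟩
  intro U hU w hw hr μ hμ hpp
  obtain ⟨w1, -, -, Bad, hBad, ht⟩ := h3 U hU w hw hr μ hμ hpp
  have hn0 : (0 : ℝ) < n := by exact_mod_cast hn1
  have hn1' : (1 : ℝ) ≤ n := by exact_mod_cast hn1
  set T := ⌊(n : ℝ) ^ s⌋₊ with hT
  have hTs : (T : ℝ) ≤ (n : ℝ) ^ s := Nat.floor_le (by positivity)
  have hTa : (T : ℝ) ≤ (n : ℝ) ^ a := hTs.trans (Real.rpow_le_rpow_of_exponent_le hn1' hsa)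
  obtain ⟨pX, pY, pB⟩ := ht T hTa
  have hE0 := qf_pos (fun k => lam_pos 1 k) hw
  have hL := sum_lam_pos 1 hn1
  have haa : ∀ i, 0 < aa (um U) (lam 1) i := fun i => aa_pos (fun k => lam_pos 1 k) U i
  have hl0 : ∀ k : Fin n, 0 ≤ lam 1 k := fun k => (lam_pos 1 k).le
  have hns : 0 < (n : ℝ) ^ (-s) := Real.rpow_pos_of_pos hn0 _
  refine (three_le _ _ _ _ _ hδ₁0.le pX pY pB ?_).trans (ENNReal.ofReal_le_ofReal hδ₁δ)
  intro ω hω
  by_contra hcon
  simp only [Set.mem_union, Set.mem_ofPred_eq, not_or, not_le] at hcon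
  obtain ⟨⟨cX, cY⟩, cB⟩ := hcon
  apply hω
  refine ⟨T, ?_, ?_⟩
  · refine le_trans ?_ (Nat.lt_floor_add_one _).le
    exact Real.rpow_le_rpow_of_exponent_le hn1' (le_max_left _ _)
  · have hTx : 2 * T * (n : ℝ) ^ (-s) / (∑ k : Fin n, lam 1 k) ≤ x := by
      rw [div_le_iff₀ hL]
      rw [div_le_iff₀ hx0] at hLx
      have : (T : ℝ) * (n : ℝ) ^ (-s) ≤ 1 := by
        calc (T : ℝ) * (n : ℝ) ^ (-s) ≤ (n : ℝ) ^ s * (n : ℝ) ^ (-s) :=
              mul_le_mul_of_nonneg_right hTs hns.le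
          _ = 1 := by rw [← Real.rpow_add hn0, add_neg_cancel, Real.rpow_zero]
      linarith
    have hkey := path_lower (K := KK n s) (τ := 1 - s) (x := x) (lam' := (n : ℝ) ^ (-s))
      (um_colOrth U) haa hl0 hL hx0.le (by linarith) (by linarith) (by linarith) hns.le
      (fun k hk => lam_one_le_of_KK hn1 k hk) Bad hBad w T ω hTx w1 cX.le cY.le cB.le
    have hnum : ε * (1 + (1 - s)) < 2 * (1 - s) - 6 * x := by
      have e1 : (2 - ε) * θ = 2 * (1 - ε) := by
        rw [hθ]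
        field_simp
      nlinarith
    have h4 : (1 + (1 - s)) * (ε * qf (lam 1) w)
        < (1 + (1 - s)) * qf (lam 1) (path (stp (um U) (lam 1)) w ω T) := by
      refine lt_of_lt_of_le ?_ hkey
      nlinarith
    exact lt_of_mul_lt_mul_left h4 (by linarith)

/-- RCD, `p = 1`, upper bound -/
lemma rcd_one_up {ε : ℝ} (hε : 0 < ε) (hε1 : ε < 1) {δ' : ℝ} (hδ' : 0 < δ') {δ : ℝ}
    (hδ : 0 < δ) :
    REv 1 (fun n U w ω => rcdUp U (lam 1) ε w ω
      ((n : ℝ) ^ (2 * (1 - ε) / (2 - ε) + δ'))) δ := by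
  have h2ε : 0 < 2 - ε := by linarith
  set θ := 2 * (1 - ε) / (2 - ε) with hθ
  have hθ0 : 0 < θ := div_pos (by linarith) h2ε
  have hθ1 : θ < 1 := by
    rw [hθ, div_lt_one h2ε]
    linarith
  set b := min 1 (θ + δ') with hb
  have hbθ : θ < b := lt_min hθ1 (by linarith)
  have hb1 : b ≤ 1 := min_le_left _ _
  have hb2 : b ≤ θ + δ' := min_le_right _ _
  set s := θ + (b - θ) / 3 with hs
  set a := θ + 2 * (b - θ) / 3 with ha
  have hs0 : 0 < s := by rw [hs]; linarith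
  have hsθ : θ < s := by rw [hs]; linarith
  have hsa : s < a := by rw [hs, ha]; linarith
  have hab : a < b := by rw [ha]; linarith
  have ha1 : a < 1 := by linarith
  have hs1 : s < 1 := by linarith
  have ha0 : 0 < a := by linarith
  have hgap : 0 < (s - θ) * (2 - ε) := mul_pos (by linarith) h2ε
  set x := min ((s - θ) * (2 - ε) / 12) ((1 - s) / 2) with hx
  have hx0 : 0 < x := lt_min (by positivity) (by linarith)
  have hx1 : x < 1 - s := (min_le_right _ _).trans_lt (by linarith)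
  have hx2 : x ≤ (s - θ) * (2 - ε) / 12 := min_le_left _ _
  set δ₁ := min δ 1 with hδ₁
  have hδ₁0 : 0 < δ₁ := lt_min hδ one_pos
  have hδ₁δ : δ₁ ≤ δ := min_le_left _ _
  have hδ₁1 : δ₁ ≤ 1 := min_le_right _ _
  have hmain := one_main hs0 hs1 hx0 hx1 (δ := δ₁ / 3) (by positivity) (by linarith) ha0 ha1
  -- the head is small at some time
  have hsmall : ∀ᶠ n : ℕ in atTop, 2 * (Real.log n + 1) * (n : ℝ) ^ (s - a) ≤ δ₁ / 3 * x := by
    have h1 : Tendsto (fun y : ℝ => 2 * (Real.log y + 1) * y ^ (s - a)) atTop (𝓝 0) := by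
      have hd : 0 < a - s := by linarith
      have h2 : Tendsto (fun y : ℝ => Real.log y / y ^ (a - s)) atTop (𝓝 0) :=
        (isLittleO_log_rpow_atTop hd).tendsto_div_nhds_zero
      have h3 : Tendsto (fun y : ℝ => y ^ (-(a - s))) atTop (𝓝 0) :=
        tendsto_rpow_neg_atTop hd
      have h4 := (h2.add h3).const_mul 2
      rw [add_zero, mul_zero] at h4
      refine h4.congr' ?_
      filter_upwards [eventually_gt_atTop 0] with y hy
      have e1 : s - a = -(a - s) := by ring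
      rw [e1, Real.rpow_neg hy.le]
      have : y ^ (a - s) ≠ 0 := (Real.rpow_pos_of_pos hy _).ne'
      field_simp
    have h2 := (h1.comp tendsto_natCast_atTop_atTop).eventually
      (gt_mem_nhds (show (0 : ℝ) < δ₁ / 3 * x by positivity))
    filter_upwards [h2] with n hn
    exact hn.le
  unfold REv
  filter_upwards [hmain, hsmall, eventually_ge_atTop 1] with n hn hsm hn1
  obtain ⟨GU, G, h1, h2, h3⟩ := hn
  refine ⟨GU, G, h1.trans (ENNReal.ofReal_le_ofReal (by linarith)),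
    h2.trans (ENNReal.ofReal_le_ofReal (by linarith)), ?_⟩
  intro U hU w hw hr μ hμ hpp
  obtain ⟨-, w2, hup, Bad, hBad, ht⟩ := h3 U hU w hw hr μ hμ hpp
  have hn0 : (0 : ℝ) < n := by exact_mod_cast hn1
  have hn1' : (1 : ℝ) ≤ n := by exact_mod_cast hn1
  have hE0 := qf_pos (fun k => lam_pos 1 k) hw
  have hL := sum_lam_pos 1 hn1
  have haa : ∀ i, 0 < aa (um U) (lam 1) i := fun i => aa_pos (fun k => lam_pos 1 k) U i
  have hl0 : ∀ k : Fin n, 0 ≤ lam 1 k := fun k => (lam_pos 1 k).le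
  have hns : 0 < (n : ℝ) ^ (-s) := Real.rpow_pos_of_pos hn0 _
  set T := ⌊(n : ℝ) ^ a⌋₊ with hT
  have hna1 : 1 ≤ (n : ℝ) ^ a := Real.one_le_rpow hn1' ha0.le
  have hT1 : 1 ≤ T := Nat.le_floor (by simpa using hna1)
  have hTa : (T : ℝ) ≤ (n : ℝ) ^ a := Nat.floor_le (by positivity)
  have hTlow : (n : ℝ) ^ a / 2 ≤ T := by
    have h3 := Nat.lt_floor_add_one ((n : ℝ) ^ a)
    rw [← hT] at h3
    have h5 : (1 : ℝ) ≤ T := by exact_mod_cast hT1
    linarith
  obtain ⟨t, htT, hEX⟩ := exists_time (um_colOrth U) haa hl0 hL (KK n s) hns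
    (fun k hk => lam_one_ge_of_KK hn1 k hk) w hT1
  have htT' : (t : ℝ) ≤ T := by exact_mod_cast htT.le
  obtain ⟨pX, pY, -⟩ := ht t (htT'.trans hTa)
  have pS := path_markov (Inv := fun _ => True) μ (st := stp (um U) (lam 1))
      (fun _ _ _ => trivial) t (qf (hd (lam 1) (KK n s)))
      (fun v _ => qf_nonneg (hd_nonneg hl0 _) v) w trivial (c := x * qf (lam 1) w)
      (by positivity)
  rw [hpp] at pS
  have pS' : Measure.infinitePi (fun _ : ℕ => μ) {ω | x * qf (lam 1) w ≤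
      qf (hd (lam 1) (KK n s)) (path (stp (um U) (lam 1)) w ω t)}
      ≤ ENNReal.ofReal (δ₁ / 3) := by
    refine pS.trans (ENNReal.ofReal_le_ofReal ?_)
    rw [div_le_iff₀ (by positivity)]
    refine hEX.trans ?_
    have h4 : (∑ k : Fin n, lam 1 k) / ((n : ℝ) ^ (-s) * T) ≤ δ₁ / 3 * x := by
      have hTpos : (0 : ℝ) < T := by exact_mod_cast hT1
      rw [div_le_iff₀ (by positivity)]
      have h5 := (r1_L_bounds hn1).2
      have h6 : 2 * (Real.log n + 1) * (n : ℝ) ^ (s - a) * ((n : ℝ) ^ (-s) * ((n : ℝ) ^ a / 2))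
          = Real.log n + 1 := by
        have e1 : (n : ℝ) ^ (s - a) * (n : ℝ) ^ (-s) * (n : ℝ) ^ a = 1 := by
          rw [← Real.rpow_add hn0, ← Real.rpow_add hn0]
          have : s - a + -s + a = 0 := by ring
          rw [this, Real.rpow_zero]
        calc _ = (Real.log n + 1) * ((n : ℝ) ^ (s - a) * (n : ℝ) ^ (-s) * (n : ℝ) ^ a) := by
              ring
          _ = _ := by rw [e1, mul_one]
      have h7 : 0 ≤ Real.log n := Real.log_nonneg hn1'
      have h8 : 0 ≤ 2 * (Real.log n + 1) * (n : ℝ) ^ (s - a) := by positivity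
      calc (∑ k : Fin n, lam 1 k) ≤ Real.log n + 1 := h5
        _ = 2 * (Real.log n + 1) * (n : ℝ) ^ (s - a)
            * ((n : ℝ) ^ (-s) * ((n : ℝ) ^ a / 2)) := h6.symm
        _ ≤ 2 * (Real.log n + 1) * (n : ℝ) ^ (s - a) * ((n : ℝ) ^ (-s) * T) := by
            gcongr
        _ ≤ δ₁ / 3 * x * ((n : ℝ) ^ (-s) * T) :=
            mul_le_mul_of_nonneg_right hsm (by positivity)
    calc _ ≤ (δ₁ / 3 * x) * qf (lam 1) w := mul_le_mul_of_nonneg_right h4 hE0.le
      _ = _ := by ring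
  refine (three_le _ _ _ _ _ hδ₁0.le pX pY pS' ?_).trans (ENNReal.ofReal_le_ofReal hδ₁δ)
  intro ω hω
  by_contra hcon
  simp only [Set.mem_union, Set.mem_ofPred_eq, not_or, not_le] at hcon
  obtain ⟨⟨cX, cY⟩, cS⟩ := hcon
  apply hω
  refine ⟨t, ?_, ?_⟩
  · refine (htT'.trans hTa).trans ?_
    exact Real.rpow_le_rpow_of_exponent_le hn1' (by linarith)
  · have hkey := path_upper (K := KK n s) (τ := 1 - s) (x := x)
      (um_colOrth U) haa hl0 hL hx0.le (by linarith) (by linarith) (by linarith)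
      hup w t ω w2 cX.le cY.le cS.le
    have hnum : 2 * (1 - s) + 6 * x ≤ ε * (1 + (1 - s)) := by
      have e1 : (2 - ε) * θ = 2 * (1 - ε) := by
        rw [hθ]
        field_simp
      nlinarith
    have h4 : (1 + (1 - s)) * qf (lam 1) (path (stp (um U) (lam 1)) w ω t)
        ≤ (1 + (1 - s)) * (ε * qf (lam 1) w) := by
      refine hkey.trans ?_
      nlinarith
    exact le_of_mul_le_mul_left h4 (by linarith)

/-- RCD, `p = 1` -/
lemma rcd_one {ε : ℝ} (hε : 0 < ε) (hε1 : ε < 1) :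
    ExponentP (PrRCD 1 ε) (2 * (1 - ε) / (2 - ε)) :=
  rcd_exponent (fun _ hδ' _ hδ => rcd_one_low hε hε1 hδ' hδ)
    (fun _ hδ' _ hδ => rcd_one_up hε hε1 hδ' hδ)

end Pool.Agent.Helper579.Cg
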