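import Mathlib
import Pool.Agent.Helper579.CgMain5

set_option autoImplicit false

namespace Pool.Agent.Helper579.Cg

open MeasureTheory Filter Matrix
open scoped ENNReal Topology ComplexConjugate

/-- combination of exact orders -/
lemma theta_combine {p ε : ℝ} {a b : ℕ → ℝ} (h1 : ThetaP (PrCG p ε) a)
    (h2 : ThetaP (PrRCD p ε) b) (δ : ℝ) (hδ : 0 < δ) :
    ∃ c C : ℝ, 0 < c ∧ 0 < C ∧ ∀ᶠ n : ℕ in atTop, ENNReal.ofReal (1 - δ) ≤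
      Pr p ε n {T | ∃ m₁ m₂ : ℕ, T.1 = m₁ ∧ T.2 = m₂ ∧ c * a n ≤ m₁ ∧ m₁ ≤ C * a n ∧
        c * b n ≤ m₂ ∧ m₂ ≤ C * b n ∧ (0 < a n → 0 < b n → 0 < m₁)} := by
  obtain ⟨c₁, C₁, hc₁, hC₁, e1⟩ := h1 (δ / 2) (half_pos hδ)
  obtain ⟨c₂, C₂, hc₂, hC₂, e2⟩ := h2 (δ / 2) (half_pos hδ)
  refine ⟨min c₁ c₂, max C₁ C₂, lt_min hc₁ hc₂, lt_max_of_lt_left hC₁, ?_⟩
  filter_upwards [e1, e2, eventually_ge_atTop 1] with n f1 f2 hn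
  have k1 : (1 : ℝ≥0∞) - ENNReal.ofReal (δ / 2) ≤ PrCG p ε n
      {T | ∃ m : ℕ, T = m ∧ c₁ * a n ≤ m ∧ m ≤ C₁ * a n} := by
    rw [ENNReal.ofReal_sub _ (by positivity), ENNReal.ofReal_one] at f1
    exact f1
  have k2 : (1 : ℝ≥0∞) - ENNReal.ofReal (δ / 2) ≤ PrRCD p ε n
      {T | ∃ m : ℕ, T = m ∧ c₂ * b n ≤ m ∧ m ≤ C₂ * b n} := by
    rw [ENNReal.ofReal_sub _ (by positivity), ENNReal.ofReal_one] at f2
    exact f2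
  have k3 := inter_ge p ε hn k1 k2
  rw [← ENNReal.ofReal_add (by positivity) (by positivity), add_halves] at k3
  refine (one_sub_ofReal hδ.le).trans (k3.trans (Pr_mono p ε ?_))
  rintro ⟨T₁, T₂⟩ ⟨⟨m₁, g1, g2, g3⟩, ⟨m₂, g4, g5, g6⟩⟩
  simp only at g1 g4
  have hm₁ : (0 : ℝ) ≤ m₁ := Nat.cast_nonneg _
  have hm₂ : (0 : ℝ) ≤ m₂ := Nat.cast_nonneg _
  have ha : 0 ≤ a n := by
    by_contra h
    push Not at h
    have : C₁ * a n < 0 := mul_neg_of_pos_of_neg hC₁ h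
    linarith
  have hb : 0 ≤ b n := by
    by_contra h
    push Not at h
    have : C₂ * b n < 0 := mul_neg_of_pos_of_neg hC₂ h
    linarith
  refine ⟨m₁, m₂, g1, g4, ?_, ?_, ?_, ?_, ?_⟩
  · exact (mul_le_mul_of_nonneg_right (min_le_left _ _) ha).trans g2
  · exact g3.trans (mul_le_mul_of_nonneg_right (le_max_left _ _) ha)
  · exact (mul_le_mul_of_nonneg_right (min_le_right _ _) hb).trans g5
  · exact g6.trans (mul_le_mul_of_nonneg_right (le_max_right _ _) hb)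
  · intro h _
    have : (0 : ℝ) < m₁ := lt_of_lt_of_le (mul_pos hc₁ h) g2
    exact_mod_cast this

/-- combination of exponents -/
lemma exponent_combine {p ε θ₁ θ₂ : ℝ} (h1 : ExponentP (PrCG p ε) θ₁)
    (h2 : ExponentP (PrRCD p ε) θ₂) (δ : ℝ) (hδ : 0 < δ) :
    Tendsto (fun n : ℕ => Pr p ε n {T | ∃ m₁ m₂ : ℕ, T.1 = m₁ ∧ T.2 = m₂ ∧
        (n : ℝ) ^ (θ₁ - δ) ≤ m₁ ∧ m₁ ≤ (n : ℝ) ^ (θ₁ + δ) ∧
        (n : ℝ) ^ (θ₂ - δ) ≤ m₂ ∧ m₂ ≤ (n : ℝ) ^ (θ₂ + δ)}) atTop (𝓝 1) := by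
  have e1 := h1 δ hδ
  have e2 := h2 δ hδ
  rw [tendsto_order]
  constructor
  · intro b hb
    have hb' : b ≠ ⊤ := (hb.trans ENNReal.one_lt_top).ne
    have hb1 : b.toReal < 1 := by
      rw [← ENNReal.toReal_one]
      exact (ENNReal.toReal_lt_toReal hb' ENNReal.one_ne_top).2 hb
    set x := (1 - b.toReal) / 3 with hx
    have hx0 : 0 < x := by
      rw [hx]
      linarith
    have hxlt : ENNReal.ofReal (1 - x) < 1 := by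
      rw [← ENNReal.ofReal_one]
      exact (ENNReal.ofReal_lt_ofReal_iff one_pos).2 (by linarith)
    filter_upwards [(tendsto_order.1 e1).1 _ hxlt, (tendsto_order.1 e2).1 _ hxlt,
      eventually_ge_atTop 1] with n f1 f2 hn
    have k1 : (1 : ℝ≥0∞) - ENNReal.ofReal x ≤ PrCG p ε n
        {T | ∃ m : ℕ, T = m ∧ (n : ℝ) ^ (θ₁ - δ) ≤ m ∧ m ≤ (n : ℝ) ^ (θ₁ + δ)} := by
      rw [ENNReal.ofReal_sub _ hx0.le, ENNReal.ofReal_one] at f1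
      exact f1.le
    have k2 : (1 : ℝ≥0∞) - ENNReal.ofReal x ≤ PrRCD p ε n
        {T | ∃ m : ℕ, T = m ∧ (n : ℝ) ^ (θ₂ - δ) ≤ m ∧ m ≤ (n : ℝ) ^ (θ₂ + δ)} := by
      rw [ENNReal.ofReal_sub _ hx0.le, ENNReal.ofReal_one] at f2
      exact f2.le
    have k3 := inter_ge p ε hn k1 k2
    rw [← ENNReal.ofReal_add hx0.le hx0.le] at k3
    have k4 : ENNReal.ofReal (1 - (x + x)) ≤ Pr p ε n {T | ∃ m₁ m₂ : ℕ, T.1 = m₁ ∧ T.2 = m₂ ∧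
        (n : ℝ) ^ (θ₁ - δ) ≤ m₁ ∧ m₁ ≤ (n : ℝ) ^ (θ₁ + δ) ∧
        (n : ℝ) ^ (θ₂ - δ) ≤ m₂ ∧ m₂ ≤ (n : ℝ) ^ (θ₂ + δ)} := by
      refine (one_sub_ofReal (by positivity)).trans (k3.trans (Pr_mono p ε ?_))
      rintro ⟨T₁, T₂⟩ ⟨⟨m₁, g1, g2, g3⟩, ⟨m₂, g4, g5, g6⟩⟩
      exact ⟨m₁, m₂, g1, g4, g2, g3, g5, g6⟩
    refine lt_of_lt_of_le ?_ k4
    rw [ENNReal.lt_ofReal_iff_toReal_lt hb']
    rw [hx]
    linarith
  · intro b hb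
    filter_upwards [eventually_ge_atTop 1] with n hn1
    exact (Pr_le_one p ε hn1 _).trans_lt hb

end Pool.Agent.Helper579.Cg
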