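import Mathlib

set_option autoImplicit false
set_option linter.unusedSectionVars false

namespace Pool.Agent.Helper579.Recovery

open Finset

/-- `IsAlg Λ n A`: the map `A` is computed by an adaptive algorithm using `n` functionals
from `Λ`. With `n = 0` it is constant; with `n + 1` there is a first functional `L` and, for
every possible value `v`, an algorithm `A' v` using `n` functionals, and `A x = A' (L x) x`. -/
def IsAlg {X Y : Type*} (Λ : Set (X → ℝ)) : ℕ → (X → Y) → Prop
  | 0, A => ∃ c, ∀ x, A x = c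
  | n + 1, A => ∃ L ∈ Λ, ∃ A' : ℝ → X → Y, (∀ v, IsAlg Λ n (A' v)) ∧ ∀ x, A x = A' (L x) x

section IsAlg

variable {X Y Z : Type*} {Λ : Set (X → ℝ)}

lemma isAlg_const (c : Y) : IsAlg Λ 0 (fun _ => c) := ⟨c, fun _ => rfl⟩

lemma isAlg_one {L : X → ℝ} (hL : L ∈ Λ) : IsAlg Λ 1 L :=
  ⟨L, hL, fun v _ => v, fun v => isAlg_const v, fun _ => rfl⟩

lemma IsAlg.bind {n m : ℕ} {A : X → Y} (hA : IsAlg Λ n A) {K : Y → X → Z}
    (hK : ∀ y, IsAlg Λ m (K y)) : IsAlg Λ (m + n) (fun x => K (A x) x) := by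
  induction n generalizing A with
  | zero =>
    obtain ⟨c, hc⟩ := hA
    have : (fun x => K (A x) x) = K c := by funext x; rw [hc]
    rw [this]
    exact hK c
  | succ n ih =>
    obtain ⟨L, hL, A', hA', h⟩ := hA
    exact ⟨L, hL, fun v x => K (A' v x) x, fun v => ih (hA' v), fun x => by simp only [h]⟩

lemma IsAlg.post {n : ℕ} {A : X → Y} (hA : IsAlg Λ n A) (φ : Y → Z) :
    IsAlg Λ n (fun x => φ (A x)) := by
  induction n generalizing A with
  | zero =>
    obtain ⟨c, hc⟩ := hA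
    exact ⟨φ c, fun x => by simp only [hc]⟩
  | succ n ih =>
    obtain ⟨L, hL, A', hA', h⟩ := hA
    exact ⟨L, hL, fun v x => φ (A' v x), fun v => ih (hA' v), fun x => by simp only [h]⟩

lemma IsAlg.succ {n : ℕ} {A : X → Y} (hA : IsAlg Λ n A) (hne : Λ.Nonempty) :
    IsAlg Λ (n + 1) A := by
  obtain ⟨L, hL⟩ := hne
  exact ⟨L, hL, fun _ => A, fun _ => hA, fun _ => rfl⟩

lemma IsAlg.mono {n m : ℕ} {A : X → Y} (hA : IsAlg Λ n A) (hne : Λ.Nonempty) (h : n ≤ m) :
    IsAlg Λ m A := by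
  induction m, h using Nat.le_induction with
  | base => exact hA
  | succ m _ ih => exact ih.succ hne

lemma IsAlg.pair {n m : ℕ} {A : X → Y} {B : X → Z} (hA : IsAlg Λ n A) (hB : IsAlg Λ m B) :
    IsAlg Λ (m + n) (fun x => (A x, B x)) :=
  hA.bind (K := fun y x => (y, B x)) (fun y => hB.post (fun z => (y, z)))

lemma isAlg_pi {m : ℕ} : ∀ {k : ℕ} {A : Fin k → X → Y}, (∀ i, IsAlg Λ m (A i)) →
    IsAlg Λ (k * m) (fun x => fun i => A i x)
  | 0, A, _ => by
    rw [Nat.zero_mul]
    exact ⟨fun i => i.elim0, fun x => by funext i; exact i.elim0⟩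
  | k + 1, A, h => by
    have h1 := isAlg_pi (k := k) (A := fun i => A i.succ) (fun i => h i.succ)
    have h2 := ((h1.pair (h 0)).post (fun p : (Fin k → Y) × Y => (Fin.cons p.2 p.1 : Fin (k+1) → Y)))
    have e : (fun x => fun i => A i x) = fun x =>
        (Fin.cons (A 0 x) (fun i : Fin k => A i.succ x) : Fin (k+1) → Y) := by
      funext x i
      refine Fin.cases ?_ (fun i => ?_) i
      · simp
      · simp
    rw [e]
    have e2 : (k + 1) * m = m + k * m := by ring
    rw [e2]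
    exact h2

end IsAlg

/-! ### Rounding lemma -/

lemma round_ratio (s : Finset ℕ) (y : ℕ → ℝ) (code : ℕ → ℕ) (j : ℕ) (hj : j ∈ s) (R : ℕ)
    (hR : 1 ≤ R) (hcode : ∀ i ∈ s, code i < R)
    (hW : 4 * (R : ℝ) * (∑ i ∈ s.erase j, |y i|) < |y j|) :
    (round ((∑ i ∈ s, (code i : ℝ) * y i) / (∑ i ∈ s, y i))).toNat = code j := by
  set W := ∑ i ∈ s.erase j, |y i| with hWdef
  have hW0 : 0 ≤ W := sum_nonneg fun i _ => abs_nonneg _
  have hRr : (1 : ℝ) ≤ R := by exact_mod_cast hR
  set a := ∑ i ∈ s, y i with ha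
  set b := ∑ i ∈ s, (code i : ℝ) * y i with hb
  have h1 : a = y j + ∑ i ∈ s.erase j, y i := (add_sum_erase s y hj).symm
  have h2 : b = code j * y j + ∑ i ∈ s.erase j, (code i : ℝ) * y i :=
    (add_sum_erase s (fun i => (code i : ℝ) * y i) hj).symm
  have h3 : |∑ i ∈ s.erase j, y i| ≤ W := abs_sum_le_sum_abs _ _
  have h4 : b - code j * a = ∑ i ∈ s.erase j, ((code i : ℝ) - code j) * y i := by
    rw [h1, h2, mul_add, mul_sum]
    have : ∑ i ∈ s.erase j, ((code i : ℝ) - code j) * y i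
        = ∑ i ∈ s.erase j, (code i : ℝ) * y i - ∑ i ∈ s.erase j, (code j : ℝ) * y i := by
      rw [← sum_sub_distrib]
      apply sum_congr rfl
      intro i _; ring
    rw [this]; ring
  have h5 : |b - code j * a| ≤ R * W := by
    rw [h4, hWdef, mul_sum]
    refine (abs_sum_le_sum_abs _ _).trans (sum_le_sum fun i hi => ?_)
    rw [abs_mul]
    apply mul_le_mul_of_nonneg_right _ (abs_nonneg _)
    have hi' : (code i : ℝ) < R := by exact_mod_cast hcode i (mem_of_mem_erase hi)
    have hj' : (code j : ℝ) < R := by exact_mod_cast hcode j hj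
    have hi0 : (0 : ℝ) ≤ code i := by positivity
    have hj0 : (0 : ℝ) ≤ code j := by positivity
    rw [abs_le]; constructor <;> linarith
  have h6 : |y j| - W ≤ |a| := by
    have : y j = a - ∑ i ∈ s.erase j, y i := by rw [h1]; ring
    have h7 : |y j| ≤ |a| + |∑ i ∈ s.erase j, y i| := by
      rw [this]; exact abs_sub _ _
    linarith
  have h7 : 2 * ((R : ℝ) * W) < |y j| - W := by nlinarith
  have h8 : 0 < |a| := by nlinarith
  have hane : a ≠ 0 := abs_pos.mp h8
  have h9 : |b / a - code j| < 1 / 2 := by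
    have : b / a - code j = (b - code j * a) / a := by field_simp
    rw [this, abs_div, div_lt_iff₀ h8]
    linarith
  have h10 : round (b / a) = (code j : ℤ) := by
    rw [round_eq_iff]
    rw [abs_lt] at h9
    constructor
    · push_cast; linarith [h9.1]
    · push_cast; linarith [h9.2]
  rw [h10]
  simp

/-! ### The bucket procedure -/

/-- code sizes -/
def R (t : ℕ) : ℕ := 2 ^ 2 ^ t

/-- moduli: `q B t = B * ∏_{s<t} R s` -/
def q (B : ℕ) : ℕ → ℕ
  | 0 => B
  | t + 1 => q B t * R t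

lemma R_pos (t : ℕ) : 1 ≤ R t := Nat.one_le_two_pow

lemma q_pos {B : ℕ} (hB : 1 ≤ B) : ∀ t, 1 ≤ q B t
  | 0 => hB
  | t + 1 => Nat.mul_pos (q_pos hB t) (R_pos t)

lemma two_mul_q (B : ℕ) : ∀ t, 2 * q B t = B * R t
  | 0 => by simp [q, R]; ring
  | t + 1 => by
    have h := two_mul_q B t
    have h2 : R (t + 1) = R t * R t := by
      unfold R; rw [← pow_add]; congr 1; ring
    calc 2 * q B (t + 1) = (2 * q B t) * R t := by simp only [q]; ring
      _ = B * R (t + 1) := by rw [h, h2]; ring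

lemma q_dvd (B : ℕ) {s t : ℕ} (h : s ≤ t) : q B s ∣ q B t := by
  induction t, h using Nat.le_induction with
  | base => exact dvd_rfl
  | succ t _ ih => exact ih.trans (Dvd.intro _ rfl)

/-- candidates -/
def cand (M q ρ : ℕ) (G : ℕ → ℕ) : Finset ℕ := (range M).filter fun i => G i % q = ρ

/-- plain sum over the candidates -/
def S0 (M q ρ : ℕ) (G : ℕ → ℕ) (y : ℕ → ℝ) : ℝ := ∑ i ∈ cand M q ρ G, y i

/-- weighted sum over the candidates -/
def S1 (M q ρ : ℕ) (G : ℕ → ℕ) (code : ℕ → ℕ) (y : ℕ → ℝ) : ℝ :=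
  ∑ i ∈ cand M q ρ G, (code i : ℝ) * y i

/-- decoded value -/
noncomputable def dec (M q ρ : ℕ) (G code : ℕ → ℕ) (y : ℕ → ℝ) : ℕ :=
  (round (S1 M q ρ G code y / S0 M q ρ G y)).toNat

/-- the residue known after `t` rounds -/
noncomputable def st (M B b : ℕ) (G : ℕ → ℕ) (y : ℕ → ℝ) : ℕ → ℕ
  | 0 => b
  | t + 1 => st M B b G y t +
      q B t * dec M (q B t) (st M B b G y t) G (fun i => (G i / q B t) % R t) y

/-- the recovered index -/
noncomputable def idx (M B T b : ℕ) (G : ℕ → ℕ) (y : ℕ → ℝ) : ℕ :=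
  dec M (q B T) (st M B b G y T) G (fun i => i) y

/-- the recovered value -/
noncomputable def val (M B T b : ℕ) (G : ℕ → ℕ) (y : ℕ → ℝ) : ℝ :=
  ∑ i ∈ (cand M (q B T) (st M B b G y T) G).filter (fun i => i = idx M B T b G y), y i

lemma val_eq (M B T b : ℕ) (G : ℕ → ℕ) (y : ℕ → ℝ) :
    val M B T b G y = 0 ∨ (idx M B T b G y < M ∧ val M B T b G y = y (idx M B T b G y)) := by
  unfold val
  by_cases h : idx M B T b G y ∈ cand M (q B T) (st M B b G y T) G
  · right
    refine ⟨?_, ?_⟩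
    · have := (mem_filter.mp h).1
      exact mem_range.mp this
    · have : (cand M (q B T) (st M B b G y T) G).filter (fun i => i = idx M B T b G y)
          = {idx M B T b G y} := by
        ext i
        simp only [mem_filter, mem_singleton]
        constructor
        · exact fun h => h.2
        · rintro rfl; exact ⟨h, rfl⟩
      rw [this, sum_singleton]
  · left
    apply sum_eq_zero
    intro i hi
    rw [mem_filter] at hi
    exact absurd (hi.2 ▸ hi.1) h

/-- noise after `t` rounds -/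
noncomputable def W (M B : ℕ) (G : ℕ → ℕ) (y : ℕ → ℝ) (j t : ℕ) : ℝ :=
  ∑ i ∈ (cand M (q B t) (G j % q B t) G).erase j, |y i|

/-- bad event for the coordinate `j` -/
def Bad (M B T : ℕ) (G : ℕ → ℕ) (y : ℕ → ℝ) (j : ℕ) : Prop :=
  ∃ t ∈ range (T + 1), |y j| ≤ 4 * (R t : ℝ) * W M B G y j t

lemma st_eq {M B T : ℕ} (G : ℕ → ℕ) (y : ℕ → ℝ) {j : ℕ} (hj : j < M)
    (hgood : ¬ Bad M B T G y j) {t : ℕ} (ht : t ≤ T) :
    st M B (G j % B) G y t = G j % q B t := by
  induction t with
  | zero => rfl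
  | succ t ih =>
    have iht := ih (by omega)
    have hnb : 4 * (R t : ℝ) * W M B G y j t < |y j| := by
      by_contra hcon
      push Not at hcon
      exact hgood ⟨t, by rw [mem_range]; omega, hcon⟩
    have hmem : j ∈ cand M (q B t) (G j % q B t) G := by
      rw [cand, mem_filter]; exact ⟨mem_range.mpr hj, rfl⟩
    have hdec : dec M (q B t) (G j % q B t) G (fun i => (G i / q B t) % R t) y
        = (G j / q B t) % R t :=
      round_ratio _ y (fun i => (G i / q B t) % R t) j hmem (R t) (R_pos t)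
        (fun i _ => Nat.mod_lt _ (R_pos t)) hnb
    show st M B (G j % B) G y t +
      q B t * dec M (q B t) (st M B (G j % B) G y t) G (fun i => (G i / q B t) % R t) y
        = G j % (q B t * R t)
    rw [iht, hdec, Nat.mod_mul]

lemma recover {M B T : ℕ} (hM : M ≤ R T) (G : ℕ → ℕ) (y : ℕ → ℝ) {j : ℕ} (hj : j < M)
    (hgood : ¬ Bad M B T G y j) :
    idx M B T (G j % B) G y = j ∧ val M B T (G j % B) G y = y j := by
  have hst := st_eq G y hj hgood (le_refl T)
  have hmem : j ∈ cand M (q B T) (G j % q B T) G := by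
    rw [cand, mem_filter]; exact ⟨mem_range.mpr hj, rfl⟩
  have hnb : 4 * (R T : ℝ) * W M B G y j T < |y j| := by
    by_contra hcon
    push Not at hcon
    exact hgood ⟨T, by rw [mem_range]; omega, hcon⟩
  have hidx : idx M B T (G j % B) G y = j := by
    unfold idx
    rw [hst]
    exact round_ratio _ y (fun i => i) j hmem (R T) (R_pos T)
        (fun i hi => lt_of_lt_of_le (mem_range.mp (mem_filter.mp hi).1) hM) hnb
  refine ⟨hidx, ?_⟩
  unfold val
  rw [hidx, hst]
  have : (cand M (q B T) (G j % q B T) G).filter (fun i => i = j) = {j} := by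
    ext i
    simp only [mem_filter, mem_singleton]
    constructor
    · exact fun h => h.2
    · rintro rfl; exact ⟨hmem, rfl⟩
  rw [this, sum_singleton]

/-! ### Random labels -/

/-- labels from a random function -/
def lab {M N : ℕ} (ω : Fin M → Fin N) (i : ℕ) : ℕ := if h : i < M then (ω ⟨i, h⟩).val else 0

lemma card_mod_le (N q c : ℕ) (_hq : 0 < q) (hdvd : q ∣ N) :
    ((univ : Finset (Fin N)).filter fun a => a.val % q = c).card * q ≤ N := by
  obtain ⟨k, rfl⟩ := hdvd
  have : ((univ : Finset (Fin (q * k))).filter fun a => a.val % q = c).card ≤ (range k).card := by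
    apply card_le_card_of_injOn (fun a => a.val / q)
    · intro a _
      simp only [coe_range, Set.mem_Iio]
      exact Nat.div_lt_of_lt_mul a.2
    · intro a ha b hb hab
      simp only [coe_filter, mem_univ, true_and, Set.mem_ofPred_eq] at ha hb
      ext
      have h1 := Nat.div_add_mod a.val q
      have h2 := Nat.div_add_mod b.val q
      simp only at hab
      rw [ha, hab] at h1
      rw [hb] at h2
      omega
  rw [card_range] at this
  calc _ ≤ k * q := Nat.mul_le_mul_right _ this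
    _ = q * k := Nat.mul_comm _ _

lemma card_collision {M N q : ℕ} (hq : 0 < q) (hdvd : q ∣ N) {i j : ℕ} (hi : i < M) (hj : j < M)
    (hij : i ≠ j) :
    ((univ : Finset (Fin M → Fin N)).filter fun ω => lab ω i % q = lab ω j % q).card * q
      ≤ Fintype.card (Fin M → Fin N) := by
  classical
  -- split off the coordinate i
  let e := Equiv.funSplitAt (⟨i, hi⟩ : Fin M) (Fin N)
  have hne : (⟨j, hj⟩ : Fin M) ≠ ⟨i, hi⟩ := by
    intro h; exact hij (by simpa using (congrArg Fin.val h).symm)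
  have hcard : ((univ : Finset (Fin M → Fin N)).filter
      fun ω => lab ω i % q = lab ω j % q).card
      = ∑ r : ({k : Fin M // k ≠ ⟨i, hi⟩} → Fin N),
          ((univ : Finset (Fin N)).filter fun a => a.val % q = (r ⟨⟨j, hj⟩, hne⟩).val % q).card := by
    rw [card_filter]
    let g : Fin N × ({k : Fin M // k ≠ ⟨i, hi⟩} → Fin N) → ℕ := fun p =>
          (if p.1.val % q = (p.2 ⟨⟨j, hj⟩, hne⟩).val % q then 1 else 0 : ℕ)
    have h1 : ∀ ω : Fin M → Fin N, (if lab ω i % q = lab ω j % q then 1 else 0 : ℕ)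
        = g (e ω) := by
      intro ω
      simp only [g, lab, hi, hj, dif_pos, e, Equiv.funSplitAt_apply]
    rw [sum_congr rfl (fun ω _ => h1 ω)]
    have h2 : ∑ ω, g (e ω) = ∑ p, g p := Equiv.sum_comp e g
    rw [h2, Fintype.sum_prod_type_right]
    apply sum_congr rfl
    intro r _
    rw [card_filter]
  rw [hcard, sum_mul]
  calc ∑ r : ({k : Fin M // k ≠ ⟨i, hi⟩} → Fin N),
          ((univ : Finset (Fin N)).filter fun a => a.val % q = (r ⟨⟨j, hj⟩, hne⟩).val % q).card * q
      ≤ ∑ _r : ({k : Fin M // k ≠ ⟨i, hi⟩} → Fin N), N :=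
        sum_le_sum fun r _ => card_mod_le N q _ hq hdvd
    _ = Fintype.card (Fin M → Fin N) := by
        rw [sum_const, card_univ, Fintype.card_congr e, Fintype.card_prod, Fintype.card_fin,
          smul_eq_mul, Nat.mul_comm]

/-- average noise bound -/
lemma sum_W_le {M B T : ℕ} (hB : 1 ≤ B) (y : ℕ → ℝ) (hy : ∑ i ∈ range M, |y i| ≤ 1) {j : ℕ}
    (hj : j < M) {t : ℕ} (ht : t ≤ T) :
    (∑ ω : Fin M → Fin (q B T), W M B (lab ω) y j t) * q B t
      ≤ Fintype.card (Fin M → Fin (q B T)) := by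
  classical
  have h1 : ∀ ω : Fin M → Fin (q B T), W M B (lab ω) y j t
      = ∑ i ∈ (range M).erase j, |y i| *
        (if lab ω i % q B t = lab ω j % q B t then 1 else 0) := by
    intro ω
    unfold W cand
    rw [← filter_erase, sum_filter]
    apply sum_congr rfl
    intro i _
    split_ifs <;> simp
  rw [sum_congr rfl (fun ω _ => h1 ω), sum_comm, sum_mul]
  have h2 : ∀ i ∈ (range M).erase j,
      (∑ ω : Fin M → Fin (q B T), |y i| *
        (if lab ω i % q B t = lab ω j % q B t then (1 : ℝ) else 0)) * q B t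
      ≤ |y i| * Fintype.card (Fin M → Fin (q B T)) := by
    intro i hi
    rw [mem_erase, mem_range] at hi
    rw [← mul_sum, mul_assoc]
    apply mul_le_mul_of_nonneg_left _ (abs_nonneg _)
    have h3 := card_collision (M := M) (N := q B T) (q := q B t) (q_pos hB t) (q_dvd B ht)
      hi.2 hj hi.1
    rw [card_filter] at h3
    exact_mod_cast h3
  calc _ ≤ ∑ i ∈ (range M).erase j, |y i| * Fintype.card (Fin M → Fin (q B T)) :=
        sum_le_sum h2
    _ = (∑ i ∈ (range M).erase j, |y i|) * Fintype.card (Fin M → Fin (q B T)) := by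
        rw [sum_mul]
    _ ≤ 1 * Fintype.card (Fin M → Fin (q B T)) := by
        apply mul_le_mul_of_nonneg_right _ (by positivity)
        refine le_trans (sum_le_sum_of_subset_of_nonneg (erase_subset _ _) ?_) hy
        intro i _ _; exact abs_nonneg _
    _ = _ := one_mul _

open Classical in
/-- failure probability of one repetition -/
lemma card_bad_le {M B T : ℕ} (hB : 1 ≤ B) (y : ℕ → ℝ) (hy : ∑ i ∈ range M, |y i| ≤ 1) {j : ℕ}
    (hj : j < M) (hyj : y j ≠ 0) :
    ∑ ω : Fin M → Fin (q B T), (if Bad M B T (lab ω) y j then (1 : ℝ) else 0)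
      ≤ (8 * (T + 1) / (B * |y j|)) * Fintype.card (Fin M → Fin (q B T)) := by
  have hyj' : 0 < |y j| := abs_pos.mpr hyj
  have hBr : (0 : ℝ) < B := by exact_mod_cast hB
  have h1 : ∀ ω : Fin M → Fin (q B T), (if Bad M B T (lab ω) y j then (1 : ℝ) else 0)
      ≤ ∑ t ∈ range (T + 1), 4 * (R t : ℝ) * W M B (lab ω) y j t / |y j| := by
    intro ω
    have hW : ∀ t, 0 ≤ W M B (lab ω) y j t := fun t => sum_nonneg fun i _ => abs_nonneg _
    split_ifs with h
    · obtain ⟨t, ht, hbad⟩ := h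
      calc (1 : ℝ) ≤ 4 * (R t : ℝ) * W M B (lab ω) y j t / |y j| := by
            rw [le_div_iff₀ hyj', one_mul]; exact hbad
        _ ≤ _ := single_le_sum (f := fun t => 4 * (R t : ℝ) * W M B (lab ω) y j t / |y j|)
            (fun s _ => by have := hW s; positivity) ht
    · exact sum_nonneg fun s _ => by have := hW s; positivity
  calc _ ≤ ∑ ω : Fin M → Fin (q B T), ∑ t ∈ range (T + 1),
        4 * (R t : ℝ) * W M B (lab ω) y j t / |y j| := sum_le_sum fun ω _ => h1 ω
    _ = ∑ t ∈ range (T + 1), 4 * (R t : ℝ) / |y j| *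
        ∑ ω : Fin M → Fin (q B T), W M B (lab ω) y j t := by
        rw [sum_comm]
        apply sum_congr rfl
        intro t _
        rw [mul_sum]
        apply sum_congr rfl
        intro ω _
        ring
    _ ≤ ∑ t ∈ range (T + 1), 8 / (B * |y j|) * Fintype.card (Fin M → Fin (q B T)) := by
        apply sum_le_sum
        intro t ht
        have h2 := sum_W_le (T := T) hB y hy hj (t := t) (by rw [mem_range] at ht; omega)
        have hq : (0 : ℝ) < q B t := by exact_mod_cast q_pos hB t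
        have h3 : (∑ ω : Fin M → Fin (q B T), W M B (lab ω) y j t)
            ≤ Fintype.card (Fin M → Fin (q B T)) / q B t := by
          rw [le_div_iff₀ hq]; exact h2
        have h4 : (2 : ℝ) * q B t = B * R t := by exact_mod_cast two_mul_q B t
        calc 4 * (R t : ℝ) / |y j| * ∑ ω : Fin M → Fin (q B T), W M B (lab ω) y j t
            ≤ 4 * (R t : ℝ) / |y j| * (Fintype.card (Fin M → Fin (q B T)) / q B t) :=
              mul_le_mul_of_nonneg_left h3 (by positivity)
          _ = 8 / (B * |y j|) * Fintype.card (Fin M → Fin (q B T)) := by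
              have h5 : (R t : ℝ) = 2 * q B t / B := by field_simp; linarith
              rw [h5]
              field_simp
              ring
    _ = _ := by
        rw [sum_const, card_range, nsmul_eq_mul]
        push_cast
        ring

/-! ### The complete procedure -/

open Classical in
/-- assemble the output from finitely many pairs (index, value) -/
noncomputable def assemble {r B : ℕ} (p : Fin r → Fin B → ℕ × ℝ) (i : ℕ) : ℝ :=
  if h : ∃ sb : Fin r × Fin B, (p sb.1 sb.2).1 = i ∧ (p sb.1 sb.2).2 ≠ 0 then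
    (p h.choose.1 h.choose.2).2 else 0

/-- all the pairs found -/
noncomputable def pairs (M B T r : ℕ) (ω : Fin r → Fin M → Fin (q B T)) (y : ℕ → ℝ) :
    Fin r → Fin B → ℕ × ℝ :=
  fun s b => (idx M B T b (lab (ω s)) y, val M B T b (lab (ω s)) y)

/-- the output sequence -/
noncomputable def out (M B T r : ℕ) (ω : Fin r → Fin M → Fin (q B T)) (y : ℕ → ℝ) : ℕ → ℝ :=
  assemble (pairs M B T r ω y)

/-- the coordinate was found -/
def Found (M B T r : ℕ) (ω : Fin r → Fin M → Fin (q B T)) (y : ℕ → ℝ) (i : ℕ) : Prop :=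
  ∃ sb : Fin r × Fin B, (pairs M B T r ω y sb.1 sb.2).1 = i ∧ (pairs M B T r ω y sb.1 sb.2).2 ≠ 0

open Classical in
lemma out_eq (M B T r : ℕ) (ω : Fin r → Fin M → Fin (q B T)) (y : ℕ → ℝ) (i : ℕ) :
    out M B T r ω y i = if Found M B T r ω y i then y i else 0 := by
  unfold out assemble
  by_cases h : Found M B T r ω y i
  · rw [if_pos h]
    have h' : ∃ sb : Fin r × Fin B, (pairs M B T r ω y sb.1 sb.2).1 = i ∧
        (pairs M B T r ω y sb.1 sb.2).2 ≠ 0 := h
    rw [dif_pos h']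
    obtain ⟨h1, h2⟩ := h'.choose_spec
    set sb := h'.choose
    rcases val_eq M B T sb.2 (lab (ω sb.1)) y with h3 | h3
    · exact absurd h3 h2
    · have h4 : idx M B T sb.2 (lab (ω sb.1)) y = i := h1
      rw [h4] at h3
      exact h3.2
  · rw [if_neg h]
    exact dif_neg h

lemma Found.lt {M B T r : ℕ} {ω : Fin r → Fin M → Fin (q B T)} {y : ℕ → ℝ} {i : ℕ}
    (h : Found M B T r ω y i) : i < M := by
  obtain ⟨sb, h1, h2⟩ := h
  rcases val_eq M B T sb.2 (lab (ω sb.1)) y with h3 | h3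
  · exact absurd h3 h2
  · have h4 : idx M B T sb.2 (lab (ω sb.1)) y = i := h1
    rw [h4] at h3
    exact h3.1

lemma bad_of_not_found {M B T r : ℕ} (hM : M ≤ R T) (hB : 1 ≤ B)
    (ω : Fin r → Fin M → Fin (q B T)) (y : ℕ → ℝ) {j : ℕ} (hj : j < M) (hyj : y j ≠ 0)
    (h : ¬ Found M B T r ω y j) (s : Fin r) : Bad M B T (lab (ω s)) y j := by
  by_contra hgood
  obtain ⟨h1, h2⟩ := recover hM (lab (ω s)) y hj hgood
  apply h
  refine ⟨(s, ⟨lab (ω s) j % B, Nat.mod_lt _ hB⟩), ?_, ?_⟩
  · exact h1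
  · show val M B T (lab (ω s) j % B) (lab (ω s)) y ≠ 0
    rw [h2]; exact hyj

open Classical in
/-- probability that a given coordinate is not found -/
lemma card_not_found_le {M B T r : ℕ} (hM : M ≤ R T) (hB : 1 ≤ B) (y : ℕ → ℝ)
    (hy : ∑ i ∈ range M, |y i| ≤ 1) {j : ℕ} (hj : j < M) (hyj : y j ≠ 0) :
    ∑ ω : Fin r → Fin M → Fin (q B T), (if Found M B T r ω y j then (0 : ℝ) else 1)
      ≤ (8 * (T + 1) / (B * |y j|)) ^ r * Fintype.card (Fin r → Fin M → Fin (q B T)) := by
  calc ∑ ω : Fin r → Fin M → Fin (q B T), (if Found M B T r ω y j then (0 : ℝ) else 1)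
      ≤ ∑ ω : Fin r → Fin M → Fin (q B T),
          ∏ s, (if Bad M B T (lab (ω s)) y j then (1 : ℝ) else 0) := by
        apply sum_le_sum
        intro ω _
        split_ifs with h
        · exact prod_nonneg fun s _ => by split_ifs <;> norm_num
        · have : ∀ s, (if Bad M B T (lab (ω s)) y j then (1 : ℝ) else 0) = 1 := fun s => by
            rw [if_pos (bad_of_not_found hM hB ω y hj hyj h s)]
          rw [prod_congr rfl fun s _ => this s]
          simp
    _ = (∑ ω : Fin M → Fin (q B T), (if Bad M B T (lab ω) y j then (1 : ℝ) else 0)) ^ r := by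
        rw [Fintype.sum_pow]
    _ ≤ ((8 * (T + 1) / (B * |y j|)) * Fintype.card (Fin M → Fin (q B T))) ^ r := by
        apply pow_le_pow_left₀ _ (card_bad_le hB y hy hj hyj)
        exact sum_nonneg fun s _ => by split_ifs <;> norm_num
    _ = _ := by
        rw [mul_pow]
        congr 1
        rw [Fintype.card_fun (α := Fin r)]
        simp

open Classical in
/-- expected mass of the large coordinates that are not found -/
lemma sum_missed_le {M B T r : ℕ} (hM : M ≤ R T) (hB : 1 ≤ B) (y : ℕ → ℝ)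
    (hy : ∑ i ∈ range M, |y i| ≤ 1) {τ : ℝ} (hτ : 0 < τ) :
    ∑ ω : Fin r → Fin M → Fin (q B T), ∑ j ∈ (range M).filter (fun j => τ < |y j|),
      (if Found M B T r ω y j then (0 : ℝ) else 1) * |y j|
      ≤ (8 * (T + 1) / (B * τ)) ^ r * Fintype.card (Fin r → Fin M → Fin (q B T)) := by
  have hBr : (0 : ℝ) < B := by exact_mod_cast hB
  rw [sum_comm]
  calc ∑ j ∈ (range M).filter (fun j => τ < |y j|), ∑ ω : Fin r → Fin M → Fin (q B T),
      (if Found M B T r ω y j then (0 : ℝ) else 1) * |y j|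
      ≤ ∑ j ∈ (range M).filter (fun j => τ < |y j|),
        ((8 * (T + 1) / (B * τ)) ^ r * Fintype.card (Fin r → Fin M → Fin (q B T))) * |y j| := by
        apply sum_le_sum
        intro j hj
        rw [mem_filter, mem_range] at hj
        rw [← sum_mul]
        apply mul_le_mul_of_nonneg_right _ (abs_nonneg _)
        have hyj : y j ≠ 0 := by
          intro h; rw [h, abs_zero] at hj; linarith [hj.2]
        refine (card_not_found_le hM hB y hy hj.1 hyj).trans ?_
        apply mul_le_mul_of_nonneg_right _ (by positivity)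
        apply pow_le_pow_left₀ (by positivity)
        apply div_le_div_of_nonneg_left (by positivity) (by positivity)
        exact mul_le_mul_of_nonneg_left hj.2.le hBr.le
    _ = ((8 * (T + 1) / (B * τ)) ^ r * Fintype.card (Fin r → Fin M → Fin (q B T))) *
        ∑ j ∈ (range M).filter (fun j => τ < |y j|), |y j| := by rw [mul_sum]
    _ ≤ ((8 * (T + 1) / (B * τ)) ^ r * Fintype.card (Fin r → Fin M → Fin (q B T))) * 1 := by
        apply mul_le_mul_of_nonneg_left _ (by positivity)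
        refine le_trans (sum_le_sum_of_subset_of_nonneg (filter_subset _ _) ?_) hy
        intro i _ _; exact abs_nonneg _
    _ = _ := mul_one _

section Algorithm

variable {X : Type*} {Λ : Set (X → ℝ)} {coords : X → ℕ → ℝ}

lemma isAlg_sum (hΛ : ∀ (s : Finset ℕ) (c : ℕ → ℝ), (fun x => ∑ i ∈ s, c i * coords x i) ∈ Λ)
    (s : Finset ℕ) (c : ℕ → ℝ) : IsAlg Λ 1 (fun x => ∑ i ∈ s, c i * coords x i) :=
  isAlg_one (hΛ s c)

lemma isAlg_sum' (hΛ : ∀ (s : Finset ℕ) (c : ℕ → ℝ), (fun x => ∑ i ∈ s, c i * coords x i) ∈ Λ)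
    (s : Finset ℕ) : IsAlg Λ 1 (fun x => ∑ i ∈ s, coords x i) := by
  have := isAlg_sum hΛ s (fun _ => 1)
  simpa using this

lemma isAlg_dec (hΛ : ∀ (s : Finset ℕ) (c : ℕ → ℝ), (fun x => ∑ i ∈ s, c i * coords x i) ∈ Λ)
    (M q ρ : ℕ) (G code : ℕ → ℕ) : IsAlg Λ 2 (fun x => dec M q ρ G code (coords x)) :=
  ((isAlg_sum hΛ (cand M q ρ G) (fun i => (code i : ℝ))).pair
    (isAlg_sum' hΛ (cand M q ρ G))).post (fun p => (round (p.1 / p.2)).toNat)

lemma isAlg_st (hΛ : ∀ (s : Finset ℕ) (c : ℕ → ℝ), (fun x => ∑ i ∈ s, c i * coords x i) ∈ Λ)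
    (M B b : ℕ) (G : ℕ → ℕ) : ∀ t, IsAlg Λ (2 * t) (fun x => st M B b G (coords x) t)
  | 0 => isAlg_const b
  | t + 1 => by
    have h := (isAlg_st hΛ M B b G t).bind (m := 2)
      (K := fun ρ x => ρ + q B t * dec M (q B t) ρ G (fun i => (G i / q B t) % R t) (coords x))
      (fun ρ => (isAlg_dec hΛ M (q B t) ρ G _).post (fun v => ρ + q B t * v))
    have e : 2 * (t + 1) = 2 + 2 * t := by ring
    rw [e]
    exact h

lemma isAlg_pair (hΛ : ∀ (s : Finset ℕ) (c : ℕ → ℝ), (fun x => ∑ i ∈ s, c i * coords x i) ∈ Λ)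
    (M B T b : ℕ) (G : ℕ → ℕ) :
    IsAlg Λ (2 * T + 3) (fun x => (idx M B T b G (coords x), val M B T b G (coords x))) := by
  have h1 : ∀ ρ : ℕ, IsAlg Λ (1 + 2) (fun x => (dec M (q B T) ρ G (fun i => i) (coords x),
      ∑ i ∈ (cand M (q B T) ρ G).filter
        (fun i => i = dec M (q B T) ρ G (fun i => i) (coords x)), coords x i)) := by
    intro ρ
    exact (isAlg_dec hΛ M (q B T) ρ G (fun i => i)).bind (m := 1)
      (K := fun v x => (v, ∑ i ∈ (cand M (q B T) ρ G).filter (fun i => i = v), coords x i))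
      (fun v => (isAlg_sum' hΛ _).post (fun z => (v, z)))
  have h2 := (isAlg_st hΛ M B b G T).bind (m := 1 + 2)
    (K := fun ρ x => (dec M (q B T) ρ G (fun i => i) (coords x),
      ∑ i ∈ (cand M (q B T) ρ G).filter
        (fun i => i = dec M (q B T) ρ G (fun i => i) (coords x)), coords x i)) h1
  have e : 2 * T + 3 = 1 + 2 + 2 * T := by ring
  rw [e]
  exact h2

lemma isAlg_out (hΛ : ∀ (s : Finset ℕ) (c : ℕ → ℝ), (fun x => ∑ i ∈ s, c i * coords x i) ∈ Λ)
    (M B T r : ℕ) (ω : Fin r → Fin M → Fin (q B T)) :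
    IsAlg Λ (r * (B * (2 * T + 3))) (fun x => out M B T r ω (coords x)) := by
  have h1 : ∀ s : Fin r, IsAlg Λ (B * (2 * T + 3)) (fun x => fun b : Fin B =>
      (idx M B T b (lab (ω s)) (coords x), val M B T b (lab (ω s)) (coords x))) :=
    fun s => isAlg_pi (fun b => isAlg_pair hΛ M B T b (lab (ω s)))
  have h2 := isAlg_pi h1
  exact h2.post (fun p => assemble p)

end Algorithm

/-! ### Growth bookkeeping -/

/-- number of functionals at level `k` -/
def cost (a k : ℕ) : ℕ := a * (2 ^ (k * (a + 1)) * (2 * (k * a) + 3))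

lemma cost_zero (a : ℕ) : cost a 0 = a * 3 := by simp [cost]

lemma le_cost {a : ℕ} (ha : 1 ≤ a) (k : ℕ) : k ≤ cost a k := by
  have h1 : k < 2 ^ k := Nat.lt_two_pow_self
  have h2 : 2 ^ k ≤ 2 ^ (k * (a + 1)) := Nat.pow_le_pow_right (by norm_num) (by nlinarith)
  have h3 : 2 ^ (k * (a + 1)) ≤ 2 ^ (k * (a + 1)) * (2 * (k * a) + 3) :=
    Nat.le_mul_of_pos_right _ (by omega)
  have h4 : 2 ^ (k * (a + 1)) * (2 * (k * a) + 3) ≤ cost a k := Nat.le_mul_of_pos_left _ ha
  omega

lemma exists_level {a : ℕ} (ha : 1 ≤ a) {n : ℕ} (hn : a * 3 ≤ n) :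
    ∃ k, cost a k ≤ n ∧ n < cost a (k + 1) := by
  classical
  have hex : ∃ k, n < cost a (k + 1) := ⟨n, lt_of_lt_of_le (Nat.lt_succ_self n) (le_cost ha (n + 1))⟩
  refine ⟨Nat.find hex, ?_, Nat.find_spec hex⟩
  rcases Nat.eq_zero_or_pos (Nat.find hex) with h | h
  · rw [h, cost_zero]; exact hn
  · have := Nat.find_min hex (m := Nat.find hex - 1) (by omega)
    rw [Nat.sub_add_cancel h] at this
    omega

/-- polynomial times geometric is bounded -/
lemma exists_bound (p : ℕ) : ∃ C : ℝ, ∀ k : ℕ, ((k : ℝ) + 1) ^ p / 2 ^ k ≤ C := by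
  have h := tendsto_pow_const_div_const_pow_of_one_lt p (r := (2 : ℝ)) (by norm_num)
  have h2 := h.comp (Filter.tendsto_add_atTop_nat 1)
  obtain ⟨C, hC⟩ := h2.bddAbove_range
  refine ⟨2 * C, fun k => ?_⟩
  have h3 := hC ⟨k, rfl⟩
  simp only [Function.comp_apply] at h3
  push_cast at h3
  rw [pow_succ] at h3
  have h4 : ((k : ℝ) + 1) ^ p / 2 ^ k = 2 * (((k : ℝ) + 1) ^ p / (2 ^ k * 2)) := by
    field_simp
  rw [h4]
  linarith

lemma rate_bound {a : ℕ} (ha : 1 ≤ a) {e : ℕ → ℝ} (he : ∀ n, 0 ≤ e n) (hanti : Antitone e)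
    (hk : ∀ k : ℕ, e (cost a k) ≤ 3 * (8 * ((k * a : ℕ) + 1) : ℝ) ^ a / 2 ^ (k * a)) :
    ∃ C : ℝ, ∀ n : ℕ, (n : ℝ) ^ (((a : ℝ) - 1) / (a + 1)) * e n ≤ C := by
  obtain ⟨C₀, hC₀⟩ := exists_bound (a + 1)
  have har : (1 : ℝ) ≤ a := by exact_mod_cast ha
  have hC₀0 : 0 ≤ C₀ := by
    have := hC₀ 0
    norm_num at this
    linarith
  set α : ℝ := ((a : ℝ) - 1) / (a + 1) with hα
  have hα0 : 0 ≤ α := div_nonneg (by linarith) (by linarith)
  have hα1 : α ≤ 1 := by
    rw [hα, div_le_one (by linarith)]; linarith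
  refine ⟨max (((a * 3 : ℕ) : ℝ) ^ α * e 0)
    ((5 * a ^ 2) * 2 ^ (a - 1) * (3 * (8 * a) ^ a) * C₀), ?_⟩
  intro n
  rcases Nat.lt_or_ge n (a * 3) with hn | hn
  · refine le_trans ?_ (le_max_left _ _)
    apply mul_le_mul _ (hanti (Nat.zero_le n)) (he n) (by positivity)
    apply Real.rpow_le_rpow (by positivity) _ hα0
    exact_mod_cast hn.le
  · refine le_trans ?_ (le_max_right _ _)
    obtain ⟨k, h1, h2⟩ := exists_level ha hn
    have h3 : e n ≤ 3 * (8 * ((k * a : ℕ) + 1) : ℝ) ^ a / 2 ^ (k * a) := (hanti h1).trans (hk k)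
    have h4 : (n : ℝ) ^ α ≤ (5 * a ^ 2 * ((k : ℝ) + 1)) * 2 ^ ((k + 1) * (a - 1)) := by
      have h5 : (n : ℝ) ≤ (5 * a ^ 2 * ((k : ℝ) + 1)) * 2 ^ ((k + 1) * (a + 1)) := by
        have h6 : (n : ℝ) ≤ (cost a (k + 1) : ℕ) := by exact_mod_cast h2.le
        refine h6.trans ?_
        unfold cost
        push_cast
        have h7 : (a : ℝ) * (2 * (((k : ℝ) + 1) * a) + 3) ≤ 5 * a ^ 2 * ((k : ℝ) + 1) := by
          have hk0 : (0 : ℝ) ≤ k := by positivity
          have h8 : (1 : ℝ) ≤ ((k : ℝ) + 1) * a := by nlinarith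
          nlinarith
        calc (a : ℝ) * (2 ^ ((k + 1) * (a + 1)) * (2 * (((k : ℝ) + 1) * a) + 3))
            = ((a : ℝ) * (2 * (((k : ℝ) + 1) * a) + 3)) * 2 ^ ((k + 1) * (a + 1)) := by ring
          _ ≤ _ := mul_le_mul_of_nonneg_right h7 (by positivity)
      calc (n : ℝ) ^ α ≤ ((5 * a ^ 2 * ((k : ℝ) + 1)) * 2 ^ ((k + 1) * (a + 1))) ^ α :=
            Real.rpow_le_rpow (by positivity) h5 hα0
        _ = (5 * a ^ 2 * ((k : ℝ) + 1)) ^ α * ((2 : ℝ) ^ ((k + 1) * (a + 1))) ^ α :=
            Real.mul_rpow (by positivity) (by positivity)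
        _ ≤ (5 * a ^ 2 * ((k : ℝ) + 1)) * 2 ^ ((k + 1) * (a - 1)) := by
            apply mul_le_mul _ _ (by positivity) (by positivity)
            · have hk0 : (0 : ℝ) ≤ k := by positivity
              have h9 : (1 : ℝ) ≤ 5 * a ^ 2 * ((k : ℝ) + 1) := by nlinarith
              calc (5 * (a : ℝ) ^ 2 * ((k : ℝ) + 1)) ^ α
                  ≤ (5 * (a : ℝ) ^ 2 * ((k : ℝ) + 1)) ^ (1 : ℝ) :=
                    Real.rpow_le_rpow_of_exponent_le h9 hα1
                _ = _ := Real.rpow_one _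
            · rw [← Real.rpow_natCast, ← Real.rpow_mul (by norm_num), ← Real.rpow_natCast]
              apply Real.rpow_le_rpow_of_exponent_le (by norm_num)
              push_cast
              rw [Nat.cast_sub ha]
              rw [hα]
              field_simp
              push_cast
              exact le_refl _
    have h10 : (8 * ((k * a : ℕ) + 1) : ℝ) ^ a ≤ (8 * a) ^ a * ((k : ℝ) + 1) ^ a := by
      rw [← mul_pow]
      apply pow_le_pow_left₀ (by positivity)
      push_cast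
      have hk0 : (0 : ℝ) ≤ k := by positivity
      nlinarith
    have h11 : (2 : ℝ) ^ ((k + 1) * (a - 1)) / 2 ^ (k * a) = 2 ^ (a - 1) / 2 ^ k := by
      rw [div_eq_div_iff (by positivity) (by positivity), ← pow_add, ← pow_add]
      congr 1
      obtain ⟨b, rfl⟩ : ∃ b, a = b + 1 := ⟨a - 1, by omega⟩
      simp only [Nat.add_sub_cancel]
      ring
    calc (n : ℝ) ^ α * e n
        ≤ ((5 * a ^ 2 * ((k : ℝ) + 1)) * 2 ^ ((k + 1) * (a - 1))) *
          (3 * (8 * ((k * a : ℕ) + 1) : ℝ) ^ a / 2 ^ (k * a)) :=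
          mul_le_mul h4 h3 (he n) (by positivity)
      _ ≤ ((5 * a ^ 2 * ((k : ℝ) + 1)) * 2 ^ ((k + 1) * (a - 1))) *
          (3 * ((8 * a) ^ a * ((k : ℝ) + 1) ^ a) / 2 ^ (k * a)) := by
          apply mul_le_mul_of_nonneg_left _ (by positivity)
          apply div_le_div_of_nonneg_right _ (by positivity)
          linarith
      _ = (5 * a ^ 2) * (3 * (8 * a) ^ a) * ((k : ℝ) + 1) ^ (a + 1) *
          ((2 : ℝ) ^ ((k + 1) * (a - 1)) / 2 ^ (k * a)) := by
          rw [pow_succ]; ring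
      _ = ((5 * a ^ 2) * 2 ^ (a - 1) * (3 * (8 * a) ^ a)) * (((k : ℝ) + 1) ^ (a + 1) / 2 ^ k) := by
          rw [h11]; ring
      _ ≤ ((5 * a ^ 2) * 2 ^ (a - 1) * (3 * (8 * a) ^ a)) * C₀ :=
          mul_le_mul_of_nonneg_left (hC₀ k) (by positivity)

end Pool.Agent.Helper579.Recovery
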