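import Mathlib
import Pool.Agent.Helper579.Recovery

set_option autoImplicit false
set_option linter.unusedSectionVars false

namespace Pool.Agent.Helper579.GaussCore

open MeasureTheory Set Metric Module
open Pool.Agent.Helper579.Recovery
open scoped ENNReal RealInnerProductSpace

/-- Gaussian weight -/
noncomputable def gw {V : Type*} [NormedAddCommGroup V] (v : V) : ℝ≥0∞ :=
  ENNReal.ofReal (Real.exp (-(‖v‖ ^ 2 / 2)))

/-- real affine functionals -/
def aff (V : Type*) [NormedAddCommGroup V] [InnerProductSpace ℝ V] : Set (V → ℝ) :=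
  {L | ∃ (c : ℝ) (a : V), ∀ v, L v = c + ⟪a, v⟫}

lemma IsAlg.comap {X X' Y : Type*} {Λ : Set (X → ℝ)} {Λ' : Set (X' → ℝ)} {ι : X' → X}
    (hι : ∀ L ∈ Λ, (fun x => L (ι x)) ∈ Λ') {k : ℕ} {A : X → Y} (hA : IsAlg Λ k A) :
    IsAlg Λ' k (fun x => A (ι x)) := by
  induction k generalizing A with
  | zero =>
    obtain ⟨c, hc⟩ := hA
    exact ⟨c, fun x => hc _⟩
  | succ k ih =>
    obtain ⟨L, hL, A', hA', h⟩ := hA
    exact ⟨fun x => L (ι x), hι L hL, fun v x => A' v (ι x), fun v => ih (hA' v), fun x => h _⟩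

section Basic

variable {V : Type} [NormedAddCommGroup V] [InnerProductSpace ℝ V] [FiniteDimensional ℝ V]
  [MeasurableSpace V] [BorelSpace V]

lemma measurable_gw : Measurable (gw : V → ℝ≥0∞) := by
  unfold gw
  fun_prop

lemma lintegral_gauss {b : ℝ} (hb : 0 < b) (c : V) :
    ∫⁻ v : V, ENNReal.ofReal (Real.exp (-b * ‖v - c‖ ^ 2))
      = ENNReal.ofReal ((Real.pi / b) ^ ((finrank ℝ V : ℝ) / 2)) := by
  have h1 : ∫⁻ v : V, ENNReal.ofReal (Real.exp (-b * ‖v - c‖ ^ 2))
      = ∫⁻ v : V, ENNReal.ofReal (Real.exp (-b * ‖v‖ ^ 2)) :=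
    lintegral_sub_right_eq_self (fun v : V => ENNReal.ofReal (Real.exp (-b * ‖v‖ ^ 2))) c
  have hI := GaussianFourier.integral_rexp_neg_mul_sq_norm (V := V) hb
  have hint : Integrable (fun v : V => Real.exp (-b * ‖v‖ ^ 2)) volume := by
    by_contra hcon
    rw [integral_undef hcon] at hI
    have : 0 < (Real.pi / b) ^ ((finrank ℝ V : ℝ) / 2) := by positivity
    linarith
  rw [h1, ← hI, ofReal_integral_eq_lintegral_ofReal hint]
  filter_upwards with v
  positivity

variable (V) in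
/-- total Gaussian mass -/
noncomputable def tot : ℝ≥0∞ := ∫⁻ v : V, gw v

lemma tot_eq : tot V = ENNReal.ofReal ((2 * Real.pi) ^ ((finrank ℝ V : ℝ) / 2)) := by
  have h := lintegral_gauss (V := V) (b := 1 / 2) (by norm_num) 0
  unfold tot gw
  have h1 : Real.pi / (1 / 2) = 2 * Real.pi := by ring
  rw [h1] at h
  rw [← h]
  apply lintegral_congr
  intro v
  rw [sub_zero]
  congr 2
  ring

lemma tot_ne_top : tot V ≠ ∞ := by rw [tot_eq]; exact ENNReal.ofReal_ne_top

lemma tot_pos : tot V ≠ 0 := by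
  rw [tot_eq]
  have : 0 < (2 * Real.pi) ^ ((finrank ℝ V : ℝ) / 2) := by positivity
  simpa using this

lemma lintegral_narrow (c : V) :
    ∫⁻ v : V, ENNReal.ofReal (Real.exp (-2 * ‖v - c‖ ^ 2))
      = (1 / 2 : ℝ≥0∞) ^ (finrank ℝ V) * tot V := by
  rw [lintegral_gauss (by norm_num) c, tot_eq]
  have h1 : (1 / 2 : ℝ≥0∞) ^ (finrank ℝ V) = ENNReal.ofReal ((1 / 2) ^ (finrank ℝ V)) := by
    rw [ENNReal.ofReal_pow (by norm_num)]
    congr 1
    rw [ENNReal.ofReal_div_of_pos (by norm_num)]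
    simp
  rw [h1, ← ENNReal.ofReal_mul (by positivity)]
  congr 1
  have h2 : ((1 / 2 : ℝ)) ^ (finrank ℝ V) = (1 / 4) ^ ((finrank ℝ V : ℝ) / 2) := by
    have : (1 / 4 : ℝ) = (1 / 2) ^ (2 : ℝ) := by norm_num
    rw [this, ← Real.rpow_mul (by norm_num), ← Real.rpow_natCast]
    congr 1; ring
  rw [h2, ← Real.mul_rpow (by norm_num) (by positivity)]
  congr 1
  ring

/-- base case: small balls -/
lemma ball_bound (M : Set V) (hM : MeasurableSet M) (c : V) (r : ℝ)
    (h : ∀ v ∈ M, ‖v - c‖ ≤ r) :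
    ∫⁻ v in M, gw v ≤ ENNReal.ofReal (Real.exp (3 / 2 * r ^ 2)) *
      (1 / 2 : ℝ≥0∞) ^ (finrank ℝ V) * tot V := by
  set c' : V := (3 / 4 : ℝ) • c with hc'
  have hpt : ∀ v ∈ M, gw v ≤ ENNReal.ofReal (Real.exp (3 / 2 * r ^ 2)) *
      ENNReal.ofReal (Real.exp (-2 * ‖v - c'‖ ^ 2)) := by
    intro v hv
    unfold gw
    rw [← ENNReal.ofReal_mul (by positivity), ← Real.exp_add]
    apply ENNReal.ofReal_le_ofReal
    apply Real.exp_le_exp.mpr
    have h1 : ‖v - c‖ ^ 2 ≤ r ^ 2 := by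
      have := h v hv
      gcongr
    have h2 : ‖v - c‖ ^ 2 = ‖v‖ ^ 2 - 2 * ⟪v, c⟫ + ‖c‖ ^ 2 := norm_sub_sq_real v c
    have h3 : ‖v - c'‖ ^ 2 = ‖v‖ ^ 2 - 2 * ((3 / 4) * ⟪v, c⟫) + (3 / 4) ^ 2 * ‖c‖ ^ 2 := by
      rw [norm_sub_sq_real, hc', inner_smul_right, norm_smul, mul_pow]
      norm_num
    have h4 : 0 ≤ ‖c‖ ^ 2 := by positivity
    nlinarith
  calc ∫⁻ v in M, gw v ≤ ∫⁻ v in M, ENNReal.ofReal (Real.exp (3 / 2 * r ^ 2)) *
      ENNReal.ofReal (Real.exp (-2 * ‖v - c'‖ ^ 2)) := setLIntegral_mono' hM hpt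
    _ ≤ ∫⁻ v, ENNReal.ofReal (Real.exp (3 / 2 * r ^ 2)) *
      ENNReal.ofReal (Real.exp (-2 * ‖v - c'‖ ^ 2)) := setLIntegral_le_lintegral _ _
    _ = ENNReal.ofReal (Real.exp (3 / 2 * r ^ 2)) *
      ((1 / 2 : ℝ≥0∞) ^ (finrank ℝ V) * tot V) := by
        rw [lintegral_const_mul' _ _ ENNReal.ofReal_ne_top, lintegral_narrow]
    _ = _ := by rw [mul_assoc]

/-- Gaussian tails of a functional -/
lemma tail_bound (a : V) (ha : ‖a‖ ≤ 1) {ρ : ℝ} (hρ : 0 ≤ ρ) :
    ∫⁻ v in {v : V | ρ ≤ ⟪a, v⟫}, gw v ≤ ENNReal.ofReal (Real.exp (-(ρ ^ 2 / 2))) * tot V := by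
  have hM : MeasurableSet {v : V | ρ ≤ ⟪a, v⟫} := by
    apply measurableSet_le measurable_const
    fun_prop
  have hpt : ∀ v ∈ {v : V | ρ ≤ ⟪a, v⟫}, gw v ≤ ENNReal.ofReal (Real.exp (-(ρ ^ 2 / 2))) *
      ENNReal.ofReal (Real.exp (-(1/2) * ‖v - ρ • a‖ ^ 2)) := by
    intro v hv
    have hv' : ρ ≤ ⟪a, v⟫ := hv
    unfold gw
    rw [← ENNReal.ofReal_mul (by positivity), ← Real.exp_add]
    apply ENNReal.ofReal_le_ofReal
    apply Real.exp_le_exp.mpr
    have h1 : ‖v - ρ • a‖ ^ 2 = ‖v‖ ^ 2 - 2 * (ρ * ⟪a, v⟫) + ρ ^ 2 * ‖a‖ ^ 2 := by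
      rw [norm_sub_sq_real, inner_smul_right, norm_smul, mul_pow, real_inner_comm]
      simp
    have h2 : ‖a‖ ^ 2 ≤ 1 := by
      have := norm_nonneg a
      nlinarith
    have h3 : ρ * ρ ≤ ρ * ⟪a, v⟫ := mul_le_mul_of_nonneg_left hv' hρ
    have h4 : ρ ^ 2 * ‖a‖ ^ 2 ≤ ρ ^ 2 := by
      have : 0 ≤ ρ ^ 2 := by positivity
      nlinarith
    nlinarith
  calc ∫⁻ v in {v : V | ρ ≤ ⟪a, v⟫}, gw v
      ≤ ∫⁻ v in {v : V | ρ ≤ ⟪a, v⟫}, ENNReal.ofReal (Real.exp (-(ρ ^ 2 / 2))) *
      ENNReal.ofReal (Real.exp (-(1/2) * ‖v - ρ • a‖ ^ 2)) := setLIntegral_mono' hM hpt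
    _ ≤ ∫⁻ v, ENNReal.ofReal (Real.exp (-(ρ ^ 2 / 2))) *
      ENNReal.ofReal (Real.exp (-(1/2) * ‖v - ρ • a‖ ^ 2)) := setLIntegral_le_lintegral _ _
    _ = ENNReal.ofReal (Real.exp (-(ρ ^ 2 / 2))) * tot V := by
        rw [lintegral_const_mul' _ _ ENNReal.ofReal_ne_top, lintegral_gauss (by norm_num), tot_eq]
        congr 4
        ring

end Basic

section Split

variable {V : Type} [NormedAddCommGroup V] [InnerProductSpace ℝ V] [FiniteDimensional ℝ V]
  [MeasurableSpace V] [BorelSpace V]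

/-- Fubini along an orthogonal decomposition -/
lemma lintegral_split (K : Submodule ℝ V) (F : V → ℝ≥0∞) (hF : Measurable F) :
    ∫⁻ v, F v = ∫⁻ s : K, ∫⁻ w : Kᗮ, F ((s : V) + (w : V)) := by
  have hmp : MeasurePreserving (fun p : K × Kᗮ => (p.1 : V) + (p.2 : V)) volume volume := by
    have h1 := WithLp.volume_preserving_toLp K Kᗮ
    have h2 := K.orthogonalDecomposition.symm.measurePreserving
    have h3 := h2.comp h1
    have h4 : (fun p : K × Kᗮ => (p.1 : V) + (p.2 : V))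
        = K.orthogonalDecomposition.symm ∘ (WithLp.toLp 2) := by
      funext p
      have := congrArg (fun L => L (WithLp.toLp 2 p)) K.coe_orthogonalDecomposition_symm
      simp only [Function.comp_apply]
      exact this.symm
    rw [h4]
    exact h3
  rw [← hmp.lintegral_comp hF]
  have hm : Measurable (fun p : K × Kᗮ => F ((p.1 : V) + (p.2 : V))) := hF.comp hmp.measurable
  rw [Measure.volume_eq_prod, lintegral_prod _ hm.aemeasurable]

lemma gw_add (K : Submodule ℝ V) (s : K) (w : Kᗮ) :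
    gw ((s : V) + (w : V)) = gw s * gw w := by
  unfold gw
  rw [← ENNReal.ofReal_mul (by positivity), ← Real.exp_add]
  congr 2
  have h : ‖(s : V) + (w : V)‖ ^ 2 = ‖(s : V)‖ ^ 2 + ‖(w : V)‖ ^ 2 := by
    have := norm_add_sq_eq_norm_sq_add_norm_sq_of_inner_eq_zero (s : V) (w : V)
      (K.inner_right_of_mem_orthogonal s.2 w.2)
    nlinarith [this]
  rw [h]
  simp only [Submodule.coe_norm]
  ring

lemma tot_split (K : Submodule ℝ V) : tot V = tot K * tot Kᗮ := by
  unfold tot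
  rw [lintegral_split K gw measurable_gw]
  have : ∀ s : K, ∫⁻ w : Kᗮ, gw ((s : V) + (w : V)) = gw s * ∫⁻ w : Kᗮ, gw w := by
    intro s
    rw [← lintegral_const_mul _ measurable_gw]
    apply lintegral_congr
    intro w
    exact gw_add K s w
  simp_rw [this]
  rw [lintegral_mul_const _ measurable_gw]

end Split

/-- Adaptive information does not help to localise a Gaussian vector. -/
theorem small_measure : ∀ (k : ℕ) (V : Type) [NormedAddCommGroup V] [InnerProductSpace ℝ V]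
    [FiniteDimensional ℝ V] [MeasurableSpace V] [BorelSpace V] (M : Set V) (_ : MeasurableSet M)
    (G : V → V) (_ : IsAlg (aff V) k G) (r : ℝ) (_ : ∀ v ∈ M, ‖v - G v‖ ≤ r),
    ∫⁻ v in M, gw v ≤ ENNReal.ofReal (Real.exp (3 / 2 * r ^ 2)) *
      (1 / 2 : ℝ≥0∞) ^ (finrank ℝ V - k) * tot V
  | 0, V, _, _, _, _, _, M, hM, G, hG, r, h => by
    obtain ⟨c, hc⟩ := hG
    rw [Nat.sub_zero]
    apply ball_bound M hM c r
    intro v hv
    rw [← hc v]
    exact h v hv
  | k + 1, V, _, _, _, _, _, M, hM, G, hG, r, h => by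
    obtain ⟨L, ⟨c, a, hL⟩, A', hA', hGA⟩ := hG
    have hhalf : (1 / 2 : ℝ≥0∞) ≤ 1 := by
      rw [one_div]; exact ENNReal.inv_le_one.mpr (by norm_num)
    by_cases ha : a = 0
    · -- constant functional
      have hG' : IsAlg (aff V) k G := by
        have : G = A' c := by
          funext v
          rw [hGA v, hL v, ha, inner_zero_left, add_zero]
        rw [this]
        exact hA' c
      refine (small_measure k V M hM G hG' r h).trans ?_
      have hp : (1 / 2 : ℝ≥0∞) ^ (finrank ℝ V - k) ≤ (1 / 2 : ℝ≥0∞) ^ (finrank ℝ V - (k + 1)) :=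
        pow_le_pow_right_of_le_one' hhalf (by omega)
      exact mul_le_mul' (mul_le_mul' le_rfl hp) le_rfl
    · set K : Submodule ℝ V := Submodule.span ℝ {a} with hK
      have hdim : finrank ℝ Kᗮ + 1 = finrank ℝ V := by
        have h1 := K.finrank_add_finrank_orthogonal
        have h2 : finrank ℝ K = 1 := finrank_span_singleton ha
        omega
      -- slices
      have hslice : ∀ s : K, ∫⁻ w : Kᗮ, M.indicator gw ((s : V) + (w : V)) ≤
          gw s * (ENNReal.ofReal (Real.exp (3 / 2 * r ^ 2)) *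
            (1 / 2 : ℝ≥0∞) ^ (finrank ℝ Kᗮ - k) * tot Kᗮ) := by
        intro s
        set Ms : Set Kᗮ := {w | (s : V) + (w : V) ∈ M} with hMs
        have hMsm : MeasurableSet Ms := by
          have : Measurable (fun w : Kᗮ => (s : V) + (w : V)) := by fun_prop
          exact this hM
        have h1 : ∫⁻ w : Kᗮ, M.indicator gw ((s : V) + (w : V))
            = gw s * ∫⁻ w in Ms, gw w := by
          rw [← lintegral_indicator hMsm, ← lintegral_const_mul _
            (measurable_gw.indicator hMsm)]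
          apply lintegral_congr
          intro w
          by_cases hw : (s : V) + (w : V) ∈ M
          · rw [indicator_of_mem hw, indicator_of_mem (show w ∈ Ms from hw), gw_add]
          · rw [indicator_of_notMem hw, indicator_of_notMem (show w ∉ Ms from hw), mul_zero]
        rw [h1]
        apply mul_le_mul_right
        -- algorithm on the slice
        let Gs : Kᗮ → Kᗮ := fun w =>
          Kᗮ.orthogonalProjectionOnto (A' (c + ⟪a, (s : V)⟫) ((s : V) + (w : V)))
        have hGs : IsAlg (aff Kᗮ) k Gs := by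
          have h2 : IsAlg (aff V) k (fun v => Kᗮ.orthogonalProjectionOnto (A' (c + ⟪a, (s : V)⟫) v)) :=
            (hA' _).post (fun y => Kᗮ.orthogonalProjectionOnto y)
          refine IsAlg.comap (ι := fun w : Kᗮ => (s : V) + (w : V)) ?_ h2
          rintro L' ⟨c', a', hL'⟩
          refine ⟨c' + ⟪a', (s : V)⟫, Kᗮ.orthogonalProjectionOnto a', ?_⟩
          intro w
          show L' ((s : V) + (w : V)) = _
          rw [hL', inner_add_right]
          have h3 : ⟪a', (w : V)⟫ = ⟪Kᗮ.orthogonalProjectionOnto a', w⟫ := by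
            rw [Submodule.coe_inner]
            have h4 := Submodule.inner_orthogonalProjectionOnto_eq_of_mem_right w a'
            rw [← h4]
            rfl
          rw [h3]; ring
        apply small_measure k Kᗮ Ms hMsm Gs hGs r
        intro w hw
        have h2 := h _ hw
        have h3 : G ((s : V) + (w : V)) = A' (c + ⟪a, (s : V)⟫) ((s : V) + (w : V)) := by
          rw [hGA, hL]
          congr 1
          rw [inner_add_right]
          have : ⟪a, (w : V)⟫ = 0 :=
            K.inner_right_of_mem_orthogonal (Submodule.mem_span_singleton_self a) w.2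
          rw [this, add_zero]
        rw [h3] at h2
        have h4 : w - Gs w = Kᗮ.orthogonalProjectionOnto
            ((s : V) + (w : V) - A' (c + ⟪a, (s : V)⟫) ((s : V) + (w : V))) := by
          rw [map_sub, map_add]
          have h5 : Kᗮ.orthogonalProjectionOnto (s : V) = 0 := by
            rw [Submodule.orthogonalProjectionOnto_eq_zero_iff, Submodule.orthogonal_orthogonal]
            exact s.2
          have h6 : Kᗮ.orthogonalProjectionOnto (w : V) = w :=
            Submodule.orthogonalProjectionOnto_mem_subspace_eq_self w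
          rw [h5, h6, zero_add]
        rw [h4]
        refine le_trans ?_ h2
        exact Kᗮ.norm_orthogonalProjectionOnto_apply_le _
      calc ∫⁻ v in M, gw v = ∫⁻ v, M.indicator gw v := (lintegral_indicator hM _).symm
        _ = ∫⁻ s : K, ∫⁻ w : Kᗮ, M.indicator gw ((s : V) + (w : V)) :=
            lintegral_split K _ (measurable_gw.indicator hM)
        _ ≤ ∫⁻ s : K, gw s * (ENNReal.ofReal (Real.exp (3 / 2 * r ^ 2)) *
            (1 / 2 : ℝ≥0∞) ^ (finrank ℝ Kᗮ - k) * tot Kᗮ) := lintegral_mono hslice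
        _ = tot K * (ENNReal.ofReal (Real.exp (3 / 2 * r ^ 2)) *
            (1 / 2 : ℝ≥0∞) ^ (finrank ℝ Kᗮ - k) * tot Kᗮ) := by
            rw [lintegral_mul_const _ measurable_gw]; rfl
        _ = ENNReal.ofReal (Real.exp (3 / 2 * r ^ 2)) *
            (1 / 2 : ℝ≥0∞) ^ (finrank ℝ V - (k + 1)) * tot V := by
            rw [tot_split K]
            have : finrank ℝ Kᗮ - k = finrank ℝ V - (k + 1) := by omega
            rw [this]; ring

end Pool.Agent.Helper579.GaussCore
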