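import Mathlib
import Pool.Agent.Helper579.GaussCore

set_option autoImplicit false
set_option linter.unusedSectionVars false

namespace Pool.Agent.Helper579.CoreEst

open MeasureTheory Set Metric Module
open Pool.Agent.Helper579.Recovery Pool.Agent.Helper579.GaussCore
open scoped ENNReal RealInnerProductSpace Pointwise

section Fixed

variable {V : Type} [NormedAddCommGroup V] [InnerProductSpace ℝ V] [FiniteDimensional ℝ V]
  [MeasurableSpace V] [BorelSpace V]
variable {Y : Type*} [NormedAddCommGroup Y]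
variable {W : Type*} [NormedAddCommGroup W] [NormedSpace ℝ W]

lemma num_bound {n : ℕ} (hn : 1 ≤ n) {r : ℝ} (hr : r ^ 2 = n / 25) :
    ENNReal.ofReal (Real.exp (3 / 2 * r ^ 2)) * (1 / 2 : ℝ≥0∞) ^ n ≤ ENNReal.ofReal (54 / 100) := by
  have h1 : (1 / 2 : ℝ≥0∞) ^ n = ENNReal.ofReal ((1 / 2) ^ n) := by
    rw [ENNReal.ofReal_pow (by norm_num)]
    congr 1
    rw [ENNReal.ofReal_div_of_pos (by norm_num)]
    simp
  rw [h1, ← ENNReal.ofReal_mul (by positivity)]
  apply ENNReal.ofReal_le_ofReal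
  have h2 : Real.exp (3 / 2 * r ^ 2) = Real.exp (3 / 50) ^ n := by
    rw [← Real.exp_nat_mul, hr]; congr 1; ring
  rw [h2, ← mul_pow]
  have h3 : Real.exp (3 / 50) ≤ 108 / 100 := by
    have h4 : (1 : ℝ) - 3 / 50 ≤ Real.exp (-(3 / 50)) := by
      have := Real.add_one_le_exp (-(3 / 50 : ℝ))
      linarith
    rw [Real.exp_neg] at h4
    have h5 : 0 < Real.exp (3 / 50 : ℝ) := Real.exp_pos _
    rw [le_inv_comm₀ (by norm_num) h5] at h4
    refine h4.trans ?_
    norm_num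
  calc (Real.exp (3 / 50) * (1 / 2)) ^ n ≤ (54 / 100 : ℝ) ^ n := by
        apply pow_le_pow_left₀ (by positivity)
        linarith
    _ ≤ (54 / 100 : ℝ) ^ 1 := pow_le_pow_of_le_one (by norm_num) (by norm_num) hn
    _ = 54 / 100 := pow_one _

/-- average error of a deterministic algorithm over the Gaussian restricted to a large set -/
theorem core_fixed {Good : Set V} (hGood : MeasurableSet Good)
    (hGoodc : ∫⁻ v in Goodᶜ, gw v ≤ ENNReal.ofReal (1 / 10) * tot V)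
    {Ψ : Y → W} {κ : ℝ} (hκ : 0 < κ) (hΨ : ∀ a b, ‖Ψ a - Ψ b‖ ≤ κ * ‖a - b‖)
    {s : V → Y} {T : V →ₗ[ℝ] W} {b : W} {τ : ℝ} (hτ : 0 < τ)
    (hs : ∀ v ∈ Good, Ψ (s v) = b + τ • T v)
    {σ : ℝ} (hσ0 : 0 ≤ σ) (hσ : ∀ v, σ * ‖v‖ ≤ ‖T v‖)
    {k : ℕ} (hk : k < finrank ℝ V) {A : V → Y} (hA : IsAlg (aff V) k A)
    {err : V → ℝ} (hmeas : Measurable err) (herr : ∀ v ∈ Good, err v = ‖s v - A v‖) :
    ENNReal.ofReal (Real.sqrt ((finrank ℝ V - k : ℕ) : ℝ) * τ * σ / (40 * κ)) * tot V ≤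
      ∫⁻ v in Good, ENNReal.ofReal (err v) * gw v := by
  classical
  set n : ℕ := finrank ℝ V - k with hn
  have hn1 : 1 ≤ n := by omega
  rcases eq_or_lt_of_le hσ0 with hσz | hσpos
  · rw [← hσz]; simp
  set r : ℝ := Real.sqrt n / 5 with hr
  have hr2 : r ^ 2 = n / 25 := by
    rw [hr, div_pow, Real.sq_sqrt (by positivity)]; norm_num
  set δ : ℝ := r * τ * σ / (2 * κ) with hδ
  have hδ0 : 0 ≤ δ := by positivity
  set M : Set V := Good ∩ {v | err v ≤ δ} with hM
  have hMm : MeasurableSet M := hGood.inter (measurableSet_le hmeas measurable_const)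
  -- two points of M with the same output are close
  have hclose : ∀ v ∈ M, ∀ v' ∈ M, A v = A v' → ‖v - v'‖ ≤ r := by
    intro v hv v' hv' hAA
    have h1 : ‖Ψ (s v) - Ψ (A v)‖ ≤ κ * δ := by
      refine (hΨ _ _).trans (mul_le_mul_of_nonneg_left ?_ hκ.le)
      rw [← herr v hv.1]; exact hv.2
    have h2 : ‖Ψ (s v') - Ψ (A v')‖ ≤ κ * δ := by
      refine (hΨ _ _).trans (mul_le_mul_of_nonneg_left ?_ hκ.le)
      rw [← herr v' hv'.1]; exact hv'.2
    have h3 : τ • T (v - v') = (Ψ (s v) - Ψ (A v)) - (Ψ (s v') - Ψ (A v')) := by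
      rw [hs v hv.1, hs v' hv'.1, hAA, map_sub, smul_sub]; abel
    have h4 : τ * ‖T (v - v')‖ ≤ 2 * (κ * δ) := by
      have : τ * ‖T (v - v')‖ = ‖τ • T (v - v')‖ := by
        rw [norm_smul, Real.norm_eq_abs, abs_of_pos hτ]
      rw [this, h3]
      refine (norm_sub_le _ _).trans ?_
      linarith
    have h5 : τ * σ * ‖v - v'‖ ≤ τ * σ * r := by
      have h6 := mul_le_mul_of_nonneg_left (hσ (v - v')) hτ.le
      have h7 : 2 * (κ * δ) = τ * σ * r := by
        rw [hδ]; field_simp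
      nlinarith
    exact le_of_mul_le_mul_left h5 (by positivity)
  -- localisation algorithm
  let ch : Y → V := fun y => if h : ∃ v ∈ M, A v = y then h.choose else 0
  have hch : IsAlg (aff V) k (fun v => ch (A v)) := hA.post ch
  have hloc : ∀ v ∈ M, ‖v - ch (A v)‖ ≤ r := by
    intro v hv
    have hex : ∃ v' ∈ M, A v' = A v := ⟨v, hv, rfl⟩
    have h1 : ch (A v) = hex.choose := dif_pos hex
    rw [h1]
    exact hclose v hv _ hex.choose_spec.1 hex.choose_spec.2.symm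
  have hMbound : ∫⁻ v in M, gw v ≤ ENNReal.ofReal (54 / 100) * tot V := by
    refine (small_measure k V M hMm _ hch r hloc).trans ?_
    exact mul_le_mul' (num_bound hn1 hr2) le_rfl
  -- the rest has large mass
  have hrest : ENNReal.ofReal (1 / 4) * tot V ≤ ∫⁻ v in Good \ M, gw v := by
    have h1 : tot V ≤ (∫⁻ v in Goodᶜ, gw v) + (∫⁻ v in M, gw v) + (∫⁻ v in Good \ M, gw v) := by
      have hcover : (univ : Set V) ⊆ (Goodᶜ ∪ M) ∪ (Good \ M) := by
        intro v _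
        by_cases hg : v ∈ Good
        · by_cases hm : v ∈ M
          · exact Or.inl (Or.inr hm)
          · exact Or.inr ⟨hg, hm⟩
        · exact Or.inl (Or.inl hg)
      calc tot V = ∫⁻ v in (univ : Set V), gw v := by rw [Measure.restrict_univ]; rfl
        _ ≤ ∫⁻ v in (Goodᶜ ∪ M) ∪ (Good \ M), gw v := lintegral_mono_set hcover
        _ ≤ (∫⁻ v in Goodᶜ ∪ M, gw v) + (∫⁻ v in Good \ M, gw v) := lintegral_union_le _ _ _
        _ ≤ _ := add_le_add (lintegral_union_le _ _ _) le_rfl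
    have h2 : tot V ≤ ENNReal.ofReal (64 / 100) * tot V + ∫⁻ v in Good \ M, gw v := by
      refine h1.trans (add_le_add ?_ le_rfl)
      calc (∫⁻ v in Goodᶜ, gw v) + (∫⁻ v in M, gw v)
          ≤ ENNReal.ofReal (1 / 10) * tot V + ENNReal.ofReal (54 / 100) * tot V :=
            add_le_add hGoodc hMbound
        _ = ENNReal.ofReal (64 / 100) * tot V := by
            rw [← add_mul, ← ENNReal.ofReal_add (by norm_num) (by norm_num)]
            norm_num
    have h3 : tot V = ENNReal.ofReal (64 / 100) * tot V + ENNReal.ofReal (36 / 100) * tot V := by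
      rw [← add_mul, ← ENNReal.ofReal_add (by norm_num) (by norm_num)]
      norm_num
    have h4 : ENNReal.ofReal (36 / 100) * tot V ≤ ∫⁻ v in Good \ M, gw v := by
      nth_rewrite 1 [h3] at h2
      exact (ENNReal.add_le_add_iff_left
        (ENNReal.mul_ne_top ENNReal.ofReal_ne_top tot_ne_top)).mp h2
    refine le_trans ?_ h4
    exact mul_le_mul' (ENNReal.ofReal_le_ofReal (by norm_num)) le_rfl
  calc ENNReal.ofReal (Real.sqrt n * τ * σ / (40 * κ)) * tot V
      = ENNReal.ofReal δ * (ENNReal.ofReal (1 / 4) * tot V) := by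
        rw [← mul_assoc, ← ENNReal.ofReal_mul hδ0]
        congr 2
        rw [hδ, hr]; field_simp; norm_num
    _ ≤ ENNReal.ofReal δ * ∫⁻ v in Good \ M, gw v := by gcongr
    _ = ∫⁻ v in Good \ M, ENNReal.ofReal δ * gw v := by
        rw [lintegral_const_mul _ measurable_gw]
    _ ≤ ∫⁻ v in Good \ M, ENNReal.ofReal (err v) * gw v := by
        apply setLIntegral_mono' (hGood.diff hMm)
        intro v hv
        have : δ ≤ err v := by
          by_contra hcon
          push Not at hcon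
          exact hv.2 ⟨hv.1, hcon.le⟩
        gcongr
    _ ≤ ∫⁻ v in Good, ENNReal.ofReal (err v) * gw v := lintegral_mono_set sdiff_subset

/-- randomised version -/
theorem core_rand {Good : Set V} (hGood : MeasurableSet Good)
    (hGoodc : ∫⁻ v in Goodᶜ, gw v ≤ ENNReal.ofReal (1 / 10) * tot V)
    {Ψ : Y → W} {κ : ℝ} (hκ : 0 < κ) (hΨ : ∀ a b, ‖Ψ a - Ψ b‖ ≤ κ * ‖a - b‖)
    {s : V → Y} {T : V →ₗ[ℝ] W} {b : W} {τ : ℝ} (hτ : 0 < τ)
    (hs : ∀ v ∈ Good, Ψ (s v) = b + τ • T v)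
    {σ : ℝ} (hσ0 : 0 ≤ σ) (hσ : ∀ v, σ * ‖v‖ ≤ ‖T v‖)
    {k : ℕ} (hk : k < finrank ℝ V)
    {Ω : Type*} [MeasurableSpace Ω] {μ : Measure Ω} [IsProbabilityMeasure μ]
    {A : Ω → V → Y} (hA : ∀ ω, IsAlg (aff V) k (A ω))
    {err : V → Ω → ℝ} (hmeas : Measurable (fun p : V × Ω => err p.1 p.2))
    (herr : ∀ ω, ∀ v ∈ Good, err v ω = ‖s v - A ω v‖)
    {e : ℝ≥0∞} (he : ∀ v, ∫⁻ ω, ENNReal.ofReal (err v ω) ∂μ ≤ e) :
    ENNReal.ofReal (Real.sqrt ((finrank ℝ V - k : ℕ) : ℝ) * τ * σ / (40 * κ)) ≤ e := by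
  set c := ENNReal.ofReal (Real.sqrt ((finrank ℝ V - k : ℕ) : ℝ) * τ * σ / (40 * κ)) with hc
  have h1 : ∀ ω, c * tot V ≤ ∫⁻ v in Good, ENNReal.ofReal (err v ω) * gw v := fun ω =>
    core_fixed hGood hGoodc hκ hΨ hτ hs hσ0 hσ hk (hA ω)
      (hmeas.comp (measurable_id.prodMk measurable_const)) (herr ω)
  have h2 : c * tot V ≤ ∫⁻ ω, (∫⁻ v in Good, ENNReal.ofReal (err v ω) * gw v) ∂μ := by
    calc c * tot V = ∫⁻ _ω, c * tot V ∂μ := by rw [lintegral_const, measure_univ, mul_one]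
      _ ≤ _ := lintegral_mono h1
  have h3 : ∫⁻ ω, (∫⁻ v in Good, ENNReal.ofReal (err v ω) * gw v) ∂μ
      = ∫⁻ v in Good, (∫⁻ ω, ENNReal.ofReal (err v ω) * gw v ∂μ) := by
    apply lintegral_lintegral_swap
    apply Measurable.aemeasurable
    have h4 : Measurable (fun p : Ω × V => err p.2 p.1) := hmeas.comp measurable_swap
    exact (h4.ennreal_ofReal).mul (measurable_gw.comp measurable_snd)
  rw [h3] at h2
  have h5 : ∫⁻ v in Good, (∫⁻ ω, ENNReal.ofReal (err v ω) * gw v ∂μ) ≤ e * tot V := by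
    calc ∫⁻ v in Good, (∫⁻ ω, ENNReal.ofReal (err v ω) * gw v ∂μ)
        ≤ ∫⁻ v, (∫⁻ ω, ENNReal.ofReal (err v ω) * gw v ∂μ) := setLIntegral_le_lintegral _ _
      _ ≤ ∫⁻ v, e * gw v := by
          apply lintegral_mono
          intro v
          show ∫⁻ ω, ENNReal.ofReal (err v ω) * gw v ∂μ ≤ e * gw v
          rw [lintegral_mul_const']
          · exact mul_le_mul' (he v) le_rfl
          · unfold gw; exact ENNReal.ofReal_ne_top
      _ = e * tot V := lintegral_const_mul _ measurable_gw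
  exact (ENNReal.mul_le_mul_iff_left tot_pos tot_ne_top).mp (h2.trans h5)

end Fixed

end Pool.Agent.Helper579.CoreEst
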