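import Mathlib

/-!
Definitions for the comparison of deterministic non-adaptive algorithms and randomized adaptive
algorithms for approximating a continuous linear operator `S` on a convex set `F`.
-/

set_option autoImplicit false

namespace Pool.Agent.Helper579.IBC

open MeasureTheory
open scoped ENNReal Pointwise

/-- `IsAlg Λ n A`: the map `A` is a deterministic adaptive algorithm using `n` measurements from
the class `Λ`. With `n = 0` it is constant. With `n + 1` there is a first measurement `L ∈ Λ`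
and, for every possible value `v` of it, an algorithm `A' v` using `n` measurements, and
`A x = A' (L x) x`. -/
def IsAlg {X Y V : Type*} (Λ : Set (X → V)) : ℕ → (X → Y) → Prop
  | 0, A => ∃ c, ∀ x, A x = c
  | n + 1, A => ∃ L ∈ Λ, ∃ A' : V → X → Y, (∀ v, IsAlg Λ n (A' v)) ∧ ∀ x, A x = A' (L x) x

section Defs

variable (𝕜 : Type) [RCLike 𝕜] {X Y : Type} [NormedAddCommGroup X] [NormedSpace 𝕜 X]
  [NormedSpace ℝ X] [NormedAddCommGroup Y] [NormedSpace 𝕜 Y]

/-- The admissible measurements on `F`: restrictions of continuous linear functionals. -/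
def info (F : Set X) : Set (F → 𝕜) := {L | ∃ φ : X →L[𝕜] 𝕜, ∀ f : F, L f = φ f}

/-- The minimal error of deterministic non-adaptive algorithms with `n` measurements. -/
noncomputable def detNonErr (S : X →L[𝕜] Y) (F : Set X) (n : ℕ) : ℝ≥0∞ :=
  ⨅ (L : Fin n → X →L[𝕜] 𝕜) (φ : (Fin n → 𝕜) → Y),
    ⨆ f : F, ENNReal.ofReal ‖S f - φ (fun i => L i f)‖

/-- A subset `U` of `F` is open for the seminorm with unit ball `F - F` (the gauge of `F - F`). -/
def SemiOpen (F : Set X) (U : Set F) : Prop :=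
  ∀ f ∈ U, ∃ ε : ℝ, 0 < ε ∧ ∀ g : F, gauge (F - F) ((g : X) - (f : X)) < ε → g ∈ U

/-- The Borel sigma-algebra on `F` for the seminorm with unit ball `F - F`. -/
@[reducible] def borelF (F : Set X) : MeasurableSpace F := MeasurableSpace.generateFrom {U | SemiOpen F U}

/-- The set of errors of randomized (adaptive) algorithms with `n` measurements. A randomized
algorithm is a family `A ω` of adaptive deterministic algorithms over a probability space such
that `(f, ω) ↦ ‖S f - A ω f‖` is jointly measurable; its error is the supremum over `F` of the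
expected error. -/
def ranErrors (S : X →L[𝕜] Y) (F : Set X) (n : ℕ) : Set ℝ≥0∞ :=
  {e | ∃ (Ω : Type) (mΩ : MeasurableSpace Ω) (μ : Measure Ω) (_ : IsProbabilityMeasure μ)
      (A : Ω → F → Y), (∀ ω, IsAlg (info 𝕜 F) n (A ω)) ∧
      @Measurable (F × Ω) ℝ (@Prod.instMeasurableSpace F Ω (borelF F) mΩ) _
        (fun p => ‖S p.1 - A p.2 p.1‖) ∧
      e = ⨆ f : F, ∫⁻ ω, ENNReal.ofReal ‖S f - A ω f‖ ∂μ}

/-- The minimal error of randomized adaptive algorithms with `n` measurements. -/
noncomputable def ranErr (S : X →L[𝕜] Y) (F : Set X) (n : ℕ) : ℝ≥0∞ :=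
  sInf (ranErrors 𝕜 S F n)

end Defs

/-- The polynomial rate `r(a) = sup {α ∈ ℝ : sup_{n ≥ 1} n^α a_n < ∞}`. -/
noncomputable def rate (a : ℕ → ℝ≥0∞) : EReal :=
  sSup {r : EReal | ∃ α : ℝ, r = α ∧ ⨆ (n : ℕ) (_ : 1 ≤ n), (n : ℝ≥0∞) ^ α * a n < ∞}

/-- Rate gains of instances over real Banach spaces. -/
def gainsReal : Set EReal :=
  {g | ∃ (X Y : Type) (_ : NormedAddCommGroup X) (_ : NormedSpace ℝ X) (_ : CompleteSpace X)
      (_ : NormedAddCommGroup Y) (_ : NormedSpace ℝ Y) (_ : CompleteSpace Y)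
      (S : X →L[ℝ] Y) (F : Set X), F.Nonempty ∧ Convex ℝ F ∧
      rate (ranErr ℝ S F) ≠ ⊥ ∧ rate (ranErr ℝ S F) ≠ ⊤ ∧
      g = rate (ranErr ℝ S F) - rate (detNonErr ℝ S F)}

/-- Rate gains of instances over complex Banach spaces. -/
def gainsComplex : Set EReal :=
  {g | ∃ (X Y : Type) (_ : NormedAddCommGroup X) (_ : NormedSpace ℂ X) (_ : CompleteSpace X)
      (_ : NormedAddCommGroup Y) (_ : NormedSpace ℂ Y) (_ : CompleteSpace Y)
      (S : X →L[ℂ] Y) (F : Set X), F.Nonempty ∧ Convex ℝ F ∧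
      rate (ranErr ℂ S F) ≠ ⊥ ∧ rate (ranErr ℂ S F) ≠ ⊤ ∧
      g = rate (ranErr ℂ S F) - rate (detNonErr ℂ S F)}

/-- The maximal rate gain over all instances (real and complex Banach spaces). -/
noncomputable def gammaB : EReal := sSup (gainsReal ∪ gainsComplex)

/-- Rate gains of instances over real Banach spaces with a Hilbert target space. -/
def gainsRealH : Set EReal :=
  {g | ∃ (X Y : Type) (_ : NormedAddCommGroup X) (_ : NormedSpace ℝ X) (_ : CompleteSpace X)
      (_ : NormedAddCommGroup Y) (_ : InnerProductSpace ℝ Y) (_ : CompleteSpace Y)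
      (S : X →L[ℝ] Y) (F : Set X), F.Nonempty ∧ Convex ℝ F ∧
      rate (ranErr ℝ S F) ≠ ⊥ ∧ rate (ranErr ℝ S F) ≠ ⊤ ∧
      g = rate (ranErr ℝ S F) - rate (detNonErr ℝ S F)}

/-- Rate gains of instances over complex Banach spaces with a Hilbert target space. -/
def gainsComplexH : Set EReal :=
  {g | ∃ (X Y : Type) (_ : NormedAddCommGroup X) (_ : NormedSpace ℂ X) (_ : CompleteSpace X)
      (_ : NormedAddCommGroup Y) (_ : InnerProductSpace ℂ Y) (_ : CompleteSpace Y)
      (S : X →L[ℂ] Y) (F : Set X), F.Nonempty ∧ Convex ℝ F ∧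
      rate (ranErr ℂ S F) ≠ ⊥ ∧ rate (ranErr ℂ S F) ≠ ⊤ ∧
      g = rate (ranErr ℂ S F) - rate (detNonErr ℂ S F)}

/-- The maximal rate gain over all instances whose target space is a Hilbert space. -/
noncomputable def gammaH : EReal := sSup (gainsRealH ∪ gainsComplexH)

end Pool.Agent.Helper579.IBC
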