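import Mathlib
import Pool.Agent.Helper579.CoreEst
import Pool.Agent.Helper579.IBCDefs

set_option autoImplicit false
set_option linter.unusedSectionVars false

namespace Pool.Agent.Helper579.RanLower

open MeasureTheory Set Metric Module
open Pool.Agent.Helper579.GaussCore Pool.Agent.Helper579.CoreEst
open scoped ENNReal RealInnerProductSpace Pointwise

section Pt

variable {X : Type} [NormedAddCommGroup X] [NormedSpace ℝ X] {N : ℕ} (f g : Fin N → X)

/-- averages of points on the segments `[g j, f j]` -/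
noncomputable def pt (t : Fin N → ℝ) : X :=
  ∑ j, (N : ℝ)⁻¹ • (((1 + t j) / 2) • f j + ((1 - t j) / 2) • g j)

lemma pt_mem {F : Set X} (hF : Convex ℝ F) (hN : 0 < N) (hf : ∀ j, f j ∈ F)
    (hg : ∀ j, g j ∈ F) {t : Fin N → ℝ} (ht : ∀ j, |t j| ≤ 1) : pt f g t ∈ F := by
  unfold pt
  apply hF.sum_mem
  · intro j _; positivity
  · simp only [Finset.sum_const, Finset.card_univ, Fintype.card_fin, nsmul_eq_mul]
    field_simp
  · intro j _
    have h := abs_le.mp (ht j)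
    apply hF (hf j) (hg j)
    · linarith
    · linarith
    · ring

lemma pt_eq (t : Fin N → ℝ) :
    pt f g t = pt f g 0 + (2 * (N : ℝ))⁻¹ • ∑ j, t j • (f j - g j) := by
  unfold pt
  rw [Finset.smul_sum, ← Finset.sum_add_distrib]
  apply Finset.sum_congr rfl
  intro j _
  simp only [Pi.zero_apply]
  rw [mul_inv]
  module

lemma pt_sub_mem {F : Set X} (hF : Convex ℝ F) (hN : 0 < N) (hf : ∀ j, f j ∈ F)
    (hg : ∀ j, g j ∈ F) {t t' : Fin N → ℝ} {a : ℝ} (ha : 0 < a)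
    (h : ∀ j, |t' j - t j| ≤ 2 * a) : pt f g t' - pt f g t ∈ a • (F - F) := by
  have h1 : ∀ j, |(t' j - t j) / (2 * a)| ≤ 1 := by
    intro j
    rw [abs_div, abs_of_pos (by positivity : (0 : ℝ) < 2 * a), div_le_one (by positivity)]
    exact h j
  have h2 : ∀ j, |-((t' j - t j) / (2 * a))| ≤ 1 := by
    intro j; rw [abs_neg]; exact h1 j
  refine ⟨pt f g (fun j => (t' j - t j) / (2 * a)) - pt f g (fun j => -((t' j - t j) / (2 * a))),
    ⟨_, pt_mem f g hF hN hf hg h1, _, pt_mem f g hF hN hf hg h2, rfl⟩, ?_⟩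
  simp only [pt]
  rw [← Finset.sum_sub_distrib, ← Finset.sum_sub_distrib, Finset.smul_sum]
  apply Finset.sum_congr rfl
  intro j _
  have e : a * ((t' j - t j) / (2 * a)) = (t' j - t j) / 2 := by field_simp
  rw [← smul_sub, ← smul_sub, smul_comm]
  congr 1
  have e2 : ((1 + (t' j - t j) / (2 * a)) / 2) • f j + ((1 - (t' j - t j) / (2 * a)) / 2) • g j -
      (((1 + -((t' j - t j) / (2 * a))) / 2) • f j + ((1 - -((t' j - t j) / (2 * a))) / 2) • g j)
      = ((t' j - t j) / (2 * a)) • (f j - g j) := by module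
  rw [e2, smul_smul, e]
  module

lemma gauge_pt_sub {F : Set X} (hF : Convex ℝ F) (hN : 0 < N) (hf : ∀ j, f j ∈ F)
    (hg : ∀ j, g j ∈ F) {t t' : Fin N → ℝ} {a : ℝ} (ha : 0 < a)
    (h : ∀ j, |t' j - t j| ≤ 2 * a) : gauge (F - F) (pt f g t' - pt f g t) ≤ a :=
  gauge_le_of_mem ha.le (pt_sub_mem f g hF hN hf hg ha h)

end Pt

/-- clipping to `[-1, 1]` -/
noncomputable def clip (x : ℝ) : ℝ := max (-1) (min 1 x)

lemma abs_clip_le (x : ℝ) : |clip x| ≤ 1 := by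
  unfold clip
  rw [abs_le]
  exact ⟨le_max_left _ _, max_le (by norm_num) (min_le_left _ _)⟩

lemma clip_eq {x : ℝ} (h : |x| ≤ 1) : clip x = x := by
  have h' := abs_le.mp h
  unfold clip
  rw [min_eq_right h'.2, max_eq_right h'.1]

lemma abs_clip_sub (x y : ℝ) : |clip x - clip y| ≤ |x - y| := by
  unfold clip
  refine (abs_max_sub_max_le_max _ _ _ _).trans ?_
  rw [sub_self, abs_zero]
  refine max_le (abs_nonneg _) ?_
  refine (abs_min_sub_min_le_max _ _ _ _).trans ?_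
  rw [sub_self, abs_zero]
  exact max_le (abs_nonneg _) le_rfl

section Good

variable {N : ℕ} (V : Submodule ℝ (EuclideanSpace ℝ (Fin N)))

/-- the cube -/
def good (ρ : ℝ) : Set V := {v | ∀ j, |(v : EuclideanSpace ℝ (Fin N)) j| ≤ ρ}

lemma measurableSet_good (ρ : ℝ) : MeasurableSet (good V ρ) := by
  apply IsClosed.measurableSet
  have : good V ρ = ⋂ j, {v : V | |(v : EuclideanSpace ℝ (Fin N)) j| ≤ ρ} := by
    ext v; simp [good]
  rw [this]
  apply isClosed_iInter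
  intro j
  apply isClosed_le _ continuous_const
  exact (((EuclideanSpace.proj j).continuous).comp continuous_subtype_val).abs

lemma good_compl_le (hN : 0 < N) {ρ : ℝ} (hρ : ρ = Real.sqrt (2 * Real.log (20 * N))) :
    ∫⁻ v in (good V ρ)ᶜ, gw v ≤ ENNReal.ofReal (1 / 10) * tot V := by
  classical
  have hNr : (1 : ℝ) ≤ N := by exact_mod_cast hN
  have hlog : 0 ≤ Real.log (20 * N) := Real.log_nonneg (by linarith)
  have hρ0 : 0 ≤ ρ := by rw [hρ]; positivity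
  have hexp : Real.exp (-(ρ ^ 2 / 2)) = 1 / (20 * N) := by
    rw [hρ, Real.sq_sqrt (by positivity), mul_div_assoc, mul_comm, div_mul_cancel₀ _ (by norm_num),
      Real.exp_neg, Real.exp_log (by positivity), one_div]
  let e : Fin N → V := fun j => V.orthogonalProjectionOnto (EuclideanSpace.single j (1 : ℝ))
  have he : ∀ j, ‖e j‖ ≤ 1 := by
    intro j
    refine (V.norm_orthogonalProjectionOnto_apply_le _).trans ?_
    simp
  have hin : ∀ j (v : V), ⟪e j, v⟫ = (v : EuclideanSpace ℝ (Fin N)) j := by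
    intro j v
    have h1 := V.inner_orthogonalProjectionOnto_eq_of_mem_right v (EuclideanSpace.single j (1 : ℝ))
    change ⟪V.orthogonalProjectionOnto (EuclideanSpace.single j (1 : ℝ)), v⟫ = _
    rw [h1, EuclideanSpace.inner_single_left]
    simp
  have hsub : (good V ρ)ᶜ ⊆ ⋃ j : Fin N, ({v : V | ρ ≤ ⟪e j, v⟫} ∪ {v : V | ρ ≤ ⟪-(e j), v⟫}) := by
    intro v hv
    simp only [good, Set.mem_compl_iff, Set.mem_ofPred_eq, not_forall, not_le] at hv
    obtain ⟨j, hj⟩ := hv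
    rw [Set.mem_iUnion]
    refine ⟨j, ?_⟩
    rcases lt_abs.mp hj with h | h
    · left
      show ρ ≤ ⟪e j, v⟫
      rw [hin]; exact h.le
    · right
      show ρ ≤ ⟪-(e j), v⟫
      rw [inner_neg_left, hin]; exact h.le
  have hone : ∀ j : Fin N, ∫⁻ v in ({v : V | ρ ≤ ⟪e j, v⟫} ∪ {v : V | ρ ≤ ⟪-(e j), v⟫}), gw v
      ≤ ENNReal.ofReal (1 / (10 * N)) * tot V := by
    intro j
    refine (lintegral_union_le _ _ _).trans ?_
    have h1 := tail_bound (e j) (he j) hρ0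
    have h2 := tail_bound (-(e j)) (by rw [norm_neg]; exact he j) hρ0
    refine (add_le_add h1 h2).trans ?_
    rw [← add_mul, ← ENNReal.ofReal_add (by positivity) (by positivity), hexp]
    refine mul_le_mul' (ENNReal.ofReal_le_ofReal ?_) le_rfl
    have : (1 : ℝ) / (20 * N) + 1 / (20 * N) = 1 / (10 * N) := by field_simp; norm_num
    rw [this]
  calc ∫⁻ v in (good V ρ)ᶜ, gw v
      ≤ ∫⁻ v in ⋃ j : Fin N, ({v : V | ρ ≤ ⟪e j, v⟫} ∪ {v : V | ρ ≤ ⟪-(e j), v⟫}), gw v :=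
        lintegral_mono_set hsub
    _ ≤ ∑' j : Fin N, ∫⁻ v in ({v : V | ρ ≤ ⟪e j, v⟫} ∪ {v : V | ρ ≤ ⟪-(e j), v⟫}), gw v :=
        lintegral_iUnion_le _ _
    _ = ∑ j : Fin N, ∫⁻ v in ({v : V | ρ ≤ ⟪e j, v⟫} ∪ {v : V | ρ ≤ ⟪-(e j), v⟫}), gw v :=
        tsum_fintype _
    _ ≤ ∑ _j : Fin N, ENNReal.ofReal (1 / (10 * N)) * tot V := Finset.sum_le_sum fun j _ => hone j
    _ = ENNReal.ofReal (1 / 10) * tot V := by
        rw [Finset.sum_const, Finset.card_univ, Fintype.card_fin, nsmul_eq_mul, ← mul_assoc]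
        congr 1
        rw [← ENNReal.ofReal_natCast, ← ENNReal.ofReal_mul (by positivity)]
        congr 1
        field_simp

end Good

section Ext

/-- `𝕜` can be encoded by `d` real linear functionals -/
def Enc (𝕜 : Type) [RCLike 𝕜] (d : ℕ) : Prop :=
  ∃ (c : Fin d → (𝕜 →ₗ[ℝ] ℝ)) (dec : (Fin d → ℝ) → 𝕜), ∀ x, dec (fun i => c i x) = x

lemma enc_real : Enc ℝ 1 := ⟨fun _ => LinearMap.id, fun w => w 0, fun _ => rfl⟩

lemma enc_two (𝕜 : Type) [RCLike 𝕜] : Enc 𝕜 2 := by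
  refine ⟨![RCLike.reLm, RCLike.imLm], fun w => (w 0 : 𝕜) + (w 1 : 𝕜) * RCLike.I, fun x => ?_⟩
  simp [RCLike.re_add_im]

variable {V : Type} [NormedAddCommGroup V] [InnerProductSpace ℝ V] [FiniteDimensional ℝ V]

lemma linear_mem_aff (c₀ : ℝ) (l : V →ₗ[ℝ] ℝ) : (fun v => c₀ + l v) ∈ aff V := by
  refine ⟨c₀, (InnerProductSpace.toDual ℝ V).symm (LinearMap.toContinuousLinearMap l), fun v => ?_⟩
  rw [InnerProductSpace.toDual_symm_apply]
  rfl

variable {𝕜 : Type} [RCLike 𝕜] {X Y : Type} [NormedAddCommGroup X] [NormedSpace 𝕜 X]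
  [NormedSpace ℝ X] [IsScalarTower ℝ 𝕜 X] [NormedAddCommGroup Y] [NormedSpace 𝕜 Y]

lemma isAlg_affine {d : ℕ} (hd : Enc 𝕜 d) (c₀ : 𝕜) (l : V →ₗ[ℝ] 𝕜) :
    Recovery.IsAlg (aff V) d (fun v => c₀ + l v) := by
  obtain ⟨c, dec, hdec⟩ := hd
  have h1 : ∀ i : Fin d, Recovery.IsAlg (aff V) 1 (fun v => c i (c₀ + l v)) := by
    intro i
    apply Recovery.isAlg_one
    have : (fun v => c i (c₀ + l v)) = fun v => c i c₀ + (c i ∘ₗ l) v := by
      funext v; simp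
    rw [this]
    exact linear_mem_aff _ _
  have h2 := (Recovery.isAlg_pi h1).post dec
  rw [mul_one] at h2
  have h3 : (fun v => c₀ + l v) = fun v => dec (fun i => c i (c₀ + l v)) := by
    funext v; rw [hdec]
  rw [h3]
  exact h2

lemma ext_alg {d : ℕ} (hd : Enc 𝕜 d) {F : Set X} {h : V → F} {G : Set V} {b₀ : X}
    {l : V →ₗ[ℝ] X} (hh : ∀ v ∈ G, (h v : X) = b₀ + l v) {k : ℕ} :
    ∀ {A : F → Y}, IBC.IsAlg (IBC.info 𝕜 F) k A →
    ∃ A' : V → Y, Recovery.IsAlg (aff V) (k * d) A' ∧ ∀ v ∈ G, A' v = A (h v) := by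
  induction k with
  | zero =>
    intro A hA
    obtain ⟨c, hc⟩ := hA
    refine ⟨fun _ => c, ?_, fun v _ => (hc _).symm⟩
    rw [zero_mul]
    exact Recovery.isAlg_const c
  | succ k ih =>
    intro A hA
    obtain ⟨L, ⟨φ, hφ⟩, A₁, hA₁, hA⟩ := hA
    choose A₂ hA₂ hA₂' using fun v => ih (hA₁ v)
    refine ⟨fun v => A₂ (φ b₀ + (φ.toLinearMap.restrictScalars ℝ ∘ₗ l) v) v, ?_, ?_⟩
    · have := (isAlg_affine hd (φ b₀) (φ.toLinearMap.restrictScalars ℝ ∘ₗ l)).bind hA₂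
      have e : (k + 1) * d = k * d + d := by ring
      rw [e]
      exact this
    · intro v hv
      have h1 : φ b₀ + (φ.toLinearMap.restrictScalars ℝ ∘ₗ l) v = L (h v) := by
        rw [hφ, hh v hv, map_add]
        rfl
      beta_reduce
      rw [h1, hA₂' _ v hv, hA]

end Ext

section Main

variable {𝕜 : Type} [RCLike 𝕜] {X Y : Type} [NormedAddCommGroup X] [NormedSpace 𝕜 X]
  [NormedSpace ℝ X] [IsScalarTower ℝ 𝕜 X] [NormedAddCommGroup Y] [NormedSpace 𝕜 Y]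
  [NormedSpace ℝ Y] [IsScalarTower ℝ 𝕜 Y]
variable {W : Type} [NormedAddCommGroup W] [NormedSpace ℝ W]

theorem ran_lower {d : ℕ} (hd : Enc 𝕜 d) (S : X →L[𝕜] Y) {F : Set X} (hF : Convex ℝ F)
    {N : ℕ} (hN : 0 < N) {f g : Fin N → X} (hf : ∀ j, f j ∈ F) (hg : ∀ j, g j ∈ F)
    (Ψ : Y →ₗ[ℝ] W) {κ : ℝ} (hκ : 0 < κ) (hΨ : ∀ y, ‖Ψ y‖ ≤ κ * ‖y‖)
    (V : Submodule ℝ (EuclideanSpace ℝ (Fin N))) {σ : ℝ} (hσ0 : 0 ≤ σ)
    (hσ : ∀ v ∈ V, σ * ‖v‖ ≤ ‖∑ j, v j • Ψ (S (f j - g j))‖)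
    {k : ℕ} (hk : k * d < finrank ℝ V) {ρ : ℝ} (hρ : ρ = Real.sqrt (2 * Real.log (20 * N)))
    {e : ℝ≥0∞} (he : e ∈ IBC.ranErrors 𝕜 S F k) :
    ENNReal.ofReal (Real.sqrt ((finrank ℝ V - k * d : ℕ) : ℝ) * σ / (80 * N * ρ * κ)) ≤ e := by
  classical
  have hNr : (1 : ℝ) ≤ N := by exact_mod_cast hN
  have hlog : 0 < Real.log (20 * N) := Real.log_pos (by linarith)
  have hρ0 : 0 < ρ := by rw [hρ]; positivity
  obtain ⟨Ω, mΩ, μ, hμ, A, hA, hmeas, he⟩ := he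
  let S' : X →ₗ[ℝ] Y := S.toLinearMap.restrictScalars ℝ
  let tt : V → Fin N → ℝ := fun v j => clip ((v : EuclideanSpace ℝ (Fin N)) j / ρ)
  have htt : ∀ v j, |tt v j| ≤ 1 := fun v j => abs_clip_le _
  let h : V → F := fun v => ⟨pt f g (tt v), pt_mem f g hF hN hf hg (htt v)⟩
  let l : V →ₗ[ℝ] X := (2 * (N : ℝ) * ρ)⁻¹ • ∑ j : Fin N,
    ((EuclideanSpace.proj (𝕜 := ℝ) j).toLinearMap ∘ₗ V.subtype).smulRight (f j - g j)
  have hl : ∀ v : V, l v = (2 * (N : ℝ) * ρ)⁻¹ • ∑ j, (v : EuclideanSpace ℝ (Fin N)) j • (f j - g j) := by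
    intro v
    simp [l]
  have hh : ∀ v ∈ good V ρ, (h v : X) = pt f g 0 + l v := by
    intro v hv
    show pt f g (tt v) = _
    rw [pt_eq, hl]
    congr 1
    have h1 : ∀ j, tt v j = (v : EuclideanSpace ℝ (Fin N)) j / ρ := by
      intro j
      apply clip_eq
      rw [abs_div, abs_of_pos hρ0, div_le_one hρ0]
      exact hv j
    rw [mul_inv _ ρ, mul_smul, Finset.smul_sum (r := ρ⁻¹)]
    congr 1
    apply Finset.sum_congr rfl
    intro j _
    rw [h1, smul_smul]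
    congr 1
    rw [div_eq_mul_inv, mul_comm]
  choose A' hA' hAA' using fun ω => ext_alg hd hh (hA ω)
  -- measurability of h
  have hhm : @Measurable V F _ (IBC.borelF F) h := by
    apply measurable_generateFrom
    intro U hU
    apply IsOpen.measurableSet
    rw [Metric.isOpen_iff]
    intro v hv
    obtain ⟨ε, hε, hball⟩ := hU (h v) hv
    refine ⟨ρ * ε, by positivity, ?_⟩
    intro v' hv'
    apply hball
    refine lt_of_le_of_lt (gauge_pt_sub f g hF hN hf hg (a := ε / 2) (by positivity) ?_)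
      (by linarith)
    intro j
    refine (abs_clip_sub _ _).trans ?_
    rw [← sub_div, abs_div, abs_of_pos hρ0, div_le_iff₀ hρ0]
    rw [Metric.mem_ball, dist_eq_norm] at hv'
    have h2 : |(v' : EuclideanSpace ℝ (Fin N)) j - (v : EuclideanSpace ℝ (Fin N)) j| ≤ ‖v' - v‖ := by
      have := PiLp.norm_apply_le ((v' - v : V) : EuclideanSpace ℝ (Fin N)) j
      simpa using this
    linarith
  let err : V → Ω → ℝ := fun v ω => ‖S (h v : X) - A ω (h v)‖
  have herrm : Measurable (fun p : V × Ω => err p.1 p.2) := by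
    have h1 : @Measurable (V × Ω) (F × Ω) _ (@Prod.instMeasurableSpace F Ω (IBC.borelF F) mΩ)
        (fun p => (h p.1, p.2)) := by
      let _ := IBC.borelF F
      exact (hhm.comp measurable_fst).prodMk measurable_snd
    exact @Measurable.comp _ _ _ _ (@Prod.instMeasurableSpace F Ω (IBC.borelF F) mΩ) _ _ _ hmeas h1
  set T : V →ₗ[ℝ] W := ∑ j : Fin N,
    ((EuclideanSpace.proj (𝕜 := ℝ) j).toLinearMap ∘ₗ V.subtype).smulRight (Ψ (S (f j - g j)))
    with hT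
  have hTv : ∀ v : V, T v = ∑ j, (v : EuclideanSpace ℝ (Fin N)) j • Ψ (S (f j - g j)) := by
    intro v
    simp [hT]
  have hsv : ∀ v ∈ good V ρ, Ψ (S (h v : X)) = Ψ (S (pt f g 0)) + (2 * (N : ℝ) * ρ)⁻¹ • T v := by
    intro v hv
    rw [hh v hv, hTv, hl]
    have h1 : ∀ x : X, S x = S' x := fun x => rfl
    simp only [h1]
    rw [map_add, map_add, map_smul, map_smul, map_sum, map_sum]
    congr 2
    apply Finset.sum_congr rfl
    intro j _
    rw [map_smul, map_smul]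
  have key := core_rand (measurableSet_good V ρ) (good_compl_le V hN hρ) (Ψ := Ψ) hκ
    (fun a b => by rw [← map_sub]; exact hΨ _) (s := fun v => S (h v : X)) (T := T)
    (b := Ψ (S (pt f g 0))) (τ := (2 * (N : ℝ) * ρ)⁻¹) (by positivity) hsv hσ0
    (fun v => by rw [hTv]; exact hσ v v.2) hk hA' (μ := μ) (err := err) herrm
    (fun ω v hv => by rw [hAA' ω v hv]) (e := e)
    (fun v => by rw [he]; exact le_iSup (fun f : F => ∫⁻ ω, ENNReal.ofReal ‖S f - A ω f‖ ∂μ) (h v))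
  refine le_trans (le_of_eq ?_) key
  congr 1
  field_simp
  ring

theorem ran_lower' {d : ℕ} (hd : Enc 𝕜 d) (S : X →L[𝕜] Y) {F : Set X} (hF : Convex ℝ F)
    {N : ℕ} (hN : 0 < N) {f g : Fin N → X} (hf : ∀ j, f j ∈ F) (hg : ∀ j, g j ∈ F)
    (Ψ : Y →ₗ[ℝ] W) {κ : ℝ} (hκ : 0 < κ) (hΨ : ∀ y, ‖Ψ y‖ ≤ κ * ‖y‖)
    (V : Submodule ℝ (EuclideanSpace ℝ (Fin N))) {σ : ℝ} (hσ0 : 0 ≤ σ)
    (hσ : ∀ v ∈ V, σ * ‖v‖ ≤ ‖∑ j, v j • Ψ (S (f j - g j))‖)
    {k : ℕ} (hk : k * d < finrank ℝ V) {ρ : ℝ} (hρ : ρ = Real.sqrt (2 * Real.log (20 * N))) :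
    ENNReal.ofReal (Real.sqrt ((finrank ℝ V - k * d : ℕ) : ℝ) * σ / (80 * N * ρ * κ))
      ≤ IBC.ranErr 𝕜 S F k :=
  le_sInf fun _ he => ran_lower hd S hF hN hf hg Ψ hκ hΨ V hσ0 hσ hk hρ he

end Main

end Pool.Agent.Helper579.RanLower
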