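import Mathlib

set_option autoImplicit false
set_option linter.unusedSectionVars false

namespace Pool.Agent.Helper579.Sing

open Module
open scoped RealInnerProductSpace

variable {N : ℕ}

lemma det_adjoint (T : EuclideanSpace ℝ (Fin N) →ₗ[ℝ] EuclideanSpace ℝ (Fin N)) :
    LinearMap.det (LinearMap.adjoint T) = LinearMap.det T := by
  classical
  set b := EuclideanSpace.basisFun (Fin N) ℝ
  have h1 := LinearMap.det_toMatrix b.toBasis (LinearMap.adjoint T)
  have h2 := LinearMap.det_toMatrix b.toBasis T
  rw [← h1, ← h2, LinearMap.toMatrix_adjoint, Matrix.det_conjTranspose]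
  simp

/-- a subspace of dimension `m` on which `T` is bounded below -/
theorem exists_subspace (T : EuclideanSpace ℝ (Fin N) →ₗ[ℝ] EuclideanSpace ℝ (Fin N))
    {B c : ℝ} (hB0 : 0 ≤ B) (hB : ∀ v, ‖T v‖ ≤ B * ‖v‖)
    (hdet : c ^ N ≤ |LinearMap.det T|) {m : ℕ} (hm1 : 1 ≤ m) (hmN : m ≤ N) :
    ∃ V : Submodule ℝ (EuclideanSpace ℝ (Fin N)), finrank ℝ V = m ∧ ∃ σ : ℝ, 0 ≤ σ ∧
      (∀ v ∈ V, σ * ‖v‖ ≤ ‖T v‖) ∧ c ^ N ≤ B ^ (m - 1) * σ ^ (N - m + 1) := by
  classical
  set H := LinearMap.adjoint T ∘ₗ T with hH
  have hsym : H.IsSymmetric := LinearMap.isSymmetric_adjoint_comp_self T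
  have hfr : finrank ℝ (EuclideanSpace ℝ (Fin N)) = N := finrank_euclideanSpace_fin
  set lam := hsym.eigenvalues hfr with hlam
  set b := hsym.eigenvectorBasis hfr with hb
  have hanti : Antitone lam := hsym.eigenvalues_antitone hfr
  have hTsq : ∀ v, ‖T v‖ ^ 2 = ∑ i, lam i * (b.repr v i) ^ 2 := by
    intro v
    have h1 : ‖T v‖ ^ 2 = ⟪v, H v⟫ := by
      rw [hH, LinearMap.comp_apply, LinearMap.adjoint_inner_right, real_inner_self_eq_norm_sq]
    have h2 : ⟪v, H v⟫ = ⟪b.repr v, b.repr (H v)⟫ := (b.repr.inner_map_map v (H v)).symm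
    rw [h1, h2, PiLp.inner_apply]
    apply Finset.sum_congr rfl
    intro i _
    rw [hsym.eigenvectorBasis_apply_self_apply hfr v i]
    simp only [RCLike.inner_apply, conj_trivial, RCLike.ofReal_real_eq_id, id_eq]
    ring
  have hnsq : ∀ v, ‖v‖ ^ 2 = ∑ i, (b.repr v i) ^ 2 := by
    intro v
    rw [← b.repr.norm_map v, EuclideanSpace.norm_eq, Real.sq_sqrt (Finset.sum_nonneg fun i _ => by positivity)]
    apply Finset.sum_congr rfl
    intro i _
    rw [Real.norm_eq_abs, sq_abs]
  have hlam0 : ∀ i, 0 ≤ lam i := by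
    intro i
    have h1 := hTsq (b i)
    rw [Finset.sum_eq_single i] at h1
    · have h2 : b.repr (b i) i = 1 := by simp
      rw [h2] at h1
      have : 0 ≤ ‖T (b i)‖ ^ 2 := by positivity
      linarith
    · intro j _ hj
      have : b.repr (b i) j = 0 := by simp [hj]
      rw [this]; ring
    · simp
  have hlamB : ∀ i, lam i ≤ B ^ 2 := by
    intro i
    have h1 := hTsq (b i)
    rw [Finset.sum_eq_single i] at h1
    · have h2 : b.repr (b i) i = 1 := by simp
      rw [h2] at h1
      have h3 := hB (b i)
      rw [b.norm_eq_one, mul_one] at h3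
      have h4 : ‖T (b i)‖ ^ 2 ≤ B ^ 2 := by gcongr
      linarith
    · intro j _ hj
      have : b.repr (b i) j = 0 := by simp [hj]
      rw [this]; ring
    · simp
  have hdetH : (LinearMap.det T) ^ 2 = ∏ i, lam i := by
    have h1 := hsym.det_eq_prod_eigenvalues hfr
    have h2 : LinearMap.det H = LinearMap.det T ^ 2 := by
      rw [hH, LinearMap.det_comp, det_adjoint, sq]
    rw [← h2, h1]
    rfl
  -- the subspace
  let em : Fin m → Fin N := fun i => ⟨i.1, lt_of_lt_of_le i.2 hmN⟩
  have hem : Function.Injective em := by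
    intro i j hij
    have := congrArg Fin.val hij
    exact Fin.ext this
  set V := Submodule.span ℝ (Set.range (fun i : Fin m => b (em i))) with hV
  have hVrank : finrank ℝ V = m := by
    have hli : LinearIndependent ℝ (fun i : Fin m => b (em i)) :=
      b.orthonormal.linearIndependent.comp em hem
    rw [hV, finrank_span_eq_card hli, Fintype.card_fin]
  set last : Fin N := ⟨m - 1, by omega⟩ with hlast
  have hVrepr : ∀ v ∈ V, ∀ i : Fin N, last < i → b.repr v i = 0 := by
    intro v hv
    induction hv using Submodule.span_induction with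
    | mem x hx =>
      obtain ⟨j, rfl⟩ := hx
      intro i hi
      have hne : i ≠ em j := by
        intro h
        rw [h, hlast, Fin.lt_def] at hi
        simp only [em] at hi
        have := j.2
        omega
      simp [hne]
    | zero => intro i _; simp
    | add x y _ _ hx hy => intro i hi; rw [map_add, PiLp.add_apply, hx i hi, hy i hi, add_zero]
    | smul a x _ hx => intro i hi; rw [map_smul, PiLp.smul_apply, hx i hi, smul_zero]
  refine ⟨V, hVrank, Real.sqrt (lam last), Real.sqrt_nonneg _, ?_, ?_⟩
  · intro v hv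
    apply le_of_sq_le_sq _ (norm_nonneg _)
    rw [mul_pow, Real.sq_sqrt (hlam0 _), hTsq, hnsq, Finset.mul_sum]
    apply Finset.sum_le_sum
    intro i _
    rcases lt_or_ge last i with h | h
    · rw [hVrepr v hv i h]; simp
    · exact mul_le_mul_of_nonneg_right (hanti h) (by positivity)
  · -- determinant bound
    have h1 : ∏ i, lam i ≤ (B ^ 2) ^ (m - 1) * (lam last) ^ (N - m + 1) := by
      have hsplit : ∏ i, lam i = (∏ i ∈ Finset.univ.filter (fun i : Fin N => i < last), lam i) *
          ∏ i ∈ Finset.univ.filter (fun i : Fin N => ¬ i < last), lam i :=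
        (Finset.prod_filter_mul_prod_filter_not _ _ _).symm
      have hc1 : (Finset.univ.filter (fun i : Fin N => i < last)).card = m - 1 := by
        have : Finset.univ.filter (fun i : Fin N => i < last) = Finset.Iio last := by
          ext i; simp
        rw [this, Fin.card_Iio]
      have hc2 : (Finset.univ.filter (fun i : Fin N => ¬ i < last)).card = N - m + 1 := by
        have : Finset.univ.filter (fun i : Fin N => ¬ i < last) = Finset.Ici last := by
          ext i; simp
        rw [this, Fin.card_Ici]
        simp only [hlast]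
        omega
      rw [hsplit]
      apply mul_le_mul
      · calc ∏ i ∈ Finset.univ.filter (fun i : Fin N => i < last), lam i
            ≤ ∏ _i ∈ Finset.univ.filter (fun i : Fin N => i < last), B ^ 2 :=
              Finset.prod_le_prod (fun i _ => hlam0 i) (fun i _ => hlamB i)
          _ = (B ^ 2) ^ (m - 1) := by rw [Finset.prod_const, hc1]
      · calc ∏ i ∈ Finset.univ.filter (fun i : Fin N => ¬ i < last), lam i
            ≤ ∏ _i ∈ Finset.univ.filter (fun i : Fin N => ¬ i < last), lam last :=
              Finset.prod_le_prod (fun i _ => hlam0 i) (fun i hi => by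
                rw [Finset.mem_filter, not_lt] at hi
                exact hanti hi.2)
          _ = (lam last) ^ (N - m + 1) := by rw [Finset.prod_const, hc2]
      · exact Finset.prod_nonneg fun i _ => hlam0 i
      · positivity
    have h2 : |LinearMap.det T| ^ 2 ≤ (B ^ (m - 1) * Real.sqrt (lam last) ^ (N - m + 1)) ^ 2 := by
      rw [sq_abs, hdetH]
      refine h1.trans (le_of_eq ?_)
      rw [mul_pow, ← pow_mul, ← pow_mul, ← pow_mul]
      have : Real.sqrt (lam last) ^ ((N - m + 1) * 2) = lam last ^ (N - m + 1) := by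
        rw [mul_comm, pow_mul, Real.sq_sqrt (hlam0 _)]
      rw [this]
      congr 2
      ring
    exact hdet.trans (le_of_sq_le_sq h2 (by positivity))

end Pool.Agent.Helper579.Sing
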