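import Mathlib
import Pool.Agent.Helper579.RanLower
import Pool.Agent.Helper579.Sing

set_option autoImplicit false
set_option linter.unusedSectionVars false

namespace Pool.Agent.Helper579.Greedy

open MeasureTheory Set Metric Module
open Pool.Agent.Helper579.RanLower Pool.Agent.Helper579.IBC
open scoped ENNReal

variable {𝕜 : Type} [RCLike 𝕜] {X Y : Type} [NormedAddCommGroup X] [NormedSpace 𝕜 X]
  [NormedSpace ℝ X] [IsScalarTower ℝ 𝕜 X] [NormedAddCommGroup Y] [NormedSpace 𝕜 Y]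
  [NormedSpace ℝ Y] [IsScalarTower ℝ 𝕜 Y]

/-- fooling pairs -/
lemma exists_pair (S : X →L[𝕜] Y) {F : Set X} {n : ℕ} {c : ℝ}
    (h : ENNReal.ofReal c < detNonErr 𝕜 S F n) (L : Fin n → X →L[𝕜] 𝕜) :
    ∃ f ∈ F, ∃ g ∈ F, (∀ i, L i f = L i g) ∧ c < ‖S f - S g‖ := by
  classical
  by_contra hcon
  push Not at hcon
  refine absurd h (not_lt.mpr ?_)
  refine (iInf₂_le L (fun w => if hw : ∃ f ∈ F, (fun i => L i f) = w then S hw.choose else 0)).trans ?_
  apply iSup_le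
  intro f
  apply ENNReal.ofReal_le_ofReal
  have hw : ∃ f' ∈ F, (fun i => L i f') = fun i => L i (f : X) := ⟨f, f.2, rfl⟩
  beta_reduce
  rw [dif_pos hw]
  apply hcon f f.2 _ hw.choose_spec.1
  intro i
  exact (congrFun hw.choose_spec.2 i).symm

/-- greedy system -/
theorem greedy (S : X →L[𝕜] Y) {F : Set X} (hF : Convex ℝ F) {n : ℕ} {c : ℝ} (hc : 0 ≤ c)
    (h : ENNReal.ofReal c < detNonErr 𝕜 S F n) (nf : Y → (Y →L[𝕜] 𝕜)) :
    ∀ m ≤ n + 1, ∃ f g : ℕ → X, (∀ i < m, f i ∈ F ∧ g i ∈ F ∧ ‖S (f i) - S (g i)‖ = c) ∧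
      ∀ i j, i < j → j < m → nf (S (f i) - S (g i)) (S (f j) - S (g j)) = 0 := by
  intro m
  induction m with
  | zero => intro _; exact ⟨0, 0, fun i hi => absurd hi (Nat.not_lt_zero _), fun i j _ hj => absurd hj (Nat.not_lt_zero _)⟩
  | succ m ih =>
    intro hm
    obtain ⟨f, g, h1, h2⟩ := ih (by omega)
    obtain ⟨f', hf', g', hg', hL, hlt⟩ := exists_pair S h
      (fun i : Fin n => (nf (S (f i) - S (g i))).comp S)
    set D := ‖S f' - S g'‖ with hD
    have hDpos : 0 < D := lt_of_le_of_lt hc hlt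
    set θ : ℝ := c / D with hθ
    have hθ0 : 0 ≤ θ := by positivity
    have hθ1 : θ ≤ 1 := by rw [hθ, div_le_one hDpos]; exact hlt.le
    have hf'' : g' + θ • (f' - g') ∈ F := by
      have := hF hg' hf' (sub_nonneg.mpr hθ1) hθ0 (by ring)
      convert this using 1
      module
    have hS : S (g' + θ • (f' - g')) - S g' = θ • (S f' - S g') := by
      have h3 : ∀ x : X, S x = (S.toLinearMap.restrictScalars ℝ) x := fun x => rfl
      simp only [h3]
      rw [map_add, map_smul, map_sub]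
      abel
    refine ⟨Function.update f m (g' + θ • (f' - g')), Function.update g m g', ?_, ?_⟩
    · intro i hi
      rcases eq_or_ne i m with rfl | hne
      · rw [Function.update_self, Function.update_self]
        refine ⟨hf'', hg', ?_⟩
        rw [hS, norm_smul, Real.norm_eq_abs, abs_of_nonneg hθ0, ← hD, hθ]
        field_simp
      · rw [Function.update_of_ne hne, Function.update_of_ne hne]
        exact h1 i (by omega)
    · intro i j hij hj
      have hi : i ≠ m := by omega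
      rw [Function.update_of_ne hi, Function.update_of_ne hi]
      rcases eq_or_ne j m with rfl | hne
      · rw [Function.update_self, Function.update_self, hS]
        have hLi := hL ⟨i, by omega⟩
        simp only [ContinuousLinearMap.comp_apply] at hLi
        have h4 : nf (S (f i) - S (g i)) (S f' - S g') = 0 := by
          rw [map_sub, hLi, sub_self]
        have h5 : ∀ y : Y, nf (S (f i) - S (g i)) y
          = ((nf (S (f i) - S (g i))).toLinearMap.restrictScalars ℝ) y := fun y => rfl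
        rw [h5, map_smul, ← h5, h4, smul_zero]
      · rw [Function.update_of_ne hne, Function.update_of_ne hne]
        exact h2 i j hij (by omega)

lemma le_of_forall_ofReal {a r : ℝ≥0∞} {γ : ℝ} (hγ : 0 < γ)
    (h : ∀ c : ℝ, 0 ≤ c → ENNReal.ofReal c < a → ENNReal.ofReal (c * γ) ≤ r) :
    a ≤ ENNReal.ofReal γ⁻¹ * r := by
  apply ENNReal.le_of_forall_nnreal_lt
  intro x hx
  have h1 := h x x.coe_nonneg (by rw [ENNReal.ofReal_coe_nnreal]; exact hx)
  rw [ENNReal.ofReal_mul x.coe_nonneg, ENNReal.ofReal_coe_nnreal] at h1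
  calc (x : ℝ≥0∞) = ENNReal.ofReal γ⁻¹ * (x * ENNReal.ofReal γ) := by
        rw [mul_comm (x : ℝ≥0∞), ← mul_assoc, ← ENNReal.ofReal_mul (by positivity),
          inv_mul_cancel₀ hγ.ne', ENNReal.ofReal_one, one_mul]
    _ ≤ _ := by gcongr

section Banach

/-- the real coordinates of `N` functionals -/
noncomputable def coord {N : ℕ} (y : Fin N → (Y →L[𝕜] 𝕜)) : Y →ₗ[ℝ] EuclideanSpace ℝ (Fin N) :=
  (WithLp.linearEquiv 2 ℝ (Fin N → ℝ)).symm.toLinearMap ∘ₗ
    LinearMap.pi (fun i => RCLike.reLm ∘ₗ (y i).toLinearMap.restrictScalars ℝ)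

lemma coord_apply {N : ℕ} (y : Fin N → (Y →L[𝕜] 𝕜)) (x : Y) (i : Fin N) :
    coord y x i = RCLike.re (y i x) := rfl

lemma coord_norm_le {N : ℕ} (y : Fin N → (Y →L[𝕜] 𝕜)) (hy : ∀ i, ‖y i‖ ≤ 1) (x : Y) :
    ‖coord y x‖ ≤ Real.sqrt N * ‖x‖ := by
  rw [EuclideanSpace.norm_eq]
  have h1 : ∑ i, ‖coord y x i‖ ^ 2 ≤ N * ‖x‖ ^ 2 := by
    have h2 : ∀ i ∈ (Finset.univ : Finset (Fin N)), ‖coord y x i‖ ^ 2 ≤ ‖x‖ ^ 2 := by
      intro i _
      apply pow_le_pow_left₀ (norm_nonneg _)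
      rw [coord_apply, Real.norm_eq_abs]
      refine (RCLike.abs_re_le_norm _).trans ?_
      refine ((y i).le_opNorm x).trans ?_
      calc ‖y i‖ * ‖x‖ ≤ 1 * ‖x‖ := by gcongr; exact hy i
        _ = ‖x‖ := one_mul _
    calc ∑ i, ‖coord y x i‖ ^ 2 ≤ ∑ _i : Fin N, ‖x‖ ^ 2 := Finset.sum_le_sum h2
      _ = N * ‖x‖ ^ 2 := by simp
  calc Real.sqrt (∑ i, ‖coord y x i‖ ^ 2) ≤ Real.sqrt (N * ‖x‖ ^ 2) := Real.sqrt_le_sqrt h1
    _ = Real.sqrt N * ‖x‖ := by
      rw [Real.sqrt_mul (by positivity), Real.sqrt_sq (norm_nonneg _)]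

lemma det_eq {N : ℕ} (T : EuclideanSpace ℝ (Fin N) →ₗ[ℝ] EuclideanSpace ℝ (Fin N))
    (M : Matrix (Fin N) (Fin N) ℝ) (h : ∀ j i, T (EuclideanSpace.single j 1) i = M i j) :
    LinearMap.det T = M.det := by
  rw [← LinearMap.det_toMatrix (EuclideanSpace.basisFun (Fin N) ℝ).toBasis T]
  congr 1
  ext i j
  rw [LinearMap.toMatrix_apply]
  simp [h]

/-- Lower bound for randomized algorithms from a lower bound for deterministic ones. -/
theorem banach_ineq {d : ℕ} (hd : Enc 𝕜 d) (S : X →L[𝕜] Y) {F : Set X} (hF : Convex ℝ F)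
    {n : ℕ} {c : ℝ} (hc : 0 < c) (h : ENNReal.ofReal c < detNonErr 𝕜 S F n)
    {p : ℕ} (hp : 2 ≤ p) {a : ℕ} (ha : a * p ≤ n + 1) {k : ℕ} (hk : k * d < a + 1)
    {ρ : ℝ} (hρ : ρ = Real.sqrt (2 * Real.log (20 * ((n + 1 : ℕ) : ℝ)))) :
    ENNReal.ofReal (Real.sqrt ((a + 1 - k * d : ℕ) : ℝ) *
      (c * (((n + 1 : ℕ) : ℝ) ^ (1 / ((p : ℝ) - 1)))⁻¹) /
        (80 * ((n + 1 : ℕ) : ℝ) * ρ * Real.sqrt ((n + 1 : ℕ) : ℝ))) ≤ ranErr 𝕜 S F k := by
  classical
  have hex : ∀ x : Y, ∃ g : Y →L[𝕜] 𝕜, ‖g‖ ≤ 1 ∧ g x = ‖x‖ := fun x => exists_dual_vector'' 𝕜 x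
  choose nf hnf1 hnf2 using hex
  obtain ⟨f, g, h1, h2⟩ := greedy S hF hc.le h nf (n + 1) le_rfl
  set N := n + 1 with hN
  have hNr : (1 : ℝ) ≤ N := by rw [hN]; push_cast; linarith [(Nat.cast_nonneg n : (0 : ℝ) ≤ n)]
  let y : Fin N → (Y →L[𝕜] 𝕜) := fun i => nf (S (f i) - S (g i))
  let f' : Fin N → X := fun i => f i
  let g' : Fin N → X := fun i => g i
  have hκ : 0 < Real.sqrt N := by positivity
  let T : EuclideanSpace ℝ (Fin N) →ₗ[ℝ] EuclideanSpace ℝ (Fin N) := ∑ j : Fin N,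
    ((EuclideanSpace.proj (𝕜 := ℝ) j).toLinearMap).smulRight (coord y (S (f' j - g' j)))
  have hTv : ∀ v, T v = ∑ j, v j • coord y (S (f' j - g' j)) := by
    intro v; simp [T]
  let M : Matrix (Fin N) (Fin N) ℝ := fun i j => RCLike.re (y i (S (f' j - g' j)))
  have hM : ∀ i j, M i j = RCLike.re (y i (S (f' j - g' j))) := fun i j => rfl
  have hdetT : LinearMap.det T = M.det := by
    apply det_eq
    intro j i
    rw [hTv]
    rw [Finset.sum_eq_single j]
    · simp [coord_apply, hM]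
    · intro j' _ hj'
      simp [hj']
    · intro hj; exact absurd (Finset.mem_univ j) hj
  have hdiag : ∀ i, M i i = c := by
    intro i
    rw [hM]
    show RCLike.re (nf (S (f i) - S (g i)) (S (f i - g i))) = c
    rw [map_sub, hnf2, (h1 i i.2).2.2]
    simp
  have hlow : M.BlockTriangular OrderDual.toDual := by
    intro i j hij
    have hij' : i < j := hij
    rw [hM]
    show RCLike.re (nf (S (f i) - S (g i)) (S (f j - g j))) = 0
    rw [map_sub S, h2 i j hij' j.2]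
    simp
  have hdet : M.det = c ^ N := by
    rw [Matrix.det_of_isLowerTriangular M hlow]
    simp [hdiag]
  have hle : ∀ i j, |M i j| ≤ c := by
    intro i j
    rw [hM]
    refine (RCLike.abs_re_le_norm _).trans ?_
    refine ((y i).le_opNorm _).trans ?_
    show ‖nf (S (f i) - S (g i))‖ * ‖S (f j - g j)‖ ≤ c
    rw [map_sub, (h1 j j.2).2.2]
    calc ‖nf (S (f i) - S (g i))‖ * c ≤ 1 * c := by gcongr; exact hnf1 _
      _ = c := one_mul _
  have hTnorm : ∀ v, ‖T v‖ ≤ (N * c) * ‖v‖ := by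
    intro v
    have h3 : ∀ i, |T v i| ≤ c * ∑ j, |v j| := by
      intro i
      have h4 : T v i = ∑ j, v j * M i j := by
        rw [hTv]
        simp [coord_apply, hM]
      rw [h4, Finset.mul_sum]
      refine (Finset.abs_sum_le_sum_abs _ _).trans (Finset.sum_le_sum fun j _ => ?_)
      rw [abs_mul, mul_comm]
      exact mul_le_mul_of_nonneg_right (hle i j) (abs_nonneg _)
    have h5 : (∑ j, |v j|) ^ 2 ≤ N * ‖v‖ ^ 2 := by
      have h6 := sq_sum_le_card_mul_sum_sq (s := (Finset.univ : Finset (Fin N)))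
        (f := fun j => |v j|)
      rw [Finset.card_univ, Fintype.card_fin] at h6
      refine h6.trans (le_of_eq ?_)
      rw [EuclideanSpace.norm_eq, Real.sq_sqrt (Finset.sum_nonneg fun i _ => by positivity)]
      simp
    have h7 : ‖T v‖ ^ 2 ≤ ((N * c) * ‖v‖) ^ 2 := by
      rw [EuclideanSpace.norm_eq, Real.sq_sqrt (Finset.sum_nonneg fun i _ => by positivity)]
      calc ∑ i, ‖T v i‖ ^ 2 ≤ ∑ _i : Fin N, c ^ 2 * (N * ‖v‖ ^ 2) := by
            apply Finset.sum_le_sum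
            intro i _
            rw [Real.norm_eq_abs]
            calc |T v i| ^ 2 ≤ (c * ∑ j, |v j|) ^ 2 := by
                  apply pow_le_pow_left₀ (abs_nonneg _) (h3 i)
              _ = c ^ 2 * (∑ j, |v j|) ^ 2 := by ring
              _ ≤ _ := by gcongr
        _ = ((N * c) * ‖v‖) ^ 2 := by
            rw [Finset.sum_const, Finset.card_univ, Fintype.card_fin, nsmul_eq_mul]; ring
    exact le_of_sq_le_sq h7 (by positivity)
  have haN : a ≤ N - 1 := by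
    have : a * 2 ≤ a * p := Nat.mul_le_mul_left a hp
    omega
  obtain ⟨V, hV, σ, hσ0, hσ, hσc⟩ := Sing.exists_subspace T (B := N * c) (c := c) (by positivity)
    hTnorm (by rw [hdetT, hdet]; exact le_abs_self _) (m := a + 1) (by omega) (by omega)
  have hσge : c * ((N : ℝ) ^ (1 / ((p : ℝ) - 1)))⁻¹ ≤ σ := by
    have e1 : N - (a + 1) + 1 = N - a := by omega
    rw [Nat.add_sub_cancel, e1] at hσc
    have hpr : (2 : ℝ) ≤ p := by exact_mod_cast hp
    have hq : 0 < N - a := by omega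
    set w : ℝ := (N : ℝ) ^ (1 / ((p : ℝ) - 1)) with hw
    have hw0 : 0 < w := by positivity
    have h3 : (N : ℝ) ^ a ≤ w ^ (N - a) := by
      rw [hw, ← Real.rpow_natCast, ← Real.rpow_natCast, ← Real.rpow_mul (by positivity)]
      apply Real.rpow_le_rpow_of_exponent_le hNr
      rw [Nat.cast_sub (by omega), one_div_mul_eq_div, le_div_iff₀ (by linarith)]
      have h4 : (a : ℝ) * p ≤ N := by exact_mod_cast ha
      linarith
    have h5 : c ^ (N - a) * c ^ a = c ^ N := by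
      rw [← pow_add]; congr 1; omega
    have h6 : c ^ (N - a) ≤ (w * σ) ^ (N - a) := by
      have h7 : c ^ (N - a) * c ^ a ≤ (w * σ) ^ (N - a) * c ^ a := by
        rw [h5]
        calc c ^ N ≤ (N * c) ^ a * σ ^ (N - a) := hσc
          _ = N ^ a * (c ^ a * σ ^ (N - a)) := by rw [mul_pow]; ring
          _ ≤ w ^ (N - a) * (c ^ a * σ ^ (N - a)) := by gcongr
          _ = (w * σ) ^ (N - a) * c ^ a := by rw [mul_pow]; ring
      exact le_of_mul_le_mul_right h7 (by positivity)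
    have h8 : c ≤ w * σ := by
      by_contra hcon
      push Not at hcon
      have := pow_lt_pow_left₀ hcon (by positivity) hq.ne'
      linarith
    rw [← div_eq_mul_inv, div_le_iff₀ hw0]
    linarith
  have hlog : 0 < Real.log (20 * N) := Real.log_pos (by linarith)
  have hρ0 : 0 < ρ := by rw [hρ]; positivity
  have key := ran_lower' hd S hF (N := N) (by omega) (f := f') (g := g')
    (fun j => (h1 j j.2).1) (fun j => (h1 j j.2).2.1) (coord y) hκ
    (coord_norm_le y (fun i => hnf1 _)) V hσ0 (fun v hv => by rw [← hTv]; exact hσ v hv)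
    (k := k) (by rw [hV]; exact hk) hρ
  refine le_trans ?_ key
  rw [hV]
  apply ENNReal.ofReal_le_ofReal
  gcongr

end Banach

section Hilbert

variable {H : Type} [NormedAddCommGroup H] [InnerProductSpace 𝕜 H] [NormedSpace ℝ H]
  [IsScalarTower ℝ 𝕜 H]

theorem hilbert_ineq {d : ℕ} (hd : Enc 𝕜 d) (S : X →L[𝕜] H) {F : Set X} (hF : Convex ℝ F)
    {n : ℕ} {c : ℝ} (hc : 0 < c) (h : ENNReal.ofReal c < detNonErr 𝕜 S F n)
    {k : ℕ} (hk : k * d < n + 1)
    {ρ : ℝ} (hρ : ρ = Real.sqrt (2 * Real.log (20 * ((n + 1 : ℕ) : ℝ)))) :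
    ENNReal.ofReal (Real.sqrt ((n + 1 - k * d : ℕ) : ℝ) * c / (80 * ((n + 1 : ℕ) : ℝ) * ρ))
      ≤ ranErr 𝕜 S F k := by
  classical
  obtain ⟨f, g, h1, h2⟩ := greedy S hF hc.le h (fun y => innerSL 𝕜 y) (n + 1) le_rfl
  set N := n + 1 with hN
  let f' : Fin N → X := fun i => f i
  let g' : Fin N → X := fun i => g i
  have hnf : ∀ y : H, ‖(innerSL 𝕜 y : H →L[𝕜] 𝕜)‖ = ‖y‖ := fun y => innerSL_apply_norm (𝕜 := 𝕜) y
  let e : Fin N → H := fun i => ((c : 𝕜)⁻¹) • (S (f i) - S (g i))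
  have hcne : (c : 𝕜) ≠ 0 := by exact_mod_cast hc.ne'
  have horth : ∀ i j : Fin N, i ≠ j → inner 𝕜 (S (f i) - S (g i)) (S (f j) - S (g j)) = 0 := by
    intro i j hij
    rcases lt_or_gt_of_ne hij with hlt | hgt
    · exact h2 i j hlt j.2
    · rw [← inner_conj_symm, map_eq_zero_iff _ (RingHom.injective _)]
      exact h2 j i hgt i.2
  have he : Orthonormal 𝕜 e := by
    constructor
    · intro i
      show ‖((c : 𝕜)⁻¹) • (S (f i) - S (g i))‖ = 1
      rw [norm_smul, norm_inv, RCLike.norm_ofReal, abs_of_pos hc, (h1 i i.2).2.2]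
      exact inv_mul_cancel₀ hc.ne'
    · intro i j hij
      show inner 𝕜 (((c : 𝕜)⁻¹) • (S (f i) - S (g i))) (((c : 𝕜)⁻¹) • (S (f j) - S (g j))) = 0
      rw [inner_smul_left, inner_smul_right, horth i j hij]
      simp
  let y : Fin N → (H →L[𝕜] 𝕜) := fun i => innerSL 𝕜 (e i)
  have hbessel : ∀ x : H, ‖coord y x‖ ≤ 1 * ‖x‖ := by
    intro x
    rw [one_mul, EuclideanSpace.norm_eq]
    have h3 : ∑ i, ‖coord y x i‖ ^ 2 ≤ ‖x‖ ^ 2 := by
      refine le_trans ?_ (he.sum_inner_products_le x (s := Finset.univ))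
      apply Finset.sum_le_sum
      intro i _
      apply pow_le_pow_left₀ (norm_nonneg _)
      rw [coord_apply, Real.norm_eq_abs]
      exact RCLike.abs_re_le_norm _
    calc Real.sqrt (∑ i, ‖coord y x i‖ ^ 2) ≤ Real.sqrt (‖x‖ ^ 2) := Real.sqrt_le_sqrt h3
      _ = ‖x‖ := Real.sqrt_sq (norm_nonneg _)
  have hval : ∀ i j : Fin N, coord y (S (f' j - g' j)) i = if i = j then c else 0 := by
    intro i j
    rw [coord_apply]
    show RCLike.re (inner 𝕜 (((c : 𝕜)⁻¹) • (S (f i) - S (g i))) (S (f j - g j))) = _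
    rw [map_sub S, inner_smul_left]
    by_cases hij : i = j
    · subst hij
      rw [if_pos rfl, inner_self_eq_norm_sq_to_K, (h1 i i.2).2.2]
      have : (starRingEnd 𝕜) ((c : 𝕜)⁻¹) * (c : 𝕜) ^ 2 = c := by
        rw [map_inv₀, RCLike.conj_ofReal]
        field_simp
      rw [this, RCLike.ofReal_re]
    · rw [if_neg hij, horth i j hij]
      simp
  have hsum : ∀ v : EuclideanSpace ℝ (Fin N), ∑ j, v j • coord y (S (f' j - g' j)) = c • v := by
    intro v
    ext i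
    simp only [PiLp.smul_apply, smul_eq_mul, WithLp.ofLp_sum, WithLp.ofLp_smul, Finset.sum_apply,
      Pi.smul_apply, hval]
    simp [mul_comm]
  have hfr : finrank ℝ (⊤ : Submodule ℝ (EuclideanSpace ℝ (Fin N))) = N := by
    rw [finrank_top, finrank_euclideanSpace_fin]
  have key := ran_lower' hd S hF (N := N) (by omega) (f := f') (g := g')
    (fun j => (h1 j j.2).1) (fun j => (h1 j j.2).2.1) (coord y) (κ := 1) one_pos
    hbessel ⊤ (σ := c) hc.le
    (fun v _ => by rw [hsum, norm_smul, Real.norm_eq_abs, abs_of_pos hc])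
    (k := k) (by rw [hfr]; exact hk) hρ
  rw [hfr, mul_one] at key
  exact key

end Hilbert

section Finite

/-- scaled fooling pairs -/
lemma exists_pair' (S : X →L[𝕜] Y) {F : Set X} (hF : Convex ℝ F) {n : ℕ} {c : ℝ} (hc : 0 ≤ c)
    (h : ENNReal.ofReal c < detNonErr 𝕜 S F n) (L : Fin n → Y →L[𝕜] 𝕜) :
    ∃ f ∈ F, ∃ g ∈ F, (∀ i, L i (S (f - g)) = 0) ∧ ‖S (f - g)‖ = c := by
  obtain ⟨f', hf', g', hg', hL, hlt⟩ := exists_pair S h (fun i => (L i).comp S)
  set D := ‖S f' - S g'‖ with hD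
  have hDpos : 0 < D := lt_of_le_of_lt hc hlt
  set θ : ℝ := c / D with hθ
  have hθ0 : 0 ≤ θ := by positivity
  have hθ1 : θ ≤ 1 := by rw [hθ, div_le_one hDpos]; exact hlt.le
  have hf'' : g' + θ • (f' - g') ∈ F := by
    have := hF hg' hf' (sub_nonneg.mpr hθ1) hθ0 (by ring)
    convert this using 1
    module
  have hS : S (g' + θ • (f' - g') - g') = θ • (S f' - S g') := by
    have h3 : ∀ x : X, S x = (S.toLinearMap.restrictScalars ℝ) x := fun x => rfl
    simp only [h3]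
    rw [add_sub_cancel_left, map_smul, map_sub]
  refine ⟨g' + θ • (f' - g'), hf'', g', hg', ?_, ?_⟩
  · intro i
    have hLi := hL i
    simp only [ContinuousLinearMap.comp_apply] at hLi
    have h4 : L i (S f' - S g') = 0 := by
      rw [map_sub, hLi, sub_self]
    have h5 : ∀ y : Y, L i y = ((L i).toLinearMap.restrictScalars ℝ) y := fun y => rfl
    rw [hS, h5, map_smul, ← h5, h4, smul_zero]
  · rw [hS, norm_smul, Real.norm_eq_abs, abs_of_nonneg hθ0, ← hD, hθ]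
    field_simp

end Finite

section FiniteComplex

variable {X₁ Y₁ : Type} [NormedAddCommGroup X₁] [NormedSpace ℂ X₁]
  [NormedSpace ℝ X₁] [IsScalarTower ℝ ℂ X₁] [NormedAddCommGroup Y₁] [NormedSpace ℂ Y₁]
  [NormedSpace ℝ Y₁] [IsScalarTower ℝ ℂ Y₁]

lemma three_bound {v₁ v₂ v₃ c τ ε : ℝ} {s w a b : ℂ} (hc : 0 < c) (hw : ‖w‖ ≤ c)
    (ha : ‖a‖ ≤ c) (hb : ‖b‖ ≤ c) (hε : ε = 1 ∨ ε = -1) (hεw : ε * w.im ≤ 0)
    (h1 : ‖(v₁ : ℂ) * c + v₃ * s‖ ≤ τ)
    (h2 : ‖(v₁ : ℂ) * w + v₂ * c + v₃ * (ε * Complex.I * s)‖ ≤ τ)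
    (h3 : ‖(v₁ : ℂ) * a + v₂ * b + v₃ * c‖ ≤ τ) :
    |v₁| + |v₂| + |v₃| ≤ 13 * τ / c := by
  have r1 : |v₁ * c + v₃ * s.re| ≤ τ := by
    refine le_trans ?_ ((Complex.abs_re_le_norm _).trans h1)
    simp
  have i1 : |v₃ * s.im| ≤ τ := by
    refine le_trans ?_ ((Complex.abs_im_le_norm _).trans h1)
    simp
  have r2 : |v₁ * w.re + v₂ * c - v₃ * (ε * s.im)| ≤ τ := by
    refine le_trans (le_of_eq ?_) ((Complex.abs_re_le_norm _).trans h2)
    congr 1
    simp [Complex.mul_re, Complex.mul_im]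
    ring
  have i2 : |v₁ * w.im + v₃ * (ε * s.re)| ≤ τ := by
    refine le_trans (le_of_eq ?_) ((Complex.abs_im_le_norm _).trans h2)
    congr 1
    simp [Complex.mul_re, Complex.mul_im]
  have r3 : |v₁ * a.re + v₂ * b.re + v₃ * c| ≤ τ := by
    refine le_trans (le_of_eq ?_) ((Complex.abs_re_le_norm _).trans h3)
    congr 1
    simp [Complex.mul_re]
  have hwr : |w.re| ≤ c := (Complex.abs_re_le_norm _).trans hw
  have har : |a.re| ≤ c := (Complex.abs_re_le_norm _).trans ha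
  have hbr : |b.re| ≤ c := (Complex.abs_re_le_norm _).trans hb
  have hε1 : |ε| = 1 := by rcases hε with h | h <;> simp [h]
  have hε2 : ε * ε = 1 := by rcases hε with h | h <;> rw [h] <;> norm_num
  -- first coordinate
  have b1 : |v₁| * c ≤ 2 * τ := by
    have e1 : v₁ * (c - ε * w.im) = (v₁ * c + v₃ * s.re) - ε * (v₁ * w.im + v₃ * (ε * s.re)) := by
      linear_combination (v₃ * s.re) * hε2
    have e2 : |v₁ * (c - ε * w.im)| ≤ 2 * τ := by
      rw [e1]
      refine (abs_sub _ _).trans ?_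
      rw [abs_mul, hε1, one_mul]
      linarith
    rw [abs_mul, abs_of_pos (by linarith : 0 < c - ε * w.im)] at e2
    have : |v₁| * c ≤ |v₁| * (c - ε * w.im) := by
      apply mul_le_mul_of_nonneg_left _ (abs_nonneg _)
      linarith
    linarith
  have b2 : |v₂| * c ≤ 4 * τ := by
    have e1 : v₂ * c = (v₁ * w.re + v₂ * c - v₃ * (ε * s.im)) - v₁ * w.re + ε * (v₃ * s.im) := by
      ring
    have e2 : |v₂ * c| ≤ τ + |v₁| * c + τ := by
      rw [e1]
      refine (abs_add_le _ _).trans (add_le_add ((abs_sub _ _).trans (add_le_add r2 ?_)) ?_)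
      · rw [abs_mul]; gcongr
      · rw [abs_mul, hε1, one_mul]; exact i1
    rw [abs_mul, abs_of_pos hc] at e2
    linarith
  have b3 : |v₃| * c ≤ 7 * τ := by
    have e1 : v₃ * c = (v₁ * a.re + v₂ * b.re + v₃ * c) - v₁ * a.re - v₂ * b.re := by ring
    have e2 : |v₃ * c| ≤ τ + |v₁| * c + |v₂| * c := by
      rw [e1]
      refine (abs_sub _ _).trans (add_le_add ((abs_sub _ _).trans (add_le_add r3 ?_)) ?_)
      · rw [abs_mul]; gcongr
      · rw [abs_mul]; gcongr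
    rw [abs_mul, abs_of_pos hc] at e2
    linarith
  rw [le_div_iff₀ hc]
  nlinarith

theorem complex_ineq (S : X₁ →L[ℂ] Y₁) {F : Set X₁} (hF : Convex ℝ F) {c : ℝ} (hc : 0 < c)
    (h : ENNReal.ofReal c < detNonErr ℂ S F 1) :
    ENNReal.ofReal (c / 13 / (80 * 3 * Real.sqrt (2 * Real.log 60))) ≤ ranErr ℂ S F 1 := by
  classical
  have hex : ∀ x : Y₁, ∃ g : Y₁ →L[ℂ] ℂ, ‖g‖ ≤ 1 ∧ g x = ‖x‖ := fun x => exists_dual_vector'' ℂ x
  obtain ⟨f1, hf1, g1, hg1, -, hn1⟩ := exists_pair' S hF hc.le h (fun _ => 0)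
  obtain ⟨y1, hy1, hy1'⟩ := hex (S (f1 - g1))
  obtain ⟨f2, hf2, g2, hg2, hk2, hn2⟩ := exists_pair' S hF hc.le h (fun _ => y1)
  obtain ⟨y2, hy2, hy2'⟩ := hex (S (f2 - g2))
  obtain ⟨ε, hε, hεw⟩ : ∃ ε : ℝ, (ε = 1 ∨ ε = -1) ∧ ε * (y2 (S (f1 - g1))).im ≤ 0 := by
    rcases le_total (y2 (S (f1 - g1))).im 0 with h0 | h0
    · exact ⟨1, Or.inl rfl, by linarith⟩
    · exact ⟨-1, Or.inr rfl, by linarith⟩
  obtain ⟨f3, hf3, g3, hg3, hk3, hn3⟩ := exists_pair' S hF hc.le h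
    (fun _ => y1 + ((ε : ℂ) * Complex.I) • y2)
  obtain ⟨y3, hy3, hy3'⟩ := hex (S (f3 - g3))
  rw [hn1] at hy1'
  rw [hn2] at hy2'
  rw [hn3] at hy3'
  have hk2' := hk2 0
  have hk3' := hk3 0
  have hb : ∀ (y : Y₁ →L[ℂ] ℂ) (_ : ‖y‖ ≤ 1) (x : Y₁), ‖y x‖ ≤ ‖x‖ := by
    intro y hy x
    refine (y.le_opNorm x).trans ?_
    calc ‖y‖ * ‖x‖ ≤ 1 * ‖x‖ := by gcongr
      _ = ‖x‖ := one_mul _
  let Ψ : Y₁ →ₗ[ℝ] ℂ × ℂ × ℂ := (y1.toLinearMap.restrictScalars ℝ).prod
    ((y2.toLinearMap.restrictScalars ℝ).prod (y3.toLinearMap.restrictScalars ℝ))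
  have hΨv : ∀ y, Ψ y = (y1 y, y2 y, y3 y) := fun y => rfl
  have hΨ : ∀ y, ‖Ψ y‖ ≤ 1 * ‖y‖ := by
    intro y
    rw [hΨv, one_mul, Prod.norm_def, Prod.norm_def]
    exact max_le (hb _ hy1 _) (max_le (hb _ hy2 _) (hb _ hy3 _))
  have hfr : finrank ℝ (⊤ : Submodule ℝ (EuclideanSpace ℝ (Fin 3))) = 3 := by
    rw [finrank_top, finrank_euclideanSpace_fin]
  have hs2 : y2 (S (f3 - g3)) = ε * Complex.I * y1 (S (f3 - g3)) := by
    have h4 : y1 (S (f3 - g3)) + ((ε : ℂ) * Complex.I) * y2 (S (f3 - g3)) = 0 := hk3'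
    have h5 : ((ε : ℂ) * Complex.I) * ((ε : ℂ) * Complex.I) = -1 := by
      rcases hε with h | h <;> rw [h] <;> push_cast <;> ring_nf <;> simp
    linear_combination (-(ε * Complex.I)) * h4 + y2 (S (f3 - g3)) * h5
  have key := ran_lower' (enc_two ℂ) S hF (N := 3) (by norm_num) (f := ![f1, f2, f3])
    (g := ![g1, g2, g3]) (by intro j; fin_cases j <;> simp [hf1, hf2, hf3])
    (by intro j; fin_cases j <;> simp [hg1, hg2, hg3]) Ψ (κ := 1) one_pos hΨ ⊤ (σ := c / 13)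
    (by positivity) ?_ (k := 1) (by rw [hfr]; norm_num) rfl
  · rw [hfr] at key
    norm_num at key ⊢
    exact key
  · intro v _
    rw [Fin.sum_univ_three]
    simp only [Matrix.cons_val_zero, Matrix.cons_val_one, Matrix.cons_val]
    have hsum : v 0 • Ψ (S (f1 - g1)) + v 1 • Ψ (S (f2 - g2)) + v 2 • Ψ (S (f3 - g3))
        = ((v 0 : ℂ) * c + v 2 * y1 (S (f3 - g3)),
            (v 0 : ℂ) * y2 (S (f1 - g1)) + v 1 * c + v 2 * (ε * Complex.I * y1 (S (f3 - g3))),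
            (v 0 : ℂ) * y3 (S (f1 - g1)) + v 1 * y3 (S (f2 - g2)) + v 2 * c) := by
      rw [hΨv, hΨv, hΨv, hk2', hs2, hy1', hy2', hy3']
      simp
    set τ := ‖v 0 • Ψ (S (f1 - g1)) + v 1 • Ψ (S (f2 - g2)) + v 2 • Ψ (S (f3 - g3))‖ with hτ
    have hτ' := hτ
    rw [hsum, Prod.norm_def, Prod.norm_def] at hτ'
    have hb1 : |v 0| + |v 1| + |v 2| ≤ 13 * τ / c := by
      refine three_bound hc (w := y2 (S (f1 - g1))) (a := y3 (S (f1 - g1)))
        (b := y3 (S (f2 - g2))) (s := y1 (S (f3 - g3))) ?_ ?_ ?_ hε hεw ?_ ?_ ?_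
      · exact (hb _ hy2 _).trans hn1.le
      · exact (hb _ hy3 _).trans hn1.le
      · exact (hb _ hy3 _).trans hn2.le
      · rw [hτ']; exact le_max_left _ _
      · rw [hτ']; exact (le_max_left _ _).trans (le_max_right _ _)
      · rw [hτ']; exact (le_max_right _ _).trans (le_max_right _ _)
    have hv : ‖v‖ ≤ |v 0| + |v 1| + |v 2| := by
      rw [EuclideanSpace.norm_eq, Fin.sum_univ_three]
      simp only [Real.norm_eq_abs]
      rw [Real.sqrt_le_left (by positivity)]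
      nlinarith [mul_nonneg (abs_nonneg (v 0)) (abs_nonneg (v 1)),
        mul_nonneg (abs_nonneg (v 0)) (abs_nonneg (v 2)),
        mul_nonneg (abs_nonneg (v 1)) (abs_nonneg (v 2))]
    have h6 : ‖v‖ ≤ 13 * τ / c := hv.trans hb1
    rw [le_div_iff₀ hc] at h6
    linarith

end FiniteComplex

end Pool.Agent.Helper579.Greedy
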