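import Mathlib

/-!
Definitions for the approximation of Sobolev functions from independent, uniformly distributed
sample points.
-/

set_option autoImplicit false

namespace Pool.Agent.Helper579.Iid

open MeasureTheory
open scoped ENNReal

/-- The partial derivative with respect to the `i`-th coordinate. -/
noncomputable def pderiv {d : ℕ} (i : Fin d) (φ : (Fin d → ℝ) → ℝ) : (Fin d → ℝ) → ℝ :=
  fun x => fderiv ℝ φ x (Pi.single i 1)

/-- The (classical) derivative `D^α φ`: for every `i`, the `i`-th partial derivative is taken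
`α i` times. -/
noncomputable def mderiv {d : ℕ} (α : Fin d → ℕ) (φ : (Fin d → ℝ) → ℝ) : (Fin d → ℝ) → ℝ :=
  (List.finRange d).foldr (fun i ψ => (pderiv i)^[α i] ψ) φ

/-- The multi-indices `α` with `|α| ≤ s`. -/
def multi (d s : ℕ) : Finset (Fin d → ℕ) :=
  (Fintype.piFinset fun _ => Finset.range (s + 1)).filter fun α => ∑ i, α i ≤ s

/-- `g` is the weak derivative `D^α f` of `f` on the open set `D`: both functions are locally
integrable on `D` and `∫_D f D^α φ = (-1)^|α| ∫_D g φ` for all test functions `φ`. -/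
def IsWeakDeriv {d : ℕ} (D : Set (Fin d → ℝ)) (α : Fin d → ℕ) (f g : (Fin d → ℝ) → ℝ) : Prop :=
  LocallyIntegrableOn f D ∧ LocallyIntegrableOn g D ∧
  ∀ φ : (Fin d → ℝ) → ℝ, ContDiff ℝ (⊤ : ℕ∞) φ → HasCompactSupport φ → tsupport φ ⊆ D →
    ∫ x in D, f x * mderiv α φ x = (-1) ^ (∑ i, α i) * ∫ x in D, g x * φ x

/-- The norm `(∑_{|α| ≤ s} ‖g α‖_{L_p(D)}^p)^(1/p)` of a family of derivatives (the maximum of
the norms for `p = ∞`). -/
noncomputable def sobNorm {d : ℕ} (D : Set (Fin d → ℝ)) (s : ℕ) (p : ℝ≥0∞)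
    (g : (Fin d → ℕ) → (Fin d → ℝ) → ℝ) : ℝ≥0∞ :=
  if p = ∞ then ⨆ α ∈ multi d s, eLpNorm (g α) ∞ (volume.restrict D)
  else (∑ α ∈ multi d s, eLpNorm (g α) p (volume.restrict D) ^ p.toReal) ^ (1 / p.toReal)

/-- The unit ball of `W_p^s(D)`. A function in `W_p^s(D)` is represented by its continuous
version on `D`; only the values on `D` matter. -/
def sobBall {d : ℕ} (D : Set (Fin d → ℝ)) (s : ℕ) (p : ℝ≥0∞) : Set ((Fin d → ℝ) → ℝ) :=
  {f | ContinuousOn f D ∧ ∃ g : (Fin d → ℕ) → (Fin d → ℝ) → ℝ, g 0 = f ∧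
    (∀ α ∈ multi d s, IsWeakDeriv D α f (g α)) ∧ sobNorm D s p g ≤ 1}

/-- The uniform distribution on `D`. -/
noncomputable def unif {d : ℕ} (D : Set (Fin d → ℝ)) : Measure (Fin d → ℝ) :=
  (volume D)⁻¹ • volume.restrict D

/-- The upper integral. -/
noncomputable def upperInt {Ω : Type} [MeasurableSpace Ω] (μ : Measure Ω) (g : Ω → ℝ≥0∞) : ℝ≥0∞ :=
  ⨅ (h : Ω → ℝ≥0∞) (_ : Measurable h) (_ : ∀ ω, g ω ≤ h ω), ∫⁻ ω, h ω ∂μ

/-- An algorithm based on `n` independent points that are uniformly distributed on `D`: a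
probability space, the random points `X ω 0, ..., X ω (n - 1)` whose joint distribution is the
`n`-fold product of the uniform distribution on `D`, and a random map `φ ω` which assigns to the
vector of function values an element of `L_q(D)`. -/
structure Method {d : ℕ} (D : Set (Fin d → ℝ)) (n : ℕ) (q : ℝ≥0∞) where
  Ω : Type
  mΩ : MeasurableSpace Ω
  μ : Measure Ω
  prob : IsProbabilityMeasure μ
  X : Ω → Fin n → Fin d → ℝ
  measX : Measurable X
  law : μ.map X = Measure.pi fun _ => unif D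
  φ : Ω → (Fin n → ℝ) → (Fin d → ℝ) → ℝ
  memLp : ∀ ω v, MemLp (φ ω v) q (volume.restrict D)

/-- The error `‖f - A(f)‖_{L_q(D)}` for the input `f` and the random element `ω`. -/
noncomputable def Method.err {d : ℕ} {D : Set (Fin d → ℝ)} {n : ℕ} {q : ℝ≥0∞} (A : Method D n q)
    (f : (Fin d → ℝ) → ℝ) (ω : A.Ω) : ℝ≥0∞ :=
  eLpNorm (fun x => f x - A.φ ω (fun i => f (A.X ω i)) x) q (volume.restrict D)

/-- The two error criteria. -/
inductive Crit : Type
  | ran : Crit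
  | unif : Crit

/-- The Monte Carlo error and the uniform error of an algorithm on the unit ball of `W_p^s(D)`. -/
noncomputable def Method.error {d : ℕ} {D : Set (Fin d → ℝ)} {n : ℕ} {q : ℝ≥0∞}
    (A : Method D n q) (s : ℕ) (p : ℝ≥0∞) : Crit → ℝ≥0∞
  | .ran => ⨆ f ∈ sobBall D s p, @upperInt A.Ω A.mΩ A.μ fun ω => A.err f ω
  | .unif => @upperInt A.Ω A.mΩ A.μ fun ω => ⨆ f ∈ sobBall D s p, A.err f ω

/-- The minimal error `e(P_n)`, where `P_n` consists of `n` independent uniformly distributed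
points. -/
noncomputable def minErr {d : ℕ} (D : Set (Fin d → ℝ)) (s : ℕ) (p q : ℝ≥0∞) (c : Crit) (n : ℕ) :
    ℝ≥0∞ :=
  ⨅ A : Method D n q, A.error s p c

/-- The exponent `s/d - (1/p - 1/q)_+`. -/
noncomputable def rate (d s : ℕ) (p q : ℝ≥0∞) : ℝ :=
  (s : ℝ) / d - max ((p⁻¹).toReal - (q⁻¹).toReal) 0

/-- The sequence `e(P_n) n^(s/d - (1/p - 1/q)_+)`. -/
noncomputable def scaled {d : ℕ} (D : Set (Fin d → ℝ)) (s : ℕ) (p q : ℝ≥0∞) (c : Crit) (n : ℕ) :
    ℝ≥0∞ :=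
  minErr D s p q c n * ENNReal.ofReal ((n : ℝ) ^ rate d s p q)

/-- The interior cone condition: every point of `D` is the vertex of a cone with fixed angle `θ`
and fixed height `r` that is contained in `D`. -/
def ConeCondition {d : ℕ} (D : Set (Fin d → ℝ)) : Prop :=
  ∃ θ r : ℝ, 0 < θ ∧ θ < Real.pi / 2 ∧ 0 < r ∧ ∀ x ∈ D, ∃ ξ : Fin d → ℝ, ∑ i, ξ i ^ 2 = 1 ∧
    ∀ y : Fin d → ℝ, ∑ i, y i ^ 2 = 1 → Real.cos θ ≤ ∑ i, y i * ξ i →
      ∀ t ∈ Set.Icc (0 : ℝ) r, x + t • y ∈ D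

/-- The admissible domains: nonempty bounded open sets with an interior cone condition. -/
structure Admissible {d : ℕ} (D : Set (Fin d → ℝ)) : Prop where
  pos : 1 ≤ d
  isOpen : IsOpen D
  nonempty : D.Nonempty
  bounded : Bornology.IsBounded D
  cone : ConeCondition D

/-- The parameters in scope: `s ≥ 1`, `1 ≤ p, q ≤ ∞`, `s > d/p` or (`p = 1` and `s = d`), and
either the Monte Carlo error with `(p, q) ≠ (∞, ∞)` or the uniform error with `q < p`. -/
def InScope (d s : ℕ) (p q : ℝ≥0∞) : Crit → Prop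
  | .ran => 1 ≤ s ∧ 1 ≤ p ∧ 1 ≤ q ∧ (d * (p⁻¹).toReal < s ∨ (p = 1 ∧ s = d)) ∧ ¬ (p = ∞ ∧ q = ∞)
  | .unif => 1 ≤ s ∧ 1 ≤ p ∧ 1 ≤ q ∧ (d * (p⁻¹).toReal < s ∨ (p = 1 ∧ s = d)) ∧ q < p

end Pool.Agent.Helper579.Iid
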