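import Mathlib
import Pool.Agent.Helper579.IidDefs

set_option autoImplicit false

namespace Pool.Agent.Helper579.Iid

open MeasureTheory Set
open scoped ENNReal

/-- a smooth step from `0` to `1` -/
noncomputable def Bf (x : ℝ) : ℝ := Real.smoothTransition (2 * x - 1 / 2)

lemma Bf_contDiff : ContDiff ℝ (⊤ : ℕ∞) Bf :=
  Real.smoothTransition.contDiff.comp ((contDiff_const.mul contDiff_id).sub contDiff_const)

lemma Bf_zero {x : ℝ} (hx : x ≤ 1 / 4) : Bf x = 0 :=
  Real.smoothTransition.zero_of_nonpos (by linarith)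

lemma Bf_one {x : ℝ} (hx : 3 / 4 ≤ x) : Bf x = 1 :=
  Real.smoothTransition.one_of_one_le (by linarith)

lemma Bf_nonneg (x : ℝ) : 0 ≤ Bf x := Real.smoothTransition.nonneg _

lemma Bf_le_one (x : ℝ) : Bf x ≤ 1 := Real.smoothTransition.le_one _

lemma deriv_Bf_zero {x : ℝ} (hx : x < 1 / 4 ∨ 3 / 4 < x) : deriv Bf x = 0 := by
  rcases hx with h | h
  · have : Bf =ᶠ[nhds x] fun _ => 0 := by
      filter_upwards [Iio_mem_nhds h] with y hy using Bf_zero (le_of_lt hy)
    rw [this.deriv_eq]; simp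
  · have : Bf =ᶠ[nhds x] fun _ => 1 := by
      filter_upwards [Ioi_mem_nhds h] with y hy using Bf_one (le_of_lt hy)
    rw [this.deriv_eq]; simp

lemma deriv_Bf_contDiff : ContDiff ℝ (⊤ : ℕ∞) (deriv Bf) := by
  have h := Bf_contDiff
  rw [show ((⊤ : ℕ∞) : WithTop ℕ∞) = ((⊤ : ℕ∞) : WithTop ℕ∞) + 1 by rfl, contDiff_succ_iff_deriv] at h
  exact h.2.2

lemma deriv_Bf_compact : HasCompactSupport (deriv Bf) := by
  apply HasCompactSupport.intro (K := Set.Icc (1 / 4) (3 / 4)) isCompact_Icc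
  intro x hx
  rw [Set.mem_Icc, not_and_or, not_le, not_le] at hx
  exact deriv_Bf_zero hx

lemma exists_KB : ∃ K : ℝ, 1 ≤ K ∧ ∀ x, |deriv Bf x| ≤ K := by
  obtain ⟨C, hC⟩ := deriv_Bf_contDiff.continuous.bounded_above_of_compact_support deriv_Bf_compact
  exact ⟨max C 1, le_max_right _ _, fun x => (hC x).trans (le_max_left _ _)⟩

/-- the bound for the derivative of the step -/
noncomputable def KB : ℝ := Classical.choose exists_KB

lemma one_le_KB : 1 ≤ KB := (Classical.choose_spec exists_KB).1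

lemma abs_deriv_Bf (x : ℝ) : |deriv Bf x| ≤ KB := (Classical.choose_spec exists_KB).2 x

/-- scaled step -/
noncomputable def Bs (c h x : ℝ) : ℝ := Bf ((x - c) / h)

/-- scaled density -/
noncomputable def bs (c h x : ℝ) : ℝ := h⁻¹ * deriv Bf ((x - c) / h)

lemma Bs_contDiff (c h : ℝ) : ContDiff ℝ (⊤ : ℕ∞) (Bs c h) :=
  Bf_contDiff.comp ((contDiff_id.sub contDiff_const).div_const h)

lemma bs_contDiff (c h : ℝ) : ContDiff ℝ (⊤ : ℕ∞) (bs c h) :=
  contDiff_const.mul (deriv_Bf_contDiff.comp ((contDiff_id.sub contDiff_const).div_const h))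

lemma Bs_hasDerivAt (c h x : ℝ) : HasDerivAt (Bs c h) (bs c h x) x := by
  have h1 : HasDerivAt (fun y : ℝ => (y - c) / h) (1 / h) x :=
    ((hasDerivAt_id x).sub_const c).div_const h
  have h2 : HasDerivAt Bf (deriv Bf ((x - c) / h)) ((x - c) / h) :=
    (Bf_contDiff.differentiable (by simp) _).hasDerivAt
  have h3 := h2.comp x h1
  unfold bs
  convert! h3 using 1
  rw [one_div, mul_comm]

lemma Bs_zero {c h x : ℝ} (hh : 0 < h) (hx : x ≤ c + h / 4) : Bs c h x = 0 := by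
  apply Bf_zero
  rw [div_le_iff₀ hh]; linarith

lemma Bs_one {c h x : ℝ} (hh : 0 < h) (hx : c + 3 * h / 4 ≤ x) : Bs c h x = 1 := by
  apply Bf_one
  rw [le_div_iff₀ hh]; linarith

lemma bs_zero {c h x : ℝ} (hh : 0 < h) (hx : x < c + h / 4 ∨ c + 3 * h / 4 < x) :
    bs c h x = 0 := by
  unfold bs
  rw [deriv_Bf_zero, mul_zero]
  rcases hx with h1 | h1
  · left; rw [div_lt_iff₀ hh]; linarith
  · right; rw [lt_div_iff₀ hh]; linarith

lemma abs_bs_le {c h : ℝ} (hh : 0 < h) (x : ℝ) : |bs c h x| ≤ KB / h := by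
  unfold bs
  rw [abs_mul, abs_inv, abs_of_pos hh, div_eq_inv_mul KB h]
  exact mul_le_mul_of_nonneg_left (abs_deriv_Bf _) (inv_nonneg.mpr hh.le)

lemma bs_compact {c h : ℝ} (hh : 0 < h) : HasCompactSupport (bs c h) := by
  apply HasCompactSupport.intro (K := Set.Icc (c + h / 4) (c + 3 * h / 4)) isCompact_Icc
  intro x hx
  rw [Set.mem_Icc, not_and_or, not_le, not_le] at hx
  exact bs_zero hh hx

lemma integral_bs {c h : ℝ} (hh : 0 < h) : ∫ x, bs c h x = 1 := by
  have hsub : Function.support (bs c h) ⊆ Set.Ioc c (c + h) := by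
    intro x hx
    rw [Function.mem_support] at hx
    constructor
    · by_contra hcon
      push Not at hcon
      exact hx (bs_zero hh (Or.inl (by linarith)))
    · by_contra hcon
      push Not at hcon
      exact hx (bs_zero hh (Or.inr (by linarith)))
  have h1 : ∫ x, bs c h x = ∫ x in Set.Ioc c (c + h), bs c h x :=
    (setIntegral_eq_integral_of_forall_compl_eq_zero fun x hx => by
      by_contra hcon
      exact hx (hsub hcon)).symm
  rw [h1, ← intervalIntegral.integral_of_le (by linarith)]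
  rw [intervalIntegral.integral_eq_sub_of_hasDerivAt (f := Bs c h)
    (fun x _ => Bs_hasDerivAt c h x) ((bs_contDiff c h).continuous.intervalIntegrable _ _)]
  rw [Bs_one hh (by linarith), Bs_zero hh (by linarith), sub_zero]

/-- difference of two steps -/
noncomputable def As (c h c' h' x : ℝ) : ℝ := Bs c h x - Bs c' h' x

lemma As_contDiff (c h c' h' : ℝ) : ContDiff ℝ (⊤ : ℕ∞) (As c h c' h') :=
  (Bs_contDiff c h).sub (Bs_contDiff c' h')

lemma As_hasDerivAt (c h c' h' x : ℝ) :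
    HasDerivAt (As c h c' h') (bs c h x - bs c' h' x) x :=
  (Bs_hasDerivAt c h x).sub (Bs_hasDerivAt c' h' x)

lemma abs_As_le (c h c' h' x : ℝ) : |As c h c' h' x| ≤ 1 := by
  unfold As Bs
  rw [abs_le]
  constructor <;>
    linarith [Bf_nonneg ((x - c) / h), Bf_nonneg ((x - c') / h'), Bf_le_one ((x - c) / h),
      Bf_le_one ((x - c') / h')]

lemma As_zero {c h c' h' x : ℝ} (hh : 0 < h) (hh' : 0 < h') (hle : h' ≤ h) (h1 : c ≤ c')
    (h2 : c' + h' ≤ c + h) (hx : x < c + h' / 4 ∨ c + h - h' / 4 < x) :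
    As c h c' h' x = 0 := by
  unfold As
  rcases hx with hx | hx
  · rw [Bs_zero hh (by linarith), Bs_zero hh' (by linarith), sub_zero]
  · rw [Bs_one hh (by linarith), Bs_one hh' (by linarith), sub_self]

/-! ### product functions in the plane -/

/-- product of two functions of one variable -/
def prodFn (u v : ℝ → ℝ) (x : Fin 2 → ℝ) : ℝ := u (x 0) * v (x 1)

lemma prodFn_contDiff {u v : ℝ → ℝ} (hu : ContDiff ℝ (⊤ : ℕ∞) u) (hv : ContDiff ℝ (⊤ : ℕ∞) v) :
    ContDiff ℝ (⊤ : ℕ∞) (prodFn u v) := by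
  unfold prodFn
  exact (hu.comp (contDiff_apply ℝ ℝ 0)).mul (hv.comp (contDiff_apply ℝ ℝ 1))

/-- the open box with lower left corner `c` and side length `h` -/
def Box (c : Fin 2 → ℝ) (h : ℝ) : Set (Fin 2 → ℝ) := {x | ∀ i, c i < x i ∧ x i < c i + h}

lemma Box_eq (c : Fin 2 → ℝ) (h : ℝ) : Box c h = Set.univ.pi fun i => Set.Ioo (c i) (c i + h) := by
  ext x; simp [Box]

lemma isOpen_Box (c : Fin 2 → ℝ) (h : ℝ) : IsOpen (Box c h) := by
  rw [Box_eq]
  exact isOpen_set_pi Set.finite_univ fun i _ => isOpen_Ioo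

lemma measurableSet_Box (c : Fin 2 → ℝ) (h : ℝ) : MeasurableSet (Box c h) :=
  (isOpen_Box c h).measurableSet

lemma volume_Box (c : Fin 2 → ℝ) {h : ℝ} (_hh : 0 ≤ h) :
    volume (Box c h) = ENNReal.ofReal (h ^ 2) := by
  rw [Box_eq, Real.volume_pi_Ioo]
  simp only [add_sub_cancel_left, Finset.prod_const, Finset.card_univ, Fintype.card_fin]
  rw [ENNReal.ofReal_pow (by assumption)]

lemma prodFn_support {u v : ℝ → ℝ} {c : Fin 2 → ℝ} {h a : ℝ} (ha : 0 < a)
    (hu : ∀ x, (x < c 0 + a ∨ c 0 + h - a < x) → u x = 0)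
    (hv : ∀ x, (x < c 1 + a ∨ c 1 + h - a < x) → v x = 0) :
    HasCompactSupport (prodFn u v) ∧ tsupport (prodFn u v) ⊆ Box c h := by
  set K : Set (Fin 2 → ℝ) := Set.Icc (fun i => c i + a) (fun i => c i + h - a) with hK
  have h0 : ∀ x, x ∉ K → prodFn u v x = 0 := by
    intro x hx
    unfold prodFn
    by_cases h0 : x 0 < c 0 + a ∨ c 0 + h - a < x 0
    · rw [hu _ h0, zero_mul]
    · by_cases h1 : x 1 < c 1 + a ∨ c 1 + h - a < x 1
      · rw [hv _ h1, mul_zero]
      · exfalso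
        push Not at h0 h1
        apply hx
        rw [hK, Set.mem_Icc]
        constructor
        · intro i; fin_cases i
          · exact h0.1
          · exact h1.1
        · intro i; fin_cases i
          · exact h0.2
          · exact h1.2
  have hsupp : tsupport (prodFn u v) ⊆ K := by
    apply closure_minimal _ isClosed_Icc
    intro x hx
    by_contra hcon
    exact hx (h0 x hcon)
  refine ⟨HasCompactSupport.intro isCompact_Icc h0, hsupp.trans ?_⟩
  intro x hx i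
  have h1 := hx.1 i
  have h2 := hx.2 i
  simp only at h1 h2
  constructor <;> linarith

lemma pderiv_prodFn_zero {u v : ℝ → ℝ} {u' : ℝ → ℝ} (hu : ∀ x, HasDerivAt u (u' x) x)
    (hv : ContDiff ℝ (⊤ : ℕ∞) v) (x : Fin 2 → ℝ) :
    pderiv 0 (prodFn u v) x = u' (x 0) * v (x 1) := by
  unfold pderiv prodFn
  have e0 : HasFDerivAt (fun x : Fin 2 → ℝ => u (x 0))
      ((u' (x 0)) • (ContinuousLinearMap.proj (R := ℝ) (φ := fun _ : Fin 2 => ℝ) 0)) x :=
    (hu (x 0)).comp_hasFDerivAt x (ContinuousLinearMap.proj (R := ℝ) (φ := fun _ : Fin 2 => ℝ) 0).hasFDerivAt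
  have e1 : HasFDerivAt (fun x : Fin 2 → ℝ => v (x 1))
      ((deriv v (x 1)) • (ContinuousLinearMap.proj (R := ℝ) (φ := fun _ : Fin 2 => ℝ) 1)) x :=
    ((hv.differentiable (by simp) (x 1)).hasDerivAt).comp_hasFDerivAt x
      (ContinuousLinearMap.proj (R := ℝ) (φ := fun _ : Fin 2 => ℝ) 1).hasFDerivAt
  have e2 : HasFDerivAt (fun x : Fin 2 → ℝ => u (x 0) * v (x 1)) _ x := e0.mul e1
  rw [e2.fderiv]
  simp
  ring

lemma pderiv_prodFn_one {u v : ℝ → ℝ} {v' : ℝ → ℝ} (hu : ContDiff ℝ (⊤ : ℕ∞) u)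
    (hv : ∀ x, HasDerivAt v (v' x) x) (x : Fin 2 → ℝ) :
    pderiv 1 (prodFn u v) x = u (x 0) * v' (x 1) := by
  unfold pderiv prodFn
  have e0 : HasFDerivAt (fun x : Fin 2 → ℝ => u (x 0))
      ((deriv u (x 0)) • (ContinuousLinearMap.proj (R := ℝ) (φ := fun _ : Fin 2 => ℝ) 0)) x :=
    ((hu.differentiable (by simp) (x 0)).hasDerivAt).comp_hasFDerivAt x
      (ContinuousLinearMap.proj (R := ℝ) (φ := fun _ : Fin 2 => ℝ) 0).hasFDerivAt
  have e1 : HasFDerivAt (fun x : Fin 2 → ℝ => v (x 1))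
      ((v' (x 1)) • (ContinuousLinearMap.proj (R := ℝ) (φ := fun _ : Fin 2 => ℝ) 1)) x :=
    (hv (x 1)).comp_hasFDerivAt x (ContinuousLinearMap.proj (R := ℝ) (φ := fun _ : Fin 2 => ℝ) 1).hasFDerivAt
  have e2 : HasFDerivAt (fun x : Fin 2 → ℝ => u (x 0) * v (x 1)) _ x := e0.mul e1
  rw [e2.fderiv]
  simp

lemma integral_prodFn (u v : ℝ → ℝ) :
    ∫ x, prodFn u v x = (∫ x, u x) * ∫ x, v x := by
  have h := MeasureTheory.integral_fintype_prod_volume_eq_prod (𝕜 := ℝ) (ι := Fin 2)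
    (E := fun _ => ℝ) (fun i => (![u, v] : Fin 2 → ℝ → ℝ) i)
  simp only [Fin.prod_univ_two, Matrix.cons_val_zero, Matrix.cons_val_one] at h
  exact h

end Pool.Agent.Helper579.Iid
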