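import Mathlib
import Pool.Agent.Helper579.IidKernel

set_option autoImplicit false

namespace Pool.Agent.Helper579.Iid

open MeasureTheory Set Filter
open scoped ENNReal Topology

/-- `f` is continuous on `D` with weak gradient `(g₀, g₁)`. -/
structure HasGrad (D : Set (Fin 2 → ℝ)) (f g₀ g₁ : (Fin 2 → ℝ) → ℝ) : Prop where
  cont : ContinuousOn f D
  loc₀ : LocallyIntegrableOn g₀ D
  loc₁ : LocallyIntegrableOn g₁ D
  w₀ : ∀ φ : (Fin 2 → ℝ) → ℝ, ContDiff ℝ (⊤ : ℕ∞) φ → HasCompactSupport φ → tsupport φ ⊆ D →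
    ∫ x in D, f x * pderiv 0 φ x = -∫ x in D, g₀ x * φ x
  w₁ : ∀ φ : (Fin 2 → ℝ) → ℝ, ContDiff ℝ (⊤ : ℕ∞) φ → HasCompactSupport φ → tsupport φ ⊆ D →
    ∫ x in D, f x * pderiv 1 φ x = -∫ x in D, g₁ x * φ x

/-- the weight of an average over a box -/
noncomputable def wt (c : Fin 2 → ℝ) (h : ℝ) : (Fin 2 → ℝ) → ℝ := prodFn (bs (c 0) h) (bs (c 1) h)

/-- the average of `f` over a box -/
noncomputable def avg (D : Set (Fin 2 → ℝ)) (f : (Fin 2 → ℝ) → ℝ) (c : Fin 2 → ℝ) (h : ℝ) : ℝ :=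
  ∫ x in D, f x * wt c h x

lemma wt_support {c : Fin 2 → ℝ} {h : ℝ} (hh : 0 < h) :
    HasCompactSupport (wt c h) ∧ tsupport (wt c h) ⊆ Box c h := by
  unfold wt
  apply prodFn_support (a := h / 4) (by positivity)
  · intro x hx
    apply bs_zero hh
    rcases hx with h1 | h1
    · left; exact h1
    · right; linarith
  · intro x hx
    apply bs_zero hh
    rcases hx with h1 | h1
    · left; exact h1
    · right; linarith

lemma wt_contDiff (c : Fin 2 → ℝ) (h : ℝ) : ContDiff ℝ (⊤ : ℕ∞) (wt c h) :=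
  prodFn_contDiff (bs_contDiff _ _) (bs_contDiff _ _)

lemma abs_wt_le {c : Fin 2 → ℝ} {h : ℝ} (hh : 0 < h) (x : Fin 2 → ℝ) :
    |wt c h x| ≤ (KB / h) ^ 2 := by
  unfold wt prodFn
  rw [abs_mul, sq]
  exact mul_le_mul (abs_bs_le hh _) (abs_bs_le hh _) (abs_nonneg _)
    (div_nonneg (by linarith [one_le_KB]) hh.le)

lemma wt_zero {c : Fin 2 → ℝ} {h : ℝ} (hh : 0 < h) {x : Fin 2 → ℝ} (hx : x ∉ Box c h) :
    wt c h x = 0 := by
  by_contra hcon
  exact hx ((wt_support hh).2 (subset_tsupport _ hcon))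

lemma integral_wt {c : Fin 2 → ℝ} {h : ℝ} (hh : 0 < h) : ∫ x, wt c h x = 1 := by
  unfold wt
  rw [integral_prodFn, integral_bs hh, integral_bs hh, mul_one]

lemma integrableOn_mul {D : Set (Fin 2 → ℝ)} (hD : IsOpen D) {g φ : (Fin 2 → ℝ) → ℝ}
    (hg : LocallyIntegrableOn g D) (hφ : Continuous φ) (hc : HasCompactSupport φ)
    (hs : tsupport φ ⊆ D) : IntegrableOn (fun x => g x * φ x) D := by
  have h1 : IntegrableOn g (tsupport φ) := hg.integrableOn_compact_subset hs hc
  have h2 : IntegrableOn (fun x => g x * φ x) (tsupport φ) :=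
    h1.mul_continuousOn hφ.continuousOn hc
  have h3 : Integrable (fun x => g x * φ x) := by
    rw [← integrableOn_iff_integrable_of_support_subset (s := tsupport φ)]
    · exact h2
    · intro x hx
      by_contra hcon
      apply hx
      show g x * φ x = 0
      rw [image_eq_zero_of_notMem_tsupport hcon, mul_zero]
  exact h3.integrableOn

/-- Hölder estimate on a box -/
lemma abs_integral_mul_le {D : Set (Fin 2 → ℝ)} (hD : IsOpen D) {c : Fin 2 → ℝ} {h : ℝ}
    (hh : 0 < h) (hBox : Box c h ⊆ D) {g φ : (Fin 2 → ℝ) → ℝ} (hg : LocallyIntegrableOn g D)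
    {M G : ℝ} (hM : 0 ≤ M) (hG : 0 ≤ G) (hφM : ∀ x, |φ x| ≤ M) (hφ0 : ∀ x, x ∉ Box c h → φ x = 0)
    (hgG : eLpNorm g 4 (volume.restrict (Box c h)) ≤ ENNReal.ofReal G) :
    |∫ x in D, g x * φ x| ≤ M * (h * Real.sqrt h * G) := by
  have hvol : volume (Box c h) = ENNReal.ofReal (h ^ 2) := volume_Box c hh.le
  have hm : AEStronglyMeasurable g (volume.restrict (Box c h)) :=
    (hg.mono_set hBox).aestronglyMeasurable
  have h1 : ∫ x in D, g x * φ x = ∫ x in Box c h, g x * φ x := by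
    apply (setIntegral_eq_of_subset_of_forall_diff_eq_zero hD.measurableSet hBox ?_)
    intro x hx
    rw [hφ0 x hx.2, mul_zero]
  rw [h1]
  have h2 : eLpNorm g 1 (volume.restrict (Box c h)) ≤ ENNReal.ofReal (h * Real.sqrt h * G) := by
    refine (eLpNorm_le_eLpNorm_mul_rpow_measure_univ (p := 1) (q := 4) (by norm_num) hm).trans ?_
    rw [Measure.restrict_apply_univ, hvol]
    have e1 : (1 / (1 : ℝ≥0∞).toReal - 1 / (4 : ℝ≥0∞).toReal) = 3 / 4 := by norm_num
    rw [e1, ENNReal.ofReal_rpow_of_pos (by positivity)]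
    have e2 : (h ^ 2 : ℝ) ^ (3 / 4 : ℝ) = h * Real.sqrt h := by
      rw [← Real.rpow_natCast h 2, ← Real.rpow_mul hh.le, Real.sqrt_eq_rpow]
      nth_rewrite 2 [← Real.rpow_one h]
      rw [← Real.rpow_add hh]
      norm_num
    rw [e2]
    calc eLpNorm g 4 (volume.restrict (Box c h)) * ENNReal.ofReal (h * Real.sqrt h)
        ≤ ENNReal.ofReal G * ENNReal.ofReal (h * Real.sqrt h) := by gcongr
      _ = ENNReal.ofReal (h * Real.sqrt h * G) := by
          rw [← ENNReal.ofReal_mul hG]; congr 1; ring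
  have h3 : ‖∫ x in Box c h, g x * φ x‖ₑ ≤ ENNReal.ofReal (M * (h * Real.sqrt h * G)) := by
    refine (enorm_integral_le_lintegral_enorm _).trans ?_
    have h4 : ∫⁻ x in Box c h, ‖g x * φ x‖ₑ ≤ ∫⁻ x in Box c h, ENNReal.ofReal M * ‖g x‖ₑ := by
      apply lintegral_mono
      intro x
      simp only [enorm_mul]
      rw [mul_comm]
      gcongr
      rw [Real.enorm_eq_ofReal_abs]
      exact ENNReal.ofReal_le_ofReal (hφM x)
    refine h4.trans ?_
    rw [lintegral_const_mul' _ _ ENNReal.ofReal_ne_top, ENNReal.ofReal_mul hM]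
    gcongr
    rwa [eLpNorm_one_eq_lintegral_enorm] at h2
  rw [Real.enorm_eq_ofReal_abs] at h3
  exact (ENNReal.ofReal_le_ofReal_iff (by positivity)).mp h3

/-- comparison of the averages over two nested boxes -/
lemma avg_sub_avg {D : Set (Fin 2 → ℝ)} (hD : IsOpen D) {f g₀ g₁ : (Fin 2 → ℝ) → ℝ}
    (H : HasGrad D f g₀ g₁) {c c' : Fin 2 → ℝ} {h : ℝ} (hh : 0 < h) (hBox : Box c h ⊆ D)
    (h1 : ∀ i, c i ≤ c' i) (h2 : ∀ i, c' i + h / 2 ≤ c i + h) {G : ℝ} (hG : 0 ≤ G)
    (hG₀ : eLpNorm g₀ 4 (volume.restrict (Box c h)) ≤ ENNReal.ofReal G)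
    (hG₁ : eLpNorm g₁ 4 (volume.restrict (Box c h)) ≤ ENNReal.ofReal G) :
    |avg D f c h - avg D f c' (h / 2)| ≤ 3 * KB * Real.sqrt h * G := by
  have hh' : 0 < h / 2 := by positivity
  have hK := one_le_KB
  set φ₁ : (Fin 2 → ℝ) → ℝ := prodFn (As (c 0) h (c' 0) (h / 2)) (bs (c 1) h) with hφ₁
  set φ₂ : (Fin 2 → ℝ) → ℝ := prodFn (bs (c' 0) (h / 2)) (As (c 1) h (c' 1) (h / 2)) with hφ₂
  have hA : ∀ i, ∀ x, (x < c i + h / 8 ∨ c i + h - h / 8 < x) →
      As (c i) h (c' i) (h / 2) x = 0 := by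
    intro i x hx
    apply As_zero hh hh' (by linarith) (h1 i) (h2 i)
    rcases hx with hx | hx
    · left; linarith
    · right; linarith
  have hb : ∀ x, (x < c 1 + h / 8 ∨ c 1 + h - h / 8 < x) → bs (c 1) h x = 0 := by
    intro x hx
    apply bs_zero hh
    rcases hx with hx | hx
    · left; linarith
    · right; linarith
  have hb' : ∀ x, (x < c 0 + h / 8 ∨ c 0 + h - h / 8 < x) → bs (c' 0) (h / 2) x = 0 := by
    intro x hx
    apply bs_zero hh'
    rcases hx with hx | hx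
    · left; linarith [h1 0]
    · right; linarith [h2 0]
  obtain ⟨s1, t1⟩ := prodFn_support (u := As (c 0) h (c' 0) (h / 2)) (v := bs (c 1) h)
    (c := c) (h := h) (a := h / 8) (by positivity) (hA 0) hb
  obtain ⟨s2, t2⟩ := prodFn_support (u := bs (c' 0) (h / 2)) (v := As (c 1) h (c' 1) (h / 2))
    (c := c) (h := h) (a := h / 8) (by positivity) hb' (hA 1)
  have c1 : ContDiff ℝ (⊤ : ℕ∞) φ₁ := prodFn_contDiff (As_contDiff _ _ _ _) (bs_contDiff _ _)
  have c2 : ContDiff ℝ (⊤ : ℕ∞) φ₂ := prodFn_contDiff (bs_contDiff _ _) (As_contDiff _ _ _ _)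
  have e1 := H.w₀ φ₁ c1 s1 (t1.trans hBox)
  have e2 := H.w₁ φ₂ c2 s2 (t2.trans hBox)
  have d1 : ∀ x, pderiv 0 φ₁ x = (bs (c 0) h (x 0) - bs (c' 0) (h / 2) (x 0)) * bs (c 1) h (x 1) :=
    fun x => pderiv_prodFn_zero (fun x => As_hasDerivAt _ _ _ _ x) (bs_contDiff _ _) x
  have d2 : ∀ x, pderiv 1 φ₂ x
      = bs (c' 0) (h / 2) (x 0) * (bs (c 1) h (x 1) - bs (c' 1) (h / 2) (x 1)) :=
    fun x => pderiv_prodFn_one (bs_contDiff _ _) (fun x => As_hasDerivAt _ _ _ _ x) x
  have hfl : LocallyIntegrableOn f D := H.cont.locallyIntegrableOn hD.measurableSet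
  have hBox' : Box c' (h / 2) ⊆ D := by
    refine Set.Subset.trans ?_ hBox
    intro x hx i
    have := hx i
    exact ⟨lt_of_le_of_lt (h1 i) this.1, lt_of_lt_of_le this.2 (h2 i)⟩
  have i1 := integrableOn_mul hD hfl (wt_contDiff c h).continuous (wt_support hh).1
    ((wt_support hh).2.trans hBox)
  have i2 := integrableOn_mul hD hfl (wt_contDiff c' (h / 2)).continuous (wt_support hh').1
    ((wt_support hh').2.trans hBox')
  have p1 : Continuous (pderiv 0 φ₁) := (c1.continuous_fderiv (by simp)).clm_apply continuous_const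
  have p2 : Continuous (pderiv 1 φ₂) := (c2.continuous_fderiv (by simp)).clm_apply continuous_const
  have q1 : HasCompactSupport (pderiv 0 φ₁) :=
    (s1.fderiv (𝕜 := ℝ)).comp_left (g := fun L : (Fin 2 → ℝ) →L[ℝ] ℝ => L (Pi.single 0 1)) (by simp)
  have q2 : HasCompactSupport (pderiv 1 φ₂) :=
    (s2.fderiv (𝕜 := ℝ)).comp_left (g := fun L : (Fin 2 → ℝ) →L[ℝ] ℝ => L (Pi.single 1 1)) (by simp)
  have r1 : tsupport (pderiv 0 φ₁) ⊆ D := by
    refine Set.Subset.trans ?_ (t1.trans hBox)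
    refine closure_minimal ?_ (isClosed_tsupport _)
    intro x hx
    by_contra hcon
    apply hx
    have : fderiv ℝ φ₁ x = 0 := by
      by_contra h3
      exact hcon (support_fderiv_subset ℝ h3)
    show fderiv ℝ φ₁ x _ = 0
    rw [this]; rfl
  have r2 : tsupport (pderiv 1 φ₂) ⊆ D := by
    refine Set.Subset.trans ?_ (t2.trans hBox)
    refine closure_minimal ?_ (isClosed_tsupport _)
    intro x hx
    by_contra hcon
    apply hx
    have : fderiv ℝ φ₂ x = 0 := by
      by_contra h3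
      exact hcon (support_fderiv_subset ℝ h3)
    show fderiv ℝ φ₂ x _ = 0
    rw [this]; rfl
  have j1 := integrableOn_mul hD hfl p1 q1 r1
  have j2 := integrableOn_mul hD hfl p2 q2 r2
  have e3 : avg D f c h - avg D f c' (h / 2)
      = (∫ x in D, f x * pderiv 0 φ₁ x) + ∫ x in D, f x * pderiv 1 φ₂ x := by
    unfold avg
    rw [← integral_sub i1 i2, ← integral_add j1 j2]
    congr 1
    funext x
    rw [d1, d2]
    unfold wt prodFn
    ring
  rw [e3, e1, e2]
  have b1 : |∫ x in D, g₀ x * φ₁ x| ≤ KB / h * (h * Real.sqrt h * G) := by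
    apply abs_integral_mul_le hD hh hBox H.loc₀ (by positivity) hG ?_ ?_ hG₀
    · intro x
      rw [hφ₁]
      unfold prodFn
      rw [abs_mul]
      calc |As (c 0) h (c' 0) (h / 2) (x 0)| * |bs (c 1) h (x 1)| ≤ 1 * (KB / h) := by
            apply mul_le_mul (abs_As_le _ _ _ _ _) (abs_bs_le hh _) (abs_nonneg _) zero_le_one
        _ = KB / h := one_mul _
    · intro x hx
      by_contra hcon
      exact hx (t1 (subset_tsupport _ hcon))
  have b2 : |∫ x in D, g₁ x * φ₂ x| ≤ 2 * KB / h * (h * Real.sqrt h * G) := by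
    apply abs_integral_mul_le hD hh hBox H.loc₁ (by positivity) hG ?_ ?_ hG₁
    · intro x
      rw [hφ₂]
      unfold prodFn
      rw [abs_mul]
      calc |bs (c' 0) (h / 2) (x 0)| * |As (c 1) h (c' 1) (h / 2) (x 1)| ≤ (KB / (h / 2)) * 1 := by
            apply mul_le_mul (abs_bs_le hh' _) (abs_As_le _ _ _ _ _) (abs_nonneg _) (by positivity)
        _ = 2 * KB / h := by field_simp
    · intro x hx
      by_contra hcon
      exact hx (t2 (subset_tsupport _ hcon))
  have b3 : KB / h * (h * Real.sqrt h * G) + 2 * KB / h * (h * Real.sqrt h * G)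
      = 3 * KB * Real.sqrt h * G := by field_simp; ring
  calc |(-∫ x in D, g₀ x * φ₁ x) + -∫ x in D, g₁ x * φ₂ x|
      ≤ |-∫ x in D, g₀ x * φ₁ x| + |-∫ x in D, g₁ x * φ₂ x| := abs_add_le _ _
    _ = |∫ x in D, g₀ x * φ₁ x| + |∫ x in D, g₁ x * φ₂ x| := by rw [abs_neg, abs_neg]
    _ ≤ 3 * KB * Real.sqrt h * G := by linarith

/-- averages over small boxes are close to the value of the function -/
lemma abs_avg_sub_le {D : Set (Fin 2 → ℝ)} (hD : IsOpen D) {f : (Fin 2 → ℝ) → ℝ}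
    (hf : ContinuousOn f D) {c : Fin 2 → ℝ} {h : ℝ} (hh : 0 < h) (hBox : Box c h ⊆ D) {a ε : ℝ}
    (hε : 0 ≤ ε) (hfa : ∀ x ∈ Box c h, |f x - a| ≤ ε) : |avg D f c h - a| ≤ KB ^ 2 * ε := by
  have hfl : LocallyIntegrableOn f D := hf.locallyIntegrableOn hD.measurableSet
  have i1 := integrableOn_mul hD hfl (wt_contDiff c h).continuous (wt_support hh).1
    ((wt_support hh).2.trans hBox)
  have hwt : Integrable (wt c h) :=
    (wt_contDiff c h).continuous.integrable_of_hasCompactSupport (wt_support hh).1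
  have h1 : ∫ x in D, wt c h x = 1 := by
    rw [setIntegral_eq_integral_of_forall_compl_eq_zero, integral_wt hh]
    intro x hx
    exact wt_zero hh fun hcon => hx (hBox hcon)
  have h2 : avg D f c h - a = ∫ x in D, (f x - a) * wt c h x := by
    have i2 : IntegrableOn (fun x => a * wt c h x) D := (hwt.const_mul a).integrableOn
    have : ∫ x in D, (f x - a) * wt c h x = (∫ x in D, f x * wt c h x) - ∫ x in D, a * wt c h x := by
      rw [← integral_sub i1 i2]
      congr 1; funext x; ring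
    rw [this, integral_const_mul, h1, mul_one]
    rfl
  have h3 : ∫ x in D, (f x - a) * wt c h x = ∫ x in Box c h, (f x - a) * wt c h x := by
    apply (setIntegral_eq_of_subset_of_forall_diff_eq_zero hD.measurableSet hBox ?_)
    intro x hx
    rw [wt_zero hh hx.2, mul_zero]
  rw [h2, h3]
  have h4 : ‖∫ x in Box c h, (f x - a) * wt c h x‖ ≤ (ε * (KB / h) ^ 2) * volume.real (Box c h) := by
    apply norm_setIntegral_le_of_norm_le_const
    · rw [volume_Box c hh.le]; exact ENNReal.ofReal_lt_top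
    · intro x hx
      rw [Real.norm_eq_abs, abs_mul]
      exact mul_le_mul (hfa x hx) (abs_wt_le hh x) (abs_nonneg _) hε
  rw [Real.norm_eq_abs] at h4
  refine h4.trans (le_of_eq ?_)
  rw [Measure.real, volume_Box c hh.le, ENNReal.toReal_ofReal (by positivity)]
  field_simp

/-- distance of a value from the average -/
lemma abs_sub_avg {D : Set (Fin 2 → ℝ)} (hD : IsOpen D) {f g₀ g₁ : (Fin 2 → ℝ) → ℝ}
    (H : HasGrad D f g₀ g₁) {c : Fin 2 → ℝ} {h : ℝ} (hh : 0 < h) (hBox : Box c h ⊆ D)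
    {G : ℝ} (hG : 0 ≤ G)
    (hG₀ : eLpNorm g₀ 4 (volume.restrict (Box c h)) ≤ ENNReal.ofReal G)
    (hG₁ : eLpNorm g₁ 4 (volume.restrict (Box c h)) ≤ ENNReal.ofReal G)
    {z : Fin 2 → ℝ} (hz : z ∈ Box c h) :
    |avg D f c h - f z| ≤ 12 * KB * Real.sqrt h * G := by
  have hK := one_le_KB
  set ck : ℕ → Fin 2 → ℝ := fun k i => z i - (1 / 2) ^ k * (z i - c i) with hck
  set hk : ℕ → ℝ := fun k => (1 / 2) ^ k * h with hhk
  have hkpos : ∀ k, 0 < hk k := fun k => by rw [hhk]; positivity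
  have hzc : ∀ i, 0 < z i - c i := fun i => by linarith [(hz i).1]
  have hzc' : ∀ i, z i - c i < h := fun i => by linarith [(hz i).2]
  have hpow : ∀ k : ℕ, (0 : ℝ) < (1 / 2) ^ k := fun k => by positivity
  have hstep : ∀ k : ℕ, ((1 : ℝ) / 2) ^ (k + 1) = (1 / 2) ^ k / 2 := fun k => by
    rw [pow_succ]; ring
  have hpow1 : ∀ k : ℕ, ((1 : ℝ) / 2) ^ k ≤ 1 := fun k => pow_le_one₀ (by norm_num) (by norm_num)
  have hsub : ∀ k, Box (ck k) (hk k) ⊆ Box c h := by
    intro k x hx i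
    have h1 := hx i
    simp only [hck, hhk] at h1
    have h2 := hzc i
    have h3 := hzc' i
    have h4 := hpow k
    have h5 := hpow1 k
    constructor
    · nlinarith
    · nlinarith
  have hzk : ∀ k, z ∈ Box (ck k) (hk k) := by
    intro k i
    simp only [hck, hhk]
    have h2 := hzc i
    have h3 := hzc' i
    have h4 := hpow k
    constructor
    · nlinarith
    · nlinarith
  have hdiff : ∀ k, |avg D f (ck k) (hk k) - avg D f (ck (k + 1)) (hk (k + 1))|
      ≤ 3 * KB * Real.sqrt h * G * (3 / 4) ^ k := by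
    intro k
    have e1 : hk (k + 1) = hk k / 2 := by simp only [hhk, hstep]; ring
    rw [e1]
    have h1 := avg_sub_avg hD H (c := ck k) (c' := ck (k + 1)) (hkpos k) ((hsub k).trans hBox)
      (fun i => by
        simp only [hck, hstep]
        nlinarith [hzc i, hpow k])
      (fun i => by
        simp only [hck, hstep, hhk]
        nlinarith [hzc i, hpow k, hzc' i])
      hG ((eLpNorm_mono_measure _ (Measure.restrict_mono (hsub k) le_rfl)).trans hG₀)
      ((eLpNorm_mono_measure _ (Measure.restrict_mono (hsub k) le_rfl)).trans hG₁)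
    refine h1.trans ?_
    have h2 : Real.sqrt (hk k) ≤ Real.sqrt h * (3 / 4) ^ k := by
      rw [Real.sqrt_le_left (by positivity)]
      rw [mul_pow, Real.sq_sqrt hh.le, ← pow_mul, mul_comm k 2, pow_mul]
      simp only [hhk]
      rw [mul_comm]
      apply mul_le_mul_of_nonneg_left _ hh.le
      exact pow_le_pow_left₀ (by norm_num) (by norm_num) k
    calc 3 * KB * Real.sqrt (hk k) * G ≤ 3 * KB * (Real.sqrt h * (3 / 4) ^ k) * G := by gcongr
      _ = 3 * KB * Real.sqrt h * G * (3 / 4) ^ k := by ring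
  have hsum : ∀ k, |avg D f (ck 0) (hk 0) - avg D f (ck k) (hk k)|
      ≤ 3 * KB * Real.sqrt h * G * (4 - 4 * (3 / 4) ^ k) := by
    intro k
    induction k with
    | zero => simp
    | succ k ih =>
      have h1 := hdiff k
      have h2 := abs_sub_le (avg D f (ck 0) (hk 0)) (avg D f (ck k) (hk k))
        (avg D f (ck (k + 1)) (hk (k + 1)))
      have h3 : (3 / 4 : ℝ) ^ (k + 1) = (3 / 4) ^ k * (3 / 4) := pow_succ _ _
      rw [h3]
      nlinarith
  have hc0 : ck 0 = c := by funext i; simp [hck]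
  have hh0 : hk 0 = h := by simp [hhk]
  rw [hc0, hh0] at hsum
  have hsum' : ∀ k, |avg D f c h - avg D f (ck k) (hk k)| ≤ 12 * KB * Real.sqrt h * G := by
    intro k
    refine (hsum k).trans ?_
    have h1 : (0 : ℝ) < (3 / 4) ^ k := by positivity
    have h2 : 0 ≤ 3 * KB * Real.sqrt h * G := by positivity
    nlinarith
  -- the averages converge to the value
  have hlim : Tendsto (fun k => avg D f (ck k) (hk k)) atTop (𝓝 (f z)) := by
    rw [Metric.tendsto_atTop]
    intro ε hε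
    have hcz : ContinuousWithinAt f D z := H.cont z (hBox hz)
    rw [Metric.continuousWithinAt_iff] at hcz
    obtain ⟨δ, hδ, hδf⟩ := hcz (ε / (2 * KB ^ 2)) (by positivity)
    have hk0 : Tendsto hk atTop (𝓝 0) := by
      have := (tendsto_pow_atTop_nhds_zero_of_lt_one (r := (1 / 2 : ℝ)) (by norm_num)
        (by norm_num)).mul_const h
      simpa [hhk] using this
    have hev : ∀ᶠ k in atTop, hk k < δ := hk0.eventually (gt_mem_nhds hδ)
    obtain ⟨k₀, hk₀⟩ := Filter.eventually_atTop.mp hev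
    refine ⟨k₀, fun k hk' => ?_⟩
    have h1 : ∀ x ∈ Box (ck k) (hk k), |f x - f z| ≤ ε / (2 * KB ^ 2) := by
      intro x hx
      have hxD : x ∈ D := hBox (hsub k hx)
      have hdist : dist x z < δ := by
        rw [dist_pi_lt_iff hδ]
        intro i
        have h1 := hx i
        have h2 := hzk k i
        have h3 := hk₀ k hk'
        rw [Real.dist_eq, abs_lt]
        constructor <;> linarith
      have := hδf hxD hdist
      rw [Real.dist_eq] at this
      exact this.le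
    have h2 := abs_avg_sub_le hD H.cont (hkpos k) ((hsub k).trans hBox) (by positivity) h1
    rw [Real.dist_eq]
    refine lt_of_le_of_lt h2 ?_
    have : KB ^ 2 * (ε / (2 * KB ^ 2)) = ε / 2 := by field_simp
    rw [this]; linarith
  have hlim' : Tendsto (fun k => |avg D f c h - avg D f (ck k) (hk k)|) atTop
      (𝓝 |avg D f c h - f z|) := (hlim.const_sub _).abs
  exact le_of_tendsto' hlim' hsum'

/-- Morrey's inequality on a box -/
lemma morrey {D : Set (Fin 2 → ℝ)} (hD : IsOpen D) {f g₀ g₁ : (Fin 2 → ℝ) → ℝ}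
    (H : HasGrad D f g₀ g₁) {c : Fin 2 → ℝ} {h : ℝ} (hh : 0 < h) (hBox : Box c h ⊆ D)
    {G : ℝ} (hG : 0 ≤ G)
    (hG₀ : eLpNorm g₀ 4 (volume.restrict (Box c h)) ≤ ENNReal.ofReal G)
    (hG₁ : eLpNorm g₁ 4 (volume.restrict (Box c h)) ≤ ENNReal.ofReal G)
    {z w : Fin 2 → ℝ} (hz : z ∈ Box c h) (hw : w ∈ Box c h) :
    |f z - f w| ≤ 24 * KB * Real.sqrt h * G := by
  have h1 := abs_sub_avg hD H hh hBox hG hG₀ hG₁ hz
  have h2 := abs_sub_avg hD H hh hBox hG hG₀ hG₁ hw
  rw [abs_le] at h1 h2 ⊢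
  constructor <;> linarith [h1.1, h1.2, h2.1, h2.2]

/-- Morrey's inequality up to the part of the boundary of the box inside `D` -/
lemma morrey_closure {D : Set (Fin 2 → ℝ)} (hD : IsOpen D) {f g₀ g₁ : (Fin 2 → ℝ) → ℝ}
    (H : HasGrad D f g₀ g₁) {c : Fin 2 → ℝ} {h : ℝ} (hh : 0 < h) (hBox : Box c h ⊆ D)
    {G : ℝ} (hG : 0 ≤ G)
    (hG₀ : eLpNorm g₀ 4 (volume.restrict (Box c h)) ≤ ENNReal.ofReal G)
    (hG₁ : eLpNorm g₁ 4 (volume.restrict (Box c h)) ≤ ENNReal.ofReal G)
    {z w : Fin 2 → ℝ} (hz : z ∈ closure (Box c h) ∩ D) (hw : w ∈ closure (Box c h) ∩ D) :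
    |f z - f w| ≤ 24 * KB * Real.sqrt h * G := by
  have key : ∀ w ∈ Box c h, ∀ z ∈ closure (Box c h) ∩ D, |f z - f w| ≤ 24 * KB * Real.sqrt h * G := by
    intro w hw z hz
    have hcl : z ∈ closure (Box c h) := hz.1
    rw [mem_closure_iff_nhdsWithin_neBot] at hcl
    have hct : Tendsto f (𝓝[Box c h] z) (𝓝 (f z)) :=
      (H.cont z hz.2).mono_left (nhdsWithin_mono z hBox)
    have h2 : Tendsto (fun x => |f x - f w|) (𝓝[Box c h] z) (𝓝 |f z - f w|) :=
      (hct.sub_const _).abs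
    apply le_of_tendsto h2
    filter_upwards [self_mem_nhdsWithin] with x hx
    exact morrey hD H hh hBox hG hG₀ hG₁ hx hw
  have hcl : w ∈ closure (Box c h) := hw.1
  rw [mem_closure_iff_nhdsWithin_neBot] at hcl
  have hct : Tendsto f (𝓝[Box c h] w) (𝓝 (f w)) :=
    (H.cont w hw.2).mono_left (nhdsWithin_mono w hBox)
  have h2 : Tendsto (fun x => |f z - f x|) (𝓝[Box c h] w) (𝓝 |f z - f w|) :=
    (hct.const_sub _).abs
  apply le_of_tendsto h2
  filter_upwards [self_mem_nhdsWithin] with x hx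
  exact key x hx z hz

end Pool.Agent.Helper579.Iid
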