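import Mathlib
import Pool.Agent.Helper579.IidMorrey

set_option autoImplicit false

namespace Pool.Agent.Helper579.Iid

open MeasureTheory Set Filter
open scoped ENNReal Topology

lemma multi_two_one : multi 2 1 = {![0, 0], ![1, 0], ![0, 1]} := by decide

lemma mderiv_10 (φ : (Fin 2 → ℝ) → ℝ) : mderiv ![1, 0] φ = pderiv 0 φ := by
  unfold mderiv
  simp [List.finRange_succ]

lemma mderiv_01 (φ : (Fin 2 → ℝ) → ℝ) : mderiv ![0, 1] φ = pderiv 1 φ := by
  unfold mderiv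
  simp [List.finRange_succ]

lemma mderiv_00 (φ : (Fin 2 → ℝ) → ℝ) : mderiv ![0, 0] φ = φ := by
  unfold mderiv
  simp [List.finRange_succ]

lemma zero_eq : (0 : Fin 2 → ℕ) = ![0, 0] := by decide

lemma sobNorm_one (D : Set (Fin 2 → ℝ)) (g : (Fin 2 → ℕ) → (Fin 2 → ℝ) → ℝ) :
    sobNorm D 1 4 g ≤ 1 ↔ eLpNorm (g ![0, 0]) 4 (volume.restrict D) ^ 4
      + eLpNorm (g ![1, 0]) 4 (volume.restrict D) ^ 4
      + eLpNorm (g ![0, 1]) 4 (volume.restrict D) ^ 4 ≤ 1 := by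
  unfold sobNorm
  rw [if_neg (by norm_num), multi_two_one]
  have h4 : (4 : ℝ≥0∞).toReal = ((4 : ℕ) : ℝ) := by norm_num
  rw [Finset.sum_insert (by decide), Finset.sum_insert (by decide), Finset.sum_singleton, h4]
  simp only [ENNReal.rpow_natCast]
  rw [← add_assoc]
  constructor
  · intro h
    have h1 := ENNReal.rpow_le_rpow h (z := 4) (by norm_num)
    rw [← ENNReal.rpow_mul, ENNReal.one_rpow] at h1
    norm_num at h1
    exact h1
  · intro h
    exact (ENNReal.rpow_le_rpow h (by positivity)).trans (by rw [ENNReal.one_rpow])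

/-- the functions in the unit ball of `W_4^1` in terms of the weak gradient -/
lemma sobBall_one {D : Set (Fin 2 → ℝ)} {f : (Fin 2 → ℝ) → ℝ} (hf : f ∈ sobBall D 1 4) :
    ∃ g₀ g₁, HasGrad D f g₀ g₁ ∧ eLpNorm f 4 (volume.restrict D) ^ 4
      + eLpNorm g₀ 4 (volume.restrict D) ^ 4 + eLpNorm g₁ 4 (volume.restrict D) ^ 4 ≤ 1 := by
  obtain ⟨hc, g, h0, hw, hn⟩ := hf
  rw [sobNorm_one] at hn
  rw [zero_eq] at h0
  have w0 := hw ![1, 0] (by rw [multi_two_one]; decide)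
  have w1 := hw ![0, 1] (by rw [multi_two_one]; decide)
  refine ⟨g ![1, 0], g ![0, 1], ⟨hc, w0.2.1, w1.2.1, ?_, ?_⟩, ?_⟩
  · intro φ h1 h2 h3
    have := w0.2.2 φ h1 h2 h3
    rw [mderiv_10] at this
    rw [this]; simp
  · intro φ h1 h2 h3
    have := w1.2.2 φ h1 h2 h3
    rw [mderiv_01] at this
    rw [this]; simp
  · rw [← h0]; exact hn

lemma mem_sobBall_one {D : Set (Fin 2 → ℝ)} (hD : MeasurableSet D) {f g₀ g₁ : (Fin 2 → ℝ) → ℝ}
    (H : HasGrad D f g₀ g₁) (hn : eLpNorm f 4 (volume.restrict D) ^ 4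
      + eLpNorm g₀ 4 (volume.restrict D) ^ 4 + eLpNorm g₁ 4 (volume.restrict D) ^ 4 ≤ 1) :
    f ∈ sobBall D 1 4 := by
  classical
  have hfl : LocallyIntegrableOn f D := H.cont.locallyIntegrableOn hD
  refine ⟨H.cont, fun α => if α = ![0, 0] then f else if α = ![1, 0] then g₀ else g₁, ?_, ?_, ?_⟩
  · rw [zero_eq]; simp
  · intro α hα
    rw [multi_two_one] at hα
    simp only [Finset.mem_insert, Finset.mem_singleton] at hα
    rcases hα with rfl | rfl | rfl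
    · simp only [if_true]
      refine ⟨hfl, hfl, fun φ _ _ _ => ?_⟩
      rw [mderiv_00]; simp
    · have e1 : (![1, 0] : Fin 2 → ℕ) ≠ ![0, 0] := by decide
      simp only [if_true, if_neg e1]
      refine ⟨hfl, H.loc₀, fun φ h1 h2 h3 => ?_⟩
      rw [mderiv_10, H.w₀ φ h1 h2 h3]; simp
    · have e2 : (![0, 1] : Fin 2 → ℕ) ≠ ![0, 0] := by decide
      have e3 : (![0, 1] : Fin 2 → ℕ) ≠ ![1, 0] := by decide
      simp only [if_neg e2, if_neg e3]
      refine ⟨hfl, H.loc₁, fun φ h1 h2 h3 => ?_⟩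
      rw [mderiv_01, H.w₁ φ h1 h2 h3]; simp
  · rw [sobNorm_one]
    have e1 : (![1, 0] : Fin 2 → ℕ) ≠ ![0, 0] := by decide
    have e2 : (![0, 1] : Fin 2 → ℕ) ≠ ![0, 0] := by decide
    have e3 : (![0, 1] : Fin 2 → ℕ) ≠ ![1, 0] := by decide
    simp only [if_true, if_neg e1, if_neg e2, if_neg e3]
    exact hn

end Pool.Agent.Helper579.Iid
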