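import Mathlib
import Pool.Agent.Helper579.IidDefs

set_option autoImplicit false

namespace Pool.Agent.Helper579.Iid

open MeasureTheory
open scoped ENNReal

lemma le_upperInt_add {Ω : Type} [MeasurableSpace Ω] (μ : Measure Ω) (g₁ g₂ : Ω → ℝ≥0∞)
    {G : Set Ω} (hG : MeasurableSet G) (c : ℝ≥0∞) (h : ∀ ω ∈ G, c ≤ g₁ ω + g₂ ω) :
    c * μ G ≤ upperInt μ g₁ + upperInt μ g₂ := by
  rw [← tsub_le_iff_right]
  unfold upperInt
  refine le_iInf fun h₁ => le_iInf fun m₁ => le_iInf fun b₁ => ?_
  rw [tsub_le_iff_right, add_comm, ← tsub_le_iff_right]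
  refine le_iInf fun h₂ => le_iInf fun m₂ => le_iInf fun b₂ => ?_
  rw [tsub_le_iff_right, add_comm, ← lintegral_add_left m₁, ← lintegral_indicator_const hG]
  apply lintegral_mono
  intro ω
  by_cases hω : ω ∈ G
  · rw [Set.indicator_of_mem hω]
    exact (h ω hω).trans (add_le_add (b₁ ω) (b₂ ω))
  · rw [Set.indicator_of_notMem hω]
    exact zero_le

lemma upperInt_le_of_ae {Ω : Type} [MeasurableSpace Ω] (μ : Measure Ω) (g h : Ω → ℝ≥0∞)
    (hm : Measurable h) (hgh : ∀ᵐ ω ∂μ, g ω ≤ h ω) : upperInt μ g ≤ ∫⁻ ω, h ω ∂μ := by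
  set N := toMeasurable μ {ω | ¬ g ω ≤ h ω} with hN
  have hN0 : μ N = 0 := by rw [hN, measure_toMeasurable]; exact hgh
  have hNm : MeasurableSet N := measurableSet_toMeasurable _ _
  set h' : Ω → ℝ≥0∞ := fun ω => h ω + N.indicator (fun _ => ∞) ω with hh'
  have hm' : Measurable h' := hm.add (measurable_const.indicator hNm)
  have hb : ∀ ω, g ω ≤ h' ω := by
    intro ω
    by_cases hω : ω ∈ N
    · simp [hh', Set.indicator_of_mem hω]
    · have : g ω ≤ h ω := by
        by_contra hcon
        exact hω (subset_toMeasurable _ _ hcon)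
      exact this.trans le_self_add
  have hi : ∫⁻ ω, h' ω ∂μ = ∫⁻ ω, h ω ∂μ := by
    rw [hh', lintegral_add_left hm, lintegral_indicator_const hNm, hN0, mul_zero, add_zero]
  rw [← hi]
  exact iInf_le_of_le h' (iInf_le_of_le hm' (iInf_le_of_le hb le_rfl))

lemma upperInt_mono {Ω : Type} [MeasurableSpace Ω] (μ : Measure Ω) {g g' : Ω → ℝ≥0∞}
    (h : ∀ ω, g ω ≤ g' ω) : upperInt μ g ≤ upperInt μ g' := by
  unfold upperInt
  refine le_iInf fun h₁ => le_iInf fun m₁ => le_iInf fun b₁ => ?_
  exact iInf_le_of_le h₁ (iInf_le_of_le m₁ (iInf_le_of_le (fun ω => (h ω).trans (b₁ ω)) le_rfl))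

variable {d n : ℕ} {D : Set (Fin d → ℝ)} {s : ℕ} {p q : ℝ≥0∞}

lemma IsWeakDeriv.neg {α : Fin d → ℕ} {f g : (Fin d → ℝ) → ℝ} (h : IsWeakDeriv D α f g) :
    IsWeakDeriv D α (fun x => -f x) (fun x => -g x) := by
  refine ⟨h.1.neg, h.2.1.neg, ?_⟩
  intro φ h1 h2 h3
  have := h.2.2 φ h1 h2 h3
  simp only [neg_mul]
  rw [integral_neg, integral_neg, this]
  ring

lemma sobBall_neg {f : (Fin d → ℝ) → ℝ} (hf : f ∈ sobBall D s p) :
    (fun x => -f x) ∈ sobBall D s p := by
  obtain ⟨hc, g, h0, hw, hn⟩ := hf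
  refine ⟨hc.neg, fun α x => -g α x, ?_, fun α hα => (hw α hα).neg, ?_⟩
  · funext x
    show -g 0 x = -f x
    rw [h0]
  · unfold sobNorm at hn ⊢
    have : ∀ α (p : ℝ≥0∞), eLpNorm (fun x => -g α x) p (volume.restrict D)
        = eLpNorm (g α) p (volume.restrict D) := fun α p => eLpNorm_neg _ _ _
    simpa only [this] using hn

/-- The fooling bound. -/
lemma fooling (hD : MeasurableSet D) (hq : 1 ≤ q) {f : (Fin d → ℝ) → ℝ}
    (hf : f ∈ sobBall D s p) {S : Set (Fin d → ℝ)} (hS : MeasurableSet S)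
    (hz : ∀ x ∈ S, f x = 0) (hfin : IsFiniteMeasure (unif D)) (A : Method D n q) :
    eLpNorm f q (volume.restrict D) * unif D S ^ n ≤ A.error s p .ran := by
  let _ := A.mΩ
  have _ := A.prob
  set G : Set A.Ω := A.X ⁻¹' (Set.univ.pi fun _ => S) with hG
  have hpiS : MeasurableSet (Set.univ.pi fun _ : Fin n => S) :=
    MeasurableSet.univ_pi fun _ => hS
  have hGm : MeasurableSet G := A.measX hpiS
  have hμG : A.μ G = unif D S ^ n := by
    rw [hG, ← Measure.map_apply A.measX hpiS, A.law, Measure.pi_pi]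
    simp
  have hfm : AEStronglyMeasurable f (volume.restrict D) := hf.1.aestronglyMeasurable hD
  have key : ∀ ω ∈ G, 2 * eLpNorm f q (volume.restrict D)
      ≤ A.err f ω + A.err (fun x => -f x) ω := by
    intro ω hω
    have hX : ∀ i, f (A.X ω i) = 0 := fun i => hz _ (hω i (Set.mem_univ i))
    unfold Method.err
    have e1 : (fun i => f (A.X ω i)) = fun _ => (0 : ℝ) := funext hX
    have e2 : (fun i => -f (A.X ω i)) = fun _ => (0 : ℝ) := by
      funext i; rw [hX i, neg_zero]
    rw [e1]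
    simp only [e2]
    set u := A.φ ω fun _ => (0 : ℝ) with hu
    have hum : AEStronglyMeasurable u (volume.restrict D) := (A.memLp ω _).1
    have h2 : eLpNorm (fun x => 2 * f x) q (volume.restrict D)
        = 2 * eLpNorm f q (volume.restrict D) := by
      have := eLpNorm_const_smul (2 : ℝ) f q (volume.restrict D)
      rw [show ((2 : ℝ) • f) = fun x => 2 * f x from rfl] at this
      rw [this]
      congr 1
      rw [enorm_eq_nnnorm]
      norm_num
    rw [← h2]
    have h3 : (fun x => 2 * f x) = (fun x => f x - u x) - fun x => -f x - u x := by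
      funext x; simp only [Pi.sub_apply]; ring
    rw [h3]
    exact eLpNorm_sub_le (hfm.sub hum) (hfm.neg.sub hum) hq
  have h1 := le_upperInt_add A.μ _ _ hGm _ key
  have h2 : upperInt A.μ (fun ω => A.err f ω) ≤ A.error s p .ran :=
    le_iSup₂_of_le (f := fun f (_ : f ∈ sobBall D s p) => upperInt A.μ fun ω => A.err f ω) f hf le_rfl
  have h3 : upperInt A.μ (fun ω => A.err (fun x => -f x) ω) ≤ A.error s p .ran :=
    le_iSup₂_of_le (f := fun f (_ : f ∈ sobBall D s p) => upperInt A.μ fun ω => A.err f ω) _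
      (sobBall_neg hf) le_rfl
  have h4 := h1.trans (add_le_add h2 h3)
  rw [← two_mul, mul_assoc, hμG] at h4
  exact (ENNReal.mul_le_mul_iff_right (by norm_num) (by norm_num)).mp h4

/-- one more point -/
noncomputable def Method.extend (A : Method D n q) (hp : IsProbabilityMeasure (unif D)) :
    Method D (n + 1) q :=
  let _ := A.mΩ
  have _ := A.prob
  { Ω := (Fin d → ℝ) × A.Ω
    mΩ := inferInstance
    μ := (unif D).prod A.μ
    prob := inferInstance
    X := fun ω => (MeasurableEquiv.piFinSuccAbove (fun _ : Fin (n + 1) => Fin d → ℝ) 0).symm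
      (Prod.map id A.X ω)
    measX := (MeasurableEquiv.measurable _).comp (measurable_id.prodMap A.measX)
    law := by
      have h1 := Measure.map_map (μ := (unif D).prod A.μ)
        (MeasurableEquiv.measurable
          (MeasurableEquiv.piFinSuccAbove (fun _ : Fin (n + 1) => Fin d → ℝ) 0).symm)
        (measurable_id.prodMap A.measX)
      refine h1.symm.trans ?_
      rw [← Measure.map_prod_map _ _ measurable_id A.measX, A.law, Measure.map_id]
      exact ((measurePreserving_piFinSuccAbove (fun _ : Fin (n + 1) => unif D) 0).symm).map_eq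
    φ := fun ω v => A.φ ω.2 fun i => v i.succ
    memLp := fun ω v => A.memLp _ _ }

lemma Method.extend_err (A : Method D n q) (hp : IsProbabilityMeasure (unif D))
    (f : (Fin d → ℝ) → ℝ) (ω : (A.extend hp).Ω) :
    (A.extend hp).err f ω = A.err f (Prod.snd ω) := by
  rfl

lemma upperInt_snd {Ω : Type} [MeasurableSpace Ω] (μ : Measure Ω) [IsProbabilityMeasure μ]
    {Ω' : Type} [MeasurableSpace Ω'] (ν : Measure Ω') [IsProbabilityMeasure ν] (g : Ω → ℝ≥0∞) :
    upperInt (ν.prod μ) (fun ω => g ω.2) ≤ upperInt μ g := by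
  unfold upperInt
  refine le_iInf fun h₁ => le_iInf fun m₁ => le_iInf fun b₁ => ?_
  refine iInf_le_of_le (fun ω => h₁ ω.2) (iInf_le_of_le (m₁.comp measurable_snd)
    (iInf_le_of_le (fun ω => b₁ ω.2) ?_))
  exact (measurePreserving_snd.lintegral_comp m₁).le

lemma minErr_succ_le (hp : IsProbabilityMeasure (unif D)) (c : Crit) (n : ℕ) :
    minErr D s p q c (n + 1) ≤ minErr D s p q c n := by
  unfold minErr
  refine le_iInf fun A => iInf_le_of_le (A.extend hp) ?_
  let _ := A.mΩ
  have _ := A.prob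
  cases c with
  | ran =>
    refine iSup₂_mono fun f _ => ?_
    exact upperInt_snd A.μ (unif D) (fun ω => A.err f ω)
  | unif =>
    exact upperInt_snd A.μ (unif D) (fun ω => ⨆ f ∈ sobBall D s p, A.err f ω)

lemma minErr_antitone (hp : IsProbabilityMeasure (unif D)) (c : Crit) :
    Antitone (minErr D s p q c) :=
  antitone_nat_of_succ_le fun n => minErr_succ_le hp c n

lemma unif_isProb (h0 : volume D ≠ 0) (h1 : volume D ≠ ∞) : IsProbabilityMeasure (unif D) := by
  constructor
  unfold unif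
  rw [Measure.smul_apply, Measure.restrict_apply_univ, smul_eq_mul, ENNReal.inv_mul_cancel h0 h1]

end Pool.Agent.Helper579.Iid
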