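import Mathlib
import Pool.Agent.Helper579.IidBall
import Pool.Agent.Helper579.IidLower

set_option autoImplicit false

namespace Pool.Agent.Helper579.Iid

open MeasureTheory Set Filter
open scoped ENNReal Topology

/-- index of the grid cell containing a point -/
noncomputable def cellIdx (N : ℕ) (x : Fin 2 → ℝ) : ℤ × ℤ := (⌊x 0 * N⌋, ⌊x 1 * N⌋)

/-- lower left corner of a grid cell -/
noncomputable def corner (N : ℕ) (c : ℤ × ℤ) : Fin 2 → ℝ := ![c.1 / N, c.2 / N]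

/-- open grid cell -/
noncomputable def cbox (N : ℕ) (c : ℤ × ℤ) : Set (Fin 2 → ℝ) := Box (corner N c) (1 / N)

/-- chain of cells -/
def chain (N : ℕ) (c : ℤ × ℤ) (t : ℕ) : ℤ × ℤ :=
  if 2 * c.1 < N then (c.1 + t, c.2) else (c.1 - t, c.2)

/-- valid cells -/
noncomputable def cells (N : ℕ) (l : ℤ → ℤ) : Finset (ℤ × ℤ) :=
  ((Finset.Ico (-(N : ℤ)) N) ×ˢ (Finset.Ico 0 (N : ℤ))).filter fun c => - l c.2 ≤ c.1

lemma mem_cells {N : ℕ} {l : ℤ → ℤ} {c : ℤ × ℤ} : c ∈ cells N l ↔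
    (-(N : ℤ) ≤ c.1 ∧ c.1 < N) ∧ (0 ≤ c.2 ∧ c.2 < N) ∧ -l c.2 ≤ c.1 := by
  unfold cells
  rw [Finset.mem_filter, Finset.mem_product, Finset.mem_Ico, Finset.mem_Ico, and_assoc]

/-- a domain that consists of rows of grid cells, up to small parts -/
structure Grid (D : Set (Fin 2 → ℝ)) (N M : ℕ) (l : ℤ → ℤ) : Prop where
  hM : 1 ≤ M
  hN : N = 2 * M
  l0 : ∀ j, 0 ≤ l j
  isOpen : IsOpen D
  row : ∀ j : ℤ, 0 ≤ j → j < N → ∀ x : Fin 2 → ℝ, -(l j : ℝ) < x 0 * N → x 0 * N < N →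
    (j : ℝ) < x 1 * N → x 1 * N < j + 1 → x ∈ D
  vol : volume D ≤ 2
  vol0 : volume D ≠ 0

lemma Grid.Npos {D : Set (Fin 2 → ℝ)} {N M : ℕ} {l : ℤ → ℤ} (G : Grid D N M l) : 0 < (N : ℝ) := by
  have h1 := G.hM
  have h2 := G.hN
  have : 0 < N := by omega
  exact_mod_cast this

lemma mem_cbox {N : ℕ} (hN : 0 < (N : ℝ)) {c : ℤ × ℤ} {x : Fin 2 → ℝ} :
    x ∈ cbox N c ↔ ((c.1 : ℝ) < x 0 * N ∧ x 0 * N < c.1 + 1) ∧
      ((c.2 : ℝ) < x 1 * N ∧ x 1 * N < c.2 + 1) := by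
  unfold cbox Box corner
  simp only [mem_ofPred_eq, Fin.forall_fin_two, Matrix.cons_val_zero, Matrix.cons_val_one]
  rw [div_lt_iff₀ hN, div_lt_iff₀ hN, ← add_div, ← add_div, lt_div_iff₀ hN, lt_div_iff₀ hN]

lemma mem_closure_cbox {N : ℕ} (hN : 0 < (N : ℝ)) {c : ℤ × ℤ} {x : Fin 2 → ℝ}
    (h1 : (c.1 : ℝ) ≤ x 0 * N) (h2 : x 0 * N ≤ c.1 + 1) (h3 : (c.2 : ℝ) ≤ x 1 * N)
    (h4 : x 1 * N ≤ c.2 + 1) : x ∈ closure (cbox N c) := by
  unfold cbox
  rw [Box_eq, closure_pi_set]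
  intro i _
  have hpos : (0 : ℝ) < 1 / N := by positivity
  show x i ∈ closure (Ioo (corner N c i) (corner N c i + 1 / ↑N))
  rw [closure_Ioo (by linarith)]
  fin_cases i
  · simp only [corner, Fin.zero_eta, Matrix.cons_val_zero, mem_Icc]
    rw [div_le_iff₀ hN, ← add_div, le_div_iff₀ hN]
    exact ⟨h1, h2⟩
  · show (c.2 : ℝ) / N ≤ x 1 ∧ x 1 ≤ c.2 / N + 1 / N
    rw [div_le_iff₀ hN, ← add_div, le_div_iff₀ hN]
    exact ⟨h3, h4⟩

lemma closure_cbox_of_cellIdx {N : ℕ} (hN : 0 < (N : ℝ)) {c : ℤ × ℤ} {x : Fin 2 → ℝ}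
    (h : cellIdx N x = c) : x ∈ closure (cbox N c) := by
  subst h
  unfold cellIdx
  apply mem_closure_cbox hN
  · exact Int.floor_le _
  · exact (Int.lt_floor_add_one _).le
  · exact Int.floor_le _
  · exact (Int.lt_floor_add_one _).le

lemma Grid.cbox_subset {D : Set (Fin 2 → ℝ)} {N M : ℕ} {l : ℤ → ℤ} (G : Grid D N M l)
    {c : ℤ × ℤ} (hc : c ∈ cells N l) : cbox N c ⊆ D := by
  intro x hx
  rw [mem_cbox G.Npos] at hx
  rw [mem_cells] at hc
  obtain ⟨⟨a1, a2⟩, ⟨a3, a4⟩, a5⟩ := hc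
  have b1 : (-(l c.2 : ℝ)) ≤ c.1 := by exact_mod_cast a5
  have b2 : (c.1 : ℝ) + 1 ≤ N := by exact_mod_cast a2
  exact G.row c.2 a3 a4 x (by linarith [hx.1.1]) (by linarith [hx.1.2]) hx.2.1 hx.2.2

lemma Grid.chain_mem {D : Set (Fin 2 → ℝ)} {N M : ℕ} {l : ℤ → ℤ} (G : Grid D N M l)
    {c : ℤ × ℤ} (hc : c ∈ cells N l) {t : ℕ} (ht : t < M) : chain N c t ∈ cells N l := by
  rw [mem_cells] at hc ⊢
  obtain ⟨⟨a1, a2⟩, ⟨a3, a4⟩, a5⟩ := hc
  have h1 := G.hM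
  have h2 := G.hN
  have h3 := G.l0 c.2
  unfold chain
  split_ifs with h
  · refine ⟨⟨?_, ?_⟩, ⟨a3, a4⟩, ?_⟩ <;> simp only <;> omega
  · refine ⟨⟨?_, ?_⟩, ⟨a3, a4⟩, ?_⟩ <;> simp only <;> omega

lemma Grid.adj {D : Set (Fin 2 → ℝ)} {N M : ℕ} {l : ℤ → ℤ} (G : Grid D N M l)
    {a b : ℤ × ℤ} (ha : a ∈ cells N l) (hb : b ∈ cells N l) (h1 : b.1 = a.1 + 1)
    (h2 : b.2 = a.2) : ∃ e ∈ D, e ∈ closure (cbox N a) ∧ e ∈ closure (cbox N b) := by
  have hN := G.Npos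
  set e : Fin 2 → ℝ := ![(a.1 + 1) / N, (a.2 + 1 / 2) / N] with he
  have e0 : e 0 * N = a.1 + 1 := by simp only [he, Matrix.cons_val_zero]; field_simp
  have e1 : e 1 * N = a.2 + 1 / 2 := by
    show (a.2 + 1 / 2 : ℝ) / N * N = _
    rw [div_mul_cancel₀ _ hN.ne']
  rw [mem_cells] at ha hb
  have c1 : (b.1 : ℝ) = a.1 + 1 := by exact_mod_cast h1
  have c2 : (b.2 : ℝ) = a.2 := by exact_mod_cast h2
  refine ⟨e, ?_, ?_, ?_⟩
  · have d1 : (-(l a.2 : ℝ)) ≤ a.1 := by exact_mod_cast ha.2.2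
    have d2 : (b.1 : ℝ) < N := by exact_mod_cast hb.1.2
    exact G.row a.2 ha.2.1.1 ha.2.1.2 e (by linarith) (by linarith) (by linarith) (by linarith)
  · apply mem_closure_cbox hN <;> linarith
  · apply mem_closure_cbox hN <;> linarith

lemma Grid.chain_adj {D : Set (Fin 2 → ℝ)} {N M : ℕ} {l : ℤ → ℤ} (G : Grid D N M l)
    {c : ℤ × ℤ} (hc : c ∈ cells N l) {t : ℕ} (ht : t + 1 < M) :
    ∃ e ∈ D, e ∈ closure (cbox N (chain N c t)) ∧ e ∈ closure (cbox N (chain N c (t + 1))) := by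
  have m1 := G.chain_mem hc (t := t) (by omega)
  have m2 := G.chain_mem hc (t := t + 1) ht
  by_cases h : 2 * c.1 < N
  · apply G.adj m1 m2
    · unfold chain; rw [if_pos h, if_pos h]; push_cast; ring
    · unfold chain; rw [if_pos h, if_pos h]
  · obtain ⟨e, he, h1, h2⟩ := G.adj m2 m1
      (by unfold chain; rw [if_neg h, if_neg h]; push_cast; ring)
      (by unfold chain; rw [if_neg h, if_neg h])
    exact ⟨e, he, h2, h1⟩

/-- local size of the gradient -/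
noncomputable def Gc (N : ℕ) (g₀ g₁ : (Fin 2 → ℝ) → ℝ) (c : ℤ × ℤ) : ℝ :=
  (max (eLpNorm g₀ 4 (volume.restrict (cbox N c))) (eLpNorm g₁ 4 (volume.restrict (cbox N c)))).toReal

/-- normalised functions -/
structure Norm1 (D : Set (Fin 2 → ℝ)) (f g₀ g₁ : (Fin 2 → ℝ) → ℝ) : Prop where
  grad : HasGrad D f g₀ g₁
  norm : eLpNorm f 4 (volume.restrict D) ^ 4
      + eLpNorm g₀ 4 (volume.restrict D) ^ 4 + eLpNorm g₁ 4 (volume.restrict D) ^ 4 ≤ 1

lemma le_one_of_pow4 {x : ℝ≥0∞} (h : x ^ 4 ≤ 1) : x ≤ 1 := by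
  by_contra hcon
  push Not at hcon
  have : 1 < x ^ 4 := one_lt_pow₀ hcon (by norm_num)
  exact absurd h (not_le.mpr this)

lemma Norm1.n0 {D : Set (Fin 2 → ℝ)} {f g₀ g₁ : (Fin 2 → ℝ) → ℝ} (H : Norm1 D f g₀ g₁) :
    eLpNorm f 4 (volume.restrict D) ≤ 1 ∧ eLpNorm g₀ 4 (volume.restrict D) ≤ 1 ∧
      eLpNorm g₁ 4 (volume.restrict D) ≤ 1 := by
  have h := H.norm
  refine ⟨le_one_of_pow4 (le_trans ?_ h), le_one_of_pow4 (le_trans ?_ h),
    le_one_of_pow4 (le_trans ?_ h)⟩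
  · rw [add_assoc]; exact le_self_add
  · rw [add_assoc, add_comm, add_assoc]; exact le_self_add
  · exact le_add_self

lemma Gc_props {D : Set (Fin 2 → ℝ)} {N M : ℕ} {l : ℤ → ℤ} (G : Grid D N M l)
    {f g₀ g₁ : (Fin 2 → ℝ) → ℝ} (H : Norm1 D f g₀ g₁) {c : ℤ × ℤ} (hc : c ∈ cells N l) :
    0 ≤ Gc N g₀ g₁ c ∧ Gc N g₀ g₁ c ≤ 1 ∧
      eLpNorm g₀ 4 (volume.restrict (cbox N c)) ≤ ENNReal.ofReal (Gc N g₀ g₁ c) ∧
      eLpNorm g₁ 4 (volume.restrict (cbox N c)) ≤ ENNReal.ofReal (Gc N g₀ g₁ c) := by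
  obtain ⟨_, h0, h1⟩ := H.n0
  have hsub := G.cbox_subset hc
  have b0 : eLpNorm g₀ 4 (volume.restrict (cbox N c)) ≤ 1 :=
    (eLpNorm_mono_measure _ (Measure.restrict_mono hsub le_rfl)).trans h0
  have b1 : eLpNorm g₁ 4 (volume.restrict (cbox N c)) ≤ 1 :=
    (eLpNorm_mono_measure _ (Measure.restrict_mono hsub le_rfl)).trans h1
  have b2 : max (eLpNorm g₀ 4 (volume.restrict (cbox N c)))
      (eLpNorm g₁ 4 (volume.restrict (cbox N c))) ≤ 1 := max_le b0 b1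
  have hne : max (eLpNorm g₀ 4 (volume.restrict (cbox N c)))
      (eLpNorm g₁ 4 (volume.restrict (cbox N c))) ≠ ∞ := (lt_of_le_of_lt b2 ENNReal.one_lt_top).ne
  unfold Gc
  refine ⟨ENNReal.toReal_nonneg, ?_, ?_, ?_⟩
  · exact ENNReal.toReal_le_of_le_ofReal zero_le_one (by simpa using b2)
  · rw [ENNReal.ofReal_toReal hne]; exact le_max_left _ _
  · rw [ENNReal.ofReal_toReal hne]; exact le_max_right _ _

/-- scale factor of the oscillation bound -/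
noncomputable def kap (N : ℕ) : ℝ := 24 * KB * Real.sqrt (1 / N)

lemma osc {D : Set (Fin 2 → ℝ)} {N M : ℕ} {l : ℤ → ℤ} (G : Grid D N M l)
    {f g₀ g₁ : (Fin 2 → ℝ) → ℝ} (H : Norm1 D f g₀ g₁) {c : ℤ × ℤ} (hc : c ∈ cells N l)
    {z w : Fin 2 → ℝ} (hz : z ∈ closure (cbox N c)) (hzD : z ∈ D) (hw : w ∈ closure (cbox N c))
    (hwD : w ∈ D) : |f z - f w| ≤ kap N * Gc N g₀ g₁ c := by
  obtain ⟨h0, _, h1, h2⟩ := Gc_props G H hc
  have hN := G.Npos
  exact morrey_closure G.isOpen H.grad (by positivity) (G.cbox_subset hc) h0 h1 h2 ⟨hz, hzD⟩ ⟨hw, hwD⟩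

lemma chain_est {D : Set (Fin 2 → ℝ)} {N M : ℕ} {l : ℤ → ℤ} (G : Grid D N M l)
    {f g₀ g₁ : (Fin 2 → ℝ) → ℝ} (H : Norm1 D f g₀ g₁) {c : ℤ × ℤ} (hc : c ∈ cells N l)
    {z : Fin 2 → ℝ} (hz : z ∈ closure (cbox N c)) (hzD : z ∈ D) (t : ℕ) (ht : t < M)
    {w : Fin 2 → ℝ} (hw : w ∈ closure (cbox N (chain N c t))) (hwD : w ∈ D) :
    |f z - f w| ≤ ∑ t' ∈ Finset.range (t + 1), kap N * Gc N g₀ g₁ (chain N c t') := by
  induction t generalizing w with
  | zero =>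
    have hc0 : chain N c 0 = c := by
      unfold chain; split_ifs <;> simp
    rw [hc0] at hw
    simp only [zero_add, Finset.range_one, Finset.sum_singleton, hc0]
    exact osc G H hc hz hzD hw hwD
  | succ t ih =>
    obtain ⟨e, heD, he1, he2⟩ := G.chain_adj hc ht
    have h1 := ih (by omega) he1 heD
    have h2 := osc G H (G.chain_mem hc ht) he2 heD hw hwD
    rw [Finset.sum_range_succ]
    have h3 := abs_sub_le (f z) (f e) (f w)
    linarith

lemma abs_le_cell {D : Set (Fin 2 → ℝ)} {N M : ℕ} {l : ℤ → ℤ} (G : Grid D N M l)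
    {f g₀ g₁ : (Fin 2 → ℝ) → ℝ} (H : Norm1 D f g₀ g₁) {c : ℤ × ℤ} (hc : c ∈ cells N l)
    {z : Fin 2 → ℝ} (hz : z ∈ closure (cbox N c)) (hzD : z ∈ D) :
    |f z| ≤ kap N + 2 * Real.sqrt N := by
  have hN := G.Npos
  obtain ⟨h0, h1, _, _⟩ := Gc_props G H hc
  have hw : ∃ w ∈ cbox N c, |f w| ≤ 2 * Real.sqrt N := by
    by_contra hcon
    push Not at hcon
    have hvol : volume (cbox N c) = ENNReal.ofReal ((1 / N) ^ 2) := volume_Box _ (by positivity)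
    have e1 : eLpNorm (fun _ : Fin 2 → ℝ => 2 * Real.sqrt N) 4 (volume.restrict (cbox N c)) = 2 := by
      rw [eLpNorm_const' _ (by norm_num) (by norm_num), Measure.restrict_apply_univ, hvol]
      have e2 : (1 / (4 : ℝ≥0∞).toReal) = 1 / 4 := by norm_num
      rw [e2, ENNReal.ofReal_rpow_of_pos (by positivity), Real.enorm_eq_ofReal (by positivity),
        ← ENNReal.ofReal_mul (by positivity)]
      have e3 : 2 * Real.sqrt N * (((1 : ℝ) / N) ^ 2) ^ (1 / 4 : ℝ) = 2 := by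
        rw [← Real.rpow_natCast (1 / (N : ℝ)) 2, ← Real.rpow_mul (by positivity)]
        have e4 : ((2 : ℕ) : ℝ) * (1 / 4) = 1 / 2 := by norm_num
        rw [e4, ← Real.sqrt_eq_rpow, mul_assoc, ← Real.sqrt_mul hN.le]
        rw [mul_one_div, div_self hN.ne', Real.sqrt_one, mul_one]
      rw [e3]; norm_num
    have e2 : eLpNorm (fun _ : Fin 2 → ℝ => 2 * Real.sqrt N) 4 (volume.restrict (cbox N c))
        ≤ eLpNorm f 4 (volume.restrict (cbox N c)) := by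
      apply eLpNorm_mono_ae
      filter_upwards [ae_restrict_mem (measurableSet_Box _ _)] with x hx
      rw [Real.norm_eq_abs, Real.norm_eq_abs, abs_of_nonneg (by positivity)]
      exact (hcon x hx).le
    have e3 := (eLpNorm_mono_measure f (p := 4)
      (Measure.restrict_mono (G.cbox_subset hc) le_rfl)).trans (H.n0).1
    rw [e1] at e2
    have := e2.trans e3
    norm_num at this
  obtain ⟨w, hwc, hwf⟩ := hw
  have h2 := osc G H hc hz hzD (subset_closure hwc) (G.cbox_subset hc hwc)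
  have hk : 0 ≤ kap N := by
    unfold kap
    have := one_le_KB
    positivity
  have h3 : kap N * Gc N g₀ g₁ c ≤ kap N := mul_le_of_le_one_right hk h1
  have h4 : |f z| ≤ |f z - f w| + |f w| := by
    have := abs_add_le (f z - f w) (f w)
    simpa using this
  linarith

/-- points outside the first `t` cells of the chain -/
def Sc (N : ℕ) (c : ℤ × ℤ) (t : ℕ) : Set (Fin 2 → ℝ) := {x | ∀ t' < t, cellIdx N x ≠ chain N c t'}

open Classical in
/-- value used by the algorithm in the cell `c` -/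
noncomputable def Vv (N M : ℕ) {n : ℕ} (X : Fin n → Fin 2 → ℝ) (v : Fin n → ℝ) (c : ℤ × ℤ) : ℝ :=
  if h : ∃ t, t < M ∧ ∃ m, cellIdx N (X m) = chain N c t then
    v (Classical.choose (Nat.find_spec h).2) else 0

open Classical in
/-- indicator of the event that the first `t` cells of the chain are empty -/
noncomputable def ind (N : ℕ) {n : ℕ} (X : Fin n → Fin 2 → ℝ) (c : ℤ × ℤ) (t : ℕ) : ℝ :=
  if ∀ m, X m ∈ Sc N c t then 1 else 0

lemma ind_nonneg (N : ℕ) {n : ℕ} (X : Fin n → Fin 2 → ℝ) (c : ℤ × ℤ) (t : ℕ) :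
    0 ≤ ind N X c t := by
  unfold ind; split_ifs <;> norm_num

lemma ind_pow (N : ℕ) {n : ℕ} (X : Fin n → Fin 2 → ℝ) (c : ℤ × ℤ) (t : ℕ) :
    ind N X c t ^ 4 = ind N X c t := by
  unfold ind; split_ifs <;> norm_num

/-- bound for the terms of the error -/
noncomputable def bct (N M : ℕ) (g₀ g₁ : (Fin 2 → ℝ) → ℝ) (c : ℤ × ℤ) (t : ℕ) : ℝ :=
  if t < M then kap N * Gc N g₀ g₁ (chain N c t) else kap N + 2 * Real.sqrt N

lemma Gc_nonneg (N : ℕ) (g₀ g₁ : (Fin 2 → ℝ) → ℝ) (c : ℤ × ℤ) : 0 ≤ Gc N g₀ g₁ c :=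
  ENNReal.toReal_nonneg

lemma kap_nonneg (N : ℕ) : 0 ≤ kap N := by
  unfold kap
  have := one_le_KB
  positivity

lemma bct_nonneg (N M : ℕ) (g₀ g₁ : (Fin 2 → ℝ) → ℝ) (c : ℤ × ℤ) (t : ℕ) :
    0 ≤ bct N M g₀ g₁ c t := by
  unfold bct
  split_ifs
  · exact mul_nonneg (kap_nonneg N) (Gc_nonneg _ _ _ _)
  · have := kap_nonneg N
    positivity

lemma Vv_err {D : Set (Fin 2 → ℝ)} {N M : ℕ} {l : ℤ → ℤ} (G : Grid D N M l)
    {f g₀ g₁ : (Fin 2 → ℝ) → ℝ} (H : Norm1 D f g₀ g₁) {c : ℤ × ℤ} (hc : c ∈ cells N l)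
    {z : Fin 2 → ℝ} (hz : z ∈ closure (cbox N c)) (hzD : z ∈ D) {n : ℕ} (X : Fin n → Fin 2 → ℝ)
    (hX : ∀ m, X m ∈ D) :
    |f z - Vv N M X (fun m => f (X m)) c|
      ≤ ∑ t ∈ Finset.range (M + 1), ind N X c t * bct N M g₀ g₁ c t := by
  classical
  have hN := G.Npos
  have hnn : ∀ t, 0 ≤ ind N X c t * bct N M g₀ g₁ c t := fun t =>
    mul_nonneg (ind_nonneg _ _ _ _) (bct_nonneg _ _ _ _ _ _)
  by_cases h : ∃ t, t < M ∧ ∃ m, cellIdx N (X m) = chain N c t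
  · set T := Nat.find h with hT
    have hTM : T < M := (Nat.find_spec h).1
    set m := Classical.choose (Nat.find_spec h).2 with hm
    have hmc : cellIdx N (X m) = chain N c T := Classical.choose_spec (Nat.find_spec h).2
    have hV : Vv N M X (fun m => f (X m)) c = f (X m) := by
      unfold Vv
      rw [dif_pos h]
    rw [hV]
    have h1 := chain_est G H hc hz hzD T hTM (closure_cbox_of_cellIdx hN hmc) (hX m)
    refine h1.trans ?_
    have h2 : ∀ t ∈ Finset.range (T + 1), kap N * Gc N g₀ g₁ (chain N c t)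
        ≤ ind N X c t * bct N M g₀ g₁ c t := by
      intro t ht
      rw [Finset.mem_range] at ht
      have e1 : ind N X c t = 1 := by
        unfold ind
        rw [if_pos]
        intro m' t' ht' hcon
        have := Nat.find_min h (m := t') (by omega)
        exact this ⟨by omega, m', hcon⟩
      have e2 : bct N M g₀ g₁ c t = kap N * Gc N g₀ g₁ (chain N c t) := by
        unfold bct
        rw [if_pos (by omega)]
      rw [e1, e2, one_mul]
    refine (Finset.sum_le_sum h2).trans ?_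
    apply Finset.sum_le_sum_of_subset_of_nonneg
    · intro t ht
      rw [Finset.mem_range] at ht ⊢
      omega
    · intro t _ _
      exact hnn t
  · have hV : Vv N M X (fun m => f (X m)) c = 0 := by
      unfold Vv
      rw [dif_neg h]
    rw [hV, sub_zero]
    have h1 := abs_le_cell G H hc hz hzD
    have e1 : ind N X c M = 1 := by
      unfold ind
      rw [if_pos]
      intro m' t' ht' hcon
      exact h ⟨t', ht', m', hcon⟩
    have e2 : bct N M g₀ g₁ c M = kap N + 2 * Real.sqrt N := by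
      unfold bct
      rw [if_neg (by omega)]
    have h2 : ind N X c M * bct N M g₀ g₁ c M = kap N + 2 * Real.sqrt N := by rw [e1, e2, one_mul]
    refine h1.trans ?_
    rw [← h2]
    exact Finset.single_le_sum (f := fun t => ind N X c t * bct N M g₀ g₁ c t)
      (fun t _ => hnn t) (Finset.self_mem_range_succ M)

/-- weighted power inequality -/
lemma pow4_sum_le (a : ℕ → ℝ) (n : ℕ) :
    (∑ t ∈ Finset.range n, a t) ^ 4
      ≤ 8000 * ∑ t ∈ Finset.range n, ((20 / 19 : ℝ) ^ 3) ^ t * a t ^ 4 := by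
  set μ : ℕ → ℝ := fun t => (1 / 20) * (19 / 20) ^ t with hμ
  have hμ0 : ∀ t, 0 < μ t := fun t => by rw [hμ]; positivity
  have hμ1 : ∑ t ∈ Finset.range n, μ t ≤ 1 := by
    have h1 : ∀ n : ℕ, ∑ t ∈ Finset.range n, μ t = 1 - (19 / 20) ^ n := by
      intro n
      induction n with
      | zero => simp
      | succ n ih =>
        rw [Finset.sum_range_succ, ih]
        simp only [hμ]
        rw [pow_succ]; ring
    rw [h1]
    have : (0 : ℝ) < (19 / 20) ^ n := by positivity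
    linarith
  have s1 := Finset.sum_sq_le_sum_mul_sum_of_sq_le_mul (Finset.range n) (r := a) (f := μ)
    (g := fun t => a t ^ 2 / μ t) (fun t _ => (hμ0 t).le)
    (fun t _ => div_nonneg (sq_nonneg _) (hμ0 t).le)
    (fun t _ => by rw [mul_div_cancel₀ _ (hμ0 t).ne'])
  have s2 := Finset.sum_sq_le_sum_mul_sum_of_sq_le_mul (Finset.range n)
    (r := fun t => a t ^ 2 / μ t) (f := μ)
    (g := fun t => a t ^ 4 / μ t ^ 3) (fun t _ => (hμ0 t).le)
    (fun t _ => div_nonneg (by positivity) (pow_nonneg (hμ0 t).le 3))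
    (fun t _ => le_of_eq (by have := (hμ0 t).ne'; field_simp))
  have n1 : 0 ≤ ∑ t ∈ Finset.range n, a t ^ 2 / μ t :=
    Finset.sum_nonneg fun t _ => div_nonneg (sq_nonneg _) (hμ0 t).le
  have n2 : 0 ≤ ∑ t ∈ Finset.range n, a t ^ 4 / μ t ^ 3 :=
    Finset.sum_nonneg fun t _ => div_nonneg (by positivity) (pow_nonneg (hμ0 t).le 3)
  have s3 : (∑ t ∈ Finset.range n, a t) ^ 2 ≤ ∑ t ∈ Finset.range n, a t ^ 2 / μ t :=
    s1.trans (mul_le_of_le_one_left n1 hμ1)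
  have s4 : (∑ t ∈ Finset.range n, a t ^ 2 / μ t) ^ 2 ≤ ∑ t ∈ Finset.range n, a t ^ 4 / μ t ^ 3 :=
    s2.trans (mul_le_of_le_one_left n2 hμ1)
  have s5 : (∑ t ∈ Finset.range n, a t) ^ 4 ≤ ∑ t ∈ Finset.range n, a t ^ 4 / μ t ^ 3 := by
    calc (∑ t ∈ Finset.range n, a t) ^ 4 = ((∑ t ∈ Finset.range n, a t) ^ 2) ^ 2 := by ring
      _ ≤ (∑ t ∈ Finset.range n, a t ^ 2 / μ t) ^ 2 := by
          apply pow_le_pow_left₀ (sq_nonneg _) s3
      _ ≤ _ := s4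
  refine s5.trans (le_of_eq ?_)
  rw [Finset.mul_sum]
  refine Finset.sum_congr rfl fun t _ => ?_
  simp only [hμ]
  rw [mul_pow, ← pow_mul, mul_comm t 3, pow_mul]
  rw [div_eq_mul_inv, mul_inv, ← inv_pow, ← inv_pow, ← inv_pow]
  norm_num
  ring

end Pool.Agent.Helper579.Iid
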