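import Mathlib
import Pool.Agent.Helper579.IidGrid

set_option autoImplicit false

namespace Pool.Agent.Helper579.Iid

open MeasureTheory Set Filter
open scoped ENNReal Topology

lemma measurable_cellIdx (N : ℕ) : Measurable (cellIdx N) := by
  unfold cellIdx
  exact (Int.measurable_floor.comp ((measurable_pi_apply 0).mul_const _)).prodMk
    (Int.measurable_floor.comp ((measurable_pi_apply 1).mul_const _))

lemma measurableSet_Sc (N : ℕ) (c : ℤ × ℤ) (t : ℕ) : MeasurableSet (Sc N c t) := by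
  have : Sc N c t = cellIdx N ⁻¹' {y | ∀ t' < t, y ≠ chain N c t'} := rfl
  rw [this]
  exact measurable_cellIdx N (MeasurableSet.of_discrete)

/-- rectangle in a row -/
noncomputable def rect (N : ℕ) (a j : ℤ) (t : ℕ) : Set (Fin 2 → ℝ) :=
  Set.univ.pi fun i => Set.Ioo ((![(a : ℝ) / N, (j : ℝ) / N] : Fin 2 → ℝ) i)
    ((![((a : ℝ) + t) / N, ((j : ℝ) + 1) / N] : Fin 2 → ℝ) i)

lemma mem_rect {N : ℕ} (hN : 0 < (N : ℝ)) {a j : ℤ} {t : ℕ} {x : Fin 2 → ℝ} :
    x ∈ rect N a j t ↔ ((a : ℝ) < x 0 * N ∧ x 0 * N < a + t) ∧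
      ((j : ℝ) < x 1 * N ∧ x 1 * N < j + 1) := by
  unfold rect
  simp only [Set.mem_pi, mem_univ, forall_true_left, Fin.forall_fin_two, Matrix.cons_val_zero,
    Matrix.cons_val_one, mem_Ioo]
  rw [div_lt_iff₀ hN, div_lt_iff₀ hN, lt_div_iff₀ hN, lt_div_iff₀ hN]

lemma volume_rect {N : ℕ} (hN : 0 < (N : ℝ)) (a j : ℤ) (t : ℕ) :
    volume (rect N a j t) = ENNReal.ofReal (t / (N : ℝ) ^ 2) := by
  unfold rect
  rw [Real.volume_pi_Ioo]
  simp only [Fin.prod_univ_two, Matrix.cons_val_zero, Matrix.cons_val_one]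
  rw [← ENNReal.ofReal_mul (by
    rw [← sub_div]
    apply div_nonneg _ hN.le
    simp)]
  congr 1
  field_simp
  ring

lemma unif_Sc_le {D : Set (Fin 2 → ℝ)} {N M : ℕ} {l : ℤ → ℤ} (G : Grid D N M l)
    (hp : IsProbabilityMeasure (unif D)) {c : ℤ × ℤ} (hc : c ∈ cells N l) {t : ℕ} (ht : t ≤ M) :
    unif D (Sc N c t) ≤ ENNReal.ofReal (1 - t / (2 * (N : ℝ) ^ 2)) := by
  have hN := G.Npos
  have hMN := G.hN
  rw [mem_cells] at hc
  obtain ⟨⟨a1, a2⟩, ⟨a3, a4⟩, a5⟩ := hc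
  have h0 := G.l0 c.2
  set a : ℤ := if 2 * c.1 < N then c.1 else c.1 - t + 1 with ha
  have hal : -l c.2 ≤ a := by rw [ha]; split_ifs <;> omega
  have haN : a + t ≤ N := by rw [ha]; split_ifs <;> omega
  have hsubD : rect N a c.2 t ⊆ D := by
    intro x hx
    rw [mem_rect hN] at hx
    have b1 : (-(l c.2 : ℝ)) ≤ a := by exact_mod_cast hal
    have b2 : (a : ℝ) + t ≤ N := by exact_mod_cast haN
    exact G.row c.2 a3 a4 x (by linarith [hx.1.1]) (by linarith [hx.1.2]) hx.2.1 hx.2.2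
  have hsub : rect N a c.2 t ⊆ (Sc N c t)ᶜ := by
    intro x hx hcon
    rw [mem_rect hN] at hx
    have f1 : ⌊x 1 * N⌋ = c.2 := by
      rw [Int.floor_eq_iff]; exact ⟨hx.2.1.le, hx.2.2⟩
    have f2 : a ≤ ⌊x 0 * N⌋ := by rw [Int.le_floor]; exact hx.1.1.le
    have f3 : ⌊x 0 * N⌋ < a + t := by
      rw [Int.floor_lt]; push_cast; exact hx.1.2
    by_cases h : 2 * c.1 < N
    · have ha' : a = c.1 := by rw [ha, if_pos h]
      refine hcon (⌊x 0 * N⌋ - c.1).toNat (by omega) ?_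
      unfold cellIdx chain
      rw [if_pos h, f1]
      congr 1
      omega
    · have ha' : a = c.1 - t + 1 := by rw [ha, if_neg h]
      refine hcon (c.1 - ⌊x 0 * N⌋).toNat (by omega) ?_
      unfold cellIdx chain
      rw [if_neg h, f1]
      congr 1
      omega
  have hvD : volume D ≠ ∞ := (lt_of_le_of_lt G.vol (by norm_num)).ne
  have hlow : ENNReal.ofReal (t / (2 * (N : ℝ) ^ 2)) ≤ unif D (Sc N c t)ᶜ := by
    have hrm : MeasurableSet (rect N a c.2 t) := by
      unfold rect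
      exact MeasurableSet.univ_pi fun _ => measurableSet_Ioo
    calc ENNReal.ofReal (t / (2 * (N : ℝ) ^ 2))
        = 2⁻¹ * volume (rect N a c.2 t) := by
          rw [volume_rect hN]
          have : (2 : ℝ≥0∞)⁻¹ = ENNReal.ofReal (1 / 2) := by
            rw [one_div, ENNReal.ofReal_inv_of_pos (by norm_num)]; norm_num
          rw [this, ← ENNReal.ofReal_mul (by norm_num)]
          congr 1
          field_simp
      _ ≤ (volume D)⁻¹ * volume (rect N a c.2 t) := by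
          gcongr
          exact G.vol
      _ = unif D (rect N a c.2 t) := by
          unfold unif
          rw [Measure.smul_apply, Measure.restrict_apply hrm, inter_eq_left.mpr hsubD, smul_eq_mul]
      _ ≤ unif D (Sc N c t)ᶜ := measure_mono hsub
  have h1 : unif D (Sc N c t) = 1 - unif D (Sc N c t)ᶜ := by
    rw [← compl_compl (Sc N c t), prob_compl_eq_one_sub (measurableSet_Sc N c t).compl,
      compl_compl]
  rw [h1]
  refine (tsub_le_tsub_left hlow _).trans ?_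
  rw [← ENNReal.ofReal_one, ← ENNReal.ofReal_sub _ (by positivity)]

/-- probability that the first `t` cells of a chain are empty -/
lemma prob_empty {D : Set (Fin 2 → ℝ)} {N M : ℕ} {l : ℤ → ℤ} (G : Grid D N M l)
    (hp : IsProbabilityMeasure (unif D)) {c : ℤ × ℤ} (hc : c ∈ cells N l) {t : ℕ} (ht : t ≤ M) :
    (Measure.pi fun _ : Fin (N ^ 2) => unif D) (Set.univ.pi fun _ => Sc N c t)
      ≤ ENNReal.ofReal ((16 / 25) ^ t) := by
  have hN := G.Npos
  rw [Measure.pi_pi, Finset.prod_const, Finset.card_univ, Fintype.card_fin]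
  refine (pow_le_pow_left' (unif_Sc_le G hp hc ht) _).trans ?_
  have h0 : 0 ≤ 1 - t / (2 * (N : ℝ) ^ 2) := by
    rw [sub_nonneg, div_le_one (by positivity)]
    have h1 : (t : ℝ) ≤ M := by exact_mod_cast ht
    have h2 : (N : ℝ) = 2 * M := by exact_mod_cast G.hN
    have h3 : (1 : ℝ) ≤ M := by exact_mod_cast G.hM
    rw [h2]
    nlinarith
  rw [← ENNReal.ofReal_pow h0]
  apply ENNReal.ofReal_le_ofReal
  have h1 : 1 - t / (2 * (N : ℝ) ^ 2) ≤ Real.exp (-(t / (2 * (N : ℝ) ^ 2))) := by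
    have := Real.add_one_le_exp (-(t / (2 * (N : ℝ) ^ 2)))
    linarith
  calc (1 - t / (2 * (N : ℝ) ^ 2)) ^ (N ^ 2) ≤ Real.exp (-(t / (2 * (N : ℝ) ^ 2))) ^ (N ^ 2) :=
        pow_le_pow_left₀ h0 h1 _
    _ = Real.exp (-(1 / 2)) ^ t := by
        rw [← Real.exp_nat_mul, ← Real.exp_nat_mul]
        congr 1
        push_cast
        field_simp
    _ ≤ (16 / 25) ^ t := by
        apply pow_le_pow_left₀ (Real.exp_pos _).le
        have h2 : (5 / 4 : ℝ) ≤ Real.exp (1 / 4) := by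
          have := Real.add_one_le_exp (1 / 4 : ℝ)
          linarith
        have h3 : (25 / 16 : ℝ) ≤ Real.exp (1 / 2) := by
          have : Real.exp (1 / 2) = Real.exp (1 / 4) * Real.exp (1 / 4) := by
            rw [← Real.exp_add]; norm_num
          rw [this]
          nlinarith
        rw [Real.exp_neg]
        have h4 : (Real.exp (1 / 2))⁻¹ ≤ (25 / 16 : ℝ)⁻¹ := inv_anti₀ (by norm_num) h3
        refine h4.trans (by norm_num)

/-- sum of the local gradients -/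
lemma sum_Gc {D : Set (Fin 2 → ℝ)} {N M : ℕ} {l : ℤ → ℤ} (G : Grid D N M l)
    {f g₀ g₁ : (Fin 2 → ℝ) → ℝ} (H : Norm1 D f g₀ g₁) :
    ∑ c ∈ cells N l, Gc N g₀ g₁ c ^ 4 ≤ 1 := by
  have hN := G.Npos
  have hpow : ∀ (g : (Fin 2 → ℝ) → ℝ) (μ : Measure (Fin 2 → ℝ)),
      eLpNorm g 4 μ ^ 4 = ∫⁻ x, ‖g x‖ₑ ^ 4 ∂μ := by
    intro g μ
    rw [eLpNorm_eq_lintegral_rpow_enorm_toReal (by norm_num) (by norm_num)]
    have h4 : (4 : ℝ≥0∞).toReal = ((4 : ℕ) : ℝ) := by norm_num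
    rw [h4, ← ENNReal.rpow_natCast, ← ENNReal.rpow_mul]
    norm_num
  have hdisj : Set.PairwiseDisjoint (↑(cells N l)) (cbox N) := by
    intro a _ b _ hab
    rw [Function.onFun, Set.disjoint_left]
    intro x hxa hxb
    rw [mem_cbox hN] at hxa hxb
    apply hab
    have e1 : ⌊x 0 * N⌋ = a.1 := by rw [Int.floor_eq_iff]; exact ⟨hxa.1.1.le, hxa.1.2⟩
    have e2 : ⌊x 0 * N⌋ = b.1 := by rw [Int.floor_eq_iff]; exact ⟨hxb.1.1.le, hxb.1.2⟩
    have e3 : ⌊x 1 * N⌋ = a.2 := by rw [Int.floor_eq_iff]; exact ⟨hxa.2.1.le, hxa.2.2⟩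
    have e4 : ⌊x 1 * N⌋ = b.2 := by rw [Int.floor_eq_iff]; exact ⟨hxb.2.1.le, hxb.2.2⟩
    exact Prod.ext (e1.symm.trans e2) (e3.symm.trans e4)
  have hsum : ∀ g : (Fin 2 → ℝ) → ℝ,
      ∑ c ∈ cells N l, eLpNorm g 4 (volume.restrict (cbox N c)) ^ 4
        ≤ eLpNorm g 4 (volume.restrict D) ^ 4 := by
    intro g
    simp only [hpow]
    rw [← lintegral_biUnion_finset hdisj (fun c _ => measurableSet_Box _ _)]
    apply lintegral_mono_set
    exact Set.iUnion₂_subset fun c hc => G.cbox_subset hc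
  have hE : ∑ c ∈ cells N l, ENNReal.ofReal (Gc N g₀ g₁ c ^ 4) ≤ 1 := by
    calc ∑ c ∈ cells N l, ENNReal.ofReal (Gc N g₀ g₁ c ^ 4)
        ≤ ∑ c ∈ cells N l, (eLpNorm g₀ 4 (volume.restrict (cbox N c)) ^ 4
          + eLpNorm g₁ 4 (volume.restrict (cbox N c)) ^ 4) := by
          apply Finset.sum_le_sum
          intro c _
          unfold Gc
          rw [ENNReal.ofReal_pow ENNReal.toReal_nonneg]
          refine (pow_le_pow_left' ENNReal.ofReal_toReal_le 4).trans ?_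
          rcases le_total (eLpNorm g₀ 4 (volume.restrict (cbox N c)))
            (eLpNorm g₁ 4 (volume.restrict (cbox N c))) with h | h
          · rw [max_eq_right h]; exact le_add_self
          · rw [max_eq_left h]; exact le_self_add
      _ = (∑ c ∈ cells N l, eLpNorm g₀ 4 (volume.restrict (cbox N c)) ^ 4)
          + ∑ c ∈ cells N l, eLpNorm g₁ 4 (volume.restrict (cbox N c)) ^ 4 :=
          Finset.sum_add_distrib
      _ ≤ eLpNorm g₀ 4 (volume.restrict D) ^ 4 + eLpNorm g₁ 4 (volume.restrict D) ^ 4 :=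
          add_le_add (hsum g₀) (hsum g₁)
      _ ≤ 1 := by
          refine le_trans ?_ H.norm
          rw [add_assoc]; exact le_add_self
  rw [← ENNReal.ofReal_sum_of_nonneg (fun c _ => pow_nonneg (Gc_nonneg _ _ _ _) 4)] at hE
  rw [← ENNReal.ofReal_one] at hE
  exact (ENNReal.ofReal_le_ofReal_iff zero_le_one).mp hE

lemma sum_Gc_chain {D : Set (Fin 2 → ℝ)} {N M : ℕ} {l : ℤ → ℤ} (G : Grid D N M l)
    {f g₀ g₁ : (Fin 2 → ℝ) → ℝ} (H : Norm1 D f g₀ g₁) {t : ℕ} (ht : t < M) :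
    ∑ c ∈ cells N l, Gc N g₀ g₁ (chain N c t) ^ 4 ≤ 2 := by
  classical
  rw [← Finset.sum_filter_add_sum_filter_not (cells N l) (fun c => 2 * c.1 < N)]
  have h1 := sum_Gc G H
  have hnn : ∀ c, 0 ≤ Gc N g₀ g₁ c ^ 4 := fun c => pow_nonneg (Gc_nonneg _ _ _ _) 4
  have key : ∀ s : Finset (ℤ × ℤ), s ⊆ cells N l → Set.InjOn (fun c => chain N c t) ↑s →
      ∑ c ∈ s, Gc N g₀ g₁ (chain N c t) ^ 4 ≤ 1 := by
    intro s hs hinj
    rw [← Finset.sum_image (f := fun c => Gc N g₀ g₁ c ^ 4) hinj]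
    refine le_trans ?_ h1
    apply Finset.sum_le_sum_of_subset_of_nonneg
    · intro c hc
      rw [Finset.mem_image] at hc
      obtain ⟨c', hc', rfl⟩ := hc
      exact G.chain_mem (hs hc') ht
    · intro c _ _; exact hnn c
  have k1 := key ((cells N l).filter fun c => 2 * c.1 < N) (Finset.filter_subset _ _) (by
    intro a ha b hb hab
    rw [Finset.mem_coe, Finset.mem_filter] at ha hb
    simp only [chain, if_pos ha.2, if_pos hb.2, Prod.mk.injEq, add_left_inj] at hab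
    exact Prod.ext hab.1 hab.2)
  have k2 := key ((cells N l).filter fun c => ¬ 2 * c.1 < N) (Finset.filter_subset _ _) (by
    intro a ha b hb hab
    rw [Finset.mem_coe, Finset.mem_filter] at ha hb
    simp only [chain, if_neg ha.2, if_neg hb.2, Prod.mk.injEq, sub_left_inj] at hab
    exact Prod.ext hab.1 hab.2)
  linarith

end Pool.Agent.Helper579.Iid
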