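import Mathlib
import Pool.Agent.Helper579.IidProb

set_option autoImplicit false

namespace Pool.Agent.Helper579.Iid

open MeasureTheory Set Filter
open scoped ENNReal Topology

/-- clamped cell index -/
noncomputable def cidx (N : ℕ) (l : ℤ → ℤ) (x : Fin 2 → ℝ) : ℤ × ℤ :=
  (max (cellIdx N x).1 (-l (cellIdx N x).2), (cellIdx N x).2)

lemma abs_Vv_le (N M : ℕ) {n : ℕ} (X : Fin n → Fin 2 → ℝ) (v : Fin n → ℝ) (c : ℤ × ℤ) :
    |Vv N M X v c| ≤ ∑ m, |v m| := by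
  unfold Vv
  split_ifs with h
  · exact Finset.single_le_sum (f := fun m => |v m|) (fun m _ => abs_nonneg _) (Finset.mem_univ _)
  · rw [abs_zero]; exact Finset.sum_nonneg fun m _ => abs_nonneg _

/-- the algorithm -/
noncomputable def gridMethod (D : Set (Fin 2 → ℝ)) (N M : ℕ) (l : ℤ → ℤ)
    (hp : IsProbabilityMeasure (unif D)) (hfin : IsFiniteMeasure (volume.restrict D)) :
    Method D (N ^ 2) ∞ where
  Ω := Fin (N ^ 2) → Fin 2 → ℝ
  mΩ := inferInstance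
  μ := Measure.pi fun _ => unif D
  prob := inferInstance
  X := id
  measX := measurable_id
  law := Measure.map_id
  φ := fun X v x => Vv N M X v (cidx N l x)
  memLp := by
    intro X v
    apply memLp_top_of_bound (C := ∑ m, |v m|)
    · apply Measurable.aestronglyMeasurable
      have h1 : Measurable (fun y : ℤ × ℤ => Vv N M X v (max y.1 (-l y.2), y.2)) :=
        Measurable.of_discrete
      exact h1.comp (measurable_cellIdx N)
    · exact Filter.Eventually.of_forall fun x => by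
        rw [Real.norm_eq_abs]; exact abs_Vv_le _ _ _ _ _

/-- coefficients -/
noncomputable def Kct (N M : ℕ) (g₀ g₁ : (Fin 2 → ℝ) → ℝ) (c : ℤ × ℤ) (t : ℕ) : ℝ :=
  (Real.sqrt (1 / N) ^ 3)⁻¹ * (8000 * (((20 / 19 : ℝ) ^ 3) ^ t * bct N M g₀ g₁ c t ^ 4))

lemma Kct_nonneg (N M : ℕ) (g₀ g₁ : (Fin 2 → ℝ) → ℝ) (c : ℤ × ℤ) (t : ℕ) :
    0 ≤ Kct N M g₀ g₁ c t := by
  unfold Kct
  have := bct_nonneg N M g₀ g₁ c t
  positivity

lemma le_add_pow {x s : ℝ} (hx : 0 ≤ x) (hs : 0 < s) : x ≤ s + (s ^ 3)⁻¹ * x ^ 4 := by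
  rcases le_total x s with h | h
  · have : 0 ≤ (s ^ 3)⁻¹ * x ^ 4 := by positivity
    linarith
  · have h1 : s ^ 3 ≤ x ^ 3 := pow_le_pow_left₀ hs.le h 3
    have h2 : x ≤ (s ^ 3)⁻¹ * x ^ 4 := by
      rw [inv_mul_eq_div, le_div_iff₀ (by positivity)]
      nlinarith
    linarith

lemma err_le {D : Set (Fin 2 → ℝ)} {N M : ℕ} {l : ℤ → ℤ} (G : Grid D N M l)
    {f g₀ g₁ : (Fin 2 → ℝ) → ℝ} (H : Norm1 D f g₀ g₁) {c : ℤ × ℤ} (hc : c ∈ cells N l)
    {z : Fin 2 → ℝ} (hz : z ∈ closure (cbox N c)) (hzD : z ∈ D) {n : ℕ} (X : Fin n → Fin 2 → ℝ)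
    (hX : ∀ m, X m ∈ D) :
    |f z - Vv N M X (fun m => f (X m)) c| ≤ Real.sqrt (1 / N)
      + ∑ c ∈ cells N l, ∑ t ∈ Finset.range (M + 1), Kct N M g₀ g₁ c t * ind N X c t := by
  have hN := G.Npos
  have hr : 0 < Real.sqrt (1 / N) := Real.sqrt_pos.mpr (by positivity)
  have h1 := Vv_err G H hc hz hzD X hX
  set S := ∑ t ∈ Finset.range (M + 1), ind N X c t * bct N M g₀ g₁ c t with hS
  have hS0 : 0 ≤ S := Finset.sum_nonneg fun t _ =>
    mul_nonneg (ind_nonneg _ _ _ _) (bct_nonneg _ _ _ _ _ _)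
  have h2 := le_add_pow hS0 hr
  have h3 := pow4_sum_le (fun t => ind N X c t * bct N M g₀ g₁ c t) (M + 1)
  have h4 : (Real.sqrt (1 / N) ^ 3)⁻¹ * S ^ 4
      ≤ ∑ t ∈ Finset.range (M + 1), Kct N M g₀ g₁ c t * ind N X c t := by
    calc (Real.sqrt (1 / N) ^ 3)⁻¹ * S ^ 4
        ≤ (Real.sqrt (1 / N) ^ 3)⁻¹ * (8000 * ∑ t ∈ Finset.range (M + 1),
          ((20 / 19 : ℝ) ^ 3) ^ t * (ind N X c t * bct N M g₀ g₁ c t) ^ 4) := by
          apply mul_le_mul_of_nonneg_left h3 (by positivity)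
      _ = _ := by
          rw [Finset.mul_sum, Finset.mul_sum]
          refine Finset.sum_congr rfl fun t _ => ?_
          rw [mul_pow, ind_pow]
          unfold Kct
          ring
  have h5 : ∑ t ∈ Finset.range (M + 1), Kct N M g₀ g₁ c t * ind N X c t
      ≤ ∑ c ∈ cells N l, ∑ t ∈ Finset.range (M + 1), Kct N M g₀ g₁ c t * ind N X c t :=
    Finset.single_le_sum (f := fun c => ∑ t ∈ Finset.range (M + 1),
      Kct N M g₀ g₁ c t * ind N X c t) (fun c _ => Finset.sum_nonneg fun t _ =>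
        mul_nonneg (Kct_nonneg _ _ _ _ _ _) (ind_nonneg _ _ _ _)) hc
  linarith

lemma exists_C6 : ∃ C : ℝ, 0 ≤ C ∧ ∀ M : ℕ, (M : ℝ) ^ 6 * (3 / 4) ^ M ≤ C := by
  have h := tendsto_pow_const_mul_const_pow_of_abs_lt_one 6 (r := (3 / 4 : ℝ))
    (by rw [abs_of_pos] <;> norm_num)
  obtain ⟨C, hC⟩ := h.bddAbove_range
  refine ⟨max C 0, le_max_right _ _, fun M => (hC ⟨M, rfl⟩).trans (le_max_left _ _)⟩

/-- constant for the fallback term -/
noncomputable def C6 : ℝ := Classical.choose exists_C6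

lemma C6_nonneg : 0 ≤ C6 := (Classical.choose_spec exists_C6).1

lemma C6_spec (M : ℕ) : (M : ℝ) ^ 6 * (3 / 4) ^ M ≤ C6 := (Classical.choose_spec exists_C6).2 M

/-- the constant of the upper bound -/
noncomputable def Cg : ℝ :=
  1 + 64000 * (24 * KB) ^ 4 + 16000 * 64 * C6 * (24 * KB + 2) ^ 4

lemma Cg_pos : 0 < Cg := by
  unfold Cg
  have := one_le_KB
  have := C6_nonneg
  positivity

lemma sum_Kct {D : Set (Fin 2 → ℝ)} {N M : ℕ} {l : ℤ → ℤ} (G : Grid D N M l)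
    {f g₀ g₁ : (Fin 2 → ℝ) → ℝ} (H : Norm1 D f g₀ g₁) :
    ∑ c ∈ cells N l, ∑ t ∈ Finset.range (M + 1), Kct N M g₀ g₁ c t * (16 / 25) ^ t
      ≤ (Cg - 1) * Real.sqrt (1 / N) := by
  have hN := G.Npos
  have hK := one_le_KB
  set r := Real.sqrt (1 / N) with hr
  have hrpos : 0 < r := Real.sqrt_pos.mpr (by positivity)
  have hN1 : (1 : ℝ) ≤ N := by
    have h1 := G.hM
    have h2 := G.hN
    have : 1 ≤ N := by omega
    exact_mod_cast this
  have hr2 : r ^ 2 = 1 / N := Real.sq_sqrt (by positivity)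
  have hρ : ((20 / 19 : ℝ) ^ 3) * (16 / 25) ≤ 3 / 4 := by norm_num
  have hcard : ((cells N l).card : ℝ) ≤ 2 * (N : ℝ) ^ 2 := by
    have h1 : (cells N l).card ≤ (2 * N) * N := by
      unfold cells
      refine (Finset.card_filter_le _ _).trans ?_
      rw [Finset.card_product, Int.card_Ico, Int.card_Ico]
      apply le_of_eq
      congr 1 <;> omega
    have h2 : ((cells N l).card : ℝ) ≤ ((2 * N) * N : ℕ) := by exact_mod_cast h1
    refine h2.trans (le_of_eq ?_)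
    push_cast; ring
  rw [Finset.sum_comm]
  have hterm : ∀ t ∈ Finset.range (M + 1),
      ∑ c ∈ cells N l, Kct N M g₀ g₁ c t * (16 / 25) ^ t
        ≤ (r ^ 3)⁻¹ * 8000 * ((3 / 4) ^ t * ∑ c ∈ cells N l, bct N M g₀ g₁ c t ^ 4) := by
    intro t _
    rw [Finset.mul_sum, Finset.mul_sum]
    apply Finset.sum_le_sum
    intro c _
    unfold Kct
    have h1 : ((20 / 19 : ℝ) ^ 3) ^ t * (16 / 25) ^ t ≤ (3 / 4) ^ t := by
      rw [← mul_pow]
      exact pow_le_pow_left₀ (by positivity) hρ t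
    have h2 : 0 ≤ (r ^ 3)⁻¹ * 8000 * bct N M g₀ g₁ c t ^ 4 := by
      have := bct_nonneg N M g₀ g₁ c t
      positivity
    calc (r ^ 3)⁻¹ * (8000 * (((20 / 19 : ℝ) ^ 3) ^ t * bct N M g₀ g₁ c t ^ 4)) * (16 / 25) ^ t
        = ((r ^ 3)⁻¹ * 8000 * bct N M g₀ g₁ c t ^ 4)
          * (((20 / 19 : ℝ) ^ 3) ^ t * (16 / 25) ^ t) := by ring
      _ ≤ ((r ^ 3)⁻¹ * 8000 * bct N M g₀ g₁ c t ^ 4) * (3 / 4) ^ t :=
          mul_le_mul_of_nonneg_left h1 h2
      _ = _ := by ring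
  refine (Finset.sum_le_sum hterm).trans ?_
  rw [← Finset.mul_sum, Finset.sum_range_succ]
  -- the main part
  have hgeo : ∀ n : ℕ, ∑ t ∈ Finset.range n, (3 / 4 : ℝ) ^ t ≤ 4 := by
    intro n
    have h1 : ∀ n : ℕ, ∑ t ∈ Finset.range n, (3 / 4 : ℝ) ^ t = 4 - 4 * (3 / 4) ^ n := by
      intro n
      induction n with
      | zero => simp
      | succ n ih => rw [Finset.sum_range_succ, ih, pow_succ]; ring
    rw [h1]
    have : (0 : ℝ) < (3 / 4) ^ n := by positivity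
    linarith
  have hmain : ∑ t ∈ Finset.range M, (3 / 4 : ℝ) ^ t * ∑ c ∈ cells N l, bct N M g₀ g₁ c t ^ 4
      ≤ 8 * kap N ^ 4 := by
    have h1 : ∀ t ∈ Finset.range M, (3 / 4 : ℝ) ^ t * ∑ c ∈ cells N l, bct N M g₀ g₁ c t ^ 4
        ≤ (3 / 4 : ℝ) ^ t * (2 * kap N ^ 4) := by
      intro t ht
      rw [Finset.mem_range] at ht
      apply mul_le_mul_of_nonneg_left _ (by positivity)
      have h2 := sum_Gc_chain G H ht
      have h3 : ∑ c ∈ cells N l, bct N M g₀ g₁ c t ^ 4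
          = kap N ^ 4 * ∑ c ∈ cells N l, Gc N g₀ g₁ (chain N c t) ^ 4 := by
        rw [Finset.mul_sum]
        refine Finset.sum_congr rfl fun c _ => ?_
        unfold bct
        rw [if_pos ht, mul_pow]
      rw [h3]
      have h4 : 0 ≤ kap N ^ 4 := pow_nonneg (kap_nonneg N) 4
      nlinarith
    refine (Finset.sum_le_sum h1).trans ?_
    rw [← Finset.sum_mul]
    have h4 : 0 ≤ 2 * kap N ^ 4 := by have := pow_nonneg (kap_nonneg N) 4; linarith
    have := mul_le_mul_of_nonneg_right (hgeo M) h4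
    linarith
  have hkap : kap N = 24 * KB * r := rfl
  have hsqN : Real.sqrt N ^ 2 = N := Real.sq_sqrt hN.le
  have hrN : r ≤ Real.sqrt N := by
    apply Real.sqrt_le_sqrt
    rw [div_le_iff₀ hN]
    nlinarith
  have hlast : ∑ c ∈ cells N l, bct N M g₀ g₁ c M ^ 4
      ≤ 2 * (N : ℝ) ^ 2 * ((24 * KB + 2) ^ 4 * (N : ℝ) ^ 2) := by
    have h1 : ∀ c ∈ cells N l, bct N M g₀ g₁ c M ^ 4 ≤ (24 * KB + 2) ^ 4 * (N : ℝ) ^ 2 := by
      intro c _
      have h2 : bct N M g₀ g₁ c M ≤ (24 * KB + 2) * Real.sqrt N := by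
        unfold bct
        rw [if_neg (lt_irrefl _), hkap]
        nlinarith
      have h3 := pow_le_pow_left₀ (bct_nonneg N M g₀ g₁ c M) h2 4
      refine h3.trans (le_of_eq ?_)
      rw [mul_pow]
      congr 1
      calc Real.sqrt N ^ 4 = (Real.sqrt N ^ 2) ^ 2 := by ring
        _ = (N : ℝ) ^ 2 := by rw [hsqN]
    refine (Finset.sum_le_card_nsmul _ _ _ h1).trans ?_
    rw [nsmul_eq_mul]
    exact mul_le_mul_of_nonneg_right hcard (by positivity)
  have hr4 : (r ^ 3)⁻¹ = (N : ℝ) ^ 2 * r := by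
    have h1 : r ^ 4 = 1 / (N : ℝ) ^ 2 := by
      calc r ^ 4 = (r ^ 2) ^ 2 := by ring
        _ = 1 / (N : ℝ) ^ 2 := by rw [hr2]; field_simp
    rw [inv_eq_iff_eq_inv, eq_comm, inv_eq_iff_eq_inv]
    have h2 : (r ^ 3)⁻¹ = r / r ^ 4 := by field_simp
    rw [h2, h1]
    field_simp
  have hC6 := C6_spec M
  have hNM : (N : ℝ) = 2 * M := by exact_mod_cast G.hN
  have p34 : (0 : ℝ) < (3 / 4) ^ M := by positivity
  calc (r ^ 3)⁻¹ * 8000 * (∑ t ∈ Finset.range M, (3 / 4 : ℝ) ^ t * ∑ c ∈ cells N l,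
        bct N M g₀ g₁ c t ^ 4 + (3 / 4) ^ M * ∑ c ∈ cells N l, bct N M g₀ g₁ c M ^ 4)
      ≤ (r ^ 3)⁻¹ * 8000 * (8 * kap N ^ 4
        + (3 / 4) ^ M * (2 * (N : ℝ) ^ 2 * ((24 * KB + 2) ^ 4 * (N : ℝ) ^ 2))) := by
        apply mul_le_mul_of_nonneg_left _ (by positivity)
        have := mul_le_mul_of_nonneg_left hlast p34.le
        linarith
    _ = 64000 * (24 * KB) ^ 4 * r
        + 16000 * 64 * ((M : ℝ) ^ 6 * (3 / 4) ^ M) * (24 * KB + 2) ^ 4 * r := by
        have e1 : (r ^ 3)⁻¹ * 8000 * (8 * kap N ^ 4) = 64000 * (24 * KB) ^ 4 * r := by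
          rw [hkap]; field_simp; ring
        have e2 : (r ^ 3)⁻¹ * 8000 * ((3 / 4) ^ M * (2 * (N : ℝ) ^ 2 * ((24 * KB + 2) ^ 4
            * (N : ℝ) ^ 2))) = 16000 * 64 * ((M : ℝ) ^ 6 * (3 / 4) ^ M) * (24 * KB + 2) ^ 4 * r := by
          rw [hr4, hNM]; ring
        rw [mul_add, e1, e2]
    _ ≤ 64000 * (24 * KB) ^ 4 * r + 16000 * 64 * C6 * (24 * KB + 2) ^ 4 * r := by
        gcongr
    _ = (Cg - 1) * r := by unfold Cg; ring

/-- **Upper bound at a good scale.** -/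
theorem upper_grid {D : Set (Fin 2 → ℝ)} {N M : ℕ} {l : ℤ → ℤ} (G : Grid D N M l) {τ : ℝ}
    (hτ : 0 ≤ τ)
    (hsmall : ∀ f g₀ g₁, Norm1 D f g₀ g₁ → ∀ᵐ z ∂(volume.restrict D), cidx N l z ∈ cells N l ∧
      ∃ z₀ ∈ D, z₀ ∈ closure (cbox N (cidx N l z)) ∧ |f z - f z₀| ≤ τ) :
    minErr D 1 4 ∞ .ran (N ^ 2) ≤ ENNReal.ofReal (τ + Cg * Real.sqrt (1 / N)) := by
  have hN := G.Npos
  have hvD : volume D ≠ ∞ := (lt_of_le_of_lt G.vol (by norm_num)).ne
  have hp := unif_isProb G.vol0 hvD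
  have hfin : IsFiniteMeasure (volume.restrict D) :=
    ⟨by rw [Measure.restrict_apply_univ]; exact hvD.lt_top⟩
  set A := gridMethod D N M l hp hfin with hA
  refine iInf_le_of_le A ?_
  show (⨆ f ∈ sobBall D 1 4, @upperInt A.Ω A.mΩ A.μ fun ω => A.err f ω) ≤ _
  refine iSup₂_le fun f hf => ?_
  obtain ⟨g₀, g₁, hgrad, hnorm⟩ := sobBall_one hf
  have H : Norm1 D f g₀ g₁ := ⟨hgrad, hnorm⟩
  set r := Real.sqrt (1 / N) with hr
  have hr0 : 0 ≤ r := Real.sqrt_nonneg _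
  set μ : Measure (Fin (N ^ 2) → Fin 2 → ℝ) := Measure.pi fun _ => unif D with hμ
  set ev : ℤ × ℤ → ℕ → Set (Fin (N ^ 2) → Fin 2 → ℝ) := fun c t => Set.univ.pi fun _ => Sc N c t
    with hev
  have hevm : ∀ c t, MeasurableSet (ev c t) := fun c t =>
    MeasurableSet.univ_pi fun _ => measurableSet_Sc N c t
  set Hf : (Fin (N ^ 2) → Fin 2 → ℝ) → ℝ≥0∞ := fun X => ENNReal.ofReal (τ + r)
    + ∑ c ∈ cells N l, ∑ t ∈ Finset.range (M + 1),
      ENNReal.ofReal (Kct N M g₀ g₁ c t) * (ev c t).indicator (fun _ => 1) X with hHf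
  have htm : ∀ c t, Measurable fun X : Fin (N ^ 2) → Fin 2 → ℝ =>
      ENNReal.ofReal (Kct N M g₀ g₁ c t) * (ev c t).indicator (fun _ => (1 : ℝ≥0∞)) X :=
    fun c t => (measurable_const.indicator (hevm c t)).const_mul _
  have hsm : ∀ c, Measurable fun X : Fin (N ^ 2) → Fin 2 → ℝ => ∑ t ∈ Finset.range (M + 1),
      ENNReal.ofReal (Kct N M g₀ g₁ c t) * (ev c t).indicator (fun _ => (1 : ℝ≥0∞)) X :=
    fun c => Finset.measurable_fun_sum _ fun t _ => htm c t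
  have hHm : Measurable Hf :=
    (Finset.measurable_fun_sum _ fun c _ => hsm c).const_add _
  have hind : ∀ (X : Fin (N ^ 2) → Fin 2 → ℝ) c t,
      (ev c t).indicator (fun _ => (1 : ℝ≥0∞)) X = ENNReal.ofReal (ind N X c t) := by
    intro X c t
    unfold ind
    by_cases h : ∀ m, X m ∈ Sc N c t
    · rw [if_pos h, Set.indicator_of_mem (show X ∈ ev c t from fun m _ => h m), ENNReal.ofReal_one]
    · rw [if_neg h, Set.indicator_of_notMem
        (show X ∉ ev c t from fun hcon => h fun m => hcon m (Set.mem_univ m)), ENNReal.ofReal_zero]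
  have hXD : ∀ᵐ X ∂μ, ∀ m, X m ∈ D := by
    rw [ae_all_iff]
    intro m
    have h1 : ∀ᵐ x ∂(unif D), x ∈ D := by
      unfold unif
      exact Measure.ae_smul_measure (ae_restrict_mem G.isOpen.measurableSet) _
    exact (Measure.quasiMeasurePreserving_eval (μ := fun _ : Fin (N ^ 2) => unif D) m).ae h1
  have hbound : ∀ᵐ X ∂μ, eLpNorm (fun x => f x - Vv N M X (fun m => f (X m)) (cidx N l x)) ∞
      (volume.restrict D) ≤ Hf X := by
    filter_upwards [hXD] with X hX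
    have hH : Hf X = ENNReal.ofReal (τ + (r + ∑ c ∈ cells N l, ∑ t ∈ Finset.range (M + 1),
        Kct N M g₀ g₁ c t * ind N X c t)) := by
      rw [hHf]
      simp only [hind]
      rw [← add_assoc, ENNReal.ofReal_add (by positivity) (Finset.sum_nonneg fun c _ =>
        Finset.sum_nonneg fun t _ => mul_nonneg (Kct_nonneg _ _ _ _ _ _) (ind_nonneg _ _ _ _))]
      congr 1
      rw [ENNReal.ofReal_sum_of_nonneg (fun c _ =>
        Finset.sum_nonneg fun t _ => mul_nonneg (Kct_nonneg _ _ _ _ _ _) (ind_nonneg _ _ _ _))]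
      refine Finset.sum_congr rfl fun c _ => ?_
      rw [ENNReal.ofReal_sum_of_nonneg (fun t _ =>
        mul_nonneg (Kct_nonneg _ _ _ _ _ _) (ind_nonneg _ _ _ _))]
      refine Finset.sum_congr rfl fun t _ => ?_
      rw [ENNReal.ofReal_mul (Kct_nonneg _ _ _ _ _ _)]
    rw [hH]
    refine (eLpNorm_le_of_ae_bound (C := τ + (r + ∑ c ∈ cells N l, ∑ t ∈ Finset.range (M + 1),
        Kct N M g₀ g₁ c t * ind N X c t)) ?_).trans ?_
    · filter_upwards [hsmall f g₀ g₁ H] with z hz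
      obtain ⟨hzc, z₀, hz₀D, hz₀c, hz₀⟩ := hz
      have h1 := err_le G H hzc hz₀c hz₀D X hX
      rw [Real.norm_eq_abs]
      have h2 := abs_sub_le (f z) (f z₀) (Vv N M X (fun m => f (X m)) (cidx N l z))
      linarith
    · simp
  have h1 := upperInt_le_of_ae μ _ _ hHm hbound
  refine le_trans (show _ ≤ _ from h1) ?_
  rw [hHf, lintegral_add_left measurable_const, lintegral_const]
  have hμp : IsProbabilityMeasure μ := by rw [hμ]; infer_instance
  rw [measure_univ, mul_one, lintegral_finsetSum _ (fun c _ => hsm c)]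
  have h2 : ∀ c ∈ cells N l, ∫⁻ X, ∑ t ∈ Finset.range (M + 1),
      ENNReal.ofReal (Kct N M g₀ g₁ c t) * (ev c t).indicator (fun _ => 1) X ∂μ
      ≤ ENNReal.ofReal (∑ t ∈ Finset.range (M + 1), Kct N M g₀ g₁ c t * (16 / 25) ^ t) := by
    intro c hc
    rw [lintegral_finsetSum _ (fun t _ => htm c t)]
    rw [ENNReal.ofReal_sum_of_nonneg (fun t _ => mul_nonneg (Kct_nonneg _ _ _ _ _ _) (by positivity))]
    apply Finset.sum_le_sum
    intro t ht
    rw [Finset.mem_range] at ht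
    rw [lintegral_const_mul _ (measurable_const.indicator (hevm c t)),
      lintegral_indicator_const (hevm c t), one_mul, ENNReal.ofReal_mul (Kct_nonneg _ _ _ _ _ _)]
    gcongr
    exact prob_empty G hp hc (by omega)
  calc ENNReal.ofReal (τ + r) + ∑ c ∈ cells N l, ∫⁻ X, ∑ t ∈ Finset.range (M + 1),
      ENNReal.ofReal (Kct N M g₀ g₁ c t) * (ev c t).indicator (fun _ => 1) X ∂μ
      ≤ ENNReal.ofReal (τ + r) + ∑ c ∈ cells N l,
        ENNReal.ofReal (∑ t ∈ Finset.range (M + 1), Kct N M g₀ g₁ c t * (16 / 25) ^ t) := by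
        gcongr with c hc
        exact h2 c hc
    _ = ENNReal.ofReal (τ + r + ∑ c ∈ cells N l,
        ∑ t ∈ Finset.range (M + 1), Kct N M g₀ g₁ c t * (16 / 25) ^ t) := by
        rw [← ENNReal.ofReal_sum_of_nonneg (fun c _ => Finset.sum_nonneg fun t _ =>
          mul_nonneg (Kct_nonneg _ _ _ _ _ _) (by positivity)), ← ENNReal.ofReal_add (by positivity)]
        exact Finset.sum_nonneg fun c _ => Finset.sum_nonneg fun t _ =>
          mul_nonneg (Kct_nonneg _ _ _ _ _ _) (by positivity)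
    _ ≤ ENNReal.ofReal (τ + Cg * r) := by
        apply ENNReal.ofReal_le_ofReal
        have := sum_Kct G H
        linarith

end Pool.Agent.Helper579.Iid
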