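import Mathlib
import Pool.Agent.Helper579.IidUpper

set_option autoImplicit false

namespace Pool.Agent.Helper579.Iid

open MeasureTheory Set Filter
open scoped ENNReal Topology

/-- Fubini in the plane, first order -/
lemma integral_two {F : (Fin 2 → ℝ) → ℝ} (hF : Integrable F) :
    ∫ x, F x = ∫ b, ∫ a, F ![a, b] := by
  have h1 := (volume_preserving_finTwoArrow ℝ).symm
  have h2 : ∫ x, F x = ∫ y : ℝ × ℝ, F (MeasurableEquiv.finTwoArrow.symm y) :=
    (h1.integral_comp (MeasurableEquiv.measurableEmbedding _) F).symm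
  have h3 : Integrable (fun y : ℝ × ℝ => F (MeasurableEquiv.finTwoArrow.symm y)) :=
    (h1.integrable_comp_emb (MeasurableEquiv.measurableEmbedding _)).mpr hF
  rw [h2]
  have h4 := integral_prod_symm _ h3
  exact h4

/-- Fubini in the plane, second order -/
lemma integral_two' {F : (Fin 2 → ℝ) → ℝ} (hF : Integrable F) :
    ∫ x, F x = ∫ a, ∫ b, F ![a, b] := by
  have h1 := (volume_preserving_finTwoArrow ℝ).symm
  have h2 : ∫ x, F x = ∫ y : ℝ × ℝ, F (MeasurableEquiv.finTwoArrow.symm y) :=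
    (h1.integral_comp (MeasurableEquiv.measurableEmbedding _) F).symm
  have h3 : Integrable (fun y : ℝ × ℝ => F (MeasurableEquiv.finTwoArrow.symm y)) :=
    (h1.integrable_comp_emb (MeasurableEquiv.measurableEmbedding _)).mpr hF
  rw [h2]
  have h4 := integral_prod _ h3
  exact h4

lemma hasDerivAt_sec0 {φ : (Fin 2 → ℝ) → ℝ} (hφ : Differentiable ℝ φ) (a b : ℝ) :
    HasDerivAt (fun a => φ ![a, b]) (pderiv 0 φ ![a, b]) a := by
  have h1 : HasDerivAt (fun a : ℝ => (![a, b] : Fin 2 → ℝ)) (Pi.single 0 1) a := by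
    rw [hasDerivAt_pi]
    intro i
    fin_cases i
    · simpa using hasDerivAt_id' a
    · simpa using hasDerivAt_const a b
  exact (hφ _).hasFDerivAt.comp_hasDerivAt a h1

lemma hasDerivAt_sec1 {φ : (Fin 2 → ℝ) → ℝ} (hφ : Differentiable ℝ φ) (a b : ℝ) :
    HasDerivAt (fun b => φ ![a, b]) (pderiv 1 φ ![a, b]) b := by
  have h1 : HasDerivAt (fun b : ℝ => (![a, b] : Fin 2 → ℝ)) (Pi.single 1 1) b := by
    rw [hasDerivAt_pi]
    intro i
    fin_cases i
    · simpa using hasDerivAt_const b a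
    · simpa using hasDerivAt_id' b
  exact (hφ _).hasFDerivAt.comp_hasDerivAt b h1

lemma continuous_vec2 : Continuous (fun p : ℝ × ℝ => (![p.1, p.2] : Fin 2 → ℝ)) := by
  apply continuous_pi
  intro i
  fin_cases i
  · exact continuous_fst
  · exact continuous_snd

lemma compact_sec0 {φ : (Fin 2 → ℝ) → ℝ} (hc : HasCompactSupport φ) (b : ℝ) :
    HasCompactSupport (fun a => φ ![a, b]) := by
  obtain ⟨R, hR⟩ := hc.isCompact.isBounded.subset_closedBall 0
  apply HasCompactSupport.intro (K := Set.Icc (-R) R) isCompact_Icc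
  intro a ha
  by_contra hcon
  have h1 : (![a, b] : Fin 2 → ℝ) ∈ Metric.closedBall 0 R := hR (subset_tsupport _ hcon)
  rw [mem_closedBall_zero_iff] at h1
  have h2 := (norm_le_pi_norm (![a, b] : Fin 2 → ℝ) 0).trans h1
  simp only [Matrix.cons_val_zero, Real.norm_eq_abs] at h2
  rw [abs_le] at h2
  exact ha h2

lemma compact_sec1 {φ : (Fin 2 → ℝ) → ℝ} (hc : HasCompactSupport φ) (a : ℝ) :
    HasCompactSupport (fun b => φ ![a, b]) := by
  obtain ⟨R, hR⟩ := hc.isCompact.isBounded.subset_closedBall 0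
  apply HasCompactSupport.intro (K := Set.Icc (-R) R) isCompact_Icc
  intro b hb
  by_contra hcon
  have h1 : (![a, b] : Fin 2 → ℝ) ∈ Metric.closedBall 0 R := hR (subset_tsupport _ hcon)
  rw [mem_closedBall_zero_iff] at h1
  have h2 := (norm_le_pi_norm (![a, b] : Fin 2 → ℝ) 1).trans h1
  simp only [Matrix.cons_val_one, Real.norm_eq_abs] at h2
  rw [abs_le] at h2
  exact hb h2

lemma pderiv_continuous {φ : (Fin 2 → ℝ) → ℝ} (hφ : ContDiff ℝ (⊤ : ℕ∞) φ) (i : Fin 2) :
    Continuous (pderiv i φ) :=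
  (hφ.continuous_fderiv (by simp)).clm_apply continuous_const

lemma pderiv_compact {φ : (Fin 2 → ℝ) → ℝ} (hc : HasCompactSupport φ) (i : Fin 2) :
    HasCompactSupport (pderiv i φ) :=
  (hc.fderiv (𝕜 := ℝ)).comp_left (g := fun L : (Fin 2 → ℝ) →L[ℝ] ℝ => L (Pi.single i 1)) (by simp)

lemma pderiv_zero_off {φ : (Fin 2 → ℝ) → ℝ} {D : Set (Fin 2 → ℝ)} (hs : tsupport φ ⊆ D) (i : Fin 2)
    {x : Fin 2 → ℝ} (hx : x ∉ D) : pderiv i φ x = 0 := by
  have : fderiv ℝ φ x = 0 := by
    by_contra h3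
    exact hx (hs (support_fderiv_subset ℝ h3))
  show fderiv ℝ φ x _ = 0
  rw [this]; rfl

lemma pderiv_tsupport {φ : (Fin 2 → ℝ) → ℝ} (i : Fin 2) : tsupport (pderiv i φ) ⊆ tsupport φ := by
  refine closure_minimal ?_ (isClosed_tsupport _)
  intro x hx
  by_contra hcon
  exact hx (pderiv_zero_off (D := tsupport φ) le_rfl i hcon)

lemma pderiv_contDiff {φ : (Fin 2 → ℝ) → ℝ} (hφ : ContDiff ℝ (⊤ : ℕ∞) φ) (i : Fin 2) :
    ContDiff ℝ (⊤ : ℕ∞) (pderiv i φ) := by
  have h1 : ContDiff ℝ (⊤ : ℕ∞) (fderiv ℝ φ) :=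
    hφ.fderiv_right (m := ((⊤ : ℕ∞) : WithTop ℕ∞)) (by
      show ((⊤ : ℕ∞) : WithTop ℕ∞) + 1 ≤ ((⊤ : ℕ∞) : WithTop ℕ∞)
      exact le_rfl)
  exact h1.clm_apply contDiff_const

/-- one-dimensional integration by parts -/
lemma ibp_pos (ψ ψ' : ℝ → ℝ) (hψ : ∀ x, HasDerivAt ψ (ψ' x) x) (hψ' : Continuous ψ')
    (hc : HasCompactSupport ψ) (hc' : HasCompactSupport ψ') (e : ℝ) (m : ℕ) :
    ∫ a, (max 0 (e - a)) ^ (m + 1) * ψ' a
      = (m + 1) * ∫ a in Set.Iic e, (e - a) ^ m * ψ a := by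
  have hψc : Continuous ψ := continuous_iff_continuousAt.mpr fun x => (hψ x).continuousAt
  have h1 : ∫ a, (max 0 (e - a)) ^ (m + 1) * ψ' a
      = ∫ a in Set.Iic e, (e - a) ^ (m + 1) * ψ' a := by
    rw [← setIntegral_eq_integral_of_forall_compl_eq_zero (s := Set.Iic e)]
    · apply setIntegral_congr_fun measurableSet_Iic
      intro a ha
      simp only
      rw [max_eq_right (by linarith [Set.mem_Iic.mp ha])]
    · intro a ha
      rw [Set.mem_Iic, not_le] at ha
      rw [max_eq_left (by linarith)]; ring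
  rw [h1]
  have hd : ∀ a ∈ Set.Iic e, HasDerivAt (fun a => (e - a) ^ (m + 1) * ψ a)
      ((((m : ℝ) + 1) * (e - a) ^ m * (-1)) * ψ a + (e - a) ^ (m + 1) * ψ' a) a := by
    intro a _
    have h2 : HasDerivAt (fun a : ℝ => (e - a)) (-1) a := by
      simpa using (hasDerivAt_id a).const_sub e
    have h3 := (h2.pow (m + 1)).mul (hψ a)
    convert! h3 using 1
    simp
  have i1 : Integrable (fun a => ((((m : ℝ) + 1) * (e - a) ^ m * (-1)) * ψ a)) :=
    Continuous.integrable_of_hasCompactSupport (by fun_prop) (hc.mul_left)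
  have i2 : Integrable (fun a => (e - a) ^ (m + 1) * ψ' a) :=
    Continuous.integrable_of_hasCompactSupport (by fun_prop) (hc'.mul_left)
  have ht : Tendsto (fun a => (e - a) ^ (m + 1) * ψ a) atBot (𝓝 0) := by
    have hcs : HasCompactSupport (fun a => (e - a) ^ (m + 1) * ψ a) := hc.mul_left
    have := hcs.is_zero_at_infty
    exact this.mono_left atBot_le_cocompact
  have h4 := integral_Iic_of_hasDerivAt_of_tendsto' hd ((i1.add i2).integrableOn) ht
  simp only [sub_self] at h4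
  rw [zero_pow (by omega), zero_mul, sub_zero] at h4
  rw [integral_add i1.integrableOn i2.integrableOn] at h4
  have h5 : ∫ a in Set.Iic e, (((m : ℝ) + 1) * (e - a) ^ m * (-1)) * ψ a
      = -((m + 1) * ∫ a in Set.Iic e, (e - a) ^ m * ψ a) := by
    rw [← integral_const_mul, ← integral_neg]
    congr 1; funext a; ring
  rw [h5] at h4
  linarith

end Pool.Agent.Helper579.Iid
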