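import Mathlib
import Pool.Agent.Helper579.IidFub

set_option autoImplicit false

namespace Pool.Agent.Helper579.Iid

open MeasureTheory Set Filter
open scoped ENNReal Topology

/-- width of the `k`-th finger -/
noncomputable def wid (b k : ℕ) : ℝ := (1 / 2) ^ (b * (2 * k + 3))

/-- length of the `k`-th finger -/
noncomputable def rho (b k : ℕ) : ℝ := (1 / 2) ^ (2 * b * (k + 1))

/-- position of the `k`-th finger -/
noncomputable def yy (k : ℕ) : ℝ := 1 / 4 + (1 / 2) ^ (k + 2)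

/-- the `k`-th finger (including its continuation into the unit square) -/
def Finger (b k : ℕ) : Set (Fin 2 → ℝ) :=
  {x | (-rho b k < x 0 ∧ x 0 < 1) ∧ (yy k < x 1 ∧ x 1 < yy k + wid b k)}

/-- the unit square -/
def USq : Set (Fin 2 → ℝ) := {x | (0 < x 0 ∧ x 0 < 1) ∧ (0 < x 1 ∧ x 1 < 1)}

/-- the unit square with fingers -/
def Dom (b : ℕ) : Set (Fin 2 → ℝ) := USq ∪ ⋃ k, Finger b k

lemma wid_pos (b k : ℕ) : 0 < wid b k := by unfold wid; positivity

lemma rho_pos (b k : ℕ) : 0 < rho b k := by unfold rho; positivity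

lemma wid_eq (b k : ℕ) : wid b k = rho b k * (1 / 2) ^ b := by
  unfold wid rho
  rw [← pow_add]
  congr 1; ring

lemma wid_le {b : ℕ} (hb : 1 ≤ b) (k : ℕ) : wid b k ≤ (1 / 2) ^ (k + 3) := by
  unfold wid
  apply pow_le_pow_of_le_one (by norm_num) (by norm_num)
  nlinarith

lemma rho_le {b : ℕ} (hb : 1 ≤ b) (k : ℕ) : rho b k ≤ 1 / 4 := by
  unfold rho
  calc ((1 : ℝ) / 2) ^ (2 * b * (k + 1)) ≤ (1 / 2) ^ 2 := by
        apply pow_le_pow_of_le_one (by norm_num) (by norm_num)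
        nlinarith
    _ = 1 / 4 := by norm_num

lemma yy_gt (k : ℕ) : 1 / 4 < yy k := by
  unfold yy
  have : (0 : ℝ) < (1 / 2) ^ (k + 2) := by positivity
  linarith

lemma yy_sep {b : ℕ} (hb : 1 ≤ b) {j k : ℕ} (h : j < k) : yy k + wid b k < yy j := by
  have h1 := wid_le hb k
  unfold yy
  have h2 : ((1 : ℝ) / 2) ^ (k + 3) = (1 / 2) ^ (k + 2) / 2 := by rw [pow_succ]; ring
  have h3 : ((1 : ℝ) / 2) ^ (k + 1) = (1 / 2) ^ (k + 2) * 2 := by rw [pow_succ (1 / 2 : ℝ) (k + 1)]; ring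
  have h4 : ((1 : ℝ) / 2) ^ (k + 1) ≤ (1 / 2) ^ (j + 2) :=
    pow_le_pow_of_le_one (by norm_num) (by norm_num) (by omega)
  have h5 : (0 : ℝ) < (1 / 2) ^ (k + 2) := by positivity
  linarith

lemma yy_wid_lt {b : ℕ} (hb : 1 ≤ b) (k : ℕ) : yy k + wid b k < 3 / 4 := by
  have h1 := wid_le hb k
  have h2 : ((1 : ℝ) / 2) ^ (k + 3) ≤ (1 / 2) ^ 3 :=
    pow_le_pow_of_le_one (by norm_num) (by norm_num) (by omega)
  have h3 : ((1 : ℝ) / 2) ^ (k + 2) ≤ (1 / 2) ^ 2 :=
    pow_le_pow_of_le_one (by norm_num) (by norm_num) (by omega)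
  unfold yy
  norm_num at h2 h3
  linarith

lemma isOpen_USq : IsOpen USq := by
  unfold USq
  have h0 : Continuous fun x : Fin 2 → ℝ => x 0 := continuous_apply 0
  have h1 : Continuous fun x : Fin 2 → ℝ => x 1 := continuous_apply 1
  exact ((isOpen_lt continuous_const h0).inter (isOpen_lt h0 continuous_const)).inter
    ((isOpen_lt continuous_const h1).inter (isOpen_lt h1 continuous_const))

lemma isOpen_Finger (b k : ℕ) : IsOpen (Finger b k) := by
  unfold Finger
  have h0 : Continuous fun x : Fin 2 → ℝ => x 0 := continuous_apply 0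
  have h1 : Continuous fun x : Fin 2 → ℝ => x 1 := continuous_apply 1
  exact ((isOpen_lt continuous_const h0).inter (isOpen_lt h0 continuous_const)).inter
    ((isOpen_lt continuous_const h1).inter (isOpen_lt h1 continuous_const))

lemma isOpen_Dom (b : ℕ) : IsOpen (Dom b) :=
  isOpen_USq.union (isOpen_iUnion fun k => isOpen_Finger b k)

lemma Dom_subset {b : ℕ} (hb : 1 ≤ b) {x : Fin 2 → ℝ} (hx : x ∈ Dom b) :
    (-(1 / 4) < x 0 ∧ x 0 < 1) ∧ (0 < x 1 ∧ x 1 < 1) := by
  rcases hx with hx | hx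
  · obtain ⟨⟨h1, h2⟩, h3, h4⟩ := hx
    exact ⟨⟨by linarith, h2⟩, h3, h4⟩
  · rw [Set.mem_iUnion] at hx
    obtain ⟨k, ⟨h1, h2⟩, h3, h4⟩ := hx
    have := rho_le hb k
    have := yy_gt k
    have := yy_wid_lt hb k
    exact ⟨⟨by linarith, h2⟩, by linarith, by linarith⟩

/-- a point of the domain with nonpositive first coordinate lies in a finger -/
lemma Dom_nonpos {b : ℕ} {x : Fin 2 → ℝ} (hx : x ∈ Dom b) (h0 : x 0 ≤ 0) :
    ∃ k, x ∈ Finger b k := by
  rcases hx with hx | hx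
  · exact absurd hx.1.1 (not_lt.mpr h0)
  · exact Set.mem_iUnion.mp hx

lemma Finger_unique {b : ℕ} (hb : 1 ≤ b) {j k : ℕ} {y : ℝ} (h1 : yy j < y) (h2 : y < yy j + wid b j)
    (h3 : yy k ≤ y) (h4 : y ≤ yy k + wid b k) : j = k := by
  rcases lt_trichotomy j k with h | h | h
  · have := yy_sep hb h; linarith
  · exact h
  · have := yy_sep hb h; linarith

lemma USq_eq : USq = Set.univ.pi fun _ : Fin 2 => Set.Ioo (0 : ℝ) 1 := by
  ext x
  unfold USq
  simp [Set.mem_pi, Fin.forall_fin_two]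

lemma volume_USq : volume USq = 1 := by
  rw [USq_eq, Real.volume_pi_Ioo]
  simp

lemma volume_Dom_ge (b : ℕ) : 1 ≤ volume (Dom b) := by
  rw [← volume_USq]
  exact measure_mono Set.subset_union_left

lemma volume_Dom_le {b : ℕ} (hb : 1 ≤ b) : volume (Dom b) ≤ 2 := by
  have h1 : Dom b ⊆ Set.univ.pi fun i : Fin 2 => Set.Ioo ((![-1, 0] : Fin 2 → ℝ) i) 1 := by
    intro x hx
    have := Dom_subset hb hx
    simp only [Set.mem_pi, Set.mem_univ, forall_true_left, Fin.forall_fin_two, Set.mem_Ioo,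
      Matrix.cons_val_zero, Matrix.cons_val_one]
    exact ⟨⟨by linarith [this.1.1], this.1.2⟩, this.2⟩
  refine (measure_mono h1).trans ?_
  rw [Real.volume_pi_Ioo]
  simp only [Fin.prod_univ_two, Matrix.cons_val_zero, Matrix.cons_val_one]
  norm_num

/-! ### the grid structure at a good scale -/

/-- number of cells per unit length -/
def Ng (b K : ℕ) : ℕ := 2 ^ (b * (2 * K + 3))

lemma Ng_cast (b K : ℕ) : (Ng b K : ℝ) = 2 ^ (b * (2 * K + 3)) := by
  unfold Ng; push_cast; rfl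

lemma half_mul_two (m n : ℕ) (h : m ≤ n) : ((1 : ℝ) / 2) ^ m * 2 ^ n = 2 ^ (n - m) := by
  obtain ⟨c, rfl⟩ := Nat.exists_eq_add_of_le h
  rw [Nat.add_sub_cancel_left, pow_add, ← mul_assoc, ← mul_pow]
  norm_num

lemma rho_mul {b k K : ℕ} (h : k ≤ K) :
    rho b k * (Ng b K : ℝ) = 2 ^ (2 * b * (K - k) + b) := by
  obtain ⟨c, rfl⟩ := Nat.exists_eq_add_of_le h
  rw [Ng_cast]
  unfold rho
  rw [half_mul_two]
  · congr 1
    rw [Nat.add_sub_cancel_left, Nat.sub_eq_iff_eq_add] <;> nlinarith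
  · nlinarith

lemma wid_mul {b k K : ℕ} (h : k ≤ K) :
    wid b k * (Ng b K : ℝ) = 2 ^ (2 * b * (K - k)) := by
  obtain ⟨c, rfl⟩ := Nat.exists_eq_add_of_le h
  rw [Ng_cast]
  unfold wid
  rw [half_mul_two]
  · congr 1
    rw [Nat.add_sub_cancel_left, Nat.sub_eq_iff_eq_add] <;> nlinarith
  · nlinarith

lemma yy_mul {b k K : ℕ} (hb : 1 ≤ b) (h : k ≤ K) : ∃ Y : ℤ, yy k * (Ng b K : ℝ) = Y := by
  have h1 : k + 2 ≤ b * (2 * K + 3) := by nlinarith
  have h2 : 2 ≤ b * (2 * K + 3) := by nlinarith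
  refine ⟨2 ^ (b * (2 * K + 3) - 2) + 2 ^ (b * (2 * K + 3) - (k + 2)), ?_⟩
  rw [Ng_cast]
  unfold yy
  have e1 : (1 / 4 : ℝ) = (1 / 2) ^ 2 := by norm_num
  rw [add_mul, e1, half_mul_two _ _ h2, half_mul_two _ _ h1]
  push_cast
  ring

/-- the row `j` of the grid belongs to the finger `k` -/
def InRow (b K : ℕ) (j : ℤ) (k : ℕ) : Prop :=
  k ≤ K ∧ yy k * (Ng b K : ℝ) ≤ j ∧ (j : ℝ) < (yy k + wid b k) * (Ng b K : ℝ)

open Classical in
/-- the lengths of the rows to the left of the unit square -/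
noncomputable def lrow (b K : ℕ) (j : ℤ) : ℤ :=
  if h : ∃ k, InRow b K j k then 2 ^ (2 * b * (K - Classical.choose h) + b) else 0

lemma InRow_unique {b K : ℕ} (hb : 1 ≤ b) {j : ℤ} {k k' : ℕ} (h : InRow b K j k)
    (h' : InRow b K j k') : k = k' := by
  have hN : (0 : ℝ) < Ng b K := by rw [Ng_cast]; positivity
  rcases lt_trichotomy k k' with hlt | heq | hlt
  · have h1 := yy_sep hb hlt
    have h2 := h.2.1
    have h3 := h'.2.2
    have := mul_lt_mul_of_pos_right h1 hN
    linarith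
  · exact heq
  · have h1 := yy_sep hb hlt
    have h2 := h'.2.1
    have h3 := h.2.2
    have := mul_lt_mul_of_pos_right h1 hN
    linarith

lemma lrow_of_InRow {b K : ℕ} (hb : 1 ≤ b) {j : ℤ} {k : ℕ} (h : InRow b K j k) :
    lrow b K j = 2 ^ (2 * b * (K - k) + b) := by
  have hex : ∃ k, InRow b K j k := ⟨k, h⟩
  unfold lrow
  rw [dif_pos hex, InRow_unique hb (Classical.choose_spec hex) h]

lemma grid_Dom {b : ℕ} (hb : 1 ≤ b) (K : ℕ) :
    Grid (Dom b) (Ng b K) (2 ^ (b * (2 * K + 3) - 1)) (lrow b K) where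
  hM := Nat.one_le_two_pow
  hN := by
    unfold Ng
    rw [← pow_succ']
    congr 1
    have : 1 ≤ b * (2 * K + 3) := by nlinarith
    omega
  l0 := by
    intro j
    unfold lrow
    split_ifs
    · positivity
    · exact le_rfl
  isOpen := isOpen_Dom b
  row := by
    intro j hj0 hjN x h1 h2 h3 h4
    have hN : (0 : ℝ) < Ng b K := by rw [Ng_cast]; positivity
    have hx1 : x 0 < 1 := by
      by_contra hcon
      push Not at hcon
      nlinarith
    have hj0' : (0 : ℝ) ≤ j := by exact_mod_cast hj0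
    have hjN' : (j : ℝ) + 1 ≤ Ng b K := by exact_mod_cast hjN
    by_cases h : ∃ k, InRow b K j k
    · obtain ⟨k, hk⟩ := h
      rw [lrow_of_InRow hb hk] at h1
      have h5 := rho_mul (b := b) hk.1
      push_cast at h1
      rw [← h5] at h1
      right
      rw [Set.mem_iUnion]
      refine ⟨k, ⟨?_, hx1⟩, ?_, ?_⟩
      · by_contra hcon
        push Not at hcon
        nlinarith
      · by_contra hcon
        push Not at hcon
        have := hk.2.1
        nlinarith
      · obtain ⟨Y, hY⟩ := yy_mul (K := K) hb hk.1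
        have hW := wid_mul (b := b) hk.1
        have h6 := hk.2.2
        rw [add_mul, hY, hW] at h6
        have h7 : j < Y + 2 ^ (2 * b * (K - k)) := by exact_mod_cast h6
        have h8 : (j : ℝ) + 1 ≤ Y + 2 ^ (2 * b * (K - k)) := by exact_mod_cast h7
        rw [← hY, ← hW, ← add_mul] at h8
        by_contra hcon
        push Not at hcon
        nlinarith
    · have hl : lrow b K j = 0 := by unfold lrow; rw [dif_neg h]
      rw [hl] at h1
      left
      refine ⟨⟨?_, hx1⟩, ?_, ?_⟩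
      · by_contra hcon
        push Not at hcon
        push_cast at h1
        nlinarith
      · by_contra hcon
        push Not at hcon
        nlinarith
      · by_contra hcon
        push Not at hcon
        nlinarith
  vol := volume_Dom_le hb
  vol0 := (lt_of_lt_of_le one_pos (volume_Dom_ge b)).ne'

end Pool.Agent.Helper579.Iid
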