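import Mathlib
import Pool.Agent.Helper579.IidDomain

set_option autoImplicit false

namespace Pool.Agent.Helper579.Iid

open MeasureTheory Set Filter
open scoped ENNReal Topology

/-- oscillation along a thin finger -/
lemma finger_osc {b k : ℕ} {f g₀ g₁ : (Fin 2 → ℝ) → ℝ} (H : Norm1 (Dom b) f g₀ g₁)
    {y : ℝ} (hy : yy k < y ∧ y < yy k + wid b k) {a : ℝ} (ha : -rho b k < a) (ha0 : a ≤ 0) :
    |f ![a, y] - f ![0, y]| ≤ 2 ^ b * (24 * KB * Real.sqrt (wid b k)) := by
  have hw := wid_pos b k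
  have hrw : rho b k = 2 ^ b * wid b k := by
    rw [wid_eq, mul_comm (rho b k), ← mul_assoc, ← mul_pow]
    norm_num
  have hK := one_le_KB
  set κ : ℝ := 24 * KB * Real.sqrt (wid b k) with hκ
  have hκ0 : 0 ≤ κ := by positivity
  have hD := isOpen_Dom b
  have hρ1 : rho b k ≤ 1 := by
    unfold rho; exact pow_le_one₀ (by norm_num) (by norm_num)
  -- points
  have hpt : ∀ a : ℝ, -rho b k < a → a < 1 → (![a, y] : Fin 2 → ℝ) ∈ Dom b := by
    intro a h1 h2
    right
    rw [Set.mem_iUnion]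
    exact ⟨k, ⟨h1, h2⟩, hy⟩
  -- one step
  have step : ∀ i : ℕ, i < 2 ^ b → ∀ a a' : ℝ, -rho b k < a → -rho b k < a' →
      (-((i : ℝ) + 1) * wid b k ≤ a ∧ a ≤ -(i : ℝ) * wid b k) →
      (-((i : ℝ) + 1) * wid b k ≤ a' ∧ a' ≤ -(i : ℝ) * wid b k) →
      |f ![a, y] - f ![a', y]| ≤ κ := by
    intro i hi a a' h1 h1' h2 h2'
    set c : Fin 2 → ℝ := ![-((i : ℝ) + 1) * wid b k, yy k] with hc
    have hi' : (i : ℝ) + 1 ≤ 2 ^ b := by exact_mod_cast hi
    have hsub : Box c (wid b k) ⊆ Dom b := by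
      intro x hx
      have e0 := hx 0
      have e1 := hx 1
      simp only [hc, Matrix.cons_val_zero, Matrix.cons_val_one] at e0 e1
      right
      rw [Set.mem_iUnion]
      refine ⟨k, ⟨?_, ?_⟩, e1⟩
      · rw [hrw]; nlinarith
      · have : (0 : ℝ) ≤ i := Nat.cast_nonneg i
        nlinarith
    have hcl : ∀ a : ℝ, (-((i : ℝ) + 1) * wid b k ≤ a ∧ a ≤ -(i : ℝ) * wid b k) →
        (![a, y] : Fin 2 → ℝ) ∈ closure (Box c (wid b k)) := by
      intro a ha
      rw [Box_eq, closure_pi_set]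
      intro j _
      show (![a, y] : Fin 2 → ℝ) j ∈ closure (Ioo (c j) (c j + wid b k))
      rw [closure_Ioo (by linarith)]
      fin_cases j
      · show -((i : ℝ) + 1) * wid b k ≤ a ∧ a ≤ -((i : ℝ) + 1) * wid b k + wid b k
        exact ⟨ha.1, by linarith [ha.2]⟩
      · show yy k ≤ y ∧ y ≤ yy k + wid b k
        exact ⟨hy.1.le, hy.2.le⟩
    have hi0 : (0 : ℝ) ≤ i := Nat.cast_nonneg i
    have hlt : ∀ a, a ≤ -(i : ℝ) * wid b k → a < 1 := fun a ha => by nlinarith
    have hn0 : ∀ g : (Fin 2 → ℝ) → ℝ, eLpNorm g 4 (volume.restrict (Dom b)) ≤ 1 →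
        eLpNorm g 4 (volume.restrict (Box c (wid b k))) ≤ ENNReal.ofReal 1 := by
      intro g hg
      rw [ENNReal.ofReal_one]
      exact (eLpNorm_mono_measure g (Measure.restrict_mono hsub le_rfl)).trans hg
    have := morrey_closure hD H.grad hw hsub zero_le_one (hn0 g₀ H.n0.2.1) (hn0 g₁ H.n0.2.2)
      ⟨hcl a h2, hpt a h1 (hlt a h2.2)⟩ ⟨hcl a' h2', hpt a' h1' (hlt a' h2'.2)⟩
    rwa [mul_one] at this
  -- induction along the finger
  have ind : ∀ i : ℕ, i < 2 ^ b → |f ![-(i : ℝ) * wid b k, y] - f ![0, y]| ≤ i * κ := by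
    intro i
    induction i with
    | zero => intro _; simp
    | succ i ih =>
      intro hi
      have h1 := ih (by omega)
      have hi' : (i : ℝ) + 1 < 2 ^ b := by exact_mod_cast hi
      have hi0 : (0 : ℝ) ≤ i := Nat.cast_nonneg i
      have h2 := step i (by omega) (-((i : ℝ) + 1) * wid b k) (-(i : ℝ) * wid b k)
        (by rw [hrw]; nlinarith) (by rw [hrw]; nlinarith) ⟨le_rfl, by nlinarith⟩ ⟨by nlinarith, le_rfl⟩
      push_cast
      have h3 := abs_sub_le (f ![-((i : ℝ) + 1) * wid b k, y]) (f ![-(i : ℝ) * wid b k, y]) (f ![0, y])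
      linarith
  set i : ℕ := ⌊-a / wid b k⌋₊ with hi
  have hq0 : 0 ≤ -a / wid b k := div_nonneg (by linarith) hw.le
  have hi1 : (i : ℝ) ≤ -a / wid b k := Nat.floor_le hq0
  have hi2 : -a / wid b k < (i : ℝ) + 1 := Nat.lt_floor_add_one _
  rw [le_div_iff₀ hw] at hi1
  rw [div_lt_iff₀ hw] at hi2
  have hi3 : i < 2 ^ b := by
    have : (i : ℝ) < 2 ^ b := by
      rw [hrw] at ha
      by_contra hcon
      push Not at hcon
      nlinarith
    exact_mod_cast this
  have h1 := ind i hi3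
  have hi4 : (i : ℝ) + 1 ≤ 2 ^ b := by exact_mod_cast hi3
  have h2 := step i hi3 a (-(i : ℝ) * wid b k) ha (by rw [hrw]; nlinarith)
    ⟨by linarith, by linarith⟩ ⟨by nlinarith, le_rfl⟩
  have h3 := abs_sub_le (f ![a, y]) (f ![-(i : ℝ) * wid b k, y]) (f ![0, y])
  calc |f ![a, y] - f ![0, y]| ≤ κ + i * κ := by linarith
    _ = ((i : ℝ) + 1) * κ := by ring
    _ ≤ 2 ^ b * κ := by gcongr

lemma small_Dom {b : ℕ} (hb : 1 ≤ b) (K : ℕ) {f g₀ g₁ : (Fin 2 → ℝ) → ℝ}
    (H : Norm1 (Dom b) f g₀ g₁) {z : Fin 2 → ℝ} (hz : z ∈ Dom b) :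
    cidx (Ng b K) (lrow b K) z ∈ cells (Ng b K) (lrow b K) ∧
      ∃ z₀ ∈ Dom b, z₀ ∈ closure (cbox (Ng b K) (cidx (Ng b K) (lrow b K) z)) ∧
        |f z - f z₀| ≤ 24 * KB * Real.sqrt (1 / (Ng b K : ℕ)) := by
  have hK := one_le_KB
  set N := Ng b K with hNdef
  have hN : (0 : ℝ) < N := by rw [hNdef, Ng_cast]; positivity
  set τ : ℝ := 24 * KB * Real.sqrt (1 / (N : ℕ)) with hτ
  have hτ0 : 0 ≤ τ := by positivity
  have hG := grid_Dom hb K
  rw [← hNdef] at hG
  have hzb := Dom_subset hb hz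
  set i : ℤ := ⌊z 0 * N⌋ with hi
  set j : ℤ := ⌊z 1 * N⌋ with hj
  have hci : cellIdx N z = (i, j) := rfl
  have hj0 : 0 ≤ j := by rw [hj, Int.le_floor]; push_cast; nlinarith [hzb.2.1]
  have hjN : j < N := by rw [hj, Int.floor_lt]; push_cast; nlinarith [hzb.2.2]
  have hiN : i < N := by rw [hi, Int.floor_lt]; push_cast; nlinarith [hzb.1.2]
  have hiN' : -(N : ℤ) ≤ i := by rw [hi, Int.le_floor]; push_cast; nlinarith [hzb.1.1]
  -- the case without clamping
  have key : -lrow b K j ≤ i → cidx N (lrow b K) z ∈ cells N (lrow b K) ∧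
      ∃ z₀ ∈ Dom b, z₀ ∈ closure (cbox N (cidx N (lrow b K) z)) ∧ |f z - f z₀| ≤ τ := by
    intro h
    have hc : cidx N (lrow b K) z = (i, j) := by
      unfold cidx
      rw [hci]
      simp only
      rw [max_eq_left h]
    rw [hc]
    refine ⟨mem_cells.mpr ⟨⟨hiN', hiN⟩, ⟨hj0, hjN⟩, h⟩, z, hz, closure_cbox_of_cellIdx hN hci, ?_⟩
    rw [sub_self, abs_zero]; exact hτ0
  by_cases hz0 : 0 < z 0
  · apply key
    have : 0 ≤ i := by rw [hi, Int.le_floor]; push_cast; positivity
    linarith [hG.l0 j]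
  · push Not at hz0
    obtain ⟨k, hk⟩ := Dom_nonpos hz hz0
    by_cases hkK : k ≤ K
    · apply key
      obtain ⟨Y, hY⟩ := yy_mul (K := K) hb hkK
      have hW := wid_mul (b := b) hkK
      have hrow : InRow b K j k := by
        refine ⟨hkK, ?_, ?_⟩
        · rw [hY]
          have : Y ≤ j := by
            rw [hj, Int.le_floor, ← hY]
            nlinarith [hk.2.1]
          exact_mod_cast this
        · rw [← hNdef]
          have h1 := Int.floor_le (z 1 * N)
          nlinarith [hk.2.2]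
      rw [lrow_of_InRow hb hrow, hi, Int.le_floor]
      push_cast
      rw [← rho_mul hkK, ← hNdef]
      nlinarith [hk.1.1]
    · push Not at hkK
      -- the finger is thinner than the grid
      have hno : ¬ ∃ k', InRow b K j k' := by
        rintro ⟨k', hk'1, hk'2, _⟩
        have h1 := yy_sep hb (show k' < k by omega)
        have h2 := Int.floor_le (z 1 * N)
        rw [← hNdef] at hk'2
        have h3 : yy k' * N ≤ z 1 * N := hk'2.trans h2
        have h4 : yy k' ≤ z 1 := le_of_mul_le_mul_right h3 hN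
        linarith [hk.2.2]
      have hl : lrow b K j = 0 := by unfold lrow; rw [dif_neg hno]
      have hi0 : i ≤ 0 := by
        rw [hi]
        have : ⌊z 0 * N⌋ < 1 := by rw [Int.floor_lt]; push_cast; nlinarith
        omega
      have hc : cidx N (lrow b K) z = (0, j) := by
        unfold cidx
        rw [hci]
        simp only
        rw [hl, neg_zero, max_eq_right hi0]
      have hN0 : (0 : ℤ) < N := by exact_mod_cast hN
      rw [hc]
      refine ⟨mem_cells.mpr ⟨⟨by simp only; omega, by simp only; omega⟩, ⟨hj0, hjN⟩, by rw [hl]; simp⟩, ?_⟩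
      have hzv : z = ![z 0, z 1] := by
        funext m; fin_cases m <;> rfl
      refine ⟨![0, z 1], ?_, ?_, ?_⟩
      · right
        rw [Set.mem_iUnion]
        exact ⟨k, ⟨by simpa using rho_pos b k, by simp⟩, hk.2⟩
      · apply mem_closure_cbox hN
        · simp
        · simp
        · exact Int.floor_le (z 1 * N)
        · exact (Int.lt_floor_add_one (z 1 * N)).le
      · have h1 := finger_osc H hk.2 hk.1.1 hz0
        rw [← hzv] at h1
        refine h1.trans ?_
        have h2 : Real.sqrt (wid b k) ≤ (1 / 2) ^ b * Real.sqrt (1 / (N : ℝ)) := by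
          rw [← Real.sqrt_sq (show (0 : ℝ) ≤ (1 / 2) ^ b by positivity), ← Real.sqrt_mul (by positivity)]
          apply Real.sqrt_le_sqrt
          rw [hNdef, Ng_cast]
          unfold wid
          rw [← pow_mul, one_div (2 ^ (b * (2 * K + 3)) : ℝ), ← inv_pow, ← one_div, ← pow_add]
          apply pow_le_pow_of_le_one (by norm_num) (by norm_num)
          nlinarith
        calc 2 ^ b * (24 * KB * Real.sqrt (wid b k))
            ≤ 2 ^ b * (24 * KB * ((1 / 2) ^ b * Real.sqrt (1 / (N : ℝ)))) := by gcongr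
          _ = (2 ^ b * (1 / 2) ^ b) * (24 * KB * Real.sqrt (1 / (N : ℝ))) := by ring
          _ = τ := by
              rw [← mul_pow, show (2 : ℝ) * (1 / 2) = 1 by norm_num, one_pow, one_mul]

/-- **Upper bound for the domain with fingers at the good scales.** -/
theorem good_scale {b : ℕ} (hb : 1 ≤ b) (K : ℕ) :
    minErr (Dom b) 1 4 ∞ .ran (Ng b K ^ 2)
      ≤ ENNReal.ofReal ((24 * KB + Cg) * Real.sqrt (1 / (Ng b K : ℕ))) := by
  have hK := one_le_KB
  have h := upper_grid (grid_Dom hb K) (τ := 24 * KB * Real.sqrt (1 / (Ng b K : ℕ)))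
    (by positivity) (fun f g₀ g₁ H => ae_restrict_of_forall_mem (isOpen_Dom b).measurableSet
      fun z hz => small_Dom hb K H hz)
  refine h.trans (ENNReal.ofReal_le_ofReal (le_of_eq ?_))
  ring

end Pool.Agent.Helper579.Iid
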