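import Mathlib
import Pool.Agent.Helper579.IidGood

set_option autoImplicit false

namespace Pool.Agent.Helper579.Iid

open MeasureTheory Set Filter
open scoped ENNReal Topology

/-- the strip that contains the finger -/
def Strip (b K : ℕ) : Set (Fin 2 → ℝ) := {x | yy K < x 1 ∧ x 1 < yy K + wid b K}

lemma measurableSet_Strip (b K : ℕ) : MeasurableSet (Strip b K) := by
  have h1 : Measurable fun x : Fin 2 → ℝ => x 1 := measurable_pi_apply 1
  exact (measurableSet_lt measurable_const h1).inter (measurableSet_lt h1 measurable_const)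

lemma isOpen_Strip (b K : ℕ) : IsOpen (Strip b K) := by
  have h1 : Continuous fun x : Fin 2 → ℝ => x 1 := continuous_apply 1
  exact (isOpen_lt continuous_const h1).inter (isOpen_lt h1 continuous_const)

/-- the fooling function -/
noncomputable def fF (b K : ℕ) (c : ℝ) : (Fin 2 → ℝ) → ℝ :=
  (Strip b K).indicator fun x => c * max 0 (0 - x 0)

/-- its derivative -/
noncomputable def gF (b K : ℕ) (c : ℝ) : (Fin 2 → ℝ) → ℝ :=
  (Strip b K).indicator (({x : Fin 2 → ℝ | x 0 ≤ 0}).indicator fun _ => -c)

lemma measurableSet_nonpos : MeasurableSet {x : Fin 2 → ℝ | x 0 ≤ 0} :=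
  measurableSet_le (measurable_pi_apply 0) measurable_const

lemma measurable_fF (b K : ℕ) (c : ℝ) : Measurable (fF b K c) :=
  (measurable_const.mul (measurable_const.max (measurable_const.sub (measurable_pi_apply 0)))).indicator
    (measurableSet_Strip b K)

lemma measurable_gF (b K : ℕ) (c : ℝ) : Measurable (gF b K c) :=
  (measurable_const.indicator measurableSet_nonpos).indicator (measurableSet_Strip b K)

lemma fF_cont {b : ℕ} (hb : 1 ≤ b) (K : ℕ) (c : ℝ) : ContinuousOn (fF b K c) (Dom b) := by
  intro x hx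
  by_cases hxS : x ∈ Strip b K
  · apply ContinuousAt.continuousWithinAt
    have h1 : fF b K c =ᶠ[𝓝 x] fun x => c * max 0 (0 - x 0) := by
      filter_upwards [(isOpen_Strip b K).mem_nhds hxS] with y hy
      unfold fF
      rw [Set.indicator_of_mem hy]
    have h2 : Continuous fun x : Fin 2 → ℝ => c * max 0 (0 - x 0) := by
      have h0 : Continuous fun x : Fin 2 → ℝ => x 0 := continuous_apply 0
      fun_prop
    exact h2.continuousAt.congr h1.symm
  · have h0 : fF b K c x = 0 := by unfold fF; rw [Set.indicator_of_notMem hxS]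
    apply ContinuousAt.continuousWithinAt
    have h1 : fF b K c =ᶠ[𝓝 x] fun _ => 0 := by
      by_cases hx0 : 0 < x 0
      · have hopen : IsOpen {y : Fin 2 → ℝ | 0 < y 0} :=
          isOpen_lt continuous_const (continuous_apply 0)
        filter_upwards [hopen.mem_nhds hx0] with y hy
        unfold fF
        by_cases hyS : y ∈ Strip b K
        · rw [Set.indicator_of_mem hyS, max_eq_left (by linarith [show 0 < y 0 from hy]), mul_zero]
        · rw [Set.indicator_of_notMem hyS]
      · push Not at hx0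
        obtain ⟨k, hk⟩ := Dom_nonpos hx hx0
        filter_upwards [(isOpen_Finger b k).mem_nhds hk] with y hy
        unfold fF
        rw [Set.indicator_of_notMem]
        intro hyS
        have := Finger_unique hb hy.2.1 hy.2.2 hyS.1.le hyS.2.le
        subst this
        exact hxS hk.2
    have h2 : ContinuousAt (fun _ : Fin 2 → ℝ => (0 : ℝ)) x := continuousAt_const
    exact h2.congr h1.symm

lemma not_mem_Dom_of_edge {b : ℕ} (hb : 1 ≤ b) (K : ℕ) {a y : ℝ} (ha : a < 0)
    (hy : y = yy K ∨ y = yy K + wid b K) : (![a, y] : Fin 2 → ℝ) ∉ Dom b := by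
  intro hx
  obtain ⟨k, hk⟩ := Dom_nonpos hx (by simpa using ha.le)
  have h1 : yy k < y := hk.2.1
  have h2 : y < yy k + wid b k := hk.2.2
  have hw := wid_pos b K
  have h3 : yy K ≤ y := by rcases hy with h | h <;> linarith
  have h4 : y ≤ yy K + wid b K := by rcases hy with h | h <;> linarith
  have := Finger_unique hb h1 h2 h3 h4
  subst this
  rcases hy with h | h <;> linarith

lemma fF_grad {b : ℕ} (hb : 1 ≤ b) (K : ℕ) (c : ℝ) :
    HasGrad (Dom b) (fF b K c) (gF b K c) (fun _ => 0) where
  cont := fF_cont hb K c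
  loc₀ := by
    have h1 : IntegrableOn (gF b K c) (Dom b) := by
      apply Measure.integrableOn_of_bounded (M := |c|)
      · exact (lt_of_le_of_lt (volume_Dom_le hb) (by norm_num)).ne
      · exact (measurable_gF b K c).aestronglyMeasurable
      · refine Filter.Eventually.of_forall fun x => ?_
        unfold gF
        rw [Real.norm_eq_abs]
        by_cases h1 : x ∈ Strip b K
        · rw [Set.indicator_of_mem h1]
          by_cases h2 : x ∈ {x : Fin 2 → ℝ | x 0 ≤ 0}
          · rw [Set.indicator_of_mem h2, abs_neg]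
          · rw [Set.indicator_of_notMem h2, abs_zero]; exact abs_nonneg _
        · rw [Set.indicator_of_notMem h1, abs_zero]; exact abs_nonneg _
    exact fun x _ => ⟨Dom b, self_mem_nhdsWithin, h1⟩
  loc₁ := by
    intro x _
    exact ⟨Dom b, self_mem_nhdsWithin, integrableOn_zero⟩
  w₀ := by
    intro φ hφ hc hs
    have hdiff : Differentiable ℝ φ := hφ.differentiable (by simp)
    have hp := pderiv_continuous hφ 0
    have hpc := pderiv_compact hc 0
    have h0 : Continuous fun x : Fin 2 → ℝ => x 0 := continuous_apply 0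
    have i1 : Integrable (fun x : Fin 2 → ℝ => (c * max 0 (0 - x 0)) * pderiv 0 φ x) :=
      Continuous.integrable_of_hasCompactSupport (by fun_prop) hpc.mul_left
    have i2 : Integrable φ := hφ.continuous.integrable_of_hasCompactSupport hc
    have e1 : ∀ x, fF b K c x * pderiv 0 φ x
        = (Strip b K).indicator (fun x => (c * max 0 (0 - x 0)) * pderiv 0 φ x) x := by
      intro x
      unfold fF
      by_cases h : x ∈ Strip b K
      · rw [Set.indicator_of_mem h, Set.indicator_of_mem h]
      · rw [Set.indicator_of_notMem h, Set.indicator_of_notMem h, zero_mul]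
    have e2 : ∀ x, gF b K c x * φ x
        = (Strip b K).indicator (({x : Fin 2 → ℝ | x 0 ≤ 0}).indicator fun x => -c * φ x) x := by
      intro x
      unfold gF
      by_cases h : x ∈ Strip b K
      · rw [Set.indicator_of_mem h, Set.indicator_of_mem h]
        by_cases h2 : x ∈ {x : Fin 2 → ℝ | x 0 ≤ 0}
        · rw [Set.indicator_of_mem h2, Set.indicator_of_mem h2]
        · rw [Set.indicator_of_notMem h2, Set.indicator_of_notMem h2, zero_mul]
      · rw [Set.indicator_of_notMem h, Set.indicator_of_notMem h, zero_mul]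
    have j1 : Integrable (fun x => fF b K c x * pderiv 0 φ x) := by
      rw [funext e1]; exact i1.indicator (measurableSet_Strip b K)
    have j2 : Integrable (fun x => gF b K c x * φ x) := by
      rw [funext e2]
      exact ((i2.const_mul (-c)).indicator measurableSet_nonpos).indicator (measurableSet_Strip b K)
    rw [setIntegral_eq_integral_of_forall_compl_eq_zero (s := Dom b) (fun x hx => by
      rw [pderiv_zero_off hs 0 hx, mul_zero]),
      setIntegral_eq_integral_of_forall_compl_eq_zero (s := Dom b) (fun x hx => by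
      rw [show φ x = 0 from by
        by_contra hcon; exact hx (hs (subset_tsupport _ hcon)), mul_zero])]
    rw [integral_two j1, integral_two j2, ← integral_neg]
    congr 1
    funext y
    by_cases hy : yy K < y ∧ y < yy K + wid b K
    · have m1 : ∀ a : ℝ, (![a, y] : Fin 2 → ℝ) ∈ Strip b K := fun a => hy
      have e3 : ∀ a : ℝ, fF b K c ![a, y] * pderiv 0 φ ![a, y]
          = c * ((max 0 (0 - a)) ^ (0 + 1) * pderiv 0 φ ![a, y]) := by
        intro a
        rw [e1, Set.indicator_of_mem (m1 a)]
        simp only [Matrix.cons_val_zero, zero_add, pow_one]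
        ring
      have e4 : ∀ a : ℝ, gF b K c ![a, y] * φ ![a, y]
          = -c * (Set.Iic (0 : ℝ)).indicator (fun a => φ ![a, y]) a := by
        intro a
        rw [e2, Set.indicator_of_mem (m1 a)]
        by_cases h2 : a ≤ 0
        · rw [Set.indicator_of_mem (show (![a, y] : Fin 2 → ℝ) ∈ {x : Fin 2 → ℝ | x 0 ≤ 0} from h2),
            Set.indicator_of_mem (show a ∈ Set.Iic (0 : ℝ) from h2)]
        · rw [Set.indicator_of_notMem
            (show (![a, y] : Fin 2 → ℝ) ∉ {x : Fin 2 → ℝ | x 0 ≤ 0} from h2),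
            Set.indicator_of_notMem (show a ∉ Set.Iic (0 : ℝ) from h2), mul_zero]
      simp only [e3, e4]
      rw [integral_const_mul, integral_const_mul, integral_indicator measurableSet_Iic]
      have hcv : Continuous fun a : ℝ => (![a, y] : Fin 2 → ℝ) :=
        continuous_vec2.comp (continuous_id.prodMk continuous_const)
      have h5 := ibp_pos (fun a => φ ![a, y]) (fun a => pderiv 0 φ ![a, y])
        (fun a => hasDerivAt_sec0 hdiff a y) (hp.comp hcv) (compact_sec0 hc y)
        (compact_sec0 hpc y) 0 0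
      rw [h5]
      simp
    · have m1 : ∀ a : ℝ, (![a, y] : Fin 2 → ℝ) ∉ Strip b K := fun a => hy
      have e3 : ∀ a : ℝ, fF b K c ![a, y] * pderiv 0 φ ![a, y] = 0 := fun a => by
        rw [e1, Set.indicator_of_notMem (m1 a)]
      have e4 : ∀ a : ℝ, gF b K c ![a, y] * φ ![a, y] = 0 := fun a => by
        rw [e2, Set.indicator_of_notMem (m1 a)]
      simp only [e3, e4]
      simp
  w₁ := by
    intro φ hφ hc hs
    have hdiff : Differentiable ℝ φ := hφ.differentiable (by simp)
    have hp := pderiv_continuous hφ 1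
    have hpc := pderiv_compact hc 1
    have h0 : Continuous fun x : Fin 2 → ℝ => x 0 := continuous_apply 0
    have i1 : Integrable (fun x : Fin 2 → ℝ => (c * max 0 (0 - x 0)) * pderiv 1 φ x) :=
      Continuous.integrable_of_hasCompactSupport (by fun_prop) hpc.mul_left
    have e1 : ∀ x, fF b K c x * pderiv 1 φ x
        = (Strip b K).indicator (fun x => (c * max 0 (0 - x 0)) * pderiv 1 φ x) x := by
      intro x
      unfold fF
      by_cases h : x ∈ Strip b K
      · rw [Set.indicator_of_mem h, Set.indicator_of_mem h]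
      · rw [Set.indicator_of_notMem h, Set.indicator_of_notMem h, zero_mul]
    have j1 : Integrable (fun x => fF b K c x * pderiv 1 φ x) := by
      rw [funext e1]; exact i1.indicator (measurableSet_Strip b K)
    rw [setIntegral_eq_integral_of_forall_compl_eq_zero (s := Dom b) (fun x hx => by
      rw [pderiv_zero_off hs 1 hx, mul_zero])]
    rw [integral_two' j1]
    have hw := wid_pos b K
    have hz : ∀ a : ℝ, ∫ y, fF b K c ![a, y] * pderiv 1 φ ![a, y] = 0 := by
      intro a
      by_cases ha : a < 0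
      · have e3 : ∀ y : ℝ, fF b K c ![a, y] * pderiv 1 φ ![a, y]
            = (Set.Ioo (yy K) (yy K + wid b K)).indicator
              (fun y => (c * max 0 (0 - a)) * pderiv 1 φ ![a, y]) y := by
          intro y
          rw [e1]
          by_cases h2 : y ∈ Set.Ioo (yy K) (yy K + wid b K)
          · rw [Set.indicator_of_mem h2, Set.indicator_of_mem
              (show (![a, y] : Fin 2 → ℝ) ∈ Strip b K from h2)]
            simp
          · rw [Set.indicator_of_notMem h2, Set.indicator_of_notMem
              (show (![a, y] : Fin 2 → ℝ) ∉ Strip b K from h2)]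
        simp only [e3]
        rw [integral_indicator measurableSet_Ioo, integral_const_mul,
          ← integral_Ioc_eq_integral_Ioo, ← intervalIntegral.integral_of_le (by linarith)]
        have hcv : Continuous fun y : ℝ => (![a, y] : Fin 2 → ℝ) :=
          continuous_vec2.comp (continuous_const.prodMk continuous_id)
        rw [intervalIntegral.integral_eq_sub_of_hasDerivAt (f := fun y => φ ![a, y])
          (fun y _ => hasDerivAt_sec1 hdiff a y) ((hp.comp hcv).intervalIntegrable _ _)]
        have z1 : φ ![a, yy K] = 0 := by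
          by_contra hcon
          exact not_mem_Dom_of_edge hb K ha (Or.inl rfl) (hs (subset_tsupport _ hcon))
        have z2 : φ ![a, yy K + wid b K] = 0 := by
          by_contra hcon
          exact not_mem_Dom_of_edge hb K ha (Or.inr rfl) (hs (subset_tsupport _ hcon))
        rw [z1, z2]; ring
      · have e3 : ∀ y : ℝ, fF b K c ![a, y] * pderiv 1 φ ![a, y] = 0 := by
          intro y
          rw [e1]
          by_cases h2 : (![a, y] : Fin 2 → ℝ) ∈ Strip b K
          · rw [Set.indicator_of_mem h2]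
            simp only [Matrix.cons_val_zero]
            rw [max_eq_left (by linarith), mul_zero, zero_mul]
          · rw [Set.indicator_of_notMem h2]
        simp only [e3]
        simp
    simp only [hz]
    simp

/-- the rectangle where the fooling function lives -/
noncomputable def Rf (b K : ℕ) : Set (Fin 2 → ℝ) :=
  Set.univ.pi ![Set.Ioc (-rho b K) 0, Set.Ioo (yy K) (yy K + wid b K)]

lemma mem_Rf {b K : ℕ} {x : Fin 2 → ℝ} : x ∈ Rf b K ↔
    (-rho b K < x 0 ∧ x 0 ≤ 0) ∧ (yy K < x 1 ∧ x 1 < yy K + wid b K) := by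
  unfold Rf
  simp [Set.mem_pi, Fin.forall_fin_two]

lemma measurableSet_Rf (b K : ℕ) : MeasurableSet (Rf b K) := by
  unfold Rf
  apply MeasurableSet.univ_pi
  intro i
  fin_cases i
  · exact measurableSet_Ioc
  · exact measurableSet_Ioo

lemma volume_Rf (b K : ℕ) : volume (Rf b K) = ENNReal.ofReal (rho b K * wid b K) := by
  unfold Rf
  rw [volume_pi_pi]
  simp only [Fin.prod_univ_two, Matrix.cons_val_zero, Matrix.cons_val_one]
  rw [Real.volume_Ioc, Real.volume_Ioo, ENNReal.ofReal_mul (rho_pos b K).le]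
  congr 2 <;> ring

lemma pow4_eLpNorm (g : (Fin 2 → ℝ) → ℝ) (μ : Measure (Fin 2 → ℝ)) :
    eLpNorm g 4 μ ^ 4 = ∫⁻ x, ‖g x‖ₑ ^ 4 ∂μ := by
  rw [eLpNorm_eq_lintegral_rpow_enorm_toReal (by norm_num) (by norm_num)]
  have h4 : (4 : ℝ≥0∞).toReal = ((4 : ℕ) : ℝ) := by norm_num
  rw [h4, ← ENNReal.rpow_natCast, ← ENNReal.rpow_mul]
  norm_num

lemma pow4_le_of_supp {D R : Set (Fin 2 → ℝ)} (hR : MeasurableSet R) (hD : MeasurableSet D)
    {g : (Fin 2 → ℝ) → ℝ} {c : ℝ}
    (h : ∀ x ∈ D, x ∈ R → |g x| ≤ c) (h0 : ∀ x ∈ D, x ∉ R → g x = 0) :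
    eLpNorm g 4 (volume.restrict D) ^ 4 ≤ ENNReal.ofReal c ^ 4 * volume R := by
  rw [pow4_eLpNorm]
  calc ∫⁻ x in D, ‖g x‖ₑ ^ 4 ≤ ∫⁻ x in D, R.indicator (fun _ => ENNReal.ofReal c ^ 4) x := by
        apply setLIntegral_mono' hD
        intro x hx
        by_cases hxR : x ∈ R
        · rw [Set.indicator_of_mem hxR, Real.enorm_eq_ofReal_abs]
          gcongr
          exact h x hx hxR
        · rw [Set.indicator_of_notMem hxR, h0 x hx hxR]
          simp
    _ ≤ ∫⁻ x, R.indicator (fun _ => ENNReal.ofReal c ^ 4) x := setLIntegral_le_lintegral _ _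
    _ = ENNReal.ofReal c ^ 4 * volume R := lintegral_indicator_const hR _

lemma fF_mem {b : ℕ} (hb : 1 ≤ b) (K : ℕ) {c : ℝ} (hc : 0 ≤ c)
    (hc4 : c ^ 4 * (2 * (rho b K * wid b K)) ≤ 1) : fF b K c ∈ sobBall (Dom b) 1 4 := by
  have hDm := (isOpen_Dom b).measurableSet
  have hr := rho_pos b K
  have hw := wid_pos b K
  have hr1 : rho b K ≤ 1 := by
    unfold rho; exact pow_le_one₀ (by norm_num) (by norm_num)
  apply mem_sobBall_one hDm (fF_grad hb K c)
  have hfing : ∀ x ∈ Dom b, x ∈ Strip b K → x 0 ≤ 0 → -rho b K < x 0 := by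
    intro x hx hxS hx0
    obtain ⟨k, hk⟩ := Dom_nonpos hx hx0
    have := Finger_unique hb hk.2.1 hk.2.2 hxS.1.le hxS.2.le
    subst this
    exact hk.1.1
  have h1 : eLpNorm (fF b K c) 4 (volume.restrict (Dom b)) ^ 4
      ≤ ENNReal.ofReal c ^ 4 * volume (Rf b K) := by
    apply pow4_le_of_supp (measurableSet_Rf b K) hDm
    · intro x _ hxR
      rw [mem_Rf] at hxR
      unfold fF
      rw [Set.indicator_of_mem (show x ∈ Strip b K from hxR.2), max_eq_right (by linarith [hxR.1.2]),
        abs_of_nonneg (mul_nonneg hc (by linarith [hxR.1.2]))]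
      nlinarith [hxR.1.1]
    · intro x hx hxR
      unfold fF
      by_cases h : x ∈ Strip b K
      · rw [Set.indicator_of_mem h]
        by_cases h0 : x 0 ≤ 0
        · exact absurd (mem_Rf.mpr ⟨⟨hfing x hx h h0, h0⟩, h⟩) hxR
        · rw [max_eq_left (by linarith), mul_zero]
      · rw [Set.indicator_of_notMem h]
  have h2 : eLpNorm (gF b K c) 4 (volume.restrict (Dom b)) ^ 4
      ≤ ENNReal.ofReal c ^ 4 * volume (Rf b K) := by
    apply pow4_le_of_supp (measurableSet_Rf b K) hDm
    · intro x _ hxR
      rw [mem_Rf] at hxR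
      unfold gF
      rw [Set.indicator_of_mem (show x ∈ Strip b K from hxR.2),
        Set.indicator_of_mem (show x ∈ {x : Fin 2 → ℝ | x 0 ≤ 0} from hxR.1.2), abs_neg,
        abs_of_nonneg hc]
    · intro x hx hxR
      unfold gF
      by_cases h : x ∈ Strip b K
      · rw [Set.indicator_of_mem h]
        by_cases h0 : x 0 ≤ 0
        · exact absurd (mem_Rf.mpr ⟨⟨hfing x hx h h0, h0⟩, h⟩) hxR
        · rw [Set.indicator_of_notMem (show x ∉ {x : Fin 2 → ℝ | x 0 ≤ 0} from h0)]
      · rw [Set.indicator_of_notMem h]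
  have h3 : eLpNorm (fun _ : Fin 2 → ℝ => (0 : ℝ)) 4 (volume.restrict (Dom b)) = 0 := eLpNorm_zero'
  rw [h3]
  have h4 : (0 : ℝ≥0∞) ^ 4 = 0 := by norm_num
  rw [h4, add_zero]
  refine (add_le_add h1 h2).trans ?_
  rw [volume_Rf, ← ENNReal.ofReal_pow hc, ← ENNReal.ofReal_mul (by positivity),
    ← ENNReal.ofReal_add (by positivity) (by positivity), ← ENNReal.ofReal_one]
  apply ENNReal.ofReal_le_ofReal
  nlinarith

lemma fF_sup {b : ℕ} (K : ℕ) {c : ℝ} (hc : 0 < c) :
    ENNReal.ofReal (c * rho b K / 2) ≤ eLpNorm (fF b K c) ∞ (volume.restrict (Dom b)) := by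
  by_contra hcon
  push Not at hcon
  have hr := rho_pos b K
  have hw := wid_pos b K
  set U : Set (Fin 2 → ℝ) := Set.univ.pi ![Set.Ioo (-rho b K) (-rho b K / 2),
    Set.Ioo (yy K) (yy K + wid b K)] with hU
  have hmU : ∀ x, x ∈ U ↔ (-rho b K < x 0 ∧ x 0 < -rho b K / 2) ∧
      (yy K < x 1 ∧ x 1 < yy K + wid b K) := by
    intro x
    rw [hU]
    simp [Set.mem_pi, Fin.forall_fin_two]
  have hvU : volume U ≠ 0 := by
    rw [hU, volume_pi_pi]
    simp only [Fin.prod_univ_two, Matrix.cons_val_zero, Matrix.cons_val_one]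
    rw [Real.volume_Ioo, Real.volume_Ioo]
    apply mul_ne_zero
    · rw [ENNReal.ofReal_ne_zero_iff]; linarith
    · rw [ENNReal.ofReal_ne_zero_iff]; linarith
  have hUD : U ⊆ Dom b := by
    intro x hx
    rw [hmU] at hx
    right
    rw [Set.mem_iUnion]
    exact ⟨K, ⟨hx.1.1, by linarith [hx.1.2]⟩, hx.2⟩
  have h1 : ∀ᵐ x ∂(volume.restrict (Dom b)), ‖fF b K c x‖ₑ < ENNReal.ofReal (c * rho b K / 2) := by
    have h2 := ae_le_eLpNormEssSup (f := fF b K c) (μ := volume.restrict (Dom b))
    rw [eLpNorm_exponent_top] at hcon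
    filter_upwards [h2] with x hx
    exact lt_of_le_of_lt hx hcon
  rw [ae_restrict_iff' (isOpen_Dom b).measurableSet] at h1
  have h2 : U ⊆ {x | ¬ (x ∈ Dom b → ‖fF b K c x‖ₑ < ENNReal.ofReal (c * rho b K / 2))} := by
    intro x hx
    have hxD := hUD hx
    rw [hmU] at hx
    rw [Set.mem_ofPred_eq]
    push Not
    refine ⟨hxD, ?_⟩
    rw [Real.enorm_eq_ofReal_abs]
    apply ENNReal.ofReal_le_ofReal
    unfold fF
    rw [Set.indicator_of_mem (show x ∈ Strip b K from hx.2), max_eq_right (by linarith [hx.1.2]),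
      abs_of_nonneg (mul_nonneg hc.le (by linarith [hx.1.2]))]
    nlinarith [hx.1.2]
  exact hvU (measure_mono_null h2 h1)

/-- **Lower bound for the domain with fingers.** -/
theorem bad_scale {b : ℕ} (hb : 1 ≤ b) (K n : ℕ) {c : ℝ} (hc : 0 < c)
    (hc4 : c ^ 4 * (2 * (rho b K * wid b K)) ≤ 1) :
    ENNReal.ofReal (c * rho b K / 2 * (1 - rho b K * wid b K) ^ n)
      ≤ minErr (Dom b) 1 4 ∞ .ran n := by
  have hr := rho_pos b K
  have hw := wid_pos b K
  have hr1 : rho b K ≤ 1 := by
    unfold rho; exact pow_le_one₀ (by norm_num) (by norm_num)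
  have hw1 : wid b K ≤ 1 := by
    unfold wid; exact pow_le_one₀ (by norm_num) (by norm_num)
  have hDm := (isOpen_Dom b).measurableSet
  have hvD0 : volume (Dom b) ≠ 0 := (lt_of_lt_of_le one_pos (volume_Dom_ge b)).ne'
  have hvD : volume (Dom b) ≠ ∞ := (lt_of_le_of_lt (volume_Dom_le hb) (by norm_num)).ne
  have hp := unif_isProb hvD0 hvD
  refine le_iInf fun A => ?_
  set S : Set (Fin 2 → ℝ) := (Rf b K ∪ (Dom b)ᶜ)ᶜ with hS
  have hSm : MeasurableSet S := ((measurableSet_Rf b K).union hDm.compl).compl
  have hSz : ∀ x ∈ S, fF b K c x = 0 := by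
    intro x hx
    rw [hS, Set.mem_compl_iff, Set.mem_union, not_or, Set.mem_compl_iff, not_not] at hx
    unfold fF
    by_cases h : x ∈ Strip b K
    · rw [Set.indicator_of_mem h]
      by_cases h0 : x 0 ≤ 0
      · exfalso
        obtain ⟨k, hk⟩ := Dom_nonpos hx.2 h0
        have := Finger_unique hb hk.2.1 hk.2.2 h.1.le h.2.le
        subst this
        exact hx.1 (mem_Rf.mpr ⟨⟨hk.1.1, h0⟩, h⟩)
      · rw [max_eq_left (by linarith), mul_zero]
    · rw [Set.indicator_of_notMem h]
  have h1 := fooling hDm (q := ∞) le_top (fF_mem hb K hc.le hc4) hSm hSz inferInstance A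
  refine le_trans ?_ h1
  have h2 : ENNReal.ofReal (1 - rho b K * wid b K) ≤ unif (Dom b) S := by
    have h3 : unif (Dom b) Sᶜ ≤ ENNReal.ofReal (rho b K * wid b K) := by
      rw [hS, compl_compl]
      unfold unif
      rw [Measure.smul_apply, Measure.restrict_apply ((measurableSet_Rf b K).union hDm.compl),
        smul_eq_mul]
      calc (volume (Dom b))⁻¹ * volume ((Rf b K ∪ (Dom b)ᶜ) ∩ Dom b)
          ≤ 1 * volume (Rf b K) := by
            gcongr
            · rw [ENNReal.inv_le_one]; exact volume_Dom_ge b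
            · intro x hx
              rcases hx.1 with h | h
              · exact h
              · exact absurd hx.2 h
        _ = ENNReal.ofReal (rho b K * wid b K) := by rw [one_mul, volume_Rf]
    have h4 : unif (Dom b) S = 1 - unif (Dom b) Sᶜ := by
      have h5 := prob_compl_eq_one_sub (μ := unif (Dom b)) hSm.compl
      rwa [compl_compl] at h5
    rw [h4, ENNReal.ofReal_sub _ (by positivity), ENNReal.ofReal_one]
    exact tsub_le_tsub_left h3 _
  rw [ENNReal.ofReal_mul (by positivity), ENNReal.ofReal_pow (by nlinarith)]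
  gcongr
  exact fF_sup K hc

end Pool.Agent.Helper579.Iid
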