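import Mathlib
import Pool.Agent.Helper579.IidFinger

set_option autoImplicit false

namespace Pool.Agent.Helper579.Iid

open MeasureTheory Set Filter
open scoped ENNReal Topology

/-- directions close to a diagonal -/
lemma diag_dir {θ : ℝ} (hθ0 : 0 < θ) (hθ : θ ≤ 1 / 2) {s₀ s₁ : ℝ} (h0 : s₀ ^ 2 = 1) (h1 : s₁ ^ 2 = 1)
    {y : Fin 2 → ℝ} (hy : ∑ i, y i ^ 2 = 1)
    (hc : Real.cos θ ≤ ∑ i, y i * (![s₀ / Real.sqrt 2, s₁ / Real.sqrt 2] : Fin 2 → ℝ) i) :
    0 ≤ s₀ * y 0 ∧ 0 ≤ s₁ * y 1 := by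
  simp only [Fin.sum_univ_two, Matrix.cons_val_zero, Matrix.cons_val_one] at hy hc
  have h2 : Real.sqrt 2 ^ 2 = 2 := Real.sq_sqrt (by norm_num)
  have h2p : 0 < Real.sqrt 2 := by positivity
  have hcos : 7 / 8 ≤ Real.cos θ := by
    have := Real.one_sub_sq_div_two_le_cos (x := θ)
    nlinarith
  have h3 : y 0 * (s₀ / Real.sqrt 2) + y 1 * (s₁ / Real.sqrt 2)
      = (s₀ * y 0 + s₁ * y 1) / Real.sqrt 2 := by ring
  rw [h3, le_div_iff₀ h2p] at hc
  have h4 : 7 / 8 * Real.sqrt 2 ≤ s₀ * y 0 + s₁ * y 1 := by nlinarith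
  have h5 : 1 < 7 / 8 * Real.sqrt 2 := by nlinarith
  have h6 : (s₀ * y 0) ^ 2 + (s₁ * y 1) ^ 2 = 1 := by
    rw [mul_pow, mul_pow, h0, h1, one_mul, one_mul]; exact hy
  constructor
  · by_contra hcon
    push Not at hcon
    nlinarith
  · by_contra hcon
    push Not at hcon
    nlinarith

/-- directions close to a nearly horizontal vector -/
lemma flat_dir {σ s : ℝ} (hσ0 : 0 < σ) (hσ : σ ≤ 1 / 32) (hs : s ^ 2 = 1) {y : Fin 2 → ℝ}
    (hy : ∑ i, y i ^ 2 = 1)
    (hc : Real.cos (σ / 8) ≤ ∑ i, y i * (![1 / Real.sqrt (1 + σ ^ 2),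
      s * σ / Real.sqrt (1 + σ ^ 2)] : Fin 2 → ℝ) i) :
    (1 / 2 ≤ y 0 ∧ y 0 ≤ 1) ∧ (0 ≤ s * y 1 ∧ s * y 1 ≤ 2 * σ) := by
  simp only [Fin.sum_univ_two, Matrix.cons_val_zero, Matrix.cons_val_one] at hy hc
  set n := Real.sqrt (1 + σ ^ 2) with hn
  have hn2 : n ^ 2 = 1 + σ ^ 2 := Real.sq_sqrt (by positivity)
  have hnp : 0 < n := Real.sqrt_pos.mpr (by positivity)
  have hn1 : 1 ≤ n := by nlinarith
  have hn3 : n ≤ 1 + σ ^ 2 := by nlinarith
  have hσ2 : σ ^ 2 ≤ 1 / 1024 := by nlinarith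
  set u := 1 / n with hu
  have hu0 : 0 < u := by positivity
  have hun : u * n = 1 := by rw [hu]; field_simp
  have hu1 : u ≤ 1 := by nlinarith
  have hu2 : 1 - σ ^ 2 ≤ u := by
    rw [hu, le_div_iff₀ hnp]
    nlinarith
  have hv : s * σ / n = s * σ * u := by rw [hu]; ring
  rw [hv] at hc
  have hunit : u ^ 2 + (s * σ * u) ^ 2 = 1 := by
    have : u ^ 2 * n ^ 2 = 1 := by rw [← mul_pow, hun, one_pow]
    rw [hn2] at this
    calc u ^ 2 + (s * σ * u) ^ 2 = u ^ 2 * (1 + s ^ 2 * σ ^ 2) := by ring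
      _ = u ^ 2 * (1 + σ ^ 2) := by rw [hs, one_mul]
      _ = 1 := this
  have hcos := Real.one_sub_sq_div_two_le_cos (x := σ / 8)
  have hdist : (y 0 - u) ^ 2 + (y 1 - s * σ * u) ^ 2 ≤ (σ / 8) ^ 2 := by nlinarith
  have d0 : |y 0 - u| ≤ σ / 8 := by
    apply abs_le_of_sq_le_sq _ (by positivity)
    nlinarith [sq_nonneg (y 1 - s * σ * u)]
  have d1 : |s * y 1 - σ * u| ≤ σ / 8 := by
    apply abs_le_of_sq_le_sq _ (by positivity)
    have : (s * y 1 - σ * u) ^ 2 = (y 1 - s * σ * u) ^ 2 := by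
      calc (s * y 1 - σ * u) ^ 2 = s ^ 2 * y 1 ^ 2 - 2 * (s * y 1 * σ * u) + σ ^ 2 * u ^ 2 := by ring
        _ = y 1 ^ 2 - 2 * (s * y 1 * σ * u) + s ^ 2 * σ ^ 2 * u ^ 2 := by rw [hs]; ring
        _ = (y 1 - s * σ * u) ^ 2 := by ring
    rw [this]
    nlinarith [sq_nonneg (y 0 - u)]
  rw [abs_le] at d0 d1
  have hσu : σ / 2 ≤ σ * u := by
    have : 1 / 2 ≤ u := by linarith
    calc σ / 2 = σ * (1 / 2) := by ring
      _ ≤ σ * u := mul_le_mul_of_nonneg_left this hσ0.le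
  have hσu' : σ * u ≤ σ := mul_le_of_le_one_right hσ0.le hu1
  have hy0 : |y 0| ≤ 1 := by
    apply abs_le_of_sq_le_sq _ zero_le_one
    have := sq_nonneg (y 1)
    linarith
  rw [abs_le] at hy0
  refine ⟨⟨?_, hy0.2⟩, ?_, ?_⟩
  · linarith [d0.1]
  · linarith [d1.1]
  · linarith [d1.2]

lemma cone_Dom {b : ℕ} (hb : 1 ≤ b) : ConeCondition (Dom b) := by
  obtain ⟨σ, hσ⟩ : ∃ σ : ℝ, σ = (1 / 2) ^ b / 16 := ⟨_, rfl⟩
  have hη : ((1 : ℝ) / 2) ^ b ≤ 1 / 2 := by
    calc ((1 : ℝ) / 2) ^ b ≤ (1 / 2) ^ 1 := pow_le_pow_of_le_one (by norm_num) (by norm_num) hb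
      _ = 1 / 2 := by norm_num
  have hη0 : (0 : ℝ) < (1 / 2) ^ b := by positivity
  have hσ0 : 0 < σ := by rw [hσ]; positivity
  have hσ1 : σ ≤ 1 / 32 := by rw [hσ]; linarith
  refine ⟨σ / 8, 1 / 8, by positivity, ?_, by norm_num, ?_⟩
  · have := Real.pi_gt_three
    linarith
  intro x hx
  by_cases hx0 : 0 < x 0
  · -- the unit square
    have hxb := Dom_subset hb hx
    set s₀ : ℝ := if x 0 < 1 / 2 then 1 else -1 with hs₀
    set s₁ : ℝ := if x 1 < 1 / 2 then 1 else -1 with hs₁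
    have e0 : s₀ ^ 2 = 1 := by rw [hs₀]; split_ifs <;> norm_num
    have e1 : s₁ ^ 2 = 1 := by rw [hs₁]; split_ifs <;> norm_num
    refine ⟨![s₀ / Real.sqrt 2, s₁ / Real.sqrt 2], ?_, ?_⟩
    · simp only [Fin.sum_univ_two, Matrix.cons_val_zero, Matrix.cons_val_one]
      rw [div_pow, div_pow, e0, e1, Real.sq_sqrt (by norm_num)]
      norm_num
    · intro y hy hc t ht
      obtain ⟨p0, p1⟩ := diag_dir (by positivity) (by linarith) e0 e1 hy hc
      simp only [Fin.sum_univ_two] at hy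
      have q0 : |y 0| ≤ 1 := by
        apply abs_le_of_sq_le_sq _ zero_le_one
        nlinarith [sq_nonneg (y 1)]
      have q1 : |y 1| ≤ 1 := by
        apply abs_le_of_sq_le_sq _ zero_le_one
        nlinarith [sq_nonneg (y 0)]
      rw [abs_le] at q0 q1
      obtain ⟨t0, t1⟩ := ht
      left
      have key : ∀ (z w : ℝ), 0 < z → z < 1 → -1 ≤ w → w ≤ 1 →
          0 ≤ (if z < 1 / 2 then (1 : ℝ) else -1) * w → 0 < z + t * w ∧ z + t * w < 1 := by
        intro z w z0 z1 w0 w1 hw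
        split_ifs at hw with hz
        · constructor <;> nlinarith
        · push Not at hz
          constructor <;> nlinarith
      exact ⟨key (x 0) (y 0) hx0 hxb.1.2 q0.1 q0.2 p0, key (x 1) (y 1) hxb.2.1 hxb.2.2 q1.1 q1.2 p1⟩
  · -- the fingers
    push Not at hx0
    obtain ⟨k, hk⟩ := Dom_nonpos hx hx0
    obtain ⟨s, hs⟩ : ∃ s : ℝ, (x 1 ≤ yy k + wid b k / 2 ∧ s = 1) ∨
        (yy k + wid b k / 2 < x 1 ∧ s = -1) := by
      rcases le_or_gt (x 1) (yy k + wid b k / 2) with h | h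
      · exact ⟨1, Or.inl ⟨h, rfl⟩⟩
      · exact ⟨-1, Or.inr ⟨h, rfl⟩⟩
    have es : s ^ 2 = 1 := by rcases hs with h | h <;> rw [h.2] <;> norm_num
    have hsq : Real.sqrt (1 + σ ^ 2) ^ 2 = 1 + σ ^ 2 := Real.sq_sqrt (by positivity)
    refine ⟨![1 / Real.sqrt (1 + σ ^ 2), s * σ / Real.sqrt (1 + σ ^ 2)], ?_, ?_⟩
    · simp only [Fin.sum_univ_two, Matrix.cons_val_zero, Matrix.cons_val_one]
      rw [div_pow, div_pow, hsq, mul_pow, es, one_pow, one_mul, ← add_div, div_self (by positivity)]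
    · intro y hy hc t ht
      obtain ⟨⟨p0, p0'⟩, p1, p1'⟩ := flat_dir hσ0 hσ1 es hy hc
      obtain ⟨t0, t1⟩ := ht
      have hρ := rho_pos b k
      have hw := wid_pos b k
      have hwe : 2 * rho b k * (2 * σ) = wid b k / 4 := by rw [wid_eq, hσ]; ring
      have hyk := yy_gt k
      have hykw := yy_wid_lt hb k
      have z0 : (x + t • y) 0 = x 0 + t * y 0 := rfl
      have z1 : (x + t • y) 1 = x 1 + t * y 1 := rfl
      have ty0 : 0 ≤ t * y 0 := mul_nonneg t0 (by linarith)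
      have ty0' : t * y 0 ≤ 1 / 8 := by
        calc t * y 0 ≤ 1 / 8 * 1 := mul_le_mul t1 p0' (by linarith) (by norm_num)
          _ = 1 / 8 := by norm_num
      have ty0h : t * (1 / 2) ≤ t * y 0 := mul_le_mul_of_nonneg_left p0 t0
      by_cases hpos : x 0 + t * y 0 ≤ 0
      · right
        rw [Set.mem_iUnion]
        refine ⟨k, ⟨?_, ?_⟩, ?_⟩
        · rw [z0]; linarith [hk.1.1]
        · rw [z0]; linarith
        · have ht2 : t ≤ 2 * rho b k := by linarith [hk.1.1]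
          have hts : t * (s * y 1) ≤ wid b k / 4 := by
            rw [← hwe]
            exact mul_le_mul ht2 p1' p1 (by positivity)
          have hts0 : 0 ≤ t * (s * y 1) := mul_nonneg t0 p1
          rw [z1]
          rcases hs with ⟨hcase, hs1⟩ | ⟨hcase, hs1⟩
          · rw [hs1, one_mul] at hts hts0
            constructor
            · linarith [hk.2.1]
            · linarith
          · have hring : t * (s * y 1) = -(t * y 1) := by rw [hs1]; ring
            rw [hring] at hts hts0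
            constructor
            · linarith
            · linarith [hk.2.2]
      · push Not at hpos
        left
        have hy1 : |t * y 1| ≤ 1 / 128 := by
          have h1 : |y 1| ≤ 2 * σ := by
            have : |y 1| = |s * y 1| := by
              rcases hs with h | h <;> rw [h.2] <;> simp
            rw [this, abs_of_nonneg p1]
            exact p1'
          rw [abs_mul, abs_of_nonneg t0]
          calc t * |y 1| ≤ 1 / 8 * (2 * σ) := mul_le_mul t1 h1 (abs_nonneg _) (by norm_num)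
            _ ≤ 1 / 128 := by linarith
        rw [abs_le] at hy1
        refine ⟨⟨?_, ?_⟩, ?_, ?_⟩
        · rw [z0]; exact hpos
        · rw [z0]; linarith
        · rw [z1]; linarith [hk.2.1, hy1.1]
        · rw [z1]; linarith [hk.2.2, hy1.2]

lemma admissible_Dom {b : ℕ} (hb : 1 ≤ b) : Admissible (Dom b) where
  pos := by norm_num
  isOpen := isOpen_Dom b
  nonempty := ⟨fun _ => 1 / 2, Or.inl ⟨by norm_num, by norm_num⟩⟩
  bounded := by
    rw [Metric.isBounded_iff_subset_closedBall 0]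
    refine ⟨1, fun x hx => ?_⟩
    have := Dom_subset hb hx
    rw [mem_closedBall_zero_iff, pi_norm_le_iff_of_nonneg zero_le_one]
    intro i
    rw [Real.norm_eq_abs, abs_le]
    fin_cases i
    · show -1 ≤ x 0 ∧ x 0 ≤ 1
      exact ⟨by linarith [this.1.1], this.1.2.le⟩
    · show -1 ≤ x 1 ∧ x 1 ≤ 1
      exact ⟨by linarith [this.2.1], this.2.2.le⟩
  cone := cone_Dom hb

end Pool.Agent.Helper579.Iid
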