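import Mathlib

set_option autoImplicit false
set_option linter.unusedSectionVars false

namespace Pool.Agent.Helper579.LasryLions

open MeasureTheory Set Metric

section Abstract

variable {E : Type*} [NormedAddCommGroup E] [InnerProductSpace ℝ E]

/-- two-sided quadratic bound for the convexity defect -/
def TwoSided (M : ℝ) (f : E → ℝ) : Prop :=
  ∀ (x y : E) (a b : ℝ), 0 ≤ a → 0 ≤ b → a + b = 1 →
    |a * f x + b * f y - f (a • x + b • y)| ≤ M / 2 * (a * b) * ‖x - y‖ ^ 2

lemma convex_sq_identity (x y : E) (a b : ℝ) (hab : a + b = 1) :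
    ‖a • x + b • y‖ ^ 2 = a * ‖x‖ ^ 2 + b * ‖y‖ ^ 2 - a * b * ‖x - y‖ ^ 2 := by
  have hb : b = 1 - a := by linarith
  subst hb
  have h1 : ‖a • x + (1 - a) • y‖ ^ 2
      = a ^ 2 * ‖x‖ ^ 2 + 2 * (a * (1 - a)) * inner ℝ x y + (1 - a) ^ 2 * ‖y‖ ^ 2 := by
    rw [norm_add_sq_real, norm_smul, norm_smul, inner_smul_left, inner_smul_right]
    simp only [Real.norm_eq_abs, mul_pow, sq_abs, RCLike.conj_to_real]
    ring
  have h2 : ‖x - y‖ ^ 2 = ‖x‖ ^ 2 - 2 * inner ℝ x y + ‖y‖ ^ 2 := norm_sub_sq_real x y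
  rw [h1, h2]
  ring

/-- first-order expansion inequality for differentiable functions with two sided bound -/
lemma TwoSided.expansion {M : ℝ} {g : E → ℝ} (hg : TwoSided M g) (hd : Differentiable ℝ g)
    (x y : E) : |g y - g x - fderiv ℝ g x (y - x)| ≤ M / 2 * ‖y - x‖ ^ 2 := by
  -- slope function along the segment
  have hderiv : HasDerivAt (fun b : ℝ => g (x + b • (y - x))) (fderiv ℝ g x (y - x)) 0 := by
    have h1 : HasDerivAt (fun b : ℝ => x + b • (y - x)) (y - x) 0 := by
      simpa using ((hasDerivAt_id (0 : ℝ)).smul_const (y - x)).const_add x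
    have h2 : HasFDerivAt g (fderiv ℝ g x) (x + (0 : ℝ) • (y - x)) := by
      simpa using (hd x).hasFDerivAt
    exact h2.comp_hasDerivAt 0 h1
  have htend := hderiv.tendsto_slope_zero_right
  have htend' : Filter.Tendsto (fun t : ℝ => |g y - g x - t⁻¹ * (g (x + t • (y - x)) - g x)|)
      (nhdsWithin 0 (Ioi 0)) (nhds |g y - g x - fderiv ℝ g x (y - x)|) := by
    have := (htend.const_sub (g y - g x)).abs
    simpa using this
  refine le_of_tendsto htend' ?_
  have hev : ∀ᶠ t : ℝ in nhdsWithin 0 (Ioi 0), t ∈ Ioo (0 : ℝ) 1 :=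
    Ioo_mem_nhdsGT one_pos
  filter_upwards [hev] with t ht
  have ht0 : 0 < t := ht.1
  have h := hg x y (1 - t) t (by linarith [ht.2]) ht0.le (by ring)
  have hpt : (1 - t) • x + t • y = x + t • (y - x) := by
    rw [smul_sub, sub_smul, one_smul]; abel
  rw [hpt] at h
  have hM : 0 ≤ M / 2 * ‖y - x‖ ^ 2 := by
    have h2 := hg x y (1/2) (1/2) (by norm_num) (by norm_num) (by norm_num)
    have h3 := (abs_nonneg _).trans h2
    rw [norm_sub_rev y x]
    nlinarith
  have heq : g y - g x - t⁻¹ * (g (x + t • (y - x)) - g x)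
      = t⁻¹ * ((1 - t) * g x + t * g y - g (x + t • (y - x))) := by
    field_simp
    ring
  rw [heq, abs_mul, abs_of_pos (inv_pos.mpr ht0)]
  calc t⁻¹ * |(1 - t) * g x + t * g y - g (x + t • (y - x))|
      ≤ t⁻¹ * (M / 2 * ((1 - t) * t) * ‖x - y‖ ^ 2) :=
        mul_le_mul_of_nonneg_left h (inv_pos.mpr ht0).le
    _ = (1 - t) * (M / 2 * ‖y - x‖ ^ 2) := by
        rw [norm_sub_rev y x]; field_simp
    _ ≤ M / 2 * ‖y - x‖ ^ 2 := by nlinarith [ht.1]

/-- the gradient is Lipschitz with the sharp constant -/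
lemma TwoSided.fderiv_lipschitz {M : ℝ} {g : E → ℝ} (hg : TwoSided M g)
    (hd : Differentiable ℝ g) (x y θ : E) (hθ : ‖θ‖ = 1) :
    |fderiv ℝ g x θ - fderiv ℝ g y θ| ≤ M * ‖x - y‖ := by
  -- key inequality
  have key : ∀ (x y θ : E), ‖θ‖ = 1 → fderiv ℝ g x θ - fderiv ℝ g y θ ≤ M * ‖x - y‖ := by
    intro x y θ hθ
    rcases eq_or_ne x y with rfl | hxy
    · simp
    have hn : 0 < ‖x - y‖ := norm_pos_iff.mpr (sub_ne_zero.mpr hxy)
    set m : E := (1/2 : ℝ) • (x + y) with hm
    set w : E := (‖x - y‖ / 2) • θ with hw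
    have hw2 : ‖w‖ ^ 2 = ‖x - y‖ ^ 2 / 4 := by
      rw [hw, norm_smul, hθ, Real.norm_eq_abs, mul_one, sq_abs]; ring
    have e1 := abs_le.mp (hg.expansion hd x (m + w))
    have e2 := abs_le.mp (hg.expansion hd y (m + w))
    have e3 := abs_le.mp (hg.expansion hd x (m - w))
    have e4 := abs_le.mp (hg.expansion hd y (m - w))
    have p1 : m + w - x = -((1/2 : ℝ) • (x - y)) + w := by
      rw [hm, smul_add, smul_sub]
      have : x = (1/2 : ℝ) • x + (1/2 : ℝ) • x := by rw [← add_smul]; norm_num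
      nth_rewrite 2 [this]; abel
    have p2 : m + w - y = ((1/2 : ℝ) • (x - y)) + w := by
      rw [hm, smul_add, smul_sub]
      have : y = (1/2 : ℝ) • y + (1/2 : ℝ) • y := by rw [← add_smul]; norm_num
      nth_rewrite 2 [this]; abel
    have p3 : m - w - x = -((1/2 : ℝ) • (x - y)) - w := by
      rw [hm, smul_add, smul_sub]
      have : x = (1/2 : ℝ) • x + (1/2 : ℝ) • x := by rw [← add_smul]; norm_num
      nth_rewrite 2 [this]; abel
    have p4 : m - w - y = ((1/2 : ℝ) • (x - y)) - w := by
      rw [hm, smul_add, smul_sub]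
      have : y = (1/2 : ℝ) • y + (1/2 : ℝ) • y := by rw [← add_smul]; norm_num
      nth_rewrite 2 [this]; abel
    rw [p1] at e1
    rw [p2] at e2
    rw [p3] at e3
    rw [p4] at e4
    set h : E := (1/2 : ℝ) • (x - y) with hh
    have hh2 : ‖h‖ ^ 2 = ‖x - y‖ ^ 2 / 4 := by
      rw [hh, norm_smul, Real.norm_eq_abs]
      rw [abs_of_pos (by norm_num : (0:ℝ) < 1/2)]; ring
    have n1 : ‖-h + w‖ ^ 2 = ‖h‖ ^ 2 - 2 * inner ℝ h w + ‖w‖ ^ 2 := by
      rw [norm_add_sq_real, norm_neg, inner_neg_left]; ring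
    have n2 : ‖h + w‖ ^ 2 = ‖h‖ ^ 2 + 2 * inner ℝ h w + ‖w‖ ^ 2 := norm_add_sq_real h w
    have n3 : ‖-h - w‖ ^ 2 = ‖h‖ ^ 2 + 2 * inner ℝ h w + ‖w‖ ^ 2 := by
      rw [norm_sub_sq_real, norm_neg, inner_neg_left]; ring
    have n4 : ‖h - w‖ ^ 2 = ‖h‖ ^ 2 - 2 * inner ℝ h w + ‖w‖ ^ 2 := norm_sub_sq_real h w
    rw [n1] at e1
    rw [n2] at e2
    rw [n3] at e3
    rw [n4] at e4
    simp only [map_add, map_sub, map_neg] at e1 e2 e3 e4
    have hwx : fderiv ℝ g x w = ‖x - y‖ / 2 * fderiv ℝ g x θ := by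
      rw [hw, map_smul, smul_eq_mul]
    have hwy : fderiv ℝ g y w = ‖x - y‖ / 2 * fderiv ℝ g y θ := by
      rw [hw, map_smul, smul_eq_mul]
    rw [hwx] at e1 e3
    rw [hwy] at e2 e4
    rw [hw2, hh2] at e1 e2 e3 e4
    have : ‖x - y‖ * (fderiv ℝ g x θ - fderiv ℝ g y θ) ≤ ‖x - y‖ * (M * ‖x - y‖) := by
      nlinarith [e1.1, e2.2, e3.2, e4.1]
    exact le_of_mul_le_mul_left this hn
  rw [abs_le]
  constructor
  · have := key y x θ hθ
    rw [norm_sub_rev] at this
    linarith
  · exact key x y θ hθ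

/-- sup-convolution -/
noncomputable def env (s : ℝ) (q : E → ℝ) (x : E) : ℝ :=
  ⨆ z : E, (q z - ‖x - z‖ ^ 2 / (2 * s))

section Env

variable {s κ : ℝ} {q : E → ℝ}

lemma env_bdd (hs : 0 < s) (hq : ∀ z, q z ≤ κ) (x : E) :
    BddAbove (range fun z : E => (q z - ‖x - z‖ ^ 2 / (2 * s))) := by
  refine ⟨κ, ?_⟩
  rintro _ ⟨z, rfl⟩
  have : 0 ≤ ‖x - z‖ ^ 2 / (2 * s) := by positivity
  have := hq z
  simp only
  linarith

lemma le_env (hs : 0 < s) (hq : ∀ z, q z ≤ κ) (x z : E) :
    q z - ‖x - z‖ ^ 2 / (2 * s) ≤ env s q x :=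
  le_ciSup (env_bdd hs hq x) z

lemma env_ge (hs : 0 < s) (hq : ∀ z, q z ≤ κ) (x : E) : q x ≤ env s q x := by
  have := le_env hs hq x x
  simpa using this

lemma env_le {x : E} {c : ℝ} (h : ∀ z, q z - ‖x - z‖ ^ 2 / (2 * s) ≤ c) :
    env s q x ≤ c := ciSup_le h

lemma env_le_bound (hs : 0 < s) (hq : ∀ z, q z ≤ κ) (x : E) : env s q x ≤ κ := by
  refine env_le fun z => ?_
  have : 0 ≤ ‖x - z‖ ^ 2 / (2 * s) := by positivity
  have := hq z
  linarith

lemma env_lipschitz (hs : 0 < s) (hq : ∀ z, q z ≤ κ) {L : ℝ}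
    (hL : ∀ x y, |q x - q y| ≤ L * ‖x - y‖) (x y : E) :
    |env s q x - env s q y| ≤ L * ‖x - y‖ := by
  have key : ∀ x y : E, env s q x ≤ env s q y + L * ‖x - y‖ := by
    intro x y
    refine env_le fun z => ?_
    have h1 := le_env hs hq y (y - x + z)
    have h2 := (abs_le.mp (hL z (y - x + z))).2
    have e1 : y - (y - x + z) = x - z := by abel
    have e2 : z - (y - x + z) = x - y := by abel
    rw [e1] at h1
    rw [e2] at h2
    linarith
  rw [abs_le]
  constructor
  · have := key y x
    rw [norm_sub_rev] at this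
    linarith
  · have := key x y
    linarith

/-- the double envelope has a two sided quadratic bound -/
lemma env_twoSided (hs : 0 < s) (hq : ∀ z, q z ≤ κ)
    (hconc : ∀ (x y : E) (a b : ℝ), 0 ≤ a → 0 ≤ b → a + b = 1 →
      a * q x + b * q y - q (a • x + b • y) ≤ (a * b) * ‖x - y‖ ^ 2 / (4 * s)) :
    TwoSided (1 / s) (env s q) := by
  intro x y a b ha hb hab
  rw [abs_le]
  constructor
  · -- env (a x + b y) ≤ a env x + b env y + ...
    have : env s q (a • x + b • y) ≤
        a * env s q x + b * env s q y + 1 / s / 2 * (a * b) * ‖x - y‖ ^ 2 := by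
      refine env_le fun z => ?_
      have h1 := mul_le_mul_of_nonneg_left (le_env hs hq x z) ha
      have h2 := mul_le_mul_of_nonneg_left (le_env hs hq y z) hb
      have h3 : a • x + b • y - z = a • (x - z) + b • (y - z) := by
        have : z = a • z + b • z := by rw [← add_smul, hab, one_smul]
        nth_rewrite 1 [this]
        rw [smul_sub, smul_sub]; abel
      have h4 := convex_sq_identity (x - z) (y - z) a b hab
      have h5 : x - z - (y - z) = x - y := by abel
      rw [h3, h4, h5]
      have h6 : q z = a * q z + b * q z := by rw [← add_mul, hab, one_mul]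
      rw [h6]
      have h7 : (a * ‖x - z‖ ^ 2 + b * ‖y - z‖ ^ 2 - a * b * ‖x - y‖ ^ 2) / (2 * s)
          = a * (‖x - z‖ ^ 2 / (2 * s)) + b * (‖y - z‖ ^ 2 / (2 * s))
            - 1 / s / 2 * (a * b) * ‖x - y‖ ^ 2 := by
        field_simp
      rw [h7]
      linarith
    linarith
  · -- lower bound
    have key : ∀ z z' : E, a * (q z - ‖x - z‖ ^ 2 / (2 * s)) +
        b * (q z' - ‖y - z'‖ ^ 2 / (2 * s)) ≤
          env s q (a • x + b • y) + 1 / s / 2 * (a * b) * ‖x - y‖ ^ 2 := by
      intro z z'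
      have h1 := le_env hs hq (a • x + b • y) (a • z + b • z')
      have h2 := hconc z z' a b ha hb hab
      have h3 : a • x + b • y - (a • z + b • z') = a • (x - z) + b • (y - z') := by
        rw [smul_sub, smul_sub]; abel
      have h4 := convex_sq_identity (x - z) (y - z') a b hab
      have h5 : x - z - (y - z') = (x - y) - (z - z') := by abel
      rw [h3, h4, h5] at h1
      have h6 : 0 ≤ (a * b) * (2 * ‖(x - y) - (z - z')‖ ^ 2 - ‖z - z'‖ ^ 2
          + 2 * ‖x - y‖ ^ 2) / (4 * s) := by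
        have h7 : ∀ u v : E, 2 * ‖u - v‖ ^ 2 - ‖v‖ ^ 2
          + 2 * ‖u‖ ^ 2 = ‖(2 : ℝ) • u - v‖ ^ 2 := by
          intro u v
          rw [norm_sub_sq_real, norm_sub_sq_real, norm_smul, inner_smul_left]
          simp only [Real.norm_ofNat, RCLike.conj_to_real]
          ring
        rw [h7]
        positivity
      have h8 : (a * ‖x - z‖ ^ 2 + b * ‖y - z'‖ ^ 2
            - a * b * ‖(x - y) - (z - z')‖ ^ 2) / (2 * s)
          = a * (‖x - z‖ ^ 2 / (2 * s)) + b * (‖y - z'‖ ^ 2 / (2 * s))
            - a * b * ‖(x - y) - (z - z')‖ ^ 2 / (2 * s) := by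
        field_simp
      rw [h8] at h1
      have h9 : (a * b) * (2 * ‖(x - y) - (z - z')‖ ^ 2 - ‖z - z'‖ ^ 2
          + 2 * ‖x - y‖ ^ 2) / (4 * s) = a * b * ‖(x - y) - (z - z')‖ ^ 2 / (2 * s)
            - (a * b) * ‖z - z'‖ ^ 2 / (4 * s) + 1 / s / 2 * (a * b) * ‖x - y‖ ^ 2 := by
        field_simp
        ring
      rw [h9] at h6
      linarith
    -- take suprema
    have step1 : ∀ z' : E, a * env s q x + b * (q z' - ‖y - z'‖ ^ 2 / (2 * s)) ≤
          env s q (a • x + b • y) + 1 / s / 2 * (a * b) * ‖x - y‖ ^ 2 := by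
      intro z'
      rcases eq_or_lt_of_le ha with h0 | hpos
      · have := key z' z'
        rw [← h0] at this ⊢
        simpa using this
      · have : env s q x ≤ (env s q (a • x + b • y) + 1 / s / 2 * (a * b) * ‖x - y‖ ^ 2
            - b * (q z' - ‖y - z'‖ ^ 2 / (2 * s))) / a := by
          refine env_le fun z => ?_
          rw [le_div_iff₀ hpos]
          have := key z z'
          linarith
        rw [le_div_iff₀ hpos] at this
        linarith
    have step2 : a * env s q x + b * env s q y ≤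
          env s q (a • x + b • y) + 1 / s / 2 * (a * b) * ‖x - y‖ ^ 2 := by
      rcases eq_or_lt_of_le hb with h0 | hpos
      · have := step1 x
        rw [← h0] at this ⊢
        simpa using this
      · have : env s q y ≤ (env s q (a • x + b • y) + 1 / s / 2 * (a * b) * ‖x - y‖ ^ 2
            - a * env s q x) / b := by
          refine env_le fun z => ?_
          rw [le_div_iff₀ hpos]
          have := step1 z
          linarith
        rw [le_div_iff₀ hpos] at this
        linarith
    linarith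

end Env

/-- truncated squared distance to a closed set -/
noncomputable def tq (s ρ : ℝ) (K : Set E) (z : E) : ℝ :=
  (min ρ (infDist z K)) ^ 2 / (4 * s)

section TQ

variable {s ρ : ℝ} {K : Set E}

lemma tq_nonneg (hs : 0 < s) (z : E) : 0 ≤ tq s ρ K z := by
  unfold tq; positivity

lemma tq_le (hs : 0 < s) (hρ : 0 ≤ ρ) (z : E) : tq s ρ K z ≤ ρ ^ 2 / (4 * s) := by
  unfold tq
  have h0 : 0 ≤ min ρ (infDist z K) := le_min hρ infDist_nonneg
  have h1 : min ρ (infDist z K) ≤ ρ := min_le_left _ _
  gcongr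

lemma tq_le_dist (hs : 0 < s) (hρ : 0 ≤ ρ) {z p : E} (hp : p ∈ K) :
    tq s ρ K z ≤ ‖z - p‖ ^ 2 / (4 * s) := by
  unfold tq
  have h0 : 0 ≤ min ρ (infDist z K) := le_min hρ infDist_nonneg
  have h1 : min ρ (infDist z K) ≤ ‖z - p‖ := by
    rw [← dist_eq_norm]
    exact (min_le_right _ _).trans (infDist_le_dist_of_mem hp)
  gcongr

lemma tq_lipschitz (hs : 0 < s) (hρ : 0 ≤ ρ) (x y : E) :
    |tq s ρ K x - tq s ρ K y| ≤ ρ / (2 * s) * ‖x - y‖ := by
  unfold tq
  set u := min ρ (infDist x K) with hu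
  set v := min ρ (infDist y K) with hv
  have hu0 : 0 ≤ u := le_min hρ infDist_nonneg
  have hv0 : 0 ≤ v := le_min hρ infDist_nonneg
  have hu1 : u ≤ ρ := min_le_left _ _
  have hv1 : v ≤ ρ := min_le_left _ _
  have h1 : |u - v| ≤ ‖x - y‖ := by
    have h2 : |u - v| ≤ |infDist x K - infDist y K| := by
      rw [hu, hv]
      have := abs_min_sub_min_le_max ρ (infDist x K) ρ (infDist y K)
      simpa using this
    have h3 : |infDist x K - infDist y K| ≤ dist x y := by
      rw [abs_le]
      constructor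
      · have := infDist_le_infDist_add_dist (s := K) (x := y) (y := x)
        rw [dist_comm] at this
        linarith
      · have := infDist_le_infDist_add_dist (s := K) (x := x) (y := y)
        linarith
    rw [← dist_eq_norm]
    exact h2.trans h3
  have h4 : u ^ 2 / (4 * s) - v ^ 2 / (4 * s) = (u + v) / (4 * s) * (u - v) := by
    ring
  rw [h4, abs_mul]
  have h5 : |(u + v) / (4 * s)| ≤ ρ / (2 * s) := by
    rw [abs_of_nonneg (by positivity)]
    rw [div_le_div_iff₀ (by positivity) (by positivity)]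
    nlinarith
  exact mul_le_mul h5 h1 (abs_nonneg _) (by positivity)

lemma tq_semiconcave [ProperSpace E] (hs : 0 < s) (hρ : 0 ≤ ρ) (hK : IsClosed K)
    (hne : K.Nonempty) (x y : E) (a b : ℝ) (ha : 0 ≤ a) (hb : 0 ≤ b) (hab : a + b = 1) :
    a * tq s ρ K x + b * tq s ρ K y - tq s ρ K (a • x + b • y)
      ≤ (a * b) * ‖x - y‖ ^ 2 / (4 * s) := by
  set w := a • x + b • y with hw
  rcases le_total ρ (infDist w K) with h | h
  · have h1 : tq s ρ K w = ρ ^ 2 / (4 * s) := by
      unfold tq; rw [min_eq_left h]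
    have h2 := mul_le_mul_of_nonneg_left (tq_le (K := K) hs hρ x) ha
    have h3 := mul_le_mul_of_nonneg_left (tq_le (K := K) hs hρ y) hb
    have h4 : 0 ≤ (a * b) * ‖x - y‖ ^ 2 / (4 * s) := by positivity
    have h5 : a * (ρ ^ 2 / (4 * s)) + b * (ρ ^ 2 / (4 * s)) = ρ ^ 2 / (4 * s) := by
      rw [← add_mul, hab, one_mul]
    rw [h1]
    linarith
  · obtain ⟨p, hp, hpd⟩ := hK.exists_infDist_eq_dist hne w
    have h1 : tq s ρ K w = ‖w - p‖ ^ 2 / (4 * s) := by
      unfold tq; rw [min_eq_right h, hpd, dist_eq_norm]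
    have h2 := mul_le_mul_of_nonneg_left (tq_le_dist (K := K) hs hρ (z := x) hp) ha
    have h3 := mul_le_mul_of_nonneg_left (tq_le_dist (K := K) hs hρ (z := y) hp) hb
    have h4 := convex_sq_identity (x - p) (y - p) a b hab
    have h5 : a • (x - p) + b • (y - p) = w - p := by
      have : p = a • p + b • p := by rw [← add_smul, hab, one_smul]
      nth_rewrite 3 [this]
      rw [smul_sub, smul_sub, hw]; abel
    have h6 : x - p - (y - p) = x - y := by abel
    rw [h5, h6] at h4
    rw [h1, h4]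
    have h7 : (a * ‖x - p‖ ^ 2 + b * ‖y - p‖ ^ 2 - a * b * ‖x - y‖ ^ 2) / (4 * s)
        = a * (‖x - p‖ ^ 2 / (4 * s)) + b * (‖y - p‖ ^ 2 / (4 * s))
          - (a * b) * ‖x - y‖ ^ 2 / (4 * s) := by
      ring
    rw [h7]
    linarith

/-- the Lasry-Lions fooling function -/
noncomputable def ll (s ρ : ℝ) (K : Set E) : E → ℝ := env s (tq s ρ K)

lemma ll_twoSided [ProperSpace E] (hs : 0 < s) (hρ : 0 ≤ ρ) (hK : IsClosed K)
    (hne : K.Nonempty) : TwoSided (1 / s) (ll s ρ K) :=
  env_twoSided hs (fun z => tq_le hs hρ z) (fun x y a b ha hb hab =>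
    tq_semiconcave hs hρ hK hne x y a b ha hb hab)

lemma ll_lipschitz (hs : 0 < s) (hρ : 0 ≤ ρ) (x y : E) :
    |ll s ρ K x - ll s ρ K y| ≤ ρ / (2 * s) * ‖x - y‖ :=
  env_lipschitz hs (fun z => tq_le hs hρ z) (fun x y => tq_lipschitz hs hρ x y) x y

lemma ll_ge (hs : 0 < s) (hρ : 0 ≤ ρ) (x : E) : tq s ρ K x ≤ ll s ρ K x :=
  env_ge hs (fun z => tq_le hs hρ z) x

lemma ll_nonneg (hs : 0 < s) (hρ : 0 ≤ ρ) (x : E) : 0 ≤ ll s ρ K x :=
  (tq_nonneg hs x).trans (ll_ge hs hρ x)

lemma ll_le (hs : 0 < s) (hρ : 0 ≤ ρ) (x : E) : ll s ρ K x ≤ ρ ^ 2 / (4 * s) :=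
  env_le_bound hs (fun z => tq_le hs hρ z) x

lemma ll_eq_zero (hs : 0 < s) (hρ : 0 ≤ ρ) {x : E} (hx : x ∈ K) : ll s ρ K x = 0 := by
  refine le_antisymm (env_le fun z => ?_) (ll_nonneg hs hρ x)
  have h1 := tq_le_dist (K := K) hs hρ (z := z) hx
  have h2 : ‖z - x‖ ^ 2 / (4 * s) ≤ ‖x - z‖ ^ 2 / (2 * s) := by
    rw [norm_sub_rev]
    apply div_le_div_of_nonneg_left (by positivity) (by positivity)
    linarith
  linarith

end TQ

end Abstract

section Mollify

variable {E : Type*} [NormedAddCommGroup E] [InnerProductSpace ℝ E] [FiniteDimensional ℝ E]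
  [MeasurableSpace E] [BorelSpace E]

/-- mollification by a normalised bump -/
noncomputable def moll (φ : ContDiffBump (0 : E)) (f : E → ℝ) (x : E) : ℝ :=
  ∫ z, φ.normed volume z * f (x - z)

variable (φ : ContDiffBump (0 : E)) {f : E → ℝ}

lemma moll_integrable (hf : Continuous f) (x : E) :
    Integrable (fun z => φ.normed volume z * f (x - z)) volume := by
  have hc : Continuous (fun z => φ.normed volume z * f (x - z)) :=
    φ.continuous_normed.mul (hf.comp (continuous_const.sub continuous_id))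
  apply hc.integrable_of_hasCompactSupport
  exact φ.hasCompactSupport_normed.mul_right

lemma moll_mono (hf : Continuous f) {x : E} {c : ℝ}
    (h : ∀ z, ‖z‖ ≤ φ.rOut → c ≤ f (x - z)) : c ≤ moll φ f x := by
  have h1 : ∫ z, φ.normed volume z * c = c := by
    rw [integral_mul_const, φ.integral_normed, one_mul]
  rw [← h1]
  unfold moll
  apply integral_mono
  · exact φ.integrable_normed.mul_const c
  · exact moll_integrable φ hf x
  · intro z
    simp only
    by_cases hz : ‖z‖ ≤ φ.rOut
    · exact mul_le_mul_of_nonneg_left (h z hz) (φ.nonneg_normed z)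
    · have : φ.normed volume z = 0 := by
        have hs := φ.support_normed_eq (μ := (volume : Measure E))
        by_contra hne
        have : z ∈ Function.support (φ.normed volume) := hne
        rw [hs, mem_ball_zero_iff] at this
        exact hz this.le
      rw [this]; simp

lemma moll_neg (x : E) : moll φ (fun y => - f y) x = - moll φ f x := by
  unfold moll
  rw [← integral_neg]
  congr 1
  ext z; ring

lemma moll_mono' (hf : Continuous f) {x : E} {c : ℝ}
    (h : ∀ z, ‖z‖ ≤ φ.rOut → f (x - z) ≤ c) : moll φ f x ≤ c := by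
  have := moll_mono φ (f := fun y => - f y) hf.neg (x := x) (c := -c)
    (fun z hz => by have := h z hz; linarith)
  rw [moll_neg] at this
  linarith

lemma moll_contDiff (hf : Continuous f) : ContDiff ℝ 2 (moll φ f) := by
  have h := (φ.hasCompactSupport_normed (μ := (volume : Measure E))).contDiff_convolution_left
    (n := (2 : ℕ∞)) (L := ContinuousLinearMap.lsmul ℝ ℝ) (μ := (volume : Measure E))
    φ.contDiff_normed (hf.locallyIntegrable (μ := (volume : Measure E)))
  exact h

lemma moll_lin (hf : Continuous f) (x y w : E) (a b : ℝ) :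
    a * moll φ f x + b * moll φ f y - moll φ f w =
      ∫ z, φ.normed volume z * (a * f (x - z) + b * f (y - z) - f (w - z)) := by
  unfold moll
  rw [← integral_const_mul, ← integral_const_mul, ← integral_add, ← integral_sub]
  · congr 1
    ext z; ring
  · exact ((moll_integrable φ hf x).const_mul a).add ((moll_integrable φ hf y).const_mul b)
  · exact moll_integrable φ hf w
  · exact (moll_integrable φ hf x).const_mul a
  · exact (moll_integrable φ hf y).const_mul b

lemma abs_integral_le_of {g : E → ℝ} {C : ℝ} (hC : ∀ z, |g z| ≤ C) (hg : Continuous g) :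
    |∫ z, φ.normed volume z * g z| ≤ C := by
  have h1 : ∫ z, φ.normed volume z * C = C := by
    rw [integral_mul_const, φ.integral_normed, one_mul]
  calc |∫ z, φ.normed volume z * g z| ≤ ∫ z, |φ.normed volume z * g z| :=
        abs_integral_le_integral_abs
    _ ≤ ∫ z, φ.normed volume z * C := by
        apply integral_mono
        · apply Integrable.abs
          have hc : Continuous (fun z => φ.normed volume z * g z) :=
            φ.continuous_normed.mul hg
          exact hc.integrable_of_hasCompactSupport φ.hasCompactSupport_normed.mul_right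
        · exact φ.integrable_normed.mul_const C
        · intro z
          simp only
          rw [abs_mul, abs_of_nonneg (φ.nonneg_normed z)]
          exact mul_le_mul_of_nonneg_left (hC z) (φ.nonneg_normed z)
    _ = C := h1

lemma moll_twoSided {M : ℝ} (hf : Continuous f) (h : TwoSided M f) : TwoSided M (moll φ f) := by
  intro x y a b ha hb hab
  rw [moll_lin φ hf]
  apply abs_integral_le_of
  · intro z
    have := h (x - z) (y - z) a b ha hb hab
    have h1 : a • (x - z) + b • (y - z) = a • x + b • y - z := by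
      have : z = a • z + b • z := by rw [← add_smul, hab, one_smul]
      nth_rewrite 3 [this]
      rw [smul_sub, smul_sub]; abel
    have h2 : x - z - (y - z) = x - y := by abel
    rw [h1, h2] at this
    exact this
  · fun_prop

lemma moll_lipschitz {L : ℝ} (hf : Continuous f) (h : ∀ x y, |f x - f y| ≤ L * ‖x - y‖)
    (x y : E) : |moll φ f x - moll φ f y| ≤ L * ‖x - y‖ := by
  have h1 := moll_lin φ hf x x y 1 0
  have h2 : moll φ f x - moll φ f y = 1 * moll φ f x + 0 * moll φ f x - moll φ f y := by ring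
  rw [h2, h1]
  apply abs_integral_le_of
  · intro z
    have := h (x - z) (y - z)
    have h2 : x - z - (y - z) = x - y := by abel
    rw [h2] at this
    simpa using this
  · fun_prop

end Mollify

section Volume

variable {d : ℕ}

lemma ball_real_le (hd : 1 ≤ d) (x : EuclideanSpace ℝ (Fin d)) {β : ℝ} (hβ : 0 < β) :
    (volume : Measure (EuclideanSpace ℝ (Fin d))).real (closedBall x (Real.sqrt (d * β / 81)))
      ≤ (1/2) * β ^ ((d : ℝ) / 2) := by
  have hdpos : (0 : ℝ) < d := by exact_mod_cast hd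
  set r : ℝ := Real.sqrt (d * β / 81) with hr
  have hr2 : r ^ 2 = d * β / 81 := Real.sq_sqrt (by positivity)
  set lam : ℝ := 81 / (2 * β) with hlam
  have hlampos : 0 < lam := by positivity
  have hI := GaussianFourier.integral_rexp_neg_mul_sq_norm
    (V := EuclideanSpace ℝ (Fin d)) hlampos
  rw [finrank_euclideanSpace_fin] at hI
  have hint : Integrable (fun v : EuclideanSpace ℝ (Fin d) => Real.exp (-lam * ‖v‖ ^ 2))
      volume := by
    by_contra hcon
    rw [integral_undef hcon] at hI
    have : 0 < (Real.pi / lam) ^ ((d : ℝ) / 2) := by positivity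
    linarith
  have hreal : (volume : Measure (EuclideanSpace ℝ (Fin d))).real (closedBall x r)
      = (volume : Measure (EuclideanSpace ℝ (Fin d))).real (closedBall 0 r) := by
    unfold Measure.real
    rw [Measure.addHaar_closedBall_center]
  have h1 : (volume : Measure (EuclideanSpace ℝ (Fin d))).real (closedBall 0 r)
      * Real.exp (-lam * r ^ 2) ≤ (Real.pi / lam) ^ ((d : ℝ) / 2) := by
    rw [← hI]
    calc (volume : Measure (EuclideanSpace ℝ (Fin d))).real (closedBall 0 r)
          * Real.exp (-lam * r ^ 2)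
        = ∫ v in closedBall (0 : EuclideanSpace ℝ (Fin d)) r, Real.exp (-lam * r ^ 2) := by
          rw [setIntegral_const, smul_eq_mul]
      _ ≤ ∫ v in closedBall (0 : EuclideanSpace ℝ (Fin d)) r, Real.exp (-lam * ‖v‖ ^ 2) := by
          have hfin : volume (closedBall (0 : EuclideanSpace ℝ (Fin d)) r) ≠ ⊤ :=
            measure_closedBall_lt_top.ne
          have hcfin : ‖Real.exp (-lam * r ^ 2)‖ₑ ≠ ⊤ := enorm_ne_top
          apply setIntegral_mono_on
          · exact integrableOn_const hfin hcfin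
          · exact hint.integrableOn
          · exact isClosed_closedBall.measurableSet
          · intro v hv
            rw [mem_closedBall_zero_iff] at hv
            apply Real.exp_le_exp.mpr
            have : ‖v‖ ^ 2 ≤ r ^ 2 := by gcongr
            nlinarith
      _ ≤ ∫ v : EuclideanSpace ℝ (Fin d), Real.exp (-lam * ‖v‖ ^ 2) := by
          apply setIntegral_le_integral hint
          filter_upwards with v
          positivity
  have h2 : lam * r ^ 2 = (d : ℝ) / 2 := by
    rw [hr2, hlam]; field_simp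
  have h3 : (volume : Measure (EuclideanSpace ℝ (Fin d))).real (closedBall 0 r)
      ≤ Real.exp ((d : ℝ) / 2) * (Real.pi / lam) ^ ((d : ℝ) / 2) := by
    have h4 : -lam * r ^ 2 = - ((d : ℝ) / 2) := by rw [neg_mul, h2]
    rw [h4, Real.exp_neg] at h1
    have h5 : 0 < Real.exp ((d : ℝ) / 2) := Real.exp_pos _
    rw [mul_inv_le_iff₀ h5] at h1
    linarith
  rw [hreal]
  refine h3.trans ?_
  have h6 : Real.exp ((d : ℝ) / 2) = (Real.exp 1) ^ ((d : ℝ) / 2) := by
    rw [← Real.exp_one_rpow]
  rw [h6, ← Real.mul_rpow (Real.exp_pos 1).le (by positivity)]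
  have h7 : Real.exp 1 * (Real.pi / lam) ≤ (1/4) * β := by
    have h8 : Real.exp 1 < 2.7182818286 := Real.exp_one_lt_d9
    have h9 : Real.pi < 3.15 := Real.pi_lt_d2
    have h10 : Real.exp 1 * Real.pi ≤ 2.7182818286 * 3.15 :=
      mul_le_mul h8.le h9.le Real.pi_pos.le (by norm_num)
    have h11 : Real.pi / lam = 2 * Real.pi * β / 81 := by
      rw [hlam]; field_simp
    rw [h11]
    have h12 : Real.exp 1 * (2 * Real.pi * β / 81) = (Real.exp 1 * Real.pi) * (2 / 81 * β) := by
      ring
    rw [h12]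
    calc Real.exp 1 * Real.pi * (2 / 81 * β) ≤ (2.7182818286 * 3.15) * (2 / 81 * β) :=
          mul_le_mul_of_nonneg_right h10 (by positivity)
      _ ≤ 1/4 * β := by nlinarith
  calc (Real.exp 1 * (Real.pi / lam)) ^ ((d : ℝ) / 2) ≤ ((1/4) * β) ^ ((d : ℝ) / 2) := by
        apply Real.rpow_le_rpow (by positivity) h7 (by positivity)
    _ = (1/4 : ℝ) ^ ((d : ℝ) / 2) * β ^ ((d : ℝ) / 2) :=
        Real.mul_rpow (by norm_num) hβ.le
    _ ≤ (1/2) * β ^ ((d : ℝ) / 2) := by
        apply mul_le_mul_of_nonneg_right _ (by positivity)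
        have h13 : (1/4 : ℝ) ^ ((d : ℝ) / 2) = (1/2 : ℝ) ^ (d : ℝ) := by
          have : (1/4 : ℝ) = (1/2 : ℝ) ^ (2 : ℝ) := by norm_num
          rw [this, ← Real.rpow_mul (by norm_num)]
          congr 1; ring
        rw [h13]
        calc (1/2 : ℝ) ^ (d : ℝ) ≤ (1/2 : ℝ) ^ (1 : ℝ) := by
              apply Real.rpow_le_rpow_of_exponent_ge (by norm_num) (by norm_num)
              exact_mod_cast hd
          _ = 1/2 := by norm_num

/-- The fooling function: for all dimensions, all open sets of volume one and all finite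
families of nodes. -/
theorem exists_fooling (hd : 1 ≤ d) (D : Set (EuclideanSpace ℝ (Fin d))) (hD : IsOpen D)
    (hvol : volume D = 1) {n : ℕ} (hn : 1 ≤ n) (x : Fin n → EuclideanSpace ℝ (Fin d)) :
    ∃ f : EuclideanSpace ℝ (Fin d) → ℝ,
      ContDiff ℝ 2 f ∧ (∀ y, 0 ≤ f y) ∧ (∀ y, f y ≤ 1) ∧
      (∀ y z, |f y - f z| ≤ (Real.sqrt (d : ℝ))⁻¹ * dist y z) ∧
      (∀ θ : EuclideanSpace ℝ (Fin d), ‖θ‖ = 1 → ∀ y z,
          |fderiv ℝ f y θ - fderiv ℝ f z θ| ≤ ((d : ℝ))⁻¹ * dist y z) ∧
      (∀ i, f (x i) = 0) ∧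
      (1 / 2592) * (n : ℝ) ^ (-(2 : ℝ) / (d : ℝ)) ≤ ∫ y in D, f y := by
  classical
  have hdpos : (0 : ℝ) < d := by exact_mod_cast hd
  have hnpos : (0 : ℝ) < n := by exact_mod_cast hn
  set β : ℝ := (n : ℝ) ^ (-(2 : ℝ) / (d : ℝ)) with hβdef
  have hβ : 0 < β := by positivity
  have hβ1 : β ≤ 1 := by
    apply Real.rpow_le_one_of_one_le_of_nonpos
    · exact_mod_cast hn
    · apply div_nonpos_of_nonpos_of_nonneg (by norm_num) hdpos.le
  set r : ℝ := Real.sqrt (d * β / 81) with hr
  have hr2 : r ^ 2 = d * β / 81 := Real.sq_sqrt (by positivity)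
  have hrpos : 0 < r := Real.sqrt_pos.mpr (by positivity)
  set ρ : ℝ := 2 * Real.sqrt d with hρdef
  have hρ : 0 ≤ ρ := by positivity
  have hρ2 : ρ ^ 2 = 4 * d := by
    rw [hρdef, mul_pow, Real.sq_sqrt hdpos.le]; norm_num
  set ε : ℝ := r / 4 with hε
  have hεpos : 0 < ε := by positivity
  set K : Set (EuclideanSpace ℝ (Fin d)) := ⋃ i, closedBall (x i) ε with hKdef
  have hK : IsClosed K := isClosed_iUnion_of_finite fun i => isClosed_closedBall
  have hKne : K.Nonempty := ⟨x ⟨0, hn⟩, mem_iUnion.mpr ⟨⟨0, hn⟩, mem_closedBall_self hεpos.le⟩⟩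
  let φ : ContDiffBump (0 : EuclideanSpace ℝ (Fin d)) := ⟨ε / 2, ε, half_pos hεpos,
    half_lt_self hεpos⟩
  have hφ : φ.rOut = ε := rfl
  set g : EuclideanSpace ℝ (Fin d) → ℝ := ll (d : ℝ) ρ K with hg
  have hglip : ∀ x y, |g x - g y| ≤ (Real.sqrt (d : ℝ))⁻¹ * ‖x - y‖ := by
    intro x y
    have := ll_lipschitz (K := K) hdpos hρ x y
    have h2 : ρ / (2 * d) = (Real.sqrt (d : ℝ))⁻¹ := by
      rw [hρdef]
      have h3 : Real.sqrt (d : ℝ) ≠ 0 := (Real.sqrt_pos.mpr hdpos).ne'
      rw [div_eq_iff (by positivity), eq_comm]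
      have h4 := Real.mul_self_sqrt hdpos.le
      field_simp
      nlinarith
    rwa [h2] at this
  have hgcont : Continuous g := by
    have : LipschitzWith (Real.toNNReal (Real.sqrt (d : ℝ))⁻¹) g := by
      apply LipschitzWith.of_dist_le_mul
      intro x y
      rw [Real.dist_eq, dist_eq_norm, Real.coe_toNNReal _ (by positivity)]
      exact hglip x y
    exact this.continuous
  have hgts : TwoSided (1 / (d : ℝ)) g := ll_twoSided hdpos hρ hK hKne
  set f : EuclideanSpace ℝ (Fin d) → ℝ := moll φ g with hf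
  have hfC : ContDiff ℝ 2 f := moll_contDiff φ hgcont
  have hf0 : ∀ y, 0 ≤ f y := fun y => moll_mono φ hgcont fun z _ => ll_nonneg hdpos hρ _
  have hf1 : ∀ y, f y ≤ 1 := fun y => moll_mono' φ hgcont fun z _ => by
    have := ll_le (K := K) hdpos hρ (y - z)
    rw [hρ2] at this
    have h3 : 4 * (d : ℝ) / (4 * d) = 1 := by field_simp
    rw [h3] at this
    exact this
  have hfts : TwoSided (1 / (d : ℝ)) f := moll_twoSided φ hgcont hgts
  have hflow : ∀ y, (∀ i, r ≤ dist y (x i)) → β / 1296 ≤ f y := by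
    intro y hy
    apply moll_mono φ hgcont
    intro z hz
    rw [hφ] at hz
    refine le_trans ?_ (ll_ge hdpos hρ (y - z))
    have h1 : r / 2 ≤ infDist (y - z) K := by
      rw [le_infDist hKne]
      intro p hp
      obtain ⟨i, hi⟩ := mem_iUnion.mp hp
      rw [mem_closedBall] at hi
      have h2 := hy i
      have h3 : dist y (x i) ≤ dist y (y - z) + dist (y - z) p + dist p (x i) :=
        dist_triangle4 _ _ _ _
      have h4 : dist y (y - z) = ‖z‖ := by rw [dist_eq_norm]; congr 1; abel
      rw [h4] at h3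
      linarith
    have h2 : r / 2 ≤ ρ := by
      have h3 : r ^ 2 ≤ ρ ^ 2 := by
        rw [hr2, hρ2]
        have : (d : ℝ) * β ≤ d * 1 := mul_le_mul_of_nonneg_left hβ1 hdpos.le
        nlinarith
      have h4 : r ≤ ρ := by
        exact le_of_sq_le_sq h3 hρ
      linarith
    have h3 : r / 2 ≤ min ρ (infDist (y - z) K) := le_min h2 h1
    unfold tq
    have h4 : β / 1296 = (r / 2) ^ 2 / (4 * d) := by
      rw [div_pow, hr2]; field_simp; norm_num
    rw [h4]
    gcongr
  refine ⟨f, hfC, hf0, hf1, ?_, ?_, ?_, ?_⟩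
  · intro y z
    rw [dist_eq_norm]
    exact moll_lipschitz φ hgcont hglip y z
  · intro θ hθ y z
    rw [dist_eq_norm]
    have := hfts.fderiv_lipschitz (hfC.differentiable (by norm_num)) y z θ hθ
    rwa [one_div] at this
  · intro i
    have h1 : ∀ z, ‖z‖ ≤ φ.rOut → g (x i - z) = 0 := by
      intro z hz
      rw [hφ] at hz
      apply ll_eq_zero hdpos hρ
      apply mem_iUnion.mpr
      refine ⟨i, ?_⟩
      rw [mem_closedBall, dist_eq_norm]
      have : x i - z - x i = -z := by abel
      rw [this, norm_neg]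
      exact hz
    exact le_antisymm (moll_mono' φ hgcont fun z hz => (h1 z hz).le) (hf0 _)
  · -- the integral
    set U : Set (EuclideanSpace ℝ (Fin d)) := ⋃ i, closedBall (x i) r with hU
    have hUm : MeasurableSet U := MeasurableSet.iUnion fun i => isClosed_closedBall.measurableSet
    have hUvol : (volume : Measure (EuclideanSpace ℝ (Fin d))).real U ≤ 1 / 2 := by
      calc (volume : Measure (EuclideanSpace ℝ (Fin d))).real U
          ≤ ∑ i, (volume : Measure (EuclideanSpace ℝ (Fin d))).real (closedBall (x i) r) :=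
            measureReal_iUnion_fintype_le _
        _ ≤ ∑ i : Fin n, (1/2) * β ^ ((d : ℝ) / 2) :=
            Finset.sum_le_sum fun i _ => ball_real_le hd (x i) hβ
        _ = n * ((1/2) * β ^ ((d : ℝ) / 2)) := by
            rw [Finset.sum_const, Finset.card_univ, Fintype.card_fin, nsmul_eq_mul]
        _ = 1 / 2 := by
            have : β ^ ((d : ℝ) / 2) = (n : ℝ)⁻¹ := by
              rw [hβdef, ← Real.rpow_mul hnpos.le]
              have : -(2 : ℝ) / (d : ℝ) * ((d : ℝ) / 2) = -1 := by field_simp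
              rw [this, Real.rpow_neg_one]
            rw [this]; field_simp
    have hDreal : (volume : Measure (EuclideanSpace ℝ (Fin d))).real D = 1 := by
      unfold Measure.real; rw [hvol]; simp
    have hdiff : 1 / 2 ≤ (volume : Measure (EuclideanSpace ℝ (Fin d))).real (D \ U) := by
      have h1 : (volume : Measure (EuclideanSpace ℝ (Fin d))).real D
          ≤ (volume : Measure (EuclideanSpace ℝ (Fin d))).real (D \ U) +
            (volume : Measure (EuclideanSpace ℝ (Fin d))).real U := by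
        have hfinU : volume U ≠ ⊤ := by
          apply ne_of_lt
          calc volume U ≤ ∑ i, volume (closedBall (x i) r) := measure_iUnion_fintype_le _ _
            _ < ⊤ := ENNReal.sum_lt_top.mpr fun i _ => measure_closedBall_lt_top
        have hfinD : volume (D \ U) ≠ ⊤ := by
          apply ne_of_lt
          calc volume (D \ U) ≤ volume D := measure_mono sdiff_subset
            _ < ⊤ := by rw [hvol]; simp
        have hsub : D ⊆ (D \ U) ∪ U := by
          intro y hy
          by_cases h : y ∈ U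
          · exact Or.inr h
          · exact Or.inl ⟨hy, h⟩
        have hfin : volume ((D \ U) ∪ U) ≠ ⊤ :=
          (measure_union_lt_top hfinD.lt_top hfinU.lt_top).ne
        exact (measureReal_mono hsub hfin).trans (measureReal_union_le _ _)
      linarith
    have hfint : IntegrableOn f D volume := by
      have hfin : volume D ≠ ⊤ := by rw [hvol]; simp
      have hcfin : ‖(1 : ℝ)‖ₑ ≠ ⊤ := enorm_ne_top
      apply Integrable.mono' (g := fun _ => (1 : ℝ))
      · exact integrableOn_const hfin hcfin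
      · exact hfC.continuous.aestronglyMeasurable
      · filter_upwards with y
        rw [Real.norm_eq_abs, abs_of_nonneg (hf0 y)]
        exact hf1 y
    calc (1 / 2592) * β = (1 / 2) * (β / 1296) := by ring
      _ ≤ (volume : Measure (EuclideanSpace ℝ (Fin d))).real (D \ U) * (β / 1296) :=
          mul_le_mul_of_nonneg_right hdiff (by positivity)
      _ = ∫ y in D \ U, (β / 1296) := by rw [setIntegral_const, smul_eq_mul]
      _ ≤ ∫ y in D \ U, f y := by
          have hfin : volume (D \ U) ≠ ⊤ := by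
            apply ne_of_lt
            calc volume (D \ U) ≤ volume D := measure_mono sdiff_subset
              _ < ⊤ := by rw [hvol]; simp
          have hcfin : ‖β / 1296‖ₑ ≠ ⊤ := enorm_ne_top
          apply setIntegral_mono_on
          · exact integrableOn_const hfin hcfin
          · exact hfint.mono_set sdiff_subset
          · exact hD.measurableSet.diff hUm
          · intro y hy
            apply hflow
            intro i
            by_contra hcon
            push Not at hcon
            exact hy.2 (mem_iUnion.mpr ⟨i, by rw [mem_closedBall]; exact hcon.le⟩)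
      _ ≤ ∫ y in D, f y := by
          apply setIntegral_mono_set hfint
          · filter_upwards with y using hf0 y
          · exact sdiff_subset.eventuallyLE

end Volume

end Pool.Agent.Helper579.LasryLions
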