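import Mathlib

/-!
Definitions for the randomized integration of functions of dominating mixed smoothness on the
torus: the unit ball of the space, algorithms that use function values at random points, and the
minimal errors.
-/

set_option autoImplicit false

namespace Pool.Agent.Helper579.Mix

open MeasureTheory
open scoped ENNReal

/-- The `d`-torus. -/
abbrev Torus (d : ℕ) : Type := UnitAddTorus (Fin d)

/-- The uniform distribution (the Lebesgue measure) on the torus. -/
noncomputable def unif (d : ℕ) : Measure (Torus d) :=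
  Measure.pi fun _ => AddCircle.haarAddCircle

/-- The squared norm `∑_h |f^(h)|^2 ∏_j (1 + |h_j|^2)^k` of the space `H^{k,mix}`. -/
noncomputable def normSq {d : ℕ} (k : ℝ) (f : C(Torus d, ℝ)) : ℝ≥0∞ :=
  ∑' h : Fin d → ℤ, ENNReal.ofReal
    (‖UnitAddTorus.mFourierCoeff (fun x => (f x : ℂ)) h‖ ^ 2 * ∏ j, (1 + (h j : ℝ) ^ 2) ^ k)

/-- The unit ball of `H^{k,mix}`, `k > 1/2`; its elements are represented by their continuous
versions. -/
def ball (d : ℕ) (k : ℝ) : Set C(Torus d, ℝ) := {f | normSq k f ≤ 1}

/-- The integral of `f` over the torus. -/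
noncomputable def S {d : ℕ} (f : C(Torus d, ℝ)) : ℝ := ∫ x, f x ∂unif d

/-- The upper integral. -/
noncomputable def upperInt {Ω : Type} [MeasurableSpace Ω] (μ : Measure Ω) (g : Ω → ℝ≥0∞) : ℝ≥0∞ :=
  ⨅ (h : Ω → ℝ≥0∞) (_ : Measurable h) (_ : ∀ ω, g ω ≤ h ω), ∫⁻ ω, h ω ∂μ

/-- A randomized algorithm that uses function values at `m` random points `X ω 0, ...,
X ω (m - 1)` (repetitions are allowed, so the random point set has at most `m` points) and a
random map `φ ω` from the vector of function values to the real numbers. No measurability of `φ`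
is required. -/
structure Algorithm (d m : ℕ) where
  Ω : Type
  mΩ : MeasurableSpace Ω
  μ : Measure Ω
  prob : IsProbabilityMeasure μ
  X : Ω → Fin m → Torus d
  measX : Measurable X
  φ : Ω → (Fin m → ℝ) → ℝ

/-- The joint distribution of the random points. -/
noncomputable def Algorithm.law {d m : ℕ} (A : Algorithm d m) : Measure (Fin m → Torus d) :=
  @Measure.map A.Ω (Fin m → Torus d) A.mΩ _ A.X A.μ

/-- The output of the algorithm for the input `f` and the random element `ω`. -/
def Algorithm.eval {d m : ℕ} (A : Algorithm d m) (f : C(Torus d, ℝ)) (ω : A.Ω) : ℝ :=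
  A.φ ω fun i => f (A.X ω i)

/-- The Monte Carlo error of the algorithm on the unit ball of `H^{k,mix}`. -/
noncomputable def Algorithm.err {d m : ℕ} (A : Algorithm d m) (k : ℝ) : ℝ≥0∞ :=
  ⨆ f ∈ ball d k, @upperInt A.Ω A.mΩ A.μ fun ω => ENNReal.ofReal |S f - A.eval f ω|

/-- The minimal Monte Carlo error of the algorithms whose random points have distribution `P`. -/
noncomputable def eDist {d m : ℕ} (k : ℝ) (P : Measure (Fin m → Torus d)) : ℝ≥0∞ :=
  ⨅ (A : Algorithm d m) (_ : A.law = P), A.err k

/-- The minimal Monte Carlo error `e^ran(n)` over all random point sets with at most `n`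
points. -/
noncomputable def eOpt (d : ℕ) (k : ℝ) (n : ℕ) : ℝ≥0∞ :=
  ⨅ (m : ℕ) (_ : m ≤ n) (P : Measure (Fin m → Torus d)) (_ : IsProbabilityMeasure P), eDist k P

/-- The minimal Monte Carlo error `e^ran(P_n)` for `n` independent, uniformly distributed
points. -/
noncomputable def eIid (d : ℕ) (k : ℝ) (n : ℕ) : ℝ≥0∞ :=
  eDist k (Measure.pi fun _ : Fin n => unif d)

/-- `a_n ≍ b_n`: `c b_n ≤ a_n ≤ C b_n` for all large `n` with positive constants `c` and `C`. -/
def Asymp (a b : ℕ → ℝ≥0∞) : Prop :=
  ∃ c C : ℝ, 0 < c ∧ 0 < C ∧ ∀ᶠ n in Filter.atTop,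
    ENNReal.ofReal c * b n ≤ a n ∧ a n ≤ ENNReal.ofReal C * b n

end Pool.Agent.Helper579.Mix
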