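import Mathlib

set_option autoImplicit false

namespace Pool.Agent.Helper579.Mix

open MeasureTheory ProbabilityTheory
open scoped ENNReal

/-- weights of the discrete Gaussian -/
noncomputable def gw (b : ℝ) (z : ℤ) : ℝ := Real.exp (-(b * (z : ℝ) ^ 2))

noncomputable def G (b : ℝ) (z : ℤ) : ℝ≥0∞ := ENNReal.ofReal (gw b z)

noncomputable def Zb (b : ℝ) : ℝ≥0∞ := ∑' z, G b z

lemma gw_pos (b : ℝ) (z : ℤ) : 0 < gw b z := Real.exp_pos _

lemma summable_gw {b : ℝ} (hb : 0 < b) : Summable (gw b) := by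
  have h : ∀ n : ℕ, Real.exp (-(b * (n : ℝ) ^ 2)) ≤ Real.exp (-b) ^ n := by
    intro n
    rw [← Real.exp_nat_mul, Real.exp_le_exp]
    have : (n : ℝ) ≤ (n : ℝ) ^ 2 := by
      rcases Nat.eq_zero_or_pos n with h | h
      · simp [h]
      · have : (1 : ℝ) ≤ n := by exact_mod_cast h
        nlinarith
    nlinarith
  have h1 : Summable fun n : ℕ => Real.exp (-b) ^ n :=
    summable_geometric_of_lt_one (Real.exp_pos _).le (by rw [Real.exp_lt_one_iff]; linarith)
  have h2 : Summable fun n : ℕ => gw b n := by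
    refine Summable.of_nonneg_of_le (fun n => (gw_pos _ _).le) (fun n => ?_) h1
    unfold gw
    exact_mod_cast h n
  have h3 : Summable fun n : ℕ => gw b (-n) := by
    refine Summable.of_nonneg_of_le (fun n => (gw_pos _ _).le) (fun n => ?_) h1
    unfold gw
    push_cast
    rw [neg_sq]
    exact h n
  exact Summable.of_nat_of_neg h2 h3

lemma Zb_ne_top {b : ℝ} (hb : 0 < b) : Zb b ≠ ∞ := (summable_gw hb).tsum_ofReal_ne_top

lemma Zb_ne_zero (b : ℝ) : Zb b ≠ 0 := by
  have : G b 0 ≤ Zb b := ENNReal.le_tsum 0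
  intro h
  rw [h] at this
  have h2 : 0 < G b 0 := ENNReal.ofReal_pos.2 (gw_pos _ _)
  exact absurd this (not_le.2 h2)

/-- comparison of the partition functions -/
lemma Zb_half {b : ℝ} (hb : 0 < b) : Zb (b / 2) ≤ 3 * Zb b := by
  have e1 : Zb (b / 2) = ∑' p : ℤ × Fin 2, G (b / 2) (p.1 * 2 + p.2) := by
    unfold Zb
    rw [← (Int.divModEquiv 2).symm.tsum_eq]
    rfl
  rw [e1, ENNReal.tsum_prod (f := fun (w : ℤ) (i : Fin 2) => G (b / 2) (w * 2 + i))]
  have h1 : ∀ w : ℤ, ∑' i : Fin 2, G (b / 2) (w * 2 + i) ≤ 2 * G b w + G b (w + 1) := by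
    intro w
    rw [tsum_fintype, Fin.sum_univ_two]
    have a1 : G (b / 2) (w * 2 + ((0 : Fin 2) : ℕ)) ≤ G b w := by
      apply ENNReal.ofReal_le_ofReal
      unfold gw
      rw [Real.exp_le_exp]
      simp only [Fin.val_zero, Nat.cast_zero, add_zero]
      push_cast
      nlinarith [sq_nonneg (w : ℝ)]
    have a2 : G (b / 2) (w * 2 + ((1 : Fin 2) : ℕ)) ≤ G b w + G b (w + 1) := by
      rcases le_or_gt 0 w with hw | hw
      · refine le_trans ?_ le_self_add
        apply ENNReal.ofReal_le_ofReal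
        unfold gw
        rw [Real.exp_le_exp]
        simp only [Fin.val_one, Nat.cast_one]
        push_cast
        have : (0 : ℝ) ≤ w := by exact_mod_cast hw
        nlinarith [mul_nonneg hb.le (sq_nonneg (w : ℝ)), mul_nonneg hb.le this]
      · refine le_trans ?_ le_add_self
        apply ENNReal.ofReal_le_ofReal
        unfold gw
        rw [Real.exp_le_exp]
        simp only [Fin.val_one, Nat.cast_one]
        push_cast
        have : (w : ℝ) + 1 ≤ 0 := by exact_mod_cast hw
        have h3 : 0 ≤ b * (-(w + 1) : ℝ) := mul_nonneg hb.le (by linarith)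
        nlinarith [mul_nonneg hb.le (sq_nonneg ((w : ℝ) + 1)), h3]
    refine (add_le_add a1 a2).trans (le_of_eq ?_)
    ring
  refine (ENNReal.tsum_le_tsum h1).trans ?_
  rw [ENNReal.tsum_add, ENNReal.tsum_mul_left]
  have h2 : ∑' w : ℤ, G b (w + 1) = Zb b := by
    unfold Zb
    exact (Equiv.addRight (1 : ℤ)).tsum_eq (fun w => G b w)
  rw [h2]
  unfold Zb
  apply le_of_eq
  ring

/-- the discrete Gaussian distribution -/
noncomputable def pm (b : ℝ) : Measure ℤ :=
  Measure.sum fun z => (G b z / Zb b) • Measure.dirac z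

lemma lintegral_pm (b : ℝ) (f : ℤ → ℝ≥0∞) : ∫⁻ z, f z ∂pm b = ∑' z, G b z / Zb b * f z := by
  unfold pm
  rw [lintegral_sum_measure]
  congr 1
  ext z
  rw [lintegral_smul_measure, lintegral_dirac, smul_eq_mul]

lemma pm_singleton (b : ℝ) (z : ℤ) : pm b {z} = G b z / Zb b := by
  rw [← lintegral_indicator_one (measurableSet_singleton z), lintegral_pm, tsum_eq_single z]
  · simp
  · intro w hw
    simp [hw]

lemma prob_pm {b : ℝ} (hb : 0 < b) : IsProbabilityMeasure (pm b) := by
  constructor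
  rw [← lintegral_one, lintegral_pm]
  simp only [mul_one, div_eq_mul_inv]
  rw [ENNReal.tsum_mul_right]
  exact ENNReal.mul_inv_cancel (Zb_ne_zero b) (Zb_ne_top hb)

/-- second moment -/
lemma sq_pm {b : ℝ} (hb : 0 < b) :
    ∫⁻ z, ENNReal.ofReal ((z : ℝ) ^ 2) ∂pm b ≤ ENNReal.ofReal (3 / b) := by
  rw [lintegral_pm]
  have h1 : ∀ z : ℤ, G b z / Zb b * ENNReal.ofReal ((z : ℝ) ^ 2)
      ≤ ENNReal.ofReal (1 / b) * (Zb b)⁻¹ * G (b / 2) z := by
    intro z
    have h2 : G b z * ENNReal.ofReal ((z : ℝ) ^ 2) ≤ ENNReal.ofReal (1 / b) * G (b / 2) z := by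
      unfold G gw
      rw [← ENNReal.ofReal_mul (Real.exp_pos _).le, ← ENNReal.ofReal_mul (by positivity)]
      apply ENNReal.ofReal_le_ofReal
      set y : ℝ := b / 2 * (z : ℝ) ^ 2 with hy
      have hy0 : 0 ≤ y := by positivity
      have e1 : Real.exp (-(b * (z : ℝ) ^ 2)) = Real.exp (-y) * Real.exp (-y) := by
        rw [← Real.exp_add, hy]; congr 1; ring
      have e2 : (z : ℝ) ^ 2 = 2 / b * y := by rw [hy]; field_simp
      have e3 : y * Real.exp (-y) ≤ 1 / 2 := by
        rw [Real.exp_neg, ← div_eq_mul_inv, div_le_iff₀ (Real.exp_pos _)]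
        have := Real.quadratic_le_exp_of_nonneg hy0
        nlinarith [sq_nonneg (y - 1)]
      rw [e1, e2]
      calc Real.exp (-y) * Real.exp (-y) * (2 / b * y)
          = 2 / b * (y * Real.exp (-y)) * Real.exp (-y) := by ring
        _ ≤ 2 / b * (1 / 2) * Real.exp (-y) := by gcongr
        _ = 1 / b * Real.exp (-y) := by ring
    calc G b z / Zb b * ENNReal.ofReal ((z : ℝ) ^ 2)
        = (Zb b)⁻¹ * (G b z * ENNReal.ofReal ((z : ℝ) ^ 2)) := by
          rw [div_eq_mul_inv]; ring
      _ ≤ (Zb b)⁻¹ * (ENNReal.ofReal (1 / b) * G (b / 2) z) := by gcongr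
      _ = _ := by ring
  refine (ENNReal.tsum_le_tsum h1).trans ?_
  rw [ENNReal.tsum_mul_left]
  change ENNReal.ofReal (1 / b) * (Zb b)⁻¹ * Zb (b / 2) ≤ _
  calc ENNReal.ofReal (1 / b) * (Zb b)⁻¹ * Zb (b / 2)
      ≤ ENNReal.ofReal (1 / b) * (Zb b)⁻¹ * (3 * Zb b) := by gcongr; exact Zb_half hb
    _ = ENNReal.ofReal (1 / b) * 3 * ((Zb b)⁻¹ * Zb b) := by ring
    _ = ENNReal.ofReal (3 / b) := by
        rw [ENNReal.inv_mul_cancel (Zb_ne_zero b) (Zb_ne_top hb), mul_one]
        have : (3 : ℝ≥0∞) = ENNReal.ofReal 3 := by norm_num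
        rw [this, ← ENNReal.ofReal_mul (by positivity)]
        congr 1
        ring

lemma memLp_pm {b : ℝ} (hb : 0 < b) : MemLp (fun z : ℤ => (z : ℝ)) 2 (pm b) := by
  have hm : AEStronglyMeasurable (fun z : ℤ => (z : ℝ)) (pm b) :=
    (measurable_of_countable _).aestronglyMeasurable
  rw [memLp_two_iff_integrable_sq hm]
  refine ⟨(measurable_of_countable _).aestronglyMeasurable, ?_⟩
  rw [hasFiniteIntegral_iff_ofReal (Filter.Eventually.of_forall fun z => sq_nonneg _)]
  exact (sq_pm hb).trans_lt ENNReal.ofReal_lt_top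

lemma integral_pm {b : ℝ} : ∫ z, (z : ℝ) ∂pm b = 0 := by
  have h1 : (pm b).map (fun z => -z) = pm b := by
    refine Measure.ext_iff_singleton.2 fun z => ?_
    rw [Measure.map_apply (measurable_of_countable _) (measurableSet_singleton z)]
    have : (fun z : ℤ => -z) ⁻¹' {z} = {-z} := by
      ext w
      simp only [Set.mem_preimage, Set.mem_singleton_iff]
      omega
    rw [this, pm_singleton, pm_singleton]
    unfold G gw
    push_cast
    rw [neg_sq]
  have h2 : ∫ z, (z : ℝ) ∂pm b = -∫ z, (z : ℝ) ∂pm b := by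
    conv_lhs => rw [← h1]
    rw [integral_map (measurable_of_countable _).aemeasurable
      (measurable_of_countable _).aestronglyMeasurable, ← integral_neg]
    congr 1
    ext z
    push_cast
    ring
  linarith

lemma var_pm {b : ℝ} (hb : 0 < b) : variance (fun z : ℤ => (z : ℝ)) (pm b) ≤ 3 / b := by
  have := prob_pm hb
  rw [variance_of_integral_eq_zero (memLp_pm hb).aestronglyMeasurable.aemeasurable integral_pm]
  rw [integral_eq_lintegral_of_nonneg_ae (Filter.Eventually.of_forall fun z => sq_nonneg _)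
    (measurable_of_countable _).aestronglyMeasurable]
  exact ENNReal.toReal_le_of_le_ofReal (by positivity) (sq_pm hb)

section Product

variable {D : Type} [Fintype D]

/-- the product of discrete Gaussians -/
noncomputable def PG (b : D → ℝ) : Measure (D → ℤ) := Measure.pi fun m => pm (b m)

lemma prob_PG {b : D → ℝ} (hb : ∀ m, 0 < b m) : IsProbabilityMeasure (PG b) := by
  have : ∀ m, IsProbabilityMeasure (pm (b m)) := fun m => prob_pm (hb m)
  unfold PG
  infer_instance

/-- second moment of a linear form -/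
lemma sq_lin {b : D → ℝ} (hb : ∀ m, 0 < b m) (c : D → ℝ) :
    ∫⁻ z, ENNReal.ofReal ((∑ m, c m * z m) ^ 2) ∂PG b
      ≤ ENNReal.ofReal (∑ m, c m ^ 2 * (3 / b m)) := by
  have hp : ∀ m, IsProbabilityMeasure (pm (b m)) := fun m => prob_pm (hb m)
  have hP := prob_PG hb
  have hX : ∀ m, MemLp (fun z : ℤ => c m * (z : ℝ)) 2 (pm (b m)) :=
    fun m => (memLp_pm (hb m)).const_mul _
  have hvar := variance_sum_pi (μ := fun m => pm (b m)) hX
  have hL : ∀ m, MemLp (fun z : D → ℤ => c m * (z m : ℝ)) 2 (PG b) := fun m =>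
    (hX m).comp_measurePreserving (measurePreserving_eval (fun m => pm (b m)) m)
  have hsum : (∑ m, fun z : D → ℤ => c m * (z m : ℝ)) = fun z => ∑ m, c m * (z m : ℝ) := by
    ext z; simp
  have hL2 : MemLp (fun z : D → ℤ => ∑ m, c m * (z m : ℝ)) 2 (PG b) := memLp_finsetSum _ fun m _ => hL m
  have hmean : ∫ z, ∑ m, c m * (z m : ℝ) ∂PG b = 0 := by
    rw [integral_finsetSum _ fun m _ => (hL m).integrable (by norm_num)]
    apply Finset.sum_eq_zero
    intro m _
    have h2 : ∫ z : D → ℤ, c m * (z m : ℝ) ∂PG b = ∫ z, c m * (z : ℝ) ∂pm (b m) := by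
      unfold PG
      rw [← (measurePreserving_eval (fun m => pm (b m)) m).map_eq,
        integral_map (measurable_pi_apply m).aemeasurable
          (measurable_of_countable _).aestronglyMeasurable]
    rw [h2, integral_const_mul, integral_pm, mul_zero]
  have h3 : ∫ z, (∑ m, c m * (z m : ℝ)) ^ 2 ∂PG b ≤ ∑ m, c m ^ 2 * (3 / b m) := by
    rw [← variance_of_integral_eq_zero hL2.aestronglyMeasurable.aemeasurable hmean, ← hsum]
    unfold PG
    rw [hvar]
    apply Finset.sum_le_sum
    intro m _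
    rw [variance_const_mul]
    gcongr
    exact var_pm (hb m)
  rw [← ofReal_integral_eq_lintegral_ofReal hL2.integrable_sq
    (Filter.Eventually.of_forall fun z => sq_nonneg _)]
  exact ENNReal.ofReal_le_ofReal h3

lemma PG_singleton {b : D → ℝ} (hb : ∀ m, 0 < b m) (z : D → ℤ) :
    PG b {z} = ∏ m, (G (b m) (z m) / Zb (b m)) := by
  have hp : ∀ m, IsProbabilityMeasure (pm (b m)) := fun m => prob_pm (hb m)
  unfold PG
  rw [Measure.pi_singleton]
  exact Finset.prod_congr rfl fun m _ => pm_singleton _ _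

lemma PG_shift {b : D → ℝ} (hb : ∀ m, 0 < b m) (z y : D → ℤ) :
    PG b {z + y} = PG b {z} * ENNReal.ofReal
      (Real.exp (-(∑ m, b m * (y m : ℝ) ^ 2) - 2 * ∑ m, b m * y m * z m)) := by
  rw [PG_singleton hb, PG_singleton hb]
  have h1 : Real.exp (-(∑ m, b m * (y m : ℝ) ^ 2) - 2 * ∑ m, b m * y m * z m)
      = ∏ m, Real.exp (-(b m * (y m : ℝ) ^ 2) - 2 * (b m * y m * z m)) := by
    rw [← Real.exp_sum, Finset.sum_sub_distrib, Finset.mul_sum, Finset.sum_neg_distrib]
  rw [h1, ENNReal.ofReal_prod_of_nonneg fun m _ => (Real.exp_pos _).le, ← Finset.prod_mul_distrib]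
  apply Finset.prod_congr rfl
  intro m _
  have h2 : G (b m) ((z + y) m) = G (b m) (z m) *
      ENNReal.ofReal (Real.exp (-(b m * (y m : ℝ) ^ 2) - 2 * (b m * y m * z m))) := by
    unfold G gw
    rw [← ENNReal.ofReal_mul (Real.exp_pos _).le, ← Real.exp_add]
    congr 2
    simp only [Pi.add_apply]
    push_cast
    ring
  rw [h2, div_eq_mul_inv, div_eq_mul_inv]
  ring

lemma PG_ge {b : D → ℝ} (hb : ∀ m, 0 < b m) (z y : D → ℤ) :
    ENNReal.ofReal (3 / 4 - (∑ m, b m * (y m : ℝ) ^ 2) - 4 * (∑ m, b m * y m * z m) ^ 2)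
      * PG b {z} ≤ PG b {z + y} := by
  rw [PG_shift hb, mul_comm]
  gcongr
  set q := ∑ m, b m * (y m : ℝ) ^ 2
  set t := ∑ m, b m * y m * (z m : ℝ)
  have h1 := Real.add_one_le_exp (-q - 2 * t)
  nlinarith [sq_nonneg (2 * t - 1 / 2)]

/-- the shift lemma -/
lemma shift {b : D → ℝ} (hb : ∀ m, 0 < b m) (y : D → ℤ)
    (hy : ∑ m, b m * (y m : ℝ) ^ 2 ≤ 1 / 52) (T : Set (D → ℤ))
    (hT : ∀ z, z - y ∈ T ∨ z + y ∈ T) : ENNReal.ofReal (1 / 4) ≤ PG b T := by
  classical
  have hP := prob_PG hb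
  set q := ∑ m, b m * (y m : ℝ) ^ 2 with hq
  set A : (D → ℤ) → ℝ≥0∞ := fun z =>
    ENNReal.ofReal (3 / 4 - q - 4 * (∑ m, b m * y m * z m) ^ 2) with hA
  have hmeas : MeasurableSet T := MeasurableSet.of_discrete
  have e0 : PG b T = ∑' z, T.indicator (fun z => PG b {z}) z := by
    rw [← lintegral_indicator_one hmeas, lintegral_countable']
    congr 1
    ext z
    by_cases h : z ∈ T <;> simp [h]
  have e1 : PG b T = ∑' z, T.indicator (fun z => PG b {z}) (z - y) := by
    rw [e0]
    exact ((Equiv.subRight y).tsum_eq (fun z => T.indicator (fun z => PG b {z}) z)).symm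
  have e2 : PG b T = ∑' z, T.indicator (fun z => PG b {z}) (z + y) := by
    rw [e0]
    exact ((Equiv.addRight y).tsum_eq (fun z => T.indicator (fun z => PG b {z}) z)).symm
  have h1 : ∫⁻ z, A z ∂PG b ≤ 2 * PG b T := by
    rw [two_mul]
    nth_rewrite 1 [e1]
    rw [e2, ← ENNReal.tsum_add, lintegral_countable']
    apply ENNReal.tsum_le_tsum
    intro z
    have g2 : A z * PG b {z} ≤ PG b {z + y} := PG_ge hb z y
    have g1 : A z * PG b {z} ≤ PG b {z - y} := by
      have := PG_ge hb z (-y)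
      rw [← sub_eq_add_neg] at this
      refine le_trans (le_of_eq ?_) this
      have s1 : ∑ m, b m * (((-y) m : ℤ) : ℝ) ^ 2 = q := by
        rw [hq]
        exact Finset.sum_congr rfl fun m _ => by simp
      have s2 : ∑ m, b m * (((-y) m : ℤ) : ℝ) * z m = -∑ m, b m * y m * z m := by
        rw [← Finset.sum_neg_distrib]
        exact Finset.sum_congr rfl fun m _ => by simp
      rw [s1, s2, neg_sq]
    rcases hT z with h | h
    · refine g1.trans ?_
      rw [Set.indicator_of_mem h]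
      exact le_self_add
    · refine g2.trans ?_
      rw [Set.indicator_of_mem h]
      exact le_add_self
  have h2 : ENNReal.ofReal (3 / 4 - q) ≤ ∫⁻ z, A z ∂PG b + ENNReal.ofReal (12 * q) := by
    calc ENNReal.ofReal (3 / 4 - q) = ∫⁻ _, ENNReal.ofReal (3 / 4 - q) ∂PG b := by simp
      _ ≤ ∫⁻ z, (A z + ENNReal.ofReal (4 * (∑ m, b m * y m * z m) ^ 2)) ∂PG b := by
          apply lintegral_mono
          intro z
          rw [hA]
          refine le_trans (le_of_eq ?_) ENNReal.ofReal_add_le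
          rw [sub_add_cancel]
      _ = ∫⁻ z, A z ∂PG b + ∫⁻ z, ENNReal.ofReal (4 * (∑ m, b m * y m * z m) ^ 2) ∂PG b :=
          lintegral_add_left (measurable_of_countable _) _
      _ ≤ ∫⁻ z, A z ∂PG b + ENNReal.ofReal (12 * q) := by
          gcongr
          have := sq_lin hb fun m => b m * y m
          calc ∫⁻ z, ENNReal.ofReal (4 * (∑ m, b m * y m * z m) ^ 2) ∂PG b
              = ENNReal.ofReal 4 * ∫⁻ z, ENNReal.ofReal ((∑ m, b m * y m * z m) ^ 2) ∂PG b := by
                rw [← lintegral_const_mul _ (measurable_of_countable _)]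
                congr 1
                ext z
                rw [← ENNReal.ofReal_mul (by norm_num)]
            _ ≤ ENNReal.ofReal 4 * ENNReal.ofReal (∑ m, (b m * y m) ^ 2 * (3 / b m)) := by
                gcongr
            _ = ENNReal.ofReal (12 * q) := by
                rw [← ENNReal.ofReal_mul (by norm_num), hq, Finset.mul_sum, Finset.mul_sum]
                congr 1
                apply Finset.sum_congr rfl
                intro m _
                have := (hb m).ne'
                field_simp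
                ring
  have hq0 : 0 ≤ q := Finset.sum_nonneg fun m _ => mul_nonneg (hb m).le (sq_nonneg _)
  have h3 : ENNReal.ofReal (1 / 2) ≤ 2 * PG b T := by
    refine le_trans ?_ h1
    have h4 : ENNReal.ofReal (1 / 2) + ENNReal.ofReal (12 * q) ≤ ENNReal.ofReal (3 / 4 - q) := by
      rw [← ENNReal.ofReal_add (by norm_num) (by positivity)]
      apply ENNReal.ofReal_le_ofReal
      linarith
    exact ENNReal.le_of_add_le_add_right ENNReal.ofReal_ne_top (h4.trans h2)
  have h5 : ENNReal.ofReal (1 / 2) = 2 * ENNReal.ofReal (1 / 4) := by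
    have : (2 : ℝ≥0∞) = ENNReal.ofReal 2 := by norm_num
    rw [this, ← ENNReal.ofReal_mul (by norm_num)]
    congr 1
    norm_num
  rw [h5] at h3
  exact (ENNReal.mul_le_mul_iff_right (by norm_num) (by norm_num)).1 h3

end Product

end Pool.Agent.Helper579.Mix
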