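import Mathlib
import Pool.Agent.Helper579.MixDefs
import Pool.Agent.Helper579.MixGauss

set_option autoImplicit false

namespace Pool.Agent.Helper579.Mix

open MeasureTheory ProbabilityTheory
open scoped ENNReal

instance probUnif (d : ℕ) : IsProbabilityMeasure (unif d) := by
  unfold unif
  infer_instance

lemma coeff_eq {d : ℕ} (f : Torus d → ℂ) (h : Fin d → ℤ) :
    UnitAddTorus.mFourierCoeff f h = ∫ t, UnitAddTorus.mFourier (-h) t * f t ∂unif d := rfl

lemma integrable_cont {d : ℕ} {f : Torus d → ℂ} (hf : Continuous f) : Integrable f (unif d) :=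
  hf.integrable_of_hasCompactSupport (HasCompactSupport.of_compactSpace f)

lemma integrable_cont_real {d : ℕ} {f : Torus d → ℝ} (hf : Continuous f) :
    Integrable f (unif d) :=
  hf.integrable_of_hasCompactSupport (HasCompactSupport.of_compactSpace f)

/-- the Fourier coefficients of a real function -/
noncomputable def fc {d : ℕ} (f : C(Torus d, ℝ)) (h : Fin d → ℤ) : ℂ :=
  UnitAddTorus.mFourierCoeff (fun x => (f x : ℂ)) h

lemma fc_sum {d : ℕ} {D : Type} [Fintype D] (u : D → C(Torus d, ℝ)) (c : D → ℝ)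
    (h : Fin d → ℤ) : fc (∑ m, c m • u m) h = ∑ m, (c m : ℂ) * fc (u m) h := by
  unfold fc
  simp only [coeff_eq]
  have h1 : ∀ m, ∫ t, (c m : ℂ) * (UnitAddTorus.mFourier (-h) t * (u m t : ℂ)) ∂unif d
      = (c m : ℂ) * ∫ t, UnitAddTorus.mFourier (-h) t * (u m t : ℂ) ∂unif d := by
    intro m
    rw [integral_const_mul]
  simp only [← h1]
  rw [← integral_finsetSum]
  · congr 1
    ext t
    simp only [ContinuousMap.coe_sum, ContinuousMap.coe_smul, Finset.sum_apply, Pi.smul_apply,
      smul_eq_mul]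
    push_cast
    rw [Finset.mul_sum]
    apply Finset.sum_congr rfl
    intro m _
    ring
  · intro m _
    apply integrable_cont
    have h1 : Continuous (u m) := (u m).continuous
    have h2 : Continuous (UnitAddTorus.mFourier (-h)) := (UnitAddTorus.mFourier (-h)).continuous
    fun_prop

variable {D : Type} [Fintype D]

lemma sq_lin_complex {b : D → ℝ} (hb : ∀ m, 0 < b m) (δ : D → ℝ) (c : D → ℂ) :
    ∫⁻ z, ENNReal.ofReal (‖∑ m, ((δ m * z m : ℝ) : ℂ) * c m‖ ^ 2) ∂PG b
      ≤ ENNReal.ofReal (∑ m, 3 * δ m ^ 2 / b m * ‖c m‖ ^ 2) := by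
  have h1 : ∀ z : D → ℤ, ENNReal.ofReal (‖∑ m, ((δ m * z m : ℝ) : ℂ) * c m‖ ^ 2)
      = ENNReal.ofReal ((∑ m, (δ m * (c m).re) * z m) ^ 2)
        + ENNReal.ofReal ((∑ m, (δ m * (c m).im) * z m) ^ 2) := by
    intro z
    rw [← ENNReal.ofReal_add (sq_nonneg _) (sq_nonneg _)]
    congr 1
    rw [← Complex.normSq_eq_norm_sq, Complex.normSq_apply]
    simp only [Complex.re_sum, Complex.im_sum, Complex.re_ofReal_mul, Complex.im_ofReal_mul]
    rw [sq, sq]
    congr 1
    · congr 1 <;> exact Finset.sum_congr rfl fun m _ => by ring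
    · congr 1 <;> exact Finset.sum_congr rfl fun m _ => by ring
  simp only [h1]
  rw [lintegral_add_left (measurable_of_countable _)]
  refine (add_le_add (sq_lin hb _) (sq_lin hb _)).trans ?_
  have hnn : ∀ (f : D → ℝ), 0 ≤ ∑ m, f m ^ 2 * (3 / b m) := fun f =>
    Finset.sum_nonneg fun m _ => mul_nonneg (sq_nonneg _) (div_nonneg (by norm_num) (hb m).le)
  rw [← ENNReal.ofReal_add (hnn _) (hnn _), ← Finset.sum_add_distrib]
  apply ENNReal.ofReal_le_ofReal
  apply le_of_eq
  apply Finset.sum_congr rfl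
  intro m _
  rw [← Complex.normSq_eq_norm_sq, Complex.normSq_apply]
  ring

/-- the random function -/
noncomputable def Fz {d : ℕ} (u : D → C(Torus d, ℝ)) (δ : D → ℝ) (z : D → ℤ) : C(Torus d, ℝ) :=
  ∑ m, (δ m * z m : ℝ) • u m

lemma normSq_eq {d : ℕ} (k : ℝ) (f : C(Torus d, ℝ)) :
    normSq k f = ∑' h : Fin d → ℤ, ENNReal.ofReal
      (‖fc f h‖ ^ 2 * ∏ j, (1 + (h j : ℝ) ^ 2) ^ k) := rfl

lemma lintegral_normSq {d : ℕ} (k : ℝ) {b : D → ℝ} (hb : ∀ m, 0 < b m) (δ : D → ℝ)
    (u : D → C(Torus d, ℝ)) :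
    ∫⁻ z, normSq k (Fz u δ z) ∂PG b ≤ ∑ m, ENNReal.ofReal (3 * δ m ^ 2 / b m) * normSq k (u m) := by
  simp only [normSq_eq]
  rw [lintegral_tsum fun h => (measurable_of_countable _).aemeasurable]
  have hw : ∀ h : Fin d → ℤ, 0 ≤ ∏ j, (1 + (h j : ℝ) ^ 2) ^ k := fun h =>
    Finset.prod_nonneg fun j _ => Real.rpow_nonneg (by positivity) _
  have h1 : ∀ h : Fin d → ℤ, ∫⁻ z, ENNReal.ofReal
      (‖fc (Fz u δ z) h‖ ^ 2 * ∏ j, (1 + (h j : ℝ) ^ 2) ^ k) ∂PG b
      ≤ ∑ m, ENNReal.ofReal (3 * δ m ^ 2 / b m) *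
        ENNReal.ofReal (‖fc (u m) h‖ ^ 2 * ∏ j, (1 + (h j : ℝ) ^ 2) ^ k) := by
    intro h
    have e1 : ∀ z : D → ℤ, ENNReal.ofReal
        (‖fc (Fz u δ z) h‖ ^ 2 * ∏ j, (1 + (h j : ℝ) ^ 2) ^ k)
        = ENNReal.ofReal (∏ j, (1 + (h j : ℝ) ^ 2) ^ k) *
          ENNReal.ofReal (‖∑ m, ((δ m * z m : ℝ) : ℂ) * fc (u m) h‖ ^ 2) := by
      intro z
      rw [← ENNReal.ofReal_mul (hw h), mul_comm]
      congr 3
      unfold Fz
      rw [fc_sum]
    simp only [e1]
    rw [lintegral_const_mul _ (measurable_of_countable _)]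
    refine (mul_le_mul_right (sq_lin_complex hb δ _) _).trans ?_
    rw [← ENNReal.ofReal_mul (hw h)]
    have e2 : ∀ m, ENNReal.ofReal (3 * δ m ^ 2 / b m) *
        ENNReal.ofReal (‖fc (u m) h‖ ^ 2 * ∏ j, (1 + (h j : ℝ) ^ 2) ^ k)
        = ENNReal.ofReal ((∏ j, (1 + (h j : ℝ) ^ 2) ^ k) * (3 * δ m ^ 2 / b m * ‖fc (u m) h‖ ^ 2)) := by
      intro m
      have := hb m
      rw [← ENNReal.ofReal_mul (by positivity)]
      congr 1
      ring
    simp only [e2]
    rw [← ENNReal.ofReal_sum_of_nonneg]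
    · rw [Finset.mul_sum]
    · intro m _
      have := hb m
      have := hw h
      positivity
  refine (ENNReal.tsum_le_tsum h1).trans ?_
  rw [Summable.tsum_finsetSum fun m _ => ENNReal.summable]
  simp only [ENNReal.tsum_mul_left]
  exact le_rfl

/-- the abstract lower bound -/
theorem abstract_lower {d n : ℕ} {k : ℝ} (u : D → C(Torus d, ℝ)) (δ b : D → ℝ)
    (hb : ∀ m, 0 < b m)
    (hnorm : ∑ m, ENNReal.ofReal (3 * δ m ^ 2 / b m) * normSq k (u m) ≤ ENNReal.ofReal (1 / 8))
    (κ : ℝ) (hκ : 0 ≤ κ) (P : Measure (Fin n → Torus d))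
    (Bad : Set (Fin n → Torus d)) (hBad : P Bad ≤ ENNReal.ofReal (1 / 2))
    (hy : ∀ x, x ∉ Bad → ∃ y : D → ℤ, ∑ m, b m * (y m : ℝ) ^ 2 ≤ 1 / 52 ∧
      (∀ i, ∑ m, δ m * y m * u m (x i) = 0) ∧ κ ≤ |∑ m, δ m * y m * S (u m)|) :
    ENNReal.ofReal (κ / 16) ≤ eDist k P := by
  classical
  have hP := prob_PG hb
  refine le_iInf₂ fun A hA => ?_
  let := A.mΩ
  have := A.prob
  apply ENNReal.le_of_forall_pos_le_add
  intro ε hε htop
  set e : ℝ≥0∞ := A.err k with he
  -- measurable majorants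
  have hmaj : ∀ z : D → ℤ, ∃ h : A.Ω → ℝ≥0∞, Measurable h ∧ (Fz u δ z ∈ ball d k →
      ∀ ω, ENNReal.ofReal |S (Fz u δ z) - A.eval (Fz u δ z) ω| ≤ h ω) ∧
      ∫⁻ ω, h ω ∂A.μ ≤ e + ε := by
    intro z
    by_cases hz : Fz u δ z ∈ ball d k
    · have h1 : @upperInt A.Ω A.mΩ A.μ
          (fun ω => ENNReal.ofReal |S (Fz u δ z) - A.eval (Fz u δ z) ω|) ≤ e := by
        rw [he]
        unfold Algorithm.err
        exact le_iSup₂ (f := fun (f : C(Torus d, ℝ)) (_ : f ∈ ball d k) =>
          @upperInt A.Ω A.mΩ A.μ fun ω => ENNReal.ofReal |S f - A.eval f ω|) _ hz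
      have h2 : @upperInt A.Ω A.mΩ A.μ
          (fun ω => ENNReal.ofReal |S (Fz u δ z) - A.eval (Fz u δ z) ω|) < e + ε := by
        refine lt_of_le_of_lt h1 ?_
        exact ENNReal.lt_add_right htop.ne (by exact_mod_cast hε.ne')
      unfold upperInt at h2
      simp only [iInf_lt_iff] at h2
      obtain ⟨h, hm, hle, hlt⟩ := h2
      exact ⟨h, hm, fun _ => hle, hlt.le⟩
    · exact ⟨fun _ => 0, measurable_const, fun h => absurd h hz, by simp⟩
  choose h hm hle hint using hmaj
  set H : A.Ω → ℝ≥0∞ := fun ω => ∑' z, PG b {z} * h z ω with hH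
  have hHm : Measurable H := Measurable.tsum fun z => (hm z).const_mul _
  have hHint : ∫⁻ ω, H ω ∂A.μ ≤ e + ε := by
    rw [hH, lintegral_tsum fun z => ((hm z).const_mul _).aemeasurable]
    calc ∑' z, ∫⁻ ω, PG b {z} * h z ω ∂A.μ = ∑' z, PG b {z} * ∫⁻ ω, h z ω ∂A.μ := by
          congr 1
          ext z
          rw [lintegral_const_mul _ (hm z)]
      _ ≤ ∑' z, (e + ε) * PG b {z} := by
          apply ENNReal.tsum_le_tsum
          intro z
          rw [mul_comm]
          gcongr
          exact hint z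
      _ = e + ε := by
          rw [ENNReal.tsum_mul_left]
          have : ∑' z, PG b {z} = 1 := by
            rw [← measure_univ (μ := PG b), ← lintegral_one, lintegral_countable']
            simp
          rw [this, mul_one]
  -- the functions outside of the ball have small probability
  have hB : PG b {z | Fz u δ z ∉ ball d k} ≤ ENNReal.ofReal (1 / 8) := by
    have h1 : PG b {z | Fz u δ z ∉ ball d k} ≤ PG b {z | 1 ≤ normSq k (Fz u δ z)} := by
      apply measure_mono
      intro z hz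
      simp only [ball, Set.mem_ofPred_eq, not_le] at hz ⊢
      exact hz.le
    have h2 := mul_meas_ge_le_lintegral (μ := PG b)
      (measurable_of_countable fun z => normSq k (Fz u δ z)) 1
    rw [one_mul] at h2
    exact h1.trans (h2.trans ((lintegral_normSq k hb δ u).trans hnorm))
  have hlow : ∀ ω, A.X ω ∉ Bad → ENNReal.ofReal (κ / 8) ≤ H ω := by
    intro ω hω
    obtain ⟨y, hy1, hy2, hy3⟩ := hy _ hω
    have hFadd : ∀ z : D → ℤ, Fz u δ (z + y) = Fz u δ (z - y) + (2 : ℝ) • Fz u δ y := by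
      intro z
      unfold Fz
      rw [Finset.smul_sum, ← Finset.sum_add_distrib]
      apply Finset.sum_congr rfl
      intro m _
      rw [smul_smul, ← add_smul]
      congr 1
      simp only [Pi.add_apply, Pi.sub_apply]
      push_cast
      ring
    have hval : ∀ (z : D → ℤ) (i), Fz u δ (z + y) (A.X ω i) = Fz u δ (z - y) (A.X ω i) := by
      intro z i
      rw [hFadd]
      have : Fz u δ y (A.X ω i) = 0 := by
        unfold Fz
        rw [ContinuousMap.sum_apply]
        simp only [ContinuousMap.smul_apply, smul_eq_mul]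
        exact hy2 i
      simp [this]
    have hSF : ∀ z : D → ℤ, S (Fz u δ (z + y)) = S (Fz u δ (z - y))
        + 2 * ∑ m, δ m * y m * S (u m) := by
      intro z
      rw [hFadd]
      have e1 : S (Fz u δ y) = ∑ m, δ m * y m * S (u m) := by
        unfold S Fz
        simp only [ContinuousMap.sum_apply, ContinuousMap.smul_apply, smul_eq_mul]
        rw [integral_finsetSum]
        · apply Finset.sum_congr rfl
          intro m _
          rw [integral_const_mul]
        · intro m _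
          exact (integrable_cont_real (u m).continuous).const_mul _
      rw [← e1]
      unfold S
      rw [← integral_const_mul, ← integral_add]
      · congr 1
      · exact integrable_cont_real (Fz u δ (z - y)).continuous
      · exact (integrable_cont_real (Fz u δ y).continuous).const_mul _
    set T : Set (D → ℤ) := {z | κ ≤ |S (Fz u δ z) - A.eval (Fz u δ z) ω|} with hT
    have hTy : ∀ z, z - y ∈ T ∨ z + y ∈ T := by
      intro z
      have e1 : A.eval (Fz u δ (z + y)) ω = A.eval (Fz u δ (z - y)) ω := by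
        unfold Algorithm.eval
        congr 1
        ext i
        exact hval z i
      by_contra hcon
      push Not at hcon
      simp only [hT, Set.mem_ofPred_eq, not_le] at hcon
      obtain ⟨c1, c2⟩ := hcon
      rw [hSF, e1] at c2
      rw [abs_lt] at c1 c2
      rcases le_abs.1 hy3 with h | h <;> linarith [c1.1, c1.2, c2.1, c2.2]
    have hTP := shift hb y hy1 T hTy
    have hTB : ENNReal.ofReal (1 / 8) ≤ PG b (T ∩ {z | Fz u δ z ∈ ball d k}) := by
      have h1 : PG b T ≤ PG b (T ∩ {z | Fz u δ z ∈ ball d k}) + PG b {z | Fz u δ z ∉ ball d k} := by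
        refine le_trans (measure_mono ?_) (measure_union_le _ _)
        intro z hz
        by_cases hz2 : Fz u δ z ∈ ball d k
        · exact Or.inl ⟨hz, hz2⟩
        · exact Or.inr hz2
      have h2 : ENNReal.ofReal (1 / 4) = ENNReal.ofReal (1 / 8) + ENNReal.ofReal (1 / 8) := by
        rw [← ENNReal.ofReal_add (by norm_num) (by norm_num)]
        norm_num
      have h3 := hTP.trans (h1.trans (add_le_add_right hB _))
      rw [h2] at h3
      exact ENNReal.le_of_add_le_add_right ENNReal.ofReal_ne_top h3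
    calc ENNReal.ofReal (κ / 8) = ENNReal.ofReal κ * ENNReal.ofReal (1 / 8) := by
          rw [← ENNReal.ofReal_mul hκ]
          congr 1
          ring
      _ ≤ ENNReal.ofReal κ * PG b (T ∩ {z | Fz u δ z ∈ ball d k}) := by gcongr
      _ = ∑' z, (T ∩ {z | Fz u δ z ∈ ball d k}).indicator (fun _ => ENNReal.ofReal κ) z
            * PG b {z} := by
          rw [← lintegral_countable', lintegral_indicator_const MeasurableSet.of_discrete]
      _ ≤ H ω := by
          rw [hH]
          apply ENNReal.tsum_le_tsum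
          intro z
          rw [mul_comm]
          gcongr
          by_cases hz : z ∈ T ∩ {z | Fz u δ z ∈ ball d k}
          · rw [Set.indicator_of_mem hz]
            refine le_trans ?_ (hle z hz.2 ω)
            exact ENNReal.ofReal_le_ofReal hz.1
          · rw [Set.indicator_of_notMem hz]
            exact zero_le
  have hmeasH : MeasurableSet {ω | ENNReal.ofReal (κ / 8) ≤ H ω} :=
    measurableSet_le measurable_const hHm
  have hprob : ENNReal.ofReal (1 / 2) ≤ A.μ {ω | ENNReal.ofReal (κ / 8) ≤ H ω} := by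
    have h1 : A.μ {ω | ENNReal.ofReal (κ / 8) ≤ H ω}ᶜ ≤ ENNReal.ofReal (1 / 2) := by
      calc A.μ {ω | ENNReal.ofReal (κ / 8) ≤ H ω}ᶜ ≤ A.μ (A.X ⁻¹' Bad) := by
            apply measure_mono
            intro ω hω
            by_contra hcon
            exact hω (hlow ω hcon)
        _ ≤ (A.μ.map A.X) Bad := Measure.le_map_apply A.measX.aemeasurable _
        _ = P Bad := by rw [← hA]; rfl
        _ ≤ _ := hBad
    have h2 : A.μ {ω | ENNReal.ofReal (κ / 8) ≤ H ω}
        + A.μ {ω | ENNReal.ofReal (κ / 8) ≤ H ω}ᶜ = 1 := by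
      rw [measure_add_measure_compl hmeasH, measure_univ]
    have h3 : (1 : ℝ≥0∞) = ENNReal.ofReal (1 / 2) + ENNReal.ofReal (1 / 2) := by
      rw [← ENNReal.ofReal_add (by norm_num) (by norm_num)]
      norm_num
    have h4 : ENNReal.ofReal (1 / 2) + ENNReal.ofReal (1 / 2)
        ≤ A.μ {ω | ENNReal.ofReal (κ / 8) ≤ H ω} + ENNReal.ofReal (1 / 2) := by
      rw [← h3, ← h2]
      gcongr
    exact ENNReal.le_of_add_le_add_right ENNReal.ofReal_ne_top h4
  calc ENNReal.ofReal (κ / 16) = ENNReal.ofReal (κ / 8) * ENNReal.ofReal (1 / 2) := by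
        rw [← ENNReal.ofReal_mul (by positivity)]
        congr 1
        ring
    _ ≤ ENNReal.ofReal (κ / 8) * A.μ {ω | ENNReal.ofReal (κ / 8) ≤ H ω} := by gcongr
    _ ≤ ∫⁻ ω, H ω ∂A.μ := mul_meas_ge_le_lintegral hHm _
    _ ≤ e + ε := hHint

end Pool.Agent.Helper579.Mix
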