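import Mathlib
import Pool.Agent.Helper579.MixAbs

set_option autoImplicit false

namespace Pool.Agent.Helper579.Mix

open MeasureTheory AddCircle
open scoped ENNReal

/-- the uniform distribution on the circle -/
noncomputable abbrev haar : Measure UnitAddCircle := AddCircle.haarAddCircle

/-- Fourier coefficients of a real function on the circle -/
noncomputable def fc1 (v : C(UnitAddCircle, ℝ)) (h : ℤ) : ℂ := fourierCoeff (fun x => (v x : ℂ)) h

/-- the squared norm in one dimension -/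
noncomputable def n1 (k : ℝ) (v : C(UnitAddCircle, ℝ)) : ℝ≥0∞ :=
  ∑' h : ℤ, ENNReal.ofReal (‖fc1 v h‖ ^ 2 * (1 + (h : ℝ) ^ 2) ^ k)

/-- tensor products -/
def tens (v w : C(UnitAddCircle, ℝ)) : C(Torus 2, ℝ) where
  toFun x := v (x 0) * w (x 1)
  continuous_toFun := by fun_prop

lemma fc_tens (v w : C(UnitAddCircle, ℝ)) (h : Fin 2 → ℤ) :
    fc (tens v w) h = fc1 v (h 0) * fc1 w (h 1) := by
  unfold fc fc1 fourierCoeff
  rw [coeff_eq]
  have h1 : ∀ t : Torus 2, UnitAddTorus.mFourier (-h) t * ((tens v w t : ℝ) : ℂ)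
      = ∏ i : Fin 2, (fun (i : Fin 2) (s : UnitAddCircle) =>
          fourier (-h i) s * (((![v, w] : Fin 2 → C(UnitAddCircle, ℝ)) i s : ℝ) : ℂ)) i (t i) := by
    intro t
    rw [Fin.prod_univ_two]
    simp only [Matrix.cons_val_zero, Matrix.cons_val_one]
    unfold UnitAddTorus.mFourier tens
    simp only [ContinuousMap.coe_mk, Fin.prod_univ_two, Pi.neg_apply]
    push_cast
    ring
  simp only [h1]
  unfold unif
  rw [integral_fintype_prod_eq_prod (fun (i : Fin 2) (s : UnitAddCircle) =>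
          fourier (-h i) s * (((![v, w] : Fin 2 → C(UnitAddCircle, ℝ)) i s : ℝ) : ℂ)),
    Fin.prod_univ_two]
  rfl

lemma normSq_tens (k : ℝ) (v w : C(UnitAddCircle, ℝ)) :
    normSq k (tens v w) = n1 k v * n1 k w := by
  rw [normSq_eq, ← (finTwoArrowEquiv ℤ).symm.tsum_eq]
  have h1 : ∀ p : ℤ × ℤ, ENNReal.ofReal (‖fc (tens v w) ((finTwoArrowEquiv ℤ).symm p)‖ ^ 2
      * ∏ j, (1 + (((finTwoArrowEquiv ℤ).symm p) j : ℝ) ^ 2) ^ k)
      = ENNReal.ofReal (‖fc1 v p.1‖ ^ 2 * (1 + (p.1 : ℝ) ^ 2) ^ k)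
        * ENNReal.ofReal (‖fc1 w p.2‖ ^ 2 * (1 + (p.2 : ℝ) ^ 2) ^ k) := by
    intro p
    rw [← ENNReal.ofReal_mul (by positivity), fc_tens, Fin.prod_univ_two, norm_mul, mul_pow]
    simp only [finTwoArrowEquiv_symm_apply, Matrix.cons_val_zero, Matrix.cons_val_one]
    congr 1
    ring
  simp only [h1]
  rw [ENNReal.tsum_prod (f := fun (a b : ℤ) =>
    ENNReal.ofReal (‖fc1 v a‖ ^ 2 * (1 + (a : ℝ) ^ 2) ^ k)
        * ENNReal.ofReal (‖fc1 w b‖ ^ 2 * (1 + (b : ℝ) ^ 2) ^ k))]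
  simp only [ENNReal.tsum_mul_left, ENNReal.tsum_mul_right]
  rfl

/-- Parseval -/
lemma parseval1 (v : C(UnitAddCircle, ℝ)) :
    ∑' h : ℤ, ENNReal.ofReal (‖fc1 v h‖ ^ 2) = ENNReal.ofReal (∫ x, v x ^ 2 ∂haar) := by
  set V : C(UnitAddCircle, ℂ) := ⟨fun x => (v x : ℂ), by fun_prop⟩ with hV
  have h1 := hasSum_sq_fourierCoeff (ContinuousMap.toLp 2 haarAddCircle ℂ V)
  have h2 : ∀ i, fourierCoeff (ContinuousMap.toLp 2 haarAddCircle ℂ V) i = fc1 v i := by
    intro i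
    rw [fourierCoeff_toLp]
    rfl
  simp only [h2] at h1
  have h3 : ∫ t, ‖(ContinuousMap.toLp 2 haarAddCircle ℂ V) t‖ ^ 2 ∂haarAddCircle
      = ∫ x, v x ^ 2 ∂haar := by
    apply integral_congr_ae
    filter_upwards [ContinuousMap.coeFn_toLp (p := 2) (𝕜 := ℂ) haarAddCircle V] with x hx
    rw [hx]
    simp [hV]
  rw [h3] at h1
  rw [← h1.tsum_eq, ENNReal.ofReal_tsum_of_nonneg (fun _ => sq_nonneg _) h1.summable]

lemma parseval1_le {v : C(UnitAddCircle, ℝ)} {E : ℝ} (hE : ∫ x, v x ^ 2 ∂haar ≤ E) :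
    ∑' h : ℤ, ENNReal.ofReal (‖fc1 v h‖ ^ 2) ≤ ENNReal.ofReal E := by
  rw [parseval1]
  exact ENNReal.ofReal_le_ofReal hE

/-- difference operator -/
noncomputable def diffT (v : C(UnitAddCircle, ℝ)) (t : UnitAddCircle) : C(UnitAddCircle, ℝ) where
  toFun x := v (x + t) - v x
  continuous_toFun := by fun_prop

lemma integrable1 {f : UnitAddCircle → ℂ} (hf : Continuous f) : Integrable f haar :=
  hf.integrable_of_hasCompactSupport (HasCompactSupport.of_compactSpace f)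

lemma integrable1_real {f : UnitAddCircle → ℝ} (hf : Continuous f) : Integrable f haar :=
  hf.integrable_of_hasCompactSupport (HasCompactSupport.of_compactSpace f)

lemma fc1_diffT (v : C(UnitAddCircle, ℝ)) (t : UnitAddCircle) (h : ℤ) :
    fc1 (diffT v t) h = (fourier h t - 1) * fc1 v h := by
  unfold fc1 fourierCoeff
  have hc : Continuous v := v.continuous
  have hf : Continuous (fourier (-h) : C(UnitAddCircle, ℂ)) := ContinuousMap.continuous _
  have e1 : ∫ x, fourier (-h) x • ((v (x + t) : ℝ) : ℂ) ∂haar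
      = fourier h t * ∫ x, fourier (-h) x • ((v x : ℝ) : ℂ) ∂haar := by
    rw [← integral_const_mul, ← integral_add_right_eq_self
      (fun x => fourier h t * (fourier (-h) x • ((v x : ℝ) : ℂ))) t]
    congr 1
    ext x
    have : fourier (-h) (x + t) = fourier (-h) x * fourier (-h) t := by
      simp only [fourier_apply, smul_add, toCircle_add, Circle.coe_mul]
    rw [this]
    have h2 : fourier h t * fourier (-h) t = 1 := by
      rw [← fourier_add]
      simp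
    simp only [smul_eq_mul]
    linear_combination (-(fourier (-h) x * ((v (x + t) : ℝ) : ℂ))) * h2
  have e2 : ∫ x, fourier (-h) x • (((diffT v t x : ℝ)) : ℂ) ∂haar
      = ∫ x, fourier (-h) x • ((v (x + t) : ℝ) : ℂ) ∂haar
        - ∫ x, fourier (-h) x • ((v x : ℝ) : ℂ) ∂haar := by
    rw [← integral_sub]
    · congr 1
      ext x
      unfold diffT
      simp only [ContinuousMap.coe_mk, smul_eq_mul]
      push_cast
      ring
    · apply integrable1
      simp only [smul_eq_mul]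
      fun_prop
    · apply integrable1
      simp only [smul_eq_mul]
      fun_prop
  rw [e2, e1]
  ring

lemma norm_fourier_sub_one_eq (h : ℤ) (t : ℝ) :
    ‖(fourier h (t : UnitAddCircle) : ℂ) - 1‖ = 2 * |Real.sin (Real.pi * (h * t))| := by
  have e1 : (fourier h (t : UnitAddCircle) : ℂ) = Complex.exp (Complex.I *
      ((2 * Real.pi * (h * t) : ℝ) : ℂ)) := by
    rw [fourier_coe_apply]
    congr 1
    push_cast
    ring
  rw [e1, Complex.norm_exp_I_mul_ofReal_sub_one, Real.norm_eq_abs, abs_mul, abs_two]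
  congr 3
  ring

lemma norm_fourier_sub_one {h : ℤ} {t : ℝ} (ht : |(h : ℝ) * t| ≤ 1 / 2) :
    16 * (h : ℝ) ^ 2 * t ^ 2 ≤ ‖(fourier h (t : UnitAddCircle) : ℂ) - 1‖ ^ 2 := by
  rw [norm_fourier_sub_one_eq]
  have h1 : |Real.pi * (h * t)| ≤ Real.pi / 2 := by
    rw [abs_mul, abs_of_pos Real.pi_pos]
    nlinarith [Real.pi_pos]
  have h2 := Real.mul_abs_le_abs_sin h1
  rw [abs_mul, abs_of_pos Real.pi_pos] at h2
  have h3 : 2 / Real.pi * (Real.pi * |(h : ℝ) * t|) = 2 * |(h : ℝ) * t| := by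
    field_simp
  rw [h3] at h2
  calc 16 * (h : ℝ) ^ 2 * t ^ 2 = (2 * (2 * |(h : ℝ) * t|)) ^ 2 := by
        rw [mul_pow, mul_pow, sq_abs]; ring
    _ ≤ (2 * |Real.sin (Real.pi * (h * t))|) ^ 2 := by gcongr

/-- the gradient term, from differences -/
lemma grad1 {v : C(UnitAddCircle, ℝ)} {C : ℝ} (hC : 0 ≤ C)
    (hv : ∀ t : ℝ, ∫ x, (v (x + (t : UnitAddCircle)) - v x) ^ 2 ∂haar ≤ C * t ^ 2) :
    ∑' h : ℤ, ENNReal.ofReal (‖fc1 v h‖ ^ 2 * (h : ℝ) ^ 2) ≤ ENNReal.ofReal (C / 16) := by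
  rw [ENNReal.tsum_eq_iSup_sum]
  refine iSup_le fun F => ?_
  set B : ℕ := F.sup fun h => h.natAbs with hB
  set t : ℝ := 1 / (2 * (B + 1)) with ht
  have ht0 : 0 < t := by positivity
  have h1 : ∀ h ∈ F, 16 * (h : ℝ) ^ 2 * t ^ 2 * ‖fc1 v h‖ ^ 2
      ≤ ‖fc1 (diffT v (t : UnitAddCircle)) h‖ ^ 2 := by
    intro h hh
    rw [fc1_diffT, norm_mul, mul_pow]
    gcongr
    apply norm_fourier_sub_one
    have h2 : h.natAbs ≤ B := Finset.le_sup (f := fun h : ℤ => h.natAbs) hh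
    have h3 : |(h : ℝ)| ≤ B := by
      have : ((h.natAbs : ℕ) : ℝ) = |(h : ℝ)| := by simp
      rw [← this]
      exact_mod_cast h2
    rw [abs_mul, abs_of_pos ht0, ht, mul_one_div, div_le_div_iff₀ (by positivity) (by norm_num)]
    linarith
  have h2 : ENNReal.ofReal (∑ h ∈ F, 16 * (h : ℝ) ^ 2 * t ^ 2 * ‖fc1 v h‖ ^ 2)
      ≤ ENNReal.ofReal (C * t ^ 2) := by
    calc ENNReal.ofReal (∑ h ∈ F, 16 * (h : ℝ) ^ 2 * t ^ 2 * ‖fc1 v h‖ ^ 2)
        ≤ ENNReal.ofReal (∑ h ∈ F, ‖fc1 (diffT v (t : UnitAddCircle)) h‖ ^ 2) :=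
          ENNReal.ofReal_le_ofReal (Finset.sum_le_sum h1)
      _ = ∑ h ∈ F, ENNReal.ofReal (‖fc1 (diffT v (t : UnitAddCircle)) h‖ ^ 2) :=
          ENNReal.ofReal_sum_of_nonneg fun _ _ => sq_nonneg _
      _ ≤ ∑' h, ENNReal.ofReal (‖fc1 (diffT v (t : UnitAddCircle)) h‖ ^ 2) :=
          ENNReal.sum_le_tsum F
      _ ≤ ENNReal.ofReal (C * t ^ 2) := parseval1_le (hv t)
  rw [ENNReal.ofReal_le_ofReal_iff (by positivity)] at h2
  rw [← ENNReal.ofReal_sum_of_nonneg fun _ _ => by positivity]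
  apply ENNReal.ofReal_le_ofReal
  have h3 : ∑ h ∈ F, 16 * (h : ℝ) ^ 2 * t ^ 2 * ‖fc1 v h‖ ^ 2
      = (16 * t ^ 2) * ∑ h ∈ F, ‖fc1 v h‖ ^ 2 * (h : ℝ) ^ 2 := by
    rw [Finset.mul_sum]
    exact Finset.sum_congr rfl fun _ _ => by ring
  rw [h3] at h2
  rw [le_div_iff₀ (by norm_num)]
  have h4 : 0 < t ^ 2 := by positivity
  nlinarith

lemma pow_interp {k A s : ℝ} (hk0 : 0 ≤ k) (hk1 : k ≤ 1) (hA : 0 < A) (hs : 0 ≤ s) :
    s ^ k ≤ A ^ k * (1 + s / A) := by
  rcases le_total s A with h | h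
  · have h1 : s ^ k ≤ A ^ k := Real.rpow_le_rpow hs h hk0
    have h2 : 0 ≤ A ^ k := Real.rpow_nonneg hA.le _
    have h3 : 0 ≤ s / A := div_nonneg hs hA.le
    nlinarith
  · have h1 : s ^ k = A ^ k * (s / A) ^ k := by
      rw [← Real.mul_rpow hA.le (div_nonneg hs hA.le)]
      congr 1
      field_simp
    rw [h1]
    have h2 : 1 ≤ s / A := by rwa [one_le_div hA]
    have h3 : (s / A) ^ k ≤ s / A := by
      calc (s / A) ^ k ≤ (s / A) ^ (1 : ℝ) := Real.rpow_le_rpow_of_exponent_le h2 hk1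
        _ = s / A := Real.rpow_one _
    have h4 : 0 ≤ A ^ k := Real.rpow_nonneg hA.le _
    nlinarith

/-- interpolation bound for the norm -/
lemma n1_le {k A E C : ℝ} (hk0 : 0 ≤ k) (hk1 : k ≤ 1) (hA : 0 < A) (hE : 0 ≤ E) (hC : 0 ≤ C)
    {v : C(UnitAddCircle, ℝ)} (h0 : ∫ x, v x ^ 2 ∂haar ≤ E)
    (hv : ∀ t : ℝ, ∫ x, (v (x + (t : UnitAddCircle)) - v x) ^ 2 ∂haar ≤ C * t ^ 2) :
    n1 k v ≤ ENNReal.ofReal (A ^ k * (E + (E + C / 16) / A)) := by
  have h1 := parseval1_le h0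
  have h2 := grad1 hC hv
  have hAk : 0 ≤ A ^ k := Real.rpow_nonneg hA.le _
  unfold n1
  calc ∑' h : ℤ, ENNReal.ofReal (‖fc1 v h‖ ^ 2 * (1 + (h : ℝ) ^ 2) ^ k)
      ≤ ∑' h : ℤ, (ENNReal.ofReal (A ^ k * (1 + 1 / A)) * ENNReal.ofReal (‖fc1 v h‖ ^ 2)
        + ENNReal.ofReal (A ^ k / A) * ENNReal.ofReal (‖fc1 v h‖ ^ 2 * (h : ℝ) ^ 2)) := by
        apply ENNReal.tsum_le_tsum
        intro h
        rw [← ENNReal.ofReal_mul (by positivity), ← ENNReal.ofReal_mul (by positivity),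
          ← ENNReal.ofReal_add (by positivity) (by positivity)]
        apply ENNReal.ofReal_le_ofReal
        have := pow_interp hk0 hk1 hA (s := 1 + (h : ℝ) ^ 2) (by positivity)
        calc ‖fc1 v h‖ ^ 2 * (1 + (h : ℝ) ^ 2) ^ k
            ≤ ‖fc1 v h‖ ^ 2 * (A ^ k * (1 + (1 + (h : ℝ) ^ 2) / A)) := by gcongr
          _ = _ := by ring
    _ = ENNReal.ofReal (A ^ k * (1 + 1 / A)) * ∑' h : ℤ, ENNReal.ofReal (‖fc1 v h‖ ^ 2)
        + ENNReal.ofReal (A ^ k / A) * ∑' h : ℤ, ENNReal.ofReal (‖fc1 v h‖ ^ 2 * (h : ℝ) ^ 2) := by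
        rw [ENNReal.tsum_add, ENNReal.tsum_mul_left, ENNReal.tsum_mul_left]
    _ ≤ ENNReal.ofReal (A ^ k * (1 + 1 / A)) * ENNReal.ofReal E
        + ENNReal.ofReal (A ^ k / A) * ENNReal.ofReal (C / 16) := by gcongr
    _ = _ := by
        rw [← ENNReal.ofReal_mul (by positivity), ← ENNReal.ofReal_mul (by positivity),
          ← ENNReal.ofReal_add (by positivity) (by positivity)]
        congr 1
        ring

/-- the differences of a Lipschitz function -/
lemma lip_diff {v : C(UnitAddCircle, ℝ)} {K : ℝ} (hK : 0 ≤ K)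
    (hv : ∀ x y, |v x - v y| ≤ K * ‖x - y‖) (t : ℝ) (x : UnitAddCircle) :
    (v (x + (t : UnitAddCircle)) - v x) ^ 2 ≤ K ^ 2 * t ^ 2 := by
  have h1 := hv (x + (t : UnitAddCircle)) x
  rw [add_sub_cancel_left] at h1
  have h2 : ‖(t : UnitAddCircle)‖ ≤ |t| := by
    rw [UnitAddCircle.norm_eq]
    have := round_le t 0
    simpa using this
  have h3 : |v (x + (t : UnitAddCircle)) - v x| ≤ K * |t| := h1.trans (by gcongr)
  calc (v (x + (t : UnitAddCircle)) - v x) ^ 2 = |v (x + (t : UnitAddCircle)) - v x| ^ 2 := by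
        rw [sq_abs]
    _ ≤ (K * |t|) ^ 2 := by gcongr
    _ = K ^ 2 * t ^ 2 := by rw [mul_pow, sq_abs]

lemma lip_diff_int {v : C(UnitAddCircle, ℝ)} {K : ℝ} (hK : 0 ≤ K)
    (hv : ∀ x y, |v x - v y| ≤ K * ‖x - y‖) (t : ℝ) :
    ∫ x, (v (x + (t : UnitAddCircle)) - v x) ^ 2 ∂haar ≤ K ^ 2 * t ^ 2 := by
  calc ∫ x, (v (x + (t : UnitAddCircle)) - v x) ^ 2 ∂haar ≤ ∫ _, K ^ 2 * t ^ 2 ∂haar := by
        apply integral_mono
        · apply integrable1_real
          fun_prop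
        · exact integrable_const _
        · exact fun x => lip_diff hK hv t x
    _ = _ := by simp

/-- with a small support -/
lemma lip_diff_supp {v : C(UnitAddCircle, ℝ)} {K l : ℝ} (hK : 0 ≤ K) (hl : 0 ≤ l)
    (hv : ∀ x y, |v x - v y| ≤ K * ‖x - y‖) {J : Set UnitAddCircle} (hJ : MeasurableSet J)
    (hJl : haar J ≤ ENNReal.ofReal l) (hvJ : ∀ x, x ∉ J → v x = 0) (t : ℝ) :
    ∫ x, (v (x + (t : UnitAddCircle)) - v x) ^ 2 ∂haar ≤ 2 * K ^ 2 * l * t ^ 2 := by
  have hi1 : Integrable (J.indicator fun _ => (1 : ℝ)) haar :=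
    (integrable_const _).indicator hJ
  have hi2 : Integrable (fun x => J.indicator (fun _ => (1 : ℝ)) (x + (t : UnitAddCircle))) haar :=
    hi1.comp_add_right _
  have hJr : ∫ x, J.indicator (fun _ => (1 : ℝ)) x ∂haar ≤ l := by
    rw [integral_indicator_const _ hJ, smul_eq_mul, mul_one]
    exact ENNReal.toReal_le_of_le_ofReal hl hJl
  calc ∫ x, (v (x + (t : UnitAddCircle)) - v x) ^ 2 ∂haar
      ≤ ∫ x, K ^ 2 * t ^ 2 * (J.indicator (fun _ => (1 : ℝ)) (x + (t : UnitAddCircle))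
          + J.indicator (fun _ => (1 : ℝ)) x) ∂haar := by
        apply integral_mono
        · apply integrable1_real
          fun_prop
        · exact (hi2.add hi1).const_mul _
        · intro x
          have h1 := lip_diff hK hv t x
          have h0 : 0 ≤ K ^ 2 * t ^ 2 := by positivity
          have hn : ∀ y, 0 ≤ J.indicator (fun _ => (1 : ℝ)) y := fun y =>
            Set.indicator_nonneg (fun _ _ => zero_le_one) y
          by_cases h2 : x ∈ J
          · have : J.indicator (fun _ => (1 : ℝ)) x = 1 := Set.indicator_of_mem h2 _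
            have h3 := hn (x + (t : UnitAddCircle))
            simp only [this]
            nlinarith
          · by_cases h3 : x + (t : UnitAddCircle) ∈ J
            · have : J.indicator (fun _ => (1 : ℝ)) (x + (t : UnitAddCircle)) = 1 :=
                Set.indicator_of_mem h3 _
              have h4 := hn x
              simp only [this]
              nlinarith
            · simp only
              rw [hvJ _ h2, hvJ _ h3, Set.indicator_of_notMem h2, Set.indicator_of_notMem h3]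
              simp
    _ = K ^ 2 * t ^ 2 * (∫ x, J.indicator (fun _ => (1 : ℝ)) (x + (t : UnitAddCircle)) ∂haar
          + ∫ x, J.indicator (fun _ => (1 : ℝ)) x ∂haar) := by
        rw [integral_const_mul, integral_add hi2 hi1]
    _ = K ^ 2 * t ^ 2 * (2 * ∫ x, J.indicator (fun _ => (1 : ℝ)) x ∂haar) := by
        rw [integral_add_right_eq_self (fun x => J.indicator (fun _ => (1 : ℝ)) x)]
        ring
    _ ≤ K ^ 2 * t ^ 2 * (2 * l) := by gcongr
    _ = _ := by ring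

end Pool.Agent.Helper579.Mix
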