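import Mathlib
import Pool.Agent.Helper579.MixFun

set_option autoImplicit false

namespace Pool.Agent.Helper579.Mix

open MeasureTheory AddCircle Filter
open scoped ENNReal Topology

/-- trapezoids -/
noncomputable def trap (R : ℝ) (c : UnitAddCircle) : C(UnitAddCircle, ℝ) where
  toFun x := max 0 (min 1 (2 - 2 * R * ‖x - c‖))
  continuous_toFun := by fun_prop

lemma trap_apply (R : ℝ) (c x : UnitAddCircle) :
    trap R c x = max 0 (min 1 (2 - 2 * R * ‖x - c‖)) := rfl

lemma trap_nonneg (R : ℝ) (c x : UnitAddCircle) : 0 ≤ trap R c x := le_max_left _ _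

lemma trap_le_one (R : ℝ) (c x : UnitAddCircle) : trap R c x ≤ 1 :=
  max_le zero_le_one (min_le_left _ _)

lemma trap_one {R : ℝ} (hR : 0 < R) {c x : UnitAddCircle} (h : ‖x - c‖ ≤ 1 / (2 * R)) :
    trap R c x = 1 := by
  rw [trap_apply]
  rw [le_div_iff₀ (by positivity)] at h
  rw [min_eq_left (by linarith), max_eq_right zero_le_one]

lemma trap_zero {R : ℝ} (hR : 0 < R) {c x : UnitAddCircle} (h : 1 / R ≤ ‖x - c‖) :
    trap R c x = 0 := by
  rw [trap_apply]
  rw [div_le_iff₀ hR] at h
  apply max_eq_left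
  exact (min_le_right _ _).trans (by linarith)

lemma trap_lip {R : ℝ} (hR : 0 < R) (c x y : UnitAddCircle) :
    |trap R c x - trap R c y| ≤ 2 * R * ‖x - y‖ := by
  rw [trap_apply, trap_apply]
  refine (abs_max_sub_max_le_max _ _ _ _).trans ?_
  rw [sub_self, abs_zero]
  apply max_le (by positivity)
  refine (abs_min_sub_min_le_max _ _ _ _).trans ?_
  rw [sub_self, abs_zero]
  apply max_le (by positivity)
  have h1 : 2 - 2 * R * ‖x - c‖ - (2 - 2 * R * ‖y - c‖) = 2 * R * (‖y - c‖ - ‖x - c‖) := by ring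
  rw [h1, abs_mul, abs_of_pos (by positivity : 0 < 2 * R)]
  gcongr
  have h2 := abs_norm_sub_norm_le (y - c) (x - c)
  rw [sub_sub_sub_cancel_right] at h2
  rwa [norm_sub_rev y x] at h2

lemma haar_closedBall (c : UnitAddCircle) (ε : ℝ) :
    haar (Metric.closedBall c ε) ≤ ENNReal.ofReal (2 * ε) := by
  have h1 : (volume : Measure UnitAddCircle) = haar := by
    rw [volume_eq_smul_haarAddCircle]
    simp
  rw [← h1, AddCircle.volume_closedBall]
  exact ENNReal.ofReal_le_ofReal (min_le_right _ _)

lemma trap_supp {R : ℝ} (hR : 0 < R) (c x : UnitAddCircle)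
    (hx : x ∉ Metric.closedBall c (1 / R)) : trap R c x = 0 := by
  apply trap_zero hR
  rw [mem_closedBall_iff_norm, not_le] at hx
  exact hx.le

lemma int_trap_aux {R : ℝ} (hR : 0 < R) (c : UnitAddCircle) {g : UnitAddCircle → ℝ}
    (hg : Continuous g) (h0 : ∀ x, x ∉ Metric.closedBall c (1 / R) → g x = 0)
    (h1 : ∀ x, g x ≤ 1) : ∫ x, g x ∂haar ≤ 2 / R := by
  have hJ : MeasurableSet (Metric.closedBall c (1 / R)) := Metric.isClosed_closedBall.measurableSet
  calc ∫ x, g x ∂haar ≤ ∫ x, (Metric.closedBall c (1 / R)).indicator (fun _ => (1 : ℝ)) x ∂haar := by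
        apply integral_mono (integrable1_real hg) ((integrable_const _).indicator hJ)
        intro x
        by_cases hx : x ∈ Metric.closedBall c (1 / R)
        · simp only [Set.indicator_of_mem hx]
          exact h1 x
        · simp only [Set.indicator_of_notMem hx]
          exact (h0 x hx).le
    _ ≤ 2 / R := by
        rw [integral_indicator_const _ hJ, smul_eq_mul, mul_one]
        refine ENNReal.toReal_le_of_le_ofReal (by positivity) ?_
        refine (haar_closedBall c _).trans (le_of_eq ?_)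
        congr 1
        ring

lemma int_trap {R : ℝ} (hR : 0 < R) (c : UnitAddCircle) : ∫ x, trap R c x ∂haar ≤ 2 / R :=
  int_trap_aux hR c (trap R c).continuous (fun x hx => trap_supp hR c x hx)
    (fun x => trap_le_one R c x)

lemma int_trap_sq {R : ℝ} (hR : 0 < R) (c : UnitAddCircle) :
    ∫ x, trap R c x ^ 2 ∂haar ≤ 2 / R := by
  apply int_trap_aux hR c
  · have := (trap R c).continuous
    fun_prop
  · intro x hx
    rw [trap_supp hR c x hx]
    ring
  · intro x
    have h1 := trap_nonneg R c x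
    have h2 := trap_le_one R c x
    nlinarith

lemma n1_trap {k : ℝ} (hk0 : 0 ≤ k) (hk1 : k ≤ 1) {R : ℝ} (hR : 1 ≤ R) (c : UnitAddCircle) :
    n1 k (trap R c) ≤ ENNReal.ofReal (5 * R ^ (2 * k) / R) := by
  have hR0 : 0 < R := by linarith
  have h1 := n1_le (v := trap R c) hk0 hk1 (A := R ^ 2) (E := 2 / R)
    (C := 2 * (2 * R) ^ 2 * (2 / R)) (by positivity) (by positivity) (by positivity)
    (int_trap_sq hR0 c) (fun t => lip_diff_supp (by positivity) (by positivity)
      (trap_lip hR0 c) (J := Metric.closedBall c (1 / R))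
      Metric.isClosed_closedBall.measurableSet
      ((haar_closedBall c _).trans (le_of_eq (by congr 1; ring))) (trap_supp hR0 c) t)
  refine h1.trans (ENNReal.ofReal_le_ofReal ?_)
  have h2 : (R ^ 2) ^ k = R ^ (2 * k) := by
    rw [← Real.rpow_natCast, ← Real.rpow_mul hR0.le]
    norm_num
  rw [h2]
  have h3 : 0 ≤ R ^ (2 * k) := Real.rpow_nonneg hR0.le _
  have h4 : 2 / R + (2 / R + 2 * (2 * R) ^ 2 * (2 / R) / 16) / R ^ 2 ≤ 5 / R := by
    rw [le_div_iff₀ hR0]
    have : (2 / R + (2 / R + 2 * (2 * R) ^ 2 * (2 / R) / 16) / R ^ 2) * R = 3 + 2 / R ^ 2 := by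
      field_simp
      ring
    rw [this]
    have : 2 / R ^ 2 ≤ 2 := by
      rw [div_le_iff₀ (by positivity)]
      nlinarith
    linarith
  calc R ^ (2 * k) * (2 / R + (2 / R + 2 * (2 * R) ^ 2 * (2 / R) / 16) / R ^ 2)
      ≤ R ^ (2 * k) * (5 / R) := by gcongr
    _ = _ := by ring

/-- cosine and sine -/
noncomputable def csF (s : Bool) (h : ℤ) : C(UnitAddCircle, ℝ) where
  toFun x := if s then (fourier h x : ℂ).im else (fourier h x : ℂ).re
  continuous_toFun := by
    have : Continuous (fourier h : C(UnitAddCircle, ℂ)) := ContinuousMap.continuous _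
    cases s
    · simp only [Bool.false_eq_true, if_false]
      fun_prop
    · simp only [if_true]
      fun_prop

lemma norm_fourier1 (h : ℤ) (x : UnitAddCircle) : ‖(fourier h x : ℂ)‖ = 1 := by
  rw [fourier_apply]
  exact Circle.norm_coe _

lemma csF_abs_le (s : Bool) (h : ℤ) (x : UnitAddCircle) : |csF s h x| ≤ 1 := by
  have h1 := Complex.abs_re_le_norm (fourier h x)
  have h2 := Complex.abs_im_le_norm (fourier h x)
  rw [norm_fourier1] at h1 h2
  cases s
  · exact h1
  · exact h2

lemma exists_rep (z : UnitAddCircle) : ∃ t : ℝ, (t : UnitAddCircle) = z ∧ |t| = ‖z‖ := by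
  obtain ⟨r, rfl⟩ := QuotientAddGroup.mk_surjective z
  refine ⟨r - round r, ?_, ?_⟩
  · rw [AddCircle.coe_sub]
    have : ((round r : ℝ) : UnitAddCircle) = 0 := by
      rw [AddCircle.coe_eq_zero_iff]
      exact ⟨round r, by simp⟩
    rw [this, sub_zero]
  · change _ = ‖(r : UnitAddCircle)‖
    rw [UnitAddCircle.norm_eq]

lemma fourier_lip (h : ℤ) (x y : UnitAddCircle) :
    ‖(fourier h x : ℂ) - fourier h y‖ ≤ 2 * Real.pi * |(h : ℝ)| * ‖x - y‖ := by
  obtain ⟨t, ht1, ht2⟩ := exists_rep (x - y)
  have e1 : (fourier h x : ℂ) - fourier h y = fourier h y * (fourier h (t : UnitAddCircle) - 1) := by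
    rw [ht1, mul_sub, mul_one]
    congr 1
    have : x = y + (x - y) := by abel
    nth_rewrite 1 [this]
    simp only [fourier_apply, smul_add, toCircle_add, Circle.coe_mul]
  rw [e1, norm_mul, norm_fourier1, one_mul, norm_fourier_sub_one_eq, ← ht2]
  have h1 := Real.abs_sin_le_one (Real.pi * (h * t))
  have h2 : |Real.sin (Real.pi * (h * t))| ≤ |Real.pi * (h * t)| := Real.abs_sin_le_abs
  rw [abs_mul, abs_mul, abs_of_pos Real.pi_pos] at h2
  nlinarith

lemma csF_lip (s : Bool) (h : ℤ) (x y : UnitAddCircle) :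
    |csF s h x - csF s h y| ≤ 2 * Real.pi * |(h : ℝ)| * ‖x - y‖ := by
  refine le_trans ?_ (fourier_lip h x y)
  cases s
  · have := Complex.abs_re_le_norm ((fourier h x : ℂ) - fourier h y)
    rwa [Complex.sub_re] at this
  · have := Complex.abs_im_le_norm ((fourier h x : ℂ) - fourier h y)
    rwa [Complex.sub_im] at this

lemma fc1_csF (s : Bool) (h m : ℤ) (hm : m ≠ h) (hm' : m ≠ -h) : fc1 (csF s h) m = 0 := by
  have h1 : fourierCoeff (fourier h : UnitAddCircle → ℂ) m = 0 := by
    rw [fourierCoeff_fourier]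
    simp [hm]
  have h2 : fourierCoeff (fourier (-h) : UnitAddCircle → ℂ) m = 0 := by
    rw [fourierCoeff_fourier]
    simp [hm']
  unfold fourierCoeff at h1 h2
  unfold fc1 fourierCoeff
  cases s
  · have e1 : ∀ x : UnitAddCircle, fourier (-m) x • ((csF false h x : ℝ) : ℂ)
        = (1 / 2 : ℂ) * (fourier (-m) x • fourier h x) + (1 / 2 : ℂ) *
          (fourier (-m) x • fourier (-h) x) := by
      intro x
      have : ((csF false h x : ℝ) : ℂ) = (fourier h x + fourier (-h) x) / 2 := by
        change (((fourier h x : ℂ).re : ℝ) : ℂ) = _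
        rw [fourier_neg, Complex.re_eq_add_conj]
      rw [this]
      simp only [smul_eq_mul]
      ring
    simp only [e1]
    rw [integral_add, integral_const_mul, integral_const_mul, h1, h2]
    · simp
    · apply integrable1
      simp only [smul_eq_mul]
      fun_prop
    · apply integrable1
      simp only [smul_eq_mul]
      fun_prop
  · have e1 : ∀ x : UnitAddCircle, fourier (-m) x • ((csF true h x : ℝ) : ℂ)
        = (1 / (2 * Complex.I) : ℂ) * (fourier (-m) x • fourier h x) + (-1 / (2 * Complex.I) : ℂ) *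
          (fourier (-m) x • fourier (-h) x) := by
      intro x
      have : ((csF true h x : ℝ) : ℂ) = (fourier h x - fourier (-h) x) / (2 * Complex.I) := by
        change (((fourier h x : ℂ).im : ℝ) : ℂ) = _
        rw [fourier_neg, Complex.im_eq_sub_conj]
      rw [this]
      simp only [smul_eq_mul]
      ring
    simp only [e1]
    rw [integral_add, integral_const_mul, integral_const_mul, h1, h2]
    · simp
    · apply integrable1
      simp only [smul_eq_mul]
      fun_prop
    · apply integrable1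
      simp only [smul_eq_mul]
      fun_prop

lemma n1_csF (k : ℝ) (s : Bool) (h : ℤ) :
    n1 k (csF s h) ≤ ENNReal.ofReal ((1 + (h : ℝ) ^ 2) ^ k) := by
  have h1 : ∑' m : ℤ, ENNReal.ofReal (‖fc1 (csF s h) m‖ ^ 2) ≤ ENNReal.ofReal 1 := by
    apply parseval1_le
    calc ∫ x, csF s h x ^ 2 ∂haar ≤ ∫ _, (1 : ℝ) ∂haar := by
          apply integral_mono
          · apply integrable1_real
            have := (csF s h).continuous
            fun_prop
          · exact integrable_const _
          · intro x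
            have := csF_abs_le s h x
            simp only
            rw [← sq_abs]
            nlinarith [abs_nonneg (csF s h x)]
      _ = 1 := by simp
  unfold n1
  calc ∑' m : ℤ, ENNReal.ofReal (‖fc1 (csF s h) m‖ ^ 2 * (1 + (m : ℝ) ^ 2) ^ k)
      ≤ ∑' m : ℤ, ENNReal.ofReal ((1 + (h : ℝ) ^ 2) ^ k) * ENNReal.ofReal (‖fc1 (csF s h) m‖ ^ 2) := by
        apply ENNReal.tsum_le_tsum
        intro m
        rw [← ENNReal.ofReal_mul (by positivity)]
        apply ENNReal.ofReal_le_ofReal
        by_cases hm : m = h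
        · rw [hm, mul_comm]
        · by_cases hm' : m = -h
          · rw [hm']
            push_cast
            rw [neg_sq, mul_comm]
          · rw [fc1_csF s h m hm hm']
            simp
    _ = ENNReal.ofReal ((1 + (h : ℝ) ^ 2) ^ k) * ∑' m : ℤ, ENNReal.ofReal (‖fc1 (csF s h) m‖ ^ 2) :=
        ENNReal.tsum_mul_left
    _ ≤ ENNReal.ofReal ((1 + (h : ℝ) ^ 2) ^ k) * ENNReal.ofReal 1 := by gcongr
    _ = _ := by simp

end Pool.Agent.Helper579.Mix
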