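import Mathlib
import Pool.Agent.Helper579.MixFun2

set_option autoImplicit false

namespace Pool.Agent.Helper579.Mix

open MeasureTheory AddCircle Filter
open scoped ENNReal Topology

/-- the staircase function -/
noncomputable def stair (K t : ℝ) : ℝ := ⌊t⌋ + max 0 (K * Int.fract t - K + 1)

lemma stair_close {K : ℝ} (hK : 1 ≤ K) (t : ℝ) : |stair K t - t| ≤ 1 := by
  have h1 := Int.fract_nonneg t
  have h2 := Int.fract_lt_one t
  have h3 := Int.floor_add_fract t
  have h4 : 0 ≤ max 0 (K * Int.fract t - K + 1) := le_max_left _ _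
  have h5 : max 0 (K * Int.fract t - K + 1) ≤ 1 := max_le zero_le_one (by nlinarith)
  unfold stair
  rw [abs_le]
  constructor <;> linarith

lemma stair_int {K : ℝ} (hK : 0 < K) {t : ℝ} (ht : Int.fract t ≤ 1 - 1 / K) :
    stair K t = ⌊t⌋ := by
  unfold stair
  rw [max_eq_left, add_zero]
  have : K * Int.fract t ≤ K * (1 - 1 / K) := by gcongr
  have h2 : K * (1 - 1 / K) = K - 1 := by field_simp
  linarith

lemma stair_mono_aux {K : ℝ} (hK : 1 ≤ K) {s t : ℝ} (hst : s ≤ t) :
    0 ≤ stair K t - stair K s ∧ stair K t - stair K s ≤ K * (t - s) := by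
  have hfl : ⌊s⌋ ≤ ⌊t⌋ := Int.floor_le_floor hst
  have a1 := Int.fract_nonneg t
  have a2 := Int.fract_lt_one t
  have a3 := Int.floor_add_fract t
  have b1 := Int.fract_nonneg s
  have b2 := Int.fract_lt_one s
  have b3 := Int.floor_add_fract s
  unfold stair
  rcases hfl.eq_or_lt with h | h
  · have hf : (⌊s⌋ : ℝ) = ⌊t⌋ := by exact_mod_cast h
    have e1 : Int.fract t - Int.fract s = t - s := by linarith
    have e2 : 0 ≤ Int.fract t - Int.fract s := by linarith
    have hKe : 0 ≤ K * (Int.fract t - Int.fract s) := by positivity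
    constructor
    · have : max 0 (K * Int.fract s - K + 1) ≤ max 0 (K * Int.fract t - K + 1) := by
        apply max_le_max le_rfl
        linarith
      linarith
    · have : max 0 (K * Int.fract t - K + 1) ≤ max 0 (K * Int.fract s - K + 1)
          + K * (Int.fract t - Int.fract s) := by
        apply max_le
        · have := le_max_left 0 (K * Int.fract s - K + 1)
          linarith
        · have := le_max_right 0 (K * Int.fract s - K + 1)
          linarith
      rw [← e1]
      linarith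
  · have hf : (⌊s⌋ : ℝ) + 1 ≤ ⌊t⌋ := by exact_mod_cast h
    have c1 : max 0 (K * Int.fract t - K + 1) ≤ K * Int.fract t := by
      apply max_le (by positivity)
      linarith
    have c2 : K * Int.fract s - K + 1 ≤ max 0 (K * Int.fract s - K + 1) := le_max_right _ _
    have c3 : max 0 (K * Int.fract s - K + 1) ≤ 1 := max_le zero_le_one (by nlinarith)
    have c4 : 0 ≤ max 0 (K * Int.fract t - K + 1) := le_max_left _ _
    constructor
    · linarith
    · have e1 : t - s = (⌊t⌋ : ℝ) - ⌊s⌋ - 1 + Int.fract t + (1 - Int.fract s) := by linarith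
      rw [e1]
      nlinarith

lemma stair_lip {K : ℝ} (hK : 1 ≤ K) (s t : ℝ) : |stair K s - stair K t| ≤ K * |s - t| := by
  rcases le_total s t with h | h
  · obtain ⟨h1, h2⟩ := stair_mono_aux hK h
    rw [abs_sub_comm, abs_of_nonneg h1, abs_sub_comm, abs_of_nonneg (by linarith)]
    exact h2
  · obtain ⟨h1, h2⟩ := stair_mono_aux hK h
    rw [abs_of_nonneg h1, abs_of_nonneg (by linarith)]
    exact h2

lemma stair_cont {K : ℝ} (hK : 1 ≤ K) : Continuous (stair K) := by
  have : LipschitzWith K.toNNReal (stair K) := by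
    apply LipschitzWith.of_dist_le_mul
    intro s t
    rw [Real.dist_eq, Real.dist_eq, Real.coe_toNNReal _ (by linarith)]
    exact stair_lip hK s t
  exact this.continuous

/-- quantised function -/
noncomputable def quant (v : C(UnitAddCircle, ℝ)) (K : ℕ) (hK : 1 ≤ K) (T : ℝ) (i : ℕ) :
    C(UnitAddCircle, ℝ) where
  toFun x := (stair K (T * v x + i / K) - i / K) / T
  continuous_toFun := by
    have := stair_cont (K := K) (by exact_mod_cast hK)
    fun_prop

lemma quant_apply (v : C(UnitAddCircle, ℝ)) (K : ℕ) (hK : 1 ≤ K) (T : ℝ) (i : ℕ)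
    (x : UnitAddCircle) : quant v K hK T i x = (stair K (T * v x + i / K) - i / K) / T := rfl

lemma quant_close (v : C(UnitAddCircle, ℝ)) (K : ℕ) (hK : 1 ≤ K) {T : ℝ} (hT : 0 < T) (i : ℕ)
    (x : UnitAddCircle) : |quant v K hK T i x - v x| ≤ 1 / T := by
  rw [quant_apply]
  have h1 := stair_close (K := K) (by exact_mod_cast hK) (T * v x + i / K)
  have e1 : (stair K (T * v x + i / K) - i / K) / T - v x
      = (stair K (T * v x + i / K) - (T * v x + i / K)) / T := by
    field_simp
    ring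
  rw [e1, abs_div, abs_of_pos hT]
  gcongr

lemma quant_lip (v : C(UnitAddCircle, ℝ)) (K : ℕ) (hK : 1 ≤ K) {T : ℝ} (hT : 0 < T) (i : ℕ)
    {l : ℝ} (hv : ∀ x y, |v x - v y| ≤ l * ‖x - y‖) (x y : UnitAddCircle) :
    |quant v K hK T i x - quant v K hK T i y| ≤ K * l * ‖x - y‖ := by
  rw [quant_apply, quant_apply]
  have h1 := stair_lip (K := K) (by exact_mod_cast hK) (T * v x + i / K) (T * v y + i / K)
  have e1 : (stair K (T * v x + i / K) - i / K) / T - (stair K (T * v y + i / K) - i / K) / T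
      = (stair K (T * v x + i / K) - stair K (T * v y + i / K)) / T := by ring
  rw [e1, abs_div, abs_of_pos hT, div_le_iff₀ hT]
  refine h1.trans ?_
  have e2 : T * v x + i / K - (T * v y + i / K) = T * (v x - v y) := by ring
  rw [e2, abs_mul, abs_of_pos hT]
  have h2 := hv x y
  have hKn : (0 : ℝ) ≤ K := by positivity
  calc (K : ℝ) * (T * |v x - v y|) ≤ K * (T * (l * ‖x - y‖)) := by gcongr
    _ = _ := by ring

/-- the exceptional set -/
def exSet (v : C(UnitAddCircle, ℝ)) (K : ℕ) (T : ℝ) (i : ℕ) : Set UnitAddCircle :=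
  {x | 1 - 1 / (K : ℝ) < Int.fract (T * v x + i / K)}

lemma measurableSet_exSet (v : C(UnitAddCircle, ℝ)) (K : ℕ) (T : ℝ) (i : ℕ) :
    MeasurableSet (exSet v K T i) := by
  have h1 : Measurable v := v.continuous.measurable
  have h2 : Measurable fun x => Int.fract (T * v x + (i : ℝ) / K) :=
    measurable_fract.comp ((h1.const_mul T).add_const _)
  exact measurableSet_lt measurable_const h2

lemma quant_int (v : C(UnitAddCircle, ℝ)) (K : ℕ) (hK : 1 ≤ K) (T : ℝ) (i : ℕ)
    {x : UnitAddCircle} (hx : x ∉ exSet v K T i) : ∃ z : ℤ, quant v K hK T i x = z / (K * T) := by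
  have hK0 : (0 : ℝ) < K := by exact_mod_cast hK
  simp only [exSet, Set.mem_ofPred_eq, not_lt] at hx
  rw [quant_apply, stair_int hK0 hx]
  refine ⟨K * ⌊T * v x + i / K⌋ - i, ?_⟩
  push_cast
  rw [← div_div]
  congr 1
  field_simp

lemma exSet_disj (v : C(UnitAddCircle, ℝ)) {K : ℕ} (hK : 1 ≤ K) (T : ℝ) {i j : ℕ} (hij : i < j)
    (hj : j < K) : Disjoint (exSet v K T i) (exSet v K T j) := by
  rw [Set.disjoint_left]
  intro x hi hj'
  have hK0 : (0 : ℝ) < K := by exact_mod_cast hK
  simp only [exSet, Set.mem_ofPred_eq] at hi hj'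
  set y := T * v x
  have a2 := Int.fract_lt_one (y + i / K)
  have a3 := Int.floor_add_fract (y + i / K)
  have b2 := Int.fract_lt_one (y + j / K)
  have b3 := Int.floor_add_fract (y + j / K)
  have h1 : |((j : ℝ) - i) / K - ((⌊y + j / K⌋ : ℝ) - ⌊y + i / K⌋)| < 1 / K := by
    rw [abs_lt]
    have e : ((j : ℝ) - i) / K = (j : ℝ) / K - (i : ℝ) / K := by ring
    rw [e]
    constructor <;> linarith
  set b : ℤ := ⌊y + j / K⌋ - ⌊y + i / K⌋ with hb
  have h2 : |((j : ℝ) - i) - K * b| < 1 := by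
    have e : ((j : ℝ) - i) - K * b = K * (((j : ℝ) - i) / K - ((⌊y + j / K⌋ : ℝ) - ⌊y + i / K⌋)) := by
      rw [hb]
      push_cast
      field_simp
    rw [e, abs_mul, abs_of_pos hK0]
    calc (K : ℝ) * |((j : ℝ) - i) / K - ((⌊y + j / K⌋ : ℝ) - ⌊y + i / K⌋)| < K * (1 / K) := by
          gcongr
      _ = 1 := by field_simp
  have h3 : |((j : ℤ) - i) - K * b| < 1 := by exact_mod_cast h2
  have h4 : ((j : ℤ) - i) - K * b = 0 := Int.abs_lt_one_iff.1 h3
  have h5 : (0 : ℤ) < (j : ℤ) - i := by omega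
  have h6 : (j : ℤ) - i < K := by omega
  have h7 : (0 : ℤ) < b := by
    by_contra hcon
    push Not at hcon
    nlinarith [mul_nonneg (Int.natCast_nonneg K) (neg_nonneg.2 hcon)]
  nlinarith [mul_le_mul_of_nonneg_left (show (1 : ℤ) ≤ b by omega) (Int.natCast_nonneg K)]

lemma exists_shift (v : C(UnitAddCircle, ℝ)) {K : ℕ} (hK : 1 ≤ K) (T : ℝ) :
    ∃ i, haar (exSet v K T i) ≤ ENNReal.ofReal (1 / K) := by
  have hK0 : (0 : ℝ) < K := by exact_mod_cast hK
  have h1 : ∑ i ∈ Finset.range K, haar (exSet v K T i) ≤ 1 := by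
    rw [← measure_biUnion_finset]
    · exact prob_le_one
    · intro i hi j hj hij
      simp only [Finset.coe_range, Set.mem_Iio] at hi hj
      rcases lt_or_gt_of_ne hij with h | h
      · exact exSet_disj v hK T h hj
      · exact (exSet_disj v hK T h hi).symm
    · exact fun i _ => measurableSet_exSet v K T i
  have h2 : ∑ i ∈ Finset.range K, (haar (exSet v K T i)).toReal
      ≤ ∑ i ∈ Finset.range K, 1 / (K : ℝ) := by
    rw [← ENNReal.toReal_sum fun i _ => measure_ne_top _ _, Finset.sum_const, Finset.card_range,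
      nsmul_eq_mul, mul_one_div_cancel hK0.ne']
    exact ENNReal.toReal_le_of_le_ofReal zero_le_one (by simpa using h1)
  obtain ⟨i, _, hi⟩ := Finset.exists_le_of_sum_le (Finset.nonempty_range_iff.2 (by omega)) h2
  exact ⟨i, (ENNReal.le_ofReal_iff_toReal_le (measure_ne_top _ _) (by positivity)).2 hi⟩

lemma fc1_add_sub (v w : C(UnitAddCircle, ℝ)) (h : ℤ) :
    fc1 w h = fc1 v h + fc1 (w - v) h := by
  unfold fc1 fourierCoeff
  have hv := v.continuous
  have hw := w.continuous
  have hf : Continuous (fourier (-h) : C(UnitAddCircle, ℂ)) := ContinuousMap.continuous _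
  rw [← integral_add]
  · congr 1
    ext x
    simp only [ContinuousMap.coe_sub, Pi.sub_apply, smul_eq_mul]
    push_cast
    ring
  · apply integrable1
    simp only [smul_eq_mul]
    fun_prop
  · apply integrable1
    simp only [smul_eq_mul, ContinuousMap.coe_sub, Pi.sub_apply]
    fun_prop

lemma n1_add (k : ℝ) (v w : C(UnitAddCircle, ℝ)) :
    n1 k w ≤ 2 * n1 k v + 2 * n1 k (w - v) := by
  unfold n1
  rw [← ENNReal.tsum_mul_left, ← ENNReal.tsum_mul_left, ← ENNReal.tsum_add]
  apply ENNReal.tsum_le_tsum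
  intro h
  have : (2 : ℝ≥0∞) = ENNReal.ofReal 2 := by norm_num
  rw [this, ← ENNReal.ofReal_mul (by norm_num), ← ENNReal.ofReal_mul (by norm_num),
    ← ENNReal.ofReal_add (by positivity) (by positivity)]
  apply ENNReal.ofReal_le_ofReal
  rw [fc1_add_sub v w h]
  have h1 : ‖fc1 v h + fc1 (w - v) h‖ ^ 2 ≤ 2 * ‖fc1 v h‖ ^ 2 + 2 * ‖fc1 (w - v) h‖ ^ 2 := by
    have := norm_add_le (fc1 v h) (fc1 (w - v) h)
    nlinarith [norm_nonneg (fc1 v h + fc1 (w - v) h), sq_nonneg (‖fc1 v h‖ - ‖fc1 (w - v) h‖),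
      norm_nonneg (fc1 v h), norm_nonneg (fc1 (w - v) h)]
  have h2 : 0 ≤ (1 + (h : ℝ) ^ 2) ^ k := by positivity
  nlinarith

/-- existence of quantised versions -/
lemma quant_exists {k : ℝ} (hk0 : 0 ≤ k) (hk1 : k < 1) (v : C(UnitAddCircle, ℝ)) {l : ℝ}
    (hl : 0 ≤ l) (hv : ∀ x y, |v x - v y| ≤ l * ‖x - y‖) {K : ℕ} (hK : 1 ≤ K) {ε : ℝ}
    (hε : 0 < ε) : ∀ᶠ T : ℕ in atTop, ∃ (w : C(UnitAddCircle, ℝ)) (E : Set UnitAddCircle),
      MeasurableSet E ∧ haar E ≤ ENNReal.ofReal (1 / K) ∧
      (∀ x, x ∉ E → ∃ z : ℤ, w x = z / (K * T)) ∧ (∀ x, |w x - v x| ≤ ε) ∧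
      n1 k w ≤ 2 * n1 k v + ENNReal.ofReal ε := by
  set C : ℝ := ((K + 1) * l) ^ 2 with hC
  have hC0 : 0 ≤ C := sq_nonneg _
  have hlim : Tendsto (fun T : ℕ => (2 + C / 16) * (T : ℝ) ^ (-(1 - k))) atTop (𝓝 0) := by
    have := (tendsto_rpow_neg_atTop (y := 1 - k) (by linarith)).comp tendsto_natCast_atTop_atTop
    simpa using this.const_mul (2 + C / 16)
  have hlim2 : Tendsto (fun T : ℕ => 1 / (T : ℝ)) atTop (𝓝 0) := tendsto_one_div_atTop_nhds_zero_nat
  filter_upwards [hlim.eventually (gt_mem_nhds (half_pos hε)), hlim2.eventually (gt_mem_nhds hε),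
    eventually_ge_atTop 1] with T hT1 hT2 hT3
  have hT0 : (0 : ℝ) < T := by exact_mod_cast hT3
  have hT1' : (1 : ℝ) ≤ T := by exact_mod_cast hT3
  obtain ⟨i, hi⟩ := exists_shift v hK (T : ℝ)
  refine ⟨quant v K hK T i, exSet v K T i, measurableSet_exSet _ _ _ _, hi,
    fun x hx => quant_int v K hK T i hx,
    fun x => (quant_close v K hK hT0 i x).trans hT2.le, ?_⟩
  refine (n1_add k v _).trans ?_
  have h1 : n1 k (quant v K hK T i - v) ≤ ENNReal.ofReal (ε / 2) := by
    have hclose : ∀ x, |(quant v K hK T i - v) x| ≤ 1 / T := fun x => quant_close v K hK hT0 i x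
    have h2 := n1_le (v := quant v K hK T i - v) hk0 hk1.le (A := T) (E := 1 / (T : ℝ) ^ 2)
      (C := C) hT0 (by positivity) hC0 ?_ ?_
    · refine h2.trans (ENNReal.ofReal_le_ofReal (le_trans ?_ hT1.le))
      have e1 : (T : ℝ) ^ (-(1 - k)) = (T : ℝ) ^ k / T := by
        rw [neg_sub, Real.rpow_sub hT0, Real.rpow_one]
      rw [e1]
      have e2 : 1 / (T : ℝ) ^ 2 + (1 / (T : ℝ) ^ 2 + C / 16) / T ≤ (2 + C / 16) / T := by
        rw [le_div_iff₀ hT0]
        have e3 : (1 / (T : ℝ) ^ 2 + (1 / (T : ℝ) ^ 2 + C / 16) / T) * T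
            = 1 / T + 1 / (T : ℝ) ^ 2 + C / 16 := by
          field_simp
          ring
        rw [e3]
        have e4 : 1 / (T : ℝ) ≤ 1 := by rw [div_le_one hT0]; exact hT1'
        have e5 : 1 / (T : ℝ) ^ 2 ≤ 1 := by
          rw [div_le_one (by positivity)]
          nlinarith
        linarith
      have hTk : 0 ≤ (T : ℝ) ^ k := by positivity
      calc (T : ℝ) ^ k * (1 / (T : ℝ) ^ 2 + (1 / (T : ℝ) ^ 2 + C / 16) / T)
          ≤ (T : ℝ) ^ k * ((2 + C / 16) / T) := by gcongr
        _ = _ := by ring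
    · calc ∫ x, (quant v K hK T i - v) x ^ 2 ∂haar ≤ ∫ _, 1 / (T : ℝ) ^ 2 ∂haar := by
            apply integral_mono
            · apply integrable1_real
              have := (quant v K hK T i - v).continuous
              fun_prop
            · exact integrable_const _
            · intro x
              have := hclose x
              simp only
              rw [← sq_abs]
              calc |(quant v K hK T i - v) x| ^ 2 ≤ (1 / (T : ℝ)) ^ 2 := by gcongr
                _ = _ := by ring
        _ = _ := by simp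
    · intro t
      have h3 : ∀ x y, |(quant v K hK T i - v) x - (quant v K hK T i - v) y|
          ≤ (K + 1) * l * ‖x - y‖ := by
        intro x y
        have e1 := quant_lip v K hK hT0 i hv x y
        have e2 := hv x y
        have e3 : (quant v K hK T i - v) x - (quant v K hK T i - v) y
            = (quant v K hK T i x - quant v K hK T i y) - (v x - v y) := by
          simp only [ContinuousMap.coe_sub, Pi.sub_apply]
          ring
        rw [e3]
        refine (abs_sub _ _).trans ?_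
        linarith
      have h4 := lip_diff_int (by positivity) h3 t
      rwa [← hC] at h4
  calc 2 * n1 k v + 2 * n1 k (quant v K hK T i - v)
      ≤ 2 * n1 k v + 2 * ENNReal.ofReal (ε / 2) := by gcongr
    _ = _ := by
        congr 1
        have : (2 : ℝ≥0∞) = ENNReal.ofReal 2 := by norm_num
        rw [this, ← ENNReal.ofReal_mul (by norm_num)]
        congr 1
        ring

end Pool.Agent.Helper579.Mix
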