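import Mathlib
import Pool.Agent.Helper579.MixQuant

set_option autoImplicit false

namespace Pool.Agent.Helper579.Mix

open MeasureTheory ProbabilityTheory Filter
open scoped ENNReal Topology

section General

variable {E : Type} [MeasurableSpace E] {ν : Measure E} [IsProbabilityMeasure ν]

/-- second moment of a sum of independent centered variables -/
lemma pi_second {ι : Type} [Fintype ι] {X : ι → E → ℝ} (hX : ∀ i, MemLp (X i) 2 ν)
    (h0 : ∀ i, ∫ y, X i y ∂ν = 0) {s : ℝ} (hs : ∑ i, ∫ y, X i y ^ 2 ∂ν ≤ s) :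
    ∫⁻ y, ENNReal.ofReal ((∑ i, X i (y i)) ^ 2) ∂(Measure.pi fun _ : ι => ν)
      ≤ ENNReal.ofReal s := by
  have hvar := variance_sum_pi (μ := fun _ : ι => ν) hX
  have hL : ∀ m, MemLp (fun z : ι → E => X m (z m)) 2 (Measure.pi fun _ : ι => ν) := fun m =>
    (hX m).comp_measurePreserving (measurePreserving_eval (fun _ : ι => ν) m)
  have hsum : (∑ m, fun z : ι → E => X m (z m)) = fun z => ∑ m, X m (z m) := by
    ext z; simp
  have hL2 : MemLp (fun z : ι → E => ∑ m, X m (z m)) 2 (Measure.pi fun _ : ι => ν) :=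
    memLp_finsetSum _ fun m _ => hL m
  have hmean : ∫ z, ∑ m, X m (z m) ∂(Measure.pi fun _ : ι => ν) = 0 := by
    rw [integral_finsetSum _ fun m _ => (hL m).integrable (by norm_num)]
    apply Finset.sum_eq_zero
    intro m _
    rw [integral_comp_eval (μ := fun _ : ι => ν) (hX m).aestronglyMeasurable]
    exact h0 m
  have h3 : ∫ z, (∑ m, X m (z m)) ^ 2 ∂(Measure.pi fun _ : ι => ν) ≤ s := by
    rw [← variance_of_integral_eq_zero hL2.aestronglyMeasurable.aemeasurable hmean, ← hsum]
    rw [hvar]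
    refine le_trans (Finset.sum_le_sum fun m _ => ?_) hs
    rw [variance_of_integral_eq_zero (hX m).aestronglyMeasurable.aemeasurable (h0 m)]
  rw [← ofReal_integral_eq_lintegral_ofReal hL2.integrable_sq
    (Filter.Eventually.of_forall fun z => sq_nonneg _)]
  exact ENNReal.ofReal_le_ofReal h3

lemma memLp_bdd {X : E → ℝ} (hm : Measurable X) {C : ℝ} (hb : ∀ y, |X y| ≤ C) : MemLp X 2 ν :=
  MemLp.of_bound hm.aestronglyMeasurable C (Eventually.of_forall fun y => by
    rw [Real.norm_eq_abs]; exact hb y)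

/-- the one-pair estimate -/
lemma bad_pair {m : ℕ} {φ : E → ℝ} (hm : Measurable φ) (hb : ∀ y, |φ y| ≤ 1)
    (h0 : ∫ y, φ y ∂ν = 0) {s : ℝ} (hs0 : 0 ≤ s) (hs : ∫ y, φ y ^ 2 ∂ν ≤ s) {A B : Set E}
    (hA : MeasurableSet A) (hB : MeasurableSet B) (j j' : Fin m) :
    ∫⁻ y, ENNReal.ofReal ((∑ i, φ (y i)) ^ 2) * (A.indicator 1 (y j) * B.indicator 1 (y j'))
        ∂(Measure.pi fun _ : Fin m => ν)
      ≤ ENNReal.ofReal (8 + 2 * m * s) * ∫⁻ y, A.indicator 1 (y j) * B.indicator 1 (y j')
        ∂(Measure.pi fun _ : Fin m => ν) := by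
  classical
  set π := Measure.pi fun _ : Fin m => ν with hπ
  set T : Finset (Fin m) := {j, j'} with hT
  have hind : iIndepFun (fun (i : Fin m) (y : Fin m → E) => y i) π :=
    iIndepFun_pi (μ := fun _ : Fin m => ν) (X := fun _ => id) fun _ => aemeasurable_id
  have hind2 := hind.indepFun_finset T Tᶜ disjoint_compl_right fun i => measurable_pi_apply i
  set F1 : (T → E) → ℝ≥0∞ := fun v =>
    A.indicator 1 (v ⟨j, by simp [hT]⟩) * B.indicator 1 (v ⟨j', by simp [hT]⟩) with hF1
  set F2 : ((Tᶜ : Finset (Fin m)) → E) → ℝ≥0∞ := fun v =>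
    ENNReal.ofReal ((∑ i, φ (v i)) ^ 2) with hF2
  have hAi : Measurable (A.indicator (1 : E → ℝ≥0∞)) := measurable_one.indicator hA
  have hBi : Measurable (B.indicator (1 : E → ℝ≥0∞)) := measurable_one.indicator hB
  have hF1m : Measurable F1 :=
    (hAi.comp (measurable_pi_apply _)).mul (hBi.comp (measurable_pi_apply _))
  have hF2m : Measurable F2 := by
    apply Measurable.ennreal_ofReal
    apply Measurable.pow_const
    exact Finset.measurable_fun_sum _ fun i _ => hm.comp (measurable_pi_apply i)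
  have hind3 := hind2.comp hF1m hF2m
  have hG1 : Measurable fun y : Fin m → E => A.indicator (1 : E → ℝ≥0∞) (y j)
      * B.indicator (1 : E → ℝ≥0∞) (y j') :=
    (hAi.comp (measurable_pi_apply _)).mul (hBi.comp (measurable_pi_apply _))
  have hG2 : Measurable fun y : Fin m → E => ENNReal.ofReal ((∑ i ∈ Tᶜ, φ (y i)) ^ 2) := by
    apply Measurable.ennreal_ofReal
    apply Measurable.pow_const
    exact Finset.measurable_fun_sum _ fun i _ => hm.comp (measurable_pi_apply i)
  have e2 : ∀ y : Fin m → E, ∑ i ∈ Tᶜ, φ (y i) = ∑ i : (Tᶜ : Finset (Fin m)), φ (y i) := by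
    intro y
    rw [← Finset.sum_coe_sort]
  have hmul : ∫⁻ y, (A.indicator 1 (y j) * B.indicator 1 (y j'))
      * ENNReal.ofReal ((∑ i ∈ Tᶜ, φ (y i)) ^ 2) ∂π
      = (∫⁻ y, A.indicator 1 (y j) * B.indicator 1 (y j') ∂π)
        * ∫⁻ y, ENNReal.ofReal ((∑ i ∈ Tᶜ, φ (y i)) ^ 2) ∂π := by
    have h := lintegral_mul_eq_lintegral_mul_lintegral_of_indepFun'' (μ := π)
      (f := fun y : Fin m → E => A.indicator (1 : E → ℝ≥0∞) (y j)
      * B.indicator (1 : E → ℝ≥0∞) (y j')) (g := fun y : Fin m → E =>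
        ENNReal.ofReal ((∑ i ∈ Tᶜ, φ (y i)) ^ 2)) hG1.aemeasurable hG2.aemeasurable ?_
    · exact h
    · have : (fun y : Fin m → E => ENNReal.ofReal ((∑ i ∈ Tᶜ, φ (y i)) ^ 2))
          = F2 ∘ fun (a : Fin m → E) (i : (Tᶜ : Finset (Fin m))) => a i := by
        ext y
        simp only [hF2, Function.comp_apply]
        rw [e2]
      rw [this]
      exact hind3
  have hrest : ∫⁻ y, ENNReal.ofReal ((∑ i ∈ Tᶜ, φ (y i)) ^ 2) ∂π ≤ ENNReal.ofReal (m * s) := by
    have h1 := pi_second (ν := ν) (X := fun (i : Fin m) (y : E) => if i ∈ Tᶜ then φ y else 0)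
      (s := m * s) ?_ ?_ ?_
    · refine le_trans (le_of_eq ?_) h1
      congr 1
      ext y
      congr 2
      rw [Finset.sum_ite_mem, Finset.univ_inter]
    · intro i
      by_cases hi : i ∈ Tᶜ
      · simp only [hi, if_true]
        exact memLp_bdd hm hb
      · simp only [hi, if_false]
        exact MemLp.zero
    · intro i
      by_cases hi : i ∈ Tᶜ
      · simp only [hi, if_true]
        exact h0
      · simp [hi]
    · calc ∑ i, ∫ y, (if i ∈ Tᶜ then φ y else 0) ^ 2 ∂ν ≤ ∑ _i : Fin m, s := by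
            apply Finset.sum_le_sum
            intro i _
            by_cases hi : i ∈ Tᶜ
            · simp only [hi, if_true]
              exact hs
            · simp only [hi, if_false]
              simpa using hs0
        _ = m * s := by simp
  have hpoint : ∀ y : Fin m → E, ENNReal.ofReal ((∑ i, φ (y i)) ^ 2)
      ≤ ENNReal.ofReal 8 + ENNReal.ofReal 2 * ENNReal.ofReal ((∑ i ∈ Tᶜ, φ (y i)) ^ 2) := by
    intro y
    rw [← ENNReal.ofReal_mul (by norm_num), ← ENNReal.ofReal_add (by norm_num) (by positivity)]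
    apply ENNReal.ofReal_le_ofReal
    have h1 : ∑ i, φ (y i) = ∑ i ∈ T, φ (y i) + ∑ i ∈ Tᶜ, φ (y i) :=
      (Finset.sum_add_sum_compl T _).symm
    have h2 : |∑ i ∈ T, φ (y i)| ≤ 2 := by
      calc |∑ i ∈ T, φ (y i)| ≤ ∑ i ∈ T, |φ (y i)| := Finset.abs_sum_le_sum_abs _ _
        _ ≤ ∑ _i ∈ T, (1 : ℝ) := Finset.sum_le_sum fun i _ => hb _
        _ = T.card := by simp
        _ ≤ 2 := by
            have : T.card ≤ 2 := Finset.card_le_two
            exact_mod_cast this
    rw [h1]
    have h3 : (∑ i ∈ T, φ (y i)) ^ 2 ≤ 4 := by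
      rw [← sq_abs]
      nlinarith [abs_nonneg (∑ i ∈ T, φ (y i))]
    nlinarith [sq_nonneg (∑ i ∈ T, φ (y i) - ∑ i ∈ Tᶜ, φ (y i))]
  calc ∫⁻ y, ENNReal.ofReal ((∑ i, φ (y i)) ^ 2) * (A.indicator 1 (y j) * B.indicator 1 (y j')) ∂π
      ≤ ∫⁻ y, (ENNReal.ofReal 8 * (A.indicator 1 (y j) * B.indicator 1 (y j'))
        + ENNReal.ofReal 2 * ((A.indicator 1 (y j) * B.indicator 1 (y j'))
          * ENNReal.ofReal ((∑ i ∈ Tᶜ, φ (y i)) ^ 2))) ∂π := by
        apply lintegral_mono
        intro y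
        refine (mul_le_mul_left (hpoint y) _).trans (le_of_eq ?_)
        ring
    _ = ENNReal.ofReal 8 * ∫⁻ y, A.indicator 1 (y j) * B.indicator 1 (y j') ∂π
        + ENNReal.ofReal 2 * ∫⁻ y, (A.indicator 1 (y j) * B.indicator 1 (y j'))
          * ENNReal.ofReal ((∑ i ∈ Tᶜ, φ (y i)) ^ 2) ∂π := by
        have hG3 : Measurable fun y : Fin m → E => (A.indicator (1 : E → ℝ≥0∞) (y j)
            * B.indicator (1 : E → ℝ≥0∞) (y j')) * ENNReal.ofReal ((∑ i ∈ Tᶜ, φ (y i)) ^ 2) :=
          hG1.mul hG2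
        rw [lintegral_add_left (hG1.const_mul _), lintegral_const_mul _ hG1,
          lintegral_const_mul _ hG3]
    _ ≤ ENNReal.ofReal 8 * ∫⁻ y, A.indicator 1 (y j) * B.indicator 1 (y j') ∂π
        + ENNReal.ofReal 2 * ((∫⁻ y, A.indicator 1 (y j) * B.indicator 1 (y j') ∂π)
          * ENNReal.ofReal (m * s)) := by
        rw [hmul]
        gcongr
    _ = _ := by
        rw [ENNReal.ofReal_add (by norm_num) (by positivity)]
        have : ENNReal.ofReal (2 * m * s) = ENNReal.ofReal 2 * ENNReal.ofReal (m * s) := by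
          rw [← ENNReal.ofReal_mul (by norm_num)]
          congr 1
          ring
        rw [this]
        ring

lemma pair_prob {m : ℕ} {A B : Set E} (hA : MeasurableSet A) (hB : MeasurableSet B)
    (j j' : Fin m) :
    ∫⁻ y, A.indicator 1 (y j) * B.indicator 1 (y j') ∂(Measure.pi fun _ : Fin m => ν)
      ≤ ν A * ν B + if j = j' then ν (A ∩ B) else 0 := by
  classical
  have e1 : ∀ y : Fin m → E, (A.indicator 1 (y j) * B.indicator 1 (y j') : ℝ≥0∞)
      = (Set.univ.pi fun i => (if i = j then A else Set.univ) ∩ (if i = j' then B else Set.univ) :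
        Set (Fin m → E)).indicator 1 y := by
    intro y
    by_cases h1 : y j ∈ A <;> by_cases h2 : y j' ∈ B
    · have : y ∈ (Set.univ.pi fun i => (if i = j then A else Set.univ) ∩
          (if i = j' then B else Set.univ) : Set (Fin m → E)) := by
        intro i _
        refine ⟨?_, ?_⟩
        · split_ifs with h
          · rw [h]; exact h1
          · trivial
        · split_ifs with h
          · rw [h]; exact h2
          · trivial
      simp [Set.indicator_of_mem this, h1, h2]
    all_goals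
      have : y ∉ (Set.univ.pi fun i => (if i = j then A else Set.univ) ∩
          (if i = j' then B else Set.univ) : Set (Fin m → E)) := by
        intro hy
        have a1 := (hy j trivial).1
        have a2 := (hy j' trivial).2
        simp only [if_true] at a1 a2
        tauto
      simp [Set.indicator_of_notMem this, h1, h2]
  simp only [e1]
  rw [lintegral_indicator_one]
  · rw [Measure.pi_pi]
    by_cases h : j = j'
    · rw [if_pos h]
      refine le_trans ?_ le_add_self
      rw [← Finset.prod_erase_mul _ _ (Finset.mem_univ j)]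
      have h1 : ∏ i ∈ Finset.univ.erase j, ν ((if i = j then A else Set.univ) ∩
          (if i = j' then B else Set.univ)) ≤ 1 := Finset.prod_le_one' fun i _ => prob_le_one
      calc _ ≤ 1 * ν ((if j = j then A else Set.univ) ∩ (if j = j' then B else Set.univ)) := by
            gcongr
        _ = ν (A ∩ B) := by simp [h]
    · rw [if_neg h, add_zero]
      have hj' : j' ∈ Finset.univ.erase j := by simp [Ne.symm h]
      rw [← Finset.prod_erase_mul _ _ (Finset.mem_univ j), ← Finset.prod_erase_mul _ _ hj']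
      have h1 : ∏ i ∈ (Finset.univ.erase j).erase j', ν ((if i = j then A else Set.univ) ∩
          (if i = j' then B else Set.univ)) ≤ 1 := Finset.prod_le_one' fun i _ => prob_le_one
      have h2 : ν ((if j = j then A else Set.univ) ∩ (if j = j' then B else Set.univ)) = ν A := by
        simp [h]
      have h3 : ν ((if j' = j then A else Set.univ) ∩ (if j' = j' then B else Set.univ)) = ν B := by
        simp [Ne.symm h]
      rw [h2, h3]
      calc _ ≤ 1 * ν B * ν A := by gcongr
        _ = ν A * ν B := by ring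
  · refine MeasurableSet.univ_pi fun i => ?_
    split_ifs <;> simp [hA, hB, hA.inter hB]

/-- the bad event estimate -/
lemma bad_est {m : ℕ} {φ : E → ℝ} (hm : Measurable φ) (hb : ∀ y, |φ y| ≤ 1)
    (h0 : ∫ y, φ y ∂ν = 0) {s : ℝ} (hs0 : 0 ≤ s) (hs : ∫ y, φ y ^ 2 ∂ν ≤ s) {A B : Set E}
    (hA : MeasurableSet A) (hB : MeasurableSet B) :
    ∫⁻ y, ENNReal.ofReal ((∑ i, φ (y i)) ^ 2) *
        ({y : Fin m → E | (∃ j, y j ∈ A) ∧ ∃ j, y j ∈ B}.indicator 1 y)
        ∂(Measure.pi fun _ : Fin m => ν)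
      ≤ ENNReal.ofReal (8 + 2 * m * s) * (m ^ 2 * (ν A * ν B) + m * ν (A ∩ B)) := by
  classical
  set π := Measure.pi fun _ : Fin m => ν with hπ
  have hAi : Measurable (A.indicator (1 : E → ℝ≥0∞)) := measurable_one.indicator hA
  have hBi : Measurable (B.indicator (1 : E → ℝ≥0∞)) := measurable_one.indicator hB
  have hφm : Measurable fun y : Fin m → E => ENNReal.ofReal ((∑ i, φ (y i)) ^ 2) := by
    apply Measurable.ennreal_ofReal
    apply Measurable.pow_const
    exact Finset.measurable_fun_sum _ fun i _ => hm.comp (measurable_pi_apply i)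
  have h1 : ∀ y : Fin m → E, ({y : Fin m → E | (∃ j, y j ∈ A) ∧ ∃ j, y j ∈ B}.indicator 1 y : ℝ≥0∞)
      ≤ ∑ j, ∑ j', A.indicator 1 (y j) * B.indicator 1 (y j') := by
    intro y
    by_cases hy : (∃ j, y j ∈ A) ∧ ∃ j, y j ∈ B
    · obtain ⟨⟨j, hj⟩, j', hj'⟩ := hy
      have e1 : ({y : Fin m → E | (∃ j, y j ∈ A) ∧ ∃ j, y j ∈ B}.indicator 1 y : ℝ≥0∞) = 1 :=
        Set.indicator_of_mem (show y ∈ {y : Fin m → E | (∃ j, y j ∈ A) ∧ ∃ j, y j ∈ B} from
          ⟨⟨j, hj⟩, j', hj'⟩) _
      rw [e1]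
      calc (1 : ℝ≥0∞) = A.indicator 1 (y j) * B.indicator 1 (y j') := by simp [hj, hj']
        _ ≤ ∑ j', A.indicator 1 (y j) * B.indicator 1 (y j') :=
            Finset.single_le_sum (f := fun j' => A.indicator (1 : E → ℝ≥0∞) (y j)
              * B.indicator (1 : E → ℝ≥0∞) (y j')) (fun _ _ => zero_le) (Finset.mem_univ j')
        _ ≤ _ := Finset.single_le_sum (f := fun j => ∑ j', A.indicator (1 : E → ℝ≥0∞) (y j)
              * B.indicator (1 : E → ℝ≥0∞) (y j')) (fun _ _ => zero_le) (Finset.mem_univ j)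
    · rw [Set.indicator_of_notMem (by exact hy)]
      exact zero_le
  calc ∫⁻ y, ENNReal.ofReal ((∑ i, φ (y i)) ^ 2) *
        ({y : Fin m → E | (∃ j, y j ∈ A) ∧ ∃ j, y j ∈ B}.indicator 1 y) ∂π
      ≤ ∫⁻ y, ∑ j, ∑ j', ENNReal.ofReal ((∑ i, φ (y i)) ^ 2) *
          (A.indicator 1 (y j) * B.indicator 1 (y j')) ∂π := by
        apply lintegral_mono
        intro y
        simp only [← Finset.mul_sum]
        gcongr
        simp only [Finset.mul_sum]
        exact h1 y
    _ = ∑ j, ∑ j', ∫⁻ y, ENNReal.ofReal ((∑ i, φ (y i)) ^ 2) *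
          (A.indicator 1 (y j) * B.indicator 1 (y j')) ∂π := by
        have hmm : ∀ j j', Measurable fun y : Fin m → E => ENNReal.ofReal ((∑ i, φ (y i)) ^ 2) *
          (A.indicator (1 : E → ℝ≥0∞) (y j) * B.indicator (1 : E → ℝ≥0∞) (y j')) := fun j j' =>
          hφm.mul ((hAi.comp (measurable_pi_apply _)).mul (hBi.comp (measurable_pi_apply _)))
        rw [lintegral_finsetSum _ fun j _ => Finset.measurable_fun_sum _ fun j' _ => hmm j j']
        apply Finset.sum_congr rfl
        intro j _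
        rw [lintegral_finsetSum _ fun j' _ => hmm j j']
    _ ≤ ∑ j : Fin m, ∑ j' : Fin m, ENNReal.ofReal (8 + 2 * m * s) *
          (ν A * ν B + if j = j' then ν (A ∩ B) else 0) := by
        apply Finset.sum_le_sum
        intro j _
        apply Finset.sum_le_sum
        intro j' _
        refine (bad_pair hm hb h0 hs0 hs hA hB j j').trans ?_
        gcongr
        exact pair_prob hA hB j j'
    _ = _ := by
        simp only [← Finset.mul_sum, Finset.sum_add_distrib, Finset.sum_const, Finset.card_univ,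
          Fintype.card_fin, nsmul_eq_mul, Finset.sum_ite_eq, Finset.mem_univ, if_true]
        ring

/-- integrating with one distinguished coordinate -/
lemma disint {m : ℕ} (i : Fin (m + 1)) {g : E → (Fin m → E) → ℝ≥0∞}
    (hg : Measurable fun p : E × (Fin m → E) => g p.1 p.2) {C : ℝ≥0∞}
    (hC : ∀ t, ∫⁻ y, g t y ∂(Measure.pi fun _ : Fin m => ν) ≤ C) :
    ∫⁻ x : Fin (m + 1) → E, g (x i) (fun j => x (i.succAbove j))
      ∂(Measure.pi fun _ : Fin (m + 1) => ν) ≤ C := by
  have h1 := (measurePreserving_piFinSuccAbove (fun _ : Fin (m + 1) => ν) i)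
  have h2 := h1.lintegral_comp hg
  have e1 : ∀ x : Fin (m + 1) → E, g (x i) (fun j => x (i.succAbove j))
      = g ((MeasurableEquiv.piFinSuccAbove (fun _ => E) i) x).1
        ((MeasurableEquiv.piFinSuccAbove (fun _ => E) i) x).2 := fun x => rfl
  simp only [e1]
  rw [h2, lintegral_prod _ hg.aemeasurable]
  calc ∫⁻ t, ∫⁻ y, g t y ∂(Measure.pi fun _ : Fin m => ν) ∂ν ≤ ∫⁻ _, C ∂ν :=
        lintegral_mono hC
    _ = C := by simp

end General

end Pool.Agent.Helper579.Mix
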