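import Mathlib
import Pool.Agent.Helper579.MixProb

set_option autoImplicit false

namespace Pool.Agent.Helper579.Mix

open MeasureTheory ProbabilityTheory Filter AddCircle
open scoped ENNReal Topology

/-- the hyperbolic cross -/
def rho (N : ℕ) : Finset (ℕ × ℕ) :=
  ((Finset.Icc 1 N) ×ˢ (Finset.Icc 1 N)).filter fun p => p.1 * p.2 ≤ N

lemma mem_rho {N : ℕ} {p : ℕ × ℕ} (hp : p ∈ rho N) : 1 ≤ p.1 ∧ 1 ≤ p.2 ∧ p.1 * p.2 ≤ N := by
  simp only [rho, Finset.mem_filter, Finset.mem_product, Finset.mem_Icc] at hp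
  exact ⟨hp.1.1.1, hp.1.2.1, hp.2⟩

lemma card_rho (N : ℕ) : (rho N).card = ∑ a ∈ Finset.Icc 1 N, N / a := by
  have h1 : rho N = (Finset.Icc 1 N).biUnion fun a => (Finset.Icc 1 (N / a)).image fun b => (a, b) := by
    ext ⟨a, b⟩
    simp only [rho, Finset.mem_filter, Finset.mem_product, Finset.mem_Icc, Finset.mem_biUnion,
      Finset.mem_image, Prod.mk.injEq]
    constructor
    · rintro ⟨⟨⟨h1, h2⟩, h3, h4⟩, h5⟩
      exact ⟨a, ⟨h1, h2⟩, b, ⟨h3, by rw [Nat.le_div_iff_mul_le (by omega)]; rwa [mul_comm]⟩, rfl, rfl⟩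
    · rintro ⟨a', ⟨h1, h2⟩, b', ⟨h3, h4⟩, rfl, rfl⟩
      rw [Nat.le_div_iff_mul_le (by omega)] at h4
      refine ⟨⟨⟨h1, h2⟩, h3, ?_⟩, by rwa [mul_comm]⟩
      nlinarith
  rw [h1, Finset.card_biUnion]
  · apply Finset.sum_congr rfl
    intro a _
    rw [Finset.card_image_of_injective _ fun b b' h => (Prod.ext_iff.1 h).2]
    simp
  · intro a _ a' _ haa'
    rw [Function.onFun, Finset.disjoint_left]
    intro p hp hp'
    simp only [Finset.mem_image] at hp hp'
    obtain ⟨b, _, rfl⟩ := hp
    obtain ⟨b', _, hb'⟩ := hp'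
    exact haa' (Prod.ext_iff.1 hb').1.symm

/-- the hyperbolic cross is large -/
lemma card_rho_large (C : ℝ) : ∀ᶠ N : ℕ in atTop, C * N ≤ (rho N).card := by
  have h1 := Real.tendsto_sum_range_one_div_nat_succ_atTop
  filter_upwards [h1.eventually_ge_atTop (C + 1)] with N hN
  rw [card_rho]
  push_cast
  have h2 : ∀ a ∈ Finset.Icc 1 N, (N : ℝ) * (1 / a) - 1 ≤ ((N / a : ℕ) : ℝ) := by
    intro a ha
    rw [Finset.mem_Icc] at ha
    have ha0 : (0 : ℝ) < a := by exact_mod_cast ha.1
    have h3 : N < (N / a + 1) * a := by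
      have := Nat.lt_div_mul_add (a := N) (show 0 < a by omega)
      linarith
    have h4 : (N : ℝ) < ((N / a : ℕ) + 1) * a := by exact_mod_cast h3
    have h5 : (N : ℝ) * (1 / a) < (N / a : ℕ) + 1 := by
      rw [mul_one_div, div_lt_iff₀ ha0]
      exact h4
    linarith
  have h3 : ∑ a ∈ Finset.Icc 1 N, (1 / (a : ℝ)) = ∑ i ∈ Finset.range N, 1 / ((i : ℝ) + 1) := by
    have h := Finset.sum_Ico_add' (fun i : ℕ => 1 / (i : ℝ)) 0 N 1
    rw [zero_add] at h
    rw [Finset.range_eq_Ico]
    push_cast at h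
    rw [h]
    rfl
  calc C * N ≤ (N : ℝ) * (∑ a ∈ Finset.Icc 1 N, (1 / (a : ℝ))) - N := by
        rw [h3]
        have : (0 : ℝ) ≤ N := by positivity
        nlinarith
    _ = ∑ a ∈ Finset.Icc 1 N, ((N : ℝ) * (1 / a) - 1) := by
        rw [Finset.sum_sub_distrib, Finset.mul_sum]
        simp
    _ ≤ ∑ a ∈ Finset.Icc 1 N, ((N / a : ℕ) : ℝ) := Finset.sum_le_sum h2

/-- orthogonality relations -/
lemma int_csF (s : Bool) {n : ℤ} (hn : n ≠ 0) : ∫ x, csF s n x ∂haar = 0 := by
  have h1 : fourierCoeff (fourier n : UnitAddCircle → ℂ) 0 = 0 := by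
    rw [fourierCoeff_fourier]
    simp [hn.symm]
  unfold fourierCoeff at h1
  have h2 : ∫ x, (fourier n x : ℂ) ∂haar = 0 := by
    rw [← h1]
    congr 1
    ext x
    simp
  have hi : Integrable (fun x : UnitAddCircle => (fourier n x : ℂ)) haar :=
    integrable1 (ContinuousMap.continuous _)
  cases s
  · have h3 : ∫ x : UnitAddCircle, (fourier n x : ℂ).re ∂haar
        = (∫ x : UnitAddCircle, (fourier n x : ℂ) ∂haar).re := integral_re hi
    rw [h2] at h3
    exact h3
  · have h3 : ∫ x : UnitAddCircle, (fourier n x : ℂ).im ∂haar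
        = (∫ x : UnitAddCircle, (fourier n x : ℂ) ∂haar).im := integral_im hi
    rw [h2] at h3
    exact h3

lemma csF_mul (a b : ℤ) (x : UnitAddCircle) :
    csF false a x * csF false b x = (csF false (a - b) x + csF false (a + b) x) / 2 := by
  change (fourier a x : ℂ).re * (fourier b x : ℂ).re
    = ((fourier (a - b) x : ℂ).re + (fourier (a + b) x : ℂ).re) / 2
  rw [sub_eq_add_neg, fourier_add, fourier_add, fourier_neg, Complex.mul_re, Complex.mul_re,
    Complex.conj_re, Complex.conj_im]
  ring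

lemma csF_sub (a : ℤ) (x y : UnitAddCircle) :
    csF false a (x - y) = csF false a x * csF false a y + csF true a x * csF true a y := by
  change (fourier a (x - y) : ℂ).re = (fourier a x : ℂ).re * (fourier a y : ℂ).re
    + (fourier a x : ℂ).im * (fourier a y : ℂ).im
  have h1 : (fourier a (x - y) : ℂ) = fourier a x * (starRingEnd ℂ) (fourier a y) := by
    rw [← fourier_neg]
    simp only [fourier_apply, smul_add, smul_neg, neg_smul, sub_eq_add_neg, toCircle_add,
      Circle.coe_mul]
  rw [h1, Complex.mul_re, Complex.conj_re, Complex.conj_im]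
  ring

lemma int_csF_mul {a b : ℕ} (ha : 1 ≤ a) (hb : 1 ≤ b) (hab : a ≠ b) :
    ∫ x, csF false a x * csF false b x ∂haar = 0 := by
  simp only [csF_mul]
  have h1 : ∀ n : ℤ, Integrable (fun x => csF false n x) haar := fun n =>
    integrable1_real (ContinuousMap.continuous _)
  rw [integral_div, integral_add (h1 _) (h1 _), int_csF false (by omega), int_csF false (by omega)]
  simp

/-- product integrals -/
lemma int2 (f g : UnitAddCircle → ℝ) :
    ∫ y, f (y 0) * g (y 1) ∂unif 2 = (∫ x, f x ∂haar) * ∫ x, g x ∂haar := by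
  have h1 := integral_fintype_prod_eq_prod (𝕜 := ℝ) (fun (i : Fin 2) (s : UnitAddCircle) =>
    (![f, g] : Fin 2 → UnitAddCircle → ℝ) i s) (μ := fun _ => haar)
  simp only [Fin.prod_univ_two, Matrix.cons_val_zero, Matrix.cons_val_one] at h1
  exact h1

/-- the kernel -/
noncomputable def ker (N : ℕ) (z : Torus 2) : ℝ :=
  (1 / ((rho N).card : ℝ)) * ∑ p ∈ rho N, csF false p.1 (z 0) * csF false p.2 (z 1)

lemma ker_cont (N : ℕ) : Continuous (ker N) := by
  unfold ker
  fun_prop

lemma ker_abs_le (N : ℕ) (z : Torus 2) : |ker N z| ≤ 1 := by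
  unfold ker
  rw [abs_mul, abs_of_nonneg (by positivity)]
  have h1 : |∑ p ∈ rho N, csF false p.1 (z 0) * csF false p.2 (z 1)| ≤ (rho N).card := by
    calc |∑ p ∈ rho N, csF false p.1 (z 0) * csF false p.2 (z 1)|
        ≤ ∑ p ∈ rho N, |csF false p.1 (z 0) * csF false p.2 (z 1)| := Finset.abs_sum_le_sum_abs _ _
      _ ≤ ∑ p ∈ rho N, (1 : ℝ) := by
          apply Finset.sum_le_sum
          intro p _
          rw [abs_mul]
          exact mul_le_one₀ (csF_abs_le _ _ _) (abs_nonneg _) (csF_abs_le _ _ _)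
      _ = _ := by simp
  rcases Nat.eq_zero_or_pos (rho N).card with h | h
  · simp [h]
  · have hc : (0 : ℝ) < (rho N).card := by exact_mod_cast h
    rw [one_div, inv_mul_le_iff₀ hc, mul_one]
    exact h1

lemma ker_int (N : ℕ) (t : Torus 2) : ∫ y, ker N (t - y) ∂unif 2 = 0 := by
  unfold ker
  rw [integral_const_mul, integral_finsetSum]
  · rw [Finset.sum_eq_zero, mul_zero]
    intro p hp
    obtain ⟨h1, h2, _⟩ := mem_rho hp
    have := int2 (fun s => csF false p.1 (t 0 - s)) (fun s => csF false p.2 (t 1 - s))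
    simp only [Pi.sub_apply]
    rw [this, integral_sub_left_eq_self (fun s => csF false p.1 s) haar (t 0),
      int_csF false (by omega)]
    simp
  · intro p _
    apply integrable_cont_real
    fun_prop

lemma ker_int_sq (N : ℕ) (hN : 1 ≤ N) (t : Torus 2) :
    ∫ y, ker N (t - y) ^ 2 ∂unif 2 ≤ 1 / (rho N).card := by
  have hcard : 1 ≤ (rho N).card := by
    rw [Nat.one_le_iff_ne_zero, Finset.card_ne_zero]
    refine ⟨(1, 1), ?_⟩
    simp only [rho, Finset.mem_filter, Finset.mem_product, Finset.mem_Icc]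
    omega
  have hc : (0 : ℝ) < (rho N).card := by exact_mod_cast hcard
  have e1 : ∀ y : Torus 2, ker N (t - y) ^ 2 = (1 / ((rho N).card : ℝ)) ^ 2 *
      ∑ p ∈ rho N, ∑ q ∈ rho N, (csF false p.1 (t 0 - y 0) * csF false q.1 (t 0 - y 0)) *
        (csF false p.2 (t 1 - y 1) * csF false q.2 (t 1 - y 1)) := by
    intro y
    unfold ker
    rw [mul_pow, sq (∑ p ∈ rho N, _), Finset.sum_mul_sum]
    congr 1
    apply Finset.sum_congr rfl
    intro p _
    apply Finset.sum_congr rfl
    intro q _
    simp only [Pi.sub_apply]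
    ring
  simp only [e1]
  rw [integral_const_mul, integral_finsetSum]
  · have h1 : ∀ p ∈ rho N, ∫ y, ∑ q ∈ rho N,
        (csF false p.1 (t 0 - y 0) * csF false q.1 (t 0 - y 0)) *
        (csF false p.2 (t 1 - y 1) * csF false q.2 (t 1 - y 1)) ∂unif 2 ≤ 1 := by
      intro p hp
      rw [integral_finsetSum]
      · have h2 : ∀ q ∈ rho N, q ≠ p → ∫ y,
            (csF false p.1 (t 0 - y 0) * csF false q.1 (t 0 - y 0)) *
            (csF false p.2 (t 1 - y 1) * csF false q.2 (t 1 - y 1)) ∂unif 2 = 0 := by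
          intro q hq hqp
          have e2 := int2 (fun s => csF false p.1 (t 0 - s) * csF false q.1 (t 0 - s))
            (fun s => csF false p.2 (t 1 - s) * csF false q.2 (t 1 - s))
          rw [e2, integral_sub_left_eq_self (fun s => csF false p.1 s * csF false q.1 s) haar (t 0),
            integral_sub_left_eq_self (fun s => csF false p.2 s * csF false q.2 s) haar (t 1)]
          obtain ⟨p1, p2, _⟩ := mem_rho hp
          obtain ⟨q1, q2, _⟩ := mem_rho hq
          by_cases h : p.1 = q.1
          · have h' : p.2 ≠ q.2 := fun h' => hqp (Prod.ext h.symm h'.symm)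
            rw [int_csF_mul p2 q2 h', mul_zero]
          · rw [int_csF_mul p1 q1 h, zero_mul]
        rw [Finset.sum_eq_single_of_mem p hp h2]
        calc ∫ y, (csF false p.1 (t 0 - y 0) * csF false p.1 (t 0 - y 0)) *
            (csF false p.2 (t 1 - y 1) * csF false p.2 (t 1 - y 1)) ∂unif 2
            ≤ ∫ _, (1 : ℝ) ∂unif 2 := by
              apply integral_mono
              · apply integrable_cont_real
                fun_prop
              · exact integrable_const _
              · intro y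
                have a1 := csF_abs_le false p.1 (t 0 - y 0)
                have a2 := csF_abs_le false p.2 (t 1 - y 1)
                have b1 : csF false p.1 (t 0 - y 0) * csF false p.1 (t 0 - y 0) ≤ 1 := by
                  rw [← abs_mul_abs_self]
                  nlinarith [abs_nonneg (csF false p.1 (t 0 - y 0))]
                have b2 : csF false p.2 (t 1 - y 1) * csF false p.2 (t 1 - y 1) ≤ 1 := by
                  rw [← abs_mul_abs_self]
                  nlinarith [abs_nonneg (csF false p.2 (t 1 - y 1))]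
                exact mul_le_one₀ b1 (mul_self_nonneg _) b2
          _ = 1 := by simp
      · intro q _
        apply integrable_cont_real
        fun_prop
    calc (1 / ((rho N).card : ℝ)) ^ 2 * ∑ p ∈ rho N, ∫ y, ∑ q ∈ rho N,
        (csF false p.1 (t 0 - y 0) * csF false q.1 (t 0 - y 0)) *
        (csF false p.2 (t 1 - y 1) * csF false q.2 (t 1 - y 1)) ∂unif 2
        ≤ (1 / ((rho N).card : ℝ)) ^ 2 * ∑ p ∈ rho N, 1 := by
          gcongr with p hp
          exact h1 p hp
      _ = _ := by
          rw [Finset.sum_const, nsmul_eq_mul, mul_one]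
          field_simp
  · intro p _
    apply integrable_cont_real
    fun_prop

end Pool.Agent.Helper579.Mix
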