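import Mathlib
import Pool.Agent.Helper579.MixKer

set_option autoImplicit false

namespace Pool.Agent.Helper579.Mix

open MeasureTheory ProbabilityTheory Filter AddCircle
open scoped ENNReal Topology

/-- the exact one dimensional functions -/
noncomputable def cs (s : Bool) (a : ℕ) : C(UnitAddCircle, ℝ) := csF s (a : ℤ)

/-- index set of the products -/
abbrev I0 (N : ℕ) : Type := ↥(rho N) × Bool × Bool

/-- product functions -/
def UU (w : Bool → ℕ → C(UnitAddCircle, ℝ)) {N : ℕ} (i : I0 N) (z : Torus 2) : ℝ :=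
  w i.2.1 i.1.1.1 (z 0) * w i.2.2 i.1.1.2 (z 1)

/-- properties of the quantised functions -/
structure Quant (k : ℝ) (N K T : ℕ) (ε : ℝ) (w : Bool → ℕ → C(UnitAddCircle, ℝ))
    (Ex : Bool → ℕ → Set UnitAddCircle) : Prop where
  hT : 1 ≤ T
  meas : ∀ s, ∀ a, 1 ≤ a → a ≤ N → MeasurableSet (Ex s a)
  small : ∀ s, ∀ a, 1 ≤ a → a ≤ N → haar (Ex s a) ≤ ENNReal.ofReal (1 / K)
  int : ∀ s, ∀ a, 1 ≤ a → a ≤ N → ∀ x, x ∉ Ex s a → ∃ z : ℤ, w s a x = z / (K * T)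
  close : ∀ s, ∀ a, 1 ≤ a → a ≤ N → ∀ x, |w s a x - cs s a x| ≤ ε
  norm : ∀ s, ∀ a, 1 ≤ a → a ≤ N → n1 k (w s a) ≤ 2 * n1 k (cs s a) + ENNReal.ofReal ε

lemma exists_quant {k : ℝ} (hk0 : 0 ≤ k) (hk1 : k < 1) (N : ℕ) {K : ℕ} (hK : 1 ≤ K) {ε : ℝ}
    (hε : 0 < ε) : ∃ (T : ℕ) (w : Bool → ℕ → C(UnitAddCircle, ℝ))
      (Ex : Bool → ℕ → Set UnitAddCircle), Quant k N K T ε w Ex := by
  have h1 : ∀ s : Bool, ∀ a : ℕ, ∀ᶠ T : ℕ in atTop,
      ∃ (w : C(UnitAddCircle, ℝ)) (E : Set UnitAddCircle),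
      MeasurableSet E ∧ haar E ≤ ENNReal.ofReal (1 / K) ∧
      (∀ x, x ∉ E → ∃ z : ℤ, w x = z / (K * T)) ∧ (∀ x, |w x - cs s a x| ≤ ε) ∧
      n1 k w ≤ 2 * n1 k (cs s a) + ENNReal.ofReal ε := fun s a =>
    quant_exists hk0 hk1 (cs s a) (l := 2 * Real.pi * |((a : ℤ) : ℝ)|)
      (by have := Real.pi_pos; positivity) (csF_lip s a) hK hε
  have h2 : ∀ᶠ T : ℕ in atTop, ∀ s : Bool, ∀ a ∈ Finset.Icc 1 N,
      ∃ (w : C(UnitAddCircle, ℝ)) (E : Set UnitAddCircle),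
      MeasurableSet E ∧ haar E ≤ ENNReal.ofReal (1 / K) ∧
      (∀ x, x ∉ E → ∃ z : ℤ, w x = z / (K * T)) ∧ (∀ x, |w x - cs s a x| ≤ ε) ∧
      n1 k w ≤ 2 * n1 k (cs s a) + ENNReal.ofReal ε := by
    rw [eventually_all]
    intro s
    rw [Filter.eventually_all_finset]
    intro a _
    exact h1 s a
  obtain ⟨T, hT, hT1⟩ := (h2.and (eventually_ge_atTop 1)).exists
  choose w E h using hT
  refine ⟨T, fun s a => if h : a ∈ Finset.Icc 1 N then w s a h else 0,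
    fun s a => if h : a ∈ Finset.Icc 1 N then E s a h else ∅, hT1, ?_, ?_, ?_, ?_, ?_⟩
  all_goals
    intro s a ha1 ha2
    have ha : a ∈ Finset.Icc 1 N := Finset.mem_Icc.2 ⟨ha1, ha2⟩
    simp only [dif_pos ha]
  · exact (h s a ha).1
  · exact (h s a ha).2.1
  · exact (h s a ha).2.2.1
  · exact (h s a ha).2.2.2.1
  · exact (h s a ha).2.2.2.2

lemma rho_le {N : ℕ} (p : ↥(rho N)) : 1 ≤ p.1.1 ∧ p.1.1 ≤ N ∧ 1 ≤ p.1.2 ∧ p.1.2 ≤ N := by
  have h := p.2
  simp only [rho, Finset.mem_filter, Finset.mem_product, Finset.mem_Icc] at h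
  tauto

section Fixed

variable {k : ℝ} {N K T : ℕ} {ε : ℝ} {w : Bool → ℕ → C(UnitAddCircle, ℝ)}
  {Ex : Bool → ℕ → Set UnitAddCircle}

lemma cs_abs (s : Bool) (a : ℕ) (x : UnitAddCircle) : |cs s a x| ≤ 1 := csF_abs_le _ _ _

lemma Quant.abs_le (H : Quant k N K T ε w Ex) (hε : ε ≤ 1) {s : Bool} {a : ℕ} (h1 : 1 ≤ a)
    (h2 : a ≤ N) (x : UnitAddCircle) : |w s a x| ≤ 2 := by
  have h3 := H.close s a h1 h2 x
  have h4 := cs_abs s a x
  have h5 : w s a x = (w s a x - cs s a x) + cs s a x := by ring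
  rw [h5]
  refine (abs_add_le _ _).trans ?_
  linarith

lemma UU_cs_abs (i : I0 N) (z : Torus 2) : |UU cs i z| ≤ 1 := by
  unfold UU
  rw [abs_mul]
  exact mul_le_one₀ (cs_abs _ _ _) (abs_nonneg _) (cs_abs _ _ _)

lemma Quant.UU_abs (H : Quant k N K T ε w Ex) (hε : ε ≤ 1) (i : I0 N) (z : Torus 2) :
    |UU w i z| ≤ 4 := by
  obtain ⟨h1, h2, h3, h4⟩ := rho_le i.1
  unfold UU
  rw [abs_mul]
  have a1 := H.abs_le hε (s := i.2.1) h1 h2 (z 0)
  have a2 := H.abs_le hε (s := i.2.2) h3 h4 (z 1)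
  calc |w i.2.1 i.1.1.1 (z 0)| * |w i.2.2 i.1.1.2 (z 1)| ≤ 2 * 2 := by gcongr
    _ = 4 := by norm_num

lemma Quant.UU_close (H : Quant k N K T ε w Ex) (hε0 : 0 ≤ ε) (hε : ε ≤ 1) (i : I0 N)
    (z : Torus 2) : |UU w i z - UU cs i z| ≤ 3 * ε := by
  obtain ⟨h1, h2, h3, h4⟩ := rho_le i.1
  have a1 := H.abs_le hε (s := i.2.1) h1 h2 (z 0)
  have c1 := H.close i.2.1 _ h1 h2 (z 0)
  have c2 := H.close i.2.2 _ h3 h4 (z 1)
  have d2 := cs_abs i.2.2 i.1.1.2 (z 1)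
  unfold UU
  have e : w i.2.1 i.1.1.1 (z 0) * w i.2.2 i.1.1.2 (z 1) - cs i.2.1 i.1.1.1 (z 0) *
      cs i.2.2 i.1.1.2 (z 1) = w i.2.1 i.1.1.1 (z 0) * (w i.2.2 i.1.1.2 (z 1) -
      cs i.2.2 i.1.1.2 (z 1)) + (w i.2.1 i.1.1.1 (z 0) - cs i.2.1 i.1.1.1 (z 0)) *
      cs i.2.2 i.1.1.2 (z 1) := by ring
  rw [e]
  refine (abs_add_le _ _).trans ?_
  rw [abs_mul, abs_mul]
  have b1 : |w i.2.1 i.1.1.1 (z 0)| * |w i.2.2 i.1.1.2 (z 1) - cs i.2.2 i.1.1.2 (z 1)| ≤ 2 * ε := by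
    gcongr
  have b2 : |w i.2.1 i.1.1.1 (z 0) - cs i.2.1 i.1.1.1 (z 0)| * |cs i.2.2 i.1.1.2 (z 1)| ≤ ε * 1 := by
    gcongr
  linarith

lemma card_I0 (N : ℕ) : (Fintype.card (I0 N) : ℝ) = 4 * (rho N).card := by
  rw [Fintype.card_prod, Fintype.card_prod, Fintype.card_bool, Fintype.card_coe]
  push_cast
  ring

/-- the sum over the product functions is the kernel -/
lemma sum_UU (z y : Torus 2) :
    (1 / ((rho N).card : ℝ)) * ∑ i : I0 N, UU cs i z * UU cs i y = ker N (z - y) := by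
  unfold ker
  congr 1
  rw [← Finset.sum_coe_sort (rho N), Fintype.sum_prod_type]
  apply Finset.sum_congr rfl
  intro p _
  rw [Fintype.sum_prod_type, Fintype.sum_bool, Fintype.sum_bool, Fintype.sum_bool]
  simp only [UU, cs, Pi.sub_apply, csF_sub]
  ring

lemma ker_zero (hN : 1 ≤ N) : ker N 0 = 1 := by
  have hcard : 1 ≤ (rho N).card := by
    rw [Nat.one_le_iff_ne_zero, Finset.card_ne_zero]
    refine ⟨(1, 1), ?_⟩
    simp only [rho, Finset.mem_filter, Finset.mem_product, Finset.mem_Icc]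
    omega
  have hc : (0 : ℝ) < (rho N).card := by exact_mod_cast hcard
  unfold ker
  have h1 : ∀ n : ℤ, csF false n 0 = 1 := by
    intro n
    change (fourier n (0 : UnitAddCircle) : ℂ).re = 1
    rw [fourier_eval_zero]
    simp
  simp only [Pi.zero_apply, h1, mul_one, Finset.sum_const, nsmul_eq_mul]
  field_simp

/-- coefficients -/
noncomputable def al (w : Bool → ℕ → C(UnitAddCircle, ℝ)) (N : ℕ) {n : ℕ} (x : Fin n → Torus 2)
    (i : I0 N) : ℝ := (1 / ((rho N).card : ℝ)) * ∑ j, UU w i (x j)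

/-- residual -/
noncomputable def res (w : Bool → ℕ → C(UnitAddCircle, ℝ)) (N : ℕ) {n : ℕ} (x : Fin n → Torus 2)
    (j : Fin n) : ℝ := 1 - ∑ i : I0 N, al w N x i * UU w i (x j)

lemma res_cs (hN : 1 ≤ N) {m : ℕ} (x : Fin (m + 1) → Torus 2) (j : Fin (m + 1)) :
    res cs N x j = -∑ l : Fin m, ker N (x j - x (j.succAbove l)) := by
  unfold res al
  have h1 : ∑ i : I0 N, (1 / ((rho N).card : ℝ)) * (∑ j, UU cs i (x j)) * UU cs i (x j)
      = ∑ l, ker N (x j - x l) := by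
    simp only [← sum_UU]
    rw [← Finset.mul_sum, Finset.sum_comm, Finset.mul_sum]
    apply Finset.sum_congr rfl
    intro i _
    rw [← Finset.mul_sum]
    ring
  rw [h1, Fin.sum_univ_succAbove _ j, sub_self, ker_zero hN]
  ring

lemma Quant.res_close (H : Quant k N K T ε w Ex) (hε0 : 0 ≤ ε) (hε : ε ≤ 1) (hN : 1 ≤ N) {n : ℕ}
    (x : Fin n → Torus 2) (j : Fin n) : |res w N x j - res cs N x j| ≤ 60 * n * ε := by
  have hcard : 1 ≤ (rho N).card := by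
    rw [Nat.one_le_iff_ne_zero, Finset.card_ne_zero]
    refine ⟨(1, 1), ?_⟩
    simp only [rho, Finset.mem_filter, Finset.mem_product, Finset.mem_Icc]
    omega
  have hc : (0 : ℝ) < (rho N).card := by exact_mod_cast hcard
  unfold res al
  have e : 1 - ∑ i : I0 N, 1 / ((rho N).card : ℝ) * (∑ l, UU w i (x l)) * UU w i (x j)
      - (1 - ∑ i : I0 N, 1 / ((rho N).card : ℝ) * (∑ l, UU cs i (x l)) * UU cs i (x j))
      = (1 / ((rho N).card : ℝ)) * ∑ i : I0 N, ∑ l,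
        (UU cs i (x l) * UU cs i (x j) - UU w i (x l) * UU w i (x j)) := by
    rw [Finset.mul_sum]
    rw [show ∀ a b : ℝ, 1 - a - (1 - b) = b - a by intro a b; ring, ← Finset.sum_sub_distrib]
    apply Finset.sum_congr rfl
    intro i _
    rw [Finset.sum_sub_distrib, ← Finset.sum_mul, ← Finset.sum_mul]
    ring
  rw [e, abs_mul, abs_of_pos (by positivity)]
  have h1 : ∀ (i : I0 N) (l : Fin n),
      |UU cs i (x l) * UU cs i (x j) - UU w i (x l) * UU w i (x j)| ≤ 15 * ε := by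
    intro i l
    have e2 : UU cs i (x l) * UU cs i (x j) - UU w i (x l) * UU w i (x j)
        = -(UU w i (x l) * (UU w i (x j) - UU cs i (x j)) + (UU w i (x l) - UU cs i (x l)) *
          UU cs i (x j)) := by ring
    rw [e2, abs_neg]
    refine (abs_add_le _ _).trans ?_
    rw [abs_mul, abs_mul]
    have b1 : |UU w i (x l)| * |UU w i (x j) - UU cs i (x j)| ≤ 4 * (3 * ε) := by
      gcongr
      · exact H.UU_abs hε i _
      · exact H.UU_close hε0 hε i _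
    have b2 : |UU w i (x l) - UU cs i (x l)| * |UU cs i (x j)| ≤ 3 * ε * 1 := by
      gcongr
      · exact H.UU_close hε0 hε i _
      · exact UU_cs_abs i _
    linarith
  calc 1 / ((rho N).card : ℝ) * |∑ i : I0 N, ∑ l,
        (UU cs i (x l) * UU cs i (x j) - UU w i (x l) * UU w i (x j))|
      ≤ 1 / ((rho N).card : ℝ) * ∑ i : I0 N, ∑ _l : Fin n, 15 * ε := by
        gcongr
        refine (Finset.abs_sum_le_sum_abs _ _).trans (Finset.sum_le_sum fun i _ => ?_)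
        exact (Finset.abs_sum_le_sum_abs _ _).trans (Finset.sum_le_sum fun l _ => h1 i l)
    _ = 60 * n * ε := by
        rw [Finset.sum_const, Finset.card_univ, nsmul_eq_mul, card_I0, Finset.sum_const,
          Finset.card_univ, Fintype.card_fin, nsmul_eq_mul]
        field_simp
        ring

end Fixed

end Pool.Agent.Helper579.Mix
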