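import Mathlib
import Pool.Agent.Helper579.MixLow1

set_option autoImplicit false

namespace Pool.Agent.Helper579.Mix

open MeasureTheory ProbabilityTheory Filter AddCircle
open scoped ENNReal Topology

section General

variable {E : Type} [MeasurableSpace E] {ν : Measure E} [IsProbabilityMeasure ν]

lemma bad_prob {m : ℕ} {A B : Set E} (hA : MeasurableSet A) (hB : MeasurableSet B) :
    ∫⁻ y, ({y : Fin m → E | (∃ j, y j ∈ A) ∧ ∃ j, y j ∈ B}.indicator 1 y)
        ∂(Measure.pi fun _ : Fin m => ν)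
      ≤ m ^ 2 * (ν A * ν B) + m * ν (A ∩ B) := by
  classical
  set π := Measure.pi fun _ : Fin m => ν with hπ
  have hAi : Measurable (A.indicator (1 : E → ℝ≥0∞)) := measurable_one.indicator hA
  have hBi : Measurable (B.indicator (1 : E → ℝ≥0∞)) := measurable_one.indicator hB
  have h1 : ∀ y : Fin m → E, ({y : Fin m → E | (∃ j, y j ∈ A) ∧ ∃ j, y j ∈ B}.indicator 1 y : ℝ≥0∞)
      ≤ ∑ j, ∑ j', A.indicator 1 (y j) * B.indicator 1 (y j') := by
    intro y
    by_cases hy : (∃ j, y j ∈ A) ∧ ∃ j, y j ∈ B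
    · obtain ⟨⟨j, hj⟩, j', hj'⟩ := hy
      have e1 : ({y : Fin m → E | (∃ j, y j ∈ A) ∧ ∃ j, y j ∈ B}.indicator 1 y : ℝ≥0∞) = 1 :=
        Set.indicator_of_mem (show y ∈ {y : Fin m → E | (∃ j, y j ∈ A) ∧ ∃ j, y j ∈ B} from
          ⟨⟨j, hj⟩, j', hj'⟩) _
      rw [e1]
      calc (1 : ℝ≥0∞) = A.indicator 1 (y j) * B.indicator 1 (y j') := by simp [hj, hj']
        _ ≤ ∑ j', A.indicator 1 (y j) * B.indicator 1 (y j') :=
            Finset.single_le_sum (f := fun j' => A.indicator (1 : E → ℝ≥0∞) (y j)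
              * B.indicator (1 : E → ℝ≥0∞) (y j')) (fun _ _ => zero_le) (Finset.mem_univ j')
        _ ≤ _ := Finset.single_le_sum (f := fun j => ∑ j', A.indicator (1 : E → ℝ≥0∞) (y j)
              * B.indicator (1 : E → ℝ≥0∞) (y j')) (fun _ _ => zero_le) (Finset.mem_univ j)
    · rw [Set.indicator_of_notMem (by exact hy)]
      exact zero_le
  calc ∫⁻ y, ({y : Fin m → E | (∃ j, y j ∈ A) ∧ ∃ j, y j ∈ B}.indicator 1 y) ∂π
      ≤ ∫⁻ y, ∑ j, ∑ j', A.indicator 1 (y j) * B.indicator 1 (y j') ∂π := lintegral_mono h1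
    _ = ∑ j, ∑ j', ∫⁻ y, A.indicator 1 (y j) * B.indicator 1 (y j') ∂π := by
        have hmm : ∀ j j', Measurable fun y : Fin m → E =>
          (A.indicator (1 : E → ℝ≥0∞) (y j) * B.indicator (1 : E → ℝ≥0∞) (y j')) := fun j j' =>
          ((hAi.comp (measurable_pi_apply _)).mul (hBi.comp (measurable_pi_apply _)))
        rw [lintegral_finsetSum _ fun j _ => Finset.measurable_fun_sum _ fun j' _ => hmm j j']
        apply Finset.sum_congr rfl
        intro j _
        rw [lintegral_finsetSum _ fun j' _ => hmm j j']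
    _ ≤ ∑ j : Fin m, ∑ j' : Fin m, (ν A * ν B + if j = j' then ν (A ∩ B) else 0) := by
        apply Finset.sum_le_sum
        intro j _
        apply Finset.sum_le_sum
        intro j' _
        exact pair_prob hA hB j j'
    _ = _ := by
        simp only [Finset.sum_add_distrib, Finset.sum_const, Finset.card_univ,
          Fintype.card_fin, nsmul_eq_mul, Finset.sum_ite_eq, Finset.mem_univ, if_true]
        ring

end General

lemma haar_ball (c : UnitAddCircle) (r : ℝ) :
    haar (Metric.ball c r) ≤ ENNReal.ofReal (2 * r) :=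
  (measure_mono Metric.ball_subset_closedBall).trans (haar_closedBall c r)

/-- strips -/
def strip (c : Fin 2) (t : Torus 2) (r : ℝ) : Set (Torus 2) := {y | ‖y c - t c‖ < r}

lemma strip_eq (c : Fin 2) (t : Torus 2) (r : ℝ) :
    strip c t r = (fun y : Torus 2 => y c) ⁻¹' Metric.ball (t c) r := by
  ext y
  simp only [strip, Set.mem_ofPred_eq, Set.mem_preimage, mem_ball_iff_norm]

lemma measurableSet_strip (c : Fin 2) (t : Torus 2) (r : ℝ) : MeasurableSet (strip c t r) := by
  rw [strip_eq]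
  exact (measurable_pi_apply c) Metric.isOpen_ball.measurableSet

lemma unif_strip (c : Fin 2) (t : Torus 2) (r : ℝ) :
    unif 2 (strip c t r) ≤ ENNReal.ofReal (2 * r) := by
  rw [strip_eq]
  have h := (measurePreserving_eval (fun _ : Fin 2 => haar) c).measure_preimage
    (Metric.isOpen_ball (x := t c) (ε := r)).measurableSet.nullMeasurableSet
  have h2 : unif 2 ((fun y : Torus 2 => y c) ⁻¹' Metric.ball (t c) r)
      = haar (Metric.ball (t c) r) := h
  rw [h2]
  exact haar_ball _ _

lemma unif_strip_inter (t : Torus 2) (r : ℝ) :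
    unif 2 (strip 0 t r ∩ strip 1 t r) ≤ ENNReal.ofReal (2 * r) * ENNReal.ofReal (2 * r) := by
  have h1 : strip 0 t r ∩ strip 1 t r = Set.univ.pi fun i => Metric.ball (t i) r := by
    ext y
    simp only [strip, Set.mem_inter_iff, Set.mem_ofPred_eq, Set.mem_pi, Set.mem_univ,
      forall_true_left, Fin.forall_fin_two, mem_ball_iff_norm]
  rw [h1]
  unfold unif
  rw [Measure.pi_pi, Fin.prod_univ_two]
  gcongr <;> exact haar_ball _ _

/-- the bad event for the point `i` -/
def badS {m : ℕ} (r : ℝ) (i : Fin (m + 1)) : Set (Fin (m + 1) → Torus 2) :=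
  {x | (∃ j : Fin m, x (i.succAbove j) ∈ strip 0 (x i) r) ∧
    ∃ j : Fin m, x (i.succAbove j) ∈ strip 1 (x i) r}

def badP {m : ℕ} (r : ℝ) : Set (Torus 2 × (Fin m → Torus 2)) :=
  {p | (∃ j : Fin m, p.2 j ∈ strip 0 p.1 r) ∧ ∃ j : Fin m, p.2 j ∈ strip 1 p.1 r}

lemma isOpen_badP {m : ℕ} (r : ℝ) : IsOpen (badP (m := m) r) := by
  have h1 : ∀ c : Fin 2, IsOpen {p : Torus 2 × (Fin m → Torus 2) | ∃ j : Fin m, p.2 j ∈ strip c p.1 r} := by
    intro c
    have : {p : Torus 2 × (Fin m → Torus 2) | ∃ j : Fin m, p.2 j ∈ strip c p.1 r}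
        = ⋃ j : Fin m, {p | ‖p.2 j c - p.1 c‖ < r} := by
      ext p
      simp [strip]
    rw [this]
    apply isOpen_iUnion
    intro j
    exact isOpen_lt (by fun_prop) continuous_const
  exact (h1 0).inter (h1 1)

lemma measurable_badS {m : ℕ} (r : ℝ) (i : Fin (m + 1)) : MeasurableSet (badS r i) := by
  have h1 : badS r i = (fun x : Fin (m + 1) → Torus 2 => (x i, fun j => x (i.succAbove j))) ⁻¹'
      badP r := rfl
  rw [h1]
  apply IsOpen.measurableSet
  exact (isOpen_badP r).preimage (by fun_prop)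

/-- the points -/
noncomputable abbrev Pn (n : ℕ) : Measure (Fin n → Torus 2) := Measure.pi fun _ => unif 2

lemma res_sq_meas (N m : ℕ) : Measurable fun p : Torus 2 × (Fin m → Torus 2) =>
    ENNReal.ofReal ((∑ l, ker N (p.1 - p.2 l)) ^ 2) := by
  apply Measurable.ennreal_ofReal
  have := ker_cont N
  apply Continuous.measurable
  fun_prop

lemma ker_memLp (N : ℕ) (t : Torus 2) : MemLp (fun y => ker N (t - y)) 2 (unif 2) := by
  have := ker_cont N
  apply memLp_bdd (C := 1)
  · apply Continuous.measurable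
    fun_prop
  · intro y
    exact ker_abs_le _ _

lemma E0 {N m : ℕ} (hN : 1 ≤ N) (j : Fin (m + 1)) :
    ∫⁻ x, ENNReal.ofReal ((res cs N x j) ^ 2) ∂Pn (m + 1)
      ≤ ENNReal.ofReal (m / (rho N).card) := by
  have h1 : ∀ x : Fin (m + 1) → Torus 2, ENNReal.ofReal ((res cs N x j) ^ 2)
      = (fun (t : Torus 2) (y : Fin m → Torus 2) => ENNReal.ofReal ((∑ l, ker N (t - y l)) ^ 2))
        (x j) (fun l => x (j.succAbove l)) := by
    intro x
    rw [res_cs hN, neg_sq]
  simp only [h1]
  apply disint j (g := fun (t : Torus 2) (y : Fin m → Torus 2) =>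
    ENNReal.ofReal ((∑ l, ker N (t - y l)) ^ 2)) (res_sq_meas N m)
  intro t
  apply pi_second (X := fun (_ : Fin m) (y : Torus 2) => ker N (t - y)) (fun _ => ker_memLp N t)
    (fun _ => ker_int N t)
  calc ∑ _i : Fin m, ∫ y, ker N (t - y) ^ 2 ∂unif 2 ≤ ∑ _i : Fin m, 1 / ((rho N).card : ℝ) :=
        Finset.sum_le_sum fun _ _ => ker_int_sq N hN t
    _ = _ := by simp [div_eq_mul_inv]

lemma E1 {N m : ℕ} (hN : 1 ≤ N) (r : ℝ) (j : Fin (m + 1)) :
    ∫⁻ x, ENNReal.ofReal ((res cs N x j) ^ 2) * (badS r j).indicator 1 x ∂Pn (m + 1)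
      ≤ ENNReal.ofReal (8 + 2 * m * (1 / (rho N).card)) *
        ((m ^ 2 + m) * (ENNReal.ofReal (2 * r) * ENNReal.ofReal (2 * r))) := by
  have h1 : ∀ x : Fin (m + 1) → Torus 2,
      ENNReal.ofReal ((res cs N x j) ^ 2) * (badS r j).indicator 1 x
      = (fun (t : Torus 2) (y : Fin m → Torus 2) => ENNReal.ofReal ((∑ l, ker N (t - y l)) ^ 2)
        * ({y : Fin m → Torus 2 | (∃ j, y j ∈ strip 0 t r) ∧ ∃ j, y j ∈ strip 1 t r}.indicator 1 y))
        (x j) (fun l => x (j.succAbove l)) := by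
    intro x
    rw [res_cs hN, neg_sq]
    rfl
  simp only [h1]
  apply disint j (g := fun (t : Torus 2) (y : Fin m → Torus 2) =>
    ENNReal.ofReal ((∑ l, ker N (t - y l)) ^ 2)
        * ({y : Fin m → Torus 2 | (∃ j, y j ∈ strip 0 t r) ∧ ∃ j, y j ∈ strip 1 t r}.indicator 1 y))
  · have h2 : Measurable fun p : Torus 2 × (Fin m → Torus 2) => (badP r).indicator
        (1 : Torus 2 × (Fin m → Torus 2) → ℝ≥0∞) p :=
      measurable_one.indicator (isOpen_badP r).measurableSet
    exact (res_sq_meas N m).mul h2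
  · intro t
    have := ker_cont N
    refine (bad_est (φ := fun y => ker N (t - y)) (by apply Continuous.measurable; fun_prop)
      (fun y => ker_abs_le _ _) (ker_int N t) (s := 1 / ((rho N).card : ℝ)) (by positivity)
      (ker_int_sq N hN t) (measurableSet_strip 0 t r) (measurableSet_strip 1 t r)).trans ?_
    gcongr
    rw [add_mul]
    gcongr
    · exact unif_strip 0 t r
    · exact unif_strip 1 t r
    · exact unif_strip_inter t r

lemma P1 {m : ℕ} (r : ℝ) (j : Fin (m + 1)) :
    Pn (m + 1) (badS r j) ≤ (m ^ 2 + m) * (ENNReal.ofReal (2 * r) * ENNReal.ofReal (2 * r)) := by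
  rw [← lintegral_indicator_one (measurable_badS r j)]
  have h1 : ∀ x : Fin (m + 1) → Torus 2, (badS r j).indicator
      (1 : (Fin (m + 1) → Torus 2) → ℝ≥0∞) x
      = (fun (t : Torus 2) (y : Fin m → Torus 2) =>
        ({y : Fin m → Torus 2 | (∃ j, y j ∈ strip 0 t r) ∧ ∃ j, y j ∈ strip 1 t r}.indicator
          (1 : (Fin m → Torus 2) → ℝ≥0∞) y)) (x j) (fun l => x (j.succAbove l)) := by
    intro x
    rfl
  simp only [h1]
  apply disint j (g := fun (t : Torus 2) (y : Fin m → Torus 2) =>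
        ({y : Fin m → Torus 2 | (∃ j, y j ∈ strip 0 t r) ∧ ∃ j, y j ∈ strip 1 t r}.indicator
          (1 : (Fin m → Torus 2) → ℝ≥0∞) y))
  · have h2 : Measurable fun p : Torus 2 × (Fin m → Torus 2) => (badP r).indicator
        (1 : Torus 2 × (Fin m → Torus 2) → ℝ≥0∞) p :=
      measurable_one.indicator (isOpen_badP r).measurableSet
    exact h2
  · intro t
    refine (bad_prob (measurableSet_strip 0 t r) (measurableSet_strip 1 t r)).trans ?_
    rw [add_mul]
    gcongr
    · exact unif_strip 0 t r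
    · exact unif_strip 1 t r
    · exact unif_strip_inter t r

lemma UU_cs_cont {N : ℕ} (i : I0 N) : Continuous (UU cs i) := by
  unfold UU
  fun_prop

lemma E2 {N n : ℕ} (i : I0 N) :
    ∫⁻ x, ENNReal.ofReal ((∑ j, UU cs i (x j)) ^ 2) ∂Pn n ≤ ENNReal.ofReal n := by
  apply pi_second (X := fun (_ : Fin n) (y : Torus 2) => UU cs i y)
  · intro _
    exact memLp_bdd (UU_cs_cont i).measurable (fun y => UU_cs_abs i y)
  · intro _
    unfold UU
    rw [int2 (fun s => cs i.2.1 i.1.1.1 s) (fun s => cs i.2.2 i.1.1.2 s)]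
    obtain ⟨h1, _⟩ := rho_le i.1
    unfold cs
    rw [int_csF _ (by omega), zero_mul]
  · calc ∑ _i : Fin n, ∫ y, UU cs i y ^ 2 ∂unif 2 ≤ ∑ _i : Fin n, (1 : ℝ) := by
          apply Finset.sum_le_sum
          intro _ _
          calc ∫ y, UU cs i y ^ 2 ∂unif 2 ≤ ∫ _, (1 : ℝ) ∂unif 2 := by
                apply integral_mono
                · apply integrable_cont_real
                  have := UU_cs_cont i
                  fun_prop
                · exact integrable_const _
                · intro y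
                  have := UU_cs_abs i y
                  simp only
                  rw [← sq_abs]
                  nlinarith [abs_nonneg (UU cs i y)]
            _ = 1 := by simp
      _ = n := by simp

end Pool.Agent.Helper579.Mix
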