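import Mathlib
import Pool.Agent.Helper579.MixLow2

set_option autoImplicit false

namespace Pool.Agent.Helper579.Mix

open MeasureTheory ProbabilityTheory Filter AddCircle
open scoped ENNReal Topology

lemma inj_sum {ι H : Type} [Fintype ι] [Fintype H] [DecidableEq H] (f : ι → H) (c : ι → ℝ)
    (F : H → ℝ) : ∑ h, F h * (∑ i, if f i = h then c i else 0) = ∑ i, F (f i) * c i := by
  simp only [Finset.mul_sum, mul_ite, mul_zero]
  rw [Finset.sum_comm]
  apply Finset.sum_congr rfl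
  intro i _
  simp

lemma inj_sum_sq {ι H : Type} [Fintype ι] [Fintype H] [DecidableEq H] {f : ι → H}
    (hf : Function.Injective f) (c : ι → ℝ) (F : H → ℝ) :
    ∑ h, F h * (∑ i, if f i = h then c i else 0) ^ 2 = ∑ i, F (f i) * c i ^ 2 := by
  rw [← inj_sum f (fun i => c i ^ 2) F]
  apply Finset.sum_congr rfl
  intro h _
  congr 1
  by_cases hh : ∃ i, f i = h
  · obtain ⟨i, rfl⟩ := hh
    have h1 : ∀ j, (f j = f i) ↔ j = i := fun j => ⟨fun e => hf e, fun e => by rw [e]⟩
    have h2 : ∀ (g : ι → ℝ), (∑ j, if f j = f i then g j else 0) = g i := by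
      intro g
      rw [Finset.sum_eq_single i]
      · simp
      · intro j _ hj
        rw [if_neg (fun e => hj ((h1 j).1 e))]
      · simp
    rw [h2, h2]
  · push Not at hh
    simp [hh]

/-- resolution of the levels -/
def Rq (n q : ℕ) : ℕ := n * 2 ^ q

/-- index set of the trapezoids -/
abbrev HI (n Q : ℕ) : Type := Σ q : Fin (Q + 1), Bool × Fin (Rq n q)

/-- the full index set -/
abbrev DI (N n Q : ℕ) : Type := Unit ⊕ (I0 N ⊕ HI n Q)

lemma cs_zero (x : UnitAddCircle) : cs false 0 x = 1 := by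
  change (fourier ((0 : ℕ) : ℤ) x : ℂ).re = 1
  simp

/-- coordinate of a trapezoid -/
def cb (b : Bool) : Fin 2 := if b then 1 else 0

noncomputable def vert (n q v : ℕ) : UnitAddCircle := (((v : ℝ) / (Rq n q : ℝ) : ℝ) : UnitAddCircle)

/-- the functions -/
noncomputable def uD (w : Bool → ℕ → C(UnitAddCircle, ℝ)) (N n Q : ℕ) : DI N n Q → C(Torus 2, ℝ)
  | Sum.inl _ => tens (cs false 0) (cs false 0)
  | Sum.inr (Sum.inl i) => tens (w i.2.1 i.1.1.1) (w i.2.2 i.1.1.2)
  | Sum.inr (Sum.inr ⟨q, b, v⟩) =>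
      if b then tens (cs false 0) (trap (Rq n q) (vert n q v))
      else tens (trap (Rq n q) (vert n q v)) (cs false 0)

lemma uD_hat (w : Bool → ℕ → C(UnitAddCircle, ℝ)) (N n Q : ℕ) (q : Fin (Q + 1)) (b : Bool)
    (v : Fin (Rq n q)) (z : Torus 2) :
    uD w N n Q (Sum.inr (Sum.inr ⟨q, b, v⟩)) z = trap (Rq n q) (vert n q v) (z (cb b)) := by
  cases b
  · change (trap (Rq n q) (vert n q v)) (z 0) * cs false 0 (z 1) = _
    rw [cs_zero, mul_one]
    rfl
  · change cs false 0 (z 0) * (trap (Rq n q) (vert n q v)) (z 1) = _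
    rw [cs_zero, one_mul]
    rfl

lemma uD_const (w : Bool → ℕ → C(UnitAddCircle, ℝ)) (N n Q : ℕ) (u : Unit) (z : Torus 2) :
    uD w N n Q (Sum.inl u) z = 1 := by
  change cs false 0 (z 0) * cs false 0 (z 1) = 1
  rw [cs_zero, cs_zero, mul_one]

lemma uD_mid (w : Bool → ℕ → C(UnitAddCircle, ℝ)) (N n Q : ℕ) (i : I0 N) (z : Torus 2) :
    uD w N n Q (Sum.inr (Sum.inl i)) z = UU w i z := rfl

/-- nearest vertex -/
lemma exists_vert {n q : ℕ} (hn : 1 ≤ n) (z : UnitAddCircle) :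
    ∃ v : Fin (Rq n q), ‖z - vert n q v‖ ≤ 1 / (2 * (Rq n q : ℝ)) := by
  have hR : 1 ≤ Rq n q := Nat.one_le_iff_ne_zero.2 (by unfold Rq; positivity)
  have hR0 : (0 : ℝ) < Rq n q := by exact_mod_cast hR
  obtain ⟨t, ht, _⟩ := exists_rep z
  set R := Rq n q
  set r : ℤ := round (t * R) with hr
  have hmod0 : 0 ≤ r % (R : ℤ) := Int.emod_nonneg _ (by omega)
  have hmod1 : r % (R : ℤ) < R := Int.emod_lt_of_pos _ (by omega)
  refine ⟨⟨(r % (R : ℤ)).toNat, by omega⟩, ?_⟩
  have e1 : vert n q (r % (R : ℤ)).toNat = (((r : ℝ) / R : ℝ) : UnitAddCircle) := by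
    unfold vert
    have h1 : (((r % (R : ℤ)).toNat : ℕ) : ℝ) = ((r % (R : ℤ) : ℤ) : ℝ) := by
      rw [← Int.cast_natCast, Int.toNat_of_nonneg hmod0]
    rw [h1]
    have h2 : ((r % (R : ℤ) : ℤ) : ℝ) = r - R * ((r / (R : ℤ) : ℤ) : ℝ) := by
      have := Int.emod_add_mul_ediv r (R : ℤ)
      have h3 : ((r % (R : ℤ) + (R : ℤ) * (r / (R : ℤ)) : ℤ) : ℝ) = r := by rw [this]
      push_cast at h3
      linarith
    rw [h2, sub_div, mul_div_cancel_left₀ _ hR0.ne', AddCircle.coe_sub]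
    have h4 : (((r / (R : ℤ) : ℤ) : ℝ) : UnitAddCircle) = 0 := by
      rw [AddCircle.coe_eq_zero_iff]
      exact ⟨r / (R : ℤ), by simp⟩
    rw [h4, sub_zero]
  change ‖z - vert n q (r % (R : ℤ)).toNat‖ ≤ _
  rw [e1, ← ht, ← AddCircle.coe_sub, UnitAddCircle.norm_eq]
  refine (round_le _ 0).trans ?_
  rw [Int.cast_zero, sub_zero]
  have h5 : |t * R - r| ≤ 1 / 2 := abs_sub_round _
  have e2 : t - (r : ℝ) / R = (t * R - r) / R := by field_simp
  rw [e2, abs_div, abs_of_pos hR0, div_le_div_iff₀ hR0 (by positivity)]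
  nlinarith

/-- level radius -/
noncomputable def rq (n q : ℕ) : ℝ := 3 / (2 * (Rq n q : ℝ))

/-- the events in the cost -/
def tq {m : ℕ} (q : ℕ) (j : Fin (m + 1)) : Set (Fin (m + 1) → Torus 2) :=
  if q = 0 then Set.univ else badS (rq (m + 1) (q - 1)) j

/-- choice of a trapezoid for each point -/
lemma exists_hat {m Q : ℕ} (w : Bool → ℕ → C(UnitAddCircle, ℝ)) (N : ℕ)
    (x : Fin (m + 1) → Torus 2) (j : Fin (m + 1)) (hx : x ∉ badS (rq (m + 1) Q) j) :
    ∃ h : HI (m + 1) Q, x ∈ tq (h.1 : ℕ) j ∧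
      uD w N (m + 1) Q (Sum.inr (Sum.inr h)) (x j) = 1 ∧
      ∀ l, l ≠ j → uD w N (m + 1) Q (Sum.inr (Sum.inr h)) (x l) = 0 := by
  classical
  have hex : ∃ q, x ∉ badS (rq (m + 1) q) j := ⟨Q, hx⟩
  set q := Nat.find hex with hq
  have hq1 : x ∉ badS (rq (m + 1) q) j := Nat.find_spec hex
  have hq2 : q ≤ Q := Nat.find_min' hex hx
  have hq3 : x ∈ tq q j := by
    unfold tq
    split_ifs with h
    · trivial
    · by_contra hcon
      have := Nat.find_min' hex hcon
      omega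
  have hR : 1 ≤ Rq (m + 1) q := Nat.one_le_iff_ne_zero.2 (by unfold Rq; positivity)
  have hR0 : (0 : ℝ) < Rq (m + 1) q := by exact_mod_cast hR
  have hc : ∃ b : Bool, ∀ l : Fin m, x (j.succAbove l) ∉ strip (cb b) (x j) (rq (m + 1) q) := by
    simp only [badS, Set.mem_ofPred_eq, not_and_or, not_exists] at hq1
    rcases hq1 with h | h
    · exact ⟨false, h⟩
    · exact ⟨true, h⟩
  obtain ⟨b, hb⟩ := hc
  obtain ⟨v, hv⟩ := exists_vert (n := m + 1) (q := q) (by omega) (x j (cb b))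
  refine ⟨⟨⟨q, by omega⟩, b, v⟩, hq3, ?_, ?_⟩
  · rw [uD_hat]
    exact trap_one hR0 hv
  · intro l hl
    obtain ⟨l', rfl⟩ := Fin.exists_succAbove_eq hl
    rw [uD_hat]
    apply trap_zero hR0
    have h1 := hb l'
    simp only [strip, Set.mem_ofPred_eq, not_lt] at h1
    have h2 : ‖x (j.succAbove l') (cb b) - x j (cb b)‖
        ≤ ‖x (j.succAbove l') (cb b) - vert (m + 1) q v‖ + ‖x j (cb b) - vert (m + 1) q v‖ := by
      have e : x (j.succAbove l') (cb b) - x j (cb b)
          = (x (j.succAbove l') (cb b) - vert (m + 1) q v) - (x j (cb b) - vert (m + 1) q v) := by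
        abel
      rw [e]
      exact norm_sub_le _ _
    have h3 : rq (m + 1) q = 1 / (Rq (m + 1) q : ℝ) + 1 / (2 * (Rq (m + 1) q : ℝ)) := by
      unfold rq
      field_simp
      ring
    change 1 / (Rq (m + 1) q : ℝ) ≤ ‖x (j.succAbove l') (cb b) - vert (m + 1) q v‖
    linarith

/-- growth of the cost of the levels -/
noncomputable def be (k : ℝ) : ℝ := (2 : ℝ) ^ (1 + k)

/-- the first cost -/
noncomputable def cost1 (k : ℝ) (w : Bool → ℕ → C(UnitAddCircle, ℝ)) (N : ℕ) {n : ℕ}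
    (x : Fin n → Torus 2) : ℝ :=
  (rho N).card * (N : ℝ) ^ (2 * k) * ∑ i : I0 N, al w N x i ^ 2

/-- the second cost -/
noncomputable def cost2 (k : ℝ) (w : Bool → ℕ → C(UnitAddCircle, ℝ)) (N Q : ℕ) {m : ℕ}
    (x : Fin (m + 1) → Torus 2) : ℝ :=
  ∑ j, ∑ q : Fin (Q + 1), ((m + 1 : ℕ) : ℝ) ^ (2 * k) * be k ^ (q : ℕ) *
    ((tq (q : ℕ) j).indicator (fun x => res w N x j ^ 2) x)

/-- scales of the integer lattice -/
noncomputable def dl (lam : ℝ) (N K T : ℕ) (n Q : ℕ) : DI N n Q → ℝ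
  | Sum.inl _ => lam
  | Sum.inr (Sum.inl _) => lam / ((rho N).card * ((K : ℝ) * T) ^ 2)
  | Sum.inr (Sum.inr _) => lam / ((rho N).card * ((K : ℝ) * T) ^ 4)

/-- variances -/
noncomputable def AA (k ε : ℝ) (N : ℕ) (n Q : ℕ) : DI N n Q → ℝ
  | Sum.inl _ => ε
  | Sum.inr (Sum.inl _) => ε / ((rho N).card * (N : ℝ) ^ (2 * k))
  | Sum.inr (Sum.inr h) => ε / ((n : ℝ) ^ (2 * k) * be k ^ (h.1 : ℕ))

noncomputable def bb (k ε lam : ℝ) (N K T : ℕ) (n Q : ℕ) (m : DI N n Q) : ℝ :=
  dl lam N K T n Q m ^ 2 / AA k ε N n Q m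

lemma card_rho_pos {N : ℕ} (hN : 1 ≤ N) : (0 : ℝ) < (rho N).card := by
  have hcard : 1 ≤ (rho N).card := by
    rw [Nat.one_le_iff_ne_zero, Finset.card_ne_zero]
    refine ⟨(1, 1), ?_⟩
    simp only [rho, Finset.mem_filter, Finset.mem_product, Finset.mem_Icc]
    omega
  exact_mod_cast hcard

/-- the integer vector -/
lemma construct {k ε' ε lam : ℝ} {N K T Q m : ℕ} {w : Bool → ℕ → C(UnitAddCircle, ℝ)}
    {Ex : Bool → ℕ → Set UnitAddCircle} (H : Quant k N K T ε' w Ex) (hN : 1 ≤ N) (hK : 1 ≤ K)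
    (hε : 0 < ε) (x : Fin (m + 1) → Torus 2)
    (hex : ∀ j c, ∀ s, ∀ a, 1 ≤ a → a ≤ N → x j c ∉ Ex s a)
    (hbad : ∀ j, x ∉ badS (rq (m + 1) Q) j) :
    ∃ (y : DI N (m + 1) Q → ℤ) (f : Fin (m + 1) → HI (m + 1) Q),
      (∀ j, ∑ i, dl lam N K T (m + 1) Q i * y i * uD w N (m + 1) Q i (x j) = 0) ∧
      (∑ i, bb k ε lam N K T (m + 1) Q i * (y i : ℝ) ^ 2
        ≤ lam ^ 2 / ε * (1 + cost1 k w N x + cost2 k w N Q x)) ∧
      (∑ i, dl lam N K T (m + 1) Q i * y i * S (uD w N (m + 1) Q i)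
        = lam * (1 - ∑ i, al w N x i * S (uD w N (m + 1) Q (Sum.inr (Sum.inl i)))
          - ∑ j, res w N x j * S (uD w N (m + 1) Q (Sum.inr (Sum.inr (f j)))))) := by
  classical
  have hMc := card_rho_pos hN
  have hT0 : (0 : ℝ) < T := by exact_mod_cast H.hT
  have hK0 : (0 : ℝ) < K := by exact_mod_cast hK
  have hKT : (0 : ℝ) < (K : ℝ) * T := by positivity
  have hZ : ∀ (i : I0 N) (j : Fin (m + 1)), ∃ z : ℤ, UU w i (x j) = z / ((K : ℝ) * T) ^ 2 := by
    intro i j
    obtain ⟨h1, h2, h3, h4⟩ := rho_le i.1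
    obtain ⟨z1, hz1⟩ := H.int i.2.1 _ h1 h2 _ (hex j 0 _ _ h1 h2)
    obtain ⟨z2, hz2⟩ := H.int i.2.2 _ h3 h4 _ (hex j 1 _ _ h3 h4)
    refine ⟨z1 * z2, ?_⟩
    unfold UU
    rw [hz1, hz2]
    push_cast
    field_simp
  choose Z hZ using hZ
  have hh := fun j => exists_hat w N x j (hbad j)
  choose f hf1 hf2 hf3 using hh
  have hinj : Function.Injective f := by
    intro j l hjl
    by_contra hne
    have h1 := hf3 j l (Ne.symm hne)
    rw [hjl, hf2 l] at h1
    exact one_ne_zero h1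
  set zr : Fin (m + 1) → ℤ := fun j => (rho N).card * (K * T) ^ 4 - ∑ i, (∑ l, Z i l) * Z i j with hzr
  have hres : ∀ j, res w N x j = zr j / ((rho N).card * ((K : ℝ) * T) ^ 4) := by
    intro j
    unfold res al
    rw [hzr]
    push_cast
    rw [sub_div, div_self (by positivity), Finset.sum_div]
    congr 1
    apply Finset.sum_congr rfl
    intro i _
    simp only [hZ]
    rw [← Finset.sum_div]
    field_simp
  have hal : ∀ i, al w N x i = ((∑ l, Z i l : ℤ) : ℝ) / ((rho N).card * ((K : ℝ) * T) ^ 2) := by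
    intro i
    unfold al
    simp only [hZ]
    rw [← Finset.sum_div]
    push_cast
    field_simp
  set y : DI N (m + 1) Q → ℤ := fun i => match i with
    | Sum.inl _ => 1
    | Sum.inr (Sum.inl i) => -∑ l, Z i l
    | Sum.inr (Sum.inr h) => -∑ j, if f j = h then zr j else 0 with hy
  -- coefficients
  have c0 : ∀ u : Unit, dl lam N K T (m + 1) Q (Sum.inl u) * y (Sum.inl u) = lam := by
    intro u
    simp [hy, dl]
  have c1 : ∀ i : I0 N, dl lam N K T (m + 1) Q (Sum.inr (Sum.inl i)) * y (Sum.inr (Sum.inl i))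
      = -(lam * al w N x i) := by
    intro i
    simp only [hy, dl]
    rw [hal]
    push_cast
    ring
  have c2 : ∀ h : HI (m + 1) Q,
      dl lam N K T (m + 1) Q (Sum.inr (Sum.inr h)) * y (Sum.inr (Sum.inr h))
      = -(lam * ∑ j, if f j = h then res w N x j else 0) := by
    intro h
    simp only [hy, dl]
    push_cast
    rw [Finset.mul_sum, mul_neg, Finset.mul_sum]
    congr 1
    apply Finset.sum_congr rfl
    intro j _
    split_ifs
    · rw [hres]; ring
    · ring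
  have key : ∀ F : DI N (m + 1) Q → ℝ, ∑ i, dl lam N K T (m + 1) Q i * y i * F i
      = lam * (F (Sum.inl ()) - ∑ i, al w N x i * F (Sum.inr (Sum.inl i))
          - ∑ j, res w N x j * F (Sum.inr (Sum.inr (f j)))) := by
    intro F
    rw [Fintype.sum_sum_type, Fintype.sum_sum_type]
    simp only [c0, c1, c2]
    have e1 : ∑ h : HI (m + 1) Q, -(lam * ∑ j, if f j = h then res w N x j else 0) *
        F (Sum.inr (Sum.inr h)) = -(lam * ∑ j, res w N x j * F (Sum.inr (Sum.inr (f j)))) := by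
      have := inj_sum f (fun j => res w N x j) (fun h => F (Sum.inr (Sum.inr h)))
      rw [Finset.sum_congr rfl fun j _ => mul_comm (res w N x j) _, ← this, Finset.mul_sum,
        ← Finset.sum_neg_distrib]
      apply Finset.sum_congr rfl
      intro h _
      ring
    rw [e1]
    simp only [Finset.univ_unique, Finset.sum_singleton, neg_mul, Finset.sum_neg_distrib]
    have e2 : ∑ i : I0 N, lam * al w N x i * F (Sum.inr (Sum.inl i))
        = lam * ∑ i : I0 N, al w N x i * F (Sum.inr (Sum.inl i)) := by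
      rw [Finset.mul_sum]
      exact Finset.sum_congr rfl fun i _ => by ring
    rw [e2]
    change lam * F (Sum.inl ()) + _ = _
    ring
  refine ⟨y, f, ?_, ?_, ?_⟩
  · intro j
    rw [key (fun i => uD w N (m + 1) Q i (x j))]
    simp only [uD_const, uD_mid]
    have e1 : ∑ l, res w N x l * uD w N (m + 1) Q (Sum.inr (Sum.inr (f l))) (x j)
        = res w N x j := by
      rw [Finset.sum_eq_single j]
      · rw [hf2, mul_one]
      · intro l _ hl
        rw [hf3 l j (Ne.symm hl), mul_zero]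
      · simp
    rw [e1]
    unfold res
    ring
  · have g0 : ∀ i, bb k ε lam N K T (m + 1) Q i * (y i : ℝ) ^ 2
        = (dl lam N K T (m + 1) Q i * y i) ^ 2 / AA k ε N (m + 1) Q i := by
      intro i
      unfold bb
      ring
    simp only [g0]
    rw [Fintype.sum_sum_type, Fintype.sum_sum_type]
    simp only [c0, c1, c2]
    simp only [Finset.univ_unique, Finset.sum_singleton]
    have e1 : ∑ i : I0 N, (-(lam * al w N x i)) ^ 2 / AA k ε N (m + 1) Q (Sum.inr (Sum.inl i))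
        = lam ^ 2 / ε * cost1 k w N x := by
      unfold cost1
      simp only [AA]
      rw [Finset.mul_sum, Finset.mul_sum]
      apply Finset.sum_congr rfl
      intro i _
      have : (0 : ℝ) < (N : ℝ) ^ (2 * k) := Real.rpow_pos_of_pos (by exact_mod_cast hN) _
      field_simp
    have e2 : ∑ h : HI (m + 1) Q, (-(lam * ∑ j, if f j = h then res w N x j else 0)) ^ 2 /
        AA k ε N (m + 1) Q (Sum.inr (Sum.inr h)) ≤ lam ^ 2 / ε * cost2 k w N Q x := by
      have e3 := inj_sum_sq hinj (fun j => res w N x j)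
        (fun h => lam ^ 2 / AA k ε N (m + 1) Q (Sum.inr (Sum.inr h)))
      have e4 : ∑ h : HI (m + 1) Q, (-(lam * ∑ j, if f j = h then res w N x j else 0)) ^ 2 /
        AA k ε N (m + 1) Q (Sum.inr (Sum.inr h)) = ∑ h : HI (m + 1) Q,
          lam ^ 2 / AA k ε N (m + 1) Q (Sum.inr (Sum.inr h)) *
          (∑ j, if f j = h then res w N x j else 0) ^ 2 := by
        apply Finset.sum_congr rfl
        intro h _
        ring
      rw [e4, e3]
      unfold cost2
      rw [Finset.mul_sum]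
      apply Finset.sum_le_sum
      intro j _
      have hbe : (0 : ℝ) < be k := Real.rpow_pos_of_pos (by norm_num) _
      have hterm : ∀ q : Fin (Q + 1), 0 ≤ ((m + 1 : ℕ) : ℝ) ^ (2 * k) * be k ^ (q : ℕ) *
          ((tq (q : ℕ) j).indicator (fun x => res w N x j ^ 2) x) := by
        intro q
        apply mul_nonneg (by positivity)
        exact Set.indicator_nonneg (fun _ _ => sq_nonneg _) _
      have hle := Finset.single_le_sum (f := fun q : Fin (Q + 1) =>
        ((m + 1 : ℕ) : ℝ) ^ (2 * k) * be k ^ (q : ℕ) *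
          ((tq (q : ℕ) j).indicator (fun x => res w N x j ^ 2) x)) (fun q _ => hterm q)
          (Finset.mem_univ (f j).1)
      have hind : (tq (((f j).1 : Fin (Q + 1)) : ℕ) j).indicator (fun x => res w N x j ^ 2) x
          = res w N x j ^ 2 := Set.indicator_of_mem (hf1 j) _
      rw [hind] at hle
      have hmul := mul_le_mul_of_nonneg_left hle (show 0 ≤ lam ^ 2 / ε by positivity)
      refine le_trans (le_of_eq ?_) hmul
      simp only [AA]
      have : (0 : ℝ) < ((m + 1 : ℕ) : ℝ) ^ (2 * k) :=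
        Real.rpow_pos_of_pos (by positivity) _
      field_simp
    rw [e1]
    have e5 : lam ^ 2 / AA k ε N (m + 1) Q (Sum.inl (default : Unit)) = lam ^ 2 / ε := rfl
    rw [e5]
    calc lam ^ 2 / ε + (lam ^ 2 / ε * cost1 k w N x + ∑ h : HI (m + 1) Q,
          (-(lam * ∑ j, if f j = h then res w N x j else 0)) ^ 2 /
          AA k ε N (m + 1) Q (Sum.inr (Sum.inr h)))
        ≤ lam ^ 2 / ε + (lam ^ 2 / ε * cost1 k w N x + lam ^ 2 / ε * cost2 k w N Q x) := by
          gcongr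
      _ = _ := by ring
  · rw [key (fun i => S (uD w N (m + 1) Q i))]
    have e1 : S (uD w N (m + 1) Q (Sum.inl ())) = 1 := by
      unfold S
      simp only [uD_const]
      simp
    rw [e1]

end Pool.Agent.Helper579.Mix
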