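import Mathlib
import Pool.Agent.Helper579.MixLow3

set_option autoImplicit false

namespace Pool.Agent.Helper579.Mix

open MeasureTheory ProbabilityTheory Filter AddCircle
open scoped ENNReal Topology

/-- ratio of the geometric series -/
noncomputable def gg (k : ℝ) : ℝ := (2 : ℝ) ^ (k - 1)

lemma gg_pos (k : ℝ) : 0 < gg k := Real.rpow_pos_of_pos (by norm_num) _

lemma gg_lt_one {k : ℝ} (hk : k < 1) : gg k < 1 :=
  Real.rpow_lt_one_of_one_lt_of_neg (by norm_num) (by linarith)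

lemma be_pos (k : ℝ) : 0 < be k := Real.rpow_pos_of_pos (by norm_num) _

/-- the scale of the prior -/
noncomputable def eps (k : ℝ) : ℝ := 1 / (8 * (435 + 30 / (1 - gg k)))

lemma eps_pos {k : ℝ} (hk : k < 1) : 0 < eps k := by
  have := gg_lt_one hk
  have h : 0 < 1 - gg k := by linarith
  unfold eps
  positivity

lemma geom_le {g : ℝ} (h0 : 0 ≤ g) (h1 : g < 1) (Q : ℕ) :
    ∑ q : Fin (Q + 1), g ^ (q : ℕ) ≤ 1 / (1 - g) := by
  rw [Fin.sum_univ_eq_sum_range (fun q => g ^ q) (Q + 1), one_div]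
  rw [← tsum_geometric_of_lt_one h0 h1]
  exact (summable_geometric_of_lt_one h0 h1).sum_le_tsum _ fun _ _ => pow_nonneg h0 _

lemma Rq_rpow (k : ℝ) {n : ℕ} (q : ℕ) :
    (Rq n q : ℝ) ^ (2 * k) = (n : ℝ) ^ (2 * k) * be k ^ q * gg k ^ q := by
  unfold Rq be gg
  push_cast
  rw [Real.mul_rpow (by positivity) (by positivity), mul_assoc, ← mul_pow,
    ← Real.rpow_add (by norm_num), ← Real.rpow_natCast, ← Real.rpow_natCast, ← Real.rpow_mul
    (by norm_num), ← Real.rpow_mul (by norm_num)]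
  congr 2
  ring

lemma n1_one (k : ℝ) : n1 k (cs false 0) ≤ 1 := by
  refine (n1_csF k false ((0 : ℕ) : ℤ)).trans ?_
  simp

lemma Quant.n1_le {k ε' : ℝ} {N K T : ℕ} {w : Bool → ℕ → C(UnitAddCircle, ℝ)}
    {Ex : Bool → ℕ → Set UnitAddCircle} (H : Quant k N K T ε' w Ex) (hk0 : 0 ≤ k)
    (hε : ε' ≤ 1) {s : Bool} {a : ℕ} (h1 : 1 ≤ a) (h2 : a ≤ N) :
    n1 k (w s a) ≤ ENNReal.ofReal (3 * (1 + (a : ℝ) ^ 2) ^ k) := by
  refine (H.norm s a h1 h2).trans ?_
  have h3 := n1_csF k s (a : ℤ)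
  have h4 : (1 : ℝ) ≤ (1 + (a : ℝ) ^ 2) ^ k := Real.one_le_rpow (by nlinarith [sq_nonneg (a : ℝ)]) hk0
  calc 2 * n1 k (cs s a) + ENNReal.ofReal ε'
      ≤ 2 * ENNReal.ofReal ((1 + (((a : ℤ)) : ℝ) ^ 2) ^ k)
        + ENNReal.ofReal ((1 + (a : ℝ) ^ 2) ^ k) := by
        gcongr
        · exact h3
        · linarith
    _ = _ := by
        have : (2 : ℝ≥0∞) = ENNReal.ofReal 2 := by norm_num
        rw [this, ← ENNReal.ofReal_mul (by norm_num), ← ENNReal.ofReal_add (by positivity)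
          (by positivity)]
        congr 1
        push_cast
        ring

lemma hnorm {k ε' lam : ℝ} {N K T Q m : ℕ} {w : Bool → ℕ → C(UnitAddCircle, ℝ)}
    {Ex : Bool → ℕ → Set UnitAddCircle} (H : Quant k N K T ε' w Ex) (hN : 1 ≤ N) (hK : 1 ≤ K)
    (hk0 : 0 ≤ k) (hk1 : k < 1) (hε' : ε' ≤ 1) (hlam : 0 < lam) :
    ∑ i, ENNReal.ofReal (3 * dl lam N K T (m + 1) Q i ^ 2 / bb k (eps k) lam N K T (m + 1) Q i)
      * normSq k (uD w N (m + 1) Q i) ≤ ENNReal.ofReal (1 / 8) := by
  have hMc := card_rho_pos hN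
  have hT0 : (0 : ℝ) < T := by exact_mod_cast H.hT
  have hK0 : (0 : ℝ) < K := by exact_mod_cast hK
  have hN0 : (0 : ℝ) < N := by exact_mod_cast hN
  have hKT : (0 : ℝ) < (K : ℝ) * T := by positivity
  have he := eps_pos hk1
  have hg0 := gg_pos k
  have hg1 := gg_lt_one hk1
  have hbe := be_pos k
  have hN2k : (0 : ℝ) < (N : ℝ) ^ (2 * k) := Real.rpow_pos_of_pos hN0 _
  have hn2k : (0 : ℝ) < ((m + 1 : ℕ) : ℝ) ^ (2 * k) := Real.rpow_pos_of_pos (by positivity) _
  have hdl : ∀ i, 0 < dl lam N K T (m + 1) Q i := by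
    rintro (_ | _ | _) <;> simp only [dl] <;> positivity
  have hsimp : ∀ i, 3 * dl lam N K T (m + 1) Q i ^ 2 / bb k (eps k) lam N K T (m + 1) Q i
      = 3 * AA k (eps k) N (m + 1) Q i := by
    intro i
    have := hdl i
    unfold bb
    rw [div_div_eq_mul_div]
    field_simp
  simp only [hsimp]
  rw [Fintype.sum_sum_type, Fintype.sum_sum_type]
  have p0 : ∑ u : Unit, ENNReal.ofReal (3 * AA k (eps k) N (m + 1) Q (Sum.inl u)) *
      normSq k (uD w N (m + 1) Q (Sum.inl u)) ≤ ENNReal.ofReal (3 * eps k) := by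
    simp only [Finset.univ_unique, Finset.sum_singleton]
    change ENNReal.ofReal (3 * eps k) * normSq k (tens (cs false 0) (cs false 0)) ≤ _
    rw [normSq_tens]
    calc ENNReal.ofReal (3 * eps k) * (n1 k (cs false 0) * n1 k (cs false 0))
        ≤ ENNReal.ofReal (3 * eps k) * (1 * 1) := by gcongr <;> exact n1_one k
      _ = _ := by simp
  have p1 : ∑ i : I0 N, ENNReal.ofReal (3 * AA k (eps k) N (m + 1) Q (Sum.inr (Sum.inl i))) *
      normSq k (uD w N (m + 1) Q (Sum.inr (Sum.inl i))) ≤ ENNReal.ofReal (432 * eps k) := by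
    have hi : ∀ i : I0 N, ENNReal.ofReal (3 * AA k (eps k) N (m + 1) Q (Sum.inr (Sum.inl i))) *
      normSq k (uD w N (m + 1) Q (Sum.inr (Sum.inl i))) ≤ ENNReal.ofReal
        (108 * eps k / (rho N).card) := by
      intro i
      obtain ⟨h1, h2, h3, h4⟩ := rho_le i.1
      have h5 : i.1.1.1 * i.1.1.2 ≤ N := (mem_rho i.1.2).2.2
      change ENNReal.ofReal (3 * (eps k / ((rho N).card * (N : ℝ) ^ (2 * k)))) *
        normSq k (tens (w i.2.1 i.1.1.1) (w i.2.2 i.1.1.2)) ≤ _
      rw [normSq_tens]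
      calc ENNReal.ofReal (3 * (eps k / ((rho N).card * (N : ℝ) ^ (2 * k)))) *
            (n1 k (w i.2.1 i.1.1.1) * n1 k (w i.2.2 i.1.1.2))
          ≤ ENNReal.ofReal (3 * (eps k / ((rho N).card * (N : ℝ) ^ (2 * k)))) *
            (ENNReal.ofReal (3 * (1 + (i.1.1.1 : ℝ) ^ 2) ^ k)
              * ENNReal.ofReal (3 * (1 + (i.1.1.2 : ℝ) ^ 2) ^ k)) := by
            gcongr
            · exact H.n1_le hk0 hε' h1 h2
            · exact H.n1_le hk0 hε' h3 h4
        _ ≤ _ := by
            rw [← ENNReal.ofReal_mul (by positivity), ← ENNReal.ofReal_mul (by positivity)]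
            apply ENNReal.ofReal_le_ofReal
            have e1 : (1 + (i.1.1.1 : ℝ) ^ 2) ^ k * (1 + (i.1.1.2 : ℝ) ^ 2) ^ k
                ≤ 4 * (N : ℝ) ^ (2 * k) := by
              rw [← Real.mul_rpow (by positivity) (by positivity)]
              have a1 : (1 : ℝ) ≤ i.1.1.1 := by exact_mod_cast h1
              have a3 : (1 : ℝ) ≤ i.1.1.2 := by exact_mod_cast h3
              have a5 : (i.1.1.1 : ℝ) * i.1.1.2 ≤ N := by exact_mod_cast h5
              have e2 : (1 + (i.1.1.1 : ℝ) ^ 2) * (1 + (i.1.1.2 : ℝ) ^ 2) ≤ 4 * (N : ℝ) ^ 2 := by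
                have b1 : 1 + (i.1.1.1 : ℝ) ^ 2 ≤ 2 * (i.1.1.1 : ℝ) ^ 2 := by nlinarith
                have b2 : 1 + (i.1.1.2 : ℝ) ^ 2 ≤ 2 * (i.1.1.2 : ℝ) ^ 2 := by nlinarith
                calc (1 + (i.1.1.1 : ℝ) ^ 2) * (1 + (i.1.1.2 : ℝ) ^ 2)
                    ≤ (2 * (i.1.1.1 : ℝ) ^ 2) * (2 * (i.1.1.2 : ℝ) ^ 2) := by gcongr
                  _ = 4 * ((i.1.1.1 : ℝ) * i.1.1.2) ^ 2 := by ring
                  _ ≤ 4 * (N : ℝ) ^ 2 := by gcongr
              calc ((1 + (i.1.1.1 : ℝ) ^ 2) * (1 + (i.1.1.2 : ℝ) ^ 2)) ^ k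
                  ≤ (4 * (N : ℝ) ^ 2) ^ k := Real.rpow_le_rpow (by positivity) e2 hk0
                _ = 4 ^ k * (N : ℝ) ^ (2 * k) := by
                    rw [Real.mul_rpow (by norm_num) (by positivity), ← Real.rpow_natCast,
                      ← Real.rpow_mul hN0.le]
                    norm_num
                _ ≤ 4 * (N : ℝ) ^ (2 * k) := by
                    gcongr
                    calc (4 : ℝ) ^ k ≤ 4 ^ (1 : ℝ) :=
                          Real.rpow_le_rpow_of_exponent_le (by norm_num) hk1.le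
                      _ = 4 := by norm_num
            calc 3 * (eps k / ((rho N).card * (N : ℝ) ^ (2 * k))) *
                  (3 * (1 + (i.1.1.1 : ℝ) ^ 2) ^ k * (3 * (1 + (i.1.1.2 : ℝ) ^ 2) ^ k))
                = 27 * (eps k / ((rho N).card * (N : ℝ) ^ (2 * k))) *
                  ((1 + (i.1.1.1 : ℝ) ^ 2) ^ k * (1 + (i.1.1.2 : ℝ) ^ 2) ^ k) := by ring
              _ ≤ 27 * (eps k / ((rho N).card * (N : ℝ) ^ (2 * k))) * (4 * (N : ℝ) ^ (2 * k)) := by
                  gcongr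
              _ = _ := by
                  field_simp
                  ring
    refine (Finset.sum_le_sum fun i _ => hi i).trans ?_
    rw [Finset.sum_const, Finset.card_univ, nsmul_eq_mul, ← ENNReal.ofReal_natCast,
      ← ENNReal.ofReal_mul (by positivity)]
    apply ENNReal.ofReal_le_ofReal
    rw [card_I0]
    apply le_of_eq
    field_simp
    ring
  have p2 : ∑ h : HI (m + 1) Q,
      ENNReal.ofReal (3 * AA k (eps k) N (m + 1) Q (Sum.inr (Sum.inr h))) *
      normSq k (uD w N (m + 1) Q (Sum.inr (Sum.inr h)))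
      ≤ ENNReal.ofReal (30 / (1 - gg k) * eps k) := by
    rw [Fintype.sum_sigma]
    have hq : ∀ q : Fin (Q + 1), ∑ y : Bool × Fin (Rq (m + 1) q),
        ENNReal.ofReal (3 * AA k (eps k) N (m + 1) Q (Sum.inr (Sum.inr ⟨q, y⟩))) *
        normSq k (uD w N (m + 1) Q (Sum.inr (Sum.inr ⟨q, y⟩)))
        ≤ ENNReal.ofReal (30 * eps k * gg k ^ (q : ℕ)) := by
      intro q
      have hR : 1 ≤ Rq (m + 1) q := Nat.one_le_iff_ne_zero.2 (by unfold Rq; positivity)
      have hR1 : (1 : ℝ) ≤ Rq (m + 1) q := by exact_mod_cast hR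
      have hR0 : (0 : ℝ) < Rq (m + 1) q := by linarith
      have hone : ∀ y : Bool × Fin (Rq (m + 1) q),
          ENNReal.ofReal (3 * AA k (eps k) N (m + 1) Q (Sum.inr (Sum.inr ⟨q, y⟩))) *
          normSq k (uD w N (m + 1) Q (Sum.inr (Sum.inr ⟨q, y⟩)))
          ≤ ENNReal.ofReal (15 * eps k * gg k ^ (q : ℕ) / Rq (m + 1) q) := by
        rintro ⟨b, v⟩
        have e1 : normSq k (uD w N (m + 1) Q (Sum.inr (Sum.inr ⟨q, (b, v)⟩)))
            ≤ ENNReal.ofReal (5 * (Rq (m + 1) q : ℝ) ^ (2 * k) / Rq (m + 1) q) := by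
          have e2 := n1_trap hk0 hk1.le hR1 (vert (m + 1) q v)
          cases b
          · change normSq k (tens (trap (Rq (m + 1) q) (vert (m + 1) q v)) (cs false 0)) ≤ _
            rw [normSq_tens]
            calc _ ≤ ENNReal.ofReal (5 * (Rq (m + 1) q : ℝ) ^ (2 * k) / Rq (m + 1) q) * 1 := by
                  gcongr
                  exact n1_one k
              _ = _ := mul_one _
          · change normSq k (tens (cs false 0) (trap (Rq (m + 1) q) (vert (m + 1) q v))) ≤ _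
            rw [normSq_tens]
            calc _ ≤ 1 * ENNReal.ofReal (5 * (Rq (m + 1) q : ℝ) ^ (2 * k) / Rq (m + 1) q) := by
                  gcongr
                  exact n1_one k
              _ = _ := one_mul _
        change ENNReal.ofReal (3 * (eps k / (((m + 1 : ℕ) : ℝ) ^ (2 * k) * be k ^ (q : ℕ)))) * _ ≤ _
        refine (mul_le_mul_right e1 _).trans ?_
        rw [← ENNReal.ofReal_mul (by positivity)]
        apply ENNReal.ofReal_le_ofReal
        apply le_of_eq
        rw [Rq_rpow]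
        field_simp
        ring
      refine (Finset.sum_le_sum fun y _ => hone y).trans ?_
      rw [Finset.sum_const, Finset.card_univ, nsmul_eq_mul, ← ENNReal.ofReal_natCast,
        ← ENNReal.ofReal_mul (by positivity), Fintype.card_prod, Fintype.card_bool,
        Fintype.card_fin]
      apply ENNReal.ofReal_le_ofReal
      push_cast
      apply le_of_eq
      field_simp
      ring
    refine (Finset.sum_le_sum fun q _ => hq q).trans ?_
    rw [← ENNReal.ofReal_sum_of_nonneg fun q _ => by positivity, ← Finset.mul_sum]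
    apply ENNReal.ofReal_le_ofReal
    calc 30 * eps k * ∑ q : Fin (Q + 1), gg k ^ (q : ℕ) ≤ 30 * eps k * (1 / (1 - gg k)) := by
          gcongr
          exact geom_le hg0.le hg1 Q
      _ = _ := by ring
  have h1g : 0 < 1 - gg k := by linarith
  calc _ ≤ ENNReal.ofReal (3 * eps k) + (ENNReal.ofReal (432 * eps k)
        + ENNReal.ofReal (30 / (1 - gg k) * eps k)) := add_le_add p0 (add_le_add p1 p2)
    _ = ENNReal.ofReal (1 / 8) := by
        rw [← ENNReal.ofReal_add (by positivity) (by positivity),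
          ← ENNReal.ofReal_add (by positivity) (by positivity)]
        congr 1
        unfold eps
        field_simp
        ring

end Pool.Agent.Helper579.Mix
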