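import Mathlib
import Pool.Agent.Helper579.MixLow4

set_option autoImplicit false

namespace Pool.Agent.Helper579.Mix

open MeasureTheory ProbabilityTheory Filter AddCircle
open scoped ENNReal Topology

lemma UU_cont (w : Bool → ℕ → C(UnitAddCircle, ℝ)) {N : ℕ} (i : I0 N) :
    Continuous (UU w i) := by
  unfold UU
  fun_prop

lemma al_cont (w : Bool → ℕ → C(UnitAddCircle, ℝ)) (N : ℕ) {n : ℕ} (i : I0 N) :
    Continuous fun x : Fin n → Torus 2 => al w N x i := by
  have := UU_cont w i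
  unfold al
  fun_prop

lemma res_cont (w : Bool → ℕ → C(UnitAddCircle, ℝ)) (N : ℕ) {n : ℕ} (j : Fin n) :
    Continuous fun x : Fin n → Torus 2 => res w N x j := by
  have h1 := fun i : I0 N => UU_cont w i
  have h2 := fun i : I0 N => al_cont w N (n := n) i
  unfold res
  fun_prop

lemma al_close {k ε' : ℝ} {N K T n : ℕ} {w : Bool → ℕ → C(UnitAddCircle, ℝ)}
    {Ex : Bool → ℕ → Set UnitAddCircle} (H : Quant k N K T ε' w Ex) (hN : 1 ≤ N) (hε0 : 0 ≤ ε')
    (hε : ε' ≤ 1) (x : Fin n → Torus 2) (i : I0 N) :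
    al w N x i ^ 2 ≤ 2 / ((rho N).card : ℝ) ^ 2 * (∑ j, UU cs i (x j)) ^ 2
      + 18 * (n : ℝ) ^ 2 * ε' ^ 2 / ((rho N).card : ℝ) ^ 2 := by
  have hMc := card_rho_pos hN
  unfold al
  have h1 : |∑ j, UU w i (x j) - ∑ j, UU cs i (x j)| ≤ 3 * n * ε' := by
    rw [← Finset.sum_sub_distrib]
    refine (Finset.abs_sum_le_sum_abs _ _).trans ?_
    calc ∑ j, |UU w i (x j) - UU cs i (x j)| ≤ ∑ _j : Fin n, 3 * ε' :=
          Finset.sum_le_sum fun j _ => H.UU_close hε0 hε i _
      _ = _ := by simp; ring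
  set A := ∑ j, UU w i (x j)
  set B := ∑ j, UU cs i (x j)
  have h2 : A ^ 2 ≤ 2 * B ^ 2 + 2 * (3 * n * ε') ^ 2 := by
    have h3 : (A - B) ^ 2 ≤ (3 * n * ε') ^ 2 := by
      rw [← sq_abs]
      gcongr
    nlinarith [sq_nonneg (A - 2 * B)]
  have h3 : (1 / ((rho N).card : ℝ) * A) ^ 2 = 1 / ((rho N).card : ℝ) ^ 2 * A ^ 2 := by ring
  rw [h3]
  calc 1 / ((rho N).card : ℝ) ^ 2 * A ^ 2
      ≤ 1 / ((rho N).card : ℝ) ^ 2 * (2 * B ^ 2 + 2 * (3 * n * ε') ^ 2) := by gcongr
    _ = _ := by ring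

lemma Ecost1 {k ε' : ℝ} {N K T n : ℕ} {w : Bool → ℕ → C(UnitAddCircle, ℝ)}
    {Ex : Bool → ℕ → Set UnitAddCircle} (H : Quant k N K T ε' w Ex) (hN : 1 ≤ N) (hε0 : 0 ≤ ε')
    (hε : ε' ≤ 1) (hε2 : 72 * n * ε' ^ 2 ≤ 1) :
    ∫⁻ x : Fin n → Torus 2, ENNReal.ofReal (cost1 k w N x) ∂Pn n
      ≤ ENNReal.ofReal (9 * n * (N : ℝ) ^ (2 * k)) := by
  have hMc := card_rho_pos hN
  have hN0 : (0 : ℝ) < N := by exact_mod_cast hN
  have hN2k : (0 : ℝ) < (N : ℝ) ^ (2 * k) := Real.rpow_pos_of_pos hN0 _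
  set M : ℝ := ((rho N).card : ℝ)
  set c : ℝ := M * (N : ℝ) ^ (2 * k) with hc
  have hc0 : 0 < c := by positivity
  have h1 : ∀ i : I0 N, ∫⁻ x : Fin n → Torus 2, ENNReal.ofReal (al w N x i ^ 2) ∂Pn n
      ≤ ENNReal.ofReal ((2 * n + 18 * (n : ℝ) ^ 2 * ε' ^ 2) / M ^ 2) := by
    intro i
    calc ∫⁻ x : Fin n → Torus 2, ENNReal.ofReal (al w N x i ^ 2) ∂Pn n
        ≤ ∫⁻ x : Fin n → Torus 2, (ENNReal.ofReal (2 / M ^ 2) *
            ENNReal.ofReal ((∑ j, UU cs i (x j)) ^ 2)
            + ENNReal.ofReal (18 * (n : ℝ) ^ 2 * ε' ^ 2 / M ^ 2)) ∂Pn n := by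
          apply lintegral_mono
          intro x
          simp only
          rw [← ENNReal.ofReal_mul (by positivity), ← ENNReal.ofReal_add (by positivity)
            (by positivity)]
          exact ENNReal.ofReal_le_ofReal (al_close H hN hε0 hε x i)
      _ = ENNReal.ofReal (2 / M ^ 2) * ∫⁻ x : Fin n → Torus 2,
            ENNReal.ofReal ((∑ j, UU cs i (x j)) ^ 2) ∂Pn n
            + ENNReal.ofReal (18 * (n : ℝ) ^ 2 * ε' ^ 2 / M ^ 2) := by
          rw [lintegral_add_right _ measurable_const, lintegral_const_mul', lintegral_const,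
            measure_univ, mul_one]
          exact ENNReal.ofReal_ne_top
      _ ≤ ENNReal.ofReal (2 / M ^ 2) * ENNReal.ofReal n
            + ENNReal.ofReal (18 * (n : ℝ) ^ 2 * ε' ^ 2 / M ^ 2) := by
          gcongr
          exact E2 i
      _ = _ := by
          rw [← ENNReal.ofReal_mul (by positivity), ← ENNReal.ofReal_add (by positivity)
            (by positivity)]
          congr 1
          ring
  have h2 : ∀ x : Fin n → Torus 2, ENNReal.ofReal (cost1 k w N x)
      = ENNReal.ofReal c * ∑ i : I0 N, ENNReal.ofReal (al w N x i ^ 2) := by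
    intro x
    unfold cost1
    rw [ENNReal.ofReal_mul hc0.le, ENNReal.ofReal_sum_of_nonneg fun _ _ => sq_nonneg _]
  simp only [h2]
  rw [lintegral_const_mul' _ _ ENNReal.ofReal_ne_top, lintegral_finsetSum]
  · calc ENNReal.ofReal c * ∑ i : I0 N, ∫⁻ x : Fin n → Torus 2,
          ENNReal.ofReal (al w N x i ^ 2) ∂Pn n
        ≤ ENNReal.ofReal c * ∑ _i : I0 N,
          ENNReal.ofReal ((2 * n + 18 * (n : ℝ) ^ 2 * ε' ^ 2) / M ^ 2) := by
          gcongr with i _
          exact h1 i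
      _ ≤ _ := by
          rw [Finset.sum_const, Finset.card_univ, nsmul_eq_mul, ← ENNReal.ofReal_natCast,
            ← ENNReal.ofReal_mul (by positivity), ← ENNReal.ofReal_mul (by positivity), card_I0]
          apply ENNReal.ofReal_le_ofReal
          have e1 : c * (4 * ((rho N).card : ℝ) * ((2 * n + 18 * (n : ℝ) ^ 2 * ε' ^ 2) / M ^ 2))
              = (N : ℝ) ^ (2 * k) * n * (8 + 72 * n * ε' ^ 2) := by
            rw [hc]
            change M * (N : ℝ) ^ (2 * k) * (4 * M * ((2 * n + 18 * (n : ℝ) ^ 2 * ε' ^ 2) / M ^ 2)) = _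
            field_simp
            ring
          rw [e1]
          calc (N : ℝ) ^ (2 * k) * n * (8 + 72 * n * ε' ^ 2) ≤ (N : ℝ) ^ (2 * k) * n * (8 + 1) := by
                gcongr
            _ = _ := by ring
  · intro i _
    apply Measurable.ennreal_ofReal
    exact ((al_cont w N i).measurable).pow_const 2

/-- bound for the second moments on the events -/
noncomputable def bq (δ : ℝ) (q : ℕ) : ℝ := min δ (360 * (1 / 4) ^ q)

lemma measurable_tq {m : ℕ} (q : ℕ) (j : Fin (m + 1)) : MeasurableSet (tq q j) := by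
  unfold tq
  split_ifs
  · exact MeasurableSet.univ
  · exact measurable_badS _ _

lemma Eres {N m : ℕ} (hN : 1 ≤ N) (hδ : ((m + 1 : ℕ) : ℝ) / (rho N).card ≤ 1) (q : ℕ)
    (j : Fin (m + 1)) :
    ∫⁻ x, ENNReal.ofReal ((tq q j).indicator (fun x => res cs N x j ^ 2) x) ∂Pn (m + 1)
      ≤ ENNReal.ofReal (bq (((m + 1 : ℕ) : ℝ) / (rho N).card) q) := by
  have hMc := card_rho_pos hN
  set M : ℝ := ((rho N).card : ℝ)
  set δ : ℝ := ((m + 1 : ℕ) : ℝ) / M with hδd
  have h1 : ∫⁻ x, ENNReal.ofReal ((tq q j).indicator (fun x => res cs N x j ^ 2) x) ∂Pn (m + 1)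
      ≤ ENNReal.ofReal δ := by
    calc _ ≤ ∫⁻ x, ENNReal.ofReal (res cs N x j ^ 2) ∂Pn (m + 1) := by
          apply lintegral_mono
          intro x
          apply ENNReal.ofReal_le_ofReal
          exact Set.indicator_le_self' (fun _ _ => sq_nonneg _) _
      _ ≤ ENNReal.ofReal (m / M) := E0 hN j
      _ ≤ _ := by
          apply ENNReal.ofReal_le_ofReal
          rw [hδd]
          gcongr
          linarith
  have h2 : ∫⁻ x, ENNReal.ofReal ((tq q j).indicator (fun x => res cs N x j ^ 2) x) ∂Pn (m + 1)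
      ≤ ENNReal.ofReal (360 * (1 / 4) ^ q) := by
    rcases Nat.eq_zero_or_pos q with hq | hq
    · refine h1.trans (ENNReal.ofReal_le_ofReal ?_)
      rw [hq, pow_zero]
      linarith
    · have ht : tq q j = badS (rq (m + 1) (q - 1)) j := by
        unfold tq
        rw [if_neg (by omega)]
      obtain ⟨p, rfl⟩ : ∃ p, q = p + 1 := ⟨q - 1, by omega⟩
      rw [ht, Nat.add_sub_cancel]
      have h3 : ∀ x : Fin (m + 1) → Torus 2,
          ENNReal.ofReal ((badS (rq (m + 1) p) j).indicator (fun x => res cs N x j ^ 2) x)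
          = ENNReal.ofReal (res cs N x j ^ 2) * (badS (rq (m + 1) p) j).indicator 1 x := by
        intro x
        by_cases hx : x ∈ badS (rq (m + 1) p) j
        · rw [Set.indicator_of_mem hx, Set.indicator_of_mem hx, Pi.one_apply, mul_one]
        · rw [Set.indicator_of_notMem hx, Set.indicator_of_notMem hx]
          simp
      simp only [h3]
      refine (E1 hN (rq (m + 1) p) j).trans ?_
      have hR : 1 ≤ Rq (m + 1) p := Nat.one_le_iff_ne_zero.2 (by unfold Rq; positivity)
      have hR0 : (0 : ℝ) < Rq (m + 1) p := by exact_mod_cast hR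
      have e1 : 2 * rq (m + 1) p = 3 / (Rq (m + 1) p : ℝ) := by
        unfold rq
        field_simp
      rw [e1, ← ENNReal.ofReal_mul (by positivity)]
      have e2 : ((m : ℝ≥0∞) ^ 2 + m) = ENNReal.ofReal ((m : ℝ) ^ 2 + m) := by
        rw [ENNReal.ofReal_add (by positivity) (by positivity), ENNReal.ofReal_pow (by positivity),
          ENNReal.ofReal_natCast]
      rw [e2, ← ENNReal.ofReal_mul (by positivity), ← ENNReal.ofReal_mul (by positivity)]
      apply ENNReal.ofReal_le_ofReal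
      have e3 : (8 : ℝ) + 2 * m * (1 / (rho N).card) ≤ 10 := by
        have e4 : (m : ℝ) / M ≤ 1 := by
          refine le_trans ?_ hδ
          rw [hδd]
          gcongr
          linarith
        have e5 : (2 : ℝ) * m * (1 / (rho N).card) = 2 * (m / M) := by ring
        rw [e5]
        linarith
      have e6 : (m : ℝ) ^ 2 + m ≤ ((m + 1 : ℕ) : ℝ) ^ 2 := by
        push_cast
        nlinarith [(Nat.cast_nonneg m : (0 : ℝ) ≤ m)]
      have e7 : (Rq (m + 1) p : ℝ) = ((m + 1 : ℕ) : ℝ) * 2 ^ p := by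
        unfold Rq
        push_cast
        ring
      calc (8 + 2 * (m : ℝ) * (1 / (rho N).card)) * (((m : ℝ) ^ 2 + m) *
            (3 / (Rq (m + 1) p : ℝ) * (3 / (Rq (m + 1) p : ℝ))))
          ≤ 10 * (((m + 1 : ℕ) : ℝ) ^ 2 * (3 / (Rq (m + 1) p : ℝ) * (3 / (Rq (m + 1) p : ℝ)))) := by
            gcongr
        _ = 360 * (1 / 4) ^ (p + 1) := by
            rw [e7]
            have : (2 : ℝ) ^ p * 2 ^ p = 4 ^ p := by rw [← mul_pow]; norm_num
            have h4 : (1 / 4 : ℝ) ^ (p + 1) = 1 / (4 * 4 ^ p) := by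
              rw [pow_succ, one_div_pow]
              ring
            rw [h4, ← this]
            field_simp
            ring
  unfold bq
  rcases le_total δ (360 * (1 / 4) ^ q) with h | h
  · rwa [min_eq_left h]
  · rwa [min_eq_right h]

lemma be_lt {k : ℝ} (hk : k < 1) : be k < 4 := by
  unfold be
  calc (2 : ℝ) ^ (1 + k) < 2 ^ (2 : ℝ) := Real.rpow_lt_rpow_of_exponent_lt (by norm_num) (by linarith)
    _ = 4 := by norm_num

/-- the sum over the levels -/
noncomputable def TT (k δ : ℝ) : ℝ := ∑' q : ℕ, be k ^ q * bq δ q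

lemma TT_bound {k : ℝ} {δ : ℝ} (hδ : 0 ≤ δ) (q : ℕ) :
    0 ≤ be k ^ q * bq δ q ∧ be k ^ q * bq δ q ≤ 360 * (be k / 4) ^ q := by
  have hbe := be_pos k
  have h0 : 0 ≤ bq δ q := le_min hδ (by positivity)
  refine ⟨by positivity, ?_⟩
  calc be k ^ q * bq δ q ≤ be k ^ q * (360 * (1 / 4) ^ q) := by
        gcongr
        exact min_le_right _ _
    _ = _ := by
        rw [div_pow, div_pow, one_pow]
        ring

lemma summable_dom {k : ℝ} (hk : k < 1) : Summable fun q : ℕ => 360 * (be k / 4) ^ q := by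
  have hbe := be_pos k
  have hlt := be_lt hk
  exact (summable_geometric_of_lt_one (by positivity) (by rw [div_lt_one (by norm_num)]; exact hlt)).mul_left _

lemma TT_ge {k δ : ℝ} (hk : k < 1) (hδ : 0 ≤ δ) (Q : ℕ) :
    ∑ q : Fin (Q + 1), be k ^ (q : ℕ) * bq δ q ≤ TT k δ := by
  rw [Fin.sum_univ_eq_sum_range (fun q => be k ^ q * bq δ q) (Q + 1)]
  have hs : Summable fun q : ℕ => be k ^ q * bq δ q :=
    Summable.of_nonneg_of_le (fun q => (TT_bound hδ q).1) (fun q => (TT_bound hδ q).2)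
      (summable_dom hk)
  exact hs.sum_le_tsum _ fun q _ => (TT_bound hδ q).1

lemma TT_lim {k : ℝ} (hk : k < 1) {δ : ℕ → ℝ} (h0 : ∀ n, 0 ≤ δ n)
    (hδ : Tendsto δ atTop (𝓝 0)) : Tendsto (fun n => TT k (δ n)) atTop (𝓝 0) := by
  have h1 : Tendsto (fun n => ∑' q : ℕ, be k ^ q * bq (δ n) q) atTop
      (𝓝 (∑' _q : ℕ, (0 : ℝ))) := by
    apply tendsto_tsum_of_dominated_convergence (summable_dom hk)
    · intro q
      have h2 : Tendsto (fun n => be k ^ q * δ n) atTop (𝓝 0) := by
        simpa using hδ.const_mul (be k ^ q)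
      have hbe := be_pos k
      refine squeeze_zero (fun n => (TT_bound (h0 n) q).1) (fun n => ?_) h2
      gcongr
      exact min_le_left _ _
    · refine Eventually.of_forall fun n q => ?_
      rw [Real.norm_eq_abs, abs_of_nonneg (TT_bound (h0 n) q).1]
      exact (TT_bound (h0 n) q).2
  simpa [TT] using h1

lemma Ecost2 {k ε' : ℝ} {N K T m Q : ℕ} {w : Bool → ℕ → C(UnitAddCircle, ℝ)}
    {Ex : Bool → ℕ → Set UnitAddCircle} (H : Quant k N K T ε' w Ex) (hN : 1 ≤ N) (hε0 : 0 ≤ ε')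
    (hε : ε' ≤ 1) (hk1 : k < 1) (hδ : ((m + 1 : ℕ) : ℝ) / (rho N).card ≤ 1) {E : ℝ}
    (hE : 2 * (60 * ((m + 1 : ℕ) : ℝ) * ε') ^ 2 * ∑ q : Fin (Q + 1), be k ^ (q : ℕ) ≤ E) :
    ∫⁻ x : Fin (m + 1) → Torus 2, ENNReal.ofReal (cost2 k w N Q x) ∂Pn (m + 1)
      ≤ ENNReal.ofReal (((m + 1 : ℕ) : ℝ) * ((m + 1 : ℕ) : ℝ) ^ (2 * k) *
        (2 * TT k (((m + 1 : ℕ) : ℝ) / (rho N).card) + E)) := by
  have hMc := card_rho_pos hN
  have hbe := be_pos k
  set n : ℝ := ((m + 1 : ℕ) : ℝ) with hn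
  have hn0 : 0 < n := by positivity
  set δ : ℝ := n / (rho N).card with hδd
  have hδ0 : 0 ≤ δ := by positivity
  have hn2k : (0 : ℝ) < n ^ (2 * k) := Real.rpow_pos_of_pos hn0 _
  set e2 : ℝ := 60 * n * ε' with he2
  have h1 : ∀ (j : Fin (m + 1)) (q : Fin (Q + 1)), ∫⁻ x : Fin (m + 1) → Torus 2,
      ENNReal.ofReal ((tq (q : ℕ) j).indicator (fun x => res w N x j ^ 2) x) ∂Pn (m + 1)
      ≤ ENNReal.ofReal (2 * bq δ q + 2 * e2 ^ 2) := by
    intro j q
    calc ∫⁻ x : Fin (m + 1) → Torus 2,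
          ENNReal.ofReal ((tq (q : ℕ) j).indicator (fun x => res w N x j ^ 2) x) ∂Pn (m + 1)
        ≤ ∫⁻ x : Fin (m + 1) → Torus 2, (ENNReal.ofReal 2 *
          ENNReal.ofReal ((tq (q : ℕ) j).indicator (fun x => res cs N x j ^ 2) x)
            + ENNReal.ofReal (2 * e2 ^ 2)) ∂Pn (m + 1) := by
          apply lintegral_mono
          intro x
          simp only
          have hnn : 0 ≤ (tq (q : ℕ) j).indicator (fun x => res cs N x j ^ 2) x :=
            Set.indicator_nonneg (fun _ _ => sq_nonneg _) _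
          rw [← ENNReal.ofReal_mul (by positivity), ← ENNReal.ofReal_add (by positivity)
            (by positivity)]
          apply ENNReal.ofReal_le_ofReal
          by_cases hx : x ∈ tq (q : ℕ) j
          · rw [Set.indicator_of_mem hx, Set.indicator_of_mem hx]
            have h3 := H.res_close hε0 hε hN x j
            have h4 : (res w N x j - res cs N x j) ^ 2 ≤ e2 ^ 2 := by
              rw [← sq_abs, he2, hn]
              gcongr
            nlinarith [sq_nonneg (res w N x j - 2 * res cs N x j)]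
          · rw [Set.indicator_of_notMem hx, Set.indicator_of_notMem hx]
            positivity
      _ = ENNReal.ofReal 2 * ∫⁻ x : Fin (m + 1) → Torus 2,
          ENNReal.ofReal ((tq (q : ℕ) j).indicator (fun x => res cs N x j ^ 2) x) ∂Pn (m + 1)
            + ENNReal.ofReal (2 * e2 ^ 2) := by
          rw [lintegral_add_right _ measurable_const, lintegral_const_mul', lintegral_const,
            measure_univ, mul_one]
          exact ENNReal.ofReal_ne_top
      _ ≤ ENNReal.ofReal 2 * ENNReal.ofReal (bq δ q) + ENNReal.ofReal (2 * e2 ^ 2) := by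
          gcongr
          exact Eres hN hδ q j
      _ = _ := by
          have hb0 : 0 ≤ bq δ q := le_min hδ0 (by positivity)
          rw [← ENNReal.ofReal_mul (by positivity), ← ENNReal.ofReal_add (by positivity)
            (by positivity)]
  have h2 : ∀ x : Fin (m + 1) → Torus 2, ENNReal.ofReal (cost2 k w N Q x)
      = ∑ j, ∑ q : Fin (Q + 1), ENNReal.ofReal (n ^ (2 * k) * be k ^ (q : ℕ)) *
        ENNReal.ofReal ((tq (q : ℕ) j).indicator (fun x => res w N x j ^ 2) x) := by
    intro x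
    have hnn : ∀ (j : Fin (m + 1)) (q : Fin (Q + 1)),
        0 ≤ (tq (q : ℕ) j).indicator (fun x => res w N x j ^ 2) x := fun j q =>
      Set.indicator_nonneg (fun _ _ => sq_nonneg _) _
    unfold cost2
    rw [ENNReal.ofReal_sum_of_nonneg]
    · apply Finset.sum_congr rfl
      intro j _
      rw [ENNReal.ofReal_sum_of_nonneg]
      · apply Finset.sum_congr rfl
        intro q _
        rw [ENNReal.ofReal_mul (by positivity)]
      · intro q _
        have := hnn j q
        positivity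
    · intro j _
      apply Finset.sum_nonneg
      intro q _
      have := hnn j q
      positivity
  simp only [h2]
  have hm : ∀ (j : Fin (m + 1)) (q : Fin (Q + 1)), Measurable fun x : Fin (m + 1) → Torus 2 =>
      ENNReal.ofReal (n ^ (2 * k) * be k ^ (q : ℕ)) *
        ENNReal.ofReal ((tq (q : ℕ) j).indicator (fun x => res w N x j ^ 2) x) := by
    intro j q
    apply Measurable.const_mul
    apply Measurable.ennreal_ofReal
    exact (((res_cont w N j).measurable).pow_const 2).indicator (measurable_tq _ _)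
  rw [lintegral_finsetSum _ fun j _ => Finset.measurable_fun_sum _ fun q _ => hm j q]
  calc ∑ j : Fin (m + 1), ∫⁻ x : Fin (m + 1) → Torus 2, ∑ q : Fin (Q + 1),
        ENNReal.ofReal (n ^ (2 * k) * be k ^ (q : ℕ)) *
        ENNReal.ofReal ((tq (q : ℕ) j).indicator (fun x => res w N x j ^ 2) x) ∂Pn (m + 1)
      ≤ ∑ _j : Fin (m + 1), ∑ q : Fin (Q + 1), ENNReal.ofReal (n ^ (2 * k) * be k ^ (q : ℕ) *
          (2 * bq δ q + 2 * e2 ^ 2)) := by
        apply Finset.sum_le_sum
        intro j _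
        rw [lintegral_finsetSum _ fun q _ => hm j q]
        apply Finset.sum_le_sum
        intro q _
        rw [lintegral_const_mul' _ _ ENNReal.ofReal_ne_top]
        refine (mul_le_mul_right (h1 j q) _).trans (le_of_eq ?_)
        rw [← ENNReal.ofReal_mul (by positivity)]
    _ ≤ _ := by
        have hb0 : ∀ q : ℕ, 0 ≤ bq δ q := fun q => le_min hδ0 (by positivity)
        rw [Finset.sum_const, Finset.card_univ, Fintype.card_fin, nsmul_eq_mul,
          ← ENNReal.ofReal_natCast, ← ENNReal.ofReal_sum_of_nonneg, ← ENNReal.ofReal_mul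
          (by positivity)]
        · apply ENNReal.ofReal_le_ofReal
          have e1 : ∑ q : Fin (Q + 1), n ^ (2 * k) * be k ^ (q : ℕ) * (2 * bq δ q + 2 * e2 ^ 2)
              = n ^ (2 * k) * (2 * (∑ q : Fin (Q + 1), be k ^ (q : ℕ) * bq δ q)
                + 2 * e2 ^ 2 * ∑ q : Fin (Q + 1), be k ^ (q : ℕ)) := by
            rw [Finset.mul_sum, Finset.mul_sum, ← Finset.sum_add_distrib, Finset.mul_sum]
            apply Finset.sum_congr rfl
            intro q _
            ring
          rw [e1, ← mul_assoc]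
          have hTT := TT_ge hk1 hδ0 Q
          have h9 : 2 * (∑ q : Fin (Q + 1), be k ^ (q : ℕ) * bq δ q)
                + 2 * e2 ^ 2 * ∑ q : Fin (Q + 1), be k ^ (q : ℕ) ≤ 2 * TT k δ + E := by linarith
          exact mul_le_mul_of_nonneg_left h9 (by positivity)
        · intro q _
          have := hb0 q
          positivity

end Pool.Agent.Helper579.Mix
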