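import Mathlib
import Pool.Agent.Helper579.MixLow5

set_option autoImplicit false

namespace Pool.Agent.Helper579.Mix

open MeasureTheory ProbabilityTheory Filter AddCircle
open scoped ENNReal Topology

lemma markov8 {X : Type} [MeasurableSpace X] {P : Measure X} {f : X → ℝ} (hf : Measurable f)
    {a c : ℝ} (hc : 0 < c) (h1 : ∫⁻ x, ENNReal.ofReal (f x) ∂P ≤ ENNReal.ofReal a)
    (h2 : a ≤ c / 8) : P {x | c < f x} ≤ ENNReal.ofReal (1 / 8) := by
  have h3 := mul_meas_ge_le_lintegral (μ := P) hf.ennreal_ofReal (ENNReal.ofReal c)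
  have h4 : P {x | c < f x} ≤ P {x | ENNReal.ofReal c ≤ ENNReal.ofReal (f x)} := by
    apply measure_mono
    intro x hx
    exact ENNReal.ofReal_le_ofReal (le_of_lt hx)
  have h5 : ENNReal.ofReal c * P {x | c < f x} ≤ ENNReal.ofReal c * ENNReal.ofReal (1 / 8) := by
    calc ENNReal.ofReal c * P {x | c < f x}
        ≤ ENNReal.ofReal c * P {x | ENNReal.ofReal c ≤ ENNReal.ofReal (f x)} := by gcongr
      _ ≤ ENNReal.ofReal a := h3.trans h1
      _ ≤ ENNReal.ofReal (c / 8) := ENNReal.ofReal_le_ofReal h2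
      _ = _ := by
          rw [← ENNReal.ofReal_mul hc.le]
          congr 1
          ring
  exact (ENNReal.mul_le_mul_iff_right (ENNReal.ofReal_pos.2 hc).ne' ENNReal.ofReal_ne_top).1 h5

lemma cost1_meas (k : ℝ) (w : Bool → ℕ → C(UnitAddCircle, ℝ)) (N n : ℕ) :
    Measurable fun x : Fin n → Torus 2 => cost1 k w N x := by
  unfold cost1
  apply Measurable.const_mul
  exact Finset.measurable_fun_sum _ fun i _ => ((al_cont w N i).measurable).pow_const 2

lemma cost2_meas (k : ℝ) (w : Bool → ℕ → C(UnitAddCircle, ℝ)) (N Q m : ℕ) :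
    Measurable fun x : Fin (m + 1) → Torus 2 => cost2 k w N Q x := by
  unfold cost2
  refine Finset.measurable_fun_sum _ fun j _ => Finset.measurable_fun_sum _ fun q _ => ?_
  apply Measurable.const_mul
  exact (((res_cont w N j).measurable).pow_const 2).indicator (measurable_tq _ _)

lemma Eresw {k ε' : ℝ} {N K T m : ℕ} {w : Bool → ℕ → C(UnitAddCircle, ℝ)}
    {Ex : Bool → ℕ → Set UnitAddCircle} (H : Quant k N K T ε' w Ex) (hN : 1 ≤ N) (hε0 : 0 ≤ ε')
    (hε : ε' ≤ 1) :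
    ∫⁻ x : Fin (m + 1) → Torus 2, ENNReal.ofReal (∑ j, res w N x j ^ 2) ∂Pn (m + 1)
      ≤ ENNReal.ofReal (((m + 1 : ℕ) : ℝ) * (2 * (((m + 1 : ℕ) : ℝ) / (rho N).card)
        + 2 * (60 * ((m + 1 : ℕ) : ℝ) * ε') ^ 2)) := by
  have hMc := card_rho_pos hN
  set n : ℝ := ((m + 1 : ℕ) : ℝ) with hn
  have hn0 : 0 < n := by positivity
  set e2 : ℝ := 60 * n * ε' with he2
  have h1 : ∀ j : Fin (m + 1), ∫⁻ x : Fin (m + 1) → Torus 2,
      ENNReal.ofReal (res w N x j ^ 2) ∂Pn (m + 1)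
      ≤ ENNReal.ofReal (2 * (n / (rho N).card) + 2 * e2 ^ 2) := by
    intro j
    calc ∫⁻ x : Fin (m + 1) → Torus 2, ENNReal.ofReal (res w N x j ^ 2) ∂Pn (m + 1)
        ≤ ∫⁻ x : Fin (m + 1) → Torus 2, (ENNReal.ofReal 2 *
          ENNReal.ofReal (res cs N x j ^ 2) + ENNReal.ofReal (2 * e2 ^ 2)) ∂Pn (m + 1) := by
          apply lintegral_mono
          intro x
          simp only
          rw [← ENNReal.ofReal_mul (by positivity), ← ENNReal.ofReal_add (by positivity)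
            (by positivity)]
          apply ENNReal.ofReal_le_ofReal
          have h3 := H.res_close hε0 hε hN x j
          have h4 : (res w N x j - res cs N x j) ^ 2 ≤ e2 ^ 2 := by
            rw [← sq_abs, he2, hn]
            gcongr
          nlinarith [sq_nonneg (res w N x j - 2 * res cs N x j)]
      _ = ENNReal.ofReal 2 * ∫⁻ x : Fin (m + 1) → Torus 2,
          ENNReal.ofReal (res cs N x j ^ 2) ∂Pn (m + 1) + ENNReal.ofReal (2 * e2 ^ 2) := by
          rw [lintegral_add_right _ measurable_const, lintegral_const_mul', lintegral_const,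
            measure_univ, mul_one]
          exact ENNReal.ofReal_ne_top
      _ ≤ ENNReal.ofReal 2 * ENNReal.ofReal (n / (rho N).card) + ENNReal.ofReal (2 * e2 ^ 2) := by
          gcongr
          refine (E0 hN j).trans (ENNReal.ofReal_le_ofReal ?_)
          gcongr
          rw [hn]
          push_cast
          linarith
      _ = _ := by
          rw [← ENNReal.ofReal_mul (by positivity), ← ENNReal.ofReal_add (by positivity)
            (by positivity)]
  have h2 : ∀ x : Fin (m + 1) → Torus 2, ENNReal.ofReal (∑ j, res w N x j ^ 2)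
      = ∑ j, ENNReal.ofReal (res w N x j ^ 2) := fun x =>
    ENNReal.ofReal_sum_of_nonneg fun _ _ => sq_nonneg _
  simp only [h2]
  rw [lintegral_finsetSum _ fun j _ => ((((res_cont w N j).measurable).pow_const 2).ennreal_ofReal)]
  refine (Finset.sum_le_sum fun j _ => h1 j).trans ?_
  rw [Finset.sum_const, Finset.card_univ, Fintype.card_fin, nsmul_eq_mul,
    ← ENNReal.ofReal_natCast, ← ENNReal.ofReal_mul (by positivity)]

lemma prob_ex {k ε' : ℝ} {N K T n : ℕ} {w : Bool → ℕ → C(UnitAddCircle, ℝ)}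
    {Ex : Bool → ℕ → Set UnitAddCircle} (H : Quant k N K T ε' w Ex) (hK : 1 ≤ K)
    (hnK : 32 * n * N ≤ K) :
    Pn n (⋃ j : Fin n, ⋃ c : Fin 2, ⋃ s : Bool, ⋃ a ∈ Finset.Icc 1 N,
      {x : Fin n → Torus 2 | x j c ∈ Ex s a}) ≤ ENNReal.ofReal (1 / 8) := by
  have hK0 : (0 : ℝ) < K := by exact_mod_cast hK
  have h1 : ∀ (j : Fin n) (c : Fin 2) (s : Bool), ∀ a ∈ Finset.Icc 1 N,
      Pn n {x : Fin n → Torus 2 | x j c ∈ Ex s a} ≤ ENNReal.ofReal (1 / K) := by
    intro j c s a ha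
    rw [Finset.mem_Icc] at ha
    have hm := H.meas s a ha.1 ha.2
    have e1 : {x : Fin n → Torus 2 | x j c ∈ Ex s a}
        = (fun x : Fin n → Torus 2 => x j) ⁻¹' ((fun y : Torus 2 => y c) ⁻¹' Ex s a) := rfl
    have hm2 : MeasurableSet ((fun y : Torus 2 => y c) ⁻¹' Ex s a) := (measurable_pi_apply c) hm
    have e2 : Pn n {x : Fin n → Torus 2 | x j c ∈ Ex s a} = unif 2 ((fun y : Torus 2 => y c) ⁻¹' Ex s a) := by
      rw [e1]
      exact (measurePreserving_eval (fun _ : Fin n => unif 2) j).measure_preimage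
        hm2.nullMeasurableSet
    have e3 : unif 2 ((fun y : Torus 2 => y c) ⁻¹' Ex s a) = haar (Ex s a) :=
      (measurePreserving_eval (fun _ : Fin 2 => haar) c).measure_preimage hm.nullMeasurableSet
    rw [e2, e3]
    exact H.small s a ha.1 ha.2
  calc Pn n (⋃ j : Fin n, ⋃ c : Fin 2, ⋃ s : Bool, ⋃ a ∈ Finset.Icc 1 N,
      {x : Fin n → Torus 2 | x j c ∈ Ex s a})
      ≤ ∑ _j : Fin n, ∑ _c : Fin 2, ∑ _s : Bool, ∑ _a ∈ Finset.Icc 1 N, ENNReal.ofReal (1 / K) := by
        refine (measure_iUnion_fintype_le _ _).trans (Finset.sum_le_sum fun j _ => ?_)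
        refine (measure_iUnion_fintype_le _ _).trans (Finset.sum_le_sum fun c _ => ?_)
        refine (measure_iUnion_fintype_le _ _).trans (Finset.sum_le_sum fun s _ => ?_)
        refine (measure_biUnion_finset_le _ _).trans (Finset.sum_le_sum fun a ha => ?_)
        exact h1 j c s a ha
    _ ≤ _ := by
        simp only [Finset.sum_const, Finset.card_univ, Fintype.card_fin, Fintype.card_bool,
          Nat.card_Icc, Nat.add_sub_cancel, nsmul_eq_mul]
        rw [← ENNReal.ofReal_natCast, ← ENNReal.ofReal_natCast, ← ENNReal.ofReal_natCast,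
          ← ENNReal.ofReal_mul (by positivity), ← ENNReal.ofReal_mul (by positivity),
          ← ENNReal.ofReal_mul (by positivity), ← ENNReal.ofReal_mul (by positivity)]
        apply ENNReal.ofReal_le_ofReal
        have h2 : (32 : ℝ) * n * N ≤ K := by exact_mod_cast hnK
        rw [show (n : ℝ) * (((2 : ℕ) : ℝ) * (((2 : ℕ) : ℝ) * ((N : ℝ) * (1 / K)))) = (4 * n * N) / K
          by push_cast; ring]
        rw [div_le_div_iff₀ hK0 (by norm_num)]
        linarith

lemma prob_last {m Q : ℕ} (hQ : 72 * (m + 1) ≤ 4 ^ Q) :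
    Pn (m + 1) (⋃ j : Fin (m + 1), badS (rq (m + 1) Q) j) ≤ ENNReal.ofReal (1 / 8) := by
  have hR : 1 ≤ Rq (m + 1) Q := Nat.one_le_iff_ne_zero.2 (by unfold Rq; positivity)
  have hR0 : (0 : ℝ) < Rq (m + 1) Q := by exact_mod_cast hR
  have h1 : ∀ j : Fin (m + 1), Pn (m + 1) (badS (rq (m + 1) Q) j) ≤ ENNReal.ofReal (9 / 4 ^ Q) := by
    intro j
    refine (P1 _ j).trans ?_
    have e1 : 2 * rq (m + 1) Q = 3 / (Rq (m + 1) Q : ℝ) := by
      unfold rq
      field_simp
    rw [e1, ← ENNReal.ofReal_mul (by positivity)]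
    have e2 : ((m : ℝ≥0∞) ^ 2 + m) = ENNReal.ofReal ((m : ℝ) ^ 2 + m) := by
      rw [ENNReal.ofReal_add (by positivity) (by positivity), ENNReal.ofReal_pow (by positivity),
        ENNReal.ofReal_natCast]
    rw [e2, ← ENNReal.ofReal_mul (by positivity)]
    apply ENNReal.ofReal_le_ofReal
    have e6 : (m : ℝ) ^ 2 + m ≤ ((m + 1 : ℕ) : ℝ) ^ 2 := by
      push_cast
      nlinarith [(Nat.cast_nonneg m : (0 : ℝ) ≤ m)]
    have e7 : (Rq (m + 1) Q : ℝ) = ((m + 1 : ℕ) : ℝ) * 2 ^ Q := by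
      unfold Rq
      push_cast
      ring
    calc ((m : ℝ) ^ 2 + m) * (3 / (Rq (m + 1) Q : ℝ) * (3 / (Rq (m + 1) Q : ℝ)))
        ≤ ((m + 1 : ℕ) : ℝ) ^ 2 * (3 / (Rq (m + 1) Q : ℝ) * (3 / (Rq (m + 1) Q : ℝ))) := by gcongr
      _ = 9 / 4 ^ Q := by
          rw [e7]
          have : (2 : ℝ) ^ Q * 2 ^ Q = 4 ^ Q := by rw [← mul_pow]; norm_num
          rw [← this]
          field_simp
          norm_num
  calc Pn (m + 1) (⋃ j : Fin (m + 1), badS (rq (m + 1) Q) j)
      ≤ ∑ _j : Fin (m + 1), ENNReal.ofReal (9 / 4 ^ Q) :=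
        (measure_iUnion_fintype_le _ _).trans (Finset.sum_le_sum fun j _ => h1 j)
    _ ≤ _ := by
        rw [Finset.sum_const, Finset.card_univ, Fintype.card_fin, nsmul_eq_mul,
          ← ENNReal.ofReal_natCast, ← ENNReal.ofReal_mul (by positivity)]
        apply ENNReal.ofReal_le_ofReal
        have h2 : (72 : ℝ) * ((m + 1 : ℕ) : ℝ) ≤ 4 ^ Q := by exact_mod_cast hQ
        rw [← mul_div_assoc, div_le_div_iff₀ (by positivity) (by norm_num)]
        linarith

lemma S_mid {k ε' : ℝ} {N K T n Q : ℕ} {w : Bool → ℕ → C(UnitAddCircle, ℝ)}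
    {Ex : Bool → ℕ → Set UnitAddCircle} (H : Quant k N K T ε' w Ex) (hε : ε' ≤ 1)
    (i : I0 N) : |S (uD w N n Q (Sum.inr (Sum.inl i)))| ≤ 2 * ε' := by
  obtain ⟨h1, h2, h3, h4⟩ := rho_le i.1
  have e1 : S (uD w N n Q (Sum.inr (Sum.inl i)))
      = (∫ x, w i.2.1 i.1.1.1 x ∂haar) * ∫ x, w i.2.2 i.1.1.2 x ∂haar :=
    int2 (fun s => w i.2.1 i.1.1.1 s) (fun s => w i.2.2 i.1.1.2 s)
  rw [e1, abs_mul]
  have hi : ∀ s a, Integrable (fun x => w s a x) haar := fun s a =>
    integrable1_real (ContinuousMap.continuous _)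
  have hic : ∀ s a, Integrable (fun x => cs s a x) haar := fun s a =>
    integrable1_real (ContinuousMap.continuous _)
  have a1 : |∫ x, w i.2.1 i.1.1.1 x ∂haar| ≤ ε' := by
    have e2 : ∫ x, w i.2.1 i.1.1.1 x ∂haar
        = ∫ x, (w i.2.1 i.1.1.1 x - cs i.2.1 i.1.1.1 x) ∂haar := by
      rw [integral_sub (hi _ _) (hic _ _)]
      unfold cs
      rw [int_csF _ (by omega), sub_zero]
    rw [e2]
    have := norm_integral_le_of_norm_le_const (μ := haar)
      (f := fun x => w i.2.1 i.1.1.1 x - cs i.2.1 i.1.1.1 x) (C := ε')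
      (Eventually.of_forall fun x => by
        rw [Real.norm_eq_abs]
        exact H.close _ _ h1 h2 x)
    simpa using this
  have a2 : |∫ x, w i.2.2 i.1.1.2 x ∂haar| ≤ 2 := by
    have := norm_integral_le_of_norm_le_const (μ := haar)
      (f := fun x => w i.2.2 i.1.1.2 x) (C := 2)
      (Eventually.of_forall fun x => by
        rw [Real.norm_eq_abs]
        exact H.abs_le hε h3 h4 x)
    simpa using this
  calc |∫ x, w i.2.1 i.1.1.1 x ∂haar| * |∫ x, w i.2.2 i.1.1.2 x ∂haar| ≤ ε' * 2 := by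
        gcongr
        exact (abs_nonneg _).trans a1
    _ = _ := by ring

lemma S_hat {N n Q : ℕ} (w : Bool → ℕ → C(UnitAddCircle, ℝ)) (hn : 1 ≤ n) (h : HI n Q) :
    |S (uD w N n Q (Sum.inr (Sum.inr h)))| ≤ 2 / n := by
  obtain ⟨q, b, v⟩ := h
  have hR : 1 ≤ Rq n q := Nat.one_le_iff_ne_zero.2 (by unfold Rq; positivity)
  have hR0 : (0 : ℝ) < Rq n q := by exact_mod_cast hR
  have hn0 : (0 : ℝ) < n := by exact_mod_cast hn
  have e0 : ∫ x, cs false 0 x ∂haar = 1 := by
    simp only [cs_zero]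
    simp
  have e1 : S (uD w N n Q (Sum.inr (Sum.inr ⟨q, (b, v)⟩)))
      = ∫ x, trap (Rq n q) (vert n q v) x ∂haar := by
    cases b
    · have := int2 (fun s => trap (Rq n q) (vert n q v) s) (fun s => cs false 0 s)
      rw [e0, mul_one] at this
      exact this
    · have := int2 (fun s => cs false 0 s) (fun s => trap (Rq n q) (vert n q v) s)
      rw [e0, one_mul] at this
      exact this
  rw [e1, abs_of_nonneg (integral_nonneg fun x => trap_nonneg _ _ _)]
  refine (int_trap hR0 _).trans ?_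
  gcongr
  unfold Rq
  exact Nat.le_mul_of_pos_right _ (by positivity)

lemma delta_lim {Λ : ℕ} (hΛ : 1 ≤ Λ) :
    Tendsto (fun n : ℕ => (n : ℝ) / ((rho (n / Λ)).card : ℝ)) atTop (𝓝 0) := by
  have hΛ0 : (0 : ℝ) < Λ := by exact_mod_cast hΛ
  rw [Metric.tendsto_atTop']
  intro ε hε
  have h1 := card_rho_large (4 * Λ / ε)
  have h2 : Tendsto (fun n : ℕ => n / Λ) atTop atTop := Nat.tendsto_div_const_atTop (by omega)
  have h3 := (h2.eventually h1).and (eventually_ge_atTop (2 * Λ))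
  obtain ⟨n₀, hn₀⟩ := h3.exists_forall_of_atTop
  refine ⟨n₀, fun n hn => ?_⟩
  obtain ⟨h4, h5⟩ := hn₀ n hn.le
  have hN : 1 ≤ n / Λ := by
    rw [Nat.le_div_iff_mul_le (by omega)]
    omega
  have hN0 : (0 : ℝ) < ((n / Λ : ℕ) : ℝ) := by exact_mod_cast hN
  have h6 : n < (n / Λ + 1) * Λ := by
    have := Nat.lt_div_mul_add (a := n) (show 0 < Λ by omega)
    linarith
  have h7 : (n : ℝ) < (((n / Λ : ℕ) : ℝ) + 1) * Λ := by exact_mod_cast h6
  have h8 : (n : ℝ) < 2 * Λ * ((n / Λ : ℕ) : ℝ) := by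
    have : (1 : ℝ) ≤ ((n / Λ : ℕ) : ℝ) := by exact_mod_cast hN
    nlinarith
  rw [dist_zero_right, Real.norm_eq_abs, abs_of_nonneg (by positivity)]
  have hc : 0 < ((rho (n / Λ)).card : ℝ) := card_rho_pos hN
  rw [div_lt_iff₀ hc]
  have h9 : 4 * Λ * ((n / Λ : ℕ) : ℝ) ≤ ε * ((rho (n / Λ)).card : ℝ) := by
    have e : 4 * (Λ : ℝ) * ((n / Λ : ℕ) : ℝ) = ε * (4 * Λ / ε * ((n / Λ : ℕ) : ℝ)) := by
      field_simp
    rw [e]
    gcongr
  have h10 : 0 < (Λ : ℝ) * ((n / Λ : ℕ) : ℝ) := by positivity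
  linarith

end Pool.Agent.Helper579.Mix
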