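import Mathlib
import Pool.Agent.Helper579.MixLow6

set_option autoImplicit false

namespace Pool.Agent.Helper579.Mix

open MeasureTheory ProbabilityTheory Filter AddCircle
open scoped ENNReal Topology

lemma lower_core {k : ℝ} (hk0 : 0 ≤ k) (hk1 : k < 1) {Λ m : ℕ} (hΛ : 1 ≤ Λ)
    (hnΛ : Λ ≤ m + 1)
    (hδ : ((m + 1 : ℕ) : ℝ) / ((rho ((m + 1) / Λ)).card : ℝ) ≤ 1 / 2048)
    (hTT : TT k (((m + 1 : ℕ) : ℝ) / ((rho ((m + 1) / Λ)).card : ℝ)) ≤ (Λ : ℝ) ^ (-(2 * k)))
    (h4 : 72 * (m + 1) ≤ 4 ^ (m + 1)) :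
    ENNReal.ofReal (Real.sqrt (eps k / 5408) / 32 * ((Λ : ℝ) ^ k *
      ((m + 1 : ℕ) : ℝ) ^ (-(k + 1 / 2)))) ≤ eIid 2 k (m + 1) := by
  set n : ℝ := ((m + 1 : ℕ) : ℝ) with hn
  have hn1 : 1 ≤ n := by rw [hn]; push_cast; linarith [(Nat.cast_nonneg m : (0 : ℝ) ≤ m)]
  have hn0 : 0 < n := by linarith
  set N : ℕ := (m + 1) / Λ with hNd
  have hN : 1 ≤ N := by
    rw [hNd, Nat.le_div_iff_mul_le (by omega)]
    omega
  have hN0 : (0 : ℝ) < N := by exact_mod_cast hN
  have hΛ0 : (0 : ℝ) < Λ := by exact_mod_cast hΛ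
  have hΛ1 : (1 : ℝ) ≤ Λ := by exact_mod_cast hΛ
  have hMc := card_rho_pos hN
  have hbe := be_pos k
  have he := eps_pos hk1
  set δ : ℝ := n / ((rho N).card : ℝ) with hδd
  have hδ0 : 0 ≤ δ := by positivity
  have hΛk : 0 < (Λ : ℝ) ^ (-(2 * k)) := Real.rpow_pos_of_pos hΛ0 _
  set SB : ℝ := ∑ q : Fin (m + 1 + 1), be k ^ (q : ℕ) with hSB
  have hSB1 : 1 ≤ SB := by
    rw [hSB, Fin.sum_univ_succ]
    simp only [Fin.val_zero, pow_zero]
    have : 0 ≤ ∑ i : Fin (m + 1), be k ^ ((Fin.succ i : Fin (m + 1 + 1)) : ℕ) :=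
      Finset.sum_nonneg fun _ _ => pow_nonneg hbe.le _
    linarith
  set ε' : ℝ := min (1 / (130000 * n)) ((Λ : ℝ) ^ (-(2 * k)) / (120 * n * SB)) with hε'
  have hε0 : 0 < ε' := by
    rw [hε']
    apply lt_min <;> positivity
  have hεa : 130000 * n * ε' ≤ 1 := by
    have : ε' ≤ 1 / (130000 * n) := min_le_left _ _
    rw [le_div_iff₀ (by positivity)] at this
    linarith
  have hεb : 120 * n * SB * ε' ≤ (Λ : ℝ) ^ (-(2 * k)) := by
    have : ε' ≤ (Λ : ℝ) ^ (-(2 * k)) / (120 * n * SB) := min_le_right _ _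
    rw [le_div_iff₀ (by positivity)] at this
    linarith
  have hnε : 0 < n * ε' := by positivity
  have hε1 : ε' ≤ 1 := by nlinarith
  have h60 : 60 * n * ε' ≤ 1 / 2048 := by linarith
  have h60' : (60 * n * ε') ^ 2 ≤ 1 / 2048 := by
    have h0 : 0 ≤ 60 * n * ε' := by positivity
    nlinarith
  have h72 : 72 * n * ε' ^ 2 ≤ 1 := by
    have : 72 * n * ε' ^ 2 = 72 * (n * ε') * ε' := by ring
    rw [this]
    nlinarith
  set K : ℕ := 32 * (m + 1) * N with hK
  have hK1 : 1 ≤ K := by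
    rw [hK]
    have : 1 ≤ 32 * (m + 1) := by omega
    nlinarith
  obtain ⟨T, w, Ex, H⟩ := exists_quant hk0 hk1 N hK1 hε0
  -- the size of the cost
  set W : ℝ := n * n ^ (2 * k) * (Λ : ℝ) ^ (-(2 * k)) with hW
  have hn2k : (0 : ℝ) < n ^ (2 * k) := Real.rpow_pos_of_pos hn0 _
  have hW0 : 0 < W := by positivity
  have hNn : (N : ℝ) * Λ ≤ n := by
    rw [hNd, hn]
    exact_mod_cast Nat.div_mul_le_self _ _
  have hN2k : (N : ℝ) ^ (2 * k) ≤ n ^ (2 * k) * (Λ : ℝ) ^ (-(2 * k)) := by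
    have e1 : (N : ℝ) ≤ n * (Λ : ℝ)⁻¹ := by
      rw [← div_eq_mul_inv, le_div_iff₀ hΛ0]
      exact hNn
    calc (N : ℝ) ^ (2 * k) ≤ (n * (Λ : ℝ)⁻¹) ^ (2 * k) :=
          Real.rpow_le_rpow hN0.le e1 (by positivity)
      _ = _ := by
          rw [Real.mul_rpow hn0.le (by positivity), Real.inv_rpow hΛ0.le, Real.rpow_neg hΛ0.le]
  have hW1 : 1 ≤ W := by
    have e1 : 1 ≤ n ^ (2 * k) * (Λ : ℝ) ^ (-(2 * k)) := by
      refine le_trans ?_ hN2k
      exact Real.one_le_rpow (by exact_mod_cast hN) (by positivity)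
    rw [hW, mul_assoc]
    nlinarith
  -- expectations
  have hc1 := Ecost1 H hN hε0.le hε1 (n := m + 1) h72
  have hc2 := Ecost2 (Q := m + 1) H hN hε0.le hε1 hk1 (hδ.trans (by norm_num))
    (E := (Λ : ℝ) ^ (-(2 * k))) (by
      change 2 * (60 * n * ε') ^ 2 * SB ≤ _
      have h0 : 0 ≤ 60 * n * ε' := by positivity
      calc 2 * (60 * n * ε') ^ 2 * SB = (60 * n * ε') * (120 * n * SB * ε') := by ring
        _ ≤ 1 * (Λ : ℝ) ^ (-(2 * k)) := by
            gcongr
            linarith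
        _ = _ := one_mul _)
  have hm12 : Measurable fun x : Fin (m + 1) → Torus 2 =>
      1 + cost1 k w N x + cost2 k w N (m + 1) x :=
    ((measurable_const).add (cost1_meas k w N (m + 1))).add (cost2_meas k w N (m + 1) m)
  have hnn1 : ∀ x : Fin (m + 1) → Torus 2, 0 ≤ cost1 k w N x := by
    intro x
    unfold cost1
    have : 0 ≤ ∑ i : I0 N, al w N x i ^ 2 := Finset.sum_nonneg fun _ _ => sq_nonneg _
    positivity
  have hnn2 : ∀ x : Fin (m + 1) → Torus 2, 0 ≤ cost2 k w N (m + 1) x := by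
    intro x
    unfold cost2
    refine Finset.sum_nonneg fun j _ => Finset.sum_nonneg fun q _ => ?_
    have : 0 ≤ (tq (q : ℕ) j).indicator (fun x => res w N x j ^ 2) x :=
      Set.indicator_nonneg (fun _ _ => sq_nonneg _) _
    positivity
  have hEall : ∫⁻ x : Fin (m + 1) → Torus 2,
      ENNReal.ofReal (1 + cost1 k w N x + cost2 k w N (m + 1) x) ∂Pn (m + 1)
      ≤ ENNReal.ofReal (13 * W) := by
    have e1 : ∀ x : Fin (m + 1) → Torus 2,
        ENNReal.ofReal (1 + cost1 k w N x + cost2 k w N (m + 1) x)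
        = ENNReal.ofReal 1 + (ENNReal.ofReal (cost1 k w N x)
          + ENNReal.ofReal (cost2 k w N (m + 1) x)) := by
      intro x
      have := hnn1 x
      have := hnn2 x
      rw [← ENNReal.ofReal_add (by positivity) (by positivity), ← ENNReal.ofReal_add (by positivity)
        (by positivity), add_assoc]
    simp only [e1]
    rw [lintegral_add_left measurable_const, lintegral_const, measure_univ, mul_one,
      lintegral_add_left (cost1_meas k w N (m + 1)).ennreal_ofReal]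
    refine (add_le_add_right (add_le_add hc1 hc2) _).trans ?_
    have hTT0 : 0 ≤ TT k δ := tsum_nonneg fun q => (TT_bound hδ0 q).1
    rw [← ENNReal.ofReal_add (by positivity) (by positivity), ← ENNReal.ofReal_add (by norm_num)
        (by positivity)]
    apply ENNReal.ofReal_le_ofReal
    have f1 : 9 * n * (N : ℝ) ^ (2 * k) ≤ 9 * W := by
      rw [hW, mul_assoc n, ← mul_assoc 9 n]
      gcongr
    have f2 : n * n ^ (2 * k) * (2 * TT k δ + (Λ : ℝ) ^ (-(2 * k))) ≤ 3 * W := by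
      have e3 : 2 * TT k δ + (Λ : ℝ) ^ (-(2 * k)) ≤ 3 * (Λ : ℝ) ^ (-(2 * k)) := by linarith
      calc n * n ^ (2 * k) * (2 * TT k δ + (Λ : ℝ) ^ (-(2 * k)))
          ≤ n * n ^ (2 * k) * (3 * (Λ : ℝ) ^ (-(2 * k))) := by gcongr
        _ = 3 * W := by rw [hW]; ring
    change 1 + (9 * n * (N : ℝ) ^ (2 * k) + n * n ^ (2 * k) * (2 * TT k δ + (Λ : ℝ) ^ (-(2 * k)))) ≤ _
    linarith
  -- the bad set
  set B1 : Set (Fin (m + 1) → Torus 2) := {x | 104 * W < 1 + cost1 k w N x + cost2 k w N (m + 1) x}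
  set B2 : Set (Fin (m + 1) → Torus 2) := ⋃ j : Fin (m + 1), ⋃ c : Fin 2, ⋃ s : Bool,
    ⋃ a ∈ Finset.Icc 1 N, {x : Fin (m + 1) → Torus 2 | x j c ∈ Ex s a} with hB2
  set B3 : Set (Fin (m + 1) → Torus 2) := ⋃ j : Fin (m + 1), badS (rq (m + 1) (m + 1)) j with hB3
  set B4 : Set (Fin (m + 1) → Torus 2) := {x | n / 64 < ∑ j, res w N x j ^ 2}
  have p1 : Pn (m + 1) B1 ≤ ENNReal.ofReal (1 / 8) :=
    markov8 hm12 (by positivity) hEall (by linarith)
  have p2 : Pn (m + 1) B2 ≤ ENNReal.ofReal (1 / 8) := prob_ex H hK1 le_rfl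
  have p3 : Pn (m + 1) B3 ≤ ENNReal.ofReal (1 / 8) := prob_last h4
  have p4 : Pn (m + 1) B4 ≤ ENNReal.ofReal (1 / 8) := by
    refine markov8 ?_ (by positivity) (Eresw H hN hε0.le hε1) ?_
    · exact Finset.measurable_fun_sum _ fun j _ => ((res_cont w N j).measurable).pow_const 2
    · change n * (2 * δ + 2 * (60 * n * ε') ^ 2) ≤ n / 64 / 8
      have : 2 * δ + 2 * (60 * n * ε') ^ 2 ≤ 1 / 512 := by linarith
      calc n * (2 * δ + 2 * (60 * n * ε') ^ 2) ≤ n * (1 / 512) := by gcongr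
        _ = _ := by ring
  set lam : ℝ := Real.sqrt (eps k / 5408) * ((Λ : ℝ) ^ k * n ^ (-(k + 1 / 2))) with hlam
  have hΛk' : 0 < (Λ : ℝ) ^ k := Real.rpow_pos_of_pos hΛ0 _
  have hnk' : 0 < n ^ (-(k + 1 / 2)) := Real.rpow_pos_of_pos hn0 _
  have hlam0 : 0 < lam := by
    have : 0 < Real.sqrt (eps k / 5408) := Real.sqrt_pos.2 (by positivity)
    positivity
  have hlam2 : lam ^ 2 * W = eps k / 5408 := by
    rw [hlam, mul_pow, Real.sq_sqrt (by positivity), hW, mul_pow]
    have e1 : ((Λ : ℝ) ^ k) ^ 2 * (Λ : ℝ) ^ (-(2 * k)) = 1 := by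
      rw [← Real.rpow_natCast, ← Real.rpow_mul hΛ0.le, ← Real.rpow_add hΛ0]
      have : k * ((2 : ℕ) : ℝ) + -(2 * k) = 0 := by push_cast; ring
      rw [this, Real.rpow_zero]
    have e2 : (n ^ (-(k + 1 / 2))) ^ 2 * (n * n ^ (2 * k)) = 1 := by
      rw [← Real.rpow_natCast, ← Real.rpow_mul hn0.le]
      nth_rewrite 2 [← Real.rpow_one n]
      rw [← Real.rpow_add hn0, ← Real.rpow_add hn0]
      have : -(k + 1 / 2) * ((2 : ℕ) : ℝ) + (1 + 2 * k) = 0 := by push_cast; ring
      rw [this, Real.rpow_zero]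
    calc eps k / 5408 * (((Λ : ℝ) ^ k) ^ 2 * (n ^ (-(k + 1 / 2))) ^ 2) *
          (n * n ^ (2 * k) * (Λ : ℝ) ^ (-(2 * k)))
        = eps k / 5408 * (((Λ : ℝ) ^ k) ^ 2 * (Λ : ℝ) ^ (-(2 * k))) *
          ((n ^ (-(k + 1 / 2))) ^ 2 * (n * n ^ (2 * k))) := by ring
      _ = _ := by rw [e1, e2]; ring
  have hfin := abstract_lower (k := k) (uD w N (m + 1) (m + 1)) (dl lam N K T (m + 1) (m + 1))
    (bb k (eps k) lam N K T (m + 1) (m + 1)) ?_ (hnorm H hN hK1 hk0 hk1 hε1 hlam0)
    (lam / 2) (by positivity) (Pn (m + 1)) (B1 ∪ (B2 ∪ (B3 ∪ B4))) ?_ ?_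
  · refine le_trans (le_of_eq ?_) hfin
    congr 1
    rw [hlam]
    ring
  · -- positivity of the weights
    have hT0 : (0 : ℝ) < T := by exact_mod_cast H.hT
    have hK0 : (0 : ℝ) < K := by exact_mod_cast hK1
    have hN2kp : (0 : ℝ) < (N : ℝ) ^ (2 * k) := Real.rpow_pos_of_pos hN0 _
    rintro (_ | _ | _) <;> simp only [bb, dl, AA] <;> positivity
  · calc Pn (m + 1) (B1 ∪ (B2 ∪ (B3 ∪ B4)))
        ≤ Pn (m + 1) B1 + (Pn (m + 1) B2 + (Pn (m + 1) B3 + Pn (m + 1) B4)) := by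
          refine (measure_union_le _ _).trans ?_
          gcongr
          refine (measure_union_le _ _).trans ?_
          gcongr
          exact measure_union_le _ _
      _ ≤ ENNReal.ofReal (1 / 8) + (ENNReal.ofReal (1 / 8) + (ENNReal.ofReal (1 / 8)
            + ENNReal.ofReal (1 / 8))) := by gcongr
      _ = ENNReal.ofReal (1 / 2) := by
          rw [← ENNReal.ofReal_add (by norm_num) (by norm_num),
            ← ENNReal.ofReal_add (by norm_num) (by norm_num),
            ← ENNReal.ofReal_add (by norm_num) (by norm_num)]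
          norm_num
  · intro x hx
    simp only [Set.mem_union, not_or] at hx
    obtain ⟨x1, x2, x3, x4⟩ := hx
    have y1 : 1 + cost1 k w N x + cost2 k w N (m + 1) x ≤ 104 * W := not_lt.1 x1
    have y2 : ∀ j c, ∀ s, ∀ a, 1 ≤ a → a ≤ N → x j c ∉ Ex s a := by
      intro j c s a ha1 ha2 hcon
      apply x2
      rw [hB2]
      simp only [Set.mem_iUnion]
      exact ⟨j, c, s, a, Finset.mem_Icc.2 ⟨ha1, ha2⟩, hcon⟩
    have y3 : ∀ j, x ∉ badS (rq (m + 1) (m + 1)) j := by
      intro j hcon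
      apply x3
      rw [hB3, Set.mem_iUnion]
      exact ⟨j, hcon⟩
    have y4 : ∑ j, res w N x j ^ 2 ≤ n / 64 := not_lt.1 x4
    obtain ⟨y, f, g1, g2, g3⟩ := construct (ε := eps k) (lam := lam) H hN hK1 he x y2 y3
    refine ⟨y, ?_, g1, ?_⟩
    · refine g2.trans ?_
      calc lam ^ 2 / eps k * (1 + cost1 k w N x + cost2 k w N (m + 1) x)
          ≤ lam ^ 2 / eps k * (104 * W) := by gcongr
        _ = 104 / eps k * (lam ^ 2 * W) := by ring
        _ = 1 / 52 := by
            rw [hlam2]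
            field_simp
            norm_num
    · rw [g3, abs_mul, abs_of_pos hlam0]
      have k1 : |∑ i, al w N x i * S (uD w N (m + 1) (m + 1) (Sum.inr (Sum.inl i)))| ≤ 1 / 4 := by
        have hal : ∀ i : I0 N, |al w N x i| ≤ 4 * n / (rho N).card := by
          intro i
          unfold al
          rw [abs_mul, abs_of_pos (by positivity)]
          have : |∑ j, UU w i (x j)| ≤ 4 * n := by
            refine (Finset.abs_sum_le_sum_abs _ _).trans ?_
            calc ∑ j, |UU w i (x j)| ≤ ∑ _j : Fin (m + 1), (4 : ℝ) :=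
                  Finset.sum_le_sum fun j _ => H.UU_abs hε1 i _
              _ = 4 * n := by
                  rw [Finset.sum_const, Finset.card_univ, Fintype.card_fin, nsmul_eq_mul, hn]
                  ring
          calc 1 / ((rho N).card : ℝ) * |∑ j, UU w i (x j)| ≤ 1 / ((rho N).card : ℝ) * (4 * n) := by
                gcongr
            _ = _ := by ring
        calc |∑ i, al w N x i * S (uD w N (m + 1) (m + 1) (Sum.inr (Sum.inl i)))|
            ≤ ∑ i, |al w N x i * S (uD w N (m + 1) (m + 1) (Sum.inr (Sum.inl i)))| :=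
              Finset.abs_sum_le_sum_abs _ _
          _ ≤ ∑ _i : I0 N, 4 * n / (rho N).card * (2 * ε') := by
              apply Finset.sum_le_sum
              intro i _
              rw [abs_mul]
              gcongr
              · exact hal i
              · exact S_mid H hε1 i
          _ = 32 * (n * ε') := by
              rw [Finset.sum_const, Finset.card_univ, nsmul_eq_mul, card_I0]
              field_simp
              ring
          _ ≤ 1 / 4 := by linarith
      have k2 : |∑ j, res w N x j * S (uD w N (m + 1) (m + 1) (Sum.inr (Sum.inr (f j))))|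
          ≤ 1 / 4 := by
        have hsum : ∑ j, |res w N x j| ≤ n / 8 := by
          have h1 := Finset.sum_mul_sq_le_sq_mul_sq Finset.univ (fun j => |res w N x j|)
            (fun _ : Fin (m + 1) => (1 : ℝ))
          simp only [mul_one, sq_abs, one_pow, Finset.sum_const, Finset.card_univ,
            Fintype.card_fin, nsmul_eq_mul] at h1
          have h2 : (∑ j, |res w N x j|) ^ 2 ≤ (n / 8) ^ 2 := by
            refine h1.trans ?_
            calc (∑ j, res w N x j ^ 2) * n ≤ n / 64 * n := by gcongr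
              _ = _ := by ring
          exact abs_le_of_sq_le_sq' h2 (by positivity) |>.2
        calc |∑ j, res w N x j * S (uD w N (m + 1) (m + 1) (Sum.inr (Sum.inr (f j))))|
            ≤ ∑ j, |res w N x j * S (uD w N (m + 1) (m + 1) (Sum.inr (Sum.inr (f j))))| :=
              Finset.abs_sum_le_sum_abs _ _
          _ ≤ ∑ j, |res w N x j| * (2 / n) := by
              apply Finset.sum_le_sum
              intro j _
              rw [abs_mul]
              gcongr
              exact S_hat w (by omega) (f j)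
          _ = (∑ j, |res w N x j|) * (2 / n) := by rw [Finset.sum_mul]
          _ ≤ n / 8 * (2 / n) := by gcongr
          _ = 1 / 4 := by field_simp; norm_num
      rw [abs_le] at k1 k2
      have k3 : 1 / 2 ≤ 1 - ∑ i, al w N x i * S (uD w N (m + 1) (m + 1) (Sum.inr (Sum.inl i)))
          - ∑ j, res w N x j * S (uD w N (m + 1) (m + 1) (Sum.inr (Sum.inr (f j)))) := by
        linarith [k1.2, k2.2]
      rw [abs_of_nonneg (by linarith)]
      calc lam / 2 = lam * (1 / 2) := by ring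
        _ ≤ _ := by gcongr

/-- the lower bound for independent points -/
theorem lower_bound {k : ℝ} (hk0 : 0 ≤ k) (hk1 : k < 1) : ∃ c : ℝ, 0 < c ∧ ∀ Λ : ℕ, 1 ≤ Λ →
    ∀ᶠ n : ℕ in atTop,
      ENNReal.ofReal (c * ((Λ : ℝ) ^ k * (n : ℝ) ^ (-(k + 1 / 2)))) ≤ eIid 2 k n := by
  have he := eps_pos hk1
  refine ⟨Real.sqrt (eps k / 5408) / 32, by positivity, fun Λ hΛ => ?_⟩
  have hΛ0 : (0 : ℝ) < Λ := by exact_mod_cast hΛ
  have h1 := delta_lim hΛ
  have h2 := TT_lim hk1 (δ := fun n : ℕ => (n : ℝ) / ((rho (n / Λ)).card : ℝ))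
    (fun n => by positivity) h1
  have hΛk : 0 < (Λ : ℝ) ^ (-(2 * k)) := Real.rpow_pos_of_pos hΛ0 _
  have h3 : ∀ᶠ n : ℕ in atTop, 72 * n ≤ 4 ^ n := by
    filter_upwards [eventually_ge_atTop 5] with n hn
    induction n, hn using Nat.le_induction with
    | base => norm_num
    | succ n hn ih =>
      rw [pow_succ]
      omega
  filter_upwards [h1.eventually (ge_mem_nhds (show (0 : ℝ) < 1 / 2048 by norm_num)),
    h2.eventually (ge_mem_nhds hΛk), eventually_ge_atTop Λ, h3, eventually_ge_atTop 1] with n a1 a2 a3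
    a4 a5
  obtain ⟨m, rfl⟩ : ∃ m, n = m + 1 := ⟨n - 1, by omega⟩
  exact lower_core hk0 hk1 hΛ a3 a1 a2 a4

end Pool.Agent.Helper579.Mix
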