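import Mathlib
import Pool.Agent.Helper579.MixDefs

set_option autoImplicit false

namespace Pool.Agent.Helper579.Mix

open scoped ENNReal

/-- strips of level `r` -/
def Jx : ℕ → Type
  | 0 => Unit
  | r + 1 => Jx r × Bool

instance instFintypeJx : (r : ℕ) → Fintype (Jx r)
  | 0 => inferInstanceAs (Fintype Unit)
  | r + 1 => @instFintypeProd _ _ (instFintypeJx r) _

instance instDecJx : (r : ℕ) → DecidableEq (Jx r)
  | 0 => inferInstanceAs (DecidableEq Unit)
  | r + 1 => @instDecidableEqProd _ _ (instDecJx r) _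

/-- random nets -/
def NetT : ℕ → Type
  | 0 => Unit
  | r + 1 => NetT r × NetT r × (Jx r → Bool)

instance instFintypeNetT : (r : ℕ) → Fintype (NetT r)
  | 0 => inferInstanceAs (Fintype Unit)
  | r + 1 => @instFintypeProd _ _ (instFintypeNetT r)
      (@instFintypeProd _ _ (instFintypeNetT r) inferInstance)

instance instNonemptyNetT : (r : ℕ) → Nonempty (NetT r)
  | 0 => ⟨()⟩
  | r + 1 => ⟨((instNonemptyNetT r).some, (instNonemptyNetT r).some, fun _ => false)⟩

lemma sum_Jx_succ {M : Type} [AddCommMonoid M] (r : ℕ) (f : Jx (r + 1) → M) :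
    ∑ y : Jx (r + 1), f y = ∑ u : Jx r, ∑ e : Bool, f (u, e) :=
  Fintype.sum_prod_type (f := f)

lemma sum_NetT_succ {M : Type} [AddCommMonoid M] (r : ℕ) (f : NetT (r + 1) → M) :
    ∑ a : NetT (r + 1), f a = ∑ L : NetT r, ∑ R : NetT r, ∑ c : Jx r → Bool, f (L, R, c) := by
  have h1 : ∑ a : NetT (r + 1), f a = ∑ L : NetT r, ∑ b : NetT r × (Jx r → Bool), f (L, b) :=
    Fintype.sum_prod_type (f := f)
  rw [h1]
  apply Finset.sum_congr rfl
  intro L _
  exact Fintype.sum_prod_type (f := fun b : NetT r × (Jx r → Bool) => f (L, b))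

lemma card_Jx : ∀ r : ℕ, Fintype.card (Jx r) = 2 ^ r
  | 0 => rfl
  | r + 1 => by
    have h : Fintype.card (Jx (r + 1)) = Fintype.card (Jx r) * Fintype.card Bool :=
      Fintype.card_prod (Jx r) Bool
    rw [h, card_Jx r, Fintype.card_bool, pow_succ]

lemma card_NetT_succ (r : ℕ) : Fintype.card (NetT (r + 1))
    = Fintype.card (NetT r) * (Fintype.card (NetT r) * Fintype.card (Jx r → Bool)) := by
  have h : Fintype.card (NetT (r + 1)) = Fintype.card (NetT r) *
      Fintype.card (NetT r × (Jx r → Bool)) := Fintype.card_prod _ _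
  rw [h, Fintype.card_prod]

/-- horizontal positions of the points of a net -/
noncomputable def px : (r : ℕ) → NetT r → Jx r → ℝ
  | 0, _, _ => 0
  | r + 1, (L, R, c), (u, e) => if e = c u then px r L u / 2 else (1 + px r R u) / 2

/-- vertical positions -/
noncomputable def py : (r : ℕ) → Jx r → ℝ
  | 0, _ => 0
  | r + 1, (u, e) => py r u + (if e then 1 else 0) / 2 ^ (r + 1)

lemma px_succ (r : ℕ) (L R : NetT r) (c : Jx r → Bool) (u : Jx r) (e : Bool) :
    px (r + 1) (L, R, c) (u, e) = if e = c u then px r L u / 2 else (1 + px r R u) / 2 := rfl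

lemma py_succ (r : ℕ) (u : Jx r) (e : Bool) :
    py (r + 1) (u, e) = py r u + (if e then 1 else 0) / 2 ^ (r + 1) := rfl

lemma px_mem : ∀ (r : ℕ) (a : NetT r) (y : Jx r), 0 ≤ px r a y ∧ px r a y ≤ 1
  | 0, _, _ => by simp [px]
  | r + 1, (L, R, c), (u, e) => by
    have h1 := px_mem r L u
    have h2 := px_mem r R u
    rw [px_succ]
    split_ifs <;> constructor <;> linarith [h1.1, h1.2, h2.1, h2.2]

/-- the exponential -/
noncomputable def ex (t : ℝ) : ℂ := Complex.exp (((2 * Real.pi * t : ℝ) : ℂ) * Complex.I)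

lemma ex_add (s t : ℝ) : ex (s + t) = ex s * ex t := by
  unfold ex
  rw [← Complex.exp_add]
  congr 1
  push_cast
  ring

lemma ex_zero : ex 0 = 1 := by
  unfold ex
  simp

lemma norm_ex (t : ℝ) : ‖ex t‖ = 1 := by
  unfold ex
  exact Complex.norm_exp_ofReal_mul_I _

lemma ex_int (n : ℤ) : ex n = 1 := by
  unfold ex
  rw [Complex.exp_eq_one_iff]
  exact ⟨n, by push_cast; ring⟩

/-- bound for the differences of exponentials -/
noncomputable def MM (x : ℝ) : ℝ := min 4 (4 * Real.pi ^ 2 * x ^ 2)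

lemma MM_nonneg (x : ℝ) : 0 ≤ MM x := le_min (by norm_num) (by positivity)

lemma MM_le (x : ℝ) : MM x ≤ 40 * min 1 (x ^ 2) := by
  have h1 : Real.pi ^ 2 ≤ 10 := by
    have := Real.pi_lt_d2
    have := Real.pi_pos
    nlinarith
  have h2 : 0 ≤ x ^ 2 := sq_nonneg x
  unfold MM
  rcases le_total 1 (x ^ 2) with h | h
  · rw [min_eq_left h]
    exact (min_le_left _ _).trans (by norm_num)
  · rw [min_eq_right h]
    refine (min_le_right _ _).trans ?_
    nlinarith

lemma norm_ex_sub_one (t : ℝ) : ‖ex t - 1‖ ≤ 2 * Real.pi * |t| := by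
  unfold ex
  rw [mul_comm, Complex.norm_exp_I_mul_ofReal_sub_one, Real.norm_eq_abs, abs_mul, abs_two]
  have : |Real.sin (2 * Real.pi * t / 2)| ≤ |2 * Real.pi * t / 2| := Real.abs_sin_le_abs
  have e : 2 * Real.pi * t / 2 = Real.pi * t := by ring
  rw [e, abs_mul, abs_of_pos Real.pi_pos] at this
  rw [e]
  linarith

lemma ex_diff {s t x : ℝ} (h : |s - t| ≤ |x|) : ‖ex s - ex t‖ ^ 2 ≤ MM x := by
  have e1 : ex s - ex t = ex t * (ex (s - t) - 1) := by
    rw [mul_sub, ← ex_add, mul_one]
    congr 2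
    ring
  have h1 : ‖ex s - ex t‖ ≤ 2 * Real.pi * |x| := by
    rw [e1, norm_mul, norm_ex, one_mul]
    refine (norm_ex_sub_one _).trans ?_
    have := Real.pi_pos
    gcongr
  have h2 : ‖ex s - ex t‖ ≤ 2 := by
    refine (norm_sub_le _ _).trans ?_
    rw [norm_ex, norm_ex]
    norm_num
  have h0 := norm_nonneg (ex s - ex t)
  unfold MM
  apply le_min
  · nlinarith
  · calc ‖ex s - ex t‖ ^ 2 ≤ (2 * Real.pi * |x|) ^ 2 := by gcongr
      _ = 4 * Real.pi ^ 2 * x ^ 2 := by
          rw [mul_pow, sq_abs]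
          ring

/-- the exponential sum over the points of a net -/
noncomputable def ZZ (r : ℕ) (a : NetT r) (α β : ℝ) : ℂ :=
  ∑ y : Jx r, ex (α * px r a y) * ex (β * py r y)

/-- its mean -/
noncomputable def mm : ℕ → ℝ → ℝ → ℂ
  | 0, _, _ => 1
  | r + 1, α, β => (1 + ex (β / 2 ^ (r + 1))) / 2 * ((1 + ex (α / 2)) * mm r (α / 2) β)

/-- signs -/
def sgn (b : Bool) : ℝ := if b then -1 else 1

/-- averages -/
noncomputable def av {A : Type} [Fintype A] (f : A → ℝ) : ℝ := (∑ a, f a) / Fintype.card A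

lemma av_add {A : Type} [Fintype A] (f g : A → ℝ) : av (fun a => f a + g a) = av f + av g := by
  unfold av
  rw [Finset.sum_add_distrib, add_div]

lemma av_mul {A : Type} [Fintype A] (c : ℝ) (f : A → ℝ) : av (fun a => c * f a) = c * av f := by
  unfold av
  rw [← Finset.mul_sum, mul_div_assoc]

lemma av_const {A : Type} [Fintype A] [Nonempty A] (c : ℝ) : av (fun _ : A => c) = c := by
  unfold av
  rw [Finset.sum_const, Finset.card_univ, nsmul_eq_mul]
  have : (Fintype.card A : ℝ) ≠ 0 := by exact_mod_cast Fintype.card_ne_zero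
  field_simp

lemma av_mono {A : Type} [Fintype A] {f g : A → ℝ} (h : ∀ a, f a ≤ g a) : av f ≤ av g := by
  unfold av
  gcongr with a _
  exact h a

lemma av_sum {A I : Type} [Fintype A] (s : Finset I) (f : I → A → ℝ) :
    av (fun a => ∑ i ∈ s, f i a) = ∑ i ∈ s, av (f i) := by
  unfold av
  rw [Finset.sum_comm, Finset.sum_div]

lemma av_sgn {J : Type} [Fintype J] [DecidableEq J] (u : J) :
    av (fun c : J → Bool => sgn (c u)) = 0 := by
  unfold av
  have h : ∑ c : J → Bool, sgn (c u) = -∑ c : J → Bool, sgn (c u) := by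
    rw [← Finset.sum_neg_distrib]
    apply Fintype.sum_equiv
      (⟨fun c => Function.update c u (!(c u)), fun c => Function.update c u (!(c u)),
        fun c => by simp, fun c => by simp⟩ : (J → Bool) ≃ (J → Bool))
    intro c
    simp only [Equiv.coe_fn_mk, Function.update_self]
    cases c u <;> simp [sgn]
  have : ∑ c : J → Bool, sgn (c u) = 0 := by linarith
  rw [this, zero_div]

lemma av_sgn_mul {J : Type} [Fintype J] [DecidableEq J] (u v : J) :
    av (fun c : J → Bool => sgn (c u) * sgn (c v)) = if u = v then 1 else 0 := by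
  split_ifs with huv
  · subst huv
    have h1 : ∀ c : J → Bool, sgn (c u) * sgn (c u) = 1 := by
      intro c
      cases c u <;> simp [sgn]
    simp only [h1]
    exact av_const 1
  · unfold av
    have h : ∑ c : J → Bool, sgn (c u) * sgn (c v) = -∑ c : J → Bool, sgn (c u) * sgn (c v) := by
      rw [← Finset.sum_neg_distrib]
      apply Fintype.sum_equiv
        (⟨fun c => Function.update c u (!(c u)), fun c => Function.update c u (!(c u)),
          fun c => by simp, fun c => by simp⟩ : (J → Bool) ≃ (J → Bool))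
      intro c
      simp only [Equiv.coe_fn_mk, Function.update_self]
      rw [Function.update_of_ne (Ne.symm huv)]
      cases c u <;> cases c v <;> simp [sgn]
    have : ∑ c : J → Bool, sgn (c u) * sgn (c v) = 0 := by linarith
    rw [this, zero_div]

lemma av_signs {J : Type} [Fintype J] [DecidableEq J] (p : ℝ) (q : J → ℝ) :
    av (fun c : J → Bool => (p + ∑ u, sgn (c u) * q u) ^ 2) = p ^ 2 + ∑ u, q u ^ 2 := by
  have h1 : ∀ c : J → Bool, (p + ∑ u, sgn (c u) * q u) ^ 2
      = (p ^ 2 + ∑ u, (2 * p * q u) * sgn (c u))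
        + ∑ u, ∑ v, (q u * q v) * (sgn (c u) * sgn (c v)) := by
    intro c
    have e1 : (∑ u, sgn (c u) * q u) ^ 2 = ∑ u, ∑ v, (q u * q v) * (sgn (c u) * sgn (c v)) := by
      rw [sq, Finset.sum_mul_sum]
      exact Finset.sum_congr rfl fun u _ => Finset.sum_congr rfl fun v _ => by ring
    have e2 : ∑ u, (2 * p * q u) * sgn (c u) = 2 * p * ∑ u, sgn (c u) * q u := by
      rw [Finset.mul_sum]
      exact Finset.sum_congr rfl fun u _ => by ring
    rw [← e1, e2]
    ring
  simp only [h1]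
  rw [av_add, av_add, av_const, av_sum, av_sum]
  simp only [av_mul, av_sum, av_sgn, mul_zero, Finset.sum_const_zero, add_zero, av_sgn_mul]
  congr 1
  apply Finset.sum_congr rfl
  intro u _
  simp only [mul_ite, mul_one, mul_zero, Finset.sum_ite_eq, Finset.mem_univ, if_true]
  ring

lemma av_signs_complex {J : Type} [Fintype J] [DecidableEq J] (p : ℂ) (q : J → ℂ) :
    av (fun c : J → Bool => ‖p + ∑ u, (sgn (c u) : ℂ) * q u‖ ^ 2) = ‖p‖ ^ 2 + ∑ u, ‖q u‖ ^ 2 := by
  have h0 : ∀ z : ℂ, ‖z‖ ^ 2 = z.re ^ 2 + z.im ^ 2 := by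
    intro z
    rw [← Complex.normSq_eq_norm_sq, Complex.normSq_apply]
    ring
  simp only [h0, Complex.add_re, Complex.add_im, Complex.re_sum, Complex.im_sum,
    Complex.re_ofReal_mul, Complex.im_ofReal_mul]
  rw [av_add, av_signs, av_signs, Finset.sum_add_distrib]
  ring

end Pool.Agent.Helper579.Mix
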