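import Mathlib
import Pool.Agent.Helper579.MixNet1

set_option autoImplicit false

namespace Pool.Agent.Helper579.Mix

open scoped ENNReal

lemma av_NetT_succ (r : ℕ) (f : NetT (r + 1) → ℝ) :
    av f = av fun L : NetT r => av fun R : NetT r => av fun c : Jx r → Bool => f (L, R, c) := by
  unfold av
  rw [sum_NetT_succ, card_NetT_succ]
  simp only [← Finset.sum_div]
  push_cast
  rw [div_div, div_div]
  congr 1
  ring

lemma ZZ_succ (r : ℕ) (L R : NetT r) (c : Jx r → Bool) (α β : ℝ) :
    ZZ (r + 1) (L, R, c) α β = (1 + ex (β / 2 ^ (r + 1))) / 2 *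
      (ZZ r L (α / 2) β + ex (α / 2) * ZZ r R (α / 2) β)
      + ∑ u : Jx r, (sgn (c u) : ℂ) * ((1 - ex (β / 2 ^ (r + 1))) / 2 * (ex (β * py r u) *
        (ex (α / 2 * px r L u) - ex (α / 2) * ex (α / 2 * px r R u)))) := by
  unfold ZZ
  rw [sum_Jx_succ, Finset.mul_sum, ← Finset.sum_add_distrib, Finset.mul_sum,
    ← Finset.sum_add_distrib]
  apply Finset.sum_congr rfl
  intro u _
  rw [Fintype.sum_bool]
  have e1 : ex (α * (px r L u / 2)) = ex (α / 2 * px r L u) := by congr 1; ring
  have e2 : ex (α * ((1 + px r R u) / 2)) = ex (α / 2) * ex (α / 2 * px r R u) := by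
    rw [← ex_add]; congr 1; ring
  have e3 : ex (β * (py r u + 1 / 2 ^ (r + 1))) = ex (β * py r u) * ex (β / 2 ^ (r + 1)) := by
    rw [← ex_add]; congr 1; ring
  have e4 : ex (β * (py r u + 0 / 2 ^ (r + 1))) = ex (β * py r u) := by congr 1; ring
  rw [px_succ, px_succ, py_succ, py_succ]
  cases hc : c u
  · simp only [sgn, if_true, Bool.false_eq_true, Bool.true_eq_false, if_false]
    rw [e1, e2, e3, e4]
    push_cast
    ring
  · simp only [sgn, if_true, Bool.false_eq_true, if_false]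
    rw [e1, e2, e3, e4]
    push_cast
    ring

lemma sum_sgn {J : Type} [Fintype J] [DecidableEq J] (u : J) :
    ∑ c : J → Bool, sgn (c u) = 0 := by
  have h := av_sgn u
  unfold av at h
  have h2 : (Fintype.card (J → Bool) : ℝ) ≠ 0 := by exact_mod_cast Fintype.card_ne_zero
  rw [div_eq_zero_iff] at h
  tauto

lemma mean_Z (r : ℕ) : ∀ α β : ℝ, ∑ a : NetT r, ZZ r a α β
    = (Fintype.card (NetT r) : ℂ) * mm r α β := by
  induction r with
  | zero =>
    intro α β
    have h1 : ∑ a : NetT 0, ZZ 0 a α β = ∑ a : Unit, (1 : ℂ) := by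
      apply Finset.sum_congr rfl
      intro a _
      unfold ZZ
      have : ∑ y : Jx 0, ex (α * px 0 a y) * ex (β * py 0 y) = ∑ y : Unit, (1 : ℂ) := by
        apply Finset.sum_congr rfl
        intro y _
        change ex (α * 0) * ex (β * 0) = 1
        rw [mul_zero, mul_zero, ex_zero, mul_one]
      rw [this]
      simp
    rw [h1]
    have h2 : Fintype.card (NetT 0) = 1 := rfl
    rw [h2]
    simp [mm]
  | succ r ih =>
    intro α β
    rw [sum_NetT_succ, card_NetT_succ]
    simp only [ZZ_succ]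
    have h1 : ∀ L R : NetT r, ∑ c : Jx r → Bool, ((1 + ex (β / 2 ^ (r + 1))) / 2 *
      (ZZ r L (α / 2) β + ex (α / 2) * ZZ r R (α / 2) β)
      + ∑ u : Jx r, (sgn (c u) : ℂ) * ((1 - ex (β / 2 ^ (r + 1))) / 2 * (ex (β * py r u) *
        (ex (α / 2 * px r L u) - ex (α / 2) * ex (α / 2 * px r R u)))))
        = (Fintype.card (Jx r → Bool) : ℂ) * ((1 + ex (β / 2 ^ (r + 1))) / 2 *
      (ZZ r L (α / 2) β + ex (α / 2) * ZZ r R (α / 2) β)) := by
      intro L R
      rw [Finset.sum_add_distrib, Finset.sum_comm]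
      have h2 : ∀ u : Jx r, ∑ c : Jx r → Bool, (sgn (c u) : ℂ) * ((1 - ex (β / 2 ^ (r + 1))) / 2 *
          (ex (β * py r u) * (ex (α / 2 * px r L u) - ex (α / 2) * ex (α / 2 * px r R u)))) = 0 := by
        intro u
        rw [← Finset.sum_mul, ← Complex.ofReal_sum, sum_sgn]
        simp
      simp only [h2, Finset.sum_const_zero, add_zero, Finset.sum_const, Finset.card_univ,
        nsmul_eq_mul]
    simp only [h1]
    simp only [← Finset.mul_sum, Finset.sum_add_distrib, Finset.sum_const, Finset.card_univ,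
      nsmul_eq_mul]
    rw [ih]
    simp only [mm]
    push_cast
    ring

/-- the variance bound -/
noncomputable def VB : ℕ → ℝ → ℝ → ℝ
  | 0, _, _ => 0
  | r + 1, α, β => 2 * VB r (α / 2) β + 2 ^ r / 4 * (MM (β / 2 ^ (r + 1)) * MM α)

lemma VB_nonneg : ∀ (r : ℕ) (α β : ℝ), 0 ≤ VB r α β
  | 0, _, _ => le_rfl
  | r + 1, α, β => by
    have h1 := VB_nonneg r (α / 2) β
    have h2 := MM_nonneg (β / 2 ^ (r + 1))
    have h3 := MM_nonneg α
    unfold VB
    positivity

lemma norm_add_sq_av {A : Type} [Fintype A] [Nonempty A] (x : A → ℂ) (hx : ∑ a, x a = 0) {τ : ℂ}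
    (hτ : ‖τ‖ = 1) :
    av (fun L : A => av fun R : A => ‖x L + τ * x R‖ ^ 2) = 2 * av fun a => ‖x a‖ ^ 2 := by
  have h0 : ∀ z w : ℂ, ‖z + τ * w‖ ^ 2 = ‖z‖ ^ 2 + ‖w‖ ^ 2
      + (2 * (z * (starRingEnd ℂ) (τ * w)).re) := by
    intro z w
    rw [← Complex.normSq_eq_norm_sq, ← Complex.normSq_eq_norm_sq, ← Complex.normSq_eq_norm_sq,
      Complex.normSq_add, Complex.normSq_mul]
    have : Complex.normSq τ = 1 := by rw [Complex.normSq_eq_norm_sq, hτ, one_pow]
    rw [this, one_mul]
  have h1 : ∀ L : A, av (fun R : A => 2 * (x L * (starRingEnd ℂ) (τ * x R)).re) = 0 := by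
    intro L
    rw [av_mul]
    unfold av
    rw [← Complex.re_sum, ← Finset.mul_sum, ← map_sum, ← Finset.mul_sum, hx]
    simp
  simp only [h0]
  have h2 : ∀ L : A, av (fun R : A => ‖x L‖ ^ 2 + ‖x R‖ ^ 2
      + (2 * (x L * (starRingEnd ℂ) (τ * x R)).re)) = ‖x L‖ ^ 2 + av fun a => ‖x a‖ ^ 2 := by
    intro L
    rw [av_add, av_add, h1 L, av_const, add_zero]
  simp only [h2]
  rw [av_add, av_const]
  ring

lemma var_Z (r : ℕ) : ∀ α β : ℝ, av (fun a : NetT r => ‖ZZ r a α β - mm r α β‖ ^ 2)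
    ≤ VB r α β := by
  induction r with
  | zero =>
    intro α β
    have h1 : ∀ a : NetT 0, ‖ZZ 0 a α β - mm 0 α β‖ ^ 2 = 0 := by
      intro a
      have : ZZ 0 a α β = 1 := by
        unfold ZZ
        have : ∑ y : Jx 0, ex (α * px 0 a y) * ex (β * py 0 y) = ∑ y : Unit, (1 : ℂ) := by
          apply Finset.sum_congr rfl
          intro y _
          change ex (α * 0) * ex (β * 0) = 1
          rw [mul_zero, mul_zero, ex_zero, mul_one]
        rw [this]
        simp
      rw [this]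
      simp [mm]
    simp only [h1]
    rw [av_const]
    exact VB_nonneg 0 α β
  | succ r ih =>
    intro α β
    rw [av_NetT_succ]
    set ζ := ex (β / 2 ^ (r + 1)) with hζ
    set τ := ex (α / 2) with hτ
    have hζ1 : ‖(1 + ζ) / 2‖ ≤ 1 := by
      rw [norm_div, Complex.norm_two, div_le_one (by norm_num)]
      refine (norm_add_le _ _).trans ?_
      rw [norm_one, hζ, norm_ex]
      norm_num
    have h1 : ∀ (L R : NetT r) (c : Jx r → Bool), ZZ (r + 1) (L, R, c) α β - mm (r + 1) α β
        = (1 + ζ) / 2 * ((ZZ r L (α / 2) β - mm r (α / 2) β) +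
          τ * (ZZ r R (α / 2) β - mm r (α / 2) β))
          + ∑ u : Jx r, (sgn (c u) : ℂ) * ((1 - ζ) / 2 * (ex (β * py r u) *
            (ex (α / 2 * px r L u) - τ * ex (α / 2 * px r R u)))) := by
      intro L R c
      rw [ZZ_succ]
      simp only [mm]
      ring
    simp only [h1]
    simp only [av_signs_complex]
    have hq : ∀ (L R : NetT r) (u : Jx r), ‖(1 - ζ) / 2 * (ex (β * py r u) *
            (ex (α / 2 * px r L u) - τ * ex (α / 2 * px r R u)))‖ ^ 2
            ≤ 1 / 4 * (MM (β / 2 ^ (r + 1)) * MM α) := by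
      intro L R u
      have g1 : ‖1 - ζ‖ ^ 2 ≤ MM (β / 2 ^ (r + 1)) := by
        have := ex_diff (s := 0) (t := β / 2 ^ (r + 1)) (x := β / 2 ^ (r + 1)) (by
          rw [zero_sub, abs_neg])
        rwa [ex_zero] at this
      have g2 : ‖ex (α / 2 * px r L u) - τ * ex (α / 2 * px r R u)‖ ^ 2 ≤ MM α := by
        rw [hτ, ← ex_add]
        apply ex_diff
        have e : α / 2 * px r L u - (α / 2 + α / 2 * px r R u)
            = α * ((px r L u - 1 - px r R u) / 2) := by ring
        rw [e, abs_mul]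
        have h2 : |(px r L u - 1 - px r R u) / 2| ≤ 1 := by
          have a1 := px_mem r L u
          have a2 := px_mem r R u
          rw [abs_le]
          constructor <;> linarith [a1.1, a1.2, a2.1, a2.2]
        calc |α| * |(px r L u - 1 - px r R u) / 2| ≤ |α| * 1 := by gcongr
          _ = |α| := mul_one _
      rw [norm_mul, norm_mul, norm_ex, one_mul, norm_div, Complex.norm_two, mul_pow, div_pow]
      calc ‖1 - ζ‖ ^ 2 / 2 ^ 2 * ‖ex (α / 2 * px r L u) - τ * ex (α / 2 * px r R u)‖ ^ 2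
          ≤ MM (β / 2 ^ (r + 1)) / 2 ^ 2 * MM α := by
            gcongr
            exact div_nonneg (MM_nonneg _) (by norm_num)
        _ = _ := by ring
    have hsum : ∀ (L R : NetT r), ∑ u : Jx r, ‖(1 - ζ) / 2 * (ex (β * py r u) *
            (ex (α / 2 * px r L u) - τ * ex (α / 2 * px r R u)))‖ ^ 2
            ≤ 2 ^ r / 4 * (MM (β / 2 ^ (r + 1)) * MM α) := by
      intro L R
      refine (Finset.sum_le_sum fun u _ => hq L R u).trans ?_
      rw [Finset.sum_const, Finset.card_univ, nsmul_eq_mul, card_Jx]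
      push_cast
      apply le_of_eq
      ring
    set x : NetT r → ℂ := fun a => ZZ r a (α / 2) β - mm r (α / 2) β with hx
    have hx0 : ∑ a, x a = 0 := by
      rw [hx, Finset.sum_sub_distrib, mean_Z]
      simp
    have hP : ∀ L R : NetT r, ‖(1 + ζ) / 2 * (x L + τ * x R)‖ ^ 2 ≤ ‖x L + τ * x R‖ ^ 2 := by
      intro L R
      rw [norm_mul, mul_pow]
      have h3 : ‖(1 + ζ) / 2‖ ^ 2 ≤ 1 := by
        have := norm_nonneg ((1 + ζ) / 2)
        nlinarith
      nlinarith [sq_nonneg ‖x L + τ * x R‖]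
    calc av (fun L : NetT r => av fun R : NetT r => ‖(1 + ζ) / 2 * (x L + τ * x R)‖ ^ 2
          + ∑ u : Jx r, ‖(1 - ζ) / 2 * (ex (β * py r u) *
            (ex (α / 2 * px r L u) - τ * ex (α / 2 * px r R u)))‖ ^ 2)
        ≤ av (fun L : NetT r => av fun R : NetT r => ‖x L + τ * x R‖ ^ 2
          + 2 ^ r / 4 * (MM (β / 2 ^ (r + 1)) * MM α)) := by
          apply av_mono
          intro L
          apply av_mono
          intro R
          exact add_le_add (hP L R) (hsum L R)
      _ = 2 * av (fun a => ‖x a‖ ^ 2) + 2 ^ r / 4 * (MM (β / 2 ^ (r + 1)) * MM α) := by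
          simp only [av_add, av_const]
          rw [norm_add_sq_av x hx0 (norm_ex _)]
      _ ≤ VB (r + 1) α β := by
          have := ih (α / 2) β
          simp only [VB]
          linarith

end Pool.Agent.Helper579.Mix
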