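import Mathlib
import Pool.Agent.Helper579.MixNet2

set_option autoImplicit false

namespace Pool.Agent.Helper579.Mix

open scoped ENNReal
open MeasureTheory

/-- `2^(2k)` -/
noncomputable def qq (k : ℝ) : ℝ := (2 : ℝ) ^ (2 * k)

lemma qq_pos (k : ℝ) : 0 < qq k := Real.rpow_pos_of_pos (by norm_num) _

lemma qq_gt {k : ℝ} (hk : 0 < k) : 1 < qq k := Real.one_lt_rpow (by norm_num) (by linarith)

lemma qq_lt {k : ℝ} (hk : k < 1) : qq k < 4 := by
  unfold qq
  calc (2 : ℝ) ^ (2 * k) < 2 ^ (2 : ℝ) := Real.rpow_lt_rpow_of_exponent_lt (by norm_num) (by linarith)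
    _ = 4 := by norm_num

lemma MM_rpow {k : ℝ} (hk0 : 0 ≤ k) (hk1 : k ≤ 1) (x : ℝ) : MM x ≤ 40 * |x| ^ (2 * k) := by
  refine (MM_le x).trans ?_
  have h0 := abs_nonneg x
  rcases le_total 1 |x| with h | h
  · have : 1 ≤ |x| ^ (2 * k) := Real.one_le_rpow h (by positivity)
    have := min_le_left 1 (x ^ 2)
    linarith
  · have h1 : x ^ 2 ≤ |x| ^ (2 * k) := by
      rw [← sq_abs]
      rcases eq_or_lt_of_le h0 with h2 | h2
      · rw [← h2]
        have : (0 : ℝ) ≤ 0 ^ (2 * k) := Real.rpow_nonneg le_rfl _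
        simpa using this
      · calc |x| ^ 2 = |x| ^ (2 : ℝ) := by rw [Real.rpow_two]
          _ ≤ |x| ^ (2 * k) := Real.rpow_le_rpow_of_exponent_ge h2 h (by linarith)
    have := min_le_right 1 (x ^ 2)
    linarith

/-- first form of the bound -/
lemma VB_le_sum {k : ℝ} (hk0 : 0 ≤ k) (hk1 : k ≤ 1) (β : ℝ) (r : ℕ) : ∀ α : ℝ,
    VB r α β ≤ 2 ^ r * (|β| ^ (2 * k) / qq k ^ r) *
      (5 * ∑ i ∈ Finset.range r, qq k ^ i * MM (α / 2 ^ i)) := by
  have hq := qq_pos k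
  have hb : 0 ≤ |β| ^ (2 * k) := Real.rpow_nonneg (abs_nonneg _) _
  induction r with
  | zero =>
    intro α
    simp [VB]
  | succ r ih =>
    intro α
    simp only [VB]
    have h1 := ih (α / 2)
    have h2 : MM (β / 2 ^ (r + 1)) ≤ 40 * (|β| ^ (2 * k) / qq k ^ (r + 1)) := by
      refine (MM_rpow hk0 hk1 _).trans (le_of_eq ?_)
      rw [abs_div, abs_of_pos (by positivity : (0 : ℝ) < 2 ^ (r + 1)),
        Real.div_rpow (abs_nonneg _) (by positivity)]
      congr 2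
      unfold qq
      rw [← Real.rpow_natCast, ← Real.rpow_natCast, ← Real.rpow_mul (by norm_num),
        ← Real.rpow_mul (by norm_num)]
      congr 1
      ring
    have h3 := MM_nonneg α
    rw [Finset.sum_range_succ']
    have e1 : ∑ i ∈ Finset.range r, qq k ^ (i + 1) * MM (α / 2 ^ (i + 1))
        = qq k * ∑ i ∈ Finset.range r, qq k ^ i * MM (α / 2 / 2 ^ i) := by
      rw [Finset.mul_sum]
      apply Finset.sum_congr rfl
      intro i _
      rw [pow_succ, pow_succ, div_div, mul_comm (2 : ℝ) (2 ^ i)]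
      ring
    rw [e1]
    simp only [pow_zero, div_one, one_mul]
    set Sm := ∑ i ∈ Finset.range r, qq k ^ i * MM (α / 2 / 2 ^ i)
    calc 2 * VB r (α / 2) β + 2 ^ r / 4 * (MM (β / 2 ^ (r + 1)) * MM α)
        ≤ 2 * (2 ^ r * (|β| ^ (2 * k) / qq k ^ r) * (5 * Sm))
          + 2 ^ r / 4 * (40 * (|β| ^ (2 * k) / qq k ^ (r + 1)) * MM α) := by gcongr
      _ = 2 ^ (r + 1) * (|β| ^ (2 * k) / qq k ^ (r + 1)) * (5 * (qq k * Sm + MM α)) := by
          rw [pow_succ (qq k), pow_succ (2 : ℝ)]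
          field_simp
          ring

/-- the constant -/
noncomputable def Cq (k : ℝ) : ℝ := 40 * (qq k / (qq k - 1) + 1 / (1 - qq k / 4))

lemma Cq_pos {k : ℝ} (hk0 : 0 < k) (hk1 : k < 1) : 0 < Cq k := by
  have h1 := qq_gt hk0
  have h2 := qq_lt hk1
  have h3 : 0 < qq k - 1 := by linarith
  have h4 : 0 < 1 - qq k / 4 := by linarith
  have := qq_pos k
  unfold Cq
  positivity

lemma sum_MM {k : ℝ} (hk0 : 0 < k) (hk1 : k < 1) (r : ℕ) {h : ℕ} (hh : 1 ≤ h) :
    ∑ i ∈ Finset.range r, qq k ^ i * MM ((h : ℝ) / 2 ^ i) ≤ Cq k * (h : ℝ) ^ (2 * k) := by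
  have hq := qq_pos k
  have h1 := qq_gt hk0
  have h2 := qq_lt hk1
  have h3 : 0 < qq k - 1 := by linarith
  have h4 : 0 < 1 - qq k / 4 := by linarith
  have hh0 : (0 : ℝ) < h := by exact_mod_cast hh
  set i₀ := Nat.log 2 h with hi
  have hlow : (2 : ℝ) ^ i₀ ≤ h := by exact_mod_cast Nat.pow_log_le_self 2 (by omega)
  have hup : (h : ℝ) < 2 ^ (i₀ + 1) := by exact_mod_cast Nat.lt_pow_succ_log_self (by norm_num) h
  have hf0 : ∀ i, 0 ≤ qq k ^ i * MM ((h : ℝ) / 2 ^ i) := fun i =>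
    mul_nonneg (pow_nonneg hq.le _) (MM_nonneg _)
  have hqi : qq k ^ i₀ ≤ (h : ℝ) ^ (2 * k) := by
    unfold qq
    rw [← Real.rpow_natCast, ← Real.rpow_mul (by norm_num), mul_comm, Real.rpow_mul (by norm_num),
      Real.rpow_natCast]
    exact Real.rpow_le_rpow (by positivity) hlow (by positivity)
  have hqi2 : (qq k / 4) ^ (i₀ + 1) ≤ (h : ℝ) ^ (2 * k) / (h : ℝ) ^ 2 := by
    have e1 : (qq k / 4) ^ (i₀ + 1) = ((2 : ℝ) ^ (i₀ + 1)) ^ (2 * k - 2) := by
      have e0 : qq k / 4 = (2 : ℝ) ^ (2 * k - 2) := by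
        unfold qq
        rw [Real.rpow_sub (by norm_num)]
        norm_num
      rw [e0, ← Real.rpow_natCast, ← Real.rpow_mul (by norm_num), mul_comm,
        Real.rpow_mul (by norm_num), Real.rpow_natCast]
    have e2 : (h : ℝ) ^ (2 * k) / (h : ℝ) ^ 2 = (h : ℝ) ^ (2 * k - 2) := by
      rw [Real.rpow_sub hh0, Real.rpow_two]
    rw [e1, e2]
    exact Real.rpow_le_rpow_of_nonpos hh0 hup.le (by linarith)
  have p1 : ∑ i ∈ Finset.range (i₀ + 1), qq k ^ i * MM ((h : ℝ) / 2 ^ i)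
      ≤ 40 * (qq k / (qq k - 1)) * (h : ℝ) ^ (2 * k) := by
    calc ∑ i ∈ Finset.range (i₀ + 1), qq k ^ i * MM ((h : ℝ) / 2 ^ i)
        ≤ ∑ i ∈ Finset.range (i₀ + 1), qq k ^ i * 40 := by
          apply Finset.sum_le_sum
          intro i _
          gcongr
          have := MM_le ((h : ℝ) / 2 ^ i)
          have := min_le_left 1 (((h : ℝ) / 2 ^ i) ^ 2)
          linarith
      _ = 40 * ((qq k ^ (i₀ + 1) - 1) / (qq k - 1)) := by
          rw [← Finset.sum_mul, geom_sum_eq h1.ne']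
          ring
      _ ≤ 40 * (qq k ^ (i₀ + 1) / (qq k - 1)) := by
          gcongr
          linarith
      _ = 40 * (qq k / (qq k - 1)) * qq k ^ i₀ := by
          rw [pow_succ]
          ring
      _ ≤ _ := by gcongr
  have p2 : ∑ j ∈ Finset.range r, qq k ^ (i₀ + 1 + j) * MM ((h : ℝ) / 2 ^ (i₀ + 1 + j))
      ≤ 40 * (1 / (1 - qq k / 4)) * (h : ℝ) ^ (2 * k) := by
    calc ∑ j ∈ Finset.range r, qq k ^ (i₀ + 1 + j) * MM ((h : ℝ) / 2 ^ (i₀ + 1 + j))
        ≤ ∑ j ∈ Finset.range r, 40 * (h : ℝ) ^ 2 * (qq k / 4) ^ (i₀ + 1) * (qq k / 4) ^ j := by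
          apply Finset.sum_le_sum
          intro j _
          have g1 : MM ((h : ℝ) / 2 ^ (i₀ + 1 + j)) ≤ 40 * ((h : ℝ) / 2 ^ (i₀ + 1 + j)) ^ 2 := by
            have := MM_le ((h : ℝ) / 2 ^ (i₀ + 1 + j))
            have := min_le_right 1 (((h : ℝ) / 2 ^ (i₀ + 1 + j)) ^ 2)
            linarith
          calc qq k ^ (i₀ + 1 + j) * MM ((h : ℝ) / 2 ^ (i₀ + 1 + j))
              ≤ qq k ^ (i₀ + 1 + j) * (40 * ((h : ℝ) / 2 ^ (i₀ + 1 + j)) ^ 2) := by gcongr
            _ = _ := by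
                have e4 : (4 : ℝ) ^ (i₀ + 1 + j) = 2 ^ (i₀ + 1 + j) * 2 ^ (i₀ + 1 + j) := by
                  rw [← mul_pow]; norm_num
                rw [mul_assoc (40 * (h : ℝ) ^ 2), ← pow_add, div_pow, div_pow, e4]
                ring
      _ = 40 * (h : ℝ) ^ 2 * (qq k / 4) ^ (i₀ + 1) * ∑ j ∈ Finset.range r, (qq k / 4) ^ j := by
          rw [Finset.mul_sum]
      _ ≤ 40 * (h : ℝ) ^ 2 * ((h : ℝ) ^ (2 * k) / (h : ℝ) ^ 2) * (1 / (1 - qq k / 4)) := by
          have hg : ∑ j ∈ Finset.range r, (qq k / 4) ^ j ≤ 1 / (1 - qq k / 4) := by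
            rw [one_div, ← tsum_geometric_of_lt_one (by positivity) (by linarith)]
            exact (summable_geometric_of_lt_one (by positivity) (by linarith)).sum_le_tsum _
              fun _ _ => by positivity
          gcongr
      _ = _ := by
          field_simp
  calc ∑ i ∈ Finset.range r, qq k ^ i * MM ((h : ℝ) / 2 ^ i)
      ≤ ∑ i ∈ Finset.range (i₀ + 1 + r), qq k ^ i * MM ((h : ℝ) / 2 ^ i) := by
        apply Finset.sum_le_sum_of_subset_of_nonneg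
        · intro i hi
          rw [Finset.mem_range] at hi ⊢
          omega
        · exact fun i _ _ => hf0 i
    _ = ∑ i ∈ Finset.range (i₀ + 1), qq k ^ i * MM ((h : ℝ) / 2 ^ i)
        + ∑ j ∈ Finset.range r, qq k ^ (i₀ + 1 + j) * MM ((h : ℝ) / 2 ^ (i₀ + 1 + j)) :=
        Finset.sum_range_add _ _ _
    _ ≤ 40 * (qq k / (qq k - 1)) * (h : ℝ) ^ (2 * k)
        + 40 * (1 / (1 - qq k / 4)) * (h : ℝ) ^ (2 * k) := add_le_add p1 p2
    _ = _ := by
        unfold Cq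
        ring

lemma MM_neg (x : ℝ) : MM (-x) = MM x := by
  unfold MM
  rw [neg_sq]

lemma MM_zero : MM 0 = 0 := by
  unfold MM
  simp

/-- the weight -/
noncomputable def wt (k : ℝ) (h : ℤ) : ℝ := (1 + (h : ℝ) ^ 2) ^ k

lemma wt_ge {k : ℝ} (hk : 0 ≤ k) (h : ℤ) : |(h : ℝ)| ^ (2 * k) ≤ wt k h := by
  unfold wt
  rw [Real.rpow_mul (abs_nonneg _), Real.rpow_two, sq_abs]
  exact Real.rpow_le_rpow (sq_nonneg _) (by linarith) hk

lemma wt_one {k : ℝ} (hk : 0 ≤ k) (h : ℤ) : 1 ≤ wt k h :=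
  Real.one_le_rpow (by nlinarith [sq_nonneg (h : ℝ)]) hk

/-- the variance bound at integer frequencies -/
lemma VB_le {k : ℝ} (hk0 : 0 < k) (hk1 : k < 1) (r : ℕ) (a b : ℤ) :
    VB r a b ≤ 5 * Cq k * 2 ^ r / qq k ^ r * (wt k a * wt k b) := by
  have hq := qq_pos k
  have hC := Cq_pos hk0 hk1
  have h1 := VB_le_sum hk0.le hk1.le b r a
  have ha := wt_one hk0.le a
  have hb := wt_ge hk0.le b
  have hbn : 0 ≤ |(b : ℝ)| ^ (2 * k) := Real.rpow_nonneg (abs_nonneg _) _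
  have h2 : ∑ i ∈ Finset.range r, qq k ^ i * MM ((a : ℝ) / 2 ^ i) ≤ Cq k * wt k a := by
    rcases eq_or_ne a 0 with h | h
    · rw [h]
      simp only [Int.cast_zero, zero_div, MM_zero, mul_zero, Finset.sum_const_zero]
      have := wt_one hk0.le 0
      positivity
    · have e1 : ∀ i : ℕ, MM ((a : ℝ) / 2 ^ i) = MM ((a.natAbs : ℝ) / 2 ^ i) := by
        intro i
        have e2 : ((a.natAbs : ℕ) : ℝ) = |(a : ℝ)| := by simp
        rw [e2]
        rcases abs_choice (a : ℝ) with h3 | h3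
        · rw [h3]
        · rw [h3, neg_div, MM_neg]
      simp only [e1]
      refine (sum_MM hk0 hk1 r (h := a.natAbs) (by omega)).trans ?_
      have e2 : ((a.natAbs : ℕ) : ℝ) = |(a : ℝ)| := by simp
      rw [e2]
      have := wt_ge hk0.le a
      gcongr
  have h0 : 0 ≤ ∑ i ∈ Finset.range r, qq k ^ i * MM ((a : ℝ) / 2 ^ i) :=
    Finset.sum_nonneg fun i _ => mul_nonneg (pow_nonneg hq.le _) (MM_nonneg _)
  have hwb : 0 ≤ wt k b := hbn.trans hb
  have hw2 : 0 ≤ 2 ^ r * (wt k b / qq k ^ r) :=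
    mul_nonneg (by positivity) (div_nonneg hwb (pow_nonneg hq.le _))
  calc VB r a b ≤ 2 ^ r * (|(b : ℝ)| ^ (2 * k) / qq k ^ r) *
      (5 * ∑ i ∈ Finset.range r, qq k ^ i * MM ((a : ℝ) / 2 ^ i)) := h1
    _ ≤ 2 ^ r * (wt k b / qq k ^ r) * (5 * (Cq k * wt k a)) := by gcongr
    _ = _ := by ring

/-- integral of the exponential -/
noncomputable def sg (x : ℝ) : ℂ := ∫ s in Set.Ioc (0 : ℝ) 1, ex (x * s)

lemma sg_zero_of {x : ℝ} (hx : x ≠ 0) (h : ex x = 1) : sg x = 0 := by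
  unfold sg
  rw [← intervalIntegral.integral_of_le zero_le_one]
  have hc : ((2 * Real.pi * x : ℝ) : ℂ) * Complex.I ≠ 0 := by
    apply mul_ne_zero _ Complex.I_ne_zero
    rw [Complex.ofReal_ne_zero]
    have := Real.pi_pos
    positivity
  have e1 : ∀ s : ℝ, ex (x * s) = Complex.exp ((((2 * Real.pi * x : ℝ) : ℂ) * Complex.I) * s) := by
    intro s
    unfold ex
    congr 1
    push_cast
    ring
  simp only [e1]
  rw [integral_exp_mul_complex hc]
  have e2 : Complex.exp ((((2 * Real.pi * x : ℝ) : ℂ) * Complex.I) * ((1 : ℝ) : ℂ)) = 1 := by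
    rw [← h]
    unfold ex
    congr 1
    push_cast
    ring
  rw [e2]
  simp

/-- factors of the mean -/
noncomputable def gA : ℕ → ℝ → ℂ
  | 0, _ => 1
  | r + 1, α => (1 + ex (α / 2)) * gA r (α / 2)

noncomputable def gB : ℕ → ℝ → ℂ
  | 0, _ => 1
  | r + 1, β => (1 + ex (β / 2 ^ (r + 1))) / 2 * gB r β

lemma mm_eq : ∀ (r : ℕ) (α β : ℝ), mm r α β = gA r α * gB r β
  | 0, α, β => by simp [mm, gA, gB]
  | r + 1, α, β => by
    simp only [mm, gA, gB]
    rw [mm_eq r]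
    ring

lemma gA_eq : ∀ (r : ℕ) (α : ℝ), (1 - ex (α / 2 ^ r)) * gA r α = 1 - ex α
  | 0, α => by simp [gA]
  | r + 1, α => by
    simp only [gA]
    have h1 := gA_eq r (α / 2)
    have e1 : α / 2 / 2 ^ r = α / 2 ^ (r + 1) := by rw [div_div, pow_succ, mul_comm]
    rw [e1] at h1
    have e2 : ex α = ex (α / 2) * ex (α / 2) := by
      rw [← ex_add]
      congr 1
      ring
    rw [e2]
    linear_combination (1 + ex (α / 2)) * h1

lemma gB_eq : ∀ (r : ℕ) (β : ℝ), (1 - ex (β / 2 ^ r)) * gB r β * 2 ^ r = 1 - ex β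
  | 0, β => by simp [gB]
  | r + 1, β => by
    simp only [gB]
    have h1 := gB_eq r β
    have e2 : ex (β / 2 ^ r) = ex (β / 2 ^ (r + 1)) * ex (β / 2 ^ (r + 1)) := by
      rw [← ex_add]
      congr 1
      rw [pow_succ]
      field_simp
      ring
    rw [e2] at h1
    generalize ex (β / 2 ^ (r + 1)) = z at h1 ⊢
    rw [pow_succ]
    linear_combination h1

lemma sg_gA {a : ℤ} (ha : a ≠ 0) (r : ℕ) : sg (a / 2 ^ r) * gA r a = 0 := by
  by_cases h : ex ((a : ℝ) / 2 ^ r) = 1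
  · rw [sg_zero_of _ h, zero_mul]
    have : (a : ℝ) ≠ 0 := by exact_mod_cast ha
    exact div_ne_zero this (by positivity)
  · have h1 := gA_eq r (a : ℝ)
    rw [ex_int, sub_self, mul_eq_zero] at h1
    rcases h1 with h1 | h1
    · exact absurd (sub_eq_zero.1 h1).symm h
    · rw [h1, mul_zero]

lemma sg_gB {b : ℤ} (hb : b ≠ 0) (r : ℕ) : sg (b / 2 ^ r) * gB r b = 0 := by
  by_cases h : ex ((b : ℝ) / 2 ^ r) = 1
  · rw [sg_zero_of _ h, zero_mul]
    have : (b : ℝ) ≠ 0 := by exact_mod_cast hb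
    exact div_ne_zero this (by positivity)
  · have h1 := gB_eq r (b : ℝ)
    rw [ex_int, sub_self, mul_eq_zero, mul_eq_zero] at h1
    rcases h1 with (h1 | h1) | h1
    · exact absurd (sub_eq_zero.1 h1).symm h
    · rw [h1, mul_zero]
    · exact absurd h1 (pow_ne_zero _ two_ne_zero)

lemma mean_zero {a b : ℤ} (h : a ≠ 0 ∨ b ≠ 0) (r : ℕ) :
    sg (a / 2 ^ r) * sg (b / 2 ^ r) * mm r a b = 0 := by
  rw [mm_eq]
  rcases h with h | h
  · have := sg_gA h r
    linear_combination (sg (b / 2 ^ r) * gB r b) * this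
  · have := sg_gB h r
    linear_combination (sg (a / 2 ^ r) * gA r a) * this

end Pool.Agent.Helper579.Mix
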