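import Mathlib
import Pool.Agent.Helper579.MixNet3
import Pool.Agent.Helper579.MixProb

set_option autoImplicit false

namespace Pool.Agent.Helper579.Mix

open MeasureTheory
open scoped ENNReal

/-- the unit square -/
abbrev Sq : Type := unitInterval × unitInterval

lemma continuous_ex : Continuous ex := by
  unfold ex
  fun_prop

lemma sg_eq (x : ℝ) : ∫ s : unitInterval, ex (x * s) = sg x := by
  unfold sg
  rw [← integral_Icc_eq_integral_Ioc]
  exact integral_subtype measurableSet_Icc (fun s : ℝ => ex (x * s))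

lemma norm_sg (x : ℝ) : ‖sg x‖ ≤ 1 := by
  rw [← sg_eq]
  refine (norm_integral_le_of_norm_le_const (C := 1) (ae_of_all _ fun q => ?_)).trans_eq ?_
  · rw [norm_ex]
  · simp

/-- the random factor -/
noncomputable def kap (α β : ℝ) (p : Sq) : ℂ := ex (α * p.1) * ex (β * p.2)

lemma continuous_kap (α β : ℝ) : Continuous (kap α β) := by
  unfold kap
  have := continuous_ex
  fun_prop

lemma norm_kap (α β : ℝ) (p : Sq) : ‖kap α β p‖ = 1 := by
  unfold kap
  rw [norm_mul, norm_ex, norm_ex, one_mul]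

lemma int_kap (α β : ℝ) : ∫ p : Sq, kap α β p = sg α * sg β := by
  rw [← sg_eq, ← sg_eq]
  exact integral_prod_mul (μ := (volume : Measure unitInterval))
    (ν := (volume : Measure unitInterval)) (fun s : unitInterval => ex (α * s))
    (fun s : unitInterval => ex (β * s))

lemma integrable_kap (α β : ℝ) : Integrable (kap α β) (volume : Measure Sq) :=
  (continuous_kap α β).integrable_of_hasCompactSupport (HasCompactSupport.of_compactSpace _)

lemma abs_diff_unit (s t : unitInterval) : |(s : ℝ) - t| ≤ 1 := by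
  rw [abs_le]
  constructor <;> linarith [s.2.1, s.2.2, t.2.1, t.2.2]

lemma kap_diff (α β : ℝ) (p q : Sq) :
    ‖kap α β p - kap α β q‖ ^ 2 ≤ 2 * (MM α + MM β) := by
  have e : kap α β p - kap α β q = (ex (α * p.1) - ex (α * q.1)) * ex (β * p.2)
      + ex (α * q.1) * (ex (β * p.2) - ex (β * q.2)) := by
    unfold kap
    ring
  have h1 : ‖ex (α * p.1) - ex (α * q.1)‖ ^ 2 ≤ MM α := by
    apply ex_diff
    rw [← mul_sub, abs_mul]
    exact mul_le_of_le_one_right (abs_nonneg _) (abs_diff_unit _ _)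
  have h2 : ‖ex (β * p.2) - ex (β * q.2)‖ ^ 2 ≤ MM β := by
    apply ex_diff
    rw [← mul_sub, abs_mul]
    exact mul_le_of_le_one_right (abs_nonneg _) (abs_diff_unit _ _)
  have h3 : ‖kap α β p - kap α β q‖ ≤ ‖ex (α * p.1) - ex (α * q.1)‖
      + ‖ex (β * p.2) - ex (β * q.2)‖ := by
    rw [e]
    refine (norm_add_le _ _).trans ?_
    rw [norm_mul, norm_mul, norm_ex, norm_ex, one_mul, mul_one]
  have h4 := norm_nonneg (kap α β p - kap α β q)
  nlinarith [sq_nonneg (‖ex (α * p.1) - ex (α * q.1)‖ - ‖ex (β * p.2) - ex (β * q.2)‖),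
    norm_nonneg (ex (α * p.1) - ex (α * q.1)), norm_nonneg (ex (β * p.2) - ex (β * q.2))]

lemma kap_mean (α β : ℝ) (p : Sq) :
    ‖kap α β p - sg α * sg β‖ ^ 2 ≤ 2 * (MM α + MM β) := by
  have hD : 0 ≤ 2 * (MM α + MM β) := by
    have := MM_nonneg α
    have := MM_nonneg β
    positivity
  have h1 : kap α β p - sg α * sg β = ∫ q : Sq, (kap α β p - kap α β q) := by
    rw [integral_sub (integrable_const _) (integrable_kap α β), integral_const, int_kap]
    simp
  have h2 : ‖∫ q : Sq, (kap α β p - kap α β q)‖ ≤ √(2 * (MM α + MM β)) := by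
    refine (norm_integral_le_of_norm_le_const (C := √(2 * (MM α + MM β)))
      (ae_of_all _ fun q => ?_)).trans_eq ?_
    · exact Real.le_sqrt_of_sq_le (kap_diff α β p q)
    · simp
  rw [h1]
  calc ‖∫ q : Sq, (kap α β p - kap α β q)‖ ^ 2 ≤ √(2 * (MM α + MM β)) ^ 2 := by gcongr
    _ = _ := Real.sq_sqrt hD

lemma tail_real {J : Type} [Fintype J] {X : J → Sq → ℝ} (hX : ∀ y, Continuous (X y))
    (h0 : ∀ y, ∫ p, X y p = 0) {D : ℝ} (hD : 0 ≤ D) (hb : ∀ y p, X y p ^ 2 ≤ D) :
    ∫⁻ T, ENNReal.ofReal ((∑ y, X y (T y)) ^ 2) ∂(Measure.pi fun _ : J => (volume : Measure Sq))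
      ≤ ENNReal.ofReal (Fintype.card J * D) := by
  apply pi_second
  · intro y
    apply memLp_bdd (hX y).measurable (C := √D)
    intro p
    rw [← Real.sqrt_sq_eq_abs]
    exact Real.sqrt_le_sqrt (hb y p)
  · exact h0
  · calc ∑ y, ∫ p, X y p ^ 2 ≤ ∑ _y : J, D := by
          apply Finset.sum_le_sum
          intro y _
          calc ∫ p, X y p ^ 2 ≤ ∫ _p : Sq, D := by
                apply integral_mono_of_nonneg (ae_of_all _ fun p => sq_nonneg _)
                  (integrable_const _) (ae_of_all _ fun p => hb y p)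
            _ = D := by simp
      _ = Fintype.card J * D := by simp

lemma tail_var {J : Type} [Fintype J] (c : J → ℂ) (hc : ∀ y, ‖c y‖ = 1) (α β : ℝ) :
    ∫⁻ T, ENNReal.ofReal (‖∑ y, c y * (kap α β (T y) - sg α * sg β)‖ ^ 2)
        ∂(Measure.pi fun _ : J => (volume : Measure Sq))
      ≤ ENNReal.ofReal (Fintype.card J * (4 * (MM α + MM β))) := by
  have hD : 0 ≤ 2 * (MM α + MM β) := by
    have := MM_nonneg α
    have := MM_nonneg β
    positivity
  have hcont : ∀ y, Continuous fun p => c y * (kap α β p - sg α * sg β) := by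
    intro y
    have := continuous_kap α β
    fun_prop
  have hint : ∀ y, Integrable (fun p => c y * (kap α β p - sg α * sg β))
      (volume : Measure Sq) := fun y =>
    (hcont y).integrable_of_hasCompactSupport (HasCompactSupport.of_compactSpace _)
  have hz : ∀ y, ∫ p, c y * (kap α β p - sg α * sg β) = 0 := by
    intro y
    rw [integral_const_mul, integral_sub (integrable_kap α β) (integrable_const _),
      integral_const, int_kap]
    simp
  have hbd : ∀ y p, ‖c y * (kap α β p - sg α * sg β)‖ ^ 2 ≤ 2 * (MM α + MM β) := by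
    intro y p
    rw [norm_mul, hc, one_mul]
    exact kap_mean α β p
  have h1 : ∀ T : J → Sq, ENNReal.ofReal (‖∑ y, c y * (kap α β (T y) - sg α * sg β)‖ ^ 2)
      = ENNReal.ofReal ((∑ y, (c y * (kap α β (T y) - sg α * sg β)).re) ^ 2)
        + ENNReal.ofReal ((∑ y, (c y * (kap α β (T y) - sg α * sg β)).im) ^ 2) := by
    intro T
    rw [← ENNReal.ofReal_add (sq_nonneg _) (sq_nonneg _), ← Complex.re_sum, ← Complex.im_sum,
      ← Complex.normSq_eq_norm_sq, Complex.normSq_apply]
    congr 1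
    ring
  simp only [h1]
  have hre : ∀ y, Continuous fun p => (c y * (kap α β p - sg α * sg β)).re := fun y =>
    Complex.continuous_re.comp (hcont y)
  have him : ∀ y, Continuous fun p => (c y * (kap α β p - sg α * sg β)).im := fun y =>
    Complex.continuous_im.comp (hcont y)
  rw [lintegral_add_left]
  · refine (add_le_add (tail_real (D := 2 * (MM α + MM β)) hre ?_ hD ?_)
      (tail_real (D := 2 * (MM α + MM β)) him ?_ hD ?_)).trans ?_
    · intro y
      have := Complex.reCLM.integral_comp_comm (hint y)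
      simp only [Complex.reCLM_apply] at this
      rw [this, hz, Complex.zero_re]
    · intro y p
      refine le_trans ?_ (hbd y p)
      rw [sq_le_sq, abs_norm]
      exact Complex.abs_re_le_norm _
    · intro y
      have := Complex.imCLM.integral_comp_comm (hint y)
      simp only [Complex.imCLM_apply] at this
      rw [this, hz, Complex.zero_im]
    · intro y p
      refine le_trans ?_ (hbd y p)
      rw [sq_le_sq, abs_norm]
      exact Complex.abs_im_le_norm _
    · rw [← ENNReal.ofReal_add (by positivity) (by positivity)]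
      apply ENNReal.ofReal_le_ofReal
      linarith
  · apply Measurable.ennreal_ofReal
    apply Measurable.pow_const
    apply Finset.measurable_fun_sum
    intro y _
    exact (hre y).measurable.comp (measurable_pi_apply y)

/-- the exponential sum over the random point set -/
noncomputable def GG (r : ℕ) (a : NetT r) (T : Jx r → Sq) (h0 h1 : ℤ) : ℂ :=
  ∑ y : Jx r, ex (h0 * (px r a y + (T y).1 / 2 ^ r)) * ex (h1 * (py r y + (T y).2 / 2 ^ r))

lemma GG_eq (r : ℕ) (a : NetT r) (T : Jx r → Sq) (h0 h1 : ℤ) : GG r a T h0 h1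
    = ∑ y : Jx r, (ex (h0 * px r a y) * ex (h1 * py r y)) *
      kap (h0 / 2 ^ r) (h1 / 2 ^ r) (T y) := by
  unfold GG kap
  apply Finset.sum_congr rfl
  intro y _
  rw [mul_add, mul_add, ex_add, ex_add, mul_div_assoc', mul_div_assoc', div_mul_eq_mul_div,
    div_mul_eq_mul_div]
  ring

lemma GG_bound {r : ℕ} (a : NetT r) {h0 h1 : ℤ} (h : h0 ≠ 0 ∨ h1 ≠ 0) :
    ∫⁻ T, ENNReal.ofReal (‖GG r a T h0 h1‖ ^ 2)
        ∂(Measure.pi fun _ : Jx r => (volume : Measure Sq))
      ≤ ENNReal.ofReal (2 * ‖ZZ r a h0 h1 - mm r h0 h1‖ ^ 2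
        + 8 * 2 ^ r * (MM (h0 / 2 ^ r) + MM (h1 / 2 ^ r))) := by
  set c : Jx r → ℂ := fun y => ex (h0 * px r a y) * ex (h1 * py r y) with hc
  set α : ℝ := h0 / 2 ^ r with hα
  set β : ℝ := h1 / 2 ^ r with hβ
  have hm := mean_zero h r
  rw [← hα, ← hβ] at hm
  have hnc : ∀ y, ‖c y‖ = 1 := by
    intro y
    rw [hc, norm_mul, norm_ex, norm_ex, one_mul]
  have e1 : ∀ T : Jx r → Sq, GG r a T h0 h1 = (∑ y, c y * (kap α β (T y) - sg α * sg β))
      + sg α * sg β * (ZZ r a h0 h1 - mm r h0 h1) := by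
    intro T
    have e2 : ∑ y, c y * (kap α β (T y) - sg α * sg β)
        = GG r a T h0 h1 - sg α * sg β * ZZ r a h0 h1 := by
      rw [GG_eq]
      unfold ZZ
      rw [Finset.mul_sum, ← Finset.sum_sub_distrib]
      apply Finset.sum_congr rfl
      intro y _
      rw [hc]
      ring
    rw [e2]
    linear_combination hm
  have h2 : ∀ T : Jx r → Sq, ENNReal.ofReal (‖GG r a T h0 h1‖ ^ 2)
      ≤ ENNReal.ofReal 2 * ENNReal.ofReal (‖∑ y, c y * (kap α β (T y) - sg α * sg β)‖ ^ 2)
        + ENNReal.ofReal (2 * ‖ZZ r a h0 h1 - mm r h0 h1‖ ^ 2) := by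
    intro T
    rw [← ENNReal.ofReal_mul (by norm_num), ← ENNReal.ofReal_add (by positivity) (by positivity)]
    apply ENNReal.ofReal_le_ofReal
    rw [e1]
    set A := ∑ y, c y * (kap α β (T y) - sg α * sg β)
    set B := ZZ r a h0 h1 - mm r h0 h1
    have h3 : ‖sg α * sg β * B‖ ≤ ‖B‖ := by
      rw [norm_mul, norm_mul]
      have := norm_sg α
      have := norm_sg β
      have h4 : ‖sg α‖ * ‖sg β‖ ≤ 1 := mul_le_one₀ (norm_sg α) (norm_nonneg _) (norm_sg β)
      exact mul_le_of_le_one_left (norm_nonneg _) h4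
    have h4 : ‖A + sg α * sg β * B‖ ≤ ‖A‖ + ‖B‖ := (norm_add_le _ _).trans (by linarith)
    have h5 := norm_nonneg (A + sg α * sg β * B)
    nlinarith [sq_nonneg (‖A‖ - ‖B‖), norm_nonneg A, norm_nonneg B]
  refine (lintegral_mono h2).trans ?_
  have hD : 0 ≤ MM α + MM β := add_nonneg (MM_nonneg _) (MM_nonneg _)
  rw [lintegral_add_right _ measurable_const, lintegral_const_mul' _ _ ENNReal.ofReal_ne_top,
    lintegral_const, measure_univ, mul_one]
  refine (add_le_add_left (mul_le_mul_right (tail_var c hnc α β) _) _).trans ?_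
  rw [← ENNReal.ofReal_mul (by norm_num), ← ENNReal.ofReal_add (by positivity) (by positivity)]
  apply ENNReal.ofReal_le_ofReal
  rw [card_Jx]
  push_cast
  linarith

instance instMeasNetT (r : ℕ) : MeasurableSpace (NetT r) := ⊤

instance instDiscreteNetT (r : ℕ) : DiscreteMeasurableSpace (NetT r) :=
  ⟨fun _ => MeasurableSpace.measurableSet_top⟩

/-- the uniform distribution on the nets -/
noncomputable def netM (r : ℕ) : Measure (NetT r) :=
  ((Fintype.card (NetT r) : ℝ≥0∞)⁻¹) • Measure.count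

instance instProbNet (r : ℕ) : IsProbabilityMeasure (netM r) := by
  constructor
  unfold netM
  rw [Measure.smul_apply, Measure.count_univ, smul_eq_mul, ENat.card_eq_coe_fintype_card]
  exact ENNReal.inv_mul_cancel (by exact_mod_cast Fintype.card_ne_zero) (by simp)

lemma lintegral_netM (r : ℕ) (f : NetT r → ℝ≥0∞) :
    ∫⁻ a, f a ∂netM r = (Fintype.card (NetT r) : ℝ≥0∞)⁻¹ * ∑ a, f a := by
  unfold netM
  rw [lintegral_smul_measure, lintegral_count, tsum_fintype, smul_eq_mul]

lemma lintegral_netM_av (r : ℕ) (f : NetT r → ℝ) (hf : ∀ a, 0 ≤ f a) :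
    ∫⁻ a, ENNReal.ofReal (f a) ∂netM r = ENNReal.ofReal (av f) := by
  rw [lintegral_netM, ← ENNReal.ofReal_sum_of_nonneg fun a _ => hf a]
  unfold av
  have hc : (0 : ℝ) < Fintype.card (NetT r) := by exact_mod_cast Fintype.card_pos
  rw [div_eq_inv_mul, ENNReal.ofReal_mul (by positivity), ENNReal.ofReal_inv_of_pos hc,
    ENNReal.ofReal_natCast]

/-- the constant -/
noncomputable def C1 (k : ℝ) : ℝ := 10 * Cq k + 640

lemma C1_pos {k : ℝ} (hk0 : 0 < k) (hk1 : k < 1) : 0 < C1 k := by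
  have := Cq_pos hk0 hk1
  unfold C1
  positivity

lemma MM_wt {k : ℝ} (hk0 : 0 < k) (hk1 : k < 1) (r : ℕ) (a : ℤ) :
    MM (a / 2 ^ r) ≤ 40 * wt k a / qq k ^ r := by
  refine (MM_rpow hk0.le hk1.le _).trans ?_
  have hq := qq_pos k
  rw [abs_div, abs_of_pos (by positivity : (0 : ℝ) < 2 ^ r),
    Real.div_rpow (abs_nonneg _) (by positivity)]
  have e : ((2 : ℝ) ^ r) ^ (2 * k) = qq k ^ r := by
    unfold qq
    rw [← Real.rpow_natCast, ← Real.rpow_natCast, ← Real.rpow_mul (by norm_num),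
      ← Real.rpow_mul (by norm_num)]
    congr 1
    ring
  rw [e, mul_div_assoc]
  have := wt_ge hk0.le a
  gcongr

lemma rho_bound {k : ℝ} (hk0 : 0 < k) (hk1 : k < 1) (r : ℕ) {h0 h1 : ℤ} (h : h0 ≠ 0 ∨ h1 ≠ 0) :
    ∫⁻ a, ∫⁻ T, ENNReal.ofReal (‖GG r a T h0 h1‖ ^ 2)
        ∂(Measure.pi fun _ : Jx r => (volume : Measure Sq)) ∂netM r
      ≤ ENNReal.ofReal (C1 k * 2 ^ r / qq k ^ r * (wt k h0 * wt k h1)) := by
  refine (lintegral_mono fun a => GG_bound a h).trans ?_
  have hM : 0 ≤ MM ((h0 : ℝ) / 2 ^ r) + MM ((h1 : ℝ) / 2 ^ r) :=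
    add_nonneg (MM_nonneg _) (MM_nonneg _)
  rw [lintegral_netM_av _ _ fun a => by positivity]
  apply ENNReal.ofReal_le_ofReal
  rw [av_add, av_mul, av_const]
  have h1' := (var_Z r h0 h1).trans (VB_le hk0 hk1 r h0 h1)
  have h2 := MM_wt hk0 hk1 r h0
  have h3 := MM_wt hk0 hk1 r h1
  have hw0 := wt_one hk0.le h0
  have hw1 := wt_one hk0.le h1
  have hq := qq_pos k
  have hC := Cq_pos hk0 hk1
  calc 2 * av (fun a : NetT r => ‖ZZ r a h0 h1 - mm r h0 h1‖ ^ 2)
      + 8 * 2 ^ r * (MM (h0 / 2 ^ r) + MM (h1 / 2 ^ r))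
      ≤ 2 * (5 * Cq k * 2 ^ r / qq k ^ r * (wt k h0 * wt k h1))
        + 8 * 2 ^ r * (40 * (wt k h0 * wt k h1) / qq k ^ r
          + 40 * (wt k h0 * wt k h1) / qq k ^ r) := by
        gcongr
        · refine h2.trans ?_
          gcongr
          nlinarith
        · refine h3.trans ?_
          gcongr
          nlinarith
    _ = _ := by
        unfold C1
        ring

end Pool.Agent.Helper579.Mix
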