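import Mathlib
import Pool.Agent.Helper579.MixNet4
import Pool.Agent.Helper579.MixAbs

set_option autoImplicit false

namespace Pool.Agent.Helper579.Mix

open MeasureTheory AddCircle
open scoped ENNReal

noncomputable local instance : MeasureSpace UnitAddCircle := ⟨AddCircle.haarAddCircle⟩

local instance : IsProbabilityMeasure (volume : Measure UnitAddCircle) :=
  inferInstanceAs (IsProbabilityMeasure AddCircle.haarAddCircle)

/-- Parseval's identity on the torus -/
lemma parsevalC {d : ℕ} (V : C(Torus d, ℂ)) :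
    HasSum (fun h => ‖UnitAddTorus.mFourierCoeff V h‖ ^ 2) (∫ t, ‖V t‖ ^ 2 ∂unif d) := by
  have h1 := UnitAddTorus.hasSum_sq_mFourierCoeff (ContinuousMap.toLp 2
    (volume : Measure (UnitAddTorus (Fin d))) ℂ V)
  simp only [UnitAddTorus.mFourierCoeff_toLp] at h1
  have h3 : ∫ t, ‖(ContinuousMap.toLp 2 (volume : Measure (UnitAddTorus (Fin d))) ℂ V) t‖ ^ 2
      = ∫ t, ‖V t‖ ^ 2 ∂unif d := by
    apply integral_congr_ae
    filter_upwards [ContinuousMap.coeFn_toLp (p := 2) (𝕜 := ℂ)
      (volume : Measure (UnitAddTorus (Fin d))) V] with x hx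
    rw [hx]
  rw [h3] at h1
  exact h1

instance invUnif (d : ℕ) : (unif d).IsAddLeftInvariant := by
  unfold unif
  infer_instance

instance invUnif' (d : ℕ) : (unif d).IsAddRightInvariant := inferInstance

lemma mFourier_add_arg {d : ℕ} (h : Fin d → ℤ) (x y : Torus d) :
    UnitAddTorus.mFourier h (x + y) = UnitAddTorus.mFourier h x * UnitAddTorus.mFourier h y := by
  simp only [UnitAddTorus.mFourier, ContinuousMap.coe_mk, Pi.add_apply, fourier_apply, smul_add,
    toCircle_add, Circle.coe_mul, Finset.prod_mul_distrib]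

lemma mFourier_mul_neg {d : ℕ} (h : Fin d → ℤ) (x : Torus d) :
    UnitAddTorus.mFourier h x * UnitAddTorus.mFourier (-h) x = 1 := by
  rw [← UnitAddTorus.mFourier_add, add_neg_cancel, UnitAddTorus.mFourier_zero]
  rfl

/-- coefficients of translates -/
lemma fc_shift {d : ℕ} (f : C(Torus d, ℝ)) (p : Torus d) (h : Fin d → ℤ) :
    ∫ t, UnitAddTorus.mFourier (-h) t * (f (t + p) : ℂ) ∂unif d
      = UnitAddTorus.mFourier h p * fc f h := by
  unfold fc
  rw [coeff_eq, ← integral_const_mul, ← integral_add_right_eq_self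
    (fun x => UnitAddTorus.mFourier h p * (UnitAddTorus.mFourier (-h) x * ((f x : ℝ) : ℂ))) p]
  congr 1
  ext x
  rw [mFourier_add_arg]
  have h2 := mFourier_mul_neg h p
  linear_combination (-(UnitAddTorus.mFourier (-h) x * ((f (x + p) : ℝ) : ℂ))) * h2

/-- the points of the random point set -/
noncomputable def pt (r : ℕ) (a : NetT r) (T : Jx r → Sq) (y : Jx r) : Torus 2 :=
  ![((px r a y + (T y).1 / 2 ^ r : ℝ) : UnitAddCircle),
    ((py r y + (T y).2 / 2 ^ r : ℝ) : UnitAddCircle)]

lemma fourier_ex (n : ℤ) (x : ℝ) : (fourier n (x : UnitAddCircle) : ℂ) = ex (n * x) := by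
  rw [fourier_coe_apply]
  unfold ex
  congr 1
  push_cast
  ring

lemma mFourier_pt (r : ℕ) (a : NetT r) (T : Jx r → Sq) (y : Jx r) (h : Fin 2 → ℤ) :
    UnitAddTorus.mFourier h (pt r a T y) = ex (h 0 * (px r a y + (T y).1 / 2 ^ r))
      * ex (h 1 * (py r y + (T y).2 / 2 ^ r)) := by
  unfold pt UnitAddTorus.mFourier
  simp only [ContinuousMap.coe_mk, Fin.prod_univ_two, Matrix.cons_val_zero, Matrix.cons_val_one,
    fourier_ex]

/-- the error of the quadrature formula with the shift `U` -/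
noncomputable def errf (r : ℕ) (f : C(Torus 2, ℝ)) (a : NetT r) (T : Jx r → Sq) (U : Torus 2) : ℝ :=
  (∑ y : Jx r, f (U + pt r a T y)) / 2 ^ r - S f

lemma continuous_errf (r : ℕ) (f : C(Torus 2, ℝ)) (a : NetT r) (T : Jx r → Sq) :
    Continuous (errf r f a T) := by
  unfold errf
  have := f.continuous
  fun_prop

lemma integral_mFourier {d : ℕ} {h : Fin d → ℤ} (hh : h ≠ 0) :
    ∫ t, UnitAddTorus.mFourier h t ∂unif d = 0 := by
  have h1 := (orthonormal_iff_ite.1 (UnitAddTorus.orthonormal_mFourier (d := Fin d))) 0 h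
  rw [if_neg (Ne.symm hh)] at h1
  simp only [ContinuousMap.inner_toLp, ← UnitAddTorus.mFourier_neg,
    ← UnitAddTorus.mFourier_add] at h1
  simp only [neg_zero, add_zero] at h1
  exact h1

lemma errf_coeff (r : ℕ) (f : C(Torus 2, ℝ)) (a : NetT r) (T : Jx r → Sq) (h : Fin 2 → ℤ) :
    UnitAddTorus.mFourierCoeff (fun U => ((errf r f a T U : ℝ) : ℂ)) h
      = if h = 0 then 0 else GG r a T (h 0) (h 1) / 2 ^ r * fc f h := by
  rw [coeff_eq]
  have hcm : Continuous (UnitAddTorus.mFourier (-h)) := ContinuousMap.continuous _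
  have hcf := f.continuous
  have h1 : ∀ U, UnitAddTorus.mFourier (-h) U * ((errf r f a T U : ℝ) : ℂ)
      = (∑ y, (UnitAddTorus.mFourier (-h) U * (f (U + pt r a T y) : ℂ))) / 2 ^ r
        - S f * UnitAddTorus.mFourier (-h) U := by
    intro U
    unfold errf
    rw [← Finset.mul_sum]
    push_cast
    ring
  simp only [h1]
  rw [integral_sub, integral_div, integral_finsetSum]
  rotate_left
  · intro y _
    apply integrable_cont
    fun_prop
  · apply integrable_cont
    fun_prop
  · apply integrable_cont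
    fun_prop
  simp only [fc_shift]
  rw [← Finset.sum_mul]
  have h2 : ∑ y, UnitAddTorus.mFourier h (pt r a T y) = GG r a T (h 0) (h 1) := by
    unfold GG
    exact Finset.sum_congr rfl fun y _ => mFourier_pt r a T y h
  rw [h2, integral_const_mul]
  split_ifs with h0
  · subst h0
    have h3 : fc f 0 = S f := by
      unfold fc S
      rw [coeff_eq]
      simp only [neg_zero, UnitAddTorus.mFourier_zero, ContinuousMap.one_apply, one_mul]
      exact integral_ofReal
    have h4 : GG r a T ((0 : Fin 2 → ℤ) 0) ((0 : Fin 2 → ℤ) 1) = 2 ^ r := by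
      unfold GG
      simp [ex_zero, card_Jx]
    rw [h3, h4]
    simp only [neg_zero, UnitAddTorus.mFourier_zero, ContinuousMap.one_apply]
    rw [integral_const]
    simp
  · rw [integral_mFourier (neg_ne_zero.2 h0)]
    ring

lemma errf_sq (r : ℕ) (f : C(Torus 2, ℝ)) (a : NetT r) (T : Jx r → Sq) :
    ∫⁻ U, ENNReal.ofReal (errf r f a T U ^ 2) ∂unif 2
      = ∑' h : Fin 2 → ℤ, if h = 0 then 0 else
        ENNReal.ofReal (‖fc f h‖ ^ 2 / 4 ^ r) * ENNReal.ofReal (‖GG r a T (h 0) (h 1)‖ ^ 2) := by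
  have hc := continuous_errf r f a T
  set V : C(Torus 2, ℂ) := ⟨fun U => ((errf r f a T U : ℝ) : ℂ), by fun_prop⟩ with hV
  have h1 := parsevalC V
  have h2 : ∀ h, UnitAddTorus.mFourierCoeff V h
      = if h = 0 then 0 else GG r a T (h 0) (h 1) / 2 ^ r * fc f h := fun h =>
    errf_coeff r f a T h
  have h3 : ∫ t, ‖V t‖ ^ 2 ∂unif 2 = ∫ t, errf r f a T t ^ 2 ∂unif 2 := by
    congr 1
    ext t
    rw [hV]
    simp
  rw [h3] at h1
  rw [← ofReal_integral_eq_lintegral_ofReal (integrable_cont_real (by fun_prop))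
    (Filter.Eventually.of_forall fun z => sq_nonneg _), ← h1.tsum_eq,
    ENNReal.ofReal_tsum_of_nonneg (fun _ => sq_nonneg _) h1.summable]
  apply tsum_congr
  intro h
  rw [h2]
  split_ifs with h0
  · simp
  · rw [← ENNReal.ofReal_mul (by positivity)]
    congr 1
    rw [norm_mul, norm_div, norm_pow, Complex.norm_ofNat, mul_pow, div_pow]
    have e : (4 : ℝ) ^ r = (2 ^ r) ^ 2 := by
      rw [← pow_mul, mul_comm r 2, pow_mul]
      norm_num
    rw [e]
    ring

lemma meas_GG (r : ℕ) (a : NetT r) (h0 h1 : ℤ) :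
    Measurable fun T : Jx r → Sq => ENNReal.ofReal (‖GG r a T h0 h1‖ ^ 2) := by
  apply Measurable.ennreal_ofReal
  apply Measurable.pow_const
  apply Measurable.norm
  apply Continuous.measurable
  unfold GG
  have := continuous_ex
  fun_prop

lemma mse_bound {k : ℝ} (hk0 : 0 < k) (hk1 : k < 1) (r : ℕ) (f : C(Torus 2, ℝ))
    (hf : f ∈ ball 2 k) :
    ∫⁻ a, ∫⁻ T, ∫⁻ U, ENNReal.ofReal (errf r f a T U ^ 2) ∂unif 2
        ∂(Measure.pi fun _ : Jx r => (volume : Measure Sq)) ∂netM r
      ≤ ENNReal.ofReal (C1 k / (2 ^ r * qq k ^ r)) := by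
  have hC := C1_pos hk0 hk1
  have hq := qq_pos k
  simp only [errf_sq]
  have h1 : ∀ a : NetT r, ∫⁻ T, (∑' h : Fin 2 → ℤ, if h = 0 then 0 else
        ENNReal.ofReal (‖fc f h‖ ^ 2 / 4 ^ r) * ENNReal.ofReal (‖GG r a T (h 0) (h 1)‖ ^ 2))
        ∂(Measure.pi fun _ : Jx r => (volume : Measure Sq))
      = ∑' h : Fin 2 → ℤ, if h = 0 then 0 else ENNReal.ofReal (‖fc f h‖ ^ 2 / 4 ^ r) *
        ∫⁻ T, ENNReal.ofReal (‖GG r a T (h 0) (h 1)‖ ^ 2)
          ∂(Measure.pi fun _ : Jx r => (volume : Measure Sq)) := by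
    intro a
    rw [lintegral_tsum]
    · apply tsum_congr
      intro h
      split_ifs with h0
      · simp
      · rw [lintegral_const_mul' _ _ ENNReal.ofReal_ne_top]
    · intro h
      split_ifs with h0
      · exact measurable_const.aemeasurable
      · exact ((meas_GG r a (h 0) (h 1)).const_mul _).aemeasurable
  simp only [h1]
  rw [lintegral_tsum fun h => Measurable.of_discrete.aemeasurable]
  have h2 : ∀ h : Fin 2 → ℤ, ∫⁻ a, (if h = 0 then 0 else ENNReal.ofReal (‖fc f h‖ ^ 2 / 4 ^ r) *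
        ∫⁻ T, ENNReal.ofReal (‖GG r a T (h 0) (h 1)‖ ^ 2)
          ∂(Measure.pi fun _ : Jx r => (volume : Measure Sq))) ∂netM r
      ≤ ENNReal.ofReal (C1 k / (2 ^ r * qq k ^ r)) *
        ENNReal.ofReal (‖fc f h‖ ^ 2 * ∏ j, (1 + (h j : ℝ) ^ 2) ^ k) := by
    intro h
    by_cases h0 : h = 0
    · simp [h0]
    · simp only [h0, if_false]
      rw [lintegral_const_mul' _ _ ENNReal.ofReal_ne_top]
      have h3 : h 0 ≠ 0 ∨ h 1 ≠ 0 := by
        by_contra hcon
        push Not at hcon
        apply h0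
        ext i
        fin_cases i
        · exact hcon.1
        · exact hcon.2
      refine (mul_le_mul_right (rho_bound hk0 hk1 r h3) _).trans ?_
      rw [← ENNReal.ofReal_mul (by positivity), ← ENNReal.ofReal_mul (by positivity)]
      apply ENNReal.ofReal_le_ofReal
      apply le_of_eq
      rw [Fin.prod_univ_two]
      have e : (4 : ℝ) ^ r = 2 ^ r * 2 ^ r := by
        rw [← mul_pow]
        norm_num
      unfold wt
      rw [e]
      field_simp
  refine (ENNReal.tsum_le_tsum h2).trans ?_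
  rw [ENNReal.tsum_mul_left, ← normSq_eq]
  exact mul_le_of_le_one_right (zero_le) hf

end Pool.Agent.Helper579.Mix
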