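import Mathlib
import Pool.Agent.Helper579.MixNet5

set_option autoImplicit false

namespace Pool.Agent.Helper579.Mix

open MeasureTheory AddCircle
open scoped ENNReal

/-- numbering of the points -/
noncomputable def eqJ (r : ℕ) : Jx r ≃ Fin (2 ^ r) := Fintype.equivFinOfCardEq (card_Jx r)

/-- the sample space -/
abbrev Om (r : ℕ) : Type := NetT r × ((Jx r → Sq) × Torus 2)

/-- the probability measure on it -/
noncomputable def muO (r : ℕ) : Measure (Om r) :=
  (netM r).prod ((Measure.pi fun _ : Jx r => (volume : Measure Sq)).prod (unif 2))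

instance probO (r : ℕ) : IsProbabilityMeasure (muO r) := by
  unfold muO
  infer_instance

lemma meas_pt (r : ℕ) (y : Jx r) : Measurable fun ω : Om r => ω.2.2 + pt r ω.1 ω.2.1 y := by
  have hpx : Measurable fun ω : Om r => px r ω.1 y :=
    (Measurable.of_discrete (f := fun a : NetT r => px r a y)).comp measurable_fst
  have hT : Measurable fun ω : Om r => ω.2.1 y :=
    (measurable_pi_apply y).comp (measurable_fst.comp measurable_snd)
  have hT1 : Measurable fun ω : Om r => (((ω.2.1 y).1 : unitInterval) : ℝ) :=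
    measurable_subtype_coe.comp (measurable_fst.comp hT)
  have hT2 : Measurable fun ω : Om r => (((ω.2.1 y).2 : unitInterval) : ℝ) :=
    measurable_subtype_coe.comp (measurable_snd.comp hT)
  have hU : Measurable fun ω : Om r => ω.2.2 := measurable_snd.comp measurable_snd
  have h1 : Measurable fun ω : Om r =>
      ((px r ω.1 y + ((ω.2.1 y).1 : ℝ) / 2 ^ r : ℝ) : UnitAddCircle) :=
    AddCircle.measurable_mk'.comp (hpx.add (hT1.div_const _))
  have h2 : Measurable fun ω : Om r =>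
      ((py r y + ((ω.2.1 y).2 : ℝ) / 2 ^ r : ℝ) : UnitAddCircle) :=
    AddCircle.measurable_mk'.comp ((hT2.div_const _).const_add _)
  apply measurable_pi_lambda
  intro i
  fin_cases i
  · exact ((measurable_pi_apply (0 : Fin 2)).comp hU).add h1
  · exact ((measurable_pi_apply (1 : Fin 2)).comp hU).add h2

/-- the algorithm -/
noncomputable def algN (r : ℕ) : Algorithm 2 (2 ^ r) where
  Ω := Om r
  mΩ := inferInstance
  μ := muO r
  prob := probO r
  X := fun ω i => ω.2.2 + pt r ω.1 ω.2.1 ((eqJ r).symm i)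
  measX := measurable_pi_lambda _ fun i => meas_pt r ((eqJ r).symm i)
  φ := fun _ v => (∑ i, v i) / 2 ^ r

lemma eval_algN (r : ℕ) (f : C(Torus 2, ℝ)) (ω : Om r) :
    (algN r).eval f ω - S f = errf r f ω.1 ω.2.1 ω.2.2 := by
  have h : (algN r).eval f ω
      = (∑ i : Fin (2 ^ r), f (ω.2.2 + pt r ω.1 ω.2.1 ((eqJ r).symm i))) / 2 ^ r := rfl
  rw [h, (eqJ r).symm.sum_comp fun y => f (ω.2.2 + pt r ω.1 ω.2.1 y)]
  rfl

lemma meas_errf (r : ℕ) (f : C(Torus 2, ℝ)) :
    Measurable fun ω : Om r => errf r f ω.1 ω.2.1 ω.2.2 := by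
  unfold errf
  apply Measurable.sub_const
  apply Measurable.div_const
  apply Finset.measurable_fun_sum
  intro y _
  exact f.continuous.measurable.comp (meas_pt r y)

lemma mse_total {k : ℝ} (hk0 : 0 < k) (hk1 : k < 1) (r : ℕ) (f : C(Torus 2, ℝ))
    (hf : f ∈ ball 2 k) :
    ∫⁻ ω, ENNReal.ofReal (errf r f ω.1 ω.2.1 ω.2.2 ^ 2) ∂muO r
      ≤ ENNReal.ofReal (C1 k / (2 ^ r * qq k ^ r)) := by
  have hm : Measurable fun ω : Om r => ENNReal.ofReal (errf r f ω.1 ω.2.1 ω.2.2 ^ 2) :=
    ((meas_errf r f).pow_const 2).ennreal_ofReal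
  unfold muO
  rw [lintegral_prod _ hm.aemeasurable]
  refine le_trans (le_of_eq ?_) (mse_bound hk0 hk1 r f hf)
  congr 1
  ext a
  rw [lintegral_prod]
  exact (hm.comp measurable_prodMk_left).aemeasurable

lemma err_algN {k : ℝ} (hk0 : 0 < k) (hk1 : k < 1) (r : ℕ) :
    (algN r).err k ≤ ENNReal.ofReal (√(C1 k / (2 ^ r * qq k ^ r))) := by
  have hC := C1_pos hk0 hk1
  have hq := qq_pos k
  unfold Algorithm.err
  apply iSup₂_le
  intro f hf
  have hm : Measurable fun ω : Om r => ENNReal.ofReal |errf r f ω.1 ω.2.1 ω.2.2| :=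
    (meas_errf r f).abs.ennreal_ofReal
  refine (iInf₂_le (fun ω : Om r => ENNReal.ofReal |errf r f ω.1 ω.2.1 ω.2.2|) hm).trans ?_
  refine (iInf_le _ ?_).trans ?_
  · intro ω
    apply ENNReal.ofReal_le_ofReal
    rw [abs_sub_comm]
    exact (congrArg abs (eval_algN r f ω)).le
  set B := C1 k / (2 ^ r * qq k ^ r) with hB
  have hB0 : 0 < B := by positivity
  set t := √B with ht
  have ht0 : 0 < t := Real.sqrt_pos.2 hB0
  have ht2 : t ^ 2 = B := Real.sq_sqrt hB0.le
  calc ∫⁻ ω, ENNReal.ofReal |errf r f ω.1 ω.2.1 ω.2.2| ∂muO r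
      ≤ ∫⁻ ω, (ENNReal.ofReal (1 / (2 * t)) * ENNReal.ofReal (errf r f ω.1 ω.2.1 ω.2.2 ^ 2)
          + ENNReal.ofReal (t / 2)) ∂muO r := by
        apply lintegral_mono
        intro ω
        show ENNReal.ofReal |errf r f ω.1 ω.2.1 ω.2.2|
          ≤ ENNReal.ofReal (1 / (2 * t)) * ENNReal.ofReal (errf r f ω.1 ω.2.1 ω.2.2 ^ 2)
          + ENNReal.ofReal (t / 2)
        rw [← ENNReal.ofReal_mul (by positivity), ← ENNReal.ofReal_add (by positivity)
          (by positivity)]
        apply ENNReal.ofReal_le_ofReal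
        set x := errf r f ω.1 ω.2.1 ω.2.2
        have h1 : 1 / (2 * t) * x ^ 2 + t / 2 - |x| = (|x| - t) ^ 2 / (2 * t) := by
          rw [← sq_abs x]
          field_simp
          ring
        have h2 : 0 ≤ (|x| - t) ^ 2 / (2 * t) := by positivity
        linarith
    _ ≤ ENNReal.ofReal (1 / (2 * t)) * ENNReal.ofReal B + ENNReal.ofReal (t / 2) := by
        rw [lintegral_add_right _ measurable_const, lintegral_const_mul' _ _ ENNReal.ofReal_ne_top,
          lintegral_const, measure_univ, mul_one]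
        gcongr
        exact mse_total hk0 hk1 r f hf
    _ = ENNReal.ofReal t := by
        rw [← ENNReal.ofReal_mul (by positivity), ← ENNReal.ofReal_add (by positivity)
          (by positivity), ← ht2]
        congr 1
        field_simp
        ring

/-- the upper bound for the optimal error -/
theorem upper_bound {k : ℝ} (hk0 : 0 < k) (hk1 : k < 1) :
    ∃ C : ℝ, 0 < C ∧ ∀ n : ℕ, 1 ≤ n → eOpt 2 k n ≤ ENNReal.ofReal (C * (n : ℝ) ^ (-(k + 1 / 2))) := by
  have hC := C1_pos hk0 hk1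
  refine ⟨√(C1 k) * 2 ^ (k + 1 / 2), by positivity, ?_⟩
  intro n hn
  set r := Nat.log 2 n with hr
  have h1 : 2 ^ r ≤ n := Nat.pow_log_le_self 2 (by omega)
  have h2 : n < 2 ^ (r + 1) := Nat.lt_pow_succ_log_self (by norm_num) n
  have h3 : eOpt 2 k n ≤ (algN r).err k := by
    unfold eOpt
    refine (iInf₂_le (2 ^ r) h1).trans ?_
    have hp : IsProbabilityMeasure (algN r).law := by
      have := (algN r).measX
      exact Measure.isProbabilityMeasure_map (μ := muO r) (f := (algN r).X) this.aemeasurable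
    refine (iInf₂_le (algN r).law hp).trans ?_
    unfold eDist
    exact iInf₂_le (f := fun (A : Algorithm 2 (2 ^ r)) (_ : A.law = (algN r).law) => A.err k)
      (algN r) rfl
  refine h3.trans ((err_algN hk0 hk1 r).trans (ENNReal.ofReal_le_ofReal ?_))
  have hq := qq_pos k
  have hn0 : (0 : ℝ) < n := by exact_mod_cast hn
  have e1 : (2 : ℝ) ^ r * qq k ^ r = ((2 : ℝ) ^ r) ^ (1 + 2 * k) := by
    unfold qq
    rw [Real.rpow_add (by positivity), Real.rpow_one, ← Real.rpow_natCast, ← Real.rpow_natCast,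
      ← Real.rpow_mul (by norm_num), ← Real.rpow_mul (by norm_num)]
    congr 2
    ring
  have e2 : √(C1 k / (2 ^ r * qq k ^ r)) = √(C1 k) * ((2 : ℝ) ^ r) ^ (-(k + 1 / 2)) := by
    rw [e1, Real.sqrt_div hC.le, Real.rpow_neg (by positivity), div_eq_mul_inv]
    congr 2
    rw [Real.sqrt_eq_rpow, ← Real.rpow_mul (by positivity)]
    congr 1
    ring
  rw [e2, mul_assoc]
  have h4 : ((2 : ℝ) ^ r) ^ (-(k + 1 / 2)) ≤ ((n : ℝ) / 2) ^ (-(k + 1 / 2)) := by
    apply Real.rpow_le_rpow_of_nonpos (by positivity) _ (by linarith)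
    have h5 : (n : ℝ) < 2 ^ (r + 1) := by exact_mod_cast h2
    rw [pow_succ] at h5
    linarith
  have h6 : ((n : ℝ) / 2) ^ (-(k + 1 / 2)) = 2 ^ (k + 1 / 2) * (n : ℝ) ^ (-(k + 1 / 2)) := by
    rw [Real.div_rpow hn0.le (by norm_num), Real.rpow_neg (by norm_num : (0 : ℝ) ≤ 2), div_inv_eq_mul,
      mul_comm]
  rw [← h6]
  gcongr

end Pool.Agent.Helper579.Mix
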