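import Mathlib
import Pool.Agent.Helper579.Greedy

set_option autoImplicit false
set_option linter.unusedSectionVars false

namespace Pool.Agent.Helper579.Rates

open MeasureTheory Set Metric Module
open Pool.Agent.Helper579.RanLower Pool.Agent.Helper579.IBC Pool.Agent.Helper579.Greedy
open scoped ENNReal

/-- `a n = O(n^{-α})` -/
def HasRate (a : ℕ → ℝ≥0∞) (α : ℝ) : Prop :=
  ⨆ (n : ℕ) (_ : 1 ≤ n), (n : ℝ≥0∞) ^ α * a n < ∞

lemma hasRate_iff {a : ℕ → ℝ≥0∞} {α : ℝ} :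
    HasRate a α ↔ ∃ C : ℝ≥0∞, C ≠ ∞ ∧ ∀ n : ℕ, 1 ≤ n → (n : ℝ≥0∞) ^ α * a n ≤ C := by
  constructor
  · intro h
    exact ⟨_, h.ne, fun n hn => le_iSup₂ (f := fun (n : ℕ) (_ : 1 ≤ n) => (n : ℝ≥0∞) ^ α * a n) n hn⟩
  · rintro ⟨C, hC, h⟩
    exact lt_of_le_of_lt (iSup₂_le h) (lt_top_iff_ne_top.mpr hC)

lemma rpow_anti {x y : ℝ≥0∞} (h : x ≤ y) {α : ℝ} (hα : α ≤ 0) : y ^ α ≤ x ^ α := by
  rw [← neg_neg α, ENNReal.rpow_neg, ENNReal.rpow_neg x, ENNReal.inv_le_inv]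
  exact ENNReal.rpow_le_rpow h (by linarith)

lemma one_le_rpow' {x : ℝ≥0∞} (h : 1 ≤ x) {α : ℝ} (hα : 0 ≤ α) : 1 ≤ x ^ α := by
  simpa using ENNReal.rpow_le_rpow h hα

lemma rpow_ratio {n k q : ℕ} (hk : 1 ≤ k) (hkn : k ≤ n) (hq : n ≤ q * k) (α : ℝ) :
    (n : ℝ≥0∞) ^ α ≤ (q : ℝ≥0∞) ^ |α| * (k : ℝ≥0∞) ^ α := by
  have hq1 : 1 ≤ q := by
    by_contra hcon
    have : q = 0 := by omega
    rw [this] at hq
    omega
  rcases le_total 0 α with h | h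
  · rw [abs_of_nonneg h, ← ENNReal.mul_rpow_of_nonneg _ _ h]
    apply ENNReal.rpow_le_rpow _ h
    exact_mod_cast hq
  · have h1 : (1 : ℝ≥0∞) ≤ (q : ℝ≥0∞) ^ |α| := by
      apply one_le_rpow' _ (abs_nonneg _)
      exact_mod_cast hq1
    calc (n : ℝ≥0∞) ^ α ≤ (k : ℝ≥0∞) ^ α := by
          apply rpow_anti _ h
          exact_mod_cast hkn
      _ = 1 * (k : ℝ≥0∞) ^ α := (one_mul _).symm
      _ ≤ _ := by gcongr

lemma nat_rpow_ne_top (n : ℕ) (hn : 1 ≤ n) (α : ℝ) : (n : ℝ≥0∞) ^ α ≠ ∞ := by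
  apply ENNReal.rpow_ne_top_of_ne_zero
  · simp; omega
  · simp

/-- transfer of rates -/
lemma hasRate_transfer {a b : ℕ → ℝ≥0∞} {α θ : ℝ} {q n₀ : ℕ} {C : ℝ≥0∞} (hC : C ≠ ∞)
    (ha : HasRate a α) (hb1 : b 1 ≠ ∞) (hb : Antitone b) {k : ℕ → ℕ}
    (hk : ∀ n, n₀ ≤ n → 1 ≤ k n ∧ k n ≤ n ∧ n ≤ q * k n)
    (h : ∀ n, n₀ ≤ n → b n ≤ C * (n : ℝ≥0∞) ^ θ * a (k n)) : HasRate b (α - θ) := by
  obtain ⟨K, hK, haK⟩ := hasRate_iff.mp ha
  rw [hasRate_iff]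
  refine ⟨(n₀ : ℝ≥0∞) ^ |α - θ| * b 1 + C * ((q : ℝ≥0∞) ^ |α| * K), ?_, ?_⟩
  · refine ENNReal.add_ne_top.mpr ⟨ENNReal.mul_ne_top ?_ hb1, ENNReal.mul_ne_top hC
      (ENNReal.mul_ne_top ?_ hK)⟩
    · exact ENNReal.rpow_ne_top_of_nonneg (abs_nonneg _) (by simp)
    · exact ENNReal.rpow_ne_top_of_nonneg (abs_nonneg _) (by simp)
  · intro n hn
    rcases lt_or_ge n n₀ with hlt | hge
    · refine le_trans ?_ le_self_add
      have h1 : (n : ℝ≥0∞) ^ (α - θ) ≤ (n₀ : ℝ≥0∞) ^ |α - θ| := by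
        calc (n : ℝ≥0∞) ^ (α - θ) ≤ (n : ℝ≥0∞) ^ |α - θ| := by
              apply ENNReal.rpow_le_rpow_of_exponent_le
              · exact_mod_cast hn
              · exact le_abs_self _
          _ ≤ _ := by
              apply ENNReal.rpow_le_rpow _ (abs_nonneg _)
              exact_mod_cast hlt.le
      exact mul_le_mul' h1 (hb hn)
    · refine le_trans ?_ le_add_self
      obtain ⟨hk1, hkn, hkq⟩ := hk n hge
      have hn0 : (n : ℝ≥0∞) ≠ 0 := by simp; omega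
      calc (n : ℝ≥0∞) ^ (α - θ) * b n
          ≤ (n : ℝ≥0∞) ^ (α - θ) * (C * (n : ℝ≥0∞) ^ θ * a (k n)) := by
            gcongr; exact h n hge
        _ = C * ((n : ℝ≥0∞) ^ (α - θ) * (n : ℝ≥0∞) ^ θ * a (k n)) := by ring
        _ = C * ((n : ℝ≥0∞) ^ α * a (k n)) := by
            rw [← ENNReal.rpow_add _ _ hn0 (by simp)]
            congr 3
            ring
        _ ≤ C * ((q : ℝ≥0∞) ^ |α| * (k n : ℝ≥0∞) ^ α * a (k n)) := by
            gcongr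
            exact rpow_ratio hk1 hkn hkq α
        _ = C * ((q : ℝ≥0∞) ^ |α| * ((k n : ℝ≥0∞) ^ α * a (k n))) := by ring
        _ ≤ C * ((q : ℝ≥0∞) ^ |α| * K) := by
            gcongr
            exact haK _ hk1

lemma le_rate {a : ℕ → ℝ≥0∞} {α : ℝ} (h : HasRate a α) : (α : EReal) ≤ rate a :=
  le_sSup ⟨α, rfl, h⟩

lemma gain_le {a b : ℕ → ℝ≥0∞} {θ : ℝ}
    (h : ∀ α : ℝ, HasRate a α → ∀ ε : ℝ, 0 < ε → HasRate b (α - θ - ε))
    (h1 : rate a ≠ ⊥) (h2 : rate a ≠ ⊤) : rate a - rate b ≤ (θ : EReal) := by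
  obtain ⟨r, hr⟩ : ∃ r : ℝ, rate a = r := ⟨(rate a).toReal, (EReal.coe_toReal h2 h1).symm⟩
  have h3 : ((r - θ : ℝ) : EReal) ≤ rate b := by
    apply le_of_forall_lt
    intro c hc
    obtain ⟨s, hs1, hs2⟩ := EReal.lt_iff_exists_real_btwn.mp hc
    have hs3 : s < r - θ := by exact_mod_cast hs2
    refine hs1.trans_le ?_
    have h4 : ((s + θ + (r - θ - s) / 2 : ℝ) : EReal) < rate a := by
      rw [hr]
      exact_mod_cast (by linarith : s + θ + (r - θ - s) / 2 < r)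
    obtain ⟨x, ⟨α, rfl, hα⟩, hx⟩ := lt_sSup_iff.mp h4
    have hα' : s + θ + (r - θ - s) / 2 < α := by exact_mod_cast hx
    have h5 := le_rate (h α hα ((r - θ - s) / 2) (by linarith))
    refine le_trans ?_ h5
    exact_mod_cast (by linarith : s ≤ α - θ - (r - θ - s) / 2)
  calc rate a - rate b ≤ rate a - ((r - θ : ℝ) : EReal) := EReal.sub_le_sub le_rfl h3
    _ = (r : EReal) - ((r - θ : ℝ) : EReal) := by rw [hr]
    _ = ((r - (r - θ) : ℝ) : EReal) := (EReal.coe_sub r (r - θ)).symm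
    _ = (θ : EReal) := by congr 1; ring

lemma rho_le {N : ℝ} (hN : 1 ≤ N) {ε : ℝ} (hε : 0 < ε) :
    Real.sqrt (2 * Real.log (20 * N)) ≤ (20 * N) ^ ε / Real.sqrt ε := by
  have h1 : Real.log (20 * N) ≤ (20 * N) ^ (2 * ε) / (2 * ε) :=
    Real.log_le_rpow_div (by linarith) (by positivity)
  have h2 : 2 * Real.log (20 * N) ≤ ((20 * N) ^ ε / Real.sqrt ε) ^ 2 := by
    rw [div_pow, Real.sq_sqrt hε.le, ← Real.rpow_natCast ((20 * N) ^ ε), ← Real.rpow_mul (by linarith)]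
    have e : ε * ((2 : ℕ) : ℝ) = 2 * ε := by push_cast; ring
    rw [e]
    calc 2 * Real.log (20 * N) ≤ 2 * ((20 * N) ^ (2 * ε) / (2 * ε)) := by linarith
      _ = (20 * N) ^ (2 * ε) / ε := by field_simp
  calc Real.sqrt (2 * Real.log (20 * N)) ≤ Real.sqrt (((20 * N) ^ ε / Real.sqrt ε) ^ 2) :=
        Real.sqrt_le_sqrt h2
    _ = _ := Real.sqrt_sq (by positivity)

section Gain

variable {𝕜 : Type} [RCLike 𝕜] {X Y : Type} [NormedAddCommGroup X] [NormedSpace 𝕜 X]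
  [NormedSpace ℝ X] [IsScalarTower ℝ 𝕜 X] [NormedAddCommGroup Y] [NormedSpace 𝕜 Y]
  [NormedSpace ℝ Y] [IsScalarTower ℝ 𝕜 Y]

lemma detNonErr_antitone (S : X →L[𝕜] Y) (F : Set X) : Antitone (detNonErr 𝕜 S F) := by
  apply antitone_nat_of_succ_le
  intro n
  apply le_iInf₂
  intro L φ
  refine (iInf₂_le (Fin.snoc L 0 : Fin (n + 1) → X →L[𝕜] 𝕜) (fun w => φ (fun i => w i.castSucc))).trans ?_
  apply iSup_mono
  intro f
  simp [Fin.snoc_castSucc]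

lemma ranErr_antitone (S : X →L[𝕜] Y) (F : Set X) : Antitone (ranErr 𝕜 S F) := by
  apply antitone_nat_of_succ_le
  intro n
  apply sInf_le_sInf
  rintro e ⟨Ω, mΩ, μ, hμ, A, hA, hm, he⟩
  exact ⟨Ω, mΩ, μ, hμ, A, fun ω => ⟨fun _ => 0, ⟨0, fun _ => rfl⟩, fun _ => A ω,
    fun _ => hA ω, fun _ => rfl⟩, hm, he⟩

lemma banach_bound {d : ℕ} (hd : Enc 𝕜 d) (S : X →L[𝕜] Y) {F : Set X}
    (hF : Convex ℝ F) {p : ℕ} (hp : 2 ≤ p) {ε : ℝ} (hε : 0 < ε) :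
    ∃ C : ℝ≥0∞, C ≠ ∞ ∧ ∀ n : ℕ, 1 ≤ n → detNonErr 𝕜 S F n ≤
      C * (n : ℝ≥0∞) ^ (1 + 1 / ((p : ℝ) - 1) + ε) * ranErr 𝕜 S F ((n + 1) / (4 * d * p)) := by
  have hpr : (2 : ℝ) ≤ p := by exact_mod_cast hp
  have hp1 : 0 < 1 / ((p : ℝ) - 1) := by
    have : 0 < (p : ℝ) - 1 := by linarith
    positivity
  set θ : ℝ := 1 + 1 / ((p : ℝ) - 1) + ε with hθ
  refine ⟨ENNReal.ofReal (80 * Real.sqrt (4 * p / 3) * (20 ^ ε / Real.sqrt ε) * 2 ^ θ),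
    ENNReal.ofReal_ne_top, fun n hn => ?_⟩
  set a := (n + 1) / p with ha
  set k := (n + 1) / (4 * d * p) with hk
  set N : ℝ := ((n + 1 : ℕ) : ℝ) with hN
  have hN1 : 1 ≤ N := by rw [hN]; push_cast; linarith [(Nat.cast_nonneg n : (0 : ℝ) ≤ n)]
  set ρ := Real.sqrt (2 * Real.log (20 * N)) with hρ
  have hlog : 0 < Real.log (20 * N) := Real.log_pos (by linarith)
  have hρ0 : 0 < ρ := by rw [hρ]; positivity
  have ha1 : a * p ≤ n + 1 := Nat.div_mul_le_self _ _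
  have ha2 : N < ((a : ℝ) + 1) * p := by
    have : n + 1 < (a + 1) * p := Nat.lt_mul_of_div_lt (Nat.lt_succ_self _) (by omega)
    rw [hN]
    exact_mod_cast this
  have hkd' : k * (4 * d * p) ≤ n + 1 := Nat.div_mul_le_self _ _
  have hkd : ((k * d : ℕ) : ℝ) * (4 * p) ≤ N := by
    have : k * d * (4 * p) ≤ n + 1 := by
      calc k * d * (4 * p) = k * (4 * d * p) := by ring
        _ ≤ _ := hkd'
    rw [hN]
    exact_mod_cast this
  have hkda : k * d < a + 1 := by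
    by_contra hcon
    push Not at hcon
    have h1 : ((a : ℝ) + 1) ≤ ((k * d : ℕ) : ℝ) := by exact_mod_cast hcon
    nlinarith
  have hm : N * (3 / (4 * p)) ≤ ((a + 1 - k * d : ℕ) : ℝ) := by
    rw [Nat.cast_sub hkda.le]
    push_cast
    push_cast at hkd
    have h1 : N / p ≤ (a : ℝ) + 1 := by rw [div_le_iff₀ (by linarith)]; linarith
    have h2 : (k : ℝ) * d ≤ N / (4 * p) := by rw [le_div_iff₀ (by linarith)]; linarith
    have h3 : N * (3 / (4 * p)) = N / p - N / (4 * p) := by field_simp; norm_num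
    linarith
  set w : ℝ := N ^ (1 / ((p : ℝ) - 1)) with hw
  have hw0 : 0 < w := by positivity
  set γ : ℝ := Real.sqrt ((a + 1 - k * d : ℕ) : ℝ) * w⁻¹ / (80 * N * ρ * Real.sqrt N) with hγ
  have hsq : 0 < Real.sqrt ((a + 1 - k * d : ℕ) : ℝ) := by
    apply Real.sqrt_pos.mpr
    refine lt_of_lt_of_le ?_ hm
    positivity
  have hγ0 : 0 < γ := by positivity
  have h1 : detNonErr 𝕜 S F n ≤ ENNReal.ofReal γ⁻¹ * ranErr 𝕜 S F k := by
    apply le_of_forall_ofReal hγ0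
    intro c hc0 hc
    rcases eq_or_lt_of_le hc0 with h0 | hcpos
    · rw [← h0]; simp
    · refine le_trans (le_of_eq ?_) (banach_ineq hd S hF hcpos hc hp ha1 hkda hρ)
      congr 1
      rw [hγ]
      ring
  refine h1.trans (mul_le_mul' ?_ le_rfl)
  have hn0 : (0 : ℝ) < n := by exact_mod_cast hn
  have h2 : (n : ℝ≥0∞) ^ θ = ENNReal.ofReal ((n : ℝ) ^ θ) := by
    rw [← ENNReal.ofReal_rpow_of_pos hn0, ENNReal.ofReal_natCast]
  rw [h2, ← ENNReal.ofReal_mul (by positivity)]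
  apply ENNReal.ofReal_le_ofReal
  have h3 : γ⁻¹ = 80 * N * ρ * w * (Real.sqrt N / Real.sqrt ((a + 1 - k * d : ℕ) : ℝ)) := by
    rw [hγ]; field_simp
  have h4 : Real.sqrt N / Real.sqrt ((a + 1 - k * d : ℕ) : ℝ) ≤ Real.sqrt (4 * p / 3) := by
    rw [← Real.sqrt_div (by linarith)]
    apply Real.sqrt_le_sqrt
    have h5 : 0 < ((a + 1 - k * d : ℕ) : ℝ) := by
      refine lt_of_lt_of_le ?_ hm
      positivity
    rw [div_le_iff₀ h5]
    calc N = (4 * p / 3) * (N * (3 / (4 * p))) := by field_simp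
      _ ≤ _ := by gcongr
  have h5 : N ≤ 2 * n := by
    rw [hN]; push_cast
    have : (1 : ℝ) ≤ n := by exact_mod_cast hn
    linarith
  rw [h3]
  calc 80 * N * ρ * w * (Real.sqrt N / Real.sqrt ((a + 1 - k * d : ℕ) : ℝ))
      ≤ 80 * N * ((20 * N) ^ ε / Real.sqrt ε) * w * Real.sqrt (4 * p / 3) := by
        gcongr
        exact rho_le hN1 hε
    _ = 80 * Real.sqrt (4 * p / 3) * (20 ^ ε / Real.sqrt ε) * (N * N ^ ε * w) := by
        rw [Real.mul_rpow (by norm_num) (by linarith)]; ring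
    _ = 80 * Real.sqrt (4 * p / 3) * (20 ^ ε / Real.sqrt ε) * N ^ θ := by
        congr 1
        rw [hw, hθ, Real.rpow_add (by linarith), Real.rpow_add (by linarith), Real.rpow_one]
        ring
    _ ≤ 80 * Real.sqrt (4 * p / 3) * (20 ^ ε / Real.sqrt ε) * (2 * n) ^ θ := by
        gcongr
    _ = _ := by
        rw [Real.mul_rpow (by norm_num) hn0.le]; ring

lemma HasRate.mono {a : ℕ → ℝ≥0∞} {α β : ℝ} (h : HasRate a α) (hβ : β ≤ α) : HasRate a β := by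
  obtain ⟨C, hC, h⟩ := hasRate_iff.mp h
  refine hasRate_iff.mpr ⟨C, hC, fun n hn => le_trans ?_ (h n hn)⟩
  gcongr
  · exact_mod_cast hn

lemma HasRate.one_ne_top {a : ℕ → ℝ≥0∞} {α : ℝ} (h : HasRate a α) : a 1 ≠ ∞ := by
  obtain ⟨C, hC, h⟩ := hasRate_iff.mp h
  have h1 := h 1 le_rfl
  rw [Nat.cast_one, ENNReal.one_rpow, one_mul] at h1
  exact ne_top_of_le_ne_top hC h1

lemma div_props {n Q : ℕ} (hQ : 2 ≤ Q) (hn : 2 * Q ≤ n) :
    1 ≤ (n + 1) / Q ∧ (n + 1) / Q ≤ n ∧ n ≤ (2 * Q) * ((n + 1) / Q) := by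
  have h1 : 1 ≤ (n + 1) / Q := (Nat.one_le_div_iff (by omega)).mpr (by omega)
  have h2 : n + 1 < ((n + 1) / Q + 1) * Q := Nat.lt_mul_of_div_lt (Nat.lt_succ_self _) (by omega)
  refine ⟨h1, ?_, ?_⟩
  · have : (n + 1) / Q ≤ (n + 1) / 2 := Nat.div_le_div_left hQ (by norm_num)
    omega
  · calc n ≤ ((n + 1) / Q + 1) * Q := by omega
      _ ≤ ((n + 1) / Q + (n + 1) / Q) * Q := Nat.mul_le_mul_right _ (by omega)
      _ = _ := by ring

theorem gain_banach {d : ℕ} (hd : Enc 𝕜 d) (hd1 : 1 ≤ d) (S : X →L[𝕜] Y) {F : Set X}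
    (hF : Convex ℝ F) (hfin : ranErr 𝕜 S F 1 ≠ ∞ → detNonErr 𝕜 S F 1 ≠ ∞)
    (h1 : rate (ranErr 𝕜 S F) ≠ ⊥) (h2 : rate (ranErr 𝕜 S F) ≠ ⊤) :
    rate (ranErr 𝕜 S F) - rate (detNonErr 𝕜 S F) ≤ 1 := by
  have key : ∀ α : ℝ, HasRate (ranErr 𝕜 S F) α → ∀ ε : ℝ, 0 < ε →
      HasRate (detNonErr 𝕜 S F) (α - 1 - ε) := by
    intro α hα ε hε
    obtain ⟨p₀, hp₀⟩ := exists_nat_gt (2 / ε)
    set p := p₀ + 2 with hp
    have hp2 : 2 ≤ p := by omega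
    have hpr : 1 / ((p : ℝ) - 1) ≤ ε / 2 := by
      have h3 : 2 / ε ≤ (p : ℝ) - 1 := by rw [hp]; push_cast; linarith
      have h4 : 0 < 2 / ε := by positivity
      calc 1 / ((p : ℝ) - 1) ≤ 1 / (2 / ε) := one_div_le_one_div_of_le h4 h3
        _ = ε / 2 := by field_simp
    obtain ⟨C, hC, hb⟩ := banach_bound hd S hF hp2 (half_pos hε)
    have hQ : 2 ≤ 4 * d * p := by
      calc 2 ≤ 4 * 1 * 1 := by norm_num
        _ ≤ 4 * d * p := by gcongr; omega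
    have h5 := hasRate_transfer (k := fun n => (n + 1) / (4 * d * p)) (n₀ := 2 * (4 * d * p))
      (q := 2 * (4 * d * p)) hC hα (hfin hα.one_ne_top) (detNonErr_antitone S F)
      (fun n hn => div_props hQ hn) (fun n hn => hb n (by omega))
    exact h5.mono (by linarith)
  have h3 := gain_le (θ := 1) key h1 h2
  simpa using h3

end Gain

section GainH

variable {𝕜 : Type} [RCLike 𝕜] {X : Type} [NormedAddCommGroup X] [NormedSpace 𝕜 X]
  [NormedSpace ℝ X] [IsScalarTower ℝ 𝕜 X]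
variable {H : Type} [NormedAddCommGroup H] [InnerProductSpace 𝕜 H] [NormedSpace ℝ H]
  [IsScalarTower ℝ 𝕜 H]

lemma hilbert_bound {d : ℕ} (hd : Enc 𝕜 d) (S : X →L[𝕜] H) {F : Set X}
    (hF : Convex ℝ F) {ε : ℝ} (hε : 0 < ε) :
    ∃ C : ℝ≥0∞, C ≠ ∞ ∧ ∀ n : ℕ, 1 ≤ n → detNonErr 𝕜 S F n ≤
      C * (n : ℝ≥0∞) ^ (1 / 2 + ε) * ranErr 𝕜 S F ((n + 1) / (2 * d)) := by
  set θ : ℝ := 1 / 2 + ε with hθ
  refine ⟨ENNReal.ofReal (80 * Real.sqrt 2 * (20 ^ ε / Real.sqrt ε) * 2 ^ θ),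
    ENNReal.ofReal_ne_top, fun n hn => ?_⟩
  set k := (n + 1) / (2 * d) with hk
  set N : ℝ := ((n + 1 : ℕ) : ℝ) with hN
  have hN1 : 1 ≤ N := by rw [hN]; push_cast; linarith [(Nat.cast_nonneg n : (0 : ℝ) ≤ n)]
  set ρ := Real.sqrt (2 * Real.log (20 * N)) with hρ
  have hlog : 0 < Real.log (20 * N) := Real.log_pos (by linarith)
  have hρ0 : 0 < ρ := by rw [hρ]; positivity
  have hkd' : k * (2 * d) ≤ n + 1 := Nat.div_mul_le_self _ _
  have hkd : ((k * d : ℕ) : ℝ) * 2 ≤ N := by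
    have : k * d * 2 ≤ n + 1 := by
      calc k * d * 2 = k * (2 * d) := by ring
        _ ≤ _ := hkd'
    rw [hN]
    exact_mod_cast this
  have hkda : k * d < n + 1 := by
    have : k * d * 2 ≤ n + 1 := by
      calc k * d * 2 = k * (2 * d) := by ring
        _ ≤ _ := hkd'
    omega
  have hm : N / 2 ≤ ((n + 1 - k * d : ℕ) : ℝ) := by
    rw [Nat.cast_sub hkda.le]
    linarith
  have hm0 : 0 < ((n + 1 - k * d : ℕ) : ℝ) := lt_of_lt_of_le (by positivity) hm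
  set γ : ℝ := Real.sqrt ((n + 1 - k * d : ℕ) : ℝ) / (80 * N * ρ) with hγ
  have hsq : 0 < Real.sqrt ((n + 1 - k * d : ℕ) : ℝ) := Real.sqrt_pos.mpr hm0
  have hγ0 : 0 < γ := by positivity
  have h1 : detNonErr 𝕜 S F n ≤ ENNReal.ofReal γ⁻¹ * ranErr 𝕜 S F k := by
    apply le_of_forall_ofReal hγ0
    intro c hc0 hc
    rcases eq_or_lt_of_le hc0 with h0 | hcpos
    · rw [← h0]; simp
    · refine le_trans (le_of_eq ?_) (hilbert_ineq hd S hF hcpos hc hkda hρ)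
      congr 1
      rw [hγ]
      ring
  refine h1.trans (mul_le_mul' ?_ le_rfl)
  have hn0 : (0 : ℝ) < n := by exact_mod_cast hn
  have h2 : (n : ℝ≥0∞) ^ θ = ENNReal.ofReal ((n : ℝ) ^ θ) := by
    rw [← ENNReal.ofReal_rpow_of_pos hn0, ENNReal.ofReal_natCast]
  rw [h2, ← ENNReal.ofReal_mul (by positivity)]
  apply ENNReal.ofReal_le_ofReal
  have h3 : γ⁻¹ = 80 * ρ * (N / Real.sqrt ((n + 1 - k * d : ℕ) : ℝ)) := by
    rw [hγ]; field_simp
  have h4 : N / Real.sqrt ((n + 1 - k * d : ℕ) : ℝ) ≤ Real.sqrt 2 * Real.sqrt N := by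
    rw [div_le_iff₀ hsq, mul_assoc, ← Real.sqrt_mul (by linarith), ← Real.sqrt_mul (by norm_num)]
    apply Real.le_sqrt_of_sq_le
    nlinarith
  have h5 : N ≤ 2 * n := by
    rw [hN]; push_cast
    have : (1 : ℝ) ≤ n := by exact_mod_cast hn
    linarith
  rw [h3]
  calc 80 * ρ * (N / Real.sqrt ((n + 1 - k * d : ℕ) : ℝ))
      ≤ 80 * ((20 * N) ^ ε / Real.sqrt ε) * (Real.sqrt 2 * Real.sqrt N) := by
        gcongr
        exact rho_le hN1 hε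
    _ = 80 * Real.sqrt 2 * (20 ^ ε / Real.sqrt ε) * (Real.sqrt N * N ^ ε) := by
        rw [Real.mul_rpow (by norm_num) (by linarith)]; ring
    _ = 80 * Real.sqrt 2 * (20 ^ ε / Real.sqrt ε) * N ^ θ := by
        congr 1
        rw [hθ, Real.rpow_add (by linarith), Real.sqrt_eq_rpow]
    _ ≤ 80 * Real.sqrt 2 * (20 ^ ε / Real.sqrt ε) * (2 * n) ^ θ := by
        gcongr
    _ = _ := by
        rw [Real.mul_rpow (by norm_num) hn0.le]; ring

theorem gain_hilbert {d : ℕ} (hd : Enc 𝕜 d) (hd1 : 1 ≤ d) (S : X →L[𝕜] H) {F : Set X}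
    (hF : Convex ℝ F) (hfin : ranErr 𝕜 S F 1 ≠ ∞ → detNonErr 𝕜 S F 1 ≠ ∞)
    (h1 : rate (ranErr 𝕜 S F) ≠ ⊥) (h2 : rate (ranErr 𝕜 S F) ≠ ⊤) :
    rate (ranErr 𝕜 S F) - rate (detNonErr 𝕜 S F) ≤ ((1 / 2 : ℝ) : EReal) := by
  apply gain_le _ h1 h2
  intro α hα ε hε
  obtain ⟨C, hC, hb⟩ := hilbert_bound hd S hF hε
  have hQ : 2 ≤ 2 * d := by omega
  have h5 := hasRate_transfer (k := fun n => (n + 1) / (2 * d)) (n₀ := 2 * (2 * d))
    (q := 2 * (2 * d)) hC hα (hfin hα.one_ne_top) (detNonErr_antitone S F)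
    (fun n hn => div_props hQ hn) (fun n hn => hb n (by omega))
  exact h5.mono (by linarith)

end GainH

section FiniteReal

variable {X Y : Type} [NormedAddCommGroup X] [NormedSpace ℝ X]
  [NormedAddCommGroup Y] [NormedSpace ℝ Y]

lemma ne_top_of_linear {a r : ℝ≥0∞} {γ : ℝ} (hγ : 0 < γ) (hr : r ≠ ∞)
    (h : ∀ c : ℝ, 0 < c → ENNReal.ofReal c < a → ENNReal.ofReal (c * γ) ≤ r) : a ≠ ∞ := by
  rintro rfl
  have h1 := h ((r.toReal + 1) / γ) (by positivity) ENNReal.ofReal_lt_top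
  rw [div_mul_cancel₀ _ hγ.ne', ENNReal.ofReal_le_iff_le_toReal hr] at h1
  linarith

lemma det_one_real (S : X →L[ℝ] Y) {F : Set X} (hF : Convex ℝ F) (h : ranErr ℝ S F 1 ≠ ∞) :
    detNonErr ℝ S F 1 ≠ ∞ := by
  have hlog : 0 < Real.log (20 * ((1 + 1 : ℕ) : ℝ)) := Real.log_pos (by norm_num)
  set ρ := Real.sqrt (2 * Real.log (20 * ((1 + 1 : ℕ) : ℝ))) with hρ
  have hρ0 : 0 < ρ := by rw [hρ]; positivity
  refine ne_top_of_linear (γ := (((1 + 1 : ℕ) : ℝ) ^ (1 / (((2 : ℕ) : ℝ) - 1)))⁻¹ /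
    (80 * ((1 + 1 : ℕ) : ℝ) * ρ * Real.sqrt ((1 + 1 : ℕ) : ℝ))) (by positivity) h ?_
  intro c hc hc'
  refine le_trans (le_of_eq ?_) (banach_ineq enc_real S hF hc hc' (p := 2) le_rfl (a := 1)
    (by norm_num) (k := 1) (by norm_num) hρ)
  congr 1
  have : Real.sqrt ((1 + 1 - 1 * 1 : ℕ) : ℝ) = 1 := by norm_num
  rw [this]
  ring

end FiniteReal

section FiniteComplex

variable {X Y : Type} [NormedAddCommGroup X] [NormedSpace ℂ X]
  [NormedSpace ℝ X] [IsScalarTower ℝ ℂ X] [NormedAddCommGroup Y] [NormedSpace ℂ Y]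
  [NormedSpace ℝ Y] [IsScalarTower ℝ ℂ Y]

lemma det_one_complex (S : X →L[ℂ] Y) {F : Set X} (hF : Convex ℝ F) (h : ranErr ℂ S F 1 ≠ ∞) :
    detNonErr ℂ S F 1 ≠ ∞ := by
  have hlog : 0 < Real.log 60 := Real.log_pos (by norm_num)
  refine ne_top_of_linear (γ := (13 * (80 * 3 * Real.sqrt (2 * Real.log 60)))⁻¹) (by positivity)
    h ?_
  intro c hc hc'
  refine le_trans (le_of_eq ?_) (complex_ineq S hF hc hc')
  congr 1
  field_simp

end FiniteComplex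

/-! ### The upper bounds -/

theorem gammaB_le : gammaB ≤ 1 := by
  apply sSup_le
  rintro g (⟨X, Y, i1, i2, i3, i4, i5, i6, S, F, hne, hF, h1, h2, rfl⟩ |
    ⟨X, Y, i1, i2, i3, i4, i5, i6, S, F, hne, hF, h1, h2, rfl⟩)
  · exact gain_banach enc_real le_rfl S hF (det_one_real S hF) h1 h2
  · exact gain_banach (enc_two ℂ) (by norm_num) S hF (det_one_complex S hF) h1 h2

theorem gammaH_le : gammaH ≤ ((1 / 2 : ℝ) : EReal) := by
  apply sSup_le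
  rintro g (⟨X, Y, i1, i2, i3, i4, i5, i6, S, F, hne, hF, h1, h2, rfl⟩ |
    ⟨X, Y, i1, i2, i3, i4, i5, i6, S, F, hne, hF, h1, h2, rfl⟩)
  · exact gain_hilbert enc_real le_rfl S hF (det_one_real S hF) h1 h2
  · exact gain_hilbert (enc_two ℂ) (by norm_num) S hF (det_one_complex S hF) h1 h2

end Pool.Agent.Helper579.Rates
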