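import Mathlib

/-!
Definitions for randomized integration of smooth functions on the unit cube.
-/

set_option autoImplicit false

namespace Pool.Agent.Helper579.Smooth

open MeasureTheory
open scoped ENNReal

/-- The points of the closed unit cube `[0,1]^d`. -/
abbrev Cube (d : ℕ) : Type := {x : Fin d → ℝ // x ∈ Set.Icc (0 : Fin d → ℝ) 1}

/-- The open unit cube `(0,1)^d`. -/
def openCube (d : ℕ) : Set (Fin d → ℝ) := {x | ∀ i, 0 < x i ∧ x i < 1}

/-- The class `F_d^k`: functions that are continuous on `[0,1]^d` and `k` times continuously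
differentiable in `(0,1)^d`, all of whose (mixed) partial derivatives of order at most `k` are
bounded by `1` in the open cube. The partial derivative in the coordinate directions
`i 0, ..., i (m - 1)` is written as the value of the `m`-th derivative at the corresponding
unit vectors. Only the values of `f` on the closed cube matter. -/
def Fclass (k d : ℕ) : Set ((Fin d → ℝ) → ℝ) :=
  {f | ContinuousOn f (Set.Icc 0 1) ∧ ContDiffOn ℝ k f (openCube d) ∧
    ∀ m ≤ k, ∀ i : Fin m → Fin d, ∀ x ∈ openCube d,
      |iteratedFDeriv ℝ m f x (fun j => Pi.single (i j) 1)| ≤ 1}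

/-- A deterministic adaptive algorithm using function values: either it stops with an output, or
it asks for the value of the function at a point of the cube and continues in a way that may
depend on this value. -/
inductive Alg (d : ℕ) : Type
  | out (c : ℝ) : Alg d
  | ask (x : Cube d) (next : ℝ → Alg d) : Alg d

/-- The output of an algorithm for the input `f`. -/
def Alg.run {d : ℕ} : Alg d → ((Fin d → ℝ) → ℝ) → ℝ
  | .out c, _ => c
  | .ask x next, f => (next (f x)).run f

/-- The number of function values an algorithm uses for the input `f`. -/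
def Alg.cost {d : ℕ} : Alg d → ((Fin d → ℝ) → ℝ) → ℕ
  | .out _, _ => 0
  | .ask x next, f => (next (f x)).cost f + 1

/-- The upper integral. -/
noncomputable def upperInt {Ω : Type} [MeasurableSpace Ω] (μ : Measure Ω) (g : Ω → ℝ≥0∞) : ℝ≥0∞ :=
  ⨅ (h : Ω → ℝ≥0∞) (_ : Measurable h) (_ : ∀ ω, g ω ≤ h ω), ∫⁻ ω, h ω ∂μ

/-- The set of errors on `F_d^k` of randomized algorithms with (expected) cardinality at most
`n` for the problem of integration. -/
def ranErrors (k d n : ℕ) : Set ℝ≥0∞ :=
  {e | ∃ (Ω : Type) (_ : MeasurableSpace Ω) (μ : Measure Ω) (_ : IsProbabilityMeasure μ)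
      (A : Ω → Alg d),
      (∀ f ∈ Fclass k d, Measurable fun ω => (A ω).cost f) ∧
      (∀ f ∈ Fclass k d, ∫⁻ ω, ((A ω).cost f : ℝ≥0∞) ∂μ ≤ n) ∧
      e = ⨆ f ∈ Fclass k d,
        upperInt μ (fun ω => ENNReal.ofReal |(∫ x in Set.Icc 0 1, f x) - (A ω).run f|)}

/-- The minimal error `e^ran(n, F_d^k)`. -/
noncomputable def eRan (k d n : ℕ) : ℝ≥0∞ := sInf (ranErrors k d n)

/-- The set of all real `t` for which there is a constant `C` (depending only on `k` and `t`) with
`e^ran(n, F_d^k) ≤ C d^t n^(-k/d - 1/2)` for all `d, n ≥ 1`. -/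
def exponents (k : ℕ) : Set ℝ :=
  {t | ∃ C : ℝ, ∀ d n : ℕ, 1 ≤ d → 1 ≤ n →
    eRan k d n ≤ ENNReal.ofReal (C * (d : ℝ) ^ t * (n : ℝ) ^ (-((k : ℝ) / d) - 1 / 2))}

end Pool.Agent.Helper579.Smooth
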