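import Mathlib
import Pool.Agent.Helper579.SmDefs

set_option autoImplicit false
set_option linter.unusedSectionVars false

namespace Pool.Agent.Helper579.Smooth

open MeasureTheory Set Finset Polynomial
open scoped ENNReal Nat

/-- Lebesgue measure on the unit interval -/
noncomputable def nu : Measure ℝ := volume.restrict (Ioo (0 : ℝ) 1)

instance : IsProbabilityMeasure nu := ⟨by simp [nu]⟩

lemma integrable_poly_mul (p q : ℝ[X]) : Integrable (fun x => p.eval x * q.eval x) nu := by
  have h : Continuous (fun x => p.eval x * q.eval x) := p.continuous.mul q.continuous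
  exact (h.integrableOn_Icc (a := 0) (b := 1)).mono_set Ioo_subset_Icc_self

lemma poly_definite (p : ℝ[X]) (h : ∫ x, p.eval x * p.eval x ∂nu = 0) : p = 0 := by
  by_contra hp
  have h1 : 0 ≤ᵐ[volume.restrict (Ioo (0 : ℝ) 1)] fun x => p.eval x * p.eval x :=
    Filter.Eventually.of_forall fun x => mul_self_nonneg _
  have h2 := (integral_eq_zero_iff_of_nonneg_ae h1 (integrable_poly_mul p p)).mp h
  have h3 : ∀ᵐ x ∂(volume.restrict (Ioo (0 : ℝ) 1)), x ∈ p.roots.toFinset := by
    filter_upwards [h2] with x hx
    rw [Multiset.mem_toFinset, mem_roots hp]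
    exact mul_self_eq_zero.mp hx
  have h4 : volume.restrict (Ioo (0 : ℝ) 1) {x | x ∉ p.roots.toFinset} = 0 := h3
  have h5 : volume.restrict (Ioo (0 : ℝ) 1) (p.roots.toFinset : Set ℝ) = 0 := by
    refine le_antisymm ((Measure.restrict_apply_le _ _).trans ?_) zero_le
    exact (Finset.measure_zero _ _).le
  have h6 : volume.restrict (Ioo (0 : ℝ) 1) univ = 0 := by
    have : (univ : Set ℝ) ⊆ {x | x ∉ p.roots.toFinset} ∪ (p.roots.toFinset : Set ℝ) := by
      intro x _
      by_cases hx : x ∈ p.roots.toFinset
      · exact Or.inr hx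
      · exact Or.inl hx
    refine le_antisymm ((measure_mono this).trans ((measure_union_le _ _).trans ?_)) zero_le
    rw [h4, h5, add_zero]
  simp at h6

/-- the inner product on polynomials of degree `< k` -/
@[reducible] noncomputable def polyCore (k : ℕ) : InnerProductSpace.Core ℝ (degreeLT ℝ k) where
  inner p q := ∫ x, (p : ℝ[X]).eval x * (q : ℝ[X]).eval x ∂nu
  conj_inner_symm p q := by
    simp only [conj_trivial]
    congr 1
    funext x
    ring
  re_inner_nonneg p := by
    simp only [RCLike.re_to_real]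
    exact integral_nonneg fun x => mul_self_nonneg _
  add_left p q r := by
    rw [← integral_add (integrable_poly_mul _ _) (integrable_poly_mul _ _)]
    congr 1
    funext x
    simp only [Submodule.coe_add, eval_add]
    ring
  smul_left p q r := by
    simp only [conj_trivial]
    rw [← integral_const_mul]
    congr 1
    funext x
    simp only [Submodule.coe_smul, eval_smul, smul_eq_mul]
    ring
  definite p h := by
    exact Subtype.ext (poly_definite (p : ℝ[X]) h)

lemma exists_orthopoly (k : ℕ) : ∃ (K : ℕ) (p : Fin K → ℝ[X]),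
    (∀ a, (p a).degree < k) ∧
    (∀ a b, ∫ x, (p a).eval x * (p b).eval x ∂nu = if a = b then 1 else 0) ∧
    (∀ q : ℝ[X], q.degree < k → ∃ c : Fin K → ℝ, q = ∑ a, c a • p a) := by
  let _ : NormedAddCommGroup (degreeLT ℝ k) := (polyCore k).toNormedAddCommGroup
  let _ : InnerProductSpace ℝ (degreeLT ℝ k) := InnerProductSpace.ofCore (polyCore k).toCore
  have : FiniteDimensional ℝ (degreeLT ℝ k) := by
    exact (degreeLTEquiv ℝ k).symm.finiteDimensional
  set b := stdOrthonormalBasis ℝ (degreeLT ℝ k) with hb
  refine ⟨Module.finrank ℝ (degreeLT ℝ k), fun a => (b a : ℝ[X]), ?_, ?_, ?_⟩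
  · intro a
    exact mem_degreeLT.mp (b a).2
  · intro a c
    have h1 := orthonormal_iff_ite.mp b.orthonormal a c
    exact h1
  · intro q hq
    refine ⟨fun a => b.repr ⟨q, mem_degreeLT.mpr hq⟩ a, ?_⟩
    have h1 := b.sum_repr ⟨q, mem_degreeLT.mpr hq⟩
    have h2 := congrArg (Submodule.subtype (degreeLT ℝ k)) h1
    rw [map_sum] at h2
    exact h2.symm

end Pool.Agent.Helper579.Smooth
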