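import Mathlib
import Pool.Agent.Helper579.SmPoly

set_option autoImplicit false
set_option linter.unusedSectionVars false

namespace Pool.Agent.Helper579.Smooth

open MeasureTheory Set Finset Polynomial
open scoped ENNReal Nat RealInnerProductSpace

lemma int_nu (f : ℝ → ℝ) : ∫ x, f x ∂nu = ∫ x in (0 : ℝ)..1, f x := by
  rw [intervalIntegral.integral_of_le zero_le_one, integral_Ioc_eq_integral_Ioo]
  rfl

/-- a localised polynomial -/
noncomputable def pw (L b : ℕ) (q : ℝ[X]) (x : ℝ) : ℝ :=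
  if ((b : ℝ) ≤ L * x ∧ L * x < b + 1) then q.eval (L * x - b) else 0

lemma measurable_pw (L b : ℕ) (q : ℝ[X]) : Measurable (pw L b q) := by
  unfold pw
  have hm : Measurable (fun x : ℝ => (L : ℝ) * x) := by fun_prop
  apply Measurable.ite
  · exact (measurableSet_le measurable_const hm).inter
      (measurableSet_lt (f := fun x : ℝ => (L : ℝ) * x) hm measurable_const)
  · exact (q.continuous.comp (by fun_prop : Continuous fun x : ℝ => (L : ℝ) * x - b)).measurable
  · exact measurable_const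

lemma pw_of_ne {L b b' : ℕ} (q q' : ℝ[X]) (h : b ≠ b') (x : ℝ) : pw L b q x * pw L b' q' x = 0 := by
  unfold pw
  split_ifs with h1 h2
  · exfalso
    have h3 : (b : ℝ) < b' + 1 := lt_of_le_of_lt h1.1 h2.2
    have h4 : (b' : ℝ) < b + 1 := lt_of_le_of_lt h2.1 h1.2
    have h5 : b < b' + 1 := by exact_mod_cast h3
    have h6 : b' < b + 1 := by exact_mod_cast h4
    omega
  · simp
  · simp
  · simp

lemma int_cell {L b : ℕ} (hb : b < L) (g : ℝ → ℝ) :
    ∫ x, (if ((b : ℝ) ≤ L * x ∧ L * x < b + 1) then g (L * x - b) else 0) ∂nu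
      = (L : ℝ)⁻¹ * ∫ x, g x ∂nu := by
  have hL : (0 : ℝ) < L := by exact_mod_cast (by omega : 0 < L)
  set α : ℝ := b / L with hα
  set β : ℝ := (b + 1) / L with hβ
  have hα0 : 0 ≤ α := by positivity
  have hβ1 : β ≤ 1 := by
    rw [hβ, div_le_one hL]; exact_mod_cast hb
  have hαβ : α ≤ β := by rw [hα, hβ]; gcongr; linarith
  have h1 : (fun x : ℝ => if ((b : ℝ) ≤ L * x ∧ L * x < b + 1) then g (L * x - b) else 0)
      = (Ico α β).indicator (fun x => g (L * x - b)) := by
    funext x
    have : ((b : ℝ) ≤ L * x ∧ L * x < b + 1) ↔ x ∈ Ico α β := by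
      rw [Set.mem_Ico, hα, hβ, div_le_iff₀ hL, lt_div_iff₀ hL, mul_comm x]
    by_cases hx : x ∈ Ico α β
    · rw [if_pos (this.mpr hx), indicator_of_mem hx]
    · rw [if_neg (fun h => hx (this.mp h)), indicator_of_notMem hx]
  rw [h1, nu, setIntegral_indicator measurableSet_Ico]
  have h2 : (Ioo (0 : ℝ) 1 ∩ Ico α β : Set ℝ) =ᵐ[volume] Ioc α β := by
    have e1 : (Ioo (0 : ℝ) 1 ∩ Ico α β : Set ℝ) =ᵐ[volume] (Icc (0 : ℝ) 1 ∩ Icc α β : Set ℝ) :=
      Ioo_ae_eq_Icc.inter Ico_ae_eq_Icc
    have e2 : (Icc (0 : ℝ) 1 ∩ Icc α β : Set ℝ) = Icc α β := by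
      apply inter_eq_self_of_subset_right
      exact Icc_subset_Icc hα0 hβ1
    rw [e2] at e1
    exact e1.trans Ioc_ae_eq_Icc.symm
  rw [setIntegral_congr_set h2, ← intervalIntegral.integral_of_le hαβ,
    intervalIntegral.integral_comp_mul_sub (fun x => g x) hL.ne' (b : ℝ)]
  have e3 : (L : ℝ) * α - b = 0 := by rw [hα]; field_simp; ring
  have e4 : (L : ℝ) * β - b = 1 := by rw [hβ]; field_simp; ring
  rw [e3, e4, smul_eq_mul]
  congr 1
  exact (int_nu g).symm

lemma int_pw {L b b' : ℕ} (hb : b < L) (q q' : ℝ[X]) :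
    ∫ x, pw L b q x * pw L b' q' x ∂nu
      = if b = b' then (L : ℝ)⁻¹ * ∫ x, q.eval x * q'.eval x ∂nu else 0 := by
  split_ifs with h
  · subst h
    rw [← int_cell hb (fun x => q.eval x * q'.eval x)]
    congr 1
    funext x
    unfold pw
    split_ifs <;> simp
  · simp [pw_of_ne q q' h]

lemma pw_sum {A : Type} [Fintype A] (L b : ℕ) (c : A → ℝ) (p : A → ℝ[X]) (x : ℝ) :
    pw L b (∑ a, c a • p a) x = ∑ a, c a * pw L b (p a) x := by
  unfold pw
  split_ifs
  · rw [eval_finsetSum]
    simp [smul_eq_mul]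
  · simp

/-- a coarse localised polynomial is a sum of fine ones -/
lemma pw_refine {M B q : ℕ} (hB : 1 ≤ B) (hq : q < M) (r : ℝ[X]) :
    ∃ R : Fin (M * B) → ℝ[X], (∀ b, (R b).degree ≤ r.degree) ∧
      ∀ x, pw M q r x = ∑ b : Fin (M * B), pw (M * B) b (R b) x := by
  have hBr : (0 : ℝ) < B := by exact_mod_cast hB
  refine ⟨fun b => if q * B ≤ b ∧ (b : ℕ) < (q + 1) * B then
    r.comp (C (1 / (B : ℝ)) * X + C ((b : ℝ) / B - q)) else 0, ?_, ?_⟩
  · intro b
    beta_reduce
    split_ifs
    · rcases eq_or_ne r 0 with hr | hr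
      · simp [hr]
      · rw [degree_eq_natDegree hr]
        refine degree_le_of_natDegree_le (natDegree_comp_le.trans ?_)
        have : (C (1 / (B : ℝ)) * X + C ((b : ℝ) / B - q)).natDegree ≤ 1 := natDegree_linear_le
        calc r.natDegree * _ ≤ r.natDegree * 1 := Nat.mul_le_mul_left _ this
          _ = _ := mul_one _
    · simp
  · intro x
    have key : ∀ b : Fin (M * B), pw (M * B) b (if q * B ≤ (b : ℕ) ∧ (b : ℕ) < (q + 1) * B then
        r.comp (C (1 / (B : ℝ)) * X + C ((b : ℝ) / B - q)) else 0) x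
        = if ((b : ℕ) : ℝ) ≤ (M * B : ℕ) * x ∧ (M * B : ℕ) * x < (b : ℕ) + 1 then
            pw M q r x else 0 := by
      intro b
      unfold pw
      by_cases h1 : (((b : ℕ) : ℝ) ≤ (M * B : ℕ) * x ∧ (M * B : ℕ) * x < (b : ℕ) + 1)
      · rw [if_pos h1, if_pos h1]
        have e1 : ((M * B : ℕ) : ℝ) * x = (M * x) * B := by push_cast; ring
        have hiff : (q * B ≤ (b : ℕ) ∧ (b : ℕ) < (q + 1) * B) ↔
            ((q : ℝ) ≤ M * x ∧ M * x < q + 1) := by
          rw [e1] at h1
          constructor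
          · rintro ⟨h2, h3⟩
            have h2' : (q : ℝ) * B ≤ (b : ℕ) := by exact_mod_cast h2
            have h3' : ((b : ℕ) : ℝ) + 1 ≤ (q + 1) * B := by exact_mod_cast h3
            constructor
            · by_contra hcon
              push Not at hcon
              have := mul_lt_mul_of_pos_right hcon hBr
              linarith [h1.1]
            · by_contra hcon
              push Not at hcon
              have := mul_le_mul_of_nonneg_right hcon hBr.le
              linarith [h1.2]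
          · rintro ⟨h2, h3⟩
            have h2' := mul_le_mul_of_nonneg_right h2 hBr.le
            have h3' := mul_lt_mul_of_pos_right h3 hBr
            constructor
            · have : (q : ℝ) * B < (b : ℕ) + 1 := lt_of_le_of_lt h2' h1.2
              have : q * B < b + 1 := by exact_mod_cast this
              omega
            · have : ((b : ℕ) : ℝ) < (q + 1) * B := lt_of_le_of_lt h1.1 h3'
              exact_mod_cast this
        by_cases h4 : (q : ℝ) ≤ M * x ∧ M * x < q + 1
        · rw [if_pos (hiff.mpr h4), if_pos h4]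
          simp only [eval_comp, eval_add, eval_mul, eval_C, eval_X]
          congr 1
          rw [e1]
          field_simp
          ring
        · rw [if_neg (fun h => h4 (hiff.mp h)), if_neg h4]
          simp
      · rw [if_neg h1, if_neg h1]
    rw [Finset.sum_congr rfl fun b _ => key b]
    by_cases hx : (q : ℝ) ≤ M * x ∧ M * x < q + 1
    · -- exactly one fine cell
      have e1 : ((M * B : ℕ) : ℝ) * x = (M * x) * B := by push_cast; ring
      have hnn : 0 ≤ ((M * B : ℕ) : ℝ) * x := by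
        rw [e1]
        have h0 : (0 : ℝ) ≤ q := by positivity
        exact mul_nonneg (h0.trans hx.1) hBr.le
      have hlt : ⌊((M * B : ℕ) : ℝ) * x⌋₊ < M * B := by
        rw [Nat.floor_lt hnn, e1]
        have : (q : ℝ) + 1 ≤ M := by exact_mod_cast hq
        push_cast
        nlinarith [hx.2]
      rw [Finset.sum_eq_single (⟨⌊((M * B : ℕ) : ℝ) * x⌋₊, hlt⟩ : Fin (M * B))]
      · rw [if_pos ⟨Nat.floor_le hnn, Nat.lt_floor_add_one _⟩]
      · intro b _ hb
        rw [if_neg]
        rintro ⟨h1, h2⟩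
        apply hb
        apply Fin.ext
        show (b : ℕ) = _
        symm
        rw [Nat.floor_eq_iff hnn]
        exact ⟨h1, h2⟩
      · intro h; exact absurd (Finset.mem_univ _) h
    · have : pw M q r x = 0 := by unfold pw; rw [if_neg hx]
      rw [this]
      simp

/-- the function with given coefficients in the fine basis -/
noncomputable def Phi {K : ℕ} (p : Fin K → ℝ[X]) (L : ℕ) (v : EuclideanSpace ℝ (Fin L × Fin K))
    (x : ℝ) : ℝ := ∑ j : Fin L × Fin K, v j * (Real.sqrt L * pw L j.1 (p j.2) x)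

/-- values of the basis at a point -/
noncomputable def Psi {K : ℕ} (p : Fin K → ℝ[X]) (L : ℕ) (x : ℝ) :
    EuclideanSpace ℝ (Fin L × Fin K) :=
  WithLp.toLp 2 (fun j => Real.sqrt L * pw L j.1 (p j.2) x)

lemma Phi_eq_inner {K : ℕ} (p : Fin K → ℝ[X]) (L : ℕ) (v : EuclideanSpace ℝ (Fin L × Fin K))
    (x : ℝ) : Phi p L v x = ⟪v, Psi p L x⟫ := by
  unfold Phi Psi
  rw [PiLp.inner_apply]
  apply Finset.sum_congr rfl
  intro j _
  simp [mul_comm]

lemma pw_bound (L b : ℕ) (q : ℝ[X]) : ∃ C, ∀ x, |pw L b q x| ≤ C := by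
  obtain ⟨C, hC⟩ := (isCompact_Icc (a := (0 : ℝ)) (b := 1)).exists_bound_of_continuousOn
    q.continuous.continuousOn
  refine ⟨max C 0, fun x => ?_⟩
  unfold pw
  split_ifs with h
  · exact (hC _ ⟨by linarith [h.1], by linarith [h.2]⟩).trans (le_max_left _ _)
  · simp

lemma integrable_of_bounded {f : ℝ → ℝ} (hm : Measurable f) {C : ℝ} (hC : ∀ x, |f x| ≤ C) :
    Integrable f nu :=
  Integrable.of_bound hm.aestronglyMeasurable C (Filter.Eventually.of_forall hC)

lemma integrable_pw_mul (L b L' b' : ℕ) (q q' : ℝ[X]) :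
    Integrable (fun x => pw L b q x * pw L' b' q' x) nu := by
  obtain ⟨C, hC⟩ := pw_bound L b q
  obtain ⟨C', hC'⟩ := pw_bound L' b' q'
  refine integrable_of_bounded ((measurable_pw L b q).mul (measurable_pw L' b' q')) (C := C * C') ?_
  intro x
  rw [abs_mul]
  exact mul_le_mul (hC x) (hC' x) (abs_nonneg _) ((abs_nonneg _).trans (hC x))

section Fam

variable {k K : ℕ} {p : Fin K → ℝ[X]}

lemma Phi_inner (hp : ∀ a b, ∫ x, (p a).eval x * (p b).eval x ∂nu = if a = b then 1 else 0)
    {L : ℕ} (hL : 1 ≤ L) (u v : EuclideanSpace ℝ (Fin L × Fin K)) :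
    ∫ x, Phi p L u x * Phi p L v x ∂nu = ⟪u, v⟫ := by
  have hLr : (0 : ℝ) < L := by exact_mod_cast hL
  have h1 : ∀ x, Phi p L u x * Phi p L v x = ∑ i : Fin L × Fin K, ∑ j : Fin L × Fin K,
      (u i * v j * L) * (pw L i.1 (p i.2) x * pw L j.1 (p j.2) x) := by
    intro x
    unfold Phi
    rw [Finset.sum_mul_sum]
    apply Finset.sum_congr rfl
    intro i _
    apply Finset.sum_congr rfl
    intro j _
    have : (Real.sqrt L) * (Real.sqrt L) = (L : ℝ) := Real.mul_self_sqrt hLr.le
    linear_combination (u i * v j * pw L i.1 (p i.2) x * pw L j.1 (p j.2) x) * this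
  simp only [h1]
  rw [integral_finsetSum _ (fun i _ => integrable_finsetSum _ (fun j _ =>
    (integrable_pw_mul _ _ _ _ _ _).const_mul _))]
  rw [PiLp.inner_apply]
  apply Finset.sum_congr rfl
  intro i _
  rw [integral_finsetSum _ (fun j _ => (integrable_pw_mul _ _ _ _ _ _).const_mul _)]
  rw [Finset.sum_eq_single i]
  · rw [integral_const_mul, int_pw i.1.2, if_pos rfl, hp, if_pos rfl]
    simp only [RCLike.inner_apply, conj_trivial]
    field_simp
  · intro j _ hj
    rw [integral_const_mul, int_pw i.1.2]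
    split_ifs with h
    · have h2 : i.2 ≠ j.2 := by
        intro h3
        apply hj
        exact Prod.ext (Fin.ext h.symm) h3.symm
      rw [hp, if_neg h2]; ring
    · ring
  · intro h; exact absurd (Finset.mem_univ _) h

/-- fine localised polynomials are in the range of `Phi` -/
lemma exists_coeff (hspan : ∀ q : ℝ[X], q.degree < k → ∃ c : Fin K → ℝ, q = ∑ a, c a • p a)
    {L : ℕ} (hL : 1 ≤ L) (R : Fin L → ℝ[X]) (hR : ∀ b, (R b).degree < k) :
    ∃ v : EuclideanSpace ℝ (Fin L × Fin K), ∀ x, ∑ b : Fin L, pw L b (R b) x = Phi p L v x := by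
  have hLr : (0 : ℝ) < L := by exact_mod_cast hL
  choose c hc using fun b => hspan (R b) (hR b)
  refine ⟨WithLp.toLp 2 (fun j => c j.1 j.2 / Real.sqrt L), fun x => ?_⟩
  unfold Phi
  rw [Fintype.sum_prod_type]
  apply Finset.sum_congr rfl
  intro b _
  rw [hc b, pw_sum]
  apply Finset.sum_congr rfl
  intro a _
  have : Real.sqrt L ≠ 0 := (Real.sqrt_pos.mpr hLr).ne'
  simp only
  field_simp

end Fam

end Pool.Agent.Helper579.Smooth
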