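import Mathlib
import Pool.Agent.Helper579.SmFamily

set_option autoImplicit false
set_option linter.unusedSectionVars false

namespace Pool.Agent.Helper579.Smooth

open MeasureTheory Set Finset Polynomial
open scoped ENNReal RealInnerProductSpace

lemma pw_sq_sum {L K : ℕ} {p : Fin K → ℝ[X]} {cP : ℝ} (hcP0 : 0 ≤ cP)
    (hcP : ∀ y ∈ Set.Icc (0 : ℝ) 1, ∑ a, (p a).eval y ^ 2 ≤ cP) (x : ℝ) :
    ∑ j : Fin L × Fin K, (Real.sqrt L * pw L j.1 (p j.2) x) ^ 2 ≤ L * cP := by
  have hL : (0 : ℝ) ≤ L := by positivity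
  have h1 : ∀ j : Fin L × Fin K, (Real.sqrt L * pw L j.1 (p j.2) x) ^ 2
      = L * (pw L j.1 (p j.2) x) ^ 2 := by
    intro j
    rw [mul_pow, Real.sq_sqrt hL]
  rw [Finset.sum_congr rfl fun j _ => h1 j, ← Finset.mul_sum]
  apply mul_le_mul_of_nonneg_left _ hL
  rw [Fintype.sum_prod_type]
  by_cases hex : ∃ b : Fin L, (((b : ℕ) : ℝ) ≤ L * x ∧ L * x < (b : ℕ) + 1)
  · obtain ⟨b, hb⟩ := hex
    rw [Finset.sum_eq_single b]
    · calc ∑ a, (pw L b (p a) x) ^ 2 = ∑ a, (p a).eval (L * x - (b : ℕ)) ^ 2 := by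
            apply Finset.sum_congr rfl
            intro a _
            unfold pw
            rw [if_pos hb]
        _ ≤ cP := hcP _ ⟨by linarith [hb.1], by linarith [hb.2]⟩
    · intro b' _ hb'
      apply Finset.sum_eq_zero
      intro a _
      have : pw L b' (p a) x = 0 := by
        unfold pw
        rw [if_neg]
        rintro ⟨h1, h2⟩
        apply hb'
        have h3 : ((b : ℕ) : ℝ) < (b' : ℕ) + 1 := lt_of_le_of_lt hb.1 h2
        have h4 : ((b' : ℕ) : ℝ) < (b : ℕ) + 1 := lt_of_le_of_lt h1 hb.2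
        have h5 : (b : ℕ) < b' + 1 := by exact_mod_cast h3
        have h6 : (b' : ℕ) < b + 1 := by exact_mod_cast h4
        apply Fin.ext
        omega
      rw [this]; simp
    · intro h; exact absurd (Finset.mem_univ _) h
  · push Not at hex
    have : ∀ (b : Fin L) (a : Fin K), pw L b (p a) x = 0 := by
      intro b a
      unfold pw
      rw [if_neg]
      rintro ⟨h1, h2⟩
      exact absurd h2 (not_lt.mpr (hex b h1))
    simp only [this]
    simpa using hcP0

/-- the structure of the one-dimensional family -/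
structure Family (k M B : ℕ) (cP : ℝ) where
  /-- index type -/
  ι : Type
  /-- finiteness -/
  fin : Fintype ι
  /-- decidable equality -/
  dec : DecidableEq ι
  /-- high indices -/
  hi : Finset ι
  /-- the functions -/
  φ : ι → ℝ → ℝ
  meas : ∀ l, Measurable (φ l)
  bdd : ∃ C, ∀ l x, |φ l x| ≤ C
  orth : ∀ l l', ∫ x, φ l x * φ l' x ∂nu = if l = l' then 1 else 0
  lo_le : ∀ x, ∑ l ∈ Finset.univ \ hi, φ l x ^ 2 ≤ M * cP
  all_le : ∀ x, ∑ l, φ l x ^ 2 ≤ M * B * cP
  coarse : ∀ l ∈ hi, ∀ q < M, ∀ r : ℝ[X], r.degree < k → ∫ x, pw M q r x * φ l x ∂nu = 0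
  fine : ∀ b < M * B, ∀ r : ℝ[X], r.degree < k →
    ∃ c : ι → ℝ, ∀ x, pw (M * B) b r x = ∑ l, c l * φ l x

theorem exists_family {k K : ℕ} {p : Fin K → ℝ[X]} (hdeg : ∀ a, (p a).degree < k)
    (hp : ∀ a b, ∫ x, (p a).eval x * (p b).eval x ∂nu = if a = b then 1 else 0)
    (hspan : ∀ q : ℝ[X], q.degree < k → ∃ c : Fin K → ℝ, q = ∑ a, c a • p a)
    {cP : ℝ} (hcP0 : 0 ≤ cP) (hcP : ∀ y ∈ Set.Icc (0 : ℝ) 1, ∑ a, (p a).eval y ^ 2 ≤ cP)
    {M B : ℕ} (hM : 1 ≤ M) (hB : 1 ≤ B) : Nonempty (Family k M B cP) := by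
  classical
  have hMr : (0 : ℝ) < M := by exact_mod_cast hM
  have hL : 1 ≤ M * B := Nat.mul_pos hM hB
  -- coefficient vectors of the coarse functions
  have hvec : ∀ j : Fin M × Fin K, ∃ v : EuclideanSpace ℝ (Fin (M * B) × Fin K),
      ∀ x, Real.sqrt M * pw M j.1 (p j.2) x = Phi p (M * B) v x := by
    intro j
    obtain ⟨R, hR1, hR2⟩ := pw_refine (M := M) hB j.1.2 (p j.2)
    obtain ⟨v, hv⟩ := exists_coeff (k := k) hspan hL R (fun b => (hR1 b).trans_lt (hdeg j.2))
    refine ⟨Real.sqrt M • v, fun x => ?_⟩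
    rw [hR2, hv, Phi_eq_inner, Phi_eq_inner, real_inner_smul_left]
  choose vec hvec using hvec
  set m := M * B * K - M * K with hm
  have hcard : Module.finrank ℝ (EuclideanSpace ℝ (Fin (M * B) × Fin K))
      = Fintype.card ((Fin M × Fin K) ⊕ Fin m) := by
    rw [finrank_euclideanSpace]
    simp only [Fintype.card_prod, Fintype.card_fin, Fintype.card_sum]
    have : M * K ≤ M * B * K := by
      calc M * K = M * 1 * K := by ring
        _ ≤ M * B * K := by gcongr
    omega
  let v : ((Fin M × Fin K) ⊕ Fin m) → EuclideanSpace ℝ (Fin (M * B) × Fin K) :=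
    Sum.elim vec (fun _ => 0)
  have horth : ∀ i j : Fin M × Fin K, ⟪vec i, vec j⟫ = if i = j then 1 else 0 := by
    intro i j
    rw [← Phi_inner hp hL]
    simp only [← hvec]
    have e1 : ∀ x, Real.sqrt M * pw M i.1 (p i.2) x * (Real.sqrt M * pw M j.1 (p j.2) x)
        = M * (pw M i.1 (p i.2) x * pw M j.1 (p j.2) x) := by
      intro x
      have : (Real.sqrt M) * (Real.sqrt M) = (M : ℝ) := Real.mul_self_sqrt hMr.le
      linear_combination (pw M i.1 (p i.2) x * pw M j.1 (p j.2) x) * this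
    simp only [e1]
    rw [integral_const_mul, int_pw i.1.2, hp]
    by_cases h : i = j
    · subst h
      simp only [if_true]
      field_simp
    · rw [if_neg h]
      split_ifs with h1 h2
      · exact absurd (Prod.ext (Fin.ext h1) h2) h
      · ring
      · ring
  have hv : Orthonormal ℝ ((Set.range (Sum.inl : Fin M × Fin K → (Fin M × Fin K) ⊕ Fin m)).domRestrict v) := by
    rw [orthonormal_iff_ite]
    rintro ⟨a, ha⟩ ⟨a', ha'⟩
    have ha2 := ha
    have ha2' := ha'
    obtain ⟨i, rfl⟩ := ha2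
    obtain ⟨j, rfl⟩ := ha2'
    have e1 : ⟪(Set.range (Sum.inl : Fin M × Fin K → (Fin M × Fin K) ⊕ Fin m)).domRestrict v
        ⟨Sum.inl i, ha⟩, (Set.range (Sum.inl : Fin M × Fin K → (Fin M × Fin K) ⊕ Fin m)).domRestrict v
        ⟨Sum.inl j, ha'⟩⟫ = ⟪vec i, vec j⟫ := rfl
    rw [e1, horth]
    by_cases h : i = j
    · subst h
      rw [if_pos rfl, if_pos rfl]
    · rw [if_neg h, if_neg]
      intro h2
      exact h (Sum.inl_injective (Subtype.mk.inj h2))
  obtain ⟨b, hb⟩ := hv.exists_orthonormalBasis_extension_of_card_eq hcard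
  have hbl : ∀ j, b (Sum.inl j) = vec j := fun j => hb _ ⟨j, rfl⟩
  have hbo := orthonormal_iff_ite.mp b.orthonormal
  refine ⟨{
    ι := (Fin M × Fin K) ⊕ Fin m
    fin := inferInstance
    dec := inferInstance
    hi := Finset.univ.filter (fun l => l.isRight)
    φ := fun l x => Phi p (M * B) (b l) x
    meas := ?_
    bdd := ?_
    orth := ?_
    lo_le := ?_
    all_le := ?_
    coarse := ?_
    fine := ?_ }⟩
  · intro l
    unfold Phi
    exact Finset.measurable_fun_sum _ fun j _ => ((measurable_pw _ _ _).const_mul _).const_mul _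
  · have hall : ∀ l, ∃ C, ∀ x, |Phi p (M * B) (b l) x| ≤ C := by
      intro l
      choose C hC using fun j : Fin (M * B) × Fin K => pw_bound (M * B) j.1 (p j.2)
      refine ⟨∑ j, |b l j| * (Real.sqrt ((M * B : ℕ) : ℝ) * C j), fun x => ?_⟩
      unfold Phi
      refine (Finset.abs_sum_le_sum_abs _ _).trans (Finset.sum_le_sum fun j _ => ?_)
      rw [abs_mul, abs_mul, abs_of_nonneg (Real.sqrt_nonneg _)]
      gcongr
      exact hC j x
    choose C hC using hall
    refine ⟨∑ l, |C l|, fun l x => (hC l x).trans ?_⟩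
    exact (le_abs_self _).trans (Finset.single_le_sum (f := fun l => |C l|)
      (fun i _ => abs_nonneg _) (Finset.mem_univ l))
  · intro l l'
    rw [Phi_inner hp hL]
    exact hbo l l'
  · intro x
    have e1 : (Finset.univ \ Finset.univ.filter (fun l : (Fin M × Fin K) ⊕ Fin m => l.isRight))
        = Finset.univ.image Sum.inl := by
      ext l
      rcases l with l | l <;> simp
    rw [e1, Finset.sum_image (fun i _ j _ h => Sum.inl_injective h)]
    simp only [hbl, ← hvec]
    exact pw_sq_sum hcP0 hcP x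
  · intro x
    have e1 : ∑ l, Phi p (M * B) (b l) x ^ 2 = ‖Psi p (M * B) x‖ ^ 2 := by
      rw [← b.sum_sq_norm_inner_right (Psi p (M * B) x)]
      apply Finset.sum_congr rfl
      intro l _
      rw [Phi_eq_inner, Real.norm_eq_abs, sq_abs]
    rw [e1, EuclideanSpace.norm_eq, Real.sq_sqrt (Finset.sum_nonneg fun _ _ => by positivity)]
    have h2 := pw_sq_sum (L := M * B) hcP0 hcP x
    push_cast at h2 ⊢
    refine le_trans (le_of_eq ?_) h2
    apply Finset.sum_congr rfl
    intro j _
    rw [Real.norm_eq_abs, sq_abs]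
    simp [Psi]
  · intro l hl q hq r hr
    obtain ⟨c, hc⟩ := hspan r hr
    have e1 : ∀ x, pw M q r x * Phi p (M * B) (b l) x
        = ∑ a, (c a / Real.sqrt M) * (Phi p (M * B) (b (Sum.inl (⟨q, hq⟩, a))) x
          * Phi p (M * B) (b l) x) := by
      intro x
      rw [hc, pw_sum, Finset.sum_mul]
      apply Finset.sum_congr rfl
      intro a _
      rw [hbl, ← hvec]
      have : Real.sqrt M ≠ 0 := (Real.sqrt_pos.mpr hMr).ne'
      field_simp
    simp only [e1]
    rw [integral_finsetSum]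
    · apply Finset.sum_eq_zero
      intro a _
      rw [integral_const_mul, Phi_inner hp hL, hbo]
      rw [Finset.mem_filter] at hl
      rw [if_neg, mul_zero]
      intro h
      rw [← h] at hl
      simp at hl
    · intro a _
      apply Integrable.const_mul
      by_contra hcon
      have h1 := integral_undef hcon
      have h3 : Integrable (fun x => Phi p (M * B) (b (Sum.inl (⟨q, hq⟩, a))) x
          * Phi p (M * B) (b l) x) nu := by
        unfold Phi
        simp only [Finset.sum_mul_sum]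
        refine integrable_finsetSum _ fun i _ => integrable_finsetSum _ fun j _ => ?_
        have h4 : ∀ x, (b (Sum.inl (⟨q, hq⟩, a)) i * (Real.sqrt ((M * B : ℕ) : ℝ) * pw (M * B) i.1 (p i.2) x)) *
          (b l j * (Real.sqrt ((M * B : ℕ) : ℝ) * pw (M * B) j.1 (p j.2) x))
            = (b (Sum.inl (⟨q, hq⟩, a)) i * b l j * (Real.sqrt ((M * B : ℕ) : ℝ) * Real.sqrt ((M * B : ℕ) : ℝ))) *
              (pw (M * B) i.1 (p i.2) x * pw (M * B) j.1 (p j.2) x) := by
          intro x; ring
        simp only [h4]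
        exact (integrable_pw_mul _ _ _ _ _ _).const_mul _
      exact hcon h3
  · intro b' hb' r hr
    obtain ⟨v, hv⟩ := exists_coeff (k := k) hspan hL
      (fun i : Fin (M * B) => if (i : ℕ) = b' then r else 0) (fun i => by
        split_ifs
        · exact hr
        · rw [degree_zero]; exact WithBot.bot_lt_coe k)
    refine ⟨fun l => ⟪b l, v⟫, fun x => ?_⟩
    have e1 : pw (M * B) b' r x = Phi p (M * B) v x := by
      rw [← hv, Finset.sum_eq_single (⟨b', hb'⟩ : Fin (M * B))]
      · simp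
      · intro i _ hi
        have : (i : ℕ) ≠ b' := fun h => hi (Fin.ext h)
        rw [if_neg this]
        unfold pw
        simp
      · intro h; exact absurd (Finset.mem_univ _) h
    rw [e1, Phi_eq_inner]
    conv_lhs => rw [← b.sum_repr' v]
    rw [sum_inner]
    apply Finset.sum_congr rfl
    intro l _
    rw [real_inner_smul_left, Phi_eq_inner]

end Pool.Agent.Helper579.Smooth
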