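import Mathlib
import Pool.Agent.Helper579.SmDefs

set_option autoImplicit false
set_option linter.unusedSectionVars false

namespace Pool.Agent.Helper579.Smooth

open MeasureTheory Set Finset
open scoped ENNReal Nat

lemma taylor_aux (k : ℕ) : ∀ (g : ℕ → ℝ → ℝ) (K : ℝ)
    (_ : ∀ m < k, ∀ s ∈ Icc (0 : ℝ) 1, HasDerivAt (g m) (g (m + 1) s) s)
    (_ : ∀ s ∈ Icc (0 : ℝ) 1, |g k s| ≤ K), ∀ s ∈ Icc (0 : ℝ) 1,
    |g 0 s - ∑ m ∈ range k, g m 0 * s ^ m / m !| ≤ K * s ^ k / k ! := by
  induction k with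
  | zero =>
    intro g K _ hK s hs
    simpa using hK s hs
  | succ k ih =>
    intro g K hg hK
    have h1 := ih (fun m => g (m + 1)) K (fun m hm s hs => hg (m + 1) (by omega) s hs)
      (fun s hs => hK s hs)
    intro s hs
    have hder : ∀ x : ℝ, HasDerivAt (fun s : ℝ => ∑ m ∈ range (k + 1), g m 0 * s ^ m / m !)
        (∑ m ∈ range k, g (m + 1) 0 * x ^ m / m !) x := by
      intro x
      have h2 : HasDerivAt (fun s : ℝ => ∑ m ∈ range (k + 1), g m 0 * s ^ m / m !)
          (∑ m ∈ range (k + 1), g m 0 * (m * x ^ (m - 1)) / m !) x := by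
        apply HasDerivAt.fun_sum
        intro m _
        exact ((hasDerivAt_pow m x).const_mul (g m 0)).div_const _
      convert h2 using 1
      rw [Finset.sum_range_succ']
      simp only [Nat.add_sub_cancel, Nat.cast_zero, zero_mul, mul_zero, zero_div, add_zero]
      apply Finset.sum_congr rfl
      intro m _
      rw [Nat.factorial_succ]
      push_cast
      field_simp
    have hB : ∀ x : ℝ, HasDerivAt (fun s : ℝ => K * s ^ (k + 1) / (k + 1)!) (K * x ^ k / k !) x := by
      intro x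
      have h2 := ((hasDerivAt_pow (k + 1) x).const_mul K).div_const ((k + 1)! : ℝ)
      have e : K * x ^ k / k ! = K * (((k + 1 : ℕ) : ℝ) * x ^ (k + 1 - 1)) / ((k + 1)! : ℕ) := by
        rw [Nat.factorial_succ, Nat.add_sub_cancel]
        push_cast
        field_simp
      rw [e]
      exact h2
    have key := image_norm_le_of_norm_deriv_right_le_deriv_boundary (a := (0 : ℝ)) (b := 1)
      (f := fun s => g 0 s - ∑ m ∈ range (k + 1), g m 0 * s ^ m / m !)
      (f' := fun s => g 1 s - ∑ m ∈ range k, g (m + 1) 0 * s ^ m / m !)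
      (B := fun s => K * s ^ (k + 1) / (k + 1)!) (B' := fun s => K * s ^ k / k !)
      ?_ ?_ ?_ hB ?_ hs
    · simpa [Real.norm_eq_abs] using key
    · intro x hx
      exact ((hg 0 (by omega) x hx).sub (hder x)).continuousAt.continuousWithinAt
    · intro x hx
      exact ((hg 0 (by omega) x ⟨hx.1, hx.2.le⟩).sub (hder x)).hasDerivWithinAt
    · rw [Finset.sum_range_succ']
      simp
    · intro x hx
      exact h1 x ⟨hx.1, hx.2.le⟩

variable {k d : ℕ} {f : (Fin d → ℝ) → ℝ}

lemma isOpen_openCube (d : ℕ) : IsOpen (openCube d) := by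
  have : openCube d = Set.pi univ (fun _ => Ioo (0 : ℝ) 1) := by
    ext x; simp [openCube]
  rw [this]
  exact isOpen_set_pi finite_univ (fun _ _ => isOpen_Ioo)

lemma convex_openCube (d : ℕ) : Convex ℝ (openCube d) := by
  have : openCube d = Set.pi univ (fun _ => Ioo (0 : ℝ) 1) := by
    ext x; simp [openCube]
  rw [this]
  exact convex_pi (fun _ _ => convex_Ioo 0 1)

/-- multilinear expansion of the derivatives -/
lemma deriv_expand (m : ℕ) (c y : Fin d → ℝ) :
    iteratedFDeriv ℝ m f c (fun _ => y) = ∑ i : Fin m → Fin d,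
      (∏ j, y (i j)) * iteratedFDeriv ℝ m f c (fun j => Pi.single (i j) 1) := by
  have h1 : y = ∑ a : Fin d, y a • (Pi.single a (1 : ℝ) : Fin d → ℝ) := by
    ext b
    simp [Finset.sum_apply, Pi.single_apply]
  have h2 : iteratedFDeriv ℝ m f c (fun _ => y)
      = iteratedFDeriv ℝ m f c (fun _ => ∑ a : Fin d, y a • (Pi.single a (1 : ℝ) : Fin d → ℝ)) := by
    congr 1
    funext _
    exact h1
  rw [h2, ContinuousMultilinearMap.map_sum]
  apply Finset.sum_congr rfl
  intro i _
  rw [ContinuousMultilinearMap.map_smul_univ]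
  rfl

lemma deriv_bound {m : ℕ} {K : ℝ} {c : Fin d → ℝ} (y : Fin d → ℝ)
    (h : ∀ i : Fin m → Fin d, |iteratedFDeriv ℝ m f c (fun j => Pi.single (i j) 1)| ≤ K) :
    |iteratedFDeriv ℝ m f c (fun _ => y)| ≤ (∑ a, |y a|) ^ m * K := by
  rw [deriv_expand]
  have h1 : (∑ a, |y a|) ^ m = ∑ i : Fin m → Fin d, ∏ j, |y (i j)| := by
    rw [← Fin.prod_const, Finset.prod_univ_sum]
    rw [Fintype.piFinset_univ]
  rw [h1, Finset.sum_mul]
  refine (Finset.abs_sum_le_sum_abs _ _).trans (Finset.sum_le_sum fun i _ => ?_)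
  rw [abs_mul, Finset.abs_prod]
  exact mul_le_mul_of_nonneg_left (h i) (Finset.prod_nonneg fun _ _ => abs_nonneg _)

/-- Taylor's formula -/
theorem taylor (hf : f ∈ Fclass k d) {c y : Fin d → ℝ} (hc : c ∈ openCube d)
    (hy : c + y ∈ openCube d) :
    |f (c + y) - ∑ m ∈ range k, iteratedFDeriv ℝ m f c (fun _ => y) / m !|
      ≤ (∑ a, |y a|) ^ k / k ! := by
  obtain ⟨-, hcd, hb⟩ := hf
  set g : ℕ → ℝ → ℝ := fun m s => iteratedFDeriv ℝ m f (c + s • y) (fun _ => y) with hg
  have hmem : ∀ s ∈ Icc (0 : ℝ) 1, c + s • y ∈ openCube d := by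
    intro s hs
    have h1 := convex_openCube d hc hy (sub_nonneg.mpr hs.2) hs.1 (by ring)
    have h2 : (1 - s) • c + s • (c + y) = c + s • y := by module
    rwa [h2] at h1
  have hder : ∀ m < k, ∀ s ∈ Icc (0 : ℝ) 1, HasDerivAt (g m) (g (m + 1) s) s := by
    intro m hm s hs
    have hx := hmem s hs
    have hcda : ContDiffAt ℝ k f (c + s • y) :=
      hcd.contDiffAt ((isOpen_openCube d).mem_nhds hx)
    have hdiff : DifferentiableAt ℝ (iteratedFDeriv ℝ m f) (c + s • y) := by
      apply hcda.differentiableAt_iteratedFDeriv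
      exact_mod_cast hm
    have hline : HasDerivAt (fun s : ℝ => c + s • y) y s := by
      have := ((hasDerivAt_id s).smul_const y).const_add c
      simpa using this
    have h1 : HasDerivAt (fun s : ℝ => iteratedFDeriv ℝ m f (c + s • y))
        (fderiv ℝ (iteratedFDeriv ℝ m f) (c + s • y) y) s :=
      hdiff.hasFDerivAt.comp_hasDerivAt s hline
    have h2 := (ContinuousMultilinearMap.apply ℝ (fun _ : Fin m => (Fin d → ℝ)) ℝ
      (fun _ => y)).hasFDerivAt.comp_hasDerivAt s h1
    have h3 : g (m + 1) s = (ContinuousMultilinearMap.apply ℝ (fun _ : Fin m => (Fin d → ℝ)) ℝ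
      (fun _ => y)) (fderiv ℝ (iteratedFDeriv ℝ m f) (c + s • y) y) := by
      simp only [hg]
      rw [iteratedFDeriv_succ_apply_left]
      rfl
    rw [h3]
    exact h2
  have hK : ∀ s ∈ Icc (0 : ℝ) 1, |g k s| ≤ (∑ a, |y a|) ^ k := by
    intro s hs
    have h1 := deriv_bound (f := f) (m := k) (K := 1) (c := c + s • y) y
      (fun i => hb k le_rfl i _ (hmem s hs))
    simpa using h1
  have key := taylor_aux k g _ hder hK 1 ⟨zero_le_one, le_rfl⟩
  simp only [hg, one_smul, zero_smul, add_zero, one_pow, mul_one] at key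
  have h0 : iteratedFDeriv ℝ 0 f (c + y) (fun _ => y) = f (c + y) := iteratedFDeriv_zero_apply _
  rw [h0] at key
  exact key

end Pool.Agent.Helper579.Smooth
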