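import Mathlib
import Pool.Agent.Helper579.SmFamily
import Pool.Agent.Helper579.SmTaylor

set_option autoImplicit false
set_option linter.unusedSectionVars false

namespace Pool.Agent.Helper579.Smooth

open MeasureTheory Set Finset Polynomial
open scoped ENNReal Nat

/-- nodes, cardinal polynomials and Lebesgue constant -/
structure Nodes (k : ℕ) where
  /-- the nodes -/
  τ : Fin k → ℝ
  /-- the cardinal polynomials -/
  ell : Fin k → ℝ[X]
  /-- the Lebesgue constant -/
  Lam : ℝ
  pos : ∀ m, 0 < τ m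
  lt_one : ∀ m, τ m < 1
  deg : ∀ m, (ell m).degree < k
  exact_on : ∀ q : ℝ[X], q.degree < k → ∀ y, ∑ m, q.eval (τ m) * (ell m).eval y = q.eval y
  one_le : 1 ≤ Lam
  leb : ∀ y ∈ Set.Icc (0 : ℝ) 1, ∑ m, |(ell m).eval y| ≤ Lam

lemma exists_nodes (k : ℕ) : Nonempty (Nodes k) := by
  classical
  set τ : Fin k → ℝ := fun m => ((m : ℕ) + 1) / (k + 1) with hτ
  have hinj : Function.Injective τ := by
    intro a b hab
    simp only [hτ] at hab
    have hk : (k : ℝ) + 1 ≠ 0 := by positivity
    field_simp at hab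
    have : ((a : ℕ) : ℝ) = (b : ℕ) := by linarith
    exact Fin.ext (by exact_mod_cast this)
  have hinjOn : Set.InjOn τ (Finset.univ : Finset (Fin k)) := hinj.injOn
  have hcont : Continuous (fun y : ℝ => ∑ m : Fin k, |(Lagrange.basis Finset.univ τ m).eval y|) := by
    apply continuous_finsetSum
    intro m _
    exact (Lagrange.basis Finset.univ τ m).continuous.abs
  obtain ⟨C, hC⟩ := (isCompact_Icc (a := (0 : ℝ)) (b := 1)).exists_bound_of_continuousOn
    hcont.continuousOn
  refine ⟨{
    τ := τ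
    ell := fun m => Lagrange.basis Finset.univ τ m
    Lam := max 1 C
    pos := ?_
    lt_one := ?_
    deg := ?_
    exact_on := ?_
    one_le := le_max_left _ _
    leb := ?_ }⟩
  · intro m
    simp only [hτ]
    positivity
  · intro m
    simp only [hτ]
    rw [div_lt_one (by positivity)]
    have : (m : ℕ) < k := m.2
    have : ((m : ℕ) : ℝ) < k := by exact_mod_cast this
    linarith
  · intro m
    rw [Lagrange.degree_basis hinjOn (Finset.mem_univ m)]
    have : 0 < k := lt_of_le_of_lt (Nat.zero_le _) m.2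
    simp only [Finset.card_univ, Fintype.card_fin]
    exact_mod_cast (by omega : k - 1 < k)
  · intro q hq y
    have h1 := Lagrange.eq_interpolate (s := (Finset.univ : Finset (Fin k))) (v := τ) (f := q)
      hinjOn (by simpa using hq)
    conv_rhs => rw [h1]
    rw [Lagrange.interpolate_apply, eval_finsetSum]
    apply Finset.sum_congr rfl
    intro m _
    simp
  · intro y hy
    have h1 := hC y hy
    exact ((le_abs_self _).trans h1).trans (le_max_right _ _)

variable {k : ℕ} (N : Nodes k) {d : ℕ}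

/-- the active cell -/
lemma exists_cell {M : ℕ} (hM : 1 ≤ M) {x : ℝ} (h0 : 0 < x) (h1 : x < 1) :
    ∃ q < M, (q : ℝ) ≤ M * x ∧ M * x < q + 1 := by
  have hMr : (0 : ℝ) < M := by exact_mod_cast hM
  have hnn : 0 ≤ (M : ℝ) * x := by positivity
  refine ⟨⌊(M : ℝ) * x⌋₊, ?_, Nat.floor_le hnn, Nat.lt_floor_add_one _⟩
  rw [Nat.floor_lt hnn]
  nlinarith

lemma pw_active {M q : ℕ} {x : ℝ} (h : (q : ℝ) ≤ M * x ∧ M * x < q + 1) (r : ℝ[X]) :
    pw M q r x = r.eval (M * x - q) := by
  unfold pw; rw [if_pos h]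

lemma pw_inactive {M q q' : ℕ} {x : ℝ} (h : (q : ℝ) ≤ M * x ∧ M * x < q + 1) (hq : q' ≠ q)
    (r : ℝ[X]) : pw M q' r x = 0 := by
  unfold pw
  rw [if_neg]
  rintro ⟨h1, h2⟩
  have h3 : (q : ℝ) < q' + 1 := lt_of_le_of_lt h.1 h2
  have h4 : (q' : ℝ) < q + 1 := lt_of_le_of_lt h1 h.2
  have h5 : q < q' + 1 := by exact_mod_cast h3
  have h6 : q' < q + 1 := by exact_mod_cast h4
  omega

/-- interpolation in direction `i` -/
noncomputable def dirI (M : ℕ) (i : Fin d) (g : (Fin d → ℝ) → ℝ) (x : Fin d → ℝ) : ℝ :=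
  ∑ q ∈ range M, ∑ m : Fin k, pw M q (N.ell m) (x i) * g (Function.update x i ((q + N.τ m) / M))

lemma node_mem {M q : ℕ} (hq : q < M) (m : Fin k) :
    0 < ((q : ℝ) + N.τ m) / M ∧ ((q : ℝ) + N.τ m) / M < 1 := by
  have hM : (0 : ℝ) < M := by exact_mod_cast (by omega : 0 < M)
  have h1 := N.pos m
  have h2 := N.lt_one m
  have h3 : (q : ℝ) + 1 ≤ M := by exact_mod_cast hq
  constructor
  · positivity
  · rw [div_lt_one hM]; linarith

lemma update_mem {x : Fin d → ℝ} (hx : x ∈ openCube d) (i : Fin d) {s : ℝ} (h0 : 0 < s)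
    (h1 : s < 1) : Function.update x i s ∈ openCube d := by
  intro j
  by_cases h : j = i
  · subst h; simp [h0, h1]
  · rw [Function.update_of_ne h]; exact hx j

lemma dirI_sub (M : ℕ) (i : Fin d) (g g' : (Fin d → ℝ) → ℝ) (x : Fin d → ℝ) :
    dirI N M i g x - dirI N M i g' x = dirI N M i (fun y => g y - g' y) x := by
  unfold dirI
  rw [← Finset.sum_sub_distrib]
  apply Finset.sum_congr rfl
  intro q _
  rw [← Finset.sum_sub_distrib]
  apply Finset.sum_congr rfl
  intro m _
  ring

lemma dirI_bound {M : ℕ} (hM : 1 ≤ M) (i : Fin d) {g : (Fin d → ℝ) → ℝ} {E : ℝ} (_hE : 0 ≤ E)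
    (hg : ∀ x ∈ openCube d, |g x| ≤ E) {x : Fin d → ℝ} (hx : x ∈ openCube d) :
    |dirI N M i g x| ≤ N.Lam * E := by
  obtain ⟨q, hq, hcell⟩ := exists_cell hM (hx i).1 (hx i).2
  unfold dirI
  rw [Finset.sum_eq_single q]
  · calc |∑ m : Fin k, pw M q (N.ell m) (x i) * g (Function.update x i ((q + N.τ m) / M))|
        ≤ ∑ m : Fin k, |(N.ell m).eval (M * x i - q)| * E := by
          refine (Finset.abs_sum_le_sum_abs _ _).trans (Finset.sum_le_sum fun m _ => ?_)
          rw [abs_mul, pw_active hcell]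
          gcongr
          exact hg _ (update_mem hx i (node_mem N hq m).1 (node_mem N hq m).2)
      _ = (∑ m : Fin k, |(N.ell m).eval (M * x i - q)|) * E := by rw [Finset.sum_mul]
      _ ≤ N.Lam * E := by
          gcongr
          exact N.leb _ ⟨by linarith [hcell.1], by linarith [hcell.2]⟩
  · intro q' _ hq'
    apply Finset.sum_eq_zero
    intro m _
    rw [pw_inactive hcell hq', zero_mul]
  · intro h; exact absurd (Finset.mem_range.mpr hq) h

/-- directional Taylor approximation by polynomials -/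
lemma dir_taylor {f : (Fin d → ℝ) → ℝ} (hf : f ∈ Fclass k d) {M q : ℕ} (hq : q < M) (i : Fin d)
    {x : Fin d → ℝ} (hx : x ∈ openCube d) :
    ∃ r : ℝ[X], r.degree < k ∧ ∀ s : ℝ, 0 < s → s < 1 → (q : ℝ) ≤ M * s → M * s ≤ q + 1 →
      |f (Function.update x i s) - r.eval (M * s - q)| ≤ 1 / (M : ℝ) ^ k := by
  have hM : (0 : ℝ) < M := by exact_mod_cast (by omega : 0 < M)
  set c₀ : ℝ := (q + 1 / 2) / M with hc₀
  have hc0 : 0 < c₀ := by positivity
  have hc1 : c₀ < 1 := by
    have : (q : ℝ) + 1 ≤ M := by exact_mod_cast hq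
    rw [hc₀, div_lt_one hM]; linarith
  set c := Function.update x i c₀ with hc
  have hcmem : c ∈ openCube d := update_mem hx i hc0 hc1
  set a : ℕ → ℝ := fun m => iteratedFDeriv ℝ m f c (fun _ => Pi.single i 1) with ha
  refine ⟨∑ m ∈ range k, C (a m / (m ! * (M : ℝ) ^ m)) * (X - C (1 / 2)) ^ m, ?_, ?_⟩
  · rw [← mem_degreeLT]
    apply Submodule.sum_mem
    intro m hm
    rw [Finset.mem_range] at hm
    rw [mem_degreeLT]
    refine lt_of_le_of_lt (degree_mul_le _ _) ?_
    have h1 : (C (a m / (m ! * (M : ℝ) ^ m)) : ℝ[X]).degree ≤ 0 := degree_C_le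
    have h2 : ((X - C (1 / 2) : ℝ[X]) ^ m).degree = m := by
      rw [degree_pow, degree_X_sub_C]; simp
    calc (C (a m / (m ! * (M : ℝ) ^ m)) : ℝ[X]).degree + ((X - C (1 / 2) : ℝ[X]) ^ m).degree
        ≤ 0 + m := by rw [h2]; gcongr
      _ = m := zero_add _
      _ < k := by exact_mod_cast hm
  · intro s hs0 hs1 h1 h2
    set y : Fin d → ℝ := (s - c₀) • Pi.single i 1 with hy
    have hcy : c + y = Function.update x i s := by
      ext j
      by_cases h : j = i
      · subst h; simp [hc, hy]
      · simp [hc, hy, Function.update_of_ne h, Pi.single_eq_of_ne h]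
    have hT := taylor hf hcmem (y := y) (by rw [hcy]; exact update_mem hx i hs0 hs1)
    rw [hcy] at hT
    have hsum : ∑ b, |y b| = |s - c₀| := by
      rw [Finset.sum_eq_single i]
      · simp [hy]
      · intro b _ hb
        simp [hy, Pi.single_eq_of_ne hb]
      · intro h; exact absurd (Finset.mem_univ _) h
    have hder : ∀ m, iteratedFDeriv ℝ m f c (fun _ => y) = (s - c₀) ^ m * a m := by
      intro m
      simp only [hy]
      rw [ContinuousMultilinearMap.map_smul_univ]
      simp [ha]
    have heval : (∑ m ∈ range k, C (a m / (m ! * (M : ℝ) ^ m)) * (X - C (1 / 2)) ^ m : ℝ[X]).eval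
        (M * s - q) = ∑ m ∈ range k, iteratedFDeriv ℝ m f c (fun _ => y) / m ! := by
      rw [eval_finsetSum]
      apply Finset.sum_congr rfl
      intro m _
      rw [hder]
      simp only [eval_mul, eval_C, eval_pow, eval_sub, eval_X]
      have e1 : (M : ℝ) * s - q - 1 / 2 = M * (s - c₀) := by
        rw [hc₀]; field_simp; ring
      rw [e1, mul_pow]
      have : (m ! : ℝ) ≠ 0 := by positivity
      field_simp
    rw [heval]
    refine hT.trans ?_
    rw [hsum]
    have h3 : |s - c₀| ≤ 1 / M := by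
      rw [abs_le, hc₀]
      constructor
      · rw [← sub_nonneg]
        have : s - (q + 1 / 2) / M - -(1 / M) = (M * s - q + 1 / 2) / M := by field_simp; ring
        rw [this]
        apply div_nonneg _ hM.le
        linarith
      · rw [← sub_nonneg]
        have : 1 / (M : ℝ) - (s - (q + 1 / 2) / M) = (q + 3 / 2 - M * s) / M := by field_simp; ring
        rw [this]
        apply div_nonneg _ hM.le
        linarith
    have h4 : (1 : ℝ) ≤ k ! := by exact_mod_cast Nat.one_le_iff_ne_zero.mpr (Nat.factorial_ne_zero k)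
    calc |s - c₀| ^ k / k ! ≤ |s - c₀| ^ k := div_le_self (by positivity) h4
      _ ≤ (1 / M) ^ k := by gcongr
      _ = 1 / (M : ℝ) ^ k := by rw [div_pow, one_pow]

lemma dirI_error {f : (Fin d → ℝ) → ℝ} (hf : f ∈ Fclass k d) {M : ℕ} (hM : 1 ≤ M) (i : Fin d)
    {x : Fin d → ℝ} (hx : x ∈ openCube d) :
    |dirI N M i f x - f x| ≤ (1 + N.Lam) / (M : ℝ) ^ k := by
  have hMr : (0 : ℝ) < M := by exact_mod_cast hM
  obtain ⟨q, hq, hcell⟩ := exists_cell hM (hx i).1 (hx i).2
  obtain ⟨r, hr, hT⟩ := dir_taylor hf hq i hx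
  have h1 : dirI N M i f x = ∑ m : Fin k, (N.ell m).eval (M * x i - q) *
      f (Function.update x i ((q + N.τ m) / M)) := by
    unfold dirI
    rw [Finset.sum_eq_single q]
    · apply Finset.sum_congr rfl
      intro m _
      rw [pw_active hcell]
    · intro q' _ hq'
      apply Finset.sum_eq_zero
      intro m _
      rw [pw_inactive hcell hq', zero_mul]
    · intro h; exact absurd (Finset.mem_range.mpr hq) h
  have h2 := N.exact_on r hr (M * x i - q)
  have h3 : dirI N M i f x - f x = ∑ m : Fin k, (N.ell m).eval (M * x i - q) *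
      (f (Function.update x i ((q + N.τ m) / M)) - r.eval (N.τ m))
      + (r.eval (M * x i - q) - f (Function.update x i (x i))) := by
    rw [h1, ← h2, Function.update_eq_self]
    have : ∑ m : Fin k, (N.ell m).eval (M * x i - q) *
      (f (Function.update x i ((q + N.τ m) / M)) - r.eval (N.τ m))
      = ∑ m : Fin k, (N.ell m).eval (M * x i - q) * f (Function.update x i ((q + N.τ m) / M))
        - ∑ m, r.eval (N.τ m) * (N.ell m).eval (M * x i - q) := by
      rw [← Finset.sum_sub_distrib]
      apply Finset.sum_congr rfl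
      intro m _; ring
    rw [this]; ring
  rw [h3]
  have h4 : |r.eval (M * x i - q) - f (Function.update x i (x i))| ≤ 1 / (M : ℝ) ^ k := by
    rw [abs_sub_comm]
    exact hT (x i) (hx i).1 (hx i).2 hcell.1 hcell.2.le
  have h5 : |∑ m : Fin k, (N.ell m).eval (M * x i - q) *
      (f (Function.update x i ((q + N.τ m) / M)) - r.eval (N.τ m))| ≤ N.Lam * (1 / (M : ℝ) ^ k) := by
    calc |∑ m : Fin k, (N.ell m).eval (M * x i - q) *
      (f (Function.update x i ((q + N.τ m) / M)) - r.eval (N.τ m))|
        ≤ ∑ m : Fin k, |(N.ell m).eval (M * x i - q)| * (1 / (M : ℝ) ^ k) := by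
          refine (Finset.abs_sum_le_sum_abs _ _).trans (Finset.sum_le_sum fun m _ => ?_)
          rw [abs_mul]
          gcongr
          have e1 : (M : ℝ) * ((q + N.τ m) / M) = q + N.τ m := by field_simp
          have h6 := hT ((q + N.τ m) / M) (node_mem N hq m).1 (node_mem N hq m).2
            (by rw [e1]; linarith [N.pos m]) (by rw [e1]; linarith [N.lt_one m])
          rwa [e1, add_sub_cancel_left] at h6
      _ = (∑ m : Fin k, |(N.ell m).eval (M * x i - q)|) * (1 / (M : ℝ) ^ k) := by
          rw [Finset.sum_mul]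
      _ ≤ N.Lam * (1 / (M : ℝ) ^ k) := by
          gcongr
          exact N.leb _ ⟨by linarith [hcell.1], by linarith [hcell.2]⟩
  calc _ ≤ N.Lam * (1 / (M : ℝ) ^ k) + 1 / (M : ℝ) ^ k := (abs_add_le _ _).trans (add_le_add h5 h4)
    _ = _ := by ring

/-- interpolation in all directions of a list -/
noncomputable def listI (M : ℕ) (l : List (Fin d)) (g : (Fin d → ℝ) → ℝ) : (Fin d → ℝ) → ℝ :=
  l.foldr (fun i h => dirI N M i h) g

lemma listI_error {f : (Fin d → ℝ) → ℝ} (hf : f ∈ Fclass k d) {M : ℕ} (hM : 1 ≤ M)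
    (l : List (Fin d)) : ∀ x ∈ openCube d,
    |listI N M l f x - f x| ≤ (1 + N.Lam) / (M : ℝ) ^ k * (1 + N.Lam) ^ l.length := by
  have hMr : (0 : ℝ) < M := by exact_mod_cast hM
  have hL := N.one_le
  induction l with
  | nil =>
    intro x _
    simp only [listI, List.foldr_nil, sub_self, abs_zero, List.length_nil, pow_zero, mul_one]
    positivity
  | cons i l ih =>
    intro x hx
    have h1 : listI N M (i :: l) f x = dirI N M i (listI N M l f) x := rfl
    set E := (1 + N.Lam) / (M : ℝ) ^ k * (1 + N.Lam) ^ l.length with hE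
    have hE0 : 0 ≤ E := by positivity
    have h2 : |dirI N M i (listI N M l f) x - dirI N M i f x| ≤ N.Lam * E := by
      rw [dirI_sub]
      exact dirI_bound N hM i hE0 ih hx
    have h3 := dirI_error N hf hM i hx
    have h4 : (1 + N.Lam) / (M : ℝ) ^ k ≤ E := by
      rw [hE]
      have : (1 : ℝ) ≤ (1 + N.Lam) ^ l.length := one_le_pow₀ (by linarith)
      exact le_mul_of_one_le_right (by positivity) this
    rw [h1]
    calc |dirI N M i (listI N M l f) x - f x|
        = |(dirI N M i (listI N M l f) x - dirI N M i f x) + (dirI N M i f x - f x)| := by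
          congr 1; ring
      _ ≤ N.Lam * E + E := (abs_add_le _ _).trans (add_le_add h2 (h3.trans h4))
      _ = (1 + N.Lam) / (M : ℝ) ^ k * (1 + N.Lam) ^ (i :: l).length := by
          rw [hE, List.length_cons, pow_succ]; ring

lemma measurable_dirI (M : ℕ) (i : Fin d) {g : (Fin d → ℝ) → ℝ} (hg : Measurable g) :
    Measurable (dirI N M i g) := by
  unfold dirI
  apply Finset.measurable_fun_sum
  intro q _
  apply Finset.measurable_fun_sum
  intro m _
  apply Measurable.mul
  · exact (measurable_pw M q (N.ell m)).comp (measurable_pi_apply i)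
  · exact hg.comp (measurable_update_left)

lemma measurable_listI (M : ℕ) (l : List (Fin d)) {g : (Fin d → ℝ) → ℝ} (hg : Measurable g) :
    Measurable (listI N M l g) := by
  induction l with
  | nil => exact hg
  | cons i l ih => exact measurable_dirI N M i ih

/-- dependence on the nodal values only -/
lemma listI_congr (M : ℕ) (l : List (Fin d)) {g g' : (Fin d → ℝ) → ℝ} : ∀ (x : Fin d → ℝ)
    (_ : ∀ y : Fin d → ℝ, (∀ j, j ∉ l → y j = x j) →
      (∀ j ∈ l, ∃ q < M, ∃ m : Fin k, y j = (q + N.τ m) / M) → g y = g' y),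
    listI N M l g x = listI N M l g' x := by
  induction l with
  | nil =>
    intro x h
    exact h x (fun _ _ => rfl) (fun j hj => absurd hj List.not_mem_nil)
  | cons i l ih =>
    intro x h
    show dirI N M i (listI N M l g) x = dirI N M i (listI N M l g') x
    unfold dirI
    apply Finset.sum_congr rfl
    intro q hq
    apply Finset.sum_congr rfl
    intro m _
    congr 1
    apply ih
    intro y hy1 hy2
    apply h y
    · intro j hj
      rw [List.mem_cons, not_or] at hj
      rw [hy1 j hj.2, Function.update_of_ne hj.1]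
    · intro j hj
      by_cases hjl : j ∈ l
      · exact hy2 j hjl
      · rw [List.mem_cons] at hj
        have hji : j = i := hj.resolve_right hjl
        subst hji
        refine ⟨q, Finset.mem_range.mp hq, m, ?_⟩
        rw [hy1 j hjl, Function.update_self]

end Pool.Agent.Helper579.Smooth
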