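import Mathlib
import Pool.Agent.Helper579.SmFamily2
import Pool.Agent.Helper579.SmInterp

set_option autoImplicit false
set_option linter.unusedSectionVars false

namespace Pool.Agent.Helper579.Smooth

open MeasureTheory Set Finset Polynomial
open scoped ENNReal

section Expand

variable {X J : Type} [MeasurableSpace X] {μ : Measure X} [IsProbabilityMeasure μ]
  [Fintype J] [DecidableEq J]

lemma integrable_bdd {f : X → ℝ} (hm : Measurable f) {C : ℝ} (hC : ∀ x, |f x| ≤ C) :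
    Integrable f μ :=
  Integrable.of_bound hm.aestronglyMeasurable C (Filter.Eventually.of_forall hC)

lemma integrable_bdd_mul {f g : X → ℝ} (hf : Measurable f) (hg : Measurable g) {C D : ℝ}
    (hC : ∀ x, |f x| ≤ C) (hD : ∀ x, |g x| ≤ D) : Integrable (fun x => f x * g x) μ := by
  refine integrable_bdd (hf.mul hg) (C := C * D) fun x => ?_
  rw [abs_mul]
  exact mul_le_mul (hC x) (hD x) (abs_nonneg _) ((abs_nonneg _).trans (hC x))

lemma sq_expand {f : X → ℝ} (hf : Measurable f) {C : ℝ} (hC : ∀ x, |f x| ≤ C)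
    {e : J → X → ℝ} (he : ∀ j, Measurable (e j)) {D : ℝ} (hD : ∀ j x, |e j x| ≤ D)
    (ho : ∀ i j, ∫ x, e i x * e j x ∂μ = if i = j then 1 else 0) (A : Finset J) (a : J → ℝ) :
    ∫ x, (f x - ∑ j ∈ A, a j * e j x) ^ 2 ∂μ
      = (∫ x, f x ^ 2 ∂μ - ∑ j ∈ A, (∫ x, f x * e j x ∂μ) ^ 2)
        + ∑ j ∈ A, (a j - ∫ x, f x * e j x ∂μ) ^ 2 := by
  have h1 : ∀ x, (f x - ∑ j ∈ A, a j * e j x) ^ 2 = f x ^ 2 - 2 * (∑ j ∈ A, a j * (f x * e j x))
      + ∑ i ∈ A, ∑ j ∈ A, (a i * a j) * (e i x * e j x) := by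
    intro x
    have e1 : ∑ j ∈ A, a j * (f x * e j x) = f x * ∑ j ∈ A, a j * e j x := by
      rw [Finset.mul_sum]; apply Finset.sum_congr rfl; intro j _; ring
    have e2 : ∑ i ∈ A, ∑ j ∈ A, (a i * a j) * (e i x * e j x)
        = (∑ j ∈ A, a j * e j x) * (∑ j ∈ A, a j * e j x) := by
      rw [Finset.sum_mul_sum]
      apply Finset.sum_congr rfl; intro i _
      apply Finset.sum_congr rfl; intro j _; ring
    rw [e1, e2]; ring
  have i1 : Integrable (fun x => f x ^ 2) μ := by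
    have := integrable_bdd_mul (μ := μ) hf hf hC hC
    refine this.congr (Filter.Eventually.of_forall fun x => ?_)
    show f x * f x = f x ^ 2
    ring
  have i2 : ∀ j, Integrable (fun x => a j * (f x * e j x)) μ := fun j =>
    (integrable_bdd_mul hf (he j) hC (hD j)).const_mul _
  have i3 : ∀ i j, Integrable (fun x => (a i * a j) * (e i x * e j x)) μ := fun i j =>
    (integrable_bdd_mul (he i) (he j) (hD i) (hD j)).const_mul _
  have i4 : Integrable (fun x => 2 * ∑ j ∈ A, a j * (f x * e j x)) μ :=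
    (integrable_finsetSum A fun j _ => i2 j).const_mul 2
  have i5 : Integrable (fun x => f x ^ 2 - 2 * ∑ j ∈ A, a j * (f x * e j x)) μ := i1.sub i4
  have i6 : Integrable (fun x => ∑ i ∈ A, ∑ j ∈ A, (a i * a j) * (e i x * e j x)) μ :=
    integrable_finsetSum A fun i _ => integrable_finsetSum A fun j _ => i3 i j
  simp only [h1]
  rw [integral_add i5 i6, integral_sub i1 i4, integral_const_mul,
    integral_finsetSum A fun j _ => i2 j,
    integral_finsetSum A fun i _ => integrable_finsetSum A fun j _ => i3 i j]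
  have e3 : ∑ i ∈ A, ∫ x, ∑ j ∈ A, (a i * a j) * (e i x * e j x) ∂μ = ∑ i ∈ A, a i ^ 2 := by
    apply Finset.sum_congr rfl
    intro i hi
    rw [integral_finsetSum A fun j _ => i3 i j, Finset.sum_eq_single i]
    · rw [integral_const_mul, ho, if_pos rfl]; ring
    · intro j _ hj
      rw [integral_const_mul, ho, if_neg (fun h => hj h.symm), mul_zero]
    · intro h; exact absurd hi h
  rw [e3]
  have e4 : ∑ j ∈ A, ∫ x, a j * (f x * e j x) ∂μ = ∑ j ∈ A, a j * ∫ x, f x * e j x ∂μ := by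
    apply Finset.sum_congr rfl
    intro j _
    rw [integral_const_mul]
  rw [e4]
  have e5 : ∑ j ∈ A, (a j - ∫ x, f x * e j x ∂μ) ^ 2 = ∑ i ∈ A, a i ^ 2
      - 2 * ∑ j ∈ A, a j * ∫ x, f x * e j x ∂μ + ∑ j ∈ A, (∫ x, f x * e j x ∂μ) ^ 2 := by
    rw [Finset.mul_sum, ← Finset.sum_sub_distrib, ← Finset.sum_add_distrib]
    apply Finset.sum_congr rfl
    intro j _; ring
  rw [e5]; ring

lemma bessel {f : X → ℝ} (hf : Measurable f) {C : ℝ} (hC : ∀ x, |f x| ≤ C)
    {e : J → X → ℝ} (he : ∀ j, Measurable (e j)) {D : ℝ} (hD : ∀ j x, |e j x| ≤ D)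
    (ho : ∀ i j, ∫ x, e i x * e j x ∂μ = if i = j then 1 else 0) (A : Finset J) :
    ∑ j ∈ A, (∫ x, f x * e j x ∂μ) ^ 2 ≤ ∫ x, f x ^ 2 ∂μ := by
  have h := sq_expand (μ := μ) hf hC he hD ho A (fun j => ∫ x, f x * e j x ∂μ)
  have h0 : 0 ≤ ∫ x, (f x - ∑ j ∈ A, (∫ x, f x * e j x ∂μ) * e j x) ^ 2 ∂μ :=
    integral_nonneg fun x => sq_nonneg _
  simp only [sub_self] at h
  rw [h] at h0
  simp at h0
  linarith

lemma opt {f : X → ℝ} (hf : Measurable f) {C : ℝ} (hC : ∀ x, |f x| ≤ C)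
    {e : J → X → ℝ} (he : ∀ j, Measurable (e j)) {D : ℝ} (hD : ∀ j x, |e j x| ≤ D)
    (ho : ∀ i j, ∫ x, e i x * e j x ∂μ = if i = j then 1 else 0) (A : Finset J) (a : J → ℝ) :
    ∫ x, f x ^ 2 ∂μ - ∑ j ∈ A, (∫ x, f x * e j x ∂μ) ^ 2
      ≤ ∫ x, (f x - ∑ j ∈ A, a j * e j x) ^ 2 ∂μ := by
  rw [sq_expand (μ := μ) hf hC he hD ho A a]
  have : 0 ≤ ∑ j ∈ A, (a j - ∫ x, f x * e j x ∂μ) ^ 2 := Finset.sum_nonneg fun j _ => sq_nonneg _
  linarith

lemma int_sq_le {g : X → ℝ} {δ : ℝ} (h : ∀ᵐ x ∂μ, |g x| ≤ δ) :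
    ∫ x, g x ^ 2 ∂μ ≤ δ ^ 2 := by
  have h1 : ∀ᵐ x ∂μ, ‖g x ^ 2‖ ≤ δ ^ 2 := by
    filter_upwards [h] with x hx
    rw [Real.norm_eq_abs, abs_pow]
    exact pow_le_pow_left₀ (abs_nonneg _) hx 2
  have h2 := norm_integral_le_of_norm_le_const h1
  rw [probReal_univ, mul_one] at h2
  exact (le_abs_self _).trans h2

end Expand

/-- Lebesgue measure on the cube -/
noncomputable def mu (d : ℕ) : Measure (Fin d → ℝ) := Measure.pi (fun _ => nu)

instance (d : ℕ) : IsProbabilityMeasure (mu d) := by unfold mu; infer_instance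

lemma ae_openCube (d : ℕ) : ∀ᵐ x ∂(mu d), x ∈ openCube d := by
  have h1 : ∀ᵐ s ∂nu, 0 < s ∧ s < 1 := by
    unfold nu
    filter_upwards [ae_restrict_mem measurableSet_Ioo] with s hs using hs
  have h2 : ∀ i : Fin d, ∀ᵐ x ∂(mu d), 0 < x i ∧ x i < 1 := fun i =>
    (Measure.quasiMeasurePreserving_eval (fun _ : Fin d => nu) i).ae h1
  exact ae_all_iff.mpr h2

lemma int_coord {d : ℕ} (i : Fin d) {u : ℝ → ℝ} (hu : ∫ s, u s ∂nu = 0)
    {F : (Fin d → ℝ) → ℝ} (hF : ∀ x s, F (Function.update x i s) = F x) :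
    ∫ x, u (x i) * F x ∂(mu d) = 0 := by
  obtain ⟨n, rfl⟩ : ∃ n, d = n + 1 := ⟨d - 1, by have := i.2; omega⟩
  have hmp := (measurePreserving_piFinSuccAbove (fun _ : Fin (n + 1) => nu) i).symm
  have h1 := hmp.integral_comp' (fun x => u (x i) * F x)
  unfold mu
  rw [← h1]
  have h2 : ∀ p : ℝ × (Fin n → ℝ),
      u ((MeasurableEquiv.piFinSuccAbove (fun _ : Fin (n + 1) => ℝ) i).symm p i) *
        F ((MeasurableEquiv.piFinSuccAbove (fun _ : Fin (n + 1) => ℝ) i).symm p)
      = u p.1 * F (i.insertNth 0 p.2) := by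
    rintro ⟨s, x'⟩
    have e1 : (MeasurableEquiv.piFinSuccAbove (fun _ : Fin (n + 1) => ℝ) i).symm (s, x')
        = i.insertNth s x' := rfl
    rw [e1, Fin.insertNth_apply_same]
    congr 1
    have e2 : (i.insertNth s x' : Fin (n + 1) → ℝ) = Function.update (i.insertNth 0 x') i s := by
      rw [Fin.update_insertNth]
    rw [e2, hF]
  simp only [h2]
  rw [integral_prod_mul (fun s => u s) (fun x' : Fin n → ℝ => F (i.insertNth 0 x')), hu, zero_mul]

attribute [instance] Family.fin Family.dec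

section Tensor

variable {k M B : ℕ} {cP : ℝ} (Fm : Family k M B cP) {d : ℕ}

/-- tensor products of the one-dimensional functions -/
noncomputable def ten (j : Fin d → Fm.ι) (x : Fin d → ℝ) : ℝ := ∏ c, Fm.φ (j c) (x c)

lemma measurable_ten (j : Fin d → Fm.ι) : Measurable (ten Fm j) := by
  unfold ten
  exact Finset.measurable_fun_prod _ fun c _ => (Fm.meas (j c)).comp (measurable_pi_apply c)

lemma ten_bdd (d : ℕ) : ∃ D, ∀ (j : Fin d → Fm.ι) x, |ten Fm j x| ≤ D := by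
  obtain ⟨C, hC⟩ := Fm.bdd
  refine ⟨|C| ^ d, fun j x => ?_⟩
  unfold ten
  rw [Finset.abs_prod]
  calc ∏ c, |Fm.φ (j c) (x c)| ≤ ∏ _c : Fin d, |C| :=
        Finset.prod_le_prod (fun _ _ => abs_nonneg _)
          (fun c _ => (hC _ _).trans (le_abs_self _))
    _ = |C| ^ d := by simp

lemma ten_orth (i j : Fin d → Fm.ι) :
    ∫ x, ten Fm i x * ten Fm j x ∂(mu d) = if i = j then 1 else 0 := by
  have h1 : ∀ x : Fin d → ℝ, ten Fm i x * ten Fm j x
      = ∏ c, (fun s => Fm.φ (i c) s * Fm.φ (j c) s) (x c) := by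
    intro x
    unfold ten
    rw [← Finset.prod_mul_distrib]
  simp only [h1]
  unfold mu
  rw [integral_fintype_prod_eq_prod (fun c s => Fm.φ (i c) s * Fm.φ (j c) s)]
  simp only [Fm.orth]
  by_cases h : i = j
  · subst h; simp
  · rw [if_neg h]
    obtain ⟨c, hc⟩ := Function.ne_iff.mp h
    exact Finset.prod_eq_zero (Finset.mem_univ c) (if_neg hc)

/-- number of high coordinates -/
def hiCount (j : Fin d → Fm.ι) : ℕ := (Finset.univ.filter fun c => j c ∈ Fm.hi).card

/-- the index set -/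
def low (d s : ℕ) : Finset (Fin d → Fm.ι) := Finset.univ.filter fun j => hiCount Fm j ≤ s

lemma kernel_bound (hB : 1 ≤ B) (s : ℕ) (x : Fin d → ℝ) :
    ∑ j ∈ low Fm d s, ten Fm j x ^ 2 ≤ (B : ℝ) ^ s * (2 * (M * cP)) ^ d := by
  have hBr : (1 : ℝ) ≤ B := by exact_mod_cast hB
  have hB0 : (0 : ℝ) < B := by linarith
  set wt : Fm.ι → ℝ := fun l => if l ∈ Fm.hi then (1 / (B : ℝ)) else 1 with hwt
  have hwt0 : ∀ l, 0 ≤ wt l := by
    intro l; simp only [hwt]; split_ifs <;> positivity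
  have hprod : ∀ j : Fin d → Fm.ι, ∏ c, wt (j c) = (1 / (B : ℝ)) ^ hiCount Fm j := by
    intro j
    simp only [hwt]
    rw [Finset.prod_ite]
    simp [hiCount]
  have h1 : ∀ j ∈ low Fm d s, ten Fm j x ^ 2 ≤ (B : ℝ) ^ s * ∏ c, (wt (j c) * Fm.φ (j c) (x c) ^ 2) := by
    intro j hj
    simp only [low, Finset.mem_filter, Finset.mem_univ, true_and] at hj
    rw [Finset.prod_mul_distrib, hprod, Finset.prod_pow]
    have h2 : (1 : ℝ) ≤ (B : ℝ) ^ s * (1 / (B : ℝ)) ^ hiCount Fm j := by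
      rw [one_div, inv_pow, ← div_eq_mul_inv, le_div_iff₀ (by positivity), one_mul]
      exact pow_le_pow_right₀ hBr hj
    have h3 : 0 ≤ (∏ c, Fm.φ (j c) (x c)) ^ 2 := sq_nonneg _
    have h4 : ten Fm j x ^ 2 = (∏ c, Fm.φ (j c) (x c)) ^ 2 := rfl
    rw [h4, ← mul_assoc]
    exact le_mul_of_one_le_left h3 h2
  have h5 : ∀ y, ∑ l, wt l * Fm.φ l y ^ 2 ≤ 2 * (M * cP) := by
    intro y
    have e1 : ∑ l, wt l * Fm.φ l y ^ 2
        ≤ ∑ l ∈ Finset.univ \ Fm.hi, Fm.φ l y ^ 2 + (1 / (B : ℝ)) * ∑ l, Fm.φ l y ^ 2 := by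
      rw [← Finset.sum_sdiff (Finset.subset_univ Fm.hi)]
      apply add_le_add
      · apply le_of_eq
        apply Finset.sum_congr rfl
        intro l hl
        rw [Finset.mem_sdiff] at hl
        simp only [hwt, if_neg hl.2, one_mul]
      · rw [Finset.mul_sum]
        calc ∑ l ∈ Fm.hi, wt l * Fm.φ l y ^ 2 = ∑ l ∈ Fm.hi, 1 / (B : ℝ) * Fm.φ l y ^ 2 := by
              apply Finset.sum_congr rfl
              intro l hl
              simp only [hwt, if_pos hl]
          _ ≤ _ := by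
              apply Finset.sum_le_sum_of_subset_of_nonneg (Finset.subset_univ _)
              intro l _ _; positivity
    have e2 := Fm.lo_le y
    have e3 := Fm.all_le y
    calc _ ≤ _ := e1
      _ ≤ M * cP + (1 / (B : ℝ)) * (M * B * cP) := by gcongr
      _ = 2 * (M * cP) := by field_simp; ring
  calc ∑ j ∈ low Fm d s, ten Fm j x ^ 2
      ≤ ∑ j ∈ low Fm d s, (B : ℝ) ^ s * ∏ c, (wt (j c) * Fm.φ (j c) (x c) ^ 2) :=
        Finset.sum_le_sum h1
    _ ≤ ∑ j : Fin d → Fm.ι, (B : ℝ) ^ s * ∏ c, (wt (j c) * Fm.φ (j c) (x c) ^ 2) := by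
        apply Finset.sum_le_sum_of_subset_of_nonneg (Finset.subset_univ _)
        intro j _ _
        exact mul_nonneg (by positivity) (Finset.prod_nonneg fun c _ =>
          mul_nonneg (hwt0 _) (sq_nonneg _))
    _ = (B : ℝ) ^ s * ∏ c, ∑ l, (wt l * Fm.φ l (x c) ^ 2) := by
        rw [← Finset.mul_sum, Finset.prod_univ_sum, Fintype.piFinset_univ]
    _ ≤ (B : ℝ) ^ s * ∏ _c : Fin d, (2 * (M * cP)) := by
        gcongr with c _
        exact h5 _
    _ = _ := by simp

variable (N : Nodes k)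

lemma dirI_orth {g : (Fin d → ℝ) → ℝ} (hg : Measurable g) {C : ℝ} (hC : ∀ x, |g x| ≤ C)
    (i : Fin d) (j : Fin d → Fm.ι) (hj : j i ∈ Fm.hi) :
    ∫ x, dirI N M i g x * ten Fm j x ∂(mu d) = 0 := by
  classical
  have h1 : ∀ x, dirI N M i g x * ten Fm j x = ∑ q ∈ range M, ∑ m : Fin k,
      (fun s => pw M q (N.ell m) s * Fm.φ (j i) s) (x i) *
        (g (Function.update x i ((q + N.τ m) / M)) * ∏ c ∈ Finset.univ.erase i, Fm.φ (j c) (x c)) := by
    intro x
    unfold dirI ten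
    rw [Finset.sum_mul]
    apply Finset.sum_congr rfl
    intro q _
    rw [Finset.sum_mul]
    apply Finset.sum_congr rfl
    intro m _
    rw [← Finset.mul_prod_erase Finset.univ (fun c => Fm.φ (j c) (x c)) (Finset.mem_univ i)]
    ring
  obtain ⟨D, hD⟩ := Fm.bdd
  have hint : ∀ (q : ℕ) (m : Fin k), Integrable (fun x : Fin d → ℝ =>
      (fun s => pw M q (N.ell m) s * Fm.φ (j i) s) (x i) *
        (g (Function.update x i ((q + N.τ m) / M)) *
          ∏ c ∈ Finset.univ.erase i, Fm.φ (j c) (x c))) (mu d) := by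
    intro q m
    obtain ⟨P, hP⟩ := pw_bound M q (N.ell m)
    apply integrable_bdd_mul (C := P * D) (D := C * |D| ^ (Finset.univ.erase i).card)
    · exact ((measurable_pw M q (N.ell m)).mul (Fm.meas (j i))).comp (measurable_pi_apply i)
    · apply Measurable.mul
      · exact hg.comp measurable_update_left
      · exact Finset.measurable_fun_prod _ fun c _ => (Fm.meas (j c)).comp (measurable_pi_apply c)
    · intro x
      beta_reduce
      rw [abs_mul]
      exact mul_le_mul (hP _) (hD _ _) (abs_nonneg _) ((abs_nonneg _).trans (hP 0))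
    · intro x
      rw [abs_mul, Finset.abs_prod]
      apply mul_le_mul (hC _) _ (Finset.prod_nonneg fun _ _ => abs_nonneg _)
        ((abs_nonneg _).trans (hC x))
      calc ∏ c ∈ Finset.univ.erase i, |Fm.φ (j c) (x c)| ≤ ∏ _c ∈ Finset.univ.erase i, |D| :=
            Finset.prod_le_prod (fun _ _ => abs_nonneg _)
              (fun c _ => (hD _ _).trans (le_abs_self _))
        _ = _ := by simp
  simp only [h1]
  rw [integral_finsetSum _ (fun q _ => integrable_finsetSum _ (fun m _ => hint q m))]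
  apply Finset.sum_eq_zero
  intro q hq
  rw [integral_finsetSum _ (fun m _ => hint q m)]
  apply Finset.sum_eq_zero
  intro m _
  refine int_coord i (u := fun s => pw M q (N.ell m) s * Fm.φ (j i) s) ?_
    (F := fun x => g (Function.update x i ((q + N.τ m) / M)) *
      ∏ c ∈ Finset.univ.erase i, Fm.φ (j c) (x c)) ?_
  · exact Fm.coarse (j i) hj q (Finset.mem_range.mp hq) (N.ell m) (N.deg m)
  · intro x s
    rw [Function.update_idem]
    congr 1
    apply Finset.prod_congr rfl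
    intro c hc
    rw [Function.update_of_ne (Finset.ne_of_mem_erase hc)]

lemma dirI_bdd {g : (Fin d → ℝ) → ℝ} {C : ℝ} (hC : ∀ x, |g x| ≤ C) (M : ℕ) (i : Fin d) :
    ∃ D, ∀ x, |dirI N M i g x| ≤ D := by
  choose P hP using fun (q : ℕ) (m : Fin k) => pw_bound M q (N.ell m)
  refine ⟨∑ q ∈ range M, ∑ m : Fin k, P q m * C, fun x => ?_⟩
  unfold dirI
  refine (Finset.abs_sum_le_sum_abs _ _).trans (Finset.sum_le_sum fun q _ => ?_)
  refine (Finset.abs_sum_le_sum_abs _ _).trans (Finset.sum_le_sum fun m _ => ?_)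
  rw [abs_mul]
  exact mul_le_mul (hP _ _ _) (hC _) (abs_nonneg _) ((abs_nonneg _).trans (hP _ _ 0))

/-- approximation in the span of the low functions -/
theorem approx_low {f : (Fin d → ℝ) → ℝ} (hf : Measurable f) {C : ℝ} (hC : ∀ x, |f x| ≤ C)
    {δ δ' : ℝ} (h1 : ∀ i, ∀ x ∈ openCube d, |dirI N M i f x - f x| ≤ δ)
    {a : (Fin d → Fm.ι) → ℝ} (h2 : ∀ x ∈ openCube d, |f x - ∑ j, a j * ten Fm j x| ≤ δ')
    (s : ℕ) :
    ∫ x, f x ^ 2 ∂(mu d) - ∑ j ∈ low Fm d s, (∫ x, f x * ten Fm j x ∂(mu d)) ^ 2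
      ≤ δ' ^ 2 + d * δ ^ 2 / (s + 1) := by
  classical
  obtain ⟨D, hD⟩ := ten_bdd Fm d
  have he := measurable_ten Fm (d := d)
  have ho := ten_orth Fm (d := d)
  set c : (Fin d → Fm.ι) → ℝ := fun j => ∫ x, f x * ten Fm j x ∂(mu d) with hc
  have hall : ∫ x, f x ^ 2 ∂(mu d) - ∑ j, c j ^ 2 ≤ δ' ^ 2 := by
    refine (opt (μ := mu d) hf hC he hD ho Finset.univ a).trans ?_
    apply int_sq_le
    filter_upwards [ae_openCube d] with x hx using h2 x hx
  have hdir : ∀ i : Fin d, ∑ j ∈ Finset.univ.filter (fun j : Fin d → Fm.ι => j i ∈ Fm.hi), c j ^ 2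
      ≤ δ ^ 2 := by
    intro i
    obtain ⟨E, hE⟩ := dirI_bdd N hC M i
    have hgm : Measurable (fun x => f x - dirI N M i f x) := hf.sub (measurable_dirI N M i hf)
    have hgb : ∀ x, |f x - dirI N M i f x| ≤ C + E := fun x =>
      (abs_sub _ _).trans (add_le_add (hC x) (hE x))
    have hb := bessel (μ := mu d) hgm hgb he hD ho
      (Finset.univ.filter (fun j : Fin d → Fm.ι => j i ∈ Fm.hi))
    have e1 : ∀ j ∈ Finset.univ.filter (fun j : Fin d → Fm.ι => j i ∈ Fm.hi),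
        c j ^ 2 = (∫ x, (f x - dirI N M i f x) * ten Fm j x ∂(mu d)) ^ 2 := by
      intro j hj
      rw [Finset.mem_filter] at hj
      congr 1
      simp only [sub_mul]
      rw [integral_sub (integrable_bdd_mul hf (he j) hC (hD j))
        (integrable_bdd_mul (measurable_dirI N M i hf) (he j) hE (hD j)),
        dirI_orth Fm N hf hC i j hj.2, sub_zero]
    rw [Finset.sum_congr rfl e1]
    refine hb.trans ?_
    apply int_sq_le
    filter_upwards [ae_openCube d] with x hx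
    rw [abs_sub_comm]
    exact h1 i x hx
  have hcount : ∑ j, c j ^ 2 * (hiCount Fm j : ℝ) ≤ d * δ ^ 2 := by
    have e1 : ∀ j : Fin d → Fm.ι, c j ^ 2 * (hiCount Fm j : ℝ)
        = ∑ i : Fin d, if j i ∈ Fm.hi then c j ^ 2 else 0 := by
      intro j
      rw [Finset.sum_ite]
      simp [hiCount, mul_comm]
    simp only [e1]
    rw [Finset.sum_comm]
    calc ∑ i : Fin d, ∑ j : Fin d → Fm.ι, (if j i ∈ Fm.hi then c j ^ 2 else 0)
        ≤ ∑ _i : Fin d, δ ^ 2 := by
          apply Finset.sum_le_sum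
          intro i _
          rw [← Finset.sum_filter]
          exact hdir i
      _ = d * δ ^ 2 := by simp
  have hhigh : ∑ j ∈ Finset.univ \ low Fm d s, c j ^ 2 ≤ d * δ ^ 2 / (s + 1) := by
    rw [le_div_iff₀ (by positivity), Finset.sum_mul]
    refine le_trans ?_ hcount
    calc ∑ j ∈ Finset.univ \ low Fm d s, c j ^ 2 * ((s : ℝ) + 1)
        ≤ ∑ j ∈ Finset.univ \ low Fm d s, c j ^ 2 * (hiCount Fm j : ℝ) := by
          apply Finset.sum_le_sum
          intro j hj
          rw [Finset.mem_sdiff] at hj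
          have : s + 1 ≤ hiCount Fm j := by
            by_contra hcon
            apply hj.2
            simp only [low, Finset.mem_filter, Finset.mem_univ, true_and]
            omega
          have h3 : (s : ℝ) + 1 ≤ (hiCount Fm j : ℝ) := by exact_mod_cast this
          gcongr
      _ ≤ _ := by
          apply Finset.sum_le_sum_of_subset_of_nonneg (Finset.subset_univ _)
          intro j _ _; positivity
  have hsplit := Finset.sum_sdiff (f := fun j => c j ^ 2) (Finset.subset_univ (low Fm d s))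
  have : ∫ x, f x ^ 2 ∂(mu d) - ∑ j ∈ low Fm d s, c j ^ 2
      = (∫ x, f x ^ 2 ∂(mu d) - ∑ j, c j ^ 2) + ∑ j ∈ Finset.univ \ low Fm d s, c j ^ 2 := by
    rw [← hsplit]; ring
  rw [this]
  exact add_le_add hall hhigh

end Tensor

end Pool.Agent.Helper579.Smooth
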