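import Mathlib
import Pool.Agent.Helper579.SmTensor

set_option autoImplicit false
set_option linter.unusedSectionVars false

namespace Pool.Agent.Helper579.Smooth

open MeasureTheory Set Finset Polynomial
open scoped ENNReal Nat

variable {k M B : ℕ} {cP : ℝ} (Fm : Family k M B cP) {d : ℕ}

/-- local monomials -/
noncomputable def rpoly (L n : ℕ) : ℝ[X] := (C (1 / (L : ℝ)) * (X - C (1 / 2))) ^ n

lemma rpoly_degree (L n : ℕ) : (rpoly L n).degree ≤ n := by
  unfold rpoly
  have h1 : (C (1 / (L : ℝ)) * (X - C (1 / 2)) : ℝ[X]).degree ≤ 1 := by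
    refine (degree_mul_le _ _).trans ?_
    calc (C (1 / (L : ℝ)) : ℝ[X]).degree + (X - C (1 / 2) : ℝ[X]).degree ≤ 0 + 1 := by
          gcongr
          · exact degree_C_le
          · exact (degree_X_sub_C _).le
      _ = 1 := zero_add _
  refine (degree_pow_le _ _).trans ?_
  calc n • (C (1 / (L : ℝ)) * (X - C (1 / 2)) : ℝ[X]).degree ≤ n • (1 : WithBot ℕ) := by
        exact nsmul_le_nsmul_right h1 n
    _ = n := by simp

lemma rpoly_eval {L b n : ℕ} (hL : 1 ≤ L) (s : ℝ) :
    (rpoly L n).eval (L * s - b) = (s - (b + 1 / 2) / L) ^ n := by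
  have hLr : (0 : ℝ) < L := by exact_mod_cast hL
  unfold rpoly
  simp only [eval_pow, eval_mul, eval_C, eval_sub, eval_X]
  congr 1
  field_simp
  ring

theorem exists_fine (hM : 1 ≤ M) (hB : 1 ≤ B) (hdB : d ≤ B) {f : (Fin d → ℝ) → ℝ}
    (hf : f ∈ Fclass k d) : ∃ a : (Fin d → Fm.ι) → ℝ, ∀ x ∈ openCube d,
      |f x - ∑ j, a j * ten Fm j x| ≤ 1 / (M : ℝ) ^ k := by
  classical
  set L := M * B with hLdef
  have hL : 1 ≤ L := Nat.mul_pos hM hB
  have hLr : (0 : ℝ) < L := by exact_mod_cast hL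
  have hMr : (0 : ℝ) < M := by exact_mod_cast hM
  have hγ : ∀ (b : Fin L) (n : ℕ), ∃ c : Fm.ι → ℝ, n < k →
      ∀ x, pw L b (rpoly L n) x = ∑ l, c l * Fm.φ l x := by
    intro b n
    by_cases hn : n < k
    · obtain ⟨c, hc⟩ := Fm.fine b b.2 (rpoly L n)
        (lt_of_le_of_lt (rpoly_degree L n) (by exact_mod_cast hn))
      exact ⟨c, fun _ => hc⟩
    · exact ⟨0, fun h => absurd h hn⟩
  choose γ hγ using hγ
  -- centers
  set ctr : (Fin d → Fin L) → (Fin d → ℝ) := fun Q c => (((Q c : ℕ) : ℝ) + 1 / 2) / L with hctr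
  have hctr_mem : ∀ Q, ctr Q ∈ openCube d := by
    intro Q c
    simp only [hctr]
    have : ((Q c : ℕ) : ℝ) + 1 ≤ L := by exact_mod_cast (Q c).2
    constructor
    · positivity
    · rw [div_lt_one hLr]; linarith
  let cnt : {m : ℕ} → (Fin m → Fin d) → Fin d → ℕ := fun i c => (Finset.univ.filter fun j => i j = c).card
  have hcnt : ∀ {m : ℕ} (i : Fin m → Fin d) (c : Fin d), cnt i c ≤ m := by
    intro m i c
    refine (Finset.card_filter_le _ _).trans ?_
    simp
  let a : (Fin d → Fm.ι) → ℝ := fun j => ∑ Q : Fin d → Fin L, ∑ m ∈ range k,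
    ∑ i : Fin m → Fin d, (iteratedFDeriv ℝ m f (ctr Q) (fun t => Pi.single (i t) 1) / m !) *
      ∏ c, γ (Q c) (cnt i c) (j c)
  refine ⟨a, fun x hx => ?_⟩
  -- evaluate the sum
  have h1 : ∑ j, a j * ten Fm j x = ∑ Q : Fin d → Fin L, ∑ m ∈ range k,
      ∑ i : Fin m → Fin d, (iteratedFDeriv ℝ m f (ctr Q) (fun t => Pi.single (i t) 1) / m !) *
        ∏ c, pw L (Q c) (rpoly L (cnt i c)) (x c) := by
    simp only [a, Finset.sum_mul]
    rw [Finset.sum_comm]
    apply Finset.sum_congr rfl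
    intro Q _
    rw [Finset.sum_comm]
    apply Finset.sum_congr rfl
    intro m hm
    rw [Finset.mem_range] at hm
    rw [Finset.sum_comm]
    apply Finset.sum_congr rfl
    intro i _
    have h2 : ∀ c, pw L (Q c) (rpoly L (cnt i c)) (x c)
        = ∑ l, γ (Q c) (cnt i c) l * Fm.φ l (x c) := fun c =>
      hγ (Q c) (cnt i c) (lt_of_le_of_lt (hcnt i c) hm) (x c)
    rw [Finset.prod_congr rfl fun c _ => h2 c, Finset.prod_univ_sum, Fintype.piFinset_univ,
      Finset.mul_sum]
    apply Finset.sum_congr rfl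
    intro j _
    rw [Finset.prod_mul_distrib]
    unfold ten
    ring
  -- the active cell
  have hcell : ∀ c, ∃ q : Fin L, ((q : ℕ) : ℝ) ≤ L * x c ∧ L * x c < (q : ℕ) + 1 := by
    intro c
    obtain ⟨q, hq, h⟩ := exists_cell hL (hx c).1 (hx c).2
    exact ⟨⟨q, hq⟩, h⟩
  choose Q₀ hQ₀ using hcell
  rw [h1, Finset.sum_eq_single Q₀]
  · set y : Fin d → ℝ := fun c => x c - ctr Q₀ c with hy
    have hxy : ctr Q₀ + y = x := by ext c; simp [hy]
    have h3 : ∑ m ∈ range k, ∑ i : Fin m → Fin d,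
        (iteratedFDeriv ℝ m f (ctr Q₀) (fun t => Pi.single (i t) 1) / m !) *
          ∏ c, pw L (Q₀ c) (rpoly L (cnt i c)) (x c)
        = ∑ m ∈ range k, iteratedFDeriv ℝ m f (ctr Q₀) (fun _ => y) / m ! := by
      apply Finset.sum_congr rfl
      intro m _
      rw [deriv_expand, Finset.sum_div]
      apply Finset.sum_congr rfl
      intro i _
      have h4 : ∏ c, pw L (Q₀ c) (rpoly L (cnt i c)) (x c) = ∏ j, y (i j) := by
        have h5 : ∀ c, pw L (Q₀ c) (rpoly L (cnt i c)) (x c) = y c ^ cnt i c := by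
          intro c
          rw [pw_active (hQ₀ c), rpoly_eval hL]
        rw [Finset.prod_congr rfl fun c _ => h5 c]
        rw [← Finset.prod_fiberwise' (Finset.univ : Finset (Fin m)) (fun j => i j) (fun c => y c)]
        apply Finset.prod_congr rfl
        intro c _
        rw [Finset.prod_const]
      rw [h4]; ring
    rw [h3]
    have hT := taylor hf (hctr_mem Q₀) (y := y) (by rw [hxy]; exact hx)
    rw [hxy] at hT
    refine hT.trans ?_
    have h6 : ∑ c, |y c| ≤ 1 / M := by
      have h7 : ∀ c, |y c| ≤ 1 / L := by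
        intro c
        have h8 := hQ₀ c
        simp only [hy, hctr]
        rw [abs_le]
        constructor
        · rw [← sub_nonneg]
          have : x c - (((Q₀ c : ℕ) : ℝ) + 1 / 2) / L - -(1 / L)
              = (L * x c - (Q₀ c : ℕ) + 1 / 2) / L := by field_simp; ring
          rw [this]
          apply div_nonneg _ hLr.le
          linarith [h8.1]
        · rw [← sub_nonneg]
          have : 1 / (L : ℝ) - (x c - (((Q₀ c : ℕ) : ℝ) + 1 / 2) / L)
              = ((Q₀ c : ℕ) + 3 / 2 - L * x c) / L := by field_simp; ring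
          rw [this]
          apply div_nonneg _ hLr.le
          linarith [h8.2]
      calc ∑ c, |y c| ≤ ∑ _c : Fin d, 1 / (L : ℝ) := Finset.sum_le_sum fun c _ => h7 c
        _ = d / L := by simp [div_eq_mul_inv]
        _ ≤ B / L := by gcongr
        _ = 1 / M := by
          rw [hLdef]; push_cast
          have : (B : ℝ) ≠ 0 := by positivity
          field_simp
    have h9 : (1 : ℝ) ≤ k ! := by exact_mod_cast Nat.one_le_iff_ne_zero.mpr (Nat.factorial_ne_zero k)
    have h10 : 0 ≤ ∑ c, |y c| := Finset.sum_nonneg fun _ _ => abs_nonneg _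
    calc (∑ c, |y c|) ^ k / k ! ≤ (∑ c, |y c|) ^ k := div_le_self (by positivity) h9
      _ ≤ (1 / M) ^ k := by gcongr
      _ = 1 / (M : ℝ) ^ k := by rw [div_pow, one_pow]
  · intro Q _ hQ
    obtain ⟨c, hc⟩ := Function.ne_iff.mp hQ
    apply Finset.sum_eq_zero
    intro m _
    apply Finset.sum_eq_zero
    intro i _
    have : ∏ c, pw L (Q c) (rpoly L (cnt i c)) (x c) = 0 := by
      apply Finset.prod_eq_zero (Finset.mem_univ c)
      exact pw_inactive (hQ₀ c) (fun h => hc (Fin.ext h)) _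
    rw [this, mul_zero]
  · intro h; exact absurd (Finset.mem_univ _) h

end Pool.Agent.Helper579.Smooth
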