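import Mathlib
import Pool.Agent.Helper579.SmTensor

set_option autoImplicit false
set_option linter.unusedSectionVars false

namespace Pool.Agent.Helper579.Smooth

open MeasureTheory Set Finset
open scoped ENNReal

section MC

variable {X : Type} [MeasurableSpace X] {μ : Measure X} [IsProbabilityMeasure μ]

lemma int_pi_two {n : ℕ} (g : X → ℝ) (s t : Fin n) :
    ∫ Y : Fin n → X, g (Y s) * g (Y t) ∂(Measure.pi fun _ => μ)
      = if s = t then ∫ x, g x ^ 2 ∂μ else (∫ x, g x ∂μ) * (∫ x, g x ∂μ) := by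
  classical
  have h1 : ∀ Y : Fin n → X, g (Y s) * g (Y t)
      = ∏ c, ((fun (c : Fin n) (x : X) => (if c = s then g x else 1) * (if c = t then g x else 1)) c (Y c)) := by
    intro Y
    simp only
    rw [Finset.prod_mul_distrib, Finset.prod_ite_eq' Finset.univ s (fun c => g (Y c)),
      Finset.prod_ite_eq' Finset.univ t (fun c => g (Y c))]
    simp
  simp only [h1]
  rw [integral_fintype_prod_eq_prod
    (fun (c : Fin n) (x : X) => (if c = s then g x else 1) * (if c = t then g x else 1))]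
  split_ifs with h
  · subst h
    rw [Finset.prod_eq_single s]
    · simp [sq]
    · intro c _ hc
      simp [hc]
    · intro h; exact absurd (Finset.mem_univ _) h
  · rw [← Finset.mul_prod_erase Finset.univ _ (Finset.mem_univ s),
      ← Finset.mul_prod_erase (Finset.univ.erase s) _
        (Finset.mem_erase.mpr ⟨fun h' => h h'.symm, Finset.mem_univ t⟩)]
    have h2 : ∏ c ∈ (Finset.univ.erase s).erase t,
        ∫ x, (if c = s then g x else 1) * (if c = t then g x else 1) ∂μ = 1 := by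
      apply Finset.prod_eq_one
      intro c hc
      rw [Finset.mem_erase, Finset.mem_erase] at hc
      simp [hc.1, hc.2.1]
    rw [h2, mul_one]
    have h3 : t ≠ s := fun h' => h h'.symm
    simp [h, h3]

/-- variance of the Monte Carlo method -/
lemma mc_var {n : ℕ} (hn : 1 ≤ n) {h : X → ℝ} (hm : Measurable h) {C : ℝ} (hC : ∀ x, |h x| ≤ C) :
    ∫ Y : Fin n → X, ((1 / (n : ℝ)) * ∑ s, h (Y s) - ∫ x, h x ∂μ) ^ 2 ∂(Measure.pi fun _ => μ)
      ≤ (1 / (n : ℝ)) * ∫ x, h x ^ 2 ∂μ := by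
  have hnr : (0 : ℝ) < n := by exact_mod_cast hn
  set m := ∫ x, h x ∂μ with hmdef
  set g : X → ℝ := fun x => h x - m with hg
  have hC0 : 0 ≤ C := (abs_nonneg _).trans (hC (Classical.choice (by
    by_contra hcon
    rw [not_nonempty_iff] at hcon
    have h1 : μ univ = 1 := measure_univ
    rw [Set.univ_eq_empty_iff.mpr hcon, measure_empty] at h1
    exact zero_ne_one h1)))
  have hgm : Measurable g := hm.sub measurable_const
  have hmC : |m| ≤ C := by
    have := norm_integral_le_of_norm_le_const (μ := μ) (f := h) (C := C)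
      (Filter.Eventually.of_forall hC)
    rw [probReal_univ, mul_one] at this
    exact this
  have hgC : ∀ x, |g x| ≤ 2 * C := by
    intro x
    have := (abs_sub (h x) m).trans (add_le_add (hC x) hmC)
    linarith
  have hg0 : ∫ x, g x ∂μ = 0 := by
    simp only [hg]
    rw [integral_sub (integrable_bdd hm hC) (integrable_const m), integral_const, probReal_univ,
      one_smul, sub_self]
  have hg2 : ∫ x, g x ^ 2 ∂μ ≤ ∫ x, h x ^ 2 ∂μ := by
    have e1 : ∀ x, g x ^ 2 = h x * h x - 2 * m * h x + m ^ 2 := by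
      intro x; simp only [hg]; ring
    have i1 : Integrable (fun x => h x * h x) μ := integrable_bdd_mul hm hm hC hC
    have i2 : Integrable (fun x => 2 * m * h x) μ := (integrable_bdd hm hC).const_mul _
    have i3 : Integrable (fun x => h x * h x - 2 * m * h x) μ := i1.sub i2
    simp only [e1]
    rw [integral_add i3 (integrable_const _), integral_sub i1 i2, integral_const_mul,
      integral_const, probReal_univ, one_smul, ← hmdef]
    have e2 : ∫ x, h x ^ 2 ∂μ = ∫ x, h x * h x ∂μ := by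
      congr 1; funext x; ring
    rw [e2]
    nlinarith [sq_nonneg m]
  have e3 : ∀ Y : Fin n → X, ((1 / (n : ℝ)) * ∑ s, h (Y s) - m) ^ 2
      = (1 / (n : ℝ)) ^ 2 * ∑ s, ∑ t, g (Y s) * g (Y t) := by
    intro Y
    have e4 : (1 / (n : ℝ)) * ∑ s, h (Y s) - m = (1 / (n : ℝ)) * ∑ s, g (Y s) := by
      simp only [hg]
      rw [Finset.sum_sub_distrib, Finset.sum_const, Finset.card_univ, Fintype.card_fin,
        nsmul_eq_mul, mul_sub]
      field_simp
    rw [e4, mul_pow, sq (∑ s, g (Y s)), Finset.sum_mul_sum]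
  have hint : ∀ s t : Fin n, Integrable (fun Y : Fin n → X => g (Y s) * g (Y t))
      (Measure.pi fun _ => μ) := fun s t =>
    integrable_bdd_mul (hgm.comp (measurable_pi_apply s)) (hgm.comp (measurable_pi_apply t))
      (fun Y => hgC _) (fun Y => hgC _)
  simp only [e3]
  rw [integral_const_mul, integral_finsetSum _
    (fun s _ => integrable_finsetSum _ fun t _ => hint s t)]
  have e5 : ∀ s : Fin n, ∫ Y : Fin n → X, ∑ t, g (Y s) * g (Y t) ∂(Measure.pi fun _ => μ)
      = ∫ x, g x ^ 2 ∂μ := by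
    intro s
    rw [integral_finsetSum _ (fun t _ => hint s t), Finset.sum_eq_single s]
    · rw [int_pi_two, if_pos rfl]
    · intro t _ ht
      rw [int_pi_two, if_neg (fun h' => ht h'.symm), hg0, zero_mul]
    · intro h'; exact absurd (Finset.mem_univ _) h'
  simp only [e5]
  rw [Finset.sum_const, Finset.card_univ, Fintype.card_fin, nsmul_eq_mul]
  calc (1 / (n : ℝ)) ^ 2 * (n * ∫ x, g x ^ 2 ∂μ) = (1 / (n : ℝ)) * ∫ x, g x ^ 2 ∂μ := by
        field_simp
    _ ≤ _ := by gcongr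

end MC

section TwoStage

variable {X J : Type} [MeasurableSpace X] (μ : Measure X)

/-- Monte Carlo estimate of a coefficient with control variate `T` -/
noncomputable def coef (f T : X → ℝ) (e : J → X → ℝ) {n₁ : ℕ} (ω : Fin n₁ → X) (j : J) : ℝ :=
  ∫ x, T x * e j x ∂μ + (1 / (n₁ : ℝ)) * ∑ s, (f (ω s) - T (ω s)) * e j (ω s)

/-- the output -/
noncomputable def outv (f T : X → ℝ) (e : J → X → ℝ) (A : Finset J) {n₁ n₂ : ℕ}
    (ω : (Fin n₁ → X) × (Fin n₂ → X)) : ℝ :=
  ∑ j ∈ A, coef μ f T e ω.1 j * ∫ x, e j x ∂μ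
    + (1 / (n₂ : ℝ)) * ∑ s, (f (ω.2 s) - ∑ j ∈ A, coef μ f T e ω.1 j * e j (ω.2 s))

variable {μ} [IsProbabilityMeasure μ] [Fintype J] [DecidableEq J]

lemma measurable_coef {f T : X → ℝ} (hf : Measurable f) (hT : Measurable T) {e : J → X → ℝ}
    (he : ∀ j, Measurable (e j)) {n₁ : ℕ} (j : J) :
    Measurable (fun ω : Fin n₁ → X => coef μ f T e ω j) := by
  unfold coef
  apply Measurable.const_add
  apply Measurable.const_mul
  apply Finset.measurable_fun_sum
  intro s _
  have hs : Measurable (fun ω : Fin n₁ → X => ω s) := measurable_pi_apply s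
  exact ((hf.comp hs).sub (hT.comp hs)).mul ((he j).comp hs)

lemma measurable_outv {f T : X → ℝ} (hf : Measurable f) (hT : Measurable T) {e : J → X → ℝ}
    (he : ∀ j, Measurable (e j)) (A : Finset J) {n₁ n₂ : ℕ} :
    Measurable (fun ω : (Fin n₁ → X) × (Fin n₂ → X) => outv μ f T e A ω) := by
  unfold outv
  apply Measurable.add
  · apply Finset.measurable_fun_sum
    intro j _
    exact ((measurable_coef hf hT he j).comp measurable_fst).mul_const _
  · apply Measurable.const_mul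
    apply Finset.measurable_fun_sum
    intro s _
    have hs : Measurable (fun ω : (Fin n₁ → X) × (Fin n₂ → X) => ω.2 s) :=
      (measurable_pi_apply s).comp measurable_snd
    apply (hf.comp hs).sub
    apply Finset.measurable_fun_sum
    intro j _
    exact ((measurable_coef hf hT he j).comp measurable_fst).mul ((he j).comp hs)

theorem two_stage {f T : X → ℝ} (hf : Measurable f) (hT : Measurable T) {C C' : ℝ}
    (hC : ∀ x, |f x| ≤ C) (hC' : ∀ x, |T x| ≤ C') {e : J → X → ℝ}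
    (he : ∀ j, Measurable (e j)) {D : ℝ} (hD : ∀ j x, |e j x| ≤ D)
    (ho : ∀ i j, ∫ x, e i x * e j x ∂μ = if i = j then 1 else 0) (A : Finset J)
    {K ρ δ a : ℝ} (hK : ∀ x, ∑ j ∈ A, e j x ^ 2 ≤ K) (hρ : ∀ᵐ x ∂μ, |f x - T x| ≤ ρ)
    (hδ : ∫ x, f x ^ 2 ∂μ - ∑ j ∈ A, (∫ x, f x * e j x ∂μ) ^ 2 ≤ δ)
    {n₁ n₂ : ℕ} (hn₁ : 1 ≤ n₁) (hn₂ : 1 ≤ n₂) (ha : 0 < a)
    (ha2 : (1 / (n₂ : ℝ)) * (δ + K * ρ ^ 2 / n₁) ≤ a ^ 2) :
    ∫⁻ ω, ENNReal.ofReal |∫ x, f x ∂μ - outv μ f T e A (n₁ := n₁) (n₂ := n₂) ω|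
      ∂((Measure.pi fun _ => μ).prod (Measure.pi fun _ => μ)) ≤ ENNReal.ofReal a := by
  have hn₁r : (0 : ℝ) < n₁ := by exact_mod_cast hn₁
  have hn₂r : (0 : ℝ) < n₂ := by exact_mod_cast hn₂
  set c : J → ℝ := fun j => ∫ x, f x * e j x ∂μ with hc
  -- coefficient errors
  have hcoef : ∀ (ω : Fin n₁ → X) (j : J), coef μ f T e ω j - c j
      = (1 / (n₁ : ℝ)) * ∑ s, ((fun x => (f x - T x) * e j x) (ω s)) - ∫ x, (f x - T x) * e j x ∂μ := by
    intro ω j
    have e1 : ∫ x, (f x - T x) * e j x ∂μ = c j - ∫ x, T x * e j x ∂μ := by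
      simp only [sub_mul]
      rw [integral_sub (integrable_bdd_mul hf (he j) hC (hD j))
        (integrable_bdd_mul hT (he j) hC' (hD j))]
    rw [e1]
    unfold coef
    ring
  have hrb : ∀ x, |f x - T x| ≤ C + C' := fun x => (abs_sub _ _).trans (add_le_add (hC x) (hC' x))
  have hhm : ∀ j, Measurable (fun x => (f x - T x) * e j x) := fun j => (hf.sub hT).mul (he j)
  have hhb : ∀ j x, |(f x - T x) * e j x| ≤ (C + C') * D := by
    intro j x
    rw [abs_mul]
    exact mul_le_mul (hrb x) (hD j x) (abs_nonneg _) ((abs_nonneg _).trans (hrb x))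
  have hvar : ∀ j, ∫ ω : Fin n₁ → X, (coef μ f T e ω j - c j) ^ 2 ∂(Measure.pi fun _ => μ)
      ≤ (1 / (n₁ : ℝ)) * ∫ x, ((f x - T x) * e j x) ^ 2 ∂μ := by
    intro j
    simp only [hcoef]
    exact mc_var hn₁ (hhm j) (hhb j)
  have hcoefb : ∀ j, ∃ E, ∀ ω : Fin n₁ → X, |coef μ f T e ω j| ≤ E := by
    intro j
    refine ⟨|∫ x, T x * e j x ∂μ| + (1 / (n₁ : ℝ)) * ∑ _s : Fin n₁, (C + C') * D, fun ω => ?_⟩
    unfold coef
    refine (abs_add_le _ _).trans (add_le_add le_rfl ?_)
    rw [abs_mul, abs_of_pos (by positivity)]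
    gcongr
    refine (Finset.abs_sum_le_sum_abs _ _).trans (Finset.sum_le_sum fun s _ => hhb j (ω s))
  choose E hE using hcoefb
  have hcerrb : ∀ (j : J) (ω : Fin n₁ → X), |coef μ f T e ω j - c j| ≤ E j + |c j| := fun j ω =>
    (abs_sub _ _).trans (add_le_add (hE j ω) le_rfl)
  have hint1 : ∀ j, Integrable (fun ω : Fin n₁ → X => (coef μ f T e ω j - c j) ^ 2)
      (Measure.pi fun _ => μ) := by
    intro j
    have h1 := integrable_bdd_mul (μ := Measure.pi fun _ : Fin n₁ => μ)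
      ((measurable_coef (μ := μ) hf hT he (n₁ := n₁) j).sub_const (c j))
      ((measurable_coef (μ := μ) hf hT he (n₁ := n₁) j).sub_const (c j)) (hcerrb j) (hcerrb j)
    refine h1.congr (Filter.Eventually.of_forall fun ω => ?_)
    show (coef μ f T e ω j - c j) * (coef μ f T e ω j - c j) = (coef μ f T e ω j - c j) ^ 2
    ring
  -- the residual after stage one
  set G : (Fin n₁ → X) → X → ℝ := fun ω x => f x - ∑ j ∈ A, coef μ f T e ω j * e j x with hG
  have hGm : ∀ ω, Measurable (G ω) := fun ω =>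
    hf.sub (Finset.measurable_fun_sum _ fun j _ => (he j).const_mul _)
  have hGb : ∀ ω x, |G ω x| ≤ C + ∑ j ∈ A, E j * D := by
    intro ω x
    refine (abs_sub _ _).trans (add_le_add (hC x) ?_)
    refine (Finset.abs_sum_le_sum_abs _ _).trans (Finset.sum_le_sum fun j _ => ?_)
    rw [abs_mul]
    exact mul_le_mul (hE j ω) (hD j x) (abs_nonneg _) ((abs_nonneg _).trans (hE j ω))
  have hGsq : ∀ ω, ∫ x, G ω x ^ 2 ∂μ ≤ δ + ∑ j ∈ A, (coef μ f T e ω j - c j) ^ 2 := by
    intro ω
    have h1 := sq_expand (μ := μ) hf hC he hD ho A (fun j => coef μ f T e ω j)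
    simp only [hG]
    rw [h1]
    exact add_le_add hδ le_rfl
  have hsum : ∫ ω : Fin n₁ → X, ∑ j ∈ A, (coef μ f T e ω j - c j) ^ 2 ∂(Measure.pi fun _ => μ)
      ≤ K * ρ ^ 2 / n₁ := by
    rw [integral_finsetSum A fun j _ => hint1 j]
    have i1 : ∀ j, Integrable (fun x => ((f x - T x) * e j x) ^ 2) μ := by
      intro j
      refine (integrable_bdd_mul (μ := μ) (hhm j) (hhm j) (hhb j) (hhb j)).congr
        (Filter.Eventually.of_forall fun x => ?_)
      show (f x - T x) * e j x * ((f x - T x) * e j x) = ((f x - T x) * e j x) ^ 2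
      ring
    calc ∑ j ∈ A, ∫ ω : Fin n₁ → X, (coef μ f T e ω j - c j) ^ 2 ∂(Measure.pi fun _ => μ)
        ≤ ∑ j ∈ A, (1 / (n₁ : ℝ)) * ∫ x, ((f x - T x) * e j x) ^ 2 ∂μ :=
          Finset.sum_le_sum fun j _ => hvar j
      _ = (1 / (n₁ : ℝ)) * ∫ x, ∑ j ∈ A, ((f x - T x) * e j x) ^ 2 ∂μ := by
          rw [← Finset.mul_sum, integral_finsetSum A fun j _ => i1 j]
      _ ≤ (1 / (n₁ : ℝ)) * (K * ρ ^ 2) := by
          gcongr
          have h2 : ∀ᵐ x ∂μ, ‖∑ j ∈ A, ((f x - T x) * e j x) ^ 2‖ ≤ K * ρ ^ 2 := by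
            filter_upwards [hρ] with x hx
            rw [Real.norm_eq_abs, abs_of_nonneg (Finset.sum_nonneg fun j _ => sq_nonneg _)]
            have e1 : ∑ j ∈ A, ((f x - T x) * e j x) ^ 2 = (f x - T x) ^ 2 * ∑ j ∈ A, e j x ^ 2 := by
              rw [Finset.mul_sum]
              apply Finset.sum_congr rfl
              intro j _; ring
            rw [e1, mul_comm]
            have h3 : (f x - T x) ^ 2 ≤ ρ ^ 2 := by
              rw [← sq_abs (f x - T x)]
              exact pow_le_pow_left₀ (abs_nonneg _) hx 2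
            exact mul_le_mul (hK x) h3 (sq_nonneg _)
              ((Finset.sum_nonneg fun j _ => sq_nonneg (e j x)).trans (hK x))
          have h4 := norm_integral_le_of_norm_le_const h2
          rw [probReal_univ, mul_one] at h4
          exact (le_abs_self _).trans h4
      _ = K * ρ ^ 2 / n₁ := by ring
  -- the error for fixed first stage
  have herr : ∀ (ω : Fin n₁ → X) (Y : Fin n₂ → X), ∫ x, f x ∂μ - outv μ f T e A (ω, Y)
      = -((1 / (n₂ : ℝ)) * ∑ s, G ω (Y s) - ∫ x, G ω x ∂μ) := by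
    intro ω Y
    have e1 : ∫ x, G ω x ∂μ = ∫ x, f x ∂μ - ∑ j ∈ A, coef μ f T e ω j * ∫ x, e j x ∂μ := by
      simp only [hG]
      rw [integral_sub (integrable_bdd hf hC) (integrable_finsetSum A fun j _ =>
        (integrable_bdd (he j) (hD j)).const_mul _), integral_finsetSum A fun j _ =>
        (integrable_bdd (he j) (hD j)).const_mul _]
      congr 1
      apply Finset.sum_congr rfl
      intro j _
      rw [integral_const_mul]
    rw [e1]
    unfold outv
    simp only [hG]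
    ring
  have hmeas := (measurable_outv (μ := μ) hf hT he A (n₁ := n₁) (n₂ := n₂)).const_sub (∫ x, f x ∂μ)
  -- pointwise bound
  have hpt : ∀ z : ℝ, |z| ≤ a / 2 + z ^ 2 / (2 * a) := by
    intro z
    have h1 : 0 ≤ (|z| - a) ^ 2 / (2 * a) := by positivity
    have h2 : (|z| - a) ^ 2 / (2 * a) = a / 2 + z ^ 2 / (2 * a) - |z| := by
      rw [← sq_abs z]
      field_simp
      ring
    linarith
  rw [lintegral_prod _ (hmeas.abs.ennreal_ofReal.aemeasurable)]
  have hinner : ∀ ω : Fin n₁ → X,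
      ∫⁻ Y : Fin n₂ → X, ENNReal.ofReal |∫ x, f x ∂μ - outv μ f T e A (ω, Y)| ∂(Measure.pi fun _ => μ)
      ≤ ENNReal.ofReal (a / 2 + (1 / (n₂ : ℝ)) * (δ + ∑ j ∈ A, (coef μ f T e ω j - c j) ^ 2) / (2 * a)) := by
    intro ω
    have hGY : Measurable (fun Y : Fin n₂ → X => (1 / (n₂ : ℝ)) * ∑ s, G ω (Y s) - ∫ x, G ω x ∂μ) :=
      ((Finset.measurable_fun_sum _ fun s _ => (hGm ω).comp (measurable_pi_apply s)).const_mul
        _).sub_const _
    have hGYb : ∀ Y : Fin n₂ → X, |(1 / (n₂ : ℝ)) * ∑ s, G ω (Y s) - ∫ x, G ω x ∂μ|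
        ≤ (C + ∑ j ∈ A, E j * D) + |∫ x, G ω x ∂μ| := by
      intro Y
      refine (abs_sub _ _).trans (add_le_add ?_ le_rfl)
      rw [abs_mul, abs_of_pos (by positivity)]
      calc (1 / (n₂ : ℝ)) * |∑ s, G ω (Y s)| ≤ (1 / (n₂ : ℝ)) * ∑ _s : Fin n₂, (C + ∑ j ∈ A, E j * D) := by
            gcongr
            exact (Finset.abs_sum_le_sum_abs _ _).trans (Finset.sum_le_sum fun s _ => hGb ω _)
        _ = _ := by
            rw [Finset.sum_const, Finset.card_univ, Fintype.card_fin, nsmul_eq_mul, one_div,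
              inv_mul_cancel_left₀ hn₂r.ne']
    have i2 : Integrable (fun Y : Fin n₂ → X =>
        ((1 / (n₂ : ℝ)) * ∑ s, G ω (Y s) - ∫ x, G ω x ∂μ) ^ 2) (Measure.pi fun _ => μ) := by
      refine (integrable_bdd_mul (μ := Measure.pi fun _ : Fin n₂ => μ) hGY hGY hGYb hGYb).congr
        (Filter.Eventually.of_forall fun Y => ?_)
      show ((1 / (n₂ : ℝ)) * ∑ s, G ω (Y s) - ∫ x, G ω x ∂μ) * ((1 / (n₂ : ℝ)) * ∑ s, G ω (Y s) - ∫ x, G ω x ∂μ) = _
      ring
    have i2' : Integrable (fun Y : Fin n₂ → X =>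
        ((1 / (n₂ : ℝ)) * ∑ s, G ω (Y s) - ∫ x, G ω x ∂μ) ^ 2 / (2 * a)) (Measure.pi fun _ => μ) :=
      i2.div_const _
    have i5 : Integrable (fun Y : Fin n₂ → X => a / 2 +
        ((1 / (n₂ : ℝ)) * ∑ s, G ω (Y s) - ∫ x, G ω x ∂μ) ^ 2 / (2 * a)) (Measure.pi fun _ => μ) :=
      (integrable_const _).add i2'
    calc ∫⁻ Y : Fin n₂ → X, ENNReal.ofReal |∫ x, f x ∂μ - outv μ f T e A (ω, Y)| ∂(Measure.pi fun _ => μ)
        ≤ ∫⁻ Y : Fin n₂ → X, ENNReal.ofReal (a / 2 +
            ((1 / (n₂ : ℝ)) * ∑ s, G ω (Y s) - ∫ x, G ω x ∂μ) ^ 2 / (2 * a)) ∂(Measure.pi fun _ => μ) := by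
          apply lintegral_mono
          intro Y
          apply ENNReal.ofReal_le_ofReal
          rw [herr, abs_neg]
          exact hpt _
      _ = ENNReal.ofReal (∫ Y : Fin n₂ → X, (a / 2 +
            ((1 / (n₂ : ℝ)) * ∑ s, G ω (Y s) - ∫ x, G ω x ∂μ) ^ 2 / (2 * a)) ∂(Measure.pi fun _ => μ)) := by
          rw [ofReal_integral_eq_lintegral_ofReal i5]
          exact Filter.Eventually.of_forall fun Y => by positivity
      _ ≤ _ := by
          apply ENNReal.ofReal_le_ofReal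
          rw [integral_add (integrable_const _) i2', integral_const, probReal_univ,
            one_smul, integral_div]
          have h3 := mc_var (μ := μ) hn₂ (hGm ω) (hGb ω)
          have h4 : (1 / (n₂ : ℝ)) * ∫ x, G ω x ^ 2 ∂μ
              ≤ (1 / (n₂ : ℝ)) * (δ + ∑ j ∈ A, (coef μ f T e ω j - c j) ^ 2) := by
            gcongr
            exact hGsq ω
          gcongr
          exact h3.trans h4
  refine (lintegral_mono hinner).trans ?_
  have i3 : Integrable (fun ω : Fin n₁ → X => ∑ j ∈ A, (coef μ f T e ω j - c j) ^ 2)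
      (Measure.pi fun _ => μ) := integrable_finsetSum A fun j _ => hint1 j
  have i4' : Integrable (fun ω : Fin n₁ → X => (1 / (n₂ : ℝ)) *
      (δ + ∑ j ∈ A, (coef μ f T e ω j - c j) ^ 2) / (2 * a)) (Measure.pi fun _ => μ) :=
    (((integrable_const _).add i3).const_mul _).div_const _
  have i4 : Integrable (fun ω : Fin n₁ → X => a / 2 + (1 / (n₂ : ℝ)) *
      (δ + ∑ j ∈ A, (coef μ f T e ω j - c j) ^ 2) / (2 * a)) (Measure.pi fun _ => μ) :=
    (integrable_const _).add i4'
  have hδ0 : 0 ≤ δ := by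
    have h1 := sq_expand (μ := μ) hf hC he hD ho A c
    have h2 : 0 ≤ ∫ x, (f x - ∑ j ∈ A, c j * e j x) ^ 2 ∂μ := integral_nonneg fun x => sq_nonneg _
    rw [h1] at h2
    simp only [hc, sub_self] at h2
    simp at h2
    linarith
  rw [← ofReal_integral_eq_lintegral_ofReal i4]
  · apply ENNReal.ofReal_le_ofReal
    rw [integral_add (integrable_const _) i4', integral_const, probReal_univ, one_smul, integral_div, integral_const_mul,
      integral_add (integrable_const _) i3, integral_const, probReal_univ, one_smul]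
    have h5 : (1 / (n₂ : ℝ)) * (δ + ∫ ω : Fin n₁ → X, ∑ j ∈ A, (coef μ f T e ω j - c j) ^ 2
        ∂(Measure.pi fun _ => μ)) ≤ a ^ 2 := by
      refine le_trans ?_ ha2
      gcongr
    calc a / 2 + (1 / (n₂ : ℝ)) * (δ + ∫ ω : Fin n₁ → X, ∑ j ∈ A, (coef μ f T e ω j - c j) ^ 2
        ∂(Measure.pi fun _ => μ)) / (2 * a) ≤ a / 2 + a ^ 2 / (2 * a) := by gcongr
      _ = a := by field_simp; ring
  · refine Filter.Eventually.of_forall fun ω => ?_
    have : 0 ≤ ∑ j ∈ A, (coef μ f T e ω j - c j) ^ 2 := Finset.sum_nonneg fun j _ => sq_nonneg _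
    positivity

end TwoStage

end Pool.Agent.Helper579.Smooth
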