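import Mathlib
import Pool.Agent.Helper579.SmFine
import Pool.Agent.Helper579.SmMC

set_option autoImplicit false
set_option linter.unusedSectionVars false

namespace Pool.Agent.Helper579.Smooth

open MeasureTheory Set Finset
open scoped ENNReal

/-! ### Realisation as algorithms -/

lemma alg_of_local {d : ℕ} : ∀ {N : ℕ} (P : Fin N → Cube d) (H : ((Fin d → ℝ) → ℝ) → ℝ)
    (_ : ∀ f f' : (Fin d → ℝ) → ℝ, (∀ i, f (P i) = f' (P i)) → H f = H f'),
    ∃ A : Alg d, ∀ f, A.run f = H f ∧ A.cost f = N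
  | 0, _, H, hH => ⟨.out (H 0), fun f => ⟨hH _ _ (fun i => i.elim0), rfl⟩⟩
  | N + 1, P, H, hH => by
    classical
    have hstep : ∀ v : ℝ, ∃ A : Alg d, ∀ f, A.run f = H (Function.update f (P 0 : Fin d → ℝ) v)
        ∧ A.cost f = N := by
      intro v
      apply alg_of_local (fun i => P i.succ)
      intro f f' h
      apply hH
      intro i
      by_cases hi : (P i : Fin d → ℝ) = P 0
      · rw [hi, Function.update_self, Function.update_self]
      · rw [Function.update_of_ne hi, Function.update_of_ne hi]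
        obtain ⟨i', rfl⟩ : ∃ i', i = Fin.succ i' := by
          rcases Fin.eq_zero_or_eq_succ i with h0 | h1
          · rw [h0] at hi; exact absurd rfl hi
          · exact h1
        exact h i'
    choose A hA using hstep
    refine ⟨.ask (P 0) A, fun f => ⟨?_, ?_⟩⟩
    · show (A (f (P 0))).run f = H f
      rw [(hA _ f).1, Function.update_eq_self]
    · show (A (f (P 0))).cost f + 1 = N + 1
      rw [(hA _ f).2]

lemma alg_of_local' {d : ℕ} {I : Type} [Fintype I] (P : I → Cube d)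
    (H : ((Fin d → ℝ) → ℝ) → ℝ)
    (hH : ∀ f f' : (Fin d → ℝ) → ℝ, (∀ i, f (P i) = f' (P i)) → H f = H f') :
    ∃ A : Alg d, ∀ f, A.run f = H f ∧ A.cost f = Fintype.card I := by
  let e := Fintype.equivFin I
  apply alg_of_local (fun i => P (e.symm i)) H
  intro f f' h
  apply hH
  intro i
  have := h (e i)
  simpa using this

/-! ### Clamping -/

/-- projection onto the cube -/
noncomputable def clampd {d : ℕ} (x : Fin d → ℝ) : Fin d → ℝ := fun i => max 0 (min 1 (x i))

lemma clampd_mem {d : ℕ} (x : Fin d → ℝ) : clampd x ∈ Set.Icc (0 : Fin d → ℝ) 1 := by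
  constructor
  · intro i; exact le_max_left _ _
  · intro i; exact max_le zero_le_one (min_le_left _ _)

lemma clampd_eq {d : ℕ} {x : Fin d → ℝ} (hx : x ∈ Set.Icc (0 : Fin d → ℝ) 1) : clampd x = x := by
  funext i
  have h1 : x i ≤ 1 := hx.2 i
  have h0 : 0 ≤ x i := hx.1 i
  unfold clampd
  rw [min_eq_right h1, max_eq_right h0]

lemma openCube_subset {d : ℕ} : openCube d ⊆ Set.Icc (0 : Fin d → ℝ) 1 := fun _ hx =>
  ⟨fun i => (hx i).1.le, fun i => (hx i).2.le⟩

lemma continuous_clampd {d : ℕ} : Continuous (clampd : (Fin d → ℝ) → (Fin d → ℝ)) := by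
  apply continuous_pi
  intro i
  exact continuous_const.max (continuous_const.min (continuous_apply i))

variable {k d : ℕ} {f : (Fin d → ℝ) → ℝ}

lemma bound_closed (hf : f ∈ Fclass k d) {x : Fin d → ℝ} (hx : x ∈ Set.Icc (0 : Fin d → ℝ) 1) :
    |f x| ≤ 1 := by
  have hcl : closure (openCube d) = Set.Icc (0 : Fin d → ℝ) 1 := by
    have h1 : openCube d = Set.pi univ (fun _ => Ioo (0 : ℝ) 1) := by
      ext x; simp [openCube]
    rw [h1, closure_pi_set]
    simp only [closure_Ioo (zero_ne_one' ℝ)]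
    exact Set.pi_univ_Icc _ _
  have h2 : ContinuousOn f (closure (openCube d)) := by rw [hcl]; exact hf.1
  have h3 := h2.image_closure
  have h4 : f '' openCube d ⊆ Set.Icc (-1) 1 := by
    rintro _ ⟨y, hy, rfl⟩
    have h5 := hf.2.2 0 (Nat.zero_le _) (fun i => i.elim0) y hy
    rw [iteratedFDeriv_zero_apply] at h5
    exact abs_le.mp h5
  have h6 : f x ∈ closure (f '' openCube d) := h3 ⟨x, by rw [hcl]; exact hx, rfl⟩
  have h7 : closure (f '' openCube d) ⊆ Set.Icc (-1) 1 := closure_minimal h4 isClosed_Icc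
  exact abs_le.mpr (h7 h6)

lemma continuous_comp_clampd (hf : f ∈ Fclass k d) : Continuous (fun x => f (clampd x)) :=
  hf.1.comp_continuous continuous_clampd clampd_mem

lemma comp_clampd_mem (hf : f ∈ Fclass k d) : (fun x => f (clampd x)) ∈ Fclass k d := by
  have heq : ∀ x ∈ openCube d, f (clampd x) = f x := fun x hx => by
    rw [clampd_eq (openCube_subset hx)]
  refine ⟨(continuous_comp_clampd hf).continuousOn, hf.2.1.congr heq, ?_⟩
  intro m hm i x hx
  have hev : (fun x => f (clampd x)) =ᶠ[nhds x] f := by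
    filter_upwards [(isOpen_openCube d).mem_nhds hx] with y hy using heq y hy
  rw [(Filter.EventuallyEq.iteratedFDeriv ℝ hev m).self_of_nhds]
  exact hf.2.2 m hm i x hx

lemma integral_eq (f : (Fin d → ℝ) → ℝ) :
    ∫ x in Set.Icc (0 : Fin d → ℝ) 1, f x = ∫ x, f (clampd x) ∂(mu d) := by
  have h1 : mu d = volume.restrict (Set.pi univ fun _ : Fin d => Ioo (0 : ℝ) 1) := by
    unfold mu nu
    rw [volume_pi, Measure.restrict_pi_pi]
  have h2 : (Set.pi univ fun _ : Fin d => Ioo (0 : ℝ) 1) =ᵐ[volume] Set.Icc (0 : Fin d → ℝ) 1 := by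
    rw [volume_pi]
    exact Measure.univ_pi_Ioo_ae_eq_Icc
  rw [h1, setIntegral_congr_set h2]
  apply setIntegral_congr_fun measurableSet_Icc
  intro x hx
  simp only
  rw [clampd_eq hx]

lemma listI_bdd {g : (Fin d → ℝ) → ℝ} {C : ℝ} (hC : ∀ x, |g x| ≤ C) (N : Nodes k) (M : ℕ)
    (l : List (Fin d)) : ∃ D, ∀ x, |listI N M l g x| ≤ D := by
  induction l with
  | nil => exact ⟨C, hC⟩
  | cons i l ih =>
    obtain ⟨D, hD⟩ := ih
    exact dirI_bdd N hD M i

section Algo

variable {M B : ℕ} {cP : ℝ} (N : Nodes k) (Fm : Family k M B cP)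

/-- the functional computed for fixed randomness -/
noncomputable def Hfun (A : Finset (Fin d → Fm.ι)) {n₁ n₂ : ℕ}
    (ω : (Fin n₁ → Fin d → ℝ) × (Fin n₂ → Fin d → ℝ)) (f : (Fin d → ℝ) → ℝ) : ℝ :=
  outv (mu d) (fun x => f (clampd x)) (listI N M (List.finRange d) (fun x => f (clampd x)))
    (ten Fm) A ω

/-- the points used for fixed randomness -/
noncomputable def pts (M : ℕ) {n₁ n₂ : ℕ}
    (ω : (Fin n₁ → Fin d → ℝ) × (Fin n₂ → Fin d → ℝ)) :
    ((Fin d → Fin M × Fin k) ⊕ (Fin n₁ ⊕ Fin n₂)) → Cube d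
  | Sum.inl a => ⟨fun c => (((a c).1 : ℕ) + N.τ (a c).2) / M, by
      have h := fun c => node_mem N (a c).1.2 (a c).2
      exact ⟨fun c => (h c).1.le, fun c => (h c).2.le⟩⟩
  | Sum.inr (Sum.inl s) => ⟨clampd (ω.1 s), clampd_mem _⟩
  | Sum.inr (Sum.inr s) => ⟨clampd (ω.2 s), clampd_mem _⟩

lemma Hfun_local (A : Finset (Fin d → Fm.ι)) {n₁ n₂ : ℕ}
    (ω : (Fin n₁ → Fin d → ℝ) × (Fin n₂ → Fin d → ℝ)) (f f' : (Fin d → ℝ) → ℝ)
    (h : ∀ i, f (pts N M ω i) = f' (pts N M ω i)) : Hfun N Fm A ω f = Hfun N Fm A ω f' := by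
  have hT : listI N M (List.finRange d) (fun x => f (clampd x))
      = listI N M (List.finRange d) (fun x => f' (clampd x)) := by
    funext x
    apply listI_congr
    intro y _ hy
    have hy' : ∀ j : Fin d, ∃ a : Fin M × Fin k, y j = ((a.1 : ℕ) + N.τ a.2) / M := by
      intro j
      obtain ⟨q, hq, m, hm⟩ := hy j (List.mem_finRange j)
      exact ⟨(⟨q, hq⟩, m), hm⟩
    choose a ha using hy'
    have hya : y = (pts N M ω (Sum.inl a) : Cube d) := by
      funext j
      exact ha j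
    have hmem : y ∈ Set.Icc (0 : Fin d → ℝ) 1 := by
      rw [hya]; exact (pts N M ω (Sum.inl a)).2
    rw [clampd_eq hmem, hya]
    exact h (Sum.inl a)
  have h1 : ∀ s, f (clampd (ω.1 s)) = f' (clampd (ω.1 s)) := fun s => h (Sum.inr (Sum.inl s))
  have h2 : ∀ s, f (clampd (ω.2 s)) = f' (clampd (ω.2 s)) := fun s => h (Sum.inr (Sum.inr s))
  have hc : ∀ j, coef (mu d) (fun x => f (clampd x))
      (listI N M (List.finRange d) (fun x => f (clampd x))) (ten Fm) ω.1 j
      = coef (mu d) (fun x => f' (clampd x))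
      (listI N M (List.finRange d) (fun x => f' (clampd x))) (ten Fm) ω.1 j := by
    intro j
    unfold coef
    rw [hT]
    simp only [h1]
  unfold Hfun outv
  simp only [hc, h2]

include Fm in
theorem eRan_le (hM : 1 ≤ M) (hB : 1 ≤ B) (hdB : d ≤ B) (s : ℕ) {n₁ n₂ : ℕ} (hn₁ : 1 ≤ n₁)
    (hn₂ : 1 ≤ n₂) {n : ℕ} (hn : (M * k) ^ d + n₁ + n₂ ≤ n) {a : ℝ} (ha : 0 < a)
    (ha2 : (1 / (n₂ : ℝ)) * (((1 / (M : ℝ) ^ k) ^ 2 + d * ((1 + N.Lam) / (M : ℝ) ^ k) ^ 2 / (s + 1))
      + ((B : ℝ) ^ s * (2 * (M * cP)) ^ d) *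
        ((1 + N.Lam) / (M : ℝ) ^ k * (1 + N.Lam) ^ d) ^ 2 / n₁) ≤ a ^ 2) :
    eRan k d n ≤ ENNReal.ofReal a := by
  classical
  have hA := fun ω : (Fin n₁ → Fin d → ℝ) × (Fin n₂ → Fin d → ℝ) =>
    alg_of_local' (pts N M ω) (Hfun N Fm (low Fm d s) ω) (Hfun_local N Fm (low Fm d s) ω)
  choose Alg' hAlg using hA
  have hcard : Fintype.card ((Fin d → Fin M × Fin k) ⊕ (Fin n₁ ⊕ Fin n₂))
      = (M * k) ^ d + n₁ + n₂ := by
    simp [Nat.add_assoc]
  have hmemE : (⨆ f ∈ Fclass k d, upperInt ((Measure.pi fun _ : Fin n₁ => mu d).prod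
      (Measure.pi fun _ : Fin n₂ => mu d)) (fun ω => ENNReal.ofReal
        |(∫ x in Set.Icc 0 1, f x) - (Alg' ω).run f|)) ∈ ranErrors k d n := by
    refine ⟨(Fin n₁ → Fin d → ℝ) × (Fin n₂ → Fin d → ℝ), inferInstance,
      (Measure.pi fun _ => mu d).prod (Measure.pi fun _ => mu d), inferInstance, Alg', ?_, ?_, rfl⟩
    · intro f _
      simp only [(hAlg _ f).2]
      exact measurable_const
    · intro f _
      simp only [(hAlg _ f).2, hcard]
      rw [lintegral_const, measure_univ, mul_one]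
      exact_mod_cast hn
  refine (sInf_le hmemE).trans ?_
  · apply iSup₂_le
    intro f hf
    have hft := comp_clampd_mem hf
    have hcont := continuous_comp_clampd hf
    set g : (Fin d → ℝ) → ℝ := fun x => f (clampd x) with hg
    have hgb : ∀ x, |g x| ≤ 1 := fun x => bound_closed hf (clampd_mem x)
    obtain ⟨D', hD'⟩ := listI_bdd hgb N M (List.finRange d)
    obtain ⟨D, hD⟩ := ten_bdd Fm d
    obtain ⟨c, hc⟩ := exists_fine Fm hM hB hdB hft
    have happ := approx_low Fm N hcont.measurable hgb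
      (fun i x hx => dirI_error N hft hM i hx) hc s
    have hTe : ∀ᵐ x ∂(mu d), |g x - listI N M (List.finRange d) g x|
        ≤ (1 + N.Lam) / (M : ℝ) ^ k * (1 + N.Lam) ^ d := by
      filter_upwards [ae_openCube d] with x hx
      rw [abs_sub_comm]
      have := listI_error N hft hM (List.finRange d) x hx
      rwa [List.length_finRange] at this
    have key := two_stage (μ := mu d) hcont.measurable
      (measurable_listI N M (List.finRange d) hcont.measurable) hgb hD'
      (measurable_ten Fm) hD (ten_orth Fm) (low Fm d s) (kernel_bound Fm hB s) hTe happ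
      hn₁ hn₂ ha ha2
    have hmeas := (measurable_outv (μ := mu d) hcont.measurable
      (measurable_listI N M (List.finRange d) hcont.measurable) (measurable_ten Fm)
      (low Fm d s) (n₁ := n₁) (n₂ := n₂)).const_sub (∫ x, g x ∂(mu d))
    unfold upperInt
    refine (iInf₂_le (fun ω => ENNReal.ofReal |∫ x, g x ∂(mu d) - outv (mu d) g
      (listI N M (List.finRange d) g) (ten Fm) (low Fm d s) ω|) hmeas.abs.ennreal_ofReal).trans ?_
    refine (iInf_le _ ?_).trans key
    intro ω
    beta_reduce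
    rw [(hAlg ω f).1, integral_eq f]
    exact le_rfl

/-- plain Monte Carlo -/
theorem eRan_mc {n : ℕ} (hn : 1 ≤ n) : eRan k d n ≤ ENNReal.ofReal (1 / Real.sqrt n) := by
  classical
  have hnr : (0 : ℝ) < n := by exact_mod_cast hn
  have hloc : ∀ ω : (Fin 1 → Fin d → ℝ) × (Fin n → Fin d → ℝ), ∀ f f' : (Fin d → ℝ) → ℝ,
      (∀ i : Fin n, f ((⟨clampd (ω.2 i), clampd_mem _⟩ : Cube d) : Fin d → ℝ)
        = f' ((⟨clampd (ω.2 i), clampd_mem _⟩ : Cube d) : Fin d → ℝ)) →
      outv (mu d) (fun x => f (clampd x)) (fun _ => 0) (fun (j : Empty) => j.elim) ∅ ω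
        = outv (mu d) (fun x => f' (clampd x)) (fun _ => 0) (fun (j : Empty) => j.elim) ∅ ω := by
    intro ω f f' h
    unfold outv
    simp only [Finset.sum_empty, sub_zero]
    simp only at h
    simp only [h]
  have hA := fun ω : (Fin 1 → Fin d → ℝ) × (Fin n → Fin d → ℝ) =>
    alg_of_local' (I := Fin n) (fun i => (⟨clampd (ω.2 i), clampd_mem _⟩ : Cube d))
      (fun f => outv (mu d) (fun x => f (clampd x)) (fun _ => 0) (fun (j : Empty) => j.elim) ∅ ω)
      (hloc ω)
  choose Alg' hAlg using hA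
  have hmemE : (⨆ f ∈ Fclass k d, upperInt ((Measure.pi fun _ : Fin 1 => mu d).prod
      (Measure.pi fun _ : Fin n => mu d)) (fun ω => ENNReal.ofReal
        |(∫ x in Set.Icc 0 1, f x) - (Alg' ω).run f|)) ∈ ranErrors k d n := by
    refine ⟨(Fin 1 → Fin d → ℝ) × (Fin n → Fin d → ℝ), inferInstance,
      (Measure.pi fun _ => mu d).prod (Measure.pi fun _ => mu d), inferInstance, Alg', ?_, ?_, rfl⟩
    · intro f _
      simp only [(hAlg _ f).2]
      exact measurable_const
    · intro f _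
      simp only [(hAlg _ f).2, Fintype.card_fin]
      rw [lintegral_const, measure_univ, mul_one]
  refine (sInf_le hmemE).trans ?_
  apply iSup₂_le
  intro f hf
  have hcont := continuous_comp_clampd hf
  set g : (Fin d → ℝ) → ℝ := fun x => f (clampd x) with hg
  have hgb : ∀ x, |g x| ≤ 1 := fun x => bound_closed hf (clampd_mem x)
  have hint : ∫ x, g x ^ 2 ∂(mu d) ≤ 1 := by
    have := int_sq_le (μ := mu d) (g := g) (δ := 1) (Filter.Eventually.of_forall hgb)
    simpa using this
  have key := two_stage (μ := mu d) (J := Empty) (f := g) (T := fun _ => 0) hcont.measurable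
    measurable_const hgb (C' := 0) (fun _ => by simp) (e := fun j => j.elim) (fun j => j.elim)
    (D := 0) (fun j => j.elim) (fun j => j.elim) ∅ (K := 0) (ρ := 1) (δ := 1)
    (a := 1 / Real.sqrt n) (fun x => by simp)
    (Filter.Eventually.of_forall fun x => by simpa using hgb x) (by simpa using hint)
    (n₁ := 1) (n₂ := n) le_rfl hn (by positivity) (by
      rw [div_pow, one_pow, Real.sq_sqrt hnr.le]
      simp)
  have hmeas := (measurable_outv (μ := mu d) (J := Empty) (f := g) (T := fun _ => 0)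
    hcont.measurable measurable_const (e := fun j => j.elim) (fun j => j.elim) ∅
    (n₁ := 1) (n₂ := n)).const_sub (∫ x, g x ∂(mu d))
  unfold upperInt
  refine (iInf₂_le (fun ω => ENNReal.ofReal |∫ x, g x ∂(mu d) - outv (mu d) g
    (fun _ => 0) (fun (j : Empty) => j.elim) ∅ ω|) hmeas.abs.ennreal_ofReal).trans ?_
  refine (iInf_le _ ?_).trans key
  intro ω
  beta_reduce
  rw [(hAlg ω f).1, integral_eq f]

end Algo

end Pool.Agent.Helper579.Smooth
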