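import Mathlib
import Pool.Agent.Helper579.SmUpper

set_option autoImplicit false
set_option linter.unusedSectionVars false

namespace Pool.Agent.Helper579.Smooth

open MeasureTheory Set Finset
open scoped ENNReal ContDiff

/-- a bump supported in `(0, 1/2)` -/
noncomputable def eta : ContDiffBump (1 / 4 : ℝ) := ⟨1 / 8, 1 / 4, by norm_num, by norm_num⟩

lemma eta_zero_right {s : ℝ} (hs : 1 / 2 ≤ s) : eta s = 0 := by
  apply eta.zero_of_le_dist
  rw [Real.dist_eq]
  show (1 / 4 : ℝ) ≤ |s - 1 / 4|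
  rw [abs_of_nonneg (by linarith)]
  linarith

lemma eta_zero_left {s : ℝ} (hs : s ≤ 0) : eta s = 0 := by
  apply eta.zero_of_le_dist
  rw [Real.dist_eq]
  show (1 / 4 : ℝ) ≤ |s - 1 / 4|
  rw [abs_of_nonpos (by linarith)]
  linarith

/-- signs -/
def sg (b : Bool) : ℝ := if b then 1 else -1

/-- one-dimensional test functions -/
noncomputable def hfun (σ : Bool × Bool) (s : ℝ) : ℝ := sg σ.1 * eta s + sg σ.2 * eta (s - 1 / 2)

lemma hfun_contDiff (σ : Bool × Bool) : ContDiff ℝ ∞ (hfun σ) := by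
  unfold hfun
  exact (contDiff_const.mul eta.contDiff).add
    (contDiff_const.mul (eta.contDiff.comp (contDiff_id.sub contDiff_const)))

lemma hfun_compact (σ : Bool × Bool) : HasCompactSupport (hfun σ) := by
  apply HasCompactSupport.intro (K := Set.Icc 0 1) isCompact_Icc
  intro s hs
  unfold hfun
  rw [Set.mem_Icc, not_and_or, not_le, not_le] at hs
  rcases hs with h | h
  · rw [eta_zero_left h.le, eta_zero_left (by linarith)]; ring
  · rw [eta_zero_right (by linarith), eta_zero_right (by linarith)]; ring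

lemma hfun_bound (k : ℕ) : ∃ D : ℝ, 0 < D ∧ ∀ σ, ∀ m ≤ k, ∀ s, ‖iteratedFDeriv ℝ m (hfun σ) s‖ ≤ D := by
  have h1 : ∀ (σ : Bool × Bool) (m : ℕ), ∃ D, ∀ s, ‖iteratedFDeriv ℝ m (hfun σ) s‖ ≤ D := by
    intro σ m
    have hc : Continuous (iteratedFDeriv ℝ m (hfun σ)) :=
      (hfun_contDiff σ).continuous_iteratedFDeriv (by exact_mod_cast le_top)
    exact hc.bounded_above_of_compact_support ((hfun_compact σ).iteratedFDeriv m)
  choose D hD using h1
  refine ⟨1 + ∑ σ, ∑ m ∈ range (k + 1), |D σ m|, ?_, ?_⟩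
  · have : 0 ≤ ∑ σ, ∑ m ∈ range (k + 1), |D σ m| :=
      Finset.sum_nonneg fun σ _ => Finset.sum_nonneg fun m _ => abs_nonneg _
    linarith
  · intro σ m hm s
    have h2 : |D σ m| ≤ ∑ m ∈ range (k + 1), |D σ m| :=
      Finset.single_le_sum (f := fun m => |D σ m|) (fun i _ => abs_nonneg _)
        (Finset.mem_range.mpr (by omega))
    have h3 : ∑ m ∈ range (k + 1), |D σ m| ≤ ∑ σ, ∑ m ∈ range (k + 1), |D σ m| :=
      Finset.single_le_sum (f := fun σ => ∑ m ∈ range (k + 1), |D σ m|)
        (fun i _ => Finset.sum_nonneg fun m _ => abs_nonneg _) (Finset.mem_univ σ)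
    have h4 := hD σ m s
    have h5 := le_abs_self (D σ m)
    linarith

/-- the test functions -/
noncomputable def ftest {d : ℕ} (i₀ : Fin d) (ε : ℝ) (σ : Bool × Bool) (x : Fin d → ℝ) : ℝ :=
  ε * hfun σ (x i₀)

lemma ftest_mem {k d : ℕ} (i₀ : Fin d) {D ε : ℝ} (hε : 0 < ε) (hεD : ε * D ≤ 1)
    (hD : ∀ σ, ∀ m ≤ k, ∀ s, ‖iteratedFDeriv ℝ m (hfun σ) s‖ ≤ D) (σ : Bool × Bool) :
    ftest i₀ ε σ ∈ Fclass k d := by
  set L : (Fin d → ℝ) →L[ℝ] ℝ := ContinuousLinearMap.proj i₀ with hL
  have hcd : ContDiff ℝ ∞ (ftest i₀ ε σ) := by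
    unfold ftest
    exact contDiff_const.mul ((hfun_contDiff σ).comp L.contDiff)
  refine ⟨hcd.continuous.continuousOn, (hcd.of_le (by exact_mod_cast le_top)).contDiffOn, ?_⟩
  intro m hm i x _
  have h1 : ftest i₀ ε σ = fun x => ε • (hfun σ ∘ L) x := rfl
  have hcomp : ContDiff ℝ m (hfun σ ∘ L) :=
    ((hfun_contDiff σ).comp L.contDiff).of_le (by exact_mod_cast le_top)
  rw [h1, iteratedFDeriv_const_smul_apply' hcomp.contDiffAt,
    L.iteratedFDeriv_comp_right ((hfun_contDiff σ).of_le (by exact_mod_cast le_top)) x le_rfl]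
  rw [_root_.smul_apply, ContinuousMultilinearMap.compContinuousLinearMap_apply,
    smul_eq_mul, abs_mul, abs_of_pos hε]
  have h2 : |iteratedFDeriv ℝ m (hfun σ) (L x) (fun j => L (Pi.single (i j) 1))| ≤ D := by
    refine ((iteratedFDeriv ℝ m (hfun σ) (L x)).le_opNorm _).trans ?_
    have h3 : ∏ j, ‖L (Pi.single (i j) (1 : ℝ))‖ ≤ 1 := by
      apply Finset.prod_le_one (fun _ _ => norm_nonneg _)
      intro j _
      show ‖(Pi.single (i j) (1 : ℝ) : Fin d → ℝ) i₀‖ ≤ 1
      rw [Pi.single_apply]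
      split_ifs <;> simp
    calc ‖iteratedFDeriv ℝ m (hfun σ) (L x)‖ * ∏ j, ‖L (Pi.single (i j) (1 : ℝ))‖
        ≤ D * 1 := by
          apply mul_le_mul (hD σ m hm _) h3 (Finset.prod_nonneg fun _ _ => norm_nonneg _)
            ((norm_nonneg _).trans (hD σ m hm (L x)))
      _ = D := mul_one D
  calc ε * |iteratedFDeriv ℝ m (hfun σ) (L x) (fun j => L (Pi.single (i j) 1))| ≤ ε * D := by
        gcongr
    _ ≤ 1 := hεD

lemma continuous_eta : Continuous (fun s => eta s) := eta.continuous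

lemma eta_bdd (s : ℝ) : |eta s| ≤ 1 := by
  rw [abs_of_nonneg eta.nonneg]
  exact eta.le_one

lemma kappa_pos {c : ℝ} (hc0 : 0 ≤ c) (hc : c ≤ 1 / 2) : 0 < ∫ s, eta (s - c) ∂nu := by
  have hi : Integrable (fun s => eta (s - c)) nu :=
    integrable_bdd (μ := nu) ((continuous_eta.comp (continuous_id.sub continuous_const)).measurable)
      (fun s => eta_bdd _)
  rw [integral_pos_iff_support_of_nonneg (fun s => eta.nonneg) hi]
  have hsub : Ioo c (c + 1 / 2) ⊆ Function.support (fun s => eta (s - c)) := by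
    intro s hs
    have h1 : s - c ∈ Function.support (fun s => eta s) := by
      have : Function.support (fun s => eta s) = Metric.ball (1 / 4) (1 / 4) := eta.support_eq
      rw [this, Metric.mem_ball, Real.dist_eq, abs_lt]
      constructor <;> linarith [hs.1, hs.2]
    exact h1
  refine lt_of_lt_of_le ?_ (measure_mono hsub)
  unfold nu
  rw [Measure.restrict_apply measurableSet_Ioo]
  have : Ioo c (c + 1 / 2) ∩ Ioo 0 1 = Ioo c (c + 1 / 2) := by
    apply inter_eq_self_of_subset_left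
    intro s hs
    exact ⟨lt_of_le_of_lt hc0 hs.1, lt_of_lt_of_le hs.2 (by linarith)⟩
  rw [this, Real.volume_Ioo]
  simp

/-- masses of the bumps -/
noncomputable def kap (b : Bool) : ℝ := if b then ∫ s, eta (s - 1 / 2) ∂nu else ∫ s, eta (s - 0) ∂nu

lemma kap_pos (b : Bool) : 0 < kap b := by
  unfold kap
  split_ifs
  · exact kappa_pos (by norm_num) le_rfl
  · exact kappa_pos le_rfl (by norm_num)

lemma integral_ftest {d : ℕ} (i₀ : Fin d) (ε : ℝ) (σ : Bool × Bool) :
    ∫ x in Set.Icc (0 : Fin d → ℝ) 1, ftest i₀ ε σ x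
      = ε * (sg σ.1 * kap false + sg σ.2 * kap true) := by
  have i0 : Integrable (fun s => sg σ.1 * eta (s - 0)) nu :=
    (integrable_bdd (μ := nu) ((continuous_eta.comp (continuous_id.sub continuous_const)).measurable)
      (fun s => eta_bdd _)).const_mul _
  have i1 : Integrable (fun s => sg σ.2 * eta (s - 1 / 2)) nu :=
    (integrable_bdd (μ := nu) ((continuous_eta.comp (continuous_id.sub continuous_const)).measurable)
      (fun s => eta_bdd _)).const_mul _
  rw [integral_eq]
  have h1 : ∫ x, ftest i₀ ε σ (clampd x) ∂(mu d) = ∫ x, ε * hfun σ (x i₀) ∂(mu d) := by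
    apply integral_congr_ae
    filter_upwards [ae_openCube d] with x hx
    rw [clampd_eq (openCube_subset hx)]
    rfl
  rw [h1, integral_const_mul]
  congr 1
  have h2 : ∫ x, hfun σ (x i₀) ∂(mu d) = ∫ s, hfun σ s ∂nu := by
    unfold mu
    exact integral_comp_eval (μ := fun _ : Fin d => nu) (i := i₀)
      (hfun_contDiff σ).continuous.aestronglyMeasurable
  rw [h2]
  have h3 : ∀ s, hfun σ s = sg σ.1 * eta (s - 0) + sg σ.2 * eta (s - 1 / 2) := by
    intro s
    unfold hfun
    rw [sub_zero]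
  simp only [h3]
  rw [integral_add i0 i1, integral_const_mul, integral_const_mul]
  rfl

lemma pair_bound {a b c δ : ℝ} (h : 2 * δ ≤ |a - b|) : 2 * δ ≤ |a - c| + |b - c| := by
  have : |a - b| ≤ |a - c| + |b - c| := by
    calc |a - b| = |(a - c) - (b - c)| := by congr 1; ring
      _ ≤ _ := abs_sub _ _
  linarith

/-- average case lower bound for one algorithm -/
lemma tree_bound {d : ℕ} (i₀ : Fin d) {ε c₀ : ℝ} (hε : 0 < ε) (hc₀ : 0 ≤ c₀)
    (hc : ∀ b, c₀ ≤ ε * kap b) (A : Alg d) :
    4 * c₀ ≤ ∑ σ : Bool × Bool, (|(∫ x in Set.Icc (0 : Fin d → ℝ) 1, ftest i₀ ε σ x)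
      - A.run (ftest i₀ ε σ)| + (c₀ / 2) * (A.cost (ftest i₀ ε σ) : ℝ)) := by
  simp only [integral_ftest]
  have hcf := hc false
  have hct := hc true
  have hkf := kap_pos false
  have hkt := kap_pos true
  have hs1 : sg true = 1 := rfl
  have hs2 : sg false = -1 := rfl
  -- generic pair inequality
  have hpair : ∀ (σ τ : Bool × Bool), (2 * c₀ ≤ |ε * (sg σ.1 * kap false + sg σ.2 * kap true)
      - ε * (sg τ.1 * kap false + sg τ.2 * kap true)|) → ∀ B : Alg d,
      (∀ c, B = .out c → B.run (ftest i₀ ε σ) = B.run (ftest i₀ ε τ)) →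
      ∀ w : ℝ, w = 1 → 2 * c₀ ≤
        (|ε * (sg σ.1 * kap false + sg σ.2 * kap true) - B.run (ftest i₀ ε σ)|
          + (c₀ / 2) * ((B.cost (ftest i₀ ε σ) : ℝ) + w)) +
        (|ε * (sg τ.1 * kap false + sg τ.2 * kap true) - B.run (ftest i₀ ε τ)|
          + (c₀ / 2) * ((B.cost (ftest i₀ ε τ) : ℝ) + w)) := by
    intro σ τ h B hB w hw
    cases B with
    | out c =>
      have h1 := pair_bound (c := c) h
      simp only [Alg.run, Alg.cost]
      subst hw
      push_cast
      linarith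
    | ask x next =>
      simp only [Alg.run, Alg.cost]
      subst hw
      push_cast
      have h1 : (0 : ℝ) ≤ ((next (ftest i₀ ε σ x)).cost (ftest i₀ ε σ) : ℝ) := by positivity
      have h2 : (0 : ℝ) ≤ ((next (ftest i₀ ε τ x)).cost (ftest i₀ ε τ) : ℝ) := by positivity
      have h3 := abs_nonneg (ε * (sg σ.1 * kap false + sg σ.2 * kap true)
        - (next (ftest i₀ ε σ x)).run (ftest i₀ ε σ))
      have h4 := abs_nonneg (ε * (sg τ.1 * kap false + sg τ.2 * kap true)
        - (next (ftest i₀ ε τ x)).run (ftest i₀ ε τ))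
      nlinarith
  have d1 : ∀ b : Bool, 2 * c₀ ≤ |ε * (sg b * kap false + sg true * kap true)
      - ε * (sg b * kap false + sg false * kap true)| := by
    intro b
    have : ε * (sg b * kap false + sg true * kap true)
      - ε * (sg b * kap false + sg false * kap true) = 2 * (ε * kap true) := by
      rw [hs1, hs2]; ring
    rw [this, abs_of_pos (by positivity)]
    linarith
  have d2 : ∀ b : Bool, 2 * c₀ ≤ |ε * (sg true * kap false + sg b * kap true)
      - ε * (sg false * kap false + sg b * kap true)| := by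
    intro b
    have : ε * (sg true * kap false + sg b * kap true)
      - ε * (sg false * kap false + sg b * kap true) = 2 * (ε * kap false) := by
      rw [hs1, hs2]; ring
    rw [this, abs_of_pos (by positivity)]
    linarith
  rw [Fintype.sum_prod_type]
  simp only [Fintype.sum_bool]
  cases A with
  | out c =>
    simp only [Alg.run, Alg.cost, Nat.cast_zero, mul_zero, add_zero]
    have h1 := pair_bound (c := c) (d1 true)
    have h2 := pair_bound (c := c) (d1 false)
    linarith
  | ask x next =>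
    simp only [Alg.run, Alg.cost]
    push_cast
    rcases le_total ((x : Fin d → ℝ) i₀) (1 / 2) with hx | hx
    · have hval : ∀ b, ftest i₀ ε (b, true) x = ftest i₀ ε (b, false) x := by
        intro b
        unfold ftest hfun
        rw [eta_zero_left (s := (x : Fin d → ℝ) i₀ - 1 / 2) (by linarith)]
        ring
      have h1 := hpair (true, true) (true, false) (d1 true) (next (ftest i₀ ε (true, true) x))
        (fun c hc' => by rw [hc']; rfl) 1 rfl
      have h2 := hpair (false, true) (false, false) (d1 false) (next (ftest i₀ ε (false, true) x))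
        (fun c hc' => by rw [hc']; rfl) 1 rfl
      rw [hval true] at h1 ⊢
      rw [hval false] at h2 ⊢
      linarith
    · have hval : ∀ b, ftest i₀ ε (true, b) x = ftest i₀ ε (false, b) x := by
        intro b
        unfold ftest hfun
        rw [eta_zero_right (s := (x : Fin d → ℝ) i₀) hx]
        ring
      have h1 := hpair (true, true) (false, true) (d2 true) (next (ftest i₀ ε (true, true) x))
        (fun c hc' => by rw [hc']; rfl) 1 rfl
      have h2 := hpair (true, false) (false, false) (d2 false) (next (ftest i₀ ε (true, false) x))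
        (fun c hc' => by rw [hc']; rfl) 1 rfl
      rw [hval true] at h1 ⊢
      rw [hval false] at h2 ⊢
      linarith

/-- a lower bound for one function value, independent of the dimension -/
theorem eRan_one_ge (k : ℕ) : ∃ c : ℝ, 0 < c ∧ ∀ d : ℕ, 1 ≤ d →
    ENNReal.ofReal c ≤ eRan k d 1 := by
  obtain ⟨D, hD0, hD⟩ := hfun_bound k
  set ε : ℝ := 1 / D with hε
  have hε0 : 0 < ε := by positivity
  set c₀ : ℝ := ε * min (kap false) (kap true) with hc₀
  have hc₀0 : 0 < c₀ := mul_pos hε0 (lt_min (kap_pos _) (kap_pos _))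
  have hc : ∀ b, c₀ ≤ ε * kap b := by
    intro b
    rw [hc₀]
    gcongr
    cases b
    · exact min_le_left _ _
    · exact min_le_right _ _
  refine ⟨c₀ / 2, by positivity, fun d hd => ?_⟩
  let i₀ : Fin d := ⟨0, hd⟩
  have hmem : ∀ σ, ftest i₀ ε σ ∈ Fclass k d := fun σ =>
    ftest_mem i₀ hε0 (by rw [hε]; field_simp; exact le_rfl) hD σ
  apply le_sInf
  rintro e ⟨Ω, mΩ, μ, hμ, A, hcm, hcost, rfl⟩
  by_contra hcon
  push Not at hcon
  have h1 : ∀ σ : Bool × Bool, ∃ g : Ω → ℝ≥0∞, Measurable g ∧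
      (∀ z, ENNReal.ofReal |(∫ x in Set.Icc (0 : Fin d → ℝ) 1, ftest i₀ ε σ x)
        - (A z).run (ftest i₀ ε σ)| ≤ g z) ∧ ∫⁻ z, g z ∂μ < ENNReal.ofReal (c₀ / 2) := by
    intro σ
    have h2 : upperInt μ (fun z => ENNReal.ofReal
        |(∫ x in Set.Icc (0 : Fin d → ℝ) 1, ftest i₀ ε σ x) - (A z).run (ftest i₀ ε σ)|)
        < ENNReal.ofReal (c₀ / 2) := by
      refine lt_of_le_of_lt ?_ hcon
      exact le_iSup₂ (f := fun f (_ : f ∈ Fclass k d) => upperInt μ (fun z => ENNReal.ofReal
        |(∫ x in Set.Icc (0 : Fin d → ℝ) 1, f x) - (A z).run f|)) (ftest i₀ ε σ) (hmem σ)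
    unfold upperInt at h2
    rw [iInf_lt_iff] at h2
    obtain ⟨g, hg⟩ := h2
    rw [iInf_lt_iff] at hg
    obtain ⟨hgm, hg⟩ := hg
    rw [iInf_lt_iff] at hg
    obtain ⟨hge, hg⟩ := hg
    exact ⟨g, hgm, hge, hg⟩
  choose g hgm hge hglt using h1
  have hpt : ∀ z, ENNReal.ofReal (4 * c₀) ≤ ∑ σ : Bool × Bool,
      (g σ z + ENNReal.ofReal (c₀ / 2) * ((A z).cost (ftest i₀ ε σ) : ℝ≥0∞)) := by
    intro z
    refine (ENNReal.ofReal_le_ofReal (tree_bound i₀ hε0 hc₀0.le hc (A z))).trans ?_
    rw [ENNReal.ofReal_sum_of_nonneg (fun σ _ => by positivity)]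
    apply Finset.sum_le_sum
    intro σ _
    rw [ENNReal.ofReal_add (abs_nonneg _) (by positivity), ENNReal.ofReal_mul (by positivity),
      ENNReal.ofReal_natCast]
    gcongr
    exact hge σ z
  have hI : ENNReal.ofReal (4 * c₀) ≤ ∑ σ : Bool × Bool,
      (∫⁻ z, g σ z ∂μ + ENNReal.ofReal (c₀ / 2) * 1) := by
    calc ENNReal.ofReal (4 * c₀) = ∫⁻ _z, ENNReal.ofReal (4 * c₀) ∂μ := by
          rw [lintegral_const, measure_univ, mul_one]
      _ ≤ ∫⁻ z, ∑ σ : Bool × Bool,
          (g σ z + ENNReal.ofReal (c₀ / 2) * ((A z).cost (ftest i₀ ε σ) : ℝ≥0∞)) ∂μ :=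
          lintegral_mono hpt
      _ = ∑ σ : Bool × Bool, ∫⁻ z,
          (g σ z + ENNReal.ofReal (c₀ / 2) * ((A z).cost (ftest i₀ ε σ) : ℝ≥0∞)) ∂μ := by
          apply lintegral_finsetSum
          intro σ _
          apply (hgm σ).add
          apply Measurable.const_mul
          exact (measurable_from_top (f := fun n : ℕ => (n : ℝ≥0∞))).comp (hcm _ (hmem σ))
      _ ≤ _ := by
          apply Finset.sum_le_sum
          intro σ _
          have hm : Measurable (fun z => ((A z).cost (ftest i₀ ε σ) : ℝ≥0∞)) :=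
            (measurable_from_top (f := fun n : ℕ => (n : ℝ≥0∞))).comp (hcm _ (hmem σ))
          rw [lintegral_add_left (hgm σ), lintegral_const_mul _ hm]
          gcongr
          exact_mod_cast hcost _ (hmem σ)
  have hlt : ∑ σ : Bool × Bool, (∫⁻ z, g σ z ∂μ + ENNReal.ofReal (c₀ / 2) * 1)
      < ENNReal.ofReal (4 * c₀) := by
    have e1 : ENNReal.ofReal (4 * c₀) = ∑ _σ : Bool × Bool,
        (ENNReal.ofReal (c₀ / 2) + ENNReal.ofReal (c₀ / 2) * 1) := by
      rw [mul_one, ← ENNReal.ofReal_add (by positivity) (by positivity), add_halves,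
        Finset.sum_const, nsmul_eq_mul]
      rw [ENNReal.ofReal_mul (by norm_num)]
      simp
    rw [e1]
    apply ENNReal.sum_lt_sum_of_nonempty Finset.univ_nonempty
    intro σ _
    exact ENNReal.add_lt_add_right (by simp) (hglt σ)
  exact absurd hI (not_le.mpr hlt)

end Pool.Agent.Helper579.Smooth
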