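import Mathlib
import Pool.Agent.Helper579.SmUpper

set_option autoImplicit false
set_option linter.unusedSectionVars false

namespace Pool.Agent.Helper579.Smooth

open MeasureTheory Set Finset Polynomial
open scoped ENNReal

lemma pow_add_pow_le' (x y : ℕ) : ∀ {d : ℕ}, 1 ≤ d → x ^ d + y ^ d ≤ (x + y) ^ d
  | 1, _ => by simp
  | d + 2, _ => by
    have ih := pow_add_pow_le' x y (d := d + 1) (by omega)
    calc x ^ (d + 2) + y ^ (d + 2) = x ^ (d + 1) * x + y ^ (d + 1) * y := by ring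
      _ ≤ x ^ (d + 1) * (x + y) + y ^ (d + 1) * (x + y) := by gcongr <;> omega
      _ = (x ^ (d + 1) + y ^ (d + 1)) * (x + y) := by ring
      _ ≤ (x + y) ^ (d + 1) * (x + y) := by gcongr
      _ = (x + y) ^ (d + 2) := by ring

lemma exists_scale {C₆ d n : ℕ} (hC : 1 ≤ C₆) (hd : 1 ≤ d) (hn : 2 * C₆ ^ d ≤ n) :
    ∃ M : ℕ, 1 ≤ M ∧ 2 * (C₆ * M) ^ d ≤ n ∧ n < (4 * C₆ * M) ^ d := by
  classical
  have hP1 : 2 * (C₆ * 1) ^ d ≤ n := by simpa using hn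
  have h1n : 1 ≤ n := le_trans (by have := Nat.one_le_pow d C₆ hC; omega) hn
  set M := Nat.findGreatest (fun M => 2 * (C₆ * M) ^ d ≤ n) n with hM
  have hMP : 2 * (C₆ * M) ^ d ≤ n :=
    Nat.findGreatest_spec (P := fun M => 2 * (C₆ * M) ^ d ≤ n) h1n hP1
  have hM1 : 1 ≤ M := Nat.le_findGreatest h1n hP1
  refine ⟨M, hM1, hMP, ?_⟩
  have hfail : n < 2 * (C₆ * (M + 1)) ^ d := by
    by_contra hcon
    push Not at hcon
    rcases Nat.lt_or_ge n (M + 1) with h | h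
    · have h2 : M + 1 ≤ (C₆ * (M + 1)) ^ d := by
        calc M + 1 ≤ C₆ * (M + 1) := Nat.le_mul_of_pos_left _ hC
          _ = (C₆ * (M + 1)) ^ 1 := (pow_one _).symm
          _ ≤ (C₆ * (M + 1)) ^ d := Nat.pow_le_pow_right (by positivity) hd
      omega
    · have := Nat.findGreatest_is_greatest (P := fun M => 2 * (C₆ * M) ^ d ≤ n)
        (n := n) (k := M + 1) (by omega) h
      exact this hcon
  calc n < 2 * (C₆ * (M + 1)) ^ d := hfail
    _ ≤ 2 ^ d * (C₆ * (M + 1)) ^ d := by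
        gcongr
        calc 2 = 2 ^ 1 := (pow_one _).symm
          _ ≤ 2 ^ d := Nat.pow_le_pow_right (by norm_num) hd
    _ = (2 * (C₆ * (M + 1))) ^ d := (mul_pow _ _ _).symm
    _ ≤ (4 * C₆ * M) ^ d := by
        apply Nat.pow_le_pow_left
        nlinarith

lemma rpow_root {n d k P : ℕ} (hd : 1 ≤ d) (h : n ≤ P ^ d) :
    (n : ℝ) ^ ((k : ℝ) / d) ≤ (P : ℝ) ^ k := by
  have hdr : (0 : ℝ) < d := by exact_mod_cast hd
  calc (n : ℝ) ^ ((k : ℝ) / d) ≤ ((P : ℝ) ^ d) ^ ((k : ℝ) / d) := by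
        apply Real.rpow_le_rpow (by positivity) _ (by positivity)
        exact_mod_cast h
    _ = (P : ℝ) ^ k := by
        rw [← Real.rpow_natCast, ← Real.rpow_mul (by positivity), ← Real.rpow_natCast]
        congr 1
        field_simp

lemma pow_s_le {t : ℝ} (ht0 : 0 < t) {d : ℕ} (hd : 1 ≤ d) :
    (d : ℝ) ^ (⌊(d : ℝ) ^ (1 - 2 * t)⌋₊) ≤ (Real.exp (1 / (2 * t))) ^ d := by
  have hdr : (1 : ℝ) ≤ d := by exact_mod_cast hd
  have hd0 : (0 : ℝ) < d := by linarith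
  set s := ⌊(d : ℝ) ^ (1 - 2 * t)⌋₊ with hs
  have h1 : (s : ℝ) ≤ (d : ℝ) ^ (1 - 2 * t) := Nat.floor_le (by positivity)
  have h2 : Real.log d ≤ (d : ℝ) ^ (2 * t) / (2 * t) := Real.log_le_rpow_div hd0.le (by positivity)
  have h3 : 0 ≤ Real.log d := Real.log_nonneg hdr
  have h4 : (d : ℝ) ^ s = Real.exp (s * Real.log d) := by
    rw [mul_comm, Real.exp_mul, Real.exp_log hd0, Real.rpow_natCast]
  rw [h4, ← Real.exp_nat_mul]
  apply Real.exp_le_exp.mpr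
  calc (s : ℝ) * Real.log d ≤ (d : ℝ) ^ (1 - 2 * t) * ((d : ℝ) ^ (2 * t) / (2 * t)) := by gcongr
    _ = (d : ℝ) ^ (1 - 2 * t + 2 * t) / (2 * t) := by
        rw [Real.rpow_add hd0]; ring
    _ = d * (1 / (2 * t)) := by
        have : (1 : ℝ) - 2 * t + 2 * t = 1 := by ring
        rw [this, Real.rpow_one]; ring

theorem upper_small {k : ℕ} {t : ℝ} (ht0 : 0 < t) (ht1 : t ≤ 1 / 2) : t ∈ exponents k := by
  classical
  obtain ⟨K, p, hdeg, hp, hspan⟩ := exists_orthopoly k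
  obtain ⟨N⟩ := exists_nodes k
  obtain ⟨cP, hcP0, hcP⟩ : ∃ cP : ℝ, 0 ≤ cP ∧ ∀ y ∈ Set.Icc (0 : ℝ) 1, ∑ a, (p a).eval y ^ 2 ≤ cP := by
    have hcont : Continuous (fun y : ℝ => ∑ a, (p a).eval y ^ 2) :=
      continuous_finsetSum _ fun a _ => (p a).continuous.pow 2
    obtain ⟨C, hC⟩ := (isCompact_Icc (a := (0 : ℝ)) (b := 1)).exists_bound_of_continuousOn
      hcont.continuousOn
    exact ⟨max C 0, le_max_right _ _, fun y hy =>
      ((le_abs_self _).trans (hC y hy)).trans (le_max_left _ _)⟩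
  have hL1 := N.one_le
  obtain ⟨C₅, hC₅⟩ := exists_nat_ge (Real.exp (1 / (2 * t)) * (2 * cP) * (1 + N.Lam) ^ 2 + 1)
  have hC₅1 : 1 ≤ C₅ := by
    have : (1 : ℝ) ≤ C₅ := by
      refine le_trans ?_ hC₅
      have : 0 ≤ Real.exp (1 / (2 * t)) * (2 * cP) * (1 + N.Lam) ^ 2 := by positivity
      linarith
    exact_mod_cast this
  set C₆ := k + C₅ with hC₆
  have hC₆1 : 1 ≤ C₆ := by omega
  refine ⟨Real.sqrt 6 * (1 + N.Lam) * (4 * C₆) ^ k, fun d n hd hn => ?_⟩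
  have hdr : (1 : ℝ) ≤ d := by exact_mod_cast hd
  have hd0 : (0 : ℝ) < d := by linarith
  have hnr : (0 : ℝ) < n := by exact_mod_cast hn
  have hdt : (1 : ℝ) ≤ (d : ℝ) ^ t := Real.one_le_rpow hdr ht0.le
  have hsplit : (n : ℝ) ^ (-((k : ℝ) / d) - 1 / 2) = ((n : ℝ) ^ ((k : ℝ) / d))⁻¹ * (Real.sqrt n)⁻¹ := by
    rw [sub_eq_add_neg, Real.rpow_add hnr, Real.rpow_neg hnr.le, Real.rpow_neg hnr.le,
      Real.sqrt_eq_rpow]
  rcases Nat.lt_or_ge n (2 * C₆ ^ d) with hsmall | hlarge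
  · refine (eRan_mc hn).trans (ENNReal.ofReal_le_ofReal ?_)
    have h1 : n ≤ (4 * C₆) ^ d := by
      calc n ≤ 2 * C₆ ^ d := hsmall.le
        _ ≤ 4 ^ d * C₆ ^ d := by
            gcongr
            calc 2 ≤ 4 ^ 1 := by norm_num
              _ ≤ 4 ^ d := Nat.pow_le_pow_right (by norm_num) hd
        _ = (4 * C₆) ^ d := (mul_pow _ _ _).symm
    have h2 := rpow_root (k := k) hd h1
    push_cast at h2
    rw [hsplit]
    have h3 : 1 ≤ Real.sqrt 6 * (1 + N.Lam) := by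
      have : (1 : ℝ) ≤ Real.sqrt 6 := Real.one_le_sqrt.mpr (by norm_num)
      nlinarith
    have hpos : 0 < (n : ℝ) ^ ((k : ℝ) / d) := by positivity
    calc 1 / Real.sqrt n = 1 * 1 * 1 * ((Real.sqrt n)⁻¹) := by ring
      _ ≤ (Real.sqrt 6 * (1 + N.Lam)) * ((4 * C₆) ^ k * ((n : ℝ) ^ ((k : ℝ) / d))⁻¹) *
          (d : ℝ) ^ t * (Real.sqrt n)⁻¹ := by
          gcongr
          rw [← div_eq_mul_inv, le_div_iff₀ hpos, one_mul]
          exact h2
      _ = _ := by ring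
  · obtain ⟨M, hM1, hMn, hMlt⟩ := exists_scale hC₆1 hd hlarge
    have hMr : (0 : ℝ) < M := by exact_mod_cast hM1
    set s := ⌊(d : ℝ) ^ (1 - 2 * t)⌋₊ with hs
    set n₁ := (C₅ * M) ^ d with hn₁
    have hn₁1 : 1 ≤ n₁ := Nat.one_le_pow _ _ (Nat.mul_pos hC₅1 hM1)
    have hcost : (M * k) ^ d + n₁ ≤ (C₆ * M) ^ d := by
      rw [hn₁]
      calc (M * k) ^ d + (C₅ * M) ^ d ≤ (M * k + C₅ * M) ^ d := pow_add_pow_le' _ _ hd
        _ = (C₆ * M) ^ d := by congr 1; rw [hC₆]; ring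
    set n₂ := n - (M * k) ^ d - n₁ with hn₂
    have hn₂' : (M * k) ^ d + n₁ + n₂ = n := by omega
    have hn₂n : n ≤ 2 * n₂ := by omega
    have hn₂1 : 1 ≤ n₂ := by omega
    have hn₂r : (0 : ℝ) < n₂ := by exact_mod_cast hn₂1
    obtain ⟨Fm⟩ := exists_family (k := k) hdeg hp hspan hcP0 hcP hM1 hd
    set a : ℝ := Real.sqrt (3 / n₂) * ((1 + N.Lam) * (d : ℝ) ^ t / (M : ℝ) ^ k) with ha
    have ha0 : 0 < a := by positivity
    have hasq : a ^ 2 = (1 / (n₂ : ℝ)) * (3 * ((1 + N.Lam) / (M : ℝ) ^ k) ^ 2 * ((d : ℝ) ^ t) ^ 2) := by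
      rw [ha, mul_pow, Real.sq_sqrt (by positivity)]
      ring
    have hdt2 : ((d : ℝ) ^ t) ^ 2 = (d : ℝ) ^ (2 * t) := by
      rw [← Real.rpow_natCast, ← Real.rpow_mul hd0.le]
      congr 1
      push_cast; ring
    have hds : (d : ℝ) / (s + 1) ≤ (d : ℝ) ^ (2 * t) := by
      rw [div_le_iff₀ (by positivity)]
      have h1 : (d : ℝ) ^ (1 - 2 * t) < s + 1 := Nat.lt_floor_add_one _
      calc (d : ℝ) = (d : ℝ) ^ (2 * t) * (d : ℝ) ^ (1 - 2 * t) := by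
            rw [← Real.rpow_add hd0]
            have : 2 * t + (1 - 2 * t) = 1 := by ring
            rw [this, Real.rpow_one]
        _ ≤ (d : ℝ) ^ (2 * t) * (s + 1) := by gcongr
    have hbound := eRan_le (k := k) (d := d) N Fm hM1 hd le_rfl s hn₁1 hn₂1 hn₂'.le ha0 (by
      rw [hasq]
      gcongr
      set v := (1 + N.Lam) / (M : ℝ) ^ k with hv
      have hv0 : 0 ≤ v := by positivity
      have hA : (1 / (M : ℝ) ^ k) ^ 2 ≤ v ^ 2 * ((d : ℝ) ^ t) ^ 2 := by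
        have h1 : 1 / (M : ℝ) ^ k ≤ v := by
          rw [hv]; gcongr; linarith
        calc (1 / (M : ℝ) ^ k) ^ 2 ≤ v ^ 2 := by gcongr
          _ = v ^ 2 * 1 := (mul_one _).symm
          _ ≤ v ^ 2 * ((d : ℝ) ^ t) ^ 2 := by
              gcongr
              exact one_le_pow₀ hdt
      have hB : (d : ℝ) * v ^ 2 / (s + 1) ≤ v ^ 2 * ((d : ℝ) ^ t) ^ 2 := by
        rw [hdt2]
        calc (d : ℝ) * v ^ 2 / (s + 1) = v ^ 2 * (d / (s + 1)) := by ring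
          _ ≤ _ := by gcongr
      have hC : (d : ℝ) ^ s * (2 * (M * cP)) ^ d * (v * (1 + N.Lam) ^ d) ^ 2 / (n₁ : ℝ)
          ≤ v ^ 2 * ((d : ℝ) ^ t) ^ 2 := by
        rw [div_le_iff₀ (by positivity)]
        have h1 := pow_s_le ht0 hd
        rw [← hs] at h1
        have h2 : (Real.exp (1 / (2 * t)) * (2 * cP) * (1 + N.Lam) ^ 2) ^ d ≤ (C₅ : ℝ) ^ d := by
          gcongr
          linarith
        calc (d : ℝ) ^ s * (2 * (M * cP)) ^ d * (v * (1 + N.Lam) ^ d) ^ 2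
            ≤ (Real.exp (1 / (2 * t))) ^ d * (2 * (M * cP)) ^ d * (v * (1 + N.Lam) ^ d) ^ 2 := by
              gcongr
          _ = v ^ 2 * ((Real.exp (1 / (2 * t)) * (2 * cP) * (1 + N.Lam) ^ 2) ^ d * (M : ℝ) ^ d) := by
              generalize 1 + N.Lam = w
              generalize Real.exp (1 / (2 * t)) = E
              ring
          _ ≤ v ^ 2 * ((C₅ : ℝ) ^ d * (M : ℝ) ^ d) := by gcongr
          _ = v ^ 2 * 1 * (n₁ : ℝ) := by
              rw [hn₁]; push_cast; rw [mul_pow]; ring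
          _ ≤ v ^ 2 * ((d : ℝ) ^ t) ^ 2 * (n₁ : ℝ) := by
              gcongr
              exact one_le_pow₀ hdt
      linarith)
    refine hbound.trans (ENNReal.ofReal_le_ofReal ?_)
    have h2 := rpow_root (k := k) hd hMlt.le
    push_cast at h2
    rw [hsplit]
    have hpos : 0 < (n : ℝ) ^ ((k : ℝ) / d) := by positivity
    have h3 : 1 / (M : ℝ) ^ k ≤ (4 * C₆) ^ k * ((n : ℝ) ^ ((k : ℝ) / d))⁻¹ := by
      rw [← div_eq_mul_inv, div_le_div_iff₀ (by positivity) hpos, one_mul, ← mul_pow]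
      exact h2
    have h4 : Real.sqrt (3 / n₂) ≤ Real.sqrt 6 * (Real.sqrt n)⁻¹ := by
      rw [← div_eq_mul_inv, ← Real.sqrt_div (by norm_num)]
      apply Real.sqrt_le_sqrt
      rw [div_le_div_iff₀ hn₂r hnr]
      have : (n : ℝ) ≤ 2 * n₂ := by exact_mod_cast hn₂n
      linarith
    calc a = Real.sqrt (3 / n₂) * ((1 + N.Lam) * (d : ℝ) ^ t * (1 / (M : ℝ) ^ k)) := by
          rw [ha]; ring
      _ ≤ (Real.sqrt 6 * (Real.sqrt n)⁻¹) * ((1 + N.Lam) * (d : ℝ) ^ t *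
          ((4 * C₆) ^ k * ((n : ℝ) ^ ((k : ℝ) / d))⁻¹)) := by gcongr
      _ = _ := by ring

lemma exponents_mono {k : ℕ} {t t' : ℝ} (h : t ∈ exponents k) (htt : t ≤ t') :
    t' ∈ exponents k := by
  obtain ⟨C, hC⟩ := h
  refine ⟨max C 0, fun d n hd hn => (hC d n hd hn).trans (ENNReal.ofReal_le_ofReal ?_)⟩
  have hdr : (1 : ℝ) ≤ d := by exact_mod_cast hd
  have h1 : (d : ℝ) ^ t ≤ (d : ℝ) ^ t' := Real.rpow_le_rpow_of_exponent_le hdr htt
  have h2 : 0 ≤ (n : ℝ) ^ (-((k : ℝ) / d) - 1 / 2) := by positivity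
  have h3 : 0 ≤ (d : ℝ) ^ t := by positivity
  calc C * (d : ℝ) ^ t * (n : ℝ) ^ (-((k : ℝ) / d) - 1 / 2)
      ≤ max C 0 * (d : ℝ) ^ t * (n : ℝ) ^ (-((k : ℝ) / d) - 1 / 2) := by
        gcongr; exact le_max_left _ _
    _ ≤ _ := by gcongr

theorem upper {k : ℕ} {t : ℝ} (ht0 : 0 < t) : t ∈ exponents k := by
  rcases le_total t (1 / 2) with h | h
  · exact upper_small ht0 h
  · exact exponents_mono (upper_small (t := 1 / 2) (by norm_num) le_rfl) h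

end Pool.Agent.Helper579.Smooth
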